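import Pool.Agent.MP_c78e8e_al.Sg.Top

attribute [-instance] SemilinearMapClass.toAddHomClass Fintype.decidableForallFintype
  instNoNatZeroDivisorsOfIsAddTorsionFree Unique.instInhabited MonoidWithZeroHomClass.toZeroHomClass
  DistribMulActionSemiHomClass.toAddMonoidHomClass littleWedderburn NormedField.toField
  FiniteField.instGrindPowIdentity instCharZeroOfIsSemireal Nontrivial.to_nonempty RKHS.instFunLike
  NonUnitalNonAssocSemiring.toMulZeroClass CompletePartialOrder.toPartialOrder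
  AddCommMonoidWithOne.toAddMonoidWithOne RingSeminormClass.toAddGroupSeminormClass
  AddQuantale.instAddLeftMono instCoeTCOfCoe NonUnitalNonAssocSemiring.toAddCommMonoid
  NormedRing.toRing NormedCommRing.toCommRing AddGroupNormClass.toAddGroupSeminormClass
  instInhabitedOfMonad Finset.decidableDforallFinset AddCommGroupWithOne.toAddGroupWithOne
  SeminormClass.toAddGroupSeminormClass IdemSemiring.toCanonicallyOrderedAdd
  Multiset.decidableDforallMultiset RCLike.charZero_rclike ConnectedSpace.toNonempty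
  Vector.instDecidableForallForallMemOfDecidablePred SeminormedRing.toRing
  NormedDivisionRing.toDivisionRing IdemSemiring.toSemiring
  Array.instDecidableForallForallMemOfDecidablePred Option.decidableForallMem NeZero.of_gt'
  CategoryTheory.IsConnected.is_nonempty MonTypeEquivalenceMon.monMonoid supSet_to_nonempty
  MulZeroOneClass.toMulZeroClass BooleanRing.toRing bot_nonempty Int.decidableLTLE
  EuclideanDomain.toCommRing SubfieldClass.toSubringClass SeminormedCommRing.toCommRing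
  Group.IsPerfect.subsingleton_of_isMulCommutative One.instNonempty IrreducibleSpace.toNonempty
  Zero.instNonempty infSet_to_nonempty top_nonempty AddGroup.addLeftReflectLE_of_addLeftMono
  NumberField.to_charZero Int.decidableLELE MulRingNormClass.toMulRingSeminormClass
  FloorSemiring.instCharZero Int.decidableLTLT AlgHomClass.toRingHomClass
  NonUnitalRing.toNonUnitalNonAssocRing NonUnitalSubsemiringClass.toAddSubmonoidClass
  Int.decidableLELT AddQuantale.instAddRightMono instCoeHTC instCoeHTCT instCoeTC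
  BooleanRing.toCommRing Invertible.toNeZero OmegaCompletePartialOrder.toPartialOrder
  LieAdmissibleRing.toNonUnitalNonAssocRing GeneralizedCoheytingAlgebra.toLattice Ring.toSemiring
  TestFunctionClass.toDFunLike ContDiffMapSupportedInClass.toDFunLike Pi.instNonempty
  GrpTypeEquivalenceGrp.grpGroup AddCommMonoidWithOne.toAddCommMonoid SeminormedCommGroup.toCommGroup
  ChainCompletePartialOrder.toPartialOrder LinearOrderedAddCommGroupWithTop.toSubNegMonoid
  NonUnitalRingHomClass.toAddMonoidHomClass MulRingSeminormClass.toAddGroupSeminormClass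
  BialgHomClass.toMonoidHomClass IdemCommSemiring.toCommSemiring LieRing.toAddCommGroup
  instIsEmptyForallOfNonempty Std.instLawfulBEqOfLawfulOrderBEqOfIsPartialOrder
  CategoryTheory.Limits.Concrete.instUniqueToTypeTerminal NonUnitalNormedCommRing.toNonUnitalCommRing
  LinearOrderedAddCommMonoidWithTop.toAddCommMonoid MulSemiringActionSemiHomClass.toRingHomClass
  NonUnitalSemiring.toNonUnitalNonAssocSemiring NonAssocSemiring.toNonUnitalNonAssocSemiring

section

namespace Pool.Agent.MP_c78e8e_al.H75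

open Subgroup

/-- Classical families. -/
inductive Fam
  | I | C | X | D0 | D
  deriving DecidableEq

namespace Fam
def e1 : Fam → ℕ | I => 2 | C => 1 | X => 1 | D0 => 0 | D => 0
def a1 : Fam → ℕ | I => 1 | C => 1 | X => 2 | D0 => 1 | D => 2
def a2 : Fam → ℕ | I => 1 | C => 1 | X => 2 | D0 => 1 | D => 0
def isD : Fam → Bool | D => true | _ => false
def isX : Fam → Bool | X => true | _ => false
variable (F : Fam)

def g {ι : Type} [DecidableEq ι] (o : Option ι) (b : Bool) (o' : Option ι) (b' : Bool) : ℤ :=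
  if o = o' then (if o = none then (if b = b' then F.a1 else F.a2) else if b = b' then 2 else F.e1 : ℕ) - 1
  else 0

def rv {ι L : Type} [DecidableEq ι] [Neg L] (pv : Option ι → Bool → L) (o : Option ι) (b : Bool) : L :=
  match F with
  | .I => pv o b
  | .D0 => pv o b
  | .D => pv o (if o = none then !b else b)
  | _ => -pv o (!b)

def bar (x : ℕ) : ℕ := Nat.sub (Nat.add x 1) (Nat.mul 2 (Nat.mod x 2))
def gp (l x u : ℕ) : ℕ :=
  bif Nat.beq (Nat.div x 2) (Nat.div u 2) then bif Nat.ble (Nat.div x 2) l then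
    bif Nat.ble x 1 then bif Nat.beq x u then F.a1 else F.a2 else bif Nat.beq x u then 2 else F.e1
    else 1 else 1
def B (l : ℕ) (c d : ℕ × ℕ) : ℤ :=
  Int.subNatNat (Nat.add (F.gp l c.1 d.1) (F.gp l c.2 d.2)) (Nat.add (F.gp l c.1 d.2) (F.gp l c.2 d.1))
def bz (x : ℕ) : ℕ := bif Nat.ble x 1 then bar x else x
def rho : Fam → ℕ × ℕ → ℕ × ℕ
  | I, c => c
  | D0, c => c
  | D, c => (bz c.1, bz c.2)
  | _, c => (bar c.2, bar c.1)
def rfp (l : ℕ) (z : ℕ × ℕ) (x : ℕ) : ℕ :=
  match F.gp l x z.1, F.gp l x z.2 with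
  | 2, 1 => z.2
  | 1, 2 => z.1
  | 1, 0 => bar z.1
  | 0, 1 => bar z.2
  | _, _ => x
def op0 (l : ℕ) : Op0 (ℕ × ℕ) :=
  ⟨F.B l, F.rho, fun z c => (F.rfp l z c.1, F.rfp l z c.2)⟩
def ng (l o : ℕ) (ex : Bool) (s x : ℕ) : Option ℕ :=
  bif Nat.ble x 1 then some (bif F.isD then bar x else x) else
  bif Nat.ble (x / 2) l && (ex || Nat.beq (x / 2 + ((2 * (o + s) + l - x / 2 - 1) % l + 1)) (2 * (o + s)))
  then some (2 * ((2 * (o + s) + l - x / 2 - 1) % l + 1) +
    (bif F.isD && Nat.beq (x / 2) (o + s) then bar x else x) % 2) else none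
def ngc (l o : ℕ) (ex : Bool) (s : ℕ) (c : ℕ × ℕ) : Option (ℕ × ℕ) :=
  match F.ng l o ex s c.1, F.ng l o ex s c.2 with
  | some x, some y => some (x, y)
  | _, _ => none
def ops (l o : ℕ) (ex m2 mtr mid odd : Bool) : Ops (ℕ × ℕ) :=
  ⟨F.B l, F.rho, F.ngc l o ex 0, F.ngc l o ex 1, m2, mtr, mid, odd⟩
def quad (i j : ℕ) : List (ℕ × ℕ) :=
  [(2 * i, 2 * j), (2 * i, 2 * j + 1), (2 * i + 1, 2 * j), (2 * i + 1, 2 * j + 1)]
def tcP (o : ℕ) : List (ℕ × ℕ) :=
  quad o (o + 1) ++ quad (o + 1) o ++ quad (o + 1) (o + 2) ++ quad (o + 2) (o + 1) ++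
    [(2 * o, 2 * o + 1), (2 * o + 1, 2 * o), (2 * o, 0), (0, 2 * o)]
def chkP (l o : ℕ) (ex m2 mtr mid odd : Bool) (ct : Cert (ℕ × ℕ)) : Bool :=
  let P := F.ops l o ex m2 mtr mid odd
  decide (1 ≤ o) && decide (o + 2 ≤ l) &&
  (decide (ct.dk < 3) || F.isX && (ct.r1.1 / 2 == 0 || ct.r1.1 / 2 == o) &&
    (ct.r1.2 / 2 == 0 || ct.r1.2 / 2 == o)) &&
  (P.isR (2 * o, 2 * o + 2) && P.isR (2 * o + 2, 2 * o + 4) &&
    P.B (2 * o, 2 * o + 2) (2 * o + 2, 2 * o + 4) == -1 &&
    P.k0 (2 * o, 2 * o + 2) (2 * o + 2, 2 * o + 4)) &&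
  ct.check P ((tcP o).filter P.isR)
def tcG (n : ℕ) : List (ℕ × ℕ) :=
  [(4, 3), (3, 4), (2, 3), (3, 2), (2, 0), (0, 2)] ++
    (List.range (n - 1)).flatMap fun p => [(2 * p + 2, 2 * p + 4), (2 * p + 4, 2 * p + 2)]

theorem bar_eq (x : ℕ) : bar x = x + 1 - 2 * (x % 2) := rfl

theorem gp_eq (l x u : ℕ) : F.gp l x u = if x / 2 = u / 2 then if x / 2 ≤ l then
    if x ≤ 1 then if x = u then F.a1 else F.a2 else if x = u then 2 else F.e1 else 1 else 1 := by
  simp only [gp, cond_eq_ite, Nat.beq_eq, Nat.ble_eq]; rfl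

end Fam

variable {G L K : Type} [Group G] [AddCommGroup L] [Field K]

/-- Both signs of a difference are full. -/
def St.F2 (S : St G L K) (H : Subgroup G) (u v : L) : Prop := S.Fu H (u - v) ∧ S.Fu H (v - u)

/-- Shapes of simple roots. -/
def Sh {L : Type} {n : ℕ} (pv : Option (ZMod n) → Bool → L) (u v : L) : Prop :=
  (∃ p : ℕ, p + 1 < n ∧ u = pv (some p) false ∧ v = pv (some (p + 1)) false) ∨
  (u = pv (some 1) false ∧ v = pv (some 0) true) ∨ (u = pv (some 0) false ∧ v = pv (some 0) true) ∨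
  (u = pv (some 0) false ∧ v = pv none false)

/-- Coordinates for the classical families. -/
structure Frame (S : St G L K) (F : Fam) (n : ℕ) where
  pv : Option (ZMod n) → Bool → L
  gram : ∀ o b o' b', S.B (pv o b) (pv o' b') = F.g o b o' b'
  rho : ∀ o b, S.ρ (pv o b) = F.rv pv o b
  root : ∀ o b o' b', S.B (pv o b - pv o' b') (pv o b - pv o' b') = 2 → S.R (pv o b - pv o' b')
  fin : ∀ H, (∀ u v, Sh pv u v → S.F2 H u v) → ∀ β, S.Fu H β
  span : ∀ f : L →+ ℤ, (∀ u v, Sh pv u v → S.R (u - v) → Even (f (u - v)) ∧ Even (f (S.ρ (u - v)))) →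
    ∀ β, S.R β → Even (f β)

namespace Frame
open St Fam
variable {S : St G L K} {F : Fam} {n : ℕ} (R : Frame S F n)

theorem pvI (h : F = .I) (o : Option (ZMod n)) : R.pv o true = R.pv o false :=
  sub_eq_zero.1 (S.defn _ (by
    subst h; cases o <;> simp [R.gram, g, a1, a2, e1]))

theorem pvD (h : F = .D0 ∨ F = .D) (o : Option (ZMod n)) : R.pv o true = -R.pv o false :=
  eq_neg_of_add_eq_zero_left (S.defn _ (by
    rcases h with rfl | rfl <;> cases o <;> simp [R.gram, g, a1, a2, e1]))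

/-- Decoding of positions. -/
def dec (l o x : ℕ) : L :=
  if x / 2 ≤ l then R.pv (if x ≤ 1 then none else some ((x / 2 : ℕ) - (o : ZMod n))) (x % 2 = 1) else 0

/-- Decoding of pairs. -/
def e (l o : ℕ) (c : ℕ × ℕ) : L := R.dec l o c.1 - R.dec l o c.2

variable {l : ℕ} (hl : l ≤ n) (o : ℕ)
include hl

omit R in
theorem cast_inj {i j : ℕ} (hi : 1 ≤ i) (hj : 1 ≤ j) (hi' : i ≤ l) (hj' : j ≤ l)
    (h : (i : ZMod n) = j) : i = j := by
  rw [ZMod.natCast_eq_natCast_iff] at h
  exact h.eq_of_abs_lt (by rw [abs_lt]; omega)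

theorem gp_dec (x u : ℕ) : S.B (R.dec l o x) (R.dec l o u) = (F.gp l x u : ℤ) - 1 := by
  rw [gp_eq, dec, dec]
  by_cases hx : x / 2 ≤ l
  swap
  · simp only [hx, ↓ reduceIte, map_zero, AddMonoidHom.zero_apply, ite_self, Nat.cast_one, sub_self]
  by_cases hu : u / 2 ≤ l
  swap
  · simp only [hu, ↓ reduceIte, map_zero, show x / 2 ≠ u / 2 by omega, Nat.cast_one, sub_self]
  simp only [hx, hu, if_true, R.gram, g]
  by_cases e : x / 2 = u / 2
  · have : (x % 2 = 1 ↔ u % 2 = 1) ↔ x = u := by omega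
    by_cases h : x ≤ 1 <;> simp only [h, ↓ reduceIte, show u ≤ 1 ↔ x ≤ 1 by omega, decide_eq_decide, this, Nat.cast_ite, e, reduceCtorEq, Nat.cast_ofNat]
  · rw [if_neg e, if_neg]
    · rfl
    split_ifs with h h' h'
    · omega
    · simp
    · simp
    · simpa only [Option.some.injEq, sub_left_inj, imp_false] using fun q => e (cast_inj hl (by omega) (by omega) hx hu q)

theorem B_e (c d : ℕ × ℕ) : F.B l c d = S.B (R.e l o c) (R.e l o d) := by
  simp only [e, map_sub, AddMonoidHom.sub_apply, R.gp_dec hl, Fam.B, Int.subNatNat_eq_coe,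
    Nat.add_eq]
  push_cast; ring

omit hl in
theorem dec_bar (x : ℕ) : R.dec l o (bar x) = if x / 2 ≤ l then
    R.pv (if x ≤ 1 then none else some ((x / 2 : ℕ) - (o : ZMod n))) (!decide (x % 2 = 1)) else 0 := by
  have h1 : bar x / 2 = x / 2 := by rw [bar_eq]; omega
  have h2 : bar x ≤ 1 ↔ x ≤ 1 := by rw [bar_eq]; omega
  have h3 : decide (bar x % 2 = 1) = !decide (x % 2 = 1) := by
    rw [← decide_not, decide_eq_decide, bar_eq]; omega
  simp only [dec, h1, h2, h3]

omit hl in
theorem rho_e (c : ℕ × ℕ) : R.e l o (F.rho c) = S.ρ (R.e l o c) := by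
  have h1 : ∀ x, F = .I ∨ F = .D0 → S.ρ (R.dec l o x) = R.dec l o x := by
    rintro x (rfl | rfl) <;> unfold dec <;> split_ifs <;> simp [R.rho, rv]
  have h2 : ∀ x, F = .C ∨ F = .X → S.ρ (R.dec l o x) = -R.dec l o (bar x) := by
    rintro x (rfl | rfl) <;> rw [dec_bar, dec] <;> split_ifs <;> simp [R.rho, rv]
  have h3 : ∀ x, F = .D → S.ρ (R.dec l o x) = R.dec l o (bz x) := by
    rintro x rfl
    by_cases h : x ≤ 1
    · simp only [bz, Nat.ble_eq_true_of_le h, cond_true]
      rw [dec_bar, dec]; split_ifs <;> simp [R.rho, rv]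
    · simp only [bz, show Nat.ble x 1 = false by simpa [← Nat.ble_eq] using h, cond_false, dec]
      split_ifs <;> simp [R.rho, rv]
  cases F <;> simp [e, Fam.rho, h1, h2, h3] <;> abel

omit hl in
theorem root_e (c : ℕ × ℕ) (h : S.B (R.e l o c) (R.e l o c) = 2) : S.R (R.e l o c) := by
  have : ∀ o b, S.B (R.pv o b) (R.pv o b) ≠ 2 := fun o b => by
    cases F <;> cases o <;> simp [R.gram, g, a1]
  unfold e dec at h ⊢
  split_ifs at h ⊢ <;> first | exact R.root _ _ _ _ h | simp only [sub_zero, this, zero_sub, map_neg, AddMonoidHom.neg_apply, neg_neg, sub_self, map_zero, AddMonoidHom.zero_apply, OfNat.zero_ne_ofNat] at h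

theorem rf_dec (z : ℕ × ℕ) (h : S.B (R.e l o z) (R.e l o z) = 2) (x : ℕ) :
    R.dec l o (F.rfp l z x) = R.dec l o x - S.B (R.dec l o x) (R.e l o z) • R.e l o z := by
  have le : ∀ x u, F.gp l x u ≤ 2 := fun x u => by
    rw [gp_eq]; cases F <;> split_ifs <;> simp [a1, a2, e1]
  have eq : ∀ x u, F.gp l x u = 2 → R.dec l o x = R.dec l o u := fun x u q =>
    sub_eq_zero.1 (S.defn _ (by
      have := le x x
      have := le u u
      have := S.symm (R.dec l o u) (R.dec l o x)
      simp only [map_sub, AddMonoidHom.sub_apply, R.gp_dec hl] at this ⊢; omega))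
  have ne : ∀ x u, F.gp l x u = 0 → R.dec l o x = -R.dec l o u := fun x u q =>
    eq_neg_of_add_eq_zero_left (S.defn _ (by
      have := le x x
      have := le u u
      have := S.symm (R.dec l o u) (R.dec l o x)
      simp only [map_add, AddMonoidHom.add_apply, R.gp_dec hl] at this ⊢; omega))
  have br : ∀ x u, F.gp l x u = 0 → ∀ y, R.dec l o (bar y) = -R.dec l o y := fun x u q y => by
    have : F = .D0 ∨ F = .D := by
      rw [gp_eq] at q; cases F <;> split_ifs at q <;> simp_all [a1, a2, e1]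
    rw [dec_bar, dec]
    split_ifs <;> cases decide (y % 2 = 1) <;> simp [R.pvD this]
  have h1 := le x z.1
  have h2 := le x z.2
  rw [e, map_sub, R.gp_dec hl, R.gp_dec hl, rfp]
  split
  · rename_i p q; rw [p, q, eq _ _ p]; simp
  · rename_i p q; rw [p, q, eq _ _ q]; simp
  · rename_i p q; rw [p, q, br _ _ q, ne _ _ q]; simp; abel
  · rename_i p q; rw [p, q, br _ _ p, ne _ _ p]; simp; abel
  · rename_i p1 p2 p3 p4
    have : F.gp l x z.1 = F.gp l x z.2 := by
      by_contra hn
      have : (F.gp l x z.1 = 2 ∧ F.gp l x z.2 = 0) ∨ (F.gp l x z.1 = 0 ∧ F.gp l x z.2 = 2) := by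
        simp only [imp_false] at p1 p2 p3 p4; omega
      have e1 : R.dec l o z.2 = -R.dec l o z.1 := by
        rcases this with p | p
        · rw [← eq _ _ p.1, ne _ _ p.2, neg_neg]
        · rw [← eq _ _ p.2, ne _ _ p.1]
      simp only [e, e1, map_sub, map_neg, AddMonoidHom.sub_apply, AddMonoidHom.neg_apply] at h
      omega
    simp [this]

omit hl in
theorem N_sq {o o' : Option (ZMod n)} {b b' : Bool} (h : F = .D) (q : o = none ∨ o' = none)
    (k : S.Ok (R.pv o b - R.pv o' b')) :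
    S.N (R.pv o b - R.pv o' b') * S.N (R.pv o b - R.pv o' b') = 1 := by
  subst h
  have r := S.R2 _ k.1
  have : ∃ v, S.os (R.pv o b - R.pv o' b') = v + v := by
    have l : S.B (R.pv o b - R.pv o' b') (S.ρ (R.pv o b - R.pv o' b')) = 0 := by
      cases o <;> cases o' <;> cases b <;> cases b' <;> simp_all [R.gram, R.rho, rv, g, a1, a2]
    rw [os_short k.1 l]
    rcases q with rfl | rfl
    · refine ⟨-R.pv o' b', ?_⟩
      cases o' <;> cases b <;> cases b' <;> simp_all [R.gram, R.rho, rv, g, a1, a2, R.pvD] <;> abel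
    · refine ⟨R.pv o b, ?_⟩
      cases o <;> cases b <;> cases b' <;> simp_all [R.gram, R.rho, rv, g, a1, a2, R.pvD] <;> abel
  obtain ⟨v, e⟩ := this
  rw [k.N_sq, e]
  exact S.hh_one _ fun β _ => by
    rw [map_add, AddMonoidHom.add_apply, sg_add, (pm_zpow _).sq]

theorem snd0 : Snd0 S (F.op0 l) (R.e l o) where
  B := R.B_e hl o
  rho := R.rho_e o
  rf z c h := by
    change R.dec l o (F.rfp l z c.1) - R.dec l o (F.rfp l z c.2) = _
    rw [R.rf_dec hl o z h, R.rf_dec hl o z h, show R.e l o c = R.dec l o c.1 - R.dec l o c.2 from rfl,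
      map_sub, AddMonoidHom.sub_apply]
    module
  root := R.root_e o

omit hl in
theorem dec_idx {p : ℕ} (h : p + o ≤ l) (h' : 1 ≤ p + o) (b : Bool) :
    R.dec l o (2 * (p + o) + b.toNat) = R.pv (some p) b := by
  have h1 : (2 * (p + o) + b.toNat) / 2 = p + o := by cases b <;> simp; omega
  rw [dec, h1, if_pos h, if_neg (by omega)]
  cases b <;> simp

omit hl in
theorem key (h3 : 2 ≤ n) (P : L → Prop) (h : ∀ d ∈ tcG n, P (R.e n 1 d)) :
    ∀ u v, Sh R.pv u v → P (u - v) ∧ P (v - u) := by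
  have z : R.dec n 1 0 = R.pv none false := by simp [dec]
  have d := fun p h b => R.dec_idx 1 (l := n) (p := p) h (by omega) b
  have d0 := d 0 (by omega)
  have d1 := d 1 (by omega)
  simp only [tcG, List.forall_mem_append, List.forall_mem_cons, List.forall_mem_flatMap,
    List.mem_range, e] at h
  push_cast at d0 d1
  rintro _ _ (⟨p, hp, rfl, rfl⟩ | ⟨rfl, rfl⟩ | ⟨rfl, rfl⟩ | ⟨rfl, rfl⟩)
  · have := h.2 p (by omega)
    rw [← d p (by omega), ← Nat.cast_succ, ← d (p + 1) (by omega)]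
    exact ⟨this.1, this.2.1⟩
  · rw [← d1, ← d0]; exact ⟨h.1.1, h.1.2.1⟩
  · rw [← d0, ← d0]; exact ⟨h.1.2.2.1, h.1.2.2.2.1⟩
  · rw [← d0, ← z]; exact ⟨h.1.2.2.2.2.1, h.1.2.2.2.2.2.1⟩

omit hl in
include R in
theorem gen [Finite K] (h3 : 2 ≤ n) {m2 mtr mid odd : Bool} (md : Md S.φ m2 mtr mid odd)
    {g : GCert (ℕ × ℕ)} (p : (F.op0 n).check m2 mtr mid odd (tcG n) g) :
    IsLeast {n | Good S.Gs n} 3 :=
  (R.snd0 le_rfl 1).main md p (fun H h => R.fin H (R.key h3 _ h)) fun f h =>
    R.span f fun u v s => (R.key h3 (fun v => S.R v → Even (f v) ∧ Even (f (S.ρ v))) h u v s).1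

omit hl o

/-- Differences. -/
def al (p q : ZMod n) : L := R.pv (some p) false - R.pv (some q) false

theorem swap {p q : ZMod n} (h : p ≠ q) : S.Ok (R.al p q) ∧
    (∀ x b, S.rs (R.al p q) (R.pv (some x) b) = R.pv (some (Equiv.swap p q x)) b) ∧
    ∀ b, S.rs (R.al p q) (R.pv none b) = R.pv none b := by
  have r : S.R (R.al p q) := R.root _ _ _ _ (by simp [R.gram, g, h, h.symm])
  have x3 : ∀ x, x = p ∨ x = q ∨ (x ≠ p ∧ x ≠ q) := fun x => by tauto
  by_cases c : F = .C ∨ F = .X
  · have l : S.B (R.al p q) (S.ρ (R.al p q)) = 0 := by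
      rcases c with rfl | rfl <;> simp only [al, map_sub, R.rho, rv, Bool.not_false, sub_neg_eq_add, AddMonoidHom.sub_apply, map_add, map_neg, R.gram, g, ↓ reduceIte, reduceCtorEq, Bool.false_eq_true, e1, Nat.cast_one, sub_self, neg_zero, Option.some.injEq, h, add_zero, h.symm]
    refine ⟨⟨r, Or.inr l⟩, fun x b => ?_, fun b => ?_⟩ <;> rw [rs_short r l]
    · rcases c with rfl | rfl <;> rcases x3 x with rfl | rfl | ⟨h1, h2⟩ <;> cases b <;>
        simp [al, R.rho, rv, R.gram, g, h, h.symm, e1, Equiv.swap_apply_of_ne_of_ne, *]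
    · rcases c with rfl | rfl <;> simp [al, R.rho, rv, R.gram, g]
  · have l : S.ρ (R.al p q) = R.al p q := by cases F <;> simp_all [al, R.rho, rv]
    refine ⟨⟨r, Or.inl l⟩, fun x b => ?_, fun b => ?_⟩ <;> rw [rs_long r l]
    · have h1 := R.pvI
      have h2 := R.pvD
      cases F <;> rcases x3 x with rfl | rfl | ⟨h3, h4⟩ <;> cases b <;>
        simp_all [al, R.gram, g, h.symm, e1, Equiv.swap_apply_of_ne_of_ne] <;> abel
    · simp [al, R.gram, g]

theorem lift [NeZero n] (π : Equiv.Perm (ZMod n)) : ∃ m ∈ S.Gs, ∃ w, S.Mon m w ∧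
    (∀ x b, w (R.pv (some x) b) = R.pv (some (π x)) b) ∧ ∀ b, w (R.pv none b) = R.pv none b := by
  induction π using Equiv.Perm.swap_induction_on with
  | one => exact ⟨1, one_mem _, _, mon_one, fun _ _ => rfl, fun _ => rfl⟩
  | swap_mul π p q h ih =>
    obtain ⟨m, hm, w, mw, h1, h2⟩ := ih
    obtain ⟨o, k1, k2⟩ := R.swap h
    exact ⟨_, mul_mem (N_Gs o) hm, _, o.mon.mul mw, fun x b => by simp [h1, k1], fun b => by
      simp [h2, k2]⟩

theorem W_neg (s : List (ZMod n)) (h : ∀ p ∈ s, p ≠ -p) (pw : s.Pairwise fun p q => p ≠ q ∧ p ≠ -q) :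
    (∀ x b, S.W (s.map fun p => R.al p (-p)) (R.pv (some x) b) =
      R.pv (some (if x ∈ s ∨ -x ∈ s then -x else x)) b) ∧
    ∀ b, S.W (s.map fun p => R.al p (-p)) (R.pv none b) = R.pv none b := by
  induction s with
  | nil => exact ⟨fun _ _ => by simp [W], fun _ => rfl⟩
  | cons p s ih =>
    rw [List.pairwise_cons] at pw
    obtain ⟨h1, h2⟩ := ih (fun q hq => h q (by simp [hq])) pw.2
    obtain ⟨-, k1, k2⟩ := R.swap (h p (by simp))
    refine ⟨fun x b => ?_, fun b => by rw [List.map_cons, W_cons, h2, k2]⟩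
    rw [List.map_cons, W_cons, h1, k1]
    have n1 : p ∉ s := fun q => (pw.1 p q).1 rfl
    have n2 : -p ∉ s := fun q => (pw.1 _ q).2 (neg_neg p).symm
    congr 2
    by_cases e1 : x = p
    · simp [e1, n1, n2]
    by_cases e2 : x = -p
    · simp only [e2, n2, neg_neg, n1, or_self, ↓ reduceIte, Equiv.swap_apply_right, List.mem_cons, or_false, or_true]
    have e3 : -x ≠ p := fun q => e2 (by rw [← q, neg_neg])
    have e4 : -x ≠ -p := by simpa using e1
    simp only [List.mem_cons, e1, e3, false_or]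
    split_ifs <;> exact Equiv.swap_apply_of_ne_of_ne ‹_› ‹_›

theorem invol [NeZero n] : ∃ a ∈ S.Gs, a * a = 1 ∧ ∃ w, S.Mon a w ∧
    (∀ x b, w (R.pv (some x) b) = R.pv (some (-x)) (xor b (F.isD && decide (x = 0)))) ∧
    (∀ b, w (R.pv none b) = R.pv none (xor b F.isD)) ∧
    (F.isX → ∀ o o' b b', o = none ∨ o = some 0 → o' = none ∨ o' = some 0 →
      ∀ g ∈ S.U (R.pv o b - R.pv o' b'), Commute a g) := by
  set s := Finset.univ.filter fun p : ZMod n => p.val < (-p).val with hs
  have ms : ∀ p, p ∈ s ↔ p.val < (-p).val := fun p => by simp [hs]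
  have s0 : ∀ p ∈ s, p ≠ 0 := by rintro p hp rfl; simp [ms] at hp
  have s1 : ∀ p ∈ s, ∀ q ∈ s, p ≠ -q := by
    rintro p hp q hq rfl
    rw [ms] at hp hq
    rw [neg_neg] at hp; omega
  have pw : s.toList.Pairwise fun p q => p ≠ q ∧ p ≠ -q :=
    s.nodup_toList.pairwise_of_forall_ne fun p hp q hq h => ⟨h, s1 p (by simpa using hp) q (by simpa using hq)⟩
  obtain ⟨w1, w2⟩ := R.W_neg s.toList (fun p hp => s1 p (by simpa using hp) p (by simpa using hp)) pw
  have w3 : ∀ x b, S.W (s.toList.map fun p => R.al p (-p)) (R.pv (some x) b) = R.pv (some (-x)) b := by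
    intro x b
    rw [w1]
    split_ifs with h
    · rfl
    · simp only [Finset.mem_toList, ms, neg_neg, not_or, not_lt] at h
      rw [← ZMod.val_injective n (le_antisymm h.2 h.1)]
  set lam : ZMod n → L := fun p =>
    R.pv (some p) false - if F = .C ∨ F = .X then R.pv (some p) true else R.pv (some 0) false with hl
  obtain ⟨h0, m0, t0⟩ := tor_mu (S := S) (s.toList.map lam) [] (by
    simp only [List.forall_mem_map, Finset.mem_toList, hl]
    intro p hp
    have := s0 p hp
    refine ⟨?_, by cases F <;> simp [R.rho, rv] <;> abel⟩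
    split_ifs with c <;> refine R.root _ _ _ _ ?_
    · rcases c with rfl | rfl <;> simp [R.gram, g, e1]
    · simp [R.gram, g, this, this.symm]) (by simp)
  rw [List.flatMap_nil, List.append_nil] at t0
  have sg : ∀ v, S.sg (s.toList.map lam) v = (-1) ^ ∑ p ∈ s, S.B (lam p) v := fun v => by
    rw [St.sg, List.map_map, Finset.sum_map_toList]; rfl
  have od : ∀ p ∈ s, S.sg (s.toList.map lam) (R.al p (-p)) = -1 := fun p hp => by
    rw [sg, Finset.sum_eq_single p (fun q hq ne => ?_) (by simp [hp])]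
    · have := s0 p hp
      have := s1 p hp p hp
      cases F <;> simp [hl, al, R.gram, g, e1, Ne.symm, *]
    · have := s0 p hp
      have := s1 q hq p hp
      cases F <;> simp [hl, al, R.gram, g, Ne.symm, *]
  have ok : ∀ p ∈ s, S.Ok (R.al p (-p)) := fun p hp => (R.swap (s1 p hp p hp)).1
  have pw' : (s.toList.map fun p => R.al p (-p)).Pairwise
      fun α δ => S.B δ α = 0 ∧ S.B δ (S.ρ α) = 0 := by
    rw [List.pairwise_map]
    refine pw.imp fun {p q} h => ?_
    have h1 := h.1.symm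
    have h2 : q ≠ -p := fun e => h.2 (by rw [e, neg_neg])
    have h3 := h.2.symm
    cases F <;> simp only [al, map_sub, AddMonoidHom.sub_apply, R.gram, g, Option.some.injEq, h1, ↓ reduceIte, h2, sub_self, h3, neg_inj, R.rho, rv, and_self, Bool.not_false, sub_neg_eq_add, map_add, map_neg, neg_zero, add_zero, reduceCtorEq]
  by_cases hD : F = .D
  · subst hD
    have r : S.R (R.pv (some 0) false - R.pv none false) := R.root _ _ _ _ (by simp [R.gram, g, a1])
    have l : S.B (R.pv (some 0) false - R.pv none false)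
      (S.ρ (R.pv (some 0) false - R.pv none false)) = 0 := by simp [R.rho, rv, R.gram, g, a2]
    obtain ⟨a, ha, aa, ma, -⟩ := lift_list ((R.pv (some 0) false - R.pv none false) ::
      s.toList.map fun p => R.al p (-p)) (by simpa only [List.mem_cons, List.mem_map, Finset.mem_toList, forall_eq_or_imp, forall_exists_index, and_imp, forall_apply_eq_imp_iff₂] using ⟨⟨r, Or.inr l⟩, ok⟩)
      (List.pairwise_cons.2 ⟨by
        simp only [List.forall_mem_map, Finset.mem_toList]
        intro p hp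
        simp [al, R.rho, rv, R.gram, g, s0 p hp], pw'⟩) m0 t0 (by
        simp only [List.forall_mem_cons, List.forall_mem_map, Finset.mem_toList]
        exact ⟨Or.inr (R.N_sq rfl (Or.inr rfl) ⟨r, Or.inr l⟩), fun p hp => Or.inl (od p hp)⟩)
    refine ⟨a, ha, aa, _, ma, fun x b => ?_, fun b => ?_, by simp only [isX, Bool.false_eq_true, Bool.forall_bool, IsEmpty.forall_iff]⟩
    · rw [W_cons, w3, rs_short r l]
      by_cases e : x = 0 <;> cases b <;> simp [R.rho, rv, R.gram, g, e1, isD, e, R.pvD] <;> abel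
    · rw [W_cons, w2, rs_short r l]
      cases b <;> simp [R.rho, rv, R.gram, g, a1, a2, isD, R.pvD] <;> abel
  · have hD' : F.isD = false := by cases F <;> simp_all [isD]
    obtain ⟨a, ha, aa, ma, ca⟩ := lift_list _ (by simpa only [List.mem_map, Finset.mem_toList, forall_exists_index, and_imp, forall_apply_eq_imp_iff₂] using ok) pw' m0 t0 (by
      simp only [List.forall_mem_map, Finset.mem_toList]
      exact fun p hp => Or.inl (od p hp))
    refine ⟨a, ha, aa, _, ma, by simpa [hD'] using w3, by simpa [hD'] using w2,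
      fun hX o o' b b' h h' => ca _ ?_ ?_⟩
    · obtain rfl : F = .X := by cases F <;> simp_all [isX]
      rw [Ev, sg, sg, Finset.sum_eq_zero, Finset.sum_eq_zero]
      · simp
      all_goals
        intro p hp
        rcases h with rfl | rfl <;> rcases h' with rfl | rfl <;> simp [hl, R.rho, rv, R.gram, g, s0 p hp]
    · obtain rfl : F = .X := by cases F <;> simp_all [isX]
      simp only [List.forall_mem_map, Finset.mem_toList]
      intro p hp
      have := (s0 p hp).symm
      rcases h with rfl | rfl <;> rcases h' with rfl | rfl <;> simp [al, R.rho, rv, R.gram, g, s0 p hp, this]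

theorem ng_dec {l o s : ℕ} {ex : Bool} (hl : l ≤ n) (hx : ex → l = n) (h1 : 1 ≤ o) (h2 : o + s ≤ l)
    {w : L ≃+ L} (k1 : ∀ x b, w (R.pv (some x) b) =
      R.pv (some (2 * s - x)) (xor b (F.isD && decide (x = s))))
    (k2 : ∀ b, w (R.pv none b) = R.pv none (xor b F.isD)) (c d : ℕ × ℕ)
    (h : F.ngc l o ex s c = some d) : R.e l o d = w (R.e l o c) := by
  have key : ∀ x y, F.ng l o ex s x = some y → R.dec l o y = w (R.dec l o x) := by
    intro x y h
    simp only [ng, cond_eq_ite, Nat.ble_eq, Bool.and_eq_true, Bool.or_eq_true, Nat.beq_eq] at h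
    by_cases p : x ≤ 1
    · rw [if_pos p, Option.some.injEq] at h
      subst h
      have : x / 2 ≤ l := by omega
      cases q : F.isD
      · simp only [dec, Bool.false_eq_true, ↓ reduceIte, this, p, k2, q, Bool.bne_false]
      · simp only [if_true, dec_bar]; simp [dec, p, this, k2, q]
    rw [if_neg p] at h
    split_ifs at h with q
    all_goals
      rw [Option.some.injEq] at h
      have m := Nat.mod_lt (2 * (o + s) + l - x / 2 - 1) (show 0 < l by omega)
      have e : (((2 * (o + s) + l - x / 2 - 1) % l + 1 : ℕ) : ZMod n) = 2 * (o + s) - (x / 2 : ℕ) := by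
        rcases q.2 with q' | q'
        · obtain rfl := hx q'
          rw [Nat.cast_add, ZMod.natCast_mod, ← Nat.cast_add, eq_sub_iff_add_eq, ← Nat.cast_add,
            show 2 * (o + s) + l - x / 2 - 1 + 1 + x / 2 = 2 * (o + s) + l by omega]
          simp
        · rw [eq_sub_iff_add_eq, ← Nat.cast_add, add_comm, q']; simp
      have i : ((x / 2 : ℕ) : ZMod n) - o = s ↔ x / 2 = o + s := by
        rw [sub_eq_iff_eq_add', ← Nat.cast_add]
        exact ⟨cast_inj hl (by omega) (by omega) q.1 h2, fun q => by rw [q]⟩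
      generalize (2 * (o + s) + l - x / 2 - 1) % l = j at *
      have hy : y / 2 = j + 1 := by omega
      rw [dec, dec, if_pos q.1, if_neg p, k1, hy, if_pos (by omega), if_neg (by omega), e]
      congr 1
      · congr 1; ring
    · rename_i q'
      rw [bar_eq] at h
      simp only [i.2 q'.2, q'.1, decide_true, Bool.and_true, Bool.xor_true, ← decide_not,
        decide_eq_decide]
      omega
    · rename_i q'
      rw [show (F.isD && decide (((x / 2 : ℕ) : ZMod n) - o = s)) = false by simpa only [i, Bool.and_eq_false_imp, decide_eq_false_iff_not, not_and] using q',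
        Bool.xor_false, decide_eq_decide]
      omega
  unfold ngc at h
  split at h
  · rename_i p q
    cases h
    rw [e, e, map_sub, key _ _ p, key _ _ q]
  · simp at h

include R in
theorem poly [Finite K] {l o : ℕ} {ex m2 mtr mid odd : Bool} (hl : l ≤ n) (hx : ex → l = n)
    (md : Md S.φ m2 mtr mid odd) {ct : Cert (ℕ × ℕ)} (p : F.chkP l o ex m2 mtr mid odd ct) :
    IsLeast {n | Good S.Gs n} 3 := by
  simp only [chkP, Bool.and_eq_true, decide_eq_true_eq] at p
  obtain ⟨⟨⟨⟨p1, p2⟩, p3⟩, p4⟩, p5⟩ := p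
  haveI : NeZero n := ⟨by omega⟩
  obtain ⟨a, ha, aa, w, ma, a1, a2, a3⟩ := R.invol
  obtain ⟨σ, hσ, v, mσ, s1, s2⟩ := R.lift (Equiv.addRight 1)
  have mc := (mσ.mul ma).mul mσ.inv
  have c1 : ∀ x b, (v.symm.trans (w.trans v)) (R.pv (some x) b) =
      R.pv (some (2 - x)) (xor b (F.isD && decide (x = 1))) := fun x b => by
    have : v.symm (R.pv (some x) b) = R.pv (some (x - 1)) b := by
      rw [AddEquiv.symm_apply_eq, s1]; simp
    simp only [AddEquiv.trans_apply, this, a1, s1, sub_eq_zero, Equiv.coe_addRight]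
    congr 2; ring
  have c2 : ∀ b, (v.symm.trans (w.trans v)) (R.pv none b) = R.pv none (xor b F.isD) := fun b => by
    have : v.symm (R.pv none b) = R.pv none b := by rw [AddEquiv.symm_apply_eq, s2]
    simp only [AddEquiv.trans_apply, this, a2, s2]
  have h : Sound S 0 0 (F.ops l o ex m2 mtr mid odd) (R.e l o) w (v.symm.trans (w.trans v)) :=
    ⟨R.B_e hl o, R.rho_e o, R.ng_dec hl hx p1 (by omega) (by simpa only [Nat.cast_zero, mul_zero, zero_sub, Bool.forall_bool, Bool.false_bne, Bool.true_bne, Bool.not_and] using a1) a2,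
      R.ng_dec hl hx p1 (by omega) (by simpa only [AddEquiv.trans_apply, Nat.cast_one, mul_one, Bool.forall_bool, Bool.false_bne, Bool.true_bne, Bool.not_and] using c1) c2, R.root_e o, md.m2, md.mtr,
      fun m => ⟨md.mid m, rfl⟩, md.odd⟩
  refine top h ha hσ aa ma mc (fun q => ?_) p5 (by simpa using p4) fun H h1 h2 h3 => ?_
  · simp only [Bool.or_eq_true, Bool.and_eq_true, decide_eq_true_eq, beq_iff_eq] at p3
    obtain ⟨⟨q1, q2⟩, q3⟩ := p3.resolve_left (by omega)
    have : ∀ x, x / 2 = 0 ∨ x / 2 = o → ∃ y b, (y = none ∨ y = some 0) ∧ R.dec l o x = R.pv y b := by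
      rintro x (h | h)
      · exact ⟨_, _, Or.inl rfl, by rw [dec, if_pos (by omega), if_pos (by omega)]⟩
      · exact ⟨_, _, Or.inr rfl, by rw [dec, if_pos (by omega), if_neg (by omega), h, sub_self]⟩
    obtain ⟨y, b, hy, e1⟩ := this _ q2
    obtain ⟨y', b', hy', e2⟩ := this _ q3
    rw [e, e1, e2]
    exact a3 q1 _ _ _ _ hy hy'
  set Q : ZMod n → ZMod n → Prop := fun x y => ∀ b b', S.F2 H (R.pv (some x) b) (R.pv (some y) b')
  have mv : ∀ {m u} {π : ZMod n → ZMod n} {f : ZMod n → Bool}, S.Mon m u → m ∈ H →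
      (∀ x b, u (R.pv (some x) b) = R.pv (some (π x)) (xor b (f x))) →
      ∀ x y, Q x y → Q (π x) (π y) := by
    intro m u π f k1 k2 k3 x y q b b'
    have := q (xor b (f x)) (xor b' (f y))
    exact ⟨by simpa only [map_sub, k3, Bool.bne_self_right] using this.1.conj k1 k2, by simpa [k3] using this.2.conj k1 k2⟩
  have z : R.dec l o 0 = R.pv none false := by simp [dec]
  have d := fun p h b => R.dec_idx o (l := l) (p := p) h (by omega) b
  have d0 := d 0 (by omega)
  have d1 := d 1 (by omega)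
  have d2 := d 2 (by omega)
  simp only [Bool.forall_bool, Bool.toNat_false, Bool.toNat_true, zero_add, add_zero, add_comm 1 o,
    add_comm 2 o, Nat.cast_zero, Nat.cast_one, Nat.cast_ofNat] at d0 d1 d2
  simp only [tcP, quad, List.forall_mem_append, List.forall_mem_cons, e, d0, d1, d2, z] at h3
  have q0 : Q 0 1 := by simp only [Q, Bool.forall_bool, F2]; tauto
  have q1 : Q 1 2 := by simp only [Q, Bool.forall_bool, F2]; tauto
  have qq : ∀ k : ℕ, Q k (k + 1) ∧ Q (k + 1) (k + 2) := by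
    intro k
    induction k with
    | zero => simpa using ⟨q0, q1⟩
    | succ k ih =>
      have := mv mc h2 c1 _ _ (mv ma h1 a1 _ _ ih.1)
      push_cast
      refine ⟨by rw [add_assoc, one_add_one_eq_two]; exact ih.2, ?_⟩
      convert this using 1 <;> ring
  refine R.fin H ?_
  rintro _ _ (⟨p, -, rfl, rfl⟩ | ⟨rfl, rfl⟩ | ⟨rfl, rfl⟩ | ⟨rfl, rfl⟩)
  · exact (qq p).1 _ _
  · exact (q0 _ _).symm
  all_goals unfold F2; tauto

end Frame

end Pool.Agent.MP_c78e8e_al.H75

end

section

namespace Pool.Agent.MP_c78e8e_al.H75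

open Subgroup Matrix

variable {r N : ℕ} {C : Matrix (Fin r) (Fin r) ℤ} {ρ : Equiv.Perm (Fin r)} {K : Type} [Field K]

/-- The standard form. -/
def dp : (Fin N → ℤ) →+ (Fin N → ℤ) →+ ℤ :=
  AddMonoidHom.mk' (fun u => AddMonoidHom.mk' (fun v => u ⬝ᵥ v) fun _ _ => dotProduct_add _ _ _)
    fun _ _ => by ext; simp only [add_dotProduct, AddMonoidHom.coe_comp, AddMonoidHom.mk'_apply, AddMonoidHom.coe_single, Function.comp_apply, dotProduct_single, mul_one, AddMonoidHom.add_apply]

theorem dp_apply (u v : Fin N → ℤ) : dp u v = ∑ i, u i * v i := rfl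

/-- Unit vectors. -/
def ee (k : ℕ) : Fin N → ℤ := fun j => if (j : ℕ) = k then 1 else 0

theorem dp_ee (w : ℕ → ℤ) (k : ℕ) : dp (fun j : Fin N => w j) (ee k) = if k < N then w k else 0 := by
  rw [dp_apply]
  split_ifs with h
  · rw [Finset.sum_eq_single ⟨k, h⟩ (fun j _ ne => by simp [ee, Fin.val_ne_of_ne ne]) (by simp only [Finset.mem_univ, not_true_eq_false, mul_eq_zero, IsEmpty.forall_iff])]
    simp [ee]
  · exact Finset.sum_eq_zero fun j _ => by simp [ee, show (j : ℕ) ≠ k by omega]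

theorem ee_ee (k l : ℕ) : dp (ee k : Fin N → ℤ) (ee l) = if l < N ∧ l = k then 1 else 0 := by
  rw [ite_and]; exact dp_ee (fun j => if j = k then 1 else 0) l

/-- The embedding given by the images of the simple roots. -/
def tau (t : Fin r → Fin N → ℤ) : (Fin r → ℤ) →+ (Fin N → ℤ) :=
  AddMonoidHom.mk' (fun u => ∑ i, u i • t i) fun u v => by simp only [Pi.add_apply, add_smul, zsmul_eq_mul, Finset.sum_add_distrib]

theorem tau_apply (t : Fin r → Fin N → ℤ) (u : Fin r → ℤ) : tau t u = ∑ i, u i • t i := rfl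

theorem tau_single (t : Fin r → Fin N → ℤ) (i : Fin r) : tau t (Pi.single i 1) = t i := by
  simp only [tau_apply, Pi.single_apply, ite_smul, one_smul, zero_smul, Finset.sum_ite_eq', Finset.mem_univ, ↓ reduceIte]

theorem tau_iso {t : Fin r → Fin N → ℤ} (h : ∀ i j, dp (t i) (t j) = C i j) (u v : Fin r → ℤ) :
    dp (tau t u) (tau t v) = fm C u v := by
  simp only [← fm_apply, form_eq, tau_apply, map_sum, map_zsmul, AddMonoidHom.finset_sum_apply,
    AddMonoidHom.smul_apply, h, smul_eq_mul, Finset.mul_sum]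
  rw [Finset.sum_comm]
  exact Finset.sum_congr rfl fun i _ => Finset.sum_congr rfl fun j _ => by ring

theorem dp_defn (v : Fin N → ℤ) (h : dp v v ≤ 0) : v = 0 :=
  dotProduct_self_eq_zero.1 (le_antisymm h (Finset.sum_nonneg fun _ _ => mul_self_nonneg _))

theorem dp_symm (u v : Fin N → ℤ) : dp u v = dp v u := dotProduct_comm u v

theorem pos_of {t : Fin r → Fin N → ℤ} (h : ∀ i j, dp (t i) (t j) = C i j)
    (d : ∀ i, ∃ w c, c ≠ 0 ∧ ∀ j, dp w (t j) = if j = i then c else 0) (v : Fin r → ℤ)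
    (p : form C v v ≤ 0) : v = 0 := by
  have := dp_defn _ ((tau_iso h v v).trans_le p)
  ext i
  obtain ⟨w, c, c0, e⟩ := d i
  have := congrArg (dp w) this
  simp only [tau_apply, map_sum, map_zsmul, e] at this
  simpa only [Pi.zero_apply, Int.zsmul_eq_mul, mul_ite, mul_zero, Finset.sum_ite_eq', Finset.mem_univ, ↓ reduceIte, map_zero, mul_eq_zero, c0, or_false] using this

theorem frame_ex (hC : Good0 C) (hρ : ∀ i, ρ (ρ i) = i) {φ : K →+* K} (hφ : ∀ s, φ (φ s) = s)
    (t : Fin r → Fin N → ℤ) (ρ' : (Fin N → ℤ) →+ (Fin N → ℤ)) (h : ∀ i j, dp (t i) (t j) = C i j)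
    (h4 : ∀ v, ρ' (ρ' v) = v) (h5 : ∀ u v, dp (ρ' u) (ρ' v) = dp u v) (h6 : ∀ i, ρ' (t i) = t (ρ i))
    (j : Kˣ) (m : ℤ) (χ : (Fin r → ℤ) →+ ℤ) (hj : φ j = (-1) ^ m * j)
    (hχ : ∀ β, dp (tau t β) (tau t β) = 2 → dp (tau t β) (ρ' (tau t β)) = 0 → χ (β ∘ ρ) = χ β)
    (hf : ∀ β : Fin r → ℤ, Even ((∑ i, if i < ρ i then C i (ρ i) * β i * β i else 0) + m * χ β))
    {F : Fam} {n : ℕ} (pv : Option (ZMod n) → Bool → Fin N → ℤ)
    (gram : ∀ o b o' b', dp (pv o b) (pv o' b') = F.g o b o' b')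
    (rho : ∀ o b, ρ' (pv o b) = F.rv pv o b)
    (mem : ∀ o b, pv o b = 0 ∨ pv o b - ee 0 ∈ (tau t).range)
    (sh : ∀ i, ∃ u v, Sh pv u v ∧ (t i = u - v ∨ t i = v - u ∨ t (ρ i) = u - v ∨ t (ρ i) = v - u)) :
    ∃ S : St (Equiv.Perm (Lie C K)) (Fin N → ℤ) K, S.Gs = chev C ρ φ ∧ S.φ = φ ∧
      Nonempty (Frame S F n) := by
  have hρC : ∀ i j, C (ρ i) (ρ j) = C i j := fun i j => by rw [← h, ← h6, ← h6, h5, h]
  have h7 : ∀ v, ρ' (tau t v) = tau t (v ∘ ρ) := fun v => by
    simp only [tau_apply, map_sum, map_zsmul, h6]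
    rw [← Equiv.sum_comp ρ]; simp only [hρ, zsmul_eq_mul, Function.comp_apply]
  set M := model hρ hρC hφ hC j m χ hj
    (fun β a b => hχ β (by rw [tau_iso h, a]) (by rw [h7, tau_iso h, b]))
    (fun β _ b => by
      have := (tw_fix hC hρ hρC b).add (hf β)
      rw [← add_assoc, sub_add_cancel] at this
      exact this.neg_one_zpow)
  refine ⟨M.map (tau t) dp ρ' dp_symm dp_defn (tau_iso h) h4 h5 h7,
    (M.map_Gs ..).trans (model_Gs ..), rfl, ⟨⟨pv, gram, rho, fun o b o' b' q => ?_,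
    fun H k => M.map_fin _ _ _ _ _ _ _ _ _ (fin_model hC hρ M rfl (fun _ => id)
      (fun _ => rfl) fun i => ?_), ?_⟩⟩⟩
  · have n2 : ∀ o b, dp (pv o b) (pv o b) ≠ 2 := fun o b => by
      cases F <;> cases o <;> simp [gram, Fam.g, Fam.a1]
    change dp _ _ = 2 at q
    rcases mem o b with e | e
    · simp only [e, zero_sub, map_neg, AddMonoidHom.neg_apply, neg_neg, n2] at q
    rcases mem o' b' with e' | e'
    · simp [e', n2] at q
    obtain ⟨u, hu⟩ := sub_mem e e'
    rw [sub_sub_sub_cancel_right] at hu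
    exact ⟨u, by rwa [← hu, tau_iso h] at q, hu⟩
  · simp only [St.Fu, ← M.map_U (tau t) dp ρ' dp_symm dp_defn (tau_iso h) h4 h5 h7, map_neg,
      tau_single]
    obtain ⟨u, v, s, e⟩ := sh i
    have f := k u v s
    have e2 : t i = ρ' (t (ρ i)) := by rw [h6, hρ]
    rcases e with e | e | e | e
    · rw [e, neg_sub]; exact f
    · rw [e, neg_sub]; exact f.symm
    · rw [e2, ← map_neg, e, neg_sub]; exact ⟨f.1.rho, f.2.rho⟩
    · rw [e2, ← map_neg, e, neg_sub]; exact ⟨f.2.rho, f.1.rho⟩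
  · rintro f k _ ⟨β, -, rfl⟩
    rw [tau_apply, map_sum]
    refine Finset.even_sum _ fun i _ => ?_
    rw [map_zsmul, smul_eq_mul]
    refine Even.mul_left ?_ _
    obtain ⟨u, v, s, e⟩ := sh i
    have rt : ∀ i, (M.map (tau t) dp ρ' dp_symm dp_defn (tau_iso h) h4 h5 h7).R (t i) := fun i =>
      ⟨_, (fm_single i i).trans (hC.diag i), tau_single t i⟩
    have e2 : t i = ρ' (t (ρ i)) := by rw [h6, hρ]
    have k := k u v s
    change _ → _ ∧ Even (f (ρ' _)) at k
    rcases e with e | e | e | e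
    · exact e ▸ (k (e ▸ rt i)).1
    · rw [e, ← neg_sub, map_neg]
      exact (k (by rw [← neg_sub, ← e]; exact St.Rneg _ _ (rt _))).1.neg
    · rw [e2, e]; exact (k (e ▸ rt _)).2
    · rw [e2, e, ← neg_sub, map_neg, map_neg]
      exact (k (by rw [← neg_sub, ← e]; exact St.Rneg _ _ (rt _))).2.neg

/-- Simple roots of type `A`. -/
def tA (r : ℕ) (i : Fin r) : Fin (r + 1) → ℤ := ee i - ee (i + 1)

theorem gramA (i j : Fin r) : dp (tA r i) (tA r j) = CartanMatrix.A r i j := by
  simp only [tA, map_sub, AddMonoidHom.sub_apply, ee_ee, CartanMatrix.A, of_apply, Fin.ext_iff]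
  split_ifs <;> omega

theorem goodA (h : 2 ≤ r) : Good0 (CartanMatrix.A r) where
  symm i j := by rw [← gramA, dp_symm, gramA]
  diag i := by simp [CartanMatrix.A]
  off := CartanMatrix.A_apply_le_zero_of_ne r
  pos := pos_of gramA fun i => ⟨fun j => if j ≤ (i : ℕ) then 1 else 0, 1, one_ne_zero, fun j => by
    simp only [tA, map_sub, dp_ee fun j => if j ≤ (i : ℕ) then 1 else 0, Fin.ext_iff]
    split_ifs <;> omega⟩
  nbr i := by
    by_cases p : (i : ℕ) = 0
    · exact ⟨⟨1, by omega⟩, by simp [CartanMatrix.A, Fin.ext_iff, p]⟩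
    · refine ⟨⟨i - 1, by omega⟩, ?_⟩
      simp only [CartanMatrix.A, of_apply, Fin.ext_iff]
      split_ifs <;> omega

theorem memA {k : ℕ} (h : k ≤ r) : ee k - ee 0 ∈ (tau (tA r)).range := by
  induction k with
  | zero => simp
  | succ k ih =>
    have := sub_mem (ih (by omega)) ⟨_, tau_single (tA r) ⟨k, h⟩⟩
    simpa only [AddMonoidHom.mem_range, tA, sub_sub_sub_cancel_left] using this

/-- The symmetry of type `A`. -/
def rA (r : ℕ) : (Fin (r + 1) → ℤ) →+ (Fin (r + 1) → ℤ) :=
  AddMonoidHom.mk' (fun v j => -v j.rev) fun u v => by ext; simp only [Pi.add_apply, neg_add_rev]; ring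

theorem rA_ee {k : ℕ} (h : k ≤ r) : rA r (ee k) = -ee (r - k) := by
  ext j
  simp only [rA, ee, AddMonoidHom.mk'_apply, Pi.neg_apply, Fin.val_rev]
  split_ifs <;> omega

theorem rA_rA (v : Fin (r + 1) → ℤ) : rA r (rA r v) = v := by ext; simp [rA]

theorem dp_rA (u v : Fin (r + 1) → ℤ) : dp (rA r u) (rA r v) = dp u v := by
  rw [dp_apply, dp_apply, ← Equiv.sum_comp Fin.revPerm]; simp [rA]

theorem rA_tA (i : Fin r) : rA r (tA r i) = tA r (Fin.revPerm i) := by
  rw [tA, tA, map_sub, rA_ee (by omega), rA_ee (by omega), Fin.revPerm_apply, Fin.val_rev,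
    show r - (i + 1) + 1 = r - i by omega]
  abel

/-- Simple roots of type `D`. -/
def tD (r : ℕ) (i : Fin r) : Fin r → ℤ :=
  if i + 1 < r then ee i - ee (i + 1) else ee (r - 2) + ee (r - 1)

theorem gramD (h : 3 ≤ r) (i j : Fin r) : dp (tD r i) (tD r j) = CartanMatrix.D r i j := by
  unfold tD
  split_ifs <;> simp only [map_sub, map_add, AddMonoidHom.sub_apply, AddMonoidHom.add_apply, ee_ee,
    CartanMatrix.D, of_apply, Fin.ext_iff] <;> grind

theorem goodD (h : 3 ≤ r) : Good0 (CartanMatrix.D r) where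
  symm i j := by rw [← gramD h, dp_symm, gramD h]
  diag i := by simp only [CartanMatrix.D, Int.reduceNeg, of_apply, ↓ reduceIte]
  off := CartanMatrix.D_off_diag_nonpos r
  pos := pos_of (gramD h) fun i => by
    by_cases p : (i : ℕ) + 2 = r
    · refine ⟨fun j => if (j : ℕ) + 1 = r then -1 else 1, 2, two_ne_zero, fun j => ?_⟩
      unfold tD
      split <;> simp only [map_sub, map_add, dp_ee fun j => if j + 1 = r then -1 else 1,
        Fin.ext_iff] <;> grind
    · refine ⟨fun j => if j ≤ (i : ℕ) then 1 else 0, if (i : ℕ) + 1 = r then 2 else 1,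
        by split_ifs <;> simp, fun j => ?_⟩
      unfold tD
      split <;> simp only [map_sub, map_add, dp_ee fun j => if j ≤ (i : ℕ) then 1 else 0,
        Fin.ext_iff] <;> grind
  nbr i := by
    by_cases p : (i : ℕ) + 3 ≤ r
    · refine ⟨⟨i + 1, by omega⟩, ?_⟩
      simp only [CartanMatrix.D, of_apply, Fin.ext_iff]
      grind
    · refine ⟨⟨r - 3, by omega⟩, ?_⟩
      simp only [CartanMatrix.D, of_apply, Fin.ext_iff]
      grind

theorem memD (h3 : 3 ≤ r) {k : ℕ} (h : k < r) (b : Bool) :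
    (if b then -ee k else ee k) - ee 0 ∈ (tau (tD r)).range := by
  have h1 : ∀ k < r, ee k - ee 0 ∈ (tau (tD r)).range := by
    intro k h
    induction k with
    | zero => simp
    | succ k ih =>
      have := sub_mem (ih (by omega)) ⟨_, tau_single (tD r) ⟨k, by omega⟩⟩
      simpa only [AddMonoidHom.mem_range, tD, h, ↓ reduceIte, sub_sub_sub_cancel_left] using this
  cases b
  · exact h1 k h
  · have := sub_mem (add_mem (h1 (r - 2) (by omega)) (h1 (r - 1) (by omega)))
      (add_mem ⟨_, tau_single (tD r) ⟨r - 1, by omega⟩⟩ (h1 k h))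
    simp only [tD, show ¬ r - 1 + 1 < r by omega, if_false] at this
    convert this using 1
    simp only [if_true]; abel

theorem val_ne {n : ℕ} [NeZero n] {p q : ZMod n} (h : p ≠ q) : p.val ≠ q.val :=
  fun e => h (ZMod.val_injective n e)

theorem val_succ {n p : ℕ} (h : p + 1 < n) : ((p : ZMod n) + 1).val = p + 1 := by
  rw [← Nat.cast_succ, ZMod.val_cast_of_lt h]

variable {φ : K →+* K} (hφ : ∀ s, φ (φ s) = s)
include hφ

theorem frameI (h : 2 ≤ r) : ∃ S : St (Equiv.Perm (Lie (CartanMatrix.A r) K)) (Fin (r + 1) → ℤ) K,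
    S.Gs = chev (CartanMatrix.A r) 1 φ ∧ S.φ = φ ∧ Nonempty (Frame S .I (r + 1)) := by
  refine frame_ex (goodA h) (fun _ => rfl) hφ (tA r) (AddMonoidHom.id _) gramA (fun _ => rfl)
    (fun _ _ => rfl) (fun _ => rfl) 1 0 0 (by simp) (by simp only [AddMonoidHom.id_apply, Equiv.Perm.coe_one, CompTriple.comp_eq, AddMonoidHom.zero_apply, implies_true]) (by simp only [Equiv.Perm.coe_one, id_eq, lt_self_iff_false, ↓ reduceIte, Finset.sum_const_zero, AddMonoidHom.zero_apply, mul_zero, add_zero, Even.zero, implies_true])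
    (fun o _ => o.elim 0 fun p => ee p.val) ?_ (fun _ _ => rfl) ?_ fun i => ?_
  · rintro (_ | p) b (_ | q) b' <;> simp [Fam.g, Fam.a1, Fam.a2, Fam.e1, ee_ee]
    by_cases e : p = q
    · simp [e, Nat.lt_succ_iff.1 q.val_lt]
    · simp [e, (val_ne e).symm]
  · rintro (_ | p) b
    · exact Or.inl rfl
    · exact Or.inr (memA (Nat.lt_succ_iff.1 p.val_lt))
  · refine ⟨_, _, Or.inl ⟨i, by omega, rfl, rfl⟩, Or.inl ?_⟩
    simp only [tA, Option.elim]
    rw [val_succ (by omega), ZMod.val_cast_of_lt (by omega)]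

theorem frameC {n : ℕ} (h : 2 ≤ n) (e : r + 1 = 2 * n) :
    ∃ S : St (Equiv.Perm (Lie (CartanMatrix.A r) K)) (Fin (r + 1) → ℤ) K,
    S.Gs = chev (CartanMatrix.A r) Fin.revPerm φ ∧ S.φ = φ ∧ Nonempty (Frame S .C n) := by
  haveI : NeZero n := ⟨by omega⟩
  refine frame_ex (goodA (by omega)) (by simp) hφ (tA r) (rA r) gramA rA_rA dp_rA rA_tA 1 0 0
    (by simp) (by simp) (fun β => ?_)
    (fun o b => o.elim 0 fun p => ee (if b then n + p.val else n - 1 - p.val)) ?_ ?_ ?_ fun i => ?_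
  · rw [Finset.sum_eq_zero]
    · simp only [AddMonoidHom.zero_apply, mul_zero, add_zero, Even.zero]
    intro i _
    simp only [CartanMatrix.A, of_apply, Fin.ext_iff, Fin.lt_def, Fin.revPerm_apply, Fin.val_rev]
    split_ifs <;> first | omega | simp
  · rintro (_ | p) b (_ | q) b' <;> simp only [Option.elim_none, map_zero, AddMonoidHom.zero_apply, Fam.g, ↓ reduceIte, Fam.a1, Fam.a2, ite_self, Nat.cast_one, sub_self, Option.elim_some, reduceCtorEq, ee_ee, Order.lt_add_one_iff, Option.some.injEq, Fam.e1, Nat.cast_ite, Nat.cast_ofNat]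
    have := p.val_lt
    have := q.val_lt
    by_cases e : p = q
    · subst e; cases b <;> cases b' <;> simp only [Bool.false_eq_true, ↓ reduceIte, tsub_le_iff_right, and_true, Int.reduceSub, ite_eq_left_iff, not_le, zero_ne_one, imp_false, not_lt, ge_iff_le, sub_self, ite_eq_right_iff, one_ne_zero, not_and, Bool.true_eq_false, Nat.add_left_cancel_iff] <;> omega
    · have := val_ne e
      cases b <;> cases b' <;> simp only [Bool.false_eq_true, ↓ reduceIte, tsub_le_iff_right, e, ite_eq_right_iff, one_ne_zero, imp_false, not_and, Nat.add_left_cancel_iff] <;> omega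
  · rintro (_ | p) b
    · simp only [Option.elim_none, map_zero, Fam.rv, Bool.not_eq_eq_eq_not, Bool.not_true, neg_zero]
    · have := p.val_lt
      cases b <;> simp only [Option.elim, Fam.rv] <;> rw [rA_ee (by simp only [Bool.false_eq_true, ↓ reduceIte, tsub_le_iff_right]; omega)] <;> simp only [Bool.false_eq_true, ↓ reduceIte, Bool.not_false, neg_inj, Bool.not_true] <;> congr 1 <;> omega
  · rintro (_ | p) b
    · exact Or.inl rfl
    · have := p.val_lt
      exact Or.inr (memA (by split_ifs <;> omega))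
  · have key : ∀ i : Fin r, (i : ℕ) + 1 < n → tA r i = ee (n - 1 - ((n - 2 - i : ℕ) + 1 : ZMod n).val) -
        ee (n - 1 - ((n - 2 - i : ℕ) : ZMod n).val) := fun i p => by
      rw [val_succ (by omega), ZMod.val_cast_of_lt (by omega), tA]; congr 2 <;> omega
    rcases lt_trichotomy ((i : ℕ) + 1) n with p | p | p
    · exact ⟨_, _, Or.inl ⟨n - 2 - i, by omega, rfl, rfl⟩, Or.inr (Or.inl (key i p))⟩
    · exact ⟨_, _, Or.inr (Or.inr (Or.inl ⟨rfl, rfl⟩)), Or.inl (by simp only [tA, Bool.false_eq_true, ↓ reduceIte, ← p, add_tsub_cancel_right, Option.elim_some, ZMod.val_zero, tsub_zero, add_zero])⟩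
    · exact ⟨_, _, Or.inl ⟨n - 2 - Fin.revPerm i, by omega, rfl, rfl⟩,
        Or.inr (Or.inr (Or.inr (key _ (by simp only [Fin.revPerm_apply, Fin.val_rev]; omega))))⟩

theorem frameX {n : ℕ} (h : 2 ≤ n) (ne : φ ≠ RingHom.id K) :
    ∃ S : St (Equiv.Perm (Lie (CartanMatrix.A (2 * n)) K)) (Fin (2 * n + 1) → ℤ) K,
    S.Gs = chev (CartanMatrix.A (2 * n)) Fin.revPerm φ ∧ S.φ = φ ∧ Nonempty (Frame S .X n) := by
  haveI : NeZero n := ⟨by omega⟩
  obtain ⟨s, hs⟩ : ∃ s, s - φ s ≠ 0 := by
    by_contra hn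
    push Not at hn
    exact ne (RingHom.ext fun s => (sub_eq_zero.1 (hn s)).symm)
  refine frame_ex (goodA (by omega)) (by simp) hφ (tA _) (rA _) gramA rA_rA dp_rA rA_tA
    (Units.mk0 _ hs) 1 (Pi.evalAddMonoidHom _ ⟨n - 1, by omega⟩) (by simp [hφ]) (fun β p q => ?_)
    (fun β => ?_)
    (fun o b => ee (o.elim n fun p => if b then n + 1 + p.val else n - 1 - p.val)) ?_ ?_ ?_ fun i => ?_
  · have e1 : tau (tA (2 * n)) β ⟨n, by omega⟩ = β ⟨n, by omega⟩ - β ⟨n - 1, by omega⟩ := by
      simp only [tau_apply, Finset.sum_apply, tA, Pi.smul_apply, Pi.sub_apply, smul_eq_mul, mul_sub,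
        Finset.sum_sub_distrib, ee]
      rw [Finset.sum_eq_single ⟨n, by omega⟩, Finset.sum_eq_single ⟨n - 1, by omega⟩]
      · simp only [↓ reduceIte, mul_one, mul_ite, mul_zero, sub_right_inj, ite_eq_left_iff]; omega
      all_goals simp only [Finset.mem_univ, ne_eq, Fin.ext_iff, mul_ite, mul_one, mul_zero, ite_eq_right_iff, forall_const, not_true_eq_false, IsEmpty.forall_iff, ↓ reduceIte]; try omega
    generalize tau (tA (2 * n)) β = v at p q e1
    have e2 : v ⟨n, by omega⟩ * v ⟨n, by omega⟩ ≤ 2 := p ▸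
      Finset.single_le_sum (fun i _ => mul_self_nonneg (v i)) (Finset.mem_univ _)
    have e3 : ∑ k ∈ Finset.univ.erase ⟨n, by omega⟩, ((v k * -v k.rev : ℤ) : ZMod 2) = 0 :=
      Finset.sum_involution (fun k _ => k.rev) (fun k _ => by
        rw [Fin.rev_rev]; push_cast; ring_nf; simp [show (2 : ZMod 2) = 0 from rfl])
        (fun k hk _ => by simp only [Finset.mem_erase, ne_eq, Fin.ext_iff, Finset.mem_univ, and_true, Fin.val_rev, Nat.reduceSubDiff] at hk ⊢; omega)
        (fun k hk => by simp only [Finset.mem_erase, ne_eq, Fin.ext_iff, Finset.mem_univ, and_true, Fin.val_rev, Nat.reduceSubDiff] at hk ⊢; omega) (fun k _ => Fin.rev_rev k)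
    change ∑ k, v k * -v k.rev = 0 at q
    rw [← Finset.add_sum_erase _ _ (Finset.mem_univ ⟨n, by omega⟩),
      show Fin.rev (⟨n, by omega⟩ : Fin (2 * n + 1)) = ⟨n, by omega⟩ by simp only [Fin.ext_iff, Fin.val_rev, Nat.reduceSubDiff]; omega] at q
    rw [← Int.cast_sum, ZMod.intCast_zmod_eq_zero_iff_dvd] at e3
    have e4 : Fin.revPerm (⟨n - 1, by omega⟩ : Fin (2 * n)) = ⟨n, by omega⟩ := by
      simp only [Fin.revPerm_apply, Fin.ext_iff, Fin.val_rev]; omega
    simp only [Pi.evalAddMonoidHom_apply, Function.comp_apply, e4]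
    generalize v ⟨n, _⟩ = x at *
    obtain rfl | rfl | rfl : x = -1 ∨ x = 0 ∨ x = 1 := by
      have : x ≤ 1 := by nlinarith only [e2]
      have : -1 ≤ x := by nlinarith only [e2]
      omega
    all_goals omega
  · rw [Finset.sum_eq_single ⟨n - 1, by omega⟩]
    · simp only [CartanMatrix.A, of_apply, Fin.ext_iff, Fin.lt_def, Fin.revPerm_apply, Fin.val_rev,
        Pi.evalAddMonoidHom_apply]
      rw [if_pos (by omega), if_neg (by omega), if_pos (by omega)]
      have := Int.even_mul_pred_self (β ⟨n - 1, by omega⟩)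
      rw [show ∀ x : ℤ, -1 * x * x + 1 * x = -(x * (x - 1)) from fun x => by ring]
      exact this.neg
    · intro i _ ne
      simp only [CartanMatrix.A, of_apply, Fin.ext_iff, Fin.lt_def, Fin.revPerm_apply, Fin.val_rev,
        ne_eq] at ne ⊢
      split_ifs <;> first | omega | simp
    · simp only [Finset.mem_univ, not_true_eq_false, Fin.revPerm_apply, ite_eq_right_iff, mul_eq_zero, or_self_right, IsEmpty.forall_iff]
  · rintro (_ | p) b (_ | q) b' <;> simp only [Option.elim_none, ee_ee, Order.lt_add_one_iff, and_true, Fam.g, ↓ reduceIte, Fam.a1, Fam.a2, ite_self, Nat.cast_ofNat, Int.reduceSub, ite_eq_left_iff, not_le, zero_ne_one, imp_false, not_lt, Option.elim_some, reduceCtorEq, ite_eq_right_iff, one_ne_zero, not_and, Option.some.injEq, Fam.e1, Nat.cast_ite, Nat.cast_one]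
    · omega
    · have := q.val_lt
      cases b' <;> simp only [Bool.false_eq_true, ↓ reduceIte, tsub_le_iff_right] <;> omega
    · have := p.val_lt
      cases b <;> simp only [Bool.false_eq_true, ↓ reduceIte] <;> omega
    have := p.val_lt
    have := q.val_lt
    by_cases e : p = q
    · subst e; cases b <;> cases b' <;> simp only [Bool.false_eq_true, ↓ reduceIte, tsub_le_iff_right, and_true, Int.reduceSub, ite_eq_left_iff, not_le, zero_ne_one, imp_false, not_lt, ge_iff_le, sub_self, ite_eq_right_iff, one_ne_zero, not_and, Bool.true_eq_false, Nat.add_left_cancel_iff] <;> omega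
    · have := val_ne e
      cases b <;> cases b' <;> simp only [Bool.false_eq_true, ↓ reduceIte, tsub_le_iff_right, e, ite_eq_right_iff, one_ne_zero, imp_false, not_and, Nat.add_left_cancel_iff] <;> omega
  · rintro (_ | p) b
    · simp only [Option.elim, Fam.rv]; rw [rA_ee (by omega)]; congr 2; omega
    · have := p.val_lt
      cases b <;> simp only [Option.elim, Fam.rv] <;> rw [rA_ee (by simp only [Bool.false_eq_true, ↓ reduceIte, tsub_le_iff_right]; omega)] <;> simp only [Bool.false_eq_true, ↓ reduceIte, Bool.not_false, neg_inj, Bool.not_true] <;> congr 1 <;> omega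
  · rintro (_ | p) b
    · exact Or.inr (memA (by simp only [Option.elim_none]; omega))
    · have := p.val_lt
      exact Or.inr (memA (by simp only [Option.elim]; split_ifs <;> omega))
  · have key : ∀ i : Fin (2 * n), (i : ℕ) + 1 < n → tA _ i =
        ee (n - 1 - ((n - 2 - i : ℕ) + 1 : ZMod n).val) -
        ee (n - 1 - ((n - 2 - i : ℕ) : ZMod n).val) := fun i p => by
      rw [val_succ (by omega), ZMod.val_cast_of_lt (by omega), tA]; congr 2 <;> omega
    rcases lt_trichotomy ((i : ℕ) + 1) n with p | p | p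
    · exact ⟨_, _, Or.inl ⟨n - 2 - i, by omega, rfl, rfl⟩, Or.inr (Or.inl (key i p))⟩
    · exact ⟨_, _, Or.inr (Or.inr (Or.inr ⟨rfl, rfl⟩)), Or.inl (by simp only [tA, ← p, Bool.false_eq_true, ↓ reduceIte, add_tsub_cancel_right, Option.elim_some, ZMod.val_zero, tsub_zero, Option.elim_none])⟩
    · by_cases q : (i : ℕ) = n
      · refine ⟨_, _, Or.inr (Or.inr (Or.inr ⟨rfl, rfl⟩)), Or.inr (Or.inr (Or.inl ?_))⟩
        simp only [tA, Fin.revPerm_apply, Fin.val_rev, Option.elim, ZMod.val_zero]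
        congr 2 <;> grind
      · exact ⟨_, _, Or.inl ⟨n - 2 - Fin.revPerm i, by omega, rfl, rfl⟩,
          Or.inr (Or.inr (Or.inr (key _ (by simp only [Fin.revPerm_apply, Fin.val_rev]; omega))))⟩

theorem frameD0 (h : 3 ≤ r) : ∃ S : St (Equiv.Perm (Lie (CartanMatrix.D r) K)) (Fin r → ℤ) K,
    S.Gs = chev (CartanMatrix.D r) 1 φ ∧ S.φ = φ ∧ Nonempty (Frame S .D0 r) := by
  haveI : NeZero r := ⟨by omega⟩
  haveI : Fact (1 < r) := ⟨by omega⟩
  refine frame_ex (goodD h) (fun _ => rfl) hφ (tD r) (AddMonoidHom.id _) (gramD h) (fun _ => rfl)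
    (fun _ _ => rfl) (fun _ => rfl) 1 0 0 (by simp) (by simp only [AddMonoidHom.id_apply, Equiv.Perm.coe_one, CompTriple.comp_eq, AddMonoidHom.zero_apply, implies_true]) (by simp only [Equiv.Perm.coe_one, id_eq, lt_self_iff_false, ↓ reduceIte, Finset.sum_const_zero, AddMonoidHom.zero_apply, mul_zero, add_zero, Even.zero, implies_true])
    (fun o b => o.elim 0 fun p => if b then -ee (r - 1 - p.val) else ee (r - 1 - p.val)) ?_
    (fun _ _ => rfl) ?_ fun i => ?_
  · rintro (_ | p) b (_ | q) b' <;> simp only [Option.elim_none, map_zero, AddMonoidHom.zero_apply, Fam.g, ↓ reduceIte, Fam.a1, Fam.a2, ite_self, Nat.cast_one, sub_self, Option.elim_some, reduceCtorEq, Option.some.injEq, Fam.e1, Nat.cast_ite, Nat.cast_ofNat, CharP.cast_eq_zero]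
    have := p.val_lt
    have := q.val_lt
    by_cases e : p = q
    · subst e; cases b <;> cases b' <;> simp only [Bool.false_eq_true, ↓ reduceIte, ee_ee, and_true, Int.reduceSub, ite_eq_left_iff, not_lt, zero_ne_one, imp_false, not_le, gt_iff_lt, map_neg, zero_sub, Int.reduceNeg, neg_inj, AddMonoidHom.neg_apply, Bool.true_eq_false, neg_neg] <;> omega
    · have := val_ne e
      cases b <;> cases b' <;> simp only [Bool.false_eq_true, ↓ reduceIte, ee_ee, e, ite_eq_right_iff, one_ne_zero, imp_false, not_and, map_neg, neg_eq_zero, AddMonoidHom.neg_apply, neg_neg] <;> omega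
  · rintro (_ | p) b
    · exact Or.inl rfl
    · exact Or.inr (memD h (by omega) b)
  · by_cases p : (i : ℕ) + 1 < r
    · refine ⟨_, _, Or.inl ⟨r - 2 - i, by omega, rfl, rfl⟩, Or.inr (Or.inl ?_)⟩
      simp only [tD, p, if_true, Option.elim, Bool.false_eq_true, if_false]
      rw [val_succ (by omega), ZMod.val_cast_of_lt (by omega)]; congr 2 <;> omega
    · exact ⟨_, _, Or.inr (Or.inl ⟨rfl, rfl⟩), Or.inl (by simp only [tD, p, ↓ reduceIte, Bool.false_eq_true, Option.elim_some, ZMod.val_one, ZMod.val_zero, tsub_zero, sub_neg_eq_add, add_left_inj]; rfl)⟩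

theorem frameD {n : ℕ} (h : 1 ≤ n) :
    ∃ S : St (Equiv.Perm (Lie (CartanMatrix.D (n + 2)) K)) (Fin (n + 2) → ℤ) K,
    S.Gs = chev (CartanMatrix.D (n + 2)) (Equiv.swap (Fin.last n).castSucc (Fin.last (n + 1))) φ ∧
      S.φ = φ ∧ Nonempty (Frame S .D (n + 1)) := by
  set ρ' : (Fin (n + 2) → ℤ) →+ (Fin (n + 2) → ℤ) := AddMonoidHom.mk'
    (fun v j => if (j : ℕ) = n + 1 then -v j else v j) fun u v => by
      ext j; simp only [Pi.add_apply]; split_ifs <;> ring with hρ
  have re : ∀ k, ρ' (ee k) = if k = n + 1 then -ee k else ee k := fun k => by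
    ext j
    simp only [hρ, AddMonoidHom.mk'_apply]
    split_ifs <;> simp [ee] <;> omega
  have i3 : ∀ i : Fin (n + 2), i = (Fin.last n).castSucc ∨ i = Fin.last (n + 1) ∨
      (i ≠ (Fin.last n).castSucc ∧ i ≠ Fin.last (n + 1)) := fun i => by tauto
  refine frame_ex (goodD (by omega)) (by simp) hφ (tD _) ρ' (gramD (by omega)) (fun v => ?_)
    (fun u v => ?_) (fun i => ?_) 1 0 0 (by simp) (by simp) (fun β => ?_)
    (fun o b => if b then -ee (o.elim (n + 1) fun p => n - p.val) else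
      ee (o.elim (n + 1) fun p => n - p.val)) ?_ ?_ ?_ fun i => ?_
  · ext j; simp only [hρ, AddMonoidHom.mk'_apply]; split_ifs <;> simp
  · rw [dp_apply, dp_apply]
    refine Finset.sum_congr rfl fun j _ => ?_
    simp only [hρ, AddMonoidHom.mk'_apply]; split_ifs <;> simp
  · rcases i3 i with rfl | rfl | ⟨h1, h2⟩
    · simp only [tD, Fin.val_castSucc, Fin.val_last, add_lt_add_iff_left, Order.lt_two_iff, Std.le_refl, ↓ reduceIte, map_sub, re, Nat.left_eq_add, one_ne_zero, Nat.add_left_cancel_iff, sub_neg_eq_add, Equiv.swap_apply_left, lt_self_iff_false, add_tsub_cancel_right, Nat.add_one_sub_one]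
    · simp only [tD, Fin.val_last, lt_self_iff_false, ↓ reduceIte, add_tsub_cancel_right, Nat.add_one_sub_one, map_add, re, Nat.left_eq_add, one_ne_zero, Nat.add_left_cancel_iff, Equiv.swap_apply_right, Fin.val_castSucc, add_lt_add_iff_left, Order.lt_two_iff, Std.le_refl, sub_eq_add_neg]
    · rw [Equiv.swap_apply_of_ne_of_ne h1 h2]
      simp only [ne_eq, Fin.ext_iff, Fin.val_castSucc, Fin.val_last] at h1 h2
      simp [tD, re, h1, h2, show (i : ℕ) + 1 < n + 2 by omega]
  · rw [Finset.sum_eq_zero]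
    · simp only [AddMonoidHom.zero_apply, mul_zero, add_zero, Even.zero]
    intro i _
    rcases i3 i with rfl | rfl | ⟨h1, h2⟩
    · simp only [Equiv.swap_apply_left, Fin.castSucc_lt_last, ↓ reduceIte, CartanMatrix.D, Fin.ext_iff, add_le_iff_nonpos_left, nonpos_iff_eq_zero, add_lt_add_iff_right, Int.reduceNeg, Nat.reduceEqDiff, Nat.add_right_cancel_iff, of_apply, Fin.val_castSucc, Fin.val_last, Nat.left_eq_add, one_ne_zero, Nat.add_left_cancel_iff, add_lt_iff_neg_left, not_lt_zero, and_false, lt_self_iff_false, Nat.add_eq_left, or_true, and_true, or_false, ite_mul, zero_mul, neg_mul, one_mul, ite_eq_left_iff, ite_eq_right_iff, neg_eq_zero, mul_eq_zero, or_self]; omega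
    · simp [Fin.lt_def]
    · simp [Equiv.swap_apply_of_ne_of_ne h1 h2]
  · rintro (_ | p) b (_ | q) b'
    · cases b <;> cases b' <;> simp only [Bool.false_eq_true, ↓ reduceIte, Option.elim_none, ee_ee, add_lt_add_iff_left, Order.lt_two_iff, Std.le_refl, Nat.add_left_cancel_iff, and_self, Fam.g, Fam.a1, Nat.cast_ofNat, Int.reduceSub, map_neg, Int.reduceNeg, Fam.a2, CharP.cast_eq_zero, zero_sub, AddMonoidHom.neg_apply, Bool.true_eq_false, neg_neg]
    · cases b <;> cases b' <;> simp only [Bool.false_eq_true, ↓ reduceIte, Option.elim_none, Option.elim_some, ee_ee, Fam.g, reduceCtorEq, ite_eq_right_iff, one_ne_zero, imp_false, not_and, map_neg, neg_eq_zero, AddMonoidHom.neg_apply, neg_neg] <;> omega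
    · cases b <;> cases b' <;> simp only [Bool.false_eq_true, ↓ reduceIte, Option.elim_some, Option.elim_none, ee_ee, add_lt_add_iff_left, Order.lt_two_iff, Std.le_refl, true_and, Fam.g, reduceCtorEq, ite_eq_right_iff, one_ne_zero, imp_false, map_neg, neg_eq_zero, AddMonoidHom.neg_apply, neg_neg] <;> omega
    have := p.val_lt
    have := q.val_lt
    by_cases e : p = q
    · subst e; cases b <;> cases b' <;> simp only [Bool.false_eq_true, ↓ reduceIte, Option.elim_some, ee_ee, and_true, Fam.g, reduceCtorEq, Nat.cast_ofNat, Int.reduceSub, ite_eq_left_iff, not_lt, zero_ne_one, imp_false, not_le, gt_iff_lt, map_neg, Fam.e1, CharP.cast_eq_zero, zero_sub, Int.reduceNeg, neg_inj, AddMonoidHom.neg_apply, Bool.true_eq_false, neg_neg] <;> omega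
    · have := val_ne e
      cases b <;> cases b' <;> simp only [Bool.false_eq_true, ↓ reduceIte, Option.elim_some, ee_ee, Fam.g, Option.some.injEq, e, ite_eq_right_iff, one_ne_zero, imp_false, not_and, map_neg, neg_eq_zero, AddMonoidHom.neg_apply, neg_neg] <;> omega
  · rintro (_ | p) b
    · cases b <;> simp only [Bool.false_eq_true, ↓ reduceIte, Option.elim_none, re, Nat.add_left_cancel_iff, Fam.rv, Bool.not_false, map_neg, neg_neg, Bool.not_true]
    · cases b <;> simp only [Bool.false_eq_true, ↓ reduceIte, Option.elim_some, re, show n - p.val ≠ n + 1 by omega, Fam.rv, reduceCtorEq, map_neg]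
  · rintro (_ | p) b <;> exact Or.inr (memD (by omega) (by simp; try omega) b)
  · rcases i3 i with rfl | rfl | ⟨h1, h2⟩
    · exact ⟨_, _, Or.inr (Or.inr (Or.inr ⟨rfl, rfl⟩)), Or.inl (by simp [tD])⟩
    · exact ⟨_, _, Or.inr (Or.inr (Or.inr ⟨rfl, rfl⟩)), Or.inr (Or.inr (Or.inl (by simp [tD])))⟩
    · simp only [ne_eq, Fin.ext_iff, Fin.val_castSucc, Fin.val_last] at h1 h2
      refine ⟨_, _, Or.inl ⟨n - 1 - i, by omega, rfl, rfl⟩, Or.inr (Or.inl ?_)⟩
      simp only [tD, show (i : ℕ) + 1 < n + 2 by omega, if_true, Option.elim, Bool.false_eq_true,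
        if_false]
      rw [val_succ (by omega), ZMod.val_cast_of_lt (by omega)]; congr 2 <;> omega

end Pool.Agent.MP_c78e8e_al.H75

end

section

namespace Pool.Agent.MP_c78e8e_al.H75

open Subgroup Matrix

/-- Coordinate vectors. -/
structure V8 where
  a : ℤ
  b : ℤ
  c : ℤ
  d : ℤ
  e : ℤ
  f : ℤ
  g : ℤ
  h : ℤ
  deriving DecidableEq

namespace V8
def get (x : V8) : ℕ → ℤ
  | 0 => x.a | 1 => x.b | 2 => x.c | 3 => x.d | 4 => x.e | 5 => x.f | 6 => x.g | _ => x.h
def B (r : ℕ) (x y : V8) : ℤ :=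
  x.a * (y.a + y.a - y.c) + x.b * (y.b + y.b - y.d) + x.c * (y.c + y.c - y.a - y.d) +
  x.d * (y.d + y.d - y.b - y.c - y.e) + x.e * (y.e + y.e - y.d - y.f) + x.f * (y.f + y.f - y.e) +
  bif Nat.ble 7 r then x.g * (y.g + y.g - y.f) - x.f * y.g +
    bif Nat.ble 8 r then x.h * (y.h + y.h - y.g) - x.g * y.h else 0 else 0
def sub (x : V8) (k : ℤ) (z : V8) : V8 := ⟨x.a - k * z.a, x.b - k * z.b, x.c - k * z.c,
  x.d - k * z.d, x.e - k * z.e, x.f - k * z.f, x.g - k * z.g, x.h - k * z.h⟩
def rho (tw : Bool) (x : V8) : V8 := bif tw then ⟨x.f, x.b, x.e, x.d, x.c, x.a, x.g, x.h⟩ else x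
def un (i : ℕ) (s : ℤ) : V8 := ⟨if 0 = i then s else 0, if 1 = i then s else 0,
  if 2 = i then s else 0, if 3 = i then s else 0, if 4 = i then s else 0, if 5 = i then s else 0,
  if 6 = i then s else 0, if 7 = i then s else 0⟩
def vec (r : ℕ) (x : V8) : Fin r → ℤ := fun i => x.get i
end V8

def opE (r : ℕ) (tw : Bool) : Op0 V8 :=
  ⟨V8.B r, V8.rho tw, fun z c => c.sub (V8.B r c z) z⟩
def tcE (r : ℕ) : List V8 := (List.range r).flatMap fun i => [V8.un i 1, V8.un i (-1)]

theorem exc {r : ℕ} {C : Matrix (Fin r) (Fin r) ℤ} {ρ : Equiv.Perm (Fin r)} {K : Type} [Field K]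
    [Finite K] {φ : K →+* K} (hφ : ∀ s, φ (φ s) = s) (hC : Good0 C) (hρ : ∀ i, ρ (ρ i) = i)
    (hρC : ∀ i j, C (ρ i) (ρ j) = C i j) (h0 : ∀ i, i < ρ i → C i (ρ i) = 0) (h8 : r ≤ 8)
    (hB : ∀ c d, V8.B r c d = fm C (c.vec r) (d.vec r)) {tw : Bool}
    (hr : ∀ c : V8, (c.rho tw).vec r = c.vec r ∘ ρ) {m2 mtr mid odd : Bool}
    (md : Md φ m2 mtr mid odd) {g : GCert V8} (p : (opE r tw).check m2 mtr mid odd (tcE r) g) :
    IsLeast {n | Good (chev C ρ φ) n} 3 := by
  set M := model hρ hρC hφ hC 1 0 0 (by simp) (by simp) fun β _ b => by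
    have := tw_fix hC hρ hρC b
    rw [Finset.sum_eq_zero fun i _ => by split_ifs with h <;> simp [h0 i, h], sub_zero] at this
    simpa only [AddMonoidHom.zero_apply, mul_zero, add_zero] using this.neg_one_zpow
  rw [← model_Gs hρ hρC hφ hC]
  have key : ∀ P : (Fin r → ℤ) → Prop, (∀ d ∈ tcE r, P (d.vec r)) → ∀ i : Fin r,
      P (Pi.single i 1) ∧ P (-Pi.single i 1) := by
    intro P h i
    have e : ∀ s, (V8.un i s).vec r = s • Pi.single i 1 := fun s => by
      ext j
      have := j.2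
      simp only [V8.vec, Pi.smul_apply, Pi.single_apply, Fin.ext_iff, smul_eq_mul, mul_ite, mul_one,
        mul_zero]
      unfold V8.get; split <;> simp only [V8.un] <;> grind
    simp only [tcE, List.forall_mem_flatMap, List.mem_range, List.forall_mem_cons] at h
    simpa [e] using h i i.2
  refine Snd0.main (S := M) (e := V8.vec r) ⟨hB, hr, fun z c _ => ?_, fun _ => id⟩
    md p (fun H h => fin_model hC hρ M rfl (fun _ => id) (fun _ => rfl) (key _ h)) fun f h β _ => ?_
  · ext i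
    change (c.sub (V8.B r c z) z).get i = c.get i - fm C _ _ * z.get i
    rw [← hB]
    unfold V8.get; split <;> rfl
  · have : β = ∑ j, β j • Pi.single j 1 := by ext k; simp only [zsmul_eq_mul, Finset.sum_apply, Pi.mul_apply, Pi.intCast_apply, Int.cast_eq, Pi.single_apply, mul_ite, mul_one, mul_zero, Finset.sum_ite_eq, Finset.mem_univ, ↓ reduceIte]
    rw [this, map_sum]
    refine Finset.even_sum _ fun i _ => ?_
    rw [map_zsmul, smul_eq_mul]
    exact ((key (fun v => M.R v → Even (f v) ∧ Even (f (M.ρ v))) h i).1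
      ((fm_single i i).trans (hC.diag i))).1.mul_left _

theorem e8pos {a b c d e f g h : ℤ} (p : V8.B 8 ⟨a, b, c, d, e, f, g, h⟩ ⟨a, b, c, d, e, f, g, h⟩ ≤ 0) :
    a = 0 ∧ b = 0 ∧ c = 0 ∧ d = 0 ∧ e = 0 ∧ f = 0 ∧ g = 0 ∧ h = 0 := by
  have q : (a + 2 * b - 2 * c) ^ 2 + (-a + 2 * b + 2 * c - 2 * d) ^ 2 + (-a + 2 * d - 2 * e) ^ 2 +
      (-a + 2 * e - 2 * f) ^ 2 + (-a + 2 * f - 2 * g) ^ 2 + (-a + 2 * g - 2 * h) ^ 2 +
      (-a + 2 * h) ^ 2 + a ^ 2 = 0 := le_antisymm (by
    simp only [V8.B, Nat.ble, cond_true] at p; linarith) (by positivity)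
  simp (disch := positivity) only [add_eq_zero_iff_of_nonneg, sq_eq_zero_iff] at q
  omega

theorem B6 (c d : V8) : V8.B 6 c d = fm CartanMatrix.E₆ (c.vec 6) (d.vec 6) := by
  simp only [V8.B, Nat.ble, cond_false, add_zero, CartanMatrix.E₆, Int.reduceNeg, ← fm_apply, form_eq, of_apply, cons_val', cons_val_fin_one, V8.vec, V8.get, Fin.sum_univ_succ, Fin.isValue, cons_val_zero, Fin.coe_ofNat_eq_mod, Nat.zero_mod, cons_val_succ, Fin.val_succ, zero_add, Nat.reduceAdd, Finset.univ_unique, Fin.default_eq_zero, Fin.val_eq_zero, Finset.sum_const, Finset.card_singleton, Int.nsmul_eq_mul, Nat.cast_one, one_mul, zero_mul, neg_mul]; ring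

theorem B7 (c d : V8) : V8.B 7 c d = fm CartanMatrix.E₇ (c.vec 7) (d.vec 7) := by
  simp only [V8.B, Nat.ble, cond_false, add_zero, cond_true, CartanMatrix.E₇, Int.reduceNeg, ← fm_apply, form_eq, of_apply, cons_val', cons_val_fin_one, V8.vec, V8.get, Fin.sum_univ_succ, Fin.isValue, cons_val_zero, Fin.coe_ofNat_eq_mod, Nat.zero_mod, cons_val_succ, Fin.val_succ, zero_add, Nat.reduceAdd, Finset.univ_unique, Fin.default_eq_zero, Fin.val_eq_zero, Finset.sum_const, Finset.card_singleton, Int.nsmul_eq_mul, Nat.cast_one, one_mul, zero_mul, neg_mul]; ring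

theorem B8 (c d : V8) : V8.B 8 c d = fm CartanMatrix.E₈ (c.vec 8) (d.vec 8) := by
  simp only [V8.B, Nat.ble, cond_true, CartanMatrix.E₈, Int.reduceNeg, ← fm_apply, form_eq, of_apply, cons_val', cons_val_fin_one, V8.vec, V8.get, Fin.sum_univ_succ, Fin.isValue, cons_val_zero, Fin.coe_ofNat_eq_mod, Nat.zero_mod, cons_val_succ, Fin.val_succ, zero_add, Nat.reduceAdd, Finset.univ_unique, Fin.default_eq_zero, Fin.val_eq_zero, Finset.sum_const, Finset.card_singleton, Int.nsmul_eq_mul, Nat.cast_one, one_mul, zero_mul, neg_mul, add_zero]; ring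

theorem good6 : Good0 CartanMatrix.E₆ := ⟨by decide, by decide, by decide, fun v p => by
  have e : v = V8.vec 6 ⟨v 0, v 1, v 2, v 3, v 4, v 5, 0, 0⟩ := by ext i; fin_cases i <;> rfl
  rw [e, fm_apply, ← B6] at p
  have := @e8pos (v 0) (v 1) (v 2) (v 3) (v 4) (v 5) 0 0 (by simpa only [V8.B, Fin.isValue, Nat.ble, add_zero, zero_sub, mul_neg, zero_mul, neg_zero, mul_zero, sub_self, Bool.cond_self] using p)
  ext i; fin_cases i <;> simp [this], by decide⟩

theorem good7 : Good0 CartanMatrix.E₇ := ⟨by decide, by decide, by decide, fun v p => by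
  have e : v = V8.vec 7 ⟨v 0, v 1, v 2, v 3, v 4, v 5, v 6, 0⟩ := by ext i; fin_cases i <;> rfl
  rw [e, fm_apply, ← B7] at p
  have := @e8pos (v 0) (v 1) (v 2) (v 3) (v 4) (v 5) (v 6) 0 (by simpa only [V8.B, Fin.isValue, Nat.ble, add_zero, zero_sub, mul_neg, zero_mul, neg_zero, mul_zero, sub_self, Bool.cond_self, cond_true] using p)
  ext i; fin_cases i <;> simp [this], by decide⟩

theorem good8 : Good0 CartanMatrix.E₈ := ⟨by decide, by decide, by decide, fun v p => by
  have e : v = V8.vec 8 ⟨v 0, v 1, v 2, v 3, v 4, v 5, v 6, v 7⟩ := by ext i; fin_cases i <;> rfl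
  rw [e, fm_apply, ← B8] at p
  have := e8pos p
  ext i; fin_cases i <;> simp [this], by decide⟩

theorem rho6 (c : V8) : (c.rho true).vec 6 =
    c.vec 6 ∘ (Equiv.swap 0 5 * Equiv.swap 2 4 : Equiv.Perm (Fin 6)) := by
  ext i; fin_cases i <;> rfl

end Pool.Agent.MP_c78e8e_al.H75

end
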