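import Pool.Agent.MP_c78e8e_al.Gen

attribute [-instance] instCharZeroOfIsSemireal MonTypeEquivalenceMon.monMonoid
  FloorSemiring.instCharZero DistribMulActionSemiHomClass.toAddMonoidHomClass RKHS.instFunLike
  IdemSemiring.toSemiring RCLike.charZero_rclike instIsRightCancelAddOfAddRightReflectLE
  littleWedderburn NonUnitalAlgHomClass.toNonUnitalRingHomClass NumberField.to_charZero
  ContinuousSemilinearMapClass.toSemilinearMapClass NormedRing.toRing IsStrictOrderedRing.toCharZero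
  BooleanRing.toRing CommGroup.toDivisionCommMonoid CoalgHomClass.toSemilinearMapClass
  instFiniteOfFinitePresentation AddQuantale.instAddRightMono NormedCommRing.toCommRing
  Group.IsPerfect.subsingleton_of_isMulCommutative CompletePartialOrder.toPartialOrder
  CommGroupWithZero.toGroupWithZero NonUnitalRing.toNonUnitalNonAssocRing SeminormedRing.toRing
  LieRing.toAddCommGroup ContinuousMonoidHom.instCoeOutOfMonoidHomClassOfContinuousMapClass
  RingConeClass.toSubsemiringClass IsSemisimpleModule.instIsNoetherianOfFinite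
  NumberField.instFiniteDimensional EuclideanDomain.toCommRing IsFormallyReal.instIsReduced
  instNonUnitalAlgHomClassOfNonUnitalAlgEquivClass NonAssocCommSemiring.toNonAssocSemiring
  SeminormedCommRing.toCommRing LinearOrderedCommMonoidWithZero.toCommMonoidWithZero
  Algebra.instFiniteOfIsQuadraticExtension LieAdmissibleRing.toNonUnitalNonAssocRing
  forall_prop_decidable BialgHomClass.toAlgHomClass CoheytingAlgebra.toOrderTop
  TestFunctionClass.toDFunLike RingHom.Finite.instFinite LinearOrder.toDecidableEq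
  ContDiffMapSupportedInClass.toDFunLike NormedField.toField
  CommMonTypeEquivalenceCommMon.commMonCommMonoid Unique.instSubsingleton
  Module.Invertible.instFinite NonUnitalNormedCommRing.toNonUnitalCommRing NormedSpace.toModule
  NormedField.toNormedCommRing IdemCommSemiring.toCommSemiring
  Algebra.IsAlgebraic.isPurelyInseparable_of_isSepClosed
  IsRightCancelMul.mulRightReflectLE_of_mulRightReflectLT NonUnitalRing.toNonUnitalSemiring
  instCoeTCOfCoe SemilinearIsometryClass.toSemilinearMapClass BialgHomClass.toMonoidHomClass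
  NeZero.charZero_one IsAzumaya.toFinite BooleanRing.toCommRing IdemSemiring.toCanonicallyOrderedAdd
  LinearMapClass.instCoeToLinearMap IsDedekindDomainDvr.isDedekindDomain Algebra.WeaklyEtale.flat
  NonUnitalSemiring.toNonUnitalNonAssocSemiring Quantale.instMulRightMono
  LinearOrderedAddCommGroupWithTop.toOrderTop CharP.ofCharZero
  NonUnitalSeminormedCommRing.toNonUnitalCommRing NonUnitalNormedRing.toNormedAddCommGroup
  RingHomClass.toLinearMapClassNNRat Array.instDecidableForallForallMemOfDecidablePred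
  FunLike.toDecidableEq LinearOrderedAddCommMonoidWithTop.toOrderTop
  GeneralizedCoheytingAlgebra.toLattice MonoidWithZero.toSemigroupWithZero
  NonUnitalNonAssocCommSemiring.toNonUnitalNonAssocSemiring Algebra.Smooth.flat
  GroupWithZero.toDivInvMonoid Semiring.toNonUnitalSemiring IsSimpleModule.instIsNoetherian
  isNoetherian_of_subsingleton ValuationClass.toMonoidWithZeroHomClass instCoeTOfCoeDep
  Invertible.toNeZero AlgEquivClass.toAlgHomClass LinearOrderedCommGroupWithZero.toCommGroupWithZero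
  RingHomClass.toLinearMapClassRat
  NonUnitalAlgHomClass.instSemilinearMapClassOfNonUnitalAlgSemiHomClassToMonoidHomRingHom
  Finset.decidableDforallFinset NonAssocRing.toNonUnitalNonAssocRing
  ConditionallyCompleteLinearOrder.toLinearOrder instZeroLEOneClass
  CommGroupWithZero.toCommMonoidWithZero IsometryClass.instCoeOutIsometryEquiv
  GroupWithZero.toDivisionMonoid NonUnitalSubsemiringClass.toAddSubmonoidClass
  NonUnitalStarRingHomClass.instCoeHeadNonUnitalStarRingHom Multiset.decidableDforallMultiset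
  AlgHomClass.linearMapClass LinearOrderedCommMonoidWithZero.toLinearOrder
  LeftPreLieRing.toNonUnitalNonAssocRing RightPreLieRing.toNonUnitalNonAssocRing
  ContinuousAddMonoidHom.instCoeOutOfAddMonoidHomClassOfContinuousMapClass
  FirstOrder.Language.instDecidableEqRelations RingEquivClass.toNonUnitalRingHomClass
  OmegaCompletePartialOrder.toPartialOrder NonAssocCommRing.toNonUnitalNonAssocCommRing
  Vector.instDecidableForallForallMemOfDecidablePred LinearOrderedAddCommMonoidWithTop.toLinearOrder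
  HomeomorphClass.instCoeOutHomeomorph AddCommGroupWithOne.toAddGroupWithOne
  Option.decidableForallMem SemigroupWithZero.toMulZeroClass

section

namespace Pool.Agent.MP_c78e8e_al.H75

open Subgroup Matrix
open scoped commutatorElement

/-- Two by two matrices of determinant one. -/
abbrev SL2 (F : Type) [Field F] : Type := Matrix.SpecialLinearGroup (Fin 2) F

variable {F G : Type} [Field F] [Group G]

/-- Upper unitriangular matrices. -/
def mx (s : F) : SL2 F := ⟨!![1, s; 0, 1], by simp [det_fin_two]⟩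

/-- Lower unitriangular matrices (note the sign). -/
def mz (v : F) : SL2 F := ⟨!![1, 0; -v, 1], by simp [det_fin_two]⟩

/-- The Weyl element `mx 1 * mz 1 * mx 1`. -/
def mw : SL2 F := ⟨!![0, 1; -1, 0], by simp [det_fin_two]⟩

/-- Diagonal matrices. -/
def mdg (a : Fˣ) : SL2 F := ⟨!![(a : F), 0; 0, (a⁻¹ : Fˣ)], by simp [det_fin_two]⟩

/-- Conjugation by `g` acts on the image of `ψ` like conjugation by the matrix `P`. -/
def Act (ψ : SL2 F →* G) (g : G) (P : Matrix (Fin 2) (Fin 2) F) : Prop :=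
  P.det ≠ 0 ∧ ∀ A B : SL2 F, P * A.1 = B.1 * P → g * ψ A * g⁻¹ = ψ B

/-- Solvability condition for the rank one argument. -/
def Sol (x δ ε : F) : Prop :=
  ∃ (u y l : F) (i j : ℕ), u ≠ 0 ∧ y ≠ 0 ∧ δ * y ^ 2 - u ^ 2 = ε ∧ l * u ^ 2 = δ * y ^ 2 ∧ x ^ j ≠ 1 ∧
    (x ^ i * (x ^ j - l) = x ^ j - 1 ∧ x ^ i ≠ x ^ j ∨
      x ^ i * l * (x ^ j - 1) = x ^ j - l ∧ x ^ i * (x ^ j * l - 1) ≠ l * (x ^ j - 1))

/-- The powers of `x` span the field additively. -/
def Spn (x : F) : Prop := AddSubgroup.closure (Set.range fun n : ℕ => x ^ n) = ⊤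

end Pool.Agent.MP_c78e8e_al.H75

end

section

namespace Pool.Agent.MP_c78e8e_al.H75

open Subgroup Matrix
open scoped commutatorElement

variable {F G : Type} [Field F] [Group G]

open Classical in
/-- Bruhat form of the map. -/
noncomputable def sl2a_f (X n : F → G) (A : SL2 F) : G :=
  if A.1 1 0 = 0 then X (A.1 0 0 * A.1 0 1) * (n (A.1 0 0) * (n 1)⁻¹)
  else X (A.1 0 0 / A.1 1 0) * n (-(A.1 1 0)⁻¹) * X (A.1 1 1 / A.1 1 0)

theorem sl2a_det (A : SL2 F) : A.1 0 0 * A.1 1 1 - A.1 0 1 * A.1 1 0 = 1 := by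
  have := A.2
  rwa [det_fin_two] at this

theorem sl2a_mx (s : F) (A : SL2 F) : (mx s * A).1 0 0 = A.1 0 0 + s * A.1 1 0 ∧
    (mx s * A).1 0 1 = A.1 0 1 + s * A.1 1 1 ∧ (mx s * A).1 1 0 = A.1 1 0 ∧
    (mx s * A).1 1 1 = A.1 1 1 := by
  simp only [mx, Fin.isValue, Matrix.SpecialLinearGroup.coe_mul, Matrix.mul_apply, of_apply, cons_val', cons_val_fin_one, cons_val_zero, Fin.sum_univ_two, one_mul, cons_val_one, zero_mul, zero_add, and_self]

theorem sl2a_mw (A : SL2 F) : (mw * A).1 0 0 = A.1 1 0 ∧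
    (mw * A).1 0 1 = A.1 1 1 ∧ (mw * A).1 1 0 = -A.1 0 0 ∧ (mw * A).1 1 1 = -A.1 0 1 := by
  simp only [mw, Fin.isValue, Matrix.SpecialLinearGroup.coe_mul, Matrix.mul_apply, of_apply, cons_val', cons_val_fin_one, cons_val_zero, Fin.sum_univ_two, zero_mul, cons_val_one, one_mul, zero_add, neg_mul, add_zero, and_self]

/-- Induction over the generators as a monoid. -/
theorem sl2a_ind {P : SL2 F → Prop} (h1 : ∀ s, P (mx s)) (h2 : P mw)
    (hm : ∀ A B, P A → P B → P (A * B)) (A : SL2 F) : P A := by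
  have hz : ∀ v, P (mz v) := fun v => by
    have : (mz v : SL2 F) = mw * mx v * (mw * mw * mw) := by
      ext i j
      fin_cases i <;> fin_cases j <;> simp [mx, mz, mw, Matrix.mul_apply, Fin.sum_univ_two]
    rw [this]
    exact hm _ _ (hm _ _ h2 (h1 v)) (hm _ _ (hm _ _ h2 h2) h2)
  have hc : ∀ A : SL2 F, A.1 1 0 ≠ 0 → P A := fun A c0 => by
    have d := sl2a_det A
    have : A = mx ((A.1 0 0 - 1) / A.1 1 0) * mz (-A.1 1 0) * mx ((A.1 1 1 - 1) / A.1 1 0) := by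
      ext i j
      fin_cases i <;> fin_cases j <;> simp only [Fin.zero_eta, Fin.isValue, mx, mz, neg_neg, Matrix.SpecialLinearGroup.coe_mul, cons_mul, Nat.succ_eq_add_one, Nat.reduceAdd, vecMul_cons, head_cons, one_smul, tail_cons, smul_cons, smul_eq_mul, mul_one, smul_empty, empty_vecMul, add_zero, add_cons, zero_add, empty_add_empty, zero_smul, empty_mul, Equiv.symm_apply_apply, Matrix.mul_apply, of_apply, cons_val', cons_val_fin_one, cons_val_zero, Fin.sum_univ_two, cons_val_one, mul_zero, Fin.mk_one] <;>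
        field_simp <;> first | ring1 | linear_combination (-1 : F) * d
    rw [this]
    exact hm _ _ (hm _ _ (h1 _) (hz _)) (h1 _)
  by_cases c0 : A.1 1 0 = 0
  · have d := sl2a_det A
    have a0 : A.1 0 0 ≠ 0 := by
      intro h
      rw [h, c0] at d
      simp at d
    have : A = mw * mw * mw * (mw * A) := by
      have : (mw * mw * mw * mw : SL2 F) = 1 := by
        ext i j
        fin_cases i <;> fin_cases j <;> simp [mw, Matrix.mul_apply, Fin.sum_univ_two]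
      rw [← mul_assoc, this, one_mul]
    rw [this]
    refine hm _ _ (hm _ _ (hm _ _ h2 h2) h2) (hc _ ?_)
    rw [(sl2a_mw A).2.2.1]
    exact neg_ne_zero.2 a0
  · exact hc A c0

/-- Steinberg presentation of `SL₂`. -/
theorem psi_ex (X Z : F → G) (hX : ∀ s t, X (s + t) = X s * X t) (hZ : ∀ s t, Z (s + t) = Z s * Z t)
    (hB : ∀ t u, t ≠ 0 → (X t * Z t⁻¹ * X t) * X u * (X t * Z t⁻¹ * X t)⁻¹ = Z (u / t ^ 2))
    (hC : ∀ t u, t ≠ 0 → u ≠ 0 → (X t * Z t⁻¹ * X t) * (X 1 * Z 1 * X 1)⁻¹ * (X u * Z u⁻¹ * X u) =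
      X (t * u) * Z (t * u)⁻¹ * X (t * u)) :
    ∃ ψ : SL2 F →* G, (∀ s, ψ (mx s) = X s) ∧ ∀ v, ψ (mz v) = Z v := by
  obtain ⟨n, hn⟩ : ∃ n : F → G, ∀ t, n t = X t * Z t⁻¹ * X t := ⟨_, fun _ => rfl⟩
  have X0 : X 0 = 1 := by
    have := hX 0 0
    rw [add_zero] at this
    exact left_eq_mul.1 this
  have Z0 : Z 0 = 1 := by
    have := hZ 0 0
    rw [add_zero] at this
    exact left_eq_mul.1 this
  have Xn : ∀ s, X (-s) = (X s)⁻¹ := fun s => by
    rw [eq_inv_iff_mul_eq_one, ← hX, neg_add_cancel, X0]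
  have Zn : ∀ s, Z (-s) = (Z s)⁻¹ := fun s => by
    rw [eq_inv_iff_mul_eq_one, ← hZ, neg_add_cancel, Z0]
  have nn : ∀ t, n (-t) = (n t)⁻¹ := fun t => by
    rw [hn, hn, inv_neg, Xn, Zn]; group
  have B : ∀ t u, t ≠ 0 → n t * X u = Z (u / t ^ 2) * n t := fun t u t0 => by
    rw [← hB t u t0, ← hn]; group
  have C : ∀ t u, t ≠ 0 → u ≠ 0 → n t * (n 1)⁻¹ * n u = n (t * u) := fun t u t0 u0 => by
    have := hC t u t0 u0
    rw [hn, hn, hn, hn, inv_one]; exact this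
  have B' : ∀ t u, t ≠ 0 → X u * n t = n t * Z (u / t ^ 2) := fun t u t0 => by
    have := B (-t) u (neg_ne_zero.2 t0)
    rw [nn, neg_sq] at this
    calc X u * n t = n t * ((n t)⁻¹ * X u) * n t := by group
      _ = _ := by rw [this]; group
  have H : ∀ t u, t ≠ 0 → X u * (n t * (n 1)⁻¹) = n t * (n 1)⁻¹ * X (u / t ^ 2) := fun t u t0 => by
    have e := B (-1) (u / t ^ 2) (neg_ne_zero.2 one_ne_zero)
    rw [nn, neg_sq, one_pow, div_one] at e
    rw [← mul_assoc, B' t u t0, mul_assoc, mul_assoc, e]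
  have D : ∀ a, a ≠ 0 → n 1 * (n a * (n 1)⁻¹) = n a⁻¹ := fun a a0 => by
    have e1 := C a⁻¹ a (inv_ne_zero a0) a0
    have e2 := C a (-1) a0 (neg_ne_zero.2 one_ne_zero)
    rw [inv_mul_cancel₀ a0] at e1
    rw [mul_neg_one, nn, nn] at e2
    calc n 1 * (n a * (n 1)⁻¹) = n 1 * (n a * (n 1)⁻¹ * (n 1)⁻¹) * n 1 := by group
      _ = (n a⁻¹ * (n 1)⁻¹ * n a) * (n a)⁻¹ * n 1 := by rw [e2, e1]
      _ = _ := by group
  have E : ∀ c, c ≠ 0 → n 1 * n (-c⁻¹) = n c * (n 1)⁻¹ := fun c c0 => by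
    have e := D c c0
    have e2 := C c (-1) c0 (neg_ne_zero.2 one_ne_zero)
    have e1 := C c⁻¹ c (inv_ne_zero c0) c0
    rw [inv_mul_cancel₀ c0] at e1
    have e3 := C c c⁻¹ c0 (inv_ne_zero c0)
    rw [mul_inv_cancel₀ c0] at e3
    rw [nn]
    calc n 1 * (n c⁻¹)⁻¹ = (n c * (n 1)⁻¹ * n c⁻¹) * (n c⁻¹)⁻¹ := by rw [e3]
      _ = _ := by group
  have fx : ∀ s A, sl2a_f X n (mx s * A) = X s * sl2a_f X n A := fun s A => by
    obtain ⟨e1, e2, e3, e4⟩ := sl2a_mx s A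
    have d := sl2a_det A
    unfold sl2a_f
    rw [e1, e2, e3, e4]
    split_ifs with c0
    · rw [c0] at d ⊢
      rw [← mul_assoc (X s), ← hX]
      congr 2
      · linear_combination s * d
      · simp
    · rw [← mul_assoc (X s), ← mul_assoc (X s), ← hX]
      congr 3
      field_simp
      ring
  have fw : ∀ A, sl2a_f X n (mw * A) = n 1 * sl2a_f X n A := fun A => by
    obtain ⟨e1, e2, e3, e4⟩ := sl2a_mw A
    have d := sl2a_det A
    unfold sl2a_f
    rw [e1, e2, e3, e4]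
    generalize A.1 0 0 = a at *
    generalize A.1 0 1 = b at *
    generalize A.1 1 0 = c at *
    generalize A.1 1 1 = e at *
    by_cases c0 : c = 0
    · have a0 : a ≠ 0 := by
        rintro rfl
        simp [c0] at d
      rw [if_neg (neg_ne_zero.2 a0), if_pos c0, c0, zero_div, X0, one_mul, H a _ a0, ← mul_assoc,
        D a a0, inv_neg, neg_neg]
      congr 2
      field_simp
    · rw [if_neg c0]
      by_cases a0 : a = 0
      · rw [if_pos (neg_eq_zero.2 a0), a0, zero_div, X0, one_mul, ← mul_assoc (n 1), E c c0, H c _ c0]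
        congr 2
        field_simp
      · rw [if_neg (neg_ne_zero.2 a0)]
        have z : Z (a / c) = X (-(c / a)) * n (c / a) * X (-(c / a)) := by
          rw [hn, Xn, inv_div]; group
        have k : n (c / a) * (n c * (n 1)⁻¹) = n a⁻¹ := by
          have e5 := C (c / a) 1 (div_ne_zero c0 a0) one_ne_zero
          have e6 := C (c / a) c⁻¹ (div_ne_zero c0 a0) (inv_ne_zero c0)
          rw [← D c c0] at e6
          rw [show c / a * c⁻¹ = a⁻¹ by field_simp] at e6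
          rw [← e6]; group
        have b1 := B 1 (a / c) one_ne_zero
        rw [one_pow, div_one, z] at b1
        calc X (c / -a) * n (-(-a)⁻¹) * X (-b / -a)
            = X (-(c / a)) * n a⁻¹ * X (-(c / a) / c ^ 2 + e / c) := by
              rw [inv_neg, neg_neg, div_neg]
              congr 2
              field_simp
              linear_combination (-1 : F) * d
          _ = X (-(c / a)) * n (c / a) * (n c * (n 1)⁻¹ * X (-(c / a) / c ^ 2)) * X (e / c) := by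
              rw [hX, ← k]; group
          _ = X (-(c / a)) * n (c / a) * X (-(c / a)) * n 1 * n (-c⁻¹) * X (e / c) := by
              rw [← H c _ c0, ← E c c0]; group
          _ = _ := by rw [← b1]; group
  have f1 : sl2a_f X n 1 = 1 := by
    simp only [sl2a_f, Fin.isValue, Matrix.SpecialLinearGroup.coe_one, ne_eq, one_ne_zero, not_false_eq_true, one_apply_ne, ↓ reduceIte, one_apply_eq, zero_ne_one, mul_zero, X0, mul_inv_cancel, mul_one]
  have fm : ∀ g A, sl2a_f X n (g * A) = sl2a_f X n g * sl2a_f X n A := by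
    refine sl2a_ind (fun s A => ?_) (fun A => ?_) (fun g h hg hh A => ?_)
    · have := fx s 1
      rw [mul_one, f1, mul_one] at this
      rw [this, fx]
    · have := fw 1
      rw [mul_one, f1, mul_one] at this
      rw [this, fw]
    · rw [mul_assoc, hg, hh, hg, mul_assoc]
  refine ⟨MonoidHom.mk' (sl2a_f X n) fm, fun s => ?_, fun v => ?_⟩
  · have := fx s 1
    rwa [mul_one, f1, mul_one] at this
  · have e : (mw * mx v : SL2 F) = mz v * mw := by
      ext i j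
      fin_cases i <;> fin_cases j <;> simp only [mw, mx, Fin.zero_eta, Fin.isValue, Matrix.SpecialLinearGroup.coe_mul, Matrix.mul_apply, of_apply, cons_val', cons_val_fin_one, cons_val_zero, Fin.sum_univ_two, mul_one, cons_val_one, mul_zero, add_zero, mz, mul_neg, neg_zero, Fin.mk_one, zero_mul, zero_add, neg_mul, one_mul]
    have e1 := fw (mx v)
    have e2 := fx v 1
    have e3 := fw 1
    rw [mul_one, f1, mul_one] at e2 e3
    rw [e, fm, e2, e3, B 1 v one_ne_zero, one_pow, div_one] at e1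
    exact mul_right_cancel e1

end Pool.Agent.MP_c78e8e_al.H75

end

section

namespace Pool.Agent.MP_c78e8e_al.H75

open Subgroup Matrix
open scoped commutatorElement

variable {F G : Type} [Field F] [Group G] {ψ : SL2 F →* G}

theorem mw_eq : (mw : SL2 F) = mx 1 * mz 1 * mx 1 := by
  ext i j
  fin_cases i <;> fin_cases j <;> simp [mw, mx, mz, Matrix.mul_apply, Fin.sum_univ_two]

theorem mdg_eq (a : Fˣ) : mdg a = mx (a : F) * mz (a : F)⁻¹ * mx (a : F) * mw⁻¹ := by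
  rw [eq_mul_inv_iff_mul_eq]
  ext i j
  fin_cases i <;> fin_cases j <;> simp [mdg, mw, mx, mz, Matrix.mul_apply, Fin.sum_univ_two]

theorem sl2b_ind (H : Subgroup (SL2 F)) (h1 : ∀ s, mx s ∈ H) (h2 : ∀ s, mz s ∈ H) (A : SL2 F) :
    A ∈ H := by
  have key : ∀ A : SL2 F, A.1 1 0 ≠ 0 → A ∈ H := by
    intro A c0
    have hd := A.2
    rw [det_fin_two] at hd
    have e : A = mx ((A.1 0 0 - 1) / A.1 1 0) * mz (-A.1 1 0) * mx ((A.1 1 1 - 1) / A.1 1 0) := by
      ext i j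
      fin_cases i <;> fin_cases j <;> simp only [Fin.zero_eta, Fin.isValue, mx, mz, neg_neg, Matrix.SpecialLinearGroup.coe_mul, cons_mul, Nat.succ_eq_add_one, Nat.reduceAdd, vecMul_cons, head_cons, one_smul, tail_cons, smul_cons, smul_eq_mul, mul_one, smul_empty, empty_vecMul, add_zero, add_cons, zero_add, empty_add_empty, zero_smul, empty_mul, Equiv.symm_apply_apply, Matrix.mul_apply, of_apply, cons_val', cons_val_fin_one, cons_val_zero, Fin.sum_univ_two, cons_val_one, mul_zero, Fin.mk_one]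
      · field_simp; ring
      · field_simp; linear_combination -hd
      · field_simp; ring
    rw [e]
    exact H.mul_mem (H.mul_mem (h1 _) (h2 _)) (h1 _)
  by_cases c0 : A.1 1 0 = 0
  · have hd := A.2
    rw [det_fin_two, c0] at hd
    have a0 : A.1 0 0 ≠ 0 := fun h => by simp [h] at hd
    have := key (mz (-1) * A) (by simpa only [mz, neg_neg, Fin.isValue, Matrix.SpecialLinearGroup.coe_mul, Matrix.mul_apply, of_apply, cons_val', cons_val_fin_one, cons_val_one, Fin.sum_univ_two, cons_val_zero, one_mul, c0, mul_zero, add_zero, ne_eq] using a0)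
    exact (H.mul_mem_cancel_left (h2 _)).1 this
  · exact key A c0

theorem sl2_gen {H : Subgroup G} (h1 : ∀ s, ψ (mx s) ∈ H) (h2 : ∀ s, ψ (mz s) ∈ H) (A : SL2 F) :
    ψ A ∈ H :=
  sl2b_ind (H.comap ψ) h1 h2 A

theorem sl2_comm {g : G} (h1 : ∀ s, Commute g (ψ (mx s))) (h2 : ∀ s, Commute g (ψ (mz s)))
    (A : SL2 F) : Commute g (ψ A) := by
  have := sl2_gen (ψ := ψ) (H := centralizer {g})
    (fun s => mem_centralizer_singleton_iff.2 (h1 s).symm.eq)
    (fun s => mem_centralizer_singleton_iff.2 (h2 s).symm.eq) A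
  exact (mem_centralizer_singleton_iff.1 this).symm

/-- Conjugation by an invertible matrix. -/
noncomputable def sl2bCj (P : Matrix (Fin 2) (Fin 2) F) (hP : P.det ≠ 0) : SL2 F →* SL2 F where
  toFun A := ⟨P * A.1 * P⁻¹, by
    rw [det_mul, det_mul, A.2, mul_one, ← det_mul, mul_nonsing_inv _ (Ne.isUnit hP), det_one]⟩
  map_one' := Subtype.ext (by simp [mul_nonsing_inv _ (Ne.isUnit hP)])
  map_mul' A B := Subtype.ext (by
    show P * (A.1 * B.1) * P⁻¹ = P * A.1 * P⁻¹ * (P * B.1 * P⁻¹)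
    simp only [Matrix.mul_assoc, nonsing_inv_mul_cancel_left _ _ (Ne.isUnit hP)])

theorem sl2b_cj_mul {P : Matrix (Fin 2) (Fin 2) F} (hP : P.det ≠ 0) (A : SL2 F) :
    P * A.1 = (sl2bCj P hP A).1 * P := by
  show _ = P * A.1 * P⁻¹ * P
  rw [nonsing_inv_mul_cancel_right _ _ (Ne.isUnit hP)]

theorem sl2b_cj_eq {P : Matrix (Fin 2) (Fin 2) F} (hP : P.det ≠ 0) {A B : SL2 F}
    (h : P * A.1 = B.1 * P) : sl2bCj P hP A = B :=
  Subtype.ext (by
    show P * A.1 * P⁻¹ = B.1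
    rw [h, mul_nonsing_inv_cancel_right _ _ (Ne.isUnit hP)])

theorem sl2b_act {g : G} {P : Matrix (Fin 2) (Fin 2) F} (hP : P.det ≠ 0)
    (h1 : ∀ s, ∃ B : SL2 F, P * (mx s).1 = B.1 * P ∧ g * ψ (mx s) * g⁻¹ = ψ B)
    (h2 : ∀ s, ∃ B : SL2 F, P * (mz s).1 = B.1 * P ∧ g * ψ (mz s) * g⁻¹ = ψ B) : Act ψ g P := by
  refine ⟨hP, fun A B h => ?_⟩
  rw [← sl2b_cj_eq hP h]
  refine sl2b_ind (((MulAut.conj g).toMonoidHom.comp ψ).eqLocus (ψ.comp (sl2bCj P hP))) ?_ ?_ A
  · intro s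
    obtain ⟨B, e, f⟩ := h1 s
    show g * ψ (mx s) * g⁻¹ = ψ (sl2bCj P hP (mx s))
    rw [sl2b_cj_eq hP e, f]
  · intro s
    obtain ⟨B, e, f⟩ := h2 s
    show g * ψ (mz s) * g⁻¹ = ψ (sl2bCj P hP (mz s))
    rw [sl2b_cj_eq hP e, f]

theorem act_diag {g : G} {l : F} (l0 : l ≠ 0) (h1 : ∀ s, g * ψ (mx s) * g⁻¹ = ψ (mx (l * s)))
    (h2 : ∀ s, g * ψ (mz s) * g⁻¹ = ψ (mz (s / l))) : Act ψ g !![l, 0; 0, 1] := by
  refine sl2b_act (by simpa [det_fin_two] using l0) (fun s => ⟨_, ?_, h1 s⟩) (fun s => ⟨_, ?_, h2 s⟩)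
  · ext i j
    fin_cases i <;> fin_cases j <;> simp only [mx, Fin.zero_eta, Fin.isValue, Matrix.mul_apply, of_apply, cons_val', cons_val_fin_one, cons_val_zero, Fin.sum_univ_two, mul_one, cons_val_one, mul_zero, add_zero, one_mul, Fin.mk_one, zero_add, zero_mul]
  · ext i j
    fin_cases i <;> fin_cases j <;> simp only [mz, Fin.zero_eta, Fin.isValue, Matrix.mul_apply, of_apply, cons_val', cons_val_fin_one, cons_val_zero, Fin.sum_univ_two, mul_one, cons_val_one, mul_neg, zero_mul, neg_zero, add_zero, one_mul, mul_zero, Fin.mk_one, zero_add, neg_mul, isUnit_iff_ne_zero, ne_eq, l0, not_false_eq_true, IsUnit.div_mul_cancel]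

theorem act_anti {g : G} {l : F} (l0 : l ≠ 0) (h1 : ∀ s, g * ψ (mx s) * g⁻¹ = ψ (mz (l * s)))
    (h2 : ∀ s, g * ψ (mz s) * g⁻¹ = ψ (mx (s / l))) : Act ψ g !![0, -l⁻¹; 1, 0] := by
  refine sl2b_act (by simpa [det_fin_two] using l0) (fun s => ⟨_, ?_, h1 s⟩) (fun s => ⟨_, ?_, h2 s⟩)
  · ext i j
    fin_cases i <;> fin_cases j <;> simp only [mx, Fin.zero_eta, Fin.isValue, Matrix.mul_apply, of_apply, cons_val', cons_val_fin_one, cons_val_zero, Fin.sum_univ_two, mul_one, cons_val_one, mul_zero, add_zero, mz, Fin.mk_one, zero_mul, zero_add, mul_neg, one_mul, neg_mul, neg_neg]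
    field_simp
  · ext i j
    fin_cases i <;> fin_cases j <;> simp only [mz, Fin.zero_eta, Fin.isValue, Matrix.mul_apply, of_apply, cons_val', cons_val_fin_one, cons_val_zero, Fin.sum_univ_two, mul_one, cons_val_one, mul_neg, neg_mul, neg_neg, zero_add, mx, mul_zero, Fin.mk_one, one_mul, add_zero, zero_mul, neg_zero]
    field_simp

theorem act_self (A : SL2 F) : Act ψ (ψ A) A.1 := by
  refine ⟨by rw [A.2]; exact one_ne_zero, fun B C h => ?_⟩
  have e : A * B = C * A := Subtype.ext h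
  rw [← map_mul, e, map_mul, mul_inv_cancel_right]

theorem Act.mul {g g' : G} {P P' : Matrix (Fin 2) (Fin 2) F} (h : Act ψ g P) (h' : Act ψ g' P') :
    Act ψ (g * g') (P * P') := by
  refine ⟨by rw [det_mul]; exact mul_ne_zero h.1 h'.1, fun A B e => ?_⟩
  have e1 := sl2b_cj_mul h'.1 A
  have e2 : P * (sl2bCj P' h'.1 A).1 = B.1 * P := by
    have : P * (sl2bCj P' h'.1 A).1 * P' = B.1 * P * P' := by
      rw [Matrix.mul_assoc, ← e1, ← Matrix.mul_assoc, e, Matrix.mul_assoc]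
    have t := congrArg (· * P'⁻¹) this
    simpa only [mul_nonsing_inv_cancel_right _ _ (Ne.isUnit h'.1)] using t
  rw [← h.2 _ _ e2, ← h'.2 _ _ e1]
  group

theorem Act.inv {g : G} {P : Matrix (Fin 2) (Fin 2) F} (h : Act ψ g P) : Act ψ g⁻¹ P⁻¹ := by
  have u := Ne.isUnit h.1
  refine ⟨(isUnit_nonsing_inv_det P u).ne_zero, fun A B e => ?_⟩
  have e2 : P * B.1 = A.1 * P := by
    have t := congrArg (fun X => P * X * P) e
    simp only [Matrix.mul_assoc, mul_nonsing_inv_cancel_left _ _ u, nonsing_inv_mul _ u,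
      Matrix.mul_one] at t
    exact t.symm
  rw [← h.2 _ _ e2]
  group

theorem Act.smul {g : G} {P : Matrix (Fin 2) (Fin 2) F} (h : Act ψ g P) {c : F} (c0 : c ≠ 0) :
    Act ψ g (c • P) := by
  refine ⟨by rw [det_smul]; exact mul_ne_zero (pow_ne_zero _ c0) h.1, fun A B e => h.2 A B ?_⟩
  rw [Matrix.smul_mul, Matrix.mul_smul] at e
  exact smul_right_injective _ c0 e

theorem sl2b_quad [Finite F] {D : F} (D0 : D ≠ 0) (c : F) : ∃ x y : F, x ^ 2 + D * y ^ 2 = c := by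
  classical
  have := Fintype.ofFinite F
  by_cases h2 : ringChar F = 2
  · obtain ⟨r, hr⟩ := FiniteField.isSquare_of_char_two h2 c
    exact ⟨r, 0, by rw [hr]; ring⟩
  · have ho : Fintype.card F % 2 = 1 := by
      have := mt FiniteField.even_card_iff_char_two.2 h2
      omega
    obtain ⟨a, b, e⟩ := FiniteField.exists_root_sum_quadratic
      (f := Polynomial.X ^ 2 - Polynomial.C c) (g := Polynomial.C D * Polynomial.X ^ 2)
      (Polynomial.degree_X_pow_sub_C (by norm_num) c) (Polynomial.degree_C_mul_X_pow 2 D0) ho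
    refine ⟨a, b, ?_⟩
    simp only [Polynomial.eval_sub, Polynomial.eval_pow, Polynomial.eval_X, Polynomial.eval_C, Polynomial.eval_mul] at e
    linear_combination e

theorem sl2b_comp [Finite F] {N : Matrix (Fin 2) (Fin 2) F} (t : N.trace = 0) (n : N 1 0 ≠ 0)
    (d : N.det ≠ 0) : ∃ S : SL2 F, N * S.1 = S.1 * !![0, -N.det; 1, 0] := by
  obtain ⟨x, y, e⟩ := sl2b_quad d (N 1 0)
  rw [trace_fin_two] at t
  have t' : N 1 1 = -N 0 0 := by linear_combination t
  obtain ⟨u, rfl⟩ : ∃ u, x = N 1 0 * u - N 0 0 * y := ⟨(x + N 0 0 * y) / N 1 0, by field_simp; ring⟩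
  rw [det_fin_two, t'] at e
  have e' : u * (N 1 0 * u - N 0 0 * y) - (N 0 0 * u + N 0 1 * y) * y = 1 :=
    mul_left_cancel₀ n (by linear_combination e)
  refine ⟨⟨!![u, N 0 0 * u + N 0 1 * y; y, N 1 0 * u - N 0 0 * y], by rw [det_fin_two_of]; exact e'⟩, ?_⟩
  ext i j
  fin_cases i <;> fin_cases j <;> simp only [Fin.isValue, Fin.zero_eta, Matrix.mul_apply, of_apply, cons_val', cons_val_zero, cons_val_fin_one, Fin.sum_univ_two, cons_val_one, det_fin_two, t', mul_neg, neg_sub, sub_neg_eq_add, mul_zero, mul_one, zero_add, Fin.mk_one, add_zero, neg_mul] <;> ring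

/-- Traceless non-scalar matrices of equal determinant are conjugate under `SL₂` of a finite field. -/
theorem Act.conj [Finite F] {m : G} {P : Matrix (Fin 2) (Fin 2) F} (h : Act ψ m P) {M M' : SL2 F}
    (t : (P * M.1).trace = 0) (t' : (P * M'.1).trace = 0) (n : (P * M.1) 1 0 ≠ 0)
    (n' : (P * M'.1) 1 0 ≠ 0) : ∃ S, ψ S * (m * ψ M) * (ψ S)⁻¹ = m * ψ M' := by
  have d : (P * M.1).det = P.det := by rw [det_mul, M.2, mul_one]
  have d' : (P * M'.1).det = P.det := by rw [det_mul, M'.2, mul_one]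
  obtain ⟨S, e⟩ := sl2b_comp t n (d ▸ h.1)
  obtain ⟨S', e'⟩ := sl2b_comp t' n' (d' ▸ h.1)
  rw [d] at e
  rw [d'] at e'
  refine ⟨S' * S⁻¹, ?_⟩
  have i1 : S.1 * (S⁻¹).1 = 1 := congrArg Subtype.val (mul_inv_cancel S)
  have i2 : (S⁻¹).1 * S.1 = 1 := congrArg Subtype.val (inv_mul_cancel S)
  have i3 : (S'⁻¹).1 * S'.1 = 1 := congrArg Subtype.val (inv_mul_cancel S')
  have k : P * (M' * (S' * S⁻¹) * M⁻¹).1 = (S' * S⁻¹).1 * P := by
    have i4 : M.1 * (M⁻¹).1 = 1 := congrArg Subtype.val (mul_inv_cancel M)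
    show P * (M'.1 * (S'.1 * (S⁻¹).1) * (M⁻¹).1) = S'.1 * (S⁻¹).1 * P
    calc P * (M'.1 * (S'.1 * (S⁻¹).1) * (M⁻¹).1)
        = (P * M'.1 * S'.1) * (S⁻¹).1 * (M⁻¹).1 := by simp only [Matrix.mul_assoc]
      _ = S'.1 * ((S⁻¹).1 * S.1) * !![0, -P.det; 1, 0] * (S⁻¹).1 * (M⁻¹).1 := by
        rw [e', i2, Matrix.mul_one]
      _ = S'.1 * (S⁻¹).1 * (S.1 * !![0, -P.det; 1, 0]) * (S⁻¹).1 * (M⁻¹).1 := by
        simp only [Matrix.mul_assoc]
      _ = S'.1 * (S⁻¹).1 * P * (M.1 * (S.1 * (S⁻¹).1) * (M⁻¹).1) := by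
        rw [← e]; simp only [Matrix.mul_assoc]
      _ = _ := by rw [i1, Matrix.mul_one, i4, Matrix.mul_one]
  have r := h.2 _ _ k
  generalize S' * S⁻¹ = T at r
  rw [map_mul, map_mul, map_inv] at r
  calc ψ T * (m * ψ M) * (ψ T)⁻¹
      = m * (ψ M' * ψ T * (ψ M)⁻¹) * m⁻¹ * (m * ψ M) * (ψ T)⁻¹ := by rw [r]
    _ = _ := by group

theorem sl2_not_solvable [Finite F] (h4 : 4 ≤ Nat.card F) (n : ψ (mx 1) ≠ 1) {N : Subgroup G}
    (h : ∀ A, ψ A ∈ N) : ¬ Group.IsSolvable N := by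
  classical
  obtain ⟨a, ha⟩ : ∃ a : F, a ∉ ({0, 1, -1} : Finset F) := by
    by_contra c
    push Not at c
    have := Fintype.ofFinite F
    have h1 : (Finset.univ : Finset F) ⊆ {0, 1, -1} := fun x _ => c x
    have h2 := (Finset.card_le_card h1).trans Finset.card_le_three
    rw [Finset.card_univ, ← Nat.card_eq_fintype_card] at h2
    omega
  simp only [Finset.mem_insert, Finset.mem_singleton, not_or] at ha
  obtain ⟨a0, a1, a2⟩ := ha
  have a3 : a ^ 2 - 1 ≠ 0 := fun e => by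
    rcases mul_eq_zero.1 (show (a - 1) * (a + 1) = 0 by linear_combination e) with e | e
    · exact a1 (by linear_combination e)
    · exact a2 (by linear_combination e)
  have hx : ∀ s : F, mx s ∈ (⁅⊤, ⊤⁆ : Subgroup (SL2 F)) := fun s => by
    have e : mx s = ⁅mdg (Units.mk0 a a0), mx (s / (a ^ 2 - 1))⁆ := by
      rw [commutatorElement_def, eq_mul_inv_iff_mul_eq, eq_mul_inv_iff_mul_eq]
      ext i j
      fin_cases i <;> fin_cases j <;> simp only [mx, mdg, Units.val_mk0, Units.val_inv_eq_inv_val, Fin.zero_eta, Fin.isValue, Matrix.SpecialLinearGroup.coe_mul, cons_mul, Nat.succ_eq_add_one, Nat.reduceAdd, vecMul_cons, head_cons, one_smul, tail_cons, smul_cons, smul_eq_mul, mul_zero, mul_one, smul_empty, empty_vecMul, add_zero, add_cons, empty_add_empty, zero_smul, zero_add, empty_mul, Equiv.symm_apply_apply, Matrix.mul_apply, of_apply, cons_val', cons_val_fin_one, cons_val_zero, Fin.sum_univ_two, one_mul, cons_val_one,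 Fin.mk_one, zero_mul]
      field_simp
      ring
    rw [e]
    exact commutator_mem_commutator (mem_top _) (mem_top _)
  have hz : ∀ s : F, mz s ∈ (⁅⊤, ⊤⁆ : Subgroup (SL2 F)) := fun s => by
    have e : mz s = mw * mx s * mw⁻¹ := by
      rw [eq_mul_inv_iff_mul_eq]
      ext i j
      fin_cases i <;> fin_cases j <;> simp only [mz, mw, Fin.zero_eta, Fin.isValue, Matrix.SpecialLinearGroup.coe_mul, Matrix.mul_apply, of_apply, cons_val', cons_val_fin_one, cons_val_zero, Fin.sum_univ_two, mul_zero, cons_val_one, mul_neg, mul_one, neg_zero, add_zero, mx, Fin.mk_one, zero_mul, zero_add, neg_mul, one_mul]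
    rw [e]
    exact Subgroup.Normal.conj_mem inferInstance _ (hx s) _
  have hd : ∀ k, derivedSeries (SL2 F) k = ⊤ := fun k => by
    induction k with
    | zero => rfl
    | succ k ih => rw [derivedSeries_succ, ih, eq_top_iff]; exact fun A _ => sl2b_ind _ hx hz A
  rintro ⟨k, hk⟩
  have := map_derivedSeries_le_derivedSeries (ψ.codRestrict N h) k
  rw [hd, hk] at this
  exact n (congrArg Subtype.val (mem_bot.1 (this ⟨mx 1, mem_top _, rfl⟩)))

end Pool.Agent.MP_c78e8e_al.H75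

end

section

namespace Pool.Agent.MP_c78e8e_al.H75

open Subgroup Matrix
open scoped commutatorElement

variable {F G : Type} [Field F] [Group G] {ψ : SL2 F →* G}

/-- The matrix used for the second generator. -/
def mM (u y δ ε : F) (e : ε * ε = 1) (h : δ * y ^ 2 - u ^ 2 = ε) : SL2 F :=
  ⟨!![ε * u, -(ε * δ * y); y, -u], by rw [det_fin_two_of]; linear_combination ε * h + e⟩

/-- Scalar matrices. -/
def sl2c_sc (c : F) (e : c * c = 1) : SL2 F := ⟨!![c, 0; 0, c], by rw [det_fin_two_of]; simp [e]⟩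

theorem sl2c_ext {A B : SL2 F} (h : A.1 = B.1) : A = B := Subtype.ext h

theorem sl2c_coe (A B : SL2 F) : (A * B).1 = A.1 * B.1 := rfl

theorem sl2c_add (s t : F) : mx (s + t) = mx s * mx t :=
  sl2c_ext (by simp [mx, add_comm])

theorem sl2c_zero : mx (0 : F) = 1 := sl2c_ext (by simp [mx, one_fin_two])

theorem sl2c_neg (s : F) : mx (-s) = (mx s)⁻¹ :=
  eq_inv_of_mul_eq_one_left (by rw [← sl2c_add, neg_add_cancel, sl2c_zero])

/-- The commutation of the first two generators. -/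
theorem r1_comm {d b : G} {u y δ ε : F} (e : ε * ε = 1) (h : δ * y ^ 2 - u ^ 2 = ε)
    (ad : Act ψ d !![0, δ; 1, 0]) (ab : Act ψ b !![ε, 0; 0, 1]) (bb : b * ψ mw * (b * ψ mw) = 1)
    (db : d * b * d⁻¹ = b⁻¹) : Commute d (b * ψ (mM u y δ ε e h)) := by
  have e' : -ε * -ε = 1 := by rw [neg_mul_neg, e]
  have h1 := ab.2 mw (sl2c_sc ε e * mw) (by simp [mw, sl2c_sc, e])
  have h2 := ad.2 (mM u y δ ε e h) (sl2c_sc (-ε) e' * mM u y δ ε e h) (by
    simp only [mM, sl2c_sc, SpecialLinearGroup.coe_mul, mul_fin_two]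
    ext i j
    fin_cases i <;> fin_cases j <;> simp
    · linear_combination (-δ * y) * e
    · linear_combination (-u * δ) * e
    · ring)
  have h3 : sl2c_sc (-ε) e' = (mw * (sl2c_sc ε e * mw))⁻¹ :=
    eq_inv_of_mul_eq_one_left (sl2c_ext (by simp [mw, sl2c_sc, e, one_fin_two]))
  have h4 : ψ (sl2c_sc (-ε) e') = b * b := by
    rw [h3, map_inv, map_mul, ← h1]
    calc (ψ mw * (b * ψ mw * b⁻¹))⁻¹
        = (b * ψ mw * b⁻¹)⁻¹ * (b * ψ mw * (b * ψ mw)) * (ψ mw)⁻¹ := by rw [bb]; group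
      _ = b * b := by group
  have h7 : d * (b * ψ (mM u y δ ε e h)) * d⁻¹ = b * ψ (mM u y δ ε e h) := by
    calc d * (b * ψ (mM u y δ ε e h)) * d⁻¹
        = d * b * d⁻¹ * (d * ψ (mM u y δ ε e h) * d⁻¹) := by group
      _ = b * ψ (mM u y δ ε e h) := by rw [db, h2, map_mul, h4]; group
  exact mul_inv_eq_iff_eq_mul.1 h7

/-- Diagonal or antidiagonal. -/
def sl2c_Mono (Q : Matrix (Fin 2) (Fin 2) F) : Prop :=
  Q 0 1 = 0 ∧ Q 1 0 = 0 ∨ Q 0 0 = 0 ∧ Q 1 1 = 0

theorem sl2c_mono_mul {Q Q' : Matrix (Fin 2) (Fin 2) F} (h : sl2c_Mono Q) (h' : sl2c_Mono Q') :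
    sl2c_Mono (Q * Q') := by
  rcases h with ⟨h1, h2⟩ | ⟨h1, h2⟩ <;> rcases h' with ⟨h3, h4⟩ | ⟨h3, h4⟩ <;>
    simp only [sl2c_Mono, Fin.isValue, mul_apply, Fin.sum_univ_two, h3, mul_zero, h1, zero_mul, add_zero, h2, h4, and_self, mul_eq_zero, zero_add, true_or, or_true]

/-- `g` is a product of an element of the image and a monomial element of the normaliser. -/
def sl2c_Rep (ψ : SL2 F →* G) (T : Subgroup G) (g : G) (P : Matrix (Fin 2) (Fin 2) F) : Prop :=
  ∃ (A : SL2 F) (m : G) (Q : Matrix (Fin 2) (Fin 2) F), g = ψ A * m ∧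
    m ∈ normalizer (T : Set G) ∧ Act ψ m Q ∧ sl2c_Mono Q ∧ P = A.1 * Q

theorem sl2c_rep_mul {T : Subgroup G} {g g' : G} {P P' : Matrix (Fin 2) (Fin 2) F}
    (h : sl2c_Rep ψ T g P) (h' : sl2c_Rep ψ T g' P') : sl2c_Rep ψ T (g * g') (P * P') := by
  obtain ⟨A, m, Q, rfl, h1, h2, h3, rfl⟩ := h
  obtain ⟨A', m', Q', rfl, h1', h2', h3', rfl⟩ := h'
  have hu : IsUnit Q.det := h2.1.isUnit
  let B : SL2 F := ⟨Q * A'.1 * Q⁻¹, by
    rw [det_mul, det_mul, A'.2, mul_one, ← det_mul, mul_nonsing_inv _ hu, det_one]⟩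
  have e : Q * A'.1 = B.1 * Q := (nonsing_inv_mul_cancel_right _ _ hu).symm
  refine ⟨A * B, m * m', Q * Q', ?_, mul_mem h1 h1', h2.mul h2', sl2c_mono_mul h3 h3', ?_⟩
  · rw [map_mul, ← h2.2 A' B e]
    group
  · rw [sl2c_coe, mul_assoc A.1 Q, ← mul_assoc Q, e]
    simp only [mul_assoc]

theorem sl2c_one : Act ψ 1 1 := by simpa using act_self (ψ := ψ) 1

theorem sl2c_rep_nor {T : Subgroup G} {m : G} {Q : Matrix (Fin 2) (Fin 2) F}
    (h1 : m ∈ normalizer (T : Set G)) (h2 : Act ψ m Q) (h3 : sl2c_Mono Q) : sl2c_Rep ψ T m Q :=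
  ⟨1, m, Q, by simp, h1, h2, h3, by simp⟩

theorem sl2c_rep_psi (T : Subgroup G) (A : SL2 F) : sl2c_Rep ψ T (ψ A) A.1 :=
  ⟨A, 1, 1, by simp, one_mem _, sl2c_one, Or.inl (by simp), by simp⟩

theorem sl2c_pow {τ : G} {x : F} (h : Act ψ τ !![x, 0; 0, 1]) (n : ℕ) :
    Act ψ (τ ^ n) !![x ^ n, 0; 0, 1] := by
  induction n with
  | zero => simpa [one_fin_two] using sl2c_one (ψ := ψ)
  | succ n ih => simpa [pow_succ] using ih.mul h

theorem sl2c_diag {m : G} {Q : Matrix (Fin 2) (Fin 2) F} (h : Act ψ m Q) (h1 : Q 0 1 = 0)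
    (h2 : Q 1 0 = 0) : Q 0 0 ≠ 0 ∧ Q 1 1 ≠ 0 ∧
      ∀ s, m * ψ (mx s) * m⁻¹ = ψ (mx (Q 0 0 / Q 1 1 * s)) := by
  have h3 := h.1
  rw [det_fin_two, h1, zero_mul, sub_zero, mul_ne_zero_iff] at h3
  refine ⟨h3.1, h3.2, fun s => h.2 _ _ ?_⟩
  ext i j
  fin_cases i <;> fin_cases j <;> simp only [mx, Fin.zero_eta, Fin.isValue, mul_apply, of_apply, cons_val', cons_val_zero, cons_val_fin_one, Fin.sum_univ_two, mul_one, h1, cons_val_one, mul_zero, add_zero, one_mul, h2, Fin.mk_one, zero_add, zero_mul]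
  field_simp [h3.2]

theorem sl2c_tri {T : Subgroup G} (n1 : ψ mw ∈ normalizer (T : Set G))
    (n2 : ∀ a, ψ (mdg a) ∈ normalizer (T : Set G)) {g : G} {P : Matrix (Fin 2) (Fin 2) F}
    (h : sl2c_Rep ψ T g P) (h1 : P 1 0 = 0) (h2 : P 0 1 ≠ 0) :
    ∃ s c m, s ≠ 0 ∧ c ≠ 0 ∧ g = ψ (mx s) * m ∧ m ∈ normalizer (T : Set G) ∧
      ∀ s, m * ψ (mx s) * m⁻¹ = ψ (mx (c * s)) := by
  obtain ⟨A, m, Q, rfl, k1, k2, ⟨k3, k4⟩, rfl⟩ : ∃ (A : SL2 F) (m : G)
      (Q : Matrix (Fin 2) (Fin 2) F), g = ψ A * m ∧ m ∈ normalizer (T : Set G) ∧ Act ψ m Q ∧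
        (Q 0 1 = 0 ∧ Q 1 0 = 0) ∧ P = A.1 * Q := by
    obtain ⟨A, m, Q, rfl, k1, k2, k3 | k3, rfl⟩ := h
    · exact ⟨A, m, Q, rfl, k1, k2, k3, rfl⟩
    · refine ⟨A * mw⁻¹, ψ mw * m, _, by rw [map_mul, map_inv]; group, mul_mem n1 k1,
        (act_self mw).mul k2, by simp [mw, mul_apply, Fin.sum_univ_two, k3.1, k3.2], ?_⟩
      rw [← mul_assoc, ← sl2c_coe, inv_mul_cancel_right]
  obtain ⟨q0, q1, -⟩ := sl2c_diag k2 k3 k4
  simp only [mul_apply, Fin.sum_univ_two, k3, k4, mul_zero, add_zero, zero_add, mul_eq_zero, q0,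
    or_false, ne_eq, q1] at h1 h2
  have hd := A.2
  rw [det_fin_two, h1, mul_zero, sub_zero] at hd
  have a0 : A.1 0 0 ≠ 0 := left_ne_zero_of_mul_eq_one hd
  have e : A = mx (A.1 0 1 * A.1 0 0) * mdg (Units.mk0 _ a0) := by
    refine sl2c_ext ?_
    ext i j
    fin_cases i <;> fin_cases j <;> simp [mx, mdg, h1, a0]
    exact eq_inv_of_mul_eq_one_right hd
  have k5 := (act_self (ψ := ψ) (mdg (Units.mk0 _ a0))).mul k2
  obtain ⟨r0, r1, r2⟩ := sl2c_diag k5 (by simp [mdg, mul_apply, Fin.sum_univ_two, k3])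
    (by simp [mdg, mul_apply, Fin.sum_univ_two, k4])
  refine ⟨_, _, _, mul_ne_zero h2 a0, div_ne_zero r0 r1, ?_, mul_mem (n2 _) k1, r2⟩
  rw [← mul_assoc, ← map_mul, ← e]

theorem sl2c_step {τ m : G} {x c : F} (x0 : x ≠ 0) (c0 : c ≠ 0)
    (h1 : ∀ s, τ * ψ (mx s) * τ⁻¹ = ψ (mx (x * s))) (h2 : ∀ s, m * ψ (mx s) * m⁻¹ = ψ (mx (c * s))) :
    (∀ s, ⁅τ, m⁆ * ψ (mx s) * ⁅τ, m⁆⁻¹ = ψ (mx (1 * s))) ∧
      ∀ s, ⁅τ, ψ (mx s) * m⁆ = ψ (mx ((x - 1) * s)) * ⁅τ, m⁆ := by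
  have h3 : ∀ s, ⁅τ, m⁆ * ψ (mx s) * ⁅τ, m⁆⁻¹ = ψ (mx (1 * s)) := fun s => by
    obtain ⟨r, rfl⟩ : ∃ r, s = c * (x * r) := ⟨s / (c * x), by field_simp⟩
    calc ⁅τ, m⁆ * ψ (mx (c * (x * r))) * ⁅τ, m⁆⁻¹ = τ * (m * ψ (mx r) * m⁻¹) * τ⁻¹ := by
          rw [← h2, ← h1, commutatorElement_def]; group
      _ = ψ (mx (1 * (c * (x * r)))) := by rw [h2, h1, one_mul, mul_left_comm]
  refine ⟨h3, fun s => ?_⟩
  calc ⁅τ, ψ (mx s) * m⁆
      = τ * ψ (mx s) * τ⁻¹ * (⁅τ, m⁆ * ψ (mx (-s)) * ⁅τ, m⁆⁻¹) * ⁅τ, m⁆ := by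
        rw [sl2c_neg, map_inv, commutatorElement_def, commutatorElement_def]; group
    _ = ψ (mx ((x - 1) * s)) * ⁅τ, m⁆ := by
        rw [h1, h3, ← map_mul, ← sl2c_add]
        congr 3
        ring

/-- The rank one argument. -/
theorem r1 {T H : Subgroup G} {τ d b : G} {x u y l δ ε : F} {i j : ℕ} (e : ε * ε = 1)
    (h : δ * y ^ 2 - u ^ 2 = ε) (u0 : u ≠ 0) (y0 : y ≠ 0) (hl : l * u ^ 2 = δ * y ^ 2) (x1 : x ^ j ≠ 1)
    (c : x ^ i * (x ^ j - l) = x ^ j - 1 ∧ x ^ i ≠ x ^ j ∨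
      x ^ i * l * (x ^ j - 1) = x ^ j - l ∧ x ^ i * (x ^ j * l - 1) ≠ l * (x ^ j - 1))
    (sp : Spn x)
    (nil : ∀ a ∈ T, ∀ a' ∈ T, ∀ a'' ∈ T, Commute ⁅a, a'⁆ a'')
    (n1 : ψ mw ∈ normalizer (T : Set G)) (n2 : ∀ a, ψ (mdg a) ∈ normalizer (T : Set G))
    (tT : τ ∈ T) (aτ : Act ψ τ !![x, 0; 0, 1]) (nd : d ∈ normalizer (T : Set G))
    (ad : Act ψ d !![0, δ; 1, 0]) (nb : b ∈ normalizer (T : Set G)) (ab : Act ψ b !![ε, 0; 0, 1])
    (m1 : τ ∈ H) (m2 : d ∈ H) (m3 : b * ψ (mM u y δ ε e h) ∈ H) (A : SL2 F) : ψ A ∈ H := by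
  have x0 : x ≠ 0 := by simpa [det_fin_two] using aτ.1
  have d0 : δ ≠ 0 := by simpa [det_fin_two] using ad.1
  have x2 : x - 1 ≠ 0 := sub_ne_zero.2 fun k => x1 (by rw [k, one_pow])
  have l1 : 1 - l ≠ 0 := fun k => left_ne_zero_of_mul_eq_one e (by
    linear_combination -h - hl - u ^ 2 * k)
  have rτ : ∀ n, sl2c_Rep ψ T (τ ^ n) !![x ^ n, 0; 0, 1] := fun n =>
    sl2c_rep_nor (pow_mem (le_normalizer tT) n) (sl2c_pow aτ n) (Or.inl (by simp))
  have rd : sl2c_Rep ψ T d !![0, δ; 1, 0] := sl2c_rep_nor nd ad (Or.inr (by simp))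
  have rB : sl2c_Rep ψ T (b * ψ (mM u y δ ε e h)) !![u, -(δ * y); y, -u] := by
    convert sl2c_rep_mul (sl2c_rep_nor nb ab (Or.inl (by simp))) (sl2c_rep_psi T _) using 1
    simp [mM, ← mul_assoc, e]
  obtain ⟨g, P, gH, gP, p1, p2⟩ : ∃ g P, g ∈ H ∧ sl2c_Rep ψ T g P ∧ P 1 0 = 0 ∧ P 0 1 ≠ 0 := by
    have k := sl2c_rep_mul rB (sl2c_rep_mul (rτ j) rB)
    have k' := mul_mem m3 (mul_mem (pow_mem m1 j) m3)
    rcases c with ⟨c1, c2⟩ | ⟨c1, c2⟩
    · refine ⟨_, _, mul_mem m3 (mul_mem (pow_mem m1 i) k'),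
        sl2c_rep_mul rB (sl2c_rep_mul (rτ i) k), ?_, fun k2 => ?_⟩
      · simp only [mul_fin_two, of_apply, cons_val', cons_val_zero, cons_val_one, cons_val_fin_one]
        linear_combination y * u ^ 2 * c1 + y * x ^ i * hl
      · simp only [mul_fin_two, of_apply, cons_val', cons_val_zero, cons_val_one,
          cons_val_fin_one] at k2
        refine mul_ne_zero (mul_ne_zero (mul_ne_zero d0 y0) (pow_ne_zero 2 u0))
          (mul_ne_zero (sub_ne_zero.2 c2) l1) ?_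
        linear_combination k2 + δ * y * u ^ 2 * c1 + δ * y * x ^ j * hl
    · refine ⟨_, _, mul_mem m3 (mul_mem (pow_mem m1 i) (mul_mem m2 k')),
        sl2c_rep_mul rB (sl2c_rep_mul (rτ i) (sl2c_rep_mul rd k)), ?_, fun k2 => ?_⟩
      · simp only [mul_fin_two, of_apply, cons_val', cons_val_zero, cons_val_one, cons_val_fin_one]
        linear_combination u ^ 3 * c1 - u * (x ^ i * (x ^ j - 1) + 1) * hl
      · simp only [mul_fin_two, of_apply, cons_val', cons_val_zero, cons_val_one,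
          cons_val_fin_one] at k2
        refine mul_ne_zero (mul_ne_zero d0 (pow_ne_zero 3 u0)) (sub_ne_zero.2 c2) ?_
        linear_combination -k2 + δ * u * (x ^ i * x ^ j + 1 - x ^ j) * hl
  obtain ⟨s, c', m, s0, c0, rfl, mN, hm⟩ := sl2c_tri n1 n2 gP p1 p2
  have hτ : ∀ n s, τ ^ n * ψ (mx s) * (τ ^ n)⁻¹ = ψ (mx (x ^ n * s)) := fun n s => by
    simpa only [Fin.isValue, of_apply, cons_val', cons_val_zero, cons_val_fin_one, cons_val_one, div_one] using (sl2c_diag (sl2c_pow aτ n) (by simp) (by simp)).2.2 s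
  have hτ1 : ∀ s, τ * ψ (mx s) * τ⁻¹ = ψ (mx (x * s)) := fun s => by simpa only [pow_one] using hτ 1 s
  have cT : ∀ m ∈ normalizer (T : Set G), ⁅τ, m⁆ ∈ T := fun m hm => by
    have := mul_mem tT ((mem_normalizer_iff.1 hm _).1 (inv_mem tT))
    rwa [← mul_assoc, ← mul_assoc] at this
  have cH : ∀ g ∈ H, ⁅τ, g⁆ ∈ H := fun g hg =>
    mul_mem (mul_mem (mul_mem m1 hg) (inv_mem m1)) (inv_mem hg)
  obtain ⟨a1, b1⟩ := sl2c_step x0 c0 hτ1 hm
  obtain ⟨a2, b2⟩ := sl2c_step x0 one_ne_zero hτ1 a1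
  obtain ⟨-, b3⟩ := sl2c_step x0 one_ne_zero hτ1 a2
  have g3 := cH _ (cH _ (cH _ gH))
  rw [b1, b2, b3, (nil τ tT _ (cT m mN) τ tT).symm.commutator_eq, mul_one] at g3
  have hx : ∀ t, ψ (mx t) ∈ H := fun t => by
    have s1 := mul_ne_zero x2 (mul_ne_zero x2 (mul_ne_zero x2 s0))
    generalize (x - 1) * ((x - 1) * ((x - 1) * s)) = r at g3 s1
    obtain ⟨t, rfl⟩ : ∃ t', t = t' * r := ⟨t / r, by field_simp⟩
    have ht : t ∈ AddSubgroup.closure (Set.range fun n : ℕ => x ^ n) := sp ▸ AddSubgroup.mem_top t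
    induction ht using AddSubgroup.closure_induction with
    | mem _ k =>
      obtain ⟨n, rfl⟩ := k
      exact hτ n r ▸ mul_mem (mul_mem (pow_mem m1 n) g3) (inv_mem (pow_mem m1 n))
    | zero => rw [zero_mul, sl2c_zero, map_one]; exact one_mem _
    | add p q _ _ k1 k2 => rw [add_mul, sl2c_add, map_mul]; exact mul_mem k1 k2
    | neg p _ k => rw [neg_mul, sl2c_neg, map_inv]; exact inv_mem k
  refine sl2_gen hx (fun v => ?_) A
  rw [← ad.2 (mx (-(v * δ))) (mz v) (by simp [mx, mz])]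
  exact mul_mem (mul_mem m2 (hx _)) (inv_mem m2)

end Pool.Agent.MP_c78e8e_al.H75

end

section

namespace Pool.Agent.MP_c78e8e_al.H75

variable {F : Type} [Field F] [Finite F] {x δ ε : F}

/-- Non-zero squares. -/
def sl2e_Sq (z : F) : Prop := ∃ a, a ≠ 0 ∧ z = a ^ 2

omit [Finite F] in
theorem sl2e_Sq.ne {z : F} (h : sl2e_Sq z) : z ≠ 0 := by
  obtain ⟨a, a0, rfl⟩ := h
  exact pow_ne_zero 2 a0

omit [Finite F] in
theorem sl2e_Sq.mul {z w : F} (h : sl2e_Sq z) (h' : sl2e_Sq w) : sl2e_Sq (z * w) := by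
  obtain ⟨a, a0, rfl⟩ := h
  obtain ⟨b, b0, rfl⟩ := h'
  exact ⟨a * b, mul_ne_zero a0 b0, by ring⟩

omit [Finite F] in
theorem sl2e_Sq.inv {z : F} (h : sl2e_Sq z) : sl2e_Sq z⁻¹ := by
  obtain ⟨a, a0, rfl⟩ := h
  exact ⟨a⁻¹, inv_ne_zero a0, by rw [inv_pow]⟩

omit [Finite F] in
theorem sl2e_Sq.eq {z w : F} (h : sl2e_Sq z) (e : w = z) : sl2e_Sq w := e ▸ h

omit [Finite F] in
theorem sl2e_sq {a : F} (h : a ≠ 0) : sl2e_Sq (a ^ 2) := ⟨a, h, rfl⟩

omit [Finite F] in
theorem sl2e_iff {z : F} (h : z ≠ 0) : sl2e_Sq z ↔ IsSquare z :=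
  ⟨fun ⟨a, _, e⟩ => ⟨a, by rw [e, sq]⟩, fun ⟨a, e⟩ =>
    ⟨a, fun k => h (by rw [e, k, mul_zero]), by rw [e, sq]⟩⟩

theorem sl2e_nn {z w : F} (z0 : z ≠ 0) (w0 : w ≠ 0) (h : ¬ sl2e_Sq z) (h' : ¬ sl2e_Sq w) :
    sl2e_Sq (z * w) := by
  classical
  have := Fintype.ofFinite F
  rw [sl2e_iff z0, ← quadraticChar_neg_one_iff_not_isSquare] at h
  rw [sl2e_iff w0, ← quadraticChar_neg_one_iff_not_isSquare] at h'
  rw [sl2e_iff (mul_ne_zero z0 w0), ← quadraticChar_one_iff_isSquare (mul_ne_zero z0 w0), map_mul,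
    h, h']
  norm_num

theorem sl2e_avoid (L : List (F × F)) (h : 2 * L.length + 1 < Nat.card F) :
    ∃ m : F, m ≠ 0 ∧ ∀ p ∈ L, m ^ 2 + p.1 * m + p.2 ≠ 0 := by
  obtain ⟨f, f0, f1, f2⟩ : ∃ f : Polynomial F, f ≠ 0 ∧ f.natDegree ≤ 2 * L.length + 1 ∧
      ∀ m, f.eval m ≠ 0 → m ≠ 0 ∧ ∀ p ∈ L, m ^ 2 + p.1 * m + p.2 ≠ 0 := by
    clear h
    induction L with
    | nil => exact ⟨Polynomial.X, Polynomial.X_ne_zero, by simp, by simp only [Polynomial.eval_X, ne_eq, List.not_mem_nil, IsEmpty.forall_iff, implies_true, and_true, imp_self]⟩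
    | cons p L ih =>
      obtain ⟨f, f0, f1, f2⟩ := ih
      have k : (Polynomial.X ^ 2 + Polynomial.C p.1 * Polynomial.X + Polynomial.C p.2).Monic := by
        monicity!
      have k' : (Polynomial.X ^ 2 + Polynomial.C p.1 * Polynomial.X +
          Polynomial.C p.2).natDegree ≤ 2 := by compute_degree
      refine ⟨_, mul_ne_zero k.ne_zero f0, Polynomial.natDegree_mul_le.trans ?_, fun m hm => ?_⟩
      · rw [List.length_cons]
        omega
      · rw [Polynomial.eval_mul, mul_ne_zero_iff] at hm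
        exact ⟨(f2 m hm.2).1, List.forall_mem_cons.2 ⟨by simpa only [ne_eq, Polynomial.eval_add, Polynomial.eval_pow, Polynomial.eval_X, Polynomial.eval_mul, Polynomial.eval_C] using hm.1, (f2 m hm.2).2⟩⟩
  obtain ⟨m, hm⟩ := f.exists_eval_ne_zero_of_natDegree_lt_card f0 (by
    rw [← Nat.cast_card]
    exact_mod_cast f1.trans_lt h)
  exact ⟨m, f2 m hm⟩

theorem sl2e_inv (x0 : x ≠ 0) : ∃ n : ℕ, x ^ n = x⁻¹ := by
  have := Fintype.ofFinite F
  obtain ⟨n, hn⟩ : ∃ n, Fintype.card F = n + 2 := Nat.exists_eq_add_of_le' Fintype.one_lt_card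
  have h := FiniteField.pow_card_sub_one_eq_one x x0
  rw [hn] at h
  exact ⟨n, eq_inv_of_mul_eq_one_left ((pow_succ x n).symm.trans h)⟩

omit [Finite F] in
theorem sl2e_mk (e : ε * ε = 1) (d0 : δ ≠ 0) {s t l : F} (hs : ∃ n : ℕ, x ^ n = s)
    (ht : ∃ n : ℕ, x ^ n = t) (s1 : s ≠ 1) (h1 : sl2e_Sq (ε * (l - 1))) (h2 : sl2e_Sq (δ * l))
    (h : t * (s - l) = s - 1 ∧ t ≠ s ∨ t * l * (s - 1) = s - l ∧ t * (s * l - 1) ≠ l * (s - 1)) :
    Sol x δ ε := by
  obtain ⟨j, rfl⟩ := hs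
  obtain ⟨i, rfl⟩ := ht
  obtain ⟨a, a0, ha⟩ := h1
  obtain ⟨c, c0, hc⟩ := h2
  refine ⟨a⁻¹, c * a⁻¹ / δ, l, i, j, inv_ne_zero a0,
    div_ne_zero (mul_ne_zero c0 (inv_ne_zero a0)) d0, ?_, ?_, s1, h⟩
  · field_simp
    linear_combination -hc + δ * ε * ha - δ * (l - 1) * e
  · field_simp
    linear_combination hc

omit [Finite F] in
theorem sl2e_neg (h1 : sl2e_Sq (-1 : F)) (h : Sol x δ ε) : Sol x δ (-ε) := by
  obtain ⟨a, a0, ha⟩ := h1
  obtain ⟨u, y, l, i, j, u0, y0, k1, k2, k3⟩ := h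
  exact ⟨a * u, a * y, l, i, j, mul_ne_zero a0 u0, mul_ne_zero a0 y0,
    by linear_combination a ^ 2 * k1 - ε * ha, by linear_combination a ^ 2 * k2, k3⟩

omit [Finite F] in
theorem sl2e_rec (d0 : δ ≠ 0) {s : F} (hs : ∃ n : ℕ, x ^ n = s) (ht : ∃ n : ℕ, x ^ n = s⁻¹)
    (s0 : s ≠ 0) (s1 : s ≠ 1) (s2 : s ≠ -1) (h : sl2e_Sq (δ * (s * (2 - s)))) : Sol x δ (-1) :=
  sl2e_mk (by ring) d0 hs ht s1 ⟨s - 1, sub_ne_zero.2 s1, by ring⟩ h
    (Or.inl ⟨by field_simp; ring, fun k => mul_ne_zero (sub_ne_zero.2 s1)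
      (mt add_eq_zero_iff_eq_neg.1 s2) (by
        linear_combination mul_inv_cancel₀ s0 - s * k)⟩)

theorem sol_two (h2 : (2 : F) = 0) (x0 : x ≠ 0) (x1 : x ≠ 1) (d0 : δ ≠ 0) : Sol x δ 1 := by
  have e : (-1 : F) = 1 := by linear_combination -h2
  have : CharP F 2 := CharTwo.of_one_ne_zero_of_two_eq_zero one_ne_zero h2
  have k : δ * (x * (2 - x)) ≠ 0 := mul_ne_zero d0 (mul_ne_zero x0 (by simpa [h2] using x0))
  exact e ▸ sl2e_rec d0 ⟨1, pow_one x⟩ (sl2e_inv x0) x0 x1 (e.symm ▸ x1)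
    ((sl2e_iff k).2 (isSquare_of_charTwo' _))

theorem sol_free (h2 : (2 : F) ≠ 0) (x0 : x ≠ 0) (x1 : x ≠ 1) (x2 : x ≠ -1) (d0 : δ ≠ 0) :
    ∃ κ, κ ≠ 0 ∧ Sol x (δ * κ) (-1) := by
  have key : ∀ s : F, (∃ n : ℕ, x ^ n = s) → (∃ n : ℕ, x ^ n = s⁻¹) → s ≠ 0 → s ≠ 1 → s ≠ -1 →
      s ≠ 2 → ∃ κ, κ ≠ 0 ∧ Sol x (δ * κ) (-1) := fun s hs ht s0 s1 s2 s3 => by
    have k : δ * (s * (2 - s)) ≠ 0 := mul_ne_zero d0 (mul_ne_zero s0 (sub_ne_zero.2 s3.symm))
    exact ⟨_, k, sl2e_rec (mul_ne_zero d0 k) hs ht s0 s1 s2 ⟨_, k, by ring⟩⟩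
  by_cases h : x = 2
  · refine key x⁻¹ (sl2e_inv x0) ⟨1, by simp⟩ (inv_ne_zero x0) (inv_ne_one.2 x1)
      (fun k => x2 (by simpa using congrArg Inv.inv k)) fun k => ?_
    exact mul_ne_zero (sub_ne_zero.2 x1) (mt add_eq_zero_iff_eq_neg.1 x2) (by
      linear_combination mul_inv_cancel₀ x0 - x * k + x * h)
  · exact key x ⟨1, pow_one x⟩ (sl2e_inv x0) x0 x1 x2 h

omit [Finite F] in
theorem sl2e_st (hx : ∀ s : F, s ≠ 0 → ∃ n : ℕ, x ^ n = s ^ 2) (e : ε * ε = 1) (d0 : δ ≠ 0) {s t : F}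
    (hs : sl2e_Sq s) (ht : sl2e_Sq t) (s1 : s ≠ 1) (t1 : t ≠ 1) (st : s ≠ t)
    (h1 : sl2e_Sq (δ * (s * t - s + 1)))
    (h2 : sl2e_Sq (ε * ((s - 1) * (t - 1))) ∨ sl2e_Sq (-δ * (ε * ((s - 1) * (t - 1))))) :
    Sol x δ ε := by
  have p : ∀ z, sl2e_Sq z → ∃ n : ℕ, x ^ n = z := fun z ⟨a, a0, e⟩ => e ▸ hx a a0
  have t0 := ht.ne
  have D0 := right_ne_zero_of_mul h1.ne
  rcases h2 with h2 | h2
  · exact sl2e_mk (l := (s * t - s + 1) / t) e d0 (p s hs) (p t ht) s1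
      ((h2.mul ht.inv).eq (by field_simp; ring)) ((h1.mul ht.inv).eq (by field_simp))
      (Or.inl ⟨by field_simp; ring, st.symm⟩)
  · generalize hD : s * t - s + 1 = D at h1 D0
    refine sl2e_mk (l := t / D) e d0 (p t ht) (p s hs) t1
      ((h2.mul h1.inv).eq (by field_simp; linear_combination ε * hD))
      ((h1.mul (ht.mul (sl2e_sq D0).inv)).eq (by field_simp))
      (Or.inr ⟨by field_simp; linear_combination hD, fun k => ?_⟩)
    field_simp at k
    exact mul_ne_zero (mul_ne_zero (sub_ne_zero.2 s1) (sub_ne_zero.2 t1)) (sub_ne_zero.2 st)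
      (by linear_combination -k + s * hD)

theorem sl2e_st' (hx : ∀ s : F, s ≠ 0 → ∃ n : ℕ, x ^ n = s ^ 2) (e : ε * ε = 1) (d0 : δ ≠ 0)
    (hd : ¬ sl2e_Sq (-δ)) {s t : F} (hs : sl2e_Sq s) (ht : sl2e_Sq t) (s1 : s ≠ 1) (t1 : t ≠ 1)
    (st : s ≠ t) (h1 : sl2e_Sq (δ * (s * t - s + 1))) : Sol x δ ε :=
  sl2e_st hx e d0 hs ht s1 t1 st h1 (or_iff_not_imp_left.2 fun h => sl2e_nn (neg_ne_zero.2 d0)
    (mul_ne_zero (left_ne_zero_of_mul_eq_one e)
      (mul_ne_zero (sub_ne_zero.2 s1) (sub_ne_zero.2 t1))) hd h)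

theorem sl2e_Ia (h2 : (2 : F) ≠ 0) (hq : 8 ≤ Nat.card F)
    (hx : ∀ s : F, s ≠ 0 → ∃ n : ℕ, x ^ n = s ^ 2) (e : ε * ε = 1) (h1 : ¬ sl2e_Sq (-1 : F))
    (hd : sl2e_Sq δ) : Sol x δ ε := by
  have d0 := hd.ne
  have hd' : ¬ sl2e_Sq (-δ) := fun k => h1 ((k.mul hd.inv).eq (by field_simp))
  obtain ⟨b, b0, hb⟩ := sl2e_avoid [((0 : F), (-1 : F)), (0, -(2⁻¹ ^ 2)), (0, -2⁻¹)] hq
  simp only [List.forall_mem_cons, zero_mul, add_zero] at hb
  obtain ⟨k1, k2, k3, -⟩ := hb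
  have t1 : b ^ 2 ≠ 1 := fun k => k1 (by rw [k, add_neg_cancel])
  have i2 := mul_inv_cancel₀ h2
  by_cases h3 : (3 : F) = 0
  · have k4 : b ^ 2 + 1 ≠ 0 := fun k => h1 ⟨b, b0, by linear_combination -k⟩
    have k5 : (b ^ 2) ^ 2 + 1 ≠ 0 := fun k => h1 ⟨b ^ 2, pow_ne_zero 2 b0, by linear_combination -k⟩
    have i3 := mul_inv_cancel₀ k4
    refine sl2e_st' hx e d0 hd' (sl2e_sq (inv_ne_zero k4)) (sl2e_sq b0) (fun k => ?_) t1
      (fun k => ?_) (hd.mul ⟨b ^ 2 / (b ^ 2 + 1), div_ne_zero (pow_ne_zero 2 b0) k4, ?_⟩)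
    · field_simp at k
      exact mul_ne_zero (pow_ne_zero 2 b0) k1 (by linear_combination -k - b ^ 2 * h3)
    · field_simp at k
      exact mul_ne_zero k1 k5 (by linear_combination -k - b ^ 4 * h3)
    · field_simp
      linear_combination (b ^ 2) * h3
  · refine sl2e_st' hx e d0 hd' (sl2e_sq (mul_ne_zero h2 b0)) (sl2e_sq b0) (fun k => k2 ?_) t1
      (fun k => mul_ne_zero h3 (pow_ne_zero 2 b0) (by linear_combination k))
      (hd.mul ⟨1 - 2 * b ^ 2, fun k => k3 ?_, by ring⟩)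
    · field_simp
      linear_combination k
    · field_simp
      linear_combination -k

theorem sl2e_Ib (hq : 6 ≤ Nat.card F) (hx : ∀ s : F, s ≠ 0 → ∃ n : ℕ, x ^ n = s ^ 2)
    (e : ε * ε = 1) (d0 : δ ≠ 0) (h1 : sl2e_Sq (-1 : F)) (hd : ¬ sl2e_Sq δ) : Sol x δ ε := by
  have hd' : ¬ sl2e_Sq (-δ) := fun k => hd ((k.mul h1).eq (by ring))
  have key : ∀ ν t : F, sl2e_Sq (δ * ν) → sl2e_Sq t → t ≠ 1 → sl2e_Sq ((ν - 1) * (t - 1)) →
      t ^ 2 - t + 1 ≠ ν → Sol x δ ε := fun ν t k1 k2 k3 k4 k5 => by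
    have t1 := sub_ne_zero.2 k3
    refine sl2e_st' (s := (ν - 1) / (t - 1)) hx e d0 hd'
      ((k4.mul (sl2e_sq t1).inv).eq (by field_simp)) k2 (fun k => hd ?_) k3 (fun k => k5 ?_)
      (k1.eq (by field_simp; ring))
    · have t0 := k2.ne
      rw [div_eq_one_iff_eq t1, sub_left_inj] at k
      exact (k1.mul k2.inv).eq (by rw [k]; field_simp)
    · field_simp at k
      linear_combination -k
  obtain ⟨b, b0, hb⟩ := sl2e_avoid [((0 : F), (-1 : F)), (0, 1)] hq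
  simp only [List.forall_mem_cons, zero_mul, add_zero] at hb
  obtain ⟨k1, k2, -⟩ := hb
  have t1 : b ^ 2 ≠ 1 := fun k => k1 (by rw [k, add_neg_cancel])
  have d1 : δ - 1 ≠ 0 := fun k => hd ⟨1, one_ne_zero, by linear_combination k⟩
  obtain ⟨ν, n1, n2⟩ : ∃ ν, sl2e_Sq (δ * ν) ∧ sl2e_Sq ((ν - 1) * (b ^ 2 - 1)) := by
    by_cases k : sl2e_Sq ((δ - 1) * (b ^ 2 - 1))
    · exact ⟨δ, ⟨δ, d0, by ring⟩, k⟩
    · exact ⟨δ⁻¹, ⟨1, one_ne_zero, by field_simp⟩,
        (((sl2e_nn d0 (mul_ne_zero d1 (sub_ne_zero.2 t1)) hd k).mul h1).mul (sl2e_sq d0).inv).eq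
          (by field_simp; ring)⟩
  by_cases k : (b ^ 2) ^ 2 - b ^ 2 + 1 = ν
  · refine key ν (b ^ 2)⁻¹ n1 (sl2e_sq b0).inv (inv_ne_one.2 t1)
      (((n2.mul h1).mul (sl2e_sq b0).inv).eq (by field_simp; ring)) fun k' => ?_
    field_simp at k'
    exact mul_ne_zero (right_ne_zero_of_mul n1.ne) (mul_ne_zero k1 k2)
      (by linear_combination k - k')
  · exact key ν _ n1 (sl2e_sq b0) t1 n2 k

omit [Finite F] in
theorem sl2e_II (h2 : (2 : F) ≠ 0) (hx : ∀ s : F, s ≠ 0 → ∃ n : ℕ, x ^ n = s ^ 2)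
    (hd : sl2e_Sq (-δ)) {m : F} (m0 : m ≠ 0) (k1 : m ^ 2 + 2 ≠ 0) (k2 : m ^ 2 - 2 ≠ 0)
    (k3 : ((m ^ 2 + 2) / (2 * m)) ^ 2 ≠ 1) (k4 : ((m ^ 2 + 2) / (2 * m)) ^ 2 ≠ -1) :
    Sol x δ (-1) := by
  have a0 := div_ne_zero k1 (mul_ne_zero h2 m0)
  exact sl2e_rec (neg_ne_zero.1 hd.ne) (hx _ a0) (by rw [← inv_pow]; exact hx _ (inv_ne_zero a0))
    (pow_ne_zero 2 a0) k3 k4 ((hd.mul ((sl2e_sq a0).mul
      (sl2e_sq (div_ne_zero k2 (mul_ne_zero h2 m0))))).eq (by field_simp; ring))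

theorem sl2e_IIa (h2 : (2 : F) ≠ 0) (hq : 6 ≤ Nat.card F)
    (hx : ∀ s : F, s ≠ 0 → ∃ n : ℕ, x ^ n = s ^ 2) (h1 : ¬ sl2e_Sq (-1 : F)) (hd : sl2e_Sq (-δ)) :
    Sol x δ (-1) := by
  obtain ⟨m, m0, hm⟩ := sl2e_avoid [((0 : F), (2 : F)), (0, -2)] hq
  simp only [List.forall_mem_cons, zero_mul, add_zero, ← sub_eq_add_neg] at hm
  obtain ⟨k1, k2, -⟩ := hm
  have m2 := mul_ne_zero h2 m0
  refine sl2e_II h2 hx hd m0 k1 k2 (fun k => h1 ⟨_, div_ne_zero k2 m2, ?_⟩)
    fun k => h1 ⟨_, div_ne_zero k1 m2, k.symm⟩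
  field_simp at k ⊢
  linear_combination -k

theorem sl2e_IIb (h2 : (2 : F) ≠ 0) (hq : 10 ≤ Nat.card F)
    (hx : ∀ s : F, s ≠ 0 → ∃ n : ℕ, x ^ n = s ^ 2) (h1 : sl2e_Sq (-1 : F)) (hd : sl2e_Sq (-δ)) :
    Sol x δ (-1) := by
  obtain ⟨i, i0, hi⟩ := id h1
  obtain ⟨m, m0, k1, k2, k3, k4, k5, k6⟩ : ∃ m : F, m ≠ 0 ∧ m ^ 2 + 2 ≠ 0 ∧ m ^ 2 - 2 ≠ 0 ∧
      m ^ 2 + 2 * m + 2 ≠ 0 ∧ m ^ 2 + -2 * m + 2 ≠ 0 ∧ m ^ 2 + 2 * i * m + 2 ≠ 0 ∧
      m ^ 2 + -(2 * i) * m + 2 ≠ 0 := by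
    by_cases k : sl2e_Sq (2 : F)
    · have := Fintype.ofFinite F
      have a1 := FiniteField.isSquare_two_iff.1 ((sl2e_iff h2).1 k)
      have a2 := FiniteField.isSquare_neg_one_iff.1 ((sl2e_iff h1.ne).1 h1)
      have a3 := FiniteField.odd_card_of_char_ne_two (F := F) fun c => h2 (by
        have := ringChar.Nat.cast_ringChar (R := F)
        rwa [c] at this)
      obtain ⟨m, m0, hm⟩ := sl2e_avoid
        [((0 : F), (2 : F)), (0, -2), (2, 2), (-2, 2), (2 * i, 2), (-(2 * i), 2)] (by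
          rw [Nat.card_eq_fintype_card] at hq ⊢
          simp only [List.length_cons, List.length_nil]
          omega)
      simp only [List.forall_mem_cons, zero_mul, add_zero] at hm
      exact ⟨m, m0, hm.1, sub_eq_add_neg (m ^ 2) 2 ▸ hm.2.1, hm.2.2.1, hm.2.2.2.1, hm.2.2.2.2.1,
        hm.2.2.2.2.2.1⟩
    · obtain ⟨m, m0, hm⟩ := sl2e_avoid [((2 : F), (2 : F)), (-2, 2), (2 * i, 2), (-(2 * i), 2)] hq
      simp only [List.forall_mem_cons] at hm
      exact ⟨m, m0, fun c => k ⟨i * m, mul_ne_zero i0 m0, by linear_combination c + m ^ 2 * hi⟩,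
        fun c => k ⟨m, m0, by linear_combination -c⟩, hm.1, hm.2.1, hm.2.2.1, hm.2.2.2.1⟩
  refine sl2e_II h2 hx hd m0 k1 k2 (fun k => mul_ne_zero k3 k4 ?_) fun k => mul_ne_zero k5 k6 ?_
  · field_simp at k
    linear_combination k
  · field_simp at k
    linear_combination k + 4 * m ^ 2 * hi

theorem sl2e_three (h2 : (2 : F) ≠ 0) (hq : 8 ≤ Nat.card F) (h1 : ¬ sl2e_Sq (-1 : F)) :
    ∃ p : F, sl2e_Sq p ∧ sl2e_Sq (p + 1) ∧ p ≠ 1 ∧ ¬ sl2e_Sq (p + 2) := by
  classical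
  by_contra hn
  push Not at hn
  obtain ⟨m, m0, hm⟩ := sl2e_avoid [((0 : F), (-1 : F)), (2, -1), (-2, -1)] hq
  simp only [List.forall_mem_cons, zero_mul, add_zero] at hm
  obtain ⟨k1, k2, k3, -⟩ := hm
  have m2 := mul_ne_zero h2 m0
  set p := ((m ^ 2 + -1) / (2 * m)) ^ 2 with hp
  have p1 : sl2e_Sq p := sl2e_sq (div_ne_zero k1 m2)
  have p2 : sl2e_Sq (p + 1) := ⟨(m ^ 2 + 1) / (2 * m), div_ne_zero
    (fun k => h1 ⟨m, m0, by linear_combination -k⟩) m2, by rw [hp]; field_simp; ring⟩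
  have p3 : p ≠ 1 := fun k => mul_ne_zero k2 k3 (by
    rw [hp] at k
    field_simp at k
    linear_combination k)
  clear_value p
  obtain ⟨r, r1, r2, r3, r4⟩ : ∃ r : F, sl2e_Sq r ∧ sl2e_Sq (r + 1) ∧ r ≠ 1 ∧
      ¬ sl2e_Sq (r - 1) := by
    by_cases k : sl2e_Sq (p - 1)
    · have p0 := p1.ne
      have p4 := k.ne
      exact ⟨p⁻¹, p1.inv, (p2.mul p1.inv).eq (by field_simp; ring), inv_ne_one.2 p3,
        fun c => h1 (((c.mul p1).mul k.inv).eq (by field_simp; ring))⟩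
    · exact ⟨p, p1, p2, p3, k⟩
  set A : Set F := {z | sl2e_Sq z ∧ sl2e_Sq (z + 1)} with hA
  have hf : Set.MapsTo (fun z => if z = 1 then r else z + 1) A (A \ {1}) := fun z hz => by
    by_cases c : z = 1
    · simp only [c, if_true]
      exact ⟨⟨r1, r2⟩, r3⟩
    · simp only [c, if_false]
      exact ⟨⟨hz.2, (hn z hz.1 hz.2 c).eq (by ring)⟩, fun k => hz.1.ne (by simpa using k)⟩
  have hi : Set.InjOn (fun z => if z = 1 then r else z + 1) A := fun z hz w hw k => by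
    by_cases c : z = 1 <;> by_cases c' : w = 1 <;> simp only [c, c', if_true, if_false] at k
    · rw [c, c']
    · exact absurd (hw.1.eq (by rw [k]; ring)) r4
    · exact absurd (hz.1.eq (by rw [← k]; ring)) r4
    · exact add_right_cancel k
  obtain ⟨z, hz, k⟩ := ((A.toFinite.injOn_iff_bijOn_of_mapsTo (hf.mono_right Set.sdiff_subset)).1
    hi).surjOn (if c : (1 : F) ∈ A then (show (if (1 : F) ∈ A then 1 else r) ∈ A by rwa [if_pos c])
      else by rw [if_neg c]; exact ⟨r1, r2⟩)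
  by_cases c : (1 : F) ∈ A
  · rw [if_pos c] at k
    exact (hf hz).2 k
  · have c' : z ≠ 1 := fun k => c (k ▸ hz)
    simp only [c, c', if_false] at k
    exact r4 (hz.1.eq (by rw [← k]; ring))

theorem sl2e_III (h2 : (2 : F) ≠ 0) (hq : 8 ≤ Nat.card F)
    (hx : ∀ s : F, s ≠ 0 → ∃ n : ℕ, x ^ n = s ^ 2) (d0 : δ ≠ 0) (h1 : ¬ sl2e_Sq (-1 : F))
    (hd : ¬ sl2e_Sq δ) : Sol x δ 1 := by
  obtain ⟨p, p1, p2, p3, p4⟩ := sl2e_three h2 hq h1
  have a0 := p1.ne
  have a1 := p2.ne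
  have a2 : p + 2 ≠ 0 := fun k => h1 (p2.eq (by linear_combination -k))
  refine sl2e_st (s := (p + 1)⁻¹) (t := p * (p + 1)⁻¹) hx (one_mul 1) d0 p2.inv (p1.mul p2.inv)
    (inv_ne_one.2 (by simpa using a0)) (fun k => ?_) (fun k => p3 ?_)
    ((((sl2e_nn d0 a2 hd p4).mul p1).mul (sl2e_sq a1).inv).eq (by field_simp; ring))
    (Or.inl ((p1.mul (sl2e_sq a1).inv).eq (by field_simp; ring)))
  · field_simp at k
    simp at k
  · field_simp at k
    exact k.symm

theorem sol_sq (h2 : (2 : F) ≠ 0) (hq : 9 ≤ Nat.card F) (h9 : Nat.card F ≠ 9 ∨ ¬ IsSquare δ)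
    (hx : ∀ s : F, s ≠ 0 → ∃ n : ℕ, x ^ n = s ^ 2)
    (x0 : x ≠ 0) (d0 : δ ≠ 0) (e : ε = 1 ∨ ε = -1) : Sol x δ ε := by
  have e' : ε * ε = 1 := by rcases e with rfl | rfl <;> ring
  by_cases h1 : sl2e_Sq (-1 : F) <;> by_cases hd : sl2e_Sq δ
  · have := sl2e_IIb (δ := δ) h2 (by have := h9.resolve_right (not_not.2 ((sl2e_iff d0).1 hd)); omega)
      hx h1 ((h1.mul hd).eq (by ring))
    rcases e with rfl | rfl
    · simpa using sl2e_neg h1 this
    · exact this
  · exact sl2e_Ib (by omega) hx e' d0 h1 hd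
  · exact sl2e_Ia h2 (by omega) hx e' h1 hd
  · rcases e with rfl | rfl
    · exact sl2e_III h2 (by omega) hx d0 h1 hd
    · exact sl2e_IIa h2 (by omega) hx h1
        ((sl2e_nn (neg_ne_zero.2 one_ne_zero) d0 h1 hd).eq (by ring))

theorem sol_sq7 (h2 : (2 : F) ≠ 0) (hq : 7 ≤ Nat.card F)
    (hx : ∀ s : F, s ≠ 0 → ∃ n : ℕ, x ^ n = s ^ 2) (h1 : ¬ IsSquare (-1 : F)) (hd : ¬ IsSquare δ) :
    Sol x δ (-1) := by
  have d0 : δ ≠ 0 := fun k => hd (k ▸ IsSquare.zero)
  have m0 : (-1 : F) ≠ 0 := neg_ne_zero.2 one_ne_zero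
  exact sl2e_IIa h2 (by omega) hx (mt (sl2e_iff m0).1 h1)
    ((sl2e_nn m0 d0 (mt (sl2e_iff m0).1 h1) (mt (sl2e_iff d0).1 hd)).eq (by ring))

theorem sol_gen (h2 : (2 : F) ≠ 0) (hq : 7 ≤ Nat.card F) (hx : ∀ s : F, s ≠ 0 → ∃ n : ℕ, x ^ n = s)
    (d0 : δ ≠ 0) (e : ε = 1 ∨ ε = -1) : Sol x δ ε := by
  have e' : ε * ε = 1 := by rcases e with rfl | rfl <;> ring
  have key : ∀ {ε l : F}, ε * ε = 1 → sl2e_Sq (ε * (l - 1)) → sl2e_Sq (δ * l) → Sol x δ ε := by
    intro ε l e' k1 k2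
    obtain ⟨s, s0, hs⟩ := sl2e_avoid [(-(l + 1), l), (-(l + 1), 1)] (by simpa only [neg_add_rev, List.length_cons, List.length_nil, zero_add, Nat.reduceAdd, Nat.reduceMul] using by omega)
    simp only [List.forall_mem_cons] at hs
    have s1 : s - 1 ≠ 0 := fun k => hs.1 (by linear_combination (s - l) * k)
    have s2 : s - l ≠ 0 := fun k => hs.1 (by linear_combination (s - 1) * k)
    refine sl2e_mk e' d0 (hx s s0) (hx _ (div_ne_zero s1 s2)) (sub_ne_zero.1 s1) k1 k2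
      (Or.inl ⟨by field_simp, fun k => hs.2.1 ?_⟩)
    field_simp at k
    linear_combination -k
  have neg : Sol x δ (-1) := by
    obtain ⟨m, m0, hm⟩ := sl2e_avoid [(0, δ⁻¹), (0, -δ⁻¹)] (by simpa only [List.length_cons, List.length_nil, zero_add, Nat.reduceAdd, Nat.reduceMul] using by omega)
    simp only [List.forall_mem_cons, zero_mul, add_zero] at hm
    have k1 : δ * m ^ 2 + 1 ≠ 0 := fun k => hm.1 (by field_simp; linear_combination k)
    have k2 : δ * m ^ 2 - 1 ≠ 0 := fun k => hm.2.1 (by field_simp; linear_combination k)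
    exact key (l := 1 - ((δ * m ^ 2 - 1) / (δ * m ^ 2 + 1)) ^ 2) (by ring)
      ⟨_, div_ne_zero k2 k1, by ring⟩
      ⟨2 * δ * m / (δ * m ^ 2 + 1), div_ne_zero (mul_ne_zero (mul_ne_zero h2 d0) m0) k1,
        by field_simp; ring⟩
  rcases e with rfl | rfl
  swap
  · exact neg
  by_cases h1 : sl2e_Sq (-1 : F)
  · simpa using sl2e_neg h1 neg
  by_cases hd : sl2e_Sq δ
  · obtain ⟨m, m0, hm⟩ := sl2e_avoid [((0 : F), (-1 : F))] (by simpa only [List.length_cons, List.length_nil, zero_add, mul_one, Nat.reduceAdd] using by omega)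
    simp only [List.forall_mem_cons, zero_mul, add_zero] at hm
    exact key (l := ((m ^ 2 + 1) / (2 * m)) ^ 2) e'
      ⟨_, div_ne_zero hm.1 (mul_ne_zero h2 m0), by field_simp; ring⟩
      (hd.mul (sl2e_sq (div_ne_zero (fun k => h1 ⟨m, m0, by linear_combination -k⟩)
        (mul_ne_zero h2 m0))))
  · have : NeZero (ringChar F) := ⟨CharP.ringChar_ne_zero_of_finite F⟩
    obtain ⟨a, b, k⟩ := CharP.sq_add_sq F (ringChar F) (-1)
    push_cast at k
    have a0 : (a : F) ≠ 0 := fun c => h1 ⟨b, fun c' => by simp only [c, ne_eq, OfNat.ofNat_ne_zero, not_false_eq_true, zero_pow, c', add_zero, zero_eq_neg, one_ne_zero] at k,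
      by rw [← k, c]; ring⟩
    have b0 : (b : F) ≠ 0 := fun c => h1 ⟨a, a0, by rw [← k, c]; ring⟩
    exact key (l := -(b : F) ^ 2) e' ⟨a, a0, by linear_combination -k⟩
      (((sl2e_nn (neg_ne_zero.2 one_ne_zero) d0 h1 hd).mul (sl2e_sq b0)).eq (by ring))

theorem sol_gen5 (hx : ∀ s : F, s ≠ 0 → ∃ n : ℕ, x ^ n = s) (h1 : IsSquare (-1 : F))
    (hd : ¬ IsSquare δ) (e : ε = 1 ∨ ε = -1) : Sol x δ ε := by
  have d0 : δ ≠ 0 := fun k => hd (k ▸ IsSquare.zero)
  have h2 : (2 : F) ≠ 0 := fun k =>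
    have : CharP F 2 := CharTwo.of_one_ne_zero_of_two_eq_zero one_ne_zero k
    hd (isSquare_of_charTwo' _)
  have k1 : δ + 1 ≠ 0 := fun k => hd (eq_neg_of_add_eq_zero_left k ▸ h1)
  have k2 : δ - 1 ≠ 0 := fun k => hd (sub_eq_zero.1 k ▸ IsSquare.one)
  have key : ∀ w : F, w ≠ 0 → w ≠ -2 → w ^ 2 = ((δ - 1) / (δ + 1)) ^ 2 → Sol x δ (-1) := by
    intro w w0 w2 hw
    have k : sl2e_Sq (δ * ((1 + w) * (2 - (1 + w)))) :=
      ⟨2 * δ / (δ + 1), div_ne_zero (mul_ne_zero h2 d0) k1, by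
        rw [show (1 + w) * (2 - (1 + w)) = 1 - w ^ 2 by ring, hw]
        field_simp
        ring⟩
    have s0 := left_ne_zero_of_mul (right_ne_zero_of_mul k.ne)
    exact sl2e_rec d0 (hx _ s0) (hx _ (inv_ne_zero s0)) s0 (by simpa using w0)
      (fun c => w2 (by linear_combination c)) k
  have neg : Sol x δ (-1) := by
    by_cases c : (δ - 1) / (δ + 1) = -2
    · exact key (-((δ - 1) / (δ + 1))) (neg_ne_zero.2 (div_ne_zero k2 k1))
        (fun c' => mul_ne_zero h2 h2 (by linear_combination c + c')) (neg_sq _)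
    · exact key _ (div_ne_zero k2 k1) c rfl
  rcases e with rfl | rfl
  · simpa only [neg_neg] using sl2e_neg ((sl2e_iff (neg_ne_zero.2 one_ne_zero)).2 h1) neg
  · exact neg

theorem Sol.sq (h : Sol x δ ε) {k : F} (k0 : k ≠ 0) : Sol x (δ * k ^ 2) ε := by
  obtain ⟨u, y, l, i, j, u0, y0, k1, k2, k3⟩ := h
  have e : δ * k ^ 2 * (y / k) ^ 2 = δ * y ^ 2 := by field_simp
  exact ⟨u, y / k, l, i, j, u0, div_ne_zero y0 k0, e ▸ k1, e ▸ k2, k3⟩

theorem Sol.of_pow {n : ℕ} (h : Sol (x ^ n) δ ε) : Sol x δ ε := by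
  obtain ⟨u, y, l, i, j, u0, y0, k1, k2, k3⟩ := h
  exact ⟨u, y, l, n * i, n * j, u0, y0, k1, k2, by simpa only [pow_mul] using k3⟩

theorem spn_sq (hx : ∀ s : F, s ≠ 0 → ∃ n : ℕ, x ^ n = s ^ 2) : Spn x := by
  have h : ∀ s : F, s ^ 2 ∈ AddSubgroup.closure (Set.range fun n : ℕ => x ^ n) := fun s => by
    rcases eq_or_ne s 0 with rfl | s0
    · simp
    · exact AddSubgroup.subset_closure (hx s s0)
  refine eq_top_iff.2 fun s _ => ?_
  by_cases h2 : (2 : F) = 0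
  · have : CharP F 2 := CharTwo.of_one_ne_zero_of_two_eq_zero one_ne_zero h2
    obtain ⟨a, rfl⟩ := isSquare_of_charTwo' s
    exact sq a ▸ h a
  · convert sub_mem (h ((s + 1) / 2)) (h ((s - 1) / 2)) using 1
    field_simp
    ring

/-- An element that lies in no proper subfield spans. -/
theorem spn_of_subfield (h : ∀ S : Subfield F, x ∈ S → S = ⊤) : Spn x := by
  let S : Subfield F := { Subring.closure {x} with
    inv_mem' := fun a ha => by
      rcases eq_or_ne a 0 with rfl | a0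
      · rwa [inv_zero]
      · obtain ⟨n, hn⟩ := sl2e_inv a0
        exact hn ▸ (Subring.closure {x}).pow_mem ha n }
  refine eq_top_iff.2 fun s _ => ?_
  have k : s ∈ S := h S (Subring.subset_closure rfl) ▸ Subfield.mem_top s
  refine AddSubgroup.closure_mono (fun z hz => ?_) (Subring.mem_closure_iff.1 k)
  exact Submonoid.mem_closure_singleton.1 hz

theorem spn_pow (hx : ∀ s : F, s ≠ 0 → ∃ n : ℕ, s = x ^ n) {k : ℕ} (k0 : 0 < k)
    (hk : (k - 1) ^ 2 < Nat.card F) : Spn (x ^ k) := by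
  classical
  refine spn_of_subfield fun S hS => ?_
  rcases eq_or_ne x 0 with rfl | x0
  · refine eq_top_iff.2 fun s _ => ?_
    rcases eq_or_ne s 0 with rfl | s0
    · exact zero_mem _
    · obtain ⟨_ | n, rfl⟩ := hx s s0
      · exact pow_zero (0 : F) ▸ S.one_mem
      · exact absurd (by simp) s0
  have := Fintype.ofFinite F
  have h1 := FiniteField.pow_card_sub_one_eq_one (⟨_, hS⟩ : S)
    fun c => pow_ne_zero k x0 (congrArg Subtype.val c)
  have h2 : x ^ (k * (Fintype.card S - 1)) = 1 := by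
    simpa only [pow_mul, SubmonoidClass.mk_pow, OneMemClass.coe_one] using congrArg Subtype.val h1
  have h3 : 1 < Fintype.card S := Fintype.one_lt_card
  have h4 := Nat.le_of_dvd (Nat.mul_pos k0 (Nat.sub_pos_of_lt h3))
    ((FiniteField.forall_pow_eq_one_iff F _).1 fun z => by
      obtain ⟨n, hn⟩ := hx z z.ne_zero
      exact Units.ext (by push_cast; rw [hn, ← pow_mul, mul_comm n, pow_mul, h2, one_pow]))
  have h5 := Module.card_eq_pow_finrank (K := S) (V := F)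
  have h6 : 0 < Module.finrank S F := Module.finrank_pos
  rw [Nat.card_eq_fintype_card] at hk
  rcases hd : Module.finrank S F with _ | _ | d
  · omega
  · rw [hd, zero_add, pow_one] at h5
    exact SetLike.coe_injective (Set.eq_univ_iff_ncard _ |>.2 (by
      rw [Nat.card_eq_fintype_card, h5, ← Nat.card_eq_fintype_card]; rfl))
  · exfalso
    rw [hd, pow_succ] at h5
    have h7 : Fintype.card S ≤ Fintype.card S ^ (d + 1) := Nat.le_self_pow (by omega) _
    generalize Fintype.card S ^ (d + 1) = A at h5 h7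
    obtain ⟨r, hr⟩ := Nat.exists_eq_add_of_lt h3
    obtain ⟨k, rfl⟩ := Nat.exists_eq_add_of_lt k0
    rw [h5, hr] at h4 hk
    rw [hr] at h7
    simp only [zero_add, Nat.add_sub_cancel] at h4 hk
    rcases le_or_gt A k with c | c
    · nlinarith only [h7, hk, c]
    · have := Nat.mul_le_mul_right (1 + r) (show k + 1 ≤ A from c)
      have e : A * (1 + r + 1) = A * (1 + r) + A := by ring
      omega

theorem Spn.frob (h : Spn x) (n : ℕ) : Spn (x ^ ringChar F ^ n) := by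
  have : Fact (ringChar F).Prime := ⟨CharP.char_is_prime F _⟩
  let f := iterateFrobenius F (ringChar F) n
  have hf : Function.Surjective f := Finite.surjective_of_injective f.injective
  refine eq_top_iff.2 fun s _ => ?_
  obtain ⟨t, rfl⟩ := hf s
  have ht : t ∈ AddSubgroup.closure (Set.range fun n : ℕ => x ^ n) := h ▸ AddSubgroup.mem_top t
  induction ht using AddSubgroup.closure_induction with
  | mem _ k =>
    obtain ⟨m, rfl⟩ := k
    exact AddSubgroup.subset_closure ⟨m, (map_pow f x m).symm⟩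
  | zero => simp
  | add p q _ _ k1 k2 => exact map_add f p q ▸ add_mem (k1 trivial) (k2 trivial)
  | neg p _ k => exact map_neg f p ▸ neg_mem (k trivial)

theorem Spn.ind (h : Spn x) {P : F → Prop} (add : ∀ s t, P s → P t → P (s + t)) {a : F} (a0 : a ≠ 0)
    (pa : P a) (sc : ∀ s, P s → P (x * s)) (s : F) : P s := by
  have neg : ∀ s, P s → P (-s) := fun s hs => by
    obtain ⟨k, hk⟩ := Nat.exists_eq_add_of_le' (CharP.char_is_prime F (ringChar F)).two_le
    have h0 := ringChar.Nat.cast_ringChar (R := F)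
    have h1 : ∀ n : ℕ, P ((n + 1) * s) := fun n => by
      induction n with
      | zero => simpa using hs
      | succ n ih => convert add _ _ ih hs using 1; push_cast; ring
    rw [hk] at h0
    push_cast at h0
    convert h1 k using 1
    linear_combination -s * h0
  obtain ⟨t, rfl⟩ : ∃ t, s = t * a := ⟨s / a, by field_simp⟩
  have ht : t ∈ AddSubgroup.closure (Set.range fun n : ℕ => x ^ n) := h ▸ AddSubgroup.mem_top t
  induction ht using AddSubgroup.closure_induction with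
  | mem _ k =>
    obtain ⟨m, rfl⟩ := k
    induction m with
    | zero => simpa using pa
    | succ m ih => simpa only [pow_succ', mul_assoc] using sc _ ih
  | zero => simpa using add _ _ pa (neg _ pa)
  | add p q _ _ k1 k2 => exact add_mul p q a ▸ add _ _ k1 k2
  | neg p _ k => exact neg_mul p a ▸ neg _ k

end Pool.Agent.MP_c78e8e_al.H75

end

section

namespace Pool.Agent.MP_c78e8e_al.H75

open Polynomial

variable {K : Type} [Field K] [Finite K]

/-- `u` is fixed by the powers of the Frobenius map that fix `x`. -/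
def Inv (x u : K) : Prop := ∀ n : ℕ, x ^ ringChar K ^ n = x → u ^ ringChar K ^ n = u

theorem ch_prime : (ringChar K).Prime := CharP.char_is_prime K _

omit [Finite K] in
theorem Inv.mul {x u v : K} (h : Inv x u) (h' : Inv x v) : Inv x (u * v) :=
  fun n e => by rw [mul_pow, h n e, h' n e]

omit [Finite K] in
theorem Inv.div {x u v : K} (h : Inv x u) (h' : Inv x v) : Inv x (u / v) :=
  fun n e => by rw [div_pow, h n e, h' n e]

theorem Inv.pred {x : K} : Inv x (x - 1) := fun n e => by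
  haveI := Fact.mk (ch_prime (K := K))
  rw [sub_pow_char_pow, e, one_pow]

theorem pair_pol [Fact (ringChar K).Prime] [Algebra (ZMod (ringChar K)) K] {R : K → K → Prop}
    {x y : K} (add : ∀ a b c d, R a b → R c d → R (a + c) (b + d)) (zero : R 0 0)
    (sc : ∀ a b, R a b → R (x * a) (y * b)) (f : (ZMod (ringChar K))[X]) :
    ∀ a b, R a b → R (aeval x f * a) (aeval y f * b) := by
  induction f using Polynomial.induction_on with
  | C c =>
    intro a b h
    obtain ⟨k, rfl⟩ := ZMod.natCast_zmod_surjective c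
    simp only [map_natCast]
    induction k with
    | zero => simpa using zero
    | succ k ih => simpa only [Nat.cast_add, Nat.cast_one, add_mul, one_mul] using add _ _ _ _ ih h
  | add f g hf hg => exact fun a b h => by simpa only [map_add, add_mul] using add _ _ _ _ (hf a b h) (hg a b h)
  | monomial n c ih =>
    intro a b h
    have := sc _ _ (ih a b h)
    simp only [map_mul, map_pow, aeval_X] at this ⊢
    convert this using 1 <;> ring

theorem pair_elim {R : K → K → Prop} {x y : K} (add : ∀ a b c d, R a b → R c d → R (a + c) (b + d))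
    (zero : R 0 0) (sc : ∀ a b, R a b → R (x * a) (y * b)) (h : ∀ n : ℕ, x ≠ y ^ ringChar K ^ n) :
    ∃ c, c ≠ 0 ∧ Inv x c ∧ ∀ a b, R a b → R (c * a) 0 := by
  haveI := Fact.mk (ch_prime (K := K))
  letI := ZMod.algebra K (ringChar K)
  refine ⟨aeval x (minpoly (ZMod (ringChar K)) y), fun e => ?_, fun n e => ?_, fun a b r => ?_⟩
  · obtain ⟨σ, e⟩ := (isConjRoot_of_aeval_eq_zero (Algebra.IsIntegral.isIntegral y) e).symm.exists_algEquiv
    obtain ⟨i, hi⟩ := FiniteField.exists_forall_apply_eq_pow (ZMod (ringChar K)) (ringChar K) K σ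
    exact h i (by rw [← e, hi, Nat.card_zmod])
  · simpa only [mul_one] using pair_pol (R := fun a _ => a ^ ringChar K ^ n = a) (y := x)
      (fun a _ c _ p q => by rw [add_pow_char_pow, p, q])
      (zero_pow (pow_ne_zero _ ch_prime.ne_zero)) (fun a _ p => by rw [mul_pow, e, p]) _ 1 1 (one_pow _)
  · simpa using pair_pol add zero sc (minpoly (ZMod (ringChar K)) y) a b r

theorem gen_mul {R : K → Prop} {x u : K} (add : ∀ a c, R a → R c → R (a + c))
    (zero : R 0) (sc : ∀ a, R a → R (x * a)) (h : Inv x u) (a : K) (r : R a) : R (u * a) := by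
  haveI := Fact.mk (ch_prime (K := K))
  letI := ZMod.algebra K (ringChar K)
  have : u ∈ IntermediateField.adjoin (ZMod (ringChar K)) {x} := by
    rw [← IsGalois.fixedField_fixingSubgroup (IntermediateField.adjoin _ _),
      IntermediateField.mem_fixedField_iff]
    intro σ hσ
    obtain ⟨i, hi⟩ := FiniteField.exists_forall_apply_eq_pow (ZMod (ringChar K)) (ringChar K) K σ
    rw [Nat.card_zmod] at hi
    rw [hi]
    exact h i (by
      rw [← hi]; exact (IntermediateField.mem_fixingSubgroup_iff _ _).1 hσ x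
        (IntermediateField.mem_adjoin_simple_self _ x))
  rw [← IntermediateField.mem_toSubalgebra, IntermediateField.adjoin_simple_toSubalgebra_of_isAlgebraic
    (Algebra.IsAlgebraic.isAlgebraic x), Algebra.adjoin_singleton_eq_range_aeval] at this
  obtain ⟨f, rfl⟩ := this
  exact pair_pol (R := fun a _ => R a) (y := x) (fun a _ c _ => add a c) zero (fun a _ => sc a) f a a r

/-- Arithmetic of a finite field with an involution whose fixed field has `q` elements. -/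
structure FQ (φ : K →+* K) (t : K) (q : ℕ) : Prop where
  pw : ∃ n, q = ringChar K ^ n
  fr : ∀ u, φ u = u ^ q
  ord : ∀ A B : ℤ, |A| + 1 < q → |B| + 1 < q → ((∀ s, φ s = s) → B = 0) → t ^ A * φ t ^ B = 1 →
    A = 0 ∧ B = 0
  nm : ¬ (∀ s, φ s = s) → ∀ s, s ≠ 0 → φ s = s → ∃ n : ℕ, s = (t * φ t) ^ n
  om : ¬ (∀ s, φ s = s) → (2 : K) ≠ 0 → ∃ w : K, w * w = t * φ t ∧ φ w = -w

theorem ord_gen {t : K} (t0 : t ≠ 0) (ht : ∀ s, s ≠ 0 → ∃ n : ℕ, s = t ^ n) (A : ℤ) :
    t ^ A = 1 ↔ ((Nat.card K - 1 : ℕ) : ℤ) ∣ A := by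
  have : orderOf (Units.mk0 t t0) = Nat.card K - 1 := by
    rw [← Nat.card_units]
    refine orderOf_eq_card_of_forall_mem_powers fun x => ?_
    obtain ⟨n, e⟩ := ht x x.ne_zero
    exact ⟨n, Units.ext (by simpa using e.symm)⟩
  rw [← this, orderOf_dvd_iff_zpow_eq_one, Units.ext_iff]; simp

theorem fq_ex {φ : K →+* K} (hφ : ∀ s, φ (φ s) = s) {t : K} (t0 : t ≠ 0)
    (ht : ∀ s, s ≠ 0 → ∃ n : ℕ, s = t ^ n) : FQ φ t (Nat.card {s // φ s = s}) := by
  haveI := Fact.mk (ch_prime (K := K))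
  haveI := Fintype.ofFinite K
  have o := ord_gen t0 ht
  by_cases h : ∀ s, φ s = s
  · have e : Nat.card {s // φ s = s} = Fintype.card K := by
      rw [Nat.card_congr (Equiv.subtypeUnivEquiv h), Nat.card_eq_fintype_card]
    rw [Nat.card_eq_fintype_card] at o
    rw [e]
    refine ⟨?_, fun u => by rw [h, FiniteField.pow_card], fun A B a _ b p => ⟨?_, b h⟩,
      fun n => absurd h n, fun n => absurd h n⟩
    · obtain ⟨n, -, e⟩ := FiniteField.card K (ringChar K)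
      exact ⟨n, e⟩
    · rw [b h, zpow_zero, mul_one, o] at p
      exact Int.eq_zero_of_abs_lt_dvd p (by omega)
  set F := φ.eqLocusField (RingHom.id K)
  haveI := Fintype.ofFinite F
  have e : Nat.card {s // φ s = s} = Fintype.card F := Nat.card_eq_fintype_card (α := F)
  rw [e]
  set q := Fintype.card F
  have q1 : 1 < q := Fintype.one_lt_card
  have n0 : t - φ t ≠ 0 := fun e => h fun s => by
    by_cases s0 : s = 0
    · simp [s0]
    · obtain ⟨n, rfl⟩ := ht s s0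
      rw [map_pow, ← sub_eq_zero.1 e]
  have cd : Nat.card K = q * q := by
    rw [← Fintype.card_prod, ← Nat.card_eq_fintype_card]
    refine (Nat.card_congr (Equiv.ofBijective (fun p : F × F => (p.1 : K) + p.2 * t)
      ⟨fun a b e => ?_, fun x => ?_⟩)).symm
    · have e' := congrArg φ e
      simp only [map_add, map_mul, show φ a.1 = a.1 from a.1.2, show φ a.2 = a.2 from a.2.2,
        show φ b.1 = b.1 from b.1.2, show φ b.2 = b.2 from b.2.2] at e e'
      have e2 : (a.2 : K) = b.2 := mul_right_cancel₀ n0 (by linear_combination e - e')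
      exact Prod.ext (Subtype.ext (by rw [e2] at e; exact add_right_cancel e)) (Subtype.ext e2)
    · have n1 : φ t - t ≠ 0 := fun e => n0 (by linear_combination -e)
      have b1 : φ ((x - φ x) / (t - φ t)) = (x - φ x) / (t - φ t) := by
        rw [map_div₀, map_sub, map_sub, hφ, hφ]; field_simp; ring
      refine ⟨(⟨x - (x - φ x) / (t - φ t) * t, ?_⟩, ⟨_, b1⟩), by simp⟩
      change φ _ = _
      rw [map_sub, map_mul, b1, RingHom.id_apply]; field_simp; ring
  have qq : ((Nat.card K - 1 : ℕ) : ℤ) = (q - 1) * (q + 1) := by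
    rw [cd, Nat.cast_sub (Nat.mul_pos (by omega) (by omega))]; push_cast; ring
  rw [qq] at o
  obtain ⟨n, -, hn⟩ := FiniteField.card F (ringChar K)
  have fx : ∀ s, φ s = s → s ^ q = s := fun s p =>
    congrArg Subtype.val (FiniteField.pow_card (⟨s, p⟩ : F))
  have ft : φ t = t ^ q := by
    have h1 : (t ^ q - t) * (t ^ q - φ t) = 0 := by
      have a := fx (t + φ t) (by rw [map_add, hφ, add_comm])
      have b := fx (t * φ t) (by rw [map_mul, hφ, mul_comm])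
      rw [show q = _ from hn, add_pow_char_pow, ← hn] at a
      rw [mul_pow] at b
      linear_combination t ^ q * a - b
    refine (sub_eq_zero.1 ((mul_eq_zero.1 h1).resolve_left fun e => ?_)).symm
    have := (o (q - 1)).1 (by
      rw [zpow_sub_one₀ t0, zpow_natCast, sub_eq_zero.1 e, mul_inv_cancel₀ t0])
    have := Int.le_of_dvd (by omega) this
    nlinarith only [q1, this]
  refine ⟨⟨n, hn⟩, fun u => ?_, fun A B a b _ p => ?_, fun _ s s0 p => ?_, fun _ h2 => ?_⟩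
  · by_cases s0 : u = 0
    · rw [s0, map_zero, zero_pow (by omega)]
    · obtain ⟨k, rfl⟩ := ht u s0
      rw [map_pow, ft, ← pow_mul, ← pow_mul, mul_comm]
  · rw [ft, ← zpow_natCast, ← zpow_mul, ← zpow_add₀ t0, o] at p
    have a' := abs_lt.1 (show |A| < q - 1 by omega)
    have b' := abs_lt.1 (show |B| < q - 1 by omega)
    have := Int.eq_zero_of_abs_lt_dvd p (abs_lt.2 ⟨by nlinarith only [a', b'], by nlinarith only [a', b']⟩)
    have a0 : A = 0 := Int.eq_zero_of_abs_lt_dvd (m := q) ⟨-B, by linarith only [this]⟩ (by omega)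
    refine ⟨a0, ?_⟩
    rw [a0, zero_add, mul_eq_zero] at this
    omega
  · obtain ⟨k, rfl⟩ := ht s s0
    rw [map_pow, ft] at p
    obtain ⟨m, e⟩ := (mul_dvd_mul_iff_left (show (q : ℤ) - 1 ≠ 0 by omega)).1 ((o ((q - 1) * k)).1 (by
      rw [zpow_mul, zpow_sub_one₀ t0, zpow_natCast, zpow_natCast, mul_pow, p, inv_pow,
        mul_inv_cancel₀ s0]))
    obtain ⟨m, rfl⟩ := Int.eq_ofNat_of_zero_le (show 0 ≤ m by nlinarith only [e])
    exact ⟨m, by rw [ft, ← pow_succ', ← pow_mul]; congr 1; exact_mod_cast e⟩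
  · obtain ⟨m, e⟩ : Odd q := by
      rw [show q = _ from hn]
      refine (ch_prime.odd_of_ne_two fun e => h2 ?_).pow
      simpa only [e, Nat.cast_ofNat] using ringChar.Nat.cast_ringChar (R := K)
    have ww : t ^ (m + 1) * t ^ (m + 1) = t * φ t := by rw [ft, e]; ring
    refine ⟨t ^ (m + 1), ww, ?_⟩
    have h1 : (φ (t ^ (m + 1)) - t ^ (m + 1)) * (φ (t ^ (m + 1)) + t ^ (m + 1)) = 0 := by
      have := congrArg φ ww
      rw [map_mul, map_mul, hφ] at this
      linear_combination this - ww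
    refine eq_neg_of_add_eq_zero_left ((mul_eq_zero.1 h1).resolve_left fun p => ?_)
    have := (o ((q - 1) * (m + 1))).1 (by
      rw [zpow_mul, zpow_sub_one₀ t0, zpow_natCast, ← ft, ← Nat.cast_succ, zpow_natCast, mul_pow,
        ← map_pow, sub_eq_zero.1 p, inv_pow, mul_inv_cancel₀ (pow_ne_zero _ t0)])
    have := Int.le_of_dvd (by positivity) ((mul_dvd_mul_iff_left (show (q : ℤ) - 1 ≠ 0 by omega)).1 this)
    omega

theorem FQ.split {φ : K →+* K} (hφ : ∀ s, φ (φ s) = s) {t : K} {q M : ℕ} (h : FQ φ t q)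
    (hM : (M + 1) ^ 2 < q) (a : ℕ) : ∃ b r, r = ringChar K ^ b ∧ M * (r + 1) + 1 < q ∧
    ((∀ u : K, u ^ ringChar K ^ a = u ^ r) ∨ (∀ u : K, u ^ ringChar K ^ a = φ u ^ r) ∨
    (∀ u : K, (u ^ ringChar K ^ a) ^ r = u) ∨ ∀ u : K, (u ^ ringChar K ^ a) ^ r = φ u) := by
  obtain ⟨n, hn⟩ := h.pw
  have n0 : 0 < n := Nat.pos_of_ne_zero (by rintro rfl; simp [hn] at hM)
  have key : ∀ m, (∀ u : K, u ^ q ^ m = u) ∨ ∀ u : K, u ^ q ^ m = φ u := by
    intro m
    induction m with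
    | zero => simp
    | succ m ih =>
      simp only [pow_succ, pow_mul, ← h.fr]
      rcases ih with e | e <;> simp [e, hφ]
  have e1 : ∀ u : K, u ^ ringChar K ^ a = (u ^ q ^ (a / n)) ^ ringChar K ^ (a % n) := fun u => by
    rw [← pow_mul, hn, ← pow_mul, ← pow_add, Nat.div_add_mod]
  have e2 : ringChar K ^ (a % n) * ringChar K ^ (n - a % n) = q := by
    rw [← pow_add, hn, Nat.add_sub_cancel' (Nat.mod_lt a n0).le]
  by_cases c : M * (ringChar K ^ (a % n) + 1) + 1 < q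
  · refine ⟨_, _, rfl, c, ?_⟩
    rcases key (a / n) with e | e <;> simp only [e1, e, implies_true, true_or, or_true]
  · refine ⟨n - a % n, _, rfl, ?_, Or.inr (Or.inr ?_)⟩
    · generalize ringChar K ^ (a % n) = x at *
      generalize ringChar K ^ (n - a % n) = y at *
      by_contra c'
      subst e2
      rcases le_total x y with l | l
      · rcases le_total x (M + 1) with l' | l' <;> nlinarith only [hM, c, c']
      · rcases le_total y (M + 1) with l' | l' <;> nlinarith only [hM, c', l', l]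
    · simp only [e1, ← pow_mul _ (ringChar K ^ (a % n)), e2, ← h.fr]
      rcases key (a / n) with e | e <;> simp [e, hφ]

/-- Bound on the exponents. -/
def MB : ℕ := 12

/-- `(c, d)` may be a `p`-power multiple of `(a, b)`. -/
def pp (m2 : Bool) (a b c d : ℤ) : Bool :=
  (bif m2 then [1, 2, 4, 8] else [1, 3, 5, 7, 9, 11]).any fun r => c == a * r && d == b * r

/-- Small pairs. -/
def bd (a b : ℤ) : Bool := decide (a.natAbs ≤ MB) && decide (b.natAbs ≤ MB)

theorem pp_of {m2 : Bool} (h1 : m2 → (2 : K) = 0) (h2 : m2 = false → (2 : K) ≠ 0) {a b : ℤ} {n : ℕ}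
    (h : bd (a * (ringChar K ^ n : ℕ)) (b * (ringChar K ^ n : ℕ))) :
    pp m2 a b (a * (ringChar K ^ n : ℕ)) (b * (ringChar K ^ n : ℕ)) := by
  simp only [bd, MB, Bool.and_eq_true, decide_eq_true_eq, Int.natAbs_mul, Int.natAbs_natCast] at h
  simp only [pp, List.any_eq_true, Bool.and_eq_true, beq_iff_eq]
  by_cases z : a = 0 ∧ b = 0
  · exact ⟨1, by cases m2 <;> simp, by simp [z]⟩
  have l : ringChar K ^ n ≤ 12 := by
    rcases not_and_or.1 z with z | z
    · exact (Nat.le_mul_of_pos_left _ (Int.natAbs_pos.2 z)).trans h.1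
    · exact (Nat.le_mul_of_pos_left _ (Int.natAbs_pos.2 z)).trans h.2
  refine ⟨_, ?_, rfl, rfl⟩
  cases m2
  · have : Odd (ringChar K ^ n) := (ch_prime.odd_of_ne_two fun e => h2 rfl (by
      simpa only [e, Nat.cast_ofNat] using ringChar.Nat.cast_ringChar (R := K))).pow
    generalize ringChar K ^ n = r at *
    interval_cases r <;> simp_all +decide
  · have : ringChar K = 2 := (Nat.prime_dvd_prime_iff_eq ch_prime Nat.prime_two).1
      (ringChar.dvd (by simpa only [Nat.cast_ofNat] using h1 rfl))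
    rw [this] at l ⊢
    have : n < 4 := (Nat.pow_lt_pow_iff_right one_lt_two).1 (by omega)
    interval_cases n <;> simp

section
variable {φ : K →+* K} (hφ : ∀ s, φ (φ s) = s) {t : K} (t0 : t ≠ 0) {q : ℕ} (h : FQ φ t q)
include t0 h

omit [Finite K] in
theorem FQ.eq {a b c d : ℤ} {r : ℕ} (hr : MB * (r + 1) + 1 < q) (h1 : bd a b) (h2 : bd c d)
    (z : (∀ s, φ s = s) → b = 0 ∧ d = 0) (e : t ^ c * φ t ^ d = (t ^ a * φ t ^ b) ^ r) :
    c = a * r ∧ d = b * r := by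
  simp only [bd, MB, Bool.and_eq_true, decide_eq_true_eq] at h1 h2 hr
  have t1 := (map_ne_zero φ).2 t0
  have bb : ∀ x y : ℤ, x.natAbs ≤ 12 → y.natAbs ≤ 12 → |x - y * r| + 1 < q := fun x y p p' => by
    have := abs_sub x (y * r)
    rw [abs_mul, Int.abs_eq_natAbs x, Int.abs_eq_natAbs y, Nat.abs_cast] at this
    zify at p p' hr
    simp only [Int.natCast_natAbs] at this
    nlinarith only [p, p', hr, this]
  have := h.ord (c - a * r) (d - b * r) (bb _ _ h2.1 h1.1) (bb _ _ h2.2 h1.2) (fun i => by simp [z i]) (by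
    rw [zpow_sub₀ t0, zpow_sub₀ t1, div_mul_div_comm, e, mul_pow, zpow_mul, zpow_mul, zpow_natCast,
      zpow_natCast, div_self (by simp [t0, zpow_ne_zero])])
  omega

include hφ

theorem FQ.sep (hM : (MB + 1) ^ 2 < q) {m2 : Bool} (c1 : m2 → (2 : K) = 0)
    (c2 : m2 = false → (2 : K) ≠ 0) {a b c d : ℤ} (h1 : bd a b) (h2 : bd c d)
    (z : (∀ s, φ s = s) → b = 0 ∧ d = 0) (p1 : pp m2 a b c d = false) (p2 : pp m2 c d a b = false)
    (p3 : ¬ (∀ s, φ s = s) → pp m2 a b d c = false ∧ pp m2 d c a b = false) (n : ℕ) :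
    t ^ a * φ t ^ b ≠ (t ^ c * φ t ^ d) ^ ringChar K ^ n := by
  intro e
  have sw : φ (t ^ c * φ t ^ d) = t ^ d * φ t ^ c := by simp [hφ, mul_comm]
  have h3 : bd d c := by simpa only [bd, Bool.and_eq_true, decide_eq_true_eq, and_comm] using h2
  have A : ∀ {a b c d : ℤ} {m : ℕ}, MB * (ringChar K ^ m + 1) + 1 < q → bd a b → bd c d →
      ((∀ s, φ s = s) → b = 0 ∧ d = 0) → t ^ c * φ t ^ d = (t ^ a * φ t ^ b) ^ ringChar K ^ m →
      pp m2 a b c d := fun hr h1 h2 z e => by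
    obtain ⟨rfl, rfl⟩ := h.eq t0 hr h1 h2 z e
    exact pp_of c1 c2 h2
  obtain ⟨m, _, rfl, hr, k⟩ := h.split hφ hM n
  by_cases i : ∀ s, φ s = s
  · rcases k with k | k | k | k
    · simpa [p2] using A hr h2 h1 (fun i => (z i).symm) (by rw [e, k])
    · simpa [p2] using A hr h2 h1 (fun i => (z i).symm) (by rw [e, k, i])
    · simpa [p1] using A hr h1 h2 z (by rw [e, k])
    · simpa [p1] using A hr h1 h2 z (by rw [e, k, i (_ * _)])
  · rcases k with k | k | k | k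
    · simpa [p2] using A hr h2 h1 (fun j => absurd j i) (by rw [e, k])
    · simpa [p3 i] using A hr h3 h1 (fun j => absurd j i) (by rw [e, k, sw])
    · simpa [p1] using A hr h1 h2 z (by rw [e, k])
    · simpa [p3 i] using A hr h1 h3 (fun j => absurd j i) (by rw [e, k, sw])

theorem FQ.gen (hM : (MB + 1) ^ 2 < q) {a b : ℤ} (h1 : bd a b) (z : (∀ s, φ s = s) → b = 0)
    (n : a ≠ 0 ∨ b ≠ 0) : t ^ a * φ t ^ b ≠ 1 ∧
    ∀ u, (a = b → φ u = u) → Inv (t ^ a * φ t ^ b) u := by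
  have z' : (∀ s, φ s = s) → b = 0 ∧ b = 0 := fun i => ⟨z i, z i⟩
  refine ⟨fun e => ?_, fun u hu k e => ?_⟩
  · have := h.eq t0 (r := 0) (by simp only [MB] at *; omega) h1 h1 z' (by simpa only [pow_zero] using e)
    omega
  have sw : φ (t ^ a * φ t ^ b) = t ^ b * φ t ^ a := by simp [hφ, mul_comm]
  have h3 : bd b a := by simpa only [bd, Bool.and_eq_true, decide_eq_true_eq, and_comm] using h1
  have A : ∀ r : ℕ, a = a * r ∧ b = b * r → r = 1 := fun r p => by
    rcases n with n | n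
    · exact_mod_cast (mul_eq_left₀ n).1 p.1.symm
    · exact_mod_cast (mul_eq_left₀ n).1 p.2.symm
  have B : ∀ r : ℕ, a = b * r ∧ b = a * r → r = 1 ∧ a = b := fun r p => by
    have := A (r * r) ⟨by push_cast; rw [← mul_assoc, ← p.2, ← p.1], by
      push_cast; rw [← mul_assoc, ← p.1, ← p.2]⟩
    obtain rfl := Nat.eq_one_of_mul_eq_one_right this
    simpa using p.1
  obtain ⟨m, r, -, hr, c⟩ := h.split hφ hM k
  rcases c with c | c | c | c <;> have cx := c (t ^ a * φ t ^ b) <;> rw [e] at cx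
  · rw [c, A r (h.eq t0 hr h1 h1 z' cx), pow_one]
  · by_cases i : ∀ s, φ s = s
    · rw [c, A r (h.eq t0 hr h1 h1 z' (by rwa [i (_ * _)] at cx)), pow_one, i]
    · have := B r (h.eq t0 hr h3 h1 (fun j => absurd j i) (by rwa [sw] at cx))
      rw [c, this.1, pow_one, hu this.2]
  · simpa [A r (h.eq t0 hr h1 h1 z' cx.symm)] using c u
  · by_cases i : ∀ s, φ s = s
    · simpa [A r (h.eq t0 hr h1 h1 z' (by rw [cx, i (_ * _)])), i] using c u
    · have := B r (h.eq t0 hr h1 h3 (fun j => absurd j i) (by rw [cx, sw])).symm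
      simpa [this.1, hu this.2] using c u

end

end Pool.Agent.MP_c78e8e_al.H75

end

section

namespace Pool.Agent.MP_c78e8e_al.H75

variable {K : Type} [Field K] [Finite K] {φ : K →+* K}

/-- The fixed field. -/
abbrev Fix (φ : K →+* K) : Subfield K := φ.eqLocusField (RingHom.id K)

omit [Finite K] in
theorem sl2f_ne (ne : φ ≠ RingHom.id K) : ∃ w, w - φ w ≠ 0 := by
  by_contra h
  push Not at h
  exact ne (RingHom.ext fun w => (sub_eq_zero.1 (h w)).symm)

theorem sl2f_gen : ∃ t : K, t ≠ 0 ∧ ∀ s, s ≠ 0 → ∃ n : ℕ, s = t ^ n := by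
  obtain ⟨g, hg⟩ := IsCyclic.exists_monoid_generator (α := Kˣ)
  refine ⟨g, g.ne_zero, fun s s0 => ?_⟩
  obtain ⟨n, e⟩ := hg (Units.mk0 s s0)
  exact ⟨n, by simpa using (congrArg Units.val e).symm⟩

theorem card_fix (hφ : ∀ s, φ (φ s) = s) (ne : φ ≠ RingHom.id K) :
    Nat.card K = Nat.card (Fix φ) ^ 2 ∧ ∀ s, φ s = s ^ Nat.card (Fix φ) := by
  obtain ⟨g, g0, hg⟩ := sl2f_gen (K := K)
  refine ⟨?_, (fq_ex hφ g0 hg).fr⟩
  obtain ⟨t, n0⟩ := sl2f_ne ne
  rw [sq, ← Nat.card_prod]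
  refine (Nat.card_congr (Equiv.ofBijective (fun p : Fix φ × Fix φ => (p.1 : K) + p.2 * t)
    ⟨fun a b e => ?_, fun x => ?_⟩)).symm
  · have e' := congrArg φ e
    simp only [map_add, map_mul, show φ a.1 = a.1 from a.1.2, show φ a.2 = a.2 from a.2.2,
      show φ b.1 = b.1 from b.1.2, show φ b.2 = b.2 from b.2.2] at e e'
    have e2 : (a.2 : K) = b.2 := mul_right_cancel₀ n0 (by linear_combination e - e')
    exact Prod.ext (Subtype.ext (by rw [e2] at e; exact add_right_cancel e)) (Subtype.ext e2)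
  · have n1 : φ t - t ≠ 0 := fun e => n0 (by linear_combination -e)
    have b1 : φ ((x - φ x) / (t - φ t)) = (x - φ x) / (t - φ t) := by
      rw [map_div₀, map_sub, map_sub, hφ, hφ]; field_simp; ring
    refine ⟨(⟨x - (x - φ x) / (t - φ t) * t, ?_⟩, ⟨_, b1⟩), by simp⟩
    change φ _ = _
    rw [map_sub, map_mul, b1, RingHom.id_apply]; field_simp; ring

theorem norm_surj (hφ : ∀ s, φ (φ s) = s) (ne : φ ≠ RingHom.id K) {t : K} (ht : φ t = t) :
    ∃ s, s * φ s = t := by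
  by_cases t0 : t = 0
  · exact ⟨0, by simp [t0]⟩
  obtain ⟨g, g0, hg⟩ := sl2f_gen (K := K)
  obtain ⟨n, e⟩ := (fq_ex hφ g0 hg).nm (fun h => ne (RingHom.ext h)) t t0 ht
  exact ⟨g ^ n, by rw [e, map_pow, mul_pow]⟩

theorem trace_surj (hφ : ∀ s, φ (φ s) = s) (ne : φ ≠ RingHom.id K) {t : K} (ht : φ t = t) :
    ∃ s, s + φ s = t := by
  obtain ⟨u, hu⟩ : ∃ u, u + φ u ≠ 0 := by
    obtain ⟨w, hw⟩ := sl2f_ne ne
    by_contra h
    push Not at h
    have h1 := h 1
    rw [map_one] at h1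
    exact hw (by linear_combination h w - φ w * h1)
  refine ⟨t / (u + φ u) * u, ?_⟩
  rw [map_mul, map_div₀, map_add, hφ, ht, add_comm (φ u) u]
  field_simp

theorem hilbert90 (hφ : ∀ s, φ (φ s) = s) (ne : φ ≠ RingHom.id K) {t : K} (ht : t * φ t = 1) :
    ∃ s, s ≠ 0 ∧ t * φ s = s := by
  obtain ⟨a, ha⟩ : ∃ a, a + t * φ a ≠ 0 := by
    obtain ⟨w, hw⟩ := sl2f_ne ne
    by_contra h
    push Not at h
    have h1 := h 1
    rw [map_one] at h1
    exact hw (by linear_combination h w - φ w * h1)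
  exact ⟨_, ha, by rw [map_add, map_mul, hφ]; linear_combination a * ht⟩

theorem skew_ex (hφ : ∀ s, φ (φ s) = s) (ne : φ ≠ RingHom.id K) : ∃ s, s ≠ 0 ∧ φ s = -s := by
  obtain ⟨w, hw⟩ := sl2f_ne ne
  exact ⟨_, hw, by rw [map_sub, hφ]; ring⟩

/-- An element that lies in no proper subfield spans. -/
theorem sl2f_spn {x : K} (x0 : x ≠ 0)
    (h : ∀ r d : ℕ, 2 ≤ r → 2 ≤ d → r ^ d = Nat.card K → x ^ (r - 1) ≠ 1) : Spn x := by
  have := Fintype.ofFinite K
  let E : Subfield K :=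
    { toSubring := Subring.closure {x}
      inv_mem' := fun a ha => by
        by_cases a0 : a = 0
        · rw [a0, inv_zero]; exact zero_mem (Subring.closure {x})
        · have h1 : 1 < Fintype.card K := Fintype.one_lt_card
          have : a⁻¹ = a ^ (Fintype.card K - 2) := by
            refine inv_eq_of_mul_eq_one_right ?_
            rw [← pow_succ', ← FiniteField.pow_card_sub_one_eq_one a a0]
            congr 1; omega
          rw [this]
          exact pow_mem (S := Subring.closure {x}) ha _ }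
  have hx : x ∈ E := Subring.subset_closure (Set.mem_singleton x)
  have := Fintype.ofFinite E
  have c := Module.card_eq_pow_finrank (K := E) (V := K)
  have d0 : 0 < Module.finrank E K := Module.finrank_pos
  have d1 : Module.finrank E K = 1 := by
    by_contra hd
    refine h (Fintype.card E) (Module.finrank E K) Fintype.one_lt_card (by omega)
      (by rw [Nat.card_eq_fintype_card, c]) ?_
    exact congrArg Subtype.val (FiniteField.pow_card_sub_one_eq_one (⟨x, hx⟩ : E)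
      fun e => x0 (congrArg Subtype.val e))
  rw [d1, pow_one] at c
  have t := AddSubgroup.eq_top_of_card_eq E.toAddSubgroup (by
    rw [Nat.card_eq_fintype_card (α := K), c]; exact Nat.card_eq_fintype_card (α := E))
  refine eq_top_iff.2 fun s _ => ?_
  have hs : s ∈ Subring.closure {x} := (show s ∈ E.toAddSubgroup from t ▸ AddSubgroup.mem_top s)
  rw [Subring.mem_closure_iff, ← Submonoid.powers_eq_closure] at hs
  exact hs

theorem sl2f_num {r q d : ℕ} (hr : 2 ≤ r) (hq : 1 ≤ q) (hd : 3 ≤ d) (h : r ^ d = q ^ 2) :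
    ¬ q + 1 ∣ 4 * (r - 1) := fun hv => by
  have h1 := Nat.le_of_dvd (by omega) hv
  have h2 : r ^ 3 ∣ q ^ 2 := h ▸ pow_dvd_pow r hd
  have h3 := Nat.le_of_dvd (by positivity) h2
  have h4 : r < 14 := by
    by_contra hc
    obtain ⟨s, rfl⟩ : ∃ s, r = s + 14 := ⟨r - 14, by omega⟩
    have : q ≤ 4 * s + 51 := by omega
    have := Nat.pow_le_pow_left this 2
    nlinarith [Nat.zero_le (s ^ 3), Nat.zero_le (s ^ 2)]
  have := (by decide +kernel : ∀ r < 14, ∀ q < 52, r < 2 ∨ q < 1 ∨ q ^ 2 % r ^ 3 ≠ 0 ∨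
    4 * (r - 1) % (q + 1) ≠ 0) r h4 q (by omega)
  have := Nat.mod_eq_zero_of_dvd h2
  have := Nat.mod_eq_zero_of_dvd hv
  omega

/-- A generator of the group of elements of norm one. -/
theorem norm_gen (hφ : ∀ s, φ (φ s) = s) (ne : φ ≠ RingHom.id K) : ∃ z : K, z * φ z = 1 ∧
    orderOf z = Nat.card (Fix φ) + 1 ∧ (∀ s, s * φ s = 1 → ∃ n : ℕ, s = z ^ n) ∧ Spn z ∧
    (Nat.card K ≠ 9 → Spn (z ^ 2)) ∧ (Nat.card K ≠ 9 → Nat.card K ≠ 49 → Spn (z ^ 4)) := by
  obtain ⟨g, g0, hg⟩ := sl2f_gen (K := K)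
  obtain ⟨cd, fr⟩ := card_fix hφ ne
  have q1 : 1 < Nat.card (Fix φ) := Finite.one_lt_card
  obtain ⟨p, hp⟩ : ∃ p, Nat.card (Fix φ) = p + 1 := ⟨_, (Nat.succ_pred_eq_of_pos (by omega)).symm⟩
  rw [hp] at cd fr q1 ⊢
  have o : ∀ n : ℕ, g ^ n = 1 ↔ p * (p + 1 + 1) ∣ n := fun n => by
    rw [← zpow_natCast, ord_gen g0 hg, Int.natCast_dvd_natCast, cd,
      show (p + 1) ^ 2 - 1 = p * (p + 1 + 1) from Nat.sub_eq_of_eq_add (by ring)]
  have oz : ∀ n : ℕ, (g ^ p) ^ n = 1 ↔ p + 1 + 1 ∣ n := fun n => by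
    rw [← pow_mul, o, Nat.mul_dvd_mul_iff_left (by omega)]
  have sp : ∀ k, k ∣ 4 → ¬ p + 1 + 1 ∣ 2 * k → Spn ((g ^ p) ^ k) := fun k hk hn => by
    refine sl2f_spn (pow_ne_zero _ (pow_ne_zero _ g0)) fun r d hr hd e h => ?_
    rw [← pow_mul, oz] at h
    rw [cd] at e
    rcases hd.eq_or_lt with rfl | hd
    · rw [Nat.pow_left_injective two_ne_zero e, Nat.add_sub_cancel] at h
      refine hn ((Nat.dvd_add_right h).1 ⟨k, by ring⟩)
    · exact sl2f_num hr (by omega) hd e (h.trans (Nat.mul_dvd_mul_right hk _))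
  refine ⟨g ^ p, ?_, Nat.dvd_antisymm (orderOf_dvd_iff_pow_eq_one.2 ((oz _).2 dvd_rfl))
    ((oz _).1 (pow_orderOf_eq_one _)), fun s hs => ?_, ?_, fun h9 => ?_, fun h9 h49 => ?_⟩
  · rw [fr, ← pow_succ', oz]
  · obtain ⟨k, rfl⟩ := hg s fun e => by simp [e] at hs
    rw [fr, ← pow_succ', ← pow_mul, o, Nat.mul_dvd_mul_iff_right (by omega)] at hs
    obtain ⟨m, rfl⟩ := hs
    exact ⟨m, pow_mul _ _ _⟩
  · simpa using sp 1 (by norm_num) fun h => by have := Nat.le_of_dvd (by norm_num) h; omega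
  · refine sp 2 (by norm_num) fun h => ?_
    have := Nat.le_of_dvd (by norm_num) h
    rw [cd] at h9
    have : p ≤ 2 := by omega
    interval_cases p <;> omega
  · refine sp 4 (by norm_num) fun h => ?_
    have := Nat.le_of_dvd (by norm_num) h
    rw [cd] at h9 h49
    have : p ≤ 6 := by omega
    interval_cases p <;> omega

end Pool.Agent.MP_c78e8e_al.H75

end
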