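import Pool.Agent.MP_c78e8e_al.Defs

namespace Pool.Agent.MP_c78e8e_al.H75

open Matrix

variable {r : ℕ} (C : Matrix (Fin r) (Fin r) ℤ) {K : Type} [Field K]

/-- The invariant form on the root lattice of the simply laced Cartan matrix `C`. -/
def form (u v : Fin r → ℤ) : ℤ := u ⬝ᵥ C *ᵥ v

/-- The roots. -/
abbrev Root : Type := {u : Fin r → ℤ // form C u u = 2}

/-- The structure constants are `(-1) ^ coc u v`. -/
def coc (u v : Fin r → ℤ) : ℤ :=
  ∑ i, ∑ j, if i < j then C i j * u i * v j else if i = j then u i * v j else 0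

/-- The Lie algebra over `K`: coordinates with respect to the Chevalley basis. -/
abbrev Lie (K : Type) : Type := (Fin r → K) × (Root C → K)

/-- The coefficient of the root vector `e u`, zero if `u` is not a root. -/
def co (v : Lie C K) (u : Fin r → ℤ) : K := if h : form C u u = 2 then v.2 ⟨u, h⟩ else 0

/-- The bracket `[e β, v]`. -/
def ad (β : Fin r → ℤ) (v : Lie C K) : Lie C K :=
  (fun i => -(co C v (-β) * β i), fun u =>
    if u.1 = β then -∑ j, (form C β (Pi.single j 1) : K) * v.1 j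
    else (-1) ^ coc C β (u.1 - β) * co C v (u.1 - β))

/-- The divided square `(ad e β) ^ 2 / 2`, which sends `e (-β)` to `e β`. -/
def ad2 (β : Fin r → ℤ) (v : Lie C K) : Lie C K :=
  (0, fun u => if u.1 = β then co C v (-β) else 0)

/-- The root subgroup of the maps `exp (t ad e β)`. -/
def rootGroup (K : Type) [Field K] (β : Fin r → ℤ) : Set (Equiv.Perm (Lie C K)) :=
  {g | ∃ t : K, ∀ v, g v = v + t • ad C β v + t ^ 2 • ad2 C β v}

/-- The sign of the diagram automorphism on `e u` is `(-1) ^ tw ρ u`. -/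
def tw (ρ : Equiv.Perm (Fin r)) (u : Fin r → ℤ) : ℤ :=
  ∑ i, ∑ j, if i < j ∧ ρ j < ρ i then C i j * u i * u j else 0

/-- The `φ`-semilinear automorphism induced by the diagram symmetry `ρ`. -/
def sigma (ρ : Equiv.Perm (Fin r)) (φ : K →+* K) (v : Lie C K) : Lie C K :=
  (fun i => φ (v.1 (ρ⁻¹ i)), fun u => (-1) ^ tw C ρ (u.1 ∘ ρ) * φ (co C v (u.1 ∘ ρ)))

/-- The group generated by the fixed points of `sigma` in the groups generated by the root
subgroups of a `ρ`-orbit of roots. -/
def chev (ρ : Equiv.Perm (Fin r)) (φ : K →+* K) : Subgroup (Equiv.Perm (Lie C K)) :=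
  Subgroup.closure {g | (∀ v, g (sigma C ρ φ v) = sigma C ρ φ (g v)) ∧
    ∃ β : Root C, g ∈ Subgroup.closure (⋃ k : ℕ, rootGroup C K (β.1 ∘ ⇑(ρ ^ k)))}

end Pool.Agent.MP_c78e8e_al.H75

namespace Pool.Agent.MP_c78e8e_al.H75

variable {r : ℕ} (C : Matrix (Fin r) (Fin r) ℤ) {K : Type} [Field K]

/-- The product of the maps `exp (t ad e β)`, `β = ± α i`, over the nodes `i` of a list. -/
def rx (S : List (Fin r)) (e : ℤˣ) (t : K) (v : Lie C K) : Lie C K :=
  S.foldr (fun i w => w + t • ad C (Pi.single i e) w + t ^ 2 • ad2 C (Pi.single i e) w) v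

/-- Suzuki and Ree groups. A member `(S, i)` of `D` consists of the nodes `S` folded to a short simple
root and of the node `i` of its long partner; the twisting automorphism interchanges `rx S e t` and
`rx [i] e (φ t)`; the group is generated by its fixed points in the groups these elements generate. -/
def ree (D : List (List (Fin r) × Fin r)) (φ : K →+* K) : Subgroup (Equiv.Perm (Lie C K)) :=
  Subgroup.closure {g | ∃ d ∈ D, ∃ e : ℤˣ, (g, g) ∈ Subgroup.closure
    {p : Equiv.Perm (Lie C K) × Equiv.Perm (Lie C K) | ∃ t,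
      ⇑p.1 = rx C d.1 e t ∧ ⇑p.2 = rx C [d.2] e (φ t) ∨ ⇑p.2 = rx C d.1 e t ∧ ⇑p.1 = rx C [d.2] e (φ t)}}

end Pool.Agent.MP_c78e8e_al.H75

namespace Pool.Agent.MP_c78e8e_al.H75

/-- The Mathieu group `M₁₂`, generated by the standard permutations
`(1 2 ⋯ 11)`, `(3 7 11 8)(4 10 5 6)`, `(1 12)(2 11)(3 6)(4 8)(5 9)(7 10)` (points shifted by one). -/
def M12 : Subgroup (Equiv.Perm (Fin 12)) :=
  Subgroup.closure {List.formPerm [0, 1, 2, 3, 4, 5, 6, 7, 8, 9, 10],
    List.formPerm [2, 6, 10, 7] * List.formPerm [3, 9, 4, 5],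
    Equiv.swap 0 11 * Equiv.swap 1 10 * Equiv.swap 2 5 * Equiv.swap 3 7 * Equiv.swap 4 8 *
      Equiv.swap 6 9}

end Pool.Agent.MP_c78e8e_al.H75
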