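import Pool.Agent.MP_c78e8e_al.Sg.Eng
import Pool.Agent.MP_c78e8e_al.Sg.Sl2
import Pool.Agent.MP_c78e8e_al.Sg.Clas

attribute [-instance] MonTypeEquivalenceMon.monMonoid
  DistribMulActionSemiHomClass.toAddMonoidHomClass SemilinearMapClass.toAddHomClass littleWedderburn
  AlgHom.instNonUnitalAlgHomClassOfAlgHomClass instCharZeroOfIsSemireal IdemSemiring.toSemiring
  SemilatticeInf.toPartialOrder RKHS.instFunLike MulZeroClass.toMul CommGroup.toDivisionCommMonoid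
  NormedRing.toRing NonUnitalRing.toNonUnitalNonAssocRing
  instNonUnitalAlgHomClassOfNonUnitalAlgEquivClass CommRing.toRing
  instNoNatZeroDivisorsOfIsAddTorsionFree FloorSemiring.instCharZero Fintype.decidableForallFintype
  SeminormedRing.toRing NormedField.toField NormedCommRing.toCommRing
  SubsemiringClass.toSubmonoidClass NonUnitalSemiring.toNonUnitalNonAssocSemiring
  NonUnitalNormedCommRing.toNonUnitalCommRing NormMulClass.toNoZeroDivisors RCLike.charZero_rclike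
  UniformSpace.toTopologicalSpace MulCharClass.toMonoidHomClass
  NonAssocCommSemiring.toNonAssocSemiring MonoidWithZero.toSemigroupWithZero instCoeOutOfCoeFun
  LieAdmissibleRing.toNonUnitalNonAssocRing NonUnitalRing.toNonUnitalSemiring
  ContinuousMonoidHom.instCoeOutOfMonoidHomClassOfContinuousMapClass BooleanRing.toRing
  SeminormedCommRing.toCommRing EuclideanDomain.toCommRing
  NonUnitalSeminormedCommRing.toNonUnitalCommRing
  NonUnitalNonAssocCommSemiring.toNonUnitalNonAssocSemiring instIsRightCancelAddOfAddRightReflectLE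
  BialgHomClass.toMonoidHomClass NonAssocRing.toNonUnitalNonAssocRing IsMulCommutative.is_comm
  AddCommGroupWithOne.toAddGroupWithOne IdemCommSemiring.toCommSemiring AlgHomClass.toRingHomClass
  ValuationClass.toMonoidWithZeroHomClass CommMonoidWithZero.toMonoidWithZero
  GroupWithZero.toDivInvMonoid GroupWithZero.toDivisionMonoid NonAssocRing.toNonAssocSemiring
  NumberField.to_charZero Semiring.toNonUnitalSemiring BooleanRing.toCommRing
  IsStrictOrderedRing.noZeroDivisors NonAssocCommRing.toNonUnitalNonAssocCommRing Preorder.toLT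
  LinearOrderedCommGroupWithZero.toCommGroupWithZero NonUnitalAlgSemiHomClass.toMulHomClass
  IsStrictOrderedRing.toCharZero instCoeTCOfCoe Group.IsPerfect.subsingleton_of_isMulCommutative
  RingSeminormClass.toAddGroupSeminormClass MulDistribMulActionSemiHomClass.toMonoidHomClass
  GroupConeClass.toSubmonoidClass DivisionRing.toDivisionSemiring NormedDivisionRing.toDivisionRing
  NonUnitalAlgHomClass.toNonUnitalRingHomClass CommSemiring.toNonUnitalCommSemiring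
  RingEquivClass.toNonUnitalRingHomClass SeminormClass.toAddGroupSeminormClass Nontrivial.to_nonempty
  RightPreLieRing.toNonUnitalNonAssocRing CoheytingAlgebra.toOrderTop
  AddCommMonoidWithOne.toAddCommMonoid LeftPreLieRing.toNonUnitalNonAssocRing
  SubringClass.toSubsemiringClass IsometryClass.instCoeOutIsometryEquiv
  Order.Coframe.toCompleteLattice CommGroupWithZero.toGroupWithZero FiniteField.instGrindPowIdentity
  NeZero.charZero_one ContinuousAddMonoidHom.instCoeOutOfAddMonoidHomClassOfContinuousMapClass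
  NeZero.of_gt' AddGroupNormClass.toAddGroupSeminormClass HomeomorphClass.instCoeOutHomeomorph
  LieRing.toAddCommGroup RingConeClass.toSubsemiringClass ContDiffMapSupportedInClass.toDFunLike
  TestFunctionClass.toDFunLike BooleanRing.instIdempotentOpHMul
  CompletelyDistribLattice.toCompleteLattice IsFormallyReal.instIsReduced
  NonUnitalNonAssocSemiring.toAddCommMonoid SemilatticeSup.toPartialOrder
  CommMonTypeEquivalenceCommMon.commMonCommMonoid LinearOrderedAddCommGroupWithTop.toOrderTop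
  NormedAlgebra.toAlgebra OmegaCompletePartialOrder.toPartialOrder instIsBotZeroClass
  LinearOrderedAddCommMonoidWithTop.toOrderTop MulSemiringActionSemiHomClass.toRingHomClass
  instZeroLEOneClass LinearOrderedAddCommMonoidWithTop.toAddCommMonoid
  MulRingSeminormClass.toAddGroupSeminormClass instCoeTOfCoeDep CentroidHomClass.toAddMonoidHomClass
  GrpTypeEquivalenceGrp.grpGroup LinearOrder.toDecidableEq

section

namespace Pool.Agent.MP_c78e8e_al.H75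

open Subgroup
open scoped commutatorElement

namespace St
variable {G L K : Type} [Group G] [AddCommGroup L] [Field K] {S : St G L K}

/-- Monomial elements with weights. -/
structure Wm (S : St G L K) (m : G) (w : L ≃+ L) (χ : L → K) : Prop where
  iso : ∀ u v, S.B (w u) (w v) = S.B u v
  root : ∀ β, S.R (w β) ↔ S.R β
  tor : ∀ f, ∃ g, m * S.hh f * m⁻¹ = S.hh g
  tor' : ∀ f, ∃ g, m⁻¹ * S.hh f * m = S.hh g
  fix : S.θ m = m
  com : ∀ v, w (S.ρ v) = S.ρ (w v)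
  ne : ∀ β, χ β ≠ 0
  cj : ∀ β, S.R β → ∃ e, Pm e ∧ ∀ s, m * S.x β s * m⁻¹ = S.x (w β) (e * χ β * s)

theorem Mon.wm {m : G} {w : L ≃+ L} (h : S.Mon m w) : S.Wm m w 1 :=
  ⟨h.iso, h.root, h.tor, h.tor', h.fix, h.com, by simp, by simpa only [Pi.one_apply, mul_one, Cj] using h.cj⟩

namespace Wm
variable {m m' : G} {w w' : L ≃+ L} {χ χ' : L → K} (h : S.Wm m w χ)
include h

theorem mul (h' : S.Wm m' w' χ') : S.Wm (m * m') (w'.trans w) fun β => χ (w' β) * χ' β where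
  iso u v := by simp [h.iso, h'.iso]
  root β := by simp [h.root, h'.root]
  tor f := by
    obtain ⟨g, e⟩ := h'.tor f
    obtain ⟨g', e'⟩ := h.tor g
    exact ⟨g', by rw [← e', ← e]; group⟩
  tor' f := by
    obtain ⟨g, e⟩ := h.tor' f
    obtain ⟨g', e'⟩ := h'.tor' g
    exact ⟨g', by rw [← e', ← e]; group⟩
  fix := by rw [map_mul, h.fix, h'.fix]
  com v := by simp [h.com, h'.com]
  ne β := mul_ne_zero (h.ne _) (h'.ne _)
  cj β hβ := by
    obtain ⟨e, he, c⟩ := h'.cj β hβ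
    obtain ⟨f, hf, c'⟩ := h.cj _ ((h'.root β).2 hβ)
    refine ⟨f * e, hf.mul he, fun s => ?_⟩
    rw [show f * e * (χ (w' β) * χ' β) * s = f * χ (w' β) * (e * χ' β * s) by ring,
      AddEquiv.trans_apply, ← c', ← c]; group

theorem inv : S.Wm m⁻¹ w.symm fun β => (χ (w.symm β))⁻¹ where
  iso u v := by rw [← h.iso]; simp
  root β := by rw [← h.root]; simp
  tor f := by simpa only [inv_inv] using h.tor' f
  tor' f := by simpa only [inv_inv] using h.tor f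
  fix := by rw [map_inv, h.fix]
  com v := by rw [AddEquiv.symm_apply_eq, h.com]; simp
  ne β := inv_ne_zero (h.ne _)
  cj β hβ := by
    obtain ⟨e, he, c⟩ := h.cj (w.symm β) ((h.root _).1 (by simpa using hβ))
    refine ⟨e, he, fun s => ?_⟩
    have := c (e * (χ (w.symm β))⁻¹ * s)
    rw [show e * χ (w.symm β) * (e * (χ (w.symm β))⁻¹ * s) = s by
      have := h.ne (w.symm β)
      field_simp; rw [pow_two, he.sq, one_mul], AddEquiv.apply_symm_apply] at this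
    rw [← this]; group

theorem θconj (g : G) : S.θ (m * g * m⁻¹) = m * S.θ g * m⁻¹ := by
  rw [map_mul, map_mul, map_inv, h.fix]

theorem U {β : L} {g : G} (hg : g ∈ S.U β) : m * g * m⁻¹ ∈ S.U (w β) := by
  refine ⟨(h.root β).2 hg.1, by rw [h.θconj, hg.2.1], conj_closure ?_ hg.2.2⟩
  rintro a (⟨s, rfl⟩ | ⟨s, rfl⟩)
  · obtain ⟨e, -, c⟩ := h.cj β hg.1
    rw [c]; exact x_mem _ _
  · obtain ⟨e, -, c⟩ := h.cj _ (S.Rρ β hg.1)
    rw [c, h.com]; exact x_mem' _ _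

theorem Yp {β : L} {e s : K} {g : G} (he : ∀ s, m * S.x β s * m⁻¹ = S.x (w β) (e * s))
    (hg : S.Yp β s g) : S.Yp (w β) (e * s) (m * g * m⁻¹) := by
  have hβ := hg.1
  have hw := (h.root β).2 hβ
  have th : S.θ (m * g * m⁻¹) = m * g * m⁻¹ := by rw [h.θconj, hg.2.1]
  rcases hg.typ with l | l | l
  · have l' : S.ρ (w β) = w β := by rw [← h.com, l]
    exact ⟨hw, th, Or.inl ⟨Or.inl l', by rw [Y_long l', ← he, ← (hg.long l).1]⟩⟩
  · have l' : S.B (w β) (S.ρ (w β)) = 0 := by rw [← h.com, h.iso, l]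
    refine ⟨hw, th, Or.inl ⟨Or.inr l', ?_⟩⟩
    rw [Y_nl hw l'.le, ← he, h.θconj, hg.short l]; group
  · have l' : S.B (w β) (S.ρ (w β)) = -1 := by rw [← h.com, h.iso, l]
    obtain ⟨r, q⟩ := hg.bc l
    obtain ⟨f, -, c⟩ := h.cj _ (S.Radd _ _ hβ (S.Rρ β hβ) l)
    refine yp_bc hw l' th (r := f * χ (β + S.ρ β) * r) ?_
    rw [← h.com, ← map_add, ← c, ← he, h.θconj, q]; group

theorem grp {T : List L} {g : G} (hg : g ∈ S.Grp T) : m * g * m⁻¹ ∈ S.Grp (T.map w) := by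
  refine conj_closure ?_ hg
  rintro a ⟨δ, hδ, ha⟩
  exact (inT_mem (List.mem_map_of_mem hδ)).mem (h.U ha)

theorem tconj {a : G} {κ : List L} (H : S.Tor a κ) : S.Tor (m * a * m⁻¹) (κ.map w) := by
  obtain ⟨f, rfl, t, e⟩ := H
  obtain ⟨g, eg⟩ := h.tor f
  refine ⟨g, eg, by rw [h.θconj, t], fun β hβ => ?_⟩
  obtain ⟨γ, rfl⟩ := w.surjective β
  have hγ := (h.root γ).1 hβ
  obtain ⟨c, hc, r⟩ := h.cj γ hγ
  have h1 : S.sg (κ.map w) (w γ) = S.sg κ γ := by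
    simp only [sg, List.map_map]
    congr 3
    ext k
    simp [h.iso]
  rw [h1, ← e γ hγ]
  have h2 := S.hh_x g _ hβ (c * χ γ * 1)
  rw [← eg, ← r] at h2
  have h3 : m * S.hh f * m⁻¹ * (m * S.x γ 1 * m⁻¹) * (m * S.hh f * m⁻¹)⁻¹ =
    m * (S.hh f * S.x γ 1 * (S.hh f)⁻¹) * m⁻¹ := by group
  rw [h3, S.hh_x f γ hγ, r] at h2
  have := S.x_injective hβ h2
  apply mul_left_cancel₀ (mul_ne_zero hc.ne (h.ne γ))
  linear_combination -this

theorem nz {β : L} {s : K} {g : G} (hg : S.Yp β s g) (s0 : s ≠ 0) :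
    ∃ t, t ≠ 0 ∧ S.Yp (w β) t (m * g * m⁻¹) := by
  obtain ⟨e, he, c⟩ := h.cj β hg.1
  exact ⟨_, mul_ne_zero (mul_ne_zero he.ne (h.ne β)) s0, h.Yp c hg⟩

theorem congr (e : ∀ β, w' β = w β) (e' : ∀ β, χ' β = χ β) : S.Wm m w' χ' := by
  rwa [show w' = w from AddEquiv.ext e, show χ' = χ from funext e']

end Wm

theorem Tor.eq {a b : G} {κ κ' : List L} (h : S.Tor a κ) (h' : S.Tor b κ')
    (e : ∀ β, S.R β → S.sg κ β = S.sg κ' β) : a = b := by
  obtain ⟨f, p, -, q⟩ := h.mul h'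
  rw [← h.inv, inv_eq_iff_mul_eq_one, p]
  exact S.hh_one f fun β r => by rw [q β r, sg_append, e β r, (sg_pm _ _).sq]

theorem tt_zero (j : Kˣ) : S.tt j 0 = 1 := by simpa using S.tt_add j 0 0

theorem tt_inv (j : Kˣ) (f : L →+ ℤ) : (S.tt j f)⁻¹ = S.tt j (-f) :=
  inv_eq_of_mul_eq_one_right (by rw [← S.tt_add, add_neg_cancel, tt_zero])

theorem n_tt {β : L} (h : S.R β) (j : Kˣ) :
    S.x β j * S.x (-β) (j : K)⁻¹ * S.x β j = S.tt j (S.B β) * S.n β := by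
  obtain ⟨γ, -, b⟩ := S.nbr β h
  have e : (-S.B γ) β = 1 := by simp [S.symm γ, b]
  have h1 := S.tt_x j (-S.B γ) β h 1
  have h2 := S.tt_x j (-S.B γ) _ (S.Rneg β h) 1
  rw [map_neg, e, zpow_neg] at h2
  rw [e] at h1
  rw [zpow_one, mul_one] at h1 h2
  have h3 := S.tt_n j (S.B γ) β h
  rw [S.symm γ, b, neg_one_smul, sub_neg_eq_add, S.tt_add] at h3
  rw [← h1, ← h2, n, ← tt_inv, inv_inv]
  calc _ = (S.tt j (S.B γ))⁻¹ * (S.x β 1 * S.x (-β) 1 * S.x β 1 * S.tt j (S.B γ)) := by group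
    _ = _ := by rw [h3]; group

open Classical in
variable (S) in
/-- Relative coroot elements. -/
noncomputable def hz (z : L) (j : Kˣ) : G :=
  if S.ρ z = z then S.tt j (S.B z) else S.tt j (S.B z) * S.θ (S.tt j (S.B z))

theorem θ_tt (j : Kˣ) (z : L) : S.θ (S.tt j (S.B z)) = S.tt (Units.map S.φ j) (S.B (S.ρ z)) := by
  rw [S.θt]; congr 1; ext v; simp [S.Bρ']

theorem wm_diag {g : G} {χ : L → K} (c : ∀ f, Commute g (S.hh f)) (t : S.θ g = g) (n : ∀ β, χ β ≠ 0)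
    (x : ∀ β, S.R β → ∀ s, g * S.x β s * g⁻¹ = S.x β (χ β * s)) : S.Wm g (AddEquiv.refl L) χ :=
  ⟨fun _ _ => rfl, fun _ => Iff.rfl, fun f => ⟨f, (c f).mul_inv_cancel⟩,
    fun f => ⟨f, by rw [mul_assoc, ← (c f).eq]; simp⟩, t, fun _ => rfl, n,
    fun β r => ⟨1, pm_one, by simpa only [AddEquiv.refl_apply, one_mul] using x β r⟩⟩

theorem hz_long {z : L} (l : S.ρ z = z) {j : Kˣ} (hj : S.φ j = j) :
    S.Wm (S.hz z j) (AddEquiv.refl L) fun β => (j : K) ^ S.B z β := by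
  rw [hz, if_pos l]
  exact wm_diag (fun f => S.tt_hh f ▸ S.tt_comm _ _ _ _)
    (by rw [θ_tt, l]; congr 1; exact Units.ext hj) (fun _ => zpow_ne_zero _ j.ne_zero) (S.tt_x j _)

theorem hz_x {z : L} (l : S.ρ z ≠ z) (j : Kˣ) (β : L) (r : S.R β) (s : K) : S.hz z j * S.x β s *
    (S.hz z j)⁻¹ = S.x β ((j : K) ^ S.B z β * S.φ j ^ S.B (S.ρ z) β * s) := by
  rw [hz, if_neg l, θ_tt, mul_assoc (_ ^ _), ← S.tt_x j _ β r]
  have := S.tt_x (Units.map S.φ j) (S.B (S.ρ z)) β r s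
  simp only [Units.coe_map, MonoidHom.coe_coe] at this
  rw [← this]; group

theorem hz_nl {z : L} (l : S.ρ z ≠ z) (j : Kˣ) :
    S.Wm (S.hz z j) (AddEquiv.refl L) fun β => (j : K) ^ S.B z β * S.φ j ^ S.B (S.ρ z) β := by
  refine wm_diag (fun f => ?_) ?_ (fun _ => mul_ne_zero (zpow_ne_zero _ j.ne_zero)
    (zpow_ne_zero _ ((map_ne_zero _).2 j.ne_zero))) (hz_x l j) <;> rw [hz, if_neg l, θ_tt]
  · exact S.tt_hh f ▸ (S.tt_comm _ _ _ _).mul_left (S.tt_comm _ _ _ _)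
  · rw [map_mul, θ_tt, θ_tt, S.ρρ, (S.tt_comm _ _ _ _).eq]
    congr 2; ext; simp [S.φφ]

theorem hz_mem {z : L} (o : S.Ok z) {j : Kˣ} (hj : S.ρ z = z → S.φ j = j) : S.hz z j ∈ S.Gs := by
  have n := S.Rneg z o.1
  rw [← mul_mem_cancel_right (N_Gs o)]
  rcases o.2 with l | l
  · rw [hz, if_pos l, N_long l, ← n_tt o.1]
    have := U_Gs (yp_long o.1 l (hj l)).mem
    exact mul_mem (mul_mem this (U_Gs (yp_long n (by rw [map_neg, l])
      (by rw [map_inv₀, hj l])).mem)) this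
  · have ne : S.ρ z ≠ z := fun e => by rw [e, S.R2 z o.1] at l; omega
    have e : ∀ s t : K, S.x z s * S.x (-z) t * S.x z s * S.θ (S.x z s * S.x (-z) t * S.x z s) =
        S.x z s * S.θ (S.x z s) * (S.x (-z) t * S.θ (S.x (-z) t)) * (S.x z s * S.θ (S.x z s)) := by
      intro s t
      rw [(c_θ n o.1 (by simp only [map_neg, AddMonoidHom.neg_apply, l, neg_zero, Std.le_refl]) t s).symm.mul_mul_mul_comm, ((c_θ o.1 o.1 l.ge s s).mul_right
        (c_θ o.1 n (by simp only [map_neg, l, neg_zero, Std.le_refl]) s t)).symm.mul_mul_mul_comm, map_mul, map_mul]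
    have c : Commute (S.θ (S.tt j (S.B z))) (S.n z) := by
      rw [θ_tt]
      refine n_comm ?_ ?_ <;> rw [Commute, SemiconjBy, ← mul_inv_eq_iff_eq_mul, S.tt_x] <;>
        simp only [Units.coe_map, MonoidHom.coe_coe, S.symm (S.ρ z), l, zpow_ofNat, pow_zero, mul_one, o.1, map_neg, AddMonoidHom.neg_apply, neg_zero, n]
    have y := U_Gs (yp_short o.1 l j).mem
    have := mul_mem (mul_mem y (U_Gs (yp_short n (by simpa only [map_neg, AddMonoidHom.neg_apply, neg_neg] using l) (j : K)⁻¹).mem)) y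
    rw [← e, n_tt o.1, map_mul, ← c.mul_mul_mul_comm] at this
    rwa [hz, if_neg ne, N, Y_nl o.1 l.le, Y_nl n (by simp [l]), ← e]

variable (S) in
/-- Exact action on a relative root group. -/
def Ex (τ : G) (β : L) (x : K) : Prop := ∀ s g, S.Yp β s g → S.Yp β (x * s) (τ * g * τ⁻¹)

theorem Out.mono {w z : L} {T T' : List L} (h : S.Out w z T) (l : ∀ δ ∈ T, δ ∈ T') : S.Out w z T' :=
  fun g hg k hk => grp_mono (fun δ hδ => inT_mem (l δ hδ)) (h g hg k hk)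

theorem grp_cons {δ : L} {T : List L} (r : S.R δ) (o : ∀ z ∈ T, S.Out δ z T) {g : G}
    (hg : g ∈ S.Grp (δ :: T)) : ∃ y ∈ S.U δ, ∃ k ∈ S.Grp T, g = y * k := by
  have u1 : (1 : G) ∈ S.U δ := ⟨r, map_one _, one_mem _⟩
  induction hg using closure_induction with
  | mem a ha =>
    obtain ⟨z, hz, ha⟩ := ha
    rcases List.mem_cons.1 hz with rfl | hz
    · exact ⟨a, ha, 1, one_mem _, by simp⟩
    · exact ⟨1, u1, a, (inT_mem hz).mem ha, by simp⟩
  | one => exact ⟨1, u1, 1, one_mem _, by simp⟩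
  | mul a b _ _ ha hb =>
    obtain ⟨y, hy, k, hk, rfl⟩ := ha
    obtain ⟨y', hy', k', hk', rfl⟩ := hb
    exact ⟨_, U_mul hy hy', _, mul_mem (nz_conj' (nz_of_out o hy') hk) hk', by group⟩
  | inv a _ ha =>
    obtain ⟨y, hy, k, hk, rfl⟩ := ha
    exact ⟨_, U_inv hy, _, nz_conj (nz_of_out o hy) (inv_mem hk), by group⟩

variable (S) in
/-- An element of `H` with a tracked factor. -/
def Pz (H : Subgroup G) (β : L) (T : List L) (s : K) : Prop :=
  ∃ g r, S.Yp β s g ∧ r ∈ S.Grp T ∧ g * r ∈ H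

theorem tor_core [Finite K] {H : Subgroup G} {τ : G} {w : L ≃+ L} {χ : L → K} (hτ : S.Wm τ w χ)
    (mτ : τ ∈ H) {κ T T' : List L} {β : L} {s x : K} {a g r : G} (t : S.Tor a κ) (y : S.Yp β s g)
    (hr : r ∈ S.Grp T) (mem : a * g * r ∈ H) (fk : κ.map w = κ) (fT : ∀ δ ∈ T ++ T', w δ = δ)
    (ex : S.Ex τ β x) (x1 : x ≠ 1) (o : ∀ w ∈ β :: T, ∀ z ∈ T ++ T', S.Out w z T')
    (sp : ∀ δ ∈ T, S.InT δ T' ∨ (S.R δ ∧ (S.ρ δ = δ ∨ S.B δ (S.ρ δ) = 0 ∨
      (S.B δ (S.ρ δ) = -1 ∧ S.InT (δ + S.ρ δ) T')) ∧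
      ∃ y, S.Ex τ δ y ∧ ∀ n : ℕ, x ≠ y ^ ringChar K ^ n)) {u : K} (hu : Inv x u) :
    S.Pz H β T' (u * s) := by
  have cH : ∀ g ∈ H, τ * g * τ⁻¹ ∈ H := fun g h => mul_mem (mul_mem mτ h) (inv_mem mτ)
  have cG : ∀ l : List L, (∀ δ ∈ l, δ ∈ T) → ∀ r ∈ S.Grp (l ++ T'), τ * r * τ⁻¹ ∈ S.Grp (l ++ T') := by
    intro l hl r hr
    have := hτ.grp hr
    rwa [List.map_congr_left (g := id) fun δ h => fT δ (by grind), List.map_id] at this
  have oo : ∀ l : List L, (∀ δ ∈ l, δ ∈ T) → ∀ w ∈ β :: T, ∀ z ∈ T ++ T', S.Out w z (l ++ T') :=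
    fun l _ w hw z hz => (o w hw z hz).mono (by grind)
  have nz : ∀ l : List L, (∀ δ ∈ l, δ ∈ T) → ∀ w ∈ β :: T, ∀ g ∈ S.U w,
      g ∈ normalizer (S.Grp (l ++ T') : Set G) :=
    fun l hl w hw g hg => nz_of_out (fun z hz => oo l hl w hw z (by grind)) hg
  have key : ∀ l : List L, (∀ δ ∈ l, δ ∈ T) → ∀ c, c ≠ 0 → Inv x c → S.Pz H β (l ++ T') (c * s) →
      ∃ c, c ≠ 0 ∧ Inv x c ∧ S.Pz H β T' (c * s) := by
    intro l
    induction l with
    | nil => exact fun _ c c0 i p => ⟨c, c0, i, p⟩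
    | cons δ l ih =>
      rintro hl c c0 i ⟨g, r, y, hr, mem⟩
      have hl' : ∀ δ ∈ l, δ ∈ T := fun z hz => hl z (by simp [hz])
      have hδ := hl δ (by simp)
      rcases sp δ hδ with p | ⟨rδ, l0, z, ez, sz⟩
      · refine ih hl' c c0 i ⟨g, r, y, grp_mono (fun d hd => ?_) hr, mem⟩
        rcases List.mem_cons.1 hd with rfl | hd
        · obtain ⟨d', h1, h2⟩ := p
          exact ⟨d', by simp [h1], h2⟩
        · exact inT_mem hd
      obtain ⟨k, hk, r1, hr1, rfl⟩ := grp_cons rδ (fun z hz => oo l hl' δ (by simp [hδ]) z (by grind)) hr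
      obtain ⟨b, yb⟩ := U_Yp hk (by tauto)
      obtain ⟨d, d0, i', h⟩ := pair_elim (R := fun a b => ∃ g k r, S.Yp β a g ∧ S.Yp δ b k ∧
        r ∈ S.Grp (l ++ T') ∧ g * k * r ∈ H) (by
          rintro _ _ _ _ ⟨g, k, r, y, z, hr, mem⟩ ⟨g', k', r', y', z', hr', mem'⟩
          refine ⟨_, _, k'⁻¹ * (⁅k⁻¹, g'⁻¹⁆ * (g'⁻¹ * r * g')) * k' * r', y.mul y', z.mul z', mul_mem
            (nz_conj' (nz l hl' δ (by simp [hδ]) _ z'.mem) (mul_mem ?_
            (nz_conj' (nz l hl' β (by simp) _ y'.mem) hr))) hr', ?_⟩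
          · exact (oo l hl' β (by simp) δ (by simp [hδ])).swap _ (U_inv z.mem) _ (U_inv y'.mem)
          · convert mul_mem mem mem' using 1
            simp only [commutatorElement_def]; group)
        ⟨1, 1, 1, y.one, yb.one, one_mem _, by simp⟩ (by
          rintro _ _ ⟨g, k, r, y, z, hr, mem⟩
          refine ⟨_, _, _, ex _ _ y, ez _ _ z, cG l hl' r hr, ?_⟩
          convert cH _ mem using 1; group) sz
      obtain ⟨g', k', r', y', z', hr', mem'⟩ := h _ _ ⟨g, k, r1, y, yb, hr1, by rwa [mul_assoc]⟩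
      refine ih hl' (d * c) (mul_ne_zero d0 c0) (i'.mul i) ⟨g', k' * r', by rwa [mul_assoc],
        mul_mem ?_ hr', by rwa [← mul_assoc]⟩
      rcases l0 with l0 | l0 | ⟨l0, p⟩
      · rw [z'.uniq z'.one (Or.inl l0)]; exact one_mem _
      · rw [z'.uniq z'.one (Or.inr l0)]; exact one_mem _
      · exact grp_mono (fun d hd => inT_mem (by simp [hd])) (p.mem (by simpa using z'.one.uniq_bc z' l0))
  have ca : τ * a * τ⁻¹ = a := (hτ.tconj t).eq t (by simp [fk])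
  have up : r ∈ S.Grp (T ++ T') := grp_mono (fun d hd => inT_mem (by simp [hd])) hr
  have y2 := y.inv.mul (ex _ _ y)
  obtain ⟨c, c0, i, p⟩ := key T (fun _ => id) (x - 1) (sub_ne_zero.2 x1) Inv.pred
    ⟨_, _, by convert y2 using 1; ring, mul_mem (nz_conj' (nz T (fun _ => id) β (by simp) _ y2.mem)
      (inv_mem up)) (cG T (fun _ => id) r up), by
      convert mul_mem (inv_mem mem) (cH _ mem) using 1
      calc _ = (a * g * r)⁻¹ * a * (τ * g * r * τ⁻¹) := by group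
        _ = _ := by nth_rw 2 [← ca]; group⟩
  have := gen_mul (R := S.Pz H β T') (by
      rintro _ _ ⟨g, r, y, hr, mem⟩ ⟨g', r', y', hr', mem'⟩
      refine ⟨_, _, y.mul y', mul_mem (nz_conj' (nz [] (by simp) β (by simp) _ y'.mem) hr) hr', ?_⟩
      convert mul_mem mem mem' using 1; group) ⟨1, 1, y.one, one_mem _, by simp⟩ (by
      rintro _ ⟨g, r, y, hr, mem⟩
      refine ⟨_, _, ex _ _ y, cG [] (by simp) r hr, ?_⟩
      convert cH _ mem using 1; group) (hu.div i) _ p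
  rwa [← mul_assoc, div_mul_cancel₀ _ c0] at this

end St

end Pool.Agent.MP_c78e8e_al.H75

end

section

namespace Pool.Agent.MP_c78e8e_al.H75

open Subgroup Matrix
open scoped commutatorElement

theorem g2a_three {G : Type} [Group G] (N : Subgroup G) (hN : ¬ Group.IsSolvable N) {a b c : G}
    (ma : a ∈ N) (aa : a * a = 1) (hb : ∃ g ∈ N, g * a * g⁻¹ = b) (hc : ∃ g ∈ N, g * a * g⁻¹ = c)
    (cm : Commute a b) (gen : ∀ H : Subgroup G, a ∈ H → b ∈ H → c ∈ H → N ≤ H) :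
    IsLeast {n | Good N n} 3 := by
  obtain ⟨g, mg, rfl⟩ := hb
  obtain ⟨k, mk, rfl⟩ := hc
  refine isLeast_three hN ⟨a, ma⟩ (⟨g, mg⟩ * ⟨a, ma⟩ * ⟨g, mg⟩⁻¹) (⟨k, mk⟩ * ⟨a, ma⟩ * ⟨k, mk⟩⁻¹)
    (Subtype.ext aa) (isConj_iff.2 ⟨_, rfl⟩) (isConj_iff.2 ⟨_, rfl⟩) (Subtype.ext cm.eq) ?_
  rw [eq_top_iff]
  rintro ⟨x, hx⟩ -
  obtain ⟨y, hy, e⟩ := gen (Subgroup.map N.subtype (closure {⟨a, ma⟩, ⟨g, mg⟩ * ⟨a, ma⟩ * ⟨g, mg⟩⁻¹,
    ⟨k, mk⟩ * ⟨a, ma⟩ * ⟨k, mk⟩⁻¹})) ⟨_, subset_closure (Or.inl rfl), rfl⟩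
    ⟨_, subset_closure (Or.inr (Or.inl rfl)), rfl⟩ ⟨_, subset_closure (Or.inr (Or.inr rfl)), rfl⟩ hx
  obtain rfl : y = ⟨x, hx⟩ := Subtype.ext e
  exact hy

theorem g2a_shuffle {G : Type} [Group G] {a b c a' b' c' : G} (h1 : Commute b a') (h2 : Commute c a')
    (h3 : Commute c b') : a * b * c * (a' * b' * c') = a * a' * (b * b') * (c * c') := by
  calc a * b * c * (a' * b' * c') = a * (b * (c * a')) * b' * c' := by group
    _ = a * (a' * b) * (c * b') * c' := by rw [h2.eq, ← mul_assoc b, h1.eq]; group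
    _ = _ := by rw [h3.eq]; group

/-- The commutator of two short root elements at sixty degrees. -/
theorem g2a_fuse1 {G : Type} [Group G] {y0 y1 y2 w0 w1 w2 p : G}
    (d0 : y0 * w0 = p * (w0 * y0)) (d1 : y1 * w1 = p * (w1 * y1)) (d2 : y2 * w2 = p * (w2 * y2))
    (e0 : y0 * w1 = w1 * y0) (e1 : y0 * w2 = w2 * y0) (e2 : y1 * w0 = w0 * y1)
    (e3 : y1 * w2 = w2 * y1) (e4 : y2 * w0 = w0 * y2) (e5 : y2 * w1 = w1 * y2)
    (p1 : y1 * p = p * y1) (p3 : w0 * p = p * w0) (p4 : w1 * p = p * w1) (sp : p * p = 1) :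
    y0 * y1 * y2 * (w0 * w1 * w2) = p * (w0 * w1 * w2) * (y0 * y1 * y2) := by
  have A : ∀ {a b c : G}, a * b = c → ∀ k, a * (b * k) = c * k := fun h k => by rw [← mul_assoc, h]
  simp only [mul_assoc, one_mul, d2, A d0, A d1, A e0, A e1, A e2, A e3, A e4, A e5, A p1,
    A p3, A p4, A sp]

/-- The computation in the unipotent group that fuses the two kinds of involutions. -/
theorem g2a_fuse2 {G : Type} [Group G] {y0 y1 y2 z0 z1 z2 w0 w1 w2 p q : G}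
    (a0 : z0 * y0 = y0 * z0) (a1 : z1 * y1 = y1 * z1) (a2 : z2 * y2 = y2 * z2)
    (b0 : z0 * y1 = w2 * (y1 * z0)) (b1 : z0 * y2 = w1 * (y2 * z0)) (b2 : z1 * y0 = w2 * (y0 * z1))
    (b3 : z1 * y2 = w0 * (y2 * z1)) (b4 : z2 * y0 = w1 * (y0 * z2)) (b5 : z2 * y1 = w0 * (y1 * z2))
    (c1 : z1 * w1 = q * (w1 * z1))
    (c2 : z0 * w1 = w1 * z0) (c3 : z0 * w2 = w2 * z0) (c4 : z1 * w0 = w0 * z1)
    (d0 : y0 * w0 = p * (w0 * y0)) (d1 : y1 * w1 = p * (w1 * y1))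
    (e0 : y0 * w1 = w1 * y0) (e1 : y0 * w2 = w2 * y0) (e2 : y1 * w0 = w0 * y1)
    (f0 : w1 * w0 = w0 * w1) (f1 : w2 * w0 = w0 * w2) (f2 : w2 * w1 = w1 * w2)
    (p0 : y0 * p = p * y0) (p3 : w0 * p = p * w0) (p4 : w1 * p = p * w1) (p5 : w2 * p = p * w2)
    (p7 : z1 * p = p * z1) (q3 : w0 * q = q * w0) (q6 : z0 * q = q * z0) (q7 : p * q = q * p)
    (s0 : w0 * w0 = 1) (s1 : w1 * w1 = 1) (s2 : w2 * w2 = 1) (sp : p * p = 1) :
    z0 * z1 * z2 * (y0 * y1 * y2) = q * p * (y0 * y1 * y2) * (z0 * z1 * z2) := by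
  have A : ∀ {a b c : G}, a * b = c → ∀ k, a * (b * k) = c * k := fun h k => by rw [← mul_assoc, h]
  simp only [mul_assoc, one_mul, a2, A a0, A a1, A b0, A b1, A b2, A b3, A b4, A b5, A c1, A c2,
    A c3, A c4, A d0, A d1, A e0, A e1, A e2, A f0, A f1, A f2, A p0, A p3, A p4, A p5,
    A q3, A q6, A q7, A s0, A s1, A s2, A sp, A p7]

theorem g2a_sol {K : Type} [Field K] [Finite K] (h2 : (2 : K) = 0) (h4 : 4 ≤ Nat.card K) :
    ∃ x : K, x ≠ 0 ∧ Sol x 1 1 ∧ Spn x := by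
  classical
  obtain ⟨g, hg⟩ := IsCyclic.exists_monoid_generator (α := Kˣ)
  have pw : ∀ z : K, z ≠ 0 → ∃ n : ℕ, (g : K) ^ n = z := fun z z0 => by
    obtain ⟨n, e⟩ := hg (Units.mk0 z z0)
    exact ⟨n, by simpa using congrArg Units.val e⟩
  have ch : ringChar K = 2 := by
    have := CharTwo.of_one_ne_zero_of_two_eq_zero (one_ne_zero (α := K)) h2
    exact ringChar.eq K 2
  obtain ⟨z, hz⟩ : ∃ z : K, z ∉ ({0, 1} : Finset K) := by
    by_contra c
    push Not at c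
    have := Fintype.ofFinite K
    have h1 : (Finset.univ : Finset K) ⊆ {0, 1} := fun x _ => c x
    have := (Finset.card_le_card h1).trans Finset.card_le_two
    rw [Finset.card_univ, ← Nat.card_eq_fintype_card] at this
    omega
  simp only [Finset.mem_insert, Finset.mem_singleton, not_or] at hz
  obtain ⟨z0, z1⟩ := hz
  have z2 : z - 1 ≠ 0 := sub_ne_zero.2 z1
  obtain ⟨j, ej⟩ := pw z z0
  obtain ⟨i, ei⟩ := pw _ z2
  obtain ⟨u, eu⟩ := FiniteField.isSquare_of_char_two ch z⁻¹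
  have u0 : u ≠ 0 := by rintro rfl; simp [z0] at eu
  have uz : z * (u * u) = 1 := by rw [← eu, mul_inv_cancel₀ z0]
  refine ⟨g, g.ne_zero, ⟨u, u + 1, z + 1, i, j, u0, fun k => z1 ?_, by linear_combination u * h2,
    by linear_combination uz - u * h2, by rwa [ej], Or.inl ⟨?_, ?_⟩⟩, ?_⟩
  · obtain rfl : u = -1 := eq_neg_of_add_eq_zero_left k
    simpa using uz
  · rw [ei, ej]; linear_combination (1 - z) * h2
  · rw [ei, ej]; exact fun k => one_ne_zero (α := K) (by linear_combination -k)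
  · rw [Spn, eq_top_iff]
    intro y _
    by_cases y0 : y = 0
    · rw [y0]; exact zero_mem _
    · exact AddSubgroup.subset_closure (pw y y0)

theorem g2a_root {K : Type} [Field K] [Finite K] (h2 : (2 : K) = 0) {φ : K →+* K}
    (hφ : ∀ s, φ (φ (φ s)) = s) {x : K} (x0 : x ≠ 0) :
    ∃ j : Kˣ, (j : K) ^ 6 * x = (φ j * φ (φ j)) ^ 2 := by
  have sq : ∀ z : K, z ^ 2 = 1 → z = 1 := fun z h => by
    have : (z - 1) ^ 2 = 0 := by linear_combination h + (1 - z) * h2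
    exact sub_eq_zero.1 (pow_eq_zero_iff two_ne_zero |>.1 this)
  let u : Kˣ →* Kˣ := Units.map (φ : K →* K)
  let f : Kˣ →* Kˣ := (u * u.comp u) ^ 2 / (MonoidHom.id _) ^ 6
  have fv : ∀ j, f j = (u j * u (u j)) ^ 2 / j ^ 6 := fun _ => rfl
  have inj : Function.Injective f := by
    rw [injective_iff_map_eq_one]
    intro j e
    rw [fv, div_eq_one] at e
    have e1 : (φ j * φ (φ j)) ^ 2 = (j : K) ^ 6 := by simpa only [u, Units.val_pow_eq_pow_val, Units.val_mul, Units.coe_map, MonoidHom.coe_coe] using congrArg Units.val e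
    have e2 := congrArg φ e1
    have e3 := congrArg φ e2
    simp only [map_pow, map_mul, hφ] at e2 e3
    have n0 : (j : K) * φ j * φ (φ j) ≠ 0 := by simp
    have : ((j : K) * φ j * φ (φ j)) ^ 2 = 1 := by
      refine mul_left_cancel₀ (pow_ne_zero 4 n0) ?_
      calc _ = (j : K) ^ 6 * φ j ^ 6 * φ (φ j) ^ 6 := by ring
        _ = _ := by rw [← e1, ← e2, ← e3]; ring
    have h8 : (((j : K) ^ 2) ^ 2) ^ 2 = 1 := by linear_combination this - (j : K) ^ 2 * e1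
    exact Units.ext (sq _ (sq _ (sq _ h8)))
  obtain ⟨j, e⟩ := Finite.surjective_of_injective inj (Units.mk0 x x0)
  rw [fv, div_eq_iff_eq_mul] at e
  exact ⟨j, by rw [mul_comm]; simpa [u] using (congrArg Units.val e).symm⟩

namespace St

variable {G L K : Type} [Group G] [AddCommGroup L] [Field K] (S : St G L K)

/-- Exact monomial action on the root elements. -/
def g2Mo (m : G) (w : L → L) : Prop :=
  ∀ γ, S.R γ → S.R (w γ) ∧ ∀ s, m * S.x γ s * m⁻¹ = S.x (w γ) s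

/-- The full torus. -/
def g2T : Subgroup G := closure {g | ∃ j f, g = S.tt j f}

/-- The product of three root elements. -/
def g2X (r : L → L) (φ : K →+* K) (β : L) (s : K) : G :=
  S.x β s * S.x (r β) (φ s) * S.x (r (r β)) (φ (φ s))

/-- The coroot element of a short root. -/
def g2H (r : L → L) (φ : K →+* K) (β : L) (j : Kˣ) : G :=
  S.tt j (S.B β) * S.tt (Units.map (φ : K →* K) j) (S.B (r β)) *
    S.tt (Units.map (φ : K →* K) (Units.map (φ : K →* K) j)) (S.B (r (r β)))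

/-- The Weyl element of a short root. -/
def g2W (r : L → L) (β : L) : G := S.n β * S.n (r β) * S.n (r (r β))

/-- Triality in characteristic two. -/
structure G2d (r : L → L) (φ : K →+* K) : Prop where
  h2 : (2 : K) = 0
  φ3 : ∀ s, φ (φ (φ s)) = s
  r3 : ∀ u, r (r (r u)) = u
  rB : ∀ u v, S.B (r u) (r v) = S.B u v
  rR : ∀ u, S.R u → S.R (r u)
  rn : ∀ u, r (-u) = -r u

variable {S} {r : L → L} {φ : K →+* K}

theorem g2Mo.mul {m m' : G} {w w' : L → L} (h : S.g2Mo m w) (h' : S.g2Mo m' w') :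
    S.g2Mo (m * m') fun γ => w (w' γ) := fun γ hγ =>
  ⟨(h _ (h' γ hγ).1).1, fun s => by rw [← (h _ (h' γ hγ).1).2, ← (h' γ hγ).2]; group⟩

theorem g2_tt_mem (j : Kˣ) (f : L →+ ℤ) : S.tt j f ∈ S.g2T := subset_closure ⟨j, f, rfl⟩

theorem g2_tt_mul (j k : Kˣ) (f : L →+ ℤ) : S.tt (j * k) f = S.tt j f * S.tt k f := by
  rw [← mul_inv_eq_one]
  refine S.tt_one _ (mul_mem (g2_tt_mem _ _) (inv_mem (mul_mem (g2_tt_mem _ _) (g2_tt_mem _ _))))
    fun β h s => ?_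
  have : S.tt j f * S.tt k f * S.x β (((j * k : Kˣ) : K) ^ (-f β) * s) * (S.tt j f * S.tt k f)⁻¹ =
      S.x β s := by
    calc _ = S.tt j f * (S.tt k f * S.x β (((j * k : Kˣ) : K) ^ (-f β) * s) * (S.tt k f)⁻¹) *
          (S.tt j f)⁻¹ := by group
      _ = _ := by
        rw [S.tt_x _ _ _ h, S.tt_x _ _ _ h]; congr 1
        have := zpow_ne_zero (f β) j.ne_zero
        have := zpow_ne_zero (f β) k.ne_zero
        simp only [Units.val_mul, mul_zpow, _root_.zpow_neg]; field_simp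
  calc _ = S.tt (j * k) f * ((S.tt j f * S.tt k f)⁻¹ * S.x β s * (S.tt j f * S.tt k f)) *
        (S.tt (j * k) f)⁻¹ := by group
    _ = S.tt (j * k) f * S.x β (((j * k : Kˣ) : K) ^ (-f β) * s) * (S.tt (j * k) f)⁻¹ := by
        rw [← this]; group
    _ = _ := by
        rw [S.tt_x _ _ _ h]; congr 1
        have := zpow_ne_zero (f β) (j * k).ne_zero
        simp only [_root_.zpow_neg]; field_simp

theorem g2_T_comm {a b : G} (ha : a ∈ S.g2T) (hb : b ∈ S.g2T) : Commute a b := by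
  induction ha using closure_induction with
  | mem a ha =>
    obtain ⟨j, f, rfl⟩ := ha
    induction hb using closure_induction with
    | mem b hb => obtain ⟨k, g, rfl⟩ := hb; exact S.tt_comm _ _ _ _
    | one => exact Commute.one_right _
    | mul _ _ _ _ p q => exact p.mul_right q
    | inv _ _ p => exact p.inv_right
  | one => exact Commute.one_left _
  | mul _ _ _ _ p q => exact p.mul_left q
  | inv _ _ p => exact p.inv_left

theorem g2_H_mem (β : L) (j : Kˣ) : S.g2H r φ β j ∈ S.g2T :=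
  mul_mem (mul_mem (g2_tt_mem _ _) (g2_tt_mem _ _)) (g2_tt_mem _ _)

theorem g2_H_mul (β : L) (j k : Kˣ) : S.g2H r φ β (j * k) = S.g2H r φ β j * S.g2H r φ β k := by
  simp only [g2H, map_mul, g2_tt_mul]
  exact (g2a_shuffle (S.tt_comm _ _ _ _) (S.tt_comm _ _ _ _) (S.tt_comm _ _ _ _)).symm

theorem g2_H_one (β : L) : S.g2H r φ β 1 = 1 := by simpa using g2_H_mul (S := S) (r := r) (φ := φ) β 1 1

theorem g2_uniq {β γ : L} (hβ : S.R β) (hγ : S.R γ) (b : S.B β γ = -1) {s : K} {k : G}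
    (c : Commute k (S.x γ 1)) (e : S.x β s = k) : s = 0 := by
  obtain ⟨ε, he, p, -⟩ := S.x_rel β γ hβ hγ b
  have := p s 1
  rw [e, commutatorElement_eq_one_iff_commute.2 c] at this
  simpa [he.ne] using S.x_eq_one (S.Radd _ _ hβ hγ b) this.symm

namespace G2d

variable (D : S.G2d r φ)
include D

theorem pm {e : K} (h : Pm e) : e = 1 := by
  rcases h with rfl | rfl
  · rfl
  · linear_combination -D.h2

theorem xx {β : L} (h : S.R β) (s : K) : S.x β s * S.x β s = 1 := by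
  rw [← S.x_add β h, ← two_mul, D.h2, zero_mul, S.x_zero h]

theorem rel {β γ δ : L} (hβ : S.R β) (hγ : S.R γ) (b : S.B β γ = -1) (e : β + γ = δ) (s t : K) :
    S.x β s * S.x γ t = S.x δ (s * t) * (S.x γ t * S.x β s) := by
  obtain ⟨ε, he, p, -⟩ := S.x_rel β γ hβ hγ b
  have := p s t
  rw [D.pm he, one_mul, e] at this
  rw [← this, commutatorElement_def]; group

theorem mo_n {β : L} (h : S.R β) : S.g2Mo (S.n β) (S.rf β) := fun γ hγ => by
  obtain ⟨p, e, he, q⟩ := S.n_cj h hγ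
  exact ⟨p, fun s => by rw [q, D.pm he, one_mul]⟩

theorem nn {β : L} (h : S.R β) : S.n β * S.n β = 1 :=
  (S.nsq β h).trans (S.hh_one _ fun _ _ => D.pm (pm_zpow _))

theorem n_nor {β : L} (h : S.R β) : S.n β ∈ normalizer (S.g2T : Set G) := by
  have key : ∀ g ∈ S.g2T, S.n β * g * (S.n β)⁻¹ ∈ S.g2T := by
    intro g hg
    induction hg using closure_induction with
    | mem a ha =>
      obtain ⟨j, f, rfl⟩ := ha
      rw [n, S.tt_n j f β h, mul_inv_cancel_right]; exact g2_tt_mem _ _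
    | one => simp
    | mul a b _ _ p q => convert mul_mem p q using 1; group
    | inv a _ p => convert inv_mem p using 1; group
  refine mem_normalizer_iff.2 fun g => ⟨key g, fun k => ?_⟩
  convert key _ k using 1
  rw [inv_eq_of_mul_eq_one_right (D.nn h)]
  calc g = S.n β * S.n β * g * (S.n β * S.n β) := by rw [D.nn h]; group
    _ = _ := by group

theorem W_nor {β : L} (h : S.R β) : S.g2W r β ∈ normalizer (S.g2T : Set G) :=
  mul_mem (mul_mem (D.n_nor h) (D.n_nor (D.rR _ h))) (D.n_nor (D.rR _ (D.rR _ h)))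

theorem mo_W {β : L} (h : S.R β) :
    S.g2Mo (S.g2W r β) fun γ => S.rf β (S.rf (r β) (S.rf (r (r β)) γ)) :=
  ((D.mo_n h).mul (D.mo_n (D.rR _ h))).mul (D.mo_n (D.rR _ (D.rR _ h)))

theorem mo_X {m : G} {w : L → L} (h : S.g2Mo m w) {γ δ : L} (hγ : S.R γ)
    (e : w γ = δ ∧ w (r γ) = r δ ∧ w (r (r γ)) = r (r δ)) (s : K) :
    m * S.g2X r φ γ s * m⁻¹ = S.g2X r φ δ s := by
  rw [g2X, g2X, ← e.2.2, ← e.2.1, ← e.1, ← (h _ hγ).2, ← (h _ (D.rR _ hγ)).2,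
    ← (h _ (D.rR _ (D.rR _ hγ))).2]
  group

theorem H_X (β : L) (j : Kˣ) {γ : L} (hγ : S.R γ) (s : K) :
    S.g2H r φ β j * S.g2X r φ γ s * (S.g2H r φ β j)⁻¹ = S.g2X r φ γ
      ((j : K) ^ S.B β γ * φ j ^ S.B (r β) γ * φ (φ j) ^ S.B (r (r β)) γ * s) := by
  have key : ∀ γ, S.R γ → ∀ s, S.g2H r φ β j * S.x γ s * (S.g2H r φ β j)⁻¹ =
      S.x γ ((j : K) ^ S.B β γ * φ j ^ S.B (r β) γ * φ (φ j) ^ S.B (r (r β)) γ * s) := by
    intro γ h s
    rw [mul_assoc (_ * _), mul_assoc (_ ^ _), ← S.tt_x j _ _ h]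
    have h1 := S.tt_x (Units.map (φ : K →* K) j) (S.B (r β)) γ h
    have h2 := S.tt_x (Units.map (φ : K →* K) (Units.map (φ : K →* K) j)) (S.B (r (r β))) γ h
    simp only [Units.coe_map, MonoidHom.coe_coe] at h1 h2
    rw [← h1, ← h2, g2H]; group
  have e1 : S.B β (r γ) = S.B (r (r β)) γ := by rw [← D.rB (r (r β)), D.r3]
  have e2 : S.B β (r (r γ)) = S.B (r β) γ := by rw [← D.rB β, D.r3]
  calc _ = (S.g2H r φ β j * S.x γ s * (S.g2H r φ β j)⁻¹) *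
        (S.g2H r φ β j * S.x (r γ) (φ s) * (S.g2H r φ β j)⁻¹) *
        (S.g2H r φ β j * S.x (r (r γ)) (φ (φ s)) * (S.g2H r φ β j)⁻¹) := by rw [g2X]; group
    _ = _ := by
      rw [key _ hγ, key _ (D.rR _ hγ), key _ (D.rR _ (D.rR _ hγ)), g2X]
      simp only [D.rB, e1, e2, map_mul, map_zpow₀, D.φ3]
      congr 3 <;> ring

section short

variable {β : L} (h : S.R β) (o : S.B β (r β) = 0)
include h o

theorem orth : S.B β (r (r β)) = 0 ∧ S.B (r β) β = 0 ∧ S.B (r (r β)) β = 0 ∧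
    S.B (r (r β)) (r β) = 0 ∧ S.B (r β) (r (r β)) = 0 := by
  have e : S.B (r (r β)) β = 0 := by rw [← D.rB, ← D.rB, D.r3, D.rB, o]
  have e' : S.B (r β) β = 0 := by rw [S.symm, o]
  exact ⟨by rw [S.symm, e], e', e, by rw [D.rB, e'], by rw [D.rB, o]⟩

theorem X_add (s t : K) : S.g2X r φ β (s + t) = S.g2X r φ β s * S.g2X r φ β t := by
  obtain ⟨-, o1, o2, o3, -⟩ := D.orth h o
  have h1 := D.rR _ h
  have h2 := D.rR _ h1
  simp only [g2X, map_add, S.x_add _ h, S.x_add _ h1, S.x_add _ h2]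
  exact (g2a_shuffle (S.x_comm _ _ h1 h o1.ge _ _) (S.x_comm _ _ h2 h o2.ge _ _)
    (S.x_comm _ _ h2 h1 o3.ge _ _)).symm

theorem X_rot (s : K) : S.g2X r φ (r β) s = S.g2X r φ β (φ (φ s)) := by
  obtain ⟨-, o1, o2, -⟩ := D.orth h o
  have h1 := D.rR _ h
  rw [g2X, g2X, D.r3, D.φ3, mul_assoc (S.x β _)]
  exact ((S.x_comm _ _ h1 h o1.ge _ _).mul_left (S.x_comm _ _ (D.rR _ h1) h o2.ge _ _)).eq

theorem N_eq (j : Kˣ) : S.g2X r φ β j * S.g2X r φ (-β) (j : K)⁻¹ * S.g2X r φ β j =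
    S.g2H r φ β j * S.g2W r β := by
  obtain ⟨o0, o1, o2, o3, o4⟩ := D.orth h o
  have h1 := D.rR _ h
  have h2 := D.rR _ h1
  have c : ∀ {a b : L}, S.R a → S.R b → S.B a b = 0 → (∀ s t, Commute (S.x a s) (S.x b t)) ∧
      (∀ s t, Commute (S.x a s) (S.x (-b) t)) ∧ (∀ s t, Commute (S.x (-a) s) (S.x b t)) ∧
      ∀ k, Commute (S.tt k (S.B a)) (S.n b) := fun {a b} ha hb e =>
    ⟨S.x_comm _ _ ha hb e.ge, S.x_comm _ _ ha (S.Rneg _ hb) (by simp only [map_neg, e, neg_zero, Std.le_refl]),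
      S.x_comm _ _ (S.Rneg _ ha) hb (by simp only [map_neg, AddMonoidHom.neg_apply, e, neg_zero, Std.le_refl]), fun k => by
        have := S.tt_n k (S.B a) _ hb
        rw [e, zero_smul, sub_zero] at this
        exact this.symm⟩
  obtain ⟨a1, a2, a3, a4⟩ := c h1 h o1
  obtain ⟨b1, b2, b3, b4⟩ := c h2 h o2
  obtain ⟨c1, c2, c3, c4⟩ := c h2 h1 o3
  have t1 := n_tt h1 (Units.map (φ : K →* K) j)
  have t2 := n_tt h2 (Units.map (φ : K →* K) (Units.map (φ : K →* K) j))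
  simp only [Units.coe_map, MonoidHom.coe_coe] at t1 t2
  simp only [g2X, D.rn, map_inv₀]
  rw [g2a_shuffle (a2 _ _) (b2 _ _) (c2 _ _), g2a_shuffle ((a1 _ _).mul_left (a3 _ _))
    ((b1 _ _).mul_left (b3 _ _)) ((c1 _ _).mul_left (c3 _ _)), n_tt h, t1, t2, g2H, g2W,
    g2a_shuffle (a4 _) (b4 _) (c4 _)]

theorem W_eq : S.g2W r β = S.g2X r φ β 1 * S.g2X r φ (-β) 1 * S.g2X r φ β 1 := by
  simpa [g2_H_one] using (D.N_eq h o 1).symm

theorem XX (s : K) : S.g2X r φ β s * S.g2X r φ β s = 1 := by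
  rw [← D.X_add h o, ← two_mul, D.h2, zero_mul]
  simp [g2X, S.x_zero h, S.x_zero (D.rR _ h), S.x_zero (D.rR _ (D.rR _ h))]

theorem W_X (s : K) : S.g2W r β * S.g2X r φ β s * (S.g2W r β)⁻¹ = S.g2X r φ (-β) s := by
  obtain ⟨o0, o1, o2, o3, o4⟩ := D.orth h o
  have q := S.R2 β h
  refine D.mo_X (D.mo_W h) h ?_ s
  simp only [rf, D.rn, D.rB, map_sub, map_zsmul, AddMonoidHom.sub_apply, AddMonoidHom.smul_apply, o,
    o0, o1, o2, q, zero_smul, sub_zero, smul_zero]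
  refine ⟨?_, ?_, ?_⟩ <;> module

theorem psi : ∃ ψ : SL2 K →* G, (∀ s, ψ (mx s) = S.g2X r φ β s) ∧
    ∀ v, ψ (mz v) = S.g2X r φ (-β) v := by
  obtain ⟨o0, o1, o2, o3, o4⟩ := D.orth h o
  have hn := S.Rneg β h
  refine psi_ex _ _ (D.X_add h o) (D.X_add hn (by simp only [map_neg, D.rn, AddMonoidHom.neg_apply, o, neg_zero])) (fun t u t0 => ?_)
    fun t u t0 u0 => ?_
  · have := D.N_eq h o (Units.mk0 t t0)
    rw [Units.val_mk0] at this
    rw [this]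
    calc _ = S.g2H r φ β (Units.mk0 t t0) * (S.g2W r β * S.g2X r φ β u * (S.g2W r β)⁻¹) *
          (S.g2H r φ β (Units.mk0 t t0))⁻¹ := by group
      _ = _ := by
        rw [D.W_X h o, D.H_X _ _ hn]
        simp only [map_neg, S.R2 β h, o1, o2, neg_zero, zpow_zero, Units.val_mk0]
        congr 1; field_simp
  · have h1 := D.N_eq h o (Units.mk0 t t0)
    have h2 := D.N_eq h o (Units.mk0 u u0)
    have h3 := D.N_eq h o (Units.mk0 t t0 * Units.mk0 u u0)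
    simp only [Units.val_mul, Units.val_mk0] at h1 h2 h3
    rw [h1, h2, h3, ← D.W_eq h o, g2_H_mul]; group

end short

end G2d

end St

end Pool.Agent.MP_c78e8e_al.H75

end

section

namespace Pool.Agent.MP_c78e8e_al.H75

open Subgroup Matrix
open scoped commutatorElement

/-- The form of type `D₄`. -/
def g2bb (u v : Fin 4 → ℤ) : ℤ := u 0 * (2 * v 0 - v 1) + u 1 * (2 * v 1 - v 0 - v 2 - v 3) +
  u 2 * (2 * v 2 - v 1) + u 3 * (2 * v 3 - v 1)

/-- Triality on the root lattice. -/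
def g2r (u : Fin 4 → ℤ) : Fin 4 → ℤ := ![u 3, u 1, u 0, u 2]

/-- Reflections. -/
def g2rf (β v : Fin 4 → ℤ) : Fin 4 → ℤ := fun i => v i - g2bb v β * β i

theorem g2b_fm (u v : Fin 4 → ℤ) : fm (CartanMatrix.D 4) u v = g2bb u v := by
  simp only [CartanMatrix.D, Nat.reduceLeDiff, ↓ reduceIte, Int.reduceNeg, Nat.reduceEqDiff, ← fm_apply, form_eq, of_apply, ite_mul, neg_mul, one_mul, zero_mul, Fin.sum_univ_succ, Fin.isValue, Fin.coe_ofNat_eq_mod, Nat.zero_mod, Nat.add_eq_zero_iff, Fin.val_eq_zero_iff, one_ne_zero, and_false, zero_add, Nat.reduceLT, and_true, OfNat.zero_ne_ofNat, or_self, zero_ne_one, false_and, Fin.val_succ, Nat.add_right_cancel_iff, Nat.add_eq_right, Fin.succ_zero_eq_one, Nat.reduceAdd, Nat.lt_add_one, true_and, Fin.succ_ne_zero, Fin.succ_one_eq_two, lt_self_iff_false, or_false, Finset.univ_unique, Fin.default_eq_zero, Fin.val_eq_zero, or_true, Finset.sum_singleton, Fin.reduceSucc,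 Fin.reduceEq, OfNat.ofNat_ne_zero, add_zero, Nat.right_eq_add, and_self, OfNat.one_ne_ofNat, g2bb]; ring

theorem g2b_roots {β : Fin 4 → ℤ} (h : g2bb β β = 2) :
    (g2r β = β ∧ ∃ γ ∈ [![1, 1, 1, 1], ![0, 1, 0, 0], -![1, 2, 1, 1]], β = γ ∨ β = -γ) ∨
    (g2bb β (g2r β) = 0 ∧ (∃ γ ∈ [![1, 0, 0, 0], -![1, 0, 0, 0], ![1, 1, 0, 0], -![1, 1, 0, 0],
      ![0, 1, 1, 1], -![0, 1, 1, 1]], β = γ ∨ β = g2r γ ∨ β = g2r (g2r γ)) ∧
      ∃ γ, g2bb γ γ = 2 ∧ g2bb β γ = -1 ∧ 0 ≤ g2bb (g2r β) γ ∧ 0 ≤ g2bb (g2r (g2r β)) γ) := by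
  let l : List (Fin 4 → ℤ) := [![1, 0, 0, 0], ![0, 1, 0, 0], ![0, 0, 1, 0], ![0, 0, 0, 1],
    ![1, 1, 0, 0], ![0, 1, 1, 0], ![0, 1, 0, 1], ![0, 1, 1, 1], ![1, 1, 0, 1], ![1, 1, 1, 0],
    ![1, 1, 1, 1], ![1, 2, 1, 1]]
  have m : β ∈ l ++ l.map Neg.neg := by
    have cl : ∀ γ ∈ l, ∀ i : Fin 4, g2bb γ (Pi.single i 1) = -1 → γ + Pi.single i 1 ∈ l := by
      decide +kernel
    have := (goodD (r := 4) (by omega)).roots_ind (· ∈ l) (by decide)
      (fun γ i _ p q => cl γ p i (by rwa [← g2b_fm])) β (by rwa [g2b_fm])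
    rcases this with p | p
    · exact List.mem_append_left _ p
    · exact List.mem_append_right _ (List.mem_map.2 ⟨_, p, neg_neg β⟩)
  have : ∀ β ∈ l ++ l.map Neg.neg, (g2r β = β ∧ ∃ γ ∈ [![1, 1, 1, 1], ![0, 1, 0, 0], -![1, 2, 1, 1]],
      β = γ ∨ β = -γ) ∨ (g2bb β (g2r β) = 0 ∧ (∃ γ ∈ [![1, 0, 0, 0], -![1, 0, 0, 0], ![1, 1, 0, 0],
      -![1, 1, 0, 0], ![0, 1, 1, 1], -![0, 1, 1, 1]], β = γ ∨ β = g2r γ ∨ β = g2r (g2r γ)) ∧
      ∃ γ ∈ l ++ l.map Neg.neg, g2bb γ γ = 2 ∧ g2bb β γ = -1 ∧ 0 ≤ g2bb (g2r β) γ ∧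
        0 ≤ g2bb (g2r (g2r β)) γ) := by decide +kernel
  rcases this β m with p | ⟨p, q, γ, -, k⟩
  exacts [Or.inl p, Or.inr ⟨p, q, γ, k⟩]

namespace St

variable {G K : Type} [Group G] [Field K] {S : St G (Fin 4 → ℤ) K} {φ : K →+* K}

theorem g2b_main [Finite K] (hB : ∀ u v, S.B u v = g2bb u v) (hR : ∀ u, g2bb u u = 2 → S.R u)
    (D : S.G2d g2r φ) (h4 : 4 ≤ Nat.card K) (N : Subgroup G)
    (N1 : ∀ β, S.R β → S.B β (g2r β) = 0 → ∀ s, S.g2X g2r φ β s ∈ N)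
    (N2 : S.x ![1, 2, 1, 1] 1 ∈ N ∧ S.x (-![1, 2, 1, 1]) 1 ∈ N)
    (N3 : ∀ H : Subgroup G, (∀ β, S.R β → S.B β (g2r β) = 0 → ∀ s, S.g2X g2r φ β s ∈ H) →
      (∀ β, S.R β → g2r β = β → ∀ s, φ s = s → S.x β s ∈ H) → N ≤ H) :
    IsLeast {n | Good N n} 3 := by
  obtain ⟨a, ha⟩ : ∃ a : Fin 4 → ℤ, a = ![1, 0, 0, 0] := ⟨_, rfl⟩
  obtain ⟨b, hb⟩ : ∃ a : Fin 4 → ℤ, a = ![1, 1, 0, 0] := ⟨_, rfl⟩
  obtain ⟨c, hc⟩ : ∃ a : Fin 4 → ℤ, a = ![0, 1, 1, 1] := ⟨_, rfl⟩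
  obtain ⟨p, hp⟩ : ∃ a : Fin 4 → ℤ, a = ![1, 1, 1, 1] := ⟨_, rfl⟩
  obtain ⟨q, hq⟩ : ∃ a : Fin 4 → ℤ, a = ![1, 2, 1, 1] := ⟨_, rfl⟩
  rw [← hq] at N2
  have rf : S.rf = g2rf := by
    ext β v i; simp [St.rf, g2rf, hB]
  have ra : S.R a ∧ S.B a (g2r a) = 0 := ⟨hR _ (by rw [ha]; decide), by rw [hB, ha]; decide⟩
  have rb : S.R b ∧ S.B b (g2r b) = 0 := ⟨hR _ (by rw [hb]; decide), by rw [hB, hb]; decide⟩
  have rc : S.R c ∧ S.B c (g2r c) = 0 := ⟨hR _ (by rw [hc]; decide), by rw [hB, hc]; decide⟩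
  have rp : S.R p := hR _ (by rw [hp]; decide)
  have rq : S.R q := hR _ (by rw [hq]; decide)
  have ng : ∀ {β}, S.R β ∧ S.B β (g2r β) = 0 → S.R (-β) ∧ S.B (-β) (g2r (-β)) = 0 := fun h =>
    ⟨S.Rneg _ h.1, by simp only [map_neg, D.rn, AddMonoidHom.neg_apply, h.2, neg_zero]⟩
  have cm : ∀ {β γ}, g2bb β β = 2 ∧ g2bb γ γ = 2 ∧ 0 ≤ g2bb β γ → ∀ {s t},
      S.x β s * S.x γ t = S.x γ t * S.x β s := fun h =>
    S.x_comm _ _ (hR _ h.1) (hR _ h.2.1) (by rw [hB]; exact h.2.2) _ _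
  have rl : ∀ {β γ δ}, g2bb β β = 2 ∧ g2bb γ γ = 2 ∧ g2bb β γ = -1 ∧ β + γ = δ → ∀ s,
      S.x β s * S.x γ 1 = S.x δ s * (S.x γ 1 * S.x β s) := fun h s => by
    simpa only [mul_one] using D.rel (hR _ h.1) (hR _ h.2.1) (by rw [hB]; exact h.2.2.1) h.2.2.2 s 1
  have sq : ∀ {β}, g2bb β β = 2 → ∀ {s}, S.x β s * S.x β s = 1 := fun h => D.xx (hR _ h) _
  have F1 : ∀ s, φ s = s → S.g2X g2r φ a s * S.g2X g2r φ c 1 =
      S.x p s * S.g2X g2r φ c 1 * S.g2X g2r φ a s := fun s e => by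
    simp only [g2X, e, map_one]
    subst ha hc hp
    exact g2a_fuse1 (rl (by decide) _) (rl (by decide) _) (rl (by decide) _) (cm (by decide))
      (cm (by decide)) (cm (by decide)) (cm (by decide)) (cm (by decide)) (cm (by decide))
      (cm (by decide)) (cm (by decide)) (cm (by decide)) (sq (by decide))
  have F2 : S.g2X g2r φ b 1 * S.g2X g2r φ a 1 =
      S.x q 1 * S.x p 1 * S.g2X g2r φ a 1 * S.g2X g2r φ b 1 := by
    simp only [g2X, map_one]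
    subst ha hb hc hp hq
    exact g2a_fuse2 (w0 := S.x ![0, 1, 1, 1] 1) (w1 := S.x (g2r ![0, 1, 1, 1]) 1)
      (w2 := S.x (g2r (g2r ![0, 1, 1, 1])) 1) (cm (by decide)) (cm (by decide)) (cm (by decide))
      (rl (by decide) _) (rl (by decide) _) (rl (by decide) _) (rl (by decide) _) (rl (by decide) _)
      (rl (by decide) _) (rl (by decide) _) (cm (by decide)) (cm (by decide)) (cm (by decide))
      (rl (by decide) _) (rl (by decide) _) (cm (by decide)) (cm (by decide)) (cm (by decide))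
      (cm (by decide)) (cm (by decide)) (cm (by decide)) (cm (by decide)) (cm (by decide))
      (cm (by decide)) (cm (by decide)) (cm (by decide)) (cm (by decide)) (cm (by decide))
      (cm (by decide)) (sq (by decide)) (sq (by decide)) (sq (by decide)) (sq (by decide))
  have cx : ∀ {β γ}, g2bb β β = 2 ∧ g2bb γ γ = 2 ∧ 0 ≤ g2bb β γ ∧ 0 ≤ g2bb β (g2r γ) ∧
      0 ≤ g2bb β (g2r (g2r γ)) → Commute (S.x β 1) (S.g2X g2r φ γ 1) := fun h =>
    have r1 := hR _ h.1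
    have r2 := hR _ h.2.1
    ((S.x_comm _ _ r1 r2 (by rw [hB]; exact h.2.2.1) _ _).mul_right (S.x_comm _ _ r1 (D.rR _ r2)
      (by rw [hB]; exact h.2.2.2.1) _ _)).mul_right (S.x_comm _ _ r1 (D.rR _ (D.rR _ r2))
      (by rw [hB]; exact h.2.2.2.2) _ _)
  have c1 : Commute (S.x q 1) (S.g2X g2r φ a 1) := cx (by rw [hq, ha]; decide)
  have c2 : Commute (S.x q 1) (S.g2X g2r φ (-a) 1) := cx (by rw [hq, ha]; decide)
  have c3 : Commute (S.x (-q) 1) (S.g2X g2r φ a 1) := cx (by rw [hq, ha]; decide)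
  have c4 : Commute (S.x q 1) (S.g2X g2r φ c 1) := cx (by rw [hq, hc]; decide)
  -- monomial elements
  have mA := D.mo_W ra.1
  have mB := D.mo_W rb.1
  have mD := mA.mul (D.mo_n rq)
  rw [rf] at mA mB mD
  obtain ⟨d, hd⟩ : ∃ d, d = S.g2W g2r a * S.n q := ⟨_, rfl⟩
  rw [← hd] at mD
  have dX : ∀ γ ∈ [a, -a, b, -b, c, -c], ∀ s, d * S.g2X g2r φ γ s * d⁻¹ = S.g2X g2r φ (-γ) s :=
    fun γ h => D.mo_X mD (hR _ (by revert γ; rw [ha, hb, hc]; decide))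
      (by revert γ; rw [ha, hb, hc, hq]; decide)
  have bX : ∀ γ ∈ [(a, c), (-a, -c), (c, a), (-c, -a)], ∀ s, S.g2W g2r b * S.g2X g2r φ γ.1 s *
      (S.g2W g2r b)⁻¹ = S.g2X g2r φ γ.2 s :=
    fun γ h => D.mo_X mB (hR _ (by revert γ; rw [ha, hc]; decide))
      (by revert γ; rw [ha, hb, hc]; decide)
  have aX : ∀ γ ∈ [(c, b), (-c, -b)], ∀ s, S.g2W g2r a * S.g2X g2r φ γ.1 s *
      (S.g2W g2r a)⁻¹ = S.g2X g2r φ γ.2 s :=
    fun γ h => D.mo_X mA (hR _ (by revert γ; rw [hb, hc]; decide))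
      (by revert γ; rw [ha, hb, hc]; decide)
  have dq : d * S.x q 1 * d⁻¹ = S.x (-q) 1 := by
    rw [(mD q rq).2]; congr 1; rw [ha, hq]; decide
  simp only [List.forall_mem_cons, neg_neg] at dX bX aX
  obtain ⟨d1, d2, d3, d4, d5, d6, -⟩ := dX
  obtain ⟨b1, b2, b3, b4, -⟩ := bX
  obtain ⟨a1, a2, -⟩ := aX
  obtain ⟨ψ, ψx, ψz⟩ := D.psi ra.1 ra.2
  have ψw : ψ mw = S.g2W g2r a := by rw [mw_eq, map_mul, map_mul, ψx, ψz, D.W_eq ra.1 ra.2]
  have ψd : ∀ j, ψ (mdg j) = S.g2H g2r φ a j := fun j => by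
    rw [mdg_eq, map_mul, map_mul, map_mul, map_inv, ψx, ψz, ψw, D.N_eq ra.1 ra.2, mul_inv_cancel_right]
  have ψN : ∀ A, ψ A ∈ N := sl2_gen (fun s => ψx s ▸ N1 _ ra.1 ra.2 s)
    fun s => ψz s ▸ N1 _ (ng ra).1 (ng ra).2 s
  have wa : S.g2W g2r a ∈ N := ψw ▸ ψN _
  have wb : S.g2W g2r b ∈ N := by
    rw [D.W_eq rb.1 rb.2]
    exact mul_mem (mul_mem (N1 _ rb.1 rb.2 _) (N1 _ (ng rb).1 (ng rb).2 _)) (N1 _ rb.1 rb.2 _)
  have dN : d ∈ N := hd ▸ mul_mem wa (mul_mem (mul_mem N2.1 N2.2) N2.1)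
  have YY := D.XX ra.1 ra.2 1
  have qq := D.xx rq 1
  have pp := D.xx rp 1
  obtain ⟨g, gN, gd⟩ : ∃ g ∈ N, g * S.g2X g2r φ a 1 * g⁻¹ = d := by
    have e1 : (S.g2X g2r φ c 1)⁻¹ * S.g2X g2r φ b 1 * S.g2X g2r φ a 1 *
        ((S.g2X g2r φ c 1)⁻¹ * S.g2X g2r φ b 1)⁻¹ = S.g2X g2r φ a 1 * S.x q 1 := by
      calc _ = (S.g2X g2r φ c 1)⁻¹ * (S.x q 1 * S.x p 1 * (S.g2X g2r φ a 1 * S.g2X g2r φ c 1)) := by
            rw [mul_assoc _ (S.g2X g2r φ b 1), F2]; group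
        _ = (S.g2X g2r φ c 1)⁻¹ * (S.x q 1 * (S.x p 1 * S.x p 1) * S.g2X g2r φ c 1) *
            S.g2X g2r φ a 1 := by rw [F1 1 (map_one _)]; group
        _ = _ := by rw [pp, mul_one, c4.eq, ← c1.eq]; group
    have i1 : (S.g2X g2r φ a 1 * S.x q 1)⁻¹ = S.g2X g2r φ a 1 * S.x q 1 :=
      inv_eq_of_mul_eq_one_right (by rw [c1.mul_mul_mul_comm, YY, qq, mul_one])
    refine ⟨S.g2X g2r φ a 1 * S.x q 1 * d * ((S.g2X g2r φ c 1)⁻¹ * S.g2X g2r φ b 1), mul_mem (mul_mem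
      (mul_mem (N1 _ ra.1 ra.2 _) N2.1) dN) (mul_mem (inv_mem (N1 _ rc.1 rc.2 _)) (N1 _ rb.1 rb.2 _)), ?_⟩
    calc _ = S.g2X g2r φ a 1 * S.x q 1 * (d * ((S.g2X g2r φ c 1)⁻¹ * S.g2X g2r φ b 1 * S.g2X g2r φ a 1 *
        ((S.g2X g2r φ c 1)⁻¹ * S.g2X g2r φ b 1)⁻¹) * d⁻¹) * (S.g2X g2r φ a 1 * S.x q 1)⁻¹ := by group
      _ = S.g2X g2r φ a 1 * S.x q 1 * ((d * S.g2X g2r φ a 1 * d⁻¹) * (d * S.x q 1 * d⁻¹)) *
          (S.g2X g2r φ a 1 * S.x q 1) := by rw [e1, i1]; group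
      _ = _ := by
        rw [d1, dq, c2.mul_mul_mul_comm, (c1.mul_left c3).mul_mul_mul_comm, hd, D.W_eq ra.1 ra.2, n]
  have dd : d * d = 1 := by
    rw [← gd]
    calc _ = g * (S.g2X g2r φ a 1 * S.g2X g2r φ a 1) * g⁻¹ := by group
      _ = 1 := by rw [YY]; group
  have di : d⁻¹ = d := inv_eq_of_mul_eq_one_right dd
  have BB := D.XX rb.1 rb.2 1
  have bi : (S.g2X g2r φ b 1)⁻¹ = S.g2X g2r φ b 1 := inv_eq_of_mul_eq_one_right BB
  have wB : S.g2X g2r φ b 1 * S.g2X g2r φ (-b) 1 * (S.g2X g2r φ b 1)⁻¹ = S.g2W g2r b := by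
    rw [bi, D.W_eq rb.1 rb.2]
  have wi : (S.g2W g2r b)⁻¹ = S.g2W g2r b := by
    rw [← wB, conj_inv, inv_eq_of_mul_eq_one_right (D.XX (ng rb).1 (ng rb).2 1)]
  have dw : d * S.g2W g2r b * d⁻¹ = S.g2W g2r b := by
    have e := D.W_X rb.1 rb.2 1
    rw [mul_inv_eq_iff_eq_mul, D.W_eq rb.1 rb.2, mul_assoc _ _ (S.g2X g2r φ b 1), BB, mul_one] at e
    calc _ = (d * S.g2X g2r φ b 1 * d⁻¹) * (d * S.g2X g2r φ (-b) 1 * d⁻¹) *
          (d * S.g2X g2r φ b 1 * d⁻¹) := by rw [D.W_eq rb.1 rb.2]; group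
      _ = S.g2X g2r φ (-b) 1 * (S.g2X g2r φ b 1 * S.g2X g2r φ (-b) 1 * S.g2X g2r φ b 1) *
          (S.g2X g2r φ b 1)⁻¹ := by rw [d3, d4]; group
      _ = _ := by rw [← e, wB]
  obtain ⟨x, x0, ⟨u, y, l, i, j, u0, y0, h, hl, x1, cs⟩, sp⟩ := g2a_sol D.h2 h4
  obtain ⟨μ, hμ⟩ := g2a_root D.h2 D.φ3 x0
  have ti : (S.g2H g2r φ a μ)⁻¹ = S.g2H g2r φ a μ⁻¹ :=
    inv_eq_of_mul_eq_one_right (by rw [← g2_H_mul, mul_inv_cancel, g2_H_one])
  obtain ⟨k, hk⟩ : ∃ k, k = S.g2H g2r φ a μ * S.g2W g2r b * (S.g2H g2r φ a μ)⁻¹ := ⟨_, rfl⟩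
  have kX : ∀ γ δ, S.R γ → S.R δ → (∀ s, S.g2W g2r b * S.g2X g2r φ γ s * (S.g2W g2r b)⁻¹ =
      S.g2X g2r φ δ s) → ∀ s, k * S.g2X g2r φ γ s * k⁻¹ = S.g2X g2r φ δ
      ((μ : K) ^ g2bb a δ * φ μ ^ g2bb (g2r a) δ * φ (φ μ) ^ g2bb (g2r (g2r a)) δ *
        ((μ : K)⁻¹ ^ g2bb a γ * (φ μ)⁻¹ ^ g2bb (g2r a) γ * (φ (φ μ))⁻¹ ^ g2bb (g2r (g2r a)) γ * s)) := by
    intro γ δ r1 r2 e s
    have h1 := D.H_X a μ⁻¹ r1 s
    simp only [Units.val_inv_eq_inv_val, map_inv₀, hB] at h1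
    simp only [← hB] at h1 ⊢
    rw [← D.H_X a μ r2, ← e, ← h1, ← ti, hk]; group
  have v1 : g2bb a a = 2 ∧ g2bb (g2r a) a = 0 ∧ g2bb (g2r (g2r a)) a = 0 ∧ g2bb a (-a) = -2 ∧
      g2bb (g2r a) (-a) = 0 ∧ g2bb (g2r (g2r a)) (-a) = 0 ∧ g2bb a c = -1 ∧ g2bb (g2r a) c = 1 ∧
      g2bb (g2r (g2r a)) c = 1 ∧ g2bb a (-c) = 1 ∧ g2bb (g2r a) (-c) = -1 ∧
      g2bb (g2r (g2r a)) (-c) = -1 := by rw [ha, hc]; decide
  have k1 := kX _ _ ra.1 rc.1 b1
  have k2 := kX _ _ (ng ra).1 (ng rc).1 b2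
  have k3 := kX _ _ rc.1 ra.1 b3
  have k4 := kX _ _ (ng rc).1 (ng ra).1 b4
  simp only [v1] at k1 k2 k3 k4
  have cj : ∀ z : G, d * k * d * k * z * (d * k * d * k)⁻¹ =
      d * (k * (d * (k * z * k⁻¹) * d⁻¹) * k⁻¹) * d⁻¹ := fun z => by group
  have n0 := μ.ne_zero
  have n1 : φ μ ≠ 0 := by simp
  have n2 : φ (φ μ) ≠ 0 := by simp
  have aτ : Act ψ (d * k * d * k) !![x, 0; 0, 1] := by
    refine act_diag x0 (fun s => ?_) fun s => ?_
    · rw [ψx, ψx, cj, k1, d5, k4, d2]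
      congr 1
      simp only [_root_.zpow_neg, zpow_ofNat, pow_zero, pow_one]
      field_simp
      linear_combination -s * hμ
    · rw [ψz, ψz, cj, k2, d6, k3, d1]
      congr 1
      simp only [_root_.zpow_neg, zpow_ofNat, pow_zero, pow_one]
      field_simp
      linear_combination s * hμ
  have nd : d ∈ normalizer (S.g2T : Set G) := hd ▸ mul_mem (D.W_nor ra.1) (D.n_nor rq)
  have tT : d * k * d * k ∈ S.g2T := by
    have t := g2_H_mem (S := S) (r := g2r) (φ := φ) a μ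
    have := mul_mem (mul_mem ((mem_normalizer_iff.1 nd _).1 t) ((mem_normalizer_iff.1 (D.W_nor rb.1) _).1
      (mul_mem ((mem_normalizer_iff.1 nd _).1 (inv_mem t)) t))) (inv_mem t)
    convert this using 1
    rw [hk, wi]
    nth_rw 3 [← dw]
    nth_rw 2 [← di]
    group
  have m1 : (-1 : K) = 1 := by linear_combination -D.h2
  have ad : Act ψ d !![0, 1; 1, 0] := by
    have := act_anti (ψ := ψ) (g := d) one_ne_zero (fun s => by rw [ψx, ψz, d1, one_mul])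
      fun s => by rw [ψx, ψz, d2, div_one]
    rwa [inv_one, m1] at this
  have ab : Act ψ 1 !![1, 0; 0, 1] := act_diag one_ne_zero (by simp) (by simp)
  have e1 : (1 : K) * 1 = 1 := one_mul 1
  have e0 : g⁻¹ * d * g = S.g2X g2r φ a 1 := by rw [← gd]; group
  obtain ⟨A, hA⟩ := ab.conj (M := mz 1)
    (M' := mM u y 1 1 e1 h) (by simp [mz, trace_fin_two, one_add_one_eq_two, D.h2])
    (by simp [mM, trace_fin_two]) (by simp [mz]) (by simpa [mM] using y0)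
  rw [one_mul, ψz, ← D.W_X ra.1 ra.2, ← e0] at hA
  refine g2a_three N (sl2_not_solvable h4 (fun e => ?_) ψN) dN dd
    ⟨ψ A * S.g2W g2r a * g⁻¹, mul_mem (mul_mem (ψN _) wa) (inv_mem gN), by rw [← hA]; group⟩ (c := k)
    ⟨S.g2H g2r φ a μ * S.g2X g2r φ b 1 * S.g2W g2r a * S.g2W g2r b * S.g2W g2r a * g⁻¹,
      mul_mem (mul_mem (mul_mem (mul_mem (mul_mem (ψd μ ▸ ψN _) (N1 _ rb.1 rb.2 _)) wa) wb) wa)
      (inv_mem gN), ?_⟩
    (r1_comm e1 h ad ab (by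
      rw [one_mul, ← map_mul, ← map_one ψ]; congr 1; ext i j
      fin_cases i <;> fin_cases j <;> simp [mw, m1]) (by simp)) fun H p1 p2 p3 => ?_
  · rw [ψx, g2X, mul_assoc, mul_eq_one_iff_eq_inv] at e
    refine one_ne_zero (g2_uniq ra.1 rc.1 (by rw [hB, v1.2.2.2.2.2.2.1]) (Commute.inv_left ?_) e)
    exact (S.x_comm _ _ (D.rR _ ra.1) rc.1 (by simp [hB, v1]) _ _).mul_left
      (S.x_comm _ _ (D.rR _ (D.rR _ ra.1)) rc.1 (by simp [hB, v1]) _ _)
  · calc _ = S.g2H g2r φ a μ * (S.g2X g2r φ b 1 * (S.g2W g2r a * (S.g2W g2r b * (S.g2W g2r a *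
          (g⁻¹ * d * g) * (S.g2W g2r a)⁻¹) * (S.g2W g2r b)⁻¹) * (S.g2W g2r a)⁻¹) *
          (S.g2X g2r φ b 1)⁻¹) * (S.g2H g2r φ a μ)⁻¹ := by group
      _ = _ := by rw [e0, D.W_X ra.1 ra.2, b2, a2, wB, hk]
  have hψ := r1 e1 h u0 y0 hl x1 cs sp (fun a ha a' ha' _ _ => by
      rw [commutatorElement_eq_one_iff_commute.2 (g2_T_comm ha ha')]; exact Commute.one_left _)
    (ψw ▸ D.W_nor ra.1) (fun j => ψd j ▸ le_normalizer (g2_H_mem _ _)) tT aτ nd ad (one_mem _) ab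
    (mul_mem (mul_mem (mul_mem p1 p3) p1) p3) p1 p2
  have wa : S.g2W g2r a ∈ H := ψw ▸ hψ _
  have wb : S.g2W g2r b ∈ H := by
    have t : S.g2H g2r φ a μ ∈ H := ψd μ ▸ hψ _
    rwa [hk, mul_mem_cancel_right (inv_mem t), mul_mem_cancel_left t] at p3
  have cj : ∀ {m z : G}, m ∈ H → z ∈ H → m * z * m⁻¹ ∈ H := fun p q => mul_mem (mul_mem p q) (inv_mem p)
  have s1 : ∀ s, S.g2X g2r φ a s ∈ H := fun s => ψx s ▸ hψ _
  have s2 : ∀ s, S.g2X g2r φ (-a) s ∈ H := fun s => ψz s ▸ hψ _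
  have s3 : ∀ s, S.g2X g2r φ c s ∈ H := fun s => b1 s ▸ cj wb (s1 s)
  have s4 : ∀ s, S.g2X g2r φ (-c) s ∈ H := fun s => b2 s ▸ cj wb (s2 s)
  have s5 : ∀ s, S.g2X g2r φ b s ∈ H := fun s => a1 s ▸ cj wa (s3 s)
  have s6 : ∀ s, S.g2X g2r φ (-b) s ∈ H := fun s => a2 s ▸ cj wa (s4 s)
  refine N3 H (fun β r o => ?_) fun β r o s e => ?_
  · rcases g2b_roots ((hB β β).symm.trans (S.R2 β r)) with ⟨f, -⟩ | ⟨-, ⟨γ, f, f'⟩, -⟩
    · rw [f, S.R2 β r] at o; omega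
    have : (S.R γ ∧ S.B γ (g2r γ) = 0) ∧ ∀ s, S.g2X g2r φ γ s ∈ H := by
      rw [← ha, ← hb, ← hc] at f
      simp only [List.mem_cons, List.not_mem_nil, or_false] at f
      rcases f with rfl | rfl | rfl | rfl | rfl | rfl
      exacts [⟨ra, s1⟩, ⟨ng ra, s2⟩, ⟨rb, s5⟩, ⟨ng rb, s6⟩, ⟨rc, s3⟩, ⟨ng rc, s4⟩]
    obtain ⟨⟨r', o'⟩, t⟩ := this
    rcases f' with rfl | rfl | rfl
    · exact t
    · exact fun s => D.X_rot r' o' s ▸ t _
    · exact fun s => by rw [D.X_rot (D.rR _ r') (by rw [D.rB, o']), D.X_rot r' o']; exact t _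
  · have l1 : S.x p s ∈ H := by
      have := mul_mem (s1 s) (s3 1)
      rwa [F1 s e, mul_mem_cancel_right (s1 s), mul_mem_cancel_right (s3 1)] at this
    have mv : ∀ {m w γ δ}, S.g2Mo m w → m ∈ H → g2bb γ γ = 2 ∧ w γ = δ → S.x γ s ∈ H → S.x δ s ∈ H :=
      fun h1 h2 h3 h4 => by rw [← h3.2, ← (h1 _ (hR _ h3.1)).2]; exact cj h2 h4
    have l2 : S.x ![0, 1, 0, 0] s ∈ H := mv mA wa (by rw [ha, hp]; decide) l1
    have l3 : S.x (-q) s ∈ H := mv mB wb (by rw [hb, hq]; decide) l2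
    rcases g2b_roots ((hB β β).symm.trans (S.R2 β r)) with ⟨-, γ, f, f'⟩ | ⟨f, -⟩
    · rw [← hp, ← hq] at f
      simp only [List.mem_cons, List.not_mem_nil, or_false] at f
      rcases f with rfl | rfl | rfl <;> rcases f' with rfl | rfl
      exacts [l1, mv mD p1 (by rw [ha, hp, hq]; decide) l1, l2, mv mD p1 (by rw [ha, hq]; decide) l2,
        l3, mv mD p1 (by rw [ha, hq]; decide) l3]
    · rw [o, ← hB, S.R2 β r] at f; omega

end St

section model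

variable {K : Type} [Field K] {φ : K →+* K} {r : ℕ} {C : Matrix (Fin r) (Fin r) ℤ}
  {ρ : Equiv.Perm (Fin r)}

theorem g2b_sigma (h2 : (2 : K) = 0) (hρC : ∀ i j, C (ρ i) (ρ j) = C i j) (β : Fin r → ℤ) (s : K)
    (v : Lie C K) : sigma C ρ φ (xo C (β ∘ ρ) s v) = xo C β (φ s) (sigma C ρ φ v) := by
  have m1 : (-1 : K) = 1 := by linear_combination -h2
  have cs : ∀ v u, co C (sigma C ρ φ v) u = φ (co C v (u ∘ ρ)) := fun v u => by
    rw [co_sigma hρC, m1, _root_.one_zpow, one_mul]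
  have sf : ∀ (v : Lie C K) i, (sigma C ρ φ v).1 i = φ (v.1 (ρ⁻¹ i)) := fun _ _ => rfl
  have ep1 : ∀ u w, ep C K u w = 1 := fun u w => by rw [ep, m1, _root_.one_zpow]
  have inj : ∀ u, u ∘ ρ = β ∘ ρ ↔ u = β := fun u => ρ.surjective.right_cancellable
  refine lie_ext (funext fun i => ?_) fun u hu => ?_
  · simp [sf, xo_fst, cs, Pi.neg_comp]
  · have : hb C β (sigma C ρ φ v).1 = φ (hb C (β ∘ ρ) v.1) := by
      simp only [hb, map_sum, map_mul, map_intCast, sf]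
      rw [← Equiv.sum_comp ρ]
      refine Finset.sum_congr rfl fun j _ => ?_
      rw [← fm_ρ hρC β]
      congr 3
      · ext i; simp [Pi.single_apply]
      · simp
    rw [cs, co_xo (by rwa [fm_ρ hρC]), co_xo hu]
    simp only [inj, ep1, cs, this, Pi.neg_comp, Pi.sub_comp, one_mul]
    split_ifs <;> simp

theorem g2b_surj [Finite K] (h2 : (2 : K) = 0) (hρC : ∀ i j, C (ρ i) (ρ j) = C i j) :
    Function.Surjective (sigma C ρ φ) := by
  have m1 : (-1 : K) = 1 := by linear_combination -h2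
  have sj : Function.Surjective φ := Finite.surjective_of_injective φ.injective
  intro v
  refine ⟨(fun i => Function.surjInv sj (v.1 (ρ i)), fun u => Function.surjInv sj
    (co C v (u.1 ∘ ⇑ρ⁻¹))), lie_ext (funext fun i => ?_) fun u hu => ?_⟩
  · simp only [sigma, Equiv.Perm.coe_inv, Equiv.apply_symm_apply, Function.surjInv_eq]
  · rw [co_sigma hρC, m1, _root_.one_zpow, one_mul, co_root (by rwa [fm_ρ hρC])]
    simp [Function.surjInv_eq, Function.comp_assoc]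

end model

/-- The groups `G₂ (q)` and `³D₄ (q)` in characteristic two. -/
theorem tG2e {K : Type} [Field K] [Finite K] {φ : K →+* K} (hφ : ∀ s, φ (φ (φ s)) = s)
    (h2 : (2 : K) = 0) (h : Nat.card K ≠ 2) : IsLeast {n | Good
      (chev (CartanMatrix.D 4) (Equiv.swap 0 3 * Equiv.swap 0 2) φ) n} 3 := by
  have hC := goodD (r := 4) (by omega)
  obtain ⟨ρ, hρ⟩ : ∃ ρ : Equiv.Perm (Fin 4), ρ = Equiv.swap 0 3 * Equiv.swap 0 2 := ⟨_, rfl⟩
  have hρC : ∀ i j, CartanMatrix.D 4 (ρ i) (ρ j) = CartanMatrix.D 4 i j := by rw [hρ]; decide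
  have rr : ∀ u, g2r u ∘ ρ = u := fun u => by rw [hρ]; ext i; fin_cases i <;> rfl
  have r3 : ∀ u, g2r (g2r (g2r u)) = u := fun u => by ext i; fin_cases i <;> rfl
  have rB : ∀ u v, g2bb (g2r u) (g2r v) = g2bb u v := fun u v => by simp only [g2bb, g2r, Fin.isValue, cons_val_zero, cons_val_one, cons_val]; ring
  rw [← hρ]
  obtain ⟨S, hB, hR, hx⟩ : ∃ S : St (Equiv.Perm (Lie (CartanMatrix.D 4) K)) (Fin 4 → ℤ) K,
      (∀ u v, S.B u v = g2bb u v) ∧ (∀ u, S.R u ↔ fm (CartanMatrix.D 4) u u = 2) ∧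
      ∀ β s, S.x β s = hC.xx β s :=
    ⟨model (ρ := 1) (φ := RingHom.id K) (fun _ => rfl) (fun _ _ => rfl) (fun _ => rfl) hC 1 0 0
      (by simp) (by simp only [Equiv.Perm.coe_one, CompTriple.comp_eq, AddMonoidHom.zero_apply, implies_true]) (fun β _ _ => by
        rw [show (-1 : K) = 1 by linear_combination -h2, _root_.one_zpow]), g2b_fm, fun _ => Iff.rfl,
      fun β s => by simp [model]⟩
  have D : S.G2d g2r φ := ⟨h2, hφ, r3, fun u v => by rw [hB, hB, rB],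
    fun u p => by rwa [hR, g2b_fm, rB, ← g2b_fm, ← hR], fun u => by ext i; fin_cases i <;> rfl⟩
  let Tw : Equiv.Perm (Lie (CartanMatrix.D 4) K) → Equiv.Perm (Lie (CartanMatrix.D 4) K) → Prop :=
    fun g k => ∀ v, k (sigma _ ρ φ v) = sigma _ ρ φ (g v)
  have Tm : ∀ {g k g' k'}, Tw g k → Tw g' k' → Tw (g * g') (k * k') := fun p q v => by
    rw [Equiv.Perm.mul_apply, q, p, Equiv.Perm.mul_apply]
  have Tu : ∀ {g k k'}, Tw g k → Tw g k' → k = k' := fun p q => Equiv.ext fun v => by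
    obtain ⟨v, rfl⟩ := g2b_surj (φ := φ) h2 hρC v
    rw [p, q]
  have Tx : ∀ β, S.R β → ∀ s, Tw (S.x β s) (S.x (g2r β) (φ s)) := fun β p s v => by
    rw [hx, hx, hC.xx_apply ((hR _).1 p), hC.xx_apply ((hR _).1 (D.rR _ p)), ← g2b_sigma h2 hρC, rr]
  have rg : ∀ β, S.R β → rootGroup (CartanMatrix.D 4) K β = Set.range (S.x β) := fun β p => by
    ext g
    exact exists_congr fun t => by
      rw [hx, eq_comm, Equiv.ext_iff]
      exact forall_congr' fun v => by rw [hC.xx_apply ((hR _).1 p)]; rfl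
  have r1 : ∀ u, u ∘ ρ = g2r (g2r u) := fun u => by rw [← rr (g2r (g2r u)), r3]
  have pw : ∀ (β : Fin 4 → ℤ) (k : ℕ), β ∘ ⇑(ρ ^ (k + 1)) = g2r (g2r (β ∘ ⇑(ρ ^ k))) := fun β k => by
    rw [pow_succ, Equiv.Perm.coe_mul, ← Function.comp_assoc, r1]
  have un : ∀ β, S.R β → ⋃ k : ℕ, rootGroup (CartanMatrix.D 4) K (β ∘ ⇑(ρ ^ k)) =
      Set.range (S.x β) ∪ Set.range (S.x (g2r β)) ∪ Set.range (S.x (g2r (g2r β))) := fun β p => by
    rw [← rg _ p, ← rg _ (D.rR _ p), ← rg _ (D.rR _ (D.rR _ p))]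
    have : ∀ k : ℕ, β ∘ ⇑(ρ ^ k) = β ∨ β ∘ ⇑(ρ ^ k) = g2r β ∨ β ∘ ⇑(ρ ^ k) = g2r (g2r β) := by
      intro k
      induction k with
      | zero => simp
      | succ k ih => rw [pw]; rcases ih with e | e | e <;> simp [e, r3]
    refine le_antisymm (Set.iUnion_subset fun k => ?_) (Set.union_subset (Set.union_subset ?_ ?_) ?_)
    · rcases this k with e | e | e <;> rw [e] <;> intro g hg <;> simp [hg]
    · exact Set.subset_iUnion_of_subset 0 (by simp)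
    · exact Set.subset_iUnion_of_subset 2 (by rw [pw, pow_one, r1, r3])
    · exact Set.subset_iUnion_of_subset 1 (by simp [r1])
  have L : ∀ β, S.R β → g2r β = β → S.x β 1 ∈ chev (CartanMatrix.D 4) ρ φ := fun β p e =>
    subset_closure ⟨by simpa only [e, map_one] using Tx β p 1, ⟨β, (hR _).1 p⟩,
      subset_closure (by rw [un β p]; exact Or.inl (Or.inl ⟨_, rfl⟩))⟩
  have h4 : 4 ≤ Nat.card K := by
    have := Fintype.ofFinite K
    have ch := CharTwo.of_one_ne_zero_of_two_eq_zero (one_ne_zero (α := K)) h2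
    obtain ⟨⟨n, n0⟩, -, e⟩ := FiniteField.card K 2
    rw [Nat.card_eq_fintype_card, e] at h ⊢
    obtain rfl | n2 : n = 1 ∨ 2 ≤ n := by omega
    · exact absurd rfl h
    · exact Nat.pow_le_pow_right (n := 2) two_pos n2
  refine St.g2b_main hB (fun u p => (hR u).2 (by rwa [g2b_fm])) D h4 _ (fun β p o s => ?_)
    ⟨L _ ((hR _).2 (by decide)) (by decide), L _ ((hR _).2 (by decide)) (by decide)⟩
    fun H p1 p2 => ?_
  · refine subset_closure ⟨?_, ⟨β, (hR _).1 p⟩, ?_⟩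
    · have := Tm (Tm (Tx β p s) (Tx _ (D.rR _ p) (φ s))) (Tx _ (D.rR _ (D.rR _ p)) (φ (φ s)))
      have e := D.X_rot p o (φ s)
      rw [hφ] at e
      rwa [show _ * _ * _ = _ from e] at this
    · rw [un β p]
      exact mul_mem (mul_mem (subset_closure (Or.inl (Or.inl ⟨_, rfl⟩)))
        (subset_closure (Or.inl (Or.inr ⟨_, rfl⟩)))) (subset_closure (Or.inr ⟨_, rfl⟩))
  rw [chev, closure_le]
  rintro g ⟨t, ⟨β, hβ⟩, hg⟩
  have p := (hR β).2 hβ
  have p' := D.rR _ p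
  have p'' := D.rR _ p'
  rw [un β p] at hg
  rcases g2b_roots ((g2b_fm β β).symm.trans hβ) with ⟨f, -⟩ | ⟨o, -, -⟩
  · obtain ⟨s, rfl⟩ : ∃ s, S.x β s = g := by
      simp only [f, Set.union_self] at hg
      clear t
      induction hg using closure_induction with
      | mem a ha => exact ha
      | one => exact ⟨0, S.x_zero p⟩
      | mul a b _ _ p1 p2 => obtain ⟨s, rfl⟩ := p1; obtain ⟨t, rfl⟩ := p2; exact ⟨_, S.x_add _ p s t⟩
      | inv a _ p1 => obtain ⟨s, rfl⟩ := p1; exact ⟨_, S.x_neg p s⟩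
    exact p2 β p f s (S.x_injective p (by simpa only [f] using Tu (Tx β p s) t))
  rw [← hB] at o
  obtain ⟨o0, o1, o2, o3, o4⟩ := D.orth p o
  have c1 := S.x_comm _ _ p' p o1.ge
  have c2 := S.x_comm _ _ p'' p o2.ge
  have c3 := S.x_comm _ _ p'' p' o3.ge
  have ad : ∀ a b c a' b' c', S.x β a * S.x (g2r β) b * S.x (g2r (g2r β)) c *
      (S.x β a' * S.x (g2r β) b' * S.x (g2r (g2r β)) c') =
      S.x β (a + a') * S.x (g2r β) (b + b') * S.x (g2r (g2r β)) (c + c') := fun a b c a' b' c' => by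
    rw [g2a_shuffle (c1 _ _) (c2 _ _) (c3 _ _), S.x_add _ p, S.x_add _ p', S.x_add _ p'']
  have z : S.x β 0 * S.x (g2r β) 0 * S.x (g2r (g2r β)) 0 = 1 := by
    simp [S.x_zero p, S.x_zero p', S.x_zero p'']
  obtain ⟨a, b, c, rfl⟩ : ∃ a b c, S.x β a * S.x (g2r β) b * S.x (g2r (g2r β)) c = g := by
    clear t
    induction hg using closure_induction with
    | mem a ha =>
      rcases ha with (⟨s, rfl⟩ | ⟨s, rfl⟩) | ⟨s, rfl⟩
      exacts [⟨s, 0, 0, by simp [S.x_zero p', S.x_zero p'']⟩, ⟨0, s, 0, by simp [S.x_zero p, S.x_zero p'']⟩,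
        ⟨0, 0, s, by simp [S.x_zero p, S.x_zero p']⟩]
    | one => exact ⟨0, 0, 0, z⟩
    | mul a b _ _ p1 p2 =>
      obtain ⟨_, _, _, rfl⟩ := p1; obtain ⟨_, _, _, rfl⟩ := p2; exact ⟨_, _, _, (ad ..).symm⟩
    | inv a _ p1 =>
      obtain ⟨a, b, c, rfl⟩ := p1
      exact ⟨-a, -b, -c, eq_inv_of_mul_eq_one_left (by simp [ad, z])⟩
  have e := Tu t (Tm (Tm (Tx β p a) (Tx _ p' b)) (Tx _ p'' c))
  rw [r3, ((c1 _ _).mul_left (c2 _ _)).eq, ← mul_assoc] at e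
  have e' : S.x β (a - φ c) * S.x (g2r β) (b - φ a) * S.x (g2r (g2r β)) (c - φ b) = 1 := by
    simp only [sub_eq_add_neg]
    rw [← ad, e, ad]; simp [z]
  have U : ∀ β, S.R β → S.B β (g2r β) = 0 → ∀ a b c,
      S.x β a * (S.x (g2r β) b * S.x (g2r (g2r β)) c) = 1 → a = 0 := fun β p o a b c e => by
    rcases g2b_roots ((hB β β).symm.trans (S.R2 β p)) with ⟨f, -⟩ | ⟨-, -, γ, g1, g2, g3, g4⟩
    · rw [f, S.R2 β p] at o; omega
    have q := (hR γ).2 (by rwa [g2b_fm])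
    exact St.g2_uniq p q (by rwa [hB]) (((S.x_comm _ _ (D.rR _ p) q (by rwa [hB]) _ _).mul_left
      (S.x_comm _ _ (D.rR _ (D.rR _ p)) q (by rwa [hB]) _ _)).inv_left) (eq_inv_of_mul_eq_one_left e)
  have e1 := U _ p' o4 (b - φ a) (c - φ b) (a - φ c) (by
    rw [r3, ← mul_assoc, ((c1 _ _).mul_left (c2 _ _)).eq, ← mul_assoc, e'])
  have e2 := U _ p'' (by rw [r3, o2]) (c - φ b) (a - φ c) (b - φ a) (by
    rw [r3, ((c2 _ _).mul_right (c3 _ _)).eq, e'])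
  rw [sub_eq_zero] at e1 e2
  rw [e2, e1]
  exact p1 β p o a

end Pool.Agent.MP_c78e8e_al.H75

end

section

namespace Pool.Agent.MP_c78e8e_al.H75

open Subgroup Matrix
open scoped commutatorElement

theorem g2p_split {G : Type} [Group G] {x y z : G} (h1 : z * x * z⁻¹ = x⁻¹) (h2 : z * y * z⁻¹ = y⁻¹) :
    x * y * z * (x * y)⁻¹ = x * (y * y) * x * z := by
  calc _ = x * y * (z * y * z⁻¹)⁻¹ * (z * x * z⁻¹)⁻¹ * z := by group
    _ = _ := by rw [h1, h2]; group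

theorem g2p_fuse {G : Type} [Group G] {y0 y1 y2 w0 w1 w2 p0 p1 p2 : G}
    (d0 : y0 * w0 = p0 * (w0 * y0)) (d1 : y1 * w1 = p1 * (w1 * y1)) (d2 : y2 * w2 = p2 * (w2 * y2))
    (e0 : y0 * w1 = w1 * y0) (e1 : y0 * w2 = w2 * y0) (e2 : y1 * w0 = w0 * y1)
    (e3 : y1 * w2 = w2 * y1) (e4 : y2 * w0 = w0 * y2) (e5 : y2 * w1 = w1 * y2)
    (a1 : y0 * p1 = p1 * y0) (a2 : y0 * p2 = p2 * y0) (a3 : y1 * p2 = p2 * y1)
    (b1 : w0 * p1 = p1 * w0) (b2 : w0 * p2 = p2 * w0) (b3 : w1 * p2 = p2 * w1) :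
    y0 * y1 * y2 * (w0 * w1 * w2) = p0 * p1 * p2 * (w0 * w1 * w2) * (y0 * y1 * y2) := by
  have A : ∀ {a b c : G}, a * b = c → ∀ k, a * (b * k) = c * k := fun h k => by rw [← mul_assoc, h]
  calc _ = y0 * w0 * (y1 * w1) * (y2 * w2) := g2a_shuffle e2 e4 e5
    _ = _ := by
      rw [d0, d1, d2]
      simp only [mul_assoc, A e0, A e1, A e3, A a1, A a2, A a3, A b1, A b2, A b3]

theorem g2p_sol {K : Type} [Field K] [Finite K] (h2 : (2 : K) ≠ 0) (h4 : 4 ≤ Nat.card K) :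
    ∃ x : K, x ≠ 0 ∧ x ≠ 1 ∧ (∀ w, w ≠ 0 → Sol x (x * w ^ 2) (-1)) ∧ Spn x := by
  obtain ⟨g, hg⟩ := IsCyclic.exists_monoid_generator (α := Kˣ)
  have pw : ∀ z : K, z ≠ 0 → ∃ n : ℕ, (g : K) ^ n = z := fun z z0 => by
    obtain ⟨n, e⟩ := hg (Units.mk0 z z0)
    exact ⟨n, by simpa using congrArg Units.val e⟩
  have g0 := g.ne_zero
  have ns : ∀ m : K, (g : K) * m ^ 2 ≠ 1 := fun m e => by
    obtain ⟨a, ha⟩ := FiniteField.exists_nonsquare (F := K) fun k => h2 (by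
      have := ringChar.Nat.cast_ringChar (R := K); rwa [k] at this)
    obtain ⟨n, rfl⟩ := pw a fun k => ha (k ▸ IsSquare.zero)
    exact ha (IsSquare.pow n ⟨g * m, by linear_combination (-g : K) * e⟩)
  obtain ⟨m, m0, hm⟩ := sl2e_avoid [((0 : K), (g : K)⁻¹)] h4
  have k : 1 + (g : K) * m ^ 2 ≠ 0 := fun e => hm _ List.mem_cons_self (by
    field_simp; linear_combination e)
  obtain ⟨v, v0, v1, v2⟩ : ∃ v : K, v ≠ 0 ∧ v ≠ -2 ∧ (1 - v ^ 2) * (1 + g * m ^ 2) ^ 2 = 4 * g * m ^ 2 := by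
    have p : (1 - g * m ^ 2) / (1 + g * m ^ 2) ≠ (0 : K) := div_ne_zero (sub_ne_zero.2 (ns m).symm) k
    have q : (1 - ((1 - g * m ^ 2) / (1 + g * m ^ 2)) ^ 2) * (1 + g * m ^ 2) ^ 2 = (4 * g * m ^ 2 : K) := by
      field_simp; ring
    by_cases c : (1 - g * m ^ 2) / (1 + g * m ^ 2) = (-2 : K)
    · refine ⟨2, h2, fun e => mul_ne_zero h2 h2 (by linear_combination e), ?_⟩
      rw [c] at q; linear_combination q
    · exact ⟨_, p, c, q⟩
  have s0 : 1 + v ≠ 0 := fun e => mul_ne_zero (mul_ne_zero (mul_ne_zero h2 h2) g0) (pow_ne_zero 2 m0)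
    (by linear_combination -v2 + (1 - v) * (1 + g * m ^ 2) ^ 2 * e)
  refine ⟨g, g0, fun e => ns 1 (by simp [e]), fun w w0 => sl2e_rec (mul_ne_zero g0 (pow_ne_zero 2 w0))
    (pw _ s0) (pw _ (inv_ne_zero s0)) s0 (by simpa using v0) (fun e => v1 (by linear_combination e))
    ⟨2 * g * m * w / (1 + g * m ^ 2), div_ne_zero (by simp [h2, m0, w0]) k, ?_⟩, ?_⟩
  · field_simp
    linear_combination v2
  · rw [Spn, eq_top_iff]
    intro y _
    by_cases y0 : y = 0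
    · rw [y0]; exact zero_mem _
    · exact AddSubgroup.subset_closure (pw y y0)

theorem g2p_root {K : Type} [Field K] [Finite K] {φ : K →+* K} (hφ : ∀ s, φ (φ (φ s)) = s) {x : K}
    (x0 : x ≠ 0) : ∃ j : Kˣ, (j : K) ^ 3 * x = φ j * φ (φ j) := by
  let u : Kˣ →* Kˣ := Units.map (φ : K →* K)
  let f : Kˣ →* Kˣ := (u * u.comp u) / (MonoidHom.id _) ^ 3
  have fv : ∀ j, f j = (u j * u (u j)) / j ^ 3 := fun _ => rfl
  have inj : Function.Injective f := by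
    rw [injective_iff_map_eq_one]
    intro j e
    rw [fv, div_eq_one] at e
    have e1 : φ j * φ (φ j) = (j : K) ^ 3 := by simpa [u] using congrArg Units.val e
    have e2 := congrArg φ e1
    have e3 := congrArg φ e2
    simp only [map_pow, map_mul, hφ] at e2 e3
    have n0 : (j : K) * φ j * φ (φ j) ≠ 0 := by simp
    have h1 : (j : K) * φ j * φ (φ j) = 1 := by
      refine mul_left_cancel₀ (pow_ne_zero 2 n0) ?_
      calc _ = (j : K) ^ 3 * φ j ^ 3 * φ (φ j) ^ 3 := by ring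
        _ = _ := by rw [← e1, ← e2, ← e3]; ring
    have h4 : (j : K) ^ 2 * j ^ 2 = 1 := by linear_combination h1 - (j : K) * e1
    have h5 : φ j ^ 2 = (j : K) ^ 2 := by
      rw [← map_pow]; rcases mul_self_eq_one_iff.1 h4 with k | k <;> simp only [k, map_one, map_neg]
    have h6 : φ j = j := by
      rcases sq_eq_sq_iff_eq_or_eq_neg.1 h5 with k | k
      · exact k
      · have := hφ j
        simp only [k, map_neg, neg_neg] at this
        rw [k, this]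
    rw [h6, h6] at h1
    exact Units.ext (by simp only [Units.val_one]; linear_combination h4 - (j : K) * h1)
  obtain ⟨j, e⟩ := Finite.surjective_of_injective inj (Units.mk0 x x0)
  rw [fv, div_eq_iff_eq_mul] at e
  exact ⟨j, by rw [mul_comm]; simpa only [Units.val_mul, Units.val_mk0, Units.val_pow_eq_pow_val, u, Units.coe_map, MonoidHom.coe_coe] using (congrArg Units.val e).symm⟩

theorem g2p_tr {K : Type} [Field K] {φ : K →+* K} (hφ : ∀ s, φ (φ (φ s)) = s)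
    (h : (3 : K) ≠ 0 ∨ ∃ a, φ a ≠ a) {s : K} (e : φ s = s) : ∃ u, u + φ u + φ (φ u) = s := by
  obtain ⟨u, hu⟩ : ∃ u, u + φ u + φ (φ u) ≠ 0 := by
    rcases h with h | ⟨a, h⟩
    · exact ⟨1, by simp only [map_one]; exact fun k => h (by linear_combination k)⟩
    by_contra c
    push Not at c
    have h1 := c (a * a)
    have h2 := c a
    have h3 := c 1
    simp only [map_mul, map_one] at h1 h3
    have : (φ a - a) * (φ a - φ (φ a)) = 0 := by
      linear_combination h1 - (a + φ (φ a)) * h2 + a * φ (φ a) * h3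
    exact h (φ.injective (sub_eq_zero.1 ((mul_eq_zero.1 this).resolve_left (sub_ne_zero.2 h)))).symm
  have t : φ (u + φ u + φ (φ u)) = u + φ u + φ (φ u) := by simp only [map_add, hφ]; ring
  refine ⟨s * u / (u + φ u + φ (φ u)), ?_⟩
  simp only [map_div₀, map_mul, t, e]
  field_simp

/-- The product over an orbit of the triality. -/
def g3Tr {G : Type} [Group G] (θ : G →* G) (g : G) : G := g * θ g * θ (θ g)

theorem g3Tr_conj {G : Type} [Group G] {θ : G →* G} {m : G} (h : θ m = m) (g : G) :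
    m * g3Tr θ g * m⁻¹ = g3Tr θ (m * g * m⁻¹) := by
  simp only [g3Tr, map_mul, map_inv, h]; group

namespace St

variable {G L K : Type} [Group G] [AddCommGroup L] [Field K] (S : St G L K)

/-- Monomial elements with arbitrary weights. -/
structure g3Mw (m : G) (w : L → L) : Prop where
  add : ∀ u v, w (u + v) = w u + w v
  iso : ∀ u v, S.B (w u) (w v) = S.B u v
  cj : ∀ γ, S.R γ → S.R (w γ) ∧ ∃ k, k ≠ 0 ∧ ∀ s, m * S.x γ s * m⁻¹ = S.x (w γ) (k * s)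

/-- Triality. -/
structure G3 (r : L → L) (φ : K →+* K) (θ : G →* G) : Prop where
  φ3 : ∀ s, φ (φ (φ s)) = s
  r3 : ∀ u, r (r (r u)) = u
  rB : ∀ u v, S.B (r u) (r v) = S.B u v
  rR : ∀ u, S.R u → S.R (r u)
  rn : ∀ u, r (-u) = -r u
  θ3 : ∀ g, θ (θ (θ g)) = g
  θx : ∀ β, S.R β → ∃ η, Pm η ∧ (∀ s, θ (S.x β s) = S.x (r β) (η * φ s)) ∧
    ∀ s, θ (S.x (-β) s) = S.x (-r β) (η * φ s)
  θl : ∀ β, S.R β → r β = β → ∀ s, θ (S.x β s) = S.x β (φ s)

variable {S} {r : L → L} {φ : K →+* K} {θ : G →* G}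

theorem g3_nself {β : L} (h : S.R β) (s : K) : S.n β * S.x β s * (S.n β)⁻¹ = S.x (-β) s := by
  obtain ⟨γ, hγ, b⟩ := S.nbr β h
  have hδ := S.Radd _ _ h hγ b
  obtain ⟨e0, p0, r1, r2⟩ := S.x_rel β γ h hγ b
  obtain ⟨⟨f, pf, q1⟩, f', -, q2⟩ := S.n_string h hγ b
  obtain ⟨-, e, -, q⟩ := S.n_cj h h
  rw [show S.rf β β = -β by rw [rf, S.R2 β h]; module] at q
  have k1 : f' * f = -1 := S.x_injective hγ (by
    have := S.hh_x (S.B β) γ hγ 1
    rw [← S.nsq β h, b] at this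
    rw [← mul_one f, ← q2, ← q1, show (-1 : K) = (-1) ^ (-1 : ℤ) * 1 by simp, ← this, n]; group)
  have k2 := S.x_injective hγ ((r2 (e * 1) (f * 1)).symm.trans (by
    rw [← q, ← q1, ← conjugate_commutatorElement, r1, q2]))
  rw [q, show e = 1 by
    linear_combination (-e0 * f) * k2 - k1 - (f' * f + e * f * f) * p0.sq - e * pf.sq, one_mul]

theorem g3_nneg {β : L} (h : S.R β) (s : K) : S.n β * S.x (-β) s * (S.n β)⁻¹ = S.x β s := by
  have := S.hh_x (S.B β) β h s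
  rw [← S.nsq β h, S.R2 β h] at this
  rw [Even.neg_zpow even_two, _root_.one_zpow, one_mul] at this
  rw [← g3_nself h]
  conv_rhs => rw [← this]
  rw [n]; group

theorem g3_tt_one (f : L →+ ℤ) : S.tt 1 f = 1 := by simpa using g2_tt_mul (S := S) 1 1 f

theorem g3_psi0 {β : L} (h : S.R β) : ∃ ψ : SL2 K →* G, (∀ s, ψ (mx s) = S.x β s) ∧
    ∀ v, ψ (mz v) = S.x (-β) v := by
  have hn := S.Rneg β h
  refine psi_ex _ _ (S.x_add β h) (S.x_add _ hn) (fun t u t0 => ?_) fun t u t0 u0 => ?_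
  · have := n_tt h (Units.mk0 t t0)
    rw [Units.val_mk0] at this
    rw [this]
    calc _ = S.tt (Units.mk0 t t0) (S.B β) * (S.n β * S.x β u * (S.n β)⁻¹) *
          (S.tt (Units.mk0 t t0) (S.B β))⁻¹ := by group
      _ = _ := by
        rw [g3_nself h, S.tt_x _ _ _ hn]
        simp only [map_neg, S.R2 β h, Units.val_mk0]
        congr 1; field_simp
  · have h1 := n_tt h (Units.mk0 t t0)
    have h2 := n_tt h (Units.mk0 u u0)
    have h3 := n_tt h (Units.mk0 t t0 * Units.mk0 u u0)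
    simp only [Units.val_mul, Units.val_mk0] at h1 h2 h3
    rw [h1, h2, h3, g2_tt_mul, n]; group

theorem g3Mw.mul {m m' : G} {w w' : L → L} (h : S.g3Mw m w) (h' : S.g3Mw m' w') :
    S.g3Mw (m * m') fun γ => w (w' γ) where
  add u v := by rw [h'.add, h.add]
  iso u v := by rw [h.iso, h'.iso]
  cj γ hγ := by
    obtain ⟨p', k', n', q'⟩ := h'.cj γ hγ
    obtain ⟨p, k, n, q⟩ := h.cj _ p'
    exact ⟨p, k * k', mul_ne_zero n n', fun s => by rw [mul_assoc k, ← q, ← q']; group⟩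

theorem g3_mw_T {g : G} (h : g ∈ S.g2T) : S.g3Mw g fun γ => γ := by
  refine ⟨fun _ _ => rfl, fun _ _ => rfl, fun γ hγ => ⟨hγ, ?_⟩⟩
  induction h using closure_induction with
  | mem a ha => obtain ⟨j, f, rfl⟩ := ha; exact ⟨_, zpow_ne_zero _ j.ne_zero, S.tt_x j f γ hγ⟩
  | one => exact ⟨1, one_ne_zero, by simp⟩
  | mul a b _ _ p q =>
    obtain ⟨k, n, p⟩ := p
    obtain ⟨k', n', q⟩ := q
    exact ⟨k * k', mul_ne_zero n n', fun s => by rw [mul_assoc k, ← p, ← q]; group⟩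
  | inv a _ p =>
    obtain ⟨k, n, p⟩ := p
    refine ⟨k⁻¹, inv_ne_zero n, fun s => ?_⟩
    conv_lhs => rw [← mul_inv_cancel_left₀ n s, ← p]
    group

theorem g3_mw_n {β : L} (h : S.R β) : S.g3Mw (S.n β) (S.rf β) where
  add u v := by simp only [rf, map_add, AddMonoidHom.add_apply]; module
  iso u v := by
    simp only [rf, map_sub, map_zsmul, AddMonoidHom.sub_apply, AddMonoidHom.smul_apply, smul_eq_mul,
      S.R2 β h, S.symm β v]; ring
  cj γ hγ := by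
    obtain ⟨p, e, he, q⟩ := S.n_cj h hγ
    exact ⟨p, e, he.ne, q⟩

theorem g3Mw.neg {m : G} {w : L → L} (h : S.g3Mw m w) {γ : L} (hγ : S.R γ) {k : K}
    (e : ∀ s, m * S.x γ s * m⁻¹ = S.x (w γ) (k * s)) (s : K) :
    m * S.x (-γ) s * m⁻¹ = S.x (-w γ) (s / k) := by
  obtain ⟨δ, hδ, b⟩ := S.nbr γ hγ
  have hs := S.Radd _ _ hγ hδ b
  obtain ⟨p1, -⟩ := h.cj γ hγ
  obtain ⟨p2, k2, n2, q2⟩ := h.cj δ hδ
  obtain ⟨p3, k3, n3, q3⟩ := h.cj _ hs
  obtain ⟨-, k4, n4, q4⟩ := h.cj _ (S.Rneg γ hγ)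
  have z : w 0 = 0 := by simpa using h.add 0 0
  rw [show w (-γ) = -w γ from eq_neg_of_add_eq_zero_left (by rw [← h.add, neg_add_cancel, z])] at q4
  rw [h.add] at p3 q3
  obtain ⟨e0, p0, r1, r2⟩ := S.x_rel γ δ hγ hδ b
  obtain ⟨e1, p1', r3, r4⟩ := S.x_rel _ _ p1 p2 ((h.iso γ δ).trans b)
  have a1 := S.x_injective p3 ((r3 (k * 1) (k2 * 1)).symm.trans (by
    rw [← e, ← q2, ← conjugate_commutatorElement, r1, q3]))
  have a2 := S.x_injective p2 ((r4 (k4 * 1) (k3 * 1)).symm.trans (by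
    rw [← q4, ← q3, ← conjugate_commutatorElement, r2, q2]))
  have : k * k4 = 1 := mul_left_cancel₀ (mul_ne_zero n2 n3) (by
    linear_combination (e1 * k4 * k3) * a1 - (k3 * e0) * a2 - k * k2 * k4 * k3 * p1'.sq +
      k2 * k3 * p0.sq)
  rw [q4, eq_inv_of_mul_eq_one_right this, div_eq_inv_mul]

theorem g3_n_nor {β : L} (h : S.R β) : S.n β ∈ normalizer (S.g2T : Set G) := by
  have key : ∀ g ∈ S.g2T, S.n β * g * (S.n β)⁻¹ ∈ S.g2T := by
    intro g hg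
    induction hg using closure_induction with
    | mem a ha =>
      obtain ⟨j, f, rfl⟩ := ha
      rw [n, S.tt_n j f β h, mul_inv_cancel_right]; exact g2_tt_mem _ _
    | one => simp
    | mul a b _ _ p q => convert mul_mem p q using 1; group
    | inv a _ p => convert inv_mem p using 1; group
  have t : S.n β * S.n β ∈ S.g2T := by
    rw [n, S.nsq β h, ← S.tt_hh]; exact g2_tt_mem _ _
  refine mem_normalizer_iff.2 fun g => ⟨key g, fun k => ?_⟩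
  convert mul_mem (mul_mem (inv_mem t) (key _ k)) t using 1
  group

namespace G3

variable (D : S.G3 r φ θ)
include D

theorem θn {β : L} (h : S.R β) : ∃ η : Kˣ, θ (S.n β) = S.tt η (S.B (r β)) * S.n (r β) ∧
    ∀ j : Kˣ, θ (S.tt j (S.B β)) = S.tt (Units.map (φ : K →* K) j) (S.B (r β)) := by
  obtain ⟨η, p, q1, q2⟩ := D.θx β h
  have k : ∀ j : Kˣ, θ (S.tt j (S.B β) * S.n β) =
      S.tt (Units.map (φ : K →* K) j * Units.mk0 η p.ne) (S.B (r β)) * S.n (r β) := fun j => by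
    rw [← n_tt h, ← n_tt (D.rR _ h), map_mul, map_mul, q1, q2]
    simp only [Units.val_mul, Units.coe_map, MonoidHom.coe_coe, Units.val_mk0, mul_inv, map_inv₀,
      inv_eq_of_mul_eq_one_right p.sq, mul_comm η]
  have k1 := k 1
  rw [g3_tt_one, one_mul, map_one, one_mul] at k1
  refine ⟨_, k1, fun j => ?_⟩
  have := k j
  rwa [map_mul, k1, g2_tt_mul, mul_assoc, mul_left_inj] at this

theorem θt {β : L} (h : S.R β) (j : Kˣ) :
    θ (S.tt j (S.B β)) = S.tt (Units.map (φ : K →* K) j) (S.B (r β)) := (D.θn h).choose_spec.2 j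

theorem W {β : L} (h : S.R β) : g3Tr θ (S.n β) ∈ normalizer (S.g2T : Set G) ∧
    S.g3Mw (g3Tr θ (S.n β)) fun γ => S.rf β (S.rf (r β) (S.rf (r (r β)) γ)) := by
  have h1 := D.rR _ h
  have h2 := D.rR _ h1
  obtain ⟨η, e, -⟩ := D.θn h
  obtain ⟨η', e', -⟩ := D.θn h1
  rw [g3Tr, e, map_mul, e', D.θt h1]
  exact ⟨mul_mem (mul_mem (g3_n_nor h) (mul_mem (le_normalizer (g2_tt_mem _ _)) (g3_n_nor h1)))
    (mul_mem (le_normalizer (g2_tt_mem _ _)) (mul_mem (le_normalizer (g2_tt_mem _ _)) (g3_n_nor h2))),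
    ((g3_mw_n h).mul ((g3_mw_T (g2_tt_mem _ _)).mul (g3_mw_n h1))).mul ((g3_mw_T (g2_tt_mem _ _)).mul
      ((g3_mw_T (g2_tt_mem _ _)).mul (g3_mw_n h2)))⟩

theorem H {β : L} (h : S.R β) (j : Kˣ) : g3Tr θ (S.tt j (S.B β)) = S.g2H r φ β j := by
  rw [g3Tr, D.θt h, D.θt (D.rR _ h), g2H]

omit D in
theorem H_x (β : L) (j : Kˣ) {γ : L} (h : S.R γ) (s : K) :
    S.g2H r φ β j * S.x γ s * (S.g2H r φ β j)⁻¹ =
      S.x γ ((j : K) ^ S.B β γ * φ j ^ S.B (r β) γ * φ (φ j) ^ S.B (r (r β)) γ * s) := by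
  rw [mul_assoc (_ * _), mul_assoc (_ ^ _), ← S.tt_x j _ _ h]
  have h1 := S.tt_x (Units.map (φ : K →* K) j) (S.B (r β)) γ h
  have h2 := S.tt_x (Units.map (φ : K →* K) (Units.map (φ : K →* K) j)) (S.B (r (r β))) γ h
  simp only [Units.coe_map, MonoidHom.coe_coe] at h1 h2
  rw [← h1, ← h2, g2H]; group

theorem rng {β : L} (h : S.R β) (s : K) : ∃ t u, θ (S.x β s) = S.x (r β) t ∧
    θ (θ (S.x β s)) = S.x (r (r β)) u := by
  obtain ⟨η, -, q, -⟩ := D.θx β h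
  obtain ⟨η', -, q', -⟩ := D.θx _ (D.rR _ h)
  exact ⟨_, _, q s, by rw [q, q']⟩

theorem cm {β γ : L} (h : S.R β) (h' : S.R γ) (b : 0 ≤ S.B β γ ∧ 0 ≤ S.B β (r γ) ∧
    0 ≤ S.B β (r (r γ))) (s t : K) : Commute (S.x β s) (g3Tr θ (S.x γ t)) := by
  obtain ⟨u, v, e, e'⟩ := D.rng h' t
  rw [g3Tr, e', e]
  exact ((S.x_comm _ _ h h' b.1 _ _).mul_right (S.x_comm _ _ h (D.rR _ h') b.2.1 _ _)).mul_right
    (S.x_comm _ _ h (D.rR _ (D.rR _ h')) b.2.2 _ _)

theorem psi {β : L} (h : S.R β) (o : S.B β (r β) = 0) : ∃ ψ : SL2 K →* G,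
    (∀ s, ψ (mx s) = g3Tr θ (S.x β s)) ∧ (∀ v, ψ (mz v) = g3Tr θ (S.x (-β) v)) ∧
    ψ mw = g3Tr θ (S.n β) ∧ (∀ j, ψ (mdg j) = S.g2H r φ β j) ∧ ∀ A, θ (ψ A) = ψ A := by
  obtain ⟨ψ, p, q⟩ := g3_psi0 h
  have hn := S.Rneg β h
  have o1 : S.B β (r (r β)) = 0 := by rw [S.symm, ← D.rB, ← D.rB, D.r3, D.rB, o]
  have c : ∀ γ δ, γ = β ∨ γ = -β → δ = β ∨ δ = -β → ∀ s t, Commute (S.x γ s) (θ (S.x δ t)) ∧
      Commute (S.x γ s) (θ (θ (S.x δ t))) := fun γ δ p q s t => by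
    have r1 : S.R γ := by rcases p with rfl | rfl <;> assumption
    have r2 : S.R δ := by rcases q with rfl | rfl <;> assumption
    obtain ⟨u, v, e, e'⟩ := D.rng r2 t
    rw [e', e]
    exact ⟨S.x_comm _ _ r1 (D.rR _ r2) (by rcases p with rfl | rfl <;> rcases q with rfl | rfl <;>
      simp only [o, Std.le_refl, D.rn, map_neg, neg_zero, AddMonoidHom.neg_apply]) _ _, S.x_comm _ _ r1 (D.rR _ (D.rR _ r2)) (by
        rcases p with rfl | rfl <;> rcases q with rfl | rfl <;> simp only [o1, Std.le_refl, D.rn, map_neg, neg_zero, AddMonoidHom.neg_apply]) _ _⟩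
  have c1 : ∀ A B, Commute (θ (ψ A)) (ψ B) := fun A B => by
    refine sl2_comm (fun s => ?_) (fun s => ?_) B <;>
      refine (sl2_comm (ψ := θ.comp ψ) (fun t => ?_) (fun t => ?_) A).symm <;>
      simp only [MonoidHom.comp_apply, p, q] <;> exact (c _ _ (by simp) (by simp) _ _).1
  have c2 : ∀ A B, Commute (θ (θ (ψ A))) (ψ B) := fun A B => by
    simpa only [D.θ3] using ((c1 B A).map θ).map θ |>.symm
  refine ⟨MonoidHom.mk' (fun A => g3Tr θ (ψ A)) fun A B => ?_, fun s => ?_, fun s => ?_, ?_,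
    fun j => ?_, fun A => ?_⟩
  · simp only [g3Tr, map_mul]
    exact (g2a_shuffle (c1 A B) (c2 A B) ((c1 A B).map θ)).symm
  · simp [p]
  · simp [q]
  · simp [mw_eq, p, q, n]
  · have : ψ (mdg j) = S.tt j (S.B β) := by
      simp only [mdg_eq, mw_eq, map_mul, map_inv, p, q]
      rw [n_tt h, n, mul_inv_cancel_right]
    rw [MonoidHom.mk'_apply, this, D.H h]
  · simp only [MonoidHom.mk'_apply, g3Tr, map_mul, D.θ3]
    rw [((c1 A A).mul_left (c2 A A)).eq, mul_assoc]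

theorem rot {β : L} (h : S.R β) (o : S.B β (r β) = 0) (s : K) :
    ∃ t, g3Tr θ (S.x (r β) s) = g3Tr θ (S.x β t) := by
  obtain ⟨η, p, q, -⟩ := D.θx β h
  obtain ⟨ψ, e, -, -, -, f⟩ := D.psi h o
  refine ⟨φ (φ (η * s)), ?_⟩
  rw [← e, ← f, e, show s = η * φ (φ (φ (η * s))) by rw [D.φ3, ← mul_assoc, p.sq, one_mul], ← q]
  simp only [g3Tr, map_mul, D.φ3, p.map, ← mul_assoc, p.sq, one_mul]

omit D in
theorem mwX {m : G} {w : L → L} (h : S.g3Mw m w) (f : θ m = m) {γ δ : L} (hγ : S.R γ) (e : w γ = δ) :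
    ∃ k, k ≠ 0 ∧ (∀ s, m * g3Tr θ (S.x γ s) * m⁻¹ = g3Tr θ (S.x δ (k * s))) ∧
      ∀ s, m * g3Tr θ (S.x (-γ) s) * m⁻¹ = g3Tr θ (S.x (-δ) (s / k)) := by
  obtain ⟨-, k, n, q⟩ := h.cj γ hγ
  exact ⟨k, n, fun s => by rw [g3Tr_conj f, q, e], fun s => by rw [g3Tr_conj f, h.neg hγ q, e]⟩

theorem mwL {m : G} {w : L → L} (h : S.g3Mw m w) (f : θ m = m) {H : Subgroup G} (hm : m ∈ H)
    {γ δ : L} (hγ : S.R γ) (e : w γ = δ ∧ r γ = γ ∧ r δ = δ) (p : ∀ s, φ s = s → S.x γ s ∈ H) (s : K)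
    (hs : φ s = s) : S.x δ s ∈ H := by
  obtain ⟨hδ, k, n, q⟩ := h.cj γ hγ
  rw [e.1] at hδ q
  have : φ k = k := S.x_injective hδ (by
    rw [← D.θl δ hδ e.2.2, ← mul_one k, ← q, map_mul, map_mul, map_inv, f, D.θl γ hγ e.2.1, map_one])
  rw [← mul_div_cancel₀ s n, ← q]
  exact mul_mem (mul_mem hm (p _ (by rw [map_div₀, this, hs]))) (inv_mem hm)

end G3

end St

end Pool.Agent.MP_c78e8e_al.H75

end

section

namespace Pool.Agent.MP_c78e8e_al.H75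

open Subgroup Matrix
open scoped commutatorElement

theorem g2l_sigma {K : Type} [Field K] {φ : K →+* K} {r : ℕ} {C : Matrix (Fin r) (Fin r) ℤ}
    {ρ : Equiv.Perm (Fin r)} (hρC : ∀ i j, C (ρ i) (ρ j) = C i j)
    (hs : ∀ a b, Even (tw C ρ ((a + b) ∘ ρ) + cm C (a ∘ ρ) (b ∘ ρ) -
      (tw C ρ (a ∘ ρ) + cm C a b + tw C ρ (b ∘ ρ)))) (β : Fin r → ℤ) (s : K) (v : Lie C K) :
    sigma C ρ φ (xo C (β ∘ ρ) s v) = xo C β ((-1) ^ tw C ρ (β ∘ ρ) * φ s) (sigma C ρ φ v) := by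
  have pm := pm_zpow (K := K) (tw C ρ (β ∘ ρ))
  have sf : ∀ (v : Lie C K) i, (sigma C ρ φ v).1 i = φ (v.1 (ρ⁻¹ i)) := fun _ _ => rfl
  have inj : ∀ u, u ∘ ρ = β ∘ ρ ↔ u = β := fun u => ρ.surjective.right_cancellable
  refine lie_ext (funext fun i => ?_) fun u hu => ?_
  · simp only [sf, xo_fst, co_sigma hρC, Pi.neg_comp, tw_neg, map_sub, map_mul, map_intCast,
      Function.comp_apply, show ρ (ρ⁻¹ i) = i by simp]
    rcases pm with h | h <;> rw [h] <;> ring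
  · have : hb C β (sigma C ρ φ v).1 = φ (hb C (β ∘ ρ) v.1) := by
      simp only [hb, map_sum, map_mul, map_intCast, sf]
      rw [← Equiv.sum_comp ρ]
      refine Finset.sum_congr rfl fun j _ => ?_
      rw [← fm_ρ hρC β]
      congr 3
      · ext i; simp [Pi.single_apply]
      · simp
    rw [co_sigma hρC, co_xo (by rwa [fm_ρ hρC]), co_xo hu]
    simp only [inj, co_sigma hρC, this, Pi.neg_comp, tw_neg]
    split_ifs with e
    · subst e
      simp only [map_add, map_mul, map_neg, map_pow]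
      rcases pm with h | h <;> rw [h] <;> ring
    · have k := hs β (u - β)
      rw [add_sub_cancel] at k
      have e4 := k.neg_one_zpow (α := K)
      rw [zpow_sub₀ (by simp), div_eq_one_iff_eq (zpow_ne_zero _ (by simp)), sg_add, sg_add,
        sg_add] at e4
      simp only [map_add, map_mul, map_zero, mul_zero, (pm_zpow _).map, ← Pi.sub_comp, ep]
      linear_combination (φ s * φ (co C v ((u - β) ∘ ρ))) * e4

/-- The link between the groups `G₂ (q)`, `³D₄ (q)` and the abstract setting. -/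
theorem g2l_link {K : Type} [Field K] {φ : K →+* K} (hφ : ∀ s, φ (φ (φ s)) = s) :
    ∃ (S : St (Equiv.Perm (Lie (CartanMatrix.D 4) K)) (Fin 4 → ℤ) K) 
      (θ : Equiv.Perm (Lie (CartanMatrix.D 4) K) →* Equiv.Perm (Lie (CartanMatrix.D 4) K)),
      (∀ u v, S.B u v = g2bb u v) ∧ (∀ u, S.R u ↔ g2bb u u = 2) ∧
      (∀ β s, S.x β s = (goodD (r := 4) (by omega)).xx β s) ∧
      (∀ β, S.R β → ∀ s, θ (S.x β s) = S.x (g2r β) ((-1) ^ (β 1 * (β 0 + β 3)) * φ s)) ∧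
      S.G3 g2r φ θ ∧ ∀ N, N = chev (CartanMatrix.D 4) (Equiv.swap 0 3 * Equiv.swap 0 2) φ →
        (∀ β, S.R β → S.B β (g2r β) = 0 → ∀ s, g3Tr θ (S.x β s) ∈ N) ∧
        (∀ β, S.R β → g2r β = β → ∀ s, φ s = s → S.x β s ∈ N) ∧
        (∀ H : Subgroup _, (∀ β, S.R β → S.B β (g2r β) = 0 → ∀ s, g3Tr θ (S.x β s) ∈ H) →
          (∀ β, S.R β → g2r β = β → ∀ s, φ s = s → S.x β s ∈ H) → N ≤ H) ∧
        ∀ g ∈ N, θ g = g := by
  have hC := goodD (r := 4) (by omega)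
  obtain ⟨ρ, hρ⟩ : ∃ ρ : Equiv.Perm (Fin 4), ρ = Equiv.swap 0 3 * Equiv.swap 0 2 := ⟨_, rfl⟩
  have hρC : ∀ i j, CartanMatrix.D 4 (ρ i) (ρ j) = CartanMatrix.D 4 i j := by rw [hρ]; decide
  have rr : ∀ u, g2r u ∘ ρ = u := fun u => by rw [hρ]; ext i; fin_cases i <;> rfl
  have r3 : ∀ u, g2r (g2r (g2r u)) = u := fun u => by ext i; fin_cases i <;> rfl
  have rB : ∀ u v, g2bb (g2r u) (g2r v) = g2bb u v := fun u v => by simp only [g2bb, g2r, Fin.isValue, cons_val_zero, cons_val_one, cons_val]; ring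
  have rn : ∀ u, g2r (-u) = -g2r u := fun u => by ext i; fin_cases i <;> rfl
  have r1 : ∀ u, u ∘ ρ = g2r (g2r u) := fun u => by rw [← rr (g2r (g2r u)), r3]
  have tv : ∀ u, tw (CartanMatrix.D 4) ρ u = -(u 1 * (u 0 + u 3)) := fun u => by
    have : ρ 0 = 2 ∧ ρ 1 = 1 ∧ ρ 2 = 3 ∧ ρ 3 = 0 := by rw [hρ]; decide
    simp only [tw, CartanMatrix.D, Nat.reduceLeDiff, ↓ reduceIte, Int.reduceNeg, Nat.reduceEqDiff, of_apply, ite_mul, neg_mul, one_mul, zero_mul, Fin.sum_univ_four, Fin.isValue, not_lt_zero, this, false_and, Fin.lt_one_iff, Nat.reduceAdd, Fin.coe_ofNat_eq_mod, Nat.one_mod, Nat.add_eq_right, Fin.val_eq_zero_iff, Nat.lt_add_one, and_true, OfNat.one_ne_ofNat, or_self, and_false, true_and, zero_add, Nat.reduceMod, lt_self_iff_false, or_false, OfNat.ofNat_ne_one, Nat.mod_succ, Nat.reduceLT, OfNat.ofNat_eq_ofNat, Nat.succ_ne_self, or_true, Fin.reduceLT, and_self, zero_ne_one, add_zero, Fin.reduceEq,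 Nat.zero_mod, OfNat.ofNat_ne_zero, one_ne_zero, zero_lt_one]; ring
  have cv : ∀ u v, cm (CartanMatrix.D 4) u v = u 0 * v 0 + u 1 * v 1 + u 2 * v 2 + u 3 * v 3 -
      u 0 * v 1 - u 1 * v 2 - u 1 * v 3 := fun u v => by
    change coc _ _ _ = _
    simp only [coc, CartanMatrix.D, Nat.reduceLeDiff, ↓ reduceIte, Int.reduceNeg, Nat.reduceEqDiff, of_apply, ite_mul, neg_mul, one_mul, zero_mul, Fin.sum_univ_four, Fin.isValue, not_lt_zero, Fin.lt_one_iff, Nat.reduceAdd, Fin.coe_ofNat_eq_mod, Nat.one_mod, Nat.add_eq_right, Fin.val_eq_zero_iff, Nat.lt_add_one, and_true, OfNat.one_ne_ofNat, or_self, and_false, true_and, Nat.reduceMod, lt_self_iff_false, or_false, OfNat.ofNat_ne_one, false_and, Nat.mod_succ, Nat.reduceLT, OfNat.ofNat_eq_ofNat, Nat.succ_ne_self, or_true, zero_ne_one, Fin.reduceLT, Fin.reduceEq, Nat.zero_mod, OfNat.ofNat_ne_zero, zero_add, add_zero, one_ne_zero, and_self]; ring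
  rw [← hρ]
  obtain ⟨S, hB, hR, hx⟩ : ∃ S : St (Equiv.Perm (Lie (CartanMatrix.D 4) K)) (Fin 4 → ℤ) K,
      (∀ u v, S.B u v = g2bb u v) ∧ (∀ u, S.R u ↔ fm (CartanMatrix.D 4) u u = 2) ∧
      ∀ β s, S.x β s = hC.xx β s :=
    ⟨model (ρ := 1) (φ := RingHom.id K) (fun _ => rfl) (fun _ _ => rfl) (fun _ => rfl) hC 1 0 0
      (by simp) (by simp only [Equiv.Perm.coe_one, CompTriple.comp_eq, AddMonoidHom.zero_apply, implies_true]) (fun β _ _ => by
        have : ∀ i j : Fin 4, ¬ (i < j ∧ j < i) := fun i j h => h.1.not_gt h.2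
        simp [tw, this]), g2b_fm, fun _ => Iff.rfl, fun β s => by simp [model]⟩
  have rR : ∀ u, S.R u → S.R (g2r u) := fun u p => by rwa [hR, g2b_fm, rB, ← g2b_fm, ← hR]
  have s3 : ∀ v, sigma (CartanMatrix.D 4) ρ φ (sigma _ ρ φ (sigma _ ρ φ v)) = v := fun v => by
    refine lie_ext (funext fun i => ?_) fun u _ => ?_
    · have : ∀ i, ρ⁻¹ (ρ⁻¹ (ρ⁻¹ i)) = i := by rw [hρ]; decide
      simp only [sigma, hφ, this]
    · simp only [co_sigma hρC, map_mul, (pm_zpow _).map, hφ, r1, r3, ← mul_assoc, ← sg_add, tv]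
      rw [Even.neg_one_zpow ⟨-(u 1 * (u 0 + u 2 + u 3)), by simp only [g2r, Fin.isValue, cons_val, cons_val_one, cons_val_zero]; ring⟩, one_mul]
  obtain ⟨σ, hσ⟩ : ∃ σ : Equiv.Perm (Lie (CartanMatrix.D 4) K), ∀ v, σ v = sigma _ ρ φ v :=
    ⟨⟨sigma _ ρ φ, fun v => sigma _ ρ φ (sigma _ ρ φ v), s3, s3⟩, fun _ => rfl⟩
  obtain ⟨θ, hθ⟩ : ∃ θ : Equiv.Perm (Lie (CartanMatrix.D 4) K) →* _, ∀ g, θ g = σ * g * σ⁻¹ :=
    ⟨(MulAut.conj σ).toMonoidHom, fun _ => rfl⟩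
  have fx : ∀ g : Equiv.Perm (Lie (CartanMatrix.D 4) K),
      (∀ v, g (sigma _ ρ φ v) = sigma _ ρ φ (g v)) ↔ θ g = g := fun g => by
    rw [hθ, mul_inv_eq_iff_eq_mul, eq_comm, Equiv.ext_iff]
    simp only [Equiv.Perm.mul_apply, hσ]
  have θ3 : ∀ g, θ (θ (θ g)) = g := fun g => by
    have : σ * σ * σ = 1 := Equiv.ext fun v => by simp [hσ, s3]
    calc _ = σ * σ * σ * g * (σ * σ * σ)⁻¹ := by simp only [hθ]; group
      _ = _ := by simp [this]
  have θx : ∀ β, S.R β → ∀ s, θ (S.x β s) = S.x (g2r β) ((-1) ^ (β 1 * (β 0 + β 3)) * φ s) :=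
    fun β p s => by
      rw [hθ, mul_inv_eq_iff_eq_mul, ← sg_neg, ← tv]
      ext1 v
      have := g2l_sigma (φ := φ) hρC (fun a b => ⟨-(a 2 * b 1) - a 1 * b 0, by
        simp only [r1, g2r, Fin.isValue, Pi.add_apply, cons_val, cons_val_one, cons_val_zero, tv, cv]; ring⟩) (g2r β) s v
      rw [rr] at this
      simp only [Equiv.Perm.mul_apply, hσ, hx, hC.xx_apply ((hR _).1 p),
        hC.xx_apply ((hR _).1 (rR _ p)), this]
  have D : S.G3 g2r φ θ := ⟨hφ, r3, fun u v => by rw [hB, hB, rB], rR, rn, θ3, fun β p =>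
    ⟨_, pm_zpow _, θx β p, fun s => by rw [θx _ (S.Rneg β p), rn]; congr 3; simp; ring⟩,
    fun β p e s => by
      rw [θx β p, e, Even.neg_one_zpow ⟨β 1 * β 0, by
        rw [show β 3 = β 0 from congrFun e 0]; ring⟩, one_mul]⟩
  have rg : ∀ β, S.R β → rootGroup (CartanMatrix.D 4) K β = Set.range (S.x β) := fun β p => by
    ext g
    exact exists_congr fun t => by
      rw [hx, eq_comm, Equiv.ext_iff]
      exact forall_congr' fun v => by rw [hC.xx_apply ((hR _).1 p)]; rfl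
  have pw : ∀ (β : Fin 4 → ℤ) (k : ℕ), β ∘ ⇑(ρ ^ (k + 1)) = g2r (g2r (β ∘ ⇑(ρ ^ k))) := fun β k => by
    rw [pow_succ, Equiv.Perm.coe_mul, ← Function.comp_assoc, r1]
  have un : ∀ β, S.R β → ⋃ k : ℕ, rootGroup (CartanMatrix.D 4) K (β ∘ ⇑(ρ ^ k)) =
      Set.range (S.x β) ∪ Set.range (S.x (g2r β)) ∪ Set.range (S.x (g2r (g2r β))) := fun β p => by
    rw [← rg _ p, ← rg _ (D.rR _ p), ← rg _ (D.rR _ (D.rR _ p))]
    have : ∀ k : ℕ, β ∘ ⇑(ρ ^ k) = β ∨ β ∘ ⇑(ρ ^ k) = g2r β ∨ β ∘ ⇑(ρ ^ k) = g2r (g2r β) := by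
      intro k
      induction k with
      | zero => simp
      | succ k ih => rw [pw]; rcases ih with e | e | e <;> simp [e, r3]
    refine le_antisymm (Set.iUnion_subset fun k => ?_) (Set.union_subset (Set.union_subset ?_ ?_) ?_)
    · rcases this k with e | e | e <;> rw [e] <;> intro g hg <;> simp [hg]
    · exact Set.subset_iUnion_of_subset 0 (by simp)
    · exact Set.subset_iUnion_of_subset 2 (by rw [pw, pow_one, r1, r3])
    · exact Set.subset_iUnion_of_subset 1 (by simp [r1])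
  refine ⟨S, θ, hB, fun u => by rw [hR, g2b_fm], hx, θx, D, ?_⟩
  rintro _ rfl
  refine ⟨fun β p o s => subset_closure ⟨(fx _).2 ?_, ⟨β, (hR _).1 p⟩, ?_⟩, fun β p e s k =>
    subset_closure ⟨(fx _).2 (by rw [D.θl β p e, k]), ⟨β, (hR _).1 p⟩,
      subset_closure (by rw [un β p]; exact Or.inl (Or.inl ⟨_, rfl⟩))⟩, fun H p1 p2 => ?_,
    fun g hg => (closure_le (θ.eqLocus (MonoidHom.id _))).2 (fun g k => (fx g).1 k.1) hg⟩
  · obtain ⟨ψ, e, -, -, -, f⟩ := D.psi p o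
    rw [← e, f]
  · obtain ⟨t, u, e, e'⟩ := D.rng p s
    rw [un β p, g3Tr, e', e]
    exact mul_mem (mul_mem (subset_closure (Or.inl (Or.inl ⟨_, rfl⟩)))
      (subset_closure (Or.inl (Or.inr ⟨_, rfl⟩)))) (subset_closure (Or.inr ⟨_, rfl⟩))
  rw [chev, closure_le]
  rintro g ⟨t, ⟨β, hβ⟩, hg⟩
  rw [fx] at t
  have p := (hR β).2 hβ
  have p' := D.rR _ p
  have p'' := D.rR _ p'
  rw [un β p] at hg
  rcases g2b_roots ((g2b_fm β β).symm.trans hβ) with ⟨f, -⟩ | ⟨o, -, γ, g1, g2, g3, g4⟩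
  · obtain ⟨s, rfl⟩ : ∃ s, S.x β s = g := by
      simp only [f, Set.union_self] at hg
      clear t
      induction hg using closure_induction with
      | mem a ha => exact ha
      | one => exact ⟨0, S.x_zero p⟩
      | mul a b _ _ p1 p2 => obtain ⟨s, rfl⟩ := p1; obtain ⟨t, rfl⟩ := p2; exact ⟨_, S.x_add _ p s t⟩
      | inv a _ p1 => obtain ⟨s, rfl⟩ := p1; exact ⟨_, S.x_neg p s⟩
    exact p2 β p f s (S.x_injective p (by rwa [D.θl β p f] at t))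
  rw [← hB] at o g2 g3 g4
  have c1 : ∀ a b, Commute (θ (S.x β a)) (S.x β b) := fun a b => by
    rw [θx β p]; exact S.x_comm _ _ p' p (by rw [S.symm, o]) _ _
  have c3 : ∀ a b, Commute (θ (θ (S.x β a))) (θ (S.x β b)) := fun a b => (c1 a b).map θ
  have c2 : ∀ a b, Commute (θ (θ (S.x β a))) (S.x β b) := fun a b => by
    simpa only [θ3] using ((c3 b a).map θ).symm
  have ad : ∀ a b c a' b' c', S.x β a * θ (S.x β b) * θ (θ (S.x β c)) *
      (S.x β a' * θ (S.x β b') * θ (θ (S.x β c'))) =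
      S.x β (a + a') * θ (S.x β (b + b')) * θ (θ (S.x β (c + c'))) := fun a b c a' b' c' => by
    rw [g2a_shuffle (c1 _ _) (c2 _ _) (c3 _ _)]; simp only [S.x_add _ p, map_mul]
  have z := S.x_zero p
  have sj : ∀ δ, S.R δ → ∀ s, ∃ t, θ (S.x δ t) = S.x (g2r δ) s := fun δ q s => by
    obtain ⟨η, k, e, -⟩ := D.θx δ q
    exact ⟨φ (φ (η * s)), by rw [e, hφ, ← mul_assoc, k.sq, one_mul]⟩
  obtain ⟨a, b, c, rfl⟩ : ∃ a b c, S.x β a * θ (S.x β b) * θ (θ (S.x β c)) = g := by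
    clear t
    induction hg using closure_induction with
    | mem a ha =>
      rcases ha with (⟨s, rfl⟩ | ⟨s, rfl⟩) | ⟨s, rfl⟩
      · exact ⟨s, 0, 0, by simp [z]⟩
      · obtain ⟨t, e⟩ := sj β p s
        exact ⟨0, t, 0, by simp [z, e]⟩
      · obtain ⟨t, e⟩ := sj _ p' s
        obtain ⟨u, e'⟩ := sj β p t
        exact ⟨0, 0, u, by simp [z, e, e']⟩
    | one => exact ⟨0, 0, 0, by simp [z]⟩
    | mul a b _ _ p1 p2 =>
      obtain ⟨_, _, _, rfl⟩ := p1; obtain ⟨_, _, _, rfl⟩ := p2; exact ⟨_, _, _, (ad ..).symm⟩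
    | inv a _ p1 =>
      obtain ⟨a, b, c, rfl⟩ := p1
      exact ⟨-a, -b, -c, eq_inv_of_mul_eq_one_left (by simp [ad, z])⟩
  have U : ∀ a b c, S.x β a * θ (S.x β b) * θ (θ (S.x β c)) = 1 → a = 0 := fun a b c e => by
    have q := (hR γ).2 (by rwa [g2b_fm])
    obtain ⟨t, -, e1, -⟩ := D.rng p b
    obtain ⟨-, u, -, e2⟩ := D.rng p c
    rw [e1, e2, mul_assoc] at e
    exact St.g2_uniq p q g2 (((S.x_comm _ _ p' q g3 _ _).mul_left
      (S.x_comm _ _ p'' q g4 _ _)).inv_left) (eq_inv_of_mul_eq_one_left e)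
  have rt : ∀ a b c, θ (S.x β a * θ (S.x β b) * θ (θ (S.x β c))) =
      S.x β c * θ (S.x β a) * θ (θ (S.x β b)) := fun a b c => by
    rw [map_mul, map_mul, θ3, ((c1 _ _).mul_left (c2 _ _)).eq, mul_assoc]
  have e' : S.x β (c - a) * θ (S.x β (a - b)) * θ (θ (S.x β (b - c))) = 1 := by
    simp only [sub_eq_add_neg]
    rw [← ad, ← rt, t, ad]; simp [z]
  have e1 := U _ _ _ e'
  have e2 := U _ _ _ (by rw [← rt, e', map_one])
  rw [sub_eq_zero] at e1 e2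
  rw [e2, e1]
  exact p1 β p o a

end Pool.Agent.MP_c78e8e_al.H75

end
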