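import Pool.Agent.MP_c78e8e_al.Sg.Clas

section

namespace Pool.Agent.MP_c78e8e_al.H75

theorem cE6u : (opE 6 false).check false false false false (tcE 6)
  ⟨[⟨1,0,0,0,0,0,0,0⟩,⟨0,-1,0,-1,0,0,0,0⟩,⟨0,0,0,0,0,-1,0,0⟩],[⟨1,0,1,1,1,0,0,0⟩],[],[⟨0,-1,0,-1,-1,0,0,0⟩,⟨0,1,1,1,1,1,0,0⟩,⟨0,-1,0,0,0,0,0,0⟩,⟨0,-1,0,-1,0,0,0,0⟩,⟨0,1,1,1,0,0,0,0⟩],[⟨1,1,1,1,1,0,0,0⟩,⟨0,1,1,2,1,0,0,0⟩,⟨0,0,1,0,0,0,0,0⟩],⟨-1,-2,-2,-3,-2,-1,0,0⟩,⟨0,1,0,0,0,0,0,0⟩,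
  ⟨[⟨0,-1,-1,-1,-1,-1,0,0⟩],[],[⟨-1,-1,-1,-1,-1,0,0,0⟩],[(⟨-1,0,-1,0,0,0,0,0⟩,some (0,0,1))],0,⟨-1,0,-1,0,0,0,0,0⟩,⟨-1,0,-1,0,0,0,0,0⟩,⟨-1,0,-1,0,0,0,0,0⟩,⟨-1,0,-1,0,0,0,0,0⟩,(0,0,0),[⟨0,-1,-1,-1,0,0,0,0⟩],
  [(.base 1,⟨false,[⟨-1,-1,-1,-1,-1,0,0,0⟩,⟨0,-1,-1,-1,-1,-1,0,0⟩],⟨-1,0,-1,0,0,0,0,0⟩,.mon 0 0 1,[⟨0,-1,-1,-1,0,0,0,0⟩]⟩),
  (.cc 0,⟨false,[⟨1,1,1,1,1,0,0,0⟩,⟨0,-1,0,-1,-1,-1,0,0⟩],⟨0,0,0,-1,0,0,0,0⟩,.mon 0 0 1,[⟨0,0,1,1,1,0,0,0⟩]⟩),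
  (.ca 0,⟨false,[⟨0,1,1,1,1,1,0,0⟩,⟨0,0,0,0,-1,0,0,0⟩],⟨0,1,0,0,0,0,0,0⟩,.mon 0 0 1,[⟨1,1,1,2,1,1,0,0⟩]⟩),
  (.base 0,⟨false,[⟨-1,-1,-1,-1,-1,0,0,0⟩,⟨0,-1,-1,-1,-1,-1,0,0⟩],⟨0,-1,-1,-1,0,0,0,0⟩,.mon 0 0 1,[⟨-1,0,-1,0,0,0,0,0⟩]⟩),
  (.comm 0 1 0,⟨false,[],⟨0,0,-1,-1,0,0,0,0⟩,.mon 0 0 2,[]⟩),
  (.cc 0,⟨false,[],⟨-1,0,0,0,0,0,0,0⟩,.mon 0 0 2,[]⟩),
  (.ca 0,⟨false,[],⟨1,0,0,0,0,0,0,0⟩,.mon 0 0 2,[]⟩),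
  (.cc 0,⟨false,[],⟨0,0,1,1,0,0,0,0⟩,.mon 0 0 2,[]⟩),
  (.ca 0,⟨false,[],⟨1,0,1,1,0,0,0,0⟩,.mon 0 0 2,[]⟩),
  (.ca 4,⟨false,[],⟨-1,0,-1,-1,0,0,0,0⟩,.mon 0 0 2,[]⟩),
  (.comm 2 0 0,⟨false,[],⟨-1,0,0,0,0,0,0,0⟩,.mon 0 0 4,[]⟩),
  (.sI 0 4,⟨true,[],⟨0,0,-1,-1,0,0,0,0⟩,.mon 0 0 6,[]⟩),
  (.sI 6 5,⟨true,[],⟨0,0,-1,-1,0,0,0,0⟩,.mon 0 0 4,[]⟩),
  (.sN 0,⟨true,[],⟨0,0,-1,-1,0,0,0,0⟩,.mon 0 0 (-4),[]⟩),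
  (.sA 0 2,⟨true,[],⟨0,0,-1,-1,0,0,0,0⟩,.mon 0 0 2,[]⟩),
  (.sF 0 10,⟨false,[],⟨0,0,-1,-1,0,0,0,0⟩,.all,[]⟩),
  (.comm 0 7 0,⟨false,[],⟨1,0,0,0,0,0,0,0⟩,.all,[]⟩),
  (.cc 1,⟨false,[],⟨-1,0,0,0,0,0,0,0⟩,.all,[]⟩),
  (.comm 0 14 0,⟨false,[],⟨-1,-1,-1,-1,0,0,0,0⟩,.all,[]⟩),
  (.ca 0,⟨false,[],⟨0,0,-1,0,0,0,0,0⟩,.all,[]⟩),
  (.cc 0,⟨false,[],⟨0,0,1,0,0,0,0,0⟩,.all,[]⟩),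
  (.cN 5 1 0,⟨false,[],⟨0,0,0,-1,0,0,0,0⟩,.all,[]⟩),
  (.ca 0,⟨false,[],⟨0,1,0,0,0,0,0,0⟩,.all,[]⟩),
  (.comm 5 14 0,⟨false,[],⟨0,0,1,1,0,0,0,0⟩,.all,[]⟩),
  (.comm 0 20 0,⟨false,[],⟨0,-1,0,0,0,0,0,0⟩,.all,[]⟩),
  (.ca 0,⟨false,[],⟨0,0,0,1,0,0,0,0⟩,.all,[]⟩),
  (.cc 7,⟨false,[],⟨0,0,0,0,1,0,0,0⟩,.all,[]⟩),
  (.spec 10,⟨false,[],⟨1,0,0,0,0,0,0,0⟩,.mon 0 0 0,[]⟩),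
  (.comm 9 0 0,⟨false,[],⟨0,-1,-1,-1,0,0,0,0⟩,.all,[]⟩),
  (.cN 0 9 8,⟨false,[],⟨0,-1,0,-1,0,0,0,0⟩,.all,[]⟩),
  (.ca 0,⟨false,[],⟨0,1,0,1,0,0,0,0⟩,.all,[]⟩),
  (.cN 4 1 0,⟨false,[],⟨0,1,0,1,1,0,0,0⟩,.all,[]⟩),
  (.cc 0,⟨false,[],⟨-1,-1,-1,-2,-1,0,0,0⟩,.all,[]⟩),
  (.cc 8,⟨false,[],⟨1,0,1,1,1,0,0,0⟩,.all,[]⟩),
  (.cN 0 4 3,⟨false,[],⟨1,1,1,2,1,0,0,0⟩,.all,[]⟩),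
  (.ca 11,⟨false,[],⟨1,0,1,1,0,0,0,0⟩,.all,[]⟩),
  (.spec 0,⟨false,[],⟨1,0,1,1,0,0,0,0⟩,.mon 0 0 0,[]⟩),
  (.ca 10,⟨false,[],⟨0,1,0,1,1,1,0,0⟩,.all,[]⟩),
  (.comm 0 1 0,⟨false,[],⟨1,1,1,2,1,1,0,0⟩,.all,[]⟩),
  (.cN 0 4 6,⟨false,[],⟨0,0,0,0,0,1,0,0⟩,.all,[]⟩),
  (.ca 19,⟨false,[],⟨1,1,1,1,0,0,0,0⟩,.all,[]⟩),
  (.cc 0,⟨false,[],⟨0,0,0,0,-1,0,0,0⟩,.all,[]⟩),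
  (.ca 2,⟨false,[],⟨0,0,0,0,0,-1,0,0⟩,.all,[]⟩)],
  [(26,26),(25,25),(20,20),(18,18),(22,22),(23,23),(17,17),(21,21),(16,16),(1,1),(3,3),(0,0)]⟩⟩ = true := by decide +kernel

theorem cE7o : (opE 7 false).check false false false true (tcE 7)
  ⟨[⟨-1,-1,-1,-1,0,0,0,0⟩,⟨0,0,0,0,0,1,1,0⟩,⟨0,1,1,1,1,1,0,0⟩],[⟨0,0,0,1,1,0,0,0⟩],[],[⟨-1,-1,-2,-3,-2,-1,0,0⟩,⟨0,0,-1,-1,-1,-1,0,0⟩,⟨0,0,0,0,0,1,1,0⟩,⟨1,0,1,1,1,1,0,0⟩,⟨-1,-1,-2,-3,-3,-2,-1,0⟩,⟨0,-1,0,-1,-1,0,0,0⟩],[⟨0,-1,-1,-1,-1,-1,-1,0⟩,⟨0,0,-1,-1,0,0,0,0⟩,⟨1,2,2,3,2,1,0,0⟩],⟨-2,-2,-3,-4,-3,-2,-1,0⟩,⟨1,0,0,0,0,0,0,0⟩,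
  ⟨[⟨0,1,0,1,1,0,0,0⟩],[],[⟨0,1,0,1,1,1,1,0⟩],[(⟨0,1,1,2,1,1,1,0⟩,some (0,0,1)),(⟨1,1,2,2,1,1,1,0⟩,some (0,0,1))],0,⟨0,1,1,2,1,1,1,0⟩,⟨0,1,1,2,1,1,1,0⟩,⟨0,1,1,2,1,1,1,0⟩,⟨0,1,1,2,1,1,1,0⟩,(0,0,0),[⟨0,1,1,2,1,0,0,0⟩,⟨0,0,1,1,1,0,0,0⟩],
  [(.base 0,⟨false,[⟨0,1,0,1,1,1,1,0⟩,⟨0,1,0,1,1,0,0,0⟩],⟨0,0,1,1,1,0,0,0⟩,.mon 0 0 1,[⟨0,1,1,2,1,0,0,0⟩,⟨0,1,1,2,1,1,1,0⟩,⟨1,1,2,2,1,1,1,0⟩]⟩),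
  (.cc 0,⟨false,[⟨0,0,0,1,0,0,0,0⟩,⟨-1,-1,-1,-1,-1,-1,0,0⟩],⟨0,0,0,0,1,0,0,0⟩,.mon 0 0 1,[⟨-1,-1,-2,-2,-1,-1,0,0⟩,⟨0,0,-1,0,0,0,0,0⟩,⟨1,0,0,0,0,0,0,0⟩]⟩),
  (.ca 0,⟨false,[⟨0,1,1,2,1,1,0,0⟩,⟨0,1,1,1,0,0,0,0⟩],⟨1,1,1,1,1,1,1,0⟩,.mon 0 0 1,[⟨0,1,0,0,0,0,0,0⟩,⟨0,1,0,1,1,1,0,0⟩,⟨0,0,0,0,1,1,0,0⟩]⟩),
  (.cc 0,⟨false,[⟨-1,-1,-2,-2,-1,0,0,0⟩,⟨-1,-2,-3,-4,-3,-2,-1,0⟩],⟨1,0,1,1,0,0,0,0⟩,.mon 0 0 1,[⟨-1,-2,-2,-3,-3,-2,-1,0⟩,⟨-1,-1,-1,-1,-1,0,0,0⟩,⟨0,0,1,1,1,1,0,0⟩]⟩),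
  (.base 2,⟨false,[⟨0,1,0,1,1,1,1,0⟩,⟨0,1,0,1,1,0,0,0⟩],⟨0,1,1,2,1,1,1,0⟩,.mon 0 0 1,[⟨0,0,1,1,1,0,0,0⟩,⟨0,1,1,2,1,0,0,0⟩,⟨1,1,2,2,1,1,1,0⟩]⟩),
  (.mul 0 1,⟨false,[⟨0,1,0,1,1,1,1,0⟩,⟨0,1,0,1,1,0,0,0⟩,⟨-1,-1,-2,-2,-1,0,0,0⟩,⟨-1,-2,-3,-4,-3,-2,-1,0⟩],⟨0,1,1,2,1,1,1,0⟩,.mon 0 0 1,[⟨0,0,1,1,1,0,0,0⟩,⟨0,1,1,2,1,0,0,0⟩,⟨1,1,2,2,1,1,1,0⟩,⟨1,0,1,1,0,0,0,0⟩,⟨-1,-2,-2,-3,-3,-2,-1,0⟩,⟨-1,-1,-1,-1,-1,0,0,0⟩,⟨0,0,1,1,1,1,0,0⟩]⟩),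
  (.sq 0 1,⟨false,[],⟨0,1,1,2,1,1,1,0⟩,.mon 0 0 1,[⟨-1,-1,-1,-1,-1,0,0,0⟩]⟩),
  (.ca 0,⟨false,[],⟨0,1,1,2,1,0,0,0⟩,.mon 0 0 1,[⟨0,0,0,0,-1,-1,-1,0⟩]⟩),
  (.cc 0,⟨false,[],⟨-1,-1,-2,-2,-1,-1,0,0⟩,.mon 0 0 1,[⟨-1,-1,-2,-3,-2,-1,0,0⟩]⟩),
  (.ca 0,⟨false,[],⟨0,1,0,0,0,0,0,0⟩,.mon 0 0 1,[⟨-1,-1,-2,-3,-2,-2,-1,0⟩]⟩),
  (.cc 0,⟨false,[],⟨-1,-2,-2,-3,-3,-2,-1,0⟩,.mon 0 0 1,[⟨-1,-1,-1,-2,-2,-2,-1,0⟩]⟩),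
  (.ca 0,⟨false,[],⟨-1,-1,-1,-2,-2,-1,-1,0⟩,.mon 0 0 1,[⟨-1,-1,-1,-2,-2,-1,0,0⟩]⟩),
  (.cc 0,⟨false,[],⟨-1,-1,-2,-3,-2,-1,-1,0⟩,.mon 0 0 1,[⟨0,0,-1,-1,-1,-1,-1,0⟩]⟩),
  (.ca 0,⟨false,[],⟨-1,-2,-3,-4,-3,-2,-1,0⟩,.mon 0 0 1,[⟨-1,-1,-2,-2,-1,0,0,0⟩]⟩),
  (.comm 7 0 0,⟨false,[],⟨-1,-1,-2,-2,-2,-1,0,0⟩,.mon 0 0 2,[]⟩),
  (.cc 0,⟨false,[],⟨0,1,0,1,0,0,0,0⟩,.mon 0 0 2,[]⟩),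
  (.comm 15 0 0,⟨false,[],⟨0,1,1,2,1,0,0,0⟩,.mon 0 0 3,[]⟩),
  (.cc 0,⟨false,[],⟨-1,-1,-2,-2,-1,-1,0,0⟩,.mon 0 0 3,[]⟩),
  (.ca 0,⟨false,[],⟨0,1,0,0,0,0,0,0⟩,.mon 0 0 3,[]⟩),
  (.comm 18 0 0,⟨false,[],⟨0,1,1,1,1,0,0,0⟩,.mon 0 0 4,[]⟩),
  (.ca 0,⟨false,[],⟨0,0,0,0,0,0,1,0⟩,.mon 0 0 4,[]⟩),
  (.cc 0,⟨false,[],⟨1,1,1,2,1,0,0,0⟩,.mon 0 0 4,[]⟩),
  (.ca 0,⟨false,[],⟨0,1,1,2,2,2,1,0⟩,.mon 0 0 4,[]⟩),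
  (.cc 0,⟨false,[],⟨0,0,0,1,1,1,0,0⟩,.mon 0 0 4,[]⟩),
  (.ca 0,⟨false,[],⟨1,1,1,2,1,1,0,0⟩,.mon 0 0 4,[]⟩),
  (.comm 24 0 0,⟨false,[],⟨1,1,2,3,2,1,0,0⟩,.mon 0 0 5,[]⟩),
  (.ca 0,⟨false,[],⟨1,1,2,3,2,2,1,0⟩,.mon 0 0 5,[]⟩),
  (.cc 0,⟨false,[],⟨1,1,1,2,2,2,1,0⟩,.mon 0 0 5,[]⟩),
  (.ca 0,⟨false,[],⟨1,1,1,2,2,1,0,0⟩,.mon 0 0 5,[]⟩),
  (.cc 3,⟨false,[],⟨0,0,0,0,1,1,1,0⟩,.mon 0 0 5,[]⟩),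
  (.ca 0,⟨false,[],⟨1,1,1,1,1,0,0,0⟩,.mon 0 0 5,[]⟩),
  (.cc 0,⟨false,[],⟨0,-1,0,-1,-1,-1,0,0⟩,.mon 0 0 5,[]⟩),
  (.comm 0 3 0,⟨false,[],⟨1,0,1,1,1,0,0,0⟩,.mon 0 0 10,[]⟩),
  (.comm 32 18 0,⟨false,[],⟨-1,-1,-1,-1,-1,-1,0,0⟩,.mon 0 0 3,[]⟩),
  (.cc 0,⟨false,[],⟨0,1,0,1,1,0,0,0⟩,.mon 0 0 3,[]⟩),
  (.ca 0,⟨false,[],⟨0,1,0,1,1,1,1,0⟩,.mon 0 0 3,[]⟩),
  (.comm 35 0 0,⟨false,[],⟨0,1,1,2,2,1,1,0⟩,.mon 0 0 4,[]⟩),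
  (.cc 0,⟨false,[],⟨0,0,0,1,1,0,0,0⟩,.mon 0 0 4,[]⟩),
  (.ca 0,⟨false,[],⟨1,2,2,3,2,2,1,0⟩,.mon 0 0 4,[]⟩),
  (.comm 38 0 0,⟨false,[],⟨1,2,3,4,3,2,1,0⟩,.mon 0 0 5,[]⟩),
  (.cc 0,⟨false,[],⟨0,-1,-1,-1,0,0,0,0⟩,.mon 0 0 5,[]⟩),
  (.ca 0,⟨false,[],⟨1,1,1,1,1,1,0,0⟩,.mon 0 0 5,[]⟩),
  (.ca 25,⟨false,[],⟨0,1,1,2,1,1,1,0⟩,.mon 0 0 3,[]⟩),
  (.cc 1,⟨false,[],⟨0,-1,0,-1,-1,0,0,0⟩,.mon 0 0 5,[]⟩),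
  (.ca 0,⟨false,[],⟨0,-1,0,-1,-1,-1,-1,0⟩,.mon 0 0 5,[]⟩),
  (.base 1,⟨false,[⟨0,1,0,1,1,1,1,0⟩,⟨0,1,0,1,1,0,0,0⟩],⟨0,1,1,2,1,0,0,0⟩,.mon 0 0 1,[⟨0,0,1,1,1,0,0,0⟩,⟨0,1,1,2,1,1,1,0⟩,⟨1,1,2,2,1,1,1,0⟩]⟩),
  (.comm 0 2 0,⟨false,[],⟨0,0,1,1,0,0,0,0⟩,.mon 0 0 6,[]⟩),
  (.cc 0,⟨false,[],⟨0,0,-1,-1,0,0,0,0⟩,.mon 0 0 6,[]⟩),
  (.comm 0 3 0,⟨false,[],⟨0,-1,-1,-2,-1,-1,-1,0⟩,.mon 0 0 11,[]⟩),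
  (.sI 0 6,⟨true,[],⟨-1,-1,-2,-2,-2,-1,0,0⟩,.mon 0 0 14,[]⟩),
  (.sN 0,⟨true,[],⟨-1,-1,-2,-2,-2,-1,0,0⟩,.mon 0 0 (-14),[]⟩),
  (.ca 14,⟨false,[],⟨1,2,2,3,2,1,1,0⟩,.mon 0 0 4,[]⟩),
  (.cc 0,⟨false,[],⟨0,-1,-1,-1,-1,-1,0,0⟩,.mon 0 0 4,[]⟩),
  (.comm 14 0 0,⟨false,[],⟨1,1,1,2,1,1,1,0⟩,.mon 0 0 8,[]⟩),
  (.cc 34,⟨false,[],⟨-1,-2,-2,-3,-2,-2,-1,0⟩,.mon 0 0 4,[]⟩),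
  (.ca 2,⟨false,[],⟨0,1,1,1,1,1,0,0⟩,.mon 0 0 4,[]⟩),
  (.comm 0 1 0,⟨false,[],⟨-1,-1,-1,-2,-1,-1,-1,0⟩,.mon 0 0 8,[]⟩),
  (.sI 0 3,⟨true,[],⟨-1,-1,-2,-2,-2,-1,0,0⟩,.mon 0 0 16,[]⟩),
  (.sA 0 7,⟨true,[],⟨-1,-1,-2,-2,-2,-1,0,0⟩,.mon 0 0 2,[]⟩),
  (.sF 0 44,⟨false,[],⟨-1,-1,-2,-2,-2,-1,0,0⟩,.all,[]⟩),
  (.comm 0 18 0,⟨false,[],⟨0,0,-1,-1,-1,0,0,0⟩,.all,[]⟩),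
  (.comm 0 28 0,⟨false,[],⟨1,0,0,0,0,0,0,0⟩,.all,[]⟩),
  (.ca 7,⟨false,[],⟨0,0,0,-1,-1,0,0,0⟩,.mon 0 0 4,[]⟩),
  (.ca 23,⟨false,[],⟨1,1,2,3,2,1,1,0⟩,.mon 0 0 5,[]⟩),
  (.cc 0,⟨false,[],⟨1,1,1,2,2,1,1,0⟩,.mon 0 0 5,[]⟩),
  (.comm 0 2 0,⟨false,[],⟨1,1,1,1,1,1,1,0⟩,.mon 0 0 9,[]⟩),
  (.ca 6,⟨false,[],⟨-1,0,-1,-1,-1,-1,-1,0⟩,.all,[]⟩),
  (.comm 0 1 0,⟨false,[],⟨0,1,0,0,0,0,0,0⟩,.all,[]⟩),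
  (.ca 3,⟨false,[],⟨1,2,2,3,3,2,1,0⟩,.mon 0 0 5,[]⟩),
  (.comm 24 0 0,⟨false,[],⟨1,1,2,2,2,1,0,0⟩,.mon 0 0 10,[]⟩),
  (.comm 26 50 0,⟨false,[],⟨0,0,1,0,0,0,0,0⟩,.mon 0 0 9,[]⟩),
  (.comm 11 0 0,⟨false,[],⟨-1,-1,-1,-2,-2,-1,0,0⟩,.all,[]⟩),
  (.comm 0 2 0,⟨false,[],⟨0,0,1,0,0,0,0,0⟩,.all,[]⟩),
  (.comm 13 47 0,⟨false,[],⟨0,0,0,1,0,0,0,0⟩,.all,[]⟩),
  (.comm 33 54 0,⟨false,[],⟨0,0,0,0,1,0,0,0⟩,.mon 0 0 9,[]⟩),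
  (.comm 15 0 0,⟨false,[],⟨-1,-1,-2,-2,-1,-1,0,0⟩,.all,[]⟩),
  (.comm 0 6 0,⟨false,[],⟨0,0,0,0,1,0,0,0⟩,.all,[]⟩),
  (.comm 48 33 0,⟨false,[],⟨1,0,1,1,1,1,0,0⟩,.mon 0 0 10,[]⟩),
  (.comm 18 22 0,⟨false,[],⟨-1,0,-1,-1,-1,0,0,0⟩,.all,[]⟩),
  (.comm 0 1 0,⟨false,[],⟨0,0,0,0,0,1,0,0⟩,.all,[]⟩),
  (.comm 48 11 0,⟨false,[],⟨1,1,2,2,2,1,1,0⟩,.mon 0 0 10,[]⟩),
  (.comm 21 0 0,⟨false,[],⟨0,0,0,0,0,0,1,0⟩,.all,[]⟩),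
  (.comm 19 60 0,⟨false,[],⟨1,1,1,1,0,0,0,0⟩,.mon 0 0 8,[]⟩),
  (.comm 82 0 0,⟨false,[],⟨1,1,2,2,1,0,0,0⟩,.mon 0 0 9,[]⟩),
  (.ca 0,⟨false,[],⟨0,0,1,1,1,1,1,0⟩,.mon 0 0 9,[]⟩),
  (.comm 18 0 0,⟨false,[],⟨-1,0,0,0,0,0,0,0⟩,.all,[]⟩),
  (.comm 41 56 0,⟨false,[],⟨0,-1,0,-1,0,0,0,0⟩,.mon 0 0 10,[]⟩),
  (.comm 13 0 0,⟨false,[],⟨0,-1,0,0,0,0,0,0⟩,.all,[]⟩),
  (.cc 3,⟨false,[],⟨1,1,1,2,2,1,0,0⟩,.mon 0 0 9,[]⟩),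
  (.comm 29 0 0,⟨false,[],⟨0,0,-1,0,0,0,0,0⟩,.all,[]⟩),
  (.cc 6,⟨false,[],⟨0,-1,-1,-2,-1,-1,0,0⟩,.mon 0 0 9,[]⟩),
  (.ca 0,⟨false,[],⟨0,0,0,-1,0,0,0,0⟩,.mon 0 0 9,[]⟩),
  (.comm 32 0 0,⟨false,[],⟨-1,-1,-2,-3,-2,-1,0,0⟩,.all,[]⟩),
  (.comm 0 23 0,⟨false,[],⟨0,0,0,-1,0,0,0,0⟩,.all,[]⟩),
  (.cc 31,⟨false,[],⟨0,-1,-1,-2,-2,-1,-1,0⟩,.mon 0 0 4,[]⟩),
  (.comm 55 0 0,⟨false,[],⟨1,1,2,2,1,1,0,0⟩,.mon 0 0 9,[]⟩),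
  (.comm 36 0 0,⟨false,[],⟨0,0,0,0,-1,0,0,0⟩,.all,[]⟩),
  (.comm 37 77 0,⟨false,[],⟨-1,0,-1,-1,-1,-1,0,0⟩,.all,[]⟩),
  (.comm 0 65 0,⟨false,[],⟨0,0,0,0,0,-1,0,0⟩,.all,[]⟩),
  (.comm 32 21 0,⟨false,[],⟨0,0,0,0,0,0,-1,0⟩,.all,[]⟩)],
  [(38,38),(14,14),(32,32),(12,12),(27,27),(10,10),(26,26),(6,6),(23,23),(3,3),(20,20),(1,1),(18,18),(0,0)]⟩⟩ = true := by decide +kernel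

theorem cE7e : (opE 7 false).check true false false false (tcE 7)
  ⟨[⟨1,1,2,3,2,1,1,0⟩,⟨0,0,0,0,-1,0,0,0⟩,⟨0,0,1,0,0,0,0,0⟩,⟨1,2,2,3,2,1,0,0⟩],[],[],[⟨0,1,1,2,1,0,0,0⟩,⟨0,-1,-1,-2,-1,0,0,0⟩,⟨1,0,0,0,0,0,0,0⟩,⟨0,1,1,2,1,1,0,0⟩,⟨0,0,0,1,1,1,1,0⟩],[⟨1,1,2,2,1,0,0,0⟩,⟨-1,-1,-1,-2,-2,-1,0,0⟩,⟨1,0,1,1,1,1,1,0⟩,⟨0,1,1,2,2,1,1,0⟩],⟨-2,-2,-3,-4,-3,-2,-1,0⟩,⟨1,0,0,0,0,0,0,0⟩,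
  ⟨[],[],[],[(⟨0,1,1,2,1,1,0,0⟩,some (0,0,1)),(⟨0,0,0,0,0,1,0,0⟩,some (0,0,0))],0,⟨0,1,1,2,1,1,0,0⟩,⟨0,1,1,2,1,1,0,0⟩,⟨0,1,1,2,1,1,0,0⟩,⟨0,1,1,2,1,1,0,0⟩,(0,0,0),[⟨-1,-1,-1,-1,0,0,0,0⟩,⟨1,1,2,3,3,2,1,0⟩],
  [(.base 0,⟨false,[],⟨1,1,2,3,3,2,1,0⟩,.mon 0 0 0,[⟨-1,-1,-1,-1,0,0,0,0⟩,⟨0,1,1,2,1,1,0,0⟩,⟨0,0,0,0,0,1,0,0⟩]⟩),
  (.cc 0,⟨false,[],⟨-1,-1,-1,-2,-2,-1,-1,0⟩,.mon 0 0 0,[⟨0,-1,0,-1,-1,-1,-1,0⟩,⟨1,1,2,3,2,2,1,0⟩,⟨1,2,3,4,3,2,1,0⟩]⟩),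
  (.comm 1 0 0,⟨false,[],⟨0,0,1,1,1,1,0,0⟩,.mon 0 0 0,[]⟩),
  (.ca 0,⟨false,[],⟨0,0,0,1,1,1,0,0⟩,.mon 0 0 0,[]⟩),
  (.cc 0,⟨false,[],⟨0,0,1,1,0,0,0,0⟩,.mon 0 0 0,[]⟩),
  (.ca 0,⟨false,[],⟨-1,-1,-2,-2,-1,-1,-1,0⟩,.mon 0 0 0,[]⟩),
  (.cc 0,⟨false,[],⟨0,-1,0,-1,-1,-1,0,0⟩,.mon 0 0 0,[]⟩),
  (.ca 0,⟨false,[],⟨0,0,-1,-1,-1,-1,-1,0⟩,.mon 0 0 0,[]⟩),
  (.cc 0,⟨false,[],⟨0,0,0,0,0,0,1,0⟩,.mon 0 0 0,[]⟩),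
  (.comm 0 1 0,⟨false,[],⟨0,0,-1,-1,-1,-1,0,0⟩,.mon 0 0 0,[]⟩),
  (.comm 3 6 0,⟨false,[],⟨0,-1,0,0,0,0,0,0⟩,.mon 0 0 0,[]⟩),
  (.comm 0 3 0,⟨false,[],⟨0,-1,-1,-1,-1,-1,-1,0⟩,.mon 0 0 0,[]⟩),
  (.ca 3,⟨false,[],⟨0,1,0,0,0,0,0,0⟩,.mon 0 0 0,[]⟩),
  (.cc 0,⟨false,[],⟨1,1,1,1,1,1,1,0⟩,.mon 0 0 0,[]⟩),
  (.comm 0 2 0,⟨false,[],⟨1,0,0,0,0,0,0,0⟩,.mon 0 0 0,[]⟩),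
  (.comm 1 10 0,⟨false,[],⟨1,1,2,2,1,1,1,0⟩,.mon 0 0 0,[]⟩),
  (.comm 10 11 0,⟨false,[],⟨-1,-1,-1,-1,-1,-1,-1,0⟩,.mon 0 0 0,[]⟩),
  (.comm 4 0 0,⟨false,[],⟨-1,0,-1,-1,-1,-1,-1,0⟩,.mon 0 0 0,[]⟩),
  (.comm 17 0 0,⟨false,[],⟨0,1,1,2,2,1,0,0⟩,.mon 0 0 0,[]⟩),
  (.comm 0 3 0,⟨false,[],⟨1,2,3,4,3,2,1,0⟩,.mon 0 0 0,[]⟩),
  (.comm 13 14 0,⟨false,[],⟨-1,-2,-2,-3,-2,-2,-1,0⟩,.mon 0 0 0,[]⟩),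
  (.comm 7 0 0,⟨false,[],⟨0,-1,-1,-2,-1,-1,0,0⟩,.mon 0 0 0,[]⟩),
  (.ca 3,⟨false,[],⟨-1,-1,-1,-1,-1,0,0,0⟩,.mon 0 0 0,[]⟩),
  (.comm 0 15 0,⟨false,[],⟨-1,-1,-2,-2,-2,-1,-1,0⟩,.mon 0 0 0,[]⟩),
  (.comm 0 2 0,⟨false,[],⟨-1,-2,-3,-4,-3,-2,-1,0⟩,.mon 0 0 0,[]⟩),
  (.base 1,⟨false,[],⟨-1,-1,-1,-1,0,0,0,0⟩,.mon 0 0 1,[⟨1,1,2,3,3,2,1,0⟩,⟨0,1,1,2,1,1,0,0⟩,⟨0,0,0,0,0,1,0,0⟩]⟩),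
  (.comm 0 10 0,⟨false,[],⟨0,0,1,1,1,1,1,0⟩,.mon 0 0 1,[]⟩),
  (.comm 0 2 0,⟨false,[],⟨-1,-2,-2,-3,-2,-1,0,0⟩,.mon 0 0 1,[]⟩),
  (.comm 0 20 0,⟨false,[],⟨-1,-2,-3,-4,-3,-2,-1,0⟩,.mon 0 0 1,[]⟩),
  (.sI 0 9,⟨true,[],⟨0,0,1,1,1,1,0,0⟩,.mon 0 0 1,[]⟩),
  (.sF 0 27,⟨false,[],⟨0,0,1,1,1,1,0,0⟩,.all,[]⟩),
  (.comm 0 16 0,⟨false,[],⟨1,0,1,1,1,1,0,0⟩,.all,[]⟩),
  (.comm 0 22 0,⟨false,[],⟨1,0,0,0,0,0,0,0⟩,.all,[]⟩),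
  (.comm 2 20 0,⟨false,[],⟨0,1,1,1,1,1,0,0⟩,.all,[]⟩),
  (.comm 0 24 0,⟨false,[],⟨0,1,0,0,0,0,0,0⟩,.all,[]⟩),
  (.comm 22 28 0,⟨false,[],⟨0,0,0,-1,-1,-1,0,0⟩,.mon 0 0 0,[]⟩),
  (.comm 5 0 0,⟨false,[],⟨0,0,1,0,0,0,0,0⟩,.all,[]⟩),
  (.comm 29 32 0,⟨false,[],⟨0,0,0,0,-1,-1,-1,0⟩,.mon 0 0 0,[]⟩),
  (.comm 0 29 0,⟨false,[],⟨0,0,0,0,-1,-1,0,0⟩,.mon 0 0 0,[]⟩),
  (.ca 8,⟨false,[],⟨0,0,0,1,1,1,0,0⟩,.all,[]⟩),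
  (.comm 0 1 0,⟨false,[],⟨0,0,0,1,0,0,0,0⟩,.all,[]⟩),
  (.comm 33 34 0,⟨false,[],⟨0,-1,-1,-2,-2,-2,-1,0⟩,.mon 0 0 0,[]⟩),
  (.comm 23 0 0,⟨false,[],⟨0,0,0,0,0,-1,-1,0⟩,.mon 0 0 0,[]⟩),
  (.comm 0 29 0,⟨false,[],⟨1,1,1,1,1,0,0,0⟩,.mon 0 0 0,[]⟩),
  (.comm 35 38 0,⟨false,[],⟨-1,-1,-2,-2,-1,-1,0,0⟩,.mon 0 0 0,[]⟩),
  (.comm 14 0 0,⟨false,[],⟨-1,-1,-1,-1,0,0,0,0⟩,.all,[]⟩),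
  (.comm 0 2 0,⟨false,[],⟨0,0,0,0,1,0,0,0⟩,.all,[]⟩),
  (.comm 23 33 0,⟨false,[],⟨0,0,-1,-1,-1,0,0,0⟩,.mon 0 0 0,[]⟩),
  (.comm 17 0 0,⟨false,[],⟨0,0,0,0,0,1,0,0⟩,.all,[]⟩),
  (.comm 18 40 0,⟨false,[],⟨0,0,1,1,1,1,1,0⟩,.all,[]⟩),
  (.comm 0 40 0,⟨false,[],⟨0,0,0,0,0,0,1,0⟩,.all,[]⟩),
  (.comm 42 34 0,⟨false,[],⟨-1,-1,-1,-1,-1,-1,0,0⟩,.mon 0 0 0,[]⟩),
  (.comm 0 39 0,⟨false,[],⟨-1,0,-1,-1,-1,-1,0,0⟩,.mon 0 0 0,[]⟩),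
  (.comm 22 0 0,⟨false,[],⟨-1,0,0,0,0,0,0,0⟩,.all,[]⟩),
  (.comm 42 45 0,⟨false,[],⟨0,-1,-1,-1,-1,-1,0,0⟩,.mon 0 0 0,[]⟩),
  (.comm 24 0 0,⟨false,[],⟨0,-1,0,0,0,0,0,0⟩,.all,[]⟩),
  (.comm 16 46 0,⟨false,[],⟨0,0,-1,0,0,0,0,0⟩,.all,[]⟩),
  (.comm 23 35 0,⟨false,[],⟨0,0,0,-1,0,0,0,0⟩,.all,[]⟩),
  (.comm 27 19 0,⟨false,[],⟨0,0,1,1,0,0,0,0⟩,.all,[]⟩),
  (.comm 0 11 0,⟨false,[],⟨0,0,0,0,-1,0,0,0⟩,.all,[]⟩),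
  (.comm 41 53 0,⟨false,[],⟨0,0,1,1,1,0,0,0⟩,.mon 0 0 0,[]⟩),
  (.comm 0 51 0,⟨false,[],⟨0,0,0,0,0,-1,0,0⟩,.mon 0 0 0,[]⟩),
  (.comm 31 0 0,⟨false,[],⟨0,0,1,1,1,0,0,0⟩,.all,[]⟩),
  (.comm 0 53 0,⟨false,[],⟨0,0,0,0,0,-1,0,0⟩,.all,[]⟩),
  (.comm 33 56 0,⟨false,[],⟨0,0,0,0,0,0,-1,0⟩,.all,[]⟩)],
  [(32,32),(11,11),(30,30),(9,9),(28,28),(8,8),(24,24),(7,7),(18,18),(5,5),(16,16),(1,1),(14,14),(0,0)]⟩⟩ = true := by decide +kernel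

theorem cE8u : (opE 8 false).check false false false false (tcE 8)
  ⟨[⟨-1,-2,-2,-3,-2,-2,-2,-1⟩,⟨1,1,2,3,3,3,2,1⟩,⟨1,2,3,4,3,2,1,1⟩,⟨1,1,2,3,2,1,1,0⟩],[⟨0,0,0,1,1,1,1,0⟩,⟨2,3,4,6,4,3,2,1⟩,⟨2,3,4,6,5,4,3,1⟩,⟨-1,-1,-1,-2,-2,-2,-2,-1⟩],[],[⟨-1,-1,-1,-1,-1,-1,-1,0⟩,⟨0,1,1,2,2,1,1,1⟩,⟨-1,-2,-2,-3,-3,-2,-1,0⟩,⟨1,1,2,2,2,2,2,1⟩,⟨0,0,0,-1,0,0,0,0⟩,⟨1,2,2,4,3,3,2,1⟩,⟨0,-1,-1,-1,0,0,0,0⟩,⟨1,2,3,5,4,3,2,1⟩],[⟨0,0,0,-1,-1,0,0,0⟩,⟨1,3,3,5,4,3,2,1⟩,⟨1,1,1,2,2,2,1,1⟩,⟨0,0,-1,-1,-1,-1,0,0⟩],⟨-2,-3,-4,-6,-5,-4,-3,-2⟩,⟨0,0,0,0,0,0,0,1⟩,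
  ⟨[⟨0,0,0,0,0,1,1,0⟩,⟨-1,-1,-2,-2,-2,-2,-1,-1⟩],[],[⟨-1,-1,-1,-2,-2,-2,-2,-1⟩,⟨0,1,1,2,2,2,1,1⟩],[(⟨1,1,2,2,2,1,0,0⟩,some (0,0,0)),(⟨1,1,1,2,2,1,0,0⟩,some (0,0,1))],0,⟨1,1,2,2,2,1,0,0⟩,⟨1,1,2,2,2,1,0,0⟩,⟨1,1,2,2,2,1,0,0⟩,⟨1,1,2,2,2,1,0,0⟩,(0,0,0),[⟨1,1,1,1,1,1,1,0⟩,⟨2,3,3,5,4,3,2,1⟩],
  [(.base 0,⟨false,[⟨-1,-1,-1,-2,-2,-2,-2,-1⟩,⟨0,1,1,2,2,2,1,1⟩,⟨0,0,0,0,0,1,1,0⟩,⟨-1,-1,-2,-2,-2,-2,-1,-1⟩],⟨2,3,3,5,4,3,2,1⟩,.mon 0 0 1,[⟨1,1,1,1,1,1,1,0⟩,⟨1,1,2,2,2,1,0,0⟩,⟨1,1,1,2,2,1,0,0⟩]⟩),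
  (.cc 0,⟨false,[⟨0,0,-1,-1,-1,-1,-1,0⟩,⟨-2,-3,-4,-6,-5,-4,-2,-1⟩,⟨0,0,0,1,1,1,1,0⟩,⟨0,0,0,0,0,1,0,0⟩],⟨0,-1,0,-1,-1,-1,-1,-1⟩,.mon 0 0 1,[⟨1,1,2,3,3,2,1,0⟩,⟨1,1,1,1,1,0,0,0⟩,⟨0,0,0,-1,-1,-1,-1,-1⟩]⟩),
  (.comm 1 0 0,⟨false,[],⟨2,2,3,4,3,2,1,0⟩,.mon 0 0 2,[]⟩),
  (.ca 0,⟨false,[],⟨1,1,1,1,1,1,0,0⟩,.mon 0 0 2,[]⟩),
  (.cc 0,⟨false,[],⟨0,0,0,0,0,-1,-1,-1⟩,.mon 0 0 2,[]⟩),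
  (.ca 0,⟨false,[],⟨1,2,2,3,3,3,2,1⟩,.mon 0 0 2,[]⟩),
  (.cc 0,⟨false,[],⟨-1,-2,-2,-3,-2,-2,-1,-1⟩,.mon 0 0 2,[]⟩),
  (.ca 0,⟨false,[],⟨0,1,1,1,1,1,1,1⟩,.mon 0 0 2,[]⟩),
  (.cc 0,⟨false,[],⟨-1,-2,-2,-3,-2,-2,-1,0⟩,.mon 0 0 2,[]⟩),
  (.ca 0,⟨false,[],⟨0,0,0,0,0,0,1,1⟩,.mon 0 0 2,[]⟩),
  (.comm 0 6 0,⟨false,[],⟨1,1,1,1,1,1,1,1⟩,.mon 0 0 4,[]⟩),
  (.cc 1,⟨false,[],⟨0,0,1,1,1,1,1,1⟩,.mon 0 0 2,[]⟩),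
  (.ca 0,⟨false,[],⟨-2,-3,-4,-6,-5,-4,-2,-1⟩,.mon 0 0 2,[]⟩),
  (.cc 0,⟨false,[],⟨0,1,1,2,2,2,1,1⟩,.mon 0 0 2,[]⟩),
  (.ca 0,⟨false,[],⟨-1,-1,-2,-2,-2,-2,-1,-1⟩,.mon 0 0 2,[]⟩),
  (.comm 0 4 0,⟨false,[],⟨0,0,-1,-1,-1,-1,0,0⟩,.mon 0 0 6,[]⟩),
  (.cc 1,⟨false,[],⟨0,0,0,0,0,1,0,0⟩,.mon 0 0 2,[]⟩),
  (.comm 0 8 0,⟨false,[],⟨-1,-2,-2,-3,-2,-1,-1,0⟩,.mon 0 0 4,[]⟩),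
  (.comm 0 2 0,⟨false,[],⟨-1,-2,-3,-4,-3,-2,-1,0⟩,.mon 0 0 10,[]⟩),
  (.comm 5 16 0,⟨false,[],⟨2,3,4,6,5,4,2,1⟩,.mon 0 0 4,[]⟩),
  (.comm 12 17 0,⟨false,[],⟨2,3,4,5,4,3,2,1⟩,.mon 0 0 4,[]⟩),
  (.comm 0 12 0,⟨false,[],⟨1,1,2,2,2,1,1,1⟩,.mon 0 0 6,[]⟩),
  (.comm 7 0 0,⟨false,[],⟨0,0,0,0,0,-1,0,0⟩,.mon 0 0 8,[]⟩),
  (.comm 6 10 0,⟨false,[],⟨-2,-3,-4,-6,-5,-3,-2,-1⟩,.mon 0 0 4,[]⟩),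
  (.comm 0 1 0,⟨false,[],⟨-2,-3,-4,-6,-5,-4,-2,-1⟩,.mon 0 0 12,[]⟩),
  (.sI 0 5,⟨true,[],⟨2,2,3,4,3,2,1,0⟩,.mon 0 0 16,[]⟩),
  (.sN 0,⟨true,[],⟨2,2,3,4,3,2,1,0⟩,.mon 0 0 (-16),[]⟩),
  (.comm 15 24 0,⟨false,[],⟨2,2,4,5,4,3,2,1⟩,.mon 0 0 4,[]⟩),
  (.comm 13 22 0,⟨false,[],⟨0,1,0,1,1,1,1,0⟩,.mon 0 0 4,[]⟩),
  (.comm 0 1 0,⟨false,[],⟨2,3,4,6,5,4,3,1⟩,.mon 0 0 8,[]⟩),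
  (.comm 17 26 0,⟨false,[],⟨-1,-2,-3,-5,-4,-3,-2,-1⟩,.mon 0 0 4,[]⟩),
  (.comm 0 17 0,⟨false,[],⟨-1,-1,-2,-3,-2,-1,-1,0⟩,.mon 0 0 6,[]⟩),
  (.ca 15,⟨false,[],⟨0,0,0,0,-1,-1,-1,-1⟩,.mon 0 0 2,[]⟩),
  (.comm 0 24 0,⟨false,[],⟨-1,-2,-2,-3,-3,-3,-2,-1⟩,.mon 0 0 4,[]⟩),
  (.comm 0 2 0,⟨false,[],⟨-2,-3,-4,-6,-5,-4,-3,-1⟩,.mon 0 0 10,[]⟩),
  (.sI 0 5,⟨true,[],⟨2,2,3,4,3,2,1,0⟩,.mon 0 0 18,[]⟩),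
  (.sA 0 9,⟨true,[],⟨2,2,3,4,3,2,1,0⟩,.mon 0 0 2,[]⟩),
  (.sF 0 34,⟨false,[],⟨2,2,3,4,3,2,1,0⟩,.all,[]⟩),
  (.comm 0 19 0,⟨false,[],⟨1,0,0,0,0,0,0,0⟩,.all,[]⟩),
  (.comm 24 31 0,⟨false,[],⟨-1,0,-1,-1,-1,-1,0,0⟩,.mon 0 0 4,[]⟩),
  (.ca 2,⟨false,[],⟨1,1,1,1,1,1,0,0⟩,.all,[]⟩),
  (.comm 0 1 0,⟨false,[],⟨0,1,0,0,0,0,0,0⟩,.all,[]⟩),
  (.comm 30 37 0,⟨false,[],⟨0,0,1,1,1,0,0,0⟩,.mon 0 0 4,[]⟩),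
  (.comm 19 0 0,⟨false,[],⟨-2,-3,-3,-5,-4,-3,-2,-1⟩,.mon 0 0 8,[]⟩),
  (.comm 6 36 0,⟨false,[],⟨2,3,4,5,4,3,2,1⟩,.all,[]⟩),
  (.comm 0 1 0,⟨false,[],⟨0,0,1,0,0,0,0,0⟩,.all,[]⟩),
  (.comm 32 33 0,⟨false,[],⟨-2,-2,-3,-4,-3,-2,-1,0⟩,.mon 0 0 4,[]⟩),
  (.cc 14,⟨false,[],⟨1,1,1,2,1,1,0,0⟩,.mon 0 0 2,[]⟩),
  (.comm 0 1 0,⟨false,[],⟨-1,-1,-2,-2,-2,-1,-1,0⟩,.mon 0 0 6,[]⟩),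
  (.comm 34 37 0,⟨false,[],⟨-1,-1,-1,-1,-1,-1,0,0⟩,.mon 0 0 4,[]⟩),
  (.comm 12 0 0,⟨false,[],⟨1,1,2,3,2,1,1,0⟩,.all,[]⟩),
  (.comm 0 2 0,⟨false,[],⟨0,0,0,1,0,0,0,0⟩,.all,[]⟩),
  (.comm 46 47 0,⟨false,[],⟨1,2,2,3,3,2,1,0⟩,.mon 0 0 4,[]⟩),
  (.comm 40 0 0,⟨false,[],⟨-1,-1,-2,-3,-2,-2,-1,-1⟩,.mon 0 0 6,[]⟩),
  (.comm 0 40 0,⟨false,[],⟨-1,0,-1,-1,0,0,0,0⟩,.mon 0 0 8,[]⟩),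
  (.comm 17 46 0,⟨false,[],⟨1,0,1,1,1,0,0,0⟩,.all,[]⟩),
  (.comm 0 1 0,⟨false,[],⟨0,0,0,0,1,0,0,0⟩,.all,[]⟩),
  (.comm 7 40 0,⟨false,[],⟨-1,-1,-1,-1,-1,0,0,0⟩,.mon 0 0 6,[]⟩),
  (.comm 17 0 0,⟨false,[],⟨0,0,0,0,0,1,0,0⟩,.all,[]⟩),
  (.comm 42 49 0,⟨false,[],⟨0,0,0,0,0,1,1,1⟩,.mon 0 0 4,[]⟩),
  (.comm 0 45 0,⟨false,[],⟨-1,-1,-2,-2,-2,-1,0,0⟩,.mon 0 0 6,[]⟩),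
  (.comm 53 54 0,⟨false,[],⟨-1,-1,-1,-2,-1,-1,0,0⟩,.mon 0 0 4,[]⟩),
  (.comm 24 0 0,⟨false,[],⟨1,1,2,2,2,1,1,0⟩,.all,[]⟩),
  (.comm 0 2 0,⟨false,[],⟨0,0,0,0,0,0,1,0⟩,.all,[]⟩),
  (.comm 16 56 0,⟨false,[],⟨1,2,2,3,2,2,1,1⟩,.mon 0 0 4,[]⟩),
  (.comm 0 56 0,⟨false,[],⟨0,0,0,0,0,0,0,1⟩,.mon 0 0 6,[]⟩),
  (.comm 28 0 0,⟨false,[],⟨2,2,3,4,3,2,1,1⟩,.all,[]⟩),
  (.comm 0 20 0,⟨false,[],⟨0,0,0,0,0,0,0,1⟩,.all,[]⟩),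
  (.comm 60 63 0,⟨false,[],⟨0,1,1,1,1,0,0,0⟩,.mon 0 0 4,[]⟩),
  (.comm 52 0 0,⟨false,[],⟨0,1,1,1,1,1,0,0⟩,.mon 0 0 6,[]⟩),
  (.comm 0 20 0,⟨false,[],⟨-1,0,0,0,0,0,0,0⟩,.mon 0 0 10,[]⟩),
  (.comm 33 0 0,⟨false,[],⟨1,2,3,4,3,2,1,0⟩,.all,[]⟩),
  (.comm 0 25 0,⟨false,[],⟨-1,0,0,0,0,0,0,0⟩,.all,[]⟩),
  (.comm 17 15 0,⟨false,[],⟨0,-1,0,0,0,0,0,0⟩,.all,[]⟩),
  (.comm 65 68 0,⟨false,[],⟨0,0,0,0,1,1,1,1⟩,.mon 0 0 4,[]⟩),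
  (.comm 60 0 0,⟨false,[],⟨-1,-1,-2,-2,-1,-1,0,0⟩,.mon 0 0 6,[]⟩),
  (.comm 38 0 0,⟨false,[],⟨1,1,1,2,2,1,1,0⟩,.all,[]⟩),
  (.comm 0 28 0,⟨false,[],⟨0,0,-1,0,0,0,0,0⟩,.all,[]⟩),
  (.comm 37 16 0,⟨false,[],⟨0,0,0,-1,0,0,0,0⟩,.all,[]⟩),
  (.comm 46 32 0,⟨false,[],⟨-2,-2,-3,-4,-4,-3,-2,-1⟩,.mon 0 0 6,[]⟩),
  (.comm 42 20 0,⟨false,[],⟨2,2,3,4,3,3,2,1⟩,.all,[]⟩),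
  (.comm 0 1 0,⟨false,[],⟨0,0,0,0,-1,0,0,0⟩,.all,[]⟩),
  (.comm 26 42 0,⟨false,[],⟨0,0,0,0,0,-1,0,0⟩,.all,[]⟩),
  (.comm 49 69 0,⟨false,[],⟨-1,-1,-1,-1,-1,-1,-1,0⟩,.mon 0 0 6,[]⟩),
  (.comm 43 0 0,⟨false,[],⟨0,0,0,0,0,0,-1,0⟩,.all,[]⟩),
  (.comm 68 78 0,⟨false,[],⟨-1,-2,-2,-3,-2,-1,-1,-1⟩,.mon 0 0 4,[]⟩),
  (.comm 0 46 0,⟨false,[],⟨-2,-2,-3,-4,-3,-2,-1,-1⟩,.mon 0 0 8,[]⟩),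
  (.comm 49 0 0,⟨false,[],⟨0,0,0,0,0,0,0,-1⟩,.all,[]⟩)],
  [(49,49),(15,15),(46,46),(14,14),(42,42),(10,10),(36,36),(9,9),(31,31),(6,6),(29,29),(5,5),(24,24),(3,3),(20,20),(0,0)]⟩⟩ = true := by decide +kernel

theorem cFo : (opE 6 true).check false true false true (tcE 6)
  ⟨[⟨0,0,0,0,1,1,0,0⟩,⟨0,1,1,1,1,0,0,0⟩],[⟨-1,0,-1,-1,-1,-1,0,0⟩],[],[⟨1,0,1,1,0,0,0,0⟩,⟨0,0,0,0,-1,0,0,0⟩,⟨-1,0,-1,-1,-1,0,0,0⟩,⟨-1,-1,-2,-2,-2,-1,0,0⟩],[⟨-1,-1,-1,-2,-1,0,0,0⟩,⟨-1,0,-1,-1,-1,-1,0,0⟩],⟨-1,-2,-2,-3,-2,-1,0,0⟩,⟨0,1,0,0,0,0,0,0⟩,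
  ⟨[⟨1,1,2,3,2,1,0,0⟩,⟨0,1,1,2,1,0,0,0⟩],[],[⟨1,1,2,3,2,1,0,0⟩,⟨1,0,1,1,1,1,0,0⟩],[(⟨0,0,0,1,1,0,0,0⟩,some (1,0,0)),(⟨0,0,1,1,1,0,0,0⟩,some (0,0,0))],0,⟨0,0,0,1,1,0,0,0⟩,⟨0,0,0,1,1,0,0,0⟩,⟨0,0,0,1,1,0,0,0⟩,⟨0,0,0,1,1,0,0,0⟩,(0,0,0),[⟨1,0,1,1,1,0,0,0⟩,⟨0,-1,0,0,0,0,0,0⟩],
  [(.base 0,⟨false,[⟨1,1,2,3,2,1,0,0⟩,⟨1,0,1,1,1,1,0,0⟩,⟨1,1,2,3,2,1,0,0⟩,⟨0,1,1,2,1,0,0,0⟩],⟨0,-1,0,0,0,0,0,0⟩,.mon 0 0 0,[⟨1,0,1,1,1,0,0,0⟩,⟨0,0,0,1,1,0,0,0⟩,⟨0,0,1,1,1,0,0,0⟩]⟩),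
  (.cc 0,⟨false,[⟨-1,-1,-1,-2,-1,-1,0,0⟩,⟨-1,0,-1,-1,-1,-1,0,0⟩,⟨-1,-1,-1,-2,-1,-1,0,0⟩,⟨0,-1,0,-1,0,0,0,0⟩],⟨-1,-1,-1,-1,-1,-1,0,0⟩,.mon 0 0 0,[⟨-1,0,0,0,0,0,0,0⟩,⟨-1,-1,-1,-1,0,0,0,0⟩,⟨0,0,1,1,1,0,0,0⟩]⟩),
  (.ca 0,⟨false,[⟨-1,-2,-2,-3,-2,-1,0,0⟩,⟨0,-1,-1,-2,-1,0,0,0⟩,⟨-1,-2,-2,-3,-2,-1,0,0⟩,⟨-1,-1,-1,-1,-1,-1,0,0⟩],⟨0,-1,0,-1,0,0,0,0⟩,.mon 0 0 0,[⟨0,-1,0,-1,-1,0,0,0⟩,⟨0,-1,0,-1,-1,-1,0,0⟩,⟨0,-1,0,0,0,0,0,0⟩]⟩),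
  (.cc 0,⟨false,[⟨0,0,0,1,0,0,0,0⟩,⟨0,1,0,1,0,0,0,0⟩,⟨0,0,0,1,0,0,0,0⟩,⟨0,-1,0,0,0,0,0,0⟩],⟨0,1,1,2,1,0,0,0⟩,.mon 0 0 0,[⟨0,0,0,0,-1,-1,0,0⟩,⟨0,0,1,1,0,0,0,0⟩,⟨-1,-1,-1,-1,-1,-1,0,0⟩]⟩),
  (.ca 0,⟨false,[⟨1,1,2,2,2,1,0,0⟩,⟨1,1,1,1,1,1,0,0⟩,⟨1,1,2,2,2,1,0,0⟩,⟨0,0,1,1,1,0,0,0⟩],⟨1,0,1,1,1,1,0,0⟩,.mon 0 0 0,[⟨0,0,0,0,1,1,0,0⟩,⟨0,0,1,1,1,1,0,0⟩,⟨0,-1,0,-1,0,0,0,0⟩]⟩),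
  (.cc 0,⟨false,[⟨0,1,1,1,1,0,0,0⟩,⟨0,1,0,0,0,0,0,0⟩,⟨0,1,1,1,1,0,0,0⟩,⟨0,0,1,1,1,0,0,0⟩],⟨-1,0,-1,-1,-1,-1,0,0⟩,.mon 0 0 0,[⟨0,1,0,1,1,0,0,0⟩,⟨0,0,0,0,0,-1,0,0⟩,⟨0,1,1,2,1,0,0,0⟩]⟩),
  (.mul 5 0,⟨false,[⟨1,1,2,3,2,1,0,0⟩,⟨1,0,1,1,1,1,0,0⟩,⟨1,1,2,3,2,1,0,0⟩,⟨0,1,1,2,1,0,0,0⟩,⟨0,1,1,1,1,0,0,0⟩,⟨0,1,0,0,0,0,0,0⟩,⟨0,1,1,1,1,0,0,0⟩,⟨0,0,1,1,1,0,0,0⟩],⟨0,-1,0,0,0,0,0,0⟩,.mon 0 0 0,[⟨1,0,1,1,1,0,0,0⟩,⟨0,0,0,1,1,0,0,0⟩,⟨0,0,1,1,1,0,0,0⟩,⟨-1,0,-1,-1,-1,-1,0,0⟩,⟨0,1,0,1,1,0,0,0⟩,⟨0,0,0,0,0,-1,0,0⟩,⟨0,1,1,2,1,0,0,0⟩]⟩),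
  (.sq 0 1,⟨false,[],⟨0,-1,0,0,0,0,0,0⟩,.mon 0 0 0,[⟨-1,0,-1,-1,-1,-1,0,0⟩,⟨-1,-1,-1,-1,-1,-1,0,0⟩,⟨0,0,0,1,1,0,0,0⟩,⟨0,1,1,2,1,0,0,0⟩,⟨0,0,0,0,0,-1,0,0⟩,⟨0,0,1,1,1,0,0,0⟩,⟨1,1,2,2,1,0,0,0⟩]⟩),
  (.cc 0,⟨false,[],⟨-1,-1,-1,-1,-1,-1,0,0⟩,.mon 0 0 0,[⟨1,0,1,1,1,1,0,0⟩,⟨0,-1,0,0,0,0,0,0⟩,⟨-1,-1,-1,-1,0,0,0,0⟩,⟨0,-1,0,-1,0,0,0,0⟩,⟨0,0,1,1,1,1,0,0⟩,⟨0,0,1,1,1,0,0,0⟩,⟨0,0,1,0,0,0,0,0⟩]⟩),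
  (.ca 0,⟨false,[],⟨0,-1,0,-1,0,0,0,0⟩,.mon 0 0 0,[⟨0,1,1,2,1,0,0,0⟩,⟨0,0,1,1,1,0,0,0⟩,⟨0,-1,0,-1,-1,-1,0,0⟩,⟨-1,-1,-1,-1,-1,-1,0,0⟩,⟨0,0,1,1,0,0,0,0⟩,⟨0,-1,0,0,0,0,0,0⟩,⟨-1,-1,-1,-1,-1,0,0,0⟩]⟩),
  (.cc 0,⟨false,[],⟨0,1,1,2,1,0,0,0⟩,.mon 0 0 0,[⟨0,-1,0,-1,0,0,0,0⟩,⟨0,0,1,1,1,0,0,0⟩,⟨0,0,1,1,0,0,0,0⟩,⟨0,-1,0,0,0,0,0,0⟩,⟨0,-1,0,-1,-1,-1,0,0⟩,⟨-1,-1,-1,-1,-1,-1,0,0⟩,⟨0,-1,-1,-1,-1,-1,0,0⟩]⟩),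
  (.ca 0,⟨false,[],⟨1,0,1,1,1,1,0,0⟩,.mon 0 0 0,[⟨-1,-1,-1,-1,-1,-1,0,0⟩,⟨0,-1,0,0,0,0,0,0⟩,⟨0,0,1,1,1,1,0,0⟩,⟨0,0,1,1,1,0,0,0⟩,⟨-1,-1,-1,-1,0,0,0,0⟩,⟨0,-1,0,-1,0,0,0,0⟩,⟨0,0,0,0,1,0,0,0⟩]⟩),
  (.cc 0,⟨false,[],⟨-1,0,-1,-1,-1,-1,0,0⟩,.mon 0 0 0,[⟨0,-1,0,0,0,0,0,0⟩,⟨-1,-1,-1,-1,-1,-1,0,0⟩,⟨0,0,0,0,0,-1,0,0⟩,⟨0,0,1,1,1,0,0,0⟩,⟨0,0,0,1,1,0,0,0⟩,⟨0,1,1,2,1,0,0,0⟩,⟨0,1,1,2,2,1,0,0⟩]⟩),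
  (.ca 0,⟨false,[],⟨0,-1,-1,-2,-1,0,0,0⟩,.mon 0 0 0,[⟨0,0,1,1,1,0,0,0⟩,⟨0,-1,0,-1,0,0,0,0⟩,⟨0,-1,-1,-1,0,0,0,0⟩,⟨0,-1,0,0,0,0,0,0⟩,⟨1,0,1,1,1,0,0,0⟩,⟨1,0,1,1,1,1,0,0⟩,⟨1,0,1,1,0,0,0,0⟩]⟩),
  (.cc 0,⟨false,[],⟨0,1,0,1,0,0,0,0⟩,.mon 0 0 0,[⟨0,0,1,1,1,0,0,0⟩,⟨0,1,1,2,1,0,0,0⟩,⟨-1,0,-1,0,0,0,0,0⟩,⟨-1,-1,-1,-1,-1,-1,0,0⟩,⟨-1,0,0,0,0,0,0,0⟩,⟨-1,0,-1,-1,-1,-1,0,0⟩,⟨-1,-1,-1,-2,-2,-1,0,0⟩]⟩),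
  (.comm 7 0 0,⟨false,[],⟨0,0,0,1,0,0,0,0⟩,.mon 0 0 0,[⟨-1,-1,-1,-1,-1,-1,0,0⟩,⟨0,1,1,2,1,0,0,0⟩,⟨0,0,0,0,0,-1,0,0⟩]⟩),
  (.ca 0,⟨false,[],⟨1,1,2,2,2,1,0,0⟩,.mon 0 0 0,[⟨0,-1,0,-1,0,0,0,0⟩,⟨1,0,1,1,1,1,0,0⟩,⟨0,-1,-1,-1,0,0,0,0⟩]⟩),
  (.cc 0,⟨false,[],⟨0,1,1,1,1,0,0,0⟩,.mon 0 0 0,[⟨0,1,1,2,1,0,0,0⟩,⟨-1,0,-1,-1,-1,-1,0,0⟩,⟨-1,0,-1,0,0,0,0,0⟩]⟩),
  (.comm 2 0 0,⟨false,[],⟨0,1,1,2,1,0,0,0⟩,.mon 0 0 0,[]⟩),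
  (.ca 0,⟨false,[],⟨1,0,1,1,1,1,0,0⟩,.mon 0 0 0,[]⟩),
  (.cc 0,⟨false,[],⟨-1,0,-1,-1,-1,-1,0,0⟩,.mon 0 0 0,[]⟩),
  (.ca 0,⟨false,[],⟨0,-1,-1,-2,-1,0,0,0⟩,.mon 0 0 0,[]⟩),
  (.cc 0,⟨false,[],⟨0,1,0,1,0,0,0,0⟩,.mon 0 0 0,[]⟩),
  (.ca 0,⟨false,[],⟨1,1,1,1,1,1,0,0⟩,.mon 0 0 0,[]⟩),
  (.comm 0 5 0,⟨false,[],⟨1,2,2,3,2,1,0,0⟩,.mon 0 0 0,[]⟩),
  (.comm 3 4 0,⟨false,[],⟨-1,-1,-2,-3,-2,-1,0,0⟩,.mon 0 0 0,[]⟩),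
  (.base 1,⟨false,[⟨1,1,2,3,2,1,0,0⟩,⟨1,0,1,1,1,1,0,0⟩,⟨1,1,2,3,2,1,0,0⟩,⟨0,1,1,2,1,0,0,0⟩],⟨1,0,1,1,1,0,0,0⟩,.mon 1 0 0,[⟨0,-1,0,0,0,0,0,0⟩,⟨0,0,0,1,1,0,0,0⟩,⟨0,0,1,1,1,0,0,0⟩]⟩),
  (.comm 0 6 6,⟨false,[],⟨0,0,1,1,1,0,0,0⟩,.mon 1 1 0,[⟨0,0,0,0,0,-1,0,0⟩,⟨-1,-1,-1,-1,-1,-1,0,0⟩]⟩),
  (.comm 0 2 0,⟨false,[],⟨-1,-1,-1,-2,-1,-1,0,0⟩,.mon 1 1 0,[]⟩),
  (.ca 0,⟨false,[],⟨-1,-2,-2,-3,-2,-1,0,0⟩,.mon 1 1 0,[]⟩),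
  (.sI 0 5,⟨true,[],⟨0,1,1,2,1,0,0,0⟩,.mon 1 1 0,[]⟩),
  (.sF 0 12,⟨false,[],⟨0,1,1,2,1,0,0,0⟩,.all,[]⟩),
  (.ca 0,⟨false,[],⟨1,0,1,1,1,1,0,0⟩,.all,[]⟩),
  (.comm 10 11 0,⟨false,[],⟨0,0,-1,-1,-1,0,0,0⟩,.mon 0 0 0,[]⟩),
  (.comm 2 0 0,⟨false,[],⟨0,1,0,1,0,0,0,0⟩,.all,[]⟩),
  (.spec 0,⟨false,[],⟨0,1,0,1,0,0,0,0⟩,.mon 0 0 0,[]⟩),
  (.comm 3 10 0,⟨false,[],⟨0,-1,-1,-2,-1,0,0,0⟩,.all,[]⟩),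
  (.comm 0 1 0,⟨false,[],⟨0,0,-1,-1,-1,0,0,0⟩,.all,[]⟩),
  (.spec 0,⟨false,[],⟨0,0,-1,-1,-1,0,0,0⟩,.mon 0 0 0,[]⟩),
  (.cc 23,⟨false,[],⟨-1,-2,-2,-3,-2,-1,0,0⟩,.mon 0 0 0,[⟨0,-1,0,0,0,0,0,0⟩,⟨0,-1,0,-1,0,0,0,0⟩,⟨0,0,1,1,1,1,0,0⟩]⟩),
  (.ca 0,⟨false,[],⟨-1,-1,-1,-2,-1,-1,0,0⟩,.mon 0 0 0,[⟨0,0,1,1,1,0,0,0⟩,⟨-1,-1,-1,-1,-1,-1,0,0⟩,⟨0,0,1,1,0,0,0,0⟩]⟩),
  (.comm 25 0 0,⟨false,[],⟨-1,-1,-1,-1,-1,-1,0,0⟩,.mon 0 0 0,[]⟩),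
  (.comm 20 0 0,⟨false,[],⟨-1,-2,-2,-3,-2,-1,0,0⟩,.mon 0 0 0,[]⟩),
  (.comm 11 0 0,⟨false,[],⟨-1,-1,-1,-1,-1,-1,0,0⟩,.all,[]⟩),
  (.spec 12,⟨false,[],⟨0,1,1,2,1,0,0,0⟩,.mon 0 0 0,[]⟩),
  (.cc 13,⟨false,[],⟨0,-1,0,-1,0,0,0,0⟩,.all,[]⟩),
  (.comm 0 1 0,⟨false,[],⟨0,0,1,1,1,0,0,0⟩,.all,[]⟩),
  (.comm 15 21 0,⟨false,[],⟨-1,0,-1,-1,-1,-1,0,0⟩,.all,[]⟩),
  (.comm 21 0 3,⟨false,[],⟨0,0,0,0,0,-1,0,0⟩,.fs 1,[⟨0,0,1,1,1,0,0,0⟩,⟨-1,-1,-1,-1,-1,-1,0,0⟩]⟩),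
  (.drop 0 [2,5],⟨false,[],⟨0,0,0,0,0,-1,0,0⟩,.fs 1,[]⟩),
  (.rho 0,⟨false,[],⟨-1,0,0,0,0,0,0,0⟩,.fs (-1),[]⟩),
  (.cc 0,⟨false,[],⟨1,0,1,1,1,0,0,0⟩,.fs (-1),[]⟩),
  (.rho 0,⟨false,[],⟨0,0,1,1,1,1,0,0⟩,.fs 1,[]⟩),
  (.spec 2,⟨false,[],⟨-1,0,0,0,0,0,0,0⟩,.mon (-1) 0 0,[]⟩),
  (.comm 0 21 3,⟨false,[],⟨0,0,1,1,1,1,0,0⟩,.fs (-1),[⟨0,0,1,1,1,0,0,0⟩]⟩),
  (.drop 0 [8],⟨false,[],⟨0,0,1,1,1,1,0,0⟩,.fs (-1),[]⟩),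
  (.fs2 0 3,⟨false,[],⟨0,0,1,1,1,1,0,0⟩,.all,[]⟩),
  (.comm 0 18 2,⟨false,[],⟨0,0,0,0,0,1,0,0⟩,.all,[⟨1,0,1,1,1,1,0,0⟩]⟩),
  (.drop 0 [25],⟨false,[],⟨0,0,0,0,0,1,0,0⟩,.all,[]⟩),
  (.cc 35,⟨false,[],⟨0,1,0,0,0,0,0,0⟩,.mon 0 0 0,[]⟩),
  (.comm 27 0 0,⟨false,[],⟨1,1,1,1,1,1,0,0⟩,.all,[]⟩),
  (.cN 13 17 0,⟨false,[],⟨0,1,0,0,0,0,0,0⟩,.all,[]⟩),
  (.cc 18,⟨false,[],⟨0,-1,0,0,0,0,0,0⟩,.all,[]⟩),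
  (.comm 19 29 0,⟨false,[],⟨-1,-1,-2,-2,-2,-1,0,0⟩,.all,[]⟩),
  (.comm 37 0 3,⟨false,[],⟨0,-1,-1,-1,-1,-1,0,0⟩,.fs 1,[⟨0,-1,0,0,0,0,0,0⟩,⟨-1,-1,-1,-1,-1,-1,0,0⟩]⟩),
  (.drop 0 [2,21],⟨false,[],⟨0,-1,-1,-1,-1,-1,0,0⟩,.fs 1,[]⟩),
  (.rho 0,⟨false,[],⟨-1,-1,-1,-1,-1,0,0,0⟩,.fs (-1),[]⟩),
  (.cc 0,⟨false,[],⟨0,-1,-1,-1,-1,-1,0,0⟩,.fs (-1),[]⟩),
  (.rho 0,⟨false,[],⟨-1,-1,-1,-1,-1,0,0,0⟩,.fs 1,[]⟩),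
  (.fs2 2 0,⟨false,[],⟨-1,-1,-1,-1,-1,0,0,0⟩,.all,[]⟩),
  (.ca 0,⟨false,[],⟨0,0,1,0,0,0,0,0⟩,.all,[]⟩),
  (.comm 48 51 0,⟨false,[],⟨1,1,1,2,1,1,0,0⟩,.mon 0 0 0,[]⟩),
  (.comm 0 29 0,⟨false,[],⟨0,-1,-1,-1,-1,0,0,0⟩,.mon 0 0 0,[]⟩),
  (.comm 41 0 0,⟨false,[],⟨0,0,0,1,0,0,0,0⟩,.all,[]⟩),
  (.cc 17,⟨false,[],⟨0,0,0,0,0,-1,0,0⟩,.all,[]⟩),
  (.spec 37,⟨false,[],⟨0,0,-1,-1,-1,0,0,0⟩,.mon 0 0 0,[]⟩),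
  (.ca 19,⟨false,[],⟨0,0,1,1,0,0,0,0⟩,.all,[]⟩),
  (.comm 0 1 2,⟨false,[],⟨0,0,0,0,-1,0,0,0⟩,.all,[⟨0,0,0,1,0,0,0,0⟩]⟩),
  (.drop 0 [4],⟨false,[],⟨0,0,0,0,-1,0,0,0⟩,.all,[]⟩),
  (.comm 33 19 0,⟨false,[],⟨0,0,0,-1,0,0,0,0⟩,.all,[]⟩)],
  [(21,21),(5,5),(18,18),(17,17),(9,9),(1,1),(6,6),(0,0),(9,9),(1,1),(21,21),(5,5)]⟩⟩ = true := by decide +kernel

theorem cFe : (opE 6 true).check true false false false (tcE 6)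
  ⟨[⟨0,-1,-1,-2,-2,-1,0,0⟩,⟨-1,-1,-1,-1,-1,-1,0,0⟩],[],[],[⟨-1,-1,-1,-2,-1,0,0,0⟩,⟨1,0,0,0,0,0,0,0⟩,⟨0,1,0,1,1,0,0,0⟩,⟨0,-1,-1,-2,-1,0,0,0⟩,⟨-1,-1,-2,-3,-2,-1,0,0⟩],[⟨0,-1,-1,-2,-1,-1,0,0⟩,⟨0,0,-1,-1,-1,0,0,0⟩],⟨-1,-2,-2,-3,-2,-1,0,0⟩,⟨0,1,0,0,0,0,0,0⟩,
  ⟨[],[],[],[(⟨0,1,0,0,0,0,0,0⟩,some (0,0,1)),(⟨-1,-1,-1,-2,-1,-1,0,0⟩,some (0,0,0)),(⟨0,1,0,1,1,0,0,0⟩,some (1,0,0))],0,⟨0,1,0,0,0,0,0,0⟩,⟨0,1,0,0,0,0,0,0⟩,⟨0,1,0,0,0,0,0,0⟩,⟨0,1,0,0,0,0,0,0⟩,(0,0,0),[⟨-1,0,-1,-1,-1,-1,0,0⟩,⟨0,0,0,-1,0,0,0,0⟩,⟨0,0,-1,-1,-1,-1,0,0⟩],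
  [(.base 4,⟨false,[],⟨-1,-1,-1,-2,-1,-1,0,0⟩,.mon 0 0 0,[⟨0,0,-1,-1,-1,-1,0,0⟩,⟨0,0,0,-1,0,0,0,0⟩,⟨-1,0,-1,-1,-1,-1,0,0⟩,⟨0,1,0,0,0,0,0,0⟩,⟨0,1,0,1,1,0,0,0⟩]⟩),
  (.cc 0,⟨false,[],⟨0,1,0,1,0,0,0,0⟩,.mon 0 0 0,[⟨-1,0,0,0,0,0,0,0⟩,⟨1,2,2,3,2,1,0,0⟩,⟨-1,0,-1,-1,-1,-1,0,0⟩,⟨0,1,1,1,1,0,0,0⟩,⟨-1,0,-1,-1,0,0,0,0⟩]⟩),
  (.base 1,⟨false,[],⟨0,0,0,-1,0,0,0,0⟩,.mon 0 0 0,[⟨0,0,-1,-1,-1,-1,0,0⟩,⟨-1,0,-1,-1,-1,-1,0,0⟩,⟨0,1,0,0,0,0,0,0⟩,⟨-1,-1,-1,-2,-1,-1,0,0⟩,⟨0,1,0,1,1,0,0,0⟩]⟩),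
  (.comm 0 1 0,⟨false,[],⟨0,1,0,0,0,0,0,0⟩,.mon 0 0 0,[⟨-1,0,-1,-1,-1,-1,0,0⟩,⟨0,1,1,1,1,0,0,0⟩]⟩),
  (.cc 0,⟨false,[],⟨0,1,1,1,1,0,0,0⟩,.mon 0 0 0,[⟨-1,0,-1,-1,-1,-1,0,0⟩,⟨0,1,0,0,0,0,0,0⟩]⟩),
  (.ca 0,⟨false,[],⟨-1,-1,-2,-3,-2,-1,0,0⟩,.mon 0 0 0,[⟨0,1,0,0,0,0,0,0⟩,⟨-1,0,-1,-1,-1,-1,0,0⟩]⟩),
  (.cc 0,⟨false,[],⟨0,1,1,2,1,0,0,0⟩,.mon 0 0 0,[⟨0,1,1,1,1,0,0,0⟩,⟨-1,0,-1,-1,-1,-1,0,0⟩]⟩),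
  (.ca 0,⟨false,[],⟨0,0,-1,-1,-1,0,0,0⟩,.mon 0 0 0,[⟨-1,-1,-2,-3,-2,-1,0,0⟩,⟨0,1,0,0,0,0,0,0⟩]⟩),
  (.cc 0,⟨false,[],⟨0,0,1,1,1,0,0,0⟩,.mon 0 0 0,[⟨0,1,1,2,1,0,0,0⟩,⟨0,1,1,1,1,0,0,0⟩]⟩),
  (.comm 5 0 0,⟨false,[],⟨0,1,1,1,1,0,0,0⟩,.mon 0 0 0,[]⟩),
  (.ca 0,⟨false,[],⟨-1,-1,-2,-3,-2,-1,0,0⟩,.mon 0 0 0,[]⟩),
  (.cc 0,⟨false,[],⟨0,1,1,2,1,0,0,0⟩,.mon 0 0 0,[]⟩),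
  (.ca 0,⟨false,[],⟨0,0,-1,-1,-1,0,0,0⟩,.mon 0 0 0,[]⟩),
  (.cc 0,⟨false,[],⟨0,0,1,1,1,0,0,0⟩,.mon 0 0 0,[]⟩),
  (.ca 0,⟨false,[],⟨0,-1,-1,-2,-1,0,0,0⟩,.mon 0 0 0,[]⟩),
  (.cc 0,⟨false,[],⟨1,1,2,3,2,1,0,0⟩,.mon 0 0 0,[]⟩),
  (.ca 0,⟨false,[],⟨0,-1,-1,-1,-1,0,0,0⟩,.mon 0 0 0,[]⟩),
  (.cc 14,⟨false,[],⟨1,2,2,3,2,1,0,0⟩,.mon 0 0 0,[⟨-1,0,0,0,0,0,0,0⟩,⟨-1,0,-1,-1,-1,-1,0,0⟩,⟨0,1,1,1,1,0,0,0⟩,⟨0,1,0,1,0,0,0,0⟩,⟨-1,0,-1,-1,0,0,0,0⟩]⟩),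
  (.ca 0,⟨false,[],⟨-1,-1,-2,-2,-2,-1,0,0⟩,.mon 0 0 0,[⟨0,0,0,-1,-1,0,0,0⟩,⟨0,1,0,0,0,0,0,0⟩,⟨-1,-1,-2,-3,-2,-1,0,0⟩,⟨0,1,0,1,0,0,0,0⟩,⟨0,0,0,-1,-1,-1,0,0⟩]⟩),
  (.cc 0,⟨false,[],⟨-1,-1,-1,-1,-1,-1,0,0⟩,.mon 0 0 0,[⟨1,1,2,2,1,0,0,0⟩,⟨0,1,1,1,1,0,0,0⟩,⟨0,1,1,2,1,0,0,0⟩,⟨-1,-1,-1,-2,-1,-1,0,0⟩,⟨0,1,1,1,0,0,0,0⟩]⟩),
  (.comm 16 0 0,⟨false,[],⟨-1,0,-1,-1,-1,-1,0,0⟩,.mon 0 0 0,[]⟩),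
  (.comm 5 6 0,⟨false,[],⟨1,0,1,1,1,1,0,0⟩,.mon 0 0 0,[]⟩),
  (.comm 5 1 0,⟨false,[],⟨-1,-1,-2,-2,-2,-1,0,0⟩,.mon 0 0 0,[]⟩),
  (.base 3,⟨false,[],⟨0,1,0,0,0,0,0,0⟩,.mon 0 0 1,[⟨0,0,-1,-1,-1,-1,0,0⟩,⟨0,0,0,-1,0,0,0,0⟩,⟨-1,0,-1,-1,-1,-1,0,0⟩,⟨-1,-1,-1,-2,-1,-1,0,0⟩,⟨0,1,0,1,1,0,0,0⟩]⟩),
  (.cc 0,⟨false,[],⟨0,1,1,1,1,0,0,0⟩,.mon 0 0 1,[⟨-1,0,0,0,0,0,0,0⟩,⟨1,2,2,3,2,1,0,0⟩,⟨-1,0,-1,-1,-1,-1,0,0⟩,⟨0,1,0,1,0,0,0,0⟩,⟨-1,0,-1,-1,0,0,0,0⟩]⟩),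
  (.ca 0,⟨false,[],⟨-1,-1,-2,-3,-2,-1,0,0⟩,.mon 0 0 1,[⟨0,0,0,-1,-1,0,0,0⟩,⟨-1,-1,-2,-2,-2,-1,0,0⟩,⟨0,1,0,0,0,0,0,0⟩,⟨0,1,0,1,0,0,0,0⟩,⟨0,0,0,-1,-1,-1,0,0⟩]⟩),
  (.cc 0,⟨false,[],⟨0,1,1,2,1,0,0,0⟩,.mon 0 0 1,[⟨1,1,2,2,1,0,0,0⟩,⟨-1,-1,-1,-1,-1,-1,0,0⟩,⟨0,1,1,1,1,0,0,0⟩,⟨-1,-1,-1,-2,-1,-1,0,0⟩,⟨0,1,1,1,0,0,0,0⟩]⟩),
  (.comm 24 0 0,⟨false,[],⟨0,1,1,1,1,0,0,0⟩,.mon 0 0 1,[⟨-1,-1,-1,-2,-1,-1,0,0⟩,⟨0,1,0,1,1,0,0,0⟩,⟨-1,0,-1,-1,-1,-1,0,0⟩]⟩),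
  (.comm 0 5 0,⟨false,[],⟨-1,0,-1,-1,-1,-1,0,0⟩,.mon 0 0 1,[]⟩),
  (.comm 0 14 0,⟨false,[],⟨-1,-1,-2,-3,-2,-1,0,0⟩,.mon 0 0 1,[]⟩),
  (.comm 0 8 0,⟨false,[],⟨0,-1,-1,-2,-1,0,0,0⟩,.mon 0 0 1,[]⟩),
  (.sI 0 19,⟨true,[],⟨-1,0,-1,-1,-1,-1,0,0⟩,.mon 0 0 1,[]⟩),
  (.sF 0 11,⟨false,[],⟨-1,0,-1,-1,-1,-1,0,0⟩,.all,[]⟩),
  (.ca 0,⟨false,[],⟨0,1,0,0,0,0,0,0⟩,.all,[]⟩),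
  (.comm 0 17 0,⟨false,[],⟨0,0,-1,-1,-1,0,0,0⟩,.all,[]⟩),
  (.comm 2 20 0,⟨false,[],⟨-1,-1,-2,-3,-2,-1,0,0⟩,.all,[]⟩),
  (.comm 0 14 0,⟨false,[],⟨0,-1,-1,-2,-1,0,0,0⟩,.all,[]⟩),
  (.spec 0,⟨false,[],⟨0,-1,-1,-2,-1,0,0,0⟩,.mon 0 0 0,[]⟩),
  (.comm 5 22 0,⟨false,[],⟨0,1,1,2,1,0,0,0⟩,.all,[]⟩),
  (.comm 0 17 0,⟨false,[],⟨1,1,2,3,2,1,0,0⟩,.all,[]⟩),
  (.comm 0 2 0,⟨false,[],⟨1,0,1,1,1,1,0,0⟩,.all,[]⟩),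
  (.spec 0,⟨false,[],⟨1,0,1,1,1,1,0,0⟩,.mon 0 0 0,[]⟩),
  (.comm 27 32 0,⟨false,[],⟨0,0,0,-1,0,0,0,0⟩,.mon 0 0 0,[]⟩),
  (.comm 0 27 0,⟨false,[],⟨1,1,2,2,2,1,0,0⟩,.mon 0 0 0,[]⟩),
  (.comm 11 0 0,⟨false,[],⟨0,1,1,1,1,0,0,0⟩,.all,[]⟩),
  (.comm 30 31 0,⟨false,[],⟨0,-1,0,-1,0,0,0,0⟩,.mon 0 0 0,[]⟩),
  (.comm 7 0 0,⟨false,[],⟨0,0,1,1,1,0,0,0⟩,.all,[]⟩),
  (.base 0,⟨false,[],⟨0,0,-1,-1,-1,-1,0,0⟩,.mon 1 0 0,[⟨0,0,0,-1,0,0,0,0⟩,⟨-1,0,-1,-1,-1,-1,0,0⟩,⟨0,1,0,0,0,0,0,0⟩,⟨-1,-1,-1,-2,-1,-1,0,0⟩,⟨0,1,0,1,1,0,0,0⟩]⟩),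
  (.comm 0 1 3,⟨false,[],⟨0,0,0,0,0,-1,0,0⟩,.fs 1,[⟨-1,0,-1,-1,-1,-1,0,0⟩,⟨0,1,1,1,1,0,0,0⟩]⟩),
  (.drop 0 [16,4],⟨false,[],⟨0,0,0,0,0,-1,0,0⟩,.fs 1,[]⟩),
  (.rho 0,⟨false,[],⟨-1,0,0,0,0,0,0,0⟩,.fs (-1),[]⟩),
  (.cc 0,⟨false,[],⟨0,0,-1,-1,-1,-1,0,0⟩,.fs (-1),[]⟩),
  (.rho 0,⟨false,[],⟨-1,0,-1,-1,-1,0,0,0⟩,.fs 1,[]⟩),
  (.spec 2,⟨false,[],⟨-1,0,0,0,0,0,0,0⟩,.mon (-1) 0 0,[]⟩),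
  (.comm 0 19 3,⟨false,[],⟨-1,0,-1,-1,-1,0,0,0⟩,.fs (-1),[⟨-1,0,-1,-1,-1,-1,0,0⟩]⟩),
  (.drop 0 [22],⟨false,[],⟨-1,0,-1,-1,-1,0,0,0⟩,.fs (-1),[]⟩),
  (.fs2 0 3,⟨false,[],⟨-1,0,-1,-1,-1,0,0,0⟩,.all,[]⟩),
  (.comm 0 15 2,⟨false,[],⟨0,0,0,0,0,1,0,0⟩,.all,[⟨0,0,-1,-1,-1,0,0,0⟩]⟩),
  (.drop 0 [23],⟨false,[],⟨0,0,0,0,0,1,0,0⟩,.all,[]⟩),
  (.comm 26 13 0,⟨false,[],⟨-1,-1,-1,-2,-1,-1,0,0⟩,.all,[]⟩),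
  (.comm 0 38 0,⟨false,[],⟨0,-1,0,-1,0,0,0,0⟩,.all,[]⟩),
  (.spec 0,⟨false,[],⟨0,-1,0,-1,0,0,0,0⟩,.mon 0 0 0,[]⟩),
  (.ca 5,⟨false,[],⟨0,1,1,1,0,0,0,0⟩,.all,[]⟩),
  (.comm 0 1 2,⟨false,[],⟨0,0,1,0,0,0,0,0⟩,.all,[⟨0,1,1,1,1,0,0,0⟩]⟩),
  (.drop 0 [19],⟨false,[],⟨0,0,1,0,0,0,0,0⟩,.all,[]⟩),
  (.comm 26 48 0,⟨false,[],⟨0,0,0,1,0,0,0,0⟩,.all,[]⟩),
  (.cc 9,⟨false,[],⟨0,0,0,0,0,-1,0,0⟩,.all,[]⟩),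
  (.cc 50,⟨false,[],⟨0,-1,0,0,0,0,0,0⟩,.mon 0 0 0,[]⟩),
  (.comm 35 0 0,⟨false,[],⟨-1,-1,-1,-1,-1,-1,0,0⟩,.all,[]⟩),
  (.comm 0 47 0,⟨false,[],⟨0,-1,0,0,0,0,0,0⟩,.all,[]⟩),
  (.comm 54 57 0,⟨false,[],⟨1,1,1,2,1,1,0,0⟩,.mon 0 0 0,[]⟩),
  (.comm 38 0 0,⟨false,[],⟨0,1,0,1,0,0,0,0⟩,.all,[]⟩),
  (.comm 39 55 0,⟨false,[],⟨-1,-1,-2,-2,-2,-1,0,0⟩,.all,[]⟩),
  (.comm 0 51 0,⟨false,[],⟨0,-1,-1,-1,-1,0,0,0⟩,.all,[]⟩),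
  (.spec 0,⟨false,[],⟨0,-1,-1,-1,-1,0,0,0⟩,.mon 0 0 0,[]⟩),
  (.comm 12 0 2,⟨false,[],⟨0,0,0,0,-1,0,0,0⟩,.all,[⟨0,1,0,1,0,0,0,0⟩]⟩),
  (.drop 0 [4],⟨false,[],⟨0,0,0,0,-1,0,0,0⟩,.all,[]⟩),
  (.comm 43 31 0,⟨false,[],⟨0,0,0,-1,0,0,0,0⟩,.all,[]⟩)],
  [(19,19),(11,11),(44,44),(8,8),(13,13),(1,1),(12,12),(0,0),(13,13),(1,1),(19,19),(11,11)]⟩⟩ = true := by decide +kernel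


end Pool.Agent.MP_c78e8e_al.H75

end

section

namespace Pool.Agent.MP_c78e8e_al.H75

theorem cIo7 : Fam.chkP .I 7 1 true false false false true
  ⟨[(10,14)],[],[(8,4)],[((14,6),some (0,0,1))],0,(14,6),(14,6),(14,6),(14,6),(0,0,0),[(4,12)],
  [(.base 0,⟨false,[(8,4),(10,14)],(4,12),.mon 0 0 1,[(14,6)]⟩),
  (.cc 0,⟨false,[(14,4),(12,8)],(4,10),.mon 0 0 1,[(8,2)]⟩),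
  (.ca 0,⟨false,[(4,14),(6,10)],(14,8),.mon 0 0 1,[(10,2)]⟩),
  (.cc 0,⟨false,[(4,8),(2,12)],(8,14),.mon 0 0 1,[(12,6)]⟩),
  (.base 1,⟨false,[(8,4),(10,14)],(14,6),.mon 0 0 1,[(4,12)]⟩),
  (.mul 0 3,⟨false,[(8,4),(10,14),(14,4),(12,8)],(14,6),.mon 0 0 1,[(4,12),(4,10),(8,2)]⟩),
  (.sq 0 1,⟨false,[],(14,6),.mon 0 0 1,[(8,2)]⟩),
  (.comm 0 3 0,⟨false,[],(8,6),.mon 0 0 2,[]⟩),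
  (.ca 0,⟨false,[],(10,12),.mon 0 0 2,[]⟩),
  (.cc 0,⟨false,[],(12,10),.mon 0 0 2,[]⟩),
  (.ca 0,⟨false,[],(6,8),.mon 0 0 2,[]⟩),
  (.cc 3,⟨false,[],(14,2),.mon 0 0 2,[]⟩),
  (.ca 0,⟨false,[],(4,2),.mon 0 0 2,[]⟩),
  (.cc 0,⟨false,[],(4,6),.mon 0 0 2,[]⟩),
  (.comm 0 3 0,⟨false,[],(4,8),.mon 0 0 4,[]⟩),
  (.cc 4,⟨false,[],(2,14),.mon 0 0 2,[]⟩),
  (.ca 0,⟨false,[],(2,4),.mon 0 0 2,[]⟩),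
  (.comm 0 2 0,⟨false,[],(2,8),.mon 0 0 6,[]⟩),
  (.cc 1,⟨false,[],(6,4),.mon 0 0 2,[]⟩),
  (.comm 0 11 0,⟨false,[],(8,4),.mon 0 0 4,[]⟩),
  (.comm 0 7 0,⟨false,[],(8,2),.mon 0 0 6,[]⟩),
  (.ca 7,⟨false,[],(14,12),.mon 0 0 2,[]⟩),
  (.cc 0,⟨false,[],(8,10),.mon 0 0 2,[]⟩),
  (.ca 0,⟨false,[],(10,8),.mon 0 0 2,[]⟩),
  (.comm 2 14 0,⟨false,[],(14,10),.mon 0 0 4,[]⟩),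
  (.comm 0 9 0,⟨false,[],(2,10),.mon 0 0 6,[]⟩),
  (.comm 0 2 0,⟨false,[],(2,8),.mon 0 0 8,[]⟩),
  (.sI 0 6,⟨true,[],(8,6),.mon 0 0 14,[]⟩),
  (.sI 10 7,⟨true,[],(8,6),.mon 0 0 12,[]⟩),
  (.sN 0,⟨true,[],(8,6),.mon 0 0 (-12),[]⟩),
  (.sA 0 2,⟨true,[],(8,6),.mon 0 0 2,[]⟩),
  (.sF 0 23,⟨false,[],(8,6),.all,[]⟩),
  (.comm 0 13 0,⟨false,[],(8,4),.all,[]⟩),
  (.comm 0 15 0,⟨false,[],(2,4),.all,[]⟩),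
  (.cc 2,⟨false,[],(14,2),.all,[]⟩),
  (.ca 0,⟨false,[],(4,2),.all,[]⟩),
  (.comm 4 21 0,⟨false,[],(4,6),.all,[]⟩),
  (.comm 4 26 0,⟨false,[],(6,4),.all,[]⟩)],
  [(4,4),(4,4),(4,4),(4,4),(2,2),(2,2),(2,2),(2,2),(1,1),(1,1),(1,1),(1,1),(0,0),(0,0),(0,0),(0,0)]⟩ = true := by decide +kernel

theorem cIo9 : Fam.chkP .I 9 1 true false false false true
  ⟨[(18,2),(2,10)],[],[(4,2),(2,12)],[((6,12),some (0,0,1)),((14,10),some (0,0,0))],0,(6,12),(6,12),(6,12),(6,12),(0,0,0),[(16,10),(8,12)],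
  [(.base 0,⟨false,[(4,2),(2,12),(18,2),(2,10)],(8,12),.mon 0 0 0,[(16,10),(6,12),(14,10)]⟩),
  (.cc 0,⟨false,[(4,6),(6,14),(8,6),(6,16)],(18,14),.mon 0 0 0,[(10,16),(2,14),(12,16)]⟩),
  (.ca 0,⟨false,[(18,16),(16,8),(14,16),(16,6)],(4,8),.mon 0 0 0,[(12,6),(2,8),(10,6)]⟩),
  (.cc 0,⟨false,[(8,10),(10,18),(12,10),(10,2)],(4,18),.mon 0 0 0,[(14,2),(6,18),(16,2)]⟩),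
  (.ca 0,⟨false,[(14,12),(12,4),(10,12),(12,2)],(18,4),.mon 0 0 0,[(8,2),(16,4),(6,2)]⟩),
  (.cc 0,⟨false,[(12,14),(14,4),(16,14),(14,6)],(8,4),.mon 0 0 0,[(18,6),(10,4),(2,6)]⟩),
  (.ca 0,⟨false,[(10,8),(8,18),(6,8),(8,16)],(14,18),.mon 0 0 0,[(4,16),(12,18),(2,16)]⟩),
  (.cc 0,⟨false,[(16,18),(18,8),(2,18),(18,10)],(12,8),.mon 0 0 0,[(4,10),(14,8),(6,10)]⟩),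
  (.base 2,⟨false,[(4,2),(2,12),(18,2),(2,10)],(6,12),.mon 0 0 1,[(8,12),(16,10),(14,10)]⟩),
  (.mul 0 5,⟨false,[(4,2),(2,12),(18,2),(2,10),(8,10),(10,18),(12,10),(10,2)],(6,12),.mon 0 0 1,[(8,12),(16,10),(14,10),(4,18),(14,2),(6,18),(16,2)]⟩),
  (.sq 0 1,⟨false,[],(6,12),.mon 0 0 1,[(6,18)]⟩),
  (.comm 0 3 0,⟨false,[],(6,8),.mon 0 0 1,[]⟩),
  (.cc 0,⟨false,[],(2,18),.mon 0 0 1,[]⟩),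
  (.ca 0,⟨false,[],(2,4),.mon 0 0 1,[]⟩),
  (.cc 0,⟨false,[],(6,4),.mon 0 0 1,[]⟩),
  (.ca 3,⟨false,[],(16,14),.mon 0 0 1,[]⟩),
  (.cc 0,⟨false,[],(10,12),.mon 0 0 1,[]⟩),
  (.ca 0,⟨false,[],(12,10),.mon 0 0 1,[]⟩),
  (.cc 0,⟨false,[],(14,16),.mon 0 0 1,[]⟩),
  (.ca 0,⟨false,[],(8,6),.mon 0 0 1,[]⟩),
  (.cc 0,⟨false,[],(18,2),.mon 0 0 1,[]⟩),
  (.ca 0,⟨false,[],(4,2),.mon 0 0 1,[]⟩),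
  (.cc 0,⟨false,[],(4,6),.mon 0 0 1,[]⟩),
  (.sI 0 8,⟨true,[],(6,8),.mon 0 0 2,[]⟩),
  (.sF 0 12,⟨false,[],(6,8),.all,[]⟩),
  (.cc 0,⟨false,[],(2,18),.all,[]⟩),
  (.ca 0,⟨false,[],(2,4),.all,[]⟩),
  (.comm 7 12 0,⟨false,[],(8,4),.mon 0 0 2,[]⟩),
  (.comm 6 0 0,⟨false,[],(8,2),.mon 0 0 3,[]⟩),
  (.comm 4 6 0,⟨false,[],(4,8),.all,[]⟩),
  (.comm 0 1 0,⟨false,[],(4,2),.all,[]⟩),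
  (.comm 1 11 0,⟨false,[],(4,6),.all,[]⟩),
  (.comm 7 4 0,⟨false,[],(6,4),.all,[]⟩)],
  [(6,6),(6,6),(6,6),(6,6),(2,2),(2,2),(2,2),(2,2),(1,1),(1,1),(1,1),(1,1),(0,0),(0,0),(0,0),(0,0)]⟩ = true := by decide +kernel

theorem cIo10 : Fam.chkP .I 10 1 true false false false true
  ⟨[(8,4)],[],[(16,20)],[((14,8),some (0,0,1)),((4,2),some (0,0,0))],0,(14,8),(14,8),(14,8),(14,8),(0,0,0),[(10,16),(20,2)],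
  [(.base 1,⟨false,[(16,20),(8,4)],(10,16),.mon 0 0 1,[(20,2),(14,8),(4,2)]⟩),
  (.base 0,⟨false,[(16,20),(8,4)],(20,2),.mon 0 0 0,[(10,16),(14,8),(4,2)]⟩),
  (.cc 0,⟨false,[(12,8),(20,4)],(8,6),.mon 0 0 0,[(18,12),(14,20),(4,6)]⟩),
  (.base 3,⟨false,[(16,20),(8,4)],(4,2),.mon 0 0 0,[(20,2),(10,16),(14,8)]⟩),
  (.mul 0 1,⟨false,[(16,20),(8,4),(12,8),(20,4)],(4,2),.mon 0 0 0,[(20,2),(10,16),(14,8),(8,6),(18,12),(14,20),(4,6)]⟩),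
  (.sq 0 5,⟨false,[],(4,2),.mon 0 0 0,[(20,2),(14,8),(8,6),(14,20),(4,6),(14,2),(14,6)]⟩),
  (.cc 0,⟨false,[],(4,6),.mon 0 0 0,[(8,6),(14,20),(20,2),(14,8),(4,2),(14,6),(14,2)]⟩),
  (.ca 0,⟨false,[],(20,18),.mon 0 0 0,[(16,18),(10,4),(4,2),(10,16),(20,2),(10,18),(10,2)]⟩),
  (.cc 0,⟨false,[],(8,10),.mon 0 0 0,[(12,10),(18,4),(4,6),(18,12),(8,6),(18,10),(18,6)]⟩),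
  (.base 2,⟨false,[(16,20),(8,4)],(14,8),.mon 0 0 1,[(20,2),(10,16),(4,2)]⟩),
  (.mul 0 7,⟨false,[(16,20),(8,4),(12,8),(20,4)],(14,8),.mon 0 0 1,[(20,2),(10,16),(4,2),(8,6),(18,12),(14,20),(4,6)]⟩),
  (.sq 0 5,⟨false,[],(14,8),.mon 0 0 1,[(20,2),(4,2),(8,6),(14,20),(4,6),(14,2),(14,6)]⟩),
  (.comm 0 3 0,⟨false,[],(14,10),.mon 0 0 1,[(14,6),(18,2),(18,6)]⟩),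
  (.comm 0 12 0,⟨false,[],(14,16),.mon 0 0 2,[]⟩),
  (.ca 0,⟨false,[],(10,8),.mon 0 0 2,[]⟩),
  (.cc 0,⟨false,[],(18,20),.mon 0 0 2,[]⟩),
  (.comm 14 0 0,⟨false,[],(18,2),.mon 0 0 2,[]⟩),
  (.cc 0,⟨false,[],(10,6),.mon 0 0 2,[]⟩),
  (.ca 0,⟨false,[],(14,18),.mon 0 0 2,[]⟩),
  (.comm 0 2 0,⟨false,[],(14,2),.mon 0 0 4,[]⟩),
  (.cc 1,⟨false,[],(14,10),.mon 0 0 2,[]⟩),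
  (.ca 0,⟨false,[],(10,14),.mon 0 0 2,[]⟩),
  (.ca 5,⟨false,[],(6,2),.mon 0 0 2,[]⟩),
  (.cc 0,⟨false,[],(2,6),.mon 0 0 2,[]⟩),
  (.ca 0,⟨false,[],(2,18),.mon 0 0 2,[]⟩),
  (.cc 0,⟨false,[],(6,10),.mon 0 0 2,[]⟩),
  (.comm 0 2 0,⟨false,[],(2,10),.mon 0 0 4,[]⟩),
  (.comm 0 5 0,⟨false,[],(2,14),.mon 0 0 6,[]⟩),
  (.sI 0 8,⟨true,[],(14,16),.mon 0 0 10,[]⟩),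
  (.ca 3,⟨false,[],(18,14),.mon 0 0 2,[]⟩),
  (.comm 0 5 0,⟨false,[],(2,14),.mon 0 0 4,[]⟩),
  (.sI 0 11,⟨true,[],(14,16),.mon 0 0 8,[]⟩),
  (.sN 0,⟨true,[],(14,16),.mon 0 0 (-8),[]⟩),
  (.sA 0 4,⟨true,[],(14,16),.mon 0 0 2,[]⟩),
  (.sF 0 20,⟨false,[],(14,16),.all,[]⟩),
  (.ca 0,⟨false,[],(10,8),.all,[]⟩),
  (.cc 0,⟨false,[],(18,20),.all,[]⟩),
  (.ca 0,⟨false,[],(6,4),.all,[]⟩),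
  (.cc 0,⟨false,[],(2,4),.all,[]⟩),
  (.sI 11 19,⟨true,[],(18,2),.mon 0 0 10,[]⟩),
  (.comm 16 23 0,⟨false,[],(18,6),.mon 0 0 4,[]⟩),
  (.comm 0 16 0,⟨false,[],(2,6),.mon 0 0 6,[]⟩),
  (.sI 0 19,⟨true,[],(18,2),.mon 0 0 8,[]⟩),
  (.sN 0,⟨true,[],(18,2),.mon 0 0 (-8),[]⟩),
  (.sA 0 4,⟨true,[],(18,2),.mon 0 0 2,[]⟩),
  (.sF 0 28,⟨false,[],(18,2),.all,[]⟩),
  (.comm 0 22 0,⟨false,[],(18,6),.all,[]⟩),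
  (.ca 44,⟨false,[(12,16),(4,20)],(16,18),.mon 0 0 0,[(6,12),(10,4),(20,18)]⟩),
  (.cc 0,⟨false,[(16,12),(4,8)],(12,10),.mon 0 0 0,[(2,16),(18,4),(8,10)]⟩),
  (.mul 45 0,⟨false,[(16,20),(8,4),(16,12),(4,8)],(4,2),.mon 0 0 0,[(20,2),(10,16),(14,8),(12,10),(2,16),(18,4),(8,10)]⟩),
  (.sq 0 5,⟨false,[],(4,2),.mon 0 0 0,[(10,16),(14,8),(2,16),(18,4),(8,10),(20,16),(12,16),(8,16),(14,10),(4,16),(18,2),(14,16),(18,16)]⟩),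
  (.ca 5,⟨false,[],(6,2),.all,[]⟩),
  (.cc 0,⟨false,[],(2,6),.all,[]⟩),
  (.comm 0 2 0,⟨false,[],(4,6),.all,[(18,6)]⟩),
  (.drop 0 [7],⟨false,[],(4,6),.all,[]⟩),
  (.cc 0,⟨false,[],(4,2),.all,[]⟩)],
  [(17,17),(17,17),(17,17),(17,17),(0,0),(0,0),(0,0),(0,0),(1,1),(1,1),(1,1),(1,1),(18,18),(18,18),(18,18),(18,18)]⟩ = true := by decide +kernel

theorem cIow : Fam.chkP .I 11 6 false false false false true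
  ⟨[(8,6),(14,16)],[],[(16,18),(10,8)],[((8,10),some (0,0,1)),((6,12),some (0,0,0))],0,(8,10),(8,10),(8,10),(8,10),(0,0,0),[(16,14),(18,12)],
  [(.base 0,⟨false,[(16,18),(10,8),(8,6),(14,16)],(18,12),.mon 0 0 0,[(16,14),(8,10),(6,12)]⟩),
  (.cc 0,⟨false,[(12,10),(18,20),(20,22),(14,12)],(10,16),.mon 0 0 0,[(12,14),(20,18),(22,16)]⟩),
  (.ca 0,⟨false,[(12,14),(6,4),(4,2),(10,12)],(14,8),.mon 0 0 0,[(12,10),(4,6),(2,8)]⟩),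
  (.base 1,⟨false,[(16,18),(10,8),(8,6),(14,16)],(16,14),.mon 0 0 1,[(18,12),(8,10),(6,12)]⟩),
  (.cc 0,⟨false,[(12,10),(18,20),(20,22),(14,12)],(12,14),.mon 0 0 1,[(10,16),(20,18),(22,16)]⟩),
  (.mul 0 2,⟨false,[(12,10),(18,20),(20,22),(14,12),(12,14),(6,4),(4,2),(10,12)],(12,14),.mon 0 0 1,[(10,16),(20,18),(22,16),(14,8),(12,10),(4,6),(2,8)]⟩),
  (.sq 0 3,⟨false,[],(12,14),.mon 0 0 1,[(10,16),(14,8),(12,10),(12,16),(12,8)]⟩),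
  (.ca 0,⟨false,[],(12,10),.mon 0 0 1,[(14,8),(10,16),(12,14),(12,8),(12,16)]⟩),
  (.cc 0,⟨false,[],(16,18),.mon 0 0 1,[(14,20),(18,12),(16,14),(16,20),(16,12)]⟩),
  (.ca 0,⟨false,[],(8,6),.mon 0 0 1,[(10,4),(6,12),(8,10),(8,4),(8,12)]⟩),
  (.mul 8 7,⟨false,[(12,10),(18,20),(20,22),(14,12),(12,14),(6,4),(4,2),(10,12)],(10,16),.mon 0 0 0,[(12,14),(20,18),(22,16),(14,8),(12,10),(4,6),(2,8)]⟩),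
  (.sq 0 3,⟨false,[],(10,16),.mon 0 0 0,[(12,14),(14,8),(12,10),(12,16),(12,8)]⟩),
  (.cc 0,⟨false,[],(18,12),.mon 0 0 0,[(16,14),(14,20),(16,18),(16,12),(16,20)]⟩),
  (.ca 0,⟨false,[],(6,12),.mon 0 0 0,[(8,10),(10,4),(8,6),(8,12),(8,4)]⟩),
  (.mul 9 13,⟨false,[(12,10),(18,20),(20,22),(14,12),(16,18),(10,8),(8,6),(14,16)],(12,14),.mon 0 0 1,[(10,16),(20,18),(22,16),(18,12),(16,14),(8,10),(6,12)]⟩),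
  (.sq 0 5,⟨false,[],(12,14),.mon 0 0 1,[(10,16),(20,18),(18,12),(16,14),(8,10),(10,14),(8,16),(18,14),(6,14),(20,12),(22,14),(8,14),(20,14)]⟩),
  (.comm 0 2 0,⟨false,[],(6,14),.mon 0 0 1,[(8,14),(8,16),(8,4)]⟩),
  (.comm 0 7 0,⟨false,[],(8,14),.mon 0 0 2,[]⟩),
  (.cc 0,⟨false,[],(20,14),.mon 0 0 2,[]⟩),
  (.ca 0,⟨false,[],(4,10),.mon 0 0 2,[]⟩),
  (.comm 18 0 0,⟨false,[],(4,16),.mon 0 0 2,[]⟩),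
  (.ca 0,⟨false,[],(20,8),.mon 0 0 2,[]⟩),
  (.cc 0,⟨false,[],(8,20),.mon 0 0 2,[]⟩),
  (.ca 0,⟨false,[],(16,4),.mon 0 0 2,[]⟩),
  (.comm 20 3 0,⟨false,[],(4,14),.mon 0 0 3,[]⟩),
  (.comm 0 1 0,⟨false,[],(16,14),.mon 0 0 5,[]⟩),
  (.cc 0,⟨false,[],(12,14),.mon 0 0 5,[]⟩),
  (.ca 0,⟨false,[],(12,10),.mon 0 0 5,[]⟩),
  (.cc 0,⟨false,[],(16,18),.mon 0 0 5,[]⟩),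
  (.comm 28 0 0,⟨false,[],(16,12),.mon 0 0 5,[]⟩),
  (.cc 0,⟨false,[],(12,16),.mon 0 0 5,[]⟩),
  (.ca 0,⟨false,[],(12,8),.mon 0 0 5,[]⟩),
  (.ca 7,⟨false,[],(20,10),.mon 0 0 3,[]⟩),
  (.cc 0,⟨false,[],(8,18),.mon 0 0 3,[]⟩),
  (.comm 33 0 0,⟨false,[],(8,12),.mon 0 0 3,[]⟩),
  (.sI 3 0,⟨true,[],(8,14),.mon 0 0 8,[]⟩),
  (.sN 0,⟨true,[],(8,14),.mon 0 0 (-8),[]⟩),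
  (.comm 3 15 0,⟨false,[],(20,18),.mon 0 0 5,[]⟩),
  (.comm 37 0 0,⟨false,[],(20,12),.mon 0 0 5,[]⟩),
  (.cc 0,⟨false,[],(8,16),.mon 0 0 5,[]⟩),
  (.comm 0 16 0,⟨false,[],(8,4),.mon 0 0 7,[]⟩),
  (.cc 6,⟨false,[],(20,16),.mon 0 0 3,[]⟩),
  (.ca 0,⟨false,[],(4,8),.mon 0 0 3,[]⟩),
  (.sI 0 2,⟨true,[],(8,14),.mon 0 0 10,[]⟩),
  (.sA 0 7,⟨true,[],(8,14),.mon 0 0 2,[]⟩),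
  (.sF 0 27,⟨false,[],(8,14),.all,[]⟩),
  (.comm 0 14 0,⟨false,[],(12,14),.all,[]⟩),
  (.ca 7,⟨false,[],(16,8),.mon 0 0 5,[]⟩),
  (.cc 0,⟨false,[],(12,20),.mon 0 0 5,[]⟩),
  (.comm 20 28 0,⟨false,[],(4,18),.mon 0 0 7,[]⟩),
  (.comm 49 0 0,⟨false,[],(4,12),.mon 0 0 7,[]⟩),
  (.ca 16,⟨false,[],(16,12),.mon 0 0 3,[]⟩),
  (.cc 0,⟨false,[],(12,16),.mon 0 0 3,[]⟩),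
  (.comm 0 29 0,⟨false,[],(12,4),.mon 0 0 5,[]⟩),
  (.sI 0 3,⟨true,[],(4,16),.mon 0 0 12,[]⟩),
  (.sI 14 12,⟨true,[],(4,16),.mon 0 0 10,[]⟩),
  (.sN 0,⟨true,[],(4,16),.mon 0 0 (-10),[]⟩),
  (.sA 0 2,⟨true,[],(4,16),.mon 0 0 2,[]⟩),
  (.sF 0 37,⟨false,[],(4,16),.all,[]⟩),
  (.ca 0,⟨false,[],(20,8),.all,[]⟩),
  (.comm 0 11 0,⟨false,[],(12,8),.all,[]⟩),
  (.comm 13 38 0,⟨false,[],(16,20),.mon 0 0 7,[]⟩),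
  (.comm 2 0 0,⟨false,[],(16,8),.all,[]⟩),
  (.comm 0 51 0,⟨false,[],(10,8),.all,[(12,8)]⟩),
  (.drop 0 [3],⟨false,[],(10,8),.all,[]⟩),
  (.ca 0,⟨false,[],(14,16),.all,[]⟩),
  (.cc 0,⟨false,[],(14,12),.all,[]⟩),
  (.comm 21 19 0,⟨false,[],(16,14),.all,[]⟩)],
  [(21,21),(21,21),(21,21),(21,21),(1,1),(1,1),(1,1),(1,1),(2,2),(2,2),(2,2),(2,2),(0,0),(0,0),(0,0),(0,0)]⟩ = true := by decide +kernel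

theorem famIo {G L K : Type} [Group G] [AddCommGroup L] [Field K] [Finite K] {S : St G L K}
    {n : ℕ} (R : Frame S .I n) (md : ∀ x y, Md S.φ false x false y) (h : n = 7 ∨ 9 ≤ n) :
    IsLeast {n | Good S.Gs n} 3 := by
  rcases h with rfl | h
  · exact R.poly le_rfl (fun _ => rfl) (md _ _) cIo7
  by_cases p : 11 ≤ n
  · exact R.poly p (by simp) (md _ _) cIow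
  rw [not_le] at p
  interval_cases n
  · exact R.poly le_rfl (fun _ => rfl) (md _ _) cIo9
  · exact R.poly le_rfl (fun _ => rfl) (md _ _) cIo10

end Pool.Agent.MP_c78e8e_al.H75

end

section

namespace Pool.Agent.MP_c78e8e_al.H75

theorem cIe7 : Fam.chkP .I 7 1 true true false false false
  ⟨[],[],[],[((2,14),some (0,0,0)),((10,12),some (0,0,1))],0,(2,14),(2,14),(2,14),(2,14),(0,0,0),[(2,4),(8,6)],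
  [(.base 1,⟨false,[],(2,4),.mon 0 0 0,[(8,6),(2,14),(10,12)]⟩),
  (.cc 0,⟨false,[],(6,4),.mon 0 0 0,[(14,2),(6,8),(12,10)]⟩),
  (.ca 0,⟨false,[],(12,14),.mon 0 0 0,[(4,2),(12,10),(6,8)]⟩),
  (.cc 0,⟨false,[],(10,8),.mon 0 0 0,[(4,6),(10,12),(2,14)]⟩),
  (.ca 0,⟨false,[],(8,10),.mon 0 0 0,[(14,12),(8,6),(2,4)]⟩),
  (.base 0,⟨false,[],(8,6),.mon 0 0 1,[(2,4),(2,14),(10,12)]⟩),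
  (.comm 0 2 0,⟨false,[],(10,6),.mon 0 0 1,[(2,6)]⟩),
  (.comm 0 2 0,⟨false,[],(8,6),.mon 0 0 1,[]⟩),
  (.ca 0,⟨false,[],(10,12),.mon 0 0 1,[]⟩),
  (.cc 0,⟨false,[],(12,10),.mon 0 0 1,[]⟩),
  (.ca 0,⟨false,[],(6,8),.mon 0 0 1,[]⟩),
  (.cc 3,⟨false,[],(14,2),.mon 0 0 1,[]⟩),
  (.ca 0,⟨false,[],(4,2),.mon 0 0 1,[]⟩),
  (.cc 0,⟨false,[],(4,6),.mon 0 0 1,[]⟩),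
  (.comm 0 3 0,⟨false,[],(4,8),.mon 0 0 2,[]⟩),
  (.cc 4,⟨false,[],(2,14),.mon 0 0 1,[]⟩),
  (.ca 0,⟨false,[],(2,4),.mon 0 0 1,[]⟩),
  (.comm 0 2 0,⟨false,[],(2,8),.mon 0 0 3,[]⟩),
  (.cc 1,⟨false,[],(6,4),.mon 0 0 1,[]⟩),
  (.sI 0 5,⟨true,[],(8,6),.mon 0 0 2,[]⟩),
  (.sF 0 12,⟨false,[],(8,6),.all,[]⟩),
  (.comm 0 2 0,⟨false,[],(8,4),.all,[]⟩),
  (.comm 0 4 0,⟨false,[],(2,4),.all,[]⟩),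
  (.cc 2,⟨false,[],(14,2),.all,[]⟩),
  (.ca 0,⟨false,[],(4,2),.all,[]⟩),
  (.comm 4 10 0,⟨false,[],(4,6),.all,[]⟩),
  (.comm 4 15 0,⟨false,[],(6,4),.all,[]⟩)],
  [(4,4),(4,4),(4,4),(4,4),(2,2),(2,2),(2,2),(2,2),(1,1),(1,1),(1,1),(1,1),(0,0),(0,0),(0,0),(0,0)]⟩ = true := by decide +kernel

theorem cIe9 : Fam.chkP .I 9 1 true true false false false
  ⟨[],[],[],[((16,18),some (0,0,1))],0,(16,18),(16,18),(16,18),(16,18),(0,0,0),[(6,4)],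
  [(.base 0,⟨false,[],(6,4),.mon 0 0 1,[(16,18)]⟩),
  (.cc 0,⟨false,[],(2,4),.mon 0 0 1,[(10,8)]⟩),
  (.base 1,⟨false,[],(16,18),.mon 0 0 1,[(6,4)]⟩),
  (.cc 0,⟨false,[],(10,8),.mon 0 0 1,[(2,4)]⟩),
  (.ca 0,⟨false,[],(12,14),.mon 0 0 1,[(2,18)]⟩),
  (.cc 0,⟨false,[],(14,12),.mon 0 0 1,[(6,8)]⟩),
  (.ca 0,⟨false,[],(8,10),.mon 0 0 1,[(16,14)]⟩),
  (.cc 0,⟨false,[],(18,16),.mon 0 0 1,[(10,12)]⟩),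
  (.ca 0,⟨false,[],(4,6),.mon 0 0 1,[(12,10)]⟩),
  (.cc 0,⟨false,[],(4,2),.mon 0 0 1,[(14,16)]⟩),
  (.comm 9 0 0,⟨false,[],(6,2),.mon 0 0 2,[(14,18)]⟩),
  (.comm 0 9 0,⟨false,[],(6,4),.mon 0 0 3,[]⟩),
  (.comm 1 3 0,⟨false,[],(4,2),.mon 0 0 3,[]⟩),
  (.comm 0 1 0,⟨false,[],(6,2),.mon 0 0 6,[]⟩),
  (.comm 13 1 0,⟨false,[],(6,2),.mon 0 0 4,[]⟩),
  (.cc 0,⟨false,[],(2,6),.mon 0 0 4,[]⟩),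
  (.sI 0 2,⟨true,[],(6,4),.mon 0 0 10,[]⟩),
  (.sN 0,⟨true,[],(6,4),.mon 0 0 (-10),[]⟩),
  (.cc 6,⟨false,[],(2,4),.mon 0 0 3,[]⟩),
  (.cc 6,⟨false,[],(4,6),.mon 0 0 3,[]⟩),
  (.comm 0 1 0,⟨false,[],(2,6),.mon 0 0 6,[]⟩),
  (.sI 0 7,⟨true,[],(6,4),.mon 0 0 12,[]⟩),
  (.sA 0 4,⟨true,[],(6,4),.mon 0 0 2,[]⟩),
  (.sF 0 11,⟨false,[],(6,4),.all,[]⟩),
  (.cc 0,⟨false,[],(2,4),.all,[]⟩),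
  (.comm 1 12 0,⟨false,[],(6,2),.all,[]⟩),
  (.comm 0 6 0,⟨false,[],(4,2),.all,[]⟩),
  (.cc 0,⟨false,[],(4,6),.all,[]⟩)],
  [(3,3),(3,3),(3,3),(3,3),(1,1),(1,1),(1,1),(1,1),(0,0),(0,0),(0,0),(0,0),(4,4),(4,4),(4,4),(4,4)]⟩ = true := by decide +kernel

theorem cIe10 : Fam.chkP .I 10 1 true true false false false
  ⟨[],[],[],[((18,20),some (0,0,1)),((16,10),some (0,0,1))],0,(18,20),(18,20),(18,20),(18,20),(0,0,0),[(6,4),(8,14)],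
  [(.base 2,⟨false,[],(18,20),.mon 0 0 1,[(8,14),(6,4),(16,10)]⟩),
  (.cc 0,⟨false,[],(10,8),.mon 0 0 1,[(20,14),(2,4),(12,18)]⟩),
  (.base 0,⟨false,[],(8,14),.mon 0 0 1,[(6,4),(18,20),(16,10)]⟩),
  (.cc 0,⟨false,[],(20,14),.mon 0 0 1,[(2,4),(10,8),(12,18)]⟩),
  (.ca 0,⟨false,[],(4,10),.mon 0 0 1,[(2,20),(14,16),(12,6)]⟩),
  (.cc 0,⟨false,[],(4,18),.mon 0 0 1,[(6,8),(14,12),(16,2)]⟩),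
  (.ca 4,⟨false,[],(14,16),.mon 0 0 1,[(4,10),(2,20),(12,6)]⟩),
  (.comm 4 0 0,⟨false,[],(8,16),.mon 0 0 2,[(6,10),(12,4),(14,10),(12,10),(8,10)]⟩),
  (.ca 0,⟨false,[],(16,8),.mon 0 0 2,[(18,14),(12,20),(10,14),(12,14),(16,14)]⟩),
  (.cc 0,⟨false,[],(12,20),.mon 0 0 2,[(10,14),(16,8),(18,14),(16,14),(12,14)]⟩),
  (.ca 0,⟨false,[],(12,4),.mon 0 0 2,[(14,10),(8,16),(6,10),(8,10),(12,10)]⟩),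
  (.cc 0,⟨false,[],(16,4),.mon 0 0 2,[(14,18),(20,12),(2,18),(20,18),(16,18)]⟩),
  (.comm 4 0 0,⟨false,[],(8,4),.mon 0 0 4,[(8,18),(20,4),(20,10)]⟩),
  (.comm 0 7 0,⟨false,[],(8,18),.mon 0 0 5,[(6,4),(6,18),(20,18)]⟩),
  (.comm 0 12 0,⟨false,[],(10,18),.mon 0 0 6,[]⟩),
  (.ca 0,⟨false,[],(14,6),.mon 0 0 6,[]⟩),
  (.cc 0,⟨false,[],(14,2),.mon 0 0 6,[]⟩),
  (.ca 0,⟨false,[],(10,2),.mon 0 0 6,[]⟩),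
  (.cc 0,⟨false,[],(18,6),.mon 0 0 6,[]⟩),
  (.base 1,⟨false,[],(6,4),.mon 0 0 1,[(8,14),(18,20),(16,10)]⟩),
  (.comm 0 1 0,⟨false,[],(18,4),.mon 0 0 7,[]⟩),
  (.cc 6,⟨false,[],(18,10),.mon 0 0 6,[]⟩),
  (.ca 0,⟨false,[],(6,14),.mon 0 0 6,[]⟩),
  (.cc 0,⟨false,[],(2,14),.mon 0 0 6,[]⟩),
  (.ca 0,⟨false,[],(2,10),.mon 0 0 6,[]⟩),
  (.cc 4,⟨false,[],(10,4),.mon 0 0 7,[]⟩),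
  (.comm 23 9 0,⟨false,[],(8,2),.mon 0 0 7,[]⟩),
  (.cc 0,⟨false,[],(20,6),.mon 0 0 7,[]⟩),
  (.ca 0,⟨false,[],(4,18),.mon 0 0 7,[]⟩),
  (.cc 0,⟨false,[],(4,10),.mon 0 0 7,[]⟩),
  (.sI 0 4,⟨true,[],(10,18),.mon 0 0 14,[]⟩),
  (.sI 6 13,⟨true,[],(10,18),.mon 0 0 12,[]⟩),
  (.sN 0,⟨true,[],(10,18),.mon 0 0 (-12),[]⟩),
  (.sA 0 2,⟨true,[],(10,18),.mon 0 0 2,[]⟩),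
  (.sF 0 19,⟨false,[],(10,18),.all,[]⟩),
  (.comm 0 10 0,⟨false,[],(2,18),.all,[]⟩),
  (.comm 0 15 0,⟨false,[],(2,4),.all,[]⟩),
  (.comm 19 15 0,⟨false,[],(18,2),.mon 0 0 12,[]⟩),
  (.comm 3 0 0,⟨false,[],(10,2),.all,[]⟩),
  (.comm 0 9 0,⟨false,[],(4,2),.all,[]⟩),
  (.comm 5 21 0,⟨false,[],(10,6),.all,[]⟩),
  (.comm 0 11 0,⟨false,[],(4,6),.all,[]⟩),
  (.ca 23,⟨false,[],(6,18),.mon 0 0 6,[]⟩),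
  (.comm 0 21 0,⟨false,[],(6,10),.mon 0 0 12,[]⟩),
  (.comm 9 0 0,⟨false,[],(6,18),.all,[]⟩),
  (.comm 0 24 0,⟨false,[],(6,4),.all,[]⟩)],
  [(9,9),(9,9),(9,9),(9,9),(6,6),(6,6),(6,6),(6,6),(4,4),(4,4),(4,4),(4,4),(0,0),(0,0),(0,0),(0,0)]⟩ = true := by decide +kernel

theorem cIe11 : Fam.chkP .I 11 1 true true false false false
  ⟨[],[],[],[((22,20),some (0,0,1))],0,(22,20),(22,20),(22,20),(22,20),(0,0,0),[(4,6)],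
  [(.base 1,⟨false,[],(22,20),.mon 0 0 1,[(4,6)]⟩),
  (.cc 0,⟨false,[],(8,10),.mon 0 0 1,[(4,2)]⟩),
  (.ca 0,⟨false,[],(18,16),.mon 0 0 1,[(22,2)]⟩),
  (.cc 0,⟨false,[],(12,14),.mon 0 0 1,[(8,6)]⟩),
  (.ca 0,⟨false,[],(14,12),.mon 0 0 1,[(18,20)]⟩),
  (.cc 0,⟨false,[],(16,18),.mon 0 0 1,[(12,10)]⟩),
  (.ca 0,⟨false,[],(10,8),.mon 0 0 1,[(14,16)]⟩),
  (.cc 0,⟨false,[],(20,22),.mon 0 0 1,[(16,14)]⟩),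
  (.ca 0,⟨false,[],(6,4),.mon 0 0 1,[(10,12)]⟩),
  (.cc 0,⟨false,[],(2,4),.mon 0 0 1,[(20,18)]⟩),
  (.base 0,⟨false,[],(4,6),.mon 0 0 1,[(22,20)]⟩),
  (.comm 0 1 0,⟨false,[],(2,6),.mon 0 0 2,[(22,18)]⟩),
  (.comm 0 3 0,⟨false,[],(2,4),.mon 0 0 3,[]⟩),
  (.cc 0,⟨false,[],(6,4),.mon 0 0 3,[]⟩),
  (.cc 3,⟨false,[],(4,2),.mon 0 0 1,[(8,10)]⟩),
  (.comm 3 0 0,⟨false,[],(4,6),.mon 0 0 3,[]⟩),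
  (.cc 0,⟨false,[],(4,2),.mon 0 0 3,[]⟩),
  (.comm 6 4 0,⟨false,[],(2,6),.mon 0 0 4,[]⟩),
  (.comm 0 4 0,⟨false,[],(2,4),.mon 0 0 7,[]⟩),
  (.sI 0 2,⟨true,[],(4,6),.mon 0 0 10,[]⟩),
  (.sN 0,⟨true,[],(4,6),.mon 0 0 (-10),[]⟩),
  (.comm 8 5 0,⟨false,[],(2,6),.mon 0 0 6,[]⟩),
  (.comm 0 8 0,⟨false,[],(2,4),.mon 0 0 9,[]⟩),
  (.sI 0 6,⟨true,[],(4,6),.mon 0 0 12,[]⟩),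
  (.sA 0 3,⟨true,[],(4,6),.mon 0 0 2,[]⟩),
  (.sF 0 9,⟨false,[],(4,6),.all,[]⟩),
  (.comm 0 13 0,⟨false,[],(2,6),.all,[]⟩),
  (.comm 0 13 0,⟨false,[],(2,4),.all,[]⟩),
  (.cc 2,⟨false,[],(4,2),.all,[]⟩),
  (.cc 1,⟨false,[],(6,4),.all,[]⟩)],
  [(2,2),(2,2),(2,2),(2,2),(1,1),(1,1),(1,1),(1,1),(4,4),(4,4),(4,4),(4,4),(0,0),(0,0),(0,0),(0,0)]⟩ = true := by decide +kernel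

theorem cIe12 : Fam.chkP .I 12 1 true true false false false
  ⟨[],[],[],[((8,10),some (0,0,0)),((22,24),some (0,0,1))],0,(8,10),(8,10),(8,10),(8,10),(0,0,0),[(20,18),(6,4)],
  [(.base 2,⟨false,[],(8,10),.mon 0 0 0,[(6,4),(20,18),(22,24)]⟩),
  (.cc 0,⟨false,[],(24,22),.mon 0 0 0,[(2,4),(12,14),(10,8)]⟩),
  (.ca 0,⟨false,[],(4,6),.mon 0 0 0,[(2,24),(16,14),(18,20)]⟩),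
  (.cc 0,⟨false,[],(4,2),.mon 0 0 0,[(6,8),(16,18),(14,12)]⟩),
  (.base 0,⟨false,[],(6,4),.mon 0 0 1,[(20,18),(8,10),(22,24)]⟩),
  (.cc 0,⟨false,[],(2,4),.mon 0 0 1,[(12,14),(24,22),(10,8)]⟩),
  (.comm 1 2 0,⟨false,[],(6,2),.mon 0 0 1,[(6,10)]⟩),
  (.comm 0 1 0,⟨false,[],(6,4),.mon 0 0 2,[(6,8)]⟩),
  (.comm 0 4 0,⟨false,[],(6,2),.mon 0 0 2,[]⟩),
  (.cc 0,⟨false,[],(2,6),.mon 0 0 2,[]⟩),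
  (.comm 5 0 0,⟨false,[],(2,4),.mon 0 0 3,[]⟩),
  (.ca 2,⟨false,[],(22,2),.mon 0 0 2,[]⟩),
  (.cc 0,⟨false,[],(10,6),.mon 0 0 2,[]⟩),
  (.comm 0 4 0,⟨false,[],(10,2),.mon 0 0 4,[]⟩),
  (.ca 4,⟨false,[],(2,22),.mon 0 0 2,[]⟩),
  (.cc 0,⟨false,[],(6,10),.mon 0 0 2,[]⟩),
  (.comm 0 6 0,⟨false,[],(2,10),.mon 0 0 4,[]⟩),
  (.sI 0 3,⟨true,[],(6,2),.mon 0 0 8,[]⟩),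
  (.sN 0,⟨true,[],(6,2),.mon 0 0 (-8),[]⟩),
  (.ca 6,⟨false,[],(18,22),.mon 0 0 2,[]⟩),
  (.comm 0 8 0,⟨false,[],(18,2),.mon 0 0 4,[]⟩),
  (.base 1,⟨false,[],(20,18),.mon 0 0 0,[(6,4),(8,10),(22,24)]⟩),
  (.comm 0 1 0,⟨false,[],(20,2),.mon 0 0 4,[]⟩),
  (.ca 0,⟨false,[],(8,2),.mon 0 0 4,[]⟩),
  (.cc 0,⟨false,[],(24,6),.mon 0 0 4,[]⟩),
  (.ca 0,⟨false,[],(4,22),.mon 0 0 4,[]⟩),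
  (.comm 0 14 0,⟨false,[],(4,2),.mon 0 0 6,[]⟩),
  (.sI 16 0,⟨true,[],(6,2),.mon 0 0 9,[]⟩),
  (.sA 0 9,⟨true,[],(6,2),.mon 0 0 1,[]⟩),
  (.sF 0 20,⟨false,[],(6,2),.all,[]⟩),
  (.comm 0 19 0,⟨false,[],(6,4),.all,[]⟩),
  (.cc 0,⟨false,[],(2,4),.all,[]⟩),
  (.comm 22 20 0,⟨false,[],(22,6),.mon 0 0 4,[]⟩),
  (.comm 7 0 0,⟨false,[],(4,6),.mon 0 0 8,[]⟩),
  (.comm 4 0 0,⟨false,[],(4,2),.all,[]⟩),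
  (.cc 0,⟨false,[],(4,6),.all,[]⟩)],
  [(4,4),(4,4),(4,4),(4,4),(1,1),(1,1),(1,1),(1,1),(0,0),(0,0),(0,0),(0,0),(5,5),(5,5),(5,5),(5,5)]⟩ = true := by decide +kernel

theorem cIew : Fam.chkP .I 13 7 false true false false false
  ⟨[],[],[],[((6,8),some (0,0,1)),((12,10),some (0,0,1))],0,(6,8),(6,8),(6,8),(6,8),(0,0,0),[(22,20),(16,18)],
  [(.base 1,⟨false,[],(22,20),.mon 0 0 1,[(16,18),(6,8),(12,10)]⟩),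
  (.cc 0,⟨false,[],(10,12),.mon 0 0 1,[(16,14),(26,24),(20,22)]⟩),
  (.ca 0,⟨false,[],(18,16),.mon 0 0 1,[(12,14),(2,4),(8,6)]⟩),
  (.base 0,⟨false,[],(16,18),.mon 0 0 1,[(22,20),(6,8),(12,10)]⟩),
  (.cc 0,⟨false,[],(16,14),.mon 0 0 1,[(10,12),(26,24),(20,22)]⟩),
  (.comm 0 2 0,⟨false,[],(18,14),.mon 0 0 2,[(10,14)]⟩),
  (.comm 0 2 0,⟨false,[],(16,14),.mon 0 0 3,[(12,14)]⟩),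
  (.comm 0 4 0,⟨false,[],(18,14),.mon 0 0 4,[]⟩),
  (.cc 0,⟨false,[],(14,18),.mon 0 0 4,[]⟩),
  (.ca 0,⟨false,[],(14,10),.mon 0 0 4,[]⟩),
  (.ca 2,⟨false,[],(10,14),.mon 0 0 4,[]⟩),
  (.cc 0,⟨false,[],(22,18),.mon 0 0 4,[]⟩),
  (.ca 0,⟨false,[],(6,10),.mon 0 0 4,[]⟩),
  (.cc 0,⟨false,[],(26,22),.mon 0 0 4,[]⟩),
  (.comm 13 0 0,⟨false,[],(26,20),.mon 0 0 5,[]⟩),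
  (.cc 0,⟨false,[],(6,12),.mon 0 0 5,[]⟩),
  (.ca 0,⟨false,[],(22,16),.mon 0 0 5,[]⟩),
  (.cc 0,⟨false,[],(10,16),.mon 0 0 5,[]⟩),
  (.comm 0 8 0,⟨false,[],(14,16),.mon 0 0 9,[]⟩),
  (.comm 9 11 0,⟨false,[],(18,10),.mon 0 0 8,[]⟩),
  (.cc 10,⟨false,[],(18,22),.mon 0 0 4,[]⟩),
  (.ca 0,⟨false,[],(10,6),.mon 0 0 4,[]⟩),
  (.comm 0 2 0,⟨false,[],(18,6),.mon 0 0 12,[]⟩),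
  (.cc 1,⟨false,[],(22,26),.mon 0 0 4,[]⟩),
  (.comm 0 3 0,⟨false,[],(18,26),.mon 0 0 8,[]⟩),
  (.comm 21 0 0,⟨false,[],(16,26),.mon 0 0 9,[]⟩),
  (.cc 0,⟨false,[],(16,6),.mon 0 0 9,[]⟩),
  (.ca 0,⟨false,[],(12,22),.mon 0 0 9,[]⟩),
  (.cc 0,⟨false,[],(20,10),.mon 0 0 9,[]⟩),
  (.comm 28 0 0,⟨false,[],(22,10),.mon 0 0 10,[]⟩),
  (.ca 0,⟨false,[],(6,18),.mon 0 0 10,[]⟩),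
  (.sI 0 8,⟨true,[],(18,14),.mon 0 0 22,[]⟩),
  (.sN 0,⟨true,[],(18,14),.mon 0 0 (-22),[]⟩),
  (.comm 24 22 0,⟨false,[],(10,18),.mon 0 0 8,[]⟩),
  (.comm 21 0 0,⟨false,[],(6,18),.mon 0 0 12,[]⟩),
  (.sI 0 12,⟨true,[],(18,14),.mon 0 0 24,[]⟩),
  (.sA 0 3,⟨true,[],(18,14),.mon 0 0 2,[]⟩),
  (.sF 0 29,⟨false,[],(18,14),.all,[]⟩),
  (.comm 0 19 0,⟨false,[],(18,16),.all,[]⟩),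
  (.cc 0,⟨false,[],(14,16),.all,[]⟩),
  (.comm 36 32 0,⟨false,[],(16,14),.mon 0 0 5,[]⟩),
  (.cc 0,⟨false,[],(16,18),.mon 0 0 5,[]⟩),
  (.comm 4 0 0,⟨false,[],(16,14),.all,[]⟩),
  (.cc 0,⟨false,[],(16,18),.all,[]⟩)],
  [(4,4),(4,4),(4,4),(4,4),(1,1),(1,1),(1,1),(1,1),(0,0),(0,0),(0,0),(0,0),(5,5),(5,5),(5,5),(5,5)]⟩ = true := by decide +kernel

theorem famIe {G L K : Type} [Group G] [AddCommGroup L] [Field K] [Finite K] {S : St G L K}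
    {n : ℕ} (R : Frame S .I n) (md : ∀ x, Md S.φ x false false false) (h : n = 7 ∨ 9 ≤ n) :
    IsLeast {n | Good S.Gs n} 3 := by
  rcases h with rfl | h
  · exact R.poly le_rfl (fun _ => rfl) (md _) cIe7
  by_cases p : 13 ≤ n
  · exact R.poly p (by simp) (md _) cIew
  rw [not_le] at p
  interval_cases n
  · exact R.poly le_rfl (fun _ => rfl) (md _) cIe9
  · exact R.poly le_rfl (fun _ => rfl) (md _) cIe10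
  · exact R.poly le_rfl (fun _ => rfl) (md _) cIe11
  · exact R.poly le_rfl (fun _ => rfl) (md _) cIe12

end Pool.Agent.MP_c78e8e_al.H75

end

section

namespace Pool.Agent.MP_c78e8e_al.H75

theorem cDo7 : (Fam.op0 .D0 7).check false false false true (Fam.tcG 7)
  ⟨[(2,5),(7,8),(10,12)],[(3,13),(7,14)],[],[(2,15),(5,11),(13,14),(9,14)],[(15,11),(7,12),(4,2)],(2,4),(3,6),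
  ⟨[(8,10)],[],[(7,12)],[((2,9),some (0,0,1)),((5,12),some (0,0,0))],0,(2,9),(2,9),(2,9),(2,9),(0,0,0),[(5,6),(2,10)],
  [(.base 0,⟨false,[(7,12),(8,10)],(2,10),.mon 0 0 0,[(5,6),(2,9),(5,12)]⟩),
  (.cc 0,⟨false,[(12,7),(8,14)],(4,14),.mon 0 0 0,[(3,13),(4,9),(3,7)]⟩),
  (.ca 0,⟨false,[(10,8),(7,14)],(3,14),.mon 0 0 0,[(4,11),(3,6),(4,8)]⟩),
  (.cc 0,⟨false,[(14,8),(12,10)],(5,10),.mon 0 0 0,[(2,15),(5,13),(2,8)]⟩),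
  (.mul 3 0,⟨false,[(7,12),(8,10),(14,8),(12,10)],(2,10),.mon 0 0 0,[(5,6),(2,9),(5,12),(5,10),(2,15),(5,13),(2,8)]⟩),
  (.sq 0 5,⟨false,[],(2,10),.mon 0 0 0,[(2,9),(5,12),(5,10),(5,13),(2,8)]⟩),
  (.ca 2,⟨false,[(14,7),(10,12)],(2,12),.mon 0 0 0,[(5,15),(2,11),(5,7)]⟩),
  (.cc 0,⟨false,[(10,12),(14,7)],(4,7),.mon 0 0 0,[(3,11),(4,15),(3,12)]⟩),
  (.ca 0,⟨false,[(12,10),(14,8)],(3,8),.mon 0 0 0,[(4,13),(3,15),(4,10)]⟩),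
  (.cc 0,⟨false,[(7,14),(10,8)],(5,8),.mon 0 0 0,[(2,6),(5,11),(2,14)]⟩),
  (.ca 0,⟨false,[(8,14),(12,7)],(2,7),.mon 0 0 0,[(5,9),(2,13),(5,14)]⟩),
  (.mul 5 0,⟨false,[(8,14),(12,7)],(2,10),.mon 0 0 0,[(2,9),(5,12),(5,10),(5,13),(2,8),(2,7),(5,9),(2,13),(5,14)]⟩),
  (.sq 0 1,⟨false,[],(2,10),.mon 0 0 0,[(5,10),(2,4)]⟩),
  (.base 2,⟨false,[(7,12),(8,10)],(2,9),.mon 0 0 1,[(2,10),(5,6),(5,12)]⟩),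
  (.mul 0 10,⟨false,[(7,12),(8,10),(14,8),(12,10)],(2,9),.mon 0 0 1,[(2,10),(5,6),(5,12),(5,10),(2,15),(5,13),(2,8)]⟩),
  (.sq 0 5,⟨false,[],(2,9),.mon 0 0 1,[(2,10),(5,12),(5,10),(5,13),(2,8)]⟩),
  (.cc 0,⟨false,[],(4,9),.mon 0 0 1,[(4,14),(3,7),(3,14),(3,6),(4,8)]⟩),
  (.ca 0,⟨false,[],(3,6),.mon 0 0 1,[(3,14),(4,8),(4,14),(4,9),(3,7)]⟩),
  (.cc 0,⟨false,[],(5,13),.mon 0 0 1,[(5,10),(2,8),(2,10),(2,9),(5,12)]⟩),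
  (.ca 0,⟨false,[],(2,11),.mon 0 0 1,[(2,12),(5,7),(5,12),(5,6),(2,10)]⟩),
  (.cc 0,⟨false,[],(4,15),.mon 0 0 1,[(4,7),(3,12),(3,7),(3,13),(4,14)]⟩),
  (.ca 0,⟨false,[],(3,15),.mon 0 0 1,[(3,8),(4,10),(4,8),(4,11),(3,14)]⟩),
  (.cc 0,⟨false,[],(5,11),.mon 0 0 1,[(5,8),(2,14),(2,8),(2,15),(5,10)]⟩),
  (.comm 10 0 0,⟨false,[],(2,4),.mon 0 0 1,[]⟩),
  (.cc 0,⟨false,[],(4,2),.mon 0 0 1,[]⟩),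
  (.sI 1 0,⟨true,[],(4,10),.mon 0 0 2,[]⟩),
  (.comm 25 1 0,⟨false,[],(4,10),.mon 0 0 1,[(3,6),(4,9),(3,12),(7,10),(7,9),(8,12),(11,12)]⟩),
  (.cc 16,⟨false,[(8,10),(7,12)],(4,12),.mon 0 0 0,[(3,9),(4,6),(3,10)]⟩),
  (.ko 1 0 3,⟨false,[],(4,10),.mon 0 0 1,[(3,6),(4,9),(3,12)]⟩),
  (.mul 0 27,⟨false,[(12,7),(8,14)],(4,10),.mon 0 0 1,[(3,6),(4,9),(3,12),(4,14),(3,13),(4,9),(3,7)]⟩),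
  (.sq 0 0,⟨false,[],(4,10),.mon 0 0 1,[]⟩),
  (.sF 5 0,⟨false,[],(4,10),.all,[]⟩),
  (.cc 0,⟨false,[],(2,14),.all,[]⟩),
  (.ca 0,⟨false,[],(5,14),.all,[]⟩),
  (.cc 0,⟨false,[],(3,10),.all,[]⟩),
  (.ca 0,⟨false,[],(4,12),.all,[]⟩),
  (.cc 0,⟨false,[],(2,7),.all,[]⟩),
  (.base 1,⟨false,[(7,12),(8,10)],(5,6),.mon 0 0 1,[(2,10),(2,9),(5,12)]⟩),
  (.comm 1 0 0,⟨false,[],(2,4),.all,[]⟩),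
  (.cc 0,⟨false,[],(4,2),.all,[]⟩),
  (.comm 8 2 0,⟨false,[],(7,10),.all,[(11,12)]⟩),
  (.ca 10,⟨false,[],(3,12),.mon 0 0 1,[]⟩),
  (.comm 0 18 0,⟨false,[],(5,12),.mon 0 0 2,[]⟩),
  (.comm 11 0 0,⟨false,[],(11,12),.all,[]⟩),
  (.drop 3 [0],⟨false,[],(7,10),.all,[]⟩),
  (.ca 0,⟨false,[],(8,12),.all,[]⟩),
  (.cc 0,⟨false,[],(8,7),.all,[]⟩),
  (.comm 0 9 0,⟨false,[],(5,9),.all,[]⟩),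
  (.ca 0,⟨false,[],(2,6),.all,[]⟩),
  (.spec 9,⟨false,[],(4,2),.mon 0 0 0,[]⟩),
  (.comm 1 0 0,⟨false,[],(4,6),.all,[]⟩),
  (.ca 19,⟨false,[],(3,12),.all,[]⟩),
  (.cc 0,⟨false,[],(5,7),.all,[]⟩),
  (.cc 11,⟨false,[],(5,7),.mon 0 0 1,[]⟩),
  (.ca 0,⟨false,[],(2,8),.mon 0 0 1,[]⟩),
  (.cc 0,⟨false,[],(4,8),.mon 0 0 1,[]⟩),
  (.comm 3 0 0,⟨false,[],(6,8),.all,[]⟩),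
  (.cc 9,⟨false,[],(3,9),.all,[]⟩),
  (.spec 9,⟨false,[],(2,6),.mon 0 0 0,[]⟩),
  (.comm 1 0 0,⟨false,[],(7,9),.all,[]⟩),
  (.comm 24 22 0,⟨false,[],(7,12),.all,[]⟩),
  (.ca 0,⟨false,[],(8,10),.all,[]⟩),
  (.cc 1,⟨false,[],(12,7),.all,[]⟩),
  (.ca 0,⟨false,[],(10,8),.all,[]⟩),
  (.cN 19 3 1,⟨false,[],(11,13),.all,[]⟩),
  (.ca 0,⟨false,[],(13,11),.all,[]⟩),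
  (.cc 21,⟨false,[],(12,14),.all,[]⟩),
  (.ca 0,⟨false,[],(10,14),.all,[]⟩),
  (.cc 0,⟨false,[],(14,10),.all,[]⟩),
  (.cN 3 1 0,⟨false,[],(13,15),.all,[]⟩),
  (.comm 33 45 0,⟨false,[],(4,7),.all,[]⟩),
  (.spec 0,⟨false,[],(4,7),.mon 0 0 0,[]⟩),
  (.comm 23 0 0,⟨false,[],(2,5),.all,[]⟩),
  (.ca 36,⟨false,[],(5,8),.all,[]⟩),
  (.cc 0,⟨false,[],(3,8),.all,[]⟩),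
  (.spec 0,⟨false,[],(3,8),.mon 0 0 0,[]⟩),
  (.comm 28 0 0,⟨false,[],(3,4),.all,[]⟩)],
  [(4,4),(0,0),(38,38),(37,37),(26,26),(24,24),(20,20),(17,17),(15,15),(13,13),(11,11),(12,12),(10,10),(7,7)]⟩⟩ = true := by decide +kernel

theorem cDo8 : (Fam.op0 .D0 8).check false false false true (Fam.tcG 8)
  ⟨[(14,16),(4,8),(7,13),(5,8),(2,11)],[(3,8),(4,13),(4,17)],[],[(6,12),(10,12),(4,9),(2,11),(8,14),(8,11),(3,4),(6,11)],[(5,16),(6,2),(15,11),(7,2),(8,12)],(2,4),(3,6),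
  ⟨[(4,11)],[],[(5,2)],[((11,12),some (0,0,0)),((11,15),some (0,0,1))],0,(11,12),(11,12),(11,12),(11,12),(0,0,0),[(2,6),(2,17)],
  [(.base 0,⟨false,[(5,2),(4,11)],(2,17),.mon 0 0 1,[(2,6),(11,12),(11,15)]⟩),
  (.cc 0,⟨false,[(16,3),(17,15)],(3,4),.mon 0 0 1,[(3,7),(15,8),(15,11)]⟩),
  (.ca 0,⟨false,[(14,10),(15,17)],(10,5),.mon 0 0 1,[(10,13),(17,9),(17,2)]⟩),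
  (.cc 0,⟨false,[(10,14),(11,4)],(14,16),.mon 0 0 1,[(14,9),(4,13),(4,3)]⟩),
  (.ca 0,⟨false,[(3,16),(2,5)],(16,14),.mon 0 0 1,[(16,8),(5,7),(5,10)]⟩),
  (.cc 0,⟨false,[(2,5),(3,16)],(5,10),.mon 0 0 1,[(5,12),(16,6),(16,14)]⟩),
  (.mul 5 0,⟨false,[(5,2),(4,11),(2,5),(3,16)],(2,17),.mon 0 0 1,[(2,6),(11,12),(11,15),(5,10),(5,12),(16,6),(16,14)]⟩),
  (.sq 0 1,⟨false,[],(2,17),.mon 0 0 1,[(5,10),(11,17)]⟩),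
  (.cc 0,⟨false,[],(3,4),.mon 0 0 1,[(16,14),(15,4)]⟩),
  (.comm 1 0 0,⟨false,[],(5,17),.mon 0 0 2,[]⟩),
  (.ca 0,⟨false,[],(4,15),.mon 0 0 2,[]⟩),
  (.cc 0,⟨false,[],(17,11),.mon 0 0 2,[]⟩),
  (.ca 0,⟨false,[],(15,2),.mon 0 0 2,[]⟩),
  (.cc 0,⟨false,[],(11,3),.mon 0 0 2,[]⟩),
  (.comm 0 2 0,⟨false,[],(2,16),.mon 0 0 4,[]⟩),
  (.comm 2 4 0,⟨false,[],(3,5),.mon 0 0 4,[]⟩),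
  (.comm 1 0 0,⟨false,[],(4,16),.mon 0 0 8,[]⟩),
  (.comm 16 0 0,⟨false,[],(2,5),.mon 0 0 9,[]⟩),
  (.ca 0,⟨false,[],(11,4),.mon 0 0 9,[]⟩),
  (.cc 0,⟨false,[],(15,17),.mon 0 0 9,[]⟩),
  (.ca 0,⟨false,[],(17,15),.mon 0 0 9,[]⟩),
  (.cc 0,⟨false,[],(4,11),.mon 0 0 9,[]⟩),
  (.sI 0 3,⟨true,[],(5,17),.mon 0 0 18,[]⟩),
  (.sN 0,⟨true,[],(5,17),.mon 0 0 (-18),[]⟩),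
  (.cc 6,⟨false,[],(3,16),.mon 0 0 9,[]⟩),
  (.comm 0 15 0,⟨false,[],(3,4),.mon 0 0 11,[]⟩),
  (.sI 8 0,⟨true,[],(5,17),.mon 0 0 20,[]⟩),
  (.sA 0 3,⟨true,[],(5,17),.mon 0 0 2,[]⟩),
  (.sF 0 18,⟨false,[],(5,17),.all,[]⟩),
  (.comm 0 14 0,⟨false,[],(2,4),.all,[]⟩),
  (.ca 1,⟨false,[],(4,15),.all,[]⟩),
  (.comm 0 18 0,⟨false,[],(3,5),.all,[]⟩),
  (.comm 3 14 0,⟨false,[],(2,17),.all,[]⟩),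
  (.cN 0 3 1,⟨false,[],(4,17),.all,[]⟩),
  (.base 1,⟨false,[(5,2),(4,11)],(2,6),.mon 0 0 0,[(2,17),(11,12),(11,15)]⟩),
  (.comm 3 0 0,⟨false,[],(4,6),.all,[(4,17)]⟩),
  (.drop 0 [2],⟨false,[],(4,6),.all,[]⟩),
  (.comm 8 21 0,⟨false,[],(3,17),.all,[]⟩),
  (.comm 0 3 0,⟨false,[],(7,17),.all,[]⟩),
  (.cc 0,⟨false,[],(6,4),.all,[]⟩),
  (.comm 26 27 0,⟨false,[],(11,14),.mon 0 0 4,[]⟩),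
  (.comm 10 0 0,⟨false,[],(4,10),.all,[]⟩),
  (.cN 0 5 2,⟨false,[],(6,10),.all,[]⟩),
  (.spec 0,⟨false,[],(6,10),.mon 0 0 0,[]⟩),
  (.ca 5,⟨false,[],(13,15),.all,[]⟩),
  (.cc 0,⟨false,[],(9,11),.all,[]⟩),
  (.comm 0 2 0,⟨false,[],(6,8),.all,[]⟩),
  (.ca 7,⟨false,[],(12,5),.all,[]⟩),
  (.cc 0,⟨false,[],(8,16),.all,[]⟩),
  (.ca 12,⟨false,[],(5,12),.all,[]⟩),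
  (.cc 0,⟨false,[],(16,8),.all,[]⟩),
  (.cN 12 0 2,⟨false,[],(7,9),.all,[]⟩),
  (.comm 36 38 0,⟨false,[],(4,10),.mon 0 0 6,[]⟩),
  (.comm 24 0 0,⟨false,[],(11,17),.all,[]⟩),
  (.cN 0 3 5,⟨false,[],(8,10),.all,[]⟩),
  (.comm 37 42 0,⟨false,[],(4,14),.mon 0 0 11,[]⟩),
  (.comm 27 44 0,⟨false,[],(5,11),.all,[]⟩),
  (.comm 0 1 0,⟨false,[],(10,14),.all,[]⟩),
  (.spec 0,⟨false,[],(10,14),.mon 0 0 0,[]⟩),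
  (.comm 14 0 0,⟨false,[],(10,12),.all,[]⟩),
  (.comm 35 46 0,⟨false,[],(11,16),.mon 0 0 11,[]⟩),
  (.comm 32 0 0,⟨false,[],(5,10),.all,[]⟩),
  (.cN 0 12 14,⟨false,[],(11,13),.all,[]⟩),
  (.comm 48 50 0,⟨false,[],(15,16),.mon 0 0 6,[]⟩),
  (.comm 35 0 0,⟨false,[],(5,14),.all,[]⟩),
  (.cN 0 15 17,⟨false,[],(12,14),.all,[]⟩),
  (.comm 47 54 0,⟨false,[],(5,16),.mon 0 0 11,[]⟩),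
  (.comm 36 0 0,⟨false,[],(14,16),.all,[]⟩),
  (.comm 39 12 0,⟨false,[],(15,17),.all,[]⟩),
  (.ca 44,⟨false,[],(10,14),.mon 0 0 9,[]⟩),
  (.comm 0 56 0,⟨false,[],(2,14),.mon 0 0 11,[]⟩),
  (.comm 40 0 0,⟨false,[],(2,5),.all,[]⟩),
  (.comm 43 47 0,⟨false,[],(3,4),.all,[]⟩)],
  [(1,1),(0,0),(43,43),(41,41),(36,36),(33,33),(26,26),(21,21),(18,18),(27,27),(13,13),(10,10),(7,7),(28,28),(5,5),(4,4)]⟩⟩ = true := by decide +kernel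

theorem cDo9 : Fam.chkP .D0 9 1 true false false false true
  ⟨[(11,14),(11,12)],[],[(13,8),(13,10)],[((14,17),some (0,0,0)),((3,12),some (0,0,1)),((11,17),some (0,0,0))],0,(14,17),(14,17),(14,17),(14,17),(0,0,0),[(8,7),(3,10),(13,7)],
  [(.base 3,⟨false,[(13,8),(13,10),(11,14),(11,12)],(14,17),.mon 0 0 0,[(6,12),(3,10),(6,9),(3,12),(11,17)]⟩),
  (.cc 0,⟨false,[(15,18),(15,16),(17,12),(17,14)],(12,11),.mon 0 0 0,[(2,14),(7,16),(2,19),(7,14),(17,11)]⟩),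
  (.ca 0,⟨false,[(9,4),(9,6),(7,10),(7,8)],(10,13),.mon 0 0 0,[(2,8),(17,6),(2,5),(17,8),(7,13)]⟩),
  (.cc 0,⟨false,[(19,4),(19,2),(3,16),(3,18)],(16,15),.mon 0 0 0,[(6,18),(11,2),(6,5),(11,18),(3,15)]⟩),
  (.ca 0,⟨false,[(5,18),(5,2),(3,6),(3,4)],(6,9),.mon 0 0 0,[(16,4),(13,2),(16,19),(13,4),(3,9)]⟩),
  (.cc 0,⟨false,[(5,8),(5,6),(7,2),(7,4)],(2,19),.mon 0 0 0,[(10,4),(15,6),(10,9),(15,4),(7,19)]⟩),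
  (.ca 0,⟨false,[(19,14),(19,16),(17,2),(17,18)],(2,5),.mon 0 0 0,[(12,18),(9,16),(12,15),(9,18),(17,5)]⟩),
  (.base 0,⟨false,[(13,8),(13,10),(11,14),(11,12)],(13,7),.mon 0 0 0,[(3,10),(6,9),(14,17),(3,12),(11,17)]⟩),
  (.cc 0,⟨false,[(15,18),(15,16),(17,12),(17,14)],(15,3),.mon 0 0 0,[(7,16),(2,19),(12,11),(7,14),(17,11)]⟩),
  (.ca 0,⟨false,[(9,4),(9,6),(7,10),(7,8)],(9,3),.mon 0 0 0,[(17,6),(2,5),(10,13),(17,8),(7,13)]⟩),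
  (.cc 0,⟨false,[(19,4),(19,2),(3,16),(3,18)],(19,7),.mon 0 0 0,[(11,2),(6,5),(16,15),(11,18),(3,15)]⟩),
  (.ca 0,⟨false,[(5,18),(5,2),(3,6),(3,4)],(5,17),.mon 0 0 0,[(13,2),(16,19),(6,9),(13,4),(3,9)]⟩),
  (.cc 0,⟨false,[(5,8),(5,6),(7,2),(7,4)],(5,11),.mon 0 0 0,[(15,6),(10,9),(2,19),(15,4),(7,19)]⟩),
  (.ca 0,⟨false,[(19,14),(19,16),(17,2),(17,18)],(19,13),.mon 0 0 0,[(9,16),(12,15),(2,5),(9,18),(17,5)]⟩),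
  (.cc 0,⟨false,[(9,12),(9,10),(11,6),(11,8)],(9,15),.mon 0 0 0,[(19,10),(14,13),(6,5),(19,8),(11,5)]⟩),
  (.base 5,⟨false,[(13,8),(13,10),(11,14),(11,12)],(11,17),.mon 0 0 0,[(6,12),(3,10),(6,9),(14,17),(3,12)]⟩),
  (.mul 0 1,⟨false,[(13,8),(13,10),(11,14),(11,12),(9,12),(9,10),(11,6),(11,8)],(11,17),.mon 0 0 0,[(6,12),(3,10),(6,9),(14,17),(3,12),(9,15),(19,10),(14,13),(6,5),(19,8),(11,5)]⟩),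
  (.sq 0 5,⟨false,[],(11,17),.mon 0 0 0,[(3,10),(3,12),(11,18),(9,18),(4,10),(6,15),(6,18),(3,15)]⟩),
  (.ca 0,⟨false,[],(13,7),.mon 0 0 0,[(3,12),(3,10),(13,4),(15,4),(18,12),(16,9),(16,4),(3,9)]⟩),
  (.cc 0,⟨false,[],(15,3),.mon 0 0 0,[(7,14),(7,16),(15,4),(13,4),(8,14),(10,19),(10,4),(7,19)]⟩),
  (.ca 0,⟨false,[],(9,3),.mon 0 0 0,[(17,8),(17,6),(9,18),(11,18),(14,8),(12,5),(12,18),(17,5)]⟩),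
  (.cc 0,⟨false,[],(19,7),.mon 0 0 0,[(11,18),(11,2),(19,8),(17,8),(12,18),(14,5),(14,8),(11,5)]⟩),
  (.ca 0,⟨false,[],(5,17),.mon 0 0 0,[(13,4),(13,2),(5,14),(7,14),(10,4),(8,19),(8,14),(13,19)]⟩),
  (.cc 0,⟨false,[],(5,11),.mon 0 0 0,[(15,4),(15,6),(5,12),(3,12),(16,4),(18,9),(18,12),(15,9)]⟩),
  (.ca 0,⟨false,[],(19,13),.mon 0 0 0,[(9,18),(9,16),(19,10),(3,10),(6,18),(4,15),(4,10),(9,15)]⟩),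
  (.base 4,⟨false,[(13,8),(13,10),(11,14),(11,12)],(3,12),.mon 0 0 1,[(6,12),(3,10),(6,9),(14,17),(11,17)]⟩),
  (.mul 0 11,⟨false,[(13,8),(13,10),(11,14),(11,12),(9,12),(9,10),(11,6),(11,8)],(3,12),.mon 0 0 1,[(6,12),(3,10),(6,9),(14,17),(11,17),(9,15),(19,10),(14,13),(6,5),(19,8),(11,5)]⟩),
  (.sq 0 5,⟨false,[],(3,12),.mon 0 0 1,[(3,10),(11,17),(11,18),(9,18),(4,10),(6,15),(6,18),(3,15)]⟩),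
  (.comm 0 3 0,⟨false,[],(3,18),.mon 0 0 1,[(9,10)]⟩),
  (.comm 0 22 0,⟨false,[],(4,18),.mon 0 0 1,[]⟩),
  (.ca 0,⟨false,[],(18,4),.mon 0 0 1,[]⟩),
  (.cc 0,⟨false,[],(8,4),.mon 0 0 1,[]⟩),
  (.ca 0,⟨false,[],(14,18),.mon 0 0 1,[]⟩),
  (.cc 0,⟨false,[],(12,8),.mon 0 0 1,[]⟩),
  (.comm 0 2 0,⟨false,[],(5,13),.mon 0 0 2,[]⟩),
  (.ca 1,⟨false,[],(10,14),.mon 0 0 1,[]⟩),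
  (.cc 0,⟨false,[],(16,12),.mon 0 0 1,[]⟩),
  (.comm 0 2 0,⟨false,[],(5,17),.mon 0 0 3,[]⟩),
  (.ca 1,⟨false,[],(6,10),.mon 0 0 1,[]⟩),
  (.cc 0,⟨false,[],(2,16),.mon 0 0 1,[]⟩),
  (.comm 0 2 0,⟨false,[],(2,4),.mon 0 0 4,[]⟩),
  (.cc 11,⟨false,[],(4,8),.mon 0 0 1,[]⟩),
  (.sI 10 0,⟨true,[],(4,18),.mon 0 0 2,[]⟩),
  (.sF 0 13,⟨false,[],(4,18),.all,[]⟩),
  (.comm 0 3 0,⟨false,[],(2,18),.all,[]⟩),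
  (.ca 0,⟨false,[],(2,4),.all,[]⟩),
  (.base 2,⟨false,[(13,8),(13,10),(11,14),(11,12)],(8,7),.mon 0 0 0,[(6,12),(3,10),(14,17),(3,12),(11,17)]⟩),
  (.cc 3,⟨false,[],(4,8),.all,[]⟩),
  (.comm 0 1 0,⟨false,[],(4,7),.all,[]⟩),
  (.cc 0,⟨false,[],(4,3),.all,[]⟩),
  (.ca 32,⟨false,[],(13,7),.mon 0 0 0,[(3,12),(3,10),(13,4),(15,4),(18,12),(16,9),(16,4),(3,9)]⟩),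
  (.cc 0,⟨false,[],(15,3),.mon 0 0 0,[(7,14),(7,16),(15,4),(13,4),(8,14),(10,19),(10,4),(7,19)]⟩),
  (.ca 0,⟨false,[],(9,3),.mon 0 0 0,[(17,8),(17,6),(9,18),(11,18),(14,8),(12,5),(12,18),(17,5)]⟩),
  (.comm 24 0 0,⟨false,[],(9,18),.mon 0 0 1,[]⟩),
  (.ca 0,⟨false,[],(15,4),.mon 0 0 1,[]⟩),
  (.cc 0,⟨false,[],(13,4),.mon 0 0 1,[]⟩),
  (.ca 0,⟨false,[],(11,18),.mon 0 0 1,[]⟩),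
  (.cc 0,⟨false,[],(17,8),.mon 0 0 1,[]⟩),
  (.ca 0,⟨false,[],(7,14),.mon 0 0 1,[]⟩),
  (.cc 0,⟨false,[],(3,12),.mon 0 0 1,[]⟩),
  (.comm 0 25 0,⟨false,[],(3,4),.mon 0 0 3,[]⟩),
  (.comm 17 0 0,⟨false,[],(3,18),.all,[]⟩),
  (.ca 0,⟨false,[],(3,4),.all,[]⟩),
  (.comm 21 32 0,⟨false,[],(9,19),.mon 0 0 2,[]⟩),
  (.ca 22,⟨false,[],(18,14),.mon 0 0 1,[]⟩),
  (.cc 0,⟨false,[],(8,12),.mon 0 0 1,[]⟩),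
  (.comm 0 2 0,⟨false,[],(13,19),.mon 0 0 3,[]⟩),
  (.ca 1,⟨false,[],(14,10),.mon 0 0 1,[]⟩),
  (.cc 0,⟨false,[],(12,16),.mon 0 0 1,[]⟩),
  (.comm 0 2 0,⟨false,[],(17,19),.mon 0 0 4,[]⟩),
  (.ca 1,⟨false,[],(10,6),.mon 0 0 1,[]⟩),
  (.cc 0,⟨false,[],(16,2),.mon 0 0 1,[]⟩),
  (.comm 0 2 0,⟨false,[],(3,19),.mon 0 0 5,[]⟩),
  (.comm 29 0 0,⟨false,[],(3,5),.all,[]⟩),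
  (.comm 6 9 0,⟨false,[],(11,19),.mon 0 0 2,[]⟩),
  (.comm 4 0 0,⟨false,[],(7,19),.mon 0 0 3,[]⟩),
  (.comm 32 0 0,⟨false,[],(4,6),.all,[]⟩),
  (.comm 19 45 0,⟨false,[],(5,16),.mon 0 0 2,[]⟩),
  (.comm 34 0 0,⟨false,[],(17,18),.all,[]⟩),
  (.ca 0,⟨false,[],(7,4),.all,[]⟩),
  (.comm 36 42 0,⟨false,[],(16,18),.all,[]⟩),
  (.ca 0,⟨false,[],(6,4),.all,[]⟩)],
  [(36,36),(32,32),(19,19),(8,8),(8,8),(32,32),(19,19),(36,36),(5,5),(33,33),(2,2),(0,0),(0,0),(33,33),(2,2),(5,5)]⟩ = true := by decide +kernel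

theorem cDo10 : (Fam.op0 .D0 10).check false false false true (Fam.tcG 10)
  ⟨[(8,11),(12,15),(5,18),(6,17),(13,15)],[(14,17),(5,13),(9,13)],[],[(2,15),(5,6),(11,14),(6,20),(3,6),(11,14),(3,10),(4,16),(11,16),(10,13)],[(8,12),(7,2),(17,18),(14,20),(6,2)],(2,4),(3,6),
  ⟨[(7,21),(10,20)],[],[(16,21),(9,20)],[((16,20),some (0,0,1)),((10,19),some (0,0,1)),((2,11),some (0,0,0))],0,(16,20),(16,20),(16,20),(16,20),(0,0,0),[(7,20),(9,4),(2,8)],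
  [(.base 0,⟨false,[(16,21),(9,20),(7,21),(10,20)],(2,8),.mon 0 0 0,[(5,8),(7,20),(16,20),(10,19),(2,11)]⟩),
  (.base 1,⟨false,[(16,21),(9,20),(7,21),(10,20)],(9,4),.mon 0 0 1,[(2,8),(7,20),(16,20),(10,19),(2,11)]⟩),
  (.cc 1,⟨false,[(19,15),(13,14),(6,15),(10,14)],(3,12),.mon 0 0 0,[(5,12),(6,14),(19,14),(10,16),(3,11)]⟩),
  (.base 2,⟨false,[(16,21),(9,20),(7,21),(10,20)],(7,20),.mon 0 0 1,[(2,8),(5,8),(16,20),(10,19),(2,11)]⟩),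
  (.mul 0 1,⟨false,[(16,21),(9,20),(7,21),(10,20),(19,15),(13,14),(6,15),(10,14)],(7,20),.mon 0 0 1,[(2,8),(5,8),(16,20),(10,19),(2,11),(3,12),(5,12),(6,14),(19,14),(10,16),(3,11)]⟩),
  (.sq 0 3,⟨false,[],(7,20),.mon 0 0 1,[(2,11),(6,14),(3,11),(9,12),(9,11),(15,20),(10,20),(10,14),(10,12)]⟩),
  (.cc 0,⟨false,[],(6,14),.mon 0 0 1,[(3,11),(7,20),(2,11),(13,8),(13,11),(21,14),(10,14),(10,20),(10,8)]⟩),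
  (.ca 0,⟨false,[],(17,15),.mon 0 0 1,[(3,8),(16,20),(2,8),(12,11),(12,8),(21,15),(9,15),(9,20),(9,11)]⟩),
  (.ca 5,⟨false,[(4,14),(12,15),(17,14),(9,15)],(3,13),.mon 0 0 0,[(18,13),(17,15),(4,15),(9,7),(3,8)]⟩),
  (.cc 0,⟨false,[(4,20),(8,21),(18,20),(13,21)],(2,9),.mon 0 0 0,[(17,9),(18,21),(4,21),(13,6),(2,12)]⟩),
  (.ca 0,⟨false,[(19,20),(11,21),(5,20),(12,21)],(2,10),.mon 0 0 0,[(6,10),(5,21),(19,21),(12,17),(2,13)]⟩),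
  (.cc 0,⟨false,[(16,14),(11,15),(5,14),(8,15)],(3,10),.mon 0 0 0,[(7,10),(5,15),(16,15),(8,18),(3,9)]⟩),
  (.ca 0,⟨false,[(7,15),(8,14),(18,15),(11,14)],(3,9),.mon 0 0 0,[(16,9),(18,14),(7,14),(11,5),(3,10)]⟩),
  (.cc 0,⟨false,[(6,21),(12,20),(17,21),(11,20)],(2,13),.mon 0 0 0,[(19,13),(17,20),(6,20),(11,5),(2,10)]⟩),
  (.ca 0,⟨false,[(17,21),(13,20),(6,21),(8,20)],(2,12),.mon 0 0 0,[(4,12),(6,20),(17,20),(8,18),(2,9)]⟩),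
  (.cc 0,⟨false,[(18,15),(9,14),(7,15),(12,14)],(3,8),.mon 0 0 0,[(4,8),(7,14),(18,14),(12,17),(3,13)]⟩),
  (.ca 0,⟨false,[(5,14),(10,15),(16,14),(13,15)],(3,11),.mon 0 0 0,[(19,11),(16,15),(5,15),(13,6),(3,12)]⟩),
  (.cc 0,⟨false,[(5,20),(10,21),(19,20),(9,21)],(2,11),.mon 0 0 0,[(16,11),(19,21),(5,21),(9,7),(2,8)]⟩),
  (.ca 0,⟨false,[(18,20),(9,21),(4,20),(10,21)],(2,8),.mon 0 0 0,[(7,8),(4,21),(18,21),(10,16),(2,11)]⟩),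
  (.cc 0,⟨false,[(17,14),(13,15),(4,14),(10,15)],(3,12),.mon 0 0 0,[(6,12),(4,15),(17,15),(10,19),(3,11)]⟩),
  (.ca 0,⟨false,[(6,15),(12,14),(19,15),(9,14)],(3,13),.mon 0 0 0,[(17,13),(19,14),(6,14),(9,4),(3,8)]⟩),
  (.cc 0,⟨false,[(7,21),(8,20),(16,21),(13,20)],(2,9),.mon 0 0 0,[(18,9),(16,20),(7,20),(13,4),(2,12)]⟩),
  (.ca 0,⟨false,[(16,21),(11,20),(7,21),(12,20)],(2,10),.mon 0 0 0,[(5,10),(7,20),(16,20),(12,19),(2,13)]⟩),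
  (.cc 0,⟨false,[(19,15),(11,14),(6,15),(8,14)],(3,10),.mon 0 0 0,[(5,10),(6,14),(19,14),(8,16),(3,9)]⟩),
  (.ca 0,⟨false,[(4,14),(8,15),(17,14),(11,15)],(3,9),.mon 0 0 0,[(18,9),(17,15),(4,15),(11,7),(3,10)]⟩),
  (.cc 0,⟨false,[(4,20),(12,21),(18,20),(11,21)],(2,13),.mon 0 0 0,[(17,13),(18,21),(4,21),(11,6),(2,10)]⟩),
  (.ca 0,⟨false,[(19,20),(13,21),(5,20),(8,21)],(2,12),.mon 0 0 0,[(6,12),(5,21),(19,21),(8,17),(2,9)]⟩),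
  (.cc 0,⟨false,[(16,14),(9,15),(5,14),(12,15)],(3,8),.mon 0 0 0,[(7,8),(5,15),(16,15),(12,18),(3,13)]⟩),
  (.base 3,⟨false,[(16,21),(9,20),(7,21),(10,20)],(16,20),.mon 0 0 1,[(2,8),(5,8),(7,20),(10,19),(2,11)]⟩),
  (.mul 0 1,⟨false,[(16,21),(9,20),(7,21),(10,20),(16,14),(9,15),(5,14),(12,15)],(16,20),.mon 0 0 1,[(2,8),(5,8),(7,20),(10,19),(2,11),(3,8),(7,8),(5,15),(16,15),(12,18),(3,13)]⟩),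
  (.sq 0 3,⟨false,[],(16,20),.mon 0 0 1,[(2,8),(3,8),(14,17),(9,13),(10,13),(9,11)]⟩),
  (.comm 0 23 0,⟨false,[],(14,20),.mon 0 0 2,[]⟩),
  (.ca 0,⟨false,[],(15,20),.mon 0 0 2,[]⟩),
  (.cc 1,⟨false,[],(20,14),.mon 0 0 2,[]⟩),
  (.ca 0,⟨false,[],(20,15),.mon 0 0 2,[]⟩),
  (.comm 4 0 0,⟨false,[],(14,17),.mon 0 0 3,[]⟩),
  (.cc 0,⟨false,[],(20,18),.mon 0 0 3,[]⟩),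
  (.ca 0,⟨false,[],(20,5),.mon 0 0 3,[]⟩),
  (.comm 0 5 0,⟨false,[],(4,14),.mon 0 0 5,[]⟩),
  (.ca 3,⟨false,[],(15,6),.mon 0 0 3,[]⟩),
  (.cc 0,⟨false,[],(21,7),.mon 0 0 3,[]⟩),
  (.ca 0,⟨false,[],(21,16),.mon 0 0 3,[]⟩),
  (.cc 0,⟨false,[],(15,19),.mon 0 0 3,[]⟩),
  (.ca 0,⟨false,[],(14,4),.mon 0 0 3,[]⟩),
  (.cc 6,⟨false,[],(14,5),.mon 0 0 3,[]⟩),
  (.comm 0 12 0,⟨false,[],(4,20),.mon 0 0 5,[]⟩),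
  (.comm 0 12 0,⟨false,[],(4,14),.mon 0 0 7,[]⟩),
  (.sI 0 3,⟨true,[],(14,20),.mon 0 0 10,[]⟩),
  (.sI 9 4,⟨true,[],(14,20),.mon 0 0 8,[]⟩),
  (.sN 0,⟨true,[],(14,20),.mon 0 0 (-8),[]⟩),
  (.sA 0 2,⟨true,[],(14,20),.mon 0 0 2,[]⟩),
  (.sF 0 19,⟨false,[],(14,20),.all,[]⟩),
  (.comm 0 13 0,⟨false,[],(4,20),.all,[]⟩),
  (.comm 0 51 0,⟨false,[],(9,20),.all,[]⟩),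
  (.cc 0,⟨false,[],(13,14),.all,[]⟩),
  (.ca 0,⟨false,[],(12,15),.all,[]⟩),
  (.cc 12,⟨false,[],(20,4),.mon 0 0 3,[]⟩),
  (.ca 5,⟨false,[],(15,20),.all,[]⟩),
  (.comm 0 1 0,⟨false,[],(5,14),.all,[]⟩),
  (.cN 0 4 3,⟨false,[],(5,13),.all,[]⟩),
  (.cc 0,⟨false,[],(5,9),.all,[]⟩),
  (.comm 0 60 0,⟨false,[],(2,4),.all,[]⟩),
  (.comm 10 22 0,⟨false,[],(7,20),.all,[]⟩),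
  (.comm 0 6 0,⟨false,[],(5,6),.all,[]⟩),
  (.comm 23 30 0,⟨false,[],(6,14),.mon 0 0 5,[]⟩),
  (.comm 0 30 0,⟨false,[],(6,21),.mon 0 0 7,[]⟩),
  (.comm 8 0 0,⟨false,[],(6,14),.all,[]⟩),
  (.cN 0 12 11,⟨false,[],(6,13),.all,[]⟩),
  (.cc 0,⟨false,[],(7,9),.all,[]⟩),
  (.comm 0 68 0,⟨false,[],(2,6),.all,[(5,6)]⟩),
  (.drop 0 [6],⟨false,[],(2,6),.all,[]⟩),
  (.cc 0,⟨false,[],(3,7),.all,[]⟩),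
  (.comm 9 34 0,⟨false,[],(4,6),.all,[]⟩),
  (.cN 0 2 1,⟨false,[],(3,5),.all,[]⟩),
  (.comm 22 9 0,⟨false,[],(6,20),.all,[]⟩),
  (.comm 0 18 0,⟨false,[],(5,7),.all,[]⟩),
  (.comm 36 41 0,⟨false,[],(7,21),.mon 0 0 5,[]⟩),
  (.comm 25 0 0,⟨false,[],(7,15),.all,[]⟩),
  (.comm 26 40 0,⟨false,[],(4,15),.all,[]⟩),
  (.cN 0 1 12,⟨false,[],(4,7),.all,[]⟩),
  (.comm 0 78 0,⟨false,[],(6,8),.all,[(4,20),(9,20)]⟩),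
  (.drop 0 [28,27],⟨false,[],(6,8),.all,[]⟩),
  (.comm 3 80 0,⟨false,[],(9,15),.all,[]⟩),
  (.cc 0,⟨false,[],(13,21),.all,[]⟩),
  (.ca 0,⟨false,[],(12,21),.all,[]⟩),
  (.cc 0,⟨false,[],(8,15),.all,[]⟩),
  (.spec 0,⟨false,[],(8,15),.mon 0 0 0,[]⟩),
  (.ca 1,⟨false,[],(11,14),.all,[]⟩),
  (.comm 0 1 0,⟨false,[],(8,10),.all,[]⟩),
  (.spec 6,⟨false,[],(9,15),.mon 0 0 0,[]⟩),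
  (.ca 7,⟨false,[],(10,14),.all,[]⟩),
  (.comm 0 1 0,⟨false,[],(9,11),.all,[]⟩),
  (.spec 8,⟨false,[],(13,21),.mon 0 0 0,[]⟩),
  (.ca 39,⟨false,[],(10,20),.all,[]⟩),
  (.comm 0 1 0,⟨false,[],(10,12),.all,[]⟩),
  (.comm 37 57 0,⟨false,[],(4,14),.all,[]⟩),
  (.comm 0 94 0,⟨false,[],(9,14),.all,[]⟩),
  (.cN 0 42 41,⟨false,[],(9,13),.all,[]⟩),
  (.cc 0,⟨false,[],(13,9),.all,[]⟩),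
  (.ca 0,⟨false,[],(12,10),.all,[]⟩),
  (.cc 3,⟨false,[],(13,20),.all,[]⟩),
  (.cN 43 0 16,⟨false,[],(12,14),.all,[]⟩),
  (.spec 50,⟨false,[],(14,20),.mon 0 0 0,[]⟩),
  (.comm 19 0 0,⟨false,[],(13,15),.all,[]⟩),
  (.comm 62 70 0,⟨false,[],(15,16),.mon 0 0 5,[]⟩),
  (.comm 0 70 0,⟨false,[],(17,21),.mon 0 0 7,[]⟩),
  (.comm 54 0 0,⟨false,[],(14,16),.all,[]⟩),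
  (.comm 71 73 0,⟨false,[],(16,21),.mon 0 0 5,[]⟩),
  (.comm 50 0 0,⟨false,[],(15,17),.all,[]⟩),
  (.cc 57,⟨false,[],(20,14),.all,[]⟩),
  (.spec 0,⟨false,[],(20,14),.mon 0 0 0,[]⟩),
  (.comm 59 74 0,⟨false,[],(14,18),.all,[]⟩),
  (.comm 0 1 0,⟨false,[],(19,21),.all,[]⟩),
  (.comm 61 70 0,⟨false,[],(18,20),.all,[]⟩),
  (.comm 78 81 0,⟨false,[],(16,20),.mon 0 0 5,[]⟩),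
  (.comm 0 81 0,⟨false,[],(15,17),.mon 0 0 7,[]⟩),
  (.comm 64 0 0,⟨false,[],(16,20),.all,[]⟩),
  (.cN 0 3 4,⟨false,[],(16,18),.all,[]⟩),
  (.comm 4 12 0,⟨false,[],(17,19),.all,[]⟩),
  (.spec 23,⟨false,[],(4,14),.mon 0 0 0,[]⟩),
  (.comm 68 63 0,⟨false,[],(5,15),.all,[]⟩),
  (.comm 35 120 0,⟨false,[],(2,15),.all,[(5,15)]⟩),
  (.drop 0 [1],⟨false,[],(2,15),.all,[]⟩),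
  (.comm 0 3 0,⟨false,[],(2,5),.all,[]⟩),
  (.cN 60 53 52,⟨false,[],(3,4),.all,[]⟩)],
  [(1,1),(0,0),(63,63),(51,51),(52,52),(49,49),(43,43),(56,56),(36,36),(33,33),(30,30),(25,25),(23,23),(21,21),(18,18),(16,16),(7,7),(6,6),(11,11),(12,12)]⟩⟩ = true := by decide +kernel

theorem cDo11 : Fam.chkP .D0 11 1 true false false false true
  ⟨[(2,23),(16,19)],[],[(2,5),(10,9)],[((2,17),some (0,0,0)),((15,22),some (0,0,1)),((6,18),some (0,0,0))],0,(2,17),(2,17),(2,17),(2,17),(0,0,0),[(2,11),(13,4),(20,8)],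
  [(.base 3,⟨false,[(2,5),(10,9),(2,23),(16,19)],(2,17),.mon 0 0 0,[(9,21),(5,12),(2,11),(15,22),(6,18)]⟩),
  (.cc 0,⟨false,[(6,5),(20,23),(6,9),(14,13)],(6,15),.mon 0 0 0,[(23,11),(5,18),(6,21),(17,8),(2,12)]⟩),
  (.ca 0,⟨false,[(20,23),(6,5),(20,19),(12,15)],(20,13),.mon 0 0 0,[(5,17),(23,8),(20,7),(11,18),(2,14)]⟩),
  (.base 1,⟨false,[(2,5),(10,9),(2,23),(16,19)],(13,4),.mon 0 0 1,[(9,21),(2,11),(2,17),(15,22),(6,18)]⟩),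
  (.comm 0 1 0,⟨false,[],(5,21),.mon 0 0 1,[(2,18)]⟩),
  (.ca 0,⟨false,[],(23,7),.mon 0 0 1,[(2,8)]⟩),
  (.cc 0,⟨false,[],(9,3),.mon 0 0 1,[(6,22)]⟩),
  (.ca 0,⟨false,[],(19,3),.mon 0 0 1,[(20,4)]⟩),
  (.cc 0,⟨false,[],(13,7),.mon 0 0 1,[(10,4)]⟩),
  (.ca 0,⟨false,[],(15,21),.mon 0 0 1,[(16,22)]⟩),
  (.ca 5,⟨false,[],(23,7),.mon 0 0 1,[(2,8)]⟩),
  (.cc 0,⟨false,[],(9,3),.mon 0 0 1,[(6,22)]⟩),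
  (.ca 0,⟨false,[],(19,3),.mon 0 0 1,[(20,4)]⟩),
  (.cc 0,⟨false,[],(13,7),.mon 0 0 1,[(10,4)]⟩),
  (.ca 0,⟨false,[],(15,21),.mon 0 0 1,[(16,22)]⟩),
  (.cc 0,⟨false,[],(17,11),.mon 0 0 1,[(14,8)]⟩),
  (.ca 0,⟨false,[],(11,17),.mon 0 0 1,[(12,18)]⟩),
  (.cc 0,⟨false,[],(21,15),.mon 0 0 1,[(18,12)]⟩),
  (.comm 13 0 0,⟨false,[],(5,15),.mon 0 0 2,[(2,12)]⟩),
  (.comm 0 9 0,⟨false,[],(5,21),.mon 0 0 3,[]⟩),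
  (.ca 0,⟨false,[],(23,7),.mon 0 0 3,[]⟩),
  (.cc 0,⟨false,[],(9,3),.mon 0 0 3,[]⟩),
  (.cc 17,⟨false,[],(5,11),.mon 0 0 1,[(6,12)]⟩),
  (.ca 0,⟨false,[],(23,17),.mon 0 0 1,[(20,14)]⟩),
  (.cc 0,⟨false,[],(9,15),.mon 0 0 1,[(10,16)]⟩),
  (.ca 0,⟨false,[],(19,13),.mon 0 0 1,[(16,10)]⟩),
  (.cc 0,⟨false,[],(13,19),.mon 0 0 1,[(14,20)]⟩),
  (.ca 0,⟨false,[],(15,9),.mon 0 0 1,[(12,6)]⟩),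
  (.cc 0,⟨false,[],(17,23),.mon 0 0 1,[(18,2)]⟩),
  (.ca 0,⟨false,[],(11,5),.mon 0 0 1,[(8,2)]⟩),
  (.cc 0,⟨false,[],(21,5),.mon 0 0 1,[(22,6)]⟩),
  (.comm 12 0 0,⟨false,[],(14,20),.mon 0 0 3,[]⟩),
  (.cc 12,⟨false,[],(5,11),.mon 0 0 3,[]⟩),
  (.ca 0,⟨false,[],(23,17),.mon 0 0 3,[]⟩),
  (.cc 0,⟨false,[],(9,15),.mon 0 0 3,[]⟩),
  (.ca 0,⟨false,[],(19,13),.mon 0 0 3,[]⟩),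
  (.cc 0,⟨false,[],(13,19),.mon 0 0 3,[]⟩),
  (.ca 0,⟨false,[],(15,9),.mon 0 0 3,[]⟩),
  (.comm 0 6 0,⟨false,[],(8,20),.mon 0 0 6,[]⟩),
  (.comm 0 17 0,⟨false,[],(2,20),.mon 0 0 9,[]⟩),
  (.cc 8,⟨false,[],(16,10),.mon 0 0 3,[]⟩),
  (.ca 0,⟨false,[],(10,16),.mon 0 0 3,[]⟩),
  (.cc 0,⟨false,[],(20,14),.mon 0 0 3,[]⟩),
  (.ca 11,⟨false,[],(12,6),.mon 0 0 3,[]⟩),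
  (.cc 0,⟨false,[],(18,2),.mon 0 0 3,[]⟩),
  (.ca 0,⟨false,[],(8,2),.mon 0 0 3,[]⟩),
  (.comm 0 11 0,⟨false,[],(3,15),.mon 0 0 6,[]⟩),
  (.comm 0 4 0,⟨false,[],(3,21),.mon 0 0 9,[]⟩),
  (.sI 8 0,⟨true,[],(5,21),.mon 0 0 18,[]⟩),
  (.comm 45 13 0,⟨false,[],(5,18),.mon 0 0 4,[]⟩),
  (.comm 0 5 0,⟨false,[],(3,4),.mon 0 0 7,[]⟩),
  (.cc 5,⟨false,[],(22,6),.mon 0 0 3,[]⟩),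
  (.ca 0,⟨false,[],(4,20),.mon 0 0 3,[]⟩),
  (.cc 0,⟨false,[],(4,10),.mon 0 0 3,[]⟩),
  (.comm 0 12 0,⟨false,[],(4,16),.mon 0 0 6,[]⟩),
  (.base 2,⟨false,[(2,5),(10,9),(2,23),(16,19)],(2,11),.mon 0 0 0,[(9,21),(5,12),(2,17),(15,22),(6,18)]⟩),
  (.comm 0 15 0,⟨false,[],(2,17),.mon 0 0 3,[]⟩),
  (.comm 0 2 0,⟨false,[],(2,5),.mon 0 0 9,[]⟩),
  (.sI 0 7,⟨true,[],(5,21),.mon 0 0 16,[]⟩),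
  (.sN 0,⟨true,[],(5,21),.mon 0 0 (-16),[]⟩),
  (.sA 0 11,⟨true,[],(5,21),.mon 0 0 2,[]⟩),
  (.sF 0 41,⟨false,[],(5,21),.all,[]⟩),
  (.comm 0 22 0,⟨false,[],(2,4),.all,[]⟩),
  (.comm 1 5 0,⟨false,[],(2,21),.all,[]⟩),
  (.comm 0 11 0,⟨false,[],(2,5),.all,[]⟩),
  (.comm 14 12 0,⟨false,[],(3,20),.mon 0 0 10,[]⟩),
  (.comm 4 0 0,⟨false,[],(3,4),.all,[]⟩),
  (.comm 19 14 0,⟨false,[],(3,5),.mon 0 0 12,[]⟩),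
  (.comm 6 0 0,⟨false,[],(3,21),.all,[]⟩),
  (.comm 0 16 0,⟨false,[],(3,5),.all,[]⟩),
  (.comm 28 36 0,⟨false,[],(10,22),.mon 0 0 6,[]⟩),
  (.comm 19 0 0,⟨false,[],(7,11),.mon 0 0 9,[]⟩),
  (.comm 18 0 0,⟨false,[],(4,6),.mon 0 0 12,[]⟩),
  (.comm 11 0 0,⟨false,[],(7,21),.all,[]⟩),
  (.comm 0 21 0,⟨false,[],(4,6),.all,[]⟩),
  (.ca 53,⟨false,[],(19,3),.mon 0 0 3,[]⟩),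
  (.comm 30 0 0,⟨false,[],(8,18),.mon 0 0 6,[]⟩),
  (.base 0,⟨false,[(2,5),(10,9),(2,23),(16,19)],(20,8),.mon 0 0 0,[(5,12),(2,11),(2,17),(15,22),(6,18)]⟩),
  (.comm 0 1 0,⟨false,[],(19,21),.mon 0 0 6,[]⟩),
  (.cc 0,⟨false,[],(13,11),.mon 0 0 6,[]⟩),
  (.ca 0,⟨false,[],(15,17),.mon 0 0 6,[]⟩),
  (.cc 0,⟨false,[],(17,15),.mon 0 0 6,[]⟩),
  (.ca 0,⟨false,[],(11,13),.mon 0 0 6,[]⟩),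
  (.cc 0,⟨false,[],(21,19),.mon 0 0 6,[]⟩),
  (.ca 0,⟨false,[],(7,9),.mon 0 0 6,[]⟩),
  (.cc 0,⟨false,[],(3,23),.mon 0 0 6,[]⟩),
  (.ca 0,⟨false,[],(3,5),.mon 0 0 6,[]⟩),
  (.cc 49,⟨false,[],(17,23),.mon 0 0 3,[]⟩),
  (.comm 31 0 0,⟨false,[],(2,23),.mon 0 0 6,[]⟩),
  (.comm 0 2 0,⟨false,[],(4,23),.mon 0 0 12,[]⟩),
  (.ca 28,⟨false,[],(23,7),.all,[]⟩),
  (.comm 0 1 0,⟨false,[],(4,7),.all,[]⟩),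
  (.cc 42,⟨false,[],(5,12),.mon 0 0 4,[]⟩),
  (.comm 0 49 0,⟨false,[],(5,6),.mon 0 0 7,[]⟩),
  (.comm 0 41 0,⟨false,[],(7,20),.mon 0 0 10,[]⟩),
  (.comm 33 0 0,⟨false,[],(5,6),.all,[]⟩),
  (.ca 17,⟨false,[],(9,7),.mon 0 0 6,[]⟩),
  (.comm 0 58 0,⟨false,[],(6,20),.mon 0 0 12,[]⟩),
  (.comm 36 0 0,⟨false,[],(5,7),.all,[]⟩)],
  [(36,36),(34,34),(32,32),(29,29),(29,29),(34,34),(32,32),(36,36),(24,24),(7,7),(3,3),(0,0),(0,0),(7,7),(3,3),(24,24)]⟩ = true := by decide +kernel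

theorem cDo12 : Fam.chkP .D0 12 1 true false false false true
  ⟨[(15,20),(7,13)],[],[(15,8),(23,17)],[((2,9),some (0,0,0)),((2,16),some (0,0,0)),((7,10),some (0,0,1))],0,(2,9),(2,9),(2,9),(2,9),(0,0,0),[(2,21),(2,12),(23,18)],
  [(.base 0,⟨false,[(15,8),(23,17),(15,20),(7,13)],(23,18),.mon 0 0 1,[(2,12),(2,21),(2,9),(2,16),(7,10)]⟩),
  (.cc 0,⟨false,[(19,24),(11,17),(19,12),(3,21)],(11,14),.mon 0 0 1,[(6,20),(6,13),(6,25),(6,16),(3,22)]⟩),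
  (.ca 0,⟨false,[(11,4),(19,13),(11,16),(3,9)],(19,14),.mon 0 0 1,[(22,8),(22,17),(22,5),(22,12),(3,6)]⟩),
  (.cc 0,⟨false,[(23,4),(15,21),(23,16),(7,25)],(15,18),.mon 0 0 1,[(10,24),(10,17),(10,5),(10,20),(7,2)]⟩),
  (.base 5,⟨false,[(15,8),(23,17),(15,20),(7,13)],(7,10),.mon 0 0 1,[(19,22),(2,12),(2,21),(2,9),(2,16)]⟩),
  (.mul 0 1,⟨false,[(15,8),(23,17),(15,20),(7,13),(23,4),(15,21),(23,16),(7,25)],(7,10),.mon 0 0 1,[(19,22),(2,12),(2,21),(2,9),(2,16),(15,18),(10,24),(10,17),(10,5),(10,20),(7,2)]⟩),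
  (.sq 0 5,⟨false,[],(7,10),.mon 0 0 1,[(2,21),(2,16),(10,17),(10,20),(3,6),(7,12),(2,11),(7,21),(7,9),(7,16),(7,24),(7,17),(4,6),(7,20),(2,6),(7,11)]⟩),
  (.cc 0,⟨false,[],(3,22),.mon 0 0 1,[(6,13),(6,16),(22,17),(22,12),(7,2),(3,20),(6,23),(3,13),(3,25),(3,16),(3,8),(3,17),(4,2),(3,12),(6,2),(3,23)]⟩),
  (.ca 0,⟨false,[],(3,6),.mon 0 0 1,[(22,17),(22,12),(6,13),(6,16),(23,2),(3,8),(22,7),(3,17),(3,5),(3,12),(3,20),(3,13),(24,2),(3,16),(22,2),(3,7)]⟩),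
  (.cc 0,⟨false,[],(7,2),.mon 0 0 1,[(10,17),(10,20),(2,21),(2,16),(11,6),(7,24),(10,3),(7,17),(7,5),(7,20),(7,12),(7,21),(8,6),(7,16),(10,6),(7,3)]⟩),
  (.mul 5 8,⟨false,[(15,8),(23,17),(15,20),(7,13),(19,24),(11,17),(19,12),(3,21)],(7,10),.mon 0 0 1,[(19,22),(2,12),(2,21),(2,9),(2,16),(11,14),(6,20),(6,13),(6,25),(6,16),(3,22)]⟩),
  (.sq 0 3,⟨false,[],(7,10),.mon 0 0 1,[(2,9),(6,25),(3,22),(2,7),(13,22),(20,22),(8,22),(17,22),(11,20),(11,13),(11,25),(11,16),(2,10),(6,22),(11,22)]⟩),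
  (.ca 0,⟨false,[],(23,18),.mon 0 0 1,[(2,21),(22,5),(3,6),(2,23),(17,6),(8,6),(20,6),(13,6),(19,8),(19,17),(19,5),(19,12),(2,18),(22,6),(19,6)]⟩),
  (.cc 0,⟨false,[],(11,14),.mon 0 0 1,[(6,13),(10,5),(7,2),(6,11),(17,2),(24,2),(12,2),(21,2),(15,24),(15,17),(15,5),(15,20),(6,14),(10,2),(15,2)]⟩),
  (.ca 0,⟨false,[],(19,14),.mon 0 0 1,[(22,17),(18,25),(23,2),(22,19),(13,2),(4,2),(16,2),(9,2),(15,4),(15,13),(15,25),(15,8),(22,14),(18,2),(15,2)]⟩),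
  (.cc 0,⟨false,[],(15,18),.mon 0 0 1,[(10,17),(14,9),(11,6),(10,15),(21,6),(4,6),(16,6),(25,6),(19,4),(19,21),(19,9),(19,24),(10,18),(14,6),(19,6)]⟩),
  (.ca 0,⟨false,[],(15,10),.mon 0 0 1,[(18,13),(14,21),(19,22),(18,15),(9,22),(24,22),(12,22),(5,22),(11,24),(11,9),(11,21),(11,4),(18,10),(14,22),(11,22)]⟩),
  (.cc 0,⟨false,[],(19,22),.mon 0 0 1,[(14,21),(18,13),(15,10),(14,19),(25,10),(8,10),(20,10),(5,10),(23,8),(23,25),(23,13),(23,4),(14,22),(18,10),(23,10)]⟩),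
  (.base 4,⟨false,[(15,8),(23,17),(15,20),(7,13)],(2,16),.mon 0 0 0,[(19,22),(2,12),(2,21),(2,9),(7,10)]⟩),
  (.mul 0 15,⟨false,[(15,8),(23,17),(15,20),(7,13),(23,4),(15,21),(23,16),(7,25)],(2,16),.mon 0 0 0,[(19,22),(2,12),(2,21),(2,9),(7,10),(15,18),(10,24),(10,17),(10,5),(10,20),(7,2)]⟩),
  (.sq 0 5,⟨false,[],(2,16),.mon 0 0 0,[(2,21),(7,10),(10,17),(10,20),(3,6),(7,12),(2,11),(7,21),(7,9),(7,16),(7,24),(7,17),(4,6),(7,20),(2,6),(7,11)]⟩),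
  (.cc 0,⟨false,[],(6,16),.mon 0 0 0,[(6,13),(3,22),(22,17),(22,12),(7,2),(3,20),(6,23),(3,13),(3,25),(3,16),(3,8),(3,17),(4,2),(3,12),(6,2),(3,23)]⟩),
  (.ca 0,⟨false,[],(22,12),.mon 0 0 0,[(22,17),(3,6),(6,13),(6,16),(23,2),(3,8),(22,7),(3,17),(3,5),(3,12),(3,20),(3,13),(24,2),(3,16),(22,2),(3,7)]⟩),
  (.cc 0,⟨false,[],(10,20),.mon 0 0 0,[(10,17),(7,2),(2,21),(2,16),(11,6),(7,24),(10,3),(7,17),(7,5),(7,20),(7,12),(7,21),(8,6),(7,16),(10,6),(7,3)]⟩),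
  (.ca 0,⟨false,[],(18,8),.mon 0 0 0,[(18,13),(23,2),(2,9),(2,12),(19,22),(23,4),(18,3),(23,13),(23,25),(23,8),(23,16),(23,9),(20,22),(23,12),(18,22),(23,3)]⟩),
  (.base 3,⟨false,[(15,8),(23,17),(15,20),(7,13)],(2,9),.mon 0 0 0,[(19,22),(2,12),(2,21),(2,16),(7,10)]⟩),
  (.mul 0 24,⟨false,[(15,8),(23,17),(15,20),(7,13),(19,24),(11,17),(19,12),(3,21)],(2,9),.mon 0 0 0,[(19,22),(2,12),(2,21),(2,16),(7,10),(11,14),(6,20),(6,13),(6,25),(6,16),(3,22)]⟩),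
  (.sq 0 3,⟨false,[],(2,9),.mon 0 0 0,[(7,10),(6,25),(3,22),(2,7),(13,22),(20,22),(8,22),(17,22),(11,20),(11,13),(11,25),(11,16),(2,10),(6,22),(11,22)]⟩),
  (.comm 0 3 0,⟨false,[],(2,19),.mon 0 0 0,[(8,22),(2,22),(13,22),(18,22),(6,22),(11,22),(2,10)]⟩),
  (.comm 0 11 0,⟨false,[],(2,22),.mon 0 0 1,[(18,22)]⟩),
  (.comm 0 20 0,⟨false,[],(7,22),.mon 0 0 2,[]⟩),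
  (.cc 0,⟨false,[],(3,10),.mon 0 0 2,[]⟩),
  (.ca 0,⟨false,[],(3,18),.mon 0 0 2,[]⟩),
  (.cc 21,⟨false,[],(3,22),.mon 0 0 1,[(6,25),(2,9),(7,10),(6,3),(21,10),(12,10),(24,10),(17,10),(23,12),(23,21),(23,9),(23,16),(6,22),(2,10),(23,10)]⟩),
  (.comm 5 0 0,⟨false,[],(18,22),.mon 0 0 1,[(11,22)]⟩),
  (.comm 0 2 0,⟨false,[],(3,22),.mon 0 0 3,[]⟩),
  (.cc 0,⟨false,[],(7,10),.mon 0 0 3,[]⟩),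
  (.ca 0,⟨false,[],(23,18),.mon 0 0 3,[]⟩),
  (.comm 9 0 0,⟨false,[],(2,22),.mon 0 0 3,[]⟩),
  (.ca 0,⟨false,[],(2,6),.mon 0 0 3,[]⟩),
  (.cc 0,⟨false,[],(6,2),.mon 0 0 3,[]⟩),
  (.ca 0,⟨false,[],(22,2),.mon 0 0 3,[]⟩),
  (.cc 0,⟨false,[],(10,6),.mon 0 0 3,[]⟩),
  (.ca 0,⟨false,[],(18,22),.mon 0 0 3,[]⟩),
  (.comm 0 2 0,⟨false,[],(3,19),.mon 0 0 6,[]⟩),
  (.comm 6 12 0,⟨false,[],(19,22),.mon 0 0 5,[]⟩),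
  (.comm 17 0 0,⟨false,[],(2,22),.mon 0 0 5,[]⟩),
  (.ca 0,⟨false,[],(2,6),.mon 0 0 5,[]⟩),
  (.cc 0,⟨false,[],(6,2),.mon 0 0 5,[]⟩),
  (.sI 0 9,⟨true,[],(2,22),.mon 0 0 8,[]⟩),
  (.sI 9 10,⟨true,[],(2,22),.mon 0 0 6,[]⟩),
  (.sN 0,⟨true,[],(2,22),.mon 0 0 (-6),[]⟩),
  (.sA 0 2,⟨true,[],(2,22),.mon 0 0 2,[]⟩),
  (.sF 0 14,⟨false,[],(2,22),.all,[]⟩),
  (.ca 0,⟨false,[],(2,6),.all,[]⟩),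
  (.comm 0 10 0,⟨false,[],(7,19),.all,[]⟩),
  (.comm 2 11 0,⟨false,[],(18,22),.all,[]⟩),
  (.comm 0 15 0,⟨false,[],(3,19),.all,[]⟩),
  (.spec 0,⟨false,[],(3,19),.mon 0 0 0,[]⟩),
  (.comm 16 18 0,⟨false,[],(3,11),.mon 0 0 6,[]⟩),
  (.cc 16,⟨false,[],(14,10),.mon 0 0 3,[]⟩),
  (.comm 0 1 0,⟨false,[],(3,15),.mon 0 0 9,[]⟩),
  (.comm 7 0 0,⟨false,[],(7,15),.all,[]⟩),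
  (.spec 0,⟨false,[],(7,15),.mon 0 0 0,[]⟩),
  (.cc 10,⟨false,[],(6,10),.all,[]⟩),
  (.sI 16 25,⟨true,[],(7,22),.mon 0 0 8,[]⟩),
  (.sI 25 26,⟨true,[],(7,22),.mon 0 0 6,[]⟩),
  (.sN 0,⟨true,[],(7,22),.mon 0 0 (-6),[]⟩),
  (.sA 0 2,⟨true,[],(7,22),.mon 0 0 2,[]⟩),
  (.sF 0 38,⟨false,[],(7,22),.all,[]⟩),
  (.cc 0,⟨false,[],(3,10),.all,[]⟩),
  (.comm 0 43 0,⟨false,[],(8,10),.all,[(6,10)]⟩),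
  (.drop 0 [7],⟨false,[],(8,10),.all,[]⟩),
  (.ca 0,⟨false,[],(20,18),.all,[]⟩),
  (.cc 0,⟨false,[],(12,14),.all,[]⟩),
  (.comm 0 11 0,⟨false,[],(7,13),.all,[]⟩),
  (.base 1,⟨false,[(15,8),(23,17),(15,20),(7,13)],(2,12),.mon 0 0 0,[(19,22),(2,21),(2,9),(2,16),(7,10)]⟩),
  (.cc 22,⟨false,[],(6,2),.all,[]⟩),
  (.comm 0 50 0,⟨false,[],(6,9),.all,[(3,10),(6,10),(8,10)]⟩),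
  (.drop 0 [8,14,6],⟨false,[],(6,9),.all,[]⟩),
  (.ca 0,⟨false,[],(22,21),.all,[]⟩),
  (.cc 0,⟨false,[],(10,13),.all,[]⟩),
  (.comm 0 5 0,⟨false,[],(2,11),.all,[(7,13),(2,6)]⟩),
  (.drop 0 [7,28],⟨false,[],(2,11),.all,[]⟩),
  (.comm 0 25 0,⟨false,[],(10,19),.all,[]⟩),
  (.spec 28,⟨false,[],(18,22),.mon 0 0 0,[]⟩),
  (.comm 5 0 0,⟨false,[],(18,21),.all,[]⟩),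
  (.comm 29 66 0,⟨false,[],(17,19),.all,[(18,21),(10,19),(7,19)]⟩),
  (.drop 0 [1,3,32],⟨false,[],(17,19),.all,[]⟩),
  (.ca 0,⟨false,[],(13,11),.all,[]⟩),
  (.cc 0,⟨false,[],(21,23),.all,[]⟩),
  (.ca 0,⟨false,[],(9,7),.all,[]⟩),
  (.cc 0,⟨false,[],(25,3),.all,[]⟩),
  (.ca 0,⟨false,[],(5,3),.all,[]⟩),
  (.cc 14,⟨false,[],(2,25),.all,[]⟩),
  (.ca 0,⟨false,[],(2,5),.all,[]⟩),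
  (.cc 57,⟨false,[],(6,10),.mon 0 0 3,[]⟩),
  (.ca 0,⟨false,[],(22,18),.mon 0 0 3,[]⟩),
  (.comm 28 0 0,⟨false,[],(7,18),.all,[]⟩),
  (.comm 45 1 0,⟨false,[],(2,18),.all,[]⟩),
  (.comm 0 40 0,⟨false,[],(10,18),.all,[]⟩),
  (.ca 30,⟨false,[],(3,18),.all,[]⟩),
  (.comm 0 81 0,⟨false,[],(17,18),.all,[(19,21),(10,18),(7,18)]⟩),
  (.drop 0 [29,2,4],⟨false,[],(17,18),.all,[]⟩),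
  (.ca 0,⟨false,[],(13,10),.all,[]⟩),
  (.cc 0,⟨false,[],(21,22),.all,[]⟩),
  (.ca 0,⟨false,[],(9,6),.all,[]⟩),
  (.cc 0,⟨false,[],(25,2),.all,[]⟩),
  (.ca 0,⟨false,[],(5,2),.all,[]⟩),
  (.cc 36,⟨false,[],(24,22),.all,[]⟩),
  (.ca 0,⟨false,[],(4,6),.all,[]⟩),
  (.cc 0,⟨false,[],(4,2),.all,[]⟩),
  (.cc 16,⟨false,[],(6,5),.all,[]⟩),
  (.cc 15,⟨false,[],(10,14),.mon 0 0 3,[]⟩),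
  (.comm 17 74 0,⟨false,[],(2,10),.mon 0 0 6,[]⟩),
  (.comm 73 0 0,⟨false,[],(11,23),.mon 0 0 9,[]⟩),
  (.comm 0 2 0,⟨false,[],(15,23),.mon 0 0 12,[]⟩),
  (.comm 47 0 0,⟨false,[],(7,14),.all,[]⟩),
  (.comm 64 58 0,⟨false,[],(10,22),.all,[]⟩),
  (.comm 0 2 0,⟨false,[],(10,14),.all,[]⟩),
  (.comm 6 5 0,⟨false,[],(2,14),.mon 0 0 9,[]⟩),
  (.comm 50 0 0,⟨false,[],(11,14),.all,[]⟩),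
  (.comm 57 8 0,⟨false,[],(6,14),.all,[]⟩),
  (.comm 52 9 0,⟨false,[],(3,14),.all,[]⟩),
  (.comm 0 96 0,⟨false,[],(8,14),.all,[(6,14),(11,14)]⟩),
  (.drop 0 [2,3],⟨false,[],(8,14),.all,[]⟩),
  (.ca 0,⟨false,[],(20,14),.all,[]⟩),
  (.comm 3 106 0,⟨false,[],(15,16),.all,[(15,21),(10,14),(7,14)]⟩),
  (.drop 0 [1,8,10],⟨false,[],(15,16),.all,[]⟩),
  (.ca 0,⟨false,[],(15,12),.all,[]⟩),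
  (.cc 0,⟨false,[],(19,20),.all,[]⟩),
  (.ca 0,⟨false,[],(11,8),.all,[]⟩),
  (.cc 0,⟨false,[],(23,24),.all,[]⟩),
  (.ca 0,⟨false,[],(7,4),.all,[]⟩),
  (.comm 80 72 0,⟨false,[],(14,22),.all,[]⟩),
  (.comm 0 93 0,⟨false,[],(3,15),.all,[]⟩),
  (.spec 0,⟨false,[],(3,15),.mon 0 0 0,[]⟩),
  (.comm 53 0 0,⟨false,[],(10,15),.all,[]⟩),
  (.spec 3,⟨false,[],(14,22),.mon 0 0 0,[]⟩),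
  (.comm 58 0 0,⟨false,[],(14,21),.all,[]⟩),
  (.comm 4 119 0,⟨false,[],(14,16),.all,[(14,21),(10,15),(7,15)]⟩),
  (.drop 0 [1,3,78],⟨false,[],(14,16),.all,[]⟩),
  (.ca 0,⟨false,[],(14,12),.all,[]⟩),
  (.cc 0,⟨false,[],(18,20),.all,[]⟩),
  (.ca 0,⟨false,[],(10,8),.all,[]⟩),
  (.cc 0,⟨false,[],(22,24),.all,[]⟩),
  (.ca 0,⟨false,[],(6,4),.all,[]⟩)],
  [(53,53),(51,51),(38,38),(35,35),(35,35),(51,51),(38,38),(53,53),(36,36),(34,34),(13,13),(0,0),(0,0),(34,34),(13,13),(36,36)]⟩ = true := by decide +kernel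

theorem cDo13 : Fam.chkP .D0 13 1 true false false false true
  ⟨[(24,27)],[],[(6,5)],[((21,24),some (0,0,1)),((22,27),some (0,0,1))],0,(21,24),(21,24),(21,24),(21,24),(0,0,0),[(11,6),(8,5)],
  [(.base 3,⟨false,[(6,5),(24,27)],(22,27),.mon 0 0 1,[(4,9),(7,10),(21,24)]⟩),
  (.cc 0,⟨false,[(2,5),(10,9)],(12,9),.mon 0 0 1,[(4,27),(3,24),(15,10)]⟩),
  (.ca 0,⟨false,[(2,27),(20,23)],(18,23),.mon 0 0 1,[(26,5),(3,6),(17,20)]⟩),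
  (.cc 0,⟨false,[(6,9),(14,13)],(16,13),.mon 0 0 1,[(8,5),(7,2),(19,14)]⟩),
  (.ca 0,⟨false,[(24,23),(16,19)],(14,19),.mon 0 0 1,[(22,27),(25,2),(13,16)]⟩),
  (.cc 0,⟨false,[(10,13),(18,17)],(20,17),.mon 0 0 1,[(12,9),(11,6),(23,18)]⟩),
  (.ca 0,⟨false,[(20,19),(12,15)],(10,15),.mon 0 0 1,[(18,23),(21,24),(9,12)]⟩),
  (.base 0,⟨false,[(6,5),(24,27)],(8,5),.mon 0 0 1,[(7,10),(21,24),(22,27)]⟩),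
  (.cc 0,⟨false,[(2,5),(10,9)],(26,5),.mon 0 0 1,[(3,24),(15,10),(12,9)]⟩),
  (.base 1,⟨false,[(6,5),(24,27)],(11,6),.mon 0 0 1,[(4,9),(21,24),(22,27)]⟩),
  (.mul 0 1,⟨false,[(6,5),(24,27),(2,5),(10,9)],(11,6),.mon 0 0 1,[(4,9),(21,24),(22,27),(26,5),(3,24),(15,10),(12,9)]⟩),
  (.sq 0 1,⟨false,[],(11,6),.mon 0 0 1,[(3,24)]⟩),
  (.comm 0 5 0,⟨false,[],(7,15),.mon 0 0 2,[]⟩),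
  (.cc 0,⟨false,[],(3,21),.mon 0 0 2,[]⟩),
  (.ca 0,⟨false,[],(3,11),.mon 0 0 2,[]⟩),
  (.cc 0,⟨false,[],(7,25),.mon 0 0 2,[]⟩),
  (.ca 0,⟨false,[],(25,7),.mon 0 0 2,[]⟩),
  (.cc 0,⟨false,[],(11,3),.mon 0 0 2,[]⟩),
  (.ca 0,⟨false,[],(21,3),.mon 0 0 2,[]⟩),
  (.cc 0,⟨false,[],(15,7),.mon 0 0 2,[]⟩),
  (.ca 0,⟨false,[],(17,25),.mon 0 0 2,[]⟩),
  (.cc 0,⟨false,[],(19,11),.mon 0 0 2,[]⟩),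
  (.ca 0,⟨false,[],(13,21),.mon 0 0 2,[]⟩),
  (.comm 0 4 0,⟨false,[],(2,12),.mon 0 0 4,[]⟩),
  (.ca 11,⟨false,[],(25,17),.mon 0 0 2,[]⟩),
  (.cc 0,⟨false,[],(11,19),.mon 0 0 2,[]⟩),
  (.ca 0,⟨false,[],(21,13),.mon 0 0 2,[]⟩),
  (.cc 0,⟨false,[],(15,23),.mon 0 0 2,[]⟩),
  (.ca 0,⟨false,[],(17,9),.mon 0 0 2,[]⟩),
  (.cc 0,⟨false,[],(19,27),.mon 0 0 2,[]⟩),
  (.ca 0,⟨false,[],(13,5),.mon 0 0 2,[]⟩),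
  (.cc 0,⟨false,[],(23,5),.mon 0 0 2,[]⟩),
  (.comm 0 4 0,⟨false,[],(4,14),.mon 0 0 4,[]⟩),
  (.ca 1,⟨false,[],(9,27),.mon 0 0 2,[]⟩),
  (.cc 0,⟨false,[],(27,9),.mon 0 0 2,[]⟩),
  (.ca 0,⟨false,[],(5,23),.mon 0 0 2,[]⟩),
  (.cc 0,⟨false,[],(5,13),.mon 0 0 2,[]⟩),
  (.comm 0 4 0,⟨false,[],(12,14),.mon 0 0 6,[]⟩),
  (.comm 0 14 0,⟨false,[],(2,14),.mon 0 0 10,[]⟩),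
  (.cc 16,⟨false,[],(23,15),.mon 0 0 2,[]⟩),
  (.comm 0 20 0,⟨false,[],(6,22),.mon 0 0 4,[]⟩),
  (.comm 0 5 0,⟨false,[],(5,7),.mon 0 0 6,[]⟩),
  (.comm 32 27 0,⟨false,[],(3,6),.mon 0 0 3,[]⟩),
  (.comm 35 6 0,⟨false,[],(8,13),.mon 0 0 3,[]⟩),
  (.ca 0,⟨false,[],(22,19),.mon 0 0 3,[]⟩),
  (.comm 0 23 0,⟨false,[],(10,23),.mon 0 0 5,[]⟩),
  (.comm 0 5 0,⟨false,[],(6,11),.mon 0 0 9,[]⟩),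
  (.cc 0,⟨false,[],(2,25),.mon 0 0 9,[]⟩),
  (.ca 0,⟨false,[],(2,7),.mon 0 0 9,[]⟩),
  (.sI 0 6,⟨true,[],(7,15),.mon 0 0 12,[]⟩),
  (.sN 0,⟨true,[],(7,15),.mon 0 0 (-12),[]⟩),
  (.comm 14 27 0,⟨false,[],(2,4),.mon 0 0 6,[]⟩),
  (.comm 44 0 0,⟨false,[],(2,9),.mon 0 0 7,[]⟩),
  (.ca 0,⟨false,[],(2,23),.mon 0 0 7,[]⟩),
  (.comm 0 13 0,⟨false,[],(2,7),.mon 0 0 11,[]⟩),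
  (.sI 0 12,⟨true,[],(7,15),.mon 0 0 14,[]⟩),
  (.sA 0 5,⟨true,[],(7,15),.mon 0 0 2,[]⟩),
  (.sF 0 44,⟨false,[],(7,15),.all,[]⟩),
  (.comm 0 16 0,⟨false,[],(5,15),.all,[]⟩),
  (.comm 0 20 0,⟨false,[],(2,4),.all,[]⟩),
  (.comm 2 27 0,⟨false,[],(4,6),.all,[]⟩),
  (.comm 0 6 0,⟨false,[],(2,5),.all,[]⟩),
  (.comm 43 47 0,⟨false,[],(10,20),.mon 0 0 4,[]⟩),
  (.comm 53 0 0,⟨false,[],(7,20),.mon 0 0 5,[]⟩),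
  (.comm 0 22 0,⟨false,[],(5,20),.mon 0 0 11,[]⟩),
  (.cc 7,⟨false,[],(3,21),.all,[]⟩),
  (.comm 0 1 0,⟨false,[],(3,4),.all,[]⟩),
  (.comm 36 40 0,⟨false,[],(4,20),.mon 0 0 4,[]⟩),
  (.comm 2 0 0,⟨false,[],(3,5),.all,[]⟩),
  (.comm 48 52 0,⟨false,[],(6,16),.mon 0 0 4,[]⟩),
  (.ca 30,⟨false,[],(9,17),.mon 0 0 2,[]⟩),
  (.comm 0 1 0,⟨false,[],(6,8),.mon 0 0 6,[]⟩),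
  (.comm 0 37 0,⟨false,[],(6,26),.mon 0 0 8,[]⟩),
  (.comm 65 39 0,⟨false,[],(4,27),.mon 0 0 3,[]⟩),
  (.comm 0 1 0,⟨false,[],(4,7),.mon 0 0 11,[]⟩),
  (.comm 17 0 0,⟨false,[],(4,15),.all,[]⟩),
  (.comm 0 56 0,⟨false,[],(4,7),.all,[]⟩),
  (.comm 54 14 0,⟨false,[],(10,12),.mon 0 0 6,[]⟩),
  (.comm 41 0 0,⟨false,[],(5,11),.mon 0 0 8,[]⟩),
  (.comm 69 59 0,⟨false,[],(11,14),.mon 0 0 3,[]⟩),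
  (.comm 0 1 0,⟨false,[],(5,14),.mon 0 0 11,[]⟩),
  (.comm 23 0 0,⟨false,[],(5,6),.all,[]⟩),
  (.comm 23 62 0,⟨false,[],(5,7),.all,[]⟩)],
  [(23,23),(21,21),(16,16),(14,14),(14,14),(21,21),(16,16),(23,23),(22,22),(6,6),(1,1),(0,0),(0,0),(6,6),(1,1),(22,22)]⟩ = true := by decide +kernel

theorem cDo14 : Fam.chkP .D0 14 1 true false false false true
  ⟨[(3,6),(10,12)],[],[(3,26),(22,20)],[((4,13),some (0,0,1)),((9,10),some (0,0,0)),((17,27),some (0,0,0))],0,(4,13),(4,13),(4,13),(4,13),(0,0,0),[(28,21),(25,22),(17,7)],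
  [(.base 0,⟨false,[(3,26),(22,20),(3,6),(10,12)],(17,7),.mon 0 0 0,[(23,24),(20,29),(4,13),(9,10),(17,27)]⟩),
  (.cc 0,⟨false,[(7,10),(14,16),(7,2),(26,24)],(21,3),.mon 0 0 0,[(15,12),(16,9),(4,25),(29,26),(21,11)]⟩),
  (.ca 0,⟨false,[(27,22),(18,16),(27,2),(6,8)],(13,3),.mon 0 0 0,[(19,20),(16,25),(28,9),(5,6),(13,23)]⟩),
  (.cc 0,⟨false,[(11,14),(18,20),(11,6),(2,28)],(25,7),.mon 0 0 0,[(19,16),(20,13),(8,29),(5,2),(25,15)]⟩),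
  (.mul 3 0,⟨false,[(3,26),(22,20),(3,6),(10,12),(11,14),(18,20),(11,6),(2,28)],(17,7),.mon 0 0 0,[(23,24),(20,29),(4,13),(9,10),(17,27),(25,7),(19,16),(20,13),(8,29),(5,2),(25,15)]⟩),
  (.sq 0 1,⟨false,[],(17,7),.mon 0 0 0,[(6,24),(3,13),(11,29)]⟩),
  (.cc 0,⟨false,[],(21,3),.mon 0 0 0,[(2,12),(7,25),(27,9)]⟩),
  (.ca 0,⟨false,[],(13,3),.mon 0 0 0,[(2,20),(27,9),(7,25)]⟩),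
  (.cc 0,⟨false,[],(25,7),.mon 0 0 0,[(6,16),(11,29),(3,13)]⟩),
  (.ca 0,⟨false,[],(9,27),.mon 0 0 0,[(26,16),(23,5),(3,21)]⟩),
  (.base 2,⟨false,[(3,26),(22,20),(3,6),(10,12)],(28,21),.mon 0 0 1,[(6,16),(23,24),(4,13),(9,10),(17,27)]⟩),
  (.cc 0,⟨false,[(7,10),(14,16),(7,2),(26,24)],(8,17),.mon 0 0 1,[(2,20),(15,12),(4,25),(29,26),(21,11)]⟩),
  (.ca 0,⟨false,[(27,22),(18,16),(27,2),(6,8)],(24,17),.mon 0 0 1,[(2,12),(19,20),(28,9),(5,6),(13,23)]⟩),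
  (.cc 0,⟨false,[(11,14),(18,20),(11,6),(2,28)],(12,21),.mon 0 0 1,[(6,24),(19,16),(8,29),(5,2),(25,15)]⟩),
  (.ca 0,⟨false,[(23,18),(14,12),(23,26),(2,4)],(20,13),.mon 0 0 1,[(26,8),(15,16),(24,5),(29,2),(9,19)]⟩),
  (.cc 0,⟨false,[(15,18),(22,24),(15,10),(6,4)],(16,25),.mon 0 0 1,[(10,28),(23,20),(12,5),(9,6),(29,19)]⟩),
  (.ca 0,⟨false,[(19,14),(10,8),(19,22),(26,28)],(16,9),.mon 0 0 1,[(22,4),(11,12),(20,29),(25,26),(5,15)]⟩),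
  (.comm 11 0 0,⟨false,[],(6,9),.mon 0 0 1,[(3,10)]⟩),
  (.comm 0 8 0,⟨false,[],(6,27),.mon 0 0 1,[]⟩),
  (.cc 0,⟨false,[],(2,11),.mon 0 0 1,[]⟩),
  (.ca 0,⟨false,[],(2,23),.mon 0 0 1,[]⟩),
  (.base 1,⟨false,[(3,26),(22,20),(3,6),(10,12)],(25,22),.mon 0 0 0,[(6,16),(20,29),(4,13),(9,10),(17,27)]⟩),
  (.comm 0 1 0,⟨false,[],(2,24),.mon 0 0 1,[]⟩),
  (.cc 0,⟨false,[],(6,12),.mon 0 0 1,[]⟩),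
  (.ca 0,⟨false,[],(26,20),.mon 0 0 1,[]⟩),
  (.cc 0,⟨false,[],(10,16),.mon 0 0 1,[]⟩),
  (.ca 0,⟨false,[],(22,16),.mon 0 0 1,[]⟩),
  (.comm 5 0 0,⟨false,[],(17,24),.mon 0 0 1,[]⟩),
  (.ca 0,⟨false,[],(17,8),.mon 0 0 1,[]⟩),
  (.cc 0,⟨false,[],(21,28),.mon 0 0 1,[]⟩),
  (.ca 0,⟨false,[],(13,4),.mon 0 0 1,[]⟩),
  (.cc 0,⟨false,[],(25,4),.mon 0 0 1,[]⟩),
  (.ca 0,⟨false,[],(9,28),.mon 0 0 1,[]⟩),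
  (.comm 22 0 0,⟨false,[],(9,21),.mon 0 0 2,[]⟩),
  (.ca 0,⟨false,[],(25,13),.mon 0 0 2,[]⟩),
  (.cc 0,⟨false,[],(13,25),.mon 0 0 2,[]⟩),
  (.ca 0,⟨false,[],(21,9),.mon 0 0 2,[]⟩),
  (.cc 3,⟨false,[],(29,17),.mon 0 0 2,[]⟩),
  (.ca 0,⟨false,[],(5,17),.mon 0 0 2,[]⟩),
  (.cc 0,⟨false,[],(5,21),.mon 0 0 2,[]⟩),
  (.comm 0 3 0,⟨false,[],(5,9),.mon 0 0 4,[]⟩),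
  (.ca 1,⟨false,[],(29,13),.mon 0 0 2,[]⟩),
  (.cc 0,⟨false,[],(9,25),.mon 0 0 2,[]⟩),
  (.comm 0 2 0,⟨false,[],(5,25),.mon 0 0 6,[]⟩),
  (.ca 1,⟨false,[],(25,9),.mon 0 0 2,[]⟩),
  (.cc 8,⟨false,[],(17,29),.mon 0 0 2,[]⟩),
  (.ca 0,⟨false,[],(17,5),.mon 0 0 2,[]⟩),
  (.cc 0,⟨false,[],(21,5),.mon 0 0 2,[]⟩),
  (.comm 0 14 0,⟨false,[],(4,8),.mon 0 0 4,[]⟩),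
  (.comm 0 4 0,⟨false,[],(4,24),.mon 0 0 6,[]⟩),
  (.comm 4 11 0,⟨false,[],(5,29),.mon 0 0 4,[]⟩),
  (.comm 9 15 0,⟨false,[],(24,28),.mon 0 0 4,[]⟩),
  (.comm 0 1 0,⟨false,[],(5,25),.mon 0 0 8,[]⟩),
  (.sI 0 3,⟨true,[],(2,24),.mon 0 0 14,[]⟩),
  (.sI 10 4,⟨true,[],(2,24),.mon 0 0 12,[]⟩),
  (.sN 0,⟨true,[],(2,24),.mon 0 0 (-12),[]⟩),
  (.sA 0 2,⟨true,[],(2,24),.mon 0 0 2,[]⟩),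
  (.sF 0 34,⟨false,[],(2,24),.all,[]⟩),
  (.comm 0 14 0,⟨false,[],(2,4),.all,[]⟩),
  (.ca 36,⟨false,[],(2,8),.mon 0 0 1,[]⟩),
  (.cc 0,⟨false,[],(6,28),.mon 0 0 1,[]⟩),
  (.comm 50 0 0,⟨false,[],(6,21),.mon 0 0 2,[]⟩),
  (.ca 14,⟨false,[],(13,29),.mon 0 0 2,[]⟩),
  (.comm 16 25 0,⟨false,[],(4,28),.mon 0 0 4,[]⟩),
  (.comm 0 24 0,⟨false,[],(20,28),.mon 0 0 6,[]⟩),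
  (.comm 0 2 0,⟨false,[],(13,21),.mon 0 0 8,[]⟩),
  (.comm 23 31 0,⟨false,[],(9,13),.mon 0 0 4,[]⟩),
  (.comm 0 30 0,⟨false,[],(12,20),.mon 0 0 6,[]⟩),
  (.sI 0 2,⟨true,[],(6,21),.mon 0 0 14,[]⟩),
  (.comm 21 28 0,⟨false,[],(8,20),.mon 0 0 6,[]⟩),
  (.comm 0 21 0,⟨false,[],(4,20),.mon 0 0 10,[]⟩),
  (.sI 0 31,⟨true,[],(6,21),.mon 0 0 12,[]⟩),
  (.sN 0,⟨true,[],(6,21),.mon 0 0 (-12),[]⟩),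
  (.sA 0 4,⟨true,[],(6,21),.mon 0 0 2,[]⟩),
  (.sF 0 12,⟨false,[],(6,21),.all,[]⟩),
  (.cc 0,⟨false,[],(2,17),.all,[]⟩),
  (.comm 0 29 0,⟨false,[],(2,5),.all,[]⟩),
  (.comm 34 40 0,⟨false,[],(21,25),.mon 0 0 4,[]⟩),
  (.comm 3 0 0,⟨false,[],(6,25),.all,[]⟩),
  (.comm 0 57 0,⟨false,[],(6,22),.all,[]⟩),
  (.ca 0,⟨false,[],(26,10),.all,[]⟩),
  (.cc 0,⟨false,[],(10,26),.all,[]⟩),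
  (.ca 7,⟨false,[],(26,13),.all,[]⟩),
  (.comm 0 47 0,⟨false,[],(24,27),.all,[]⟩),
  (.comm 0 62 0,⟨false,[],(23,27),.all,[]⟩),
  (.ca 0,⟨false,[],(11,7),.all,[]⟩),
  (.cN 0 5 4,⟨false,[],(6,26),.all,[]⟩),
  (.ca 0,⟨false,[],(26,6),.all,[]⟩),
  (.cc 5,⟨false,[],(10,25),.all,[]⟩),
  (.ca 0,⟨false,[],(22,9),.all,[]⟩),
  (.cc 0,⟨false,[],(14,29),.all,[]⟩),
  (.comm 0 39 0,⟨false,[],(14,25),.all,[]⟩),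
  (.comm 0 70 0,⟨false,[],(14,22),.all,[]⟩),
  (.ca 0,⟨false,[],(18,10),.all,[]⟩),
  (.cc 0,⟨false,[],(18,26),.all,[]⟩),
  (.cN 0 8 7,⟨false,[],(7,19),.all,[]⟩),
  (.cc 3,⟨false,[],(22,14),.all,[]⟩),
  (.cN 12 4 0,⟨false,[],(15,27),.all,[]⟩),
  (.ca 0,⟨false,[],(19,7),.all,[]⟩),
  (.comm 35 58 0,⟨false,[],(8,28),.mon 0 0 8,[]⟩),
  (.comm 0 37 0,⟨false,[],(8,12),.mon 0 0 10,[]⟩),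
  (.sI 0 34,⟨true,[],(9,21),.mon 0 0 14,[]⟩),
  (.sI 31 62,⟨true,[],(9,21),.mon 0 0 12,[]⟩),
  (.sN 0,⟨true,[],(9,21),.mon 0 0 (-12),[]⟩),
  (.sA 0 2,⟨true,[],(9,21),.mon 0 0 2,[]⟩),
  (.sF 0 71,⟨false,[],(9,21),.all,[]⟩),
  (.comm 0 28 0,⟨false,[],(9,25),.all,[]⟩),
  (.comm 0 85 0,⟨false,[],(9,22),.all,[]⟩),
  (.cc 0,⟨false,[],(29,14),.all,[]⟩),
  (.ca 0,⟨false,[],(5,18),.all,[]⟩),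
  (.cN 0 11 14,⟨false,[],(5,6),.all,[]⟩),
  (.cc 0,⟨false,[],(5,2),.all,[]⟩),
  (.cc 26,⟨false,[],(27,3),.all,[]⟩),
  (.ca 0,⟨false,[],(7,3),.all,[]⟩),
  (.cc 0,⟨false,[],(3,7),.all,[]⟩),
  (.ca 7,⟨false,[],(25,10),.all,[]⟩),
  (.cc 0,⟨false,[],(13,26),.all,[]⟩),
  (.ca 0,⟨false,[],(21,6),.all,[]⟩),
  (.cN 0 4 3,⟨false,[],(3,20),.all,[]⟩),
  (.spec 0,⟨false,[],(3,20),.mon 0 0 0,[]⟩),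
  (.cc 14,⟨false,[],(29,17),.all,[]⟩),
  (.comm 0 74 0,⟨false,[],(4,28),.all,[]⟩),
  (.comm 0 111 0,⟨false,[],(4,21),.all,[]⟩),
  (.comm 0 3 0,⟨false,[],(3,5),.all,[]⟩),
  (.spec 6,⟨false,[],(21,6),.mon 0 0 0,[]⟩),
  (.comm 2 0 0,⟨false,[],(4,6),.all,[]⟩),
  (.comm 51 78 0,⟨false,[],(4,7),.all,[]⟩),
  (.comm 76 85 0,⟨false,[],(5,13),.mon 0 0 6,[]⟩),
  (.cc 70,⟨false,[],(6,12),.all,[]⟩),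
  (.comm 0 1 0,⟨false,[],(5,7),.all,[]⟩)],
  [(71,71),(53,53),(18,18),(6,6),(6,6),(53,53),(18,18),(71,71),(4,4),(3,3),(19,19),(0,0),(0,0),(3,3),(19,19),(4,4)]⟩ = true := by decide +kernel

theorem cDow : Fam.chkP .D0 15 8 false false false false true
  ⟨[(13,17),(9,14)],[],[(21,17),(25,18)],[((18,27),some (0,0,1)),((9,10),some (0,0,1)),((20,22),some (0,0,0))],0,(18,27),(18,27),(18,27),(18,27),(0,0,0),[(14,7),(25,22),(12,10)],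
  [(.base 0,⟨false,[(21,17),(25,18),(13,17),(9,14)],(12,10),.mon 0 0 0,[(23,24),(6,15),(18,27),(9,10),(20,22)]⟩),
  (.cc 0,⟨false,[(17,21),(13,18),(25,21),(29,22)],(24,26),.mon 0 0 0,[(15,12),(30,23),(18,11),(29,26),(16,14)]⟩),
  (.ca 0,⟨false,[(17,13),(21,14),(9,13),(5,10)],(8,6),.mon 0 0 0,[(19,20),(2,11),(14,23),(5,6),(16,18)]⟩),
  (.base 1,⟨false,[(21,17),(25,18),(13,17),(9,14)],(25,22),.mon 0 0 1,[(11,13),(6,15),(18,27),(9,10),(20,22)]⟩),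
  (.cc 0,⟨false,[(17,21),(13,18),(25,21),(29,22)],(13,14),.mon 0 0 1,[(27,25),(30,23),(18,11),(29,26),(16,14)]⟩),
  (.mul 0 2,⟨false,[(17,21),(13,18),(25,21),(29,22),(17,13),(21,14),(9,13),(5,10)],(13,14),.mon 0 0 1,[(27,25),(30,23),(18,11),(29,26),(16,14),(8,6),(19,20),(2,11),(14,23),(5,6),(16,18)]⟩),
  (.sq 0 3,⟨false,[],(13,14),.mon 0 0 1,[(10,19),(19,20),(14,23),(13,23),(10,20),(10,17),(16,23)]⟩),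
  (.cc 0,⟨false,[],(25,22),.mon 0 0 1,[(26,19),(19,16),(22,15),(25,15),(26,16),(26,21),(20,15)]⟩),
  (.ca 0,⟨false,[],(9,10),.mon 0 0 1,[(6,15),(15,16),(10,19),(9,19),(6,16),(6,13),(12,19)]⟩),
  (.cc 0,⟨false,[],(29,26),.mon 0 0 1,[(30,23),(23,20),(26,19),(29,19),(30,20),(30,25),(24,19)]⟩),
  (.ca 0,⟨false,[],(5,6),.mon 0 0 1,[(2,11),(11,12),(6,15),(5,15),(2,12),(2,9),(8,15)]⟩),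
  (.base 3,⟨false,[(21,17),(25,18),(13,17),(9,14)],(18,27),.mon 0 0 1,[(11,13),(23,24),(6,15),(9,10),(20,22)]⟩),
  (.cc 0,⟨false,[(17,21),(13,18),(25,21),(29,22)],(18,11),.mon 0 0 1,[(27,25),(15,12),(30,23),(29,26),(16,14)]⟩),
  (.mul 0 10,⟨false,[(17,21),(13,18),(25,21),(29,22),(17,13),(21,14),(9,13),(5,10)],(18,11),.mon 0 0 1,[(27,25),(15,12),(30,23),(29,26),(16,14),(8,6),(19,20),(2,11),(14,23),(5,6),(16,18)]⟩),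
  (.sq 0 3,⟨false,[],(18,11),.mon 0 0 1,[(13,14),(19,20),(14,23),(13,23),(10,20),(10,17),(16,23)]⟩),
  (.ca 0,⟨false,[],(14,23),.mon 0 0 1,[(21,18),(15,12),(18,11),(21,11),(22,12),(22,17),(16,11)]⟩),
  (.cc 0,⟨false,[],(22,15),.mon 0 0 1,[(17,18),(23,24),(18,27),(17,27),(14,24),(14,21),(20,27)]⟩),
  (.ca 0,⟨false,[],(10,19),.mon 0 0 1,[(17,14),(11,8),(14,7),(17,7),(18,8),(18,13),(12,7)]⟩),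
  (.cc 0,⟨false,[],(26,19),.mon 0 0 1,[(21,22),(27,28),(22,31),(21,31),(18,28),(18,25),(24,31)]⟩),
  (.ca 0,⟨false,[],(6,15),.mon 0 0 1,[(13,10),(7,4),(10,3),(13,3),(14,4),(14,9),(8,3)]⟩),
  (.comm 13 0 0,⟨false,[],(6,12),.mon 0 0 2,[(5,12),(8,12),(13,19),(13,20),(13,17)]⟩),
  (.comm 0 10 0,⟨false,[],(5,12),.mon 0 0 3,[]⟩),
  (.comm 21 0 0,⟨false,[],(5,10),.mon 0 0 3,[]⟩),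
  (.ca 0,⟨false,[],(29,22),.mon 0 0 3,[]⟩),
  (.cc 0,⟨false,[],(9,14),.mon 0 0 3,[]⟩),
  (.base 2,⟨false,[(21,17),(25,18),(13,17),(9,14)],(14,7),.mon 0 0 1,[(11,13),(23,24),(18,27),(9,10),(20,22)]⟩),
  (.comm 0 1 0,⟨false,[],(6,8),.mon 0 0 4,[]⟩),
  (.ca 0,⟨false,[],(26,24),.mon 0 0 4,[]⟩),
  (.cc 0,⟨false,[],(10,12),.mon 0 0 4,[]⟩),
  (.ca 0,⟨false,[],(22,20),.mon 0 0 4,[]⟩),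
  (.cc 0,⟨false,[],(14,16),.mon 0 0 4,[]⟩),
  (.ca 0,⟨false,[],(18,16),.mon 0 0 4,[]⟩),
  (.cc 0,⟨false,[],(18,20),.mon 0 0 4,[]⟩),
  (.ca 0,⟨false,[],(14,12),.mon 0 0 4,[]⟩),
  (.cc 0,⟨false,[],(22,24),.mon 0 0 4,[]⟩),
  (.ca 0,⟨false,[],(10,8),.mon 0 0 4,[]⟩),
  (.comm 35 0 0,⟨false,[],(9,13),.mon 0 0 4,[]⟩),
  (.ca 0,⟨false,[],(25,21),.mon 0 0 4,[]⟩),
  (.cc 0,⟨false,[],(13,17),.mon 0 0 4,[]⟩),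
  (.comm 38 0 0,⟨false,[],(11,17),.mon 0 0 4,[]⟩),
  (.ca 0,⟨false,[],(23,17),.mon 0 0 4,[]⟩),
  (.cc 0,⟨false,[],(15,21),.mon 0 0 4,[]⟩),
  (.ca 0,⟨false,[],(19,13),.mon 0 0 4,[]⟩),
  (.cc 3,⟨false,[],(27,21),.mon 0 0 4,[]⟩),
  (.ca 0,⟨false,[],(7,13),.mon 0 0 4,[]⟩),
  (.comm 19 0 0,⟨false,[],(12,15),.mon 0 0 5,[]⟩),
  (.ca 0,⟨false,[],(20,19),.mon 0 0 5,[]⟩),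
  (.cc 0,⟨false,[],(16,19),.mon 0 0 5,[]⟩),
  (.comm 0 5 0,⟨false,[],(12,17),.mon 0 0 9,[]⟩),
  (.ca 10,⟨false,[],(21,17),.mon 0 0 4,[]⟩),
  (.cc 0,⟨false,[],(17,21),.mon 0 0 4,[]⟩),
  (.ca 0,⟨false,[],(17,13),.mon 0 0 4,[]⟩),
  (.cc 0,⟨false,[],(21,25),.mon 0 0 4,[]⟩),
  (.ca 0,⟨false,[],(13,9),.mon 0 0 4,[]⟩),
  (.cc 0,⟨false,[],(25,29),.mon 0 0 4,[]⟩),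
  (.ca 0,⟨false,[],(9,5),.mon 0 0 4,[]⟩),
  (.comm 0 2 0,⟨false,[],(4,12),.mon 0 0 8,[]⟩),
  (.comm 14 0 0,⟨false,[],(4,18),.mon 0 0 12,[]⟩),
  (.ca 33,⟨false,[],(25,18),.mon 0 0 3,[]⟩),
  (.cc 0,⟨false,[],(13,18),.mon 0 0 3,[]⟩),
  (.ca 0,⟨false,[],(21,14),.mon 0 0 3,[]⟩),
  (.cc 0,⟨false,[],(17,22),.mon 0 0 3,[]⟩),
  (.ca 0,⟨false,[],(17,10),.mon 0 0 3,[]⟩),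
  (.cc 0,⟨false,[],(21,26),.mon 0 0 3,[]⟩),
  (.ca 0,⟨false,[],(13,6),.mon 0 0 3,[]⟩),
  (.cc 0,⟨false,[],(25,30),.mon 0 0 3,[]⟩),
  (.ca 0,⟨false,[],(9,2),.mon 0 0 3,[]⟩),
  (.cc 30,⟨false,[],(29,25),.mon 0 0 4,[]⟩),
  (.ca 0,⟨false,[],(5,9),.mon 0 0 4,[]⟩),
  (.comm 0 2 0,⟨false,[],(3,4),.mon 0 0 7,[]⟩),
  (.cc 25,⟨false,[],(31,25),.mon 0 0 4,[]⟩),
  (.comm 67 0 0,⟨false,[],(23,30),.mon 0 0 5,[]⟩),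
  (.cc 0,⟨false,[],(15,6),.mon 0 0 5,[]⟩),
  (.ca 0,⟨false,[],(19,26),.mon 0 0 5,[]⟩),
  (.cc 0,⟨false,[],(19,10),.mon 0 0 5,[]⟩),
  (.ca 0,⟨false,[],(15,22),.mon 0 0 5,[]⟩),
  (.comm 50 0 0,⟨false,[],(6,22),.mon 0 0 6,[]⟩),
  (.cc 0,⟨false,[],(30,14),.mon 0 0 6,[]⟩),
  (.ca 0,⟨false,[],(2,18),.mon 0 0 6,[]⟩),
  (.comm 53 37 0,⟨false,[],(6,21),.mon 0 0 5,[]⟩),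
  (.ca 0,⟨false,[],(26,13),.mon 0 0 5,[]⟩),
  (.cc 0,⟨false,[],(10,25),.mon 0 0 5,[]⟩),
  (.ca 0,⟨false,[],(22,9),.mon 0 0 5,[]⟩),
  (.cc 0,⟨false,[],(14,29),.mon 0 0 5,[]⟩),
  (.ca 0,⟨false,[],(18,5),.mon 0 0 5,[]⟩),
  (.comm 0 6 0,⟨false,[],(2,5),.mon 0 0 11,[]⟩),
  (.sI 0 16,⟨true,[],(5,12),.mon 0 0 18,[]⟩),
  (.comm 86 53 0,⟨false,[],(11,15),.mon 0 0 4,[]⟩),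
  (.ca 0,⟨false,[],(23,19),.mon 0 0 4,[]⟩),
  (.cc 0,⟨false,[],(15,19),.mon 0 0 4,[]⟩),
  (.ca 0,⟨false,[],(19,15),.mon 0 0 4,[]⟩),
  (.cc 0,⟨false,[],(19,23),.mon 0 0 4,[]⟩),
  (.ca 0,⟨false,[],(15,11),.mon 0 0 4,[]⟩),
  (.cc 0,⟨false,[],(23,27),.mon 0 0 4,[]⟩),
  (.ca 0,⟨false,[],(11,7),.mon 0 0 4,[]⟩),
  (.cc 0,⟨false,[],(27,31),.mon 0 0 4,[]⟩),
  (.ca 0,⟨false,[],(7,3),.mon 0 0 4,[]⟩),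
  (.cc 51,⟨false,[],(24,23),.mon 0 0 5,[]⟩),
  (.ca 0,⟨false,[],(8,11),.mon 0 0 5,[]⟩),
  (.cc 0,⟨false,[],(28,27),.mon 0 0 5,[]⟩),
  (.ca 0,⟨false,[],(4,7),.mon 0 0 5,[]⟩),
  (.comm 0 4 0,⟨false,[],(2,5),.mon 0 0 9,[]⟩),
  (.sI 0 32,⟨true,[],(5,12),.mon 0 0 16,[]⟩),
  (.sN 0,⟨true,[],(5,12),.mon 0 0 (-16),[]⟩),
  (.sA 0 17,⟨true,[],(5,12),.mon 0 0 2,[]⟩),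
  (.sF 0 83,⟨false,[],(5,12),.all,[]⟩),
  (.comm 0 48 0,⟨false,[],(13,18),.all,[]⟩),
  (.comm 0 58 0,⟨false,[],(16,18),.all,[]⟩),
  (.comm 2 59 0,⟨false,[],(5,17),.all,[]⟩),
  (.comm 0 24 0,⟨false,[],(16,19),.all,[]⟩),
  (.comm 4 58 0,⟨false,[],(5,16),.all,[]⟩),
  (.comm 0 53 0,⟨false,[],(17,18),.all,[]⟩),
  (.comm 1 27 0,⟨false,[],(17,19),.all,[]⟩),
  (.cc 25,⟨false,[],(27,23),.mon 0 0 4,[]⟩),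
  (.ca 0,⟨false,[],(7,11),.mon 0 0 4,[]⟩),
  (.cc 72,⟨false,[],(19,25),.mon 0 0 4,[]⟩),
  (.ca 0,⟨false,[],(15,9),.mon 0 0 4,[]⟩),
  (.cc 0,⟨false,[],(23,29),.mon 0 0 4,[]⟩),
  (.ca 0,⟨false,[],(11,5),.mon 0 0 4,[]⟩),
  (.comm 0 4 0,⟨false,[],(4,6),.mon 0 0 8,[]⟩),
  (.comm 94 0 0,⟨false,[],(4,15),.mon 0 0 9,[]⟩),
  (.ca 0,⟨false,[],(28,19),.mon 0 0 9,[]⟩),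
  (.ca 16,⟨false,[],(29,20),.all,[]⟩),
  (.comm 0 1 0,⟨false,[],(18,20),.all,[]⟩),
  (.comm 44 79 0,⟨false,[],(12,21),.mon 0 0 9,[]⟩),
  (.comm 19 0 0,⟨false,[],(5,21),.all,[]⟩),
  (.comm 0 41 0,⟨false,[],(18,21),.all,[]⟩),
  (.comm 126 70 0,⟨false,[],(4,10),.mon 0 0 8,[]⟩),
  (.ca 0,⟨false,[],(28,22),.mon 0 0 8,[]⟩),
  (.comm 0 37 0,⟨false,[],(19,29),.mon 0 0 12,[]⟩),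
  (.comm 7 0 0,⟨false,[],(19,20),.all,[]⟩),
  (.comm 24 6 0,⟨false,[],(19,21),.all,[]⟩)],
  [(24,24),(22,22),(20,20),(19,19),(19,19),(22,22),(20,20),(24,24),(8,8),(5,5),(1,1),(0,0),(0,0),(5,5),(1,1),(8,8)]⟩ = true := by decide +kernel

theorem famDo {G L K : Type} [Group G] [AddCommGroup L] [Field K] [Finite K] {S : St G L K}
    {n : ℕ} (R : Frame S .D0 n) (md : ∀ x y, Md S.φ false x false y) (h : 7 ≤ n) :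
    IsLeast {n | Good S.Gs n} 3 := by
  by_cases p : 15 ≤ n
  · exact R.poly p (by simp) (md _ _) cDow
  rw [not_le] at p
  interval_cases n
  · exact R.gen (by decide) (md _ _) cDo7
  · exact R.gen (by decide) (md _ _) cDo8
  · exact R.poly le_rfl (fun _ => rfl) (md _ _) cDo9
  · exact R.gen (by decide) (md _ _) cDo10
  · exact R.poly le_rfl (fun _ => rfl) (md _ _) cDo11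
  · exact R.poly le_rfl (fun _ => rfl) (md _ _) cDo12
  · exact R.poly le_rfl (fun _ => rfl) (md _ _) cDo13
  · exact R.poly le_rfl (fun _ => rfl) (md _ _) cDo14

end Pool.Agent.MP_c78e8e_al.H75

end

section

namespace Pool.Agent.MP_c78e8e_al.H75

theorem cDe7 : Fam.chkP .D0 7 1 true true false false false
  ⟨[],[],[],[((2,13),some (0,0,0)),((9,14),some (0,0,0)),((2,14),some (0,0,1))],0,(2,13),(2,13),(2,13),(2,13),(0,0,0),[(2,7),(11,4),(2,4)],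
  [(.base 1,⟨false,[],(11,4),.mon 0 0 0,[(2,4),(2,7),(2,13),(9,14),(2,14)]⟩),
  (.cc 0,⟨false,[],(13,4),.mon 0 0 0,[(6,4),(6,3),(6,11),(15,8),(6,8)]⟩),
  (.ca 0,⟨false,[],(7,14),.mon 0 0 0,[(12,14),(12,3),(12,9),(5,10),(12,10)]⟩),
  (.base 3,⟨false,[],(2,13),.mon 0 0 0,[(2,4),(5,10),(2,7),(9,14),(2,14)]⟩),
  (.cc 0,⟨false,[],(6,11),.mon 0 0 0,[(6,4),(5,12),(6,3),(15,8),(6,8)]⟩),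
  (.comm 4 0 0,⟨false,[],(5,7),.mon 0 0 0,[(2,4)]⟩),
  (.comm 0 3 0,⟨false,[],(5,14),.mon 0 0 0,[]⟩),
  (.cc 0,⟨false,[],(5,8),.mon 0 0 0,[]⟩),
  (.ca 0,⟨false,[],(15,10),.mon 0 0 0,[]⟩),
  (.cc 0,⟨false,[],(9,12),.mon 0 0 0,[]⟩),
  (.ca 0,⟨false,[],(11,6),.mon 0 0 0,[]⟩),
  (.base 2,⟨false,[],(2,7),.mon 0 0 0,[(2,4),(5,10),(2,13),(9,14),(2,14)]⟩),
  (.comm 0 1 0,⟨false,[],(2,10),.mon 0 0 0,[]⟩),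
  (.ca 0,⟨false,[],(2,8),.mon 0 0 0,[]⟩),
  (.cc 0,⟨false,[],(6,14),.mon 0 0 0,[]⟩),
  (.ca 0,⟨false,[],(12,4),.mon 0 0 0,[]⟩),
  (.cc 0,⟨false,[],(10,4),.mon 0 0 0,[]⟩),
  (.comm 0 4 0,⟨false,[],(2,4),.mon 0 0 0,[]⟩),
  (.cc 5,⟨false,[],(6,12),.mon 0 0 0,[]⟩),
  (.ca 0,⟨false,[],(12,6),.mon 0 0 0,[]⟩),
  (.cc 0,⟨false,[],(10,2),.mon 0 0 0,[]⟩),
  (.ca 4,⟨false,[],(8,14),.mon 0 0 0,[]⟩),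
  (.cc 0,⟨false,[],(14,8),.mon 0 0 0,[]⟩),
  (.ca 0,⟨false,[],(4,10),.mon 0 0 0,[]⟩),
  (.comm 0 3 0,⟨false,[],(3,5),.mon 0 0 0,[]⟩),
  (.base 0,⟨false,[],(2,4),.mon 0 0 1,[(5,10),(2,7),(2,13),(9,14),(2,14)]⟩),
  (.comm 0 2 0,⟨false,[],(2,10),.mon 0 0 1,[]⟩),
  (.comm 0 2 0,⟨false,[],(4,10),.mon 0 0 1,[]⟩),
  (.comm 0 7 0,⟨false,[],(3,5),.mon 0 0 1,[]⟩),
  (.sI 0 11,⟨true,[],(2,10),.mon 0 0 1,[]⟩),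
  (.sF 0 17,⟨false,[],(2,10),.all,[]⟩),
  (.comm 0 14 0,⟨false,[],(2,4),.all,[]⟩),
  (.ca 11,⟨false,[],(8,2),.mon 0 0 0,[]⟩),
  (.cc 0,⟨false,[],(14,6),.mon 0 0 0,[]⟩),
  (.sI 5 16,⟨true,[],(5,14),.mon 0 0 1,[]⟩),
  (.sF 0 28,⟨false,[],(5,14),.all,[]⟩),
  (.comm 0 2 0,⟨false,[],(5,6),.all,[]⟩),
  (.comm 0 13 0,⟨false,[],(7,10),.all,[]⟩),
  (.comm 17 24 0,⟨false,[],(9,11),.mon 0 0 0,[]⟩),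
  (.comm 17 0 0,⟨false,[],(10,14),.mon 0 0 0,[]⟩),
  (.comm 0 6 0,⟨false,[],(7,11),.mon 0 0 0,[]⟩),
  (.comm 10 0 0,⟨false,[],(2,6),.all,[]⟩),
  (.comm 0 17 0,⟨false,[],(4,6),.all,[]⟩),
  (.comm 0 31 0,⟨false,[],(2,5),.all,[(2,6),(7,10),(2,10)]⟩),
  (.drop 0 [2,6,13],⟨false,[],(2,5),.all,[]⟩),
  (.comm 22 12 0,⟨false,[],(3,15),.mon 0 0 0,[]⟩),
  (.comm 10 0 0,⟨false,[],(3,4),.all,[]⟩),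
  (.comm 16 22 0,⟨false,[],(4,10),.all,[]⟩),
  (.comm 0 27 0,⟨false,[],(3,5),.all,[]⟩),
  (.cc 4,⟨false,[],(6,5),.all,[]⟩),
  (.cc 19,⟨false,[],(6,12),.all,[]⟩),
  (.comm 0 35 0,⟨false,[],(5,7),.all,[]⟩)],
  [(20,20),(7,7),(5,5),(3,3),(3,3),(7,7),(5,5),(20,20),(9,9),(2,2),(15,15),(0,0),(0,0),(2,2),(15,15),(9,9)]⟩ = true := by decide +kernel

theorem cDe8 : (Fam.op0 .D0 8).check true false false false (Fam.tcG 8)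
  ⟨[(8,14),(10,13),(7,16),(6,16),(2,5)],[],[],[(15,16),(2,7),(2,5),(11,17)],[(8,17),(15,13),(2,10),(3,10),(5,7)],(2,4),(3,6),
  ⟨[],[],[],[((3,13),some (0,0,1)),((9,10),some (0,0,0))],0,(3,13),(3,13),(3,13),(3,13),(0,0,0),[(4,10),(15,13)],
  [(.base 0,⟨false,[],(15,13),.mon 0 0 0,[(4,10),(3,13),(9,10)]⟩),
  (.cc 0,⟨false,[],(13,15),.mon 0 0 0,[(6,11),(2,15),(16,11)]⟩),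
  (.ca 0,⟨false,[],(10,9),.mon 0 0 0,[(7,12),(5,9),(17,12)]⟩),
  (.cc 0,⟨false,[],(11,16),.mon 0 0 0,[(5,14),(7,16),(8,14)]⟩),
  (.ca 0,⟨false,[],(12,17),.mon 0 0 0,[(2,8),(6,17),(14,8)]⟩),
  (.cc 0,⟨false,[],(14,8),.mon 0 0 0,[(3,17),(4,8),(12,17)]⟩),
  (.comm 5 0 0,⟨false,[],(9,13),.mon 0 0 0,[]⟩),
  (.ca 0,⟨false,[],(15,10),.mon 0 0 0,[]⟩),
  (.cc 0,⟨false,[],(13,11),.mon 0 0 0,[]⟩),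
  (.comm 0 2 0,⟨false,[],(9,11),.mon 0 0 0,[]⟩),
  (.base 1,⟨false,[],(4,10),.mon 0 0 1,[(12,14),(3,13),(9,10)]⟩),
  (.comm 0 1 0,⟨false,[],(4,8),.mon 0 0 1,[]⟩),
  (.cc 0,⟨false,[],(6,17),.mon 0 0 1,[]⟩),
  (.ca 0,⟨false,[],(7,16),.mon 0 0 1,[]⟩),
  (.cc 0,⟨false,[],(5,9),.mon 0 0 1,[]⟩),
  (.ca 3,⟨false,[],(3,14),.mon 0 0 1,[]⟩),
  (.cc 0,⟨false,[],(2,12),.mon 0 0 1,[]⟩),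
  (.cc 10,⟨false,[],(16,15),.mon 0 0 0,[]⟩),
  (.comm 17 0 0,⟨false,[],(12,17),.mon 0 0 0,[]⟩),
  (.cc 0,⟨false,[],(14,8),.mon 0 0 0,[]⟩),
  (.comm 4 0 0,⟨false,[],(3,8),.mon 0 0 1,[]⟩),
  (.ca 3,⟨false,[],(17,9),.mon 0 0 0,[]⟩),
  (.comm 3 0 0,⟨false,[],(8,13),.mon 0 0 0,[]⟩),
  (.comm 6 0 0,⟨false,[],(2,9),.mon 0 0 1,[]⟩),
  (.sI 0 3,⟨true,[],(9,13),.mon 0 0 2,[]⟩),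
  (.sF 0 18,⟨false,[],(9,13),.all,[]⟩),
  (.comm 0 9 0,⟨false,[],(2,8),.all,[]⟩),
  (.comm 0 12 0,⟨false,[],(2,4),.all,[]⟩),
  (.comm 6 10 0,⟨false,[],(8,15),.mon 0 0 0,[]⟩),
  (.comm 13 0 0,⟨false,[],(3,9),.mon 0 0 1,[]⟩),
  (.comm 21 22 0,⟨false,[],(13,14),.mon 0 0 0,[]⟩),
  (.comm 2 0 0,⟨false,[],(8,12),.mon 0 0 0,[]⟩),
  (.comm 20 0 0,⟨false,[],(4,12),.mon 0 0 1,[]⟩),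
  (.comm 7 0 0,⟨false,[],(4,8),.all,[]⟩),
  (.comm 0 4 0,⟨false,[],(3,5),.all,[]⟩),
  (.comm 16 3 0,⟨false,[],(8,17),.mon 0 0 0,[]⟩),
  (.comm 22 0 0,⟨false,[],(7,9),.mon 0 0 1,[]⟩),
  (.comm 3 0 0,⟨false,[],(4,6),.all,[]⟩),
  (.comm 20 30 0,⟨false,[],(11,17),.mon 0 0 0,[]⟩),
  (.comm 0 30 0,⟨false,[],(13,17),.mon 0 0 0,[]⟩),
  (.ca 21,⟨false,[],(11,16),.mon 0 0 0,[]⟩),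
  (.comm 0 1 0,⟨false,[],(11,12),.mon 0 0 0,[]⟩),
  (.ca 25,⟨false,[],(5,11),.mon 0 0 1,[]⟩),
  (.comm 0 1 0,⟨false,[],(5,12),.mon 0 0 1,[]⟩),
  (.comm 31 22 0,⟨false,[],(6,9),.mon 0 0 1,[]⟩),
  (.comm 19 0 0,⟨false,[],(6,13),.all,[]⟩),
  (.comm 0 2 0,⟨false,[],(5,7),.all,[]⟩),
  (.comm 6 38 0,⟨false,[],(13,16),.mon 0 0 0,[]⟩),
  (.comm 35 0 0,⟨false,[],(6,12),.mon 0 0 1,[]⟩),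
  (.comm 23 0 0,⟨false,[],(6,8),.all,[]⟩),
  (.comm 24 13 0,⟨false,[],(7,13),.all,[]⟩),
  (.comm 0 19 0,⟨false,[],(7,9),.all,[]⟩),
  (.ca 26,⟨false,[],(15,10),.all,[]⟩),
  (.comm 0 24 0,⟨false,[],(8,10),.all,[]⟩),
  (.comm 28 45 0,⟨false,[],(9,11),.all,[]⟩),
  (.cc 2,⟨false,[],(13,11),.all,[]⟩),
  (.comm 17 34 0,⟨false,[],(8,10),.mon 0 0 0,[]⟩),
  (.comm 31 0 0,⟨false,[],(11,13),.all,[]⟩),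
  (.ca 38,⟨false,[],(8,14),.mon 0 0 0,[]⟩),
  (.comm 33 0 0,⟨false,[],(12,14),.all,[]⟩),
  (.cc 34,⟨false,[],(16,15),.all,[]⟩),
  (.comm 0 13 0,⟨false,[],(13,15),.all,[]⟩),
  (.comm 36 33 0,⟨false,[],(12,15),.all,[]⟩),
  (.comm 0 15 0,⟨false,[],(14,16),.all,[]⟩),
  (.comm 45 55 0,⟨false,[],(10,17),.mon 0 0 0,[]⟩),
  (.comm 12 0 0,⟨false,[],(15,17),.all,[]⟩),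
  (.comm 32 42 0,⟨false,[],(2,5),.all,[]⟩),
  (.comm 41 37 0,⟨false,[],(3,13),.all,[]⟩),
  (.comm 0 24 0,⟨false,[],(3,4),.all,[]⟩)],
  [(2,2),(0,0),(41,41),(34,34),(31,31),(22,22),(19,19),(17,17),(15,15),(14,14),(13,13),(11,11),(9,9),(7,7),(5,5),(3,3)]⟩⟩ = true := by decide +kernel

theorem cDe9 : Fam.chkP .D0 9 1 true true false false false
  ⟨[],[],[],[((4,15),some (0,0,0)),((3,10),some (0,0,1)),((3,13),some (0,0,0))],0,(4,15),(4,15),(4,15),(4,15),(0,0,0),[(18,9),(3,12),(3,11)],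
  [(.base 0,⟨false,[],(3,11),.mon 0 0 0,[(3,12),(8,19),(4,15),(3,10),(3,13)]⟩),
  (.cc 0,⟨false,[],(7,17),.mon 0 0 0,[(7,14),(18,9),(4,13),(7,16),(7,15)]⟩),
  (.ca 0,⟨false,[],(17,7),.mon 0 0 0,[(17,8),(4,15),(18,11),(17,6),(17,9)]⟩),
  (.cc 0,⟨false,[],(11,3),.mon 0 0 0,[(11,18),(4,13),(8,17),(11,2),(11,19)]⟩),
  (.base 3,⟨false,[],(4,15),.mon 0 0 0,[(3,11),(3,12),(8,19),(3,10),(3,13)]⟩),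
  (.cc 0,⟨false,[],(4,13),.mon 0 0 0,[(7,17),(7,14),(18,9),(7,16),(7,15)]⟩),
  (.base 1,⟨false,[],(3,12),.mon 0 0 1,[(3,11),(8,19),(4,15),(3,10),(3,13)]⟩),
  (.comm 0 1 0,⟨false,[],(3,5),.mon 0 0 1,[(4,6)]⟩),
  (.comm 0 4 0,⟨false,[],(4,10),.mon 0 0 1,[]⟩),
  (.ca 0,⟨false,[],(18,12),.mon 0 0 1,[]⟩),
  (.cc 0,⟨false,[],(8,14),.mon 0 0 1,[]⟩),
  (.ca 0,⟨false,[],(14,8),.mon 0 0 1,[]⟩),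
  (.cc 0,⟨false,[],(12,18),.mon 0 0 1,[]⟩),
  (.ca 0,⟨false,[],(10,4),.mon 0 0 1,[]⟩),
  (.cc 0,⟨false,[],(16,4),.mon 0 0 1,[]⟩),
  (.cc 6,⟨false,[],(4,16),.mon 0 0 1,[]⟩),
  (.sI 1 0,⟨true,[],(4,10),.mon 0 0 2,[]⟩),
  (.sF 0 8,⟨false,[],(4,10),.all,[]⟩),
  (.comm 0 3 0,⟨false,[],(11,17),.all,[]⟩),
  (.comm 0 18 0,⟨false,[],(3,17),.all,[]⟩),
  (.ca 0,⟨false,[],(3,7),.all,[]⟩),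
  (.cc 0,⟨false,[],(7,3),.all,[]⟩),
  (.ca 7,⟨false,[],(6,18),.mon 0 0 1,[]⟩),
  (.ca 5,⟨false,[],(18,12),.all,[]⟩),
  (.comm 0 1 0,⟨false,[],(6,12),.all,[]⟩),
  (.comm 0 12 0,⟨false,[],(6,18),.all,[]⟩),
  (.cN 0 5 4,⟨false,[],(2,18),.all,[]⟩),
  (.ca 0,⟨false,[],(2,4),.all,[]⟩),
  (.spec 1,⟨false,[],(2,18),.mon 0 0 0,[]⟩),
  (.base 2,⟨false,[],(18,9),.mon 0 0 0,[(3,11),(3,12),(4,15),(3,10),(3,13)]⟩),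
  (.cc 7,⟨false,[],(2,8),.mon 0 0 1,[]⟩),
  (.cc 7,⟨false,[],(8,14),.all,[]⟩),
  (.comm 0 1 0,⟨false,[],(2,14),.all,[]⟩),
  (.ca 0,⟨false,[],(2,8),.all,[]⟩),
  (.spec 0,⟨false,[],(2,8),.mon 0 0 0,[]⟩),
  (.comm 17 34 0,⟨false,[],(3,5),.all,[]⟩),
  (.comm 0 1 0,⟨false,[],(4,8),.all,[]⟩),
  (.comm 0 7 0,⟨false,[],(4,19),.all,[]⟩),
  (.comm 0 9 0,⟨false,[],(2,5),.all,[]⟩),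
  (.spec 13,⟨false,[],(6,18),.mon 0 0 0,[]⟩),
  (.cc 4,⟨false,[],(7,5),.all,[]⟩),
  (.ca 0,⟨false,[],(17,19),.all,[]⟩),
  (.comm 0 2 0,⟨false,[],(6,16),.all,[]⟩),
  (.comm 24 29 0,⟨false,[],(5,17),.all,[]⟩),
  (.spec 0,⟨false,[],(5,17),.mon 0 0 0,[]⟩),
  (.comm 4 0 0,⟨false,[],(7,17),.all,[]⟩),
  (.cN 2 0 3,⟨false,[],(5,7),.all,[]⟩),
  (.spec 0,⟨false,[],(5,7),.mon 0 0 0,[]⟩),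
  (.ca 32,⟨false,[],(18,6),.mon 0 0 1,[]⟩),
  (.comm 36 0 0,⟨false,[],(7,13),.mon 0 0 2,[]⟩),
  (.comm 26 0 0,⟨false,[],(7,19),.all,[]⟩),
  (.comm 0 38 0,⟨false,[],(7,13),.all,[]⟩),
  (.comm 0 45 0,⟨false,[],(3,6),.all,[]⟩),
  (.comm 0 5 0,⟨false,[],(3,4),.all,[]⟩),
  (.spec 17,⟨false,[],(4,8),.mon 0 0 0,[]⟩),
  (.comm 29 25 0,⟨false,[],(6,9),.all,[]⟩),
  (.comm 0 1 0,⟨false,[],(4,7),.all,[]⟩),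
  (.spec 29,⟨false,[],(2,4),.mon 0 0 0,[]⟩),
  (.comm 5 0 0,⟨false,[],(5,6),.all,[]⟩)],
  [(31,31),(20,20),(5,5),(23,23),(23,23),(20,20),(5,5),(31,31),(18,18),(2,2),(0,0),(12,12),(12,12),(2,2),(0,0),(18,18)]⟩ = true := by decide +kernel

theorem cDe10 : (Fam.op0 .D0 10).check true false false false (Fam.tcG 10)
  ⟨[(17,21),(4,14),(2,11),(8,18),(3,11),(7,12)],[],[],[(14,18),(3,12),(12,14),(11,13),(16,20),(15,21)],[(21,2),(4,16),(13,19),(8,14),(12,19),(7,10)],(2,4),(3,6),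
  ⟨[],[],[],[((9,13),some (0,0,1)),((16,18),some (0,0,1)),((5,17),some (0,0,0)),((12,21),some (0,0,1))],0,(9,13),(9,13),(9,13),(9,13),(0,0,0),[(19,6),(20,8),(15,21),(7,17)],
  [(.base 1,⟨false,[],(15,21),.mon 0 0 0,[(7,17),(9,21),(7,18),(9,13),(16,18),(5,17),(12,21)]⟩),
  (.cc 0,⟨false,[],(9,2),.mon 0 0 0,[(10,5),(15,2),(10,19),(15,12),(4,19),(17,5),(13,2)]⟩),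
  (.ca 0,⟨false,[],(19,3),.mon 0 0 0,[(11,15),(5,3),(11,9),(5,7),(14,9),(21,15),(6,3)]⟩),
  (.cc 0,⟨false,[],(18,20),.mon 0 0 0,[(6,9),(17,20),(6,15),(17,10),(8,15),(2,9),(11,20)]⟩),
  (.ca 0,⟨false,[],(8,16),.mon 0 0 0,[(13,19),(21,16),(13,5),(21,11),(18,5),(3,19),(10,16)]⟩),
  (.cc 0,⟨false,[],(14,4),.mon 0 0 0,[(12,18),(2,4),(12,17),(2,6),(19,17),(20,18),(7,4)]⟩),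
  (.comm 5 0 0,⟨false,[],(5,21),.mon 0 0 0,[]⟩),
  (.cc 0,⟨false,[],(17,2),.mon 0 0 0,[]⟩),
  (.ca 0,⟨false,[],(21,3),.mon 0 0 0,[]⟩),
  (.comm 0 2 0,⟨false,[],(2,4),.mon 0 0 0,[]⟩),
  (.ca 3,⟨false,[],(15,17),.mon 0 0 0,[]⟩),
  (.comm 3 0 0,⟨false,[],(3,14),.mon 0 0 0,[]⟩),
  (.cc 1,⟨false,[],(9,5),.mon 0 0 0,[]⟩),
  (.ca 0,⟨false,[],(19,15),.mon 0 0 0,[]⟩),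
  (.comm 0 2 0,⟨false,[],(3,18),.mon 0 0 0,[]⟩),
  (.comm 0 5 0,⟨false,[],(5,18),.mon 0 0 0,[]⟩),
  (.comm 15 2 0,⟨false,[],(19,21),.mon 0 0 0,[]⟩),
  (.cc 0,⟨false,[],(18,2),.mon 0 0 0,[]⟩),
  (.comm 0 2 0,⟨false,[],(3,4),.mon 0 0 0,[]⟩),
  (.cc 5,⟨false,[],(18,9),.mon 0 0 0,[]⟩),
  (.comm 0 7 0,⟨false,[],(4,19),.mon 0 0 0,[]⟩),
  (.comm 12 13 0,⟨false,[],(17,20),.mon 0 0 0,[]⟩),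
  (.comm 5 0 0,⟨false,[],(17,18),.mon 0 0 0,[]⟩),
  (.comm 0 2 0,⟨false,[],(4,16),.mon 0 0 0,[]⟩),
  (.ca 7,⟨false,[],(9,17),.mon 0 0 0,[]⟩),
  (.comm 0 5 0,⟨false,[],(16,19),.mon 0 0 0,[]⟩),
  (.base 3,⟨false,[],(19,6),.mon 0 0 1,[(7,17),(15,21),(9,21),(9,13),(16,18),(5,17),(12,21)]⟩),
  (.comm 0 1 0,⟨false,[],(7,17),.mon 0 0 1,[]⟩),
  (.comm 0 4 0,⟨false,[],(4,6),.mon 0 0 1,[]⟩),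
  (.ca 1,⟨false,[],(12,21),.mon 0 0 1,[]⟩),
  (.cc 0,⟨false,[],(13,2),.mon 0 0 1,[]⟩),
  (.ca 0,⟨false,[],(6,3),.mon 0 0 1,[]⟩),
  (.comm 0 3 0,⟨false,[],(2,5),.mon 0 0 2,[]⟩),
  (.sI 0 14,⟨true,[],(5,21),.mon 0 0 2,[]⟩),
  (.sF 0 27,⟨false,[],(5,21),.all,[]⟩),
  (.comm 0 26 0,⟨false,[],(2,4),.all,[]⟩),
  (.comm 15 22 0,⟨false,[],(4,15),.mon 0 0 0,[]⟩),
  (.ca 2,⟨false,[],(15,17),.all,[]⟩),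
  (.comm 0 1 0,⟨false,[],(4,17),.all,[]⟩),
  (.comm 4 17 0,⟨false,[],(5,16),.all,[]⟩),
  (.cc 5,⟨false,[],(17,2),.all,[]⟩),
  (.cN 0 1 2,⟨false,[],(3,5),.all,[]⟩),
  (.comm 30 33 0,⟨false,[],(15,20),.mon 0 0 0,[]⟩),
  (.comm 0 29 0,⟨false,[],(19,20),.mon 0 0 0,[]⟩),
  (.comm 23 0 0,⟨false,[],(4,20),.mon 0 0 0,[]⟩),
  (.comm 10 16 0,⟨false,[],(7,21),.all,[]⟩),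
  (.comm 0 1 0,⟨false,[],(4,6),.all,[]⟩),
  (.comm 34 40 0,⟨false,[],(9,21),.mon 0 0 0,[]⟩),
  (.comm 0 39 0,⟨false,[],(2,8),.mon 0 0 0,[]⟩),
  (.comm 29 35 0,⟨false,[],(8,15),.mon 0 0 0,[]⟩),
  (.comm 0 1 0,⟨false,[],(2,15),.mon 0 0 0,[]⟩),
  (.comm 50 0 0,⟨false,[],(2,21),.mon 0 0 0,[]⟩),
  (.cc 0,⟨false,[],(21,2),.mon 0 0 0,[]⟩),
  (.comm 21 0 0,⟨false,[],(6,20),.mon 0 0 1,[]⟩),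
  (.comm 19 0 0,⟨false,[],(5,7),.all,[]⟩),
  (.comm 20 42 0,⟨false,[],(9,21),.all,[]⟩),
  (.comm 0 2 0,⟨false,[],(6,8),.all,[]⟩),
  (.comm 13 37 0,⟨false,[],(8,20),.mon 0 0 0,[]⟩),
  (.comm 23 0 0,⟨false,[],(5,9),.all,[]⟩),
  (.comm 0 30 0,⟨false,[],(7,9),.all,[]⟩),
  (.cc 35,⟨false,[],(15,5),.mon 0 0 0,[]⟩),
  (.cc 33,⟨false,[],(10,5),.mon 0 0 1,[]⟩),
  (.ca 0,⟨false,[],(11,15),.mon 0 0 1,[]⟩),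
  (.comm 0 2 0,⟨false,[],(4,10),.mon 0 0 1,[]⟩),
  (.comm 5 0 0,⟨false,[],(8,10),.all,[]⟩),
  (.comm 12 55 0,⟨false,[],(5,20),.mon 0 0 0,[]⟩),
  (.comm 4 0 0,⟨false,[],(10,20),.mon 0 0 1,[]⟩),
  (.comm 11 0 0,⟨false,[],(9,11),.all,[]⟩),
  (.comm 37 59 0,⟨false,[],(13,20),.mon 0 0 1,[]⟩),
  (.comm 34 7 0,⟨false,[],(10,21),.all,[]⟩),
  (.comm 0 1 0,⟨false,[],(10,12),.all,[]⟩),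
  (.comm 8 28 0,⟨false,[],(11,20),.mon 0 0 1,[]⟩),
  (.comm 42 27 0,⟨false,[],(4,13),.mon 0 0 1,[]⟩),
  (.comm 38 0 0,⟨false,[],(12,21),.all,[]⟩),
  (.comm 0 2 0,⟨false,[],(11,13),.all,[]⟩),
  (.comm 45 53 0,⟨false,[],(12,16),.mon 0 0 1,[]⟩),
  (.comm 38 0 0,⟨false,[],(12,14),.all,[]⟩),
  (.comm 42 40 0,⟨false,[],(14,21),.all,[]⟩),
  (.comm 0 9 0,⟨false,[],(13,15),.all,[]⟩),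
  (.comm 38 28 0,⟨false,[],(14,16),.all,[]⟩),
  (.comm 42 66 0,⟨false,[],(16,18),.all,[]⟩),
  (.comm 32 61 0,⟨false,[],(2,19),.mon 0 0 0,[]⟩),
  (.comm 41 0 0,⟨false,[],(17,19),.all,[]⟩),
  (.comm 65 74 0,⟨false,[],(18,20),.mon 0 0 0,[]⟩),
  (.comm 49 0 0,⟨false,[],(5,19),.all,[]⟩),
  (.comm 0 40 0,⟨false,[],(18,20),.all,[]⟩),
  (.comm 69 41 0,⟨false,[],(4,18),.mon 0 0 0,[]⟩),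
  (.comm 52 0 0,⟨false,[],(19,21),.all,[]⟩),
  (.comm 36 43 0,⟨false,[],(2,5),.mon 0 0 0,[]⟩),
  (.comm 54 0 0,⟨false,[],(2,21),.all,[]⟩),
  (.comm 0 45 0,⟨false,[],(2,5),.all,[]⟩),
  (.comm 56 38 0,⟨false,[],(3,4),.all,[]⟩)],
  [(1,1),(0,0),(56,56),(50,50),(45,45),(37,37),(35,35),(32,32),(27,27),(24,24),(21,21),(17,17),(15,15),(13,13),(12,12),(54,54),(11,11),(9,9),(6,6),(4,4)]⟩⟩ = true := by decide +kernel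

theorem cDe11 : Fam.chkP .D0 11 1 true true false false false
  ⟨[],[],[],[((7,18),some (0,0,1)),((10,23),some (0,0,1))],0,(7,18),(7,18),(7,18),(7,18),(0,0,0),[(21,8),(16,5)],
  [(.base 1,⟨false,[],(21,8),.mon 0 0 1,[(4,17),(7,18),(10,23)]⟩),
  (.cc 0,⟨false,[],(11,22),.mon 0 0 1,[(4,15),(3,12),(20,9)]⟩),
  (.ca 0,⟨false,[],(17,4),.mon 0 0 1,[(22,13),(3,14),(6,19)]⟩),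
  (.cc 0,⟨false,[],(15,4),.mon 0 0 1,[(8,19),(7,16),(2,13)]⟩),
  (.ca 0,⟨false,[],(13,22),.mon 0 0 1,[(18,9),(21,10),(2,15)]⟩),
  (.cc 0,⟨false,[],(19,8),.mon 0 0 1,[(12,23),(11,20),(6,17)]⟩),
  (.ca 0,⟨false,[],(9,18),.mon 0 0 1,[(14,5),(17,6),(20,11)]⟩),
  (.cc 0,⟨false,[],(23,12),.mon 0 0 1,[(16,5),(15,2),(10,21)]⟩),
  (.ca 0,⟨false,[],(5,14),.mon 0 0 1,[(10,23),(13,2),(16,7)]⟩),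
  (.base 0,⟨false,[],(16,5),.mon 0 0 1,[(9,20),(7,18),(10,23)]⟩),
  (.comm 0 1 0,⟨false,[],(15,17),.mon 0 0 2,[(16,18)]⟩),
  (.ca 0,⟨false,[],(13,11),.mon 0 0 2,[(10,8)]⟩),
  (.cc 0,⟨false,[],(19,21),.mon 0 0 2,[(20,22)]⟩),
  (.ca 0,⟨false,[],(9,7),.mon 0 0 2,[(6,4)]⟩),
  (.cc 0,⟨false,[],(23,3),.mon 0 0 2,[(2,4)]⟩),
  (.ca 0,⟨false,[],(5,3),.mon 0 0 2,[(2,22)]⟩),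
  (.base 2,⟨false,[],(7,18),.mon 0 0 1,[(4,17),(9,20),(10,23)]⟩),
  (.cc 0,⟨false,[],(3,12),.mon 0 0 1,[(4,15),(23,10),(20,9)]⟩),
  (.ca 0,⟨false,[],(3,14),.mon 0 0 1,[(22,13),(5,16),(6,19)]⟩),
  (.cc 0,⟨false,[],(7,16),.mon 0 0 1,[(8,19),(5,14),(2,13)]⟩),
  (.ca 0,⟨false,[],(21,10),.mon 0 0 1,[(18,9),(23,12),(2,15)]⟩),
  (.cc 0,⟨false,[],(11,20),.mon 0 0 1,[(12,23),(9,18),(6,17)]⟩),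
  (.ca 0,⟨false,[],(17,6),.mon 0 0 1,[(14,5),(19,8),(20,11)]⟩),
  (.comm 13 0 0,⟨false,[],(4,6),.mon 0 0 2,[(9,11)]⟩),
  (.comm 0 8 0,⟨false,[],(2,6),.mon 0 0 4,[]⟩),
  (.cc 0,⟨false,[],(6,2),.mon 0 0 4,[]⟩),
  (.ca 0,⟨false,[],(20,2),.mon 0 0 4,[]⟩),
  (.cc 0,⟨false,[],(10,6),.mon 0 0 4,[]⟩),
  (.ca 0,⟨false,[],(16,20),.mon 0 0 4,[]⟩),
  (.cc 0,⟨false,[],(14,10),.mon 0 0 4,[]⟩),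
  (.ca 0,⟨false,[],(12,16),.mon 0 0 4,[]⟩),
  (.comm 21 0 0,⟨false,[],(4,13),.mon 0 0 5,[]⟩),
  (.ca 0,⟨false,[],(22,15),.mon 0 0 5,[]⟩),
  (.cc 0,⟨false,[],(8,17),.mon 0 0 5,[]⟩),
  (.ca 0,⟨false,[],(18,11),.mon 0 0 5,[]⟩),
  (.cc 0,⟨false,[],(12,21),.mon 0 0 5,[]⟩),
  (.ca 0,⟨false,[],(14,7),.mon 0 0 5,[]⟩),
  (.cc 0,⟨false,[],(16,3),.mon 0 0 5,[]⟩),
  (.ca 0,⟨false,[],(10,3),.mon 0 0 5,[]⟩),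
  (.comm 0 12 0,⟨false,[],(10,21),.mon 0 0 9,[]⟩),
  (.comm 39 0 0,⟨false,[],(9,11),.mon 0 0 10,[]⟩),
  (.cc 0,⟨false,[],(23,21),.mon 0 0 10,[]⟩),
  (.ca 0,⟨false,[],(5,7),.mon 0 0 10,[]⟩),
  (.cc 0,⟨false,[],(5,3),.mon 0 0 10,[]⟩),
  (.cc 12,⟨false,[],(4,19),.mon 0 0 5,[]⟩),
  (.ca 0,⟨false,[],(22,9),.mon 0 0 5,[]⟩),
  (.comm 45 0 0,⟨false,[],(21,23),.mon 0 0 6,[]⟩),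
  (.ca 0,⟨false,[],(7,5),.mon 0 0 6,[]⟩),
  (.cc 0,⟨false,[],(3,5),.mon 0 0 6,[]⟩),
  (.sI 0 5,⟨true,[],(2,6),.mon 0 0 16,[]⟩),
  (.sN 0,⟨true,[],(2,6),.mon 0 0 (-16),[]⟩),
  (.ca 26,⟨false,[],(2,20),.mon 0 0 4,[]⟩),
  (.cc 0,⟨false,[],(6,10),.mon 0 0 4,[]⟩),
  (.ca 0,⟨false,[],(20,16),.mon 0 0 4,[]⟩),
  (.comm 0 2 0,⟨false,[],(2,16),.mon 0 0 8,[]⟩),
  (.comm 45 0 0,⟨false,[],(2,5),.mon 0 0 9,[]⟩),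
  (.cc 2,⟨false,[],(10,14),.mon 0 0 4,[]⟩),
  (.ca 0,⟨false,[],(16,12),.mon 0 0 4,[]⟩),
  (.cc 0,⟨false,[],(14,18),.mon 0 0 4,[]⟩),
  (.ca 0,⟨false,[],(12,8),.mon 0 0 4,[]⟩),
  (.cc 0,⟨false,[],(18,22),.mon 0 0 4,[]⟩),
  (.ca 0,⟨false,[],(8,4),.mon 0 0 4,[]⟩),
  (.comm 61 35 0,⟨false,[],(3,8),.mon 0 0 5,[]⟩),
  (.comm 0 1 0,⟨false,[],(3,4),.mon 0 0 9,[]⟩),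
  (.sI 0 8,⟨true,[],(2,6),.mon 0 0 18,[]⟩),
  (.sA 0 14,⟨true,[],(2,6),.mon 0 0 2,[]⟩),
  (.sF 0 41,⟨false,[],(2,6),.all,[]⟩),
  (.comm 0 24 0,⟨false,[],(2,4),.all,[]⟩),
  (.cc 12,⟨false,[],(6,5),.mon 0 0 9,[]⟩),
  (.comm 2 0 0,⟨false,[],(2,5),.all,[]⟩),
  (.comm 3 6 0,⟨false,[],(5,6),.all,[]⟩),
  (.cc 0,⟨false,[],(5,2),.all,[]⟩),
  (.ca 9,⟨false,[],(3,18),.mon 0 0 5,[]⟩),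
  (.comm 0 28 0,⟨false,[],(3,5),.mon 0 0 10,[]⟩),
  (.comm 7 0 0,⟨false,[],(4,6),.all,[]⟩),
  (.cc 0,⟨false,[],(4,2),.all,[]⟩),
  (.cc 6,⟨false,[],(6,5),.all,[]⟩),
  (.cc 9,⟨false,[],(6,4),.all,[]⟩)],
  [(10,10),(8,8),(6,6),(2,2),(2,2),(8,8),(6,6),(10,10),(3,3),(1,1),(7,7),(0,0),(0,0),(1,1),(7,7),(3,3)]⟩ = true := by decide +kernel

theorem cDe12 : Fam.chkP .D0 12 1 true true false false false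
  ⟨[],[],[],[((13,20),some (0,0,1)),((2,11),some (0,0,1)),((7,25),some (0,0,0))],0,(13,20),(13,20),(13,20),(13,20),(0,0,0),[(17,8),(2,19),(23,5)],
  [(.base 2,⟨false,[],(17,8),.mon 0 0 1,[(4,22),(2,19),(13,20),(2,11),(7,25)]⟩),
  (.cc 0,⟨false,[],(17,24),.mon 0 0 1,[(4,10),(6,15),(21,12),(6,23),(3,9)]⟩),
  (.ca 0,⟨false,[],(13,4),.mon 0 0 1,[(24,18),(22,15),(9,16),(22,7),(3,21)]⟩),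
  (.cc 0,⟨false,[],(21,4),.mon 0 0 1,[(8,14),(10,19),(25,16),(10,3),(7,13)]⟩),
  (.base 0,⟨false,[],(23,5),.mon 0 0 0,[(2,19),(9,16),(13,20),(2,11),(7,25)]⟩),
  (.comm 0 1 0,⟨false,[],(21,22),.mon 0 0 1,[(15,16),(7,20),(7,16)]⟩),
  (.ca 0,⟨false,[],(9,6),.mon 0 0 1,[(15,12),(23,8),(23,12)]⟩),
  (.base 4,⟨false,[],(2,11),.mon 0 0 1,[(4,22),(2,19),(9,16),(13,20),(7,25)]⟩),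
  (.cc 0,⟨false,[],(6,23),.mon 0 0 1,[(4,10),(6,15),(25,16),(21,12),(3,9)]⟩),
  (.ca 0,⟨false,[],(22,7),.mon 0 0 1,[(24,18),(22,15),(5,12),(9,16),(3,21)]⟩),
  (.comm 5 0 0,⟨false,[],(4,7),.mon 0 0 1,[(4,15),(13,22),(2,25),(18,21),(3,12),(10,21),(22,25),(13,15),(6,12),(20,25),(13,19),(10,12),(4,25),(13,25)]⟩),
  (.comm 0 4 0,⟨false,[],(4,8),.mon 0 0 2,[(4,12),(9,25),(13,25),(9,12)]⟩),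
  (.comm 0 9 0,⟨false,[],(9,12),.mon 0 0 3,[]⟩),
  (.cc 0,⟨false,[],(25,20),.mon 0 0 3,[]⟩),
  (.ca 0,⟨false,[],(5,8),.mon 0 0 3,[]⟩),
  (.comm 10 0 0,⟨false,[],(9,22),.mon 0 0 3,[]⟩),
  (.cc 0,⟨false,[],(25,10),.mon 0 0 3,[]⟩),
  (.ca 0,⟨false,[],(5,18),.mon 0 0 3,[]⟩),
  (.cc 0,⟨false,[],(5,14),.mon 0 0 3,[]⟩),
  (.comm 14 0 0,⟨false,[],(15,22),.mon 0 0 3,[]⟩),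
  (.cc 0,⟨false,[],(19,10),.mon 0 0 3,[]⟩),
  (.ca 2,⟨false,[],(25,14),.mon 0 0 3,[]⟩),
  (.cc 0,⟨false,[],(9,18),.mon 0 0 3,[]⟩),
  (.base 1,⟨false,[],(2,19),.mon 0 0 1,[(4,22),(9,16),(13,20),(2,11),(7,25)]⟩),
  (.comm 0 1 0,⟨false,[],(2,8),.mon 0 0 4,[]⟩),
  (.cc 0,⟨false,[],(6,24),.mon 0 0 4,[]⟩),
  (.ca 0,⟨false,[],(22,4),.mon 0 0 4,[]⟩),
  (.cc 0,⟨false,[],(10,4),.mon 0 0 4,[]⟩),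
  (.comm 23 0 0,⟨false,[],(10,22),.mon 0 0 4,[]⟩),
  (.comm 0 8 0,⟨false,[],(19,22),.mon 0 0 7,[]⟩),
  (.comm 6 0 0,⟨false,[],(2,22),.mon 0 0 8,[]⟩),
  (.cc 0,⟨false,[],(6,10),.mon 0 0 8,[]⟩),
  (.ca 0,⟨false,[],(22,18),.mon 0 0 8,[]⟩),
  (.cc 0,⟨false,[],(10,14),.mon 0 0 8,[]⟩),
  (.ca 0,⟨false,[],(18,14),.mon 0 0 8,[]⟩),
  (.cc 0,⟨false,[],(14,18),.mon 0 0 8,[]⟩),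
  (.comm 12 0 0,⟨false,[],(2,15),.mon 0 0 9,[]⟩),
  (.cc 0,⟨false,[],(6,19),.mon 0 0 9,[]⟩),
  (.ca 0,⟨false,[],(22,11),.mon 0 0 9,[]⟩),
  (.comm 34 0 0,⟨false,[],(4,11),.mon 0 0 9,[]⟩),
  (.cc 0,⟨false,[],(4,23),.mon 0 0 9,[]⟩),
  (.ca 0,⟨false,[],(24,7),.mon 0 0 9,[]⟩),
  (.cc 0,⟨false,[],(8,3),.mon 0 0 9,[]⟩),
  (.ca 0,⟨false,[],(20,3),.mon 0 0 9,[]⟩),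
  (.ca 19,⟨false,[],(2,20),.mon 0 0 4,[]⟩),
  (.cc 0,⟨false,[],(6,12),.mon 0 0 4,[]⟩),
  (.ca 0,⟨false,[],(22,16),.mon 0 0 4,[]⟩),
  (.comm 42 0 0,⟨false,[],(4,16),.mon 0 0 4,[]⟩),
  (.ca 0,⟨false,[],(24,12),.mon 0 0 4,[]⟩),
  (.cc 0,⟨false,[],(8,20),.mon 0 0 4,[]⟩),
  (.ca 0,⟨false,[],(20,8),.mon 0 0 4,[]⟩),
  (.cc 0,⟨false,[],(12,24),.mon 0 0 4,[]⟩),
  (.ca 0,⟨false,[],(16,4),.mon 0 0 4,[]⟩),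
  (.cc 6,⟨false,[],(10,16),.mon 0 0 4,[]⟩),
  (.comm 0 33 0,⟨false,[],(17,18),.mon 0 0 7,[]⟩),
  (.comm 31 0 0,⟨false,[],(2,16),.mon 0 0 8,[]⟩),
  (.cc 0,⟨false,[],(6,16),.mon 0 0 8,[]⟩),
  (.comm 0 4 0,⟨false,[],(5,7),.mon 0 0 12,[]⟩),
  (.ca 42,⟨false,[],(21,6),.mon 0 0 3,[]⟩),
  (.ca 30,⟨false,[],(18,6),.mon 0 0 4,[]⟩),
  (.comm 27 0 0,⟨false,[],(7,23),.mon 0 0 12,[]⟩),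
  (.comm 56 0 0,⟨false,[],(4,6),.mon 0 0 12,[]⟩),
  (.ca 22,⟨false,[],(24,19),.mon 0 0 9,[]⟩),
  (.cc 0,⟨false,[],(8,15),.mon 0 0 9,[]⟩),
  (.ca 0,⟨false,[],(20,15),.mon 0 0 9,[]⟩),
  (.cc 0,⟨false,[],(12,19),.mon 0 0 9,[]⟩),
  (.ca 0,⟨false,[],(16,11),.mon 0 0 9,[]⟩),
  (.comm 66 0 0,⟨false,[],(9,11),.mon 0 0 10,[]⟩),
  (.cc 0,⟨false,[],(25,23),.mon 0 0 10,[]⟩),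
  (.ca 0,⟨false,[],(5,7),.mon 0 0 10,[]⟩),
  (.sI 0 8,⟨true,[],(7,20),.mon 0 0 22,[]⟩),
  (.ca 40,⟨false,[],(2,6),.mon 0 0 8,[]⟩),
  (.cc 0,⟨false,[],(6,2),.mon 0 0 8,[]⟩),
  (.comm 0 14 0,⟨false,[],(3,20),.mon 0 0 11,[]⟩),
  (.sI 30 0,⟨true,[],(7,20),.mon 0 0 20,[]⟩),
  (.sN 0,⟨true,[],(7,20),.mon 0 0 (-20),[]⟩),
  (.sA 0 5,⟨true,[],(7,20),.mon 0 0 2,[]⟩),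
  (.sF 0 18,⟨false,[],(21,6),.all,[]⟩),
  (.comm 0 20 0,⟨false,[],(5,20),.all,[]⟩),
  (.comm 0 35 0,⟨false,[],(2,4),.all,[]⟩),
  (.ca 24,⟨false,[],(2,12),.mon 0 0 8,[]⟩),
  (.cc 0,⟨false,[],(6,20),.mon 0 0 8,[]⟩),
  (.ca 0,⟨false,[],(22,8),.mon 0 0 8,[]⟩),
  (.cc 0,⟨false,[],(10,24),.mon 0 0 8,[]⟩),
  (.ca 0,⟨false,[],(18,4),.mon 0 0 8,[]⟩),
  (.cc 0,⟨false,[],(14,4),.mon 0 0 8,[]⟩),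
  (.comm 81 0 0,⟨false,[],(14,22),.mon 0 0 8,[]⟩),
  (.cc 0,⟨false,[],(18,10),.mon 0 0 8,[]⟩),
  (.ca 0,⟨false,[],(10,18),.mon 0 0 8,[]⟩),
  (.cc 0,⟨false,[],(22,14),.mon 0 0 8,[]⟩),
  (.comm 85 0 0,⟨false,[],(4,14),.mon 0 0 8,[]⟩),
  (.cc 0,⟨false,[],(4,18),.mon 0 0 8,[]⟩),
  (.comm 68 0 0,⟨false,[],(2,5),.mon 0 0 9,[]⟩),
  (.cc 0,⟨false,[],(6,5),.mon 0 0 9,[]⟩),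
  (.comm 16 0 0,⟨false,[],(4,20),.all,[]⟩),
  (.comm 0 51 0,⟨false,[],(2,5),.all,[]⟩),
  (.comm 91 13 0,⟨false,[],(4,8),.mon 0 0 8,[]⟩),
  (.cc 0,⟨false,[],(4,24),.mon 0 0 8,[]⟩),
  (.ca 0,⟨false,[],(24,4),.mon 0 0 8,[]⟩),
  (.comm 0 47 0,⟨false,[],(5,13),.mon 0 0 12,[]⟩),
  (.cc 22,⟨false,[],(13,2),.all,[]⟩),
  (.comm 0 1 0,⟨false,[],(3,4),.all,[]⟩),
  (.ca 82,⟨false,[],(15,6),.mon 0 0 3,[]⟩),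
  (.cc 0,⟨false,[],(19,2),.mon 0 0 3,[]⟩),
  (.ca 10,⟨false,[],(22,25),.mon 0 0 9,[]⟩),
  (.cc 0,⟨false,[],(10,9),.mon 0 0 9,[]⟩),
  (.ca 0,⟨false,[],(18,21),.mon 0 0 9,[]⟩),
  (.comm 0 3 0,⟨false,[],(3,21),.mon 0 0 12,[]⟩),
  (.comm 13 0 0,⟨false,[],(3,5),.all,[]⟩),
  (.comm 104 4 0,⟨false,[],(4,25),.mon 0 0 9,[]⟩),
  (.cc 0,⟨false,[],(4,9),.mon 0 0 9,[]⟩),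
  (.comm 33 60 0,⟨false,[],(7,8),.all,[]⟩),
  (.comm 0 1 0,⟨false,[],(4,6),.all,[]⟩),
  (.ca 26,⟨false,[],(14,6),.mon 0 0 8,[]⟩),
  (.cc 0,⟨false,[],(18,2),.mon 0 0 8,[]⟩),
  (.ca 0,⟨false,[],(10,2),.mon 0 0 8,[]⟩),
  (.comm 92 0 0,⟨false,[],(10,19),.mon 0 0 9,[]⟩),
  (.cc 0,⟨false,[],(22,15),.mon 0 0 9,[]⟩),
  (.comm 113 0 0,⟨false,[],(4,15),.mon 0 0 9,[]⟩),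
  (.cc 0,⟨false,[],(4,19),.mon 0 0 9,[]⟩),
  (.ca 0,⟨false,[],(24,11),.mon 0 0 9,[]⟩),
  (.cc 0,⟨false,[],(8,23),.mon 0 0 9,[]⟩),
  (.ca 0,⟨false,[],(20,7),.mon 0 0 9,[]⟩),
  (.comm 28 0 0,⟨false,[],(4,7),.all,[]⟩),
  (.comm 41 74 0,⟨false,[],(21,23),.mon 0 0 12,[]⟩),
  (.comm 120 0 0,⟨false,[],(4,20),.mon 0 0 12,[]⟩),
  (.ca 0,⟨false,[],(24,8),.mon 0 0 12,[]⟩),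
  (.cc 0,⟨false,[],(8,24),.mon 0 0 12,[]⟩),
  (.ca 0,⟨false,[],(20,4),.mon 0 0 12,[]⟩),
  (.comm 51 0 0,⟨false,[],(5,6),.all,[]⟩),
  (.comm 51 7 0,⟨false,[],(5,7),.all,[]⟩)],
  [(51,51),(35,35),(29,29),(22,22),(22,22),(35,35),(29,29),(51,51),(18,18),(7,7),(1,1),(0,0),(0,0),(7,7),(1,1),(18,18)]⟩ = true := by decide +kernel

theorem cDe13 : Fam.chkP .D0 13 1 true true false false false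
  ⟨[],[],[],[((16,27),some (0,0,1)),((7,12),some (0,0,0)),((16,26),some (0,0,1))],0,(16,27),(16,27),(16,27),(16,27),(0,0,0),[(14,5),(25,18),(14,4)],
  [(.base 2,⟨false,[],(14,5),.mon 0 0 1,[(5,15),(19,24),(16,27),(7,12),(16,26)]⟩),
  (.cc 0,⟨false,[],(20,5),.mon 0 0 1,[(5,21),(17,10),(18,9),(3,22),(18,8)]⟩),
  (.ca 0,⟨false,[],(10,27),.mon 0 0 1,[(27,11),(15,20),(12,23),(3,8),(12,22)]⟩),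
  (.cc 0,⟨false,[],(24,9),.mon 0 0 1,[(9,25),(21,14),(22,13),(7,26),(22,12)]⟩),
  (.ca 0,⟨false,[],(6,23),.mon 0 0 1,[(23,7),(11,16),(8,19),(25,4),(8,18)]⟩),
  (.cc 0,⟨false,[],(2,13),.mon 0 0 1,[(13,3),(25,18),(26,17),(11,4),(26,16)]⟩),
  (.ca 0,⟨false,[],(2,19),.mon 0 0 1,[(19,3),(7,12),(4,15),(21,26),(4,14)]⟩),
  (.base 3,⟨false,[],(16,27),.mon 0 0 1,[(5,15),(19,24),(4,15),(7,12),(16,26)]⟩),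
  (.cc 0,⟨false,[],(18,9),.mon 0 0 1,[(5,21),(17,10),(4,21),(3,22),(18,8)]⟩),
  (.ca 0,⟨false,[],(12,23),.mon 0 0 1,[(27,11),(15,20),(26,11),(3,8),(12,22)]⟩),
  (.cc 0,⟨false,[],(22,13),.mon 0 0 1,[(9,25),(21,14),(8,25),(7,26),(22,12)]⟩),
  (.ca 0,⟨false,[],(8,19),.mon 0 0 1,[(23,7),(11,16),(22,7),(25,4),(8,18)]⟩),
  (.cc 0,⟨false,[],(26,17),.mon 0 0 1,[(13,3),(25,18),(12,3),(11,4),(26,16)]⟩),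
  (.ca 0,⟨false,[],(4,15),.mon 0 0 1,[(19,3),(7,12),(18,3),(21,26),(4,14)]⟩),
  (.cc 0,⟨false,[],(4,21),.mon 0 0 1,[(17,7),(3,22),(16,7),(15,8),(4,20)]⟩),
  (.ca 0,⟨false,[],(26,11),.mon 0 0 1,[(15,25),(3,8),(14,25),(17,22),(26,10)]⟩),
  (.cc 0,⟨false,[],(8,25),.mon 0 0 1,[(21,11),(7,26),(20,11),(19,12),(8,24)]⟩),
  (.base 1,⟨false,[],(25,18),.mon 0 0 0,[(5,15),(4,15),(16,27),(7,12),(16,26)]⟩),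
  (.comm 0 1 0,⟨false,[],(8,18),.mon 0 0 1,[(7,17)]⟩),
  (.comm 0 12 0,⟨false,[],(2,9),.mon 0 0 2,[]⟩),
  (.ca 0,⟨false,[],(2,23),.mon 0 0 2,[]⟩),
  (.cc 0,⟨false,[],(6,13),.mon 0 0 2,[]⟩),
  (.ca 0,⟨false,[],(24,19),.mon 0 0 2,[]⟩),
  (.base 4,⟨false,[],(7,12),.mon 0 0 0,[(5,15),(19,24),(4,15),(16,27),(16,26)]⟩),
  (.cc 0,⟨false,[],(3,22),.mon 0 0 0,[(5,21),(17,10),(4,21),(18,9),(18,8)]⟩),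
  (.ca 0,⟨false,[],(3,8),.mon 0 0 0,[(27,11),(15,20),(26,11),(12,23),(12,22)]⟩),
  (.comm 7 0 0,⟨false,[],(3,18),.mon 0 0 1,[]⟩),
  (.ca 0,⟨false,[],(3,12),.mon 0 0 1,[]⟩),
  (.cc 0,⟨false,[],(7,22),.mon 0 0 1,[]⟩),
  (.ca 0,⟨false,[],(25,8),.mon 0 0 1,[]⟩),
  (.comm 0 10 0,⟨false,[],(2,24),.mon 0 0 3,[]⟩),
  (.comm 0 8 0,⟨false,[],(2,19),.mon 0 0 5,[]⟩),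
  (.base 0,⟨false,[],(14,4),.mon 0 0 1,[(19,24),(4,15),(16,27),(7,12),(16,26)]⟩),
  (.cc 0,⟨false,[],(20,4),.mon 0 0 1,[(17,10),(4,21),(18,9),(3,22),(18,8)]⟩),
  (.ca 0,⟨false,[],(10,26),.mon 0 0 1,[(15,20),(26,11),(12,23),(3,8),(12,22)]⟩),
  (.cc 0,⟨false,[],(24,8),.mon 0 0 1,[(21,14),(8,25),(22,13),(7,26),(22,12)]⟩),
  (.comm 17 0 0,⟨false,[],(19,25),.mon 0 0 2,[]⟩),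
  (.ca 0,⟨false,[],(13,7),.mon 0 0 2,[]⟩),
  (.cc 0,⟨false,[],(23,3),.mon 0 0 2,[]⟩),
  (.ca 0,⟨false,[],(9,3),.mon 0 0 2,[]⟩),
  (.cc 0,⟨false,[],(27,7),.mon 0 0 2,[]⟩),
  (.ca 0,⟨false,[],(5,25),.mon 0 0 2,[]⟩),
  (.comm 0 11 0,⟨false,[],(2,4),.mon 0 0 5,[]⟩),
  (.comm 21 15 0,⟨false,[],(3,7),.mon 0 0 3,[]⟩),
  (.comm 23 16 0,⟨false,[],(13,23),.mon 0 0 3,[]⟩),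
  (.comm 0 16 0,⟨false,[],(7,12),.mon 0 0 4,[]⟩),
  (.comm 17 25 0,⟨false,[],(2,6),.mon 0 0 3,[]⟩),
  (.comm 0 25 0,⟨false,[],(2,13),.mon 0 0 5,[]⟩),
  (.comm 0 2 0,⟨false,[],(2,6),.mon 0 0 9,[]⟩),
  (.sI 0 5,⟨true,[],(3,18),.mon 0 0 12,[]⟩),
  (.sN 0,⟨true,[],(3,18),.mon 0 0 (-12),[]⟩),
  (.cc 24,⟨false,[],(7,16),.mon 0 0 1,[]⟩),
  (.comm 8 0 0,⟨false,[],(3,16),.mon 0 0 4,[]⟩),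
  (.cc 33,⟨false,[],(6,27),.mon 0 0 2,[]⟩),
  (.ca 0,⟨false,[],(24,5),.mon 0 0 2,[]⟩),
  (.cc 0,⟨false,[],(10,5),.mon 0 0 2,[]⟩),
  (.cc 19,⟨false,[],(17,11),.mon 0 0 2,[]⟩),
  (.ca 0,⟨false,[],(15,21),.mon 0 0 2,[]⟩),
  (.cc 0,⟨false,[],(21,15),.mon 0 0 2,[]⟩),
  (.ca 0,⟨false,[],(11,17),.mon 0 0 2,[]⟩),
  (.comm 0 4 0,⟨false,[],(4,17),.mon 0 0 4,[]⟩),
  (.comm 0 8 0,⟨false,[],(3,5),.mon 0 0 8,[]⟩),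
  (.sI 19 0,⟨true,[],(3,18),.mon 0 0 13,[]⟩),
  (.sA 0 12,⟨true,[],(3,18),.mon 0 0 1,[]⟩),
  (.sF 0 37,⟨false,[],(3,18),.all,[]⟩),
  (.comm 0 22 0,⟨false,[],(5,18),.all,[]⟩),
  (.comm 0 34 0,⟨false,[],(2,4),.all,[]⟩),
  (.comm 36 12 0,⟨false,[],(2,5),.mon 0 0 5,[]⟩),
  (.comm 3 0 0,⟨false,[],(4,18),.all,[]⟩),
  (.comm 0 37 0,⟨false,[],(2,5),.all,[]⟩),
  (.cc 10,⟨false,[],(25,19),.mon 0 0 2,[]⟩),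
  (.comm 0 29 0,⟨false,[],(5,19),.mon 0 0 4,[]⟩),
  (.comm 7 0 0,⟨false,[],(3,4),.all,[]⟩),
  (.comm 2 18 0,⟨false,[],(4,19),.mon 0 0 4,[]⟩),
  (.comm 9 0 0,⟨false,[],(3,5),.all,[]⟩),
  (.cc 10,⟨false,[],(7,16),.all,[]⟩),
  (.comm 0 15 0,⟨false,[],(4,6),.all,[]⟩),
  (.comm 49 57 0,⟨false,[],(8,12),.mon 0 0 3,[]⟩),
  (.comm 56 0 0,⟨false,[],(6,9),.mon 0 0 5,[]⟩),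
  (.comm 0 39 0,⟨false,[],(2,7),.mon 0 0 7,[]⟩),
  (.comm 15 0 0,⟨false,[],(6,18),.all,[]⟩),
  (.comm 0 7 0,⟨false,[],(4,7),.all,[]⟩),
  (.cc 52,⟨false,[],(11,26),.mon 0 0 1,[]⟩),
  (.cc 60,⟨false,[],(10,17),.mon 0 0 2,[]⟩),
  (.comm 0 1 0,⟨false,[],(16,26),.mon 0 0 3,[]⟩),
  (.ca 29,⟨false,[],(20,27),.mon 0 0 2,[]⟩),
  (.ca 3,⟨false,[],(21,4),.mon 0 0 1,[]⟩),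
  (.comm 0 1 0,⟨false,[],(5,27),.mon 0 0 3,[]⟩),
  (.comm 0 3 0,⟨false,[],(5,17),.mon 0 0 6,[]⟩),
  (.comm 13 0 0,⟨false,[],(5,6),.all,[]⟩),
  (.comm 9 18 0,⟨false,[],(5,7),.all,[]⟩)],
  [(24,24),(21,21),(18,18),(16,16),(16,16),(21,21),(18,18),(24,24),(14,14),(9,9),(1,1),(0,0),(0,0),(9,9),(1,1),(14,14)]⟩ = true := by decide +kernel

theorem cDe14 : Fam.chkP .D0 14 1 true true false false false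
  ⟨[],[],[],[((8,27),some (0,0,0)),((17,28),some (0,0,1)),((12,18),some (0,0,1))],0,(8,27),(8,27),(8,27),(8,27),(0,0,0),[(24,7),(17,4),(20,14)],
  [(.base 3,⟨false,[],(8,27),.mon 0 0 0,[(15,21),(5,16),(6,25),(17,28),(12,18)]⟩),
  (.cc 0,⟨false,[],(28,11),.mon 0 0 0,[(23,17),(5,20),(2,13),(21,8),(24,18)]⟩),
  (.ca 0,⟨false,[],(4,23),.mon 0 0 0,[(11,17),(29,12),(2,21),(13,24),(8,14)]⟩),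
  (.cc 0,⟨false,[],(4,15),.mon 0 0 0,[(27,21),(9,24),(6,17),(25,12),(28,22)]⟩),
  (.ca 0,⟨false,[],(28,19),.mon 0 0 0,[(7,13),(25,8),(26,17),(9,20),(4,10)]⟩),
  (.cc 0,⟨false,[],(8,19),.mon 0 0 0,[(3,25),(13,28),(10,21),(29,16),(4,26)]⟩),
  (.ca 0,⟨false,[],(24,15),.mon 0 0 0,[(3,9),(21,4),(22,13),(5,16),(28,6)]⟩),
  (.base 0,⟨false,[],(20,14),.mon 0 0 1,[(5,16),(6,25),(8,27),(17,28),(12,18)]⟩),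
  (.comm 0 1 0,⟨false,[],(20,25),.mon 0 0 1,[(5,14),(24,29),(7,16),(5,25),(17,25)]⟩),
  (.cc 0,⟨false,[],(16,13),.mon 0 0 1,[(5,22),(12,9),(3,20),(5,13),(21,13)]⟩),
  (.ca 0,⟨false,[],(16,21),.mon 0 0 1,[(29,10),(20,25),(3,12),(29,21),(13,21)]⟩),
  (.cc 0,⟨false,[],(20,17),.mon 0 0 1,[(9,26),(16,13),(7,24),(9,17),(25,17)]⟩),
  (.ca 0,⟨false,[],(12,17),.mon 0 0 1,[(25,6),(16,21),(27,8),(25,17),(9,17)]⟩),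
  (.cc 0,⟨false,[],(24,21),.mon 0 0 1,[(13,2),(20,17),(11,28),(13,21),(29,21)]⟩),
  (.ca 0,⟨false,[],(8,13),.mon 0 0 1,[(21,2),(12,17),(23,4),(21,13),(5,13)]⟩),
  (.base 4,⟨false,[],(17,28),.mon 0 0 1,[(15,21),(5,16),(6,25),(8,27),(12,18)]⟩),
  (.cc 0,⟨false,[],(21,8),.mon 0 0 1,[(23,17),(5,20),(2,13),(28,11),(24,18)]⟩),
  (.comm 9 0 0,⟨false,[],(9,14),.mon 0 0 2,[(5,14),(5,22),(21,27),(23,28),(10,16),(15,27),(10,22)]⟩),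
  (.comm 0 3 0,⟨false,[],(12,14),.mon 0 0 3,[(10,13)]⟩),
  (.comm 0 12 0,⟨false,[],(12,25),.mon 0 0 3,[]⟩),
  (.ca 0,⟨false,[],(20,9),.mon 0 0 3,[]⟩),
  (.cc 0,⟨false,[],(16,29),.mon 0 0 3,[]⟩),
  (.ca 0,⟨false,[],(16,5),.mon 0 0 3,[]⟩),
  (.cc 0,⟨false,[],(20,5),.mon 0 0 3,[]⟩),
  (.base 1,⟨false,[],(17,4),.mon 0 0 1,[(15,21),(6,25),(8,27),(17,28),(12,18)]⟩),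
  (.comm 0 1 0,⟨false,[],(17,21),.mon 0 0 4,[]⟩),
  (.ca 0,⟨false,[],(17,13),.mon 0 0 4,[]⟩),
  (.cc 0,⟨false,[],(21,25),.mon 0 0 4,[]⟩),
  (.ca 0,⟨false,[],(13,9),.mon 0 0 4,[]⟩),
  (.cc 0,⟨false,[],(25,29),.mon 0 0 4,[]⟩),
  (.ca 0,⟨false,[],(9,5),.mon 0 0 4,[]⟩),
  (.cc 0,⟨false,[],(29,5),.mon 0 0 4,[]⟩),
  (.comm 7 0 0,⟨false,[],(17,28),.mon 0 0 5,[]⟩),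
  (.comm 0 3 0,⟨false,[],(17,24),.mon 0 0 9,[]⟩),
  (.base 2,⟨false,[],(24,7),.mon 0 0 0,[(15,21),(5,16),(8,27),(17,28),(12,18)]⟩),
  (.comm 0 1 0,⟨false,[],(6,16),.mon 0 0 9,[]⟩),
  (.cc 0,⟨false,[],(2,20),.mon 0 0 9,[]⟩),
  (.ca 0,⟨false,[],(2,12),.mon 0 0 9,[]⟩),
  (.cc 12,⟨false,[],(21,17),.mon 0 0 4,[]⟩),
  (.ca 0,⟨false,[],(13,17),.mon 0 0 4,[]⟩),
  (.cc 0,⟨false,[],(25,21),.mon 0 0 4,[]⟩),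
  (.ca 8,⟨false,[],(17,4),.mon 0 0 5,[]⟩),
  (.cc 0,⟨false,[],(21,4),.mon 0 0 5,[]⟩),
  (.comm 0 2 0,⟨false,[],(5,24),.mon 0 0 9,[]⟩),
  (.comm 9 3 0,⟨false,[],(6,21),.mon 0 0 4,[]⟩),
  (.cc 0,⟨false,[],(2,17),.mon 0 0 4,[]⟩),
  (.comm 0 19 0,⟨false,[],(2,13),.mon 0 0 8,[]⟩),
  (.comm 39 19 0,⟨false,[],(15,25),.mon 0 0 5,[]⟩),
  (.ca 0,⟨false,[],(19,9),.mon 0 0 5,[]⟩),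
  (.cc 0,⟨false,[],(19,29),.mon 0 0 5,[]⟩),
  (.ca 0,⟨false,[],(15,5),.mon 0 0 5,[]⟩),
  (.cc 0,⟨false,[],(23,5),.mon 0 0 5,[]⟩),
  (.comm 27 0 0,⟨false,[],(17,22),.mon 0 0 6,[]⟩),
  (.ca 0,⟨false,[],(17,10),.mon 0 0 6,[]⟩),
  (.cc 0,⟨false,[],(21,26),.mon 0 0 6,[]⟩),
  (.ca 0,⟨false,[],(13,6),.mon 0 0 6,[]⟩),
  (.cc 0,⟨false,[],(25,2),.mon 0 0 6,[]⟩),
  (.comm 22 0 0,⟨false,[],(3,7),.mon 0 0 6,[]⟩),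
  (.comm 0 2 0,⟨false,[],(3,12),.mon 0 0 12,[]⟩),
  (.sI 0 12,⟨true,[],(12,25),.mon 0 0 20,[]⟩),
  (.ca 3,⟨false,[],(9,2),.mon 0 0 6,[]⟩),
  (.comm 0 32 0,⟨false,[],(3,12),.mon 0 0 10,[]⟩),
  (.sI 0 15,⟨true,[],(12,25),.mon 0 0 18,[]⟩),
  (.sN 0,⟨true,[],(12,25),.mon 0 0 (-18),[]⟩),
  (.sA 0 4,⟨true,[],(12,25),.mon 0 0 2,[]⟩),
  (.sF 0 45,⟨false,[],(12,25),.all,[]⟩),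
  (.comm 0 22 0,⟨false,[],(5,13),.all,[]⟩),
  (.comm 0 29 0,⟨false,[],(2,4),.all,[]⟩),
  (.comm 36 38 0,⟨false,[],(4,24),.mon 0 0 8,[]⟩),
  (.comm 3 0 0,⟨false,[],(4,13),.all,[]⟩),
  (.comm 0 32 0,⟨false,[],(2,5),.all,[]⟩),
  (.cc 23,⟨false,[],(23,13),.mon 0 0 5,[]⟩),
  (.ca 0,⟨false,[],(11,21),.mon 0 0 5,[]⟩),
  (.cc 0,⟨false,[],(27,17),.mon 0 0 5,[]⟩),
  (.ca 0,⟨false,[],(7,17),.mon 0 0 5,[]⟩),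
  (.cc 0,⟨false,[],(3,21),.mon 0 0 5,[]⟩),
  (.ca 0,⟨false,[],(3,13),.mon 0 0 5,[]⟩),
  (.cc 44,⟨false,[],(21,8),.mon 0 0 5,[]⟩),
  (.ca 0,⟨false,[],(13,24),.mon 0 0 5,[]⟩),
  (.comm 0 2 0,⟨false,[],(3,24),.mon 0 0 10,[]⟩),
  (.comm 38 40 0,⟨false,[],(5,12),.mon 0 0 9,[]⟩),
  (.comm 15 0 0,⟨false,[],(5,25),.all,[]⟩),
  (.comm 0 2 0,⟨false,[],(3,4),.all,[]⟩),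
  (.comm 52 54 0,⟨false,[],(4,12),.mon 0 0 8,[]⟩),
  (.comm 18 0 0,⟨false,[],(4,25),.all,[]⟩),
  (.comm 0 5 0,⟨false,[],(3,5),.all,[]⟩),
  (.cc 25,⟨false,[],(29,6),.mon 0 0 6,[]⟩),
  (.comm 0 57 0,⟨false,[],(7,24),.mon 0 0 10,[]⟩),
  (.comm 3 0 0,⟨false,[],(4,6),.all,[]⟩),
  (.cc 51,⟨false,[],(6,24),.mon 0 0 9,[]⟩),
  (.comm 5 0 0,⟨false,[],(4,7),.all,[]⟩),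
  (.comm 9 3 0,⟨false,[],(5,6),.all,[]⟩),
  (.comm 10 2 0,⟨false,[],(5,7),.all,[]⟩)],
  [(25,25),(22,22),(10,10),(7,7),(7,7),(22,22),(10,10),(25,25),(4,4),(2,2),(1,1),(0,0),(0,0),(2,2),(1,1),(4,4)]⟩ = true := by decide +kernel

theorem cDew : Fam.chkP .D0 15 8 false true false false false
  ⟨[],[],[],[((16,21),some (0,0,1)),((25,26),some (0,0,0)),((18,23),some (0,0,1))],0,(16,21),(16,21),(16,21),(16,21),(0,0,0),[(16,13),(9,6),(14,11)],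
  [(.base 5,⟨false,[],(18,23),.mon 0 0 1,[(10,15),(7,8),(12,17),(16,21),(25,26)]⟩),
  (.base 2,⟨false,[],(16,13),.mon 0 0 1,[(10,15),(7,8),(16,21),(25,26),(18,23)]⟩),
  (.cc 0,⟨false,[],(20,25),.mon 0 0 1,[(26,23),(31,28),(20,17),(13,10),(18,15)]⟩),
  (.ca 0,⟨false,[],(12,9),.mon 0 0 1,[(6,11),(3,4),(12,17),(21,22),(14,19)]⟩),
  (.base 1,⟨false,[],(9,6),.mon 0 0 0,[(10,15),(12,17),(16,21),(25,26),(18,23)]⟩),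
  (.comm 0 1 0,⟨false,[],(7,13),.mon 0 0 1,[(9,11),(16,22),(18,20),(10,13),(16,19)]⟩),
  (.ca 0,⟨false,[],(27,21),.mon 0 0 1,[(25,23),(16,10),(14,12),(22,21),(16,15)]⟩),
  (.cc 0,⟨false,[],(11,17),.mon 0 0 1,[(13,15),(20,26),(22,24),(14,17),(20,23)]⟩),
  (.ca 0,⟨false,[],(23,17),.mon 0 0 1,[(21,19),(12,6),(10,8),(18,17),(12,11)]⟩),
  (.cc 0,⟨false,[],(15,21),.mon 0 0 1,[(17,19),(24,30),(26,28),(18,21),(24,27)]⟩),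
  (.ca 0,⟨false,[],(19,13),.mon 0 0 1,[(17,15),(8,2),(6,4),(14,13),(8,7)]⟩),
  (.base 4,⟨false,[],(25,26),.mon 0 0 0,[(10,15),(7,8),(12,17),(16,21),(18,23)]⟩),
  (.cc 0,⟨false,[],(13,10),.mon 0 0 0,[(26,23),(31,28),(24,21),(20,17),(18,15)]⟩),
  (.base 0,⟨false,[],(14,11),.mon 0 0 1,[(7,8),(12,17),(16,21),(25,26),(18,23)]⟩),
  (.comm 0 1 0,⟨false,[],(13,15),.mon 0 0 1,[(11,17),(22,24),(20,26),(14,17),(20,23)]⟩),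
  (.comm 0 4 0,⟨false,[],(14,18),.mon 0 0 2,[(11,15)]⟩),
  (.comm 0 15 0,⟨false,[],(14,23),.mon 0 0 3,[]⟩),
  (.ca 0,⟨false,[],(18,11),.mon 0 0 3,[]⟩),
  (.cc 0,⟨false,[],(18,27),.mon 0 0 3,[]⟩),
  (.ca 0,⟨false,[],(14,7),.mon 0 0 3,[]⟩),
  (.comm 15 0 0,⟨false,[],(9,15),.mon 0 0 3,[]⟩),
  (.ca 0,⟨false,[],(25,19),.mon 0 0 3,[]⟩),
  (.cc 0,⟨false,[],(13,19),.mon 0 0 3,[]⟩),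
  (.comm 21 0 0,⟨false,[],(16,19),.mon 0 0 4,[]⟩),
  (.cc 0,⟨false,[],(20,19),.mon 0 0 4,[]⟩),
  (.ca 0,⟨false,[],(12,15),.mon 0 0 4,[]⟩),
  (.cc 0,⟨false,[],(24,23),.mon 0 0 4,[]⟩),
  (.ca 0,⟨false,[],(8,11),.mon 0 0 4,[]⟩),
  (.comm 23 0 0,⟨false,[],(7,11),.mon 0 0 4,[]⟩),
  (.cc 0,⟨false,[],(31,27),.mon 0 0 4,[]⟩),
  (.ca 0,⟨false,[],(3,7),.mon 0 0 4,[]⟩),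
  (.comm 26 0 0,⟨false,[],(3,8),.mon 0 0 4,[]⟩),
  (.ca 0,⟨false,[],(31,24),.mon 0 0 4,[]⟩),
  (.cc 0,⟨false,[],(7,12),.mon 0 0 4,[]⟩),
  (.ca 0,⟨false,[],(27,20),.mon 0 0 4,[]⟩),
  (.cc 0,⟨false,[],(11,16),.mon 0 0 4,[]⟩),
  (.ca 0,⟨false,[],(23,16),.mon 0 0 4,[]⟩),
  (.cc 0,⟨false,[],(15,20),.mon 0 0 4,[]⟩),
  (.ca 0,⟨false,[],(19,12),.mon 0 0 4,[]⟩),
  (.cc 0,⟨false,[],(19,24),.mon 0 0 4,[]⟩),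
  (.comm 38 6 0,⟨false,[],(7,17),.mon 0 0 5,[]⟩),
  (.ca 0,⟨false,[],(27,17),.mon 0 0 5,[]⟩),
  (.cc 0,⟨false,[],(11,21),.mon 0 0 5,[]⟩),
  (.ca 0,⟨false,[],(23,13),.mon 0 0 5,[]⟩),
  (.cc 0,⟨false,[],(15,25),.mon 0 0 5,[]⟩),
  (.comm 0 5 0,⟨false,[],(15,18),.mon 0 0 9,[]⟩),
  (.ca 22,⟨false,[],(16,15),.mon 0 0 4,[]⟩),
  (.cc 0,⟨false,[],(20,23),.mon 0 0 4,[]⟩),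
  (.ca 0,⟨false,[],(12,11),.mon 0 0 4,[]⟩),
  (.cc 0,⟨false,[],(24,27),.mon 0 0 4,[]⟩),
  (.ca 0,⟨false,[],(8,7),.mon 0 0 4,[]⟩),
  (.comm 10 0 0,⟨false,[],(8,17),.mon 0 0 9,[]⟩),
  (.ca 23,⟨false,[],(27,23),.mon 0 0 4,[]⟩),
  (.cc 0,⟨false,[],(11,15),.mon 0 0 4,[]⟩),
  (.ca 0,⟨false,[],(23,19),.mon 0 0 4,[]⟩),
  (.cc 0,⟨false,[],(15,19),.mon 0 0 4,[]⟩),
  (.comm 0 2 0,⟨false,[],(11,19),.mon 0 0 8,[]⟩),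
  (.comm 43 0 0,⟨false,[],(14,19),.mon 0 0 9,[]⟩),
  (.cc 0,⟨false,[],(22,19),.mon 0 0 9,[]⟩),
  (.ca 0,⟨false,[],(10,15),.mon 0 0 9,[]⟩),
  (.cc 0,⟨false,[],(26,23),.mon 0 0 9,[]⟩),
  (.ca 0,⟨false,[],(6,11),.mon 0 0 9,[]⟩),
  (.comm 57 0 0,⟨false,[],(9,11),.mon 0 0 9,[]⟩),
  (.ca 0,⟨false,[],(25,23),.mon 0 0 9,[]⟩),
  (.cc 0,⟨false,[],(13,15),.mon 0 0 9,[]⟩),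
  (.ca 0,⟨false,[],(21,19),.mon 0 0 9,[]⟩),
  (.cc 0,⟨false,[],(17,19),.mon 0 0 9,[]⟩),
  (.ca 0,⟨false,[],(17,15),.mon 0 0 9,[]⟩),
  (.cc 0,⟨false,[],(21,23),.mon 0 0 9,[]⟩),
  (.ca 0,⟨false,[],(13,11),.mon 0 0 9,[]⟩),
  (.comm 68 0 0,⟨false,[],(10,17),.mon 0 0 10,[]⟩),
  (.cc 0,⟨false,[],(26,21),.mon 0 0 10,[]⟩),
  (.ca 0,⟨false,[],(6,13),.mon 0 0 10,[]⟩),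
  (.cc 0,⟨false,[],(30,25),.mon 0 0 10,[]⟩),
  (.ca 0,⟨false,[],(2,9),.mon 0 0 10,[]⟩),
  (.sI 0 43,⟨true,[],(9,15),.mon 0 0 14,[]⟩),
  (.ca 20,⟨false,[],(19,15),.mon 0 0 4,[]⟩),
  (.cc 0,⟨false,[],(19,23),.mon 0 0 4,[]⟩),
  (.ca 0,⟨false,[],(15,11),.mon 0 0 4,[]⟩),
  (.cc 0,⟨false,[],(23,27),.mon 0 0 4,[]⟩),
  (.ca 0,⟨false,[],(11,7),.mon 0 0 4,[]⟩),
  (.cc 0,⟨false,[],(27,31),.mon 0 0 4,[]⟩),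
  (.ca 0,⟨false,[],(7,3),.mon 0 0 4,[]⟩),
  (.comm 0 32 0,⟨false,[],(2,9),.mon 0 0 8,[]⟩),
  (.sI 0 52,⟨true,[],(9,15),.mon 0 0 12,[]⟩),
  (.sN 0,⟨true,[],(9,15),.mon 0 0 (-12),[]⟩),
  (.sA 0 10,⟨true,[],(9,15),.mon 0 0 2,[]⟩),
  (.sF 0 66,⟨false,[],(9,15),.all,[]⟩),
  (.comm 0 36 0,⟨false,[],(14,17),.all,[]⟩),
  (.comm 0 43 0,⟨false,[],(16,18),.all,[]⟩),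
  (.cc 62,⟨false,[],(28,27),.mon 0 0 4,[]⟩),
  (.ca 0,⟨false,[],(4,7),.mon 0 0 4,[]⟩),
  (.comm 87 0 0,⟨false,[],(4,8),.mon 0 0 4,[]⟩),
  (.ca 0,⟨false,[],(28,24),.mon 0 0 4,[]⟩),
  (.cc 0,⟨false,[],(8,12),.mon 0 0 4,[]⟩),
  (.ca 0,⟨false,[],(24,20),.mon 0 0 4,[]⟩),
  (.cc 0,⟨false,[],(12,16),.mon 0 0 4,[]⟩),
  (.ca 0,⟨false,[],(20,16),.mon 0 0 4,[]⟩),
  (.comm 96 0 0,⟨false,[],(12,21),.mon 0 0 5,[]⟩),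
  (.cc 0,⟨false,[],(24,17),.mon 0 0 5,[]⟩),
  (.ca 12,⟨false,[],(25,19),.all,[]⟩),
  (.comm 0 1 0,⟨false,[],(16,19),.all,[]⟩),
  (.comm 5 7 0,⟨false,[],(8,16),.mon 0 0 8,[]⟩),
  (.comm 15 0 0,⟨false,[],(14,16),.all,[]⟩),
  (.comm 0 58 0,⟨false,[],(17,18),.all,[]⟩),
  (.comm 7 9 0,⟨false,[],(17,25),.mon 0 0 8,[]⟩),
  (.comm 5 0 0,⟨false,[],(17,19),.all,[]⟩),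
  (.comm 6 11 0,⟨false,[],(18,20),.all,[]⟩),
  (.comm 8 10 0,⟨false,[],(20,25),.mon 0 0 9,[]⟩),
  (.comm 8 0 0,⟨false,[],(18,21),.all,[]⟩),
  (.cc 12,⟨false,[],(16,20),.mon 0 0 4,[]⟩),
  (.comm 0 8 0,⟨false,[],(8,20),.mon 0 0 12,[]⟩),
  (.comm 24 0 0,⟨false,[],(14,20),.all,[]⟩),
  (.comm 0 67 0,⟨false,[],(19,20),.all,[]⟩),
  (.comm 15 19 0,⟨false,[],(8,21),.mon 0 0 9,[]⟩),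
  (.comm 27 0 0,⟨false,[],(14,21),.all,[]⟩),
  (.comm 0 70 0,⟨false,[],(19,21),.all,[]⟩)],
  [(27,27),(15,15),(12,12),(10,10),(10,10),(15,15),(12,12),(27,27),(9,9),(7,7),(3,3),(0,0),(0,0),(7,7),(3,3),(9,9)]⟩ = true := by decide +kernel

theorem famDe {G L K : Type} [Group G] [AddCommGroup L] [Field K] [Finite K] {S : St G L K}
    {n : ℕ} (R : Frame S .D0 n) (md : ∀ x, Md S.φ x false false false) (h : 7 ≤ n) :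
    IsLeast {n | Good S.Gs n} 3 := by
  by_cases p : 15 ≤ n
  · exact R.poly p (by simp) (md _) cDew
  rw [not_le] at p
  interval_cases n
  · exact R.poly le_rfl (fun _ => rfl) (md _) cDe7
  · exact R.gen (by decide) (md _) cDe8
  · exact R.poly le_rfl (fun _ => rfl) (md _) cDe9
  · exact R.gen (by decide) (md _) cDe10
  · exact R.poly le_rfl (fun _ => rfl) (md _) cDe11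
  · exact R.poly le_rfl (fun _ => rfl) (md _) cDe12
  · exact R.poly le_rfl (fun _ => rfl) (md _) cDe13
  · exact R.poly le_rfl (fun _ => rfl) (md _) cDe14

end Pool.Agent.MP_c78e8e_al.H75

end
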