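import Pool.Agent.MP_c78e8e_al.Sg.Clas

section

namespace Pool.Agent.MP_c78e8e_al.H75

theorem cBo7 : Fam.chkP .D 7 1 true false true false true
  ⟨[(5,7),(8,13)],[],[(15,13),(10,7)],[((10,12),some (0,0,0))],1,(15,1),(5,0),(5,14),(15,1),(1,0,0),[(8,6),(5,0),(15,4)],
  [(.base 1,⟨false,[(15,13),(10,7),(5,7),(8,13)],(5,0),.mon 1 0 0,[(5,14),(7,9),(10,12),(15,1)]⟩),
  (.cc 0,⟨false,[(9,11),(12,3),(4,3),(14,11)],(4,1),.mon 1 0 0,[(4,8),(3,15),(12,10),(9,0)]⟩),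
  (.ca 0,⟨false,[(11,9),(6,2),(14,2),(4,9)],(14,0),.mon 1 0 0,[(14,10),(2,5),(6,8),(11,1)]⟩),
  (.cc 0,⟨false,[(13,15),(2,6),(8,6),(5,15)],(8,1),.mon 1 0 0,[(8,12),(6,4),(2,14),(13,0)]⟩),
  (.base 3,⟨false,[(15,13),(10,7),(5,7),(8,13)],(10,12),.mon 0 0 0,[(5,14),(5,0),(7,9),(15,1)]⟩),
  (.mul 0 1,⟨false,[(15,13),(10,7),(5,7),(8,13),(13,15),(2,6),(8,6),(5,15)],(10,12),.mon 0 0 0,[(5,14),(5,0),(7,9),(15,1),(8,1),(8,12),(6,4),(2,14),(13,0)]⟩),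
  (.sq 0 5,⟨false,[],(10,12),.mon 0 0 0,[(5,0),(7,9),(8,1),(5,7),(2,14),(5,14),(5,9),(5,12),(8,14),(13,14),(8,12)]⟩),
  (.ca 0,⟨false,[],(8,6),.mon 0 0 0,[(15,1),(13,11),(10,0),(15,13),(3,4),(15,4),(15,11),(15,6),(10,4),(7,4),(10,6)]⟩),
  (.cc 0,⟨false,[],(14,2),.mon 0 0 0,[(9,0),(11,13),(12,1),(9,11),(7,5),(9,5),(9,13),(9,2),(12,5),(3,5),(12,2)]⟩),
  (.ca 0,⟨false,[],(4,3),.mon 0 0 0,[(11,1),(9,7),(6,0),(11,9),(13,15),(11,15),(11,7),(11,3),(6,15),(2,15),(6,3)]⟩),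
  (.ca 6,⟨false,[(7,5),(3,12),(10,12),(15,5)],(10,0),.mon 1 0 0,[(10,6),(12,14),(3,4),(7,1)]⟩),
  (.cc 0,⟨false,[(3,4),(7,10),(12,10),(9,4)],(12,1),.mon 1 0 0,[(12,2),(10,8),(7,5),(3,0)]⟩),
  (.mul 7 0,⟨false,[(15,13),(10,7),(5,7),(8,13),(3,4),(7,10),(12,10),(9,4)],(10,12),.mon 0 0 0,[(5,14),(5,0),(7,9),(15,1),(12,1),(12,2),(10,8),(7,5),(3,0)]⟩),
  (.sq 0 1,⟨false,[],(10,12),.mon 0 0 0,[(4,6),(5,14),(5,13),(7,0),(5,6),(3,4),(7,14),(7,11),(10,1),(10,13),(3,11),(12,14),(3,14),(3,13),(5,11),(7,13),(3,6),(10,14)]⟩),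
  (.cc 0,⟨false,[],(12,10),.mon 0 0 0,[(5,2),(4,8),(4,11),(3,1),(4,2),(7,5),(3,8),(3,13),(12,0),(12,11),(7,13),(10,8),(7,8),(7,11),(4,13),(3,11),(7,2),(12,8)]⟩),
  (.ca 0,⟨false,[],(6,8),.mon 0 0 0,[(15,3),(14,10),(14,9),(2,0),(14,3),(13,15),(2,10),(2,7),(6,1),(6,9),(13,7),(8,10),(13,10),(13,9),(14,7),(2,9),(13,3),(6,10)]⟩),
  (.ca 9,⟨false,[],(8,6),.mon 0 0 0,[(15,1),(13,11),(10,0),(15,13),(3,4),(15,4),(15,11),(15,6),(10,4),(7,4),(10,6)]⟩),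
  (.cc 0,⟨false,[],(14,2),.mon 0 0 0,[(9,0),(11,13),(12,1),(9,11),(7,5),(9,5),(9,13),(9,2),(12,5),(3,5),(12,2)]⟩),
  (.ca 0,⟨false,[],(4,3),.mon 0 0 0,[(11,1),(9,7),(6,0),(11,9),(13,15),(11,15),(11,7),(11,3),(6,15),(2,15),(6,3)]⟩),
  (.cc 0,⟨false,[],(5,7),.mon 0 0 0,[(13,0),(15,3),(2,1),(13,15),(11,9),(13,9),(13,3),(13,7),(2,9),(6,9),(2,7)]⟩),
  (.base 2,⟨false,[(15,13),(10,7),(5,7),(8,13)],(8,6),.mon 0 0 0,[(5,14),(5,0),(10,12),(15,1)]⟩),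
  (.mul 0 17,⟨false,[(15,13),(10,7),(5,7),(8,13),(13,15),(2,6),(8,6),(5,15)],(8,6),.mon 0 0 0,[(5,14),(5,0),(10,12),(15,1),(8,1),(8,12),(6,4),(2,14),(13,0)]⟩),
  (.sq 0 5,⟨false,[],(8,6),.mon 0 0 0,[(5,0),(10,12),(8,1),(5,7),(2,14),(5,14),(5,9),(5,12),(8,14),(13,14),(8,12)]⟩),
  (.comm 0 3 0,⟨false,[],(5,9),.mon 0 0 0,[(8,12),(2,9),(5,12),(2,4),(2,12)]⟩),
  (.comm 0 8 0,⟨false,[],(5,7),.mon 0 0 0,[(6,12),(2,7)]⟩),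
  (.comm 0 15 0,⟨false,[],(2,7),.mon 0 0 0,[]⟩),
  (.ca 0,⟨false,[],(3,13),.mon 0 0 0,[]⟩),
  (.cc 0,⟨false,[],(7,11),.mon 0 0 0,[]⟩),
  (.ca 0,⟨false,[],(13,9),.mon 0 0 0,[]⟩),
  (.cc 0,⟨false,[],(11,15),.mon 0 0 0,[]⟩),
  (.comm 0 2 0,⟨false,[],(7,15),.mon 0 0 0,[]⟩),
  (.ca 1,⟨false,[],(9,5),.mon 0 0 0,[]⟩),
  (.cc 0,⟨false,[],(15,4),.mon 0 0 0,[]⟩),
  (.comm 0 2 0,⟨false,[],(5,6),.mon 0 0 0,[]⟩),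
  (.comm 13 8 0,⟨false,[],(2,9),.mon 0 0 0,[]⟩),
  (.comm 0 3 0,⟨false,[],(2,5),.mon 0 0 0,[]⟩),
  (.cc 1,⟨false,[],(6,15),.mon 0 0 0,[]⟩),
  (.comm 0 3 0,⟨false,[],(5,15),.mon 0 0 0,[]⟩),
  (.comm 9 11 0,⟨false,[],(3,9),.mon 0 0 0,[]⟩),
  (.comm 7 0 0,⟨false,[],(3,5),.mon 0 0 0,[]⟩),
  (.comm 13 14 0,⟨false,[],(6,13),.mon 0 0 0,[]⟩),
  (.comm 12 0 0,⟨false,[],(6,9),.mon 0 0 0,[]⟩),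
  (.comm 10 0 0,⟨false,[],(4,7),.mon 0 0 0,[]⟩),
  (.comm 10 11 0,⟨false,[],(9,14),.mon 0 0 0,[]⟩),
  (.comm 23 0 0,⟨false,[],(7,14),.mon 0 0 0,[]⟩),
  (.comm 0 2 0,⟨false,[],(4,14),.mon 0 0 0,[]⟩),
  (.comm 45 0 6,⟨false,[],(5,14),.mon 1 1 0,[(15,0)]⟩),
  (.comm 0 7 0,⟨false,[],(3,14),.mon 1 1 0,[]⟩),
  (.comm 0 10 0,⟨false,[],(3,4),.mon 1 1 0,[]⟩),
  (.sI 0 13,⟨true,[],(2,7),.mon 1 1 0,[]⟩),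
  (.sF 0 24,⟨false,[],(2,7),.all,[]⟩),
  (.comm 0 17 0,⟨false,[],(2,4),.all,[]⟩),
  (.comm 11 24 0,⟨false,[],(10,13),.mon 0 0 0,[]⟩),
  (.comm 0 24 0,⟨false,[],(8,11),.mon 0 0 0,[]⟩),
  (.comm 0 24 0,⟨false,[],(8,15),.mon 0 0 0,[]⟩),
  (.comm 0 23 0,⟨false,[],(4,15),.mon 0 0 0,[]⟩),
  (.comm 11 0 0,⟨false,[],(4,6),.mon 0 0 0,[]⟩),
  (.comm 6 0 0,⟨false,[],(2,5),.all,[]⟩),
  (.ca 13,⟨false,[],(13,4),.mon 0 0 0,[]⟩),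
  (.ca 8,⟨false,[],(3,13),.all,[]⟩),
  (.comm 0 1 0,⟨false,[],(3,4),.all,[]⟩),
  (.comm 29 32 0,⟨false,[],(4,12),.mon 0 0 0,[]⟩),
  (.comm 2 0 0,⟨false,[],(3,5),.all,[]⟩),
  (.spec 5,⟨false,[],(2,5),.mon 0 0 0,[]⟩),
  (.comm 30 2 0,⟨false,[],(7,12),.mon 0 0 0,[]⟩),
  (.comm 5 0 0,⟨false,[],(3,6),.all,[]⟩),
  (.comm 0 2 0,⟨false,[],(4,6),.all,[]⟩),
  (.comm 16 27 0,⟨false,[],(4,7),.all,[]⟩),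
  (.cc 5,⟨false,[],(7,4),.all,[]⟩),
  (.comm 36 39 0,⟨false,[],(5,10),.mon 0 0 0,[]⟩),
  (.ca 35,⟨false,[],(3,11),.mon 0 0 0,[]⟩),
  (.comm 0 1 0,⟨false,[],(3,4),.mon 0 0 0,[]⟩),
  (.comm 21 0 0,⟨false,[],(5,7),.all,[]⟩),
  (.comm 11 40 0,⟨false,[],(13,14),.mon 0 0 0,[]⟩),
  (.comm 14 0 0,⟨false,[],(3,14),.all,[]⟩),
  (.comm 74 12 3,⟨false,[],(3,0),.fs 1,[(3,4),(3,14)]⟩),
  (.drop 0 [15,1],⟨false,[],(3,0),.fs 1,[]⟩),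
  (.comm 26 32 0,⟨false,[],(2,14),.all,[]⟩),
  (.comm 77 20 3,⟨false,[],(2,0),.fs 1,[(2,4),(2,14)]⟩),
  (.drop 0 [27,1],⟨false,[],(2,0),.fs 1,[]⟩),
  (.ca 0,⟨false,[],(3,1),.fs 1,[]⟩),
  (.rho 0,⟨false,[],(3,0),.fs (-1),[]⟩),
  (.fs2 0 5,⟨false,[],(3,0),.all,[]⟩),
  (.ca 0,⟨false,[],(2,1),.all,[]⟩)],
  [(32,32),(26,26),(23,23),(21,21),(21,21),(26,26),(23,23),(32,32),(17,17),(16,16),(15,15),(11,11),(11,11),(16,16),(15,15),(17,17),(0,0),(1,1)]⟩ = true := by decide +kernel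

theorem cBo8 : (Fam.op0 .D 8).check false true false true (Fam.tcG 8)
  ⟨[(3,14),(5,7),(8,17),(11,0)],[(5,16),(3,11)],[],[(14,16),(11,15),(12,15),(6,11),(12,0),(8,17),(5,13)],[(3,13),(11,16),(15,8),(6,1)],(2,4),(3,6),
  ⟨[(3,7)],[],[(14,5)],[((4,16),some (0,0,1))],1,(2,0),(15,1),(2,14),(2,0),(1,0,0),[(6,9),(15,1),(15,3)],
  [(.base 1,⟨false,[(14,5),(3,7)],(15,1),.mon 1 0 0,[(2,14),(6,9),(4,16),(2,0)]⟩),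
  (.cc 0,⟨false,[(9,5),(13,6)],(8,0),.mon 1 0 0,[(12,9),(7,14),(4,11),(12,1)]⟩),
  (.base 3,⟨false,[(14,5),(3,7)],(4,16),.mon 0 0 1,[(2,14),(15,1),(6,9),(2,0)]⟩),
  (.mul 0 1,⟨false,[(14,5),(3,7),(9,5),(13,6)],(4,16),.mon 0 0 1,[(2,14),(15,1),(6,9),(2,0),(8,0),(12,9),(7,14),(4,11),(12,1)]⟩),
  (.sq 0 1,⟨false,[],(4,16),.mon 0 0 1,[(4,11),(2,14),(8,14),(12,14),(2,9),(2,13),(8,13)]⟩),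
  (.cc 0,⟨false,[],(4,11),.mon 0 0 1,[(4,16),(12,9),(15,9),(2,9),(12,14),(12,3),(15,3)]⟩),
  (.ca 0,⟨false,[],(6,10),.mon 0 0 1,[(6,9),(12,16),(2,16),(15,16),(12,3),(12,14),(2,14)]⟩),
  (.cc 0,⟨false,[],(7,17),.mon 0 0 1,[(7,14),(2,11),(12,11),(8,11),(2,13),(2,9),(12,9)]⟩),
  (.comm 3 0 0,⟨false,[],(4,6),.mon 0 0 2,[]⟩),
  (.base 2,⟨false,[(14,5),(3,7)],(6,9),.mon 0 0 1,[(2,14),(15,1),(4,16),(2,0)]⟩),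
  (.comm 0 1 0,⟨false,[],(4,9),.mon 0 0 3,[]⟩),
  (.ca 0,⟨false,[],(6,16),.mon 0 0 3,[]⟩),
  (.cc 0,⟨false,[],(7,11),.mon 0 0 3,[]⟩),
  (.ca 0,⟨false,[],(5,10),.mon 0 0 3,[]⟩),
  (.cc 0,⟨false,[],(5,17),.mon 0 0 3,[]⟩),
  (.ca 0,⟨false,[],(7,8),.mon 0 0 3,[]⟩),
  (.cc 0,⟨false,[],(6,15),.mon 0 0 3,[]⟩),
  (.ca 0,⟨false,[],(4,2),.mon 0 0 3,[]⟩),
  (.cc 7,⟨false,[],(4,14),.mon 0 0 3,[]⟩),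
  (.ca 0,⟨false,[],(6,3),.mon 0 0 3,[]⟩),
  (.cc 0,⟨false,[],(7,13),.mon 0 0 3,[]⟩),
  (.ca 0,⟨false,[],(5,13),.mon 0 0 3,[]⟩),
  (.cc 0,⟨false,[],(5,3),.mon 0 0 3,[]⟩),
  (.sI 0 5,⟨true,[],(4,6),.mon 0 0 6,[]⟩),
  (.sN 0,⟨true,[],(4,6),.mon 0 0 (-6),[]⟩),
  (.ca 16,⟨false,[],(6,4),.mon 0 0 2,[]⟩),
  (.cc 0,⟨false,[],(7,4),.mon 0 0 2,[]⟩),
  (.comm 7 0 0,⟨false,[],(2,4),.mon 0 0 5,[]⟩),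
  (.sI 0 10,⟨true,[],(4,6),.mon 0 0 8,[]⟩),
  (.sA 0 4,⟨true,[],(4,6),.mon 0 0 2,[]⟩),
  (.sF 0 21,⟨false,[],(4,6),.all,[]⟩),
  (.ca 0,⟨false,[],(6,4),.all,[]⟩),
  (.spec 0,⟨false,[],(6,4),.mon 0 0 0,[]⟩),
  (.comm 2 5 0,⟨false,[],(2,6),.all,[]⟩),
  (.comm 0 1 0,⟨false,[],(2,4),.all,[]⟩),
  (.comm 17 9 0,⟨false,[],(3,7),.mon 0 0 5,[]⟩),
  (.comm 5 0 0,⟨false,[],(3,5),.all,[]⟩),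
  (.comm 21 11 0,⟨false,[],(5,8),.mon 0 0 5,[]⟩),
  (.cc 7,⟨false,[],(4,7),.all,[]⟩),
  (.comm 0 1 0,⟨false,[],(6,8),.all,[]⟩),
  (.comm 29 14 0,⟨false,[],(6,9),.mon 0 0 5,[]⟩),
  (.comm 0 14 0,⟨false,[],(5,9),.mon 0 0 7,[]⟩),
  (.comm 11 0 0,⟨false,[],(7,9),.all,[]⟩),
  (.comm 12 2 0,⟨false,[],(4,9),.all,[]⟩),
  (.comm 0 30 0,⟨false,[],(8,10),.all,[]⟩),
  (.comm 32 19 0,⟨false,[],(5,11),.mon 0 0 5,[]⟩),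
  (.comm 15 0 0,⟨false,[],(7,11),.all,[]⟩),
  (.cN 0 4 7,⟨false,[],(9,11),.all,[]⟩),
  (.cc 30,⟨false,[],(4,12),.mon 0 0 3,[]⟩),
  (.ca 0,⟨false,[],(6,12),.mon 0 0 3,[]⟩),
  (.comm 0 23 0,⟨false,[],(5,12),.mon 0 0 5,[]⟩),
  (.cc 42,⟨false,[],(4,7),.mon 0 0 2,[]⟩),
  (.comm 6 0 0,⟨false,[],(6,11),.mon 0 0 7,[]⟩),
  (.comm 22 0 0,⟨false,[],(4,11),.all,[]⟩),
  (.comm 0 3 0,⟨false,[],(10,12),.all,[]⟩),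
  (.comm 41 3 0,⟨false,[],(6,10),.mon 0 0 5,[]⟩),
  (.comm 25 0 0,⟨false,[],(4,10),.all,[]⟩),
  (.comm 0 35 0,⟨false,[],(11,13),.all,[]⟩),
  (.comm 39 32 0,⟨false,[],(6,14),.mon 0 0 5,[]⟩),
  (.comm 28 0 0,⟨false,[],(4,14),.all,[]⟩),
  (.comm 0 38 0,⟨false,[],(12,14),.all,[]⟩),
  (.comm 30 44 0,⟨false,[],(4,15),.all,[]⟩),
  (.comm 0 11 0,⟨false,[],(13,15),.all,[]⟩),
  (.comm 46 36 0,⟨false,[],(5,15),.mon 0 0 5,[]⟩),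
  (.comm 33 52 0,⟨false,[],(4,16),.all,[]⟩),
  (.comm 0 1 0,⟨false,[],(14,16),.all,[]⟩),
  (.comm 6 51 0,⟨false,[],(15,17),.all,[]⟩),
  (.comm 36 47 0,⟨false,[],(2,5),.all,[]⟩),
  (.comm 37 4 0,⟨false,[],(7,15),.all,[]⟩),
  (.ca 0,⟨false,[],(5,2),.all,[]⟩),
  (.comm 31 42 0,⟨false,[],(2,7),.all,[]⟩),
  (.spec 37,⟨false,[],(2,6),.mon 0 0 0,[]⟩),
  (.comm 71 10 3,⟨false,[],(4,1),.fs 1,[(4,14),(2,5)]⟩),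
  (.drop 0 [13,5],⟨false,[],(4,1),.fs 1,[]⟩),
  (.rho 0,⟨false,[],(4,0),.fs (-1),[]⟩),
  (.ca 0,⟨false,[],(6,1),.fs (-1),[]⟩),
  (.rho 0,⟨false,[],(6,0),.fs 1,[]⟩),
  (.comm 18 50 0,⟨false,[],(5,14),.mon 0 0 7,[]⟩),
  (.comm 39 0 0,⟨false,[],(6,14),.all,[]⟩),
  (.comm 40 15 0,⟨false,[],(6,15),.all,[]⟩),
  (.comm 79 0 3,⟨false,[],(6,1),.fs 1,[(6,14),(2,7)]⟩),
  (.drop 0 [2,10],⟨false,[],(6,1),.fs 1,[]⟩),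
  (.rho 0,⟨false,[],(6,0),.fs (-1),[]⟩),
  (.fs2 0 6,⟨false,[],(6,0),.all,[]⟩),
  (.comm 0 12 2,⟨false,[],(2,0),.all,[(2,7)]⟩),
  (.drop 0 [14],⟨false,[],(2,0),.all,[]⟩),
  (.comm 18 35 0,⟨false,[],(2,12),.all,[]⟩),
  (.comm 27 36 0,⟨false,[],(13,14),.all,[]⟩),
  (.comm 87 25 3,⟨false,[],(13,1),.fs 1,[(13,14),(2,12)]⟩),
  (.drop 0 [1,2],⟨false,[],(13,1),.fs 1,[]⟩),
  (.rho 0,⟨false,[],(13,0),.fs (-1),[]⟩),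
  (.cc 0,⟨false,[],(3,1),.fs (-1),[]⟩),
  (.rho 0,⟨false,[],(3,0),.fs 1,[]⟩),
  (.spec 18,⟨false,[],(4,0),.mon (-1) 0 0,[]⟩),
  (.comm 0 24 3,⟨false,[],(3,0),.fs (-1),[(3,5)]⟩),
  (.drop 0 [58],⟨false,[],(3,0),.fs (-1),[]⟩),
  (.fs2 0 3,⟨false,[],(3,0),.all,[]⟩)],
  [(29,29),(27,27),(11,11),(0,0),(62,62),(60,60),(66,66),(65,65),(57,57),(54,54),(52,52),(49,49),(42,42),(39,39),(36,36),(34,34),(31,31),(30,30)]⟩⟩ = true := by decide +kernel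

theorem cBo9 : Fam.chkP .D 9 1 true false true false true
  ⟨[(5,14),(16,18)],[],[(19,8),(6,4)],[((6,19),some (0,0,1))],1,(14,0),(8,1),(8,15),(14,0),(1,0,0),[(16,5),(8,1),(14,9)],
  [(.base 1,⟨false,[(19,8),(6,4),(5,14),(16,18)],(8,1),.mon 1 0 0,[(8,15),(4,17),(6,19),(14,0)]⟩),
  (.cc 0,⟨false,[(9,18),(2,5),(4,12),(10,8)],(18,0),.mon 1 0 0,[(18,13),(5,11),(2,9),(12,1)]⟩),
  (.base 3,⟨false,[(19,8),(6,4),(5,14),(16,18)],(6,19),.mon 0 0 1,[(8,15),(8,1),(4,17),(14,0)]⟩),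
  (.mul 0 1,⟨false,[(19,8),(6,4),(5,14),(16,18),(9,18),(2,5),(4,12),(10,8)],(6,19),.mon 0 0 1,[(8,15),(8,1),(4,17),(14,0),(18,0),(18,13),(5,11),(2,9),(12,1)]⟩),
  (.sq 0 1,⟨false,[],(6,19),.mon 0 0 1,[(2,9),(8,15),(8,19),(8,13),(10,17),(14,19),(12,15),(12,19)]⟩),
  (.cc 0,⟨false,[],(2,9),.mon 0 0 1,[(6,19),(18,13),(18,9),(18,15),(16,11),(12,9),(14,13),(14,9)]⟩),
  (.ca 0,⟨false,[],(3,15),.mon 0 0 1,[(16,5),(4,11),(4,15),(4,9),(6,13),(10,15),(8,11),(8,15)]⟩),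
  (.cc 0,⟨false,[],(7,13),.mon 0 0 1,[(10,4),(5,17),(5,13),(5,19),(2,15),(16,13),(18,17),(18,13)]⟩),
  (.comm 3 0 0,⟨false,[],(12,19),.mon 0 0 2,[]⟩),
  (.ca 0,⟨false,[],(10,5),.mon 0 0 2,[]⟩),
  (.cc 0,⟨false,[],(16,4),.mon 0 0 2,[]⟩),
  (.ca 0,⟨false,[],(6,18),.mon 0 0 2,[]⟩),
  (.cc 0,⟨false,[],(2,8),.mon 0 0 2,[]⟩),
  (.ca 0,⟨false,[],(3,14),.mon 0 0 2,[]⟩),
  (.cc 0,⟨false,[],(7,12),.mon 0 0 2,[]⟩),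
  (.ca 0,⟨false,[],(17,10),.mon 0 0 2,[]⟩),
  (.comm 0 5 0,⟨false,[],(5,10),.mon 0 0 4,[]⟩),
  (.base 2,⟨false,[(19,8),(6,4),(5,14),(16,18)],(16,5),.mon 0 0 1,[(8,15),(8,1),(6,19),(14,0)]⟩),
  (.comm 0 1 0,⟨false,[],(11,17),.mon 0 0 5,[]⟩),
  (.cc 0,⟨false,[],(17,11),.mon 0 0 5,[]⟩),
  (.ca 0,⟨false,[],(7,13),.mon 0 0 5,[]⟩),
  (.comm 3 5 0,⟨false,[],(4,10),.mon 0 0 3,[]⟩),
  (.cc 0,⟨false,[],(5,16),.mon 0 0 3,[]⟩),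
  (.ca 0,⟨false,[],(19,6),.mon 0 0 3,[]⟩),
  (.cc 0,⟨false,[],(9,2),.mon 0 0 3,[]⟩),
  (.ca 0,⟨false,[],(15,3),.mon 0 0 3,[]⟩),
  (.cc 0,⟨false,[],(13,7),.mon 0 0 3,[]⟩),
  (.sI 0 6,⟨true,[],(12,19),.mon 0 0 8,[]⟩),
  (.sN 0,⟨true,[],(12,19),.mon 0 0 (-8),[]⟩),
  (.ca 10,⟨false,[],(13,7),.mon 0 0 5,[]⟩),
  (.sI 0 9,⟨true,[],(12,19),.mon 0 0 10,[]⟩),
  (.sA 0 2,⟨true,[],(12,19),.mon 0 0 2,[]⟩),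
  (.sF 0 23,⟨false,[],(12,19),.all,[]⟩),
  (.cc 0,⟨false,[],(14,9),.all,[]⟩),
  (.comm 0 21 0,⟨false,[],(2,15),.all,[]⟩),
  (.cc 5,⟨false,[],(15,3),.mon 0 0 5,[]⟩),
  (.comm 2 0 0,⟨false,[],(2,9),.all,[]⟩),
  (.comm 23 24 0,⟨false,[],(9,14),.mon 0 0 4,[]⟩),
  (.comm 3 0 0,⟨false,[],(2,8),.all,[]⟩),
  (.comm 38 0 3,⟨false,[],(2,1),.fs 1,[(2,9),(2,15)]⟩),
  (.drop 0 [3,5],⟨false,[],(2,1),.fs 1,[]⟩),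
  (.rho 0,⟨false,[],(2,0),.fs (-1),[]⟩),
  (.ca 0,⟨false,[],(3,1),.fs (-1),[]⟩),
  (.rho 0,⟨false,[],(3,0),.fs 1,[]⟩),
  (.comm 10 19 0,⟨false,[],(3,15),.all,[]⟩),
  (.comm 11 31 0,⟨false,[],(3,9),.all,[]⟩),
  (.comm 1 8 0,⟨false,[],(3,8),.all,[]⟩),
  (.comm 46 0 3,⟨false,[],(3,1),.fs 1,[(3,9),(3,15)]⟩),
  (.drop 0 [2,3],⟨false,[],(3,1),.fs 1,[]⟩),
  (.rho 0,⟨false,[],(3,0),.fs (-1),[]⟩),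
  (.fs2 0 6,⟨false,[],(3,0),.all,[]⟩),
  (.ca 0,⟨false,[],(2,1),.all,[]⟩),
  (.spec 0,⟨false,[],(2,1),.mon 0 0 0,[]⟩),
  (.cc 2,⟨false,[],(7,1),.all,[]⟩),
  (.ca 0,⟨false,[],(17,0),.all,[]⟩),
  (.comm 0 2 1,⟨false,[],(2,16),.all,[]⟩),
  (.cc 14,⟨false,[],(6,1),.fs (-1),[]⟩),
  (.rho 0,⟨false,[],(6,0),.fs 1,[]⟩),
  (.ca 0,⟨false,[],(16,1),.fs 1,[]⟩),
  (.rho 0,⟨false,[],(16,0),.fs (-1),[]⟩),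
  (.spec 0,⟨false,[],(16,0),.mon (-1) 0 0,[]⟩),
  (.rho 10,⟨false,[],(3,1),.all,[]⟩),
  (.comm 0 1 1,⟨false,[],(3,17),.all,[]⟩),
  (.ca 30,⟨false,[],(10,5),.all,[]⟩),
  (.cc 0,⟨false,[],(16,4),.all,[]⟩),
  (.cN 0 2 9,⟨false,[],(2,4),.all,[]⟩),
  (.comm 2 47 0,⟨false,[],(4,17),.all,[]⟩),
  (.cN 0 4 11,⟨false,[],(2,5),.all,[]⟩),
  (.comm 53 56 0,⟨false,[],(13,18),.mon 0 0 4,[]⟩),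
  (.comm 36 45 0,⟨false,[],(7,13),.all,[]⟩),
  (.comm 0 1 0,⟨false,[],(7,18),.all,[]⟩),
  (.ca 0,⟨false,[],(17,4),.all,[]⟩),
  (.spec 0,⟨false,[],(17,4),.mon 0 0 0,[]⟩),
  (.comm 10 0 0,⟨false,[],(3,4),.all,[]⟩),
  (.comm 10 58 0,⟨false,[],(4,16),.all,[]⟩),
  (.spec 0,⟨false,[],(4,16),.mon 0 0 0,[]⟩),
  (.comm 13 0 0,⟨false,[],(3,5),.all,[]⟩),
  (.spec 2,⟨false,[],(4,16),.mon 0 0 0,[]⟩),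
  (.spec 18,⟨false,[],(16,0),.mon (-1) 0 0,[]⟩),
  (.comm 25 0 1,⟨false,[],(7,17),.all,[]⟩),
  (.comm 0 2 0,⟨false,[],(4,6),.all,[]⟩),
  (.cN 23 30 29,⟨false,[],(6,1),.fs 1,[]⟩),
  (.rho 0,⟨false,[],(6,0),.fs (-1),[]⟩),
  (.fs2 0 25,⟨false,[],(6,0),.all,[]⟩),
  (.rho 0,⟨false,[],(6,1),.all,[]⟩),
  (.spec 0,⟨false,[],(6,1),.mon 0 0 0,[]⟩),
  (.comm 31 0 1,⟨false,[],(6,16),.all,[]⟩),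
  (.cN 20 7 0,⟨false,[],(4,7),.all,[]⟩),
  (.spec 16,⟨false,[],(17,4),.mon 0 0 0,[]⟩),
  (.comm 9 0 0,⟨false,[],(5,6),.all,[]⟩),
  (.cN 25 10 3,⟨false,[],(5,7),.all,[]⟩)],
  [(25,25),(23,23),(17,17),(14,14),(14,14),(23,23),(17,17),(25,25),(10,10),(3,3),(1,1),(0,0),(0,0),(3,3),(1,1),(10,10),(39,39),(40,40)]⟩ = true := by decide +kernel

theorem cBo10 : Fam.chkP .D 10 1 true false true false true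
  ⟨[(4,7)],[],[(20,19)],[((16,18),some (0,0,1)),((13,18),some (0,0,0))],1,(21,1),(5,0),(5,20),(21,1),(1,0,0),[(8,6),(13,6),(5,0),(21,4)],
  [(.base 1,⟨false,[(20,19),(4,7)],(5,0),.mon 1 0 0,[(5,20),(7,12),(7,9),(16,18),(13,18),(21,1)]⟩),
  (.cc 0,⟨false,[(8,11),(5,3)],(4,1),.mon 1 0 0,[(4,8),(3,16),(3,21),(12,10),(17,10),(9,0)]⟩),
  (.ca 0,⟨false,[(16,15),(21,2)],(20,0),.mon 1 0 0,[(20,16),(2,8),(2,5),(12,14),(9,14),(17,1)]⟩),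
  (.cc 0,⟨false,[(12,15),(9,6)],(8,1),.mon 1 0 0,[(8,12),(6,20),(6,4),(16,14),(21,14),(13,0)]⟩),
  (.base 5,⟨false,[(20,19),(4,7)],(13,18),.mon 0 0 0,[(5,20),(5,0),(7,12),(7,9),(16,18),(21,1)]⟩),
  (.mul 0 1,⟨false,[(20,19),(4,7),(12,15),(9,6)],(13,18),.mon 0 0 0,[(5,20),(5,0),(7,12),(7,9),(16,18),(21,1),(8,1),(8,12),(6,20),(6,4),(16,14),(21,14),(13,0)]⟩),
  (.sq 0 1,⟨false,[],(13,18),.mon 0 0 0,[(15,20),(5,20),(5,9),(5,12),(13,20),(8,20),(8,12)]⟩),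
  (.ca 0,⟨false,[],(13,6),.mon 0 0 0,[(11,4),(21,4),(21,17),(21,12),(13,4),(16,4),(16,12)]⟩),
  (.cc 0,⟨false,[],(17,2),.mon 0 0 0,[(19,5),(9,5),(9,13),(9,16),(17,5),(12,5),(12,16)]⟩),
  (.ca 0,⟨false,[],(9,3),.mon 0 0 0,[(7,21),(17,21),(17,13),(17,8),(9,21),(12,21),(12,8)]⟩),
  (.cc 0,⟨false,[],(21,7),.mon 0 0 0,[(3,9),(13,9),(13,17),(13,20),(21,9),(16,9),(16,20)]⟩),
  (.ca 0,⟨false,[],(5,19),.mon 0 0 0,[(2,17),(13,17),(13,9),(13,4),(5,17),(8,17),(8,4)]⟩),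
  (.comm 5 0 0,⟨false,[],(5,12),.mon 0 0 0,[]⟩),
  (.cc 0,⟨false,[],(4,16),.mon 0 0 0,[]⟩),
  (.ca 0,⟨false,[],(20,8),.mon 0 0 0,[]⟩),
  (.cc 0,⟨false,[],(8,20),.mon 0 0 0,[]⟩),
  (.ca 0,⟨false,[],(16,4),.mon 0 0 0,[]⟩),
  (.ca 4,⟨false,[],(21,12),.mon 0 0 0,[]⟩),
  (.comm 3 0 0,⟨false,[],(9,12),.mon 0 0 0,[]⟩),
  (.cc 2,⟨false,[],(12,5),.mon 0 0 0,[]⟩),
  (.comm 0 1 0,⟨false,[],(4,8),.mon 0 0 0,[]⟩),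
  (.comm 0 4 0,⟨false,[],(9,17),.mon 0 0 0,[]⟩),
  (.base 3,⟨false,[(20,19),(4,7)],(8,6),.mon 0 0 1,[(5,20),(5,0),(7,12),(16,18),(13,18),(21,1)]⟩),
  (.comm 0 1 0,⟨false,[],(7,17),.mon 0 0 1,[]⟩),
  (.cc 0,⟨false,[],(3,13),.mon 0 0 1,[]⟩),
  (.ca 0,⟨false,[],(2,13),.mon 0 0 1,[]⟩),
  (.comm 3 7 0,⟨false,[],(7,12),.mon 0 0 1,[]⟩),
  (.cc 0,⟨false,[],(3,16),.mon 0 0 1,[]⟩),
  (.comm 0 11 0,⟨false,[],(3,4),.mon 0 0 1,[]⟩),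
  (.ca 9,⟨false,[],(12,21),.mon 0 0 0,[]⟩),
  (.cc 0,⟨false,[],(16,9),.mon 0 0 0,[]⟩),
  (.comm 0 17 0,⟨false,[],(4,9),.mon 0 0 0,[]⟩),
  (.ca 4,⟨false,[],(2,8),.mon 0 0 1,[]⟩),
  (.comm 0 1 0,⟨false,[],(2,5),.mon 0 0 1,[]⟩),
  (.sI 0 5,⟨true,[],(5,12),.mon 0 0 2,[]⟩),
  (.sF 0 22,⟨false,[],(5,12),.all,[]⟩),
  (.comm 0 10 0,⟨false,[],(2,4),.all,[]⟩),
  (.comm 4 6 0,⟨false,[],(2,17),.mon 0 0 1,[]⟩),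
  (.cc 2,⟨false,[],(4,16),.all,[]⟩),
  (.comm 0 1 0,⟨false,[],(2,5),.all,[]⟩),
  (.comm 4 15 0,⟨false,[],(3,4),.all,[]⟩),
  (.cc 23,⟨false,[],(9,16),.mon 0 0 0,[]⟩),
  (.comm 25 0 0,⟨false,[],(5,8),.mon 0 0 0,[]⟩),
  (.comm 20 0 0,⟨false,[],(5,6),.mon 0 0 1,[]⟩),
  (.cc 0,⟨false,[],(4,2),.mon 0 0 1,[]⟩),
  (.comm 0 28 0,⟨false,[],(3,17),.mon 0 0 1,[]⟩),
  (.comm 7 0 0,⟨false,[],(3,5),.all,[]⟩),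
  (.comm 8 23 0,⟨false,[],(4,6),.all,[]⟩),
  (.cc 22,⟨false,[],(6,17),.mon 0 0 1,[]⟩),
  (.comm 10 0 0,⟨false,[],(4,7),.all,[]⟩),
  (.comm 6 30 0,⟨false,[],(7,13),.mon 0 0 1,[]⟩),
  (.comm 15 0 0,⟨false,[],(5,6),.all,[]⟩),
  (.cc 19,⟨false,[],(6,20),.mon 0 0 1,[]⟩),
  (.comm 0 23 0,⟨false,[],(6,13),.mon 0 0 1,[]⟩),
  (.comm 18 0 0,⟨false,[],(5,7),.all,[]⟩),
  (.spec 15,⟨false,[],(2,5),.mon 0 0 0,[]⟩),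
  (.comm 40 14 0,⟨false,[],(17,20),.mon 0 0 0,[]⟩),
  (.comm 0 40 0,⟨false,[],(5,20),.mon 0 0 0,[]⟩),
  (.comm 0 38 0,⟨false,[],(12,20),.mon 0 0 0,[]⟩),
  (.comm 23 0 0,⟨false,[],(5,20),.all,[]⟩),
  (.comm 24 30 0,⟨false,[],(5,21),.all,[]⟩),
  (.ca 25,⟨false,[],(21,12),.all,[]⟩),
  (.comm 0 42 0,⟨false,[],(4,20),.all,[]⟩),
  (.comm 62 0 3,⟨false,[],(21,0),.fs 1,[(5,20)]⟩),
  (.drop 0 [4],⟨false,[],(21,0),.fs 1,[]⟩),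
  (.spec 0,⟨false,[],(21,0),.mon 1 0 0,[]⟩),
  (.comm 0 5 3,⟨false,[],(5,0),.fs 1,[(5,20)]⟩),
  (.drop 0 [7],⟨false,[],(5,0),.fs 1,[]⟩),
  (.ca 3,⟨false,[],(5,1),.fs 1,[]⟩),
  (.rho 0,⟨false,[],(5,0),.fs (-1),[]⟩),
  (.fs2 0 2,⟨false,[],(5,0),.all,[]⟩),
  (.comm 0 15 2,⟨false,[],(2,0),.all,[(2,4)]⟩),
  (.drop 0 [35],⟨false,[],(2,0),.all,[]⟩),
  (.comm 11 48 0,⟨false,[],(3,20),.all,[]⟩),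
  (.comm 73 27 3,⟨false,[],(3,0),.fs 1,[(3,4),(3,20)]⟩),
  (.drop 0 [34,1],⟨false,[],(3,0),.fs 1,[]⟩),
  (.comm 14 25 0,⟨false,[],(7,20),.all,[]⟩),
  (.comm 76 29 3,⟨false,[],(7,0),.fs 1,[(5,6),(7,20)]⟩),
  (.drop 0 [26,1],⟨false,[],(7,0),.fs 1,[]⟩),
  (.cc 0,⟨false,[],(3,1),.fs 1,[]⟩),
  (.rho 0,⟨false,[],(3,0),.fs (-1),[]⟩),
  (.fs2 0 5,⟨false,[],(3,0),.all,[]⟩)],
  [(45,45),(42,42),(41,41),(35,35),(35,35),(42,42),(41,41),(45,45),(34,34),(32,32),(30,30),(27,27),(27,27),(32,32),(30,30),(34,34),(9,9),(0,0)]⟩ = true := by decide +kernel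

theorem cBo11 : Fam.chkP .D 11 1 true false true false true
  ⟨[(18,20)],[(10,1)],[(8,6),(16,0),(16,1)],[((16,18),some (0,0,0))],1,(20,1),(6,0),(6,21),(20,1),(1,0,0),[(10,8),(6,0),(20,7)],
  [(.base 2,⟨false,[(8,6),(16,0),(16,1),(18,20),(10,1),(10,0)],(10,8),.mon 0 0 0,[(6,21),(6,0),(16,18),(20,1)]⟩),
  (.cc 0,⟨false,[(22,2),(14,1),(14,0),(12,10),(20,0),(20,1)],(20,22),.mon 0 0 0,[(2,11),(2,1),(14,12),(10,0)]⟩),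
  (.ca 0,⟨false,[(4,3),(12,0),(12,1),(14,16),(6,1),(6,0)],(6,4),.mon 0 0 0,[(3,17),(3,0),(12,14),(16,1)]⟩),
  (.cc 0,⟨false,[(5,7),(18,1),(18,0),(16,14),(2,0),(2,1)],(2,5),.mon 0 0 0,[(7,15),(7,1),(18,16),(14,0)]⟩),
  (.ca 0,⟨false,[(23,21),(8,0),(8,1),(10,12),(3,1),(3,0)],(3,23),.mon 0 0 0,[(21,13),(21,0),(8,10),(12,1)]⟩),
  (.cc 0,⟨false,[(9,11),(22,1),(22,0),(20,18),(7,0),(7,1)],(7,9),.mon 0 0 0,[(11,19),(11,1),(22,20),(18,0)]⟩),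
  (.ca 0,⟨false,[(19,17),(4,0),(4,1),(6,8),(21,1),(21,0)],(21,19),.mon 0 0 0,[(17,9),(17,0),(4,6),(8,1)]⟩),
  (.cc 0,⟨false,[(13,15),(5,1),(5,0),(2,22),(11,0),(11,1)],(11,13),.mon 0 0 0,[(15,23),(15,1),(5,2),(22,0)]⟩),
  (.comm 7 0 0,⟨false,[],(9,13),.mon 0 0 0,[(6,14),(6,23),(15,21),(20,23)]⟩),
  (.ca 0,⟨false,[],(19,15),.mon 0 0 0,[(20,12),(20,5),(13,7),(6,5)]⟩),
  (.cc 0,⟨false,[],(13,17),.mon 0 0 0,[(10,18),(10,4),(19,3),(2,4)]⟩),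
  (.comm 2 0 0,⟨false,[],(9,17),.mon 0 0 0,[]⟩),
  (.ca 0,⟨false,[],(19,11),.mon 0 0 0,[]⟩),
  (.cc 0,⟨false,[],(13,21),.mon 0 0 0,[]⟩),
  (.ca 0,⟨false,[],(15,7),.mon 0 0 0,[]⟩),
  (.cc 3,⟨false,[],(23,15),.mon 0 0 0,[]⟩),
  (.cc 7,⟨false,[],(23,19),.mon 0 0 0,[(2,16),(2,9),(17,11),(10,9)]⟩),
  (.ca 0,⟨false,[],(5,9),.mon 0 0 0,[(3,10),(3,19),(11,17),(16,19)]⟩),
  (.comm 9 0 0,⟨false,[],(5,13),.mon 0 0 0,[]⟩),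
  (.cc 0,⟨false,[],(4,19),.mon 0 0 0,[]⟩),
  (.ca 0,⟨false,[],(22,9),.mon 0 0 0,[]⟩),
  (.comm 0 5 0,⟨false,[],(8,15),.mon 0 0 0,[]⟩),
  (.comm 0 7 0,⟨false,[],(6,9),.mon 0 0 0,[]⟩),
  (.comm 9 4 0,⟨false,[],(5,21),.mon 0 0 0,[]⟩),
  (.cc 9,⟨false,[],(17,3),.mon 0 0 0,[]⟩),
  (.ca 0,⟨false,[],(11,2),.mon 0 0 0,[]⟩),
  (.cc 0,⟨false,[],(21,6),.mon 0 0 0,[]⟩),
  (.comm 0 3 0,⟨false,[],(5,6),.mon 0 0 0,[]⟩),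
  (.comm 0 5 0,⟨false,[],(5,9),.mon 0 0 0,[]⟩),
  (.comm 28 3 0,⟨false,[],(3,8),.mon 0 0 0,[]⟩),
  (.comm 5 18 0,⟨false,[],(2,8),.mon 0 0 0,[]⟩),
  (.comm 0 8 0,⟨false,[],(2,7),.mon 0 0 0,[]⟩),
  (.comm 0 5 0,⟨false,[],(2,20),.mon 0 0 0,[]⟩),
  (.comm 32 12 0,⟨false,[],(10,23),.mon 0 0 0,[]⟩),
  (.cc 0,⟨false,[],(20,9),.mon 0 0 0,[]⟩),
  (.comm 0 8 0,⟨false,[],(7,9),.mon 0 0 0,[]⟩),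
  (.comm 16 23 0,⟨false,[],(4,11),.mon 0 0 0,[]⟩),
  (.comm 13 0 0,⟨false,[],(10,21),.mon 0 0 0,[]⟩),
  (.comm 12 0 0,⟨false,[],(3,21),.mon 0 0 0,[]⟩),
  (.comm 12 16 0,⟨false,[],(8,20),.mon 0 0 0,[]⟩),
  (.comm 0 1 0,⟨false,[],(3,9),.mon 0 0 0,[]⟩),
  (.comm 40 0 0,⟨false,[],(3,11),.mon 0 0 0,[]⟩),
  (.cc 0,⟨false,[],(7,21),.mon 0 0 0,[]⟩),
  (.base 1,⟨false,[(8,6),(16,0),(16,1),(18,20),(10,1),(10,0)],(6,0),.mon 1 0 0,[(6,21),(9,11),(16,18),(20,1)]⟩),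
  (.comm 0 1 6,⟨false,[],(6,21),.mon 1 1 0,[(20,0)]⟩),
  (.comm 0 9 0,⟨false,[],(8,21),.mon 1 1 0,[]⟩),
  (.comm 0 13 0,⟨false,[],(2,9),.mon 1 1 0,[]⟩),
  (.sI 0 17,⟨true,[],(9,17),.mon 1 1 0,[]⟩),
  (.sF 0 36,⟨false,[],(9,17),.all,[]⟩),
  (.comm 0 24 0,⟨false,[],(2,8),.all,[]⟩),
  (.comm 0 21 0,⟨false,[],(2,4),.all,[]⟩),
  (.comm 25 26 0,⟨false,[],(11,16),.mon 0 0 0,[]⟩),
  (.comm 0 14 0,⟨false,[],(17,21),.mon 0 0 0,[]⟩),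
  (.comm 0 13 0,⟨false,[],(8,16),.mon 0 0 0,[]⟩),
  (.ca 20,⟨false,[],(16,5),.mon 0 0 0,[]⟩),
  (.comm 0 1 0,⟨false,[],(4,9),.mon 0 0 0,[]⟩),
  (.comm 6 0 0,⟨false,[],(2,5),.all,[]⟩),
  (.comm 27 3 0,⟨false,[],(3,16),.mon 0 0 0,[]⟩),
  (.comm 9 29 0,⟨false,[],(5,17),.all,[]⟩),
  (.comm 0 1 0,⟨false,[],(3,4),.all,[]⟩),
  (.comm 34 23 0,⟨false,[],(3,5),.mon 0 0 0,[]⟩),
  (.comm 0 36 0,⟨false,[],(4,16),.mon 0 0 0,[]⟩),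
  (.comm 13 0 0,⟨false,[],(4,8),.all,[]⟩),
  (.comm 0 22 0,⟨false,[],(3,5),.all,[]⟩),
  (.comm 1 28 0,⟨false,[],(4,6),.all,[]⟩),
  (.comm 16 42 0,⟨false,[],(6,17),.all,[]⟩),
  (.comm 0 4 0,⟨false,[],(4,7),.all,[]⟩),
  (.comm 40 29 0,⟨false,[],(7,11),.mon 0 0 0,[]⟩),
  (.comm 0 16 0,⟨false,[],(7,16),.mon 0 0 0,[]⟩),
  (.comm 10 0 0,⟨false,[],(5,6),.all,[]⟩),
  (.comm 69 41 0,⟨false,[],(5,11),.mon 0 0 0,[]⟩),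
  (.comm 0 19 0,⟨false,[],(5,16),.mon 0 0 0,[]⟩),
  (.comm 6 0 0,⟨false,[],(5,7),.all,[]⟩),
  (.comm 52 61 0,⟨false,[],(16,23),.mon 0 0 0,[]⟩),
  (.comm 0 58 0,⟨false,[],(14,17),.mon 0 0 0,[]⟩),
  (.comm 0 50 0,⟨false,[],(2,15),.mon 0 0 0,[]⟩),
  (.comm 0 50 0,⟨false,[],(11,15),.mon 0 0 0,[]⟩),
  (.comm 50 62 0,⟨false,[],(15,20),.mon 0 0 0,[]⟩),
  (.comm 0 1 0,⟨false,[],(11,20),.mon 0 0 0,[]⟩),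
  (.comm 78 56 0,⟨false,[],(6,11),.mon 0 0 0,[]⟩),
  (.cc 0,⟨false,[],(2,21),.mon 0 0 0,[]⟩),
  (.comm 0 2 0,⟨false,[],(2,10),.mon 0 0 0,[]⟩),
  (.ca 33,⟨false,[],(19,11),.all,[]⟩),
  (.comm 0 1 0,⟨false,[],(2,18),.all,[]⟩),
  (.comm 64 65 0,⟨false,[],(12,19),.mon 0 0 0,[]⟩),
  (.comm 0 71 0,⟨false,[],(18,21),.mon 0 0 0,[]⟩),
  (.comm 59 0 0,⟨false,[],(7,19),.mon 0 0 0,[]⟩),
  (.comm 0 64 0,⟨false,[],(8,19),.mon 0 0 0,[]⟩),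
  (.comm 38 0 0,⟨false,[],(2,19),.all,[]⟩),
  (.spec 0,⟨false,[],(2,19),.mon 0 0 0,[]⟩),
  (.comm 59 64 0,⟨false,[],(9,10),.mon 0 0 0,[]⟩),
  (.comm 56 0 0,⟨false,[],(11,21),.mon 0 0 0,[]⟩),
  (.comm 9 0 0,⟨false,[],(19,21),.all,[]⟩),
  (.comm 78 77 0,⟨false,[],(6,22),.mon 0 0 0,[]⟩),
  (.comm 0 20 0,⟨false,[],(6,17),.mon 0 0 0,[]⟩),
  (.comm 43 0 0,⟨false,[],(6,10),.mon 0 0 0,[]⟩),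
  (.comm 13 0 0,⟨false,[],(6,18),.all,[]⟩),
  (.comm 72 23 0,⟨false,[],(2,23),.mon 0 0 0,[]⟩),
  (.comm 0 72 0,⟨false,[],(11,23),.mon 0 0 0,[]⟩),
  (.cc 69,⟨false,[],(7,22),.mon 0 0 0,[]⟩),
  (.comm 0 1 0,⟨false,[],(7,10),.mon 0 0 0,[]⟩),
  (.comm 18 0 0,⟨false,[],(7,18),.all,[]⟩),
  (.comm 58 0 3,⟨false,[],(19,0),.fs 1,[(6,18),(19,21)]⟩),
  (.drop 0 [6,10],⟨false,[],(19,0),.fs 1,[]⟩),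
  (.comm 55 51 0,⟨false,[],(9,21),.all,[]⟩),
  (.comm 25 53 0,⟨false,[],(6,16),.mon 0 0 0,[]⟩),
  (.comm 57 0 0,⟨false,[],(6,8),.all,[]⟩),
  (.comm 58 38 0,⟨false,[],(7,8),.all,[]⟩),
  (.comm 64 0 3,⟨false,[],(9,0),.fs 1,[(6,8),(9,21)]⟩),
  (.drop 0 [2,4],⟨false,[],(9,0),.fs 1,[]⟩),
  (.ca 0,⟨false,[],(19,1),.fs 1,[]⟩),
  (.rho 0,⟨false,[],(19,0),.fs (-1),[]⟩),
  (.fs2 0 8,⟨false,[],(19,0),.all,[]⟩),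
  (.comm 0 23 2,⟨false,[],(2,0),.all,[(2,18)]⟩),
  (.drop 0 [30],⟨false,[],(2,0),.all,[]⟩),
  (.comm 10 74 0,⟨false,[],(3,21),.all,[]⟩),
  (.comm 50 58 0,⟨false,[],(3,7),.all,[]⟩),
  (.comm 9 76 0,⟨false,[],(3,6),.all,[]⟩),
  (.comm 74 0 3,⟨false,[],(3,0),.fs 1,[(3,7),(3,21)]⟩),
  (.drop 0 [2,3],⟨false,[],(3,0),.fs 1,[]⟩),
  (.comm 70 85 0,⟨false,[],(2,21),.all,[]⟩),
  (.comm 71 98 0,⟨false,[],(2,7),.all,[]⟩),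
  (.comm 72 86 0,⟨false,[],(2,6),.all,[]⟩),
  (.comm 79 0 3,⟨false,[],(2,0),.fs 1,[(2,7),(2,21)]⟩),
  (.drop 0 [2,3],⟨false,[],(2,0),.fs 1,[]⟩),
  (.ca 0,⟨false,[],(3,1),.fs 1,[]⟩),
  (.rho 0,⟨false,[],(3,0),.fs (-1),[]⟩),
  (.fs2 0 7,⟨false,[],(3,0),.all,[]⟩)],
  [(77,77),(71,71),(68,68),(64,64),(64,64),(71,71),(68,68),(77,77),(63,63),(61,61),(58,58),(55,55),(55,55),(61,61),(58,58),(63,63),(13,13),(0,0)]⟩ = true := by decide +kernel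

theorem cBo12 : Fam.chkP .D 12 1 true false true false true
  ⟨[(7,8)],[],[(23,20)],[((8,15),some (0,0,0)),((8,13),some (0,0,0))],1,(23,1),(7,0),(7,22),(23,1),(1,0,0),[(20,15),(20,17),(7,0),(23,6)],
  [(.base 1,⟨false,[(23,20),(7,8)],(7,0),.mon 1 0 0,[(7,22),(16,21),(14,21),(8,15),(8,13),(23,1)]⟩),
  (.cc 0,⟨false,[(11,12),(3,24)],(3,1),.mon 1 0 0,[(3,10),(16,13),(18,13),(24,19),(24,21),(11,0)]⟩),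
  (.base 5,⟨false,[(23,20),(7,8)],(8,13),.mon 0 0 0,[(7,22),(7,0),(16,21),(14,21),(8,15),(23,1)]⟩),
  (.mul 0 1,⟨false,[(23,20),(7,8),(11,12),(3,24)],(8,13),.mon 0 0 0,[(7,22),(7,0),(16,21),(14,21),(8,15),(23,1),(3,1),(3,10),(16,13),(18,13),(24,19),(24,21),(11,0)]⟩),
  (.sq 0 1,⟨false,[],(8,13),.mon 0 0 0,[(20,25),(7,22),(3,6),(7,10),(3,22),(11,22),(3,10)]⟩),
  (.cc 0,⟨false,[],(24,21),.mon 0 0 0,[(12,9),(3,10),(7,2),(3,22),(7,10),(23,10),(7,22)]⟩),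
  (.ca 0,⟨false,[],(4,9),.mon 0 0 0,[(16,21),(2,18),(23,3),(2,6),(23,18),(7,18),(23,6)]⟩),
  (.cc 0,⟨false,[],(5,25),.mon 0 0 0,[(16,13),(6,14),(11,7),(6,2),(11,14),(3,14),(11,2)]⟩),
  (.ca 0,⟨false,[],(25,5),.mon 0 0 0,[(12,17),(22,14),(19,23),(22,3),(19,14),(2,14),(19,3)]⟩),
  (.cc 0,⟨false,[],(9,4),.mon 0 0 0,[(20,17),(10,18),(15,11),(10,7),(15,18),(6,18),(15,7)]⟩),
  (.ca 0,⟨false,[],(21,24),.mon 0 0 0,[(8,13),(18,10),(15,19),(18,23),(15,10),(22,10),(15,23)]⟩),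
  (.cc 0,⟨false,[],(13,8),.mon 0 0 0,[(24,21),(14,22),(19,15),(14,11),(19,22),(10,22),(19,11)]⟩),
  (.ca 0,⟨false,[],(17,20),.mon 0 0 0,[(4,9),(14,6),(11,15),(14,19),(11,6),(18,6),(11,19)]⟩),
  (.cc 0,⟨false,[],(17,12),.mon 0 0 0,[(5,25),(18,2),(23,19),(18,15),(23,2),(14,2),(23,15)]⟩),
  (.comm 9 0 0,⟨false,[],(8,16),.mon 0 0 0,[]⟩),
  (.cc 0,⟨false,[],(24,16),.mon 0 0 0,[]⟩),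
  (.ca 0,⟨false,[],(4,12),.mon 0 0 0,[]⟩),
  (.cc 0,⟨false,[],(5,20),.mon 0 0 0,[]⟩),
  (.ca 0,⟨false,[],(25,8),.mon 0 0 0,[]⟩),
  (.comm 0 4 0,⟨false,[],(17,24),.mon 0 0 0,[]⟩),
  (.base 2,⟨false,[(23,20),(7,8)],(20,17),.mon 0 0 0,[(7,22),(7,0),(14,21),(8,15),(8,13),(23,1)]⟩),
  (.comm 0 1 0,⟨false,[],(20,24),.mon 0 0 0,[]⟩),
  (.cc 0,⟨false,[],(12,8),.mon 0 0 0,[]⟩),
  (.ca 0,⟨false,[],(16,20),.mon 0 0 0,[]⟩),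
  (.base 3,⟨false,[(23,20),(7,8)],(20,15),.mon 0 0 0,[(7,22),(7,0),(16,21),(8,15),(8,13),(23,1)]⟩),
  (.comm 0 1 0,⟨false,[],(14,17),.mon 0 0 0,[]⟩),
  (.cc 0,⟨false,[],(18,17),.mon 0 0 0,[]⟩),
  (.ca 0,⟨false,[],(10,13),.mon 0 0 0,[]⟩),
  (.cc 0,⟨false,[],(22,21),.mon 0 0 0,[]⟩),
  (.ca 0,⟨false,[],(6,9),.mon 0 0 0,[]⟩),
  (.cc 0,⟨false,[],(2,25),.mon 0 0 0,[]⟩),
  (.comm 0 12 0,⟨false,[],(2,8),.mon 0 0 0,[]⟩),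
  (.ca 17,⟨false,[],(20,12),.mon 0 0 0,[]⟩),
  (.cc 0,⟨false,[],(12,20),.mon 0 0 0,[]⟩),
  (.ca 0,⟨false,[],(16,8),.mon 0 0 0,[]⟩),
  (.comm 14 20 0,⟨false,[],(8,21),.mon 0 0 0,[]⟩),
  (.comm 0 1 0,⟨false,[],(16,21),.mon 0 0 0,[]⟩),
  (.comm 0 19 0,⟨false,[],(5,17),.mon 0 0 0,[]⟩),
  (.comm 2 20 0,⟨false,[],(5,9),.mon 0 0 0,[]⟩),
  (.ca 8,⟨false,[],(3,5),.mon 0 0 0,[]⟩),
  (.comm 0 1 0,⟨false,[],(3,9),.mon 0 0 0,[]⟩),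
  (.comm 23 24 0,⟨false,[],(13,20),.mon 0 0 0,[]⟩),
  (.comm 20 8 0,⟨false,[],(12,24),.mon 0 0 0,[]⟩),
  (.comm 0 1 0,⟨false,[],(21,24),.mon 0 0 0,[]⟩),
  (.comm 15 0 0,⟨false,[],(22,24),.mon 0 0 0,[]⟩),
  (.comm 14 0 0,⟨false,[],(2,23),.mon 0 0 0,[]⟩),
  (.comm 25 30 0,⟨false,[],(20,25),.mon 0 0 0,[]⟩),
  (.comm 0 29 0,⟨false,[],(5,25),.mon 0 0 0,[]⟩),
  (.comm 0 29 0,⟨false,[],(5,8),.mon 0 0 0,[]⟩),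
  (.ca 23,⟨false,[],(14,13),.mon 0 0 0,[]⟩),
  (.cc 0,⟨false,[],(18,21),.mon 0 0 0,[]⟩),
  (.ca 0,⟨false,[],(10,9),.mon 0 0 0,[]⟩),
  (.cc 0,⟨false,[],(22,25),.mon 0 0 0,[]⟩),
  (.ca 0,⟨false,[],(6,5),.mon 0 0 0,[]⟩),
  (.comm 0 5 0,⟨false,[],(6,8),.mon 0 0 0,[]⟩),
  (.comm 20 39 0,⟨false,[],(9,25),.mon 0 0 0,[]⟩),
  (.comm 26 0 0,⟨false,[],(6,25),.mon 0 0 0,[]⟩),
  (.cc 17,⟨false,[],(7,4),.mon 0 0 0,[]⟩),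
  (.ca 0,⟨false,[],(23,24),.mon 0 0 0,[]⟩),
  (.comm 0 2 0,⟨false,[],(6,22),.mon 0 0 0,[]⟩),
  (.comm 59 0 6,⟨false,[],(7,22),.mon 1 1 0,[(23,0)]⟩),
  (.comm 0 6 0,⟨false,[],(9,22),.mon 1 1 0,[]⟩),
  (.comm 0 16 0,⟨false,[],(2,8),.mon 1 1 0,[]⟩),
  (.sI 0 22,⟨true,[],(8,16),.mon 1 1 0,[]⟩),
  (.sF 0 49,⟨false,[],(8,16),.all,[]⟩),
  (.comm 0 27 0,⟨false,[],(5,9),.all,[]⟩),
  (.comm 0 34 0,⟨false,[],(2,4),.all,[]⟩),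
  (.cc 31,⟨false,[],(24,13),.mon 0 0 0,[]⟩),
  (.ca 0,⟨false,[],(4,17),.mon 0 0 0,[]⟩),
  (.comm 4 0 0,⟨false,[],(4,9),.all,[]⟩),
  (.comm 0 38 0,⟨false,[],(2,5),.all,[]⟩),
  (.comm 31 22 0,⟨false,[],(3,8),.mon 0 0 0,[]⟩),
  (.comm 6 0 0,⟨false,[],(3,4),.all,[]⟩),
  (.comm 3 1 0,⟨false,[],(3,5),.all,[]⟩),
  (.cc 20,⟨false,[],(2,4),.mon 0 0 0,[]⟩),
  (.ca 0,⟨false,[],(3,24),.mon 0 0 0,[]⟩),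
  (.cc 0,⟨false,[],(7,8),.mon 0 0 0,[]⟩),
  (.comm 7 0 0,⟨false,[],(4,6),.all,[]⟩),
  (.comm 8 23 0,⟨false,[],(4,7),.all,[]⟩),
  (.comm 13 2 0,⟨false,[],(5,6),.all,[]⟩),
  (.comm 14 25 0,⟨false,[],(5,7),.all,[]⟩),
  (.comm 50 38 0,⟨false,[],(2,13),.mon 0 0 0,[]⟩),
  (.ca 17,⟨false,[],(20,12),.all,[]⟩),
  (.comm 0 1 0,⟨false,[],(2,21),.all,[]⟩),
  (.comm 19 60 0,⟨false,[],(8,20),.all,[]⟩),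
  (.comm 0 53 0,⟨false,[],(2,20),.all,[]⟩),
  (.spec 0,⟨false,[],(2,20),.mon 0 0 0,[]⟩),
  (.comm 28 19 0,⟨false,[],(12,22),.mon 0 0 0,[]⟩),
  (.comm 5 0 0,⟨false,[],(20,22),.all,[]⟩),
  (.cc 54,⟨false,[],(16,24),.mon 0 0 0,[]⟩),
  (.ca 0,⟨false,[],(12,4),.mon 0 0 0,[]⟩),
  (.cc 0,⟨false,[],(20,5),.mon 0 0 0,[]⟩),
  (.comm 0 58 0,⟨false,[],(4,13),.mon 0 0 0,[]⟩),
  (.comm 35 0 0,⟨false,[],(7,13),.mon 0 0 0,[]⟩),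
  (.comm 11 0 0,⟨false,[],(7,21),.all,[]⟩),
  (.comm 65 72 0,⟨false,[],(6,13),.mon 0 0 0,[]⟩),
  (.comm 13 0 0,⟨false,[],(6,21),.all,[]⟩),
  (.comm 96 0 3,⟨false,[],(20,0),.fs 1,[(7,21),(20,22)]⟩),
  (.drop 0 [3,9],⟨false,[],(20,0),.fs 1,[]⟩),
  (.ca 7,⟨false,[],(8,25),.mon 0 0 0,[]⟩),
  (.comm 0 65 0,⟨false,[],(16,25),.mon 0 0 0,[]⟩),
  (.comm 42 0 0,⟨false,[],(16,22),.mon 0 0 0,[]⟩),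
  (.comm 37 0 0,⟨false,[],(8,22),.all,[]⟩),
  (.comm 45 34 0,⟨false,[],(7,17),.mon 0 0 0,[]⟩),
  (.comm 39 0 0,⟨false,[],(7,9),.all,[]⟩),
  (.comm 75 70 0,⟨false,[],(6,17),.mon 0 0 0,[]⟩),
  (.comm 41 0 0,⟨false,[],(6,9),.all,[]⟩),
  (.comm 106 0 3,⟨false,[],(8,0),.fs 1,[(7,9),(8,22)]⟩),
  (.drop 0 [3,5],⟨false,[],(8,0),.fs 1,[]⟩),
  (.ca 0,⟨false,[],(20,1),.fs 1,[]⟩),
  (.rho 0,⟨false,[],(20,0),.fs (-1),[]⟩),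
  (.fs2 0 12,⟨false,[],(20,0),.all,[]⟩),
  (.comm 0 25 2,⟨false,[],(2,0),.all,[(2,21)]⟩),
  (.drop 0 [29],⟨false,[],(2,0),.all,[]⟩),
  (.comm 55 58 0,⟨false,[],(9,22),.mon 0 0 0,[]⟩),
  (.comm 75 77 0,⟨false,[],(3,17),.mon 0 0 0,[]⟩),
  (.comm 51 0 0,⟨false,[],(3,9),.all,[]⟩),
  (.comm 0 2 0,⟨false,[],(3,22),.all,[]⟩),
  (.comm 1 41 0,⟨false,[],(3,6),.all,[]⟩),
  (.comm 12 47 0,⟨false,[],(3,7),.all,[]⟩),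
  (.comm 119 0 3,⟨false,[],(3,0),.fs 1,[(3,6),(3,22)]⟩),
  (.drop 0 [2,3],⟨false,[],(3,0),.fs 1,[]⟩),
  (.comm 91 32 0,⟨false,[],(2,17),.mon 0 0 0,[]⟩),
  (.comm 58 0 0,⟨false,[],(2,9),.all,[]⟩),
  (.comm 0 9 0,⟨false,[],(2,22),.all,[]⟩),
  (.comm 1 48 0,⟨false,[],(2,6),.all,[]⟩),
  (.comm 19 94 0,⟨false,[],(2,7),.all,[]⟩),
  (.comm 126 0 3,⟨false,[],(2,0),.fs 1,[(2,6),(2,22)]⟩),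
  (.drop 0 [2,3],⟨false,[],(2,0),.fs 1,[]⟩),
  (.ca 0,⟨false,[],(3,1),.fs 1,[]⟩),
  (.rho 0,⟨false,[],(3,0),.fs (-1),[]⟩),
  (.fs2 0 9,⟨false,[],(3,0),.all,[]⟩)],
  [(65,65),(61,61),(59,59),(58,58),(58,58),(61,61),(59,59),(65,65),(54,54),(53,53),(52,52),(51,51),(51,51),(53,53),(52,52),(54,54),(18,18),(0,0)]⟩ = true := by decide +kernel

theorem cBo13 : Fam.chkP .D 13 1 true false true false true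
  ⟨[(23,25),(15,17)],[],[(9,7),(17,15)],[((6,11),some (0,0,0))],1,(9,0),(23,1),(9,22),(9,0),(1,0,0),[(24,21),(23,1),(23,8)],
  [(.base 1,⟨false,[(9,7),(17,15),(23,25),(15,17)],(23,1),.mon 1 0 0,[(9,22),(20,25),(6,11),(9,0)]⟩),
  (.cc 0,⟨false,[(27,3),(19,21),(13,11),(21,19)],(13,0),.mon 1 0 0,[(27,12),(14,11),(2,25),(27,1)]⟩),
  (.base 3,⟨false,[(9,7),(17,15),(23,25),(15,17)],(6,11),.mon 0 0 0,[(9,22),(23,1),(20,25),(9,0)]⟩),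
  (.mul 0 1,⟨false,[(9,7),(17,15),(23,25),(15,17),(27,3),(19,21),(13,11),(21,19)],(6,11),.mon 0 0 0,[(9,22),(23,1),(20,25),(9,0),(13,0),(27,12),(14,11),(2,25),(27,1)]⟩),
  (.sq 0 1,⟨false,[],(6,11),.mon 0 0 0,[(2,25),(9,22),(13,22),(23,26),(9,12),(9,26),(13,26)]⟩),
  (.cc 0,⟨false,[],(2,25),.mon 0 0 0,[(6,11),(27,12),(23,12),(13,8),(27,22),(27,8),(23,8)]⟩),
  (.ca 0,⟨false,[],(3,7),.mon 0 0 0,[(24,21),(5,18),(9,18),(19,22),(5,8),(5,22),(9,22)]⟩),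
  (.cc 0,⟨false,[],(7,3),.mon 0 0 0,[(10,15),(4,16),(27,16),(17,12),(4,26),(4,12),(27,12)]⟩),
  (.comm 3 0 0,⟨false,[],(2,11),.mon 0 0 0,[]⟩),
  (.ca 0,⟨false,[],(3,21),.mon 0 0 0,[]⟩),
  (.cc 0,⟨false,[],(7,15),.mon 0 0 0,[]⟩),
  (.ca 0,⟨false,[],(25,17),.mon 0 0 0,[]⟩),
  (.cc 0,⟨false,[],(11,19),.mon 0 0 0,[]⟩),
  (.ca 0,⟨false,[],(21,13),.mon 0 0 0,[]⟩),
  (.cc 0,⟨false,[],(15,23),.mon 0 0 0,[]⟩),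
  (.ca 0,⟨false,[],(17,9),.mon 0 0 0,[]⟩),
  (.cc 7,⟨false,[],(6,25),.mon 0 0 0,[]⟩),
  (.comm 6 0 0,⟨false,[],(14,25),.mon 0 0 0,[]⟩),
  (.comm 0 6 0,⟨false,[],(14,17),.mon 0 0 0,[]⟩),
  (.comm 4 0 0,⟨false,[],(16,23),.mon 0 0 0,[]⟩),
  (.comm 0 4 0,⟨false,[],(8,23),.mon 0 0 0,[]⟩),
  (.cc 5,⟨false,[],(19,27),.mon 0 0 0,[]⟩),
  (.ca 0,⟨false,[],(13,5),.mon 0 0 0,[]⟩),
  (.cc 0,⟨false,[],(23,4),.mon 0 0 0,[]⟩),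
  (.comm 0 3 0,⟨false,[],(5,9),.mon 0 0 0,[]⟩),
  (.comm 3 12 0,⟨false,[],(11,27),.mon 0 0 0,[]⟩),
  (.ca 2,⟨false,[],(9,26),.mon 0 0 0,[]⟩),
  (.comm 0 1 0,⟨false,[],(9,10),.mon 0 0 0,[]⟩),
  (.comm 0 3 0,⟨false,[],(5,10),.mon 0 0 0,[]⟩),
  (.comm 16 20 0,⟨false,[],(2,19),.mon 0 0 0,[]⟩),
  (.comm 8 0 0,⟨false,[],(2,27),.mon 0 0 0,[]⟩),
  (.comm 15 19 0,⟨false,[],(8,24),.mon 0 0 0,[]⟩),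
  (.comm 5 0 0,⟨false,[],(25,26),.mon 0 0 0,[]⟩),
  (.comm 0 2 0,⟨false,[],(2,24),.mon 0 0 0,[]⟩),
  (.comm 11 20 0,⟨false,[],(4,20),.mon 0 0 0,[]⟩),
  (.base 2,⟨false,[(9,7),(17,15),(23,25),(15,17)],(24,21),.mon 0 0 0,[(9,22),(23,1),(6,11),(9,0)]⟩),
  (.comm 0 1 0,⟨false,[],(4,25),.mon 0 0 0,[]⟩),
  (.comm 0 3 0,⟨false,[],(2,5),.mon 0 0 0,[]⟩),
  (.comm 24 28 0,⟨false,[],(3,13),.mon 0 0 0,[]⟩),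
  (.comm 16 0 0,⟨false,[],(3,5),.mon 0 0 0,[]⟩),
  (.comm 15 0 0,⟨false,[],(3,9),.mon 0 0 0,[]⟩),
  (.comm 5 27 0,⟨false,[],(12,25),.mon 0 0 0,[]⟩),
  (.cc 0,⟨false,[],(22,11),.mon 0 0 0,[]⟩),
  (.comm 0 14 0,⟨false,[],(5,23),.mon 0 0 0,[]⟩),
  (.comm 1 16 0,⟨false,[],(9,23),.mon 0 0 0,[]⟩),
  (.comm 44 0 6,⟨false,[],(9,22),.mon 1 1 0,[(9,1)]⟩),
  (.comm 0 2 0,⟨false,[],(5,8),.mon 1 1 0,[]⟩),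
  (.comm 0 6 0,⟨false,[],(3,4),.mon 1 1 0,[]⟩),
  (.sI 0 10,⟨true,[],(2,11),.mon 1 1 0,[]⟩),
  (.sF 0 40,⟨false,[],(2,11),.all,[]⟩),
  (.comm 0 21 0,⟨false,[],(2,4),.all,[]⟩),
  (.comm 18 25 0,⟨false,[],(11,24),.mon 0 0 0,[]⟩),
  (.comm 15 0 0,⟨false,[],(4,10),.mon 0 0 0,[]⟩),
  (.comm 3 0 0,⟨false,[],(2,5),.all,[]⟩),
  (.comm 29 19 0,⟨false,[],(8,20),.mon 0 0 0,[]⟩),
  (.comm 0 27 0,⟨false,[],(11,20),.mon 0 0 0,[]⟩),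
  (.cc 19,⟨false,[],(5,11),.mon 0 0 0,[]⟩),
  (.comm 0 1 0,⟨false,[],(5,20),.mon 0 0 0,[]⟩),
  (.ca 8,⟨false,[],(3,21),.all,[]⟩),
  (.comm 0 1 0,⟨false,[],(3,4),.all,[]⟩),
  (.comm 1 25 0,⟨false,[],(3,5),.all,[]⟩),
  (.comm 34 45 0,⟨false,[],(17,26),.mon 0 0 0,[]⟩),
  (.comm 0 36 0,⟨false,[],(11,16),.mon 0 0 0,[]⟩),
  (.comm 48 52 0,⟨false,[],(7,23),.mon 0 0 0,[]⟩),
  (.comm 40 0 0,⟨false,[],(5,6),.mon 0 0 0,[]⟩),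
  (.comm 0 30 0,⟨false,[],(7,20),.mon 0 0 0,[]⟩),
  (.comm 30 54 0,⟨false,[],(16,21),.mon 0 0 0,[]⟩),
  (.comm 0 1 0,⟨false,[],(7,17),.mon 0 0 0,[]⟩),
  (.comm 0 5 0,⟨false,[],(7,10),.mon 0 0 0,[]⟩),
  (.comm 19 29 0,⟨false,[],(4,11),.all,[]⟩),
  (.comm 0 1 0,⟨false,[],(4,6),.all,[]⟩),
  (.comm 61 62 0,⟨false,[],(10,21),.mon 0 0 0,[]⟩),
  (.comm 59 0 0,⟨false,[],(18,21),.mon 0 0 0,[]⟩),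
  (.comm 0 59 0,⟨false,[],(12,19),.mon 0 0 0,[]⟩),
  (.comm 52 0 0,⟨false,[],(12,27),.mon 0 0 0,[]⟩),
  (.comm 0 52 0,⟨false,[],(4,27),.mon 0 0 0,[]⟩),
  (.comm 43 0 0,⟨false,[],(4,24),.mon 0 0 0,[]⟩),
  (.cc 27,⟨false,[],(6,25),.all,[]⟩),
  (.comm 0 1 0,⟨false,[],(4,7),.all,[]⟩),
  (.comm 14 39 0,⟨false,[],(3,6),.mon 0 0 0,[]⟩),
  (.comm 30 0 0,⟨false,[],(7,11),.all,[]⟩),
  (.comm 0 52 0,⟨false,[],(5,6),.all,[]⟩),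
  (.comm 25 30 0,⟨false,[],(5,24),.mon 0 0 0,[]⟩),
  (.comm 5 0 0,⟨false,[],(5,7),.all,[]⟩),
  (.comm 34 56 0,⟨false,[],(2,8),.all,[]⟩),
  (.comm 50 61 0,⟨false,[],(21,22),.mon 0 0 0,[]⟩),
  (.comm 50 0 0,⟨false,[],(23,25),.mon 0 0 0,[]⟩),
  (.comm 0 35 0,⟨false,[],(11,22),.mon 0 0 0,[]⟩),
  (.comm 38 0 0,⟨false,[],(2,22),.all,[]⟩),
  (.comm 62 68 0,⟨false,[],(22,26),.mon 0 0 0,[]⟩),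
  (.comm 0 64 0,⟨false,[],(11,23),.mon 0 0 0,[]⟩),
  (.comm 41 0 0,⟨false,[],(2,23),.all,[]⟩),
  (.comm 91 0 3,⟨false,[],(2,1),.fs 1,[(2,22),(2,8)]⟩),
  (.drop 0 [4,8],⟨false,[],(2,1),.fs 1,[]⟩),
  (.rho 0,⟨false,[],(2,0),.fs (-1),[]⟩),
  (.ca 0,⟨false,[],(3,1),.fs (-1),[]⟩),
  (.rho 0,⟨false,[],(3,0),.fs 1,[]⟩),
  (.ca 10,⟨false,[],(9,7),.mon 0 0 0,[]⟩),
  (.comm 0 32 0,⟨false,[],(9,20),.mon 0 0 0,[]⟩),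
  (.comm 40 0 0,⟨false,[],(3,8),.all,[]⟩),
  (.comm 41 14 0,⟨false,[],(3,22),.all,[]⟩),
  (.comm 58 45 0,⟨false,[],(21,23),.mon 0 0 0,[]⟩),
  (.comm 43 0 0,⟨false,[],(3,23),.all,[]⟩),
  (.comm 102 0 3,⟨false,[],(3,1),.fs 1,[(3,22),(3,8)]⟩),
  (.drop 0 [3,4],⟨false,[],(3,1),.fs 1,[]⟩),
  (.rho 0,⟨false,[],(3,0),.fs (-1),[]⟩),
  (.fs2 0 9,⟨false,[],(3,0),.all,[]⟩),
  (.ca 0,⟨false,[],(2,1),.all,[]⟩)],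
  [(57,57),(54,54),(48,48),(47,47),(47,47),(54,54),(48,48),(57,57),(37,37),(29,29),(26,26),(24,24),(24,24),(29,29),(26,26),(37,37),(0,0),(1,1)]⟩ = true := by decide +kernel

theorem cBo14 : Fam.chkP .D 14 1 true false true false true
  ⟨[(13,29),(18,27)],[],[(21,5),(14,7)],[((4,22),some (0,0,0))],1,(12,1),(20,0),(12,21),(12,1),(1,0,0),[(28,10),(20,0),(20,13)],
  [(.base 1,⟨false,[(21,5),(14,7),(13,29),(18,27)],(20,0),.mon 1 0 0,[(12,21),(11,29),(4,22),(12,1)]⟩),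
  (.cc 0,⟨false,[(17,4),(22,3),(25,9),(18,11)],(16,1),.mon 1 0 0,[(24,17),(27,9),(5,14),(24,0)]⟩),
  (.ca 0,⟨false,[(17,28),(10,2),(9,25),(14,23)],(16,0),.mon 1 0 0,[(8,17),(7,25),(29,18),(8,1)]⟩),
  (.cc 0,⟨false,[(21,8),(26,6),(29,13),(22,15)],(20,1),.mon 1 0 0,[(28,21),(3,13),(9,18),(28,0)]⟩),
  (.ca 0,⟨false,[(13,24),(6,26),(5,21),(10,19)],(12,0),.mon 1 0 0,[(4,13),(2,21),(25,14),(4,1)]⟩),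
  (.cc 0,⟨false,[(25,12),(2,10),(4,17),(26,19)],(24,1),.mon 1 0 0,[(5,25),(6,17),(13,22),(5,0)]⟩),
  (.ca 0,⟨false,[(9,20),(3,22),(28,17),(6,15)],(8,0),.mon 1 0 0,[(29,9),(26,17),(21,10),(29,1)]⟩),
  (.cc 0,⟨false,[(29,16),(7,14),(8,21),(2,23)],(28,1),.mon 1 0 0,[(9,29),(10,21),(17,26),(9,0)]⟩),
  (.ca 0,⟨false,[(5,16),(27,18),(24,13),(3,11)],(4,0),.mon 1 0 0,[(25,5),(22,13),(17,6),(25,1)]⟩),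
  (.cc 0,⟨false,[(4,20),(11,18),(12,25),(7,27)],(5,1),.mon 1 0 0,[(13,4),(14,25),(21,2),(13,0)]⟩),
  (.ca 0,⟨false,[(28,12),(23,14),(20,9),(27,7)],(29,0),.mon 1 0 0,[(21,28),(18,9),(13,3),(21,1)]⟩),
  (.cc 0,⟨false,[(8,24),(15,22),(16,29),(11,3)],(9,1),.mon 1 0 0,[(17,8),(18,29),(25,7),(17,0)]⟩),
  (.base 3,⟨false,[(21,5),(14,7),(13,29),(18,27)],(4,22),.mon 0 0 0,[(12,21),(20,0),(11,29),(12,1)]⟩),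
  (.mul 0 1,⟨false,[(21,5),(14,7),(13,29),(18,27),(8,24),(15,22),(16,29),(11,3)],(4,22),.mon 0 0 0,[(12,21),(20,0),(11,29),(12,1),(9,1),(17,8),(18,29),(25,7),(17,0)]⟩),
  (.sq 0 1,⟨false,[],(4,22),.mon 0 0 0,[(6,24),(12,21),(9,21),(17,21),(9,13),(12,16),(9,16)]⟩),
  (.ca 0,⟨false,[],(28,10),.mon 0 0 0,[(26,8),(20,13),(25,13),(17,13),(25,21),(20,16),(25,16)]⟩),
  (.cc 0,⟨false,[],(8,26),.mon 0 0 0,[(10,28),(16,25),(13,25),(21,25),(13,17),(16,20),(13,20)]⟩),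
  (.ca 0,⟨false,[],(24,6),.mon 0 0 0,[(22,4),(16,9),(21,9),(13,9),(21,17),(16,12),(21,12)]⟩),
  (.cc 0,⟨false,[],(12,2),.mon 0 0 0,[(14,5),(20,29),(17,29),(25,29),(17,21),(20,24),(17,24)]⟩),
  (.ca 0,⟨false,[],(20,3),.mon 0 0 0,[(18,29),(12,5),(17,5),(9,5),(17,13),(12,8),(17,8)]⟩),
  (.cc 0,⟨false,[],(16,7),.mon 0 0 0,[(18,9),(24,4),(21,4),(29,4),(21,25),(24,28),(21,28)]⟩),
  (.ca 0,⟨false,[],(16,27),.mon 0 0 0,[(14,25),(8,28),(13,28),(5,28),(13,9),(8,4),(13,4)]⟩),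
  (.cc 0,⟨false,[],(20,11),.mon 0 0 0,[(22,13),(28,8),(25,8),(4,8),(25,29),(28,5),(25,5)]⟩),
  (.ca 0,⟨false,[],(12,23),.mon 0 0 0,[(10,21),(4,24),(9,24),(28,24),(9,5),(4,29),(9,29)]⟩),
  (.comm 9 0 0,⟨false,[],(4,13),.mon 0 0 0,[]⟩),
  (.ca 0,⟨false,[],(28,21),.mon 0 0 0,[]⟩),
  (.cc 0,⟨false,[],(8,17),.mon 0 0 0,[]⟩),
  (.ca 0,⟨false,[],(24,17),.mon 0 0 0,[]⟩),
  (.cc 3,⟨false,[],(5,25),.mon 0 0 0,[]⟩),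
  (.ca 0,⟨false,[],(29,9),.mon 0 0 0,[]⟩),
  (.cc 0,⟨false,[],(9,29),.mon 0 0 0,[]⟩),
  (.ca 0,⟨false,[],(25,5),.mon 0 0 0,[]⟩),
  (.comm 0 4 0,⟨false,[],(4,17),.mon 0 0 0,[]⟩),
  (.cc 1,⟨false,[],(13,4),.mon 0 0 0,[]⟩),
  (.ca 0,⟨false,[],(21,28),.mon 0 0 0,[]⟩),
  (.cc 0,⟨false,[],(17,8),.mon 0 0 0,[]⟩),
  (.comm 0 6 0,⟨false,[],(17,28),.mon 0 0 0,[]⟩),
  (.comm 0 4 0,⟨false,[],(4,28),.mon 0 0 0,[]⟩),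
  (.base 2,⟨false,[(21,5),(14,7),(13,29),(18,27)],(28,10),.mon 0 0 0,[(12,21),(20,0),(4,22),(12,1)]⟩),
  (.comm 0 1 0,⟨false,[],(4,10),.mon 0 0 0,[]⟩),
  (.cc 0,⟨false,[],(5,26),.mon 0 0 0,[]⟩),
  (.ca 0,⟨false,[],(29,6),.mon 0 0 0,[]⟩),
  (.cc 0,⟨false,[],(9,2),.mon 0 0 0,[]⟩),
  (.ca 0,⟨false,[],(25,3),.mon 0 0 0,[]⟩),
  (.cc 16,⟨false,[],(12,21),.mon 0 0 0,[]⟩),
  (.comm 11 0 0,⟨false,[],(5,21),.mon 0 0 0,[]⟩),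
  (.comm 0 11 0,⟨false,[],(5,28),.mon 0 0 0,[]⟩),
  (.comm 11 14 0,⟨false,[],(4,8),.mon 0 0 0,[]⟩),
  (.comm 0 1 0,⟨false,[],(9,28),.mon 0 0 0,[]⟩),
  (.comm 10 0 0,⟨false,[],(9,10),.mon 0 0 0,[]⟩),
  (.cc 0,⟨false,[],(29,26),.mon 0 0 0,[]⟩),
  (.ca 0,⟨false,[],(5,6),.mon 0 0 0,[]⟩),
  (.cc 0,⟨false,[],(4,2),.mon 0 0 0,[]⟩),
  (.ca 17,⟨false,[],(17,24),.mon 0 0 0,[]⟩),
  (.cc 0,⟨false,[],(21,12),.mon 0 0 0,[]⟩),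
  (.comm 0 29 0,⟨false,[],(13,29),.mon 0 0 0,[]⟩),
  (.comm 17 26 0,⟨false,[],(8,10),.mon 0 0 0,[]⟩),
  (.cc 0,⟨false,[],(28,26),.mon 0 0 0,[]⟩),
  (.ca 0,⟨false,[],(4,6),.mon 0 0 0,[]⟩),
  (.cc 0,⟨false,[],(5,2),.mon 0 0 0,[]⟩),
  (.ca 0,⟨false,[],(29,3),.mon 0 0 0,[]⟩),
  (.comm 0 5 0,⟨false,[],(2,12),.mon 0 0 0,[]⟩),
  (.comm 31 35 0,⟨false,[],(16,29),.mon 0 0 0,[]⟩),
  (.comm 28 0 0,⟨false,[],(16,20),.mon 0 0 0,[]⟩),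
  (.comm 10 35 0,⟨false,[],(5,16),.mon 0 0 0,[]⟩),
  (.comm 0 1 0,⟨false,[],(5,20),.mon 0 0 0,[]⟩),
  (.comm 37 41 0,⟨false,[],(12,25),.mon 0 0 0,[]⟩),
  (.comm 13 0 0,⟨false,[],(12,16),.mon 0 0 0,[]⟩),
  (.comm 0 4 0,⟨false,[],(12,20),.mon 0 0 0,[]⟩),
  (.comm 68 0 6,⟨false,[],(12,21),.mon 1 1 0,[(12,0)]⟩),
  (.comm 0 4 0,⟨false,[],(5,13),.mon 1 1 0,[]⟩),
  (.comm 0 9 0,⟨false,[],(2,4),.mon 1 1 0,[]⟩),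
  (.sI 0 19,⟨true,[],(4,13),.mon 1 1 0,[]⟩),
  (.sF 0 48,⟨false,[],(4,13),.all,[]⟩),
  (.cc 0,⟨false,[],(5,25),.all,[]⟩),
  (.comm 0 31 0,⟨false,[],(2,4),.all,[]⟩),
  (.comm 2 14 0,⟨false,[],(2,5),.all,[]⟩),
  (.comm 38 40 0,⟨false,[],(11,16),.mon 0 0 0,[]⟩),
  (.cc 0,⟨false,[],(27,20),.mon 0 0 0,[]⟩),
  (.ca 0,⟨false,[],(7,12),.mon 0 0 0,[]⟩),
  (.cc 0,⟨false,[],(3,24),.mon 0 0 0,[]⟩),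
  (.comm 6 0 0,⟨false,[],(3,4),.all,[]⟩),
  (.comm 52 56 0,⟨false,[],(8,21),.mon 0 0 0,[]⟩),
  (.comm 47 0 0,⟨false,[],(17,21),.mon 0 0 0,[]⟩),
  (.comm 0 51 0,⟨false,[],(4,21),.mon 0 0 0,[]⟩),
  (.comm 0 30 0,⟨false,[],(4,12),.mon 0 0 0,[]⟩),
  (.comm 26 0 0,⟨false,[],(3,12),.mon 0 0 0,[]⟩),
  (.comm 13 0 0,⟨false,[],(3,5),.all,[]⟩),
  (.comm 14 8 0,⟨false,[],(4,6),.all,[]⟩),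
  (.cc 45,⟨false,[],(13,7),.mon 0 0 0,[]⟩),
  (.comm 16 0 0,⟨false,[],(4,7),.all,[]⟩),
  (.comm 27 45 0,⟨false,[],(5,17),.mon 0 0 0,[]⟩),
  (.comm 0 38 0,⟨false,[],(5,24),.mon 0 0 0,[]⟩),
  (.comm 34 0 0,⟨false,[],(7,24),.mon 0 0 0,[]⟩),
  (.comm 19 0 0,⟨false,[],(5,6),.all,[]⟩),
  (.comm 41 68 0,⟨false,[],(8,24),.mon 0 0 0,[]⟩),
  (.cc 35,⟨false,[],(9,7),.mon 0 0 0,[]⟩),
  (.comm 0 1 0,⟨false,[],(6,24),.mon 0 0 0,[]⟩),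
  (.comm 23 0 0,⟨false,[],(5,7),.all,[]⟩),
  (.comm 45 36 0,⟨false,[],(25,29),.mon 0 0 0,[]⟩),
  (.comm 45 33 0,⟨false,[],(21,25),.mon 0 0 0,[]⟩),
  (.comm 0 1 0,⟨false,[],(21,29),.mon 0 0 0,[]⟩),
  (.comm 41 0 0,⟨false,[],(2,20),.mon 0 0 0,[]⟩),
  (.ca 29,⟨false,[],(28,21),.all,[]⟩),
  (.comm 0 1 0,⟨false,[],(2,29),.all,[]⟩),
  (.comm 31 58 0,⟨false,[],(12,28),.all,[]⟩),
  (.comm 0 44 0,⟨false,[],(2,28),.all,[]⟩),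
  (.spec 0,⟨false,[],(2,28),.mon 0 0 0,[]⟩),
  (.comm 43 45 0,⟨false,[],(5,29),.mon 0 0 0,[]⟩),
  (.comm 35 0 0,⟨false,[],(12,29),.all,[]⟩),
  (.comm 6 44 0,⟨false,[],(5,29),.all,[]⟩),
  (.comm 78 77 0,⟨false,[],(13,17),.mon 0 0 0,[]⟩),
  (.comm 75 0 0,⟨false,[],(13,28),.mon 0 0 0,[]⟩),
  (.comm 39 0 0,⟨false,[],(4,28),.all,[]⟩),
  (.comm 40 59 0,⟨false,[],(4,20),.all,[]⟩),
  (.cN 0 1 4,⟨false,[],(21,29),.all,[]⟩),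
  (.comm 115 0 3,⟨false,[],(28,0),.fs 1,[(20,29),(12,29)]⟩),
  (.drop 0 [13,7],⟨false,[],(28,0),.fs 1,[]⟩),
  (.comm 34 6 0,⟨false,[],(13,21),.mon 0 0 0,[]⟩),
  (.comm 45 0 0,⟨false,[],(4,21),.all,[]⟩),
  (.comm 119 5 3,⟨false,[],(4,0),.fs 1,[(4,21),(4,13)]⟩),
  (.drop 0 [1,47],⟨false,[],(4,0),.fs 1,[]⟩),
  (.ca 0,⟨false,[],(28,1),.fs 1,[]⟩),
  (.rho 0,⟨false,[],(28,0),.fs (-1),[]⟩),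
  (.fs2 0 6,⟨false,[],(28,0),.all,[]⟩),
  (.comm 0 17 2,⟨false,[],(2,0),.all,[(2,29)]⟩),
  (.drop 0 [21],⟨false,[],(2,0),.all,[]⟩),
  (.comm 53 67 0,⟨false,[],(3,13),.all,[]⟩),
  (.comm 68 90 0,⟨false,[],(3,28),.mon 0 0 0,[]⟩),
  (.comm 25 0 0,⟨false,[],(3,21),.all,[]⟩),
  (.comm 56 64 0,⟨false,[],(12,20),.all,[]⟩),
  (.comm 0 44 0,⟨false,[],(3,20),.all,[]⟩),
  (.comm 131 0 3,⟨false,[],(3,0),.fs 1,[(3,21),(3,13)]⟩),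
  (.drop 0 [3,5],⟨false,[],(3,0),.fs 1,[]⟩),
  (.comm 60 82 0,⟨false,[],(7,13),.all,[]⟩),
  (.comm 31 93 0,⟨false,[],(7,21),.all,[]⟩),
  (.comm 5 56 0,⟨false,[],(7,20),.all,[]⟩),
  (.comm 136 0 3,⟨false,[],(7,0),.fs 1,[(7,21),(7,13)]⟩),
  (.drop 0 [2,3],⟨false,[],(7,0),.fs 1,[]⟩),
  (.cc 0,⟨false,[],(3,1),.fs 1,[]⟩),
  (.rho 0,⟨false,[],(3,0),.fs (-1),[]⟩),
  (.fs2 0 7,⟨false,[],(3,0),.all,[]⟩)],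
  [(66,66),(65,65),(60,60),(54,54),(54,54),(65,65),(60,60),(66,66),(53,53),(51,51),(47,47),(43,43),(43,43),(51,51),(47,47),(53,53),(15,15),(0,0)]⟩ = true := by decide +kernel

theorem cBo15 : Fam.chkP .D 15 1 true false true false true
  ⟨[(20,31),(19,29)],[],[(14,5),(17,7)],[((8,21),some (0,0,0)),((7,9),some (0,0,1)),((12,15),some (0,0,0))],1,(7,0),(29,1),(7,28),(7,0),(1,0,0),[(26,15),(29,27),(22,21),(29,1),(29,6)],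
  [(.base 1,⟨false,[(14,5),(17,7),(20,31),(19,29)],(29,1),.mon 1 0 0,[(7,28),(20,23),(26,28),(14,27),(8,21),(7,9),(12,15),(7,0)]⟩),
  (.cc 0,⟨false,[(24,4),(23,3),(18,9),(21,11)],(11,0),.mon 1 0 0,[(3,10),(18,17),(12,10),(24,13),(30,19),(3,31),(26,25),(3,1)]⟩),
  (.ca 0,⟨false,[(10,30),(13,2),(16,27),(15,25)],(25,1),.mon 1 0 0,[(2,24),(16,19),(22,24),(10,23),(4,17),(2,5),(8,11),(2,0)]⟩),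
  (.cc 0,⟨false,[(28,8),(27,6),(22,13),(25,15)],(15,0),.mon 1 0 0,[(6,14),(22,21),(16,14),(28,17),(5,23),(6,4),(30,29),(6,1)]⟩),
  (.ca 0,⟨false,[(6,26),(9,28),(12,23),(11,21)],(21,1),.mon 1 0 0,[(28,20),(12,15),(18,20),(6,19),(31,13),(28,30),(4,7),(28,0)]⟩),
  (.cc 0,⟨false,[(2,12),(31,10),(26,17),(29,19)],(19,0),.mon 1 0 0,[(10,18),(26,25),(20,18),(2,21),(9,27),(10,8),(5,3),(10,1)]⟩),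
  (.base 7,⟨false,[(14,5),(17,7),(20,31),(19,29)],(12,15),.mon 0 0 0,[(7,28),(29,1),(20,23),(26,28),(14,27),(8,21),(7,9),(7,0)]⟩),
  (.mul 0 1,⟨false,[(14,5),(17,7),(20,31),(19,29),(2,12),(31,10),(26,17),(29,19)],(12,15),.mon 0 0 0,[(7,28),(29,1),(20,23),(26,28),(14,27),(8,21),(7,9),(7,0),(19,0),(10,18),(26,25),(20,18),(2,21),(9,27),(10,8),(5,3),(10,1)]⟩),
  (.sq 0 5,⟨false,[],(12,15),.mon 0 0 0,[(29,1),(14,27),(19,0),(2,21),(2,4),(7,28),(19,28),(10,28),(20,27),(10,21),(7,27),(7,11),(7,18),(10,18)]⟩),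
  (.cc 0,⟨false,[],(26,25),.mon 0 0 0,[(11,0),(24,13),(21,1),(6,19),(6,5),(3,10),(21,10),(28,10),(18,13),(28,19),(3,13),(3,29),(3,20),(28,20)]⟩),
  (.ca 0,⟨false,[],(8,11),.mon 0 0 0,[(25,1),(10,23),(15,0),(28,17),(28,31),(2,24),(15,24),(6,24),(16,23),(6,17),(2,23),(2,7),(2,14),(6,14)]⟩),
  (.cc 0,⟨false,[],(30,29),.mon 0 0 0,[(15,0),(28,17),(25,1),(10,23),(10,9),(6,14),(25,14),(2,14),(22,17),(2,23),(6,17),(6,3),(6,24),(2,24)]⟩),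
  (.ca 0,⟨false,[],(4,7),.mon 0 0 0,[(21,1),(6,19),(11,0),(24,13),(24,27),(28,20),(11,20),(3,20),(12,19),(3,13),(28,19),(28,2),(28,10),(3,10)]⟩),
  (.cc 0,⟨false,[],(5,3),.mon 0 0 0,[(19,0),(2,21),(29,1),(14,27),(14,13),(10,18),(29,18),(7,18),(26,21),(7,27),(10,21),(10,6),(10,28),(7,28)]⟩),
  (.ca 0,⟨false,[],(31,2),.mon 0 0 0,[(17,1),(3,15),(7,0),(20,9),(20,23),(24,16),(7,16),(29,16),(8,15),(29,9),(24,15),(24,28),(24,6),(29,6)]⟩),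
  (.cc 0,⟨false,[],(9,6),.mon 0 0 0,[(23,0),(7,25),(3,1),(18,31),(18,17),(14,22),(3,22),(11,22),(30,25),(11,31),(14,25),(14,10),(14,2),(11,2)]⟩),
  (.ca 7,⟨false,[],(22,21),.mon 0 0 0,[(7,0),(20,9),(17,1),(3,15),(3,30),(29,6),(17,6),(24,6),(14,9),(24,15),(29,9),(29,25),(29,16),(24,16)]⟩),
  (.cc 0,⟨false,[],(16,19),.mon 0 0 0,[(3,1),(18,31),(23,0),(7,25),(7,8),(11,2),(23,2),(14,2),(24,31),(14,25),(11,31),(11,15),(11,22),(14,22)]⟩),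
  (.ca 0,⟨false,[],(18,17),.mon 0 0 0,[(2,0),(16,5),(13,1),(29,11),(29,26),(25,3),(13,3),(20,3),(10,5),(20,11),(25,5),(25,21),(25,12),(20,12)]⟩),
  (.cc 0,⟨false,[],(20,23),.mon 0 0 0,[(6,1),(22,4),(27,0),(11,29),(11,12),(15,7),(27,7),(18,7),(28,4),(18,29),(15,4),(15,19),(15,26),(18,26)]⟩),
  (.ca 0,⟨false,[],(14,13),.mon 0 0 0,[(28,0),(12,30),(9,1),(25,7),(25,22),(21,29),(9,29),(16,29),(6,30),(16,7),(21,30),(21,17),(21,8),(16,8)]⟩),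
  (.cc 0,⟨false,[],(24,27),.mon 0 0 0,[(10,1),(26,8),(31,0),(15,3),(15,16),(19,11),(31,11),(22,11),(2,8),(22,3),(19,8),(19,23),(19,30),(22,30)]⟩),
  (.ca 0,⟨false,[],(10,9),.mon 0 0 0,[(24,0),(8,26),(5,1),(21,2),(21,18),(17,25),(5,25),(12,25),(3,26),(12,2),(17,26),(17,13),(17,4),(12,4)]⟩),
  (.cc 0,⟨false,[],(28,31),.mon 0 0 0,[(14,1),(30,12),(4,0),(19,6),(19,20),(23,15),(4,15),(26,15),(7,12),(26,6),(23,12),(23,27),(23,5),(26,5)]⟩),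
  (.ca 0,⟨false,[],(6,5),.mon 0 0 0,[(20,0),(4,22),(30,1),(17,28),(17,14),(13,21),(30,21),(8,21),(29,22),(8,28),(13,22),(13,9),(13,31),(8,31)]⟩),
  (.base 6,⟨false,[(14,5),(17,7),(20,31),(19,29)],(7,9),.mon 0 0 1,[(7,28),(29,1),(20,23),(26,28),(14,27),(8,21),(12,15),(7,0)]⟩),
  (.mul 0 24,⟨false,[(14,5),(17,7),(20,31),(19,29),(24,4),(23,3),(18,9),(21,11)],(7,9),.mon 0 0 1,[(7,28),(29,1),(20,23),(26,28),(14,27),(8,21),(12,15),(7,0),(11,0),(3,10),(18,17),(12,10),(24,13),(30,19),(3,31),(26,25),(3,1)]⟩),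
  (.sq 0 1,⟨false,[],(7,9),.mon 0 0 1,[(3,31),(7,28),(11,28),(3,28),(7,10),(3,6),(3,10)]⟩),
  (.comm 0 3 0,⟨false,[],(4,9),.mon 0 0 1,[(4,28),(4,10),(3,5)]⟩),
  (.comm 0 13 0,⟨false,[],(4,6),.mon 0 0 1,[]⟩),
  (.ca 0,⟨false,[],(30,28),.mon 0 0 1,[]⟩),
  (.cc 0,⟨false,[],(8,10),.mon 0 0 1,[]⟩),
  (.ca 0,⟨false,[],(26,24),.mon 0 0 1,[]⟩),
  (.cc 3,⟨false,[],(5,2),.mon 0 0 1,[]⟩),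
  (.ca 0,⟨false,[],(31,3),.mon 0 0 1,[]⟩),
  (.cc 0,⟨false,[],(9,7),.mon 0 0 1,[]⟩),
  (.ca 0,⟨false,[],(27,29),.mon 0 0 1,[]⟩),
  (.comm 0 4 0,⟨false,[],(25,29),.mon 0 0 2,[]⟩),
  (.cc 5,⟨false,[],(12,14),.mon 0 0 1,[]⟩),
  (.ca 0,⟨false,[],(22,20),.mon 0 0 1,[]⟩),
  (.cc 3,⟨false,[],(13,11),.mon 0 0 1,[]⟩),
  (.ca 0,⟨false,[],(23,25),.mon 0 0 1,[]⟩),
  (.comm 0 2 0,⟨false,[],(21,25),.mon 0 0 2,[]⟩),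
  (.comm 0 5 0,⟨false,[],(21,29),.mon 0 0 4,[]⟩),
  (.cc 4,⟨false,[],(16,18),.mon 0 0 1,[]⟩),
  (.ca 0,⟨false,[],(18,16),.mon 0 0 1,[]⟩),
  (.cc 4,⟨false,[],(17,15),.mon 0 0 1,[]⟩),
  (.ca 0,⟨false,[],(19,21),.mon 0 0 1,[]⟩),
  (.comm 0 2 0,⟨false,[],(17,21),.mon 0 0 2,[]⟩),
  (.comm 0 5 0,⟨false,[],(17,29),.mon 0 0 6,[]⟩),
  (.cc 4,⟨false,[],(20,22),.mon 0 0 1,[]⟩),
  (.ca 0,⟨false,[],(14,12),.mon 0 0 1,[]⟩),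
  (.cc 4,⟨false,[],(21,19),.mon 0 0 1,[]⟩),
  (.ca 0,⟨false,[],(15,17),.mon 0 0 1,[]⟩),
  (.comm 0 2 0,⟨false,[],(13,17),.mon 0 0 2,[]⟩),
  (.comm 0 5 0,⟨false,[],(13,29),.mon 0 0 8,[]⟩),
  (.cc 4,⟨false,[],(24,26),.mon 0 0 1,[]⟩),
  (.ca 0,⟨false,[],(10,8),.mon 0 0 1,[]⟩),
  (.cc 4,⟨false,[],(25,23),.mon 0 0 1,[]⟩),
  (.ca 0,⟨false,[],(11,13),.mon 0 0 1,[]⟩),
  (.comm 0 2 0,⟨false,[],(9,13),.mon 0 0 2,[]⟩),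
  (.comm 0 5 0,⟨false,[],(9,29),.mon 0 0 10,[]⟩),
  (.cc 4,⟨false,[],(28,30),.mon 0 0 1,[]⟩),
  (.ca 0,⟨false,[],(6,4),.mon 0 0 1,[]⟩),
  (.cc 4,⟨false,[],(29,27),.mon 0 0 1,[]⟩),
  (.ca 0,⟨false,[],(7,9),.mon 0 0 1,[]⟩),
  (.comm 0 2 0,⟨false,[],(5,9),.mon 0 0 2,[]⟩),
  (.comm 0 5 0,⟨false,[],(5,29),.mon 0 0 12,[]⟩),
  (.cc 4,⟨false,[],(2,5),.mon 0 0 1,[]⟩),
  (.sI 35 0,⟨true,[],(4,6),.mon 0 0 2,[]⟩),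
  (.sF 0 40,⟨false,[],(4,6),.all,[]⟩),
  (.ca 0,⟨false,[],(30,28),.all,[]⟩),
  (.comm 0 37 0,⟨false,[],(2,28),.all,[]⟩),
  (.comm 0 5 0,⟨false,[],(2,4),.all,[]⟩),
  (.comm 5 10 0,⟨false,[],(2,7),.mon 0 0 2,[]⟩),
  (.comm 4 0 0,⟨false,[],(2,5),.all,[]⟩),
  (.cc 5,⟨false,[],(5,2),.all,[]⟩),
  (.ca 8,⟨false,[],(3,31),.mon 0 0 1,[]⟩),
  (.comm 37 46 0,⟨false,[],(8,12),.mon 0 0 2,[]⟩),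
  (.comm 0 40 0,⟨false,[],(8,14),.mon 0 0 3,[]⟩),
  (.comm 33 35 0,⟨false,[],(14,18),.mon 0 0 2,[]⟩),
  (.comm 0 1 0,⟨false,[],(8,18),.mon 0 0 5,[]⟩),
  (.comm 29 31 0,⟨false,[],(18,22),.mon 0 0 2,[]⟩),
  (.comm 0 1 0,⟨false,[],(8,22),.mon 0 0 7,[]⟩),
  (.comm 25 27 0,⟨false,[],(22,26),.mon 0 0 2,[]⟩),
  (.comm 0 1 0,⟨false,[],(8,26),.mon 0 0 9,[]⟩),
  (.comm 21 23 0,⟨false,[],(26,30),.mon 0 0 2,[]⟩),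
  (.comm 0 1 0,⟨false,[],(8,30),.mon 0 0 11,[]⟩),
  (.comm 0 10 0,⟨false,[],(3,9),.mon 0 0 12,[]⟩),
  (.comm 18 53 0,⟨false,[],(4,8),.all,[]⟩),
  (.comm 0 1 0,⟨false,[],(3,5),.all,[]⟩),
  (.comm 44 52 0,⟨false,[],(12,16),.mon 0 0 2,[]⟩),
  (.comm 0 47 0,⟨false,[],(12,18),.mon 0 0 3,[]⟩),
  (.comm 10 0 0,⟨false,[],(12,22),.mon 0 0 5,[]⟩),
  (.comm 9 0 0,⟨false,[],(12,26),.mon 0 0 7,[]⟩),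
  (.comm 8 0 0,⟨false,[],(12,30),.mon 0 0 9,[]⟩),
  (.comm 21 18 0,⟨false,[],(6,31),.mon 0 0 3,[]⟩),
  (.comm 0 1 0,⟨false,[],(6,13),.mon 0 0 12,[]⟩),
  (.comm 62 66 0,⟨false,[],(6,10),.mon 0 0 2,[]⟩),
  (.comm 58 0 0,⟨false,[],(6,12),.mon 0 0 3,[]⟩),
  (.comm 29 0 0,⟨false,[],(4,12),.all,[]⟩),
  (.comm 0 3 0,⟨false,[],(4,7),.all,[]⟩),
  (.comm 67 71 0,⟨false,[],(2,28),.mon 0 0 2,[]⟩),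
  (.comm 0 69 0,⟨false,[],(5,28),.mon 0 0 3,[]⟩),
  (.comm 33 0 0,⟨false,[],(7,28),.all,[]⟩),
  (.comm 0 37 0,⟨false,[],(5,6),.all,[]⟩),
  (.comm 29 31 0,⟨false,[],(5,7),.all,[]⟩),
  (.comm 65 74 0,⟨false,[],(23,27),.mon 0 0 2,[]⟩),
  (.comm 0 68 0,⟨false,[],(21,27),.mon 0 0 3,[]⟩),
  (.comm 60 0 0,⟨false,[],(17,27),.mon 0 0 5,[]⟩),
  (.comm 55 0 0,⟨false,[],(13,27),.mon 0 0 7,[]⟩),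
  (.comm 50 0 0,⟨false,[],(9,27),.mon 0 0 9,[]⟩),
  (.comm 45 0 0,⟨false,[],(5,27),.mon 0 0 11,[]⟩),
  (.comm 42 0 0,⟨false,[],(7,27),.all,[]⟩),
  (.comm 43 46 0,⟨false,[],(7,29),.all,[]⟩),
  (.comm 114 0 3,⟨false,[],(7,1),.fs 1,[(7,28),(7,27)]⟩),
  (.drop 0 [11,2],⟨false,[],(7,1),.fs 1,[]⟩),
  (.rho 0,⟨false,[],(7,0),.fs (-1),[]⟩),
  (.cc 0,⟨false,[],(3,1),.fs (-1),[]⟩),
  (.rho 0,⟨false,[],(3,0),.fs 1,[]⟩),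
  (.comm 53 59 0,⟨false,[],(5,13),.mon 0 0 4,[]⟩),
  (.comm 50 0 0,⟨false,[],(7,13),.all,[]⟩),
  (.cc 0,⟨false,[],(3,27),.all,[]⟩),
  (.spec 52,⟨false,[],(4,6),.mon 0 0 0,[]⟩),
  (.comm 47 0 0,⟨false,[],(3,6),.all,[]⟩),
  (.comm 87 21 0,⟨false,[],(5,24),.mon 0 0 5,[]⟩),
  (.comm 83 0 0,⟨false,[],(5,20),.mon 0 0 7,[]⟩),
  (.comm 78 0 0,⟨false,[],(5,16),.mon 0 0 9,[]⟩),
  (.comm 73 0 0,⟨false,[],(5,12),.mon 0 0 11,[]⟩),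
  (.comm 0 69 0,⟨false,[],(5,10),.mon 0 0 12,[]⟩),
  (.comm 59 0 0,⟨false,[],(7,10),.all,[]⟩),
  (.cc 0,⟨false,[],(3,28),.all,[]⟩),
  (.comm 66 74 0,⟨false,[],(7,11),.mon 0 0 2,[]⟩),
  (.comm 0 69 0,⟨false,[],(5,11),.mon 0 0 3,[]⟩),
  (.comm 63 0 0,⟨false,[],(7,11),.all,[]⟩),
  (.cc 0,⟨false,[],(3,29),.all,[]⟩),
  (.comm 135 0 3,⟨false,[],(3,1),.fs 1,[(3,28),(3,6),(3,27)]⟩),
  (.drop 0 [5,12,14],⟨false,[],(3,1),.fs 1,[]⟩),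
  (.rho 0,⟨false,[],(3,0),.fs (-1),[]⟩),
  (.fs2 0 19,⟨false,[],(3,0),.all,[]⟩),
  (.ca 0,⟨false,[],(2,1),.all,[]⟩)],
  [(67,67),(65,65),(64,64),(50,50),(50,50),(65,65),(64,64),(67,67),(70,70),(39,39),(35,35),(34,34),(34,34),(39,39),(35,35),(70,70),(0,0),(1,1)]⟩ = true := by decide +kernel

theorem cBo16 : Fam.chkP .D 16 1 true false true false true
  ⟨[(14,20)],[(18,1)],[(22,16),(18,0),(18,1)],[((9,23),some (0,0,0)),((21,25),some (0,0,0))],1,(21,1),(17,0),(17,20),(21,1),(1,0,0),[(29,15),(17,13),(17,0),(21,16)],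
  [(.base 3,⟨false,[(22,16),(18,0),(18,1),(14,20),(18,1),(18,0)],(29,15),.mon 0 0 0,[(17,20),(17,0),(12,16),(9,23),(21,25),(21,1)]⟩),
  (.cc 0,⟨false,[(18,24),(22,1),(22,0),(26,20),(22,0),(22,1)],(13,27),.mon 0 0 0,[(25,20),(25,1),(28,24),(33,19),(21,17),(21,0)]⟩),
  (.ca 0,⟨false,[(18,12),(14,0),(14,1),(10,16),(14,1),(14,0)],(25,11),.mon 0 0 0,[(13,16),(13,0),(8,12),(5,19),(17,21),(17,1)]⟩),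
  (.cc 0,⟨false,[(22,28),(26,1),(26,0),(30,24),(26,0),(26,1)],(17,31),.mon 0 0 0,[(29,24),(29,1),(32,28),(4,23),(25,21),(25,0)]⟩),
  (.ca 0,⟨false,[(14,8),(10,0),(10,1),(6,12),(10,1),(10,0)],(21,7),.mon 0 0 0,[(9,12),(9,0),(4,8),(32,15),(13,17),(13,1)]⟩),
  (.cc 0,⟨false,[(26,32),(30,1),(30,0),(2,28),(30,0),(30,1)],(21,3),.mon 0 0 0,[(33,28),(33,1),(5,32),(8,27),(29,25),(29,0)]⟩),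
  (.ca 0,⟨false,[(10,4),(6,0),(6,1),(3,8),(6,1),(6,0)],(17,2),.mon 0 0 0,[(5,8),(5,0),(33,4),(28,11),(9,13),(9,1)]⟩),
  (.cc 0,⟨false,[(30,5),(2,1),(2,0),(7,32),(2,0),(2,1)],(25,6),.mon 0 0 0,[(4,32),(4,1),(9,5),(12,31),(33,29),(33,0)]⟩),
  (.ca 0,⟨false,[(6,33),(3,0),(3,1),(31,4),(3,1),(3,0)],(13,30),.mon 0 0 0,[(32,4),(32,0),(29,33),(24,7),(5,9),(5,1)]⟩),
  (.base 2,⟨false,[(22,16),(18,0),(18,1),(14,20),(18,1),(18,0)],(17,13),.mon 0 0 0,[(17,20),(17,0),(14,28),(9,23),(21,25),(21,1)]⟩),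
  (.comm 0 1 0,⟨false,[],(17,30),.mon 0 0 0,[(17,33),(5,16),(5,23),(21,33),(5,20)]⟩),
  (.ca 0,⟨false,[],(21,6),.mon 0 0 0,[(21,5),(33,20),(33,15),(17,5),(33,16)]⟩),
  (.cc 0,⟨false,[],(21,2),.mon 0 0 0,[(21,4),(9,20),(9,27),(25,4),(9,24)]⟩),
  (.ca 0,⟨false,[],(17,3),.mon 0 0 0,[(17,32),(29,16),(29,11),(13,32),(29,12)]⟩),
  (.cc 0,⟨false,[],(25,7),.mon 0 0 0,[(25,8),(13,24),(13,31),(29,8),(13,28)]⟩),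
  (.ca 0,⟨false,[],(13,31),.mon 0 0 0,[(13,28),(25,12),(25,7),(9,28),(25,8)]⟩),
  (.comm 5 0 0,⟨false,[],(13,16),.mon 0 0 0,[]⟩),
  (.cc 0,⟨false,[],(29,24),.mon 0 0 0,[]⟩),
  (.ca 0,⟨false,[],(9,12),.mon 0 0 0,[]⟩),
  (.cc 0,⟨false,[],(33,28),.mon 0 0 0,[]⟩),
  (.ca 0,⟨false,[],(5,8),.mon 0 0 0,[]⟩),
  (.cc 0,⟨false,[],(4,32),.mon 0 0 0,[]⟩),
  (.ca 0,⟨false,[],(32,4),.mon 0 0 0,[]⟩),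
  (.cc 0,⟨false,[],(8,5),.mon 0 0 0,[]⟩),
  (.ca 0,⟨false,[],(28,33),.mon 0 0 0,[]⟩),
  (.comm 24 0 0,⟨false,[],(14,33),.mon 0 0 0,[]⟩),
  (.cc 0,⟨false,[],(26,9),.mon 0 0 0,[]⟩),
  (.ca 0,⟨false,[],(10,29),.mon 0 0 0,[]⟩),
  (.cc 0,⟨false,[],(30,13),.mon 0 0 0,[]⟩),
  (.ca 0,⟨false,[],(6,25),.mon 0 0 0,[]⟩),
  (.cc 0,⟨false,[],(2,17),.mon 0 0 0,[]⟩),
  (.cc 6,⟨false,[],(12,9),.mon 0 0 0,[]⟩),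
  (.comm 0 11 0,⟨false,[],(5,13),.mon 0 0 0,[]⟩),
  (.comm 10 13 0,⟨false,[],(5,28),.mon 0 0 0,[]⟩),
  (.comm 10 15 0,⟨false,[],(4,12),.mon 0 0 0,[]⟩),
  (.comm 0 1 0,⟨false,[],(13,28),.mon 0 0 0,[]⟩),
  (.ca 19,⟨false,[],(25,20),.mon 0 0 0,[]⟩),
  (.ca 5,⟨false,[],(24,29),.mon 0 0 0,[]⟩),
  (.comm 0 1 0,⟨false,[],(21,29),.mon 0 0 0,[]⟩),
  (.comm 0 3 0,⟨false,[],(13,20),.mon 0 0 0,[]⟩),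
  (.ca 9,⟨false,[],(3,21),.mon 0 0 0,[]⟩),
  (.comm 0 1 0,⟨false,[],(3,12),.mon 0 0 0,[]⟩),
  (.cc 4,⟨false,[],(16,13),.mon 0 0 0,[]⟩),
  (.base 1,⟨false,[(22,16),(18,0),(18,1),(14,20),(18,1),(18,0)],(17,0),.mon 1 0 0,[(17,20),(12,16),(14,28),(9,23),(21,25),(21,1)]⟩),
  (.comm 0 1 6,⟨false,[],(12,16),.mon 1 1 0,[(12,0),(12,20)]⟩),
  (.comm 0 14 0,⟨false,[],(2,13),.mon 1 1 0,[]⟩),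
  (.sI 0 4,⟨true,[],(13,16),.mon 1 1 0,[]⟩),
  (.sF 0 30,⟨false,[],(13,16),.all,[]⟩),
  (.comm 0 15 0,⟨false,[],(5,16),.all,[]⟩),
  (.comm 0 18 0,⟨false,[],(2,4),.all,[]⟩),
  (.comm 18 33 0,⟨false,[],(8,16),.mon 0 0 0,[]⟩),
  (.comm 0 30 0,⟨false,[],(5,16),.mon 0 0 0,[]⟩),
  (.ca 9,⟨false,[],(20,25),.mon 0 0 0,[]⟩),
  (.cc 0,⟨false,[],(20,17),.mon 0 0 0,[]⟩),
  (.comm 0 15 0,⟨false,[],(16,29),.mon 0 0 0,[]⟩),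
  (.comm 0 3 0,⟨false,[],(5,29),.mon 0 0 0,[]⟩),
  (.comm 55 0 0,⟨false,[],(5,15),.mon 0 0 0,[]⟩),
  (.cc 0,⟨false,[],(4,27),.mon 0 0 0,[]⟩),
  (.ca 0,⟨false,[],(32,11),.mon 0 0 0,[]⟩),
  (.cc 0,⟨false,[],(8,31),.mon 0 0 0,[]⟩),
  (.ca 0,⟨false,[],(28,7),.mon 0 0 0,[]⟩),
  (.cc 0,⟨false,[],(12,3),.mon 0 0 0,[]⟩),
  (.comm 19 27 0,⟨false,[],(4,17),.mon 0 0 0,[]⟩),
  (.comm 15 0 0,⟨false,[],(4,12),.all,[]⟩),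
  (.comm 0 2 0,⟨false,[],(2,5),.all,[]⟩),
  (.comm 22 29 0,⟨false,[],(16,28),.mon 0 0 0,[]⟩),
  (.comm 0 27 0,⟨false,[],(16,20),.mon 0 0 0,[]⟩),
  (.comm 26 0 0,⟨false,[],(3,17),.mon 0 0 0,[]⟩),
  (.comm 19 0 0,⟨false,[],(3,4),.all,[]⟩),
  (.comm 68 31 0,⟨false,[],(14,25),.mon 0 0 0,[]⟩),
  (.cc 0,⟨false,[],(26,17),.mon 0 0 0,[]⟩),
  (.ca 0,⟨false,[],(10,21),.mon 0 0 0,[]⟩),
  (.cc 0,⟨false,[],(30,21),.mon 0 0 0,[]⟩),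
  (.ca 0,⟨false,[],(6,17),.mon 0 0 0,[]⟩),
  (.cc 0,⟨false,[],(2,25),.mon 0 0 0,[]⟩),
  (.ca 0,⟨false,[],(3,13),.mon 0 0 0,[]⟩),
  (.comm 12 0 0,⟨false,[],(3,5),.all,[]⟩),
  (.comm 55 56 0,⟨false,[],(9,32),.mon 0 0 0,[]⟩),
  (.comm 53 0 0,⟨false,[],(9,29),.mon 0 0 0,[]⟩),
  (.comm 78 0 0,⟨false,[],(9,15),.mon 0 0 0,[]⟩),
  (.cc 0,⟨false,[],(33,27),.mon 0 0 0,[]⟩),
  (.ca 0,⟨false,[],(5,11),.mon 0 0 0,[]⟩),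
  (.cc 0,⟨false,[],(4,31),.mon 0 0 0,[]⟩),
  (.ca 0,⟨false,[],(32,7),.mon 0 0 0,[]⟩),
  (.cc 0,⟨false,[],(8,3),.mon 0 0 0,[]⟩),
  (.ca 0,⟨false,[],(28,2),.mon 0 0 0,[]⟩),
  (.cc 0,⟨false,[],(12,6),.mon 0 0 0,[]⟩),
  (.comm 23 0 0,⟨false,[],(4,6),.all,[]⟩),
  (.comm 63 70 0,⟨false,[],(25,33),.mon 0 0 0,[]⟩),
  (.comm 57 11 0,⟨false,[],(12,32),.mon 0 0 0,[]⟩),
  (.comm 0 1 0,⟨false,[],(12,24),.mon 0 0 0,[]⟩),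
  (.comm 61 0 0,⟨false,[],(6,13),.mon 0 0 0,[]⟩),
  (.comm 28 0 0,⟨false,[],(4,7),.all,[]⟩),
  (.ca 31,⟨false,[],(24,2),.mon 0 0 0,[]⟩),
  (.cc 0,⟨false,[],(16,6),.mon 0 0 0,[]⟩),
  (.comm 46 0 0,⟨false,[],(5,6),.all,[]⟩),
  (.comm 47 22 0,⟨false,[],(5,7),.all,[]⟩),
  (.comm 49 35 0,⟨false,[],(2,16),.all,[]⟩),
  (.comm 0 55 0,⟨false,[],(2,13),.all,[]⟩),
  (.ca 51,⟨false,[],(25,20),.all,[]⟩),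
  (.comm 0 25 0,⟨false,[],(2,20),.all,[]⟩),
  (.comm 53 70 0,⟨false,[],(2,12),.all,[]⟩),
  (.comm 0 59 0,⟨false,[],(2,17),.all,[]⟩),
  (.comm 59 0 3,⟨false,[],(2,0),.fs 1,[(2,16),(2,20),(2,13)]⟩),
  (.drop 0 [6,3,5],⟨false,[],(2,0),.fs 1,[]⟩),
  (.comm 57 13 0,⟨false,[],(6,16),.all,[]⟩),
  (.comm 0 63 0,⟨false,[],(6,13),.all,[]⟩),
  (.comm 7 77 0,⟨false,[],(6,20),.all,[]⟩),
  (.comm 60 34 0,⟨false,[],(6,12),.all,[]⟩),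
  (.comm 0 66 0,⟨false,[],(6,17),.all,[]⟩),
  (.comm 66 0 3,⟨false,[],(6,0),.fs 1,[(6,16),(6,20),(6,13)]⟩),
  (.drop 0 [5,3,4],⟨false,[],(6,0),.fs 1,[]⟩),
  (.cc 0,⟨false,[],(2,1),.fs 1,[]⟩),
  (.rho 0,⟨false,[],(2,0),.fs (-1),[]⟩),
  (.fs2 0 9,⟨false,[],(2,0),.all,[]⟩),
  (.comm 15 21 0,⟨false,[],(3,20),.all,[]⟩),
  (.comm 68 62 0,⟨false,[],(13,21),.all,[]⟩),
  (.comm 0 41 0,⟨false,[],(3,21),.all,[]⟩),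
  (.spec 0,⟨false,[],(3,21),.mon 0 0 0,[]⟩),
  (.cc 82,⟨false,[],(17,20),.mon 0 0 0,[]⟩),
  (.comm 77 0 0,⟨false,[],(12,20),.mon 0 0 0,[]⟩),
  (.comm 0 68 0,⟨false,[],(12,25),.mon 0 0 0,[]⟩),
  (.comm 22 0 0,⟨false,[],(12,20),.all,[]⟩),
  (.comm 75 2 0,⟨false,[],(17,20),.all,[]⟩),
  (.comm 86 88 0,⟨false,[],(13,25),.mon 0 0 0,[]⟩),
  (.comm 0 82 0,⟨false,[],(16,25),.mon 0 0 0,[]⟩),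
  (.comm 26 0 0,⟨false,[],(16,20),.all,[]⟩),
  (.comm 83 0 3,⟨false,[],(21,0),.fs 1,[(17,20),(12,20)]⟩),
  (.drop 0 [4,5],⟨false,[],(21,0),.fs 1,[]⟩),
  (.cc 0,⟨false,[],(21,1),.fs 1,[]⟩),
  (.rho 0,⟨false,[],(21,0),.fs (-1),[]⟩),
  (.fs2 0 2,⟨false,[],(21,0),.all,[]⟩),
  (.comm 0 13 2,⟨false,[],(3,0),.all,[(3,20)]⟩),
  (.drop 0 [17],⟨false,[],(3,0),.all,[]⟩)],
  [(84,84),(69,69),(65,65),(57,57),(57,57),(69,69),(65,65),(84,84),(46,46),(41,41),(38,38),(37,37),(37,37),(41,41),(38,38),(46,46),(19,19),(0,0)]⟩ = true := by decide +kernel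

theorem cBow : Fam.chkP .D 17 9 false false true false true
  ⟨[(16,23),(15,26)],[],[(20,15),(23,10)],[((20,31),some (0,0,1)),((15,26),some (0,0,1)),((11,23),some (0,0,1))],1,(11,0),(27,1),(11,26),(11,0),(1,0,0),[(16,7),(23,10),(27,15),(27,1),(27,10)],
  [(.base 4,⟨false,[(20,15),(23,10),(16,23),(15,26)],(16,7),.mon 0 0 1,[(11,26),(27,1),(14,26),(11,22),(20,31),(15,26),(11,23),(11,0)]⟩),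
  (.base 6,⟨false,[(20,15),(23,10),(16,23),(15,26)],(15,26),.mon 0 0 1,[(11,26),(27,1),(14,26),(11,22),(6,17),(20,31),(11,23),(11,0)]⟩),
  (.cc 0,⟨false,[(21,27),(19,30),(24,19),(27,14)],(27,14),.mon 0 0 1,[(31,14),(15,0),(26,14),(31,18),(34,25),(21,11),(31,19),(31,1)]⟩),
  (.ca 0,⟨false,[(17,11),(18,6),(12,18),(11,22)],(11,22),.mon 0 0 1,[(7,22),(23,1),(10,22),(7,19),(2,13),(17,27),(7,18),(7,0)]⟩),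
  (.base 5,⟨false,[(20,15),(23,10),(16,23),(15,26)],(20,31),.mon 0 0 1,[(11,26),(27,1),(14,26),(11,22),(6,17),(15,26),(11,23),(11,0)]⟩),
  (.cc 0,⟨false,[(21,27),(19,30),(24,19),(27,14)],(21,11),.mon 0 0 1,[(31,14),(15,0),(26,14),(31,18),(34,25),(27,14),(31,19),(31,1)]⟩),
  (.comm 0 2 0,⟨false,[],(21,22),.mon 0 0 2,[(15,22),(7,14),(7,30),(15,16),(23,30)]⟩),
  (.cc 0,⟨false,[],(20,18),.mon 0 0 2,[(27,18),(35,26),(35,10),(27,24),(19,10)]⟩),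
  (.comm 1 0 0,⟨false,[],(19,22),.mon 0 0 4,[]⟩),
  (.ca 0,⟨false,[],(18,14),.mon 0 0 4,[]⟩),
  (.base 2,⟨false,[(20,15),(23,10),(16,23),(15,26)],(27,15),.mon 0 0 1,[(11,26),(27,1),(11,22),(6,17),(20,31),(15,26),(11,23),(11,0)]⟩),
  (.comm 0 1 0,⟨false,[],(18,26),.mon 0 0 5,[]⟩),
  (.cc 0,⟨false,[],(22,14),.mon 0 0 5,[]⟩),
  (.ca 0,⟨false,[],(14,22),.mon 0 0 5,[]⟩),
  (.cc 0,⟨false,[],(26,18),.mon 0 0 5,[]⟩),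
  (.ca 0,⟨false,[],(10,19),.mon 0 0 5,[]⟩),
  (.cc 0,⟨false,[],(30,23),.mon 0 0 5,[]⟩),
  (.cc 7,⟨false,[],(22,26),.mon 0 0 4,[]⟩),
  (.ca 0,⟨false,[],(14,10),.mon 0 0 4,[]⟩),
  (.comm 0 9 0,⟨false,[],(11,19),.mon 0 0 8,[]⟩),
  (.cc 1,⟨false,[],(26,30),.mon 0 0 4,[]⟩),
  (.ca 0,⟨false,[],(10,6),.mon 0 0 4,[]⟩),
  (.comm 0 2 0,⟨false,[],(7,19),.mon 0 0 12,[]⟩),
  (.ca 11,⟨false,[],(19,10),.mon 0 0 5,[]⟩),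
  (.comm 0 2 0,⟨false,[],(7,18),.mon 0 0 9,[]⟩),
  (.ca 8,⟨false,[],(6,15),.mon 0 0 5,[]⟩),
  (.comm 0 16 0,⟨false,[],(6,19),.mon 0 0 9,[]⟩),
  (.sI 0 2,⟨true,[],(19,22),.mon 0 0 18,[]⟩),
  (.sN 0,⟨true,[],(19,22),.mon 0 0 (-18),[]⟩),
  (.cc 3,⟨false,[],(34,27),.mon 0 0 5,[]⟩),
  (.ca 0,⟨false,[],(2,11),.mon 0 0 5,[]⟩),
  (.comm 0 7 0,⟨false,[],(2,18),.mon 0 0 10,[]⟩),
  (.cc 8,⟨false,[],(23,30),.mon 0 0 5,[]⟩),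
  (.ca 0,⟨false,[],(15,6),.mon 0 0 5,[]⟩),
  (.cc 0,⟨false,[],(27,34),.mon 0 0 5,[]⟩),
  (.ca 0,⟨false,[],(11,2),.mon 0 0 5,[]⟩),
  (.comm 0 20 0,⟨false,[],(3,19),.mon 0 0 10,[]⟩),
  (.sI 0 5,⟨true,[],(19,22),.mon 0 0 20,[]⟩),
  (.sA 0 9,⟨true,[],(19,22),.mon 0 0 2,[]⟩),
  (.sF 0 30,⟨false,[],(19,22),.all,[]⟩),
  (.comm 0 17 0,⟨false,[],(7,22),.all,[]⟩),
  (.comm 0 24 0,⟨false,[],(7,31),.all,[]⟩),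
  (.comm 0 41 0,⟨false,[],(16,31),.all,[]⟩),
  (.ca 0,⟨false,[],(20,7),.all,[]⟩),
  (.cc 0,⟨false,[],(21,35),.all,[]⟩),
  (.comm 23 26 0,⟨false,[],(7,15),.mon 0 0 8,[]⟩),
  (.cc 24,⟨false,[],(30,34),.mon 0 0 4,[]⟩),
  (.ca 0,⟨false,[],(6,2),.mon 0 0 4,[]⟩),
  (.comm 0 2 0,⟨false,[],(3,15),.mon 0 0 12,[]⟩),
  (.ca 9,⟨false,[],(18,14),.all,[]⟩),
  (.comm 0 25 0,⟨false,[],(7,14),.all,[]⟩),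
  (.comm 0 2 0,⟨false,[],(3,6),.all,[]⟩),
  (.comm 0 51 0,⟨false,[],(3,17),.all,[]⟩),
  (.ca 0,⟨false,[],(35,21),.all,[]⟩),
  (.comm 7 33 0,⟨false,[],(26,34),.mon 0 0 8,[]⟩),
  (.comm 41 37 0,⟨false,[],(14,26),.mon 0 0 9,[]⟩),
  (.comm 6 0 0,⟨false,[],(18,26),.all,[]⟩),
  (.comm 0 2 0,⟨false,[],(18,34),.all,[]⟩),
  (.cN 0 4 13,⟨false,[],(18,20),.all,[]⟩),
  (.comm 19 46 0,⟨false,[],(15,18),.all,[]⟩),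
  (.comm 0 14 0,⟨false,[],(7,18),.all,[]⟩),
  (.comm 0 60 0,⟨false,[],(16,18),.all,[]⟩),
  (.ca 0,⟨false,[],(20,19),.all,[]⟩),
  (.comm 42 45 0,⟨false,[],(22,30),.mon 0 0 8,[]⟩),
  (.comm 17 0 0,⟨false,[],(22,34),.mon 0 0 12,[]⟩),
  (.comm 25 0 0,⟨false,[],(19,34),.all,[]⟩),
  (.cN 0 12 21,⟨false,[],(19,20),.all,[]⟩),
  (.comm 17 21 0,⟨false,[],(7,19),.all,[]⟩),
  (.comm 0 67 0,⟨false,[],(16,19),.all,[]⟩),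
  (.ca 0,⟨false,[],(20,18),.all,[]⟩),
  (.ca 10,⟨false,[],(23,19),.all,[]⟩),
  (.spec 0,⟨false,[],(23,19),.mon 0 0 0,[]⟩),
  (.comm 2 0 0,⟨false,[],(20,22),.all,[]⟩),
  (.comm 47 60 0,⟨false,[],(6,23),.mon 0 0 10,[]⟩),
  (.comm 34 0 0,⟨false,[],(6,18),.all,[]⟩),
  (.comm 35 57 0,⟨false,[],(19,26),.all,[]⟩),
  (.cN 0 1 8,⟨false,[],(7,26),.all,[]⟩),
  (.comm 0 76 0,⟨false,[],(16,26),.all,[]⟩),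
  (.spec 10,⟨false,[],(7,19),.mon 0 0 0,[]⟩),
  (.comm 62 65 0,⟨false,[],(14,31),.mon 0 0 10,[]⟩),
  (.comm 40 16 0,⟨false,[],(19,30),.all,[]⟩),
  (.comm 0 1 0,⟨false,[],(14,18),.all,[]⟩),
  (.comm 0 3 0,⟨false,[],(7,15),.all,[]⟩),
  (.comm 0 82 0,⟨false,[],(14,17),.all,[(7,26),(16,26)]⟩),
  (.drop 0 [7,6],⟨false,[],(14,17),.all,[]⟩),
  (.ca 0,⟨false,[],(22,21),.all,[]⟩),
  (.cc 16,⟨false,[],(21,22),.all,[]⟩),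
  (.cc 24,⟨false,[],(21,23),.all,[]⟩),
  (.comm 75 69 0,⟨false,[],(11,23),.mon 0 0 9,[]⟩),
  (.comm 49 0 0,⟨false,[],(11,18),.all,[]⟩),
  (.comm 73 69 0,⟨false,[],(22,27),.mon 0 0 9,[]⟩),
  (.comm 51 0 0,⟨false,[],(19,27),.all,[]⟩),
  (.base 1,⟨false,[(20,15),(23,10),(16,23),(15,26)],(27,1),.mon 1 0 0,[(11,26),(14,26),(11,22),(6,17),(20,31),(15,26),(11,23),(11,0)]⟩),
  (.comm 0 1 3,⟨false,[],(19,1),.fs 1,[(19,26),(11,18),(14,18),(15,18),(19,26)]⟩),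
  (.drop 0 [18,4,12,34,18],⟨false,[],(19,1),.fs 1,[]⟩),
  (.rho 0,⟨false,[],(19,0),.fs (-1),[]⟩),
  (.ca 0,⟨false,[],(18,1),.fs (-1),[]⟩),
  (.rho 0,⟨false,[],(18,0),.fs 1,[]⟩),
  (.comm 72 76 0,⟨false,[],(10,15),.mon 0 0 9,[]⟩),
  (.comm 49 80 0,⟨false,[],(11,19),.all,[]⟩),
  (.comm 0 1 0,⟨false,[],(14,19),.all,[]⟩),
  (.comm 85 86 0,⟨false,[],(10,27),.mon 0 0 10,[]⟩),
  (.comm 26 0 0,⟨false,[],(10,18),.all,[]⟩),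
  (.ca 0,⟨false,[],(26,19),.all,[]⟩),
  (.comm 11 0 3,⟨false,[],(18,1),.fs 1,[(18,26),(11,19),(14,19),(15,19),(18,26)]⟩),
  (.drop 0 [48,5,4,55,48],⟨false,[],(18,1),.fs 1,[]⟩),
  (.rho 0,⟨false,[],(18,0),.fs (-1),[]⟩),
  (.fs2 0 9,⟨false,[],(18,0),.all,[]⟩),
  (.ca 0,⟨false,[],(19,1),.all,[]⟩)],
  [(50,50),(46,46),(42,42),(39,39),(39,39),(46,46),(42,42),(50,50),(36,36),(23,23),(22,22),(21,21),(21,21),(23,23),(22,22),(36,36),(1,1),(0,0)]⟩ = true := by decide +kernel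

theorem famBo {G L K : Type} [Group G] [AddCommGroup L] [Field K] [Finite K] {S : St G L K}
    {n : ℕ} (R : Frame S .D n) (md : ∀ x y, Md S.φ false x false y) (h : 7 ≤ n) :
    IsLeast {n | Good S.Gs n} 3 := by
  by_cases p : 17 ≤ n
  · exact R.poly p (by simp) (md _ _) cBow
  rw [not_le] at p
  interval_cases n
  · exact R.poly le_rfl (fun _ => rfl) (md _ _) cBo7
  · exact R.gen (by decide) (md _ _) cBo8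
  · exact R.poly le_rfl (fun _ => rfl) (md _ _) cBo9
  · exact R.poly le_rfl (fun _ => rfl) (md _ _) cBo10
  · exact R.poly le_rfl (fun _ => rfl) (md _ _) cBo11
  · exact R.poly le_rfl (fun _ => rfl) (md _ _) cBo12
  · exact R.poly le_rfl (fun _ => rfl) (md _ _) cBo13
  · exact R.poly le_rfl (fun _ => rfl) (md _ _) cBo14
  · exact R.poly le_rfl (fun _ => rfl) (md _ _) cBo15
  · exact R.poly le_rfl (fun _ => rfl) (md _ _) cBo16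

end Pool.Agent.MP_c78e8e_al.H75

end

section

namespace Pool.Agent.MP_c78e8e_al.H75

theorem cBe7 : (Fam.op0 .D 7).check true false false false (Fam.tcG 7)
  ⟨[(3,0),(9,15),(5,13),(7,11)],[],[],[(4,1),(3,13),(2,5),(11,13),(14,1)],[(5,0),(9,14),(12,11),(7,3)],(2,4),(3,6),
  ⟨[],[],[],[((5,6),some (0,0,1)),((8,10),some (0,0,0))],2,(14,1),(2,15),(8,0),(3,9),(1,0,0),[(13,10),(14,6),(8,0),(3,9)],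
  [(.base 3,⟨false,[],(13,10),.mon 0 0 1,[(3,9),(8,0),(7,15),(5,6),(8,10),(14,1),(2,15)]⟩),
  (.cc 0,⟨false,[],(10,13),.mon 0 0 1,[(7,14),(15,1),(3,8),(4,2),(15,13),(9,0),(6,8)]⟩),
  (.ca 0,⟨false,[],(6,5),.mon 0 0 1,[(11,8),(9,0),(2,14),(12,3),(9,5),(15,1),(10,14)]⟩),
  (.cc 0,⟨false,[],(2,4),.mon 0 0 1,[(12,15),(14,1),(6,9),(11,7),(14,4),(8,0),(13,9)]⟩),
  (.ca 0,⟨false,[],(3,12),.mon 0 0 1,[(4,9),(8,0),(10,15),(7,11),(8,12),(14,1),(5,15)]⟩),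
  (.cc 0,⟨false,[],(7,11),.mon 0 0 1,[(5,14),(15,1),(13,8),(3,12),(15,11),(9,0),(4,8)]⟩),
  (.ca 0,⟨false,[],(11,7),.mon 0 0 1,[(13,8),(9,0),(5,14),(2,4),(9,7),(15,1),(12,14)]⟩),
  (.cc 0,⟨false,[],(12,3),.mon 0 0 1,[(10,15),(14,1),(4,9),(6,5),(14,3),(8,0),(11,9)]⟩),
  (.base 4,⟨false,[],(5,6),.mon 0 0 1,[(3,9),(8,0),(7,15),(11,12),(8,10),(14,1),(2,15)]⟩),
  (.cc 0,⟨false,[],(4,2),.mon 0 0 1,[(7,14),(15,1),(3,8),(12,11),(15,13),(9,0),(6,8)]⟩),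
  (.ca 0,⟨false,[],(12,3),.mon 0 0 1,[(11,8),(9,0),(2,14),(4,7),(9,5),(15,1),(10,14)]⟩),
  (.cc 0,⟨false,[],(11,7),.mon 0 0 1,[(12,15),(14,1),(6,9),(5,3),(14,4),(8,0),(13,9)]⟩),
  (.ca 0,⟨false,[],(7,11),.mon 0 0 1,[(4,9),(8,0),(10,15),(13,2),(8,12),(14,1),(5,15)]⟩),
  (.comm 12 0 0,⟨false,[],(7,12),.mon 0 0 2,[(13,15),(8,15),(7,9)]⟩),
  (.comm 0 6 0,⟨false,[],(2,6),.mon 0 0 3,[(4,12),(2,15),(4,9),(2,5)]⟩),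
  (.cc 0,⟨false,[],(6,2),.mon 0 0 3,[(5,11),(6,8),(5,14),(6,4)]⟩),
  (.ca 0,⟨false,[],(10,3),.mon 0 0 3,[(13,7),(10,14),(13,8),(10,12)]⟩),
  (.cc 0,⟨false,[],(13,7),.mon 0 0 3,[(10,3),(13,9),(10,15),(13,11)]⟩),
  (.comm 3 0 0,⟨false,[],(2,12),.mon 0 0 6,[]⟩),
  (.cc 0,⟨false,[],(6,11),.mon 0 0 6,[]⟩),
  (.comm 5 0 0,⟨false,[],(2,11),.mon 0 0 9,[]⟩),
  (.cc 0,⟨false,[],(6,12),.mon 0 0 9,[]⟩),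
  (.ca 0,⟨false,[],(10,4),.mon 0 0 9,[]⟩),
  (.cc 0,⟨false,[],(13,5),.mon 0 0 9,[]⟩),
  (.ca 0,⟨false,[],(5,13),.mon 0 0 9,[]⟩),
  (.ca 4,⟨false,[],(3,7),.mon 0 0 9,[]⟩),
  (.cc 0,⟨false,[],(7,3),.mon 0 0 9,[]⟩),
  (.sI 1 0,⟨true,[],(2,12),.mon 0 0 18,[]⟩),
  (.ca 1,⟨false,[],(11,2),.mon 0 0 9,[]⟩),
  (.cc 0,⟨false,[],(12,6),.mon 0 0 9,[]⟩),
  (.comm 29 0 0,⟨false,[],(7,10),.mon 0 0 10,[]⟩),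
  (.cc 0,⟨false,[],(3,13),.mon 0 0 10,[]⟩),
  (.ca 0,⟨false,[],(2,5),.mon 0 0 10,[]⟩),
  (.ca 14,⟨false,[],(3,4),.mon 0 0 6,[]⟩),
  (.sI 0 1,⟨true,[],(2,12),.mon 0 0 16,[]⟩),
  (.sN 0,⟨true,[],(2,12),.mon 0 0 (-16),[]⟩),
  (.sA 0 8,⟨true,[],(2,12),.mon 0 0 2,[]⟩),
  (.sF 0 18,⟨false,[],(2,12),.all,[]⟩),
  (.comm 0 13 0,⟨false,[],(2,4),.all,[]⟩),
  (.comm 1 9 0,⟨false,[],(2,6),.all,[]⟩),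
  (.cc 0,⟨false,[],(6,2),.all,[]⟩),
  (.ca 3,⟨false,[],(3,4),.all,[]⟩),
  (.cc 0,⟨false,[],(7,5),.all,[]⟩),
  (.cN 0 3 2,⟨false,[],(3,5),.all,[]⟩),
  (.comm 43 19 0,⟨false,[],(5,10),.mon 0 0 10,[]⟩),
  (.cc 7,⟨false,[],(6,11),.all,[]⟩),
  (.comm 0 1 0,⟨false,[],(5,7),.all,[]⟩),
  (.base 2,⟨false,[],(14,6),.mon 0 0 0,[(3,9),(8,0),(11,12),(5,6),(8,10),(14,1),(2,15)]⟩),
  (.comm 1 0 0,⟨false,[],(5,15),.all,[]⟩),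
  (.cc 0,⟨false,[],(4,8),.all,[]⟩),
  (.spec 12,⟨false,[],(2,12),.mon 0 0 0,[]⟩),
  (.comm 9 0 0,⟨false,[],(5,12),.all,[]⟩),
  (.comm 14 26 0,⟨false,[],(6,12),.all,[]⟩),
  (.comm 0 5 0,⟨false,[],(13,15),.all,[(5,12)]⟩),
  (.drop 0 [2],⟨false,[],(13,15),.all,[]⟩),
  (.ca 0,⟨false,[],(5,9),.all,[]⟩),
  (.cN 9 0 6,⟨false,[],(6,8),.all,[]⟩),
  (.spec 15,⟨false,[],(3,4),.mon 0 0 0,[]⟩),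
  (.cc 24,⟨false,[],(7,5),.mon 0 0 6,[]⟩),
  (.ca 0,⟨false,[],(11,13),.mon 0 0 6,[]⟩),
  (.comm 22 0 0,⟨false,[],(2,10),.all,[]⟩),
  (.comm 0 3 0,⟨false,[],(5,10),.all,[]⟩),
  (.comm 1 36 0,⟨false,[],(6,10),.all,[]⟩),
  (.comm 0 15 0,⟨false,[],(11,15),.all,[(5,10)]⟩),
  (.drop 0 [2],⟨false,[],(11,15),.all,[]⟩),
  (.ca 0,⟨false,[],(7,9),.all,[]⟩),
  (.cc 21,⟨false,[],(4,13),.mon 0 0 10,[]⟩),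
  (.comm 29 38 0,⟨false,[],(11,12),.all,[]⟩),
  (.comm 0 1 0,⟨false,[],(4,10),.all,[]⟩),
  (.spec 0,⟨false,[],(4,10),.mon 0 0 0,[]⟩),
  (.comm 14 0 0,⟨false,[],(8,10),.all,[]⟩),
  (.cc 16,⟨false,[],(10,8),.all,[]⟩),
  (.ca 27,⟨false,[],(13,6),.mon 0 0 10,[]⟩),
  (.cc 0,⟨false,[],(10,2),.mon 0 0 10,[]⟩),
  (.comm 36 0 0,⟨false,[],(10,12),.all,[]⟩),
  (.ca 32,⟨false,[],(11,13),.all,[]⟩),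
  (.ca 4,⟨false,[],(6,14),.all,[]⟩),
  (.comm 34 52 0,⟨false,[],(7,13),.all,[]⟩),
  (.spec 0,⟨false,[],(7,13),.mon 0 0 0,[]⟩),
  (.comm 24 0 0,⟨false,[],(7,15),.all,[]⟩),
  (.cN 2 0 3,⟨false,[],(12,14),.all,[]⟩),
  (.comm 43 14 0,⟨false,[],(2,5),.all,[]⟩),
  (.spec 0,⟨false,[],(2,5),.mon 0 0 0,[]⟩),
  (.spec 21,⟨false,[],(5,10),.mon 0 0 0,[]⟩),
  (.comm 12 0 0,⟨false,[],(5,8),.all,[]⟩),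
  (.base 1,⟨false,[],(8,0),.mon 1 0 0,[(3,9),(7,15),(11,12),(5,6),(8,10),(14,1),(2,15)]⟩),
  (.comm 0 1 3,⟨false,[],(5,0),.fs 1,[(5,9),(3,4),(5,10),(5,15)]⟩),
  (.drop 0 [31,45,25,38],⟨false,[],(5,0),.fs 1,[]⟩),
  (.comm 46 64 0,⟨false,[],(3,12),.all,[]⟩),
  (.ca 40,⟨false,[],(13,9),.all,[]⟩),
  (.cN 38 34 40,⟨false,[],(9,12),.all,[]⟩),
  (.comm 5 0 3,⟨false,[],(13,0),.fs 1,[(8,12),(3,12),(11,12),(13,15)]⟩),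
  (.drop 0 [2,3,24,37],⟨false,[],(13,0),.fs 1,[]⟩),
  (.ca 0,⟨false,[],(5,1),.fs 1,[]⟩),
  (.rho 0,⟨false,[],(5,0),.fs (-1),[]⟩),
  (.fs2 0 7,⟨false,[],(5,0),.all,[]⟩),
  (.comm 0 13 2,⟨false,[],(2,0),.all,[(2,4)]⟩),
  (.drop 0 [58],⟨false,[],(2,0),.all,[]⟩),
  (.spec 54,⟨false,[],(3,5),.mon 0 0 0,[]⟩),
  (.comm 3 0 2,⟨false,[],(3,0),.all,[(3,4)]⟩),
  (.drop 0 [58],⟨false,[],(3,0),.all,[]⟩)],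
  [(19,19),(59,59),(3,3),(0,0),(62,62),(57,57),(58,58),(54,54),(44,44),(35,35),(30,30),(29,29),(26,26),(25,25),(20,20),(46,46)]⟩⟩ = true := by decide +kernel

theorem cBe8 : Fam.chkP .D 8 1 true true false false false
  ⟨[],[],[],[((5,10),some (0,0,1)),((9,15),some (0,0,1))],2,(13,1),(3,12),(9,0),(2,8),(1,0,0),[(17,10),(13,7),(9,0),(2,8)],
  [(.base 4,⟨false,[],(5,10),.mon 0 0 1,[(2,8),(9,0),(6,12),(11,16),(9,15),(13,1),(3,12)]⟩),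
  (.cc 0,⟨false,[],(4,14),.mon 0 0 1,[(6,16),(17,1),(2,12),(15,8),(17,11),(13,0),(7,12)]⟩),
  (.ca 0,⟨false,[],(16,6),.mon 0 0 1,[(14,4),(5,0),(3,8),(7,12),(5,11),(9,1),(15,8)]⟩),
  (.base 2,⟨false,[],(13,7),.mon 0 0 1,[(2,8),(9,0),(11,16),(5,10),(9,15),(13,1),(3,12)]⟩),
  (.comm 0 1 0,⟨false,[],(13,17),.mon 0 0 2,[(5,8),(7,10),(5,16),(5,12),(9,12),(11,12),(5,6)]⟩),
  (.ca 0,⟨false,[],(9,5),.mon 0 0 2,[(17,12),(15,10),(17,4),(17,8),(13,8),(11,8),(17,14)]⟩),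
  (.ca 1,⟨false,[],(9,5),.mon 0 0 2,[(17,12),(15,10),(17,4),(17,8),(13,8),(11,8),(17,14)]⟩),
  (.cc 0,⟨false,[],(17,4),.mon 0 0 2,[(9,12),(11,14),(9,5),(9,16),(13,16),(15,16),(9,10)]⟩),
  (.comm 3 0 0,⟨false,[],(5,12),.mon 0 0 4,[(9,12),(13,14),(9,16),(7,8)]⟩),
  (.comm 0 3 0,⟨false,[],(9,12),.mon 0 0 6,[]⟩),
  (.cc 0,⟨false,[],(17,12),.mon 0 0 6,[]⟩),
  (.ca 0,⟨false,[],(5,8),.mon 0 0 6,[]⟩),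
  (.cc 0,⟨false,[],(4,16),.mon 0 0 6,[]⟩),
  (.ca 0,⟨false,[],(16,4),.mon 0 0 6,[]⟩),
  (.cc 0,⟨false,[],(8,5),.mon 0 0 6,[]⟩),
  (.ca 0,⟨false,[],(12,17),.mon 0 0 6,[]⟩),
  (.cc 0,⟨false,[],(12,9),.mon 0 0 6,[]⟩),
  (.comm 0 5 0,⟨false,[],(5,13),.mon 0 0 12,[]⟩),
  (.comm 3 4 0,⟨false,[],(8,17),.mon 0 0 12,[]⟩),
  (.sI 4 7,⟨true,[],(9,12),.mon 0 0 12,[]⟩),
  (.sN 0,⟨true,[],(9,12),.mon 0 0 (-12),[]⟩),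
  (.base 3,⟨false,[],(17,10),.mon 0 0 1,[(2,8),(9,0),(6,12),(5,10),(9,15),(13,1),(3,12)]⟩),
  (.comm 0 8 0,⟨false,[],(5,10),.mon 0 0 7,[]⟩),
  (.ca 0,⟨false,[],(17,10),.mon 0 0 7,[]⟩),
  (.cc 0,⟨false,[],(9,14),.mon 0 0 7,[]⟩),
  (.ca 0,⟨false,[],(13,6),.mon 0 0 7,[]⟩),
  (.cc 0,⟨false,[],(13,2),.mon 0 0 7,[]⟩),
  (.cc 4,⟨false,[],(4,14),.mon 0 0 7,[]⟩),
  (.ca 0,⟨false,[],(16,6),.mon 0 0 7,[]⟩),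
  (.cc 0,⟨false,[],(8,2),.mon 0 0 7,[]⟩),
  (.ca 0,⟨false,[],(12,3),.mon 0 0 7,[]⟩),
  (.sI 0 4,⟨true,[],(9,12),.mon 0 0 14,[]⟩),
  (.sA 0 11,⟨true,[],(9,12),.mon 0 0 2,[]⟩),
  (.sF 0 23,⟨false,[],(9,12),.all,[]⟩),
  (.comm 0 15 0,⟨false,[],(13,17),.all,[]⟩),
  (.comm 0 17 0,⟨false,[],(5,17),.all,[]⟩),
  (.comm 20 23 0,⟨false,[],(4,13),.mon 0 0 12,[]⟩),
  (.cc 3,⟨false,[],(17,12),.all,[]⟩),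
  (.comm 0 1 0,⟨false,[],(4,16),.all,[]⟩),
  (.comm 1 8 0,⟨false,[],(2,16),.all,[]⟩),
  (.cN 0 1 4,⟨false,[],(2,4),.all,[]⟩),
  (.comm 7 26 0,⟨false,[],(4,12),.all,[]⟩),
  (.comm 0 11 0,⟨false,[],(2,5),.all,[]⟩),
  (.comm 9 25 0,⟨false,[],(5,8),.all,[]⟩),
  (.comm 0 14 0,⟨false,[],(3,4),.all,[]⟩),
  (.comm 11 8 0,⟨false,[],(4,8),.all,[]⟩),
  (.comm 0 16 0,⟨false,[],(3,5),.all,[]⟩),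
  (.comm 8 18 0,⟨false,[],(4,6),.all,[]⟩),
  (.cc 17,⟨false,[],(12,7),.mon 0 0 7,[]⟩),
  (.comm 7 0 0,⟨false,[],(4,7),.all,[]⟩),
  (.comm 12 32 0,⟨false,[],(5,16),.all,[]⟩),
  (.comm 0 22 0,⟨false,[],(5,6),.all,[]⟩),
  (.comm 18 3 0,⟨false,[],(6,8),.all,[]⟩),
  (.comm 0 36 0,⟨false,[],(6,13),.all,[]⟩),
  (.comm 16 25 0,⟨false,[],(7,12),.all,[]⟩),
  (.comm 17 41 0,⟨false,[],(5,12),.all,[]⟩),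
  (.cN 0 1 2,⟨false,[],(5,7),.all,[]⟩),
  (.comm 23 26 0,⟨false,[],(2,8),.all,[]⟩),
  (.spec 0,⟨false,[],(2,8),.mon 0 0 0,[]⟩),
  (.comm 21 40 0,⟨false,[],(8,12),.all,[]⟩),
  (.comm 0 1 0,⟨false,[],(2,12),.all,[]⟩),
  (.comm 3 44 0,⟨false,[],(2,13),.all,[]⟩),
  (.spec 0,⟨false,[],(2,13),.mon 0 0 0,[]⟩),
  (.ca 14,⟨false,[],(8,15),.mon 0 0 7,[]⟩),
  (.comm 30 0 0,⟨false,[],(13,15),.all,[]⟩),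
  (.base 1,⟨false,[],(9,0),.mon 1 0 0,[(2,8),(6,12),(11,16),(5,10),(9,15),(13,1),(3,12)]⟩),
  (.comm 0 6 3,⟨false,[],(13,0),.fs 1,[(9,12),(2,12),(13,15)]⟩),
  (.drop 0 [33,6,2],⟨false,[],(13,0),.fs 1,[]⟩),
  (.cc 0,⟨false,[],(13,1),.fs 1,[]⟩),
  (.rho 0,⟨false,[],(13,0),.fs (-1),[]⟩),
  (.fs2 0 2,⟨false,[],(13,0),.all,[]⟩),
  (.comm 0 8 2,⟨false,[],(2,0),.all,[(2,12)]⟩),
  (.drop 0 [11],⟨false,[],(2,0),.all,[]⟩),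
  (.comm 39 43 0,⟨false,[],(3,12),.all,[]⟩),
  (.cN 35 31 29,⟨false,[],(3,16),.all,[]⟩),
  (.comm 40 44 0,⟨false,[],(2,17),.all,[]⟩),
  (.comm 42 60 0,⟨false,[],(9,17),.all,[]⟩),
  (.comm 0 60 0,⟨false,[],(12,17),.all,[]⟩),
  (.cN 0 2 3,⟨false,[],(3,13),.all,[]⟩),
  (.spec 0,⟨false,[],(3,13),.mon 0 0 0,[]⟩),
  (.comm 9 0 2,⟨false,[],(3,0),.all,[(3,12)]⟩),
  (.drop 0 [7],⟨false,[],(3,0),.all,[]⟩)],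
  [(41,41),(39,39),(37,37),(35,35),(35,35),(39,39),(37,37),(41,41),(34,34),(32,32),(30,30),(25,25),(25,25),(32,32),(30,30),(34,34),(9,9),(0,0)]⟩ = true := by decide +kernel

theorem cBe9 : Fam.chkP .D 9 1 true true false false false
  ⟨[],[],[],[((9,11),some (0,0,0)),((9,16),some (0,0,0))],2,(4,0),(3,19),(18,1),(2,5),(1,0,0),[(15,13),(15,6),(18,1),(2,5)],
  [(.base 2,⟨false,[],(15,6),.mon 0 0 0,[(2,5),(18,1),(12,14),(9,11),(9,16),(4,0),(3,19)]⟩),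
  (.cc 0,⟨false,[],(13,2),.mon 0 0 0,[(6,4),(8,0),(14,12),(19,17),(19,10),(5,1),(7,9)]⟩),
  (.ca 0,⟨false,[],(11,3),.mon 0 0 0,[(16,18),(14,1),(8,10),(5,7),(5,12),(19,0),(17,15)]⟩),
  (.cc 0,⟨false,[],(17,7),.mon 0 0 0,[(10,8),(12,0),(18,16),(4,3),(4,14),(9,1),(11,13)]⟩),
  (.comm 3 0 0,⟨false,[],(15,16),.mon 0 0 0,[(12,19),(9,19),(9,13),(4,13),(4,8),(4,19)]⟩),
  (.ca 0,⟨false,[],(9,6),.mon 0 0 0,[(10,5),(15,5),(15,11),(18,11),(18,14),(18,5)]⟩),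
  (.cc 0,⟨false,[],(19,2),.mon 0 0 0,[(16,4),(13,4),(13,17),(8,17),(8,12),(8,4)]⟩),
  (.ca 0,⟨false,[],(5,3),.mon 0 0 0,[(6,18),(11,18),(11,7),(14,7),(14,10),(14,18)]⟩),
  (.cc 0,⟨false,[],(4,7),.mon 0 0 0,[(2,8),(17,8),(17,3),(12,3),(12,16),(12,8)]⟩),
  (.ca 0,⟨false,[],(18,17),.mon 0 0 0,[(3,14),(7,14),(7,2),(10,2),(10,6),(10,14)]⟩),
  (.cc 0,⟨false,[],(8,11),.mon 0 0 0,[(7,12),(3,12),(3,6),(16,6),(16,2),(16,12)]⟩),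
  (.ca 0,⟨false,[],(14,13),.mon 0 0 0,[(17,10),(2,10),(2,16),(6,16),(6,3),(6,10)]⟩),
  (.comm 7 0 0,⟨false,[],(12,16),.mon 0 0 0,[]⟩),
  (.ca 0,⟨false,[],(10,6),.mon 0 0 0,[]⟩),
  (.cc 1,⟨false,[],(14,10),.mon 0 0 0,[]⟩),
  (.comm 0 1 0,⟨false,[],(7,15),.mon 0 0 0,[]⟩),
  (.cc 2,⟨false,[],(16,2),.mon 0 0 0,[]⟩),
  (.ca 0,⟨false,[],(6,3),.mon 0 0 0,[]⟩),
  (.comm 0 2 0,⟨false,[],(2,15),.mon 0 0 0,[]⟩),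
  (.comm 14 9 0,⟨false,[],(15,19),.mon 0 0 0,[]⟩),
  (.ca 0,⟨false,[],(9,5),.mon 0 0 0,[]⟩),
  (.cc 0,⟨false,[],(19,4),.mon 0 0 0,[]⟩),
  (.cc 2,⟨false,[],(13,9),.mon 0 0 0,[]⟩),
  (.comm 0 10 0,⟨false,[],(8,16),.mon 0 0 0,[]⟩),
  (.comm 7 0 0,⟨false,[],(3,9),.mon 0 0 0,[]⟩),
  (.comm 3 5 0,⟨false,[],(5,14),.mon 0 0 0,[]⟩),
  (.comm 0 5 0,⟨false,[],(9,14),.mon 0 0 0,[]⟩),
  (.comm 0 2 0,⟨false,[],(3,14),.mon 0 0 0,[]⟩),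
  (.comm 2 12 0,⟨false,[],(5,6),.mon 0 0 0,[]⟩),
  (.comm 0 11 0,⟨false,[],(2,4),.mon 0 0 0,[]⟩),
  (.comm 7 9 0,⟨false,[],(4,12),.mon 0 0 0,[]⟩),
  (.comm 0 9 0,⟨false,[],(13,18),.mon 0 0 0,[]⟩),
  (.comm 15 19 0,⟨false,[],(3,13),.mon 0 0 0,[]⟩),
  (.comm 0 1 0,⟨false,[],(3,18),.mon 0 0 0,[]⟩),
  (.comm 0 15 0,⟨false,[],(14,18),.mon 0 0 0,[]⟩),
  (.comm 11 14 0,⟨false,[],(4,16),.mon 0 0 0,[]⟩),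
  (.comm 0 19 0,⟨false,[],(3,5),.mon 0 0 0,[]⟩),
  (.comm 0 19 0,⟨false,[],(4,7),.mon 0 0 0,[]⟩),
  (.comm 37 0 0,⟨false,[],(4,14),.mon 0 0 0,[]⟩),
  (.comm 0 4 0,⟨false,[],(4,18),.mon 0 0 0,[]⟩),
  (.base 1,⟨false,[],(18,1),.mon 1 0 0,[(2,5),(7,14),(12,14),(9,11),(9,16),(4,0),(3,19)]⟩),
  (.comm 0 1 6,⟨false,[],(4,19),.mon 1 1 0,[(4,1),(3,5)]⟩),
  (.comm 0 7 0,⟨false,[],(4,15),.mon 1 1 0,[]⟩),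
  (.comm 0 13 0,⟨false,[],(2,15),.mon 1 1 0,[]⟩),
  (.sI 0 16,⟨true,[],(15,19),.mon 1 1 0,[]⟩),
  (.sF 0 25,⟨false,[],(15,19),.all,[]⟩),
  (.comm 0 24 0,⟨false,[],(5,14),.all,[]⟩),
  (.comm 0 28 0,⟨false,[],(2,4),.all,[]⟩),
  (.comm 15 30 0,⟨false,[],(6,13),.mon 0 0 0,[]⟩),
  (.comm 48 0 0,⟨false,[],(12,14),.mon 0 0 0,[]⟩),
  (.comm 0 27 0,⟨false,[],(8,14),.mon 0 0 0,[]⟩),
  (.comm 0 32 0,⟨false,[],(2,9),.mon 0 0 0,[]⟩),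
  (.ca 6,⟨false,[],(9,5),.all,[]⟩),
  (.comm 0 1 0,⟨false,[],(2,5),.all,[]⟩),
  (.comm 35 21 0,⟨false,[],(12,15),.mon 0 0 0,[]⟩),
  (.comm 54 0 0,⟨false,[],(7,13),.mon 0 0 0,[]⟩),
  (.cc 0,⟨false,[],(3,15),.mon 0 0 0,[]⟩),
  (.comm 10 0 0,⟨false,[],(3,4),.all,[]⟩),
  (.comm 5 33 0,⟨false,[],(3,5),.all,[]⟩),
  (.comm 3 36 0,⟨false,[],(7,9),.mon 0 0 0,[]⟩),
  (.comm 7 0 0,⟨false,[],(4,6),.all,[]⟩),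
  (.comm 36 43 0,⟨false,[],(6,9),.mon 0 0 0,[]⟩),
  (.comm 9 0 0,⟨false,[],(4,7),.all,[]⟩),
  (.comm 16 47 0,⟨false,[],(5,6),.all,[]⟩),
  (.cc 14,⟨false,[],(14,12),.mon 0 0 0,[]⟩),
  (.comm 0 16 0,⟨false,[],(6,15),.mon 0 0 0,[]⟩),
  (.comm 19 0 0,⟨false,[],(5,7),.all,[]⟩),
  (.comm 21 48 0,⟨false,[],(2,19),.all,[]⟩),
  (.comm 18 36 0,⟨false,[],(15,18),.mon 0 0 0,[]⟩),
  (.comm 0 50 0,⟨false,[],(2,18),.mon 0 0 0,[]⟩),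
  (.comm 24 0 0,⟨false,[],(2,14),.all,[]⟩),
  (.comm 0 36 0,⟨false,[],(2,18),.all,[]⟩),
  (.spec 0,⟨false,[],(2,18),.mon 0 0 0,[]⟩),
  (.comm 54 36 0,⟨false,[],(4,15),.mon 0 0 0,[]⟩),
  (.comm 28 0 0,⟨false,[],(4,19),.all,[]⟩),
  (.comm 24 40 0,⟨false,[],(8,18),.mon 0 0 0,[]⟩),
  (.comm 23 0 0,⟨false,[],(4,18),.all,[]⟩),
  (.comm 36 0 3,⟨false,[],(4,1),.fs 1,[(4,19),(3,5)]⟩),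
  (.drop 0 [3,19],⟨false,[],(4,1),.fs 1,[]⟩),
  (.rho 0,⟨false,[],(4,0),.fs (-1),[]⟩),
  (.ca 0,⟨false,[],(18,1),.fs (-1),[]⟩),
  (.rho 0,⟨false,[],(18,0),.fs 1,[]⟩),
  (.comm 33 53 0,⟨false,[],(5,13),.mon 0 0 0,[]⟩),
  (.comm 18 0 0,⟨false,[],(5,15),.mon 0 0 0,[]⟩),
  (.comm 38 0 0,⟨false,[],(5,19),.all,[]⟩),
  (.spec 5,⟨false,[],(4,0),.mon (-1) 0 0,[]⟩),
  (.comm 0 1 3,⟨false,[],(18,0),.fs (-1),[(4,19)]⟩),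
  (.drop 0 [12],⟨false,[],(18,0),.fs (-1),[]⟩),
  (.fs2 0 6,⟨false,[],(18,0),.all,[]⟩),
  (.comm 0 16 2,⟨false,[],(2,0),.all,[(2,19)]⟩),
  (.drop 0 [22],⟨false,[],(2,0),.all,[]⟩),
  (.comm 45 34 0,⟨false,[],(3,19),.all,[]⟩),
  (.comm 46 58 0,⟨false,[],(3,14),.all,[]⟩),
  (.comm 0 58 0,⟨false,[],(3,18),.all,[]⟩),
  (.spec 0,⟨false,[],(3,18),.mon 0 0 0,[]⟩),
  (.comm 6 0 2,⟨false,[],(3,0),.all,[(3,19)]⟩),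
  (.drop 0 [4],⟨false,[],(3,0),.all,[]⟩)],
  [(49,49),(43,43),(39,39),(38,38),(38,38),(43,43),(39,39),(49,49),(36,36),(34,34),(33,33),(30,30),(30,30),(34,34),(33,33),(36,36),(6,6),(0,0)]⟩ = true := by decide +kernel

theorem cBe10 : Fam.chkP .D 10 1 true true false false false
  ⟨[],[],[],[((8,21),some (0,0,1)),((13,18),some (0,0,1)),((4,18),some (0,0,1))],2,(19,1),(2,18),(7,0),(3,6),(1,0,0),[(16,5),(13,6),(20,6),(7,0),(3,6)],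
  [(.base 5,⟨false,[],(8,21),.mon 0 0 1,[(3,6),(7,0),(7,21),(7,12),(4,17),(13,18),(4,18),(19,1),(2,18)]⟩),
  (.cc 0,⟨false,[],(20,9),.mon 0 0 1,[(7,2),(3,1),(3,9),(3,16),(5,13),(17,10),(5,10),(11,0),(6,10)]⟩),
  (.ca 0,⟨false,[],(4,17),.mon 0 0 1,[(19,3),(2,0),(2,17),(2,8),(21,13),(9,14),(21,14),(15,1),(18,14)]⟩),
  (.cc 0,⟨false,[],(5,13),.mon 0 0 1,[(11,7),(6,1),(6,13),(6,20),(9,17),(21,14),(9,14),(15,0),(10,14)]⟩),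
  (.ca 0,⟨false,[],(21,13),.mon 0 0 1,[(15,19),(18,0),(18,13),(18,4),(17,9),(5,10),(17,10),(11,1),(14,10)]⟩),
  (.cc 0,⟨false,[],(9,17),.mon 0 0 1,[(15,11),(10,1),(10,17),(10,5),(13,21),(4,18),(13,18),(19,0),(14,18)]⟩),
  (.ca 0,⟨false,[],(17,9),.mon 0 0 1,[(11,15),(14,0),(14,9),(14,21),(13,5),(20,6),(13,6),(7,1),(10,6)]⟩),
  (.base 4,⟨false,[],(16,5),.mon 0 0 1,[(3,6),(7,0),(7,21),(7,12),(8,21),(13,18),(4,18),(19,1),(2,18)]⟩),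
  (.comm 0 1 0,⟨false,[],(4,9),.mon 0 0 2,[(7,15),(14,18),(7,18)]⟩),
  (.cc 0,⟨false,[],(5,21),.mon 0 0 2,[(3,15),(14,10),(3,10)]⟩),
  (.ca 0,⟨false,[],(21,5),.mon 0 0 2,[(2,11),(10,14),(2,14)]⟩),
  (.cc 0,⟨false,[],(9,4),.mon 0 0 2,[(6,19),(18,14),(6,14)]⟩),
  (.ca 0,⟨false,[],(17,20),.mon 0 0 2,[(18,7),(6,10),(18,10)]⟩),
  (.cc 0,⟨false,[],(13,8),.mon 0 0 2,[(10,3),(2,18),(10,18)]⟩),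
  (.comm 5 0 0,⟨false,[],(4,12),.mon 0 0 4,[]⟩),
  (.cc 0,⟨false,[],(5,16),.mon 0 0 4,[]⟩),
  (.ca 0,⟨false,[],(21,8),.mon 0 0 4,[]⟩),
  (.ca 2,⟨false,[],(20,12),.mon 0 0 4,[]⟩),
  (.comm 9 8 0,⟨false,[],(8,21),.mon 0 0 4,[]⟩),
  (.ca 0,⟨false,[],(16,5),.mon 0 0 4,[]⟩),
  (.cc 0,⟨false,[],(12,4),.mon 0 0 4,[]⟩),
  (.comm 0 3 0,⟨false,[],(5,21),.mon 0 0 8,[]⟩),
  (.comm 0 5 0,⟨false,[],(5,8),.mon 0 0 12,[]⟩),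
  (.cc 5,⟨false,[],(8,16),.mon 0 0 4,[]⟩),
  (.comm 16 0 0,⟨false,[],(4,9),.mon 0 0 5,[]⟩),
  (.comm 0 8 0,⟨false,[],(4,20),.mon 0 0 9,[]⟩),
  (.sI 0 4,⟨true,[],(8,21),.mon 0 0 17,[]⟩),
  (.ca 6,⟨false,[],(12,20),.mon 0 0 4,[]⟩),
  (.comm 0 13 0,⟨false,[],(4,20),.mon 0 0 8,[]⟩),
  (.sI 0 7,⟨true,[],(8,21),.mon 0 0 16,[]⟩),
  (.sN 0,⟨true,[],(8,21),.mon 0 0 (-16),[]⟩),
  (.sA 0 4,⟨true,[],(8,21),.mon 0 0 1,[]⟩),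
  (.sF 0 13,⟨false,[],(8,21),.all,[]⟩),
  (.comm 0 10 0,⟨false,[],(5,21),.all,[]⟩),
  (.spec 0,⟨false,[],(5,21),.mon 0 0 0,[]⟩),
  (.comm 2 6 0,⟨false,[],(4,9),.all,[]⟩),
  (.base 2,⟨false,[],(20,6),.mon 0 0 1,[(3,6),(7,0),(7,12),(4,17),(8,21),(13,18),(4,18),(19,1),(2,18)]⟩),
  (.comm 20 13 0,⟨false,[],(17,20),.mon 0 0 8,[]⟩),
  (.ca 5,⟨false,[],(16,5),.all,[]⟩),
  (.comm 0 1 0,⟨false,[],(4,20),.all,[]⟩),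
  (.comm 0 3 0,⟨false,[],(4,6),.all,[(4,9)]⟩),
  (.drop 0 [5],⟨false,[],(4,6),.all,[]⟩),
  (.cc 0,⟨false,[],(5,2),.all,[]⟩),
  (.ca 0,⟨false,[],(21,3),.all,[]⟩),
  (.comm 0 9 0,⟨false,[],(2,4),.all,[]⟩),
  (.spec 11,⟨false,[],(5,21),.mon 0 0 0,[]⟩),
  (.comm 4 0 0,⟨false,[],(7,21),.all,[]⟩),
  (.spec 0,⟨false,[],(7,21),.mon 0 0 0,[]⟩),
  (.comm 4 0 0,⟨false,[],(2,6),.all,[]⟩),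
  (.spec 0,⟨false,[],(2,6),.mon 0 0 0,[]⟩),
  (.spec 14,⟨false,[],(4,9),.mon 0 0 0,[]⟩),
  (.cc 7,⟨false,[],(9,7),.all,[]⟩),
  (.comm 0 1 0,⟨false,[],(4,7),.all,[]⟩),
  (.comm 0 3 0,⟨false,[],(2,5),.all,[]⟩),
  (.spec 12,⟨false,[],(4,6),.mon 0 0 0,[]⟩),
  (.comm 12 0 0,⟨false,[],(3,6),.all,[]⟩),
  (.spec 0,⟨false,[],(3,6),.mon 0 0 0,[]⟩),
  (.comm 5 0 0,⟨false,[],(3,8),.all,[]⟩),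
  (.spec 25,⟨false,[],(8,21),.mon 0 0 0,[]⟩),
  (.comm 15 0 0,⟨false,[],(2,9),.all,[]⟩),
  (.cN 24 0 2,⟨false,[],(3,5),.all,[]⟩),
  (.spec 5,⟨false,[],(3,6),.mon 0 0 0,[]⟩),
  (.comm 17 0 0,⟨false,[],(5,6),.all,[]⟩),
  (.spec 27,⟨false,[],(4,9),.mon 0 0 0,[]⟩),
  (.comm 21 0 0,⟨false,[],(3,9),.all,[]⟩),
  (.spec 0,⟨false,[],(3,9),.mon 0 0 0,[]⟩),
  (.comm 14 0 0,⟨false,[],(3,7),.all,[]⟩),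
  (.cN 22 18 0,⟨false,[],(5,7),.all,[]⟩),
  (.spec 23,⟨false,[],(2,4),.mon 0 0 0,[]⟩),
  (.spec 29,⟨false,[],(4,20),.mon 0 0 0,[]⟩),
  (.ca 28,⟨false,[],(20,18),.all,[]⟩),
  (.comm 0 1 0,⟨false,[],(4,18),.all,[]⟩),
  (.comm 56 57 0,⟨false,[],(13,16),.mon 0 0 8,[]⟩),
  (.comm 34 0 0,⟨false,[],(4,12),.all,[]⟩),
  (.spec 27,⟨false,[],(7,21),.mon 0 0 0,[]⟩),
  (.comm 23 0 0,⟨false,[],(9,21),.all,[]⟩),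
  (.spec 32,⟨false,[],(21,3),.mon 0 0 0,[]⟩),
  (.comm 12 0 0,⟨false,[],(8,20),.all,[]⟩),
  (.cN 42 0 2,⟨false,[],(4,21),.all,[]⟩),
  (.base 1,⟨false,[],(7,0),.mon 1 0 0,[(3,6),(7,21),(7,12),(4,17),(8,21),(13,18),(4,18),(19,1),(2,18)]⟩),
  (.comm 0 27 3,⟨false,[],(4,0),.fs 1,[(4,6),(3,5),(4,21),(4,12),(4,18)]⟩),
  (.drop 0 [39,20,2,7,9],⟨false,[],(4,0),.fs 1,[]⟩),
  (.comm 65 64 0,⟨false,[],(9,12),.mon 0 0 8,[]⟩),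
  (.comm 50 0 0,⟨false,[],(13,21),.all,[]⟩),
  (.cN 51 24 26,⟨false,[],(3,21),.all,[]⟩),
  (.spec 52,⟨false,[],(8,21),.mon 0 0 0,[]⟩),
  (.comm 34 0 0,⟨false,[],(6,21),.all,[]⟩),
  (.comm 7 0 3,⟨false,[],(20,0),.fs 1,[(7,21),(3,21),(13,21),(19,21)]⟩),
  (.drop 0 [41,3,4,17],⟨false,[],(20,0),.fs 1,[]⟩),
  (.ca 0,⟨false,[],(4,1),.fs 1,[]⟩),
  (.rho 0,⟨false,[],(4,0),.fs (-1),[]⟩),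
  (.fs2 0 9,⟨false,[],(4,0),.all,[]⟩),
  (.comm 0 23 2,⟨false,[],(2,0),.all,[(2,5)]⟩),
  (.drop 0 [39],⟨false,[],(2,0),.all,[]⟩),
  (.spec 51,⟨false,[],(5,2),.mon 0 0 0,[]⟩),
  (.comm 3 0 2,⟨false,[],(3,0),.all,[(3,5)]⟩),
  (.drop 0 [35],⟨false,[],(3,0),.all,[]⟩)],
  [(52,52),(43,43),(54,54),(36,36),(36,36),(43,43),(54,54),(52,52),(55,55),(44,44),(34,34),(29,29),(29,29),(44,44),(34,34),(55,55),(3,3),(0,0)]⟩ = true := by decide +kernel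

theorem cBe11 : Fam.chkP .D 11 1 true true false false false
  ⟨[],[],[],[((10,13),some (0,0,1)),((5,6),some (0,0,1)),((16,18),some (0,0,1))],2,(21,0),(3,20),(7,1),(2,6),(1,0,0),[(16,15),(23,20),(10,8),(7,1),(2,6)],
  [(.base 4,⟨false,[],(16,15),.mon 0 0 1,[(2,6),(7,1),(9,11),(21,22),(10,13),(5,6),(16,18),(21,0),(3,20)]⟩),
  (.cc 0,⟨false,[],(14,17),.mon 0 0 1,[(6,2),(3,0),(23,21),(11,8),(20,19),(4,2),(14,12),(11,1),(7,10)]⟩),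
  (.ca 0,⟨false,[],(12,11),.mon 0 0 1,[(20,3),(2,1),(5,7),(17,18),(6,9),(22,3),(12,14),(17,0),(21,16)]⟩),
  (.cc 0,⟨false,[],(18,21),.mon 0 0 1,[(10,7),(6,0),(4,3),(15,12),(2,23),(8,7),(18,16),(15,1),(11,14)]⟩),
  (.ca 0,⟨false,[],(8,7),.mon 0 0 1,[(16,21),(20,1),(22,2),(13,14),(3,5),(18,21),(8,10),(13,0),(17,12)]⟩),
  (.cc 0,⟨false,[],(22,3),.mon 0 0 1,[(14,11),(10,0),(8,6),(19,16),(7,4),(12,11),(22,20),(19,1),(15,18)]⟩),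
  (.base 3,⟨false,[],(23,20),.mon 0 0 1,[(2,6),(7,1),(9,11),(14,17),(10,13),(5,6),(16,18),(21,0),(3,20)]⟩),
  (.comm 0 1 0,⟨false,[],(2,20),.mon 0 0 2,[(7,11),(7,18),(14,18),(16,18),(10,20),(19,20),(21,23)]⟩),
  (.ca 0,⟨false,[],(3,6),.mon 0 0 2,[(21,17),(21,8),(12,8),(10,8),(16,6),(9,6),(7,5)]⟩),
  (.comm 1 0 0,⟨false,[],(7,20),.mon 0 0 4,[]⟩),
  (.cc 0,⟨false,[],(3,10),.mon 0 0 4,[]⟩),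
  (.ca 0,⟨false,[],(2,16),.mon 0 0 4,[]⟩),
  (.cc 0,⟨false,[],(6,14),.mon 0 0 4,[]⟩),
  (.ca 0,⟨false,[],(20,12),.mon 0 0 4,[]⟩),
  (.cc 0,⟨false,[],(10,18),.mon 0 0 4,[]⟩),
  (.ca 0,⟨false,[],(16,8),.mon 0 0 4,[]⟩),
  (.cc 0,⟨false,[],(14,22),.mon 0 0 4,[]⟩),
  (.ca 0,⟨false,[],(12,4),.mon 0 0 4,[]⟩),
  (.cc 0,⟨false,[],(18,5),.mon 0 0 4,[]⟩),
  (.ca 0,⟨false,[],(8,23),.mon 0 0 4,[]⟩),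
  (.comm 0 4 0,⟨false,[],(16,23),.mon 0 0 8,[]⟩),
  (.comm 14 0 0,⟨false,[],(16,20),.mon 0 0 9,[]⟩),
  (.ca 0,⟨false,[],(10,6),.mon 0 0 9,[]⟩),
  (.cc 0,⟨false,[],(20,2),.mon 0 0 9,[]⟩),
  (.ca 0,⟨false,[],(6,3),.mon 0 0 9,[]⟩),
  (.comm 7 11 0,⟨false,[],(5,21),.mon 0 0 8,[]⟩),
  (.comm 6 9 0,⟨false,[],(8,15),.mon 0 0 8,[]⟩),
  (.base 2,⟨false,[],(10,8),.mon 0 0 1,[(2,6),(7,1),(21,22),(14,17),(10,13),(5,6),(16,18),(21,0),(3,20)]⟩),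
  (.comm 0 1 0,⟨false,[],(10,15),.mon 0 0 9,[]⟩),
  (.ca 0,⟨false,[],(16,13),.mon 0 0 9,[]⟩),
  (.cc 0,⟨false,[],(14,19),.mon 0 0 9,[]⟩),
  (.ca 0,⟨false,[],(12,9),.mon 0 0 9,[]⟩),
  (.cc 0,⟨false,[],(18,23),.mon 0 0 9,[]⟩),
  (.ca 0,⟨false,[],(8,5),.mon 0 0 9,[]⟩),
  (.cc 0,⟨false,[],(22,4),.mon 0 0 9,[]⟩),
  (.comm 28 0 0,⟨false,[],(5,20),.mon 0 0 10,[]⟩),
  (.cc 0,⟨false,[],(4,10),.mon 0 0 10,[]⟩),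
  (.ca 0,⟨false,[],(22,16),.mon 0 0 10,[]⟩),
  (.cc 0,⟨false,[],(8,14),.mon 0 0 10,[]⟩),
  (.ca 0,⟨false,[],(18,12),.mon 0 0 10,[]⟩),
  (.cc 0,⟨false,[],(12,18),.mon 0 0 10,[]⟩),
  (.ca 0,⟨false,[],(14,8),.mon 0 0 10,[]⟩),
  (.cc 0,⟨false,[],(16,22),.mon 0 0 10,[]⟩),
  (.ca 0,⟨false,[],(10,4),.mon 0 0 10,[]⟩),
  (.cc 0,⟨false,[],(20,5),.mon 0 0 10,[]⟩),
  (.sI 0 9,⟨true,[],(7,20),.mon 0 0 20,[]⟩),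
  (.cc 17,⟨false,[],(20,17),.mon 0 0 9,[]⟩),
  (.ca 0,⟨false,[],(6,11),.mon 0 0 9,[]⟩),
  (.cc 0,⟨false,[],(2,21),.mon 0 0 9,[]⟩),
  (.ca 0,⟨false,[],(3,7),.mon 0 0 9,[]⟩),
  (.cc 0,⟨false,[],(7,3),.mon 0 0 9,[]⟩),
  (.ca 0,⟨false,[],(21,2),.mon 0 0 9,[]⟩),
  (.sI 3 0,⟨true,[],(7,20),.mon 0 0 18,[]⟩),
  (.sN 0,⟨true,[],(7,20),.mon 0 0 (-18),[]⟩),
  (.sA 0 8,⟨true,[],(7,20),.mon 0 0 2,[]⟩),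
  (.sF 0 45,⟨false,[],(7,20),.all,[]⟩),
  (.comm 0 30 0,⟨false,[],(5,6),.all,[]⟩),
  (.comm 0 32 0,⟨false,[],(2,4),.all,[]⟩),
  (.comm 2 33 0,⟨false,[],(2,20),.all,[]⟩),
  (.comm 0 14 0,⟨false,[],(2,5),.all,[]⟩),
  (.cc 4,⟨false,[],(3,10),.all,[]⟩),
  (.comm 0 17 0,⟨false,[],(3,4),.all,[]⟩),
  (.comm 43 47 0,⟨false,[],(4,11),.mon 0 0 8,[]⟩),
  (.comm 2 0 0,⟨false,[],(3,5),.all,[]⟩),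
  (.comm 8 19 0,⟨false,[],(4,6),.all,[]⟩),
  (.comm 1 40 0,⟨false,[],(4,7),.all,[]⟩),
  (.comm 5 18 0,⟨false,[],(3,7),.all,[]⟩),
  (.cN 0 3 9,⟨false,[],(5,7),.all,[]⟩),
  (.comm 7 19 0,⟨false,[],(11,21),.all,[]⟩),
  (.comm 13 21 0,⟨false,[],(10,20),.all,[]⟩),
  (.cN 11 0 1,⟨false,[],(2,10),.all,[]⟩),
  (.comm 1 22 0,⟨false,[],(2,11),.all,[]⟩),
  (.spec 0,⟨false,[],(2,11),.mon 0 0 0,[]⟩),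
  (.comm 56 60 0,⟨false,[],(6,22),.mon 0 0 8,[]⟩),
  (.comm 18 0 0,⟨false,[],(21,22),.all,[]⟩),
  (.comm 0 40 0,⟨false,[],(5,20),.all,[]⟩),
  (.ca 31,⟨false,[],(6,23),.mon 0 0 10,[]⟩),
  (.comm 2 0 0,⟨false,[],(6,20),.all,[]⟩),
  (.base 1,⟨false,[],(7,1),.mon 1 0 0,[(2,6),(9,11),(21,22),(14,17),(10,13),(5,6),(16,18),(21,0),(3,20)]⟩),
  (.comm 0 1 3,⟨false,[],(21,1),.fs 1,[(7,20),(2,20),(5,20)]⟩),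
  (.drop 0 [24,21,4],⟨false,[],(21,1),.fs 1,[]⟩),
  (.rho 0,⟨false,[],(21,0),.fs (-1),[]⟩),
  (.cc 0,⟨false,[],(11,1),.fs (-1),[]⟩),
  (.rho 0,⟨false,[],(11,0),.fs 1,[]⟩),
  (.cc 62,⟨false,[],(14,10),.mon 0 0 9,[]⟩),
  (.comm 29 72 0,⟨false,[],(15,20),.all,[]⟩),
  (.comm 0 1 0,⟨false,[],(11,20),.all,[]⟩),
  (.spec 5,⟨false,[],(21,0),.mon (-1) 0 0,[]⟩),
  (.comm 0 19 3,⟨false,[],(11,0),.fs (-1),[(11,20)]⟩),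
  (.drop 0 [2],⟨false,[],(11,0),.fs (-1),[]⟩),
  (.fs2 0 6,⟨false,[],(11,0),.all,[]⟩),
  (.comm 0 18 2,⟨false,[],(2,0),.all,[(2,10)]⟩),
  (.drop 0 [21],⟨false,[],(2,0),.all,[]⟩),
  (.comm 23 69 0,⟨false,[],(3,11),.all,[]⟩),
  (.spec 0,⟨false,[],(3,11),.mon 0 0 0,[]⟩),
  (.comm 4 0 2,⟨false,[],(3,0),.all,[(3,10)]⟩),
  (.drop 0 [35],⟨false,[],(3,0),.all,[]⟩)],
  [(39,39),(37,37),(35,35),(33,33),(33,33),(37,37),(35,35),(39,39),(32,32),(31,31),(40,40),(29,29),(29,29),(31,31),(40,40),(32,32),(4,4),(0,0)]⟩ = true := by decide +kernel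

theorem cBe12 : Fam.chkP .D 12 1 true true false false false
  ⟨[],[],[],[((10,21),some (0,0,0))],2,(5,1),(2,4),(25,0),(3,24),(1,0,0),[(18,9),(25,0),(3,24)],
  [(.base 2,⟨false,[],(18,9),.mon 0 0 0,[(3,24),(25,0),(10,21),(5,1),(2,4)]⟩),
  (.cc 0,⟨false,[],(14,25),.mon 0 0 0,[(7,8),(9,1),(22,13),(4,0),(6,5)]⟩),
  (.ca 0,⟨false,[],(14,5),.mon 0 0 0,[(23,20),(21,0),(6,17),(24,1),(22,25)]⟩),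
  (.cc 0,⟨false,[],(18,4),.mon 0 0 0,[(11,12),(13,1),(2,17),(8,0),(10,9)]⟩),
  (.ca 0,⟨false,[],(10,24),.mon 0 0 0,[(19,16),(17,0),(3,13),(20,1),(18,21)]⟩),
  (.cc 0,⟨false,[],(22,8),.mon 0 0 0,[(15,16),(17,1),(7,21),(12,0),(14,13)]⟩),
  (.comm 5 0 0,⟨false,[],(18,23),.mon 0 0 0,[(17,24),(12,24),(5,16),(5,13)]⟩),
  (.ca 0,⟨false,[],(10,7),.mon 0 0 0,[(13,4),(16,4),(25,12),(25,17)]⟩),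
  (.cc 0,⟨false,[],(22,3),.mon 0 0 0,[(21,5),(16,5),(9,20),(9,17)]⟩),
  (.ca 0,⟨false,[],(6,2),.mon 0 0 0,[(9,25),(12,25),(21,8),(21,13)]⟩),
  (.cc 0,⟨false,[],(2,6),.mon 0 0 0,[(25,9),(20,9),(13,24),(13,21)]⟩),
  (.ca 0,⟨false,[],(3,22),.mon 0 0 0,[(5,21),(8,21),(17,4),(17,9)]⟩),
  (.cc 0,⟨false,[],(7,10),.mon 0 0 0,[(4,13),(24,13),(17,5),(17,25)]⟩),
  (.ca 0,⟨false,[],(23,18),.mon 0 0 0,[(24,17),(4,17),(13,25),(13,5)]⟩),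
  (.cc 0,⟨false,[],(11,14),.mon 0 0 0,[(8,17),(5,17),(21,9),(21,4)]⟩),
  (.ca 0,⟨false,[],(19,14),.mon 0 0 0,[(20,13),(25,13),(9,21),(9,24)]⟩),
  (.comm 9 0 0,⟨false,[],(15,23),.mon 0 0 0,[]⟩),
  (.ca 0,⟨false,[],(15,7),.mon 0 0 0,[]⟩),
  (.cc 0,⟨false,[],(19,3),.mon 0 0 0,[]⟩),
  (.ca 0,⟨false,[],(11,2),.mon 0 0 0,[]⟩),
  (.cc 3,⟨false,[],(19,11),.mon 0 0 0,[]⟩),
  (.comm 20 0 0,⟨false,[],(8,11),.mon 0 0 0,[]⟩),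
  (.cc 0,⟨false,[],(24,23),.mon 0 0 0,[]⟩),
  (.ca 0,⟨false,[],(4,7),.mon 0 0 0,[]⟩),
  (.cc 0,⟨false,[],(5,3),.mon 0 0 0,[]⟩),
  (.comm 0 5 0,⟨false,[],(5,10),.mon 0 0 0,[]⟩),
  (.comm 19 14 0,⟨false,[],(3,19),.mon 0 0 0,[]⟩),
  (.cc 7,⟨false,[],(23,6),.mon 0 0 0,[]⟩),
  (.comm 5 0 0,⟨false,[],(7,25),.mon 0 0 0,[]⟩),
  (.comm 0 5 0,⟨false,[],(4,25),.mon 0 0 0,[]⟩),
  (.ca 5,⟨false,[],(25,2),.mon 0 0 0,[]⟩),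
  (.comm 0 1 0,⟨false,[],(3,5),.mon 0 0 0,[]⟩),
  (.comm 8 4 0,⟨false,[],(4,22),.mon 0 0 0,[]⟩),
  (.comm 0 8 0,⟨false,[],(2,22),.mon 0 0 0,[]⟩),
  (.comm 4 9 0,⟨false,[],(2,25),.mon 0 0 0,[]⟩),
  (.comm 15 14 0,⟨false,[],(3,18),.mon 0 0 0,[]⟩),
  (.comm 11 9 0,⟨false,[],(5,19),.mon 0 0 0,[]⟩),
  (.comm 0 1 0,⟨false,[],(3,4),.mon 0 0 0,[]⟩),
  (.comm 0 3 0,⟨false,[],(5,25),.mon 0 0 0,[]⟩),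
  (.base 1,⟨false,[],(25,0),.mon 1 0 0,[(3,24),(8,19),(10,21),(5,1),(2,4)]⟩),
  (.comm 0 1 6,⟨false,[],(5,24),.mon 1 1 0,[(5,0),(3,4)]⟩),
  (.comm 0 18 0,⟨false,[],(5,23),.mon 1 1 0,[]⟩),
  (.comm 0 8 0,⟨false,[],(2,4),.mon 1 1 0,[]⟩),
  (.sI 0 11,⟨true,[],(3,19),.mon 1 1 0,[]⟩),
  (.sF 0 17,⟨false,[],(3,19),.all,[]⟩),
  (.ca 0,⟨false,[],(2,11),.all,[]⟩),
  (.comm 0 20 0,⟨false,[],(2,4),.all,[]⟩),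
  (.ca 26,⟨false,[],(11,19),.mon 0 0 0,[]⟩),
  (.comm 0 29 0,⟨false,[],(2,10),.mon 0 0 0,[]⟩),
  (.comm 18 0 0,⟨false,[],(11,24),.mon 0 0 0,[]⟩),
  (.comm 0 20 0,⟨false,[],(4,10),.mon 0 0 0,[]⟩),
  (.comm 5 0 0,⟨false,[],(2,5),.all,[]⟩),
  (.comm 27 16 0,⟨false,[],(5,18),.mon 0 0 0,[]⟩),
  (.comm 8 0 0,⟨false,[],(3,4),.all,[]⟩),
  (.comm 23 35 0,⟨false,[],(19,24),.mon 0 0 0,[]⟩),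
  (.comm 0 25 0,⟨false,[],(4,18),.mon 0 0 0,[]⟩),
  (.comm 11 0 0,⟨false,[],(3,5),.all,[]⟩),
  (.comm 29 40 0,⟨false,[],(7,14),.mon 0 0 0,[]⟩),
  (.comm 34 0 0,⟨false,[],(4,14),.mon 0 0 0,[]⟩),
  (.cc 14,⟨false,[],(7,15),.all,[]⟩),
  (.comm 0 1 0,⟨false,[],(4,6),.all,[]⟩),
  (.comm 36 37 0,⟨false,[],(2,7),.mon 0 0 0,[]⟩),
  (.comm 17 0 0,⟨false,[],(6,19),.all,[]⟩),
  (.comm 0 7 0,⟨false,[],(4,7),.all,[]⟩),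
  (.comm 36 46 0,⟨false,[],(15,22),.mon 0 0 0,[]⟩),
  (.comm 42 0 0,⟨false,[],(15,25),.mon 0 0 0,[]⟩),
  (.comm 35 0 0,⟨false,[],(3,14),.mon 0 0 0,[]⟩),
  (.comm 0 42 0,⟨false,[],(5,14),.mon 0 0 0,[]⟩),
  (.comm 8 0 0,⟨false,[],(5,6),.all,[]⟩),
  (.comm 16 45 0,⟨false,[],(6,18),.mon 0 0 0,[]⟩),
  (.comm 25 45 0,⟨false,[],(5,19),.all,[]⟩),
  (.comm 0 1 0,⟨false,[],(5,7),.all,[]⟩),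
  (.comm 27 51 0,⟨false,[],(3,11),.all,[]⟩),
  (.ca 0,⟨false,[],(2,19),.all,[]⟩),
  (.comm 54 55 0,⟨false,[],(11,18),.mon 0 0 0,[]⟩),
  (.comm 29 0 0,⟨false,[],(2,18),.all,[]⟩),
  (.ca 49,⟨false,[],(2,11),.mon 0 0 0,[]⟩),
  (.comm 46 0 0,⟨false,[],(10,24),.mon 0 0 0,[]⟩),
  (.comm 0 29 0,⟨false,[],(2,24),.mon 0 0 0,[]⟩),
  (.comm 34 0 0,⟨false,[],(18,24),.all,[]⟩),
  (.comm 35 45 0,⟨false,[],(18,25),.all,[]⟩),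
  (.comm 41 0 3,⟨false,[],(18,0),.fs 1,[(18,24),(3,19),(5,19)]⟩),
  (.drop 0 [2,37,11],⟨false,[],(18,0),.fs 1,[]⟩),
  (.spec 0,⟨false,[],(18,0),.mon 1 0 0,[]⟩),
  (.comm 0 8 3,⟨false,[],(2,0),.fs 1,[(2,19)]⟩),
  (.drop 0 [11],⟨false,[],(2,0),.fs 1,[]⟩),
  (.comm 41 16 0,⟨false,[],(3,7),.all,[]⟩),
  (.comm 24 32 0,⟨false,[],(6,24),.all,[]⟩),
  (.comm 35 58 0,⟨false,[],(19,25),.mon 0 0 0,[]⟩),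
  (.comm 26 0 0,⟨false,[],(6,25),.all,[]⟩),
  (.comm 50 0 3,⟨false,[],(6,0),.fs 1,[(6,24),(3,7),(5,7)]⟩),
  (.drop 0 [3,4,19],⟨false,[],(6,0),.fs 1,[]⟩),
  (.cc 0,⟨false,[],(2,1),.fs 1,[]⟩),
  (.rho 0,⟨false,[],(2,0),.fs (-1),[]⟩),
  (.fs2 0 8,⟨false,[],(2,0),.all,[]⟩),
  (.comm 22 20 0,⟨false,[],(3,18),.all,[]⟩),
  (.spec 13,⟨false,[],(18,0),.mon 1 0 0,[]⟩),
  (.comm 0 1 3,⟨false,[],(3,0),.fs 1,[(3,19)]⟩),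
  (.drop 0 [53],⟨false,[],(3,0),.fs 1,[]⟩),
  (.cc 72,⟨false,[],(7,15),.mon 0 0 0,[]⟩),
  (.comm 76 0 0,⟨false,[],(4,15),.mon 0 0 0,[]⟩),
  (.comm 0 43 0,⟨false,[],(4,6),.mon 0 0 0,[]⟩),
  (.comm 0 49 0,⟨false,[],(7,18),.mon 0 0 0,[]⟩),
  (.comm 58 0 0,⟨false,[],(3,6),.all,[]⟩),
  (.comm 45 79 0,⟨false,[],(2,14),.mon 0 0 0,[]⟩),
  (.comm 0 74 0,⟨false,[],(15,24),.mon 0 0 0,[]⟩),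
  (.comm 46 0 0,⟨false,[],(7,24),.all,[]⟩),
  (.comm 47 41 0,⟨false,[],(7,25),.all,[]⟩),
  (.comm 68 0 3,⟨false,[],(7,0),.fs 1,[(7,24),(3,6),(5,6)]⟩),
  (.drop 0 [2,5,40],⟨false,[],(7,0),.fs 1,[]⟩),
  (.cc 0,⟨false,[],(3,1),.fs 1,[]⟩),
  (.rho 0,⟨false,[],(3,0),.fs (-1),[]⟩),
  (.fs2 0 13,⟨false,[],(3,0),.all,[]⟩)],
  [(66,66),(61,61),(59,59),(56,56),(56,56),(61,61),(59,59),(66,66),(52,52),(49,49),(44,44),(41,41),(41,41),(49,49),(44,44),(52,52),(18,18),(0,0)]⟩ = true := by decide +kernel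

theorem cBe13 : Fam.chkP .D 13 1 true true false false false
  ⟨[],[],[],[((6,8),some (0,0,1))],2,(13,1),(3,18),(19,0),(2,12),(1,0,0),[(24,22),(19,0),(2,12)],
  [(.base 3,⟨false,[],(6,8),.mon 0 0 1,[(2,12),(19,0),(23,25),(13,1),(3,18)]⟩),
  (.cc 0,⟨false,[],(2,26),.mon 0 0 1,[(6,22),(17,1),(13,11),(23,0),(7,16)]⟩),
  (.ca 0,⟨false,[],(3,4),.mon 0 0 1,[(24,8),(15,0),(19,21),(9,1),(25,14)]⟩),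
  (.cc 0,⟨false,[],(7,5),.mon 0 0 1,[(10,26),(21,1),(17,15),(27,0),(11,20)]⟩),
  (.ca 0,⟨false,[],(25,27),.mon 0 0 1,[(20,4),(11,0),(15,17),(5,1),(21,10)]⟩),
  (.base 2,⟨false,[],(24,22),.mon 0 0 1,[(2,12),(19,0),(6,8),(13,1),(3,18)]⟩),
  (.comm 0 1 0,⟨false,[],(23,27),.mon 0 0 2,[(11,18),(5,18),(11,12),(5,12)]⟩),
  (.cc 0,⟨false,[],(13,9),.mon 0 0 2,[(25,16),(4,16),(25,22),(4,22)]⟩),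
  (.ca 0,⟨false,[],(19,23),.mon 0 0 2,[(7,14),(26,14),(7,8),(26,8)]⟩),
  (.comm 2 0 0,⟨false,[],(19,27),.mon 0 0 4,[]⟩),
  (.cc 0,⟨false,[],(17,9),.mon 0 0 4,[]⟩),
  (.ca 0,⟨false,[],(15,23),.mon 0 0 4,[]⟩),
  (.comm 6 0 0,⟨false,[],(15,25),.mon 0 0 5,[]⟩),
  (.cc 0,⟨false,[],(21,11),.mon 0 0 5,[]⟩),
  (.ca 0,⟨false,[],(11,21),.mon 0 0 5,[]⟩),
  (.cc 0,⟨false,[],(25,15),.mon 0 0 5,[]⟩),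
  (.ca 0,⟨false,[],(7,17),.mon 0 0 5,[]⟩),
  (.cc 0,⟨false,[],(3,19),.mon 0 0 5,[]⟩),
  (.ca 0,⟨false,[],(2,13),.mon 0 0 5,[]⟩),
  (.ca 6,⟨false,[],(17,7),.mon 0 0 5,[]⟩),
  (.cc 0,⟨false,[],(19,3),.mon 0 0 5,[]⟩),
  (.ca 0,⟨false,[],(13,2),.mon 0 0 5,[]⟩),
  (.cc 0,⟨false,[],(23,6),.mon 0 0 5,[]⟩),
  (.ca 0,⟨false,[],(9,24),.mon 0 0 5,[]⟩),
  (.cc 0,⟨false,[],(27,10),.mon 0 0 5,[]⟩),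
  (.ca 0,⟨false,[],(5,20),.mon 0 0 5,[]⟩),
  (.cc 0,⟨false,[],(4,14),.mon 0 0 5,[]⟩),
  (.ca 0,⟨false,[],(26,16),.mon 0 0 5,[]⟩),
  (.cc 0,⟨false,[],(8,18),.mon 0 0 5,[]⟩),
  (.ca 0,⟨false,[],(22,12),.mon 0 0 5,[]⟩),
  (.comm 0 11 0,⟨false,[],(2,23),.mon 0 0 10,[]⟩),
  (.ca 24,⟨false,[],(9,5),.mon 0 0 2,[(21,12),(27,12),(21,18),(27,18)]⟩),
  (.cc 0,⟨false,[],(27,4),.mon 0 0 2,[(15,22),(9,22),(15,16),(9,16)]⟩),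
  (.comm 26 0 0,⟨false,[],(5,22),.mon 0 0 4,[]⟩),
  (.cc 4,⟨false,[],(12,22),.mon 0 0 5,[]⟩),
  (.comm 0 13 0,⟨false,[],(3,22),.mon 0 0 10,[]⟩),
  (.sI 5 0,⟨true,[],(5,22),.mon 0 0 20,[]⟩),
  (.cc 25,⟨false,[],(21,13),.mon 0 0 4,[]⟩),
  (.ca 0,⟨false,[],(11,19),.mon 0 0 4,[]⟩),
  (.cc 0,⟨false,[],(25,17),.mon 0 0 4,[]⟩),
  (.ca 0,⟨false,[],(7,15),.mon 0 0 4,[]⟩),
  (.cc 0,⟨false,[],(3,21),.mon 0 0 4,[]⟩),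
  (.comm 16 0 0,⟨false,[],(3,4),.mon 0 0 9,[]⟩),
  (.cc 9,⟨false,[],(4,12),.mon 0 0 4,[]⟩),
  (.comm 25 0 0,⟨false,[],(2,5),.mon 0 0 9,[]⟩),
  (.sI 0 2,⟨true,[],(5,22),.mon 0 0 18,[]⟩),
  (.sN 0,⟨true,[],(5,22),.mon 0 0 (-18),[]⟩),
  (.sA 0 10,⟨true,[],(5,22),.mon 0 0 2,[]⟩),
  (.sF 0 14,⟨false,[],(5,22),.all,[]⟩),
  (.comm 0 18 0,⟨false,[],(2,4),.all,[]⟩),
  (.cc 1,⟨false,[],(4,12),.all,[]⟩),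
  (.comm 0 32 0,⟨false,[],(2,5),.all,[]⟩),
  (.comm 46 12 0,⟨false,[],(16,22),.mon 0 0 5,[]⟩),
  (.ca 0,⟨false,[],(14,8),.mon 0 0 5,[]⟩),
  (.cc 0,⟨false,[],(20,26),.mon 0 0 5,[]⟩),
  (.ca 0,⟨false,[],(10,4),.mon 0 0 5,[]⟩),
  (.cc 0,⟨false,[],(24,5),.mon 0 0 5,[]⟩),
  (.ca 0,⟨false,[],(6,27),.mon 0 0 5,[]⟩),
  (.cc 0,⟨false,[],(2,9),.mon 0 0 5,[]⟩),
  (.ca 0,⟨false,[],(3,23),.mon 0 0 5,[]⟩),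
  (.comm 11 0 0,⟨false,[],(3,4),.all,[]⟩),
  (.comm 19 23 0,⟨false,[],(3,13),.mon 0 0 8,[]⟩),
  (.comm 11 0 0,⟨false,[],(3,5),.all,[]⟩),
  (.cc 3,⟨false,[],(7,13),.mon 0 0 5,[]⟩),
  (.comm 13 0 0,⟨false,[],(4,6),.all,[]⟩),
  (.cc 46,⟨false,[],(6,23),.mon 0 0 5,[]⟩),
  (.comm 31 0 0,⟨false,[],(6,13),.mon 0 0 10,[]⟩),
  (.comm 16 0 0,⟨false,[],(4,7),.all,[]⟩),
  (.comm 27 56 0,⟨false,[],(7,23),.mon 0 0 8,[]⟩),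
  (.comm 20 0 0,⟨false,[],(5,6),.all,[]⟩),
  (.comm 21 4 0,⟨false,[],(5,7),.all,[]⟩),
  (.comm 32 61 0,⟨false,[],(11,27),.mon 0 0 8,[]⟩),
  (.ca 30,⟨false,[],(2,11),.mon 0 0 4,[]⟩),
  (.comm 0 1 0,⟨false,[],(2,27),.mon 0 0 12,[]⟩),
  (.ca 25,⟨false,[],(27,8),.all,[]⟩),
  (.comm 0 1 0,⟨false,[],(2,8),.all,[]⟩),
  (.comm 16 17 0,⟨false,[],(8,23),.mon 0 0 10,[]⟩),
  (.comm 28 32 0,⟨false,[],(2,22),.all,[]⟩),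
  (.comm 0 1 0,⟨false,[],(2,9),.all,[]⟩),
  (.spec 0,⟨false,[],(2,9),.mon 0 0 0,[]⟩),
  (.cc 27,⟨false,[],(18,12),.mon 0 0 5,[]⟩),
  (.comm 0 71 0,⟨false,[],(13,27),.mon 0 0 9,[]⟩),
  (.comm 7 0 0,⟨false,[],(9,12),.all,[]⟩),
  (.comm 65 73 0,⟨false,[],(3,27),.mon 0 0 9,[]⟩),
  (.comm 9 0 0,⟨false,[],(3,8),.all,[]⟩),
  (.comm 10 75 0,⟨false,[],(9,18),.all,[]⟩),
  (.ca 20,⟨false,[],(24,9),.mon 0 0 5,[]⟩),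
  (.cc 0,⟨false,[],(10,27),.mon 0 0 5,[]⟩),
  (.comm 0 49 0,⟨false,[],(18,27),.mon 0 0 9,[]⟩),
  (.comm 14 0 0,⟨false,[],(9,19),.all,[]⟩),
  (.base 1,⟨false,[],(19,0),.mon 1 0 0,[(2,12),(23,25),(6,8),(13,1),(3,18)]⟩),
  (.comm 0 1 3,⟨false,[],(9,0),.fs 1,[(9,18),(3,8),(9,12)]⟩),
  (.drop 0 [6,7,9],⟨false,[],(9,0),.fs 1,[]⟩),
  (.spec 44,⟨false,[],(5,22),.mon 0 0 0,[]⟩),
  (.comm 43 0 0,⟨false,[],(13,22),.all,[]⟩),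
  (.comm 57 51 0,⟨false,[],(4,20),.mon 0 0 8,[]⟩),
  (.comm 54 0 0,⟨false,[],(3,5),.mon 0 0 12,[]⟩),
  (.comm 48 0 0,⟨false,[],(3,22),.all,[]⟩),
  (.ca 17,⟨false,[],(12,18),.mon 0 0 5,[]⟩),
  (.comm 0 55 0,⟨false,[],(4,18),.mon 0 0 9,[]⟩),
  (.comm 51 0 0,⟨false,[],(19,22),.all,[]⟩),
  (.ca 37,⟨false,[],(25,19),.mon 0 0 5,[]⟩),
  (.comm 0 45 0,⟨false,[],(4,19),.mon 0 0 10,[]⟩),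
  (.comm 54 0 0,⟨false,[],(18,22),.all,[]⟩),
  (.comm 13 0 3,⟨false,[],(23,0),.fs 1,[(19,22),(3,22),(13,22)]⟩),
  (.drop 0 [4,7,10],⟨false,[],(23,0),.fs 1,[]⟩),
  (.ca 0,⟨false,[],(9,1),.fs 1,[]⟩),
  (.rho 0,⟨false,[],(9,0),.fs (-1),[]⟩),
  (.fs2 0 15,⟨false,[],(9,0),.all,[]⟩),
  (.comm 0 29 2,⟨false,[],(2,0),.all,[(2,8)]⟩),
  (.drop 0 [34],⟨false,[],(2,0),.all,[]⟩),
  (.comm 13 34 0,⟨false,[],(3,9),.all,[]⟩),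
  (.spec 0,⟨false,[],(3,9),.mon 0 0 0,[]⟩),
  (.comm 4 0 2,⟨false,[],(3,0),.all,[(3,8)]⟩),
  (.drop 0 [29],⟨false,[],(3,0),.all,[]⟩)],
  [(65,65),(63,63),(54,54),(52,52),(52,52),(63,63),(54,54),(65,65),(50,50),(47,47),(45,45),(44,44),(44,44),(47,47),(45,45),(50,50),(4,4),(0,0)]⟩ = true := by decide +kernel

theorem cBe14 : Fam.chkP .D 14 1 true true false false false
  ⟨[],[],[],[((6,25),some (0,0,1)),((13,22),some (0,0,1)),((19,27),some (0,0,1))],2,(28,1),(2,5),(4,0),(3,29),(1,0,0),[(26,9),(21,10),(15,7),(4,0),(3,29)],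
  [(.base 4,⟨false,[],(26,9),.mon 0 0 1,[(3,29),(4,0),(6,14),(11,20),(6,25),(13,22),(19,27),(28,1),(2,5)]⟩),
  (.base 3,⟨false,[],(21,10),.mon 0 0 1,[(3,29),(4,0),(6,14),(8,27),(6,25),(13,22),(19,27),(28,1),(2,5)]⟩),
  (.cc 0,⟨false,[],(17,26),.mon 0 0 1,[(7,9),(5,1),(2,22),(28,11),(2,13),(25,14),(19,11),(8,0),(6,4)]⟩),
  (.ca 0,⟨false,[],(17,6),.mon 0 0 1,[(27,25),(29,0),(3,10),(4,23),(3,21),(9,18),(15,23),(24,1),(26,28)]⟩),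
  (.cc 0,⟨false,[],(21,2),.mon 0 0 1,[(11,13),(9,1),(7,26),(5,15),(7,17),(29,18),(23,15),(12,0),(10,8)]⟩),
  (.ca 0,⟨false,[],(13,3),.mon 0 0 1,[(23,21),(25,0),(27,6),(29,19),(27,17),(5,14),(11,19),(20,1),(22,24)]⟩),
  (.cc 0,⟨false,[],(25,7),.mon 0 0 1,[(15,17),(13,1),(11,2),(9,19),(11,21),(4,22),(27,19),(16,0),(14,12)]⟩),
  (.ca 0,⟨false,[],(9,27),.mon 0 0 1,[(19,17),(21,0),(23,3),(25,15),(23,13),(28,10),(7,15),(16,1),(18,20)]⟩),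
  (.cc 0,⟨false,[],(29,11),.mon 0 0 1,[(19,21),(17,1),(15,7),(13,23),(15,25),(8,26),(3,23),(20,0),(18,16)]⟩),
  (.ca 0,⟨false,[],(5,23),.mon 0 0 1,[(15,13),(17,0),(19,27),(21,11),(19,9),(24,6),(2,11),(12,1),(14,16)]⟩),
  (.cc 0,⟨false,[],(4,15),.mon 0 0 1,[(23,25),(21,1),(19,11),(17,27),(19,29),(12,2),(6,27),(24,0),(22,20)]⟩),
  (.base 2,⟨false,[],(15,7),.mon 0 0 1,[(3,29),(4,0),(11,20),(8,27),(6,25),(13,22),(19,27),(28,1),(2,5)]⟩),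
  (.comm 0 1 0,⟨false,[],(4,7),.mon 0 0 2,[(4,20),(4,25),(19,20),(3,22),(13,20),(21,29),(24,29),(4,13),(4,22),(3,20)]⟩),
  (.cc 0,⟨false,[],(5,3),.mon 0 0 2,[(5,16),(5,13),(19,16),(7,14),(25,16),(17,9),(12,9),(5,25),(5,14),(7,16)]⟩),
  (.ca 0,⟨false,[],(29,2),.mon 0 0 2,[(29,16),(29,21),(15,16),(27,18),(9,16),(17,25),(20,25),(29,9),(29,18),(27,16)]⟩),
  (.cc 0,⟨false,[],(9,6),.mon 0 0 2,[(9,20),(9,17),(23,20),(11,18),(29,20),(21,13),(16,13),(9,29),(9,18),(11,20)]⟩),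
  (.comm 3 0 0,⟨false,[],(4,8),.mon 0 0 4,[(16,20),(21,25)]⟩),
  (.comm 0 16 0,⟨false,[],(4,27),.mon 0 0 5,[]⟩),
  (.ca 0,⟨false,[],(28,7),.mon 0 0 5,[]⟩),
  (.cc 0,⟨false,[],(8,3),.mon 0 0 5,[]⟩),
  (.ca 0,⟨false,[],(24,2),.mon 0 0 5,[]⟩),
  (.cc 0,⟨false,[],(12,6),.mon 0 0 5,[]⟩),
  (.ca 0,⟨false,[],(20,26),.mon 0 0 5,[]⟩),
  (.cc 0,⟨false,[],(16,10),.mon 0 0 5,[]⟩),
  (.cc 23,⟨false,[],(10,29),.mon 0 0 1,[(7,9),(5,1),(2,22),(27,16),(2,13),(25,14),(19,11),(8,0),(6,4)]⟩),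
  (.ca 0,⟨false,[],(22,5),.mon 0 0 1,[(27,25),(29,0),(3,10),(7,16),(3,21),(9,18),(15,23),(24,1),(26,28)]⟩),
  (.cc 0,⟨false,[],(14,4),.mon 0 0 1,[(11,13),(9,1),(7,26),(3,20),(7,17),(29,18),(23,15),(12,0),(10,8)]⟩),
  (.comm 10 0 0,⟨false,[],(9,15),.mon 0 0 5,[]⟩),
  (.ca 0,⟨false,[],(25,19),.mon 0 0 5,[]⟩),
  (.cc 0,⟨false,[],(13,19),.mon 0 0 5,[]⟩),
  (.ca 0,⟨false,[],(21,15),.mon 0 0 5,[]⟩),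
  (.comm 19 0 0,⟨false,[],(6,20),.mon 0 0 6,[]⟩),
  (.cc 0,⟨false,[],(2,16),.mon 0 0 6,[]⟩),
  (.comm 0 9 0,⟨false,[],(2,10),.mon 0 0 11,[]⟩),
  (.ca 2,⟨false,[],(26,12),.mon 0 0 6,[]⟩),
  (.cc 0,⟨false,[],(10,24),.mon 0 0 6,[]⟩),
  (.ca 0,⟨false,[],(22,8),.mon 0 0 6,[]⟩),
  (.cc 0,⟨false,[],(14,28),.mon 0 0 6,[]⟩),
  (.ca 0,⟨false,[],(18,4),.mon 0 0 6,[]⟩),
  (.cc 0,⟨false,[],(18,5),.mon 0 0 6,[]⟩),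
  (.ca 7,⟨false,[],(3,16),.mon 0 0 6,[]⟩),
  (.cc 0,⟨false,[],(7,20),.mon 0 0 6,[]⟩),
  (.ca 0,⟨false,[],(27,12),.mon 0 0 6,[]⟩),
  (.cc 0,⟨false,[],(11,24),.mon 0 0 6,[]⟩),
  (.ca 0,⟨false,[],(23,8),.mon 0 0 6,[]⟩),
  (.cc 0,⟨false,[],(15,28),.mon 0 0 6,[]⟩),
  (.ca 0,⟨false,[],(19,4),.mon 0 0 6,[]⟩),
  (.sI 0 7,⟨true,[],(4,27),.mon 0 0 12,[]⟩),
  (.cc 17,⟨false,[],(17,23),.mon 0 0 5,[]⟩),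
  (.ca 0,⟨false,[],(17,11),.mon 0 0 5,[]⟩),
  (.cc 0,⟨false,[],(21,27),.mon 0 0 5,[]⟩),
  (.ca 0,⟨false,[],(13,7),.mon 0 0 5,[]⟩),
  (.cc 0,⟨false,[],(25,3),.mon 0 0 5,[]⟩),
  (.ca 0,⟨false,[],(9,2),.mon 0 0 5,[]⟩),
  (.cc 0,⟨false,[],(29,6),.mon 0 0 5,[]⟩),
  (.ca 0,⟨false,[],(5,26),.mon 0 0 5,[]⟩),
  (.cc 0,⟨false,[],(4,10),.mon 0 0 5,[]⟩),
  (.cc 39,⟨false,[],(5,11),.mon 0 0 5,[]⟩),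
  (.sI 0 1,⟨true,[],(4,27),.mon 0 0 10,[]⟩),
  (.sN 0,⟨true,[],(4,27),.mon 0 0 (-10),[]⟩),
  (.sA 0 12,⟨true,[],(4,27),.mon 0 0 2,[]⟩),
  (.sF 0 43,⟨false,[],(4,27),.all,[]⟩),
  (.cc 0,⟨false,[],(5,11),.all,[]⟩),
  (.comm 0 29 0,⟨false,[],(2,4),.all,[]⟩),
  (.ca 24,⟨false,[],(14,29),.mon 0 0 6,[]⟩),
  (.cc 0,⟨false,[],(22,9),.mon 0 0 6,[]⟩),
  (.ca 0,⟨false,[],(10,25),.mon 0 0 6,[]⟩),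
  (.comm 0 14 0,⟨false,[],(2,11),.mon 0 0 11,[]⟩),
  (.comm 11 12 0,⟨false,[],(11,26),.mon 0 0 10,[]⟩),
  (.comm 7 0 0,⟨false,[],(4,10),.all,[]⟩),
  (.comm 0 2 0,⟨false,[],(2,5),.all,[]⟩),
  (.comm 30 47 0,⟨false,[],(3,10),.mon 0 0 11,[]⟩),
  (.comm 9 0 0,⟨false,[],(3,4),.all,[]⟩),
  (.ca 49,⟨false,[],(16,22),.mon 0 0 5,[]⟩),
  (.cc 0,⟨false,[],(20,14),.mon 0 0 5,[]⟩),
  (.ca 0,⟨false,[],(12,18),.mon 0 0 5,[]⟩),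
  (.cc 0,⟨false,[],(24,18),.mon 0 0 5,[]⟩),
  (.ca 0,⟨false,[],(8,14),.mon 0 0 5,[]⟩),
  (.comm 0 24 0,⟨false,[],(3,14),.mon 0 0 10,[]⟩),
  (.comm 56 48 0,⟨false,[],(14,26),.mon 0 0 10,[]⟩),
  (.comm 18 0 0,⟨false,[],(4,15),.all,[]⟩),
  (.comm 0 2 0,⟨false,[],(3,5),.all,[]⟩),
  (.comm 40 59 0,⟨false,[],(7,26),.mon 0 0 11,[]⟩),
  (.comm 21 0 0,⟨false,[],(4,6),.all,[]⟩),
  (.comm 52 61 0,⟨false,[],(6,26),.mon 0 0 11,[]⟩),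
  (.comm 23 0 0,⟨false,[],(4,7),.all,[]⟩),
  (.cc 4,⟨false,[],(7,4),.all,[]⟩),
  (.comm 48 11 0,⟨false,[],(5,13),.mon 0 0 11,[]⟩),
  (.comm 33 36 0,⟨false,[],(13,28),.mon 0 0 10,[]⟩),
  (.ca 27,⟨false,[],(28,7),.all,[]⟩),
  (.comm 0 1 0,⟨false,[],(6,12),.all,[]⟩),
  (.comm 0 3 0,⟨false,[],(5,7),.all,[]⟩),
  (.comm 55 18 0,⟨false,[],(9,17),.mon 0 0 11,[]⟩),
  (.cc 3,⟨false,[],(8,3),.all,[]⟩),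
  (.comm 0 1 0,⟨false,[],(2,17),.all,[]⟩),
  (.comm 62 41 0,⟨false,[],(9,16),.mon 0 0 11,[]⟩),
  (.comm 2 0 0,⟨false,[],(2,16),.all,[]⟩),
  (.spec 0,⟨false,[],(2,16),.mon 0 0 0,[]⟩),
  (.comm 74 40 0,⟨false,[],(5,17),.mon 0 0 10,[]⟩),
  (.comm 37 0 0,⟨false,[],(16,27),.all,[]⟩),
  (.spec 0,⟨false,[],(16,27),.mon 0 0 0,[]⟩),
  (.comm 11 18 0,⟨false,[],(27,29),.all,[]⟩),
  (.comm 0 1 0,⟨false,[],(16,29),.all,[]⟩),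
  (.spec 19,⟨false,[],(4,6),.mon 0 0 0,[]⟩),
  (.cc 76,⟨false,[],(29,23),.mon 0 0 5,[]⟩),
  (.comm 31 0 0,⟨false,[],(16,28),.mon 0 0 10,[]⟩),
  (.comm 16 0 0,⟨false,[],(6,17),.all,[]⟩),
  (.comm 0 3 0,⟨false,[],(4,17),.all,[]⟩),
  (.comm 45 84 0,⟨false,[],(5,17),.all,[]⟩),
  (.base 1,⟨false,[],(4,0),.mon 1 0 0,[(3,29),(6,14),(11,20),(8,27),(6,25),(13,22),(19,27),(28,1),(2,5)]⟩),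
  (.comm 0 1 3,⟨false,[],(16,0),.fs 1,[(4,17),(2,17),(16,29)]⟩),
  (.drop 0 [3,16,8],⟨false,[],(16,0),.fs 1,[]⟩),
  (.ca 0,⟨false,[],(16,1),.fs 1,[]⟩),
  (.rho 0,⟨false,[],(16,0),.fs (-1),[]⟩),
  (.fs2 0 2,⟨false,[],(16,0),.all,[]⟩),
  (.comm 0 17 2,⟨false,[],(2,0),.all,[(2,17)]⟩),
  (.drop 0 [21],⟨false,[],(2,0),.all,[]⟩),
  (.cN 8 53 35,⟨false,[],(3,17),.all,[]⟩),
  (.comm 61 68 0,⟨false,[],(4,16),.mon 0 0 10,[]⟩),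
  (.comm 56 0 0,⟨false,[],(10,16),.all,[]⟩),
  (.comm 0 48 0,⟨false,[],(3,16),.all,[]⟩),
  (.spec 0,⟨false,[],(3,16),.mon 0 0 0,[]⟩),
  (.comm 7 0 2,⟨false,[],(3,0),.all,[(3,17)]⟩),
  (.drop 0 [5],⟨false,[],(3,0),.all,[]⟩)],
  [(60,60),(53,53),(51,51),(42,42),(42,42),(53,53),(51,51),(60,60),(40,40),(38,38),(37,37),(32,32),(32,32),(38,38),(37,37),(40,40),(7,7),(0,0)]⟩ = true := by decide +kernel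

theorem cBe15 : Fam.chkP .D 15 1 true true false false false
  ⟨[],[],[],[((9,31),some (0,0,1)),((17,29),some (0,0,0))],2,(4,1),(2,31),(30,0),(3,5),(1,0,0),[(27,5),(19,7),(30,0),(3,5)],
  [(.base 2,⟨false,[],(19,7),.mon 0 0 0,[(3,5),(30,0),(4,26),(9,31),(17,29),(4,1),(2,31)]⟩),
  (.cc 0,⟨false,[],(21,3),.mon 0 0 0,[(7,4),(8,1),(5,12),(31,9),(23,11),(5,0),(6,9)]⟩),
  (.ca 0,⟨false,[],(15,2),.mon 0 0 0,[(29,30),(26,0),(31,22),(5,27),(13,25),(31,1),(28,27)]⟩),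
  (.cc 0,⟨false,[],(25,6),.mon 0 0 0,[(11,8),(12,1),(9,16),(4,13),(27,15),(9,0),(10,13)]⟩),
  (.comm 3 0 0,⟨false,[],(19,24),.mon 0 0 0,[(12,31),(9,31),(4,13),(4,8)]⟩),
  (.ca 0,⟨false,[],(17,10),.mon 0 0 0,[(22,5),(27,5),(30,23),(30,26)]⟩),
  (.cc 0,⟨false,[],(23,28),.mon 0 0 0,[(16,4),(13,4),(8,17),(8,12)]⟩),
  (.ca 0,⟨false,[],(13,6),.mon 0 0 0,[(18,30),(23,30),(26,19),(26,22)]⟩),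
  (.cc 0,⟨false,[],(27,2),.mon 0 0 0,[(20,8),(17,8),(12,21),(12,16)]⟩),
  (.ca 0,⟨false,[],(9,3),.mon 0 0 0,[(14,26),(19,26),(22,15),(22,18)]⟩),
  (.cc 0,⟨false,[],(31,7),.mon 0 0 0,[(24,12),(21,12),(16,25),(16,20)]⟩),
  (.ca 0,⟨false,[],(5,29),.mon 0 0 0,[(10,22),(15,22),(18,11),(18,14)]⟩),
  (.cc 0,⟨false,[],(4,11),.mon 0 0 0,[(28,16),(25,16),(20,29),(20,24)]⟩),
  (.ca 0,⟨false,[],(30,25),.mon 0 0 0,[(6,18),(11,18),(14,7),(14,10)]⟩),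
  (.cc 0,⟨false,[],(8,15),.mon 0 0 0,[(2,20),(29,20),(24,3),(24,28)]⟩),
  (.ca 0,⟨false,[],(26,21),.mon 0 0 0,[(3,14),(7,14),(10,2),(10,6)]⟩),
  (.cc 0,⟨false,[],(12,19),.mon 0 0 0,[(7,24),(3,24),(28,6),(28,2)]⟩),
  (.comm 12 0 0,⟨false,[],(12,24),.mon 0 0 0,[]⟩),
  (.comm 13 4 0,⟨false,[],(19,31),.mon 0 0 0,[]⟩),
  (.ca 0,⟨false,[],(17,5),.mon 0 0 0,[]⟩),
  (.cc 0,⟨false,[],(23,4),.mon 0 0 0,[]⟩),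
  (.ca 0,⟨false,[],(13,30),.mon 0 0 0,[]⟩),
  (.comm 0 4 0,⟨false,[],(25,30),.mon 0 0 0,[]⟩),
  (.ca 5,⟨false,[],(22,10),.mon 0 0 0,[]⟩),
  (.cc 0,⟨false,[],(16,28),.mon 0 0 0,[]⟩),
  (.ca 0,⟨false,[],(18,6),.mon 0 0 0,[]⟩),
  (.cc 0,⟨false,[],(20,2),.mon 0 0 0,[]⟩),
  (.ca 0,⟨false,[],(14,3),.mon 0 0 0,[]⟩),
  (.cc 0,⟨false,[],(24,7),.mon 0 0 0,[]⟩),
  (.comm 0 3 0,⟨false,[],(18,25),.mon 0 0 0,[]⟩),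
  (.comm 0 7 0,⟨false,[],(18,30),.mon 0 0 0,[]⟩),
  (.cc 13,⟨false,[],(26,14),.mon 0 0 0,[]⟩),
  (.cc 10,⟨false,[],(27,8),.mon 0 0 0,[]⟩),
  (.comm 0 1 0,⟨false,[],(9,14),.mon 0 0 0,[]⟩),
  (.comm 6 0 0,⟨false,[],(2,8),.mon 0 0 0,[]⟩),
  (.base 3,⟨false,[],(27,5),.mon 0 0 1,[(3,5),(30,0),(6,18),(9,31),(17,29),(4,1),(2,31)]⟩),
  (.comm 0 4 0,⟨false,[],(4,14),.mon 0 0 1,[]⟩),
  (.ca 0,⟨false,[],(30,20),.mon 0 0 1,[]⟩),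
  (.cc 0,⟨false,[],(8,18),.mon 0 0 1,[]⟩),
  (.comm 0 4 0,⟨false,[],(2,18),.mon 0 0 1,[]⟩),
  (.comm 0 9 0,⟨false,[],(2,30),.mon 0 0 1,[]⟩),
  (.comm 13 9 0,⟨false,[],(2,27),.mon 0 0 0,[]⟩),
  (.comm 0 15 0,⟨false,[],(20,27),.mon 0 0 0,[]⟩),
  (.comm 7 0 0,⟨false,[],(4,21),.mon 0 0 1,[]⟩),
  (.cc 0,⟨false,[],(5,19),.mon 0 0 1,[]⟩),
  (.comm 7 18 0,⟨false,[],(3,31),.mon 0 0 1,[]⟩),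
  (.sI 5 0,⟨true,[],(19,31),.mon 0 0 2,[]⟩),
  (.sF 0 28,⟨false,[],(19,31),.all,[]⟩),
  (.comm 0 3 0,⟨false,[],(5,31),.all,[]⟩),
  (.comm 0 8 0,⟨false,[],(2,4),.all,[]⟩),
  (.comm 29 26 0,⟨false,[],(5,10),.mon 0 0 0,[]⟩),
  (.ca 22,⟨false,[],(10,29),.mon 0 0 0,[]⟩),
  (.comm 0 27 0,⟨false,[],(10,17),.mon 0 0 0,[]⟩),
  (.comm 0 2 0,⟨false,[],(5,17),.mon 0 0 0,[]⟩),
  (.comm 17 26 0,⟨false,[],(2,5),.mon 0 0 1,[]⟩),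
  (.comm 0 1 0,⟨false,[],(2,17),.mon 0 0 1,[]⟩),
  (.ca 8,⟨false,[],(17,5),.all,[]⟩),
  (.comm 0 1 0,⟨false,[],(2,5),.all,[]⟩),
  (.ca 13,⟨false,[],(31,17),.mon 0 0 1,[]⟩),
  (.cc 40,⟨false,[],(21,9),.mon 0 0 0,[]⟩),
  (.comm 27 0 0,⟨false,[],(21,26),.mon 0 0 0,[]⟩),
  (.comm 0 34 0,⟨false,[],(3,26),.mon 0 0 0,[]⟩),
  (.ca 23,⟨false,[],(26,16),.mon 0 0 1,[]⟩),
  (.comm 0 1 0,⟨false,[],(3,16),.mon 0 0 1,[]⟩),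
  (.comm 0 5 0,⟨false,[],(3,30),.mon 0 0 2,[]⟩),
  (.comm 16 0 0,⟨false,[],(3,4),.all,[]⟩),
  (.comm 7 20 0,⟨false,[],(3,17),.mon 0 0 2,[]⟩),
  (.comm 10 0 0,⟨false,[],(3,5),.all,[]⟩),
  (.comm 42 49 0,⟨false,[],(7,31),.mon 0 0 0,[]⟩),
  (.comm 10 0 0,⟨false,[],(7,17),.mon 0 0 1,[]⟩),
  (.comm 13 0 0,⟨false,[],(4,6),.all,[]⟩),
  (.comm 27 17 0,⟨false,[],(16,21),.mon 0 0 1,[]⟩),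
  (.comm 43 49 0,⟨false,[],(6,30),.mon 0 0 0,[]⟩),
  (.comm 35 0 0,⟨false,[],(6,20),.mon 0 0 1,[]⟩),
  (.comm 0 2 0,⟨false,[],(6,17),.mon 0 0 2,[]⟩),
  (.comm 18 0 0,⟨false,[],(4,7),.all,[]⟩),
  (.comm 13 22 0,⟨false,[],(5,27),.mon 0 0 1,[]⟩),
  (.comm 38 44 0,⟨false,[],(19,26),.mon 0 0 1,[]⟩),
  (.comm 0 47 0,⟨false,[],(27,30),.mon 0 0 1,[]⟩),
  (.comm 0 2 0,⟨false,[],(5,30),.mon 0 0 2,[]⟩),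
  (.comm 32 54 0,⟨false,[],(7,31),.all,[]⟩),
  (.comm 0 1 0,⟨false,[],(5,6),.all,[]⟩),
  (.comm 34 9 0,⟨false,[],(6,18),.all,[]⟩),
  (.comm 0 38 0,⟨false,[],(5,7),.all,[]⟩),
  (.comm 56 57 0,⟨false,[],(14,21),.mon 0 0 0,[]⟩),
  (.comm 0 51 0,⟨false,[],(9,21),.mon 0 0 0,[]⟩),
  (.comm 48 0 0,⟨false,[],(9,31),.mon 0 0 1,[]⟩),
  (.comm 28 0 0,⟨false,[],(9,17),.mon 0 0 2,[]⟩),
  (.comm 31 0 0,⟨false,[],(4,8),.all,[]⟩),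
  (.comm 51 58 0,⟨false,[],(18,20),.mon 0 0 1,[]⟩),
  (.comm 0 46 0,⟨false,[],(4,19),.mon 0 0 2,[]⟩),
  (.comm 43 0 0,⟨false,[],(4,31),.all,[]⟩),
  (.comm 35 33 0,⟨false,[],(4,30),.all,[]⟩),
  (.base 1,⟨false,[],(30,0),.mon 1 0 0,[(3,5),(6,18),(4,26),(9,31),(17,29),(4,1),(2,31)]⟩),
  (.comm 0 1 3,⟨false,[],(4,0),.fs 1,[(4,31),(4,8),(2,5)]⟩),
  (.drop 0 [3,6,37],⟨false,[],(4,0),.fs 1,[]⟩),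
  (.spec 0,⟨false,[],(4,0),.mon 1 0 0,[]⟩),
  (.comm 0 47 3,⟨false,[],(2,0),.fs 1,[(2,5)]⟩),
  (.drop 0 [40],⟨false,[],(2,0),.fs 1,[]⟩),
  (.comm 54 44 0,⟨false,[],(2,19),.mon 0 0 2,[]⟩),
  (.comm 17 0 0,⟨false,[],(2,7),.all,[]⟩),
  (.comm 14 70 0,⟨false,[],(9,19),.mon 0 0 1,[]⟩),
  (.comm 19 0 0,⟨false,[],(6,8),.all,[]⟩),
  (.ca 59,⟨false,[],(30,15),.mon 0 0 1,[]⟩),
  (.comm 0 31 0,⟨false,[],(6,15),.mon 0 0 1,[]⟩),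
  (.comm 60 68 0,⟨false,[],(15,19),.mon 0 0 2,[]⟩),
  (.comm 0 1 0,⟨false,[],(6,19),.mon 0 0 3,[]⟩),
  (.comm 59 0 0,⟨false,[],(6,31),.all,[]⟩),
  (.comm 25 77 0,⟨false,[],(6,30),.all,[]⟩),
  (.comm 15 0 3,⟨false,[],(6,0),.fs 1,[(6,31),(6,8),(2,7),(4,7)]⟩),
  (.drop 0 [2,7,9,34],⟨false,[],(6,0),.fs 1,[]⟩),
  (.cc 0,⟨false,[],(2,1),.fs 1,[]⟩),
  (.rho 0,⟨false,[],(2,0),.fs (-1),[]⟩),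
  (.fs2 0 14,⟨false,[],(2,0),.all,[]⟩),
  (.comm 68 83 0,⟨false,[],(3,19),.mon 0 0 1,[]⟩),
  (.comm 67 0 0,⟨false,[],(3,31),.all,[]⟩),
  (.comm 68 51 0,⟨false,[],(3,18),.all,[]⟩),
  (.comm 0 86 0,⟨false,[],(3,30),.all,[]⟩),
  (.spec 0,⟨false,[],(3,30),.mon 0 0 0,[]⟩),
  (.spec 23,⟨false,[],(4,0),.mon 1 0 0,[]⟩),
  (.comm 0 71 3,⟨false,[],(30,0),.fs 1,[(4,31)]⟩),
  (.drop 0 [29],⟨false,[],(30,0),.fs 1,[]⟩),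
  (.ca 26,⟨false,[],(30,1),.fs 1,[]⟩),
  (.rho 0,⟨false,[],(30,0),.fs (-1),[]⟩),
  (.fs2 0 2,⟨false,[],(30,0),.all,[]⟩),
  (.comm 0 6 2,⟨false,[],(3,0),.all,[(3,31)]⟩),
  (.drop 0 [10],⟨false,[],(3,0),.all,[]⟩)],
  [(77,77),(69,69),(61,61),(59,59),(59,59),(69,69),(61,61),(77,77),(56,56),(51,51),(45,45),(43,43),(43,43),(51,51),(45,45),(56,56),(13,13),(0,0)]⟩ = true := by decide +kernel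

theorem cBe16 : Fam.chkP .D 16 1 true true false false false
  ⟨[],[],[],[((12,27),some (0,0,1)),((29,30),some (0,0,0)),((10,30),some (0,0,0))],2,(14,0),(3,23),(22,1),(2,15),(1,0,0),[(24,11),(9,6),(26,6),(22,1),(2,15)],
  [(.base 3,⟨false,[],(9,6),.mon 0 0 0,[(2,15),(22,1),(7,27),(10,25),(12,27),(29,30),(10,30),(14,0),(3,23)]⟩),
  (.cc 0,⟨false,[],(33,2),.mon 0 0 0,[(6,27),(18,0),(3,15),(30,17),(28,15),(13,10),(30,10),(26,1),(7,19)]⟩),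
  (.ca 0,⟨false,[],(5,3),.mon 0 0 0,[(30,11),(18,1),(2,23),(6,21),(8,23),(25,26),(6,26),(10,0),(31,19)]⟩),
  (.cc 0,⟨false,[],(4,7),.mon 0 0 0,[(10,31),(22,0),(6,19),(2,21),(32,19),(17,14),(2,14),(30,1),(11,23)]⟩),
  (.ca 0,⟨false,[],(32,31),.mon 0 0 0,[(26,7),(14,1),(30,19),(3,17),(4,19),(21,22),(3,22),(6,0),(27,15)]⟩),
  (.cc 0,⟨false,[],(8,11),.mon 0 0 0,[(14,3),(26,0),(10,23),(7,25),(5,23),(21,18),(7,18),(2,1),(15,27)]⟩),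
  (.comm 5 0 0,⟨false,[],(7,11),.mon 0 0 0,[(2,27),(22,27),(2,23),(14,27),(2,15),(26,0),(14,23),(22,1)]⟩),
  (.ca 0,⟨false,[],(31,27),.mon 0 0 0,[(3,11),(14,11),(3,15),(22,11),(3,23),(10,1),(22,15),(14,0)]⟩),
  (.cc 0,⟨false,[],(11,15),.mon 0 0 0,[(7,31),(26,31),(7,27),(18,31),(7,19),(30,0),(18,27),(26,1)]⟩),
  (.ca 0,⟨false,[],(27,23),.mon 0 0 0,[(31,7),(10,7),(31,11),(18,7),(31,19),(6,1),(18,11),(10,0)]⟩),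
  (.cc 0,⟨false,[],(15,19),.mon 0 0 0,[(11,3),(30,3),(11,31),(22,3),(11,23),(2,0),(22,31),(30,1)]⟩),
  (.ca 4,⟨false,[],(31,27),.mon 0 0 0,[(3,11),(14,11),(3,15),(22,11),(3,23),(10,1),(22,15),(14,0)]⟩),
  (.cc 0,⟨false,[],(11,15),.mon 0 0 0,[(7,31),(26,31),(7,27),(18,31),(7,19),(30,0),(18,27),(26,1)]⟩),
  (.comm 6 0 0,⟨false,[],(7,15),.mon 0 0 0,[(26,31),(22,31),(22,27)]⟩),
  (.comm 0 3 0,⟨false,[],(7,19),.mon 0 0 0,[]⟩),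
  (.ca 0,⟨false,[],(31,19),.mon 0 0 0,[]⟩),
  (.cc 0,⟨false,[],(11,23),.mon 0 0 0,[]⟩),
  (.ca 0,⟨false,[],(27,15),.mon 0 0 0,[]⟩),
  (.cc 0,⟨false,[],(15,27),.mon 0 0 0,[]⟩),
  (.ca 0,⟨false,[],(23,11),.mon 0 0 0,[]⟩),
  (.cc 0,⟨false,[],(19,31),.mon 0 0 0,[]⟩),
  (.ca 0,⟨false,[],(19,7),.mon 0 0 0,[]⟩),
  (.cc 0,⟨false,[],(23,3),.mon 0 0 0,[]⟩),
  (.ca 0,⟨false,[],(15,2),.mon 0 0 0,[]⟩),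
  (.comm 0 1 0,⟨false,[],(15,22),.mon 0 0 0,[]⟩),
  (.cc 18,⟨false,[],(3,31),.mon 0 0 0,[(6,15),(18,15),(6,19),(26,15),(6,27),(14,1),(26,19),(18,0)]⟩),
  (.ca 0,⟨false,[],(2,7),.mon 0 0 0,[(30,23),(18,23),(30,19),(10,23),(30,11),(22,0),(10,19),(18,1)]⟩),
  (.comm 13 0 0,⟨false,[],(2,15),.mon 0 0 0,[]⟩),
  (.cc 0,⟨false,[],(6,27),.mon 0 0 0,[]⟩),
  (.comm 28 0 0,⟨false,[],(9,27),.mon 0 0 0,[]⟩),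
  (.cc 0,⟨false,[],(33,15),.mon 0 0 0,[]⟩),
  (.ca 0,⟨false,[],(5,23),.mon 0 0 0,[]⟩),
  (.comm 0 7 0,⟨false,[],(5,14),.mon 0 0 0,[]⟩),
  (.comm 14 5 0,⟨false,[],(2,27),.mon 0 0 0,[]⟩),
  (.cc 10,⟨false,[],(27,6),.mon 0 0 0,[]⟩),
  (.comm 0 1 0,⟨false,[],(2,6),.mon 0 0 0,[]⟩),
  (.comm 0 14 0,⟨false,[],(2,18),.mon 0 0 0,[]⟩),
  (.cc 5,⟨false,[],(4,19),.mon 0 0 0,[]⟩),
  (.comm 0 1 0,⟨false,[],(2,5),.mon 0 0 0,[]⟩),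
  (.comm 10 24 0,⟨false,[],(18,27),.mon 0 0 0,[]⟩),
  (.comm 22 0 0,⟨false,[],(14,19),.mon 0 0 0,[]⟩),
  (.comm 20 0 0,⟨false,[],(14,31),.mon 0 0 0,[]⟩),
  (.comm 18 0 0,⟨false,[],(3,31),.mon 0 0 0,[]⟩),
  (.ca 8,⟨false,[],(11,30),.mon 0 0 0,[]⟩),
  (.comm 0 1 0,⟨false,[],(3,10),.mon 0 0 0,[]⟩),
  (.ca 15,⟨false,[],(29,11),.mon 0 0 0,[]⟩),
  (.cc 0,⟨false,[],(13,31),.mon 0 0 0,[]⟩),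
  (.ca 0,⟨false,[],(25,7),.mon 0 0 0,[]⟩),
  (.comm 27 33 0,⟨false,[],(7,31),.mon 0 0 0,[]⟩),
  (.comm 5 29 0,⟨false,[],(23,30),.mon 0 0 0,[]⟩),
  (.comm 0 1 0,⟨false,[],(7,22),.mon 0 0 0,[]⟩),
  (.comm 19 0 0,⟨false,[],(5,6),.mon 0 0 0,[]⟩),
  (.comm 0 4 0,⟨false,[],(5,24),.mon 0 0 0,[]⟩),
  (.base 4,⟨false,[],(24,11),.mon 0 0 1,[(2,15),(22,1),(7,27),(7,8),(12,27),(29,30),(10,30),(14,0),(3,23)]⟩),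
  (.comm 0 1 0,⟨false,[],(5,11),.mon 0 0 1,[]⟩),
  (.comm 0 10 0,⟨false,[],(3,4),.mon 0 0 1,[]⟩),
  (.sI 0 17,⟨true,[],(2,15),.mon 0 0 1,[]⟩),
  (.sF 0 29,⟨false,[],(2,15),.all,[]⟩),
  (.comm 0 25 0,⟨false,[],(2,4),.all,[]⟩),
  (.comm 24 40 0,⟨false,[],(7,14),.mon 0 0 0,[]⟩),
  (.comm 0 38 0,⟨false,[],(15,18),.mon 0 0 0,[]⟩),
  (.comm 23 0 0,⟨false,[],(4,14),.mon 0 0 0,[]⟩),
  (.comm 4 0 0,⟨false,[],(2,5),.all,[]⟩),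
  (.comm 20 40 0,⟨false,[],(23,31),.mon 0 0 0,[]⟩),
  (.comm 0 20 0,⟨false,[],(11,22),.mon 0 0 0,[]⟩),
  (.comm 33 45 0,⟨false,[],(5,11),.mon 0 0 0,[]⟩),
  (.comm 0 1 0,⟨false,[],(5,22),.mon 0 0 0,[]⟩),
  (.ca 9,⟨false,[],(3,23),.all,[]⟩),
  (.comm 0 1 0,⟨false,[],(3,4),.all,[]⟩),
  (.comm 19 48 0,⟨false,[],(19,22),.mon 0 0 0,[]⟩),
  (.comm 32 0 0,⟨false,[],(4,22),.mon 0 0 0,[]⟩),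
  (.comm 3 0 0,⟨false,[],(3,5),.all,[]⟩),
  (.ca 44,⟨false,[],(3,23),.mon 0 0 0,[]⟩),
  (.comm 53 0 0,⟨false,[],(3,11),.mon 0 0 0,[]⟩),
  (.comm 30 0 0,⟨false,[],(3,30),.mon 0 0 0,[]⟩),
  (.comm 0 26 0,⟨false,[],(3,6),.mon 0 0 0,[]⟩),
  (.comm 18 0 0,⟨false,[],(7,15),.all,[]⟩),
  (.comm 0 15 0,⟨false,[],(4,6),.all,[]⟩),
  (.comm 43 56 0,⟨false,[],(19,26),.mon 0 0 0,[]⟩),
  (.comm 41 0 0,⟨false,[],(4,26),.mon 0 0 0,[]⟩),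
  (.cc 22,⟨false,[],(6,27),.all,[]⟩),
  (.comm 0 1 0,⟨false,[],(4,7),.all,[]⟩),
  (.comm 5 49 0,⟨false,[],(5,6),.all,[]⟩),
  (.comm 59 65 0,⟨false,[],(3,26),.mon 0 0 0,[]⟩),
  (.comm 0 61 0,⟨false,[],(23,26),.mon 0 0 0,[]⟩),
  (.comm 53 0 0,⟨false,[],(5,26),.mon 0 0 0,[]⟩),
  (.comm 5 0 0,⟨false,[],(5,7),.all,[]⟩),
  (.comm 29 68 0,⟨false,[],(2,27),.all,[]⟩),
  (.ca 59,⟨false,[],(30,11),.mon 0 0 0,[]⟩),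
  (.comm 0 73 0,⟨false,[],(10,19),.mon 0 0 0,[]⟩),
  (.comm 0 73 0,⟨false,[],(18,23),.mon 0 0 0,[]⟩),
  (.comm 69 0 0,⟨false,[],(6,23),.mon 0 0 0,[]⟩),
  (.comm 0 69 0,⟨false,[],(2,7),.mon 0 0 0,[]⟩),
  (.comm 0 69 0,⟨false,[],(6,14),.mon 0 0 0,[]⟩),
  (.comm 0 59 0,⟨false,[],(15,26),.mon 0 0 0,[]⟩),
  (.comm 37 0 0,⟨false,[],(2,26),.all,[]⟩),
  (.spec 0,⟨false,[],(2,26),.mon 0 0 0,[]⟩),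
  (.comm 29 47 0,⟨false,[],(3,30),.all,[]⟩),
  (.comm 81 9 0,⟨false,[],(22,31),.mon 0 0 0,[]⟩),
  (.comm 76 0 0,⟨false,[],(2,31),.mon 0 0 0,[]⟩),
  (.comm 0 76 0,⟨false,[],(15,31),.mon 0 0 0,[]⟩),
  (.comm 43 0 0,⟨false,[],(2,31),.all,[]⟩),
  (.comm 44 59 0,⟨false,[],(14,31),.all,[]⟩),
  (.cN 0 1 5,⟨false,[],(3,15),.all,[]⟩),
  (.spec 46,⟨false,[],(2,15),.mon 0 0 0,[]⟩),
  (.comm 37 0 0,⟨false,[],(14,23),.all,[]⟩),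
  (.comm 56 63 0,⟨false,[],(3,22),.mon 0 0 0,[]⟩),
  (.comm 49 0 0,⟨false,[],(14,22),.all,[]⟩),
  (.base 1,⟨false,[],(22,1),.mon 1 0 0,[(2,15),(7,27),(7,8),(10,25),(12,27),(29,30),(10,30),(14,0),(3,23)]⟩),
  (.comm 0 1 3,⟨false,[],(14,1),.fs 1,[(14,23),(3,15)]⟩),
  (.drop 0 [4,6],⟨false,[],(14,1),.fs 1,[]⟩),
  (.rho 0,⟨false,[],(14,0),.fs (-1),[]⟩),
  (.cc 0,⟨false,[],(26,1),.fs (-1),[]⟩),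
  (.rho 0,⟨false,[],(26,0),.fs 1,[]⟩),
  (.comm 93 74 0,⟨false,[],(26,31),.mon 0 0 0,[]⟩),
  (.comm 40 0 0,⟨false,[],(3,27),.mon 0 0 0,[]⟩),
  (.comm 58 0 0,⟨false,[],(14,27),.all,[]⟩),
  (.comm 67 2 0,⟨false,[],(23,27),.mon 0 0 0,[]⟩),
  (.comm 50 0 0,⟨false,[],(3,27),.all,[]⟩),
  (.comm 46 91 0,⟨false,[],(14,23),.mon 0 0 0,[]⟩),
  (.comm 101 0 0,⟨false,[],(22,27),.mon 0 0 0,[]⟩),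
  (.comm 86 0 0,⟨false,[],(7,23),.mon 0 0 0,[]⟩),
  (.comm 41 0 0,⟨false,[],(22,27),.all,[]⟩),
  (.comm 42 72 0,⟨false,[],(23,27),.all,[]⟩),
  (.comm 15 0 3,⟨false,[],(26,1),.fs 1,[(22,27),(3,27),(14,27)]⟩),
  (.drop 0 [2,6,8],⟨false,[],(26,1),.fs 1,[]⟩),
  (.rho 0,⟨false,[],(26,0),.fs (-1),[]⟩),
  (.fs2 0 13,⟨false,[],(26,0),.all,[]⟩),
  (.comm 0 31 2,⟨false,[],(2,0),.all,[(2,27)]⟩),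
  (.drop 0 [41],⟨false,[],(2,0),.all,[]⟩),
  (.comm 62 45 0,⟨false,[],(3,26),.all,[]⟩),
  (.spec 0,⟨false,[],(3,26),.mon 0 0 0,[]⟩),
  (.comm 4 0 2,⟨false,[],(3,0),.all,[(3,27)]⟩),
  (.drop 0 [14],⟨false,[],(3,0),.all,[]⟩)],
  [(75,75),(71,71),(65,65),(62,62),(62,62),(71,71),(65,65),(75,75),(56,56),(52,52),(51,51),(47,47),(47,47),(52,52),(51,51),(56,56),(4,4),(0,0)]⟩ = true := by decide +kernel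

theorem cBew : Fam.chkP .D 17 9 false true false false false
  ⟨[],[],[],[((8,23),some (0,0,1)),((17,26),some (0,0,1)),((7,23),some (0,0,1))],2,(31,0),(7,19),(7,1),(31,18),(1,0,0),[(28,15),(21,10),(31,15),(7,1),(31,18)],
  [(.base 3,⟨false,[],(21,10),.mon 0 0 1,[(19,30),(7,1),(14,30),(14,29),(8,23),(17,26),(7,23),(31,0),(7,19)]⟩),
  (.cc 0,⟨false,[],(20,30),.mon 0 0 1,[(23,10),(35,0),(26,10),(26,13),(32,19),(25,14),(35,19),(11,1),(35,23)]⟩),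
  (.base 4,⟨false,[],(28,15),.mon 0 0 1,[(19,30),(7,1),(14,30),(11,20),(8,23),(17,26),(7,23),(31,0),(7,19)]⟩),
  (.cc 0,⟨false,[],(12,27),.mon 0 0 1,[(23,10),(35,0),(26,10),(31,21),(32,19),(25,14),(35,19),(11,1),(35,23)]⟩),
  (.ca 0,⟨false,[],(24,11),.mon 0 0 1,[(15,26),(3,1),(10,26),(7,17),(4,18),(13,22),(3,18),(27,0),(3,15)]⟩),
  (.comm 4 0 0,⟨false,[],(21,25),.mon 0 0 2,[(21,26),(3,6),(7,26),(27,30),(27,29),(8,12),(7,12),(3,30),(4,6)]⟩),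
  (.ca 0,⟨false,[],(17,13),.mon 0 0 2,[(17,10),(35,30),(31,10),(11,6),(11,9),(28,24),(31,24),(35,6),(32,30)]⟩),
  (.cc 0,⟨false,[],(25,29),.mon 0 0 2,[(25,30),(7,10),(11,30),(31,34),(31,33),(12,16),(11,16),(7,34),(8,10)]⟩),
  (.comm 2 0 0,⟨false,[],(21,29),.mon 0 0 4,[(21,30),(8,16),(7,16)]⟩),
  (.comm 0 7 0,⟨false,[],(28,30),.mon 0 0 5,[]⟩),
  (.cc 0,⟨false,[],(12,10),.mon 0 0 5,[]⟩),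
  (.ca 0,⟨false,[],(24,26),.mon 0 0 5,[]⟩),
  (.cc 0,⟨false,[],(16,14),.mon 0 0 5,[]⟩),
  (.ca 0,⟨false,[],(20,22),.mon 0 0 5,[]⟩),
  (.cc 0,⟨false,[],(21,18),.mon 0 0 5,[]⟩),
  (.ca 0,⟨false,[],(17,19),.mon 0 0 5,[]⟩),
  (.cc 0,⟨false,[],(25,23),.mon 0 0 5,[]⟩),
  (.ca 0,⟨false,[],(13,15),.mon 0 0 5,[]⟩),
  (.cc 0,⟨false,[],(29,27),.mon 0 0 5,[]⟩),
  (.ca 0,⟨false,[],(9,11),.mon 0 0 5,[]⟩),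
  (.cc 0,⟨false,[],(33,31),.mon 0 0 5,[]⟩),
  (.base 6,⟨false,[],(17,26),.mon 0 0 1,[(19,30),(7,1),(14,30),(11,20),(14,29),(8,23),(7,23),(31,0),(7,19)]⟩),
  (.cc 0,⟨false,[],(25,14),.mon 0 0 1,[(23,10),(35,0),(26,10),(31,21),(26,13),(32,19),(35,19),(11,1),(35,23)]⟩),
  (.comm 20 0 0,⟨false,[],(25,29),.mon 0 0 2,[(31,33),(31,34),(7,34),(7,10),(25,30),(11,30),(8,10),(11,16),(12,16)]⟩),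
  (.cc 0,⟨false,[],(17,13),.mon 0 0 2,[(11,9),(11,6),(35,6),(35,30),(17,10),(31,10),(32,30),(31,24),(28,24)]⟩),
  (.ca 0,⟨false,[],(21,25),.mon 0 0 2,[(27,29),(27,30),(3,30),(3,6),(21,26),(7,26),(4,6),(7,12),(8,12)]⟩),
  (.base 2,⟨false,[],(31,15),.mon 0 0 1,[(19,30),(7,1),(11,20),(14,29),(8,23),(17,26),(7,23),(31,0),(7,19)]⟩),
  (.comm 0 4 0,⟨false,[],(25,30),.mon 0 0 2,[(31,33),(31,34),(7,34),(7,10),(11,30),(25,29),(8,10),(11,16),(12,16)]⟩),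
  (.comm 0 2 0,⟨false,[],(21,30),.mon 0 0 4,[(21,29),(7,16),(8,16)]⟩),
  (.comm 0 8 0,⟨false,[],(21,32),.mon 0 0 9,[]⟩),
  (.cc 0,⟨false,[],(20,8),.mon 0 0 9,[]⟩),
  (.ca 0,⟨false,[],(16,28),.mon 0 0 9,[]⟩),
  (.comm 13 20 0,⟨false,[],(24,28),.mon 0 0 10,[]⟩),
  (.comm 30 0 0,⟨false,[],(14,25),.mon 0 0 11,[]⟩),
  (.cc 0,⟨false,[],(26,17),.mon 0 0 11,[]⟩),
  (.ca 0,⟨false,[],(10,21),.mon 0 0 11,[]⟩),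
  (.cc 0,⟨false,[],(30,20),.mon 0 0 11,[]⟩),
  (.cc 5,⟨false,[],(24,12),.mon 0 0 9,[]⟩),
  (.ca 0,⟨false,[],(12,24),.mon 0 0 9,[]⟩),
  (.cc 0,⟨false,[],(28,16),.mon 0 0 9,[]⟩),
  (.ca 0,⟨false,[],(8,20),.mon 0 0 9,[]⟩),
  (.cc 0,⟨false,[],(32,21),.mon 0 0 9,[]⟩),
  (.comm 41 0 0,⟨false,[],(11,33),.mon 0 0 10,[]⟩),
  (.cc 0,⟨false,[],(31,9),.mon 0 0 10,[]⟩),
  (.ca 0,⟨false,[],(7,29),.mon 0 0 10,[]⟩),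
  (.cc 0,⟨false,[],(35,13),.mon 0 0 10,[]⟩),
  (.ca 0,⟨false,[],(3,25),.mon 0 0 10,[]⟩),
  (.comm 24 0 0,⟨false,[],(3,14),.mon 0 0 11,[]⟩),
  (.ca 0,⟨false,[],(35,22),.mon 0 0 11,[]⟩),
  (.cc 0,⟨false,[],(7,18),.mon 0 0 11,[]⟩),
  (.ca 0,⟨false,[],(31,19),.mon 0 0 11,[]⟩),
  (.cc 0,⟨false,[],(11,23),.mon 0 0 11,[]⟩),
  (.ca 0,⟨false,[],(27,15),.mon 0 0 11,[]⟩),
  (.cc 0,⟨false,[],(15,27),.mon 0 0 11,[]⟩),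
  (.ca 0,⟨false,[],(23,11),.mon 0 0 11,[]⟩),
  (.cc 0,⟨false,[],(19,31),.mon 0 0 11,[]⟩),
  (.sI 0 5,⟨true,[],(28,30),.mon 0 0 22,[]⟩),
  (.sN 0,⟨true,[],(28,30),.mon 0 0 (-22),[]⟩),
  (.ca 48,⟨false,[],(8,6),.mon 0 0 5,[]⟩),
  (.comm 39 0 0,⟨false,[],(7,11),.mon 0 0 10,[]⟩),
  (.comm 59 0 0,⟨false,[],(7,20),.mon 0 0 11,[]⟩),
  (.cc 0,⟨false,[],(35,21),.mon 0 0 11,[]⟩),
  (.comm 61 0 0,⟨false,[],(11,34),.mon 0 0 12,[]⟩),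
  (.cc 0,⟨false,[],(31,6),.mon 0 0 12,[]⟩),
  (.ca 27,⟨false,[],(6,16),.mon 0 0 11,[]⟩),
  (.cc 0,⟨false,[],(34,24),.mon 0 0 11,[]⟩),
  (.ca 0,⟨false,[],(2,12),.mon 0 0 11,[]⟩),
  (.comm 63 0 0,⟨false,[],(2,27),.mon 0 0 12,[]⟩),
  (.ca 0,⟨false,[],(34,11),.mon 0 0 12,[]⟩),
  (.cc 0,⟨false,[],(6,31),.mon 0 0 12,[]⟩),
  (.sI 0 6,⟨true,[],(28,30),.mon 0 0 24,[]⟩),
  (.sA 0 13,⟨true,[],(28,30),.mon 0 0 2,[]⟩),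
  (.sF 0 62,⟨false,[],(28,30),.all,[]⟩),
  (.comm 0 36 0,⟨false,[],(21,29),.all,[]⟩),
  (.comm 0 42 0,⟨false,[],(16,20),.all,[]⟩),
  (.comm 0 59 0,⟨false,[],(18,20),.all,[]⟩),
  (.ca 20,⟨false,[],(18,7),.mon 0 0 11,[]⟩),
  (.ca 4,⟨false,[],(8,6),.all,[]⟩),
  (.comm 0 47 0,⟨false,[],(7,21),.all,[]⟩),
  (.comm 0 2 0,⟨false,[],(18,21),.all,[]⟩),
  (.comm 74 63 0,⟨false,[],(21,23),.mon 0 0 7,[]⟩),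
  (.ca 0,⟨false,[],(17,15),.mon 0 0 7,[]⟩),
  (.cc 0,⟨false,[],(25,27),.mon 0 0 7,[]⟩),
  (.ca 0,⟨false,[],(13,11),.mon 0 0 7,[]⟩),
  (.cc 0,⟨false,[],(29,31),.mon 0 0 7,[]⟩),
  (.comm 11 0 0,⟨false,[],(21,31),.all,[]⟩),
  (.spec 0,⟨false,[],(21,31),.mon 0 0 0,[]⟩),
  (.comm 86 3 0,⟨false,[],(13,20),.mon 0 0 8,[]⟩),
  (.cc 0,⟨false,[],(29,21),.mon 0 0 8,[]⟩),
  (.comm 16 0 0,⟨false,[],(20,30),.all,[]⟩),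
  (.comm 0 75 0,⟨false,[],(19,30),.all,[]⟩),
  (.comm 0 4 0,⟨false,[],(19,20),.all,[]⟩),
  (.comm 2 36 0,⟨false,[],(19,21),.all,[]⟩),
  (.ca 59,⟨false,[],(22,13),.mon 0 0 11,[]⟩),
  (.cc 0,⟨false,[],(18,29),.mon 0 0 11,[]⟩),
  (.ca 0,⟨false,[],(19,9),.mon 0 0 11,[]⟩),
  (.cc 0,⟨false,[],(23,33),.mon 0 0 11,[]⟩),
  (.comm 24 76 0,⟨false,[],(28,32),.all,[]⟩),
  (.comm 0 9 0,⟨false,[],(20,32),.all,[]⟩),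
  (.comm 0 2 0,⟨false,[],(20,22),.all,[]⟩),
  (.comm 83 88 0,⟨false,[],(22,26),.mon 0 0 10,[]⟩),
  (.comm 28 82 0,⟨false,[],(26,30),.all,[]⟩),
  (.comm 0 1 0,⟨false,[],(22,30),.all,[]⟩),
  (.comm 0 18 0,⟨false,[],(22,28),.all,[]⟩),
  (.comm 6 7 0,⟨false,[],(23,29),.all,[]⟩),
  (.comm 7 63 0,⟨false,[],(20,29),.all,[]⟩),
  (.cN 0 1 2,⟨false,[],(20,23),.all,[]⟩),
  (.cc 34,⟨false,[],(12,10),.all,[]⟩),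
  (.comm 0 20 0,⟨false,[],(11,20),.all,[]⟩),
  (.comm 0 54 0,⟨false,[],(21,22),.all,[]⟩),
  (.cN 7 20 24,⟨false,[],(21,23),.all,[]⟩),
  (.comm 33 34 0,⟨false,[],(8,19),.all,[]⟩),
  (.comm 38 81 0,⟨false,[],(9,29),.all,[]⟩),
  (.comm 0 28 0,⟨false,[],(9,31),.all,[]⟩),
  (.comm 24 73 0,⟨false,[],(8,30),.all,[]⟩),
  (.comm 42 83 0,⟨false,[],(16,30),.all,[]⟩),
  (.comm 0 100 0,⟨false,[],(18,30),.all,[]⟩),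
  (.cN 0 2 3,⟨false,[],(9,19),.all,[]⟩),
  (.spec 0,⟨false,[],(9,19),.mon 0 0 0,[]⟩),
  (.cc 38,⟨false,[],(20,19),.mon 0 0 7,[]⟩),
  (.comm 46 0 0,⟨false,[],(18,29),.all,[]⟩),
  (.cc 44,⟨false,[],(22,35),.mon 0 0 11,[]⟩),
  (.cc 63,⟨false,[],(32,34),.mon 0 0 5,[]⟩),
  (.comm 102 0 0,⟨false,[],(30,34),.mon 0 0 10,[]⟩),
  (.comm 51 0 0,⟨false,[],(28,34),.all,[]⟩),
  (.comm 0 3 0,⟨false,[],(22,29),.all,[]⟩),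
  (.spec 52,⟨false,[],(21,29),.mon 0 0 0,[]⟩),
  (.comm 48 0 0,⟨false,[],(7,29),.all,[]⟩),
  (.comm 55 58 0,⟨false,[],(6,29),.all,[]⟩),
  (.base 1,⟨false,[],(7,1),.mon 1 0 0,[(19,30),(14,30),(11,20),(14,29),(8,23),(17,26),(7,23),(31,0),(7,19)]⟩),
  (.comm 0 1 3,⟨false,[],(28,1),.fs 1,[(7,29),(22,29),(18,29),(28,30)]⟩),
  (.drop 0 [3,5,10,58],⟨false,[],(28,1),.fs 1,[]⟩),
  (.rho 0,⟨false,[],(28,0),.fs (-1),[]⟩),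
  (.ca 0,⟨false,[],(8,1),.fs (-1),[]⟩),
  (.rho 0,⟨false,[],(8,0),.fs 1,[]⟩),
  (.comm 57 65 0,⟨false,[],(8,31),.all,[]⟩),
  (.spec 0,⟨false,[],(8,31),.mon 0 0 0,[]⟩),
  (.comm 34 0 0,⟨false,[],(8,23),.all,[]⟩),
  (.ca 25,⟨false,[],(29,9),.all,[]⟩),
  (.cN 10 26 0,⟨false,[],(6,9),.all,[]⟩),
  (.comm 10 0 3,⟨false,[],(8,1),.fs 1,[(7,9),(8,23),(8,19),(8,30)]⟩),
  (.drop 0 [63,3,29,26],⟨false,[],(8,1),.fs 1,[]⟩),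
  (.rho 0,⟨false,[],(8,0),.fs (-1),[]⟩),
  (.fs2 0 8,⟨false,[],(8,0),.all,[]⟩),
  (.comm 0 25 2,⟨false,[],(18,0),.all,[(8,19)]⟩),
  (.drop 0 [33],⟨false,[],(18,0),.all,[]⟩),
  (.ca 25,⟨false,[],(19,9),.all,[]⟩),
  (.cN 56 32 33,⟨false,[],(9,18),.all,[]⟩),
  (.spec 0,⟨false,[],(9,18),.mon 0 0 0,[]⟩),
  (.comm 5 0 2,⟨false,[],(19,0),.all,[(8,18)]⟩),
  (.drop 0 [3],⟨false,[],(19,0),.all,[]⟩)],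
  [(75,75),(71,71),(59,59),(58,58),(58,58),(71,71),(59,59),(75,75),(51,51),(44,44),(41,41),(40,40),(40,40),(44,44),(41,41),(51,51),(5,5),(0,0)]⟩ = true := by decide +kernel

theorem famBe {G L K : Type} [Group G] [AddCommGroup L] [Field K] [Finite K] {S : St G L K}
    {n : ℕ} (R : Frame S .D n) (md : ∀ x, Md S.φ x false false false) (h : 7 ≤ n) :
    IsLeast {n | Good S.Gs n} 3 := by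
  by_cases p : 17 ≤ n
  · exact R.poly p (by simp) (md _) cBew
  rw [not_le] at p
  interval_cases n
  · exact R.gen (by decide) (md _) cBe7
  · exact R.poly le_rfl (fun _ => rfl) (md _) cBe8
  · exact R.poly le_rfl (fun _ => rfl) (md _) cBe9
  · exact R.poly le_rfl (fun _ => rfl) (md _) cBe10
  · exact R.poly le_rfl (fun _ => rfl) (md _) cBe11
  · exact R.poly le_rfl (fun _ => rfl) (md _) cBe12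
  · exact R.poly le_rfl (fun _ => rfl) (md _) cBe13
  · exact R.poly le_rfl (fun _ => rfl) (md _) cBe14
  · exact R.poly le_rfl (fun _ => rfl) (md _) cBe15
  · exact R.poly le_rfl (fun _ => rfl) (md _) cBe16

end Pool.Agent.MP_c78e8e_al.H75

end
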