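import Pool.Agent.MP_c78e8e_al.Sg.Clas

section

namespace Pool.Agent.MP_c78e8e_al.H75

theorem cCo5 : (Fam.op0 .C 5).check false true false true (Fam.tcG 5)
  ⟨[(9,4),(6,11),(3,2)],[],[],[(6,2),(10,8),(8,11),(8,3),(6,5)],[(6,3),(5,10),(9,8)],(2,4),(4,6),
  ⟨[],[(4,7),(10,3)],[(9,10),(11,8),(7,2),(3,6)],[((8,11),some (1,0,0))],0,(8,11),(8,11),(8,11),(8,11),(0,0,0),[(5,6)],
  [(.base 0,⟨false,[(9,10),(11,8),(7,2),(3,6),(4,7),(6,5),(10,3),(2,11)],(5,6),.mon 1 0 0,[(8,11)]⟩),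
  (.base 1,⟨false,[(9,10),(11,8),(7,2),(3,6),(4,7),(6,5),(10,3),(2,11)],(8,11),.mon 1 0 0,[(5,6)]⟩),
  (.cc 0,⟨false,[(8,5),(4,9),(2,7),(6,3),(11,2),(3,10),(5,6),(7,4)],(9,4),.mon 1 0 0,[(10,3)]⟩),
  (.ca 0,⟨false,[(5,8),(9,4),(3,10),(11,2),(6,3),(2,7),(8,11),(10,9)],(4,9),.mon 1 0 0,[(7,2)]⟩),
  (.rho 0,⟨false,[(5,8),(9,4),(3,10),(11,2),(6,3),(2,7),(8,11),(10,9)],(8,5),.mon 0 1 0,[(7,2)]⟩),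
  (.comm 4 0 0,⟨false,[],(8,6),.mon 1 1 0,[]⟩),
  (.rho 0,⟨false,[],(7,9),.mon 1 1 0,[]⟩),
  (.cc 0,⟨false,[],(2,8),.mon 1 1 0,[]⟩),
  (.ca 0,⟨false,[],(3,5),.mon 1 1 0,[]⟩),
  (.comm 8 0 0,⟨false,[],(3,6),.mon 2 1 0,[]⟩),
  (.ca 0,⟨false,[],(2,11),.mon 2 1 0,[]⟩),
  (.rho 4,⟨false,[],(8,6),.mon 1 1 0,[]⟩),
  (.comm 4 0 0,⟨false,[],(2,6),.mon 2 2 0,[]⟩),
  (.rho 4,⟨false,[],(4,2),.mon 1 1 0,[]⟩),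
  (.comm 1 0 0,⟨false,[],(4,6),.mon 3 3 0,[]⟩),
  (.cc 6,⟨false,[],(6,10),.mon 1 1 0,[]⟩),
  (.comm 1 0 0,⟨false,[],(4,10),.mon 4 4 0,[]⟩),
  (.rho 0,⟨false,[],(11,5),.mon 4 4 0,[]⟩),
  (.comm 7 0 0,⟨false,[],(2,5),.mon 6 5 0,[]⟩),
  (.ca 12,⟨false,[],(10,4),.mon 1 1 0,[]⟩),
  (.rho 0,⟨false,[],(5,11),.mon 1 1 0,[]⟩),
  (.comm 12 0 0,⟨false,[],(3,11),.mon 2 2 0,[]⟩),
  (.rho 6,⟨false,[],(11,7),.mon 1 1 0,[]⟩),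
  (.comm 1 0 0,⟨false,[],(3,7),.mon 3 3 0,[]⟩),
  (.rho 0,⟨false,[],(6,2),.mon 3 3 0,[]⟩),
  (.comm 24 0 0,⟨false,[],(5,2),.mon 4 3 0,[]⟩),
  (.rho 0,⟨false,[],(3,4),.mon 3 4 0,[]⟩),
  (.rho 0,⟨false,[],(5,2),.mon 4 3 0,[]⟩),
  (.sI 9 0,⟨true,[],(5,11),.mon 10 8 0,[]⟩),
  (.cc 19,⟨false,[],(6,3),.mon 2 1 0,[]⟩),
  (.rho 0,⟨false,[],(2,7),.mon 1 2 0,[]⟩),
  (.rho 16,⟨false,[],(7,5),.mon 3 3 0,[]⟩),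
  (.comm 1 0 0,⟨false,[],(2,5),.mon 4 5 0,[]⟩),
  (.rho 6,⟨false,[],(5,2),.mon 4 3 0,[]⟩),
  (.sI 1 0,⟨true,[],(5,11),.mon 8 8 0,[]⟩),
  (.sN 0,⟨true,[],(5,11),.mon (-8) (-8) 0,[]⟩),
  (.sA 7 0,⟨true,[],(5,11),.mon 2 0 0,[]⟩),
  (.sF 0 16,⟨false,[],(5,11),.all,[]⟩),
  (.comm 22 25 0,⟨false,[],(2,10),.mon 3 3 0,[]⟩),
  (.rho 0,⟨false,[],(11,3),.mon 3 3 0,[]⟩),
  (.comm 2 0 0,⟨false,[],(5,3),.all,[]⟩),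
  (.comm 3 32 0,⟨false,[],(3,11),.all,[]⟩),
  (.rho 25,⟨false,[],(11,5),.mon 4 4 0,[]⟩),
  (.comm 1 0 0,⟨false,[],(3,5),.all,[]⟩),
  (.ca 6,⟨false,[],(8,6),.all,[]⟩),
  (.rho 37,⟨false,[],(9,3),.mon 1 1 0,[]⟩),
  (.comm 37 0 0,⟨false,[],(9,5),.mon 2 2 0,[]⟩),
  (.rho 0,⟨false,[],(4,8),.mon 2 2 0,[]⟩),
  (.comm 3 0 0,⟨false,[],(4,6),.all,[]⟩),
  (.rho 33,⟨false,[],(11,7),.mon 1 1 0,[]⟩),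
  (.comm 12 0 0,⟨false,[],(5,7),.all,[]⟩),
  (.rho 3,⟨false,[],(9,5),.mon 2 2 0,[]⟩),
  (.comm 1 0 0,⟨false,[],(9,7),.all,[]⟩),
  (.comm 8 37 0,⟨false,[],(8,10),.all,[]⟩),
  (.rho 6,⟨false,[],(9,5),.mon 2 2 0,[]⟩),
  (.comm 17 0 0,⟨false,[],(9,11),.all,[]⟩),
  (.comm 18 37 0,⟨false,[],(2,11),.all,[]⟩),
  (.rho 40,⟨false,[],(11,5),.mon 4 4 0,[]⟩),
  (.comm 1 0 0,⟨false,[],(2,5),.all,[]⟩),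
  (.comm 49 43 0,⟨false,[],(3,10),.mon 3 2 0,[]⟩),
  (.rho 0,⟨false,[],(11,2),.mon 2 3 0,[]⟩),
  (.comm 23 0 0,⟨false,[],(5,2),.all,[]⟩),
  (.comm 21 43 1,⟨false,[],(2,3),.all,[]⟩),
  (.rho 3,⟨false,[],(11,2),.mon 2 3 0,[]⟩),
  (.comm 22 0 1,⟨false,[],(3,2),.all,[]⟩)],
  [(6,6),(3,3),(2,2),(0,0),(24,24),(21,21),(16,16),(14,14),(12,12),(20,20),(11,11),(9,9)]⟩⟩ = true := by decide +kernel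

theorem cCo7 : (Fam.op0 .C 7).check false true false true (Fam.tcG 7)
  ⟨[(5,2),(8,11),(6,13),(15,14)],[],[],[(11,4),(13,2),(2,15),(5,4),(10,8),(9,6)],[(11,15),(7,9),(4,2),(13,12)],(2,4),(4,6),
  ⟨[],[(5,10)],[(2,9),(8,3)],[((2,13),some (0,0,0)),((8,6),some (1,0,0))],0,(2,13),(2,13),(2,13),(2,13),(0,0,0),[(5,6),(11,13)],
  [(.base 0,⟨false,[(2,9),(8,3),(5,10),(11,4)],(11,13),.mon 1 0 0,[(5,6),(2,13),(8,6)]⟩),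
  (.base 2,⟨false,[(2,9),(8,3),(5,10),(11,4)],(2,13),.mon 0 0 0,[(11,13),(5,6),(8,6)]⟩),
  (.cc 1,⟨false,[(4,7),(6,5),(3,14),(15,2)],(15,12),.mon 1 0 0,[(3,8),(4,12),(6,8)]⟩),
  (.ca 0,⟨false,[(3,12),(13,2),(4,15),(14,5)],(14,7),.mon 1 0 0,[(4,11),(3,7),(13,11)]⟩),
  (.cc 0,⟨false,[(5,13),(12,4),(2,11),(10,3)],(10,9),.mon 1 0 0,[(2,15),(5,9),(12,15)]⟩),
  (.ca 0,⟨false,[(2,6),(7,3),(5,8),(9,4)],(9,10),.mon 1 0 0,[(5,14),(2,10),(7,14)]⟩),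
  (.cc 0,⟨false,[(4,8),(9,5),(3,6),(7,2)],(7,14),.mon 1 0 0,[(3,10),(4,14),(9,10)]⟩),
  (.mul 5 0,⟨false,[(2,9),(8,3),(5,10),(11,4),(4,8),(9,5),(3,6),(7,2)],(2,13),.mon 0 0 0,[(11,13),(5,6),(8,6),(7,14),(3,10),(4,14),(9,10)]⟩),
  (.sq 0 1,⟨false,[],(2,13),.mon 0 0 0,[(4,14),(15,6),(11,13),(11,6)]⟩),
  (.base 1,⟨false,[(2,9),(8,3),(5,10),(11,4)],(5,6),.mon 0 0 0,[(11,13),(2,13),(8,6)]⟩),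
  (.mul 0 5,⟨false,[(2,9),(8,3),(5,10),(11,4),(5,13),(12,4),(2,11),(10,3)],(5,6),.mon 0 0 0,[(11,13),(2,13),(8,6),(10,9),(2,15),(5,9),(12,15)]⟩),
  (.sq 0 1,⟨false,[],(5,6),.mon 0 0 0,[(2,15),(8,13)]⟩),
  (.cc 0,⟨false,[],(3,8),.mon 0 0 0,[(4,11),(6,12)]⟩),
  (.ca 0,⟨false,[],(4,11),.mon 0 0 0,[(3,8),(13,7)]⟩),
  (.cc 0,⟨false,[],(2,15),.mon 0 0 0,[(5,6),(12,9)]⟩),
  (.ca 0,⟨false,[],(5,14),.mon 0 0 0,[(2,13),(7,10)]⟩),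
  (.cc 0,⟨false,[],(3,10),.mon 0 0 0,[(4,12),(9,14)]⟩),
  (.ca 0,⟨false,[],(4,9),.mon 0 0 0,[(3,7),(10,15)]⟩),
  (.cc 0,⟨false,[],(2,7),.mon 0 0 0,[(5,9),(14,11)]⟩),
  (.rho 0,⟨false,[],(6,3),.mon 0 0 0,[(5,9),(14,11)]⟩),
  (.comm 8 0 0,⟨false,[],(5,3),.mon 0 0 0,[]⟩),
  (.rho 0,⟨false,[],(2,4),.mon 0 0 0,[]⟩),
  (.cc 0,⟨false,[],(4,2),.mon 0 0 0,[]⟩),
  (.rho 0,⟨false,[],(3,5),.mon 0 0 0,[]⟩),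
  (.rho 0,⟨false,[],(4,2),.mon 0 0 0,[]⟩),
  (.comm 16 0 0,⟨false,[],(4,13),.mon 0 0 0,[]⟩),
  (.ca 0,⟨false,[],(3,6),.mon 0 0 0,[]⟩),
  (.cc 0,⟨false,[],(5,8),.mon 0 0 0,[]⟩),
  (.ca 0,⟨false,[],(2,11),.mon 0 0 0,[]⟩),
  (.rho 2,⟨false,[],(7,2),.mon 0 0 0,[]⟩),
  (.comm 1 0 0,⟨false,[],(7,11),.mon 0 0 0,[]⟩),
  (.comm 30 0 0,⟨false,[],(7,13),.mon 1 0 0,[]⟩),
  (.cc 6,⟨false,[],(2,12),.mon 0 0 0,[]⟩),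
  (.rho 9,⟨false,[],(4,2),.mon 0 0 0,[]⟩),
  (.comm 1 0 0,⟨false,[],(4,12),.mon 0 0 0,[]⟩),
  (.rho 0,⟨false,[],(13,5),.mon 0 0 0,[]⟩),
  (.comm 4 0 0,⟨false,[],(7,5),.mon 1 0 0,[]⟩),
  (.rho 0,⟨false,[],(4,6),.mon 0 1 0,[]⟩),
  (.ca 5,⟨false,[],(5,7),.mon 0 0 0,[]⟩),
  (.rho 0,⟨false,[],(6,4),.mon 0 0 0,[]⟩),
  (.sI 2 0,⟨true,[],(2,4),.mon 0 1 0,[]⟩),
  (.sF 0 19,⟨false,[],(2,4),.all,[]⟩),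
  (.cc 0,⟨false,[],(4,2),.all,[]⟩),
  (.rho 16,⟨false,[],(7,2),.mon 0 0 0,[]⟩),
  (.comm 2 0 0,⟨false,[],(7,4),.all,[]⟩),
  (.rho 18,⟨false,[],(7,2),.mon 0 0 0,[]⟩),
  (.comm 7 0 0,⟨false,[],(5,2),.mon 0 0 0,[]⟩),
  (.rho 0,⟨false,[],(3,4),.mon 0 0 0,[]⟩),
  (.rho 0,⟨false,[],(5,2),.mon 0 0 0,[]⟩),
  (.comm 7 0 1,⟨false,[],(5,4),.all,[]⟩),
  (.rho 24,⟨false,[],(12,5),.mon 0 0 0,[]⟩),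
  (.comm 18 0 0,⟨false,[],(2,5),.mon 0 0 0,[]⟩),
  (.comm 9 0 1,⟨false,[],(4,5),.all,[]⟩),
  (.cN 8 3 0,⟨false,[],(7,5),.all,[]⟩),
  (.comm 15 30 0,⟨false,[],(3,7),.mon 0 0 0,[]⟩),
  (.rho 0,⟨false,[],(6,2),.mon 0 0 0,[]⟩),
  (.comm 14 0 0,⟨false,[],(6,4),.all,[]⟩),
  (.comm 29 33 0,⟨false,[],(3,8),.mon 0 0 0,[]⟩),
  (.rho 0,⟨false,[],(9,2),.mon 0 0 0,[]⟩),
  (.comm 17 0 0,⟨false,[],(9,4),.all,[]⟩),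
  (.rho 8,⟨false,[],(4,3),.mon 0 0 0,[]⟩),
  (.comm 6 0 0,⟨false,[],(4,7),.mon 0 0 0,[]⟩),
  (.comm 2 0 0,⟨false,[],(9,7),.all,[]⟩),
  (.cc 24,⟨false,[],(3,9),.mon 0 0 0,[]⟩),
  (.rho 12,⟨false,[],(4,3),.mon 0 0 0,[]⟩),
  (.comm 1 0 0,⟨false,[],(4,9),.mon 0 0 0,[]⟩),
  (.comm 21 0 0,⟨false,[],(7,9),.all,[]⟩),
  (.rho 3,⟨false,[],(8,2),.mon 0 0 0,[]⟩),
  (.comm 26 0 0,⟨false,[],(8,4),.all,[]⟩),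
  (.ca 5,⟨false,[],(4,10),.mon 0 0 0,[]⟩),
  (.comm 1 0 0,⟨false,[],(8,10),.all,[]⟩),
  (.rho 47,⟨false,[],(4,2),.mon 0 0 0,[]⟩),
  (.comm 43 0 0,⟨false,[],(4,11),.mon 0 0 0,[]⟩),
  (.comm 13 0 0,⟨false,[],(9,11),.all,[]⟩),
  (.comm 32 39 0,⟨false,[],(2,12),.all,[]⟩),
  (.comm 2 27 0,⟨false,[],(3,11),.mon 0 0 0,[]⟩),
  (.rho 0,⟨false,[],(10,2),.mon 0 0 0,[]⟩),
  (.comm 2 0 0,⟨false,[],(10,12),.all,[]⟩),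
  (.comm 36 52 0,⟨false,[],(2,13),.all,[]⟩),
  (.comm 9 31 0,⟨false,[],(3,10),.mon 0 0 0,[]⟩),
  (.rho 0,⟨false,[],(11,2),.mon 0 0 0,[]⟩),
  (.comm 2 0 0,⟨false,[],(11,13),.all,[]⟩),
  (.cc 53,⟨false,[],(4,15),.mon 0 0 0,[]⟩),
  (.ca 0,⟨false,[],(3,14),.mon 0 0 0,[]⟩),
  (.rho 0,⟨false,[],(15,2),.mon 0 0 0,[]⟩),
  (.comm 6 0 0,⟨false,[],(15,13),.all,[]⟩),
  (.comm 3 38 0,⟨false,[],(3,15),.mon 0 0 0,[]⟩),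
  (.rho 0,⟨false,[],(14,2),.mon 0 0 0,[]⟩),
  (.comm 13 0 0,⟨false,[],(14,12),.all,[]⟩),
  (.rho 37,⟨false,[],(4,3),.mon 0 0 0,[]⟩),
  (.comm 48 0 1,⟨false,[],(2,3),.all,[]⟩),
  (.spec 0,⟨false,[],(2,3),.mon 0 0 0,[]⟩),
  (.comm 49 0 2,⟨false,[],(4,3),.all,[(4,5)]⟩),
  (.drop 0 [40],⟨false,[],(4,3),.all,[]⟩),
  (.comm 49 39 0,⟨false,[],(3,4),.all,[]⟩),
  (.comm 52 47 1,⟨false,[],(3,2),.all,[]⟩)],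
  [(2,2),(1,1),(5,5),(0,0),(54,54),(53,53),(42,42),(39,39),(33,33),(29,29),(25,25),(22,22),(18,18),(14,14),(10,10),(7,7)]⟩⟩ = true := by decide +kernel

theorem cCo8 : (Fam.op0 .C 8).check false true false true (Fam.tcG 8)
  ⟨[(17,15),(3,10),(4,8),(7,12)],[],[(15,13),(10,8)],[(11,10),(11,7),(17,6),(8,16),(13,8),(5,10),(5,14),(5,8)],[(9,7),(3,5),(12,14),(16,11)],(2,4),(4,6),
  ⟨[(14,15)],[(5,3)],[(16,17),(9,10),(11,8)],[((13,11),some (1,0,0)),((13,8),some (0,0,0))],0,(13,11),(13,11),(13,11),(13,11),(0,0,0),[(6,2),(6,4)],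
  [(.base 0,⟨false,[(16,17),(9,10),(11,8),(14,15),(5,3),(2,4)],(6,4),.mon 0 0 0,[(6,2),(13,11),(13,8)]⟩),
  (.cc 0,⟨false,[(11,10),(7,17),(16,6),(12,13),(3,5),(4,2)],(8,2),.mon 0 0 0,[(8,4),(15,16),(15,6)]⟩),
  (.base 3,⟨false,[(16,17),(9,10),(11,8),(14,15),(5,3),(2,4)],(13,8),.mon 0 0 0,[(6,4),(6,2),(13,11)]⟩),
  (.mul 0 1,⟨false,[(16,17),(9,10),(11,8),(14,15),(5,3),(2,4),(11,10),(7,17),(16,6),(12,13),(3,5),(4,2)],(13,8),.mon 0 0 0,[(6,4),(6,2),(13,11),(8,2),(8,4),(15,16),(15,6)]⟩),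
  (.sq 0 1,⟨false,[],(13,8),.mon 0 0 0,[(15,6),(15,4),(15,2),(13,2),(13,4)]⟩),
  (.cc 0,⟨false,[],(15,6),.mon 0 0 0,[(13,8),(13,2),(13,4),(15,4),(15,2)]⟩),
  (.ca 4,⟨false,[(2,3),(12,15),(14,13),(7,6),(10,9),(8,11)],(4,11),.mon 0 0 0,[(4,8),(17,14),(17,13)]⟩),
  (.cc 0,⟨false,[(4,5),(14,13),(12,15),(9,8),(17,7),(6,16)],(2,16),.mon 0 0 0,[(2,6),(10,12),(10,15)]⟩),
  (.ca 0,⟨false,[(8,9),(16,6),(7,17),(5,4),(15,12),(13,14)],(11,14),.mon 0 0 0,[(11,13),(3,7),(3,17)]⟩),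
  (.cc 0,⟨false,[(6,7),(11,8),(9,10),(3,2),(13,14),(15,12)],(16,12),.mon 0 0 0,[(16,15),(5,9),(5,10)]⟩),
  (.mul 9 0,⟨false,[(16,17),(9,10),(11,8),(14,15),(5,3),(2,4),(6,7),(11,8),(9,10),(3,2),(13,14),(15,12)],(6,4),.mon 0 0 0,[(6,2),(13,11),(13,8),(16,12),(16,15),(5,9),(5,10)]⟩),
  (.sq 0 1,⟨false,[],(6,4),.mon 0 0 0,[(16,12),(13,4)]⟩),
  (.comm 0 6 0,⟨false,[],(15,4),.mon 0 0 0,[]⟩),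
  (.rho 0,⟨false,[],(5,14),.mon 0 0 0,[]⟩),
  (.ca 0,⟨false,[],(9,16),.mon 0 0 0,[]⟩),
  (.cc 0,⟨false,[],(7,11),.mon 0 0 0,[]⟩),
  (.ca 0,⟨false,[],(12,2),.mon 0 0 0,[]⟩),
  (.rho 0,⟨false,[],(3,13),.mon 0 0 0,[]⟩),
  (.cc 0,⟨false,[],(5,15),.mon 0 0 0,[]⟩),
  (.ca 0,⟨false,[],(9,17),.mon 0 0 0,[]⟩),
  (.cc 0,⟨false,[],(7,10),.mon 0 0 0,[]⟩),
  (.rho 5,⟨false,[],(10,6),.mon 0 0 0,[]⟩),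
  (.ca 1,⟨false,[],(12,3),.mon 0 0 0,[]⟩),
  (.rho 0,⟨false,[],(2,13),.mon 0 0 0,[]⟩),
  (.cc 0,⟨false,[],(4,15),.mon 0 0 0,[]⟩),
  (.comm 24 0 0,⟨false,[],(6,15),.mon 0 0 0,[]⟩),
  (.comm 0 4 0,⟨false,[],(10,15),.mon 0 0 0,[]⟩),
  (.comm 0 6 0,⟨false,[],(7,15),.mon 0 0 0,[]⟩),
  (.rho 4,⟨false,[],(12,3),.mon 0 0 0,[]⟩),
  (.cc 15,⟨false,[],(3,12),.mon 0 0 0,[]⟩),
  (.ca 0,⟨false,[],(10,7),.mon 0 0 0,[]⟩),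
  (.rho 0,⟨false,[],(6,11),.mon 0 0 0,[]⟩),
  (.cc 0,⟨false,[],(8,16),.mon 0 0 0,[]⟩),
  (.ca 0,⟨false,[],(4,14),.mon 0 0 0,[]⟩),
  (.cc 0,⟨false,[],(2,12),.mon 0 0 0,[]⟩),
  (.base 1,⟨false,[(16,17),(9,10),(11,8),(14,15),(5,3),(2,4)],(6,2),.mon 1 0 0,[(6,4),(13,11),(13,8)]⟩),
  (.comm 0 1 0,⟨false,[],(6,12),.mon 1 0 0,[]⟩),
  (.comm 0 8 0,⟨false,[],(6,3),.mon 1 0 0,[]⟩),
  (.rho 0,⟨false,[],(2,7),.mon 0 1 0,[]⟩),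
  (.comm 0 11 0,⟨false,[],(2,15),.mon 0 1 0,[]⟩),
  (.rho 0,⟨false,[],(14,3),.mon 1 0 0,[]⟩),
  (.rho 20,⟨false,[],(11,6),.mon 0 0 0,[]⟩),
  (.rho 23,⟨false,[],(14,4),.mon 0 0 0,[]⟩),
  (.rho 27,⟨false,[],(10,6),.mon 0 0 0,[]⟩),
  (.comm 43 10 0,⟨false,[],(6,14),.mon 0 0 0,[]⟩),
  (.comm 0 1 0,⟨false,[],(10,14),.mon 0 0 0,[]⟩),
  (.comm 0 3 0,⟨false,[],(10,4),.mon 0 0 0,[]⟩),
  (.rho 0,⟨false,[],(5,11),.mon 0 0 0,[]⟩),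
  (.comm 0 6 0,⟨false,[],(5,6),.mon 0 0 0,[]⟩),
  (.rho 0,⟨false,[],(7,4),.mon 0 0 0,[]⟩),
  (.rho 32,⟨false,[],(12,2),.mon 0 0 0,[]⟩),
  (.comm 14 0 0,⟨false,[],(6,2),.mon 1 0 0,[]⟩),
  (.rho 0,⟨false,[],(3,7),.mon 0 1 0,[]⟩),
  (.comm 0 3 0,⟨false,[],(3,4),.mon 0 1 0,[]⟩),
  (.rho 0,⟨false,[],(5,2),.mon 1 0 0,[]⟩),
  (.cc 29,⟨false,[],(8,13),.mon 0 0 0,[]⟩),
  (.ca 0,⟨false,[],(4,6),.mon 0 0 0,[]⟩),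
  (.rho 0,⟨false,[],(7,5),.mon 0 0 0,[]⟩),
  (.rho 34,⟨false,[],(12,3),.mon 0 0 0,[]⟩),
  (.ca 22,⟨false,[],(13,7),.mon 1 0 0,[]⟩),
  (.rho 0,⟨false,[],(6,12),.mon 0 1 0,[]⟩),
  (.comm 0 2 0,⟨false,[],(6,3),.mon 0 1 0,[]⟩),
  (.rho 0,⟨false,[],(2,7),.mon 1 0 0,[]⟩),
  (.comm 0 5 0,⟨false,[],(2,5),.mon 1 0 0,[]⟩),
  (.sI 0 9,⟨true,[],(5,14),.mon 2 0 0,[]⟩),
  (.sF 0 51,⟨false,[],(5,14),.all,[]⟩),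
  (.comm 0 25 0,⟨false,[],(5,3),.all,[]⟩),
  (.rho 47,⟨false,[],(16,8),.mon 0 0 0,[]⟩),
  (.comm 12 0 0,⟨false,[],(16,13),.mon 0 0 0,[]⟩),
  (.rho 0,⟨false,[],(12,17),.mon 0 0 0,[]⟩),
  (.rho 0,⟨false,[],(16,13),.mon 0 0 0,[]⟩),
  (.ca 26,⟨false,[],(13,16),.mon 0 0 0,[]⟩),
  (.comm 0 48 0,⟨false,[],(2,16),.mon 0 0 0,[]⟩),
  (.comm 37 0 0,⟨false,[],(6,16),.mon 1 0 0,[]⟩),
  (.comm 0 17 0,⟨false,[],(4,16),.mon 1 0 0,[]⟩),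
  (.comm 0 4 0,⟨false,[],(4,13),.mon 1 0 0,[]⟩),
  (.rho 0,⟨false,[],(12,5),.mon 0 1 0,[]⟩),
  (.cc 11,⟨false,[],(3,12),.all,[]⟩),
  (.comm 0 1 0,⟨false,[],(3,5),.all,[]⟩),
  (.rho 54,⟨false,[],(14,5),.mon 0 0 0,[]⟩),
  (.rho 23,⟨false,[],(7,5),.mon 0 0 0,[]⟩),
  (.comm 15 0 0,⟨false,[],(7,14),.all,[]⟩),
  (.comm 0 2 0,⟨false,[],(7,5),.all,[]⟩),
  (.rho 57,⟨false,[],(14,7),.mon 0 0 0,[]⟩),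
  (.comm 18 0 0,⟨false,[],(5,7),.all,[]⟩),
  (.ca 59,⟨false,[],(13,17),.mon 0 0 0,[]⟩),
  (.comm 0 62 0,⟨false,[],(2,17),.mon 0 0 0,[]⟩),
  (.comm 51 0 0,⟨false,[],(6,17),.mon 1 0 0,[]⟩),
  (.rho 0,⟨false,[],(16,7),.mon 0 1 0,[]⟩),
  (.ca 23,⟨false,[],(9,16),.all,[]⟩),
  (.comm 0 1 0,⟨false,[],(9,7),.all,[]⟩),
  (.rho 63,⟨false,[],(14,6),.mon 0 0 0,[]⟩),
  (.rho 36,⟨false,[],(12,9),.mon 0 0 0,[]⟩),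
  (.comm 56 0 0,⟨false,[],(6,9),.mon 1 0 0,[]⟩),
  (.comm 0 2 0,⟨false,[],(14,9),.mon 1 0 0,[]⟩),
  (.rho 0,⟨false,[],(8,15),.mon 0 1 0,[]⟩),
  (.rho 0,⟨false,[],(14,9),.mon 1 0 0,[]⟩),
  (.comm 15 0 0,⟨false,[],(7,9),.all,[]⟩),
  (.rho 73,⟨false,[],(14,5),.mon 0 0 0,[]⟩),
  (.cc 62,⟨false,[],(8,14),.mon 1 0 0,[]⟩),
  (.comm 0 1 0,⟨false,[],(8,5),.mon 1 0 0,[]⟩),
  (.rho 0,⟨false,[],(4,9),.mon 0 1 0,[]⟩),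
  (.rho 0,⟨false,[],(8,5),.mon 1 0 0,[]⟩),
  (.rho 82,⟨false,[],(11,6),.mon 0 0 0,[]⟩),
  (.comm 78 0 0,⟨false,[],(11,15),.mon 0 0 0,[]⟩),
  (.rho 0,⟨false,[],(14,10),.mon 0 0 0,[]⟩),
  (.comm 40 0 0,⟨false,[],(5,10),.all,[]⟩),
  (.comm 0 4 0,⟨false,[],(8,10),.all,[]⟩),
  (.rho 92,⟨false,[],(10,6),.mon 0 0 0,[]⟩),
  (.comm 21 0 0,⟨false,[],(10,17),.mon 1 0 0,[]⟩),
  (.rho 0,⟨false,[],(16,11),.mon 0 1 0,[]⟩),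
  (.comm 21 0 0,⟨false,[],(9,11),.all,[]⟩),
  (.rho 88,⟨false,[],(12,3),.mon 0 0 0,[]⟩),
  (.rho 97,⟨false,[],(10,6),.mon 0 0 0,[]⟩),
  (.comm 77 0 0,⟨false,[],(10,12),.mon 1 0 0,[]⟩),
  (.comm 0 2 0,⟨false,[],(10,3),.mon 1 0 0,[]⟩),
  (.rho 0,⟨false,[],(2,11),.mon 0 1 0,[]⟩),
  (.rho 0,⟨false,[],(10,3),.mon 1 0 0,[]⟩),
  (.comm 40 0 0,⟨false,[],(10,12),.all,[]⟩),
  (.rho 43,⟨false,[],(12,5),.mon 0 1 0,[]⟩),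
  (.comm 13 0 0,⟨false,[],(12,10),.all,[]⟩),
  (.rho 45,⟨false,[],(12,5),.mon 0 1 0,[]⟩),
  (.comm 56 0 0,⟨false,[],(12,14),.all,[]⟩),
  (.rho 83,⟨false,[],(14,3),.mon 1 0 0,[]⟩),
  (.comm 46 0 0,⟨false,[],(14,12),.all,[]⟩),
  (.rho 29,⟨false,[],(14,9),.mon 1 0 0,[]⟩),
  (.comm 36 0 0,⟨false,[],(14,16),.all,[]⟩),
  (.comm 39 70 0,⟨false,[],(4,17),.mon 1 0 0,[]⟩),
  (.rho 0,⟨false,[],(16,5),.mon 0 1 0,[]⟩),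
  (.comm 63 0 0,⟨false,[],(16,14),.all,[]⟩),
  (.rho 105,⟨false,[],(14,5),.mon 0 0 0,[]⟩),
  (.rho 74,⟨false,[],(7,5),.mon 0 0 0,[]⟩),
  (.comm 93 0 0,⟨false,[],(2,5),.mon 0 1 0,[]⟩),
  (.comm 67 0 0,⟨false,[],(2,14),.all,[]⟩),
  (.comm 0 3 0,⟨false,[],(2,5),.all,[]⟩),
  (.comm 82 107 0,⟨false,[],(3,15),.mon 0 1 0,[]⟩),
  (.rho 0,⟨false,[],(14,2),.mon 1 0 0,[]⟩),
  (.comm 71 0 0,⟨false,[],(5,2),.all,[]⟩),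
  (.rho 119,⟨false,[],(14,4),.mon 0 0 0,[]⟩),
  (.comm 73 0 1,⟨false,[],(5,4),.all,[]⟩),
  (.comm 7 0 5,⟨false,[],(2,3),.all,[(2,4)]⟩),
  (.drop 0 [74],⟨false,[],(2,3),.all,[]⟩),
  (.rho 124,⟨false,[],(12,2),.mon 0 0 0,[]⟩),
  (.comm 65 0 1,⟨false,[],(3,2),.all,[]⟩)],
  [(9,9),(6,6),(2,2),(0,0),(77,77),(65,65),(61,61),(59,59),(53,53),(46,46),(36,36),(32,32),(25,25),(23,23),(21,21),(19,19),(17,17),(14,14)]⟩⟩ = true := by decide +kernel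

theorem cCo9 : Fam.chkP .C 9 1 true false true false true
  ⟨[(9,8)],[(16,13)],[(15,14),(6,11),(10,7)],[((16,3),some (0,0,0)),((11,4),some (0,0,0)),((2,12),some (1,0,0))],0,(16,3),(16,3),(16,3),(16,3),(0,0,0),[(6,3),(13,18),(2,10)],
  [(.base 0,⟨false,[(15,14),(6,11),(10,7),(9,8),(16,13),(12,17)],(2,10),.mon 1 0 0,[(13,18),(6,3),(16,3),(11,4),(2,12)]⟩),
  (.cc 0,⟨false,[(13,12),(2,17),(16,3),(19,18),(10,15),(14,11)],(6,16),.mon 1 0 0,[(15,8),(2,7),(10,7),(17,4),(6,14)]⟩),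
  (.ca 0,⟨false,[(11,10),(2,7),(6,3),(5,4),(12,9),(8,13)],(16,6),.mon 1 0 0,[(9,14),(2,17),(12,17),(7,18),(16,8)]⟩),
  (.cc 0,⟨false,[(17,16),(6,3),(2,7),(5,4),(14,19),(18,15)],(10,2),.mon 1 0 0,[(19,12),(6,11),(14,11),(3,8),(10,18)]⟩),
  (.ca 0,⟨false,[(7,6),(16,3),(2,17),(19,18),(8,5),(4,9)],(12,2),.mon 1 0 0,[(5,10),(16,13),(8,13),(3,14),(12,4)]⟩),
  (.cc 0,⟨false,[(3,2),(10,7),(6,11),(9,8),(18,5),(4,19)],(14,6),.mon 1 0 0,[(5,16),(10,15),(18,15),(7,12),(14,4)]⟩),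
  (.base 3,⟨false,[(15,14),(6,11),(10,7),(9,8),(16,13),(12,17)],(16,3),.mon 0 0 0,[(2,10),(13,18),(6,3),(11,4),(2,12)]⟩),
  (.mul 0 1,⟨false,[(15,14),(6,11),(10,7),(9,8),(16,13),(12,17),(3,2),(10,7),(6,11),(9,8),(18,5),(4,19)],(16,3),.mon 0 0 0,[(2,10),(13,18),(6,3),(11,4),(2,12),(14,6),(5,16),(10,15),(18,15),(7,12),(14,4)]⟩),
  (.sq 0 3,⟨false,[],(16,3),.mon 0 0 0,[(13,18),(5,16),(18,15),(2,15),(13,15),(13,3),(5,3),(14,4)]⟩),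
  (.cc 0,⟨false,[],(10,7),.mon 0 0 0,[(15,8),(5,10),(8,13),(6,13),(15,13),(15,7),(5,7),(12,4)]⟩),
  (.ca 0,⟨false,[],(12,17),.mon 0 0 0,[(9,14),(19,12),(14,11),(16,11),(9,11),(9,17),(19,17),(10,18)]⟩),
  (.cc 0,⟨false,[],(14,11),.mon 0 0 0,[(19,12),(9,14),(12,17),(10,17),(19,17),(19,11),(9,11),(16,8)]⟩),
  (.ca 0,⟨false,[],(8,13),.mon 0 0 0,[(5,10),(15,8),(10,7),(12,7),(5,7),(5,13),(15,13),(6,14)]⟩),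
  (.cc 0,⟨false,[],(18,15),.mon 0 0 0,[(5,16),(13,18),(16,3),(14,3),(5,3),(5,15),(13,15),(2,12)]⟩),
  (.ca 5,⟨false,[],(6,3),.mon 0 0 0,[(11,4),(19,6),(4,9),(2,9),(11,9),(11,3),(19,3),(8,18)]⟩),
  (.cc 0,⟨false,[],(2,7),.mon 0 0 0,[(17,4),(9,2),(4,19),(6,19),(17,19),(17,7),(9,7),(18,8)]⟩),
  (.ca 0,⟨false,[],(2,17),.mon 0 0 0,[(7,18),(15,2),(18,5),(16,5),(7,5),(7,17),(15,17),(4,14)]⟩),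
  (.cc 0,⟨false,[],(6,11),.mon 0 0 0,[(3,8),(13,6),(8,5),(10,5),(3,5),(3,11),(13,11),(4,12)]⟩),
  (.ca 0,⟨false,[],(16,13),.mon 0 0 0,[(3,14),(11,16),(14,19),(12,19),(3,19),(3,13),(11,13),(18,10)]⟩),
  (.cc 0,⟨false,[],(10,15),.mon 0 0 0,[(7,12),(17,10),(12,9),(14,9),(7,9),(7,15),(17,15),(8,16)]⟩),
  (.ca 0,⟨false,[],(12,9),.mon 0 0 0,[(17,10),(7,12),(10,15),(8,15),(17,15),(17,9),(7,9),(14,6)]⟩),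
  (.rho 0,⟨false,[],(8,13),.mon 0 0 0,[(17,10),(7,12),(10,15),(8,15),(17,15),(17,9),(7,9),(14,6)]⟩),
  (.base 1,⟨false,[(15,14),(6,11),(10,7),(9,8),(16,13),(12,17)],(13,18),.mon 0 0 0,[(2,10),(6,3),(16,3),(11,4),(2,12)]⟩),
  (.mul 0 17,⟨false,[(15,14),(6,11),(10,7),(9,8),(16,13),(12,17),(3,2),(10,7),(6,11),(9,8),(18,5),(4,19)],(13,18),.mon 0 0 0,[(2,10),(6,3),(16,3),(11,4),(2,12),(14,6),(5,16),(10,15),(18,15),(7,12),(14,4)]⟩),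
  (.sq 0 3,⟨false,[],(13,18),.mon 0 0 0,[(16,3),(5,16),(18,15),(2,15),(13,15),(13,3),(5,3),(14,4)]⟩),
  (.comm 0 3 0,⟨false,[],(8,18),.mon 0 0 0,[(11,3),(14,3),(8,3),(8,15)]⟩),
  (.comm 0 12 0,⟨false,[],(8,15),.mon 0 0 0,[]⟩),
  (.cc 0,⟨false,[],(18,13),.mon 0 0 0,[]⟩),
  (.rho 0,⟨false,[],(12,19),.mon 0 0 0,[]⟩),
  (.ca 0,⟨false,[],(10,5),.mon 0 0 0,[]⟩),
  (.rho 0,⟨false,[],(4,11),.mon 0 0 0,[]⟩),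
  (.cc 0,⟨false,[],(4,17),.mon 0 0 0,[]⟩),
  (.ca 0,⟨false,[],(18,7),.mon 0 0 0,[]⟩),
  (.rho 0,⟨false,[],(6,19),.mon 0 0 0,[]⟩),
  (.rho 0,⟨false,[],(18,7),.mon 0 0 0,[]⟩),
  (.comm 12 0 0,⟨false,[],(13,7),.mon 0 0 0,[]⟩),
  (.rho 0,⟨false,[],(6,12),.mon 0 0 0,[]⟩),
  (.ca 0,⟨false,[],(16,10),.mon 0 0 0,[]⟩),
  (.rho 0,⟨false,[],(11,17),.mon 0 0 0,[]⟩),
  (.cc 0,⟨false,[],(17,11),.mon 0 0 0,[]⟩),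
  (.rho 0,⟨false,[],(10,16),.mon 0 0 0,[]⟩),
  (.ca 0,⟨false,[],(12,6),.mon 0 0 0,[]⟩),
  (.rho 0,⟨false,[],(7,13),.mon 0 0 0,[]⟩),
  (.cc 0,⟨false,[],(3,15),.mon 0 0 0,[]⟩),
  (.ca 0,⟨false,[],(3,9),.mon 0 0 0,[]⟩),
  (.cc 0,⟨false,[],(7,19),.mon 0 0 0,[]⟩),
  (.rho 0,⟨false,[],(18,6),.mon 0 0 0,[]⟩),
  (.comm 22 0 0,⟨false,[],(13,6),.mon 0 0 0,[]⟩),
  (.rho 0,⟨false,[],(7,12),.mon 0 0 0,[]⟩),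
  (.cc 0,⟨false,[],(3,14),.mon 0 0 0,[]⟩),
  (.ca 0,⟨false,[],(3,8),.mon 0 0 0,[]⟩),
  (.rho 0,⟨false,[],(9,2),.mon 0 0 0,[]⟩),
  (.rho 9,⟨false,[],(12,6),.mon 0 0 0,[]⟩),
  (.cc 16,⟨false,[],(2,14),.mon 0 0 0,[]⟩),
  (.ca 0,⟨false,[],(2,8),.mon 0 0 0,[]⟩),
  (.cc 0,⟨false,[],(6,18),.mon 0 0 0,[]⟩),
  (.comm 0 3 0,⟨false,[],(12,18),.mon 0 0 0,[]⟩),
  (.comm 8 0 0,⟨false,[],(7,18),.mon 0 0 0,[]⟩),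
  (.rho 0,⟨false,[],(19,6),.mon 0 0 0,[]⟩),
  (.base 2,⟨false,[(15,14),(6,11),(10,7),(9,8),(16,13),(12,17)],(6,3),.mon 0 0 0,[(2,10),(13,18),(16,3),(11,4),(2,12)]⟩),
  (.comm 0 1 0,⟨false,[],(19,3),.mon 0 0 0,[]⟩),
  (.rho 0,⟨false,[],(2,18),.mon 0 0 0,[]⟩),
  (.ca 0,⟨false,[],(2,4),.mon 0 0 0,[]⟩),
  (.comm 0 11 0,⟨false,[],(9,4),.mon 0 0 0,[]⟩),
  (.rho 0,⟨false,[],(5,8),.mon 0 0 0,[]⟩),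
  (.rho 11,⟨false,[],(15,3),.mon 0 0 0,[]⟩),
  (.rho 21,⟨false,[],(8,2),.mon 0 0 0,[]⟩),
  (.rho 18,⟨false,[],(13,6),.mon 0 0 0,[]⟩),
  (.comm 8 0 0,⟨false,[],(13,3),.mon 0 0 0,[]⟩),
  (.rho 0,⟨false,[],(2,12),.mon 0 0 0,[]⟩),
  (.ca 0,⟨false,[],(2,10),.mon 0 0 0,[]⟩),
  (.comm 0 30 0,⟨false,[],(2,16),.mon 0 0 0,[]⟩),
  (.rho 0,⟨false,[],(17,3),.mon 0 0 0,[]⟩),
  (.rho 22,⟨false,[],(9,2),.mon 0 0 0,[]⟩),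
  (.cc 40,⟨false,[],(2,9),.mon 0 0 0,[]⟩),
  (.ca 0,⟨false,[],(2,15),.mon 0 0 0,[]⟩),
  (.cc 0,⟨false,[],(6,13),.mon 0 0 0,[]⟩),
  (.ca 0,⟨false,[],(16,11),.mon 0 0 0,[]⟩),
  (.rho 0,⟨false,[],(10,17),.mon 0 0 0,[]⟩),
  (.comm 78 0 0,⟨false,[],(2,17),.mon 1 0 0,[(16,4)]⟩),
  (.comm 0 6 0,⟨false,[],(9,17),.mon 1 0 0,[]⟩),
  (.comm 0 8 0,⟨false,[],(9,3),.mon 1 0 0,[]⟩),
  (.rho 0,⟨false,[],(2,8),.mon 0 1 0,[]⟩),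
  (.sI 0 16,⟨true,[],(8,15),.mon 0 1 0,[]⟩),
  (.sF 0 57,⟨false,[],(8,15),.all,[]⟩),
  (.comm 0 19 0,⟨false,[],(8,3),.all,[]⟩),
  (.comm 0 21 0,⟨false,[],(5,3),.all,[]⟩),
  (.rho 36,⟨false,[],(9,2),.mon 0 0 0,[]⟩),
  (.rho 57,⟨false,[],(10,5),.mon 0 0 0,[]⟩),
  (.comm 18 0 0,⟨false,[],(2,5),.mon 0 0 0,[]⟩),
  (.comm 0 2 0,⟨false,[],(9,5),.mon 0 0 0,[]⟩),
  (.rho 0,⟨false,[],(4,8),.mon 0 0 0,[]⟩),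
  (.comm 6 0 0,⟨false,[],(4,3),.all,[]⟩),
  (.rho 43,⟨false,[],(15,2),.mon 0 0 0,[]⟩),
  (.comm 9 0 0,⟨false,[],(8,2),.all,[]⟩),
  (.comm 0 30 0,⟨false,[],(5,2),.all,[]⟩),
  (.comm 1 4 0,⟨false,[],(4,2),.all,[]⟩),
  (.rho 47,⟨false,[],(15,2),.mon 0 0 0,[]⟩),
  (.rho 55,⟨false,[],(12,6),.mon 0 0 0,[]⟩),
  (.comm 29 0 0,⟨false,[],(2,6),.mon 0 0 0,[]⟩),
  (.comm 0 2 0,⟨false,[],(15,6),.mon 0 0 0,[]⟩),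
  (.rho 0,⟨false,[],(7,14),.mon 0 0 0,[]⟩),
  (.rho 0,⟨false,[],(15,6),.mon 0 0 0,[]⟩),
  (.comm 18 0 0,⟨false,[],(8,6),.all,[]⟩),
  (.comm 0 12 0,⟨false,[],(4,6),.all,[]⟩),
  (.cc 35,⟨false,[],(6,14),.mon 0 0 0,[]⟩),
  (.rho 0,⟨false,[],(15,7),.mon 0 0 0,[]⟩),
  (.comm 22 0 0,⟨false,[],(8,7),.all,[]⟩),
  (.comm 0 16 0,⟨false,[],(4,7),.all,[]⟩),
  (.comm 5 44 0,⟨false,[],(5,6),.all,[]⟩),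
  (.comm 2 45 0,⟨false,[],(5,7),.all,[]⟩),
  (.comm 25 56 1,⟨false,[],(2,3),.all,[]⟩),
  (.comm 27 61 0,⟨false,[],(3,15),.all,[]⟩),
  (.rho 58,⟨false,[],(9,3),.mon 0 0 0,[]⟩),
  (.comm 70 0 0,⟨false,[],(9,15),.mon 0 0 0,[]⟩),
  (.rho 0,⟨false,[],(14,8),.mon 0 0 0,[]⟩),
  (.comm 31 0 1,⟨false,[],(14,15),.all,[]⟩),
  (.comm 67 0 5,⟨false,[],(3,2),.all,[(3,15)]⟩),
  (.drop 0 [5],⟨false,[],(3,2),.all,[]⟩)],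
  [(32,32),(26,26),(23,23),(22,22),(22,22),(26,26),(23,23),(32,32),(14,14),(10,10),(9,9),(8,8),(8,8),(10,10),(9,9),(14,14),(7,7),(0,0)]⟩ = true := by decide +kernel

theorem cCo10 : (Fam.op0 .C 10).check false true false true (Fam.tcG 10)
  ⟨[(15,5),(13,8),(7,17),(2,11),(18,20)],[(5,4)],[(3,9),(18,7)],[(19,11),(8,4),(14,11),(4,12),(10,7),(2,3)],[(18,13),(9,4),(15,17),(3,6),(10,20)],(2,4),(4,6),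
  ⟨[],[(21,13),(17,21)],[(19,8),(9,18),(7,19),(18,6)],[((9,21),some (1,0,0)),((12,4),some (0,0,0))],0,(9,21),(9,21),(9,21),(9,21),(0,0,0),[(12,19),(9,14)],
  [(.base 1,⟨false,[(19,8),(9,18),(7,19),(18,6),(21,13),(12,20),(17,21),(20,16)],(12,19),.mon 1 0 0,[(9,14),(9,21),(12,4)]⟩),
  (.base 0,⟨false,[(19,8),(9,18),(7,19),(18,6),(21,13),(12,20),(17,21),(20,16)],(9,14),.mon 0 0 0,[(12,19),(9,21),(12,4)]⟩),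
  (.cc 0,⟨false,[(12,5),(4,13),(2,12),(13,3),(11,18),(19,10),(15,11),(10,14)],(4,16),.mon 0 0 0,[(19,12),(4,11),(19,9)]⟩),
  (.ca 0,⟨false,[(9,15),(14,8),(11,9),(8,10),(2,20),(21,3),(5,2),(3,4)],(14,6),.mon 0 0 0,[(21,9),(14,2),(21,12)]⟩),
  (.cc 0,⟨false,[(4,17),(16,5),(21,4),(5,20),(7,10),(11,6),(8,7),(6,9)],(16,3),.mon 0 0 0,[(11,4),(16,7),(11,19)]⟩),
  (.mul 3 0,⟨false,[(19,8),(9,18),(7,19),(18,6),(21,13),(12,20),(17,21),(20,16),(4,17),(16,5),(21,4),(5,20),(7,10),(11,6),(8,7),(6,9)],(9,14),.mon 0 0 0,[(12,19),(9,21),(12,4),(16,3),(11,4),(16,7),(11,19)]⟩),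
  (.sq 0 1,⟨false,[],(9,14),.mon 0 0 0,[(16,3)]⟩),
  (.base 3,⟨false,[(19,8),(9,18),(7,19),(18,6),(21,13),(12,20),(17,21),(20,16)],(12,4),.mon 0 0 0,[(9,14),(12,19),(9,21)]⟩),
  (.ca 3,⟨false,[(14,7),(6,15),(19,14),(15,18),(17,3),(2,16),(13,17),(16,12)],(6,10),.mon 0 0 0,[(2,14),(6,17),(2,21)]⟩),
  (.cc 0,⟨false,[(16,2),(3,17),(12,16),(17,13),(15,6),(7,14),(18,15),(14,19)],(3,20),.mon 0 0 0,[(7,16),(3,15),(7,11)]⟩),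
  (.mul 2 0,⟨false,[(19,8),(9,18),(7,19),(18,6),(21,13),(12,20),(17,21),(20,16),(16,2),(3,17),(12,16),(17,13),(15,6),(7,14),(18,15),(14,19)],(12,4),.mon 0 0 0,[(9,14),(12,19),(9,21),(3,20),(7,16),(3,15),(7,11)]⟩),
  (.sq 0 1,⟨false,[],(12,4),.mon 0 0 0,[(7,11),(9,2)]⟩),
  (.ca 0,⟨false,[],(9,14),.mon 0 0 0,[(17,2),(12,11)]⟩),
  (.cc 0,⟨false,[],(4,16),.mon 0 0 0,[(15,7),(19,21)]⟩),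
  (.ca 0,⟨false,[],(14,6),.mon 0 0 0,[(5,17),(21,19)]⟩),
  (.comm 8 0 0,⟨false,[],(9,6),.mon 0 0 0,[]⟩),
  (.rho 0,⟨false,[],(7,8),.mon 0 0 0,[]⟩),
  (.cc 0,⟨false,[],(2,5),.mon 0 0 0,[]⟩),
  (.ca 0,⟨false,[],(11,15),.mon 0 0 0,[]⟩),
  (.cc 7,⟨false,[],(19,9),.mon 0 0 0,[(2,21),(4,7)]⟩),
  (.comm 13 0 0,⟨false,[],(19,14),.mon 0 0 0,[]⟩),
  (.rho 0,⟨false,[],(15,18),.mon 0 0 0,[]⟩),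
  (.comm 3 0 0,⟨false,[],(11,18),.mon 0 0 0,[]⟩),
  (.rho 0,⟨false,[],(19,10),.mon 0 0 0,[]⟩),
  (.comm 23 0 0,⟨false,[],(12,10),.mon 1 0 0,[]⟩),
  (.rho 0,⟨false,[],(11,13),.mon 0 1 0,[]⟩),
  (.ca 0,⟨false,[],(2,8),.mon 0 1 0,[]⟩),
  (.cc 8,⟨false,[],(21,17),.mon 0 0 0,[]⟩),
  (.rho 0,⟨false,[],(16,20),.mon 0 0 0,[]⟩),
  (.ca 0,⟨false,[],(6,18),.mon 0 0 0,[]⟩),
  (.cc 0,⟨false,[],(3,13),.mon 0 0 0,[]⟩),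
  (.ca 0,⟨false,[],(10,8),.mon 0 0 0,[]⟩),
  (.rho 0,⟨false,[],(9,11),.mon 0 0 0,[]⟩),
  (.cc 0,⟨false,[],(4,21),.mon 0 0 0,[]⟩),
  (.ca 0,⟨false,[],(14,19),.mon 0 0 0,[]⟩),
  (.comm 33 0 0,⟨false,[],(9,19),.mon 0 0 0,[]⟩),
  (.cc 0,⟨false,[],(4,12),.mon 0 0 0,[]⟩),
  (.ca 0,⟨false,[],(14,9),.mon 0 0 0,[]⟩),
  (.rho 0,⟨false,[],(8,15),.mon 0 0 0,[]⟩),
  (.comm 12 0 0,⟨false,[],(2,15),.mon 0 1 0,[]⟩),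
  (.rho 18,⟨false,[],(19,14),.mon 0 0 0,[]⟩),
  (.comm 40 0 0,⟨false,[],(12,14),.mon 1 0 0,[]⟩),
  (.ca 20,⟨false,[],(5,20),.mon 0 0 0,[]⟩),
  (.cc 0,⟨false,[],(8,10),.mon 0 0 0,[]⟩),
  (.ca 0,⟨false,[],(13,3),.mon 0 0 0,[]⟩),
  (.rho 0,⟨false,[],(2,12),.mon 0 0 0,[]⟩),
  (.cc 0,⟨false,[],(7,19),.mon 0 0 0,[]⟩),
  (.ca 0,⟨false,[],(17,21),.mon 0 0 0,[]⟩),
  (.cc 0,⟨false,[],(15,11),.mon 0 0 0,[]⟩),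
  (.rho 0,⟨false,[],(10,14),.mon 0 0 0,[]⟩),
  (.ca 0,⟨false,[],(3,4),.mon 0 0 0,[]⟩),
  (.comm 14 0 0,⟨false,[],(3,12),.mon 0 0 0,[]⟩),
  (.comm 10 0 0,⟨false,[],(3,14),.mon 1 0 0,[]⟩),
  (.rho 0,⟨false,[],(15,2),.mon 0 1 0,[]⟩),
  (.sI 14 0,⟨true,[],(15,18),.mon 0 2 0,[]⟩),
  (.sF 0 33,⟨false,[],(15,18),.all,[]⟩),
  (.ca 0,⟨false,[],(5,20),.all,[]⟩),
  (.rho 38,⟨false,[],(14,10),.mon 0 0 0,[]⟩),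
  (.comm 56 0 0,⟨false,[],(9,10),.mon 0 0 0,[]⟩),
  (.ca 0,⟨false,[],(12,3),.mon 0 0 0,[]⟩),
  (.rho 0,⟨false,[],(2,13),.mon 0 0 0,[]⟩),
  (.rho 15,⟨false,[],(13,3),.mon 0 0 0,[]⟩),
  (.comm 11 0 0,⟨false,[],(13,4),.mon 0 0 0,[]⟩),
  (.rho 0,⟨false,[],(5,12),.mon 0 0 0,[]⟩),
  (.rho 30,⟨false,[],(20,5),.mon 0 0 0,[]⟩),
  (.comm 1 0 0,⟨false,[],(20,12),.mon 0 0 0,[]⟩),
  (.rho 0,⟨false,[],(13,21),.mon 0 0 0,[]⟩),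
  (.comm 6 0 0,⟨false,[],(2,21),.mon 0 0 0,[]⟩),
  (.rho 0,⟨false,[],(20,3),.mon 0 0 0,[]⟩),
  (.comm 12 0 0,⟨false,[],(5,3),.all,[]⟩),
  (.comm 28 35 0,⟨false,[],(12,19),.mon 1 0 0,[]⟩),
  (.comm 0 34 0,⟨false,[],(4,19),.mon 1 0 0,[]⟩),
  (.rho 0,⟨false,[],(18,5),.mon 0 1 0,[]⟩),
  (.comm 17 0 0,⟨false,[],(15,5),.all,[]⟩),
  (.rho 22,⟨false,[],(13,2),.mon 0 0 0,[]⟩),
  (.comm 49 0 0,⟨false,[],(11,2),.mon 0 1 0,[]⟩),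
  (.rho 0,⟨false,[],(3,10),.mon 1 0 0,[]⟩),
  (.cc 26,⟨false,[],(6,9),.mon 0 0 0,[]⟩),
  (.comm 45 59 0,⟨false,[],(9,15),.mon 0 0 0,[]⟩),
  (.comm 1 0 0,⟨false,[],(6,15),.mon 0 0 0,[]⟩),
  (.rho 0,⟨false,[],(14,7),.mon 0 0 0,[]⟩),
  (.comm 79 0 0,⟨false,[],(9,7),.mon 0 0 0,[]⟩),
  (.rho 0,⟨false,[],(6,8),.mon 0 0 0,[]⟩),
  (.cc 0,⟨false,[],(3,5),.mon 0 0 0,[]⟩),
  (.ca 0,⟨false,[],(10,15),.mon 0 0 0,[]⟩),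
  (.comm 8 0 0,⟨false,[],(3,15),.mon 1 0 0,[]⟩),
  (.comm 12 0 0,⟨false,[],(3,5),.all,[]⟩),
  (.rho 40,⟨false,[],(18,6),.mon 0 0 0,[]⟩),
  (.comm 32 0 0,⟨false,[],(15,6),.all,[]⟩),
  (.rho 52,⟨false,[],(13,5),.mon 0 0 0,[]⟩),
  (.comm 64 0 0,⟨false,[],(11,5),.mon 0 1 0,[]⟩),
  (.rho 0,⟨false,[],(4,10),.mon 1 0 0,[]⟩),
  (.comm 0 7 0,⟨false,[],(4,15),.mon 1 0 0,[]⟩),
  (.comm 4 0 0,⟨false,[],(4,6),.all,[]⟩),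
  (.rho 64,⟨false,[],(19,7),.mon 0 0 0,[]⟩),
  (.comm 94 0 0,⟨false,[],(12,7),.mon 1 0 0,[]⟩),
  (.rho 0,⟨false,[],(6,13),.mon 0 1 0,[]⟩),
  (.comm 0 30 0,⟨false,[],(6,21),.mon 0 1 0,[]⟩),
  (.rho 0,⟨false,[],(20,7),.mon 1 0 0,[]⟩),
  (.comm 42 0 0,⟨false,[],(5,7),.all,[]⟩),
  (.comm 44 21 0,⟨false,[],(9,18),.all,[]⟩),
  (.comm 65 23 0,⟨false,[],(6,19),.mon 0 0 0,[]⟩),
  (.rho 0,⟨false,[],(18,7),.mon 0 0 0,[]⟩),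
  (.comm 2 0 0,⟨false,[],(9,7),.all,[]⟩),
  (.comm 15 65 0,⟨false,[],(8,6),.all,[]⟩),
  (.cc 48,⟨false,[],(8,10),.all,[]⟩),
  (.comm 71 56 0,⟨false,[],(10,19),.mon 0 0 0,[]⟩),
  (.rho 0,⟨false,[],(18,11),.mon 0 0 0,[]⟩),
  (.comm 7 0 0,⟨false,[],(9,11),.all,[]⟩),
  (.rho 2,⟨false,[],(18,11),.mon 0 0 0,[]⟩),
  (.comm 54 0 0,⟨false,[],(15,11),.all,[]⟩),
  (.ca 69,⟨false,[],(9,4),.mon 1 0 0,[]⟩),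
  (.rho 0,⟨false,[],(5,8),.mon 0 1 0,[]⟩),
  (.cc 0,⟨false,[],(8,5),.mon 0 1 0,[]⟩),
  (.rho 0,⟨false,[],(4,9),.mon 1 0 0,[]⟩),
  (.ca 0,⟨false,[],(14,12),.mon 1 0 0,[]⟩),
  (.rho 0,⟨false,[],(13,15),.mon 0 1 0,[]⟩),
  (.comm 6 0 0,⟨false,[],(13,11),.all,[]⟩),
  (.cc 62,⟨false,[],(17,13),.all,[]⟩),
  (.ca 41,⟨false,[],(16,12),.mon 0 0 0,[]⟩),
  (.rho 0,⟨false,[],(13,17),.mon 0 0 0,[]⟩),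
  (.comm 95 0 0,⟨false,[],(11,17),.mon 0 1 0,[]⟩),
  (.comm 3 0 0,⟨false,[],(11,13),.all,[]⟩),
  (.rho 52,⟨false,[],(18,13),.mon 0 1 0,[]⟩),
  (.comm 68 0 0,⟨false,[],(15,13),.all,[]⟩),
  (.comm 69 8 0,⟨false,[],(13,18),.all,[]⟩),
  (.rho 91,⟨false,[],(18,15),.mon 0 0 0,[]⟩),
  (.comm 1 0 0,⟨false,[],(13,15),.all,[]⟩),
  (.comm 9 11 0,⟨false,[],(17,15),.all,[]⟩),
  (.rho 8,⟨false,[],(16,12),.mon 0 0 0,[]⟩),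
  (.comm 59 0 0,⟨false,[],(16,19),.mon 1 0 0,[]⟩),
  (.rho 0,⟨false,[],(18,17),.mon 0 1 0,[]⟩),
  (.comm 76 0 0,⟨false,[],(15,17),.all,[]⟩),
  (.rho 48,⟨false,[],(14,11),.mon 0 0 0,[]⟩),
  (.comm 12 0 0,⟨false,[],(14,17),.mon 0 1 0,[]⟩),
  (.rho 0,⟨false,[],(16,15),.mon 1 0 0,[]⟩),
  (.comm 80 0 0,⟨false,[],(16,18),.all,[]⟩),
  (.rho 90,⟨false,[],(18,6),.mon 0 0 0,[]⟩),
  (.comm 60 0 0,⟨false,[],(18,9),.mon 0 0 0,[]⟩),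
  (.rho 0,⟨false,[],(8,19),.mon 0 0 0,[]⟩),
  (.comm 27 0 0,⟨false,[],(5,19),.mon 0 1 0,[]⟩),
  (.rho 104,⟨false,[],(13,5),.mon 0 0 0,[]⟩),
  (.comm 1 0 0,⟨false,[],(13,19),.mon 0 1 0,[]⟩),
  (.comm 24 0 0,⟨false,[],(17,19),.all,[]⟩),
  (.rho 72,⟨false,[],(18,5),.mon 0 1 0,[]⟩),
  (.comm 88 0 0,⟨false,[],(18,20),.all,[]⟩),
  (.comm 120 79 0,⟨false,[],(11,21),.mon 0 1 0,[]⟩),
  (.rho 62,⟨false,[],(14,11),.mon 0 0 0,[]⟩),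
  (.comm 1 0 0,⟨false,[],(14,21),.mon 0 1 0,[]⟩),
  (.rho 0,⟨false,[],(20,15),.mon 1 0 0,[]⟩),
  (.comm 94 0 0,⟨false,[],(20,18),.all,[]⟩),
  (.comm 109 105 0,⟨false,[],(2,14),.mon 1 0 0,[]⟩),
  (.comm 0 117 0,⟨false,[],(2,19),.mon 1 0 0,[]⟩),
  (.rho 0,⟨false,[],(18,3),.mon 0 1 0,[]⟩),
  (.comm 98 0 0,⟨false,[],(15,3),.all,[]⟩),
  (.comm 0 62 0,⟨false,[],(4,3),.all,[]⟩),
  (.comm 122 105 0,⟨false,[],(3,21),.mon 0 0 0,[]⟩),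
  (.rho 0,⟨false,[],(20,2),.mon 0 0 0,[]⟩),
  (.comm 101 0 0,⟨false,[],(5,2),.all,[]⟩),
  (.comm 109 115 0,⟨false,[],(8,14),.mon 0 0 0,[]⟩),
  (.rho 0,⟨false,[],(15,9),.mon 0 0 0,[]⟩),
  (.comm 125 0 0,⟨false,[],(15,19),.mon 0 0 0,[]⟩),
  (.rho 0,⟨false,[],(18,14),.mon 0 0 0,[]⟩),
  (.comm 107 0 1,⟨false,[],(15,14),.all,[]⟩),
  (.comm 124 0 5,⟨false,[],(2,3),.all,[(2,14)]⟩),
  (.drop 0 [10],⟨false,[],(2,3),.all,[]⟩),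
  (.comm 80 2 5,⟨false,[],(3,2),.all,[(3,14)]⟩),
  (.comm 96 115 0,⟨false,[],(3,19),.mon 1 0 0,[]⟩),
  (.rho 0,⟨false,[],(18,2),.mon 0 1 0,[]⟩),
  (.comm 113 0 0,⟨false,[],(15,2),.all,[]⟩),
  (.drop 3 [0],⟨false,[],(3,2),.all,[]⟩)],
  [(15,15),(12,12),(5,5),(0,0),(101,101),(84,84),(77,77),(71,71),(67,67),(66,66),(65,65),(62,62),(53,53),(48,48),(46,46),(43,43),(42,42),(38,38),(34,34),(27,27),(25,25),(20,20)]⟩⟩ = true := by decide +kernel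

theorem cCo11 : Fam.chkP .C 11 1 true false true false true
  ⟨[],[(15,9)],[(13,19),(18,12)],[((12,7),some (0,0,0)),((9,16),some (0,0,0)),((11,15),some (1,0,0))],0,(12,7),(12,7),(12,7),(12,7),(0,0,0),[(14,21),(19,10),(17,13)],
  [(.base 0,⟨false,[(13,19),(18,12),(15,9),(8,14)],(17,13),.mon 1 0 0,[(19,10),(14,21),(12,7),(9,16),(11,15)]⟩),
  (.cc 0,⟨false,[(19,13),(12,18),(17,23),(22,16)],(15,19),.mon 1 0 0,[(13,20),(16,11),(18,3),(23,14),(21,17)]⟩),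
  (.ca 0,⟨false,[(9,15),(14,8),(11,5),(4,10)],(13,9),.mon 1 0 0,[(15,6),(10,17),(8,3),(5,12),(7,11)]⟩),
  (.cc 0,⟨false,[(23,17),(16,22),(21,5),(4,20)],(19,23),.mon 1 0 0,[(17,2),(20,15),(22,7),(5,18),(3,21)]⟩),
  (.ca 0,⟨false,[(5,11),(10,4),(7,23),(22,6)],(9,5),.mon 1 0 0,[(11,2),(6,13),(4,21),(23,8),(3,7)]⟩),
  (.cc 0,⟨false,[(5,21),(20,4),(3,9),(8,2)],(23,5),.mon 1 0 0,[(21,6),(2,19),(4,11),(9,22),(7,3)]⟩),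
  (.ca 0,⟨false,[(23,7),(6,22),(3,19),(18,2)],(5,23),.mon 1 0 0,[(7,20),(2,9),(22,17),(19,4),(21,3)]⟩),
  (.cc 0,⟨false,[(9,3),(2,8),(7,13),(12,6)],(5,9),.mon 1 0 0,[(3,10),(6,23),(8,15),(13,4),(11,7)]⟩),
  (.mul 7 0,⟨false,[(13,19),(18,12),(15,9),(8,14),(9,3),(2,8),(7,13),(12,6)],(17,13),.mon 1 0 0,[(19,10),(14,21),(12,7),(9,16),(11,15),(5,9),(3,10),(6,23),(8,15),(13,4),(11,7)]⟩),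
  (.sq 0 3,⟨false,[],(17,13),.mon 1 0 0,[(9,16),(5,9),(13,4),(17,4),(5,7),(14,16)]⟩),
  (.ca 0,⟨false,[],(11,15),.mon 1 0 0,[(19,10),(23,19),(15,22),(11,22),(23,21),(12,10)]⟩),
  (.cc 0,⟨false,[],(21,17),.mon 1 0 0,[(13,20),(9,13),(17,8),(21,8),(9,11),(18,20)]⟩),
  (.rho 0,⟨false,[],(16,20),.mon 0 1 0,[(13,20),(9,13),(17,8),(21,8),(9,11),(18,20)]⟩),
  (.base 2,⟨false,[(13,19),(18,12),(15,9),(8,14)],(14,21),.mon 0 0 0,[(17,13),(19,10),(12,7),(9,16),(11,15)]⟩),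
  (.mul 0 8,⟨false,[(13,19),(18,12),(15,9),(8,14),(5,21),(20,4),(3,9),(8,2)],(14,21),.mon 0 0 0,[(17,13),(19,10),(12,7),(9,16),(11,15),(23,5),(21,6),(2,19),(4,11),(9,22),(7,3)]⟩),
  (.sq 0 3,⟨false,[],(14,21),.mon 0 0 0,[(9,16),(2,19),(9,22),(2,10),(19,5),(14,6),(12,20),(12,3),(4,15),(4,3),(12,15)]⟩),
  (.cc 0,⟨false,[],(16,11),.mon 0 0 0,[(23,14),(6,13),(23,8),(6,20),(13,5),(16,2),(18,10),(18,7),(4,17),(4,7),(18,17)]⟩),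
  (.ca 0,⟨false,[],(10,17),.mon 0 0 0,[(5,12),(20,15),(5,18),(20,6),(15,23),(10,2),(8,16),(8,21),(22,11),(22,21),(8,11)]⟩),
  (.cc 0,⟨false,[],(20,15),.mon 0 0 0,[(5,18),(10,17),(5,12),(10,2),(17,9),(20,6),(22,14),(22,11),(8,21),(8,11),(22,21)]⟩),
  (.ca 0,⟨false,[],(6,13),.mon 0 0 0,[(23,8),(16,11),(23,14),(16,2),(11,19),(6,20),(4,12),(4,17),(18,7),(18,17),(4,7)]⟩),
  (.cc 0,⟨false,[],(2,19),.mon 0 0 0,[(9,22),(14,21),(9,16),(14,6),(21,13),(2,10),(4,18),(4,15),(12,3),(12,15),(4,3)]⟩),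
  (.ca 0,⟨false,[],(2,9),.mon 0 0 0,[(19,4),(12,7),(19,10),(12,20),(7,15),(2,16),(22,8),(22,13),(14,3),(14,13),(22,3)]⟩),
  (.base 4,⟨false,[(13,19),(18,12),(15,9),(8,14)],(9,16),.mon 0 0 0,[(17,13),(19,10),(14,21),(12,7),(11,15)]⟩),
  (.mul 0 15,⟨false,[(13,19),(18,12),(15,9),(8,14),(9,3),(2,8),(7,13),(12,6)],(9,16),.mon 0 0 0,[(17,13),(19,10),(14,21),(12,7),(11,15),(5,9),(3,10),(6,23),(8,15),(13,4),(11,7)]⟩),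
  (.sq 0 3,⟨false,[],(9,16),.mon 0 0 0,[(17,13),(5,9),(13,4),(17,4),(5,7),(14,16)]⟩),
  (.comm 0 3 0,⟨false,[],(2,16),.mon 0 0 0,[(5,23),(6,4),(21,4),(14,4)]⟩),
  (.comm 0 13 0,⟨false,[],(2,20),.mon 0 1 0,[]⟩),
  (.cc 0,⟨false,[],(6,10),.mon 0 1 0,[]⟩),
  (.ca 0,⟨false,[],(20,16),.mon 0 1 0,[]⟩),
  (.rho 0,⟨false,[],(17,21),.mon 1 0 0,[]⟩),
  (.cc 0,⟨false,[],(15,11),.mon 1 0 0,[]⟩),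
  (.rho 0,⟨false,[],(10,14),.mon 0 1 0,[]⟩),
  (.ca 0,⟨false,[],(16,12),.mon 0 1 0,[]⟩),
  (.rho 0,⟨false,[],(13,17),.mon 1 0 0,[]⟩),
  (.comm 0 4 0,⟨false,[],(13,21),.mon 2 0 0,[]⟩),
  (.cc 1,⟨false,[],(19,15),.mon 1 0 0,[]⟩),
  (.rho 0,⟨false,[],(14,18),.mon 0 1 0,[]⟩),
  (.ca 0,⟨false,[],(12,8),.mon 0 1 0,[]⟩),
  (.rho 0,⟨false,[],(9,13),.mon 1 0 0,[]⟩),
  (.comm 0 4 0,⟨false,[],(9,21),.mon 3 0 0,[]⟩),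
  (.cc 1,⟨false,[],(23,19),.mon 1 0 0,[]⟩),
  (.rho 0,⟨false,[],(18,22),.mon 0 1 0,[]⟩),
  (.ca 0,⟨false,[],(8,4),.mon 0 1 0,[]⟩),
  (.rho 0,⟨false,[],(5,9),.mon 1 0 0,[]⟩),
  (.comm 0 4 0,⟨false,[],(5,21),.mon 4 0 0,[]⟩),
  (.rho 0,⟨false,[],(20,4),.mon 0 4 0,[]⟩),
  (.ca 19,⟨false,[],(2,6),.mon 0 1 0,[]⟩),
  (.cc 0,⟨false,[],(6,2),.mon 0 1 0,[]⟩),
  (.rho 0,⟨false,[],(3,7),.mon 1 0 0,[]⟩),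
  (.rho 0,⟨false,[],(6,2),.mon 0 1 0,[]⟩),
  (.sI 0 3,⟨true,[],(2,20),.mon 0 2 0,[]⟩),
  (.sF 0 24,⟨false,[],(2,20),.all,[]⟩),
  (.comm 0 6 0,⟨false,[],(2,4),.all,[]⟩),
  (.ca 4,⟨false,[],(3,21),.mon 1 0 0,[]⟩),
  (.rho 0,⟨false,[],(20,2),.mon 0 1 0,[]⟩),
  (.cc 1,⟨false,[],(7,11),.mon 1 0 0,[]⟩),
  (.ca 0,⟨false,[],(21,17),.mon 1 0 0,[]⟩),
  (.rho 0,⟨false,[],(16,20),.mon 0 1 0,[]⟩),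
  (.comm 0 3 0,⟨false,[],(16,2),.mon 0 2 0,[]⟩),
  (.rho 0,⟨false,[],(3,17),.mon 2 0 0,[]⟩),
  (.rho 0,⟨false,[],(16,2),.mon 0 2 0,[]⟩),
  (.cc 3,⟨false,[],(14,10),.mon 0 1 0,[]⟩),
  (.rho 0,⟨false,[],(11,15),.mon 1 0 0,[]⟩),
  (.ca 0,⟨false,[],(17,13),.mon 1 0 0,[]⟩),
  (.rho 0,⟨false,[],(12,16),.mon 0 1 0,[]⟩),
  (.comm 0 4 0,⟨false,[],(12,2),.mon 0 3 0,[]⟩),
  (.rho 0,⟨false,[],(3,13),.mon 3 0 0,[]⟩),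
  (.rho 0,⟨false,[],(12,2),.mon 0 3 0,[]⟩),
  (.cc 3,⟨false,[],(18,14),.mon 0 1 0,[]⟩),
  (.rho 0,⟨false,[],(15,19),.mon 1 0 0,[]⟩),
  (.ca 0,⟨false,[],(13,9),.mon 1 0 0,[]⟩),
  (.rho 0,⟨false,[],(8,12),.mon 0 1 0,[]⟩),
  (.comm 0 4 0,⟨false,[],(8,2),.mon 0 4 0,[]⟩),
  (.rho 0,⟨false,[],(3,9),.mon 4 0 0,[]⟩),
  (.rho 0,⟨false,[],(8,2),.mon 0 4 0,[]⟩),
  (.cc 3,⟨false,[],(22,18),.mon 0 1 0,[]⟩),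
  (.rho 0,⟨false,[],(19,23),.mon 1 0 0,[]⟩),
  (.ca 0,⟨false,[],(9,5),.mon 1 0 0,[]⟩),
  (.rho 0,⟨false,[],(4,8),.mon 0 1 0,[]⟩),
  (.comm 0 4 0,⟨false,[],(4,2),.mon 0 5 0,[]⟩),
  (.rho 0,⟨false,[],(3,5),.mon 5 0 0,[]⟩),
  (.rho 0,⟨false,[],(4,2),.mon 0 5 0,[]⟩),
  (.rho 50,⟨false,[],(15,11),.mon 1 0 0,[]⟩),
  (.comm 55 36 0,⟨false,[],(2,10),.mon 0 2 0,[]⟩),
  (.rho 0,⟨false,[],(11,3),.mon 2 0 0,[]⟩),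
  (.comm 31 0 0,⟨false,[],(11,21),.mon 3 0 0,[]⟩),
  (.comm 0 3 0,⟨false,[],(15,21),.mon 4 0 0,[]⟩),
  (.rho 0,⟨false,[],(20,14),.mon 0 4 0,[]⟩),
  (.comm 36 0 0,⟨false,[],(2,14),.all,[]⟩),
  (.comm 0 7 0,⟨false,[],(4,14),.all,[]⟩),
  (.spec 0,⟨false,[],(4,14),.mon 0 0 0,[]⟩),
  (.rho 39,⟨false,[],(21,3),.all,[]⟩),
  (.comm 0 78 0,⟨false,[],(14,3),.all,[]⟩),
  (.comm 0 2 0,⟨false,[],(4,3),.all,[]⟩),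
  (.rho 49,⟨false,[],(20,4),.mon 0 4 0,[]⟩),
  (.comm 39 46 0,⟨false,[],(3,11),.mon 2 0 0,[]⟩),
  (.comm 33 0 0,⟨false,[],(3,15),.mon 3 0 0,[]⟩),
  (.comm 27 0 0,⟨false,[],(3,19),.mon 4 0 0,[]⟩),
  (.rho 0,⟨false,[],(18,2),.mon 0 4 0,[]⟩),
  (.comm 47 0 0,⟨false,[],(18,20),.all,[]⟩),
  (.comm 0 5 0,⟨false,[],(18,4),.all,[]⟩),
  (.rho 0,⟨false,[],(5,19),.all,[]⟩),
  (.spec 0,⟨false,[],(5,19),.mon 0 0 0,[]⟩),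
  (.rho 49,⟨false,[],(20,2),.mon 0 1 0,[]⟩),
  (.rho 7,⟨false,[],(14,2),.mon 0 3 0,[]⟩),
  (.comm 53 0 0,⟨false,[],(14,20),.all,[]⟩),
  (.comm 0 2 0,⟨false,[],(14,2),.all,[]⟩),
  (.base 1,⟨false,[(13,19),(18,12),(15,9),(8,14)],(19,10),.mon 0 0 0,[(17,13),(14,21),(12,7),(9,16),(11,15)]⟩),
  (.rho 54,⟨false,[],(20,2),.mon 0 1 0,[]⟩),
  (.rho 13,⟨false,[],(10,2),.mon 0 2 0,[]⟩),
  (.comm 58 0 0,⟨false,[],(10,20),.all,[]⟩),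
  (.comm 0 2 0,⟨false,[],(10,2),.all,[]⟩),
  (.comm 0 4 0,⟨false,[],(19,2),.all,[(14,2)]⟩),
  (.drop 0 [6],⟨false,[],(19,2),.all,[]⟩),
  (.comm 0 11 0,⟨false,[],(5,2),.all,[]⟩),
  (.rho 61,⟨false,[],(20,2),.mon 0 1 0,[]⟩),
  (.rho 35,⟨false,[],(4,2),.mon 0 5 0,[]⟩),
  (.comm 65 0 0,⟨false,[],(4,20),.all,[]⟩),
  (.comm 0 2 0,⟨false,[],(4,2),.all,[]⟩),
  (.rho 38,⟨false,[],(4,2),.mon 0 5 0,[]⟩),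
  (.ca 68,⟨false,[],(2,6),.all,[]⟩),
  (.comm 0 1 0,⟨false,[],(4,6),.all,[]⟩),
  (.spec 32,⟨false,[],(4,14),.mon 0 0 0,[]⟩),
  (.rho 74,⟨false,[],(6,2),.mon 0 1 0,[]⟩),
  (.comm 72 0 0,⟨false,[],(6,20),.all,[]⟩),
  (.rho 0,⟨false,[],(21,7),.all,[]⟩),
  (.comm 0 112 0,⟨false,[],(14,7),.all,[]⟩),
  (.comm 0 4 0,⟨false,[],(4,7),.all,[]⟩),
  (.rho 30,⟨false,[],(18,2),.mon 0 4 0,[]⟩),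
  (.comm 8 0 0,⟨false,[],(18,6),.all,[]⟩),
  (.rho 0,⟨false,[],(7,19),.all,[]⟩),
  (.spec 0,⟨false,[],(7,19),.mon 0 0 0,[]⟩),
  (.rho 87,⟨false,[],(20,4),.mon 0 4 0,[]⟩),
  (.comm 27 0 0,⟨false,[],(14,4),.all,[]⟩),
  (.rho 89,⟨false,[],(20,4),.mon 0 4 0,[]⟩),
  (.comm 24 0 0,⟨false,[],(10,4),.all,[]⟩),
  (.comm 0 28 0,⟨false,[],(19,4),.all,[(14,4)]⟩),
  (.drop 0 [3],⟨false,[],(19,4),.all,[]⟩),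
  (.comm 0 6 0,⟨false,[],(7,4),.all,[]⟩),
  (.rho 105,⟨false,[],(16,12),.mon 0 1 0,[]⟩),
  (.rho 84,⟨false,[],(10,6),.mon 0 1 0,[]⟩),
  (.rho 111,⟨false,[],(20,16),.mon 0 1 0,[]⟩),
  (.rho 115,⟨false,[],(21,3),.mon 1 0 0,[]⟩),
  (.comm 94 0 0,⟨false,[],(21,7),.mon 2 0 0,[]⟩),
  (.rho 0,⟨false,[],(6,20),.mon 0 2 0,[]⟩),
  (.comm 0 3 0,⟨false,[],(6,16),.mon 0 3 0,[]⟩),
  (.comm 0 5 0,⟨false,[],(10,16),.mon 0 4 0,[]⟩),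
  (.comm 0 7 0,⟨false,[],(10,12),.mon 0 5 0,[]⟩),
  (.rho 0,⟨false,[],(13,11),.mon 5 0 0,[]⟩),
  (.comm 110 0 0,⟨false,[],(9,11),.mon 6 0 0,[]⟩),
  (.comm 106 0 0,⟨false,[],(5,11),.mon 7 0 0,[]⟩),
  (.rho 0,⟨false,[],(10,4),.mon 0 7 0,[]⟩),
  (.cc 100,⟨false,[],(6,10),.all,[]⟩),
  (.comm 0 1 0,⟨false,[],(6,4),.all,[]⟩),
  (.spec 65,⟨false,[],(2,14),.mon 0 0 0,[]⟩),
  (.comm 62 0 1,⟨false,[],(2,3),.all,[]⟩),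
  (.rho 102,⟨false,[],(20,2),.mon 0 1 0,[]⟩),
  (.comm 57 0 0,⟨false,[],(18,2),.all,[]⟩),
  (.rho 0,⟨false,[],(3,19),.all,[]⟩),
  (.comm 0 51 0,⟨false,[],(3,10),.all,[]⟩),
  (.rho 62,⟨false,[],(18,2),.mon 0 4 0,[]⟩),
  (.rho 75,⟨false,[],(20,10),.mon 0 3 0,[]⟩),
  (.comm 110 0 0,⟨false,[],(2,10),.all,[]⟩),
  (.comm 0 2 0,⟨false,[],(18,10),.all,[]⟩),
  (.rho 0,⟨false,[],(11,19),.all,[]⟩),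
  (.comm 0 57 1,⟨false,[],(11,10),.all,[]⟩),
  (.spec 54,⟨false,[],(10,2),.mon 0 0 0,[]⟩),
  (.comm 0 1 5,⟨false,[],(3,2),.all,[(11,2)]⟩),
  (.drop 0 [8],⟨false,[],(3,2),.all,[]⟩)],
  [(116,116),(75,75),(54,54),(50,50),(50,50),(75,75),(54,54),(116,116),(47,47),(41,41),(30,30),(15,15),(15,15),(41,41),(30,30),(47,47),(13,13),(0,0)]⟩ = true := by decide +kernel

theorem cCo12 : (Fam.op0 .C 12).check false true false true (Fam.tcG 12)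
  ⟨[(12,2),(19,25),(14,11),(22,4),(20,7),(8,17)],[],[(17,10),(18,4),(21,2)],[(23,17),(20,8),(3,21),(24,15),(12,20),(18,11),(14,6),(8,3),(10,13)],[(18,21),(10,14),(6,2),(16,4),(12,24),(9,23)],(2,4),(4,6),
  ⟨[(11,10)],[(23,13)],[(14,15),(5,3),(2,4)],[((19,10),some (0,0,0)),((22,7),some (1,0,0)),((8,13),some (0,0,0))],0,(19,10),(19,10),(19,10),(19,10),(0,0,0),[(25,15),(4,20),(17,3)],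
  [(.base 2,⟨false,[(14,15),(5,3),(2,4),(11,10),(23,13),(12,22)],(25,15),.mon 0 0 0,[(17,3),(4,20),(19,10),(22,7),(8,13)]⟩),
  (.base 0,⟨false,[(14,15),(5,3),(2,4),(11,10),(23,13),(12,22)],(17,3),.mon 0 0 0,[(4,20),(25,15),(19,10),(22,7),(8,13)]⟩),
  (.cc 0,⟨false,[(10,11),(17,7),(6,16),(15,14),(9,25),(24,8)],(5,7),.mon 0 0 0,[(16,19),(13,11),(20,14),(8,3),(22,25)]⟩),
  (.ca 0,⟨false,[(15,14),(8,20),(21,9),(10,11),(16,19),(18,17)],(23,20),.mon 0 0 0,[(9,25),(3,14),(7,11),(17,13),(4,19)]⟩),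
  (.cc 0,⟨false,[(11,10),(22,19),(18,23),(14,15),(4,20),(21,5)],(9,19),.mon 0 0 0,[(23,13),(7,10),(3,15),(5,25),(16,20)]⟩),
  (.ca 0,⟨false,[(14,15),(4,25),(24,5),(11,10),(22,7),(6,23)],(16,25),.mon 0 0 0,[(5,3),(20,15),(13,10),(23,19),(9,7)]⟩),
  (.cc 0,⟨false,[(10,11),(16,13),(12,17),(15,14),(8,3),(2,9)],(4,13),.mon 0 0 0,[(17,7),(19,11),(25,14),(9,20),(23,3)]⟩),
  (.mul 6 0,⟨false,[(14,15),(5,3),(2,4),(11,10),(23,13),(12,22),(10,11),(16,13),(12,17),(15,14),(8,3),(2,9)],(25,15),.mon 0 0 0,[(17,3),(4,20),(19,10),(22,7),(8,13),(4,13),(17,7),(19,11),(25,14),(9,20),(23,3)]⟩),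
  (.sq 0 3,⟨false,[],(25,15),.mon 0 0 0,[(19,10),(19,11),(25,14),(25,24),(19,18),(2,7),(21,13)]⟩),
  (.base 3,⟨false,[(14,15),(5,3),(2,4),(11,10),(23,13),(12,22)],(19,10),.mon 0 0 0,[(17,3),(4,20),(25,15),(22,7),(8,13)]⟩),
  (.ca 3,⟨false,[(15,14),(9,3),(2,8),(10,11),(17,13),(12,16)],(22,3),.mon 0 0 0,[(8,20),(25,14),(19,11),(16,7),(5,13)]⟩),
  (.cc 0,⟨false,[(11,10),(23,7),(6,22),(14,15),(5,25),(24,4)],(8,7),.mon 0 0 0,[(22,19),(13,10),(20,15),(4,3),(17,25)]⟩),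
  (.mul 2 0,⟨false,[(14,15),(5,3),(2,4),(11,10),(23,13),(12,22),(11,10),(23,7),(6,22),(14,15),(5,25),(24,4)],(19,10),.mon 0 0 0,[(17,3),(4,20),(25,15),(22,7),(8,13),(8,7),(22,19),(13,10),(20,15),(4,3),(17,25)]⟩),
  (.sq 0 3,⟨false,[],(19,10),.mon 0 0 0,[(4,20),(22,19),(20,15),(4,15),(17,15),(22,10),(8,10)]⟩),
  (.ca 0,⟨false,[],(25,15),.mon 0 0 0,[(22,7),(4,25),(7,10),(22,10),(8,10),(4,15),(17,15)]⟩),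
  (.cc 0,⟨false,[],(13,11),.mon 0 0 0,[(8,3),(16,13),(3,14),(8,14),(22,14),(16,11),(5,11)]⟩),
  (.ca 0,⟨false,[],(3,14),.mon 0 0 0,[(17,13),(9,3),(13,11),(17,11),(4,11),(9,14),(23,14)]⟩),
  (.rho 0,⟨false,[],(15,2),.mon 0 0 0,[(17,13),(9,3),(13,11),(17,11),(4,11),(9,14),(23,14)]⟩),
  (.comm 9 0 0,⟨false,[],(25,2),.mon 0 0 0,[(25,8),(25,22),(19,12),(19,16),(19,5),(15,7),(21,11),(21,18),(25,7)]⟩),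
  (.base 1,⟨false,[(14,15),(5,3),(2,4),(11,10),(23,13),(12,22)],(4,20),.mon 1 0 0,[(17,3),(25,15),(19,10),(22,7),(8,13)]⟩),
  (.mul 0 8,⟨false,[(14,15),(5,3),(2,4),(11,10),(23,13),(12,22),(11,10),(23,7),(6,22),(14,15),(5,25),(24,4)],(4,20),.mon 1 0 0,[(17,3),(25,15),(19,10),(22,7),(8,13),(8,7),(22,19),(13,10),(20,15),(4,3),(17,25)]⟩),
  (.sq 0 3,⟨false,[],(4,20),.mon 1 0 0,[(19,10),(22,19),(20,15),(4,15),(17,15),(22,10),(8,10)]⟩),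
  (.cc 0,⟨false,[],(16,19),.mon 1 0 0,[(20,14),(8,20),(19,11),(16,11),(5,11),(8,14),(22,14)]⟩),
  (.ca 0,⟨false,[],(9,25),.mon 1 0 0,[(7,11),(17,7),(25,14),(9,14),(23,14),(17,11),(4,11)]⟩),
  (.cc 0,⟨false,[],(23,13),.mon 1 0 0,[(3,15),(5,3),(13,10),(23,10),(9,10),(5,15),(16,15)]⟩),
  (.ca 0,⟨false,[],(5,3),.mon 1 0 0,[(13,10),(23,13),(3,15),(5,15),(16,15),(23,10),(9,10)]⟩),
  (.cc 0,⟨false,[],(17,7),.mon 1 0 0,[(25,14),(9,25),(7,11),(17,11),(4,11),(9,14),(23,14)]⟩),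
  (.ca 0,⟨false,[],(8,20),.mon 1 0 0,[(19,11),(16,19),(20,14),(8,14),(22,14),(16,11),(5,11)]⟩),
  (.cc 0,⟨false,[],(22,19),.mon 1 0 0,[(20,15),(4,20),(19,10),(22,10),(8,10),(4,15),(17,15)]⟩),
  (.ca 0,⟨false,[],(4,25),.mon 1 0 0,[(7,10),(22,7),(25,15),(4,15),(17,15),(22,10),(8,10)]⟩),
  (.cc 0,⟨false,[],(16,13),.mon 1 0 0,[(3,14),(8,3),(13,11),(16,11),(5,11),(8,14),(22,14)]⟩),
  (.ca 0,⟨false,[],(9,3),.mon 1 0 0,[(13,11),(17,13),(3,14),(9,14),(23,14),(17,11),(4,11)]⟩),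
  (.rho 0,⟨false,[],(2,8),.mon 0 1 0,[(13,11),(17,13),(3,14),(9,14),(23,14),(17,11),(4,11)]⟩),
  (.comm 14 0 0,⟨false,[],(25,8),.mon 0 1 0,[(19,16)]⟩),
  (.base 5,⟨false,[(14,15),(5,3),(2,4),(11,10),(23,13),(12,22)],(8,13),.mon 0 0 0,[(17,3),(4,20),(25,15),(19,10),(22,7)]⟩),
  (.comm 1 0 0,⟨false,[],(25,13),.mon 0 1 0,[]⟩),
  (.rho 0,⟨false,[],(12,24),.mon 1 0 0,[]⟩),
  (.ca 0,⟨false,[],(2,18),.mon 1 0 0,[]⟩),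
  (.cc 0,⟨false,[],(6,21),.mon 1 0 0,[]⟩),
  (.ca 0,⟨false,[],(21,6),.mon 1 0 0,[]⟩),
  (.rho 0,⟨false,[],(7,20),.mon 0 1 0,[]⟩),
  (.rho 2,⟨false,[],(20,7),.mon 0 1 0,[]⟩),
  (.sI 1 0,⟨true,[],(4,7),.mon 0 2 0,[]⟩),
  (.rho 4,⟨false,[],(20,7),.mon 0 1 0,[]⟩),
  (.comm 24 0 0,⟨false,[],(4,7),.mon 1 1 0,[]⟩),
  (.sF 2 0,⟨false,[],(4,7),.all,[]⟩),
  (.cc 0,⟨false,[],(16,3),.all,[]⟩),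
  (.ca 0,⟨false,[],(9,13),.all,[]⟩),
  (.cc 0,⟨false,[],(23,25),.all,[]⟩),
  (.ca 0,⟨false,[],(5,19),.all,[]⟩),
  (.rho 12,⟨false,[],(19,3),.mon 0 1 0,[]⟩),
  (.comm 1 0 0,⟨false,[],(5,3),.all,[]⟩),
  (.cc 2,⟨false,[],(17,20),.all,[]⟩),
  (.ca 0,⟨false,[],(8,7),.all,[]⟩),
  (.cc 0,⟨false,[],(22,3),.all,[]⟩),
  (.ca 0,⟨false,[],(4,13),.all,[]⟩),
  (.cc 0,⟨false,[],(16,25),.all,[]⟩),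
  (.comm 0 56 0,⟨false,[],(16,15),.all,[(2,25),(2,15)]⟩),
  (.ca 13,⟨false,[],(22,20),.mon 1 1 0,[]⟩),
  (.rho 0,⟨false,[],(21,23),.mon 1 1 0,[]⟩),
  (.cc 0,⟨false,[],(18,9),.mon 1 1 0,[]⟩),
  (.rho 0,⟨false,[],(8,19),.mon 1 1 0,[]⟩),
  (.ca 0,⟨false,[],(17,25),.mon 1 1 0,[]⟩),
  (.rho 0,⟨false,[],(24,16),.mon 1 1 0,[]⟩),
  (.comm 17 0 0,⟨false,[],(24,3),.all,[]⟩),
  (.rho 0,⟨false,[],(2,25),.all,[]⟩),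
  (.comm 0 65 0,⟨false,[],(2,15),.all,[]⟩),
  (.drop 9 [2,0],⟨false,[],(16,15),.all,[]⟩),
  (.cc 0,⟨false,[],(4,11),.all,[]⟩),
  (.rho 0,⟨false,[],(10,5),.all,[]⟩),
  (.cc 33,⟨false,[],(24,12),.mon 1 0 0,[]⟩),
  (.rho 0,⟨false,[],(13,25),.mon 0 1 0,[]⟩),
  (.comm 71 0 0,⟨false,[],(13,15),.mon 0 1 0,[(8,25),(8,15)]⟩),
  (.ca 27,⟨false,[],(22,20),.all,[]⟩),
  (.cc 0,⟨false,[],(8,19),.all,[]⟩),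
  (.ca 0,⟨false,[],(17,25),.all,[]⟩),
  (.cc 0,⟨false,[],(5,13),.all,[]⟩),
  (.ca 0,⟨false,[],(23,3),.all,[]⟩),
  (.cc 0,⟨false,[],(9,7),.all,[]⟩),
  (.ca 0,⟨false,[],(16,20),.all,[]⟩),
  (.cc 0,⟨false,[],(4,19),.all,[]⟩),
  (.ca 0,⟨false,[],(22,25),.all,[]⟩),
  (.cc 0,⟨false,[],(8,13),.all,[]⟩),
  (.comm 0 11 0,⟨false,[],(8,25),.all,[]⟩),
  (.comm 0 83 0,⟨false,[],(8,15),.all,[]⟩),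
  (.drop 12 [1,0],⟨false,[],(13,15),.mon 0 1 0,[]⟩),
  (.ca 0,⟨false,[],(3,10),.mon 0 1 0,[]⟩),
  (.comm 17 0 0,⟨false,[],(3,5),.all,[]⟩),
  (.comm 32 16 0,⟨false,[],(4,25),.all,[]⟩),
  (.comm 0 88 0,⟨false,[],(4,15),.all,[]⟩),
  (.rho 0,⟨false,[],(14,5),.all,[]⟩),
  (.cc 4,⟨false,[],(7,14),.mon 0 1 0,[]⟩),
  (.comm 1 0 0,⟨false,[],(7,5),.all,[]⟩),
  (.ca 10,⟨false,[],(17,3),.all,[]⟩),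
  (.cc 0,⟨false,[],(5,7),.all,[]⟩),
  (.rho 10,⟨false,[],(14,9),.all,[]⟩),
  (.comm 0 4 0,⟨false,[],(7,9),.all,[]⟩),
  (.comm 21 96 0,⟨false,[],(17,15),.all,[]⟩),
  (.ca 0,⟨false,[],(8,10),.all,[]⟩),
  (.comm 50 98 0,⟨false,[],(23,15),.all,[(6,25),(6,15)]⟩),
  (.cc 37,⟨false,[],(5,13),.mon 1 1 0,[]⟩),
  (.comm 0 29 0,⟨false,[],(5,25),.mon 1 2 0,[]⟩),
  (.rho 0,⟨false,[],(24,4),.mon 2 1 0,[]⟩),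
  (.comm 57 0 0,⟨false,[],(24,7),.all,[]⟩),
  (.rho 0,⟨false,[],(6,25),.all,[]⟩),
  (.comm 0 104 0,⟨false,[],(6,15),.all,[]⟩),
  (.drop 6 [2,0],⟨false,[],(23,15),.all,[]⟩),
  (.cc 0,⟨false,[],(9,11),.all,[]⟩),
  (.ca 41,⟨false,[],(12,10),.all,[]⟩),
  (.rho 23,⟨false,[],(14,12),.mon 1 0 0,[]⟩),
  (.comm 1 0 0,⟨false,[],(14,10),.all,[]⟩),
  (.cc 25,⟨false,[],(25,11),.mon 0 1 0,[]⟩),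
  (.rho 0,⟨false,[],(10,24),.mon 1 0 0,[]⟩),
  (.comm 2 0 0,⟨false,[],(14,24),.all,[]⟩),
  (.cc 0,⟨false,[],(10,12),.all,[]⟩),
  (.cc 9,⟨false,[],(2,11),.all,[]⟩),
  (.ca 0,⟨false,[],(12,14),.all,[]⟩),
  (.rho 45,⟨false,[],(24,12),.mon 1 0 0,[]⟩),
  (.comm 5 0 0,⟨false,[],(10,12),.mon 2 0 0,[]⟩),
  (.comm 8 0 0,⟨false,[],(14,12),.all,[]⟩),
  (.comm 38 119 0,⟨false,[],(22,15),.all,[]⟩),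
  (.ca 0,⟨false,[],(4,10),.all,[]⟩),
  (.cc 0,⟨false,[],(16,14),.all,[]⟩),
  (.cc 33,⟨false,[],(16,11),.all,[]⟩),
  (.rho 86,⟨false,[],(19,3),.mon 0 1 0,[]⟩),
  (.comm 38 0 0,⟨false,[],(19,10),.mon 0 2 0,[]⟩),
  (.rho 0,⟨false,[],(11,18),.mon 2 0 0,[]⟩),
  (.comm 3 0 0,⟨false,[],(16,18),.all,[]⟩),
  (.ca 56,⟨false,[],(3,19),.mon 0 1 0,[]⟩),
  (.comm 35 0 0,⟨false,[],(17,19),.all,[]⟩),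
  (.ca 29,⟨false,[],(23,3),.mon 1 1 0,[]⟩),
  (.rho 0,⟨false,[],(2,22),.mon 1 1 0,[]⟩),
  (.rho 3,⟨false,[],(18,2),.mon 1 0 0,[]⟩),
  (.comm 1 0 0,⟨false,[],(18,22),.mon 2 1 0,[]⟩),
  (.comm 60 0 0,⟨false,[],(18,20),.all,[]⟩),
  (.comm 21 43 0,⟨false,[],(7,24),.all,[]⟩),
  (.ca 0,⟨false,[],(20,18),.all,[]⟩),
  (.comm 59 50 0,⟨false,[],(23,10),.all,[]⟩),
  (.ca 46,⟨false,[],(20,11),.mon 0 1 0,[]⟩),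
  (.rho 0,⟨false,[],(10,21),.mon 1 0 0,[]⟩),
  (.comm 2 0 0,⟨false,[],(23,21),.all,[]⟩),
  (.ca 51,⟨false,[],(22,10),.all,[]⟩),
  (.comm 0 29 0,⟨false,[],(22,24),.all,[]⟩),
  (.rho 105,⟨false,[],(19,3),.mon 0 1 0,[]⟩),
  (.comm 63 0 0,⟨false,[],(4,3),.all,[]⟩),
  (.cc 47,⟨false,[],(5,11),.all,[]⟩),
  (.rho 0,⟨false,[],(10,4),.all,[]⟩),
  (.comm 0 60 0,⟨false,[],(3,4),.all,[]⟩),
  (.cc 16,⟨false,[],(6,8),.mon 1 1 0,[]⟩),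
  (.ca 0,⟨false,[],(21,17),.mon 1 1 0,[]⟩),
  (.rho 0,⟨false,[],(16,20),.mon 1 1 0,[]⟩),
  (.cc 0,⟨false,[],(4,19),.mon 1 1 0,[]⟩),
  (.ca 0,⟨false,[],(22,25),.mon 1 1 0,[]⟩),
  (.cc 0,⟨false,[],(8,13),.mon 1 1 0,[]⟩),
  (.ca 0,⟨false,[],(17,3),.mon 1 1 0,[]⟩),
  (.rho 0,⟨false,[],(2,16),.mon 1 1 0,[]⟩),
  (.comm 109 0 1,⟨false,[],(2,3),.all,[]⟩),
  (.spec 69,⟨false,[],(3,5),.mon 0 0 0,[]⟩),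
  (.ca 51,⟨false,[],(5,10),.all,[]⟩),
  (.rho 13,⟨false,[],(10,4),.all,[]⟩),
  (.spec 0,⟨false,[],(10,4),.mon 0 0 0,[]⟩),
  (.comm 2 0 1,⟨false,[],(5,4),.all,[]⟩),
  (.comm 4 0 5,⟨false,[],(3,2),.all,[(3,4)]⟩),
  (.drop 0 [15],⟨false,[],(3,2),.all,[]⟩)],
  [(19,19),(16,16),(7,7),(0,0),(112,112),(76,76),(71,71),(69,69),(85,85),(67,67),(65,65),(56,56),(49,49),(55,55),(47,47),(44,44),(66,66),(41,41),(36,36),(34,34),(29,29),(27,27),(23,23),(90,90),(21,21),(115,115)]⟩⟩ = true := by decide +kernel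

theorem cCo13 : Fam.chkP .C 13 1 true false true false true
  ⟨[],[(26,25),(9,14)],[(4,7),(6,5),(23,16),(17,22)],[((20,16),some (1,0,0)),((19,14),some (1,0,0)),((10,23),some (1,0,0))],0,(20,16),(20,16),(20,16),(20,16),(0,0,0),[(10,14),(13,16),(20,9)],
  [(.base 0,⟨false,[(4,7),(6,5),(23,16),(17,22),(26,25),(24,27),(9,14),(15,8)],(20,9),.mon 1 0 0,[(13,16),(10,14),(20,16),(19,14),(10,23)]⟩),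
  (.cc 0,⟨false,[(4,3),(2,5),(13,18),(19,12),(8,11),(10,9),(27,20),(21,26)],(14,27),.mon 1 0 0,[(23,18),(24,20),(14,18),(17,20),(24,13)]⟩),
  (.ca 0,⟨false,[(26,3),(2,27),(19,12),(13,18),(22,21),(20,23),(5,10),(11,4)],(16,5),.mon 1 0 0,[(9,12),(6,10),(16,12),(15,10),(6,19)]⟩),
  (.cc 0,⟨false,[(8,7),(6,9),(17,22),(23,16),(12,15),(14,13),(5,24),(25,4)],(18,5),.mon 1 0 0,[(27,22),(2,24),(18,22),(21,24),(2,17)]⟩),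
  (.ca 0,⟨false,[(22,25),(24,23),(15,8),(9,14),(18,17),(16,19),(27,6),(7,26)],(12,27),.mon 1 0 0,[(5,8),(2,6),(12,8),(11,6),(2,15)]⟩),
  (.cc 0,⟨false,[(12,11),(10,13),(21,26),(27,20),(16,19),(18,17),(9,2),(3,8)],(22,9),.mon 1 0 0,[(5,26),(6,2),(22,26),(25,2),(6,21)]⟩),
  (.ca 0,⟨false,[(18,21),(20,19),(11,4),(5,10),(14,13),(12,15),(23,2),(3,22)],(8,23),.mon 1 0 0,[(27,4),(24,2),(8,4),(7,2),(24,11)]⟩),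
  (.cc 0,⟨false,[(16,15),(14,17),(25,4),(5,24),(20,23),(22,21),(13,6),(7,12)],(26,13),.mon 1 0 0,[(9,4),(10,6),(26,4),(3,6),(10,25)]⟩),
  (.mul 7 0,⟨false,[(4,7),(6,5),(23,16),(17,22),(26,25),(24,27),(9,14),(15,8),(16,15),(14,17),(25,4),(5,24),(20,23),(22,21),(13,6),(7,12)],(20,9),.mon 1 0 0,[(13,16),(10,14),(20,16),(19,14),(10,23),(26,13),(9,4),(10,6),(26,4),(3,6),(10,25)]⟩),
  (.sq 0 7,⟨false,[],(20,9),.mon 1 0 0,[(10,14),(19,14),(10,23),(26,13),(10,6),(3,6),(10,25),(20,4),(26,16)]⟩),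
  (.cc 0,⟨false,[],(14,27),.mon 1 0 0,[(24,20),(17,20),(24,13),(8,23),(24,2),(7,2),(24,11),(14,4),(8,18)]⟩),
  (.ca 0,⟨false,[],(16,5),.mon 1 0 0,[(6,10),(15,10),(6,19),(22,9),(6,2),(25,2),(6,21),(16,26),(22,12)]⟩),
  (.cc 0,⟨false,[],(18,5),.mon 1 0 0,[(2,24),(21,24),(2,17),(12,27),(2,6),(11,6),(2,15),(18,8),(12,22)]⟩),
  (.ca 0,⟨false,[],(12,27),.mon 1 0 0,[(2,6),(11,6),(2,15),(18,5),(2,24),(21,24),(2,17),(12,22),(18,8)]⟩),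
  (.cc 0,⟨false,[],(22,9),.mon 1 0 0,[(6,2),(25,2),(6,21),(16,5),(6,10),(15,10),(6,19),(22,12),(16,26)]⟩),
  (.ca 0,⟨false,[],(8,23),.mon 1 0 0,[(24,2),(7,2),(24,11),(14,27),(24,20),(17,20),(24,13),(8,18),(14,4)]⟩),
  (.cc 0,⟨false,[],(26,13),.mon 1 0 0,[(10,6),(3,6),(10,25),(20,9),(10,14),(19,14),(10,23),(26,16),(20,4)]⟩),
  (.ca 0,⟨false,[],(4,19),.mon 1 0 0,[(20,24),(3,24),(20,7),(10,23),(20,16),(13,16),(20,9),(4,14),(10,26)]⟩),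
  (.base 4,⟨false,[(4,7),(6,5),(23,16),(17,22),(26,25),(24,27),(9,14),(15,8)],(19,14),.mon 1 0 0,[(20,9),(13,16),(10,14),(20,16),(10,23)]⟩),
  (.mul 0 13,⟨false,[(4,7),(6,5),(23,16),(17,22),(26,25),(24,27),(9,14),(15,8),(12,11),(10,13),(21,26),(27,20),(16,19),(18,17),(9,2),(3,8)],(19,14),.mon 1 0 0,[(20,9),(13,16),(10,14),(20,16),(10,23),(22,9),(5,26),(6,2),(22,26),(25,2),(6,21)]⟩),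
  (.sq 0 5,⟨false,[],(19,14),.mon 1 0 0,[(10,14),(10,23),(6,2),(25,2),(6,21)]⟩),
  (.comm 0 3 0,⟨false,[],(4,14),.mon 2 0 0,[]⟩),
  (.ca 0,⟨false,[],(26,16),.mon 2 0 0,[]⟩),
  (.rho 0,⟨false,[],(17,27),.mon 0 2 0,[]⟩),
  (.cc 0,⟨false,[],(19,9),.mon 0 2 0,[]⟩),
  (.rho 0,⟨false,[],(8,18),.mon 2 0 0,[]⟩),
  (.ca 0,⟨false,[],(22,12),.mon 2 0 0,[]⟩),
  (.rho 0,⟨false,[],(13,23),.mon 0 2 0,[]⟩),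
  (.cc 0,⟨false,[],(23,13),.mon 0 2 0,[]⟩),
  (.rho 0,⟨false,[],(12,22),.mon 2 0 0,[]⟩),
  (.rho 0,⟨false,[],(23,13),.mon 0 2 0,[]⟩),
  (.cc 9,⟨false,[],(4,20),.mon 2 0 0,[]⟩),
  (.ca 0,⟨false,[],(26,10),.mon 2 0 0,[]⟩),
  (.rho 0,⟨false,[],(11,27),.mon 0 2 0,[]⟩),
  (.cc 0,⟨false,[],(25,9),.mon 0 2 0,[]⟩),
  (.rho 0,⟨false,[],(8,24),.mon 2 0 0,[]⟩),
  (.ca 0,⟨false,[],(22,6),.mon 2 0 0,[]⟩),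
  (.rho 0,⟨false,[],(7,23),.mon 0 2 0,[]⟩),
  (.comm 0 7 0,⟨false,[],(7,13),.mon 0 4 0,[]⟩),
  (.rho 0,⟨false,[],(12,6),.mon 4 0 0,[]⟩),
  (.ca 10,⟨false,[],(18,8),.mon 2 0 0,[]⟩),
  (.rho 0,⟨false,[],(9,19),.mon 0 2 0,[]⟩),
  (.cc 0,⟨false,[],(27,17),.mon 0 2 0,[]⟩),
  (.rho 0,⟨false,[],(16,26),.mon 2 0 0,[]⟩),
  (.ca 0,⟨false,[],(14,4),.mon 2 0 0,[]⟩),
  (.rho 0,⟨false,[],(5,15),.mon 0 2 0,[]⟩),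
  (.cc 0,⟨false,[],(5,21),.mon 0 2 0,[]⟩),
  (.ca 0,⟨false,[],(27,11),.mon 0 2 0,[]⟩),
  (.rho 0,⟨false,[],(10,26),.mon 2 0 0,[]⟩),
  (.cc 0,⟨false,[],(24,8),.mon 2 0 0,[]⟩),
  (.rho 0,⟨false,[],(9,25),.mon 0 2 0,[]⟩),
  (.ca 0,⟨false,[],(23,7),.mon 0 2 0,[]⟩),
  (.rho 0,⟨false,[],(6,22),.mon 2 0 0,[]⟩),
  (.cc 0,⟨false,[],(2,12),.mon 2 0 0,[]⟩),
  (.comm 0 14 0,⟨false,[],(2,6),.mon 6 0 0,[]⟩),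
  (.cc 17,⟨false,[],(3,13),.mon 0 2 0,[]⟩),
  (.ca 0,⟨false,[],(3,19),.mon 0 2 0,[]⟩),
  (.cc 0,⟨false,[],(7,17),.mon 0 2 0,[]⟩),
  (.ca 0,⟨false,[],(25,15),.mon 0 2 0,[]⟩),
  (.rho 0,⟨false,[],(14,24),.mon 2 0 0,[]⟩),
  (.cc 0,⟨false,[],(20,10),.mon 2 0 0,[]⟩),
  (.rho 0,⟨false,[],(11,21),.mon 0 2 0,[]⟩),
  (.ca 0,⟨false,[],(21,11),.mon 0 2 0,[]⟩),
  (.rho 0,⟨false,[],(10,20),.mon 2 0 0,[]⟩),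
  (.cc 0,⟨false,[],(24,14),.mon 2 0 0,[]⟩),
  (.rho 0,⟨false,[],(15,25),.mon 0 2 0,[]⟩),
  (.ca 0,⟨false,[],(17,7),.mon 0 2 0,[]⟩),
  (.rho 0,⟨false,[],(6,16),.mon 2 0 0,[]⟩),
  (.comm 0 24 0,⟨false,[],(6,26),.mon 4 0 0,[]⟩),
  (.comm 0 14 0,⟨false,[],(2,26),.mon 10 0 0,[]⟩),
  (.rho 0,⟨false,[],(27,3),.mon 0 10 0,[]⟩),
  (.rho 24,⟨false,[],(20,4),.mon 2 0 0,[]⟩),
  (.rho 38,⟨false,[],(26,10),.mon 2 0 0,[]⟩),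
  (.comm 29 0 0,⟨false,[],(16,10),.mon 4 0 0,[]⟩),
  (.rho 0,⟨false,[],(11,17),.mon 0 4 0,[]⟩),
  (.rho 0,⟨false,[],(16,10),.mon 4 0 0,[]⟩),
  (.comm 12 0 0,⟨false,[],(16,20),.mon 6 0 0,[]⟩),
  (.comm 0 5 0,⟨false,[],(16,4),.mon 8 0 0,[]⟩),
  (.rho 0,⟨false,[],(5,17),.mon 0 8 0,[]⟩),
  (.comm 24 11 0,⟨false,[],(2,16),.mon 8 0 0,[]⟩),
  (.rho 0,⟨false,[],(17,3),.mon 0 8 0,[]⟩),
  (.rho 6,⟨false,[],(16,10),.mon 4 0 0,[]⟩),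
  (.comm 81 31 0,⟨false,[],(20,25),.mon 1 2 0,[]⟩),
  (.cc 0,⟨false,[],(14,11),.mon 1 2 0,[]⟩),
  (.rho 0,⟨false,[],(10,15),.mon 2 1 0,[]⟩),
  (.comm 0 3 0,⟨false,[],(16,15),.mon 6 1 0,[]⟩),
  (.rho 0,⟨false,[],(14,17),.mon 1 6 0,[]⟩),
  (.base 1,⟨false,[(4,7),(6,5),(23,16),(17,22),(26,25),(24,27),(9,14),(15,8)],(13,16),.mon 1 0 0,[(20,9),(10,14),(20,16),(19,14),(10,23)]⟩),
  (.comm 0 32 0,⟨false,[],(3,16),.mon 1 2 0,[]⟩),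
  (.ca 0,⟨false,[],(3,14),.mon 1 2 0,[]⟩),
  (.comm 0 3 0,⟨false,[],(3,17),.mon 2 8 0,[]⟩),
  (.sI 0 10,⟨true,[],(17,27),.mon 2 16 0,[]⟩),
  (.rho 12,⟨false,[],(17,3),.mon 0 8 0,[]⟩),
  (.comm 37 65 0,⟨false,[],(3,23),.mon 0 4 0,[]⟩),
  (.rho 0,⟨false,[],(22,2),.mon 4 0 0,[]⟩),
  (.comm 42 0 0,⟨false,[],(6,2),.mon 6 0 0,[]⟩),
  (.rho 0,⟨false,[],(3,7),.mon 0 6 0,[]⟩),
  (.comm 0 39 0,⟨false,[],(3,17),.mon 0 8 0,[]⟩),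
  (.sI 0 5,⟨true,[],(17,27),.mon 0 16 0,[]⟩),
  (.sN 0,⟨true,[],(17,27),.mon 0 (-16) 0,[]⟩),
  (.sA 0 8,⟨true,[],(17,27),.mon 2 0 0,[]⟩),
  (.sF 0 77,⟨false,[],(17,27),.all,[]⟩),
  (.comm 0 23 0,⟨false,[],(5,27),.all,[]⟩),
  (.comm 0 32 0,⟨false,[],(5,3),.all,[]⟩),
  (.rho 72,⟨false,[],(21,5),.mon 0 2 0,[]⟩),
  (.comm 59 0 0,⟨false,[],(21,15),.mon 0 4 0,[]⟩),
  (.rho 0,⟨false,[],(14,20),.mon 4 0 0,[]⟩),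
  (.rho 0,⟨false,[],(21,15),.mon 0 4 0,[]⟩),
  (.rho 66,⟨false,[],(18,8),.mon 2 0 0,[]⟩),
  (.ca 55,⟨false,[],(2,18),.mon 2 0 0,[]⟩),
  (.comm 0 1 0,⟨false,[],(2,8),.mon 4 0 0,[]⟩),
  (.rho 0,⟨false,[],(9,3),.mon 0 4 0,[]⟩),
  (.comm 111 0 0,⟨false,[],(20,3),.mon 1 4 0,[]⟩),
  (.rho 0,⟨false,[],(2,21),.mon 4 1 0,[]⟩),
  (.comm 0 6 0,⟨false,[],(2,15),.mon 4 5 0,[]⟩),
  (.ca 13,⟨false,[],(15,5),.all,[]⟩),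
  (.comm 0 1 0,⟨false,[],(2,5),.all,[]⟩),
  (.comm 28 73 0,⟨false,[],(3,26),.mon 3 2 0,[]⟩),
  (.rho 0,⟨false,[],(27,2),.mon 2 3 0,[]⟩),
  (.comm 16 0 0,⟨false,[],(5,2),.all,[]⟩),
  (.rho 60,⟨false,[],(25,15),.mon 0 2 0,[]⟩),
  (.rho 95,⟨false,[],(19,9),.mon 0 2 0,[]⟩),
  (.comm 65 0 0,⟨false,[],(3,9),.mon 0 4 0,[]⟩),
  (.comm 72 0 0,⟨false,[],(3,25),.mon 0 6 0,[]⟩),
  (.comm 0 3 0,⟨false,[],(3,15),.mon 0 8 0,[]⟩),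
  (.comm 9 0 0,⟨false,[],(3,5),.all,[]⟩),
  (.comm 68 102 0,⟨false,[],(7,27),.mon 0 4 0,[]⟩),
  (.rho 0,⟨false,[],(26,6),.mon 4 0 0,[]⟩),
  (.comm 79 0 0,⟨false,[],(10,6),.mon 6 0 0,[]⟩),
  (.rho 0,⟨false,[],(7,11),.mon 0 6 0,[]⟩),
  (.rho 23,⟨false,[],(21,15),.mon 0 4 0,[]⟩),
  (.comm 69 0 0,⟨false,[],(11,15),.mon 0 6 0,[]⟩),
  (.comm 0 2 0,⟨false,[],(7,15),.mon 0 12 0,[]⟩),
  (.comm 17 0 0,⟨false,[],(7,5),.all,[]⟩),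
  (.cc 20,⟨false,[],(6,15),.mon 4 1 0,[]⟩),
  (.comm 19 0 0,⟨false,[],(6,5),.all,[]⟩),
  (.rho 97,⟨false,[],(12,6),.mon 4 0 0,[]⟩),
  (.comm 69 0 0,⟨false,[],(12,16),.mon 6 0 0,[]⟩),
  (.comm 0 94 0,⟨false,[],(12,26),.mon 8 0 0,[]⟩),
  (.rho 0,⟨false,[],(27,13),.mon 0 8 0,[]⟩),
  (.comm 52 0 0,⟨false,[],(27,16),.mon 1 8 0,[]⟩),
  (.rho 0,⟨false,[],(17,26),.mon 8 1 0,[]⟩),
  (.comm 0 63 0,⟨false,[],(5,26),.mon 8 9 0,[]⟩),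
  (.rho 0,⟨false,[],(27,4),.mon 9 8 0,[]⟩),
  (.comm 42 86 0,⟨false,[],(7,27),.all,[]⟩),
  (.comm 0 1 0,⟨false,[],(7,4),.all,[]⟩),
  (.rho 77,⟨false,[],(27,7),.mon 0 4 0,[]⟩),
  (.comm 44 0 0,⟨false,[],(5,7),.all,[]⟩),
  (.rho 71,⟨false,[],(21,17),.mon 0 6 0,[]⟩),
  (.comm 35 0 0,⟨false,[],(2,17),.mon 4 7 0,[]⟩),
  (.rho 80,⟨false,[],(27,3),.mon 0 10 0,[]⟩),
  (.comm 49 0 0,⟨false,[],(17,3),.all,[]⟩),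
  (.comm 0 2 1,⟨false,[],(2,3),.all,[]⟩),
  (.rho 35,⟨false,[],(27,2),.mon 2 3 0,[]⟩),
  (.comm 52 56 0,⟨false,[],(3,27),.all,[]⟩),
  (.comm 0 1 1,⟨false,[],(3,2),.all,[]⟩)],
  [(52,52),(39,39),(36,36),(30,30),(30,30),(39,39),(36,36),(52,52),(22,22),(20,20),(10,10),(8,8),(8,8),(20,20),(10,10),(22,22),(3,3),(0,0)]⟩ = true := by decide +kernel

theorem cCo14 : Fam.chkP .C 14 1 true false true false true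
  ⟨[],[(11,24),(19,27)],[(23,8),(9,22),(15,7),(6,14)],[((21,26),some (0,0,0)),((28,9),some (0,0,0)),((2,19),some (1,0,0))],0,(21,26),(21,26),(21,26),(21,26),(0,0,0),[(13,6),(4,25),(2,15)],
  [(.base 0,⟨false,[(23,8),(9,22),(15,7),(6,14),(11,24),(25,10),(19,27),(26,18)],(2,15),.mon 1 0 0,[(4,25),(13,6),(21,26),(28,9),(2,19)]⟩),
  (.base 1,⟨false,[(23,8),(9,22),(15,7),(6,14),(11,24),(25,10),(19,27),(26,18)],(4,25),.mon 0 0 0,[(2,15),(13,6),(21,26),(28,9),(2,19)]⟩),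
  (.cc 1,⟨false,[(15,28),(29,14),(23,3),(2,22),(27,12),(13,26),(19,11),(10,18)],(6,23),.mon 1 0 0,[(4,13),(25,2),(17,10),(8,29),(6,19)]⟩),
  (.ca 0,⟨false,[(19,4),(5,18),(11,3),(2,10),(7,20),(21,6),(15,23),(22,14)],(26,11),.mon 1 0 0,[(28,21),(9,2),(17,22),(24,5),(26,15)]⟩),
  (.cc 0,⟨false,[(19,4),(5,18),(27,7),(6,26),(3,16),(17,2),(23,15),(14,22)],(10,27),.mon 1 0 0,[(8,17),(29,6),(21,14),(12,5),(10,23)]⟩),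
  (.mul 3 0,⟨false,[(23,8),(9,22),(15,7),(6,14),(11,24),(25,10),(19,27),(26,18),(19,4),(5,18),(27,7),(6,26),(3,16),(17,2),(23,15),(14,22)],(4,25),.mon 0 0 0,[(2,15),(13,6),(21,26),(28,9),(2,19),(10,27),(8,17),(29,6),(21,14),(12,5),(10,23)]⟩),
  (.sq 0 5,⟨false,[],(4,25),.mon 0 0 0,[(13,6),(21,26),(8,17),(29,6),(21,14),(2,20),(4,6),(21,11),(7,9)]⟩),
  (.base 2,⟨false,[(23,8),(9,22),(15,7),(6,14),(11,24),(25,10),(19,27),(26,18)],(13,6),.mon 0 0 0,[(2,15),(4,25),(21,26),(28,9),(2,19)]⟩),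
  (.mul 0 3,⟨false,[(23,8),(9,22),(15,7),(6,14),(11,24),(25,10),(19,27),(26,18),(19,4),(5,18),(27,7),(6,26),(3,16),(17,2),(23,15),(14,22)],(13,6),.mon 0 0 0,[(2,15),(4,25),(21,26),(28,9),(2,19),(10,27),(8,17),(29,6),(21,14),(12,5),(10,23)]⟩),
  (.sq 0 5,⟨false,[],(13,6),.mon 0 0 0,[(4,25),(21,26),(8,17),(29,6),(21,14),(2,20),(4,6),(21,11),(7,9)]⟩),
  (.cc 0,⟨false,[],(25,2),.mon 0 0 0,[(4,13),(17,10),(28,21),(9,2),(17,22),(6,16),(4,2),(17,27),(3,29)]⟩),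
  (.ca 0,⟨false,[],(9,2),.mon 0 0 0,[(28,21),(17,22),(4,13),(25,2),(17,10),(26,16),(28,2),(17,7),(3,5)]⟩),
  (.cc 0,⟨false,[],(29,6),.mon 0 0 0,[(8,17),(21,14),(4,25),(13,6),(21,26),(10,20),(8,6),(21,3),(7,5)]⟩),
  (.ca 0,⟨false,[],(5,26),.mon 0 0 0,[(24,17),(13,18),(28,9),(21,26),(13,6),(22,12),(24,26),(13,3),(27,29)]⟩),
  (.rho 0,⟨false,[],(27,4),.mon 0 0 0,[(24,17),(13,18),(28,9),(21,26),(13,6),(22,12),(24,26),(13,3),(27,29)]⟩),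
  (.comm 8 0 0,⟨false,[],(27,25),.mon 0 0 0,[(8,6),(27,6)]⟩),
  (.ca 6,⟨false,[],(21,26),.mon 0 0 0,[(28,9),(13,6),(24,17),(5,26),(13,18),(2,12),(28,26),(13,23),(27,25)]⟩),
  (.cc 0,⟨false,[],(17,10),.mon 0 0 0,[(8,29),(25,2),(12,21),(5,10),(25,18),(6,24),(8,10),(25,15),(11,13)]⟩),
  (.ca 0,⟨false,[],(17,22),.mon 0 0 0,[(24,5),(9,2),(20,13),(29,22),(9,14),(26,8),(24,22),(9,19),(23,21)]⟩),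
  (.cc 0,⟨false,[],(21,14),.mon 0 0 0,[(12,5),(29,6),(16,25),(9,14),(29,22),(10,28),(12,14),(29,19),(15,17)]⟩),
  (.ca 0,⟨false,[],(13,18),.mon 0 0 0,[(20,29),(5,26),(16,9),(25,18),(5,10),(22,4),(20,18),(5,15),(19,17)]⟩),
  (.cc 0,⟨false,[],(25,18),.mon 0 0 0,[(16,9),(5,10),(20,29),(13,18),(5,26),(14,4),(16,18),(5,23),(19,21)]⟩),
  (.comm 6 0 0,⟨false,[],(27,18),.mon 0 0 0,[]⟩),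
  (.rho 0,⟨false,[],(19,26),.mon 0 0 0,[]⟩),
  (.ca 0,⟨false,[],(15,6),.mon 0 0 0,[]⟩),
  (.rho 0,⟨false,[],(7,14),.mon 0 0 0,[]⟩),
  (.rho 0,⟨false,[],(15,6),.mon 0 0 0,[]⟩),
  (.comm 26 0 0,⟨false,[],(2,6),.mon 1 0 0,[]⟩),
  (.ca 0,⟨false,[],(2,26),.mon 1 0 0,[]⟩),
  (.cc 0,⟨false,[],(6,10),.mon 1 0 0,[]⟩),
  (.cc 2,⟨false,[],(6,2),.mon 1 0 0,[]⟩),
  (.rho 0,⟨false,[],(3,7),.mon 0 1 0,[]⟩),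
  (.ca 0,⟨false,[],(3,27),.mon 0 1 0,[]⟩),
  (.cc 0,⟨false,[],(7,11),.mon 0 1 0,[]⟩),
  (.rho 0,⟨false,[],(10,6),.mon 1 0 0,[]⟩),
  (.sI 5 0,⟨true,[],(2,6),.mon 2 0 0,[]⟩),
  (.sF 0 8,⟨false,[],(2,6),.all,[]⟩),
  (.cc 13,⟨false,[],(19,10),.mon 0 0 0,[]⟩),
  (.rho 0,⟨false,[],(11,18),.mon 0 0 0,[]⟩),
  (.ca 0,⟨false,[],(23,14),.mon 0 0 0,[]⟩),
  (.rho 0,⟨false,[],(15,22),.mon 0 0 0,[]⟩),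
  (.comm 40 0 0,⟨false,[],(2,22),.mon 1 0 0,[]⟩),
  (.cc 0,⟨false,[],(6,14),.mon 1 0 0,[]⟩),
  (.comm 6 0 0,⟨false,[],(2,14),.all,[]⟩),
  (.comm 10 12 0,⟨false,[],(3,11),.mon 0 2 0,[]⟩),
  (.rho 0,⟨false,[],(10,2),.mon 2 0 0,[]⟩),
  (.comm 2 0 0,⟨false,[],(10,14),.all,[]⟩),
  (.rho 0,⟨false,[],(15,11),.all,[]⟩),
  (.comm 0 47 0,⟨false,[],(2,11),.all,[]⟩),
  (.cc 12,⟨false,[],(6,2),.all,[]⟩),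
  (.spec 0,⟨false,[],(6,2),.mon 0 0 0,[]⟩),
  (.comm 2 0 0,⟨false,[],(6,11),.all,[]⟩),
  (.comm 0 44 0,⟨false,[],(13,11),.all,[]⟩),
  (.cc 0,⟨false,[],(25,27),.all,[]⟩),
  (.ca 0,⟨false,[],(9,7),.all,[]⟩),
  (.cc 0,⟨false,[],(29,3),.all,[]⟩),
  (.ca 0,⟨false,[],(5,3),.all,[]⟩),
  (.rho 13,⟨false,[],(15,3),.all,[]⟩),
  (.comm 0 57 1,⟨false,[],(2,3),.all,[]⟩),
  (.spec 0,⟨false,[],(2,3),.mon 0 0 0,[]⟩),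
  (.comm 10 0 2,⟨false,[],(6,3),.all,[(6,7)]⟩),
  (.cc 2,⟨false,[],(6,7),.all,[]⟩),
  (.drop 1 [0],⟨false,[],(6,3),.all,[]⟩),
  (.comm 0 55 0,⟨false,[],(13,3),.all,[]⟩),
  (.cc 0,⟨false,[],(25,7),.all,[]⟩),
  (.rho 28,⟨false,[],(7,3),.all,[]⟩),
  (.spec 0,⟨false,[],(7,3),.mon 0 0 0,[]⟩),
  (.comm 2 0 0,⟨false,[],(25,3),.all,[]⟩),
  (.comm 0 66 0,⟨false,[],(4,3),.all,[]⟩),
  (.ca 32,⟨false,[],(2,26),.all,[]⟩),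
  (.cc 0,⟨false,[],(6,10),.all,[]⟩),
  (.comm 0 63 0,⟨false,[],(13,10),.all,[]⟩),
  (.cc 0,⟨false,[],(25,26),.all,[]⟩),
  (.ca 0,⟨false,[],(9,6),.all,[]⟩),
  (.cc 0,⟨false,[],(29,2),.all,[]⟩),
  (.ca 0,⟨false,[],(5,2),.all,[]⟩),
  (.ca 42,⟨false,[],(27,23),.mon 0 1 0,[]⟩),
  (.rho 0,⟨false,[],(22,26),.mon 1 0 0,[]⟩),
  (.cc 0,⟨false,[],(14,10),.mon 1 0 0,[]⟩),
  (.rho 0,⟨false,[],(11,15),.mon 0 1 0,[]⟩),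
  (.ca 0,⟨false,[],(23,19),.mon 0 1 0,[]⟩),
  (.rho 0,⟨false,[],(18,22),.mon 1 0 0,[]⟩),
  (.rho 54,⟨false,[],(7,3),.mon 0 1 0,[]⟩),
  (.comm 50 0 0,⟨false,[],(7,27),.mon 0 2 0,[]⟩),
  (.comm 0 52 0,⟨false,[],(3,27),.mon 0 3 0,[]⟩),
  (.rho 7,⟨false,[],(27,23),.mon 0 1 0,[]⟩),
  (.comm 1 0 0,⟨false,[],(3,23),.mon 0 4 0,[]⟩),
  (.rho 0,⟨false,[],(22,2),.mon 4 0 0,[]⟩),
  (.comm 6 0 0,⟨false,[],(18,2),.mon 5 0 0,[]⟩),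
  (.rho 0,⟨false,[],(3,19),.mon 0 5 0,[]⟩),
  (.ca 47,⟨false,[],(26,18),.mon 1 0 0,[]⟩),
  (.rho 0,⟨false,[],(19,27),.mon 0 1 0,[]⟩),
  (.rho 63,⟨false,[],(27,3),.mon 0 1 0,[]⟩),
  (.comm 1 0 0,⟨false,[],(19,3),.mon 0 2 0,[]⟩),
  (.rho 0,⟨false,[],(2,18),.mon 2 0 0,[]⟩),
  (.rho 0,⟨false,[],(19,3),.mon 0 2 0,[]⟩),
  (.sI 6 0,⟨true,[],(19,26),.mon 0 7 0,[]⟩),
  (.rho 64,⟨false,[],(26,2),.mon 1 0 0,[]⟩),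
  (.comm 20 0 0,⟨false,[],(22,2),.mon 2 0 0,[]⟩),
  (.rho 0,⟨false,[],(3,23),.mon 0 2 0,[]⟩),
  (.rho 0,⟨false,[],(22,2),.mon 2 0 0,[]⟩),
  (.comm 19 0 0,⟨false,[],(18,2),.mon 3 0 0,[]⟩),
  (.rho 0,⟨false,[],(3,19),.mon 0 3 0,[]⟩),
  (.rho 8,⟨false,[],(19,3),.mon 0 2 0,[]⟩),
  (.sI 1 0,⟨true,[],(19,26),.mon 0 5 0,[]⟩),
  (.sN 0,⟨true,[],(19,26),.mon 0 (-5) 0,[]⟩),
  (.sA 9 0,⟨true,[],(19,26),.mon 0 2 0,[]⟩),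
  (.sF 0 83,⟨false,[],(19,26),.all,[]⟩),
  (.rho 75,⟨false,[],(26,2),.mon 1 0 0,[]⟩),
  (.comm 1 0 0,⟨false,[],(19,2),.all,[]⟩),
  (.comm 0 7 1,⟨false,[],(3,2),.all,[]⟩),
  (.cN 42 52 0,⟨false,[],(4,2),.all,[]⟩),
  (.ca 4,⟨false,[],(15,6),.all,[]⟩),
  (.comm 33 79 0,⟨false,[],(7,15),.mon 0 2 0,[]⟩),
  (.comm 1 0 1,⟨false,[],(7,6),.all,[]⟩),
  (.cN 50 53 0,⟨false,[],(25,6),.all,[]⟩),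
  (.comm 0 114 0,⟨false,[],(4,6),.all,[]⟩),
  (.cc 48,⟨false,[],(4,7),.all,[]⟩),
  (.spec 68,⟨false,[],(6,2),.mon 0 0 0,[]⟩),
  (.comm 75 0 0,⟨false,[],(6,14),.all,[]⟩),
  (.comm 0 112 0,⟨false,[],(13,14),.all,[(6,3),(13,3)]⟩),
  (.drop 0 [58,57],⟨false,[],(13,14),.all,[]⟩),
  (.cc 0,⟨false,[],(25,22),.all,[]⟩),
  (.ca 0,⟨false,[],(9,10),.all,[]⟩),
  (.cc 0,⟨false,[],(29,26),.all,[]⟩),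
  (.ca 0,⟨false,[],(5,6),.all,[]⟩),
  (.rho 26,⟨false,[],(22,2),.mon 2 0 0,[]⟩),
  (.comm 83 0 0,⟨false,[],(22,14),.all,[]⟩),
  (.rho 0,⟨false,[],(15,23),.all,[]⟩),
  (.comm 0 128 0,⟨false,[],(2,23),.all,[]⟩),
  (.cc 0,⟨false,[],(6,15),.all,[]⟩),
  (.comm 0 123 0,⟨false,[],(13,15),.all,[]⟩),
  (.cc 0,⟨false,[],(25,23),.all,[]⟩),
  (.ca 0,⟨false,[],(9,11),.all,[]⟩),
  (.cc 0,⟨false,[],(29,27),.all,[]⟩),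
  (.ca 0,⟨false,[],(5,7),.all,[]⟩)],
  [(79,79),(67,67),(60,60),(24,24),(24,24),(67,67),(60,60),(79,79),(19,19),(18,18),(10,10),(0,0),(0,0),(18,18),(10,10),(19,19),(77,77),(25,25)]⟩ = true := by decide +kernel

theorem cCo15 : Fam.chkP .C 15 1 true false true false true
  ⟨[],[(9,12),(13,7)],[(27,22),(23,26),(23,29),(28,22)],[((28,17),some (0,0,0)),((27,12),some (1,0,0)),((31,7),some (1,0,0))],0,(28,17),(28,17),(28,17),(28,17),(0,0,0),[(6,19),(9,22),(5,29)],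
  [(.base 0,⟨false,[(27,22),(23,26),(23,29),(28,22),(9,12),(13,8),(13,7),(6,12)],(5,29),.mon 1 0 0,[(9,22),(6,19),(28,17),(27,12),(31,7)]⟩),
  (.cc 0,⟨false,[(13,16),(17,12),(17,11),(10,16),(31,26),(27,30),(27,3),(2,26)],(5,11),.mon 1 0 0,[(31,16),(2,21),(10,23),(13,26),(9,3)]⟩),
  (.ca 0,⟨false,[(23,18),(19,22),(19,25),(24,18),(5,8),(9,4),(9,3),(2,8)],(31,25),.mon 1 0 0,[(5,18),(2,15),(24,13),(23,8),(27,3)]⟩),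
  (.cc 0,⟨false,[(17,20),(21,16),(21,15),(14,20),(5,30),(31,4),(31,7),(6,30)],(9,15),.mon 1 0 0,[(5,20),(6,25),(14,27),(17,30),(13,7)]⟩),
  (.base 2,⟨false,[(27,22),(23,26),(23,29),(28,22),(9,12),(13,8),(13,7),(6,12)],(6,19),.mon 0 0 0,[(5,29),(9,22),(28,17),(27,12),(31,7)]⟩),
  (.mul 0 1,⟨false,[(27,22),(23,26),(23,29),(28,22),(9,12),(13,8),(13,7),(6,12),(17,20),(21,16),(21,15),(14,20),(5,30),(31,4),(31,7),(6,30)],(6,19),.mon 0 0 0,[(5,29),(9,22),(28,17),(27,12),(31,7),(9,15),(5,20),(6,25),(14,27),(17,30),(13,7)]⟩),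
  (.sq 0 7,⟨false,[],(6,19),.mon 0 0 0,[(5,29),(28,17),(31,7),(9,15),(6,25),(14,27),(13,7),(28,30),(14,12)]⟩),
  (.ca 0,⟨false,[],(28,17),.mon 0 0 0,[(31,7),(6,19),(5,29),(27,21),(28,11),(20,9),(23,29),(6,4),(20,22)]⟩),
  (.cc 0,⟨false,[],(10,23),.mon 0 0 0,[(9,3),(2,21),(5,11),(13,19),(10,29),(18,31),(17,11),(2,4),(18,16)]⟩),
  (.rho 0,⟨false,[],(22,11),.mon 0 0 0,[(9,3),(2,21),(5,11),(13,19),(10,29),(18,31),(17,11),(2,4),(18,16)]⟩),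
  (.ca 6,⟨false,[(19,14),(15,18),(15,21),(20,14),(31,4),(5,30),(5,29),(28,4)],(27,21),.mon 1 0 0,[(31,14),(28,11),(20,9),(19,4),(23,29)]⟩),
  (.cc 0,⟨false,[(21,24),(25,20),(25,19),(18,24),(9,4),(5,8),(5,11),(10,4)],(13,19),.mon 1 0 0,[(9,24),(10,29),(18,31),(21,4),(17,11)]⟩),
  (.base 1,⟨false,[(27,22),(23,26),(23,29),(28,22),(9,12),(13,8),(13,7),(6,12)],(9,22),.mon 1 0 0,[(5,29),(6,19),(28,17),(27,12),(31,7)]⟩),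
  (.mul 0 1,⟨false,[(27,22),(23,26),(23,29),(28,22),(9,12),(13,8),(13,7),(6,12),(21,24),(25,20),(25,19),(18,24),(9,4),(5,8),(5,11),(10,4)],(9,22),.mon 1 0 0,[(5,29),(6,19),(28,17),(27,12),(31,7),(13,19),(9,24),(10,29),(18,31),(21,4),(17,11)]⟩),
  (.sq 0 1,⟨false,[],(9,22),.mon 1 0 0,[(9,24),(28,11),(18,7)]⟩),
  (.comm 0 5 0,⟨false,[],(9,11),.mon 1 0 0,[]⟩),
  (.cc 0,⟨false,[],(31,29),.mon 1 0 0,[]⟩),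
  (.rho 0,⟨false,[],(28,30),.mon 0 1 0,[]⟩),
  (.ca 0,⟨false,[],(6,4),.mon 0 1 0,[]⟩),
  (.rho 0,⟨false,[],(5,7),.mon 1 0 0,[]⟩),
  (.ca 4,⟨false,[],(27,25),.mon 1 0 0,[]⟩),
  (.rho 0,⟨false,[],(24,26),.mon 0 1 0,[]⟩),
  (.cc 0,⟨false,[],(14,12),.mon 0 1 0,[]⟩),
  (.rho 0,⟨false,[],(13,15),.mon 1 0 0,[]⟩),
  (.ca 0,⟨false,[],(23,21),.mon 1 0 0,[]⟩),
  (.rho 0,⟨false,[],(20,22),.mon 0 1 0,[]⟩),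
  (.cc 0,⟨false,[],(18,16),.mon 0 1 0,[]⟩),
  (.rho 0,⟨false,[],(17,19),.mon 1 0 0,[]⟩),
  (.ca 0,⟨false,[],(19,17),.mon 1 0 0,[]⟩),
  (.rho 0,⟨false,[],(16,18),.mon 0 1 0,[]⟩),
  (.cc 0,⟨false,[],(22,20),.mon 0 1 0,[]⟩),
  (.rho 0,⟨false,[],(21,23),.mon 1 0 0,[]⟩),
  (.ca 0,⟨false,[],(15,13),.mon 1 0 0,[]⟩),
  (.rho 0,⟨false,[],(12,14),.mon 0 1 0,[]⟩),
  (.cc 0,⟨false,[],(26,24),.mon 0 1 0,[]⟩),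
  (.rho 0,⟨false,[],(25,27),.mon 1 0 0,[]⟩),
  (.ca 0,⟨false,[],(11,9),.mon 1 0 0,[]⟩),
  (.rho 0,⟨false,[],(8,10),.mon 0 1 0,[]⟩),
  (.cc 0,⟨false,[],(30,28),.mon 0 1 0,[]⟩),
  (.rho 0,⟨false,[],(29,31),.mon 1 0 0,[]⟩),
  (.ca 0,⟨false,[],(7,5),.mon 1 0 0,[]⟩),
  (.rho 0,⟨false,[],(4,6),.mon 0 1 0,[]⟩),
  (.cc 0,⟨false,[],(4,2),.mon 0 1 0,[]⟩),
  (.rho 0,⟨false,[],(3,5),.mon 1 0 0,[]⟩),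
  (.ca 0,⟨false,[],(3,31),.mon 1 0 0,[]⟩),
  (.cc 0,⟨false,[],(7,9),.mon 1 0 0,[]⟩),
  (.comm 0 26 0,⟨false,[],(5,9),.mon 2 0 0,[]⟩),
  (.cc 27,⟨false,[],(5,3),.mon 1 0 0,[]⟩),
  (.rho 0,⟨false,[],(2,4),.mon 0 1 0,[]⟩),
  (.ca 0,⟨false,[],(2,30),.mon 0 1 0,[]⟩),
  (.cc 0,⟨false,[],(6,8),.mon 0 1 0,[]⟩),
  (.comm 13 0 0,⟨false,[],(6,10),.mon 0 2 0,[]⟩),
  (.comm 10 3 0,⟨false,[],(2,6),.mon 0 2 0,[]⟩),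
  (.comm 0 1 0,⟨false,[],(2,10),.mon 0 4 0,[]⟩),
  (.rho 0,⟨false,[],(11,3),.mon 4 0 0,[]⟩),
  (.rho 4,⟨false,[],(9,7),.mon 1 0 0,[]⟩),
  (.sI 10 0,⟨true,[],(9,11),.mon 2 0 0,[]⟩),
  (.sF 0 41,⟨false,[],(9,11),.all,[]⟩),
  (.comm 0 3 0,⟨false,[],(9,3),.all,[]⟩),
  (.comm 0 12 0,⟨false,[],(5,3),.all,[]⟩),
  (.ca 9,⟨false,[],(28,26),.mon 0 1 0,[]⟩),
  (.rho 0,⟨false,[],(27,29),.mon 1 0 0,[]⟩),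
  (.cc 0,⟨false,[],(13,11),.mon 1 0 0,[]⟩),
  (.rho 0,⟨false,[],(10,12),.mon 0 1 0,[]⟩),
  (.ca 0,⟨false,[],(24,22),.mon 0 1 0,[]⟩),
  (.rho 0,⟨false,[],(23,25),.mon 1 0 0,[]⟩),
  (.comm 30 4 0,⟨false,[],(25,29),.mon 2 0 0,[]⟩),
  (.comm 0 1 0,⟨false,[],(23,29),.mon 3 0 0,[]⟩),
  (.comm 0 28 0,⟨false,[],(23,31),.mon 4 0 0,[]⟩),
  (.cc 3,⟨false,[],(17,15),.mon 1 0 0,[]⟩),
  (.rho 0,⟨false,[],(14,16),.mon 0 1 0,[]⟩),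
  (.ca 0,⟨false,[],(20,18),.mon 0 1 0,[]⟩),
  (.rho 0,⟨false,[],(19,21),.mon 1 0 0,[]⟩),
  (.comm 0 41 0,⟨false,[],(19,23),.mon 2 0 0,[]⟩),
  (.comm 0 5 0,⟨false,[],(19,31),.mon 6 0 0,[]⟩),
  (.cc 17,⟨false,[],(31,29),.all,[]⟩),
  (.comm 0 1 0,⟨false,[],(19,29),.all,[]⟩),
  (.comm 0 72 0,⟨false,[],(6,29),.all,[]⟩),
  (.comm 36 26 0,⟨false,[],(4,10),.mon 0 3 0,[]⟩),
  (.rho 0,⟨false,[],(11,5),.mon 3 0 0,[]⟩),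
  (.comm 16 46 0,⟨false,[],(10,14),.mon 0 2 0,[]⟩),
  (.comm 43 0 0,⟨false,[],(8,14),.mon 0 3 0,[]⟩),
  (.comm 11 52 0,⟨false,[],(14,18),.mon 0 2 0,[]⟩),
  (.comm 0 1 0,⟨false,[],(8,18),.mon 0 5 0,[]⟩),
  (.rho 0,⟨false,[],(19,9),.mon 5 0 0,[]⟩),
  (.comm 27 0 0,⟨false,[],(19,11),.all,[]⟩),
  (.comm 0 6 0,⟨false,[],(19,5),.all,[]⟩),
  (.comm 0 82 0,⟨false,[],(6,5),.all,[(19,29),(6,29)]⟩),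
  (.drop 0 [11,10],⟨false,[],(6,5),.all,[]⟩),
  (.cc 0,⟨false,[],(2,5),.all,[]⟩),
  (.cc 17,⟨false,[],(21,19),.mon 1 0 0,[]⟩),
  (.rho 0,⟨false,[],(18,20),.mon 0 1 0,[]⟩),
  (.ca 0,⟨false,[],(16,14),.mon 0 1 0,[]⟩),
  (.rho 0,⟨false,[],(15,17),.mon 1 0 0,[]⟩),
  (.cc 0,⟨false,[],(25,23),.mon 1 0 0,[]⟩),
  (.rho 0,⟨false,[],(22,24),.mon 0 1 0,[]⟩),
  (.ca 0,⟨false,[],(12,10),.mon 0 1 0,[]⟩),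
  (.rho 0,⟨false,[],(11,13),.mon 1 0 0,[]⟩),
  (.comm 25 70 0,⟨false,[],(17,21),.mon 2 0 0,[]⟩),
  (.comm 0 67 0,⟨false,[],(17,23),.mon 3 0 0,[]⟩),
  (.comm 6 76 0,⟨false,[],(13,17),.mon 2 0 0,[]⟩),
  (.comm 0 1 0,⟨false,[],(13,23),.mon 5 0 0,[]⟩),
  (.comm 0 4 0,⟨false,[],(11,23),.mon 6 0 0,[]⟩),
  (.comm 59 83 0,⟨false,[],(3,7),.mon 2 0 0,[]⟩),
  (.comm 58 0 0,⟨false,[],(3,9),.mon 3 0 0,[]⟩),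
  (.comm 47 0 0,⟨false,[],(3,11),.all,[]⟩),
  (.comm 0 3 0,⟨false,[],(3,23),.all,[]⟩),
  (.rho 0,⟨false,[],(22,2),.all,[]⟩),
  (.spec 0,⟨false,[],(22,2),.mon 0 0 0,[]⟩),
  (.rho 71,⟨false,[],(11,9),.mon 1 0 0,[]⟩),
  (.comm 52 63 0,⟨false,[],(5,11),.all,[]⟩),
  (.comm 0 1 0,⟨false,[],(5,9),.all,[]⟩),
  (.comm 0 99 0,⟨false,[],(5,22),.all,[]⟩),
  (.comm 0 4 0,⟨false,[],(5,2),.all,[]⟩),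
  (.rho 35,⟨false,[],(11,5),.mon 3 0 0,[]⟩),
  (.comm 57 0 0,⟨false,[],(9,5),.all,[]⟩),
  (.comm 0 11 0,⟨false,[],(3,5),.all,[]⟩),
  (.comm 1 71 0,⟨false,[],(7,5),.all,[]⟩),
  (.comm 60 72 0,⟨false,[],(7,11),.all,[]⟩),
  (.comm 0 16 0,⟨false,[],(7,23),.all,[]⟩),
  (.rho 0,⟨false,[],(22,6),.all,[]⟩),
  (.spec 0,⟨false,[],(22,6),.mon 0 0 0,[]⟩),
  (.comm 9 0 0,⟨false,[],(5,6),.all,[]⟩),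
  (.ca 47,⟨false,[],(5,7),.all,[]⟩),
  (.rho 40,⟨false,[],(19,9),.mon 5 0 0,[]⟩),
  (.rho 73,⟨false,[],(11,7),.mon 2 0 0,[]⟩),
  (.comm 68 0 0,⟨false,[],(9,7),.all,[]⟩),
  (.comm 0 2 0,⟨false,[],(19,7),.all,[]⟩),
  (.comm 0 123 1,⟨false,[],(6,7),.all,[]⟩),
  (.cc 0,⟨false,[],(2,3),.all,[]⟩),
  (.rho 23,⟨false,[],(22,2),.all,[]⟩),
  (.comm 0 118 0,⟨false,[],(9,2),.all,[]⟩),
  (.comm 74 29 0,⟨false,[],(9,23),.all,[]⟩),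
  (.rho 0,⟨false,[],(22,8),.all,[]⟩),
  (.comm 0 121 1,⟨false,[],(9,8),.all,[]⟩),
  (.rho 97,⟨false,[],(11,9),.mon 1 0 0,[]⟩),
  (.comm 30 0 0,⟨false,[],(3,9),.all,[]⟩),
  (.spec 0,⟨false,[],(3,9),.mon 0 0 0,[]⟩),
  (.comm 0 3 5,⟨false,[],(3,2),.all,[(3,8)]⟩),
  (.drop 0 [7],⟨false,[],(3,2),.all,[]⟩)],
  [(80,80),(50,50),(26,26),(23,23),(23,23),(50,50),(26,26),(80,80),(22,22),(51,51),(17,17),(16,16),(16,16),(51,51),(17,17),(22,22),(10,10),(0,0)]⟩ = true := by decide +kernel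


end Pool.Agent.MP_c78e8e_al.H75

end

section

namespace Pool.Agent.MP_c78e8e_al.H75

theorem cCo16 : Fam.chkP .C 16 1 true false true false true
  ⟨[],[(31,10),(28,2)],[(7,26),(27,6),(8,2),(3,9)],[((6,17),some (0,0,0)),((29,32),some (0,0,0)),((11,13),some (1,0,0))],0,(6,17),(6,17),(6,17),(6,17),(0,0,0),[(30,21),(9,4),(27,25)],
  [(.base 0,⟨false,[(7,26),(27,6),(8,2),(3,9),(31,10),(11,30),(28,2),(3,29)],(27,25),.mon 1 0 0,[(9,4),(30,21),(6,17),(29,32),(11,13)]⟩),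
  (.cc 0,⟨false,[(3,14),(15,2),(32,6),(7,33),(11,30),(31,10),(12,6),(7,13)],(15,17),.mon 1 0 0,[(33,4),(10,21),(2,25),(13,8),(31,29)]⟩),
  (.base 2,⟨false,[(7,26),(27,6),(8,2),(3,9),(31,10),(11,30),(28,2),(3,29)],(30,21),.mon 0 0 0,[(27,25),(9,4),(6,17),(29,32),(11,13)]⟩),
  (.mul 0 1,⟨false,[(7,26),(27,6),(8,2),(3,9),(31,10),(11,30),(28,2),(3,29),(3,14),(15,2),(32,6),(7,33),(11,30),(31,10),(12,6),(7,13)],(30,21),.mon 0 0 0,[(27,25),(9,4),(6,17),(29,32),(11,13),(15,17),(33,4),(10,21),(2,25),(13,8),(31,29)]⟩),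
  (.sq 0 3,⟨false,[],(30,21),.mon 0 0 0,[(29,32),(10,21),(13,8),(28,21),(31,32),(20,13),(11,8),(20,32),(20,8)]⟩),
  (.ca 0,⟨false,[],(6,17),.mon 0 0 0,[(9,4),(26,17),(25,28),(8,17),(7,4),(16,25),(27,28),(16,4),(16,28)]⟩),
  (.cc 0,⟨false,[],(2,25),.mon 0 0 0,[(33,4),(14,25),(17,12),(32,25),(3,4),(24,17),(15,12),(24,4),(24,12)]⟩),
  (.ca 0,⟨false,[],(2,13),.mon 0 0 0,[(5,32),(22,13),(21,24),(4,13),(3,32),(12,21),(23,24),(12,32),(12,24)]⟩),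
  (.cc 0,⟨false,[],(6,29),.mon 0 0 0,[(5,8),(18,29),(21,16),(4,29),(7,8),(28,21),(19,16),(28,8),(28,16)]⟩),
  (.ca 0,⟨false,[],(30,9),.mon 0 0 0,[(33,28),(18,9),(17,20),(32,9),(31,28),(8,17),(19,20),(8,28),(8,20)]⟩),
  (.cc 0,⟨false,[],(10,33),.mon 0 0 0,[(9,12),(22,33),(25,20),(8,33),(11,12),(32,25),(23,20),(32,12),(32,20)]⟩),
  (.ca 0,⟨false,[],(26,5),.mon 0 0 0,[(29,24),(14,5),(13,16),(28,5),(27,24),(4,13),(15,16),(4,24),(4,16)]⟩),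
  (.rho 0,⟨false,[],(4,27),.mon 0 0 0,[(29,24),(14,5),(13,16),(28,5),(27,24),(4,13),(15,16),(4,24),(4,16)]⟩),
  (.ca 11,⟨false,[(3,22),(23,2),(4,30),(31,5),(27,6),(7,26),(24,30),(31,25)],(23,21),.mon 1 0 0,[(5,32),(26,17),(2,13),(25,28),(7,9)]⟩),
  (.cc 0,⟨false,[(7,18),(19,6),(4,10),(11,5),(15,2),(3,14),(16,10),(11,17)],(19,21),.mon 1 0 0,[(5,8),(14,25),(6,29),(17,12),(3,33)]⟩),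
  (.ca 0,⟨false,[(31,18),(19,30),(32,26),(27,33),(23,2),(3,22),(20,26),(27,21)],(19,17),.mon 1 0 0,[(33,28),(22,13),(30,9),(21,24),(3,5)]⟩),
  (.cc 0,⟨false,[(11,22),(23,10),(8,14),(15,9),(19,6),(7,18),(20,14),(15,21)],(23,25),.mon 1 0 0,[(9,12),(18,29),(10,33),(21,16),(7,5)]⟩),
  (.ca 0,⟨false,[(27,14),(15,26),(28,22),(23,29),(19,30),(31,18),(16,22),(23,17)],(15,13),.mon 1 0 0,[(29,24),(18,9),(26,5),(17,20),(31,33)]⟩),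
  (.cc 0,⟨false,[(15,26),(27,14),(12,18),(19,13),(23,10),(11,22),(24,18),(19,25)],(27,29),.mon 1 0 0,[(13,16),(22,33),(14,5),(25,20),(11,9)]⟩),
  (.base 5,⟨false,[(7,26),(27,6),(8,2),(3,9),(31,10),(11,30),(28,2),(3,29)],(11,13),.mon 1 0 0,[(27,25),(9,4),(30,21),(6,17),(29,32)]⟩),
  (.cc 0,⟨false,[(3,14),(15,2),(32,6),(7,33),(11,30),(31,10),(12,6),(7,13)],(31,29),.mon 1 0 0,[(15,17),(33,4),(10,21),(2,25),(13,8)]⟩),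
  (.ca 0,⟨false,[(3,22),(23,2),(4,30),(31,5),(27,6),(7,26),(24,30),(31,25)],(7,9),.mon 1 0 0,[(23,21),(5,32),(26,17),(2,13),(25,28)]⟩),
  (.cc 0,⟨false,[(7,18),(19,6),(4,10),(11,5),(15,2),(3,14),(16,10),(11,17)],(3,33),.mon 1 0 0,[(19,21),(5,8),(14,25),(6,29),(17,12)]⟩),
  (.rho 0,⟨false,[(7,18),(19,6),(4,10),(11,5),(15,2),(3,14),(16,10),(11,17)],(32,2),.mon 0 1 0,[(19,21),(5,8),(14,25),(6,29),(17,12)]⟩),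
  (.base 4,⟨false,[(7,26),(27,6),(8,2),(3,9),(31,10),(11,30),(28,2),(3,29)],(29,32),.mon 0 0 0,[(27,25),(9,4),(30,21),(6,17),(11,13)]⟩),
  (.mul 0 23,⟨false,[(7,26),(27,6),(8,2),(3,9),(31,10),(11,30),(28,2),(3,29),(3,14),(15,2),(32,6),(7,33),(11,30),(31,10),(12,6),(7,13)],(29,32),.mon 0 0 0,[(27,25),(9,4),(30,21),(6,17),(11,13),(15,17),(33,4),(10,21),(2,25),(13,8),(31,29)]⟩),
  (.sq 0 3,⟨false,[],(29,32),.mon 0 0 0,[(30,21),(10,21),(13,8),(28,21),(31,32),(20,13),(11,8),(20,32),(20,8)]⟩),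
  (.comm 0 3 0,⟨false,[],(29,2),.mon 0 1 0,[(6,32),(31,2),(20,16),(20,2),(6,2)]⟩),
  (.comm 0 9 0,⟨false,[],(27,2),.mon 1 1 0,[(6,23),(25,16),(25,2)]⟩),
  (.comm 0 16 0,⟨false,[],(4,2),.mon 1 1 0,[]⟩),
  (.rho 0,⟨false,[],(3,5),.mon 1 1 0,[]⟩),
  (.rho 0,⟨false,[],(4,2),.mon 1 1 0,[]⟩),
  (.base 1,⟨false,[(7,26),(27,6),(8,2),(3,9),(31,10),(11,30),(28,2),(3,29)],(9,4),.mon 0 0 0,[(27,25),(30,21),(6,17),(29,32),(11,13)]⟩),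
  (.comm 0 1 0,⟨false,[],(9,2),.mon 1 1 0,[]⟩),
  (.rho 0,⟨false,[],(3,8),.mon 1 1 0,[]⟩),
  (.ca 0,⟨false,[],(3,28),.mon 1 1 0,[]⟩),
  (.cc 0,⟨false,[],(7,12),.mon 1 1 0,[]⟩),
  (.ca 0,⟨false,[],(31,24),.mon 1 1 0,[]⟩),
  (.rho 0,⟨false,[],(25,30),.mon 1 1 0,[]⟩),
  (.cc 0,⟨false,[],(17,10),.mon 1 1 0,[]⟩),
  (.rho 0,⟨false,[],(11,16),.mon 1 1 0,[]⟩),
  (.ca 0,⟨false,[],(27,20),.mon 1 1 0,[]⟩),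
  (.rho 0,⟨false,[],(21,26),.mon 1 1 0,[]⟩),
  (.cc 0,⟨false,[],(21,14),.mon 1 1 0,[]⟩),
  (.rho 0,⟨false,[],(15,20),.mon 1 1 0,[]⟩),
  (.rho 0,⟨false,[],(21,14),.mon 1 1 0,[]⟩),
  (.comm 43 0 0,⟨false,[],(30,14),.mon 1 1 0,[]⟩),
  (.rho 0,⟨false,[],(15,31),.mon 1 1 0,[]⟩),
  (.cc 0,⟨false,[],(27,11),.mon 1 1 0,[]⟩),
  (.rho 0,⟨false,[],(10,26),.mon 1 1 0,[]⟩),
  (.ca 0,⟨false,[],(26,10),.mon 1 1 0,[]⟩),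
  (.rho 0,⟨false,[],(11,27),.mon 1 1 0,[]⟩),
  (.cc 0,⟨false,[],(31,15),.mon 1 1 0,[]⟩),
  (.rho 0,⟨false,[],(14,30),.mon 1 1 0,[]⟩),
  (.ca 0,⟨false,[],(22,6),.mon 1 1 0,[]⟩),
  (.rho 0,⟨false,[],(7,23),.mon 1 1 0,[]⟩),
  (.rho 0,⟨false,[],(22,6),.mon 1 1 0,[]⟩),
  (.comm 54 14 0,⟨false,[],(30,26),.mon 1 1 0,[]⟩),
  (.rho 0,⟨false,[],(27,31),.mon 1 1 0,[]⟩),
  (.cc 0,⟨false,[],(15,11),.mon 1 1 0,[]⟩),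
  (.rho 0,⟨false,[],(10,14),.mon 1 1 0,[]⟩),
  (.ca 0,⟨false,[],(26,22),.mon 1 1 0,[]⟩),
  (.rho 0,⟨false,[],(23,27),.mon 1 1 0,[]⟩),
  (.comm 0 4 0,⟨false,[],(23,31),.mon 2 2 0,[]⟩),
  (.rho 0,⟨false,[],(30,22),.mon 2 2 0,[]⟩),
  (.comm 11 0 0,⟨false,[],(14,22),.mon 3 3 0,[]⟩),
  (.comm 0 9 0,⟨false,[],(14,6),.mon 4 4 0,[]⟩),
  (.rho 0,⟨false,[],(7,15),.mon 4 4 0,[]⟩),
  (.rho 0,⟨false,[],(14,6),.mon 4 4 0,[]⟩),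
  (.cc 38,⟨false,[],(7,5),.mon 1 1 0,[]⟩),
  (.rho 0,⟨false,[],(4,6),.mon 1 1 0,[]⟩),
  (.ca 0,⟨false,[],(32,30),.mon 1 1 0,[]⟩),
  (.rho 0,⟨false,[],(31,33),.mon 1 1 0,[]⟩),
  (.cc 0,⟨false,[],(11,9),.mon 1 1 0,[]⟩),
  (.rho 0,⟨false,[],(8,10),.mon 1 1 0,[]⟩),
  (.rho 0,⟨false,[],(11,9),.mon 1 1 0,[]⟩),
  (.comm 43 0 0,⟨false,[],(11,4),.mon 1 1 0,[]⟩),
  (.rho 0,⟨false,[],(5,10),.mon 1 1 0,[]⟩),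
  (.cc 0,⟨false,[],(5,30),.mon 1 1 0,[]⟩),
  (.comm 76 0 0,⟨false,[],(5,21),.mon 1 1 0,[]⟩),
  (.ca 0,⟨false,[],(33,17),.mon 1 1 0,[]⟩),
  (.rho 0,⟨false,[],(16,32),.mon 1 1 0,[]⟩),
  (.cc 0,⟨false,[],(24,8),.mon 1 1 0,[]⟩),
  (.rho 0,⟨false,[],(9,25),.mon 1 1 0,[]⟩),
  (.ca 0,⟨false,[],(29,13),.mon 1 1 0,[]⟩),
  (.rho 0,⟨false,[],(12,28),.mon 1 1 0,[]⟩),
  (.cc 0,⟨false,[],(28,12),.mon 1 1 0,[]⟩),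
  (.rho 0,⟨false,[],(13,29),.mon 1 1 0,[]⟩),
  (.ca 0,⟨false,[],(25,9),.mon 1 1 0,[]⟩),
  (.rho 0,⟨false,[],(8,24),.mon 1 1 0,[]⟩),
  (.rho 0,⟨false,[],(25,9),.mon 1 1 0,[]⟩),
  (.ca 32,⟨false,[],(11,7),.mon 1 1 0,[]⟩),
  (.rho 0,⟨false,[],(6,10),.mon 1 1 0,[]⟩),
  (.cc 0,⟨false,[],(2,30),.mon 1 1 0,[]⟩),
  (.comm 91 0 0,⟨false,[],(2,21),.mon 1 1 0,[]⟩),
  (.ca 0,⟨false,[],(2,17),.mon 1 1 0,[]⟩),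
  (.cc 0,⟨false,[],(6,25),.mon 1 1 0,[]⟩),
  (.comm 0 6 0,⟨false,[],(6,9),.mon 2 2 0,[]⟩),
  (.comm 0 29 0,⟨false,[],(14,9),.mon 6 6 0,[]⟩),
  (.rho 0,⟨false,[],(8,15),.mon 6 6 0,[]⟩),
  (.cc 10,⟨false,[],(32,16),.mon 1 1 0,[]⟩),
  (.rho 0,⟨false,[],(17,33),.mon 1 1 0,[]⟩),
  (.ca 0,⟨false,[],(21,5),.mon 1 1 0,[]⟩),
  (.rho 0,⟨false,[],(4,20),.mon 1 1 0,[]⟩),
  (.rho 0,⟨false,[],(21,5),.mon 1 1 0,[]⟩),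
  (.comm 10 0 0,⟨false,[],(2,5),.mon 2 2 0,[]⟩),
  (.rho 0,⟨false,[],(4,3),.mon 2 2 0,[]⟩),
  (.comm 74 0 0,⟨false,[],(9,3),.mon 2 2 0,[]⟩),
  (.rho 0,⟨false,[],(2,8),.mon 2 2 0,[]⟩),
  (.comm 0 9 0,⟨false,[],(2,15),.mon 8 8 0,[]⟩),
  (.rho 0,⟨false,[],(14,3),.mon 8 8 0,[]⟩),
  (.rho 21,⟨false,[],(25,9),.mon 1 1 0,[]⟩),
  (.rho 51,⟨false,[],(15,11),.mon 1 1 0,[]⟩),
  (.comm 31 72 0,⟨false,[],(11,32),.mon 2 2 0,[]⟩),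
  (.comm 0 1 0,⟨false,[],(15,32),.mon 3 3 0,[]⟩),
  (.rho 0,⟨false,[],(33,14),.mon 3 3 0,[]⟩),
  (.comm 62 0 0,⟨false,[],(33,30),.mon 4 4 0,[]⟩),
  (.rho 0,⟨false,[],(31,32),.mon 4 4 0,[]⟩),
  (.rho 0,⟨false,[],(33,30),.mon 4 4 0,[]⟩),
  (.comm 116 0 0,⟨false,[],(33,21),.mon 4 4 0,[]⟩),
  (.rho 0,⟨false,[],(20,32),.mon 4 4 0,[]⟩),
  (.ca 0,⟨false,[],(16,4),.mon 4 4 0,[]⟩),
  (.rho 0,⟨false,[],(5,17),.mon 4 4 0,[]⟩),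
  (.cc 0,⟨false,[],(5,25),.mon 4 4 0,[]⟩),
  (.comm 0 12 0,⟨false,[],(5,9),.mon 5 5 0,[]⟩),
  (.ca 47,⟨false,[],(33,26),.mon 1 1 0,[]⟩),
  (.rho 0,⟨false,[],(27,32),.mon 1 1 0,[]⟩),
  (.cc 0,⟨false,[],(15,8),.mon 1 1 0,[]⟩),
  (.rho 0,⟨false,[],(9,14),.mon 1 1 0,[]⟩),
  (.rho 20,⟨false,[],(9,3),.mon 2 2 0,[]⟩),
  (.ca 36,⟨false,[],(2,6),.mon 1 1 0,[]⟩),
  (.cc 0,⟨false,[],(6,2),.mon 1 1 0,[]⟩),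
  (.rho 0,⟨false,[],(3,7),.mon 1 1 0,[]⟩),
  (.ca 4,⟨false,[],(29,22),.mon 1 1 0,[]⟩),
  (.rho 0,⟨false,[],(23,28),.mon 1 1 0,[]⟩),
  (.cc 0,⟨false,[],(19,12),.mon 1 1 0,[]⟩),
  (.rho 0,⟨false,[],(13,18),.mon 1 1 0,[]⟩),
  (.ca 0,⟨false,[],(25,18),.mon 1 1 0,[]⟩),
  (.rho 0,⟨false,[],(19,24),.mon 1 1 0,[]⟩),
  (.rho 0,⟨false,[],(25,18),.mon 1 1 0,[]⟩),
  (.comm 139 0 0,⟨false,[],(27,18),.mon 2 1 0,[]⟩),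
  (.rho 0,⟨false,[],(19,26),.mon 1 2 0,[]⟩),
  (.ca 0,⟨false,[],(19,10),.mon 1 2 0,[]⟩),
  (.rho 0,⟨false,[],(11,18),.mon 2 1 0,[]⟩),
  (.cc 0,⟨false,[],(31,22),.mon 2 1 0,[]⟩),
  (.rho 0,⟨false,[],(23,30),.mon 1 2 0,[]⟩),
  (.comm 143 0 0,⟨false,[],(23,21),.mon 1 2 0,[]⟩),
  (.rho 0,⟨false,[],(20,22),.mon 2 1 0,[]⟩),
  (.ca 0,⟨false,[],(16,14),.mon 2 1 0,[]⟩),
  (.rho 0,⟨false,[],(15,17),.mon 1 2 0,[]⟩),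
  (.cc 0,⟨false,[],(27,25),.mon 1 2 0,[]⟩),
  (.rho 0,⟨false,[],(24,26),.mon 2 1 0,[]⟩),
  (.ca 0,⟨false,[],(12,10),.mon 2 1 0,[]⟩),
  (.rho 0,⟨false,[],(11,13),.mon 1 2 0,[]⟩),
  (.cc 0,⟨false,[],(31,29),.mon 1 2 0,[]⟩),
  (.rho 0,⟨false,[],(28,30),.mon 2 1 0,[]⟩),
  (.ca 0,⟨false,[],(8,6),.mon 2 1 0,[]⟩),
  (.rho 0,⟨false,[],(7,9),.mon 1 2 0,[]⟩),
  (.comm 0 25 0,⟨false,[],(3,9),.mon 2 3 0,[]⟩),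
  (.sI 0 29,⟨true,[],(9,14),.mon 4 5 0,[]⟩),
  (.rho 125,⟨false,[],(9,2),.mon 1 1 0,[]⟩),
  (.rho 71,⟨false,[],(25,9),.mon 1 1 0,[]⟩),
  (.comm 65 31 0,⟨false,[],(2,25),.mon 2 2 0,[]⟩),
  (.comm 0 1 0,⟨false,[],(2,9),.mon 3 3 0,[]⟩),
  (.sI 0 3,⟨true,[],(9,14),.mon 4 4 0,[]⟩),
  (.sN 0,⟨true,[],(9,14),.mon (-4) (-4) 0,[]⟩),
  (.sA 0 6,⟨true,[],(9,14),.mon 0 1 0,[]⟩),
  (.sF 0 38,⟨false,[],(9,14),.all,[]⟩),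
  (.comm 0 43 0,⟨false,[],(5,14),.all,[]⟩),
  (.comm 0 58 0,⟨false,[],(5,3),.all,[]⟩),
  (.rho 66,⟨false,[],(21,5),.mon 1 1 0,[]⟩),
  (.comm 168 117 0,⟨false,[],(14,21),.mon 1 1 0,[]⟩),
  (.comm 0 1 0,⟨false,[],(14,5),.mon 2 2 0,[]⟩),
  (.rho 0,⟨false,[],(4,15),.mon 2 2 0,[]⟩),
  (.rho 0,⟨false,[],(14,5),.mon 2 2 0,[]⟩),
  (.comm 7 0 0,⟨false,[],(9,5),.all,[]⟩),
  (.comm 0 12 0,⟨false,[],(2,5),.all,[]⟩),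
  (.rho 77,⟨false,[],(14,9),.mon 6 6 0,[]⟩),
  (.comm 145 0 0,⟨false,[],(14,4),.mon 6 6 0,[]⟩),
  (.rho 0,⟨false,[],(5,15),.mon 6 6 0,[]⟩),
  (.rho 0,⟨false,[],(14,4),.mon 6 6 0,[]⟩),
  (.rho 108,⟨false,[],(32,30),.mon 1 1 0,[]⟩),
  (.comm 55 0 0,⟨false,[],(27,30),.mon 2 2 0,[]⟩),
  (.comm 180 0 0,⟨false,[],(27,21),.mon 2 2 0,[]⟩),
  (.rho 0,⟨false,[],(20,26),.mon 2 2 0,[]⟩),
  (.ca 0,⟨false,[],(16,10),.mon 2 2 0,[]⟩),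
  (.rho 0,⟨false,[],(11,17),.mon 2 2 0,[]⟩),
  (.cc 0,⟨false,[],(31,25),.mon 2 2 0,[]⟩),
  (.rho 0,⟨false,[],(24,30),.mon 2 2 0,[]⟩),
  (.ca 0,⟨false,[],(12,6),.mon 2 2 0,[]⟩),
  (.rho 0,⟨false,[],(7,13),.mon 2 2 0,[]⟩),
  (.cc 0,⟨false,[],(3,29),.mon 2 2 0,[]⟩),
  (.ca 0,⟨false,[],(3,9),.mon 2 2 0,[]⟩),
  (.comm 25 0 0,⟨false,[],(3,14),.all,[]⟩),
  (.comm 0 13 0,⟨false,[],(3,4),.all,[]⟩),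
  (.rho 21,⟨false,[],(14,5),.mon 2 2 0,[]⟩),
  (.comm 2 0 0,⟨false,[],(3,5),.all,[]⟩),
  (.rho 23,⟨false,[],(14,5),.mon 2 2 0,[]⟩),
  (.ca 167,⟨false,[],(3,33),.mon 1 1 0,[]⟩),
  (.cc 0,⟨false,[],(7,9),.mon 1 1 0,[]⟩),
  (.comm 32 0 0,⟨false,[],(7,14),.all,[]⟩),
  (.comm 0 3 0,⟨false,[],(7,5),.all,[]⟩),
  (.comm 26 104 0,⟨false,[],(6,5),.all,[]⟩),
  (.rho 23,⟨false,[],(14,4),.mon 6 6 0,[]⟩),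
  (.comm 3 0 0,⟨false,[],(7,4),.all,[]⟩),
  (.rho 25,⟨false,[],(14,4),.mon 6 6 0,[]⟩),
  (.comm 38 108 0,⟨false,[],(6,14),.all,[]⟩),
  (.comm 0 1 0,⟨false,[],(6,4),.all,[]⟩),
  (.comm 40 44 0,⟨false,[],(2,14),.all,[]⟩),
  (.comm 148 134 0,⟨false,[],(8,14),.mon 2 2 0,[]⟩),
  (.rho 0,⟨false,[],(15,9),.mon 2 2 0,[]⟩),
  (.comm 43 0 1,⟨false,[],(15,14),.all,[]⟩),
  (.comm 102 0 5,⟨false,[],(2,3),.all,[(2,14)]⟩),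
  (.drop 0 [4],⟨false,[],(2,3),.all,[]⟩),
  (.rho 160,⟨false,[],(31,15),.mon 1 1 0,[]⟩),
  (.ca 82,⟨false,[],(3,31),.mon 1 1 0,[]⟩),
  (.comm 0 1 0,⟨false,[],(3,15),.mon 2 2 0,[]⟩),
  (.comm 0 5 5,⟨false,[],(3,2),.all,[(3,14)]⟩),
  (.drop 0 [24],⟨false,[],(3,2),.all,[]⟩)],
  [(49,49),(42,42),(24,24),(22,22),(22,22),(42,42),(24,24),(49,49),(17,17),(16,16),(14,14),(11,11),(11,11),(16,16),(14,14),(17,17),(5,5),(0,0)]⟩ = true := by decide +kernel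

theorem cCo17 : Fam.chkP .C 17 1 true false true false true
  ⟨[],[(17,13),(15,18)],[(23,27),(26,22),(25,20),(21,24)],[((30,23),some (1,0,0)),((27,28),some (0,0,0)),((22,4),some (0,0,0))],0,(30,23),(30,23),(30,23),(30,23),(0,0,0),[(8,17),(13,10),(16,34)],
  [(.base 0,⟨false,[(23,27),(26,22),(25,20),(21,24),(17,13),(12,16),(15,18),(19,14)],(16,34),.mon 0 0 0,[(13,10),(8,17),(30,23),(27,28),(22,4)]⟩),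
  (.cc 0,⟨false,[(21,17),(16,20),(19,22),(23,18),(27,31),(30,26),(29,24),(25,28)],(26,8),.mon 0 0 0,[(31,32),(34,27),(12,21),(17,14),(20,4)]⟩),
  (.ca 0,⟨false,[(19,23),(22,18),(21,16),(17,20),(13,9),(8,12),(11,14),(15,10)],(12,30),.mon 0 0 0,[(9,6),(4,13),(26,19),(23,24),(18,34)]⟩),
  (.cc 0,⟨false,[(25,21),(20,24),(23,26),(27,22),(31,35),(34,30),(33,28),(29,32)],(30,12),.mon 0 0 0,[(35,2),(4,31),(16,25),(21,18),(24,8)]⟩),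
  (.ca 0,⟨false,[(15,19),(18,14),(17,12),(13,16),(9,5),(4,8),(7,10),(11,6)],(8,26),.mon 0 0 0,[(5,2),(34,9),(22,15),(19,20),(14,30)]⟩),
  (.cc 0,⟨false,[(29,25),(24,28),(27,30),(31,26),(35,5),(4,34),(3,32),(33,2)],(34,16),.mon 0 0 0,[(5,6),(8,35),(20,29),(25,22),(28,12)]⟩),
  (.ca 0,⟨false,[(11,15),(14,10),(13,8),(9,12),(5,35),(34,4),(3,6),(7,2)],(4,22),.mon 0 0 0,[(35,32),(30,5),(18,11),(15,16),(10,26)]⟩),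
  (.cc 0,⟨false,[(33,29),(28,32),(31,34),(35,30),(5,9),(8,4),(7,2),(3,6)],(4,20),.mon 0 0 0,[(9,10),(12,5),(24,33),(29,26),(32,16)]⟩),
  (.ca 0,⟨false,[(7,11),(10,6),(9,4),(5,8),(35,31),(30,34),(33,2),(3,32)],(34,18),.mon 0 0 0,[(31,28),(26,35),(14,7),(11,12),(6,22)]⟩),
  (.cc 0,⟨false,[(3,33),(32,2),(35,4),(5,34),(9,13),(12,8),(11,6),(7,10)],(8,24),.mon 0 0 0,[(13,14),(16,9),(28,3),(33,30),(2,20)]⟩),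
  (.ca 0,⟨false,[(3,7),(6,2),(5,34),(35,4),(31,27),(26,30),(29,32),(33,28)],(30,14),.mon 0 0 0,[(27,24),(22,31),(10,3),(7,8),(2,18)]⟩),
  (.cc 0,⟨false,[(7,3),(2,6),(5,8),(9,4),(13,17),(16,12),(15,10),(11,14)],(12,28),.mon 0 0 0,[(17,18),(20,13),(32,7),(3,34),(6,24)]⟩),
  (.base 5,⟨false,[(23,27),(26,22),(25,20),(21,24),(17,13),(12,16),(15,18),(19,14)],(22,4),.mon 0 0 0,[(16,34),(13,10),(8,17),(30,23),(27,28)]⟩),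
  (.mul 0 1,⟨false,[(23,27),(26,22),(25,20),(21,24),(17,13),(12,16),(15,18),(19,14),(7,3),(2,6),(5,8),(9,4),(13,17),(16,12),(15,10),(11,14)],(22,4),.mon 0 0 0,[(16,34),(13,10),(8,17),(30,23),(27,28),(12,28),(17,18),(20,13),(32,7),(3,34),(6,24)]⟩),
  (.sq 0 3,⟨false,[],(22,4),.mon 0 0 0,[(16,34),(12,28),(6,24),(19,34),(29,10),(20,10),(8,18)]⟩),
  (.ca 0,⟨false,[],(16,34),.mon 0 0 0,[(22,4),(26,10),(32,14),(21,4),(11,28),(18,28),(30,20)]⟩),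
  (.cc 0,⟨false,[],(26,8),.mon 0 0 0,[(20,4),(16,32),(10,28),(23,4),(33,14),(24,14),(12,22)]⟩),
  (.ca 0,⟨false,[],(12,30),.mon 0 0 0,[(18,34),(22,6),(28,10),(17,34),(7,24),(14,24),(26,16)]⟩),
  (.cc 0,⟨false,[],(30,12),.mon 0 0 0,[(24,8),(20,2),(14,32),(27,8),(3,18),(28,18),(16,26)]⟩),
  (.ca 0,⟨false,[],(8,26),.mon 0 0 0,[(14,30),(18,2),(24,6),(13,30),(3,20),(10,20),(22,12)]⟩),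
  (.cc 0,⟨false,[],(34,16),.mon 0 0 0,[(28,12),(24,6),(18,2),(31,12),(7,22),(32,22),(20,30)]⟩),
  (.ca 0,⟨false,[],(4,22),.mon 0 0 0,[(10,26),(14,32),(20,2),(9,26),(33,16),(6,16),(18,8)]⟩),
  (.cc 0,⟨false,[],(4,20),.mon 0 0 0,[(32,16),(28,10),(22,6),(35,16),(11,26),(2,26),(24,34)]⟩),
  (.ca 0,⟨false,[],(34,18),.mon 0 0 0,[(6,22),(10,28),(16,32),(5,22),(29,12),(2,12),(14,4)]⟩),
  (.ca 12,⟨false,[(33,3),(2,32),(35,30),(31,34),(27,23),(22,26),(25,28),(29,24)],(26,10),.mon 0 0 0,[(23,20),(18,27),(6,33),(3,4),(32,14)]⟩),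
  (.cc 0,⟨false,[(11,7),(6,10),(9,12),(13,8),(17,21),(20,16),(19,14),(15,18)],(16,32),.mon 0 0 0,[(21,22),(24,17),(2,11),(7,4),(10,28)]⟩),
  (.mul 25 0,⟨false,[(23,27),(26,22),(25,20),(21,24),(17,13),(12,16),(15,18),(19,14),(11,7),(6,10),(9,12),(13,8),(17,21),(20,16),(19,14),(15,18)],(16,34),.mon 0 0 0,[(13,10),(8,17),(30,23),(27,28),(22,4),(16,32),(21,22),(24,17),(2,11),(7,4),(10,28)]⟩),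
  (.sq 0 1,⟨false,[],(16,34),.mon 0 0 0,[(16,32),(13,3),(13,28),(30,20),(21,4)]⟩),
  (.comm 0 4 0,⟨false,[],(16,18),.mon 0 0 0,[]⟩),
  (.ca 0,⟨false,[],(22,20),.mon 0 0 0,[]⟩),
  (.rho 0,⟨false,[],(21,23),.mon 0 0 0,[]⟩),
  (.cc 0,⟨false,[],(23,21),.mon 0 0 0,[]⟩),
  (.rho 0,⟨false,[],(20,22),.mon 0 0 0,[]⟩),
  (.ca 0,⟨false,[],(18,16),.mon 0 0 0,[]⟩),
  (.rho 0,⟨false,[],(17,19),.mon 0 0 0,[]⟩),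
  (.cc 0,⟨false,[],(27,25),.mon 0 0 0,[]⟩),
  (.rho 0,⟨false,[],(24,26),.mon 0 0 0,[]⟩),
  (.ca 0,⟨false,[],(14,12),.mon 0 0 0,[]⟩),
  (.rho 0,⟨false,[],(13,15),.mon 0 0 0,[]⟩),
  (.cc 0,⟨false,[],(31,29),.mon 0 0 0,[]⟩),
  (.rho 0,⟨false,[],(28,30),.mon 0 0 0,[]⟩),
  (.ca 0,⟨false,[],(10,8),.mon 0 0 0,[]⟩),
  (.rho 0,⟨false,[],(9,11),.mon 0 0 0,[]⟩),
  (.cc 0,⟨false,[],(35,33),.mon 0 0 0,[]⟩),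
  (.rho 0,⟨false,[],(32,34),.mon 0 0 0,[]⟩),
  (.ca 0,⟨false,[],(6,4),.mon 0 0 0,[]⟩),
  (.rho 0,⟨false,[],(5,7),.mon 0 0 0,[]⟩),
  (.cc 0,⟨false,[],(5,3),.mon 0 0 0,[]⟩),
  (.rho 0,⟨false,[],(2,4),.mon 0 0 0,[]⟩),
  (.ca 0,⟨false,[],(2,34),.mon 0 0 0,[]⟩),
  (.cc 0,⟨false,[],(6,8),.mon 0 0 0,[]⟩),
  (.ca 0,⟨false,[],(32,30),.mon 0 0 0,[]⟩),
  (.rho 0,⟨false,[],(31,33),.mon 0 0 0,[]⟩),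
  (.cc 0,⟨false,[],(13,11),.mon 0 0 0,[]⟩),
  (.rho 0,⟨false,[],(10,12),.mon 0 0 0,[]⟩),
  (.ca 0,⟨false,[],(28,26),.mon 0 0 0,[]⟩),
  (.rho 0,⟨false,[],(27,29),.mon 0 0 0,[]⟩),
  (.cc 0,⟨false,[],(17,15),.mon 0 0 0,[]⟩),
  (.rho 0,⟨false,[],(14,16),.mon 0 0 0,[]⟩),
  (.cc 30,⟨false,[],(26,24),.mon 0 0 0,[]⟩),
  (.rho 0,⟨false,[],(25,27),.mon 0 0 0,[]⟩),
  (.ca 0,⟨false,[],(15,13),.mon 0 0 0,[]⟩),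
  (.rho 0,⟨false,[],(12,14),.mon 0 0 0,[]⟩),
  (.cc 0,⟨false,[],(30,28),.mon 0 0 0,[]⟩),
  (.rho 0,⟨false,[],(29,31),.mon 0 0 0,[]⟩),
  (.ca 0,⟨false,[],(11,9),.mon 0 0 0,[]⟩),
  (.rho 0,⟨false,[],(8,10),.mon 0 0 0,[]⟩),
  (.cc 0,⟨false,[],(34,32),.mon 0 0 0,[]⟩),
  (.rho 0,⟨false,[],(33,35),.mon 0 0 0,[]⟩),
  (.ca 0,⟨false,[],(7,5),.mon 0 0 0,[]⟩),
  (.rho 0,⟨false,[],(4,6),.mon 0 0 0,[]⟩),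
  (.comm 22 0 0,⟨false,[],(2,6),.mon 0 0 0,[]⟩),
  (.comm 21 5 0,⟨false,[],(6,10),.mon 0 0 0,[]⟩),
  (.comm 0 1 0,⟨false,[],(2,10),.mon 0 0 0,[]⟩),
  (.comm 19 11 0,⟨false,[],(10,14),.mon 0 0 0,[]⟩),
  (.comm 0 1 0,⟨false,[],(2,14),.mon 0 0 0,[]⟩),
  (.comm 0 17 0,⟨false,[],(2,16),.mon 0 0 0,[]⟩),
  (.cc 6,⟨false,[],(4,2),.mon 0 0 0,[]⟩),
  (.rho 0,⟨false,[],(3,5),.mon 0 0 0,[]⟩),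
  (.ca 0,⟨false,[],(3,35),.mon 0 0 0,[]⟩),
  (.cc 0,⟨false,[],(7,9),.mon 0 0 0,[]⟩),
  (.comm 0 38 0,⟨false,[],(7,11),.mon 0 0 0,[]⟩),
  (.comm 0 35 0,⟨false,[],(5,11),.mon 0 0 0,[]⟩),
  (.ca 2,⟨false,[],(33,31),.mon 0 0 0,[]⟩),
  (.rho 0,⟨false,[],(30,32),.mon 0 0 0,[]⟩),
  (.cc 0,⟨false,[],(12,10),.mon 0 0 0,[]⟩),
  (.rho 0,⟨false,[],(11,13),.mon 0 0 0,[]⟩),
  (.comm 0 48 0,⟨false,[],(11,15),.mon 0 0 0,[]⟩),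
  (.comm 0 5 0,⟨false,[],(5,15),.mon 0 0 0,[]⟩),
  (.ca 2,⟨false,[],(29,27),.mon 0 0 0,[]⟩),
  (.rho 0,⟨false,[],(26,28),.mon 0 0 0,[]⟩),
  (.cc 0,⟨false,[],(16,14),.mon 0 0 0,[]⟩),
  (.rho 0,⟨false,[],(15,17),.mon 0 0 0,[]⟩),
  (.comm 0 58 0,⟨false,[],(15,19),.mon 0 0 0,[]⟩),
  (.comm 0 5 0,⟨false,[],(5,19),.mon 0 0 0,[]⟩),
  (.rho 0,⟨false,[],(18,4),.mon 0 0 0,[]⟩),
  (.comm 49 17 0,⟨false,[],(3,7),.mon 0 0 0,[]⟩),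
  (.comm 15 0 0,⟨false,[],(3,11),.mon 0 0 0,[]⟩),
  (.comm 10 0 0,⟨false,[],(3,15),.mon 0 0 0,[]⟩),
  (.comm 0 6 0,⟨false,[],(3,17),.mon 0 0 0,[]⟩),
  (.rho 0,⟨false,[],(16,2),.mon 0 0 0,[]⟩),
  (.comm 42 38 0,⟨false,[],(12,16),.mon 0 0 0,[]⟩),
  (.rho 0,⟨false,[],(17,13),.mon 0 0 0,[]⟩),
  (.rho 46,⟨false,[],(28,26),.mon 0 0 0,[]⟩),
  (.rho 6,⟨false,[],(10,2),.mon 0 0 0,[]⟩),
  (.rho 36,⟨false,[],(34,32),.mon 0 0 0,[]⟩),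
  (.comm 56 0 0,⟨false,[],(2,32),.mon 0 0 0,[]⟩),
  (.comm 0 2 0,⟨false,[],(10,32),.mon 0 0 0,[]⟩),
  (.rho 0,⟨false,[],(33,11),.mon 0 0 0,[]⟩),
  (.comm 56 44 0,⟨false,[],(29,33),.mon 0 0 0,[]⟩),
  (.comm 0 1 0,⟨false,[],(29,11),.mon 0 0 0,[]⟩),
  (.rho 0,⟨false,[],(10,28),.mon 0 0 0,[]⟩),
  (.comm 0 8 0,⟨false,[],(10,26),.mon 0 0 0,[]⟩),
  (.base 1,⟨false,[(23,27),(26,22),(25,20),(21,24),(17,13),(12,16),(15,18),(19,14)],(13,10),.mon 0 0 0,[(16,34),(8,17),(30,23),(27,28),(22,4)]⟩),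
  (.comm 0 1 0,⟨false,[],(13,26),.mon 0 0 0,[]⟩),
  (.comm 0 12 0,⟨false,[],(17,26),.mon 0 0 0,[]⟩),
  (.rho 0,⟨false,[],(27,16),.mon 0 0 0,[]⟩),
  (.base 2,⟨false,[(23,27),(26,22),(25,20),(21,24),(17,13),(12,16),(15,18),(19,14)],(8,17),.mon 1 0 0,[(16,34),(13,10),(30,23),(27,28),(22,4)]⟩),
  (.comm 0 67 0,⟨false,[],(6,17),.mon 1 0 0,[]⟩),
  (.cc 0,⟨false,[],(2,27),.mon 1 0 0,[]⟩),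
  (.comm 0 3 0,⟨false,[],(2,16),.mon 1 0 0,[]⟩),
  (.sI 0 20,⟨true,[],(16,18),.mon 1 0 0,[]⟩),
  (.sF 0 93,⟨false,[],(16,18),.all,[]⟩),
  (.comm 0 27 0,⟨false,[],(16,4),.all,[]⟩),
  (.comm 0 47 0,⟨false,[],(2,4),.all,[]⟩),
  (.comm 74 53 0,⟨false,[],(2,8),.mon 0 0 0,[]⟩),
  (.comm 8 0 0,⟨false,[],(2,17),.mon 1 0 0,[]⟩),
  (.comm 0 92 0,⟨false,[],(2,19),.mon 1 0 0,[]⟩),
  (.rho 0,⟨false,[],(18,3),.mon 0 1 0,[]⟩),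
  (.comm 56 58 0,⟨false,[],(4,10),.mon 0 0 0,[]⟩),
  (.comm 55 0 0,⟨false,[],(4,14),.mon 0 0 0,[]⟩),
  (.comm 0 72 0,⟨false,[],(4,16),.mon 0 0 0,[]⟩),
  (.comm 9 0 0,⟨false,[],(4,18),.all,[]⟩),
  (.comm 0 4 0,⟨false,[],(4,3),.all,[]⟩),
  (.rho 36,⟨false,[],(10,2),.mon 0 0 0,[]⟩),
  (.comm 21 0 0,⟨false,[],(13,2),.mon 0 0 0,[]⟩),
  (.rho 0,⟨false,[],(3,12),.mon 0 0 0,[]⟩),
  (.comm 0 35 0,⟨false,[],(3,16),.mon 0 0 0,[]⟩),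
  (.comm 14 0 0,⟨false,[],(3,4),.all,[]⟩),
  (.comm 45 40 0,⟨false,[],(3,19),.mon 0 0 0,[]⟩),
  (.rho 0,⟨false,[],(18,2),.mon 0 0 0,[]⟩),
  (.comm 18 0 0,⟨false,[],(16,2),.all,[]⟩),
  (.comm 0 10 0,⟨false,[],(4,2),.all,[]⟩),
  (.comm 55 61 0,⟨false,[],(7,15),.mon 0 0 0,[]⟩),
  (.comm 50 0 0,⟨false,[],(7,19),.mon 0 0 0,[]⟩),
  (.rho 0,⟨false,[],(18,6),.mon 0 0 0,[]⟩),
  (.comm 23 0 0,⟨false,[],(16,6),.all,[]⟩),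
  (.comm 0 15 0,⟨false,[],(4,6),.all,[]⟩),
  (.comm 60 105 0,⟨false,[],(9,15),.mon 0 0 0,[]⟩),
  (.comm 55 0 0,⟨false,[],(9,19),.mon 0 0 0,[]⟩),
  (.rho 0,⟨false,[],(18,8),.mon 0 0 0,[]⟩),
  (.comm 33 0 0,⟨false,[],(18,17),.mon 1 0 0,[]⟩),
  (.rho 0,⟨false,[],(16,19),.mon 0 1 0,[]⟩),
  (.comm 0 21 0,⟨false,[],(4,19),.mon 0 1 0,[]⟩),
  (.rho 0,⟨false,[],(18,5),.mon 1 0 0,[]⟩),
  (.comm 80 82 0,⟨false,[],(6,14),.mon 0 0 0,[]⟩),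
  (.comm 0 97 0,⟨false,[],(6,16),.mon 0 0 0,[]⟩),
  (.comm 34 0 0,⟨false,[],(6,18),.all,[]⟩),
  (.comm 0 3 0,⟨false,[],(6,5),.all,[]⟩),
  (.rho 76,⟨false,[],(10,4),.mon 0 0 0,[]⟩),
  (.comm 46 0 0,⟨false,[],(13,4),.mon 0 0 0,[]⟩),
  (.rho 0,⟨false,[],(5,12),.mon 0 0 0,[]⟩),
  (.comm 0 60 0,⟨false,[],(5,16),.mon 0 0 0,[]⟩),
  (.comm 16 0 0,⟨false,[],(5,6),.all,[]⟩),
  (.comm 40 7 0,⟨false,[],(6,4),.all,[]⟩),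
  (.rho 37,⟨false,[],(18,3),.mon 0 1 0,[]⟩),
  (.comm 43 89 0,⟨false,[],(2,18),.all,[]⟩),
  (.comm 0 1 1,⟨false,[],(2,3),.all,[]⟩),
  (.comm 26 30 1,⟨false,[],(3,2),.all,[]⟩)],
  [(44,44),(35,35),(30,30),(26,26),(26,26),(35,35),(30,30),(44,44),(21,21),(10,10),(5,5),(4,4),(4,4),(10,10),(5,5),(21,21),(1,1),(0,0)]⟩ = true := by decide +kernel

theorem cCo18 : Fam.chkP .C 18 1 true false true false true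
  ⟨[],[(28,37),(16,26)],[(12,5),(4,13),(24,14),(15,25)],[((14,31),some (0,0,0)),((5,2),some (0,0,0)),((28,6),some (1,0,0))],0,(14,31),(14,31),(14,31),(14,31),(0,0,0),[(26,11),(37,2),(12,34)],
  [(.base 3,⟨false,[(12,5),(4,13),(24,14),(15,25),(28,37),(36,29),(16,26),(27,17)],(14,31),.mon 0 0 0,[(12,34),(37,2),(26,11),(5,2),(28,6)]⟩),
  (.base 0,⟨false,[(12,5),(4,13),(24,14),(15,25),(28,37),(36,29),(16,26),(27,17)],(12,34),.mon 1 0 0,[(37,2),(26,11),(14,31),(5,2),(28,6)]⟩),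
  (.cc 0,⟨false,[(32,5),(4,33),(20,30),(31,21),(16,9),(8,17),(28,18),(19,29)],(32,10),.mon 1 0 0,[(9,6),(18,35),(30,15),(5,6),(16,2)]⟩),
  (.ca 0,⟨false,[(8,37),(36,9),(20,10),(11,21),(24,33),(32,25),(12,22),(23,13)],(8,30),.mon 1 0 0,[(33,34),(22,7),(10,27),(37,34),(24,2)]⟩),
  (.cc 0,⟨false,[(36,9),(8,37),(24,34),(35,25),(20,13),(12,21),(32,22),(23,33)],(36,14),.mon 1 0 0,[(13,10),(22,3),(34,19),(9,10),(20,6)]⟩),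
  (.ca 0,⟨false,[(4,33),(32,5),(16,6),(7,17),(20,29),(28,21),(8,18),(19,9)],(4,26),.mon 1 0 0,[(29,30),(18,3),(6,23),(33,30),(20,34)]⟩),
  (.cc 0,⟨false,[(4,13),(12,5),(28,2),(3,29),(24,17),(16,25),(36,26),(27,37)],(4,18),.mon 1 0 0,[(17,14),(26,7),(2,23),(13,14),(24,10)]⟩),
  (.ca 0,⟨false,[(36,29),(28,37),(12,2),(3,13),(16,25),(24,17),(4,14),(15,5)],(36,22),.mon 1 0 0,[(25,26),(14,35),(2,19),(29,26),(16,30)]⟩),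
  (.cc 0,⟨false,[(8,17),(16,9),(32,6),(7,33),(28,21),(20,29),(4,30),(31,5)],(8,22),.mon 1 0 0,[(21,18),(30,11),(6,27),(17,18),(28,14)]⟩),
  (.mul 8 0,⟨false,[(12,5),(4,13),(24,14),(15,25),(28,37),(36,29),(16,26),(27,17),(8,17),(16,9),(32,6),(7,33),(28,21),(20,29),(4,30),(31,5)],(14,31),.mon 0 0 0,[(12,34),(37,2),(26,11),(5,2),(28,6),(8,22),(21,18),(30,11),(6,27),(17,18),(28,14)]⟩),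
  (.sq 0 3,⟨false,[],(14,31),.mon 0 0 0,[(5,2),(6,27),(17,18),(28,31),(28,27)]⟩),
  (.rho 7,⟨false,[(8,37),(36,9),(20,10),(11,21),(24,33),(32,25),(12,22),(23,13)],(31,9),.mon 0 1 0,[(33,34),(22,7),(10,27),(37,34),(24,2)]⟩),
  (.comm 1 0 0,⟨false,[],(14,9),.mon 0 1 0,[(28,9)]⟩),
  (.base 4,⟨false,[(12,5),(4,13),(24,14),(15,25),(28,37),(36,29),(16,26),(27,17)],(5,2),.mon 0 0 0,[(12,34),(37,2),(26,11),(14,31),(28,6)]⟩),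
  (.mul 0 5,⟨false,[(12,5),(4,13),(24,14),(15,25),(28,37),(36,29),(16,26),(27,17),(8,17),(16,9),(32,6),(7,33),(28,21),(20,29),(4,30),(31,5)],(5,2),.mon 0 0 0,[(12,34),(37,2),(26,11),(14,31),(28,6),(8,22),(21,18),(30,11),(6,27),(17,18),(28,14)]⟩),
  (.sq 0 3,⟨false,[],(5,2),.mon 0 0 0,[(14,31),(6,27),(17,18),(28,31),(28,27)]⟩),
  (.cc 0,⟨false,[],(5,6),.mon 0 0 0,[(30,15),(2,19),(29,26),(16,15),(16,19)]⟩),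
  (.ca 0,⟨false,[],(37,34),.mon 0 0 0,[(10,27),(2,23),(13,14),(24,27),(24,23)]⟩),
  (.cc 0,⟨false,[],(9,10),.mon 0 0 0,[(34,19),(6,23),(33,30),(20,19),(20,23)]⟩),
  (.ca 0,⟨false,[],(33,30),.mon 0 0 0,[(6,23),(34,19),(9,10),(20,23),(20,19)]⟩),
  (.cc 0,⟨false,[],(13,14),.mon 0 0 0,[(2,23),(10,27),(37,34),(24,23),(24,27)]⟩),
  (.comm 8 0 0,⟨false,[],(13,9),.mon 0 1 0,[]⟩),
  (.rho 0,⟨false,[],(8,12),.mon 1 0 0,[]⟩),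
  (.cc 0,⟨false,[],(36,32),.mon 1 0 0,[]⟩),
  (.rho 0,⟨false,[],(33,37),.mon 0 1 0,[]⟩),
  (.ca 0,⟨false,[],(9,5),.mon 0 1 0,[]⟩),
  (.rho 0,⟨false,[],(4,8),.mon 1 0 0,[]⟩),
  (.cc 0,⟨false,[],(4,36),.mon 1 0 0,[]⟩),
  (.ca 0,⟨false,[],(36,4),.mon 1 0 0,[]⟩),
  (.rho 0,⟨false,[],(5,37),.mon 0 1 0,[]⟩),
  (.cc 0,⟨false,[],(5,9),.mon 0 1 0,[]⟩),
  (.rho 0,⟨false,[],(8,4),.mon 1 0 0,[]⟩),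
  (.sI 5 0,⟨true,[],(8,12),.mon 2 0 0,[]⟩),
  (.sF 0 10,⟨false,[],(8,12),.all,[]⟩),
  (.ca 11,⟨false,[],(32,28),.mon 1 0 0,[]⟩),
  (.rho 0,⟨false,[],(29,33),.mon 0 1 0,[]⟩),
  (.cc 0,⟨false,[],(17,13),.mon 0 1 0,[]⟩),
  (.rho 0,⟨false,[],(12,16),.mon 1 0 0,[]⟩),
  (.comm 4 0 0,⟨false,[],(8,16),.all,[]⟩),
  (.rho 12,⟨false,[],(9,5),.mon 0 1 0,[]⟩),
  (.comm 10 0 0,⟨false,[],(9,37),.mon 0 2 0,[]⟩),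
  (.rho 0,⟨false,[],(36,8),.mon 2 0 0,[]⟩),
  (.comm 3 0 0,⟨false,[],(36,16),.all,[]⟩),
  (.rho 0,⟨false,[],(17,37),.all,[]⟩),
  (.base 1,⟨false,[(12,5),(4,13),(24,14),(15,25),(28,37),(36,29),(16,26),(27,17)],(37,2),.mon 0 0 0,[(12,34),(26,11),(14,31),(5,2),(28,6)]⟩),
  (.comm 1 0 0,⟨false,[],(17,2),.all,[]⟩),
  (.cc 0,⟨false,[],(29,6),.all,[]⟩),
  (.ca 0,⟨false,[],(13,34),.all,[]⟩),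
  (.cc 0,⟨false,[],(33,10),.all,[]⟩),
  (.ca 0,⟨false,[],(9,30),.all,[]⟩),
  (.cc 0,⟨false,[],(37,14),.all,[]⟩),
  (.ca 0,⟨false,[],(5,26),.all,[]⟩),
  (.base 2,⟨false,[(12,5),(4,13),(24,14),(15,25),(28,37),(36,29),(16,26),(27,17)],(26,11),.mon 0 0 0,[(12,34),(37,2),(14,31),(5,2),(28,6)]⟩),
  (.comm 1 0 0,⟨false,[],(5,11),.all,[]⟩),
  (.cc 0,⟨false,[],(5,35),.all,[]⟩),
  (.rho 14,⟨false,[],(36,8),.mon 2 0 0,[]⟩),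
  (.comm 22 0 0,⟨false,[],(36,12),.all,[]⟩),
  (.ca 26,⟨false,[],(37,33),.mon 0 1 0,[]⟩),
  (.rho 0,⟨false,[],(32,36),.mon 1 0 0,[]⟩),
  (.cc 0,⟨false,[],(12,8),.mon 1 0 0,[]⟩),
  (.rho 0,⟨false,[],(9,13),.mon 0 1 0,[]⟩),
  (.comm 0 30 0,⟨false,[],(5,13),.mon 0 2 0,[]⟩),
  (.rho 0,⟨false,[],(12,4),.mon 2 0 0,[]⟩),
  (.comm 6 0 0,⟨false,[],(36,4),.all,[]⟩),
  (.rho 0,⟨false,[],(5,37),.all,[]⟩),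
  (.comm 0 20 0,⟨false,[],(5,2),.all,[]⟩),
  (.comm 32 64 0,⟨false,[],(8,34),.all,[]⟩),
  (.cc 0,⟨false,[],(36,10),.all,[]⟩),
  (.ca 0,⟨false,[],(4,30),.all,[]⟩),
  (.cc 0,⟨false,[],(4,14),.all,[]⟩),
  (.ca 0,⟨false,[],(36,26),.all,[]⟩),
  (.comm 37 44 0,⟨false,[],(4,12),.all,[]⟩),
  (.rho 44,⟨false,[],(37,5),.mon 0 1 0,[]⟩),
  (.comm 42 0 0,⟨false,[],(37,9),.mon 0 2 0,[]⟩),
  (.rho 0,⟨false,[],(8,36),.mon 2 0 0,[]⟩),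
  (.rho 0,⟨false,[],(37,9),.mon 0 2 0,[]⟩),
  (.comm 15 0 0,⟨false,[],(37,13),.mon 0 3 0,[]⟩),
  (.rho 0,⟨false,[],(12,36),.mon 3 0 0,[]⟩),
  (.comm 6 0 0,⟨false,[],(4,36),.all,[]⟩),
  (.spec 0,⟨false,[],(4,36),.mon 0 0 0,[]⟩),
  (.comm 9 0 0,⟨false,[],(4,26),.all,[]⟩),
  (.rho 0,⟨false,[],(27,5),.all,[]⟩),
  (.spec 0,⟨false,[],(27,5),.mon 0 0 0,[]⟩),
  (.comm 17 0 0,⟨false,[],(27,2),.all,[]⟩),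
  (.rho 0,⟨false,[],(3,26),.all,[]⟩),
  (.comm 0 32 0,⟨false,[],(3,11),.all,[]⟩),
  (.cc 0,⟨false,[],(7,35),.all,[]⟩),
  (.ca 0,⟨false,[],(35,7),.all,[]⟩),
  (.cN 33 1 0,⟨false,[],(5,7),.all,[]⟩),
  (.cc 0,⟨false,[],(5,3),.all,[]⟩),
  (.comm 9 37 0,⟨false,[],(4,11),.all,[(3,26),(3,11)]⟩),
  (.drop 0 [7,5],⟨false,[],(4,11),.all,[]⟩),
  (.cc 0,⟨false,[],(4,35),.all,[]⟩),
  (.cN 0 6 5,⟨false,[],(4,7),.all,[]⟩),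
  (.cc 0,⟨false,[],(4,3),.all,[]⟩),
  (.ca 28,⟨false,[],(32,6),.all,[]⟩),
  (.cc 0,⟨false,[],(12,2),.all,[]⟩),
  (.spec 25,⟨false,[],(4,12),.mon 0 0 0,[]⟩),
  (.comm 1 0 0,⟨false,[],(4,2),.all,[]⟩),
  (.cc 65,⟨false,[],(36,32),.all,[]⟩),
  (.comm 0 72 0,⟨false,[],(4,32),.all,[]⟩),
  (.spec 0,⟨false,[],(4,32),.mon 0 0 0,[]⟩),
  (.comm 6 0 0,⟨false,[],(4,6),.all,[]⟩),
  (.cc 37,⟨false,[],(5,6),.all,[]⟩),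
  (.rho 12,⟨false,[],(10,5),.all,[]⟩),
  (.spec 0,⟨false,[],(10,5),.mon 0 0 0,[]⟩),
  (.comm 52 0 1,⟨false,[],(10,11),.all,[]⟩),
  (.cc 19,⟨false,[],(11,3),.all,[]⟩),
  (.cN 1 0 22,⟨false,[],(2,3),.all,[]⟩),
  (.rho 68,⟨false,[],(36,8),.mon 2 0 0,[]⟩),
  (.comm 51 0 0,⟨false,[],(32,8),.mon 3 0 0,[]⟩),
  (.rho 0,⟨false,[],(9,33),.mon 0 3 0,[]⟩),
  (.rho 0,⟨false,[],(32,8),.mon 3 0 0,[]⟩),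
  (.comm 79 0 0,⟨false,[],(32,12),.all,[]⟩),
  (.comm 0 112 0,⟨false,[],(32,34),.all,[]⟩),
  (.ca 0,⟨false,[],(8,6),.all,[]⟩),
  (.cc 0,⟨false,[],(36,2),.all,[]⟩),
  (.rho 0,⟨false,[],(3,37),.all,[]⟩),
  (.comm 0 73 1,⟨false,[],(3,2),.all,[]⟩)],
  [(29,29),(24,24),(53,53),(20,20),(20,20),(24,24),(53,53),(29,29),(16,16),(25,25),(15,15),(30,30),(30,30),(25,25),(15,15),(16,16),(10,10),(0,0)]⟩ = true := by decide +kernel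

theorem cCow : Fam.chkP .C 19 10 false false true false true
  ⟨[(26,27)],[(17,30)],[(14,15),(25,10),(11,24)],[((10,7),some (1,0,0)),((9,26),some (0,0,0)),((15,21),some (0,0,0))],0,(10,7),(10,7),(10,7),(10,7),(0,0,0),[(30,35),(33,14),(27,21)],
  [(.base 0,⟨false,[(14,15),(25,10),(11,24),(26,27),(17,30),(31,16)],(27,21),.mon 0 0 0,[(33,14),(30,35),(10,7),(9,26),(15,21)]⟩),
  (.cc 0,⟨false,[(30,31),(21,34),(35,20),(18,19),(29,14),(15,28)],(19,25),.mon 0 0 0,[(13,30),(14,11),(34,39),(37,18),(31,25)]⟩),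
  (.ca 0,⟨false,[(10,11),(21,6),(7,20),(22,23),(13,26),(27,12)],(23,17),.mon 0 0 0,[(29,10),(26,31),(6,3),(5,22),(11,17)]⟩),
  (.base 1,⟨false,[(14,15),(25,10),(11,24),(26,27),(17,30),(31,16)],(33,14),.mon 0 0 0,[(27,21),(30,35),(10,7),(9,26),(15,21)]⟩),
  (.cc 0,⟨false,[(30,31),(21,34),(35,20),(18,19),(29,14),(15,28)],(13,30),.mon 0 0 0,[(19,25),(14,11),(34,39),(37,18),(31,25)]⟩),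
  (.mul 0 2,⟨false,[(30,31),(21,34),(35,20),(18,19),(29,14),(15,28),(10,11),(21,6),(7,20),(22,23),(13,26),(27,12)],(13,30),.mon 0 0 0,[(19,25),(14,11),(34,39),(37,18),(31,25),(23,17),(29,10),(26,31),(6,3),(5,22),(11,17)]⟩),
  (.sq 0 3,⟨false,[],(13,30),.mon 0 0 0,[(14,11),(29,10),(26,31),(13,27),(14,28),(14,17),(26,25)]⟩),
  (.cc 0,⟨false,[],(33,14),.mon 0 0 0,[(30,35),(17,34),(18,15),(33,19),(30,16),(30,29),(18,21)]⟩),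
  (.ca 0,⟨false,[],(9,26),.mon 0 0 0,[(10,7),(25,6),(22,27),(9,23),(10,24),(10,13),(22,21)]⟩),
  (.cc 0,⟨false,[],(37,18),.mon 0 0 0,[(34,39),(21,38),(22,19),(37,23),(34,20),(34,33),(22,25)]⟩),
  (.ca 0,⟨false,[],(5,22),.mon 0 0 0,[(6,3),(21,2),(18,23),(5,19),(6,20),(6,9),(18,17)]⟩),
  (.base 2,⟨false,[(14,15),(25,10),(11,24),(26,27),(17,30),(31,16)],(30,35),.mon 1 0 0,[(27,21),(33,14),(10,7),(9,26),(15,21)]⟩),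
  (.cc 0,⟨false,[(30,31),(21,34),(35,20),(18,19),(29,14),(15,28)],(14,11),.mon 1 0 0,[(19,25),(13,30),(34,39),(37,18),(31,25)]⟩),
  (.mul 0 10,⟨false,[(30,31),(21,34),(35,20),(18,19),(29,14),(15,28),(10,11),(21,6),(7,20),(22,23),(13,26),(27,12)],(14,11),.mon 1 0 0,[(19,25),(13,30),(34,39),(37,18),(31,25),(23,17),(29,10),(26,31),(6,3),(5,22),(11,17)]⟩),
  (.sq 0 3,⟨false,[],(14,11),.mon 1 0 0,[(13,30),(29,10),(26,31),(13,27),(14,28),(14,17),(26,25)]⟩),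
  (.ca 0,⟨false,[],(26,31),.mon 1 0 0,[(29,10),(13,30),(14,11),(29,15),(26,12),(26,25),(14,17)]⟩),
  (.cc 0,⟨false,[],(18,15),.mon 1 0 0,[(17,34),(33,14),(30,35),(17,31),(18,32),(18,21),(30,29)]⟩),
  (.ca 0,⟨false,[],(22,27),.mon 1 0 0,[(25,6),(9,26),(10,7),(25,11),(22,8),(22,21),(10,13)]⟩),
  (.cc 0,⟨false,[],(22,19),.mon 1 0 0,[(21,38),(37,18),(34,39),(21,35),(22,36),(22,25),(34,33)]⟩),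
  (.mul 17 18,⟨false,[(30,31),(21,34),(35,20),(18,19),(29,14),(15,28),(14,15),(25,10),(11,24),(26,27),(17,30),(31,16)],(19,25),.mon 0 0 0,[(13,30),(14,11),(34,39),(37,18),(31,25),(27,21),(33,14),(30,35),(10,7),(9,26),(15,21)]⟩),
  (.sq 0 3,⟨false,[],(19,25),.mon 0 0 0,[(13,30),(27,21),(33,14),(13,35),(33,11),(20,11),(34,25)]⟩),
  (.comm 0 2 0,⟨false,[],(22,25),.mon 1 0 0,[(27,38),(27,35),(34,14),(34,11),(39,11)]⟩),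
  (.comm 0 11 0,⟨false,[],(5,25),.mon 1 0 0,[]⟩),
  (.ca 0,⟨false,[],(37,17),.mon 1 0 0,[]⟩),
  (.rho 0,⟨false,[],(16,36),.mon 0 1 0,[]⟩),
  (.cc 0,⟨false,[],(28,8),.mon 0 1 0,[]⟩),
  (.rho 0,⟨false,[],(9,29),.mon 1 0 0,[]⟩),
  (.ca 0,⟨false,[],(33,13),.mon 1 0 0,[]⟩),
  (.rho 0,⟨false,[],(12,32),.mon 0 1 0,[]⟩),
  (.cc 0,⟨false,[],(32,12),.mon 0 1 0,[]⟩),
  (.rho 0,⟨false,[],(13,33),.mon 1 0 0,[]⟩),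
  (.comm 27 0 0,⟨false,[],(13,14),.mon 1 0 0,[]⟩),
  (.rho 3,⟨false,[],(33,13),.mon 1 0 0,[]⟩),
  (.sI 0 2,⟨true,[],(13,14),.mon 2 0 0,[]⟩),
  (.sF 0 2,⟨false,[],(13,14),.all,[]⟩),
  (.ca 0,⟨false,[],(29,26),.all,[]⟩),
  (.cc 0,⟨false,[],(17,18),.all,[]⟩),
  (.ca 0,⟨false,[],(25,22),.all,[]⟩),
  (.cc 0,⟨false,[],(21,22),.all,[]⟩),
  (.spec 0,⟨false,[],(21,22),.mon 0 0 0,[]⟩),
  (.ca 1,⟨false,[],(21,18),.all,[]⟩),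
  (.cc 0,⟨false,[],(25,26),.all,[]⟩),
  (.ca 0,⟨false,[],(17,14),.all,[]⟩),
  (.cc 0,⟨false,[],(29,30),.all,[]⟩),
  (.ca 0,⟨false,[],(13,10),.all,[]⟩),
  (.cc 0,⟨false,[],(33,34),.all,[]⟩),
  (.ca 0,⟨false,[],(9,6),.all,[]⟩),
  (.rho 0,⟨false,[],(7,8),.all,[]⟩),
  (.spec 0,⟨false,[],(7,8),.mon 0 0 0,[]⟩),
  (.cc 14,⟨false,[],(33,30),.all,[]⟩),
  (.comm 0 38 0,⟨false,[],(33,35),.all,[]⟩),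
  (.ca 0,⟨false,[],(9,7),.all,[]⟩),
  (.comm 0 3 1,⟨false,[],(9,8),.all,[]⟩),
  (.comm 7 22 0,⟨false,[],(13,34),.all,[]⟩),
  (.rho 0,⟨false,[],(35,12),.all,[]⟩),
  (.comm 0 43 0,⟨false,[],(30,12),.all,[]⟩),
  (.cc 0,⟨false,[],(14,32),.all,[]⟩),
  (.ca 0,⟨false,[],(26,8),.all,[]⟩),
  (.rho 0,⟨false,[],(9,27),.all,[]⟩),
  (.comm 0 58 0,⟨false,[],(9,21),.all,[(9,8)]⟩),
  (.drop 0 [7],⟨false,[],(9,21),.all,[]⟩),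
  (.comm 0 21 0,⟨false,[],(9,22),.all,[]⟩),
  (.mul 61 60,⟨false,[(14,15),(25,10),(11,24),(26,27),(17,30),(31,16),(30,31),(21,34),(35,20),(18,19),(29,14),(15,28)],(27,21),.mon 0 0 0,[(33,14),(30,35),(10,7),(9,26),(15,21),(19,25),(13,30),(14,11),(34,39),(37,18),(31,25)]⟩),
  (.sq 0 3,⟨false,[],(27,21),.mon 0 0 0,[(33,14),(19,25),(13,30),(33,11),(13,35),(24,35),(10,21)]⟩),
  (.comm 0 46 0,⟨false,[],(22,21),.mon 1 0 0,[(19,6),(19,11),(10,30),(10,35),(7,35)]⟩),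
  (.comm 24 0 0,⟨false,[],(22,18),.all,[]⟩),
  (.ca 0,⟨false,[],(18,22),.all,[]⟩),
  (.cc 0,⟨false,[],(26,22),.all,[]⟩),
  (.rho 0,⟨false,[],(23,27),.all,[]⟩),
  (.comm 0 68 0,⟨false,[],(23,21),.all,[(23,8)]⟩),
  (.drop 0 [8],⟨false,[],(23,21),.all,[]⟩),
  (.ca 40,⟨false,[],(29,9),.mon 1 0 0,[]⟩),
  (.rho 0,⟨false,[],(8,28),.mon 0 1 0,[]⟩),
  (.cc 0,⟨false,[],(36,16),.mon 0 1 0,[]⟩),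
  (.rho 0,⟨false,[],(17,37),.mon 1 0 0,[]⟩),
  (.ca 0,⟨false,[],(25,5),.mon 1 0 0,[]⟩),
  (.rho 0,⟨false,[],(4,24),.mon 0 1 0,[]⟩),
  (.rho 0,⟨false,[],(25,5),.mon 1 0 0,[]⟩),
  (.ca 28,⟨false,[],(9,10),.all,[]⟩),
  (.cc 0,⟨false,[],(37,34),.all,[]⟩),
  (.ca 0,⟨false,[],(5,6),.all,[]⟩),
  (.comm 0 3 0,⟨false,[],(25,6),.all,[]⟩),
  (.rho 0,⟨false,[],(7,24),.all,[]⟩),
  (.spec 0,⟨false,[],(7,24),.mon 0 0 0,[]⟩),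
  (.comm 32 0 0,⟨false,[],(9,24),.all,[]⟩),
  (.cc 34,⟨false,[],(13,11),.all,[]⟩),
  (.ca 0,⟨false,[],(29,31),.all,[]⟩),
  (.cc 0,⟨false,[],(17,15),.all,[]⟩),
  (.ca 0,⟨false,[],(25,27),.all,[]⟩),
  (.comm 0 88 0,⟨false,[],(25,21),.all,[(25,8)]⟩),
  (.drop 0 [5],⟨false,[],(25,21),.all,[]⟩),
  (.cc 0,⟨false,[],(21,25),.all,[]⟩),
  (.comm 0 27 0,⟨false,[],(22,25),.all,[]⟩),
  (.cc 0,⟨false,[],(22,21),.all,[]⟩),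
  (.rho 48,⟨false,[],(35,32),.all,[]⟩),
  (.comm 0 83 0,⟨false,[],(30,32),.all,[]⟩),
  (.cc 0,⟨false,[],(14,12),.all,[]⟩),
  (.ca 0,⟨false,[],(26,28),.all,[]⟩),
  (.cc 0,⟨false,[],(18,16),.all,[]⟩),
  (.ca 0,⟨false,[],(22,24),.all,[]⟩),
  (.cc 0,⟨false,[],(22,20),.all,[]⟩),
  (.cc 30,⟨false,[],(23,25),.all,[]⟩),
  (.cN 9 36 35,⟨false,[],(18,25),.all,[]⟩),
  (.cc 0,⟨false,[],(26,21),.all,[]⟩),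
  (.rho 27,⟨false,[],(25,5),.mon 1 0 0,[]⟩),
  (.cc 58,⟨false,[],(37,38),.all,[]⟩),
  (.ca 0,⟨false,[],(5,2),.all,[]⟩),
  (.comm 0 2 0,⟨false,[],(25,2),.all,[]⟩),
  (.rho 0,⟨false,[],(3,24),.all,[]⟩),
  (.spec 0,⟨false,[],(3,24),.mon 0 0 0,[]⟩),
  (.comm 60 79 0,⟨false,[],(13,30),.all,[]⟩),
  (.comm 0 99 0,⟨false,[],(13,35),.all,[]⟩),
  (.ca 0,⟨false,[],(29,7),.all,[]⟩),
  (.cc 0,⟨false,[],(17,39),.all,[]⟩),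
  (.ca 0,⟨false,[],(25,3),.all,[]⟩),
  (.comm 0 5 1,⟨false,[],(25,24),.all,[]⟩),
  (.cc 0,⟨false,[],(21,20),.all,[]⟩),
  (.comm 52 0 5,⟨false,[],(22,23),.all,[(22,20)]⟩),
  (.drop 0 [17],⟨false,[],(22,23),.all,[]⟩),
  (.ca 0,⟨false,[],(18,19),.all,[]⟩),
  (.cc 0,⟨false,[],(26,27),.all,[]⟩),
  (.comm 120 0 5,⟨false,[],(20,21),.all,[(26,21),(9,27),(9,8),(9,21)]⟩),
  (.drop 0 [18,64,69,61],⟨false,[],(20,21),.all,[]⟩)],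
  [(52,52),(29,29),(84,84),(22,22),(22,22),(29,29),(84,84),(52,52),(23,23),(30,30),(85,85),(21,21),(21,21),(30,30),(85,85),(23,23),(0,0),(6,6)]⟩ = true := by decide +kernel

theorem famCo {G L K : Type} [Group G] [AddCommGroup L] [Field K] [Finite K] {S : St G L K}
    {n : ℕ} (R : Frame S .C n) (md : ∀ x y, Md S.φ false x false y) (h : n = 5 ∨ 7 ≤ n) :
    IsLeast {n | Good S.Gs n} 3 := by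
  rcases h with rfl | h
  · exact R.gen (by decide) (md _ _) cCo5
  by_cases p : 19 ≤ n
  · exact R.poly p (by simp) (md _ _) cCow
  rw [not_le] at p
  interval_cases n
  · exact R.gen (by decide) (md _ _) cCo7
  · exact R.gen (by decide) (md _ _) cCo8
  · exact R.poly le_rfl (fun _ => rfl) (md _ _) cCo9
  · exact R.gen (by decide) (md _ _) cCo10
  · exact R.poly le_rfl (fun _ => rfl) (md _ _) cCo11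
  · exact R.gen (by decide) (md _ _) cCo12
  · exact R.poly le_rfl (fun _ => rfl) (md _ _) cCo13
  · exact R.poly le_rfl (fun _ => rfl) (md _ _) cCo14
  · exact R.poly le_rfl (fun _ => rfl) (md _ _) cCo15
  · exact R.poly le_rfl (fun _ => rfl) (md _ _) cCo16
  · exact R.poly le_rfl (fun _ => rfl) (md _ _) cCo17
  · exact R.poly le_rfl (fun _ => rfl) (md _ _) cCo18

end Pool.Agent.MP_c78e8e_al.H75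

end
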