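import Pool.Agent.MP_c78e8e_al.Sg.Clas

section

namespace Pool.Agent.MP_c78e8e_al.H75

theorem cCt5 : (Fam.op0 .C 5).check true true false false (Fam.tcG 5)
  ⟨[(4,9),(7,10),(2,3)],[],[],[(3,7),(6,4)],[(2,9),(5,10),(6,7)],(2,4),(4,6),
  ⟨[],[],[],[((4,5),some (0,0,0)),((9,10),some (1,0,0))],0,(4,5),(4,5),(4,5),(4,5),(0,0,0),[(9,8),(4,7)],
  [(.base 0,⟨false,[],(4,7),.mon 1 0 0,[(9,8),(4,5),(9,10)]⟩),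
  (.cc 0,⟨false,[],(11,6),.mon 1 0 0,[(2,3),(11,10),(2,5)]⟩),
  (.rho 0,⟨false,[],(7,10),.mon 0 1 0,[(2,3),(11,10),(2,5)]⟩),
  (.comm 2 0 0,⟨false,[],(4,10),.mon 1 1 0,[]⟩),
  (.ca 0,⟨false,[],(9,7),.mon 1 1 0,[]⟩),
  (.rho 0,⟨false,[],(6,8),.mon 1 1 0,[]⟩),
  (.cc 0,⟨false,[],(7,3),.mon 1 1 0,[]⟩),
  (.rho 0,⟨false,[],(2,6),.mon 1 1 0,[]⟩),
  (.rho 0,⟨false,[],(7,3),.mon 1 1 0,[]⟩),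
  (.comm 8 0 0,⟨false,[],(4,3),.mon 2 1 0,[]⟩),
  (.rho 0,⟨false,[],(2,5),.mon 1 2 0,[]⟩),
  (.ca 0,⟨false,[],(3,8),.mon 1 2 0,[]⟩),
  (.ca 4,⟨false,[],(3,11),.mon 1 1 0,[]⟩),
  (.cc 0,⟨false,[],(8,4),.mon 1 1 0,[]⟩),
  (.rho 0,⟨false,[],(5,9),.mon 1 1 0,[]⟩),
  (.rho 0,⟨false,[],(8,4),.mon 1 1 0,[]⟩),
  (.comm 4 0 0,⟨false,[],(3,4),.mon 2 3 0,[]⟩),
  (.rho 6,⟨false,[],(4,3),.mon 2 1 0,[]⟩),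
  (.sI 1 0,⟨true,[],(4,10),.mon 4 4 0,[]⟩),
  (.cc 7,⟨false,[],(8,3),.mon 1 2 0,[]⟩),
  (.rho 0,⟨false,[],(2,9),.mon 2 1 0,[]⟩),
  (.ca 0,⟨false,[],(3,4),.mon 2 1 0,[]⟩),
  (.rho 11,⟨false,[],(4,3),.mon 2 1 0,[]⟩),
  (.sI 1 0,⟨true,[],(4,10),.mon 4 2 0,[]⟩),
  (.sN 0,⟨true,[],(4,10),.mon (-4) (-2) 0,[]⟩),
  (.sA 6 0,⟨true,[],(4,10),.mon 0 2 0,[]⟩),
  (.sF 0 22,⟨false,[],(4,10),.all,[]⟩),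
  (.comm 19 21 0,⟨false,[],(2,8),.mon 2 2 0,[]⟩),
  (.rho 0,⟨false,[],(9,3),.mon 2 2 0,[]⟩),
  (.comm 14 0 0,⟨false,[],(5,3),.mon 3 3 0,[]⟩),
  (.rho 0,⟨false,[],(2,4),.mon 3 3 0,[]⟩),
  (.comm 4 0 0,⟨false,[],(2,10),.all,[]⟩),
  (.rho 19,⟨false,[],(10,2),.mon 1 1 0,[]⟩),
  (.comm 5 0 0,⟨false,[],(10,8),.mon 3 3 0,[]⟩),
  (.rho 0,⟨false,[],(9,11),.mon 3 3 0,[]⟩),
  (.comm 0 20 0,⟨false,[],(5,11),.mon 4 4 0,[]⟩),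
  (.rho 0,⟨false,[],(10,4),.mon 4 4 0,[]⟩),
  (.comm 5 0 0,⟨false,[],(2,4),.all,[]⟩),
  (.rho 25,⟨false,[],(10,2),.mon 1 1 0,[]⟩),
  (.comm 12 0 0,⟨false,[],(4,2),.all,[]⟩),
  (.rho 32,⟨false,[],(7,3),.mon 1 1 0,[]⟩),
  (.comm 28 0 0,⟨false,[],(7,11),.mon 2 2 0,[]⟩),
  (.rho 0,⟨false,[],(10,6),.mon 2 2 0,[]⟩),
  (.comm 16 0 0,⟨false,[],(4,6),.all,[]⟩),
  (.ca 17,⟨false,[],(9,7),.all,[]⟩),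
  (.comm 0 30 0,⟨false,[],(5,7),.all,[]⟩),
  (.rho 31,⟨false,[],(8,4),.mon 1 1 0,[]⟩),
  (.comm 20 0 0,⟨false,[],(8,10),.all,[]⟩),
  (.rho 6,⟨false,[],(10,6),.mon 2 2 0,[]⟩),
  (.comm 1 0 0,⟨false,[],(8,6),.all,[]⟩),
  (.comm 5 8 0,⟨false,[],(9,11),.all,[]⟩),
  (.comm 40 15 0,⟨false,[],(2,11),.mon 5 6 0,[]⟩),
  (.rho 0,⟨false,[],(10,3),.mon 6 5 0,[]⟩),
  (.comm 26 0 0,⟨false,[],(4,3),.all,[]⟩),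
  (.comm 27 37 0,⟨false,[],(3,10),.all,[]⟩),
  (.rho 19,⟨false,[],(10,4),.mon 4 4 0,[]⟩),
  (.comm 1 0 0,⟨false,[],(3,4),.all,[]⟩),
  (.rho 5,⟨false,[],(10,3),.mon 6 5 0,[]⟩),
  (.comm 26 0 1,⟨false,[],(2,3),.all,[]⟩),
  (.comm 19 42 1,⟨false,[],(3,2),.all,[]⟩)],
  [(6,6),(3,3),(1,1),(0,0),(22,22),(20,20),(16,16),(14,14),(15,15),(10,10),(12,12),(9,9)]⟩⟩ = true := by decide +kernel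

theorem cCt7 : (Fam.op0 .C 7).check true true false false (Fam.tcG 7)
  ⟨[(12,8),(4,14),(2,6),(10,11)],[],[],[(13,15),(2,11),(4,13),(9,12),(5,8),(5,6),(8,10)],[(9,3),(7,12),(11,4),(14,15)],(2,4),(4,6),
  ⟨[],[],[],[((3,12),some (1,0,0)),((13,5),some (0,0,0))],0,(3,12),(3,12),(3,12),(3,12),(0,0,0),[(7,8),(9,15)],
  [(.base 1,⟨false,[],(7,8),.mon 1 0 0,[(9,15),(3,12),(13,5)]⟩),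
  (.base 0,⟨false,[],(9,15),.mon 0 0 0,[(7,8),(3,12),(13,5)]⟩),
  (.cc 0,⟨false,[],(3,14),.mon 0 0 0,[(12,2),(9,7),(6,10)]⟩),
  (.ca 0,⟨false,[],(7,4),.mon 0 0 0,[(8,6),(13,3),(2,11)]⟩),
  (.cc 0,⟨false,[],(12,11),.mon 0 0 0,[(2,13),(6,9),(8,4)]⟩),
  (.ca 0,⟨false,[],(8,10),.mon 0 0 0,[(6,9),(2,13),(12,14)]⟩),
  (.cc 0,⟨false,[],(2,5),.mon 0 0 0,[(13,3),(8,6),(7,15)]⟩),
  (.ca 0,⟨false,[],(6,15),.mon 0 0 0,[(9,7),(12,2),(3,5)]⟩),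
  (.cc 0,⟨false,[],(13,14),.mon 0 0 0,[(3,12),(7,8),(9,10)]⟩),
  (.rho 0,⟨false,[],(15,12),.mon 0 0 0,[(3,12),(7,8),(9,10)]⟩),
  (.comm 8 0 0,⟨false,[],(9,12),.mon 0 0 0,[]⟩),
  (.cc 0,⟨false,[],(3,7),.mon 0 0 0,[]⟩),
  (.comm 11 0 0,⟨false,[],(3,8),.mon 1 0 0,[]⟩),
  (.ca 0,⟨false,[],(7,12),.mon 1 0 0,[]⟩),
  (.cc 0,⟨false,[],(12,7),.mon 1 0 0,[]⟩),
  (.rho 0,⟨false,[],(6,13),.mon 0 1 0,[]⟩),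
  (.ca 0,⟨false,[],(2,9),.mon 0 1 0,[]⟩),
  (.rho 4,⟨false,[],(9,2),.mon 0 1 0,[]⟩),
  (.sI 1 0,⟨true,[],(9,12),.mon 0 2 0,[]⟩),
  (.sF 0 8,⟨false,[],(9,12),.all,[]⟩),
  (.ca 8,⟨false,[],(7,3),.mon 0 0 0,[]⟩),
  (.rho 0,⟨false,[],(2,6),.mon 0 0 0,[]⟩),
  (.comm 6 0 0,⟨false,[],(2,13),.mon 0 1 0,[]⟩),
  (.rho 0,⟨false,[],(12,3),.mon 1 0 0,[]⟩),
  (.comm 4 0 0,⟨false,[],(9,3),.all,[]⟩),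
  (.cc 3,⟨false,[],(8,13),.mon 0 0 0,[]⟩),
  (.rho 0,⟨false,[],(12,9),.mon 0 0 0,[]⟩),
  (.comm 13 0 0,⟨false,[],(7,9),.mon 1 0 0,[]⟩),
  (.comm 8 0 0,⟨false,[],(7,12),.all,[]⟩),
  (.rho 7,⟨false,[],(7,3),.mon 0 0 0,[]⟩),
  (.comm 17 0 0,⟨false,[],(7,8),.mon 1 0 0,[]⟩),
  (.comm 0 5 0,⟨false,[],(7,13),.mon 1 0 0,[]⟩),
  (.rho 0,⟨false,[],(12,6),.mon 0 1 0,[]⟩),
  (.comm 13 0 0,⟨false,[],(9,6),.all,[]⟩),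
  (.cc 14,⟨false,[],(3,7),.all,[]⟩),
  (.rho 18,⟨false,[],(8,3),.mon 1 0 0,[]⟩),
  (.comm 1 0 0,⟨false,[],(8,7),.all,[]⟩),
  (.rho 0,⟨false,[],(6,9),.all,[]⟩),
  (.cN 9 4 0,⟨false,[],(8,12),.all,[]⟩),
  (.rho 0,⟨false,[],(13,9),.all,[]⟩),
  (.comm 0 38 0,⟨false,[],(13,15),.all,[(13,6)]⟩),
  (.drop 0 [12],⟨false,[],(13,15),.all,[]⟩),
  (.ca 0,⟨false,[],(9,5),.all,[]⟩),
  (.rho 17,⟨false,[],(12,9),.mon 0 0 0,[]⟩),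
  (.comm 15 0 0,⟨false,[],(7,9),.all,[]⟩),
  (.comm 0 43 0,⟨false,[],(7,15),.all,[(7,6)]⟩),
  (.rho 14,⟨false,[],(12,6),.mon 0 1 0,[]⟩),
  (.comm 18 0 1,⟨false,[],(7,6),.all,[]⟩),
  (.drop 2 [0],⟨false,[],(7,15),.all,[]⟩),
  (.cc 0,⟨false,[],(12,14),.all,[]⟩),
  (.ca 0,⟨false,[],(8,4),.all,[]⟩),
  (.rho 0,⟨false,[],(5,9),.all,[]⟩),
  (.cN 27 9 0,⟨false,[],(5,3),.all,[]⟩),
  (.ca 4,⟨false,[],(3,5),.all,[]⟩),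
  (.comm 19 26 0,⟨false,[],(3,9),.all,[]⟩),
  (.comm 0 53 0,⟨false,[],(3,15),.all,[(3,6)]⟩),
  (.comm 43 30 0,⟨false,[],(3,13),.mon 1 0 0,[]⟩),
  (.rho 0,⟨false,[],(12,2),.mon 0 1 0,[]⟩),
  (.comm 38 0 0,⟨false,[],(9,2),.all,[]⟩),
  (.comm 0 31 0,⟨false,[],(7,2),.all,[]⟩),
  (.drop 4 [0],⟨false,[],(3,15),.all,[]⟩),
  (.ca 0,⟨false,[],(7,5),.all,[]⟩),
  (.rho 46,⟨false,[],(12,7),.mon 1 0 0,[]⟩),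
  (.comm 43 0 0,⟨false,[],(9,7),.all,[]⟩),
  (.rho 13,⟨false,[],(5,9),.all,[]⟩),
  (.cN 1 22 0,⟨false,[],(5,7),.all,[]⟩),
  (.cc 4,⟨false,[],(12,10),.all,[]⟩),
  (.spec 28,⟨false,[],(8,12),.mon 0 0 0,[]⟩),
  (.comm 1 0 0,⟨false,[],(8,10),.all,[]⟩),
  (.cc 26,⟨false,[],(3,10),.all,[]⟩),
  (.cc 16,⟨false,[],(9,10),.all,[]⟩),
  (.ca 4,⟨false,[],(8,11),.all,[]⟩),
  (.rho 0,⟨false,[],(10,9),.all,[]⟩),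
  (.cN 48 2 0,⟨false,[],(10,3),.all,[]⟩),
  (.cN 15 4 0,⟨false,[],(9,11),.all,[]⟩),
  (.ca 4,⟨false,[],(13,11),.all,[]⟩),
  (.comm 12 59 0,⟨false,[],(2,7),.all,[]⟩),
  (.spec 0,⟨false,[],(2,7),.mon 0 0 0,[]⟩),
  (.comm 16 0 0,⟨false,[],(2,5),.all,[]⟩),
  (.rho 28,⟨false,[],(5,9),.all,[]⟩),
  (.cN 21 37 0,⟨false,[],(5,2),.all,[]⟩),
  (.comm 61 64 0,⟨false,[],(2,12),.all,[]⟩),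
  (.rho 59,⟨false,[],(12,3),.mon 1 0 0,[]⟩),
  (.comm 1 0 1,⟨false,[],(2,3),.all,[]⟩),
  (.rho 70,⟨false,[],(13,6),.mon 0 1 0,[]⟩),
  (.comm 28 0 0,⟨false,[],(3,6),.mon 1 1 0,[]⟩),
  (.rho 0,⟨false,[],(7,2),.mon 1 1 0,[]⟩),
  (.comm 52 0 1,⟨false,[],(3,2),.all,[]⟩)],
  [(9,9),(7,7),(4,4),(0,0),(35,35),(34,34),(26,26),(22,22),(24,24),(43,43),(19,19),(13,13),(12,12),(21,21),(38,38),(46,46)]⟩⟩ = true := by decide +kernel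

theorem cCt8 : (Fam.op0 .C 8).check true true false false (Fam.tcG 8)
  ⟨[(2,14),(5,13),(10,11),(6,7),(8,16)],[],[],[(17,9),(11,3),(7,11),(10,12),(2,16)],[(8,14),(5,7),(12,13),(2,3),(16,10)],(2,4),(4,6),
  ⟨[],[],[],[((12,14),some (0,0,0)),((16,2),some (1,0,0))],0,(12,14),(12,14),(12,14),(12,14),(0,0,0),[(4,2),(8,14)],
  [(.base 0,⟨false,[],(8,14),.mon 1 0 0,[(4,2),(12,14),(16,2)]⟩),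
  (.cc 0,⟨false,[],(14,8),.mon 1 0 0,[(6,3),(13,8),(10,3)]⟩),
  (.ca 0,⟨false,[],(2,16),.mon 1 0 0,[(7,15),(5,16),(11,15)]⟩),
  (.cc 0,⟨false,[],(3,10),.mon 1 0 0,[(5,9),(7,10),(17,9)]⟩),
  (.ca 0,⟨false,[],(15,11),.mon 1 0 0,[(13,17),(6,11),(9,17)]⟩),
  (.cc 0,⟨false,[],(9,17),.mon 1 0 0,[(12,11),(4,17),(15,11)]⟩),
  (.rho 0,⟨false,[],(16,8),.mon 0 1 0,[(12,11),(4,17),(15,11)]⟩),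
  (.comm 6 0 0,⟨false,[],(16,14),.mon 1 1 0,[]⟩),
  (.rho 0,⟨false,[],(15,17),.mon 1 1 0,[]⟩),
  (.ca 0,⟨false,[],(3,9),.mon 1 1 0,[]⟩),
  (.rho 0,⟨false,[],(8,2),.mon 1 1 0,[]⟩),
  (.cc 1,⟨false,[],(2,15),.mon 1 1 0,[]⟩),
  (.comm 0 1 0,⟨false,[],(8,15),.mon 2 2 0,[]⟩),
  (.rho 0,⟨false,[],(14,9),.mon 2 2 0,[]⟩),
  (.cc 5,⟨false,[],(9,11),.mon 1 1 0,[]⟩),
  (.rho 0,⟨false,[],(10,8),.mon 1 1 0,[]⟩),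
  (.comm 15 0 0,⟨false,[],(10,14),.mon 2 1 0,[]⟩),
  (.cc 0,⟨false,[],(16,8),.mon 2 1 0,[]⟩),
  (.rho 0,⟨false,[],(9,17),.mon 1 2 0,[]⟩),
  (.comm 0 5 0,⟨false,[],(14,17),.mon 3 4 0,[]⟩),
  (.rho 0,⟨false,[],(16,15),.mon 4 3 0,[]⟩),
  (.ca 6,⟨false,[],(17,10),.mon 1 1 0,[]⟩),
  (.rho 0,⟨false,[],(11,16),.mon 1 1 0,[]⟩),
  (.rho 0,⟨false,[],(17,10),.mon 1 1 0,[]⟩),
  (.comm 12 15 0,⟨false,[],(2,17),.mon 2 2 0,[]⟩),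
  (.comm 0 1 0,⟨false,[],(2,10),.mon 3 3 0,[]⟩),
  (.comm 9 0 0,⟨false,[],(2,14),.mon 5 4 0,[]⟩),
  (.rho 0,⟨false,[],(15,3),.mon 4 5 0,[]⟩),
  (.rho 16,⟨false,[],(14,3),.mon 1 1 0,[]⟩),
  (.comm 14 19 0,⟨false,[],(3,11),.mon 2 2 0,[]⟩),
  (.comm 0 1 0,⟨false,[],(14,11),.mon 3 3 0,[]⟩),
  (.rho 0,⟨false,[],(10,15),.mon 3 3 0,[]⟩),
  (.ca 15,⟨false,[],(11,2),.mon 2 1 0,[]⟩),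
  (.rho 0,⟨false,[],(3,10),.mon 1 2 0,[]⟩),
  (.comm 0 2 0,⟨false,[],(3,15),.mon 4 5 0,[]⟩),
  (.sI 0 7,⟨true,[],(15,17),.mon 8 10 0,[]⟩),
  (.sN 0,⟨true,[],(15,17),.mon (-8) (-10) 0,[]⟩),
  (.rho 28,⟨false,[],(16,14),.mon 1 1 0,[]⟩),
  (.comm 15 0 0,⟨false,[],(11,14),.mon 2 2 0,[]⟩),
  (.comm 0 9 0,⟨false,[],(3,14),.mon 4 4 0,[]⟩),
  (.rho 0,⟨false,[],(15,2),.mon 4 4 0,[]⟩),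
  (.comm 15 9 0,⟨false,[],(2,15),.mon 6 6 0,[]⟩),
  (.sI 0 1,⟨true,[],(15,17),.mon 10 10 0,[]⟩),
  (.sA 0 6,⟨true,[],(15,17),.mon 2 0 0,[]⟩),
  (.sF 0 35,⟨false,[],(15,17),.all,[]⟩),
  (.comm 0 24 1,⟨false,[],(16,17),.all,[]⟩),
  (.base 1,⟨false,[],(4,2),.mon 0 0 0,[(8,14),(12,14),(16,2)]⟩),
  (.comm 2 35 0,⟨false,[],(2,17),.all,[]⟩),
  (.comm 0 1 0,⟨false,[],(4,17),.all,[(16,17)]⟩),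
  (.drop 0 [3],⟨false,[],(4,17),.all,[]⟩),
  (.ca 0,⟨false,[],(12,9),.all,[]⟩),
  (.cc 0,⟨false,[],(13,15),.all,[]⟩),
  (.ca 0,⟨false,[],(5,3),.all,[]⟩),
  (.comm 30 38 0,⟨false,[],(9,16),.mon 2 2 0,[]⟩),
  (.ca 9,⟨false,[],(3,9),.all,[]⟩),
  (.comm 0 1 0,⟨false,[],(3,16),.all,[]⟩),
  (.rho 0,⟨false,[],(17,2),.all,[]⟩),
  (.spec 0,⟨false,[],(17,2),.mon 0 0 0,[]⟩),
  (.comm 8 0 0,⟨false,[],(4,2),.all,[]⟩),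
  (.cc 9,⟨false,[],(6,11),.all,[]⟩),
  (.ca 0,⟨false,[],(7,10),.all,[]⟩),
  (.rho 0,⟨false,[],(11,6),.all,[]⟩),
  (.comm 17 30 0,⟨false,[],(10,17),.all,[]⟩),
  (.rho 50,⟨false,[],(14,9),.mon 2 2 0,[]⟩),
  (.comm 25 0 0,⟨false,[],(11,9),.mon 4 4 0,[]⟩),
  (.rho 0,⟨false,[],(8,10),.mon 4 4 0,[]⟩),
  (.rho 0,⟨false,[],(11,9),.mon 4 4 0,[]⟩),
  (.rho 55,⟨false,[],(14,3),.mon 1 1 0,[]⟩),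
  (.comm 51 0 0,⟨false,[],(10,3),.mon 3 2 0,[]⟩),
  (.rho 0,⟨false,[],(2,11),.mon 2 3 0,[]⟩),
  (.comm 0 3 0,⟨false,[],(2,9),.mon 6 7 0,[]⟩),
  (.cc 26,⟨false,[],(9,11),.all,[]⟩),
  (.comm 0 1 0,⟨false,[],(2,11),.all,[]⟩),
  (.comm 0 26 0,⟨false,[],(4,11),.all,[(16,11)]⟩),
  (.drop 0 [11],⟨false,[],(4,11),.all,[]⟩),
  (.cN 0 15 13,⟨false,[],(4,6),.all,[]⟩),
  (.cc 0,⟨false,[],(6,4),.all,[]⟩),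
  (.cc 43,⟨false,[],(2,16),.mon 1 2 0,[]⟩),
  (.rho 0,⟨false,[],(17,3),.mon 2 1 0,[]⟩),
  (.comm 34 0 0,⟨false,[],(15,3),.all,[]⟩),
  (.rho 0,⟨false,[],(2,14),.all,[]⟩),
  (.comm 0 34 0,⟨false,[],(4,14),.all,[(16,14)]⟩),
  (.drop 0 [37],⟨false,[],(4,14),.all,[]⟩),
  (.cc 0,⟨false,[],(6,8),.all,[]⟩),
  (.rho 23,⟨false,[],(11,6),.all,[]⟩),
  (.rho 15,⟨false,[],(10,3),.mon 3 2 0,[]⟩),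
  (.comm 31 0 0,⟨false,[],(10,9),.all,[]⟩),
  (.cN 0 27 2,⟨false,[],(7,9),.all,[]⟩),
  (.rho 62,⟨false,[],(11,3),.mon 3 3 0,[]⟩),
  (.comm 34 0 0,⟨false,[],(11,9),.all,[]⟩),
  (.ca 7,⟨false,[],(12,2),.all,[]⟩),
  (.cc 0,⟨false,[],(13,3),.all,[]⟩),
  (.rho 0,⟨false,[],(2,12),.all,[]⟩),
  (.spec 38,⟨false,[],(3,9),.mon 0 0 0,[]⟩),
  (.comm 22 0 0,⟨false,[],(3,11),.all,[]⟩),
  (.cN 0 4 2,⟨false,[],(13,11),.all,[]⟩),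
  (.ca 21,⟨false,[],(12,10),.all,[]⟩),
  (.rho 43,⟨false,[],(17,8),.mon 2 2 0,[]⟩),
  (.comm 53 0 0,⟨false,[],(15,8),.all,[]⟩),
  (.rho 0,⟨false,[],(9,14),.all,[]⟩),
  (.spec 0,⟨false,[],(9,14),.mon 0 0 0,[]⟩),
  (.comm 50 0 0,⟨false,[],(12,14),.all,[]⟩),
  (.rho 46,⟨false,[],(17,2),.all,[]⟩),
  (.cc 48,⟨false,[],(2,15),.all,[]⟩),
  (.cN 0 56 1,⟨false,[],(17,15),.all,[]⟩),
  (.rho 92,⟨false,[],(14,9),.mon 2 2 0,[]⟩),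
  (.comm 52 0 0,⟨false,[],(14,16),.mon 4 4 0,[]⟩),
  (.rho 0,⟨false,[],(17,15),.mon 4 4 0,[]⟩),
  (.comm 28 0 0,⟨false,[],(17,3),.all,[]⟩),
  (.spec 0,⟨false,[],(17,3),.mon 0 0 0,[]⟩),
  (.comm 60 0 0,⟨false,[],(4,3),.all,[]⟩),
  (.rho 50,⟨false,[],(11,6),.all,[]⟩),
  (.cN 39 52 0,⟨false,[],(2,6),.all,[]⟩),
  (.cc 0,⟨false,[],(3,4),.all,[]⟩),
  (.rho 36,⟨false,[],(17,3),.mon 2 1 0,[]⟩),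
  (.comm 67 0 1,⟨false,[],(2,3),.all,[]⟩),
  (.rho 101,⟨false,[],(10,8),.mon 1 1 0,[]⟩),
  (.comm 83 0 0,⟨false,[],(3,8),.mon 2 3 0,[]⟩),
  (.rho 0,⟨false,[],(9,2),.mon 3 2 0,[]⟩),
  (.comm 64 0 1,⟨false,[],(3,2),.all,[]⟩)],
  [(9,9),(6,6),(4,4),(0,0),(67,67),(61,61),(44,44),(43,43),(36,36),(32,32),(30,30),(48,48),(24,24),(23,23),(18,18),(68,68),(15,15),(75,75)]⟩⟩ = true := by decide +kernel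

theorem cCt9 : (Fam.op0 .C 9).check true true false false (Fam.tcG 9)
  ⟨[(3,19),(8,6),(10,4),(16,14),(13,12)],[],[],[(8,9),(4,18),(5,8),(4,3),(5,11),(11,12),(15,2),(15,10),(5,12)],[(14,5),(19,6),(9,3),(16,12),(10,11)],(2,4),(4,6),
  ⟨[],[],[],[((14,9),some (0,0,0)),((8,2),some (1,0,0))],0,(14,9),(14,9),(14,9),(14,9),(0,0,0),[(16,7),(6,18)],
  [(.base 0,⟨false,[],(6,18),.mon 1 0 0,[(16,7),(14,9),(8,2)]⟩),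
  (.base 1,⟨false,[],(16,7),.mon 0 0 0,[(6,18),(14,9),(8,2)]⟩),
  (.base 2,⟨false,[],(14,9),.mon 0 0 0,[(6,18),(16,7),(8,2)]⟩),
  (.cc 0,⟨false,[],(5,3),.mon 0 0 0,[(19,7),(12,18),(2,8)]⟩),
  (.ca 0,⟨false,[],(11,19),.mon 0 0 0,[(3,9),(13,2),(18,6)]⟩),
  (.cc 0,⟨false,[],(10,6),.mon 0 0 0,[(9,3),(17,8),(7,19)]⟩),
  (.ca 0,⟨false,[],(4,8),.mon 0 0 0,[(7,19),(15,6),(9,3)]⟩),
  (.cc 0,⟨false,[],(15,2),.mon 0 0 0,[(18,6),(4,19),(3,9)]⟩),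
  (.ca 0,⟨false,[],(17,18),.mon 0 0 0,[(2,8),(10,3),(19,7)]⟩),
  (.cc 0,⟨false,[],(13,7),.mon 0 0 0,[(8,2),(11,9),(6,18)]⟩),
  (.ca 0,⟨false,[],(12,9),.mon 0 0 0,[(6,18),(5,7),(8,2)]⟩),
  (.cc 0,⟨false,[],(16,3),.mon 0 0 0,[(19,7),(14,18),(2,8)]⟩),
  (.ca 0,⟨false,[],(14,19),.mon 0 0 0,[(3,9),(16,2),(18,6)]⟩),
  (.cc 0,⟨false,[],(5,6),.mon 0 0 0,[(9,3),(12,8),(7,19)]⟩),
  (.ca 0,⟨false,[],(11,8),.mon 0 0 0,[(7,19),(13,6),(9,3)]⟩),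
  (.cc 0,⟨false,[],(10,2),.mon 0 0 0,[(18,6),(17,19),(3,9)]⟩),
  (.ca 0,⟨false,[],(4,18),.mon 0 0 0,[(2,8),(15,3),(19,7)]⟩),
  (.cc 0,⟨false,[],(15,7),.mon 0 0 0,[(8,2),(4,9),(6,18)]⟩),
  (.ca 0,⟨false,[],(17,9),.mon 0 0 0,[(6,18),(10,7),(8,2)]⟩),
  (.rho 0,⟨false,[],(8,16),.mon 0 0 0,[(6,18),(10,7),(8,2)]⟩),
  (.comm 18 0 0,⟨false,[],(8,7),.mon 0 0 0,[]⟩),
  (.rho 0,⟨false,[],(6,9),.mon 0 0 0,[]⟩),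
  (.cc 0,⟨false,[],(19,3),.mon 0 0 0,[]⟩),
  (.rho 0,⟨false,[],(2,18),.mon 0 0 0,[]⟩),
  (.ca 0,⟨false,[],(18,2),.mon 0 0 0,[]⟩),
  (.rho 0,⟨false,[],(3,19),.mon 0 0 0,[]⟩),
  (.rho 0,⟨false,[],(18,2),.mon 0 0 0,[]⟩),
  (.comm 26 0 0,⟨false,[],(6,2),.mon 1 0 0,[]⟩),
  (.rho 0,⟨false,[],(3,7),.mon 0 1 0,[]⟩),
  (.ca 0,⟨false,[],(19,9),.mon 0 1 0,[]⟩),
  (.rho 0,⟨false,[],(8,18),.mon 1 0 0,[]⟩),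
  (.cc 0,⟨false,[],(2,7),.mon 1 0 0,[]⟩),
  (.ca 0,⟨false,[],(18,9),.mon 1 0 0,[]⟩),
  (.rho 0,⟨false,[],(8,19),.mon 0 1 0,[]⟩),
  (.rho 10,⟨false,[],(19,3),.mon 0 0 0,[]⟩),
  (.comm 1 0 0,⟨false,[],(8,3),.mon 0 1 0,[]⟩),
  (.rho 0,⟨false,[],(2,9),.mon 1 0 0,[]⟩),
  (.cc 11,⟨false,[],(9,6),.mon 0 0 0,[]⟩),
  (.rho 0,⟨false,[],(7,8),.mon 0 0 0,[]⟩),
  (.rho 0,⟨false,[],(9,6),.mon 0 0 0,[]⟩),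
  (.comm 3 0 0,⟨false,[],(2,6),.mon 1 0 0,[]⟩),
  (.rho 12,⟨false,[],(6,2),.mon 1 0 0,[]⟩),
  (.sI 1 0,⟨true,[],(6,9),.mon 2 0 0,[]⟩),
  (.sF 0 21,⟨false,[],(6,9),.all,[]⟩),
  (.cc 15,⟨false,[],(9,18),.mon 0 1 0,[]⟩),
  (.ca 0,⟨false,[],(7,2),.mon 0 1 0,[]⟩),
  (.rho 0,⟨false,[],(3,6),.mon 1 0 0,[]⟩),
  (.comm 3 0 0,⟨false,[],(3,9),.all,[]⟩),
  (.rho 9,⟨false,[],(9,6),.mon 0 0 0,[]⟩),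
  (.comm 1 0 0,⟨false,[],(3,6),.all,[]⟩),
  (.rho 0,⟨false,[],(7,2),.all,[]⟩),
  (.comm 0 49 0,⟨false,[],(16,2),.all,[(19,2)]⟩),
  (.comm 8 7 0,⟨false,[],(6,18),.all,[]⟩),
  (.comm 0 6 0,⟨false,[],(3,18),.all,[]⟩),
  (.drop 2 [0],⟨false,[],(16,2),.all,[]⟩),
  (.ca 0,⟨false,[],(14,18),.all,[]⟩),
  (.cc 0,⟨false,[],(5,7),.all,[]⟩),
  (.cc 13,⟨false,[],(19,3),.all,[]⟩),
  (.comm 24 19 0,⟨false,[],(7,19),.mon 0 1 0,[]⟩),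
  (.comm 1 0 0,⟨false,[],(7,3),.all,[]⟩),
  (.spec 0,⟨false,[],(7,3),.mon 0 0 0,[]⟩),
  (.comm 4 0 0,⟨false,[],(5,3),.all,[]⟩),
  (.comm 31 23 0,⟨false,[],(7,18),.mon 1 0 0,[]⟩),
  (.rho 0,⟨false,[],(19,6),.mon 0 1 0,[]⟩),
  (.comm 20 0 0,⟨false,[],(19,9),.all,[]⟩),
  (.comm 0 6 0,⟨false,[],(7,9),.all,[]⟩),
  (.comm 0 64 0,⟨false,[],(16,9),.all,[(19,9)]⟩),
  (.drop 0 [2],⟨false,[],(16,9),.all,[]⟩),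
  (.ca 0,⟨false,[],(14,7),.all,[]⟩),
  (.cc 0,⟨false,[],(5,18),.all,[]⟩),
  (.ca 0,⟨false,[],(11,2),.all,[]⟩),
  (.ca 14,⟨false,[],(11,9),.all,[]⟩),
  (.cc 0,⟨false,[],(10,3),.all,[]⟩),
  (.rho 0,⟨false,[],(2,11),.all,[]⟩),
  (.cN 20 3 0,⟨false,[],(10,18),.all,[]⟩),
  (.ca 0,⟨false,[],(4,2),.all,[]⟩),
  (.cc 5,⟨false,[],(10,8),.all,[]⟩),
  (.ca 0,⟨false,[],(4,6),.all,[]⟩),
  (.cc 31,⟨false,[],(9,19),.mon 1 0 0,[]⟩),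
  (.rho 0,⟨false,[],(18,8),.mon 0 1 0,[]⟩),
  (.comm 27 0 0,⟨false,[],(6,8),.all,[]⟩),
  (.comm 52 42 0,⟨false,[],(3,8),.mon 0 1 0,[]⟩),
  (.rho 0,⟨false,[],(9,2),.mon 1 0 0,[]⟩),
  (.comm 39 0 0,⟨false,[],(6,2),.all,[]⟩),
  (.comm 26 37 0,⟨false,[],(19,6),.all,[]⟩),
  (.rho 0,⟨false,[],(7,18),.all,[]⟩),
  (.comm 0 84 0,⟨false,[],(16,18),.all,[(19,18)]⟩),
  (.comm 5 56 0,⟨false,[],(3,18),.mon 1 1 0,[]⟩),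
  (.comm 30 0 1,⟨false,[],(19,18),.all,[]⟩),
  (.drop 2 [0],⟨false,[],(16,18),.all,[]⟩),
  (.cc 0,⟨false,[],(12,7),.all,[]⟩),
  (.cc 36,⟨false,[],(12,8),.all,[]⟩),
  (.ca 0,⟨false,[],(13,6),.all,[]⟩),
  (.rho 0,⟨false,[],(7,12),.all,[]⟩),
  (.cN 10 3 0,⟨false,[],(13,2),.all,[]⟩),
  (.rho 22,⟨false,[],(2,11),.all,[]⟩),
  (.cN 1 25 0,⟨false,[],(13,11),.all,[]⟩),
  (.rho 5,⟨false,[],(9,13),.all,[]⟩),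
  (.spec 0,⟨false,[],(9,13),.mon 0 0 0,[]⟩),
  (.comm 27 0 0,⟨false,[],(11,13),.all,[]⟩),
  (.comm 68 61 0,⟨false,[],(2,8),.mon 1 0 0,[]⟩),
  (.rho 0,⟨false,[],(9,3),.mon 0 1 0,[]⟩),
  (.comm 58 0 0,⟨false,[],(6,3),.all,[]⟩),
  (.rho 0,⟨false,[],(2,7),.all,[]⟩),
  (.spec 0,⟨false,[],(2,7),.mon 0 0 0,[]⟩),
  (.comm 50 0 0,⟨false,[],(16,7),.all,[]⟩),
  (.rho 13,⟨false,[],(7,12),.all,[]⟩),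
  (.cN 1 16 0,⟨false,[],(16,12),.all,[]⟩),
  (.cc 0,⟨false,[],(12,16),.all,[]⟩),
  (.rho 16,⟨false,[],(7,12),.all,[]⟩),
  (.cN 41 19 0,⟨false,[],(14,12),.all,[]⟩),
  (.cN 0 3 2,⟨false,[],(14,16),.all,[]⟩),
  (.ca 0,⟨false,[],(16,14),.all,[]⟩),
  (.cN 4 1 0,⟨false,[],(12,14),.all,[]⟩),
  (.cc 21,⟨false,[],(17,19),.all,[]⟩),
  (.ca 57,⟨false,[],(3,19),.all,[]⟩),
  (.rho 43,⟨false,[],(2,11),.all,[]⟩),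
  (.cN 1 46 0,⟨false,[],(10,19),.all,[]⟩),
  (.ca 0,⟨false,[],(4,3),.all,[]⟩),
  (.rho 69,⟨false,[],(7,2),.all,[]⟩),
  (.spec 0,⟨false,[],(7,2),.mon 0 0 0,[]⟩),
  (.comm 64 0 0,⟨false,[],(5,2),.all,[]⟩),
  (.comm 21 88 0,⟨false,[],(2,19),.mon 1 1 0,[]⟩),
  (.comm 65 0 1,⟨false,[],(2,3),.all,[]⟩),
  (.comm 40 77 1,⟨false,[],(3,2),.all,[]⟩)],
  [(6,6),(3,3),(1,1),(0,0),(63,63),(49,49),(47,47),(68,68),(44,44),(59,59),(53,53),(48,48),(28,28),(25,25),(11,11),(14,14),(13,13),(12,12),(35,35),(10,10)]⟩⟩ = true := by decide +kernel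

theorem cCt10 : (Fam.op0 .C 10).check true true false false (Fam.tcG 10)
  ⟨[(21,9),(7,17),(19,10),(14,5),(2,12)],[],[],[(14,13),(17,5),(3,9),(16,3),(19,6),(17,13),(12,20)],[(8,3),(18,14),(6,10),(13,17),(5,20)],(2,4),(4,6),
  ⟨[],[],[],[((5,2),some (0,0,0)),((13,20),some (1,0,0)),((19,20),some (0,0,0))],0,(5,2),(5,2),(5,2),(5,2),(0,0,0),[(14,12),(3,8),(10,8)],
  [(.base 0,⟨false,[],(10,8),.mon 0 0 0,[(3,8),(14,12),(5,2),(13,20),(19,20)]⟩),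
  (.base 2,⟨false,[],(14,12),.mon 0 0 0,[(10,8),(3,8),(5,2),(13,20),(19,20)]⟩),
  (.cc 0,⟨false,[],(18,16),.mon 0 0 0,[(6,3),(8,3),(20,9),(17,5),(15,5)]⟩),
  (.ca 0,⟨false,[],(11,6),.mon 0 0 0,[(16,13),(20,13),(8,21),(7,14),(4,14)]⟩),
  (.cc 0,⟨false,[],(7,10),.mon 0 0 0,[(12,17),(5,17),(3,4),(11,18),(21,18)]⟩),
  (.comm 4 0 0,⟨false,[],(7,8),.mon 0 0 0,[(19,8),(14,17),(16,20)]⟩),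
  (.base 4,⟨false,[],(13,20),.mon 1 0 0,[(10,8),(3,8),(14,12),(5,2),(19,20)]⟩),
  (.cc 0,⟨false,[],(17,5),.mon 1 0 0,[(6,3),(8,3),(18,16),(20,9),(15,5)]⟩),
  (.ca 0,⟨false,[],(7,14),.mon 1 0 0,[(16,13),(20,13),(11,6),(8,21),(4,14)]⟩),
  (.cc 0,⟨false,[],(11,18),.mon 1 0 0,[(12,17),(5,17),(7,10),(3,4),(21,18)]⟩),
  (.rho 0,⟨false,[],(19,10),.mon 0 1 0,[(12,17),(5,17),(7,10),(3,4),(21,18)]⟩),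
  (.comm 10 0 0,⟨false,[],(19,8),.mon 0 1 0,[(7,8),(14,17),(16,20)]⟩),
  (.ca 0,⟨false,[],(10,20),.mon 0 1 0,[(17,20),(5,7),(6,8)]⟩),
  (.cc 0,⟨false,[],(6,5),.mon 0 1 0,[(13,5),(20,11),(10,3)]⟩),
  (.rho 0,⟨false,[],(4,7),.mon 1 0 0,[(13,5),(20,11),(10,3)]⟩),
  (.comm 9 0 0,⟨false,[],(4,8),.mon 1 0 0,[(16,11)]⟩),
  (.base 3,⟨false,[],(5,2),.mon 0 0 0,[(10,8),(3,8),(14,12),(13,20),(19,20)]⟩),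
  (.rho 0,⟨false,[],(3,4),.mon 0 0 0,[(10,8),(3,8),(14,12),(13,20),(19,20)]⟩),
  (.comm 2 0 0,⟨false,[],(3,8),.mon 1 0 0,[]⟩),
  (.cc 0,⟨false,[],(8,3),.mon 1 0 0,[]⟩),
  (.rho 0,⟨false,[],(2,9),.mon 0 1 0,[]⟩),
  (.rho 2,⟨false,[],(9,2),.mon 0 1 0,[]⟩),
  (.sI 1 0,⟨true,[],(9,18),.mon 0 2 0,[]⟩),
  (.ca 4,⟨false,[],(13,20),.mon 1 0 0,[]⟩),
  (.cc 0,⟨false,[],(17,5),.mon 1 0 0,[]⟩),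
  (.rho 0,⟨false,[],(4,16),.mon 0 1 0,[]⟩),
  (.ca 0,⟨false,[],(15,6),.mon 0 1 0,[]⟩),
  (.rho 0,⟨false,[],(7,14),.mon 1 0 0,[]⟩),
  (.cc 0,⟨false,[],(11,18),.mon 1 0 0,[]⟩),
  (.rho 0,⟨false,[],(19,10),.mon 0 1 0,[]⟩),
  (.comm 29 0 0,⟨false,[],(19,8),.mon 0 1 0,[]⟩),
  (.rho 0,⟨false,[],(9,18),.mon 1 0 0,[]⟩),
  (.sF 9 0,⟨false,[],(9,18),.all,[]⟩),
  (.cc 0,⟨false,[],(2,14),.all,[]⟩),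
  (.rho 15,⟨false,[],(9,2),.mon 0 1 0,[]⟩),
  (.comm 1 0 0,⟨false,[],(9,14),.all,[]⟩),
  (.comm 0 34 0,⟨false,[],(9,12),.all,[]⟩),
  (.cc 0,⟨false,[],(2,16),.all,[]⟩),
  (.ca 17,⟨false,[],(12,21),.mon 0 1 0,[]⟩),
  (.cc 0,⟨false,[],(16,4),.mon 0 1 0,[]⟩),
  (.rho 0,⟨false,[],(5,17),.mon 1 0 0,[]⟩),
  (.rho 0,⟨false,[],(16,4),.mon 0 1 0,[]⟩),
  (.sI 0 16,⟨true,[],(4,18),.mon 0 2 0,[]⟩),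
  (.ca 37,⟨false,[],(17,20),.mon 0 0 0,[(10,20),(5,7),(6,8)]⟩),
  (.cc 0,⟨false,[],(13,5),.mon 0 0 0,[(6,5),(20,11),(10,3)]⟩),
  (.ca 0,⟨false,[],(3,14),.mon 0 0 0,[(16,14),(8,18),(19,13)]⟩),
  (.cc 0,⟨false,[],(8,18),.mon 0 0 0,[(12,18),(3,14),(15,17)]⟩),
  (.comm 31 0 0,⟨false,[],(4,18),.mon 1 0 0,[]⟩),
  (.sF 5 0,⟨false,[],(4,18),.all,[]⟩),
  (.cc 0,⟨false,[],(21,14),.all,[]⟩),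
  (.comm 0 11 0,⟨false,[],(12,14),.all,[]⟩),
  (.ca 10,⟨false,[],(14,7),.mon 1 0 0,[]⟩),
  (.rho 0,⟨false,[],(6,15),.mon 0 1 0,[]⟩),
  (.rho 0,⟨false,[],(14,7),.mon 1 0 0,[]⟩),
  (.comm 3 0 0,⟨false,[],(12,7),.all,[]⟩),
  (.comm 0 53 0,⟨false,[],(14,7),.all,[(21,7)]⟩),
  (.rho 3,⟨false,[],(14,7),.mon 1 0 0,[]⟩),
  (.comm 7 0 0,⟨false,[],(21,7),.all,[]⟩),
  (.drop 2 [0],⟨false,[],(14,7),.all,[]⟩),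
  (.ca 0,⟨false,[],(5,17),.all,[]⟩),
  (.rho 0,⟨false,[],(16,4),.all,[]⟩),
  (.spec 0,⟨false,[],(16,4),.mon 0 0 0,[]⟩),
  (.comm 24 0 0,⟨false,[],(2,4),.all,[]⟩),
  (.ca 26,⟨false,[],(21,2),.all,[]⟩),
  (.ca 14,⟨false,[],(9,5),.all,[]⟩),
  (.cc 0,⟨false,[],(2,20),.all,[]⟩),
  (.ca 0,⟨false,[],(12,8),.all,[]⟩),
  (.comm 0 65 0,⟨false,[],(14,8),.all,[(21,8)]⟩),
  (.rho 49,⟨false,[],(9,2),.mon 0 1 0,[]⟩),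
  (.comm 3 0 0,⟨false,[],(9,20),.all,[]⟩),
  (.drop 2 [0],⟨false,[],(14,8),.all,[]⟩),
  (.ca 0,⟨false,[],(5,20),.all,[]⟩),
  (.cc 0,⟨false,[],(20,5),.all,[]⟩),
  (.cN 9 1 0,⟨false,[],(4,2),.all,[]⟩),
  (.ca 40,⟨false,[],(12,5),.all,[]⟩),
  (.comm 73 47 0,⟨false,[],(7,12),.mon 1 0 0,[]⟩),
  (.comm 1 0 0,⟨false,[],(7,5),.all,[]⟩),
  (.comm 2 36 0,⟨false,[],(12,17),.all,[]⟩),
  (.comm 0 76 0,⟨false,[],(14,17),.all,[(21,17)]⟩),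
  (.cc 4,⟨false,[],(16,20),.all,[]⟩),
  (.drop 1 [0],⟨false,[],(14,17),.all,[]⟩),
  (.ca 0,⟨false,[],(5,7),.all,[]⟩),
  (.rho 29,⟨false,[],(14,7),.mon 1 0 0,[]⟩),
  (.comm 47 0 0,⟨false,[],(9,7),.all,[]⟩),
  (.comm 20 63 0,⟨false,[],(21,9),.all,[]⟩),
  (.comm 9 46 0,⟨false,[],(7,21),.mon 1 1 0,[]⟩),
  (.comm 1 0 0,⟨false,[],(7,9),.all,[]⟩),
  (.comm 6 59 0,⟨false,[],(7,17),.all,[]⟩),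
  (.rho 0,⟨false,[],(16,6),.all,[]⟩),
  (.ca 13,⟨false,[],(17,2),.mon 1 0 0,[]⟩),
  (.rho 0,⟨false,[],(3,16),.mon 0 1 0,[]⟩),
  (.comm 2 0 0,⟨false,[],(3,6),.all,[]⟩),
  (.cc 0,⟨false,[],(8,10),.all,[]⟩),
  (.ca 64,⟨false,[],(18,11),.mon 1 0 0,[]⟩),
  (.rho 0,⟨false,[],(10,19),.mon 0 1 0,[]⟩),
  (.rho 0,⟨false,[],(18,11),.mon 1 0 0,[]⟩),
  (.comm 63 0 0,⟨false,[],(9,11),.all,[]⟩),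
  (.ca 48,⟨false,[],(15,11),.all,[]⟩),
  (.rho 0,⟨false,[],(10,14),.all,[]⟩),
  (.comm 0 97 0,⟨false,[],(10,12),.all,[]⟩),
  (.cc 29,⟨false,[],(18,3),.all,[]⟩),
  (.ca 0,⟨false,[],(11,13),.all,[]⟩),
  (.comm 43 26 0,⟨false,[],(14,12),.all,[]⟩),
  (.rho 82,⟨false,[],(8,3),.mon 1 0 0,[]⟩),
  (.comm 33 0 0,⟨false,[],(14,3),.all,[]⟩),
  (.comm 0 14 0,⟨false,[],(14,16),.all,[]⟩),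
  (.ca 73,⟨false,[],(21,11),.all,[]⟩),
  (.cc 0,⟨false,[],(4,7),.all,[]⟩),
  (.ca 0,⟨false,[],(15,17),.all,[]⟩),
  (.rho 68,⟨false,[],(16,4),.mon 0 1 0,[]⟩),
  (.comm 61 0 0,⟨false,[],(16,18),.all,[]⟩),
  (.comm 10 20 0,⟨false,[],(18,16),.all,[]⟩),
  (.comm 62 110 0,⟨false,[],(21,12),.all,[]⟩),
  (.comm 15 84 0,⟨false,[],(15,18),.all,[]⟩),
  (.rho 0,⟨false,[],(19,14),.all,[]⟩),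
  (.comm 0 113 0,⟨false,[],(19,12),.all,[]⟩),
  (.cc 35,⟨false,[],(18,13),.all,[]⟩),
  (.rho 0,⟨false,[],(12,19),.all,[]⟩),
  (.cN 5 2 0,⟨false,[],(21,19),.all,[]⟩),
  (.comm 3 80 0,⟨false,[],(19,21),.all,[]⟩),
  (.comm 55 99 0,⟨false,[],(2,5),.all,[]⟩),
  (.rho 61,⟨false,[],(16,4),.all,[]⟩),
  (.comm 0 31 0,⟨false,[],(3,4),.all,[]⟩),
  (.comm 90 102 0,⟨false,[],(2,18),.all,[]⟩),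
  (.spec 0,⟨false,[],(2,18),.mon 0 0 0,[]⟩),
  (.comm 24 0 1,⟨false,[],(2,3),.all,[]⟩),
  (.rho 17,⟨false,[],(16,14),.all,[]⟩),
  (.spec 0,⟨false,[],(16,14),.mon 0 0 0,[]⟩),
  (.comm 47 0 1,⟨false,[],(16,17),.all,[]⟩),
  (.comm 38 0 5,⟨false,[],(3,2),.all,[(3,17)]⟩),
  (.rho 21,⟨false,[],(16,14),.all,[]⟩),
  (.comm 0 129 0,⟨false,[],(16,12),.all,[]⟩),
  (.comm 95 111 0,⟨false,[],(2,12),.all,[]⟩),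
  (.ca 0,⟨false,[],(12,2),.all,[]⟩),
  (.cN 2 1 0,⟨false,[],(16,2),.all,[]⟩),
  (.drop 5 [0],⟨false,[],(3,2),.all,[]⟩)],
  [(15,15),(13,13),(10,10),(0,0),(73,73),(62,62),(59,59),(54,54),(52,52),(49,49),(43,43),(39,39),(36,36),(34,34),(85,85),(33,33),(30,30),(27,27),(25,25),(24,24),(17,17),(16,16)]⟩⟩ = true := by decide +kernel

theorem cCt11 : (Fam.op0 .C 11).check true true false false (Fam.tcG 11)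
  ⟨[(20,22),(5,2),(11,12),(8,7),(18,14),(16,17)],[],[],[(2,20),(17,2),(6,2),(10,9),(16,23),(10,18),(3,17),(7,14),(8,16)],[(2,20),(5,23),(19,12),(6,14),(9,16),(11,10)],(2,4),(4,6),
  ⟨[],[],[],[((6,21),some (1,0,0)),((11,4),some (0,0,0)),((15,21),some (0,0,0))],0,(6,21),(6,21),(6,21),(6,21),(0,0,0),[(9,23),(12,3),(19,23)],
  [(.base 2,⟨false,[],(9,23),.mon 1 0 0,[(19,23),(12,3),(6,21),(11,4),(15,21)]⟩),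
  (.base 1,⟨false,[],(12,3),.mon 0 0 0,[(19,23),(9,23),(6,21),(11,4),(15,21)]⟩),
  (.base 0,⟨false,[],(19,23),.mon 0 0 0,[(12,3),(9,23),(6,21),(11,4),(15,21)]⟩),
  (.base 5,⟨false,[],(15,21),.mon 0 0 0,[(19,23),(12,3),(9,23),(6,21),(11,4)]⟩),
  (.cc 0,⟨false,[],(7,3),.mon 0 0 0,[(12,5),(19,21),(16,5),(14,3),(10,22)]⟩),
  (.ca 0,⟨false,[],(8,4),.mon 0 0 0,[(11,2),(15,23),(17,2),(18,4),(13,20)]⟩),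
  (.cc 0,⟨false,[],(17,22),.mon 0 0 0,[(10,20),(7,5),(8,20),(13,22),(18,2)]⟩),
  (.ca 0,⟨false,[],(16,20),.mon 0 0 0,[(13,22),(8,2),(7,22),(10,20),(14,5)]⟩),
  (.cc 0,⟨false,[],(9,2),.mon 0 0 0,[(18,4),(17,20),(15,4),(11,2),(6,23)]⟩),
  (.ca 0,⟨false,[],(6,5),.mon 0 0 0,[(14,3),(16,22),(19,3),(12,5),(9,21)]⟩),
  (.cc 0,⟨false,[],(14,23),.mon 0 0 0,[(6,21),(9,4),(12,21),(19,23),(16,3)]⟩),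
  (.ca 0,⟨false,[],(18,21),.mon 0 0 0,[(9,23),(6,3),(11,23),(15,21),(17,4)]⟩),
  (.rho 0,⟨false,[],(20,19),.mon 0 0 0,[(9,23),(6,3),(11,23),(15,21),(17,4)]⟩),
  (.comm 10 0 0,⟨false,[],(20,23),.mon 0 0 0,[]⟩),
  (.cc 0,⟨false,[],(2,5),.mon 0 0 0,[]⟩),
  (.ca 0,⟨false,[],(5,2),.mon 0 0 0,[]⟩),
  (.rho 0,⟨false,[],(3,4),.mon 0 0 0,[]⟩),
  (.comm 15 0 0,⟨false,[],(12,4),.mon 0 0 0,[]⟩),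
  (.rho 0,⟨false,[],(5,13),.mon 0 0 0,[]⟩),
  (.ca 0,⟨false,[],(2,10),.mon 0 0 0,[]⟩),
  (.cc 0,⟨false,[],(20,11),.mon 0 0 0,[]⟩),
  (.rho 0,⟨false,[],(10,21),.mon 0 0 0,[]⟩),
  (.cc 5,⟨false,[],(21,22),.mon 0 0 0,[]⟩),
  (.comm 1 0 0,⟨false,[],(10,22),.mon 0 0 0,[]⟩),
  (.comm 0 4 0,⟨false,[],(2,22),.mon 0 0 0,[]⟩),
  (.ca 3,⟨false,[],(13,23),.mon 0 0 0,[]⟩),
  (.comm 0 7 0,⟨false,[],(5,23),.mon 0 0 0,[]⟩),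
  (.rho 0,⟨false,[],(22,4),.mon 0 0 0,[]⟩),
  (.comm 3 0 0,⟨false,[],(2,4),.mon 0 0 0,[]⟩),
  (.cc 10,⟨false,[],(23,18),.mon 0 0 0,[]⟩),
  (.rho 0,⟨false,[],(19,22),.mon 0 0 0,[]⟩),
  (.ca 0,⟨false,[],(15,20),.mon 0 0 0,[]⟩),
  (.cc 0,⟨false,[],(7,2),.mon 0 0 0,[]⟩),
  (.rho 0,⟨false,[],(3,6),.mon 0 0 0,[]⟩),
  (.ca 0,⟨false,[],(4,9),.mon 0 0 0,[]⟩),
  (.comm 6 0 0,⟨false,[],(2,9),.mon 0 0 0,[]⟩),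
  (.comm 35 0 0,⟨false,[],(2,23),.mon 1 0 0,[]⟩),
  (.rho 14,⟨false,[],(23,20),.mon 0 0 0,[]⟩),
  (.comm 1 0 0,⟨false,[],(2,20),.mon 1 0 0,[]⟩),
  (.cc 13,⟨false,[],(18,5),.mon 0 0 0,[]⟩),
  (.rho 0,⟨false,[],(4,19),.mon 0 0 0,[]⟩),
  (.comm 0 24 0,⟨false,[],(3,19),.mon 0 0 0,[]⟩),
  (.rho 28,⟨false,[],(22,21),.mon 0 0 0,[]⟩),
  (.comm 12 0 0,⟨false,[],(19,21),.mon 0 0 0,[]⟩),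
  (.comm 2 0 0,⟨false,[],(3,21),.mon 0 0 0,[]⟩),
  (.rho 0,⟨false,[],(20,2),.mon 0 0 0,[]⟩),
  (.sI 7 0,⟨true,[],(20,23),.mon 1 0 0,[]⟩),
  (.sF 0 33,⟨false,[],(20,23),.all,[]⟩),
  (.rho 23,⟨false,[],(23,3),.mon 0 0 0,[]⟩),
  (.comm 1 0 0,⟨false,[],(20,3),.all,[]⟩),
  (.rho 27,⟨false,[],(23,20),.mon 0 0 0,[]⟩),
  (.comm 25 0 0,⟨false,[],(13,20),.mon 0 0 0,[]⟩),
  (.comm 0 33 0,⟨false,[],(5,20),.mon 0 0 0,[]⟩),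
  (.comm 3 0 0,⟨false,[],(5,3),.all,[]⟩),
  (.comm 13 23 0,⟨false,[],(4,22),.mon 0 0 0,[]⟩),
  (.rho 0,⟨false,[],(23,5),.mon 0 0 0,[]⟩),
  (.comm 8 0 0,⟨false,[],(20,5),.all,[]⟩),
  (.ca 16,⟨false,[],(3,15),.mon 0 0 0,[]⟩),
  (.comm 0 26 0,⟨false,[],(3,20),.mon 0 0 0,[]⟩),
  (.comm 2 0 0,⟨false,[],(3,5),.all,[]⟩),
  (.cc 12,⟨false,[],(2,5),.all,[]⟩),
  (.rho 27,⟨false,[],(7,2),.mon 0 0 0,[]⟩),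
  (.comm 1 0 0,⟨false,[],(7,5),.all,[]⟩),
  (.rho 46,⟨false,[],(5,2),.mon 0 0 0,[]⟩),
  (.comm 44 0 0,⟨false,[],(5,10),.mon 0 0 0,[]⟩),
  (.comm 41 0 0,⟨false,[],(5,22),.mon 0 0 0,[]⟩),
  (.rho 0,⟨false,[],(23,4),.mon 0 0 0,[]⟩),
  (.comm 19 0 0,⟨false,[],(20,4),.all,[]⟩),
  (.cc 10,⟨false,[],(21,7),.mon 0 0 0,[]⟩),
  (.rho 0,⟨false,[],(6,20),.mon 0 0 0,[]⟩),
  (.comm 2 0 0,⟨false,[],(6,4),.all,[]⟩),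
  (.comm 23 1 0,⟨false,[],(6,23),.all,[]⟩),
  (.ca 2,⟨false,[],(9,22),.mon 0 0 0,[]⟩),
  (.rho 0,⟨false,[],(23,8),.mon 0 0 0,[]⟩),
  (.comm 2 0 0,⟨false,[],(6,8),.all,[]⟩),
  (.rho 41,⟨false,[],(7,2),.mon 0 0 0,[]⟩),
  (.comm 51 0 0,⟨false,[],(7,22),.mon 0 0 0,[]⟩),
  (.rho 0,⟨false,[],(23,6),.mon 0 0 0,[]⟩),
  (.comm 30 0 0,⟨false,[],(20,6),.all,[]⟩),
  (.rho 44,⟨false,[],(8,5),.mon 0 0 0,[]⟩),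
  (.comm 27 0 0,⟨false,[],(8,20),.mon 0 0 0,[]⟩),
  (.comm 2 0 0,⟨false,[],(8,6),.all,[]⟩),
  (.rho 16,⟨false,[],(23,4),.mon 0 0 0,[]⟩),
  (.comm 48 0 0,⟨false,[],(23,9),.mon 0 0 0,[]⟩),
  (.rho 0,⟨false,[],(8,22),.mon 0 0 0,[]⟩),
  (.rho 0,⟨false,[],(23,9),.mon 0 0 0,[]⟩),
  (.comm 38 0 0,⟨false,[],(20,9),.all,[]⟩),
  (.rho 67,⟨false,[],(11,3),.mon 0 0 0,[]⟩),
  (.comm 54 0 0,⟨false,[],(11,6),.mon 0 0 0,[]⟩),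
  (.rho 0,⟨false,[],(7,10),.mon 0 0 0,[]⟩),
  (.rho 0,⟨false,[],(11,6),.mon 0 0 0,[]⟩),
  (.comm 21 0 0,⟨false,[],(11,20),.mon 0 0 0,[]⟩),
  (.comm 5 0 0,⟨false,[],(11,9),.all,[]⟩),
  (.rho 69,⟨false,[],(23,11),.mon 0 0 0,[]⟩),
  (.comm 46 0 0,⟨false,[],(20,11),.all,[]⟩),
  (.comm 76 80 0,⟨false,[],(2,13),.mon 0 0 0,[]⟩),
  (.comm 70 0 0,⟨false,[],(2,23),.mon 0 0 0,[]⟩),
  (.rho 63,⟨false,[],(7,2),.mon 0 0 0,[]⟩),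
  (.comm 1 0 0,⟨false,[],(7,23),.mon 0 0 0,[]⟩),
  (.rho 0,⟨false,[],(22,6),.mon 0 0 0,[]⟩),
  (.comm 30 0 0,⟨false,[],(22,20),.mon 0 0 0,[]⟩),
  (.rho 0,⟨false,[],(21,23),.mon 0 0 0,[]⟩),
  (.rho 29,⟨false,[],(23,8),.mon 0 0 0,[]⟩),
  (.comm 1 0 0,⟨false,[],(21,8),.mon 0 0 0,[]⟩),
  (.rho 0,⟨false,[],(9,20),.mon 0 0 0,[]⟩),
  (.comm 10 0 0,⟨false,[],(9,11),.all,[]⟩),
  (.comm 11 54 0,⟨false,[],(13,11),.all,[]⟩),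
  (.rho 88,⟨false,[],(12,4),.mon 0 0 0,[]⟩),
  (.comm 67 0 0,⟨false,[],(12,19),.mon 0 0 0,[]⟩),
  (.comm 0 78 0,⟨false,[],(12,22),.mon 0 0 0,[]⟩),
  (.rho 0,⟨false,[],(23,13),.mon 0 0 0,[]⟩),
  (.comm 63 0 0,⟨false,[],(20,13),.all,[]⟩),
  (.comm 0 20 0,⟨false,[],(11,13),.all,[]⟩),
  (.comm 65 81 0,⟨false,[],(15,23),.all,[]⟩),
  (.rho 4,⟨false,[],(23,13),.mon 0 0 0,[]⟩),
  (.comm 1 0 0,⟨false,[],(15,13),.all,[]⟩),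
  (.comm 68 64 0,⟨false,[],(13,23),.all,[]⟩),
  (.rho 92,⟨false,[],(23,3),.mon 0 0 0,[]⟩),
  (.comm 60 0 0,⟨false,[],(23,15),.mon 0 0 0,[]⟩),
  (.rho 0,⟨false,[],(14,22),.mon 0 0 0,[]⟩),
  (.rho 0,⟨false,[],(23,15),.mon 0 0 0,[]⟩),
  (.comm 4 0 0,⟨false,[],(13,15),.all,[]⟩),
  (.rho 2,⟨false,[],(23,15),.mon 0 0 0,[]⟩),
  (.comm 75 0 0,⟨false,[],(20,15),.all,[]⟩),
  (.cc 89,⟨false,[],(22,16),.mon 0 0 0,[]⟩),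
  (.rho 0,⟨false,[],(17,23),.mon 0 0 0,[]⟩),
  (.rho 103,⟨false,[],(23,20),.mon 0 0 0,[]⟩),
  (.comm 1 0 0,⟨false,[],(17,20),.mon 0 0 0,[]⟩),
  (.comm 4 0 0,⟨false,[],(17,15),.all,[]⟩),
  (.ca 3,⟨false,[],(16,21),.mon 0 0 0,[]⟩),
  (.comm 0 107 0,⟨false,[],(16,22),.mon 0 0 0,[]⟩),
  (.rho 0,⟨false,[],(23,17),.mon 0 0 0,[]⟩),
  (.comm 18 0 0,⟨false,[],(15,17),.all,[]⟩),
  (.rho 102,⟨false,[],(23,18),.mon 0 0 0,[]⟩),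
  (.comm 86 0 0,⟨false,[],(20,18),.all,[]⟩),
  (.rho 33,⟨false,[],(22,20),.mon 0 0 0,[]⟩),
  (.comm 5 0 0,⟨false,[],(16,20),.mon 0 0 0,[]⟩),
  (.comm 2 0 0,⟨false,[],(16,18),.all,[]⟩),
  (.rho 97,⟨false,[],(18,5),.mon 0 0 0,[]⟩),
  (.comm 73 0 0,⟨false,[],(18,22),.mon 0 0 0,[]⟩),
  (.rho 0,⟨false,[],(23,19),.mon 0 0 0,[]⟩),
  (.comm 93 0 0,⟨false,[],(20,19),.all,[]⟩),
  (.comm 0 14 0,⟨false,[],(17,19),.all,[]⟩),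
  (.rho 91,⟨false,[],(21,12),.mon 0 0 0,[]⟩),
  (.comm 35 0 0,⟨false,[],(21,19),.mon 0 0 0,[]⟩),
  (.rho 0,⟨false,[],(18,20),.mon 0 0 0,[]⟩),
  (.comm 98 0 0,⟨false,[],(18,23),.all,[]⟩),
  (.rho 124,⟨false,[],(23,20),.mon 0 0 0,[]⟩),
  (.comm 1 0 0,⟨false,[],(18,20),.all,[]⟩),
  (.comm 14 9 0,⟨false,[],(20,22),.all,[]⟩),
  (.comm 98 54 0,⟨false,[],(2,20),.mon 0 0 0,[]⟩),
  (.rho 93,⟨false,[],(14,2),.mon 0 0 0,[]⟩),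
  (.comm 1 0 0,⟨false,[],(14,20),.mon 0 0 0,[]⟩),
  (.rho 0,⟨false,[],(21,15),.mon 0 0 0,[]⟩),
  (.comm 40 0 0,⟨false,[],(21,23),.all,[]⟩),
  (.ca 94,⟨false,[],(5,2),.all,[]⟩),
  (.rho 127,⟨false,[],(5,3),.mon 0 0 0,[]⟩),
  (.comm 96 0 1,⟨false,[],(2,3),.all,[]⟩),
  (.comm 110 99 0,⟨false,[],(3,23),.all,[]⟩),
  (.comm 117 128 0,⟨false,[],(3,22),.mon 0 0 0,[]⟩),
  (.rho 0,⟨false,[],(23,2),.mon 0 0 0,[]⟩),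
  (.comm 2 0 1,⟨false,[],(3,2),.all,[]⟩)],
  [(101,101),(6,6),(4,4),(0,0),(108,108),(102,102),(99,99),(91,91),(87,87),(80,80),(69,69),(56,56),(55,55),(49,49),(46,46),(40,40),(33,33),(29,29),(24,24),(19,19),(13,13),(27,27),(12,12),(7,7)]⟩⟩ = true := by decide +kernel

theorem cCt12 : (Fam.op0 .C 12).check true true false false (Fam.tcG 12)
  ⟨[(17,7),(25,2),(19,13),(22,4),(15,11),(20,9)],[],[],[(4,24),(2,20),(8,10),(12,3),(23,7)],[(17,23),(5,13),(19,20),(6,24),(15,9),(2,11)],(2,4),(4,6),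
  ⟨[],[],[],[((11,10),some (0,0,0)),((12,20),some (0,0,0)),((25,22),some (1,0,0))],0,(11,10),(11,10),(11,10),(11,10),(0,0,0),[(15,14),(18,9),(2,4)],
  [(.base 0,⟨false,[],(2,4),.mon 1 0 0,[(18,9),(15,14),(11,10),(12,20),(25,22)]⟩),
  (.base 1,⟨false,[],(18,9),.mon 0 0 0,[(2,4),(15,14),(11,10),(12,20),(25,22)]⟩),
  (.cc 0,⟨false,[],(21,15),.mon 0 0 0,[(11,12),(9,8),(2,3),(4,19),(7,16)]⟩),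
  (.ca 0,⟨false,[],(8,11),.mon 0 0 0,[(15,18),(20,21),(25,24),(22,13),(17,6)]⟩),
  (.cc 0,⟨false,[],(14,2),.mon 0 0 0,[(9,21),(19,18),(7,6),(16,5),(23,24)]⟩),
  (.ca 0,⟨false,[],(10,25),.mon 0 0 0,[(20,8),(13,12),(17,16),(6,23),(5,3)]⟩),
  (.cc 0,⟨false,[],(3,7),.mon 0 0 0,[(19,14),(5,4),(23,22),(24,17),(13,10)]⟩),
  (.rho 0,⟨false,[],(6,2),.mon 0 0 0,[(19,14),(5,4),(23,22),(24,17),(13,10)]⟩),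
  (.comm 7 0 0,⟨false,[],(6,4),.mon 1 0 0,[(15,9),(11,20),(16,22)]⟩),
  (.base 2,⟨false,[],(15,14),.mon 0 0 0,[(2,4),(18,9),(11,10),(12,20),(25,22)]⟩),
  (.cc 0,⟨false,[],(9,8),.mon 0 0 0,[(11,12),(21,15),(2,3),(4,19),(7,16)]⟩),
  (.comm 9 0 2,⟨false,[],(18,8),.mon 0 0 0,[(18,19),(2,19),(21,14),(21,20),(11,20)]⟩),
  (.cc 0,⟨false,[],(21,14),.mon 0 0 0,[(21,20),(11,20),(18,8),(18,19),(2,19)]⟩),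
  (.ca 0,⟨false,[],(8,10),.mon 0 0 0,[(8,9),(15,9),(12,21),(12,13),(25,13)]⟩),
  (.cc 0,⟨false,[],(14,3),.mon 0 0 0,[(14,15),(9,15),(4,18),(4,5),(7,5)]⟩),
  (.ca 0,⟨false,[],(10,24),.mon 0 0 0,[(10,11),(20,11),(22,12),(22,23),(17,23)]⟩),
  (.cc 0,⟨false,[],(3,6),.mon 0 0 0,[(3,2),(19,2),(16,4),(16,17),(23,17)]⟩),
  (.comm 8 0 0,⟨false,[],(3,4),.mon 1 0 0,[]⟩),
  (.cc 0,⟨false,[],(10,12),.mon 1 0 0,[]⟩),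
  (.ca 0,⟨false,[],(14,18),.mon 1 0 0,[]⟩),
  (.cc 0,⟨false,[],(8,21),.mon 1 0 0,[]⟩),
  (.ca 0,⟨false,[],(21,8),.mon 1 0 0,[]⟩),
  (.rho 0,⟨false,[],(9,20),.mon 0 1 0,[]⟩),
  (.cc 0,⟨false,[],(15,19),.mon 0 1 0,[]⟩),
  (.rho 0,⟨false,[],(18,14),.mon 1 0 0,[]⟩),
  (.sI 5 0,⟨true,[],(18,20),.mon 2 0 0,[]⟩),
  (.comm 24 3 0,⟨false,[],(18,20),.mon 0 1 0,[]⟩),
  (.sF 1 0,⟨false,[],(18,20),.all,[]⟩),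
  (.ca 0,⟨false,[],(12,9),.all,[]⟩),
  (.cc 0,⟨false,[],(4,15),.all,[]⟩),
  (.comm 0 12 0,⟨false,[],(3,15),.all,[]⟩),
  (.comm 0 7 0,⟨false,[],(3,19),.all,[]⟩),
  (.rho 0,⟨false,[],(18,2),.all,[]⟩),
  (.comm 0 32 0,⟨false,[],(18,4),.all,[]⟩),
  (.comm 0 14 0,⟨false,[],(14,4),.all,[]⟩),
  (.comm 5 11 0,⟨false,[],(4,19),.all,[]⟩),
  (.comm 0 35 0,⟨false,[],(2,19),.all,[]⟩),
  (.rho 17,⟨false,[],(19,15),.mon 0 1 0,[]⟩),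
  (.comm 1 0 0,⟨false,[],(2,15),.all,[]⟩),
  (.ca 9,⟨false,[],(22,11),.all,[]⟩),
  (.cc 0,⟨false,[],(16,2),.all,[]⟩),
  (.ca 23,⟨false,[],(24,22),.mon 1 0 0,[]⟩),
  (.rho 0,⟨false,[],(23,25),.mon 0 1 0,[]⟩),
  (.cc 0,⟨false,[],(17,7),.mon 0 1 0,[]⟩),
  (.rho 0,⟨false,[],(6,16),.mon 1 0 0,[]⟩),
  (.comm 4 0 0,⟨false,[],(6,2),.all,[]⟩),
  (.ca 1,⟨false,[],(16,6),.mon 1 0 0,[]⟩),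
  (.rho 0,⟨false,[],(7,17),.mon 0 1 0,[]⟩),
  (.cc 0,⟨false,[],(25,23),.mon 0 1 0,[]⟩),
  (.rho 0,⟨false,[],(22,24),.mon 1 0 0,[]⟩),
  (.ca 0,⟨false,[],(4,3),.mon 1 0 0,[]⟩),
  (.rho 0,⟨false,[],(2,5),.mon 0 1 0,[]⟩),
  (.comm 6 0 0,⟨false,[],(6,5),.all,[]⟩),
  (.rho 0,⟨false,[],(4,7),.all,[]⟩),
  (.comm 0 53 0,⟨false,[],(2,7),.all,[]⟩),
  (.cc 0,⟨false,[],(11,25),.all,[]⟩),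
  (.ca 0,⟨false,[],(15,2),.all,[]⟩),
  (.cN 22 18 0,⟨false,[],(3,4),.all,[]⟩),
  (.comm 17 6 0,⟨false,[],(16,5),.all,[]⟩),
  (.rho 0,⟨false,[],(4,17),.all,[]⟩),
  (.comm 0 59 0,⟨false,[],(2,17),.all,[]⟩),
  (.comm 15 60 0,⟨false,[],(6,4),.all,[]⟩),
  (.ca 0,⟨false,[],(16,22),.all,[]⟩),
  (.cc 0,⟨false,[],(22,16),.all,[]⟩),
  (.cN 3 1 0,⟨false,[],(2,23),.all,[]⟩),
  (.comm 24 64 0,⟨false,[],(16,4),.all,[]⟩),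
  (.cN 0 3 2,⟨false,[],(22,4),.all,[]⟩),
  (.ca 0,⟨false,[],(4,22),.all,[]⟩),
  (.cN 3 1 0,⟨false,[],(2,5),.all,[]⟩),
  (.rho 0,⟨false,[],(4,3),.all,[]⟩),
  (.comm 0 69 1,⟨false,[],(2,3),.all,[]⟩),
  (.spec 0,⟨false,[],(2,3),.mon 0 0 0,[]⟩),
  (.comm 14 0 2,⟨false,[],(2,4),.all,[(5,4)]⟩),
  (.cc 11,⟨false,[],(24,12),.all,[]⟩),
  (.ca 0,⟨false,[],(3,18),.all,[]⟩),
  (.rho 43,⟨false,[],(18,2),.all,[]⟩),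
  (.spec 0,⟨false,[],(18,2),.mon 0 0 0,[]⟩),
  (.comm 2 0 1,⟨false,[],(3,2),.all,[]⟩),
  (.comm 77 0 5,⟨false,[],(5,4),.all,[(3,4)]⟩),
  (.drop 0 [21],⟨false,[],(5,4),.all,[]⟩),
  (.drop 7 [0],⟨false,[],(2,4),.all,[]⟩),
  (.cN 51 42 24,⟨false,[],(4,2),.all,[]⟩),
  (.ca 45,⟨false,[],(25,13),.all,[]⟩),
  (.cc 0,⟨false,[],(7,5),.all,[]⟩),
  (.ca 23,⟨false,[],(25,7),.all,[]⟩),
  (.spec 29,⟨false,[],(11,25),.mon 0 0 0,[]⟩),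
  (.comm 1 0 0,⟨false,[],(11,7),.all,[]⟩),
  (.cc 50,⟨false,[],(11,20),.all,[]⟩),
  (.rho 67,⟨false,[],(20,9),.mon 0 1 0,[]⟩),
  (.comm 1 0 0,⟨false,[],(11,9),.all,[]⟩),
  (.cc 33,⟨false,[],(9,11),.all,[]⟩),
  (.cN 4 1 0,⟨false,[],(9,7),.all,[]⟩),
  (.cc 58,⟨false,[],(21,12),.all,[]⟩),
  (.comm 0 72 0,⟨false,[],(8,12),.all,[]⟩),
  (.cc 28,⟨false,[],(22,12),.all,[]⟩),
  (.ca 29,⟨false,[],(6,22),.all,[]⟩),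
  (.spec 0,⟨false,[],(6,22),.mon 0 0 0,[]⟩),
  (.comm 2 0 0,⟨false,[],(6,12),.all,[]⟩),
  (.cc 13,⟨false,[],(7,25),.all,[]⟩),
  (.cN 16 14 0,⟨false,[],(7,13),.all,[]⟩),
  (.rho 0,⟨false,[],(12,6),.all,[]⟩),
  (.cN 7 3 0,⟨false,[],(8,6),.all,[]⟩),
  (.cc 41,⟨false,[],(11,23),.all,[]⟩),
  (.ca 69,⟨false,[],(12,22),.all,[]⟩),
  (.comm 0 85 0,⟨false,[],(10,22),.all,[]⟩),
  (.rho 0,⟨false,[],(23,11),.all,[]⟩),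
  (.cN 11 3 0,⟨false,[],(10,12),.all,[]⟩),
  (.rho 24,⟨false,[],(12,24),.all,[]⟩),
  (.cN 52 34 0,⟨false,[],(11,13),.all,[]⟩),
  (.cN 54 70 52,⟨false,[],(15,7),.all,[]⟩),
  (.spec 10,⟨false,[],(7,13),.mon 0 0 0,[]⟩),
  (.comm 1 0 0,⟨false,[],(15,13),.all,[]⟩),
  (.ca 24,⟨false,[],(15,9),.all,[]⟩),
  (.cc 0,⟨false,[],(9,15),.all,[]⟩),
  (.cN 20 1 0,⟨false,[],(14,12),.all,[]⟩),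
  (.cc 11,⟨false,[],(4,16),.all,[]⟩),
  (.spec 81,⟨false,[],(14,4),.mon 0 0 0,[]⟩),
  (.comm 1 0 0,⟨false,[],(14,16),.all,[]⟩),
  (.cN 57 79 61,⟨false,[],(15,17),.all,[]⟩),
  (.rho 58,⟨false,[],(16,3),.all,[]⟩),
  (.spec 0,⟨false,[],(16,3),.mon 0 0 0,[]⟩),
  (.comm 46 0 0,⟨false,[],(16,18),.all,[]⟩),
  (.spec 88,⟨false,[],(18,4),.mon 0 0 0,[]⟩),
  (.comm 7 0 0,⟨false,[],(18,16),.all,[]⟩),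
  (.rho 49,⟨false,[],(19,2),.all,[]⟩),
  (.comm 0 124 0,⟨false,[],(19,4),.all,[(8,2),(8,4)]⟩),
  (.comm 98 106 0,⟨false,[],(14,20),.all,[]⟩),
  (.rho 106,⟨false,[],(20,9),.mon 0 1 0,[]⟩),
  (.comm 1 0 0,⟨false,[],(14,9),.all,[]⟩),
  (.cN 0 90 72,⟨false,[],(3,9),.all,[]⟩),
  (.ca 37,⟨false,[],(8,18),.all,[]⟩),
  (.spec 97,⟨false,[],(18,4),.mon 0 0 0,[]⟩),
  (.comm 1 0 0,⟨false,[],(8,4),.all,[]⟩),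
  (.drop 7 [3,0],⟨false,[],(19,4),.all,[]⟩),
  (.cc 59,⟨false,[],(10,21),.all,[]⟩),
  (.cN 32 68 67,⟨false,[],(11,5),.all,[]⟩),
  (.rho 0,⟨false,[],(4,10),.all,[]⟩),
  (.spec 0,⟨false,[],(4,10),.mon 0 0 0,[]⟩),
  (.comm 3 0 0,⟨false,[],(4,21),.all,[]⟩),
  (.spec 0,⟨false,[],(4,21),.mon 0 0 0,[]⟩),
  (.comm 6 0 0,⟨false,[],(19,21),.all,[]⟩),
  (.cN 84 28 27,⟨false,[],(9,2),.all,[]⟩),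
  (.comm 0 141 0,⟨false,[],(9,4),.all,[(18,2),(18,4)]⟩),
  (.drop 0 [111,109],⟨false,[],(9,4),.all,[]⟩),
  (.ca 0,⟨false,[],(20,22),.all,[]⟩),
  (.comm 116 122 0,⟨false,[],(12,20),.all,[]⟩),
  (.spec 0,⟨false,[],(12,20),.mon 0 0 0,[]⟩),
  (.comm 52 0 0,⟨false,[],(22,20),.all,[]⟩),
  (.rho 65,⟨false,[],(12,24),.all,[]⟩),
  (.cN 54 75 0,⟨false,[],(22,24),.all,[]⟩),
  (.cN 76 55 46,⟨false,[],(24,22),.all,[]⟩)],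
  [(82,82),(93,93),(80,80),(73,73),(70,70),(69,69),(67,67),(89,89),(59,59),(49,49),(61,61),(60,60),(44,44),(42,42),(39,39),(36,36),(33,33),(32,32),(29,29),(27,27),(123,123),(10,10),(6,6),(3,3),(1,1),(0,0)]⟩⟩ = true := by decide +kernel

theorem cCt13 : Fam.chkP .C 13 1 true true true false false
  ⟨[],[],[],[((24,15),some (0,0,0)),((27,18),some (1,0,0)),((10,26),some (0,0,0))],0,(24,15),(24,15),(24,15),(24,15),(0,0,0),[(6,17),(5,12),(20,4)],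
  [(.base 0,⟨false,[],(20,4),.mon 0 0 0,[(5,12),(6,17),(24,15),(27,18),(10,26)]⟩),
  (.base 4,⟨false,[],(27,18),.mon 1 0 0,[(20,4),(5,12),(6,17),(24,15),(10,26)]⟩),
  (.cc 0,⟨false,[],(9,16),.mon 1 0 0,[(14,4),(5,22),(2,19),(10,21),(24,8)]⟩),
  (.ca 0,⟨false,[],(23,14),.mon 1 0 0,[(16,26),(27,8),(2,13),(20,11),(6,22)]⟩),
  (.cc 0,⟨false,[],(13,20),.mon 1 0 0,[(18,8),(9,26),(6,23),(14,25),(2,12)]⟩),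
  (.comm 4 0 0,⟨false,[],(13,4),.mon 1 0 0,[(27,8)]⟩),
  (.base 2,⟨false,[],(6,17),.mon 0 0 0,[(20,4),(5,12),(24,15),(27,18),(10,26)]⟩),
  (.cc 0,⟨false,[],(2,19),.mon 0 0 0,[(14,4),(5,22),(10,21),(9,16),(24,8)]⟩),
  (.ca 0,⟨false,[],(2,13),.mon 0 0 0,[(16,26),(27,8),(20,11),(23,14),(6,22)]⟩),
  (.comm 3 0 0,⟨false,[],(2,4),.mon 1 0 0,[]⟩),
  (.cc 0,⟨false,[],(6,4),.mon 1 0 0,[]⟩),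
  (.rho 0,⟨false,[],(5,7),.mon 0 1 0,[]⟩),
  (.ca 0,⟨false,[],(27,25),.mon 0 1 0,[]⟩),
  (.rho 0,⟨false,[],(24,26),.mon 1 0 0,[]⟩),
  (.cc 0,⟨false,[],(10,8),.mon 1 0 0,[]⟩),
  (.rho 0,⟨false,[],(9,11),.mon 0 1 0,[]⟩),
  (.ca 0,⟨false,[],(23,21),.mon 0 1 0,[]⟩),
  (.rho 0,⟨false,[],(20,22),.mon 1 0 0,[]⟩),
  (.cc 0,⟨false,[],(14,12),.mon 1 0 0,[]⟩),
  (.rho 0,⟨false,[],(13,15),.mon 0 1 0,[]⟩),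
  (.ca 0,⟨false,[],(19,17),.mon 0 1 0,[]⟩),
  (.rho 0,⟨false,[],(16,18),.mon 1 0 0,[]⟩),
  (.cc 0,⟨false,[],(18,16),.mon 1 0 0,[]⟩),
  (.rho 0,⟨false,[],(17,19),.mon 0 1 0,[]⟩),
  (.ca 0,⟨false,[],(15,13),.mon 0 1 0,[]⟩),
  (.rho 0,⟨false,[],(12,14),.mon 1 0 0,[]⟩),
  (.cc 0,⟨false,[],(22,20),.mon 1 0 0,[]⟩),
  (.rho 0,⟨false,[],(21,23),.mon 0 1 0,[]⟩),
  (.ca 0,⟨false,[],(11,9),.mon 0 1 0,[]⟩),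
  (.rho 0,⟨false,[],(8,10),.mon 1 0 0,[]⟩),
  (.cc 0,⟨false,[],(26,24),.mon 1 0 0,[]⟩),
  (.rho 0,⟨false,[],(25,27),.mon 0 1 0,[]⟩),
  (.ca 0,⟨false,[],(7,5),.mon 0 1 0,[]⟩),
  (.rho 0,⟨false,[],(4,6),.mon 1 0 0,[]⟩),
  (.rho 22,⟨false,[],(6,4),.mon 1 0 0,[]⟩),
  (.sI 1 0,⟨true,[],(2,4),.mon 2 0 0,[]⟩),
  (.sF 0 26,⟨false,[],(2,4),.all,[]⟩),
  (.comm 0 3 0,⟨false,[],(2,6),.all,[]⟩),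
  (.comm 0 31 0,⟨false,[],(2,17),.all,[]⟩),
  (.ca 29,⟨false,[],(2,26),.mon 1 0 0,[]⟩),
  (.cc 0,⟨false,[],(6,8),.mon 1 0 0,[]⟩),
  (.comm 11 0 0,⟨false,[],(6,10),.mon 2 0 0,[]⟩),
  (.ca 1,⟨false,[],(24,22),.mon 1 0 0,[]⟩),
  (.rho 0,⟨false,[],(23,25),.mon 0 1 0,[]⟩),
  (.cc 0,⟨false,[],(13,11),.mon 0 1 0,[]⟩),
  (.rho 0,⟨false,[],(10,12),.mon 1 0 0,[]⟩),
  (.comm 20 0 0,⟨false,[],(10,14),.mon 2 0 0,[]⟩),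
  (.ca 1,⟨false,[],(20,18),.mon 1 0 0,[]⟩),
  (.rho 0,⟨false,[],(19,21),.mon 0 1 0,[]⟩),
  (.cc 0,⟨false,[],(17,15),.mon 0 1 0,[]⟩),
  (.rho 0,⟨false,[],(14,16),.mon 1 0 0,[]⟩),
  (.comm 4 0 0,⟨false,[],(10,16),.mon 3 0 0,[]⟩),
  (.comm 10 0 0,⟨false,[],(6,16),.mon 5 0 0,[]⟩),
  (.comm 0 19 0,⟨false,[],(4,16),.mon 6 0 0,[]⟩),
  (.comm 17 0 0,⟨false,[],(2,16),.all,[]⟩),
  (.ca 4,⟨false,[],(16,14),.mon 1 0 0,[]⟩),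
  (.rho 0,⟨false,[],(15,17),.mon 0 1 0,[]⟩),
  (.cc 0,⟨false,[],(21,19),.mon 0 1 0,[]⟩),
  (.rho 0,⟨false,[],(18,20),.mon 1 0 0,[]⟩),
  (.ca 0,⟨false,[],(12,10),.mon 1 0 0,[]⟩),
  (.rho 0,⟨false,[],(11,13),.mon 0 1 0,[]⟩),
  (.cc 0,⟨false,[],(25,23),.mon 0 1 0,[]⟩),
  (.rho 0,⟨false,[],(22,24),.mon 1 0 0,[]⟩),
  (.ca 0,⟨false,[],(8,6),.mon 1 0 0,[]⟩),
  (.rho 0,⟨false,[],(7,9),.mon 0 1 0,[]⟩),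
  (.cc 0,⟨false,[],(3,27),.mon 0 1 0,[]⟩),
  (.ca 0,⟨false,[],(3,5),.mon 0 1 0,[]⟩),
  (.rho 0,⟨false,[],(4,2),.mon 1 0 0,[]⟩),
  (.comm 13 0 0,⟨false,[],(4,16),.all,[]⟩),
  (.rho 0,⟨false,[],(17,5),.all,[]⟩),
  (.spec 0,⟨false,[],(17,5),.mon 0 0 0,[]⟩),
  (.comm 32 0 0,⟨false,[],(2,5),.all,[]⟩),
  (.cc 35,⟨false,[],(6,4),.all,[]⟩),
  (.base 1,⟨false,[],(5,12),.mon 1 0 0,[(20,4),(6,17),(24,15),(27,18),(10,26)]⟩),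
  (.rho 65,⟨false,[],(12,3),.mon 0 0 0,[(16,26),(27,8),(20,11),(23,14),(6,22)]⟩),
  (.comm 1 0 0,⟨false,[],(5,3),.mon 1 0 0,[(24,22)]⟩),
  (.ca 0,⟨false,[],(27,3),.mon 1 0 0,[(6,8)]⟩),
  (.cc 0,⟨false,[],(9,7),.mon 1 0 0,[(2,26)]⟩),
  (.ca 0,⟨false,[],(23,25),.mon 1 0 0,[(2,4)]⟩),
  (.cc 0,⟨false,[],(13,11),.mon 1 0 0,[(6,4)]⟩),
  (.ca 0,⟨false,[],(19,21),.mon 1 0 0,[(24,26)]⟩),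
  (.cc 0,⟨false,[],(17,15),.mon 1 0 0,[(10,8)]⟩),
  (.ca 0,⟨false,[],(15,17),.mon 1 0 0,[(20,22)]⟩),
  (.cc 0,⟨false,[],(21,19),.mon 1 0 0,[(14,12)]⟩),
  (.ca 0,⟨false,[],(11,13),.mon 1 0 0,[(16,18)]⟩),
  (.comm 79 0 0,⟨false,[],(11,4),.mon 2 0 0,[]⟩),
  (.rho 0,⟨false,[],(5,10),.mon 0 2 0,[]⟩),
  (.cc 0,⟨false,[],(5,24),.mon 0 2 0,[]⟩),
  (.ca 0,⟨false,[],(27,6),.mon 0 2 0,[]⟩),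
  (.rho 0,⟨false,[],(7,26),.mon 2 0 0,[]⟩),
  (.cc 0,⟨false,[],(3,8),.mon 2 0 0,[]⟩),
  (.rho 0,⟨false,[],(9,2),.mon 0 2 0,[]⟩),
  (.comm 27 0 0,⟨false,[],(7,2),.mon 0 3 0,[]⟩),
  (.rho 0,⟨false,[],(3,6),.mon 3 0 0,[]⟩),
  (.comm 21 0 0,⟨false,[],(3,4),.all,[]⟩),
  (.rho 29,⟨false,[],(26,2),.mon 1 0 0,[]⟩),
  (.comm 59 0 0,⟨false,[],(26,4),.all,[]⟩),
  (.rho 30,⟨false,[],(4,2),.mon 1 0 0,[]⟩),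
  (.comm 1 0 0,⟨false,[],(26,2),.all,[]⟩),
  (.ca 0,⟨false,[],(4,2),.all,[]⟩),
  (.rho 33,⟨false,[],(4,2),.mon 1 0 0,[]⟩),
  (.comm 63 0 0,⟨false,[],(4,6),.all,[]⟩),
  (.rho 47,⟨false,[],(17,3),.all,[]⟩),
  (.comm 0 96 0,⟨false,[],(6,3),.all,[]⟩),
  (.rho 4,⟨false,[],(3,5),.all,[]⟩),
  (.spec 0,⟨false,[],(3,5),.mon 0 0 0,[]⟩),
  (.comm 2 0 0,⟨false,[],(6,5),.all,[]⟩),
  (.rho 13,⟨false,[],(7,2),.mon 0 3 0,[]⟩),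
  (.comm 71 0 0,⟨false,[],(7,4),.all,[]⟩),
  (.rho 54,⟨false,[],(17,3),.all,[]⟩),
  (.spec 0,⟨false,[],(17,3),.mon 0 0 0,[]⟩),
  (.comm 72 0 1,⟨false,[],(2,3),.all,[]⟩),
  (.comm 98 24 0,⟨false,[],(5,26),.mon 1 2 0,[]⟩),
  (.rho 0,⟨false,[],(27,4),.mon 2 1 0,[]⟩),
  (.comm 48 0 0,⟨false,[],(3,4),.mon 2 2 0,[]⟩),
  (.rho 0,⟨false,[],(5,2),.mon 2 2 0,[]⟩),
  (.comm 79 0 1,⟨false,[],(5,4),.all,[]⟩),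
  (.comm 50 0 5,⟨false,[],(3,2),.all,[(3,4)]⟩),
  (.drop 0 [23],⟨false,[],(3,2),.all,[]⟩)],
  [(82,82),(47,47),(24,24),(19,19),(19,19),(47,47),(24,24),(82,82),(17,17),(12,12),(10,10),(46,46),(46,46),(12,12),(10,10),(17,17),(7,7),(0,0)]⟩ = true := by decide +kernel

theorem cCt14 : Fam.chkP .C 14 1 true true true false false
  ⟨[],[],[],[((18,29),some (0,0,0)),((7,2),some (0,0,0)),((22,24),some (1,0,0))],0,(18,29),(18,29),(18,29),(18,29),(0,0,0),[(14,5),(27,2),(10,8)],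
  [(.base 1,⟨false,[],(27,2),.mon 0 0 0,[(10,8),(14,5),(18,29),(7,2),(22,24)]⟩),
  (.base 0,⟨false,[],(10,8),.mon 1 0 0,[(27,2),(14,5),(18,29),(7,2),(22,24)]⟩),
  (.cc 1,⟨false,[],(11,6),.mon 0 0 0,[(26,28),(22,5),(18,9),(3,6),(14,12)]⟩),
  (.rho 0,⟨false,[],(7,10),.mon 0 0 0,[(26,28),(22,5),(18,9),(3,6),(14,12)]⟩),
  (.comm 2 0 0,⟨false,[],(7,8),.mon 1 0 0,[(10,19),(29,2),(18,27),(7,19),(18,2)]⟩),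
  (.base 3,⟨false,[],(18,29),.mon 0 0 0,[(10,8),(27,2),(14,5),(7,2),(22,24)]⟩),
  (.cc 0,⟨false,[],(18,9),.mon 0 0 0,[(26,28),(11,6),(22,5),(3,6),(14,12)]⟩),
  (.rho 0,⟨false,[],(8,19),.mon 0 0 0,[(26,28),(11,6),(22,5),(3,6),(14,12)]⟩),
  (.comm 6 0 0,⟨false,[],(10,19),.mon 1 0 0,[(7,8),(29,2),(18,27),(7,19),(18,2)]⟩),
  (.cc 0,⟨false,[],(26,19),.mon 1 0 0,[(3,28),(9,6),(18,11),(3,19),(18,6)]⟩),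
  (.ca 0,⟨false,[],(6,15),.mon 1 0 0,[(3,4),(25,26),(14,23),(3,15),(14,26)]⟩),
  (.rho 0,⟨false,[],(14,7),.mon 0 1 0,[(3,4),(25,26),(14,23),(3,15),(14,26)]⟩),
  (.comm 7 0 0,⟨false,[],(14,8),.mon 1 1 0,[(18,24),(18,15)]⟩),
  (.rho 6,⟨false,[],(8,19),.mon 0 0 0,[(26,28),(11,6),(22,5),(3,6),(14,12)]⟩),
  (.comm 1 0 0,⟨false,[],(14,19),.mon 1 1 0,[]⟩),
  (.cc 0,⟨false,[],(22,19),.mon 1 1 0,[]⟩),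
  (.rho 0,⟨false,[],(18,23),.mon 1 1 0,[]⟩),
  (.ca 0,⟨false,[],(14,11),.mon 1 1 0,[]⟩),
  (.rho 0,⟨false,[],(10,15),.mon 1 1 0,[]⟩),
  (.cc 0,⟨false,[],(26,23),.mon 1 1 0,[]⟩),
  (.rho 0,⟨false,[],(22,27),.mon 1 1 0,[]⟩),
  (.comm 20 0 0,⟨false,[],(22,2),.mon 1 1 0,[]⟩),
  (.rho 0,⟨false,[],(3,23),.mon 1 1 0,[]⟩),
  (.ca 0,⟨false,[],(3,11),.mon 1 1 0,[]⟩),
  (.cc 0,⟨false,[],(7,27),.mon 1 1 0,[]⟩),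
  (.ca 0,⟨false,[],(27,7),.mon 1 1 0,[]⟩),
  (.rho 0,⟨false,[],(6,26),.mon 1 1 0,[]⟩),
  (.cc 0,⟨false,[],(2,10),.mon 1 1 0,[]⟩),
  (.ca 0,⟨false,[],(2,22),.mon 1 1 0,[]⟩),
  (.rho 5,⟨false,[],(10,2),.mon 1 1 0,[]⟩),
  (.comm 1 0 0,⟨false,[],(10,22),.mon 2 2 0,[]⟩),
  (.comm 0 3 0,⟨false,[],(2,22),.mon 3 3 0,[]⟩),
  (.cc 9,⟨false,[],(7,15),.mon 1 1 0,[]⟩),
  (.ca 0,⟨false,[],(27,19),.mon 1 1 0,[]⟩),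
  (.rho 0,⟨false,[],(18,26),.mon 1 1 0,[]⟩),
  (.cc 0,⟨false,[],(18,10),.mon 1 1 0,[]⟩),
  (.rho 0,⟨false,[],(11,19),.mon 1 1 0,[]⟩),
  (.ca 0,⟨false,[],(23,15),.mon 1 1 0,[]⟩),
  (.rho 0,⟨false,[],(14,22),.mon 1 1 0,[]⟩),
  (.cc 0,⟨false,[],(22,14),.mon 1 1 0,[]⟩),
  (.rho 0,⟨false,[],(15,23),.mon 1 1 0,[]⟩),
  (.rho 0,⟨false,[],(22,14),.mon 1 1 0,[]⟩),
  (.comm 10 0 0,⟨false,[],(2,14),.mon 4 4 0,[]⟩),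
  (.rho 20,⟨false,[],(22,2),.mon 1 1 0,[]⟩),
  (.comm 5 0 0,⟨false,[],(14,2),.mon 2 2 0,[]⟩),
  (.rho 0,⟨false,[],(3,15),.mon 2 2 0,[]⟩),
  (.rho 0,⟨false,[],(14,2),.mon 2 2 0,[]⟩),
  (.sI 4 0,⟨true,[],(14,19),.mon 6 6 0,[]⟩),
  (.base 2,⟨false,[],(14,5),.mon 0 0 0,[(10,8),(27,2),(18,29),(7,2),(22,24)]⟩),
  (.rho 8,⟨false,[],(22,14),.mon 1 1 0,[]⟩),
  (.comm 1 0 0,⟨false,[],(22,5),.mon 1 1 0,[]⟩),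
  (.rho 0,⟨false,[],(4,23),.mon 1 1 0,[]⟩),
  (.comm 51 27 0,⟨false,[],(7,2),.mon 1 1 0,[]⟩),
  (.rho 0,⟨false,[],(3,6),.mon 1 1 0,[]⟩),
  (.rho 25,⟨false,[],(23,3),.mon 1 1 0,[]⟩),
  (.comm 1 0 0,⟨false,[],(23,6),.mon 2 2 0,[]⟩),
  (.rho 0,⟨false,[],(7,22),.mon 2 2 0,[]⟩),
  (.cc 28,⟨false,[],(6,14),.mon 1 1 0,[]⟩),
  (.rho 0,⟨false,[],(15,7),.mon 1 1 0,[]⟩),
  (.comm 2 0 0,⟨false,[],(15,22),.mon 3 3 0,[]⟩),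
  (.rho 0,⟨false,[],(23,14),.mon 3 3 0,[]⟩),
  (.comm 9 0 0,⟨false,[],(4,14),.mon 4 4 0,[]⟩),
  (.rho 25,⟨false,[],(18,10),.mon 1 1 0,[]⟩),
  (.comm 61 0 0,⟨false,[],(18,8),.mon 2 1 0,[]⟩),
  (.rho 0,⟨false,[],(9,19),.mon 1 2 0,[]⟩),
  (.cc 0,⟨false,[],(29,19),.mon 1 2 0,[]⟩),
  (.rho 0,⟨false,[],(18,28),.mon 2 1 0,[]⟩),
  (.ca 0,⟨false,[],(14,4),.mon 2 1 0,[]⟩),
  (.rho 0,⟨false,[],(5,15),.mon 1 2 0,[]⟩),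
  (.rho 0,⟨false,[],(14,4),.mon 2 1 0,[]⟩),
  (.sI 8 0,⟨true,[],(14,19),.mon 6 5 0,[]⟩),
  (.sN 0,⟨true,[],(14,19),.mon (-6) (-5) 0,[]⟩),
  (.sA 24 0,⟨true,[],(14,19),.mon 0 1 0,[]⟩),
  (.sF 0 58,⟨false,[],(14,19),.all,[]⟩),
  (.rho 45,⟨false,[],(23,3),.mon 1 1 0,[]⟩),
  (.comm 34 0 0,⟨false,[],(15,3),.mon 2 2 0,[]⟩),
  (.rho 0,⟨false,[],(2,14),.mon 2 2 0,[]⟩),
  (.comm 3 0 0,⟨false,[],(2,19),.all,[]⟩),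
  (.ca 37,⟨false,[],(19,11),.mon 1 1 0,[]⟩),
  (.rho 0,⟨false,[],(10,18),.mon 1 1 0,[]⟩),
  (.comm 0 52 0,⟨false,[],(2,18),.mon 2 2 0,[]⟩),
  (.rho 0,⟨false,[],(19,3),.mon 2 2 0,[]⟩),
  (.comm 28 0 0,⟨false,[],(19,6),.mon 3 3 0,[]⟩),
  (.rho 0,⟨false,[],(7,18),.mon 3 3 0,[]⟩),
  (.rho 26,⟨false,[],(15,7),.mon 1 1 0,[]⟩),
  (.comm 16 0 0,⟨false,[],(5,7),.mon 2 3 0,[]⟩),
  (.comm 2 0 0,⟨false,[],(5,18),.mon 5 6 0,[]⟩),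
  (.rho 0,⟨false,[],(19,4),.mon 6 5 0,[]⟩),
  (.comm 10 0 0,⟨false,[],(2,4),.all,[]⟩),
  (.ca 31,⟨false,[],(26,18),.mon 1 1 0,[]⟩),
  (.rho 0,⟨false,[],(19,27),.mon 1 1 0,[]⟩),
  (.rho 64,⟨false,[],(27,7),.mon 1 1 0,[]⟩),
  (.comm 1 0 0,⟨false,[],(19,7),.mon 2 2 0,[]⟩),
  (.rho 0,⟨false,[],(6,18),.mon 2 2 0,[]⟩),
  (.rho 0,⟨false,[],(19,7),.mon 2 2 0,[]⟩),
  (.comm 38 0 0,⟨false,[],(19,22),.mon 4 4 0,[]⟩),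
  (.rho 0,⟨false,[],(23,18),.mon 4 4 0,[]⟩),
  (.comm 45 0 0,⟨false,[],(4,18),.mon 5 5 0,[]⟩),
  (.rho 0,⟨false,[],(19,5),.mon 5 5 0,[]⟩),
  (.comm 21 0 0,⟨false,[],(2,5),.all,[]⟩),
  (.comm 46 42 0,⟨false,[],(3,14),.mon 2 2 0,[]⟩),
  (.comm 27 0 0,⟨false,[],(3,19),.all,[]⟩),
  (.rho 15,⟨false,[],(19,4),.mon 6 5 0,[]⟩),
  (.comm 1 0 0,⟨false,[],(3,4),.all,[]⟩),
  (.rho 6,⟨false,[],(19,5),.mon 5 5 0,[]⟩),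
  (.comm 3 0 0,⟨false,[],(3,5),.all,[]⟩),
  (.rho 29,⟨false,[],(15,3),.mon 2 2 0,[]⟩),
  (.comm 53 0 0,⟨false,[],(15,6),.mon 3 3 0,[]⟩),
  (.rho 0,⟨false,[],(7,14),.mon 3 3 0,[]⟩),
  (.comm 35 0 0,⟨false,[],(7,19),.all,[]⟩),
  (.rho 12,⟨false,[],(19,5),.mon 5 5 0,[]⟩),
  (.comm 1 0 0,⟨false,[],(7,5),.all,[]⟩),
  (.comm 38 54 0,⟨false,[],(6,19),.all,[]⟩),
  (.rho 15,⟨false,[],(19,5),.mon 5 5 0,[]⟩),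
  (.comm 1 0 0,⟨false,[],(6,5),.all,[]⟩),
  (.rho 28,⟨false,[],(19,4),.mon 6 5 0,[]⟩),
  (.comm 6 0 0,⟨false,[],(7,4),.all,[]⟩),
  (.rho 30,⟨false,[],(19,4),.mon 6 5 0,[]⟩),
  (.comm 5 0 0,⟨false,[],(6,4),.all,[]⟩),
  (.rho 38,⟨false,[],(19,3),.mon 2 2 0,[]⟩),
  (.comm 42 0 1,⟨false,[],(2,3),.all,[]⟩),
  (.comm 67 27 0,⟨false,[],(3,18),.mon 3 3 0,[]⟩),
  (.rho 97,⟨false,[],(26,6),.mon 1 1 0,[]⟩),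
  (.comm 88 0 0,⟨false,[],(18,6),.mon 2 2 0,[]⟩),
  (.rho 0,⟨false,[],(7,19),.mon 2 2 0,[]⟩),
  (.rho 0,⟨false,[],(18,6),.mon 2 2 0,[]⟩),
  (.comm 68 0 0,⟨false,[],(18,14),.mon 3 3 0,[]⟩),
  (.rho 0,⟨false,[],(15,19),.mon 3 3 0,[]⟩),
  (.rho 0,⟨false,[],(18,14),.mon 3 3 0,[]⟩),
  (.comm 55 0 1,⟨false,[],(18,19),.all,[]⟩),
  (.comm 8 0 5,⟨false,[],(3,2),.all,[(3,19)]⟩),
  (.drop 0 [29],⟨false,[],(3,2),.all,[]⟩)],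
  [(43,43),(32,32),(28,28),(26,26),(26,26),(32,32),(28,28),(43,43),(20,20),(17,17),(15,15),(13,13),(13,13),(17,17),(15,15),(20,20),(11,11),(0,0)]⟩ = true := by decide +kernel

theorem cCt15 : Fam.chkP .C 15 1 true true true false false
  ⟨[],[],[],[((26,5),some (0,0,0)),((7,24),some (1,0,0)),((20,2),some (0,0,0))],0,(26,5),(26,5),(26,5),(26,5),(0,0,0),[(8,31),(29,10),(14,2)],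
  [(.base 0,⟨false,[],(14,2),.mon 0 0 0,[(29,10),(8,31),(26,5),(7,24),(20,2)]⟩),
  (.base 4,⟨false,[],(7,24),.mon 1 0 0,[(14,2),(29,10),(8,31),(26,5),(20,2)]⟩),
  (.cc 0,⟨false,[],(3,14),.mon 1 0 0,[(24,6),(11,28),(30,9),(12,5),(18,6)]⟩),
  (.ca 0,⟨false,[],(3,20),.mon 1 0 0,[(10,28),(25,6),(4,27),(22,31),(16,28)]⟩),
  (.cc 0,⟨false,[],(7,18),.mon 1 0 0,[(28,10),(15,2),(4,13),(16,9),(22,10)]⟩),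
  (.ca 0,⟨false,[],(29,16),.mon 1 0 0,[(6,24),(21,2),(30,23),(18,27),(12,24)]⟩),
  (.cc 0,⟨false,[],(11,22),.mon 1 0 0,[(2,14),(19,6),(8,17),(20,13),(26,14)]⟩),
  (.ca 0,⟨false,[],(25,12),.mon 1 0 0,[(2,20),(17,28),(26,19),(14,23),(8,20)]⟩),
  (.cc 0,⟨false,[],(15,26),.mon 1 0 0,[(6,18),(23,10),(12,21),(24,17),(30,18)]⟩),
  (.rho 0,⟨false,[],(27,14),.mon 0 1 0,[(6,18),(23,10),(12,21),(24,17),(30,18)]⟩),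
  (.comm 9 0 0,⟨false,[],(27,2),.mon 0 1 0,[(15,5),(19,24),(7,17),(4,2),(19,17)]⟩),
  (.base 2,⟨false,[],(8,31),.mon 0 0 0,[(14,2),(29,10),(26,5),(7,24),(20,2)]⟩),
  (.cc 0,⟨false,[],(30,9),.mon 0 0 0,[(24,6),(11,28),(12,5),(3,14),(18,6)]⟩),
  (.ca 0,⟨false,[],(4,27),.mon 0 0 0,[(10,28),(25,6),(22,31),(3,20),(16,28)]⟩),
  (.comm 3 0 0,⟨false,[],(4,2),.mon 0 1 0,[]⟩),
  (.rho 0,⟨false,[],(3,5),.mon 1 0 0,[]⟩),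
  (.cc 0,⟨false,[],(7,5),.mon 1 0 0,[]⟩),
  (.rho 0,⟨false,[],(4,6),.mon 0 1 0,[]⟩),
  (.ca 0,⟨false,[],(30,28),.mon 0 1 0,[]⟩),
  (.rho 0,⟨false,[],(29,31),.mon 1 0 0,[]⟩),
  (.cc 0,⟨false,[],(11,9),.mon 1 0 0,[]⟩),
  (.rho 0,⟨false,[],(8,10),.mon 0 1 0,[]⟩),
  (.ca 0,⟨false,[],(26,24),.mon 0 1 0,[]⟩),
  (.rho 0,⟨false,[],(25,27),.mon 1 0 0,[]⟩),
  (.cc 0,⟨false,[],(15,13),.mon 1 0 0,[]⟩),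
  (.rho 0,⟨false,[],(12,14),.mon 0 1 0,[]⟩),
  (.ca 0,⟨false,[],(22,20),.mon 0 1 0,[]⟩),
  (.rho 0,⟨false,[],(21,23),.mon 1 0 0,[]⟩),
  (.cc 0,⟨false,[],(19,17),.mon 1 0 0,[]⟩),
  (.rho 0,⟨false,[],(16,18),.mon 0 1 0,[]⟩),
  (.ca 0,⟨false,[],(18,16),.mon 0 1 0,[]⟩),
  (.rho 0,⟨false,[],(17,19),.mon 1 0 0,[]⟩),
  (.cc 0,⟨false,[],(23,21),.mon 1 0 0,[]⟩),
  (.rho 0,⟨false,[],(20,22),.mon 0 1 0,[]⟩),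
  (.ca 0,⟨false,[],(14,12),.mon 0 1 0,[]⟩),
  (.rho 0,⟨false,[],(13,15),.mon 1 0 0,[]⟩),
  (.cc 0,⟨false,[],(27,25),.mon 1 0 0,[]⟩),
  (.rho 0,⟨false,[],(24,26),.mon 0 1 0,[]⟩),
  (.ca 0,⟨false,[],(10,8),.mon 0 1 0,[]⟩),
  (.rho 0,⟨false,[],(9,11),.mon 1 0 0,[]⟩),
  (.cc 0,⟨false,[],(31,29),.mon 1 0 0,[]⟩),
  (.rho 0,⟨false,[],(28,30),.mon 0 1 0,[]⟩),
  (.ca 0,⟨false,[],(6,4),.mon 0 1 0,[]⟩),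
  (.rho 0,⟨false,[],(5,7),.mon 1 0 0,[]⟩),
  (.rho 26,⟨false,[],(7,5),.mon 1 0 0,[]⟩),
  (.sI 1 0,⟨true,[],(3,5),.mon 2 0 0,[]⟩),
  (.sF 0 30,⟨false,[],(3,5),.all,[]⟩),
  (.ca 31,⟨false,[],(3,31),.mon 1 0 0,[]⟩),
  (.cc 0,⟨false,[],(7,9),.mon 1 0 0,[]⟩),
  (.ca 0,⟨false,[],(29,27),.mon 1 0 0,[]⟩),
  (.rho 0,⟨false,[],(26,28),.mon 0 1 0,[]⟩),
  (.cc 0,⟨false,[],(12,10),.mon 0 1 0,[]⟩),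
  (.rho 0,⟨false,[],(11,13),.mon 1 0 0,[]⟩),
  (.ca 0,⟨false,[],(25,23),.mon 1 0 0,[]⟩),
  (.rho 0,⟨false,[],(22,24),.mon 0 1 0,[]⟩),
  (.cc 0,⟨false,[],(16,14),.mon 0 1 0,[]⟩),
  (.rho 0,⟨false,[],(15,17),.mon 1 0 0,[]⟩),
  (.ca 0,⟨false,[],(21,19),.mon 1 0 0,[]⟩),
  (.rho 0,⟨false,[],(18,20),.mon 0 1 0,[]⟩),
  (.cc 0,⟨false,[],(20,18),.mon 0 1 0,[]⟩),
  (.rho 0,⟨false,[],(19,21),.mon 1 0 0,[]⟩),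
  (.ca 0,⟨false,[],(17,15),.mon 1 0 0,[]⟩),
  (.rho 0,⟨false,[],(14,16),.mon 0 1 0,[]⟩),
  (.cc 0,⟨false,[],(24,22),.mon 0 1 0,[]⟩),
  (.rho 0,⟨false,[],(23,25),.mon 1 0 0,[]⟩),
  (.ca 0,⟨false,[],(13,11),.mon 1 0 0,[]⟩),
  (.rho 0,⟨false,[],(10,12),.mon 0 1 0,[]⟩),
  (.cc 0,⟨false,[],(28,26),.mon 0 1 0,[]⟩),
  (.rho 0,⟨false,[],(27,29),.mon 1 0 0,[]⟩),
  (.ca 0,⟨false,[],(9,7),.mon 1 0 0,[]⟩),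
  (.rho 0,⟨false,[],(6,8),.mon 0 1 0,[]⟩),
  (.cc 0,⟨false,[],(2,30),.mon 0 1 0,[]⟩),
  (.rho 0,⟨false,[],(31,3),.mon 1 0 0,[]⟩),
  (.comm 26 0 0,⟨false,[],(31,5),.all,[]⟩),
  (.ca 2,⟨false,[],(2,4),.mon 0 1 0,[]⟩),
  (.rho 0,⟨false,[],(5,3),.mon 1 0 0,[]⟩),
  (.comm 2 0 0,⟨false,[],(31,3),.all,[]⟩),
  (.ca 0,⟨false,[],(5,3),.all,[]⟩),
  (.comm 7 60 0,⟨false,[],(4,8),.mon 0 2 0,[]⟩),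
  (.comm 4 0 0,⟨false,[],(2,8),.mon 0 3 0,[]⟩),
  (.rho 0,⟨false,[],(9,3),.mon 3 0 0,[]⟩),
  (.comm 34 0 0,⟨false,[],(9,5),.all,[]⟩),
  (.rho 0,⟨false,[],(4,8),.all,[]⟩),
  (.comm 0 71 0,⟨false,[],(4,31),.all,[]⟩),
  (.spec 7,⟨false,[],(31,3),.mon 0 0 0,[]⟩),
  (.comm 1 0 0,⟨false,[],(4,3),.all,[]⟩),
  (.comm 46 37 0,⟨false,[],(7,11),.mon 2 0 0,[]⟩),
  (.comm 43 0 0,⟨false,[],(5,11),.mon 3 0 0,[]⟩),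
  (.comm 41 0 0,⟨false,[],(3,11),.all,[]⟩),
  (.rho 0,⟨false,[],(10,2),.all,[]⟩),
  (.base 1,⟨false,[],(29,10),.mon 1 0 0,[(14,2),(8,31),(26,5),(7,24),(20,2)]⟩),
  (.comm 1 0 0,⟨false,[],(29,2),.all,[]⟩),
  (.rho 44,⟨false,[],(30,2),.mon 0 1 0,[]⟩),
  (.comm 51 0 0,⟨false,[],(28,2),.mon 0 2 0,[]⟩),
  (.rho 0,⟨false,[],(3,29),.mon 2 0 0,[]⟩),
  (.rho 0,⟨false,[],(28,2),.mon 0 2 0,[]⟩),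
  (.comm 21 0 0,⟨false,[],(28,4),.mon 0 3 0,[]⟩),
  (.rho 0,⟨false,[],(5,29),.mon 3 0 0,[]⟩),
  (.comm 51 0 0,⟨false,[],(3,29),.all,[]⟩),
  (.rho 24,⟨false,[],(5,3),.mon 1 0 0,[]⟩),
  (.comm 1 0 0,⟨false,[],(5,29),.all,[]⟩),
  (.spec 0,⟨false,[],(5,29),.mon 0 0 0,[]⟩),
  (.comm 10 0 0,⟨false,[],(5,2),.all,[]⟩),
  (.cc 56,⟨false,[],(7,5),.all,[]⟩),
  (.comm 30 60 0,⟨false,[],(31,7),.all,[]⟩),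
  (.spec 0,⟨false,[],(31,7),.mon 0 0 0,[]⟩),
  (.comm 22 0 0,⟨false,[],(4,7),.all,[]⟩),
  (.comm 3 19 0,⟨false,[],(7,11),.all,[]⟩),
  (.rho 0,⟨false,[],(10,6),.all,[]⟩),
  (.comm 0 18 0,⟨false,[],(29,6),.all,[]⟩),
  (.spec 9,⟨false,[],(5,29),.mon 0 0 0,[]⟩),
  (.comm 1 0 0,⟨false,[],(5,6),.all,[]⟩),
  (.comm 65 68 0,⟨false,[],(3,7),.all,[]⟩),
  (.rho 38,⟨false,[],(5,3),.mon 1 0 0,[]⟩),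
  (.comm 1 0 0,⟨false,[],(5,7),.all,[]⟩),
  (.rho 40,⟨false,[],(5,3),.mon 1 0 0,[]⟩),
  (.comm 34 0 0,⟨false,[],(9,3),.all,[]⟩),
  (.spec 0,⟨false,[],(9,3),.mon 0 0 0,[]⟩),
  (.comm 74 69 0,⟨false,[],(5,9),.mon 2 0 0,[]⟩),
  (.comm 45 0 0,⟨false,[],(31,9),.all,[]⟩),
  (.comm 0 108 1,⟨false,[],(8,9),.all,[]⟩),
  (.comm 3 0 5,⟨false,[],(2,3),.all,[(8,3)]⟩),
  (.comm 48 110 0,⟨false,[],(8,5),.all,[]⟩),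
  (.spec 45,⟨false,[],(5,3),.mon 0 0 0,[]⟩),
  (.comm 1 0 0,⟨false,[],(8,3),.all,[]⟩),
  (.drop 3 [0],⟨false,[],(2,3),.all,[]⟩),
  (.spec 27,⟨false,[],(3,29),.mon 0 0 0,[]⟩),
  (.comm 35 0 1,⟨false,[],(3,2),.all,[]⟩)],
  [(50,50),(42,42),(25,25),(81,81),(81,81),(42,42),(25,25),(50,50),(24,24),(21,21),(16,16),(13,13),(13,13),(21,21),(16,16),(24,24),(2,2),(0,0)]⟩ = true := by decide +kernel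

theorem cCt16 : Fam.chkP .C 16 1 true true true false false
  ⟨[],[],[],[((25,4),some (1,0,0)),((26,29),some (0,0,0)),((3,21),some (0,0,0))],0,(25,4),(25,4),(25,4),(25,4),(0,0,0),[(13,32),(10,9),(3,17)],
  [(.base 2,⟨false,[],(13,32),.mon 1 0 0,[(3,17),(10,9),(25,4),(26,29),(3,21)]⟩),
  (.base 0,⟨false,[],(3,17),.mon 0 0 0,[(10,9),(13,32),(25,4),(26,29),(3,21)]⟩),
  (.cc 1,⟨false,[],(29,8),.mon 1 0 0,[(7,25),(30,33),(17,4),(14,13),(7,21)]⟩),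
  (.ca 0,⟨false,[],(9,28),.mon 1 0 0,[(31,13),(6,5),(21,32),(22,25),(31,17)]⟩),
  (.cc 0,⟨false,[],(33,12),.mon 1 0 0,[(11,29),(2,5),(21,8),(18,17),(11,25)]⟩),
  (.ca 0,⟨false,[],(5,24),.mon 1 0 0,[(27,9),(2,33),(17,28),(18,21),(27,13)]⟩),
  (.cc 0,⟨false,[],(5,16),.mon 1 0 0,[(15,33),(6,9),(25,12),(22,21),(15,29)]⟩),
  (.rho 0,⟨false,[],(17,4),.mon 0 1 0,[(15,33),(6,9),(25,12),(22,21),(15,29)]⟩),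
  (.comm 6 0 0,⟨false,[],(3,4),.mon 0 1 0,[(13,14)]⟩),
  (.base 1,⟨false,[],(10,9),.mon 0 0 0,[(3,17),(13,32),(25,4),(26,29),(3,21)]⟩),
  (.cc 0,⟨false,[],(30,33),.mon 0 0 0,[(7,25),(29,8),(17,4),(14,13),(7,21)]⟩),
  (.ca 0,⟨false,[],(6,5),.mon 0 0 0,[(31,13),(9,28),(21,32),(22,25),(31,17)]⟩),
  (.rho 0,⟨false,[],(4,7),.mon 0 0 0,[(31,13),(9,28),(21,32),(22,25),(31,17)]⟩),
  (.comm 4 0 0,⟨false,[],(3,7),.mon 0 1 0,[(31,14)]⟩),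
  (.cc 5,⟨false,[],(7,4),.mon 0 1 0,[(29,26)]⟩),
  (.comm 1 0 0,⟨false,[],(3,4),.mon 0 2 0,[]⟩),
  (.cc 0,⟨false,[],(7,4),.mon 0 2 0,[]⟩),
  (.rho 0,⟨false,[],(5,6),.mon 2 0 0,[]⟩),
  (.cc 6,⟨false,[],(2,5),.mon 0 0 0,[(11,29),(33,12),(21,8),(18,17),(11,25)]⟩),
  (.ca 0,⟨false,[],(2,33),.mon 0 0 0,[(27,9),(5,24),(17,28),(18,21),(27,13)]⟩),
  (.rho 0,⟨false,[],(32,3),.mon 0 0 0,[(27,9),(5,24),(17,28),(18,21),(27,13)]⟩),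
  (.comm 7 0 0,⟨false,[],(32,7),.mon 0 1 0,[]⟩),
  (.rho 0,⟨false,[],(6,33),.mon 1 0 0,[]⟩),
  (.comm 5 0 0,⟨false,[],(5,33),.mon 3 0 0,[]⟩),
  (.rho 0,⟨false,[],(32,4),.mon 0 3 0,[]⟩),
  (.comm 24 0 0,⟨false,[],(13,4),.mon 1 3 0,[]⟩),
  (.rho 0,⟨false,[],(5,12),.mon 3 1 0,[]⟩),
  (.cc 4,⟨false,[],(2,9),.mon 1 0 0,[]⟩),
  (.ca 0,⟨false,[],(2,29),.mon 1 0 0,[]⟩),
  (.cc 0,⟨false,[],(6,13),.mon 1 0 0,[]⟩),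
  (.rho 11,⟨false,[],(4,3),.mon 0 0 0,[(11,29),(33,12),(21,8),(18,17),(11,25)]⟩),
  (.comm 17 0 0,⟨false,[],(4,7),.mon 0 1 0,[]⟩),
  (.cc 0,⟨false,[],(4,3),.mon 0 1 0,[]⟩),
  (.rho 0,⟨false,[],(2,5),.mon 1 0 0,[]⟩),
  (.comm 16 0 0,⟨false,[],(2,6),.mon 3 0 0,[]⟩),
  (.comm 5 0 0,⟨false,[],(2,13),.mon 4 0 0,[]⟩),
  (.rho 0,⟨false,[],(12,3),.mon 0 4 0,[]⟩),
  (.comm 10 0 0,⟨false,[],(5,3),.mon 3 5 0,[]⟩),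
  (.rho 0,⟨false,[],(2,4),.mon 5 3 0,[]⟩),
  (.ca 30,⟨false,[],(3,32),.mon 0 1 0,[(25,22)]⟩),
  (.cc 0,⟨false,[],(7,8),.mon 0 1 0,[(17,18)]⟩),
  (.comm 27 0 0,⟨false,[],(3,8),.mon 0 2 0,[]⟩),
  (.ca 0,⟨false,[],(3,28),.mon 0 2 0,[]⟩),
  (.cc 0,⟨false,[],(7,12),.mon 0 2 0,[]⟩),
  (.ca 0,⟨false,[],(31,24),.mon 0 2 0,[]⟩),
  (.rho 0,⟨false,[],(25,30),.mon 2 0 0,[]⟩),
  (.cc 0,⟨false,[],(17,10),.mon 2 0 0,[]⟩),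
  (.rho 0,⟨false,[],(11,16),.mon 0 2 0,[]⟩),
  (.ca 16,⟨false,[],(32,31),.mon 0 1 0,[]⟩),
  (.rho 0,⟨false,[],(30,33),.mon 1 0 0,[]⟩),
  (.cc 0,⟨false,[],(10,9),.mon 1 0 0,[]⟩),
  (.rho 0,⟨false,[],(8,11),.mon 0 1 0,[]⟩),
  (.comm 4 0 0,⟨false,[],(8,16),.mon 0 3 0,[]⟩),
  (.rho 0,⟨false,[],(17,9),.mon 3 0 0,[]⟩),
  (.comm 52 0 0,⟨false,[],(3,9),.mon 3 0 0,[]⟩),
  (.rho 13,⟨false,[],(9,2),.mon 2 0 0,[]⟩),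
  (.comm 22 0 0,⟨false,[],(9,5),.mon 3 0 0,[]⟩),
  (.rho 0,⟨false,[],(4,8),.mon 0 3 0,[]⟩),
  (.rho 0,⟨false,[],(9,5),.mon 3 0 0,[]⟩),
  (.comm 4 0 0,⟨false,[],(3,5),.mon 6 0 0,[]⟩),
  (.rho 0,⟨false,[],(4,2),.mon 0 6 0,[]⟩),
  (.sI 22 0,⟨true,[],(4,7),.mon 5 9 0,[]⟩),
  (.rho 34,⟨false,[],(8,3),.mon 0 1 0,[]⟩),
  (.comm 5 0 0,⟨false,[],(4,3),.mon 0 4 0,[]⟩),
  (.rho 0,⟨false,[],(2,5),.mon 4 0 0,[]⟩),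
  (.comm 0 47 0,⟨false,[],(2,6),.mon 6 0 0,[]⟩),
  (.comm 0 36 0,⟨false,[],(2,13),.mon 7 0 0,[]⟩),
  (.rho 0,⟨false,[],(12,3),.mon 0 7 0,[]⟩),
  (.comm 41 0 0,⟨false,[],(5,3),.mon 3 8 0,[]⟩),
  (.rho 0,⟨false,[],(2,4),.mon 8 3 0,[]⟩),
  (.rho 10,⟨false,[],(4,2),.mon 0 6 0,[]⟩),
  (.sI 1 0,⟨true,[],(4,7),.mon 8 9 0,[]⟩),
  (.sN 0,⟨true,[],(4,7),.mon (-8) (-9) 0,[]⟩),
  (.sA 11 0,⟨true,[],(4,7),.mon (-3) 0 0,[]⟩),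
  (.sA 0 12,⟨true,[],(4,7),.mon 2 9 0,[]⟩),
  (.cc 33,⟨false,[],(7,32),.mon 0 2 0,[]⟩),
  (.comm 60 44 0,⟨false,[],(3,7),.mon 0 3 0,[]⟩),
  (.comm 1 0 0,⟨false,[],(3,32),.mon 0 5 0,[]⟩),
  (.rho 54,⟨false,[],(32,4),.mon 0 3 0,[]⟩),
  (.comm 1 0 0,⟨false,[],(3,4),.mon 0 8 0,[]⟩),
  (.rho 46,⟨false,[],(4,3),.mon 0 1 0,[]⟩),
  (.sI 1 0,⟨true,[],(4,7),.mon 0 9 0,[]⟩),
  (.sN 0,⟨true,[],(4,7),.mon 0 (-9) 0,[]⟩),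
  (.sA 8 0,⟨true,[],(4,7),.mon 2 0 0,[]⟩),
  (.sF 0 52,⟨false,[],(4,7),.all,[]⟩),
  (.comm 0 46 0,⟨false,[],(2,7),.all,[]⟩),
  (.rho 68,⟨false,[],(7,4),.mon 0 2 0,[]⟩),
  (.comm 1 0 0,⟨false,[],(2,4),.all,[]⟩),
  (.cc 3,⟨false,[],(4,3),.all,[]⟩),
  (.comm 4 73 0,⟨false,[],(3,7),.all,[]⟩),
  (.rho 72,⟨false,[],(7,4),.mon 0 2 0,[]⟩),
  (.comm 1 0 0,⟨false,[],(3,4),.all,[]⟩),
  (.ca 69,⟨false,[],(30,5),.mon 1 0 0,[]⟩),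
  (.rho 0,⟨false,[],(4,31),.mon 0 1 0,[]⟩),
  (.cc 0,⟨false,[],(4,11),.mon 0 1 0,[]⟩),
  (.rho 77,⟨false,[],(7,4),.mon 0 2 0,[]⟩),
  (.comm 1 0 0,⟨false,[],(7,11),.mon 0 3 0,[]⟩),
  (.comm 49 0 0,⟨false,[],(7,16),.mon 0 5 0,[]⟩),
  (.rho 0,⟨false,[],(17,6),.mon 5 0 0,[]⟩),
  (.comm 97 0 0,⟨false,[],(3,6),.mon 5 0 0,[]⟩),
  (.rho 0,⟨false,[],(7,2),.mon 0 5 0,[]⟩),
  (.comm 16 0 0,⟨false,[],(4,2),.all,[]⟩),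
  (.comm 13 2 0,⟨false,[],(4,6),.all,[]⟩),
  (.ca 18,⟨false,[],(32,31),.all,[]⟩),
  (.ca 28,⟨false,[],(31,4),.mon 0 2 0,[]⟩),
  (.rho 0,⟨false,[],(5,30),.mon 2 0 0,[]⟩),
  (.rho 0,⟨false,[],(31,4),.mon 0 2 0,[]⟩),
  (.comm 3 0 0,⟨false,[],(32,4),.all,[]⟩),
  (.rho 84,⟨false,[],(32,4),.mon 0 3 0,[]⟩),
  (.comm 24 0 0,⟨false,[],(32,7),.all,[]⟩),
  (.comm 25 34 0,⟨false,[],(4,32),.all,[]⟩),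
  (.rho 93,⟨false,[],(7,4),.mon 0 2 0,[]⟩),
  (.comm 1 0 0,⟨false,[],(7,32),.all,[]⟩),
  (.cN 5 3 0,⟨false,[],(7,4),.all,[]⟩),
  (.rho 75,⟨false,[],(5,3),.mon 3 5 0,[]⟩),
  (.comm 25 0 0,⟨false,[],(5,7),.all,[]⟩),
  (.comm 27 77 1,⟨false,[],(2,3),.all,[]⟩),
  (.rho 17,⟨false,[],(7,2),.mon 0 5 0,[]⟩),
  (.comm 28 0 1,⟨false,[],(3,2),.all,[]⟩)],
  [(31,31),(30,30),(27,27),(17,17),(17,17),(30,30),(27,27),(31,31),(16,16),(34,34),(5,5),(3,3),(3,3),(34,34),(5,5),(16,16),(2,2),(0,0)]⟩ = true := by decide +kernel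


end Pool.Agent.MP_c78e8e_al.H75

end

section

namespace Pool.Agent.MP_c78e8e_al.H75

theorem cCtw : Fam.chkP .C 17 9 false true true false false
  ⟨[],[],[],[((30,9),some (1,0,0)),((23,18),some (0,0,0)),((17,11),some (1,0,0))],0,(30,9),(30,9),(30,9),(30,9),(0,0,0),[(6,29),(15,18),(21,27)],
  [(.base 0,⟨false,[],(21,27),.mon 1 0 0,[(15,18),(6,29),(30,9),(23,18),(17,11)]⟩),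
  (.cc 0,⟨false,[],(21,15),.mon 1 0 0,[(27,22),(34,13),(10,33),(19,22),(25,31)]⟩),
  (.ca 0,⟨false,[],(17,23),.mon 1 0 0,[(11,14),(2,25),(26,5),(19,14),(13,7)]⟩),
  (.rho 0,⟨false,[],(22,16),.mon 0 1 0,[(11,14),(2,25),(26,5),(19,14),(13,7)]⟩),
  (.base 1,⟨false,[],(15,18),.mon 0 0 0,[(21,27),(6,29),(30,9),(23,18),(17,11)]⟩),
  (.cc 0,⟨false,[],(27,22),.mon 0 0 0,[(21,15),(34,13),(10,33),(19,22),(25,31)]⟩),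
  (.comm 5 0 0,⟨false,[],(21,22),.mon 1 0 0,[(21,18)]⟩),
  (.comm 0 3 0,⟨false,[],(21,16),.mon 1 1 0,[]⟩),
  (.rho 0,⟨false,[],(17,20),.mon 1 1 0,[]⟩),
  (.cc 0,⟨false,[],(25,20),.mon 1 1 0,[]⟩),
  (.rho 0,⟨false,[],(21,24),.mon 1 1 0,[]⟩),
  (.ca 0,⟨false,[],(17,12),.mon 1 1 0,[]⟩),
  (.rho 0,⟨false,[],(13,16),.mon 1 1 0,[]⟩),
  (.cc 0,⟨false,[],(29,24),.mon 1 1 0,[]⟩),
  (.rho 0,⟨false,[],(25,28),.mon 1 1 0,[]⟩),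
  (.rho 0,⟨false,[],(29,24),.mon 1 1 0,[]⟩),
  (.base 2,⟨false,[],(6,29),.mon 1 0 0,[(21,27),(15,18),(30,9),(23,18),(17,11)]⟩),
  (.comm 0 1 0,⟨false,[],(6,24),.mon 2 1 0,[]⟩),
  (.ca 0,⟨false,[],(30,12),.mon 2 1 0,[]⟩),
  (.rho 0,⟨false,[],(13,31),.mon 1 2 0,[]⟩),
  (.cc 0,⟨false,[],(29,11),.mon 1 2 0,[]⟩),
  (.rho 0,⟨false,[],(10,28),.mon 2 1 0,[]⟩),
  (.ca 0,⟨false,[],(26,8),.mon 2 1 0,[]⟩),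
  (.rho 0,⟨false,[],(9,27),.mon 1 2 0,[]⟩),
  (.cc 0,⟨false,[],(33,15),.mon 1 2 0,[]⟩),
  (.rho 0,⟨false,[],(14,32),.mon 2 1 0,[]⟩),
  (.rho 0,⟨false,[],(33,15),.mon 1 2 0,[]⟩),
  (.comm 22 0 0,⟨false,[],(33,18),.mon 1 2 0,[]⟩),
  (.rho 0,⟨false,[],(19,32),.mon 2 1 0,[]⟩),
  (.cc 0,⟨false,[],(23,8),.mon 2 1 0,[]⟩),
  (.rho 0,⟨false,[],(9,22),.mon 1 2 0,[]⟩),
  (.ca 0,⟨false,[],(29,14),.mon 1 2 0,[]⟩),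
  (.rho 0,⟨false,[],(15,28),.mon 2 1 0,[]⟩),
  (.rho 0,⟨false,[],(29,14),.mon 1 2 0,[]⟩),
  (.comm 17 0 0,⟨false,[],(6,14),.mon 2 2 0,[]⟩),
  (.ca 0,⟨false,[],(30,22),.mon 2 2 0,[]⟩),
  (.rho 0,⟨false,[],(23,31),.mon 2 2 0,[]⟩),
  (.cc 0,⟨false,[],(19,11),.mon 2 2 0,[]⟩),
  (.rho 0,⟨false,[],(10,18),.mon 2 2 0,[]⟩),
  (.ca 0,⟨false,[],(26,18),.mon 2 2 0,[]⟩),
  (.rho 0,⟨false,[],(19,27),.mon 2 2 0,[]⟩),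
  (.cc 0,⟨false,[],(23,15),.mon 2 2 0,[]⟩),
  (.rho 0,⟨false,[],(14,22),.mon 2 2 0,[]⟩),
  (.ca 0,⟨false,[],(22,14),.mon 2 2 0,[]⟩),
  (.rho 0,⟨false,[],(15,23),.mon 2 2 0,[]⟩),
  (.cc 0,⟨false,[],(27,19),.mon 2 2 0,[]⟩),
  (.rho 0,⟨false,[],(18,26),.mon 2 2 0,[]⟩),
  (.ca 0,⟨false,[],(18,10),.mon 2 2 0,[]⟩),
  (.rho 0,⟨false,[],(11,19),.mon 2 2 0,[]⟩),
  (.rho 0,⟨false,[],(18,10),.mon 2 2 0,[]⟩),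
  (.cc 17,⟨false,[],(27,12),.mon 2 1 0,[]⟩),
  (.rho 0,⟨false,[],(13,26),.mon 1 2 0,[]⟩),
  (.ca 0,⟨false,[],(25,10),.mon 1 2 0,[]⟩),
  (.rho 0,⟨false,[],(11,24),.mon 2 1 0,[]⟩),
  (.cc 0,⟨false,[],(31,16),.mon 2 1 0,[]⟩),
  (.rho 0,⟨false,[],(17,30),.mon 1 2 0,[]⟩),
  (.ca 0,⟨false,[],(21,6),.mon 1 2 0,[]⟩),
  (.rho 0,⟨false,[],(7,20),.mon 2 1 0,[]⟩),
  (.rho 0,⟨false,[],(21,6),.mon 1 2 0,[]⟩),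
  (.comm 42 0 0,⟨false,[],(21,29),.mon 2 2 0,[]⟩),
  (.cc 0,⟨false,[],(21,13),.mon 2 2 0,[]⟩),
  (.rho 0,⟨false,[],(12,20),.mon 2 2 0,[]⟩),
  (.ca 0,⟨false,[],(24,16),.mon 2 2 0,[]⟩),
  (.rho 0,⟨false,[],(17,25),.mon 2 2 0,[]⟩),
  (.cc 0,⟨false,[],(25,17),.mon 2 2 0,[]⟩),
  (.rho 0,⟨false,[],(16,24),.mon 2 2 0,[]⟩),
  (.ca 0,⟨false,[],(20,12),.mon 2 2 0,[]⟩),
  (.rho 0,⟨false,[],(13,21),.mon 2 2 0,[]⟩),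
  (.cc 0,⟨false,[],(29,21),.mon 2 2 0,[]⟩),
  (.rho 0,⟨false,[],(20,28),.mon 2 2 0,[]⟩),
  (.comm 0 8 0,⟨false,[],(12,28),.mon 4 4 0,[]⟩),
  (.rho 0,⟨false,[],(29,13),.mon 4 4 0,[]⟩),
  (.comm 55 0 0,⟨false,[],(6,13),.mon 5 4 0,[]⟩),
  (.ca 0,⟨false,[],(30,25),.mon 5 4 0,[]⟩),
  (.rho 0,⟨false,[],(24,31),.mon 4 5 0,[]⟩),
  (.cc 0,⟨false,[],(16,11),.mon 4 5 0,[]⟩),
  (.rho 0,⟨false,[],(10,17),.mon 5 4 0,[]⟩),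
  (.comm 0 27 0,⟨false,[],(18,17),.mon 7 6 0,[]⟩),
  (.rho 0,⟨false,[],(16,19),.mon 6 7 0,[]⟩),
  (.rho 0,⟨false,[],(18,17),.mon 7 6 0,[]⟩),
  (.rho 28,⟨false,[],(27,12),.mon 2 1 0,[]⟩),
  (.comm 80 0 0,⟨false,[],(21,12),.mon 3 1 0,[]⟩),
  (.rho 0,⟨false,[],(13,20),.mon 1 3 0,[]⟩),
  (.cc 0,⟨false,[],(29,20),.mon 1 3 0,[]⟩),
  (.rho 0,⟨false,[],(21,28),.mon 3 1 0,[]⟩),
  (.rho 0,⟨false,[],(29,20),.mon 1 3 0,[]⟩),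
  (.comm 69 0 0,⟨false,[],(6,20),.mon 2 3 0,[]⟩),
  (.cc 0,⟨false,[],(34,20),.mon 2 3 0,[]⟩),
  (.rho 0,⟨false,[],(21,35),.mon 3 2 0,[]⟩),
  (.ca 0,⟨false,[],(17,3),.mon 3 2 0,[]⟩),
  (.rho 0,⟨false,[],(2,16),.mon 2 3 0,[]⟩),
  (.rho 0,⟨false,[],(17,3),.mon 3 2 0,[]⟩),
  (.ca 22,⟨false,[],(16,8),.mon 2 2 0,[]⟩),
  (.rho 0,⟨false,[],(9,17),.mon 2 2 0,[]⟩),
  (.cc 45,⟨false,[],(31,23),.mon 2 2 0,[]⟩),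
  (.rho 0,⟨false,[],(22,30),.mon 2 2 0,[]⟩),
  (.ca 0,⟨false,[],(14,6),.mon 2 2 0,[]⟩),
  (.rho 0,⟨false,[],(7,15),.mon 2 2 0,[]⟩),
  (.cc 0,⟨false,[],(35,27),.mon 2 2 0,[]⟩),
  (.rho 0,⟨false,[],(26,34),.mon 2 2 0,[]⟩),
  (.comm 0 53 0,⟨false,[],(18,34),.mon 4 4 0,[]⟩),
  (.rho 58,⟨false,[],(23,15),.mon 2 2 0,[]⟩),
  (.comm 97 0 0,⟨false,[],(23,18),.mon 2 2 0,[]⟩),
  (.rho 0,⟨false,[],(19,22),.mon 2 2 0,[]⟩),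
  (.ca 0,⟨false,[],(19,14),.mon 2 2 0,[]⟩),
  (.rho 0,⟨false,[],(15,18),.mon 2 2 0,[]⟩),
  (.comm 0 8 0,⟨false,[],(7,18),.mon 4 4 0,[]⟩),
  (.comm 0 6 0,⟨false,[],(7,34),.mon 8 8 0,[]⟩),
  (.rho 0,⟨false,[],(35,6),.mon 8 8 0,[]⟩),
  (.comm 92 0 0,⟨false,[],(35,29),.mon 9 8 0,[]⟩),
  (.rho 0,⟨false,[],(28,34),.mon 8 9 0,[]⟩),
  (.ca 0,⟨false,[],(8,2),.mon 8 9 0,[]⟩),
  (.rho 0,⟨false,[],(3,9),.mon 9 8 0,[]⟩),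
  (.comm 0 19 0,⟨false,[],(3,17),.mon 11 10 0,[]⟩),
  (.sI 0 22,⟨true,[],(17,20),.mon 14 12 0,[]⟩),
  (.cc 57,⟨false,[],(35,20),.mon 2 1 0,[]⟩),
  (.rho 0,⟨false,[],(21,34),.mon 1 2 0,[]⟩),
  (.ca 0,⟨false,[],(17,2),.mon 1 2 0,[]⟩),
  (.rho 0,⟨false,[],(3,16),.mon 2 1 0,[]⟩),
  (.rho 0,⟨false,[],(17,2),.mon 1 2 0,[]⟩),
  (.cc 85,⟨false,[],(34,26),.mon 2 2 0,[]⟩),
  (.rho 0,⟨false,[],(27,35),.mon 2 2 0,[]⟩),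
  (.ca 0,⟨false,[],(11,3),.mon 2 2 0,[]⟩),
  (.rho 0,⟨false,[],(2,10),.mon 2 2 0,[]⟩),
  (.comm 0 85 0,⟨false,[],(2,18),.mon 4 4 0,[]⟩),
  (.rho 0,⟨false,[],(19,3),.mon 4 4 0,[]⟩),
  (.comm 77 0 0,⟨false,[],(11,3),.mon 6 6 0,[]⟩),
  (.rho 0,⟨false,[],(2,10),.mon 6 6 0,[]⟩),
  (.comm 51 0 0,⟨false,[],(2,17),.mon 11 10 0,[]⟩),
  (.sI 0 9,⟨true,[],(17,20),.mon 12 12 0,[]⟩),
  (.sN 0,⟨true,[],(17,20),.mon (-12) (-12) 0,[]⟩),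
  (.sA 0 16,⟨true,[],(17,20),.mon 2 0 0,[]⟩),
  (.sF 0 123,⟨false,[],(17,20),.all,[]⟩),
  (.comm 0 53 0,⟨false,[],(18,20),.all,[]⟩),
  (.rho 89,⟨false,[],(22,14),.mon 2 2 0,[]⟩),
  (.rho 28,⟨false,[],(19,6),.mon 4 4 0,[]⟩),
  (.comm 119 0 0,⟨false,[],(19,29),.mon 5 4 0,[]⟩),
  (.cc 0,⟨false,[],(23,13),.mon 5 4 0,[]⟩),
  (.rho 0,⟨false,[],(12,22),.mon 4 5 0,[]⟩),
  (.comm 0 4 0,⟨false,[],(12,14),.mon 6 7 0,[]⟩),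
  (.ca 63,⟨false,[],(26,21),.mon 5 4 0,[]⟩),
  (.rho 0,⟨false,[],(20,27),.mon 4 5 0,[]⟩),
  (.cc 0,⟨false,[],(20,15),.mon 4 5 0,[]⟩),
  (.rho 0,⟨false,[],(14,21),.mon 5 4 0,[]⟩),
  (.comm 0 4 0,⟨false,[],(12,21),.mon 11 11 0,[]⟩),
  (.rho 77,⟨false,[],(20,12),.mon 2 2 0,[]⟩),
  (.comm 13 0 0,⟨false,[],(17,12),.all,[]⟩),
  (.comm 0 2 0,⟨false,[],(17,21),.all,[]⟩),
  (.rho 78,⟨false,[],(29,21),.mon 2 2 0,[]⟩),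
  (.rho 93,⟨false,[],(31,16),.mon 2 1 0,[]⟩),
  (.comm 113 0 0,⟨false,[],(23,16),.mon 4 3 0,[]⟩),
  (.rho 0,⟨false,[],(17,22),.mon 3 4 0,[]⟩),
  (.rho 0,⟨false,[],(23,16),.mon 4 3 0,[]⟩),
  (.comm 108 0 0,⟨false,[],(15,16),.mon 6 5 0,[]⟩),
  (.comm 56 0 0,⟨false,[],(7,16),.mon 8 7 0,[]⟩),
  (.rho 0,⟨false,[],(17,6),.mon 7 8 0,[]⟩),
  (.comm 139 0 0,⟨false,[],(17,29),.mon 8 8 0,[]⟩),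
  (.comm 0 8 0,⟨false,[],(17,21),.mon 10 10 0,[]⟩),
  (.rho 0,⟨false,[],(20,16),.mon 10 10 0,[]⟩),
  (.comm 26 0 1,⟨false,[],(17,16),.all,[]⟩),
  (.rho 18,⟨false,[],(26,21),.mon 5 4 0,[]⟩),
  (.comm 63 116 0,⟨false,[],(7,23),.mon 4 4 0,[]⟩),
  (.rho 0,⟨false,[],(22,6),.mon 4 4 0,[]⟩),
  (.comm 59 0 0,⟨false,[],(19,6),.mon 6 6 0,[]⟩),
  (.rho 0,⟨false,[],(7,18),.mon 6 6 0,[]⟩),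
  (.rho 0,⟨false,[],(19,6),.mon 6 6 0,[]⟩),
  (.comm 149 0 0,⟨false,[],(19,29),.mon 7 6 0,[]⟩),
  (.cc 0,⟨false,[],(23,13),.mon 7 6 0,[]⟩),
  (.rho 0,⟨false,[],(12,22),.mon 6 7 0,[]⟩),
  (.ca 0,⟨false,[],(24,14),.mon 6 7 0,[]⟩),
  (.rho 0,⟨false,[],(15,25),.mon 7 6 0,[]⟩),
  (.cc 0,⟨false,[],(27,17),.mon 7 6 0,[]⟩),
  (.rho 0,⟨false,[],(16,26),.mon 6 7 0,[]⟩),
  (.comm 0 12 0,⟨false,[],(16,21),.mon 11 11 0,[]⟩),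
  (.comm 0 14 5,⟨false,[],(20,21),.all,[(17,21)]⟩),
  (.drop 0 [27],⟨false,[],(20,21),.all,[]⟩),
  (.rho 82,⟨false,[],(16,8),.mon 2 2 0,[]⟩),
  (.ca 20,⟨false,[],(21,9),.mon 8 8 0,[]⟩),
  (.rho 0,⟨false,[],(8,20),.mon 8 8 0,[]⟩),
  (.comm 0 2 0,⟨false,[],(16,20),.mon 10 10 0,[]⟩),
  (.rho 0,⟨false,[],(21,17),.mon 10 10 0,[]⟩),
  (.comm 48 0 1,⟨false,[],(21,20),.all,[]⟩),
  (.cN 48 0 6,⟨false,[],(18,21),.all,[]⟩),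
  (.rho 89,⟨false,[],(16,8),.mon 2 2 0,[]⟩),
  (.ca 17,⟨false,[],(19,9),.mon 7 6 0,[]⟩),
  (.rho 0,⟨false,[],(8,18),.mon 6 7 0,[]⟩),
  (.comm 0 2 0,⟨false,[],(16,18),.mon 8 9 0,[]⟩),
  (.rho 0,⟨false,[],(19,17),.mon 9 8 0,[]⟩),
  (.comm 55 0 0,⟨false,[],(19,20),.all,[]⟩),
  (.rho 15,⟨false,[],(20,17),.mon 11 11 0,[]⟩),
  (.rho 120,⟨false,[],(29,21),.mon 2 2 0,[]⟩),
  (.comm 24 0 0,⟨false,[],(19,21),.mon 9 8 0,[]⟩),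
  (.rho 0,⟨false,[],(20,18),.mon 8 9 0,[]⟩),
  (.comm 60 0 0,⟨false,[],(17,18),.all,[]⟩),
  (.comm 0 4 0,⟨false,[],(20,18),.all,[]⟩),
  (.rho 21,⟨false,[],(20,17),.mon 11 11 0,[]⟩),
  (.rho 128,⟨false,[],(20,12),.mon 2 2 0,[]⟩),
  (.comm 28 0 0,⟨false,[],(20,22),.mon 8 9 0,[]⟩),
  (.comm 65 0 0,⟨false,[],(17,22),.all,[]⟩),
  (.comm 0 3 0,⟨false,[],(20,22),.all,[]⟩),
  (.rho 26,⟨false,[],(20,17),.mon 11 11 0,[]⟩),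
  (.rho 39,⟨false,[],(22,6),.mon 4 4 0,[]⟩),
  (.comm 129 134 0,⟨false,[],(6,21),.mon 7 6 0,[]⟩),
  (.comm 0 1 0,⟨false,[],(22,21),.mon 11 10 0,[]⟩),
  (.rho 0,⟨false,[],(20,23),.mon 10 11 0,[]⟩),
  (.comm 72 0 0,⟨false,[],(17,23),.all,[]⟩),
  (.comm 0 5 0,⟨false,[],(20,23),.all,[]⟩),
  (.comm 103 158 0,⟨false,[],(11,22),.mon 4 4 0,[]⟩),
  (.rho 0,⟨false,[],(23,10),.mon 4 4 0,[]⟩),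
  (.comm 132 0 0,⟨false,[],(23,17),.mon 9 8 0,[]⟩),
  (.rho 0,⟨false,[],(16,22),.mon 8 9 0,[]⟩),
  (.rho 0,⟨false,[],(23,17),.mon 9 8 0,[]⟩),
  (.comm 79 0 0,⟨false,[],(23,20),.all,[]⟩),
  (.rho 117,⟨false,[],(31,23),.mon 2 2 0,[]⟩),
  (.comm 139 148 0,⟨false,[],(16,31),.mon 6 7 0,[]⟩),
  (.comm 0 1 0,⟨false,[],(16,23),.mon 8 9 0,[]⟩),
  (.rho 0,⟨false,[],(22,17),.mon 9 8 0,[]⟩),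
  (.comm 84 0 0,⟨false,[],(22,20),.all,[]⟩),
  (.rho 117,⟨false,[],(35,19),.mon 4 4 0,[]⟩),
  (.cc 146,⟨false,[],(34,29),.mon 5 4 0,[]⟩),
  (.rho 0,⟨false,[],(28,35),.mon 4 5 0,[]⟩),
  (.comm 0 151 0,⟨false,[],(20,35),.mon 6 7 0,[]⟩),
  (.comm 0 3 0,⟨false,[],(20,19),.mon 10 11 0,[]⟩),
  (.rho 0,⟨false,[],(18,21),.mon 11 10 0,[]⟩),
  (.rho 0,⟨false,[],(20,19),.mon 10 11 0,[]⟩),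
  (.comm 92 0 0,⟨false,[],(17,19),.all,[]⟩),
  (.comm 147 66 5,⟨false,[],(18,19),.all,[(17,19)]⟩),
  (.drop 0 [1],⟨false,[],(18,19),.all,[]⟩),
  (.comm 41 68 5,⟨false,[],(19,18),.all,[(17,18)]⟩),
  (.drop 0 [35],⟨false,[],(19,18),.all,[]⟩)],
  [(96,96),(47,47),(41,41),(35,35),(35,35),(47,47),(41,41),(96,96),(30,30),(23,23),(17,17),(12,12),(12,12),(23,23),(17,17),(30,30),(2,2),(0,0)]⟩ = true := by decide +kernel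

theorem famCt {G L K : Type} [Group G] [AddCommGroup L] [Field K] [Finite K] {S : St G L K}
    {n : ℕ} (R : Frame S .C n) (md : ∀ x y, Md S.φ x y false false) (h : n = 5 ∨ 7 ≤ n) :
    IsLeast {n | Good S.Gs n} 3 := by
  rcases h with rfl | h
  · exact R.gen (by decide) (md _ _) cCt5
  by_cases p : 17 ≤ n
  · exact R.poly p (by simp) (md _ _) cCtw
  rw [not_le] at p
  interval_cases n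
  · exact R.gen (by decide) (md _ _) cCt7
  · exact R.gen (by decide) (md _ _) cCt8
  · exact R.gen (by decide) (md _ _) cCt9
  · exact R.gen (by decide) (md _ _) cCt10
  · exact R.gen (by decide) (md _ _) cCt11
  · exact R.gen (by decide) (md _ _) cCt12
  · exact R.poly le_rfl (fun _ => rfl) (md _ _) cCt13
  · exact R.poly le_rfl (fun _ => rfl) (md _ _) cCt14
  · exact R.poly le_rfl (fun _ => rfl) (md _ _) cCt15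
  · exact R.poly le_rfl (fun _ => rfl) (md _ _) cCt16

end Pool.Agent.MP_c78e8e_al.H75

end

section

namespace Pool.Agent.MP_c78e8e_al.H75

theorem cCi5 : (Fam.op0 .C 5).check true false true false (Fam.tcG 5)
  ⟨[(6,9),(4,2),(10,11)],[],[],[(7,3),(7,8),(4,9),(3,2),(11,5)],[(9,4),(10,7),(2,3)],(2,4),(4,6),
  ⟨[],[],[],[((4,9),some (0,0,0)),((2,3),some (0,0,1))],0,(4,9),(4,9),(4,9),(4,9),(0,0,0),[(2,6),(4,5)],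
  [(.base 1,⟨false,[],(2,6),.mon 0 0 0,[(4,5),(4,9),(2,3)]⟩),
  (.cc 0,⟨false,[],(3,11),.mon 0 0 0,[(9,8),(9,4),(3,2)]⟩),
  (.ca 0,⟨false,[],(5,10),.mon 0 0 0,[(6,7),(6,2),(5,4)]⟩),
  (.cc 0,⟨false,[],(8,7),.mon 0 0 0,[(11,10),(11,3),(8,9)]⟩),
  (.rho 0,⟨false,[],(6,9),.mon 0 0 0,[(11,10),(11,3),(8,9)]⟩),
  (.comm 4 0 0,⟨false,[],(2,9),.mon 0 0 0,[]⟩),
  (.cc 0,⟨false,[],(3,4),.mon 0 0 0,[]⟩),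
  (.rho 1,⟨false,[],(8,3),.mon 0 0 0,[]⟩),
  (.comm 1 0 0,⟨false,[],(8,4),.mon 0 0 0,[]⟩),
  (.rho 0,⟨false,[],(5,9),.mon 0 0 0,[]⟩),
  (.base 0,⟨false,[],(4,5),.mon 0 0 1,[(2,6),(4,9),(2,3)]⟩),
  (.comm 1 0 2,⟨false,[],(4,9),.mon 0 0 1,[(8,9),(8,9)]⟩),
  (.comm 0 5 0,⟨false,[],(3,9),.mon 0 0 1,[]⟩),
  (.ca 7,⟨false,[],(4,6),.mon 0 0 0,[]⟩),
  (.cc 0,⟨false,[],(9,11),.mon 0 0 0,[]⟩),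
  (.ca 0,⟨false,[],(6,10),.mon 0 0 0,[]⟩),
  (.comm 0 2 0,⟨false,[],(4,10),.mon 0 0 0,[]⟩),
  (.rho 2,⟨false,[],(10,8),.mon 0 0 0,[]⟩),
  (.comm 1 0 0,⟨false,[],(4,8),.mon 0 0 0,[]⟩),
  (.rho 0,⟨false,[],(9,5),.mon 0 0 0,[]⟩),
  (.comm 7 0 0,⟨false,[],(3,5),.mon 0 0 1,[]⟩),
  (.rho 0,⟨false,[],(4,2),.mon 0 0 1,[]⟩),
  (.comm 21 6 0,⟨false,[],(2,10),.mon 0 0 0,[]⟩),
  (.comm 13 8 0,⟨false,[],(5,11),.mon 0 0 0,[]⟩),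
  (.rho 0,⟨false,[],(10,4),.mon 0 0 0,[]⟩),
  (.comm 2 0 0,⟨false,[],(2,4),.mon 0 0 0,[]⟩),
  (.sI 4 0,⟨true,[],(2,9),.mon 0 0 1,[]⟩),
  (.sF 0 21,⟨false,[],(2,9),.all,[]⟩),
  (.cc 5,⟨false,[],(3,7),.mon 0 0 0,[]⟩),
  (.ca 0,⟨false,[],(5,8),.mon 0 0 0,[]⟩),
  (.rho 0,⟨false,[],(9,4),.mon 0 0 0,[]⟩),
  (.comm 3 0 0,⟨false,[],(2,4),.all,[]⟩),
  (.ca 4,⟨false,[],(4,6),.all,[]⟩),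
  (.rho 4,⟨false,[],(6,2),.mon 0 0 0,[]⟩),
  (.comm 1 0 0,⟨false,[],(4,2),.all,[]⟩),
  (.rho 20,⟨false,[],(10,8),.mon 0 0 0,[]⟩),
  (.comm 20 0 0,⟨false,[],(6,8),.mon 0 0 0,[]⟩),
  (.rho 0,⟨false,[],(9,7),.mon 0 0 0,[]⟩),
  (.comm 10 0 0,⟨false,[],(2,7),.all,[]⟩),
  (.cc 11,⟨false,[],(3,4),.all,[]⟩),
  (.rho 0,⟨false,[],(5,2),.all,[]⟩),
  (.spec 0,⟨false,[],(5,2),.mon 0 0 0,[]⟩),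
  (.comm 3 0 0,⟨false,[],(5,7),.all,[]⟩),
  (.comm 36 29 0,⟨false,[],(3,6),.mon 0 0 0,[]⟩),
  (.comm 7 0 0,⟨false,[],(3,8),.mon 0 0 0,[]⟩),
  (.rho 0,⟨false,[],(9,2),.mon 0 0 0,[]⟩),
  (.comm 7 0 0,⟨false,[],(9,7),.all,[]⟩),
  (.rho 3,⟨false,[],(7,2),.mon 0 0 0,[]⟩),
  (.comm 20 0 0,⟨false,[],(7,9),.all,[]⟩),
  (.comm 33 5 0,⟨false,[],(3,10),.mon 0 0 0,[]⟩),
  (.rho 0,⟨false,[],(11,2),.mon 0 0 0,[]⟩),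
  (.comm 23 0 0,⟨false,[],(11,9),.all,[]⟩),
  (.cc 19,⟨false,[],(9,11),.all,[]⟩),
  (.rho 34,⟨false,[],(9,5),.mon 0 0 0,[]⟩),
  (.comm 26 0 0,⟨false,[],(2,5),.all,[]⟩),
  (.comm 23 44 7,⟨false,[],(2,3),.all,[(2,5),(2,9)]⟩),
  (.drop 0 [1,28],⟨false,[],(2,3),.all,[]⟩),
  (.cc 0,⟨false,[],(3,2),.all,[]⟩)],
  [(3,3),(18,18),(1,1),(0,0),(26,26),(23,23),(25,25),(15,15),(11,11),(9,9),(6,6),(5,5)]⟩⟩ = true := by decide +kernel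

theorem cCi7 : (Fam.op0 .C 7).check true false true false (Fam.tcG 7)
  ⟨[(12,14),(11,6),(5,3),(8,9)],[],[],[(13,4),(8,14),(12,4),(6,2),(9,15),(9,15)],[(13,8),(11,2),(4,7),(14,15)],(2,4),(4,6),
  ⟨[],[],[],[((3,6),some (1,0,0)),((5,4),some (0,0,1)),((10,15),some (0,0,0))],0,(3,6),(3,6),(3,6),(3,6),(0,0,0),[(5,11),(3,2),(7,13)],
  [(.base 2,⟨false,[],(5,11),.mon 1 0 0,[(7,13),(3,2),(3,6),(5,4),(10,15)]⟩),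
  (.base 0,⟨false,[],(7,13),.mon 0 0 0,[(3,2),(5,11),(3,6),(5,4),(10,15)]⟩),
  (.base 5,⟨false,[],(10,15),.mon 0 0 0,[(7,13),(3,2),(5,11),(3,6),(5,4)]⟩),
  (.cc 0,⟨false,[],(3,14),.mon 0 0 0,[(4,8),(10,11),(6,2),(10,5),(6,7)]⟩),
  (.ca 0,⟨false,[],(5,12),.mon 0 0 0,[(2,9),(7,6),(11,4),(7,3),(11,10)]⟩),
  (.cc 0,⟨false,[],(6,9),.mon 0 0 0,[(11,12),(4,5),(2,7),(4,10),(2,3)]⟩),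
  (.ca 0,⟨false,[],(11,8),.mon 0 0 0,[(6,14),(2,3),(4,10),(2,7),(4,5)]⟩),
  (.cc 0,⟨false,[],(2,13),.mon 0 0 0,[(5,15),(11,10),(7,3),(11,4),(7,6)]⟩),
  (.ca 0,⟨false,[],(4,15),.mon 0 0 0,[(3,13),(6,7),(10,5),(6,2),(10,11)]⟩),
  (.cc 0,⟨false,[],(7,14),.mon 0 0 0,[(10,8),(5,4),(3,6),(5,11),(3,2)]⟩),
  (.ca 0,⟨false,[],(10,12),.mon 0 0 0,[(7,9),(3,2),(5,11),(3,6),(5,4)]⟩),
  (.rho 0,⟨false,[],(13,11),.mon 0 0 0,[(7,9),(3,2),(5,11),(3,6),(5,4)]⟩),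
  (.comm 10 0 0,⟨false,[],(7,11),.mon 0 0 0,[]⟩),
  (.cc 0,⟨false,[],(4,2),.mon 0 0 0,[]⟩),
  (.rho 0,⟨false,[],(3,5),.mon 0 0 0,[]⟩),
  (.comm 14 0 0,⟨false,[],(3,11),.mon 1 0 0,[(3,4),(3,2)]⟩),
  (.ca 1,⟨false,[],(5,3),.mon 0 0 0,[]⟩),
  (.rho 0,⟨false,[],(2,4),.mon 0 0 0,[]⟩),
  (.cc 0,⟨false,[],(11,7),.mon 0 0 0,[]⟩),
  (.rho 0,⟨false,[],(6,10),.mon 0 0 0,[]⟩),
  (.rho 0,⟨false,[],(11,7),.mon 0 0 0,[]⟩),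
  (.comm 5 0 0,⟨false,[],(3,7),.mon 1 0 0,[]⟩),
  (.ca 0,⟨false,[],(5,10),.mon 1 0 0,[]⟩),
  (.cc 0,⟨false,[],(6,3),.mon 1 0 0,[]⟩),
  (.rho 0,⟨false,[],(2,7),.mon 0 1 0,[]⟩),
  (.cc 3,⟨false,[],(10,4),.mon 1 0 0,[]⟩),
  (.rho 0,⟨false,[],(5,11),.mon 0 1 0,[]⟩),
  (.ca 0,⟨false,[],(3,6),.mon 0 1 0,[]⟩),
  (.rho 0,⟨false,[],(7,2),.mon 1 0 0,[]⟩),
  (.sI 4 0,⟨true,[],(7,11),.mon 1 1 0,[]⟩),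
  (.sF 0 17,⟨false,[],(7,11),.all,[]⟩),
  (.cc 0,⟨false,[],(4,2),.all,[]⟩),
  (.ca 0,⟨false,[],(2,4),.all,[]⟩),
  (.ca 8,⟨false,[],(4,10),.mon 0 1 0,[]⟩),
  (.rho 0,⟨false,[],(11,5),.mon 1 0 0,[]⟩),
  (.comm 4 0 0,⟨false,[],(7,5),.all,[]⟩),
  (.rho 18,⟨false,[],(5,3),.mon 0 0 0,[]⟩),
  (.comm 15 0 0,⟨false,[],(5,7),.mon 1 0 0,[]⟩),
  (.comm 7 0 0,⟨false,[],(5,11),.all,[]⟩),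
  (.rho 19,⟨false,[],(11,7),.mon 0 0 0,[]⟩),
  (.comm 1 0 0,⟨false,[],(5,7),.all,[]⟩),
  (.comm 0 39 0,⟨false,[],(5,13),.all,[(5,2)]⟩),
  (.comm 11 20 0,⟨false,[],(3,11),.all,[]⟩),
  (.rho 20,⟨false,[],(11,4),.mon 0 1 0,[]⟩),
  (.comm 1 0 0,⟨false,[],(3,4),.all,[]⟩),
  (.drop 3 [0],⟨false,[],(5,13),.all,[]⟩),
  (.cc 0,⟨false,[],(6,8),.all,[]⟩),
  (.ca 0,⟨false,[],(11,9),.all,[]⟩),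
  (.spec 17,⟨false,[],(7,11),.mon 0 0 0,[]⟩),
  (.comm 1 0 0,⟨false,[],(7,9),.all,[]⟩),
  (.rho 19,⟨false,[],(10,6),.all,[]⟩),
  (.spec 0,⟨false,[],(10,6),.mon 0 0 0,[]⟩),
  (.comm 5 0 0,⟨false,[],(10,8),.all,[]⟩),
  (.ca 7,⟨false,[],(3,15),.all,[]⟩),
  (.cc 0,⟨false,[],(10,14),.all,[]⟩),
  (.ca 0,⟨false,[],(7,12),.all,[]⟩),
  (.rho 31,⟨false,[],(6,3),.mon 1 0 0,[]⟩),
  (.comm 14 0 0,⟨false,[],(6,11),.all,[]⟩),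
  (.rho 0,⟨false,[],(10,7),.all,[]⟩),
  (.spec 0,⟨false,[],(10,7),.mon 0 0 0,[]⟩),
  (.comm 4 0 0,⟨false,[],(10,12),.all,[]⟩),
  (.comm 27 43 0,⟨false,[],(2,10),.mon 0 1 0,[]⟩),
  (.comm 30 0 0,⟨false,[],(4,10),.all,[]⟩),
  (.rho 0,⟨false,[],(11,5),.all,[]⟩),
  (.spec 0,⟨false,[],(11,5),.mon 0 0 0,[]⟩),
  (.comm 19 0 0,⟨false,[],(11,13),.all,[]⟩),
  (.rho 0,⟨false,[],(12,10),.all,[]⟩),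
  (.spec 0,⟨false,[],(12,10),.mon 0 0 0,[]⟩),
  (.comm 13 0 0,⟨false,[],(12,14),.all,[]⟩),
  (.comm 38 44 0,⟨false,[],(2,11),.all,[]⟩),
  (.rho 50,⟨false,[],(11,7),.mon 0 0 0,[]⟩),
  (.comm 1 0 0,⟨false,[],(2,7),.all,[]⟩),
  (.rho 0,⟨false,[],(6,3),.all,[]⟩),
  (.spec 0,⟨false,[],(6,3),.mon 0 0 0,[]⟩),
  (.comm 20 0 0,⟨false,[],(6,15),.all,[]⟩),
  (.rho 0,⟨false,[],(14,7),.all,[]⟩),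
  (.spec 0,⟨false,[],(14,7),.mon 0 0 0,[]⟩),
  (.comm 21 0 0,⟨false,[],(14,12),.all,[]⟩),
  (.rho 15,⟨false,[],(11,5),.all,[]⟩),
  (.cN 9 40 0,⟨false,[],(2,5),.all,[]⟩),
  (.spec 0,⟨false,[],(2,5),.mon 0 0 0,[]⟩),
  (.base 1,⟨false,[],(3,2),.mon 0 0 1,[(7,13),(5,11),(3,6),(5,4),(10,15)]⟩),
  (.comm 49 0 7,⟨false,[],(5,4),.all,[(3,4),(7,4)]⟩),
  (.rho 60,⟨false,[],(11,4),.mon 0 1 0,[]⟩),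
  (.comm 53 0 0,⟨false,[],(7,4),.all,[]⟩),
  (.drop 2 [40,0],⟨false,[],(5,4),.all,[]⟩),
  (.comm 5 0 5,⟨false,[],(2,3),.all,[(2,4)]⟩),
  (.drop 0 [54],⟨false,[],(2,3),.all,[]⟩),
  (.ca 2,⟨false,[],(3,2),.all,[]⟩)],
  [(9,9),(44,44),(1,1),(0,0),(56,56),(57,57),(53,53),(48,48),(42,42),(39,39),(41,41),(36,36),(28,28),(23,23),(20,20),(11,11)]⟩⟩ = true := by decide +kernel

theorem cCi8 : (Fam.op0 .C 8).check true false true false (Fam.tcG 8)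
  ⟨[(13,12),(5,6),(2,9),(10,16),(15,14)],[],[],[(16,13),(17,4),(2,9),(9,14),(17,8)],[(16,17),(13,6),(9,5),(10,14),(3,2)],(2,4),(4,6),
  ⟨[],[],[],[((8,9),some (0,0,1)),((5,9),some (1,0,0)),((17,7),some (0,0,0))],0,(8,9),(8,9),(8,9),(8,9),(0,0,0),[(3,2),(6,2),(11,4)],
  [(.base 0,⟨false,[],(11,4),.mon 0 0 0,[(6,2),(3,2),(8,9),(5,9),(17,7)]⟩),
  (.cc 0,⟨false,[],(15,8),.mon 0 0 0,[(13,3),(2,3),(4,5),(9,5),(16,12)]⟩),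
  (.ca 0,⟨false,[],(14,3),.mon 0 0 0,[(12,8),(9,8),(7,6),(2,6),(10,13)]⟩),
  (.cc 0,⟨false,[],(10,2),.mon 0 0 0,[(7,4),(5,4),(12,13),(3,13),(14,6)]⟩),
  (.ca 0,⟨false,[],(16,9),.mon 0 0 0,[(4,7),(6,7),(13,12),(8,12),(15,5)]⟩),
  (.cc 0,⟨false,[],(17,5),.mon 0 0 0,[(8,12),(13,12),(6,7),(4,7),(11,9)]⟩),
  (.ca 0,⟨false,[],(11,6),.mon 0 0 0,[(3,13),(12,13),(5,4),(7,4),(17,2)]⟩),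
  (.cc 0,⟨false,[],(15,13),.mon 0 0 0,[(2,6),(7,6),(9,8),(12,8),(16,3)]⟩),
  (.ca 0,⟨false,[],(14,12),.mon 0 0 0,[(9,5),(4,5),(2,3),(13,3),(10,8)]⟩),
  (.cc 0,⟨false,[],(10,7),.mon 0 0 0,[(5,9),(8,9),(3,2),(6,2),(14,4)]⟩),
  (.rho 0,⟨false,[],(6,11),.mon 0 0 0,[(5,9),(8,9),(3,2),(6,2),(14,4)]⟩),
  (.comm 10 0 0,⟨false,[],(6,4),.mon 0 0 0,[]⟩),
  (.rho 0,⟨false,[],(5,7),.mon 0 0 0,[]⟩),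
  (.cc 0,⟨false,[],(9,12),.mon 0 0 0,[]⟩),
  (.ca 0,⟨false,[],(2,13),.mon 0 0 0,[]⟩),
  (.rho 0,⟨false,[],(12,3),.mon 0 0 0,[]⟩),
  (.cc 1,⟨false,[],(3,6),.mon 0 0 0,[]⟩),
  (.comm 0 1 0,⟨false,[],(12,6),.mon 0 0 0,[]⟩),
  (.rho 0,⟨false,[],(7,13),.mon 0 0 0,[]⟩),
  (.rho 0,⟨false,[],(12,6),.mon 0 0 0,[]⟩),
  (.rho 6,⟨false,[],(13,8),.mon 0 0 0,[]⟩),
  (.comm 6 0 0,⟨false,[],(2,8),.mon 0 0 0,[]⟩),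
  (.rho 3,⟨false,[],(12,6),.mon 0 0 0,[]⟩),
  (.base 1,⟨false,[],(6,2),.mon 1 0 0,[(11,4),(3,2),(8,9),(5,9),(17,7)]⟩),
  (.comm 0 1 0,⟨false,[],(12,2),.mon 1 0 0,[(17,13)]⟩),
  (.comm 0 3 0,⟨false,[],(12,8),.mon 1 0 0,[]⟩),
  (.rho 0,⟨false,[],(9,13),.mon 0 1 0,[]⟩),
  (.ca 0,⟨false,[],(2,12),.mon 0 1 0,[]⟩),
  (.comm 0 8 0,⟨false,[],(2,6),.mon 0 1 0,[]⟩),
  (.rho 0,⟨false,[],(7,3),.mon 1 0 0,[]⟩),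
  (.rho 17,⟨false,[],(6,4),.mon 0 0 0,[]⟩),
  (.comm 14 0 0,⟨false,[],(3,4),.mon 0 0 0,[]⟩),
  (.rho 0,⟨false,[],(5,2),.mon 0 0 0,[]⟩),
  (.rho 11,⟨false,[],(9,3),.mon 0 0 0,[]⟩),
  (.ca 17,⟨false,[],(8,5),.mon 0 0 0,[]⟩),
  (.rho 0,⟨false,[],(4,9),.mon 0 0 0,[]⟩),
  (.comm 0 2 0,⟨false,[],(4,3),.mon 0 0 0,[]⟩),
  (.rho 0,⟨false,[],(2,5),.mon 0 0 0,[]⟩),
  (.comm 13 0 0,⟨false,[],(12,5),.mon 1 0 0,[]⟩),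
  (.rho 0,⟨false,[],(4,13),.mon 0 1 0,[]⟩),
  (.rho 0,⟨false,[],(12,5),.mon 1 0 0,[]⟩),
  (.comm 13 0 0,⟨false,[],(2,5),.mon 1 1 0,[]⟩),
  (.sI 0 9,⟨true,[],(5,7),.mon 1 1 0,[]⟩),
  (.sF 0 30,⟨false,[],(5,7),.all,[]⟩),
  (.comm 0 14 0,⟨false,[],(5,3),.all,[]⟩),
  (.rho 9,⟨false,[],(8,5),.mon 0 0 0,[]⟩),
  (.rho 29,⟨false,[],(7,2),.mon 0 0 0,[]⟩),
  (.comm 25 0 0,⟨false,[],(7,8),.mon 0 0 0,[]⟩),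
  (.comm 0 2 0,⟨false,[],(7,5),.mon 0 0 0,[]⟩),
  (.rho 0,⟨false,[],(4,6),.mon 0 0 0,[]⟩),
  (.rho 0,⟨false,[],(7,5),.mon 0 0 0,[]⟩),
  (.comm 15 37 0,⟨false,[],(4,12),.mon 0 0 0,[]⟩),
  (.comm 0 20 0,⟨false,[],(3,12),.mon 0 0 0,[]⟩),
  (.rho 0,⟨false,[],(13,2),.mon 0 0 0,[]⟩),
  (.comm 14 0 0,⟨false,[],(4,2),.mon 0 1 0,[]⟩),
  (.rho 0,⟨false,[],(3,5),.mon 1 0 0,[]⟩),
  (.comm 12 0 0,⟨false,[],(3,7),.all,[]⟩),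
  (.comm 0 6 0,⟨false,[],(3,5),.all,[]⟩),
  (.rho 8,⟨false,[],(7,5),.mon 0 0 0,[]⟩),
  (.comm 15 40 0,⟨false,[],(5,13),.all,[]⟩),
  (.comm 0 1 0,⟨false,[],(7,13),.all,[]⟩),
  (.rho 9,⟨false,[],(13,5),.mon 0 0 0,[]⟩),
  (.comm 18 0 0,⟨false,[],(13,7),.all,[]⟩),
  (.cc 19,⟨false,[],(9,12),.all,[]⟩),
  (.comm 0 28 0,⟨false,[],(4,12),.all,[]⟩),
  (.cN 0 2 4,⟨false,[],(4,6),.all,[]⟩),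
  (.rho 14,⟨false,[],(13,5),.mon 0 0 0,[]⟩),
  (.comm 40 0 0,⟨false,[],(9,5),.mon 0 1 0,[]⟩),
  (.rho 0,⟨false,[],(4,8),.mon 1 0 0,[]⟩),
  (.rho 0,⟨false,[],(9,5),.mon 0 1 0,[]⟩),
  (.comm 26 0 0,⟨false,[],(9,7),.all,[]⟩),
  (.rho 21,⟨false,[],(7,5),.mon 0 0 0,[]⟩),
  (.cc 32,⟨false,[],(8,6),.mon 0 1 0,[]⟩),
  (.rho 0,⟨false,[],(7,9),.mon 1 0 0,[]⟩),
  (.comm 30 0 0,⟨false,[],(5,9),.all,[]⟩),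
  (.comm 0 3 0,⟨false,[],(7,9),.all,[]⟩),
  (.rho 40,⟨false,[],(8,5),.mon 0 0 0,[]⟩),
  (.comm 33 0 0,⟨false,[],(8,7),.all,[]⟩),
  (.comm 0 59 0,⟨false,[],(8,13),.all,[]⟩),
  (.rho 0,⟨false,[],(12,9),.all,[]⟩),
  (.spec 0,⟨false,[],(12,9),.mon 0 0 0,[]⟩),
  (.comm 18 7 0,⟨false,[],(13,9),.all,[]⟩),
  (.comm 17 81 0,⟨false,[],(11,12),.all,[(8,12)]⟩),
  (.drop 0 [1],⟨false,[],(11,12),.all,[]⟩),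
  (.comm 0 3 0,⟨false,[],(11,9),.all,[]⟩),
  (.cc 1,⟨false,[],(15,7),.all,[]⟩),
  (.ca 0,⟨false,[],(14,4),.all,[]⟩),
  (.cc 0,⟨false,[],(10,8),.all,[]⟩),
  (.comm 25 48 0,⟨false,[],(4,7),.all,[]⟩),
  (.comm 0 88 0,⟨false,[],(11,7),.all,[(8,7)]⟩),
  (.drop 0 [12],⟨false,[],(11,7),.all,[]⟩),
  (.cc 0,⟨false,[],(15,12),.all,[]⟩),
  (.ca 0,⟨false,[],(14,13),.all,[]⟩),
  (.rho 0,⟨false,[],(12,15),.all,[]⟩),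
  (.cN 31 2 0,⟨false,[],(14,7),.all,[]⟩),
  (.cc 0,⟨false,[],(10,12),.all,[]⟩),
  (.rho 46,⟨false,[],(7,5),.mon 0 0 0,[]⟩),
  (.rho 57,⟨false,[],(12,5),.mon 1 0 0,[]⟩),
  (.comm 54 0 0,⟨false,[],(12,7),.all,[]⟩),
  (.comm 0 2 0,⟨false,[],(12,5),.all,[]⟩),
  (.rho 0,⟨false,[],(4,13),.all,[]⟩),
  (.comm 0 100 0,⟨false,[],(11,13),.all,[(8,13)]⟩),
  (.drop 0 [23],⟨false,[],(11,13),.all,[]⟩),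
  (.spec 42,⟨false,[],(7,13),.mon 0 0 0,[]⟩),
  (.comm 18 0 0,⟨false,[],(15,13),.all,[]⟩),
  (.rho 10,⟨false,[],(6,15),.all,[]⟩),
  (.cc 3,⟨false,[],(15,6),.all,[]⟩),
  (.comm 43 33 0,⟨false,[],(7,12),.all,[]⟩),
  (.cN 0 1 2,⟨false,[],(14,12),.all,[]⟩),
  (.rho 16,⟨false,[],(12,15),.all,[]⟩),
  (.ca 7,⟨false,[],(17,12),.all,[]⟩),
  (.cN 0 19 1,⟨false,[],(17,15),.all,[]⟩),
  (.rho 26,⟨false,[],(6,14),.all,[]⟩),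
  (.spec 0,⟨false,[],(6,14),.mon 0 0 0,[]⟩),
  (.ca 30,⟨false,[],(17,13),.all,[]⟩),
  (.cc 0,⟨false,[],(16,6),.all,[]⟩),
  (.comm 0 2 0,⟨false,[],(16,14),.all,[]⟩),
  (.rho 67,⟨false,[],(7,5),.mon 0 0 0,[]⟩),
  (.comm 74 80 0,⟨false,[],(2,7),.all,[]⟩),
  (.comm 0 1 0,⟨false,[],(2,5),.all,[]⟩),
  (.rho 103,⟨false,[],(7,2),.mon 0 0 0,[]⟩),
  (.comm 77 0 0,⟨false,[],(5,2),.all,[]⟩),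
  (.base 2,⟨false,[],(3,2),.mon 0 0 1,[(11,4),(6,2),(8,9),(5,9),(17,7)]⟩),
  (.comm 78 0 7,⟨false,[],(5,4),.all,[(5,2),(5,7)]⟩),
  (.drop 0 [2,80],⟨false,[],(5,4),.all,[]⟩),
  (.spec 5,⟨false,[],(2,5),.mon 0 0 0,[]⟩),
  (.comm 0 1 5,⟨false,[],(2,3),.all,[(2,4)]⟩),
  (.drop 0 [82],⟨false,[],(2,3),.all,[]⟩),
  (.spec 70,⟨false,[],(3,5),.mon 0 0 0,[]⟩),
  (.comm 0 4 5,⟨false,[],(3,2),.all,[(3,4)]⟩),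
  (.drop 0 [8],⟨false,[],(3,2),.all,[]⟩)],
  [(11,11),(9,9),(3,3),(0,0),(86,86),(73,73),(65,65),(87,87),(60,60),(55,55),(46,46),(43,43),(35,35),(28,28),(26,26),(22,22),(19,19),(14,14)]⟩⟩ = true := by decide +kernel

theorem cCi9 : (Fam.op0 .C 9).check true false true false (Fam.tcG 9)
  ⟨[(14,4),(19,12),(10,3),(9,16),(7,6)],[],[],[(2,7),(2,6),(2,17),(19,7),(4,12),(18,11),(19,3),(11,18)],[(14,12),(6,4),(16,10),(9,2),(19,18)],(2,4),(4,6),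
  ⟨[],[],[],[((5,2),some (0,0,0)),((17,16),some (0,0,0)),((17,11),some (1,0,0))],0,(5,2),(5,2),(5,2),(5,2),(0,0,0),[(15,11),(8,9),(8,2)],
  [(.base 0,⟨false,[],(8,2),.mon 1 0 0,[(8,9),(15,11),(5,2),(17,16),(17,11)]⟩),
  (.base 2,⟨false,[],(15,11),.mon 0 0 0,[(8,2),(8,9),(5,2),(17,16),(17,11)]⟩),
  (.cc 0,⟨false,[],(13,17),.mon 0 0 0,[(3,9),(3,2),(7,9),(11,10),(11,17)]⟩),
  (.ca 0,⟨false,[],(18,8),.mon 0 0 0,[(10,16),(10,11),(6,16),(2,3),(2,8)]⟩),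
  (.cc 0,⟨false,[],(19,3),.mon 0 0 0,[(16,10),(16,17),(4,10),(9,8),(9,3)]⟩),
  (.ca 0,⟨false,[],(12,10),.mon 0 0 0,[(9,3),(9,8),(14,3),(16,17),(16,10)]⟩),
  (.cc 0,⟨false,[],(14,16),.mon 0 0 0,[(2,8),(2,3),(12,8),(10,11),(10,16)]⟩),
  (.ca 0,⟨false,[],(4,9),.mon 0 0 0,[(11,17),(11,10),(19,17),(3,2),(3,9)]⟩),
  (.cc 0,⟨false,[],(6,2),.mon 0 0 0,[(17,11),(17,16),(18,11),(8,9),(8,2)]⟩),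
  (.ca 0,⟨false,[],(7,11),.mon 0 0 0,[(8,2),(8,9),(13,2),(17,16),(17,11)]⟩),
  (.cc 0,⟨false,[],(5,17),.mon 0 0 0,[(3,9),(3,2),(15,9),(11,10),(11,17)]⟩),
  (.ca 0,⟨false,[],(15,8),.mon 0 0 0,[(10,16),(10,11),(5,16),(2,3),(2,8)]⟩),
  (.cc 0,⟨false,[],(13,3),.mon 0 0 0,[(16,10),(16,17),(7,10),(9,8),(9,3)]⟩),
  (.ca 0,⟨false,[],(18,10),.mon 0 0 0,[(9,3),(9,8),(6,3),(16,17),(16,10)]⟩),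
  (.cc 0,⟨false,[],(19,16),.mon 0 0 0,[(2,8),(2,3),(4,8),(10,11),(10,16)]⟩),
  (.ca 0,⟨false,[],(12,9),.mon 0 0 0,[(11,17),(11,10),(14,17),(3,2),(3,9)]⟩),
  (.cc 0,⟨false,[],(14,2),.mon 0 0 0,[(17,11),(17,16),(12,11),(8,9),(8,2)]⟩),
  (.rho 0,⟨false,[],(3,15),.mon 0 0 0,[(17,11),(17,16),(12,11),(8,9),(8,2)]⟩),
  (.comm 16 0 0,⟨false,[],(3,11),.mon 0 0 0,[]⟩),
  (.cc 0,⟨false,[],(8,17),.mon 0 0 0,[]⟩),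
  (.ca 0,⟨false,[],(17,8),.mon 0 0 0,[]⟩),
  (.rho 0,⟨false,[],(9,16),.mon 0 0 0,[]⟩),
  (.rho 0,⟨false,[],(17,8),.mon 0 0 0,[]⟩),
  (.comm 22 0 0,⟨false,[],(17,2),.mon 1 0 0,[(17,9),(17,16)]⟩),
  (.cc 2,⟨false,[],(2,10),.mon 0 0 0,[]⟩),
  (.comm 1 0 0,⟨false,[],(17,10),.mon 1 0 0,[]⟩),
  (.rho 0,⟨false,[],(11,16),.mon 0 1 0,[]⟩),
  (.ca 0,⟨false,[],(2,9),.mon 0 1 0,[]⟩),
  (.rho 0,⟨false,[],(8,3),.mon 1 0 0,[]⟩),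
  (.cc 1,⟨false,[],(9,2),.mon 0 1 0,[]⟩),
  (.rho 0,⟨false,[],(3,8),.mon 1 0 0,[]⟩),
  (.sI 2 0,⟨true,[],(3,11),.mon 2 0 0,[]⟩),
  (.sF 0 13,⟨false,[],(3,11),.all,[]⟩),
  (.rho 13,⟨false,[],(16,9),.mon 0 0 0,[]⟩),
  (.comm 7 0 0,⟨false,[],(11,9),.mon 0 1 0,[]⟩),
  (.rho 0,⟨false,[],(8,10),.mon 1 0 0,[]⟩),
  (.rho 0,⟨false,[],(11,9),.mon 0 1 0,[]⟩),
  (.comm 4 0 0,⟨false,[],(3,9),.all,[]⟩),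
  (.rho 13,⟨false,[],(11,3),.mon 0 0 0,[]⟩),
  (.comm 8 0 0,⟨false,[],(11,8),.mon 1 0 0,[]⟩),
  (.rho 0,⟨false,[],(9,10),.mon 0 1 0,[]⟩),
  (.comm 3 0 0,⟨false,[],(3,10),.all,[]⟩),
  (.rho 0,⟨false,[],(11,2),.all,[]⟩),
  (.comm 0 41 0,⟨false,[],(15,2),.all,[(17,2)]⟩),
  (.comm 11 17 0,⟨false,[],(3,16),.all,[]⟩),
  (.drop 1 [0],⟨false,[],(15,2),.all,[]⟩),
  (.ca 0,⟨false,[],(5,11),.all,[]⟩),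
  (.cc 14,⟨false,[],(8,17),.all,[]⟩),
  (.ca 0,⟨false,[],(17,8),.all,[]⟩),
  (.cc 0,⟨false,[],(11,3),.all,[]⟩),
  (.spec 0,⟨false,[],(11,3),.mon 0 0 0,[]⟩),
  (.comm 4 0 0,⟨false,[],(5,3),.all,[]⟩),
  (.rho 27,⟨false,[],(11,3),.mon 0 0 0,[]⟩),
  (.comm 8 0 0,⟨false,[],(11,16),.all,[]⟩),
  (.comm 0 52 0,⟨false,[],(15,16),.all,[(17,16)]⟩),
  (.base 1,⟨false,[],(8,9),.mon 0 0 0,[(8,2),(15,11),(5,2),(17,16),(17,11)]⟩),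
  (.comm 7 0 7,⟨false,[],(17,16),.all,[(17,9),(17,2)]⟩),
  (.comm 29 35 0,⟨false,[],(2,16),.mon 0 1 0,[]⟩),
  (.rho 0,⟨false,[],(17,3),.mon 1 0 0,[]⟩),
  (.comm 21 0 0,⟨false,[],(17,9),.all,[]⟩),
  (.drop 3 [0,15],⟨false,[],(17,16),.all,[]⟩),
  (.drop 6 [0],⟨false,[],(15,16),.all,[]⟩),
  (.ca 0,⟨false,[],(5,9),.all,[]⟩),
  (.cc 0,⟨false,[],(7,2),.all,[]⟩),
  (.rho 37,⟨false,[],(17,10),.mon 1 0 0,[]⟩),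
  (.comm 17 0 0,⟨false,[],(8,10),.all,[]⟩),
  (.rho 0,⟨false,[],(11,9),.all,[]⟩),
  (.comm 0 65 0,⟨false,[],(15,9),.all,[(17,9)]⟩),
  (.drop 0 [8],⟨false,[],(15,9),.all,[]⟩),
  (.ca 0,⟨false,[],(5,16),.all,[]⟩),
  (.cc 0,⟨false,[],(7,10),.all,[]⟩),
  (.ca 0,⟨false,[],(6,3),.all,[]⟩),
  (.rho 0,⟨false,[],(2,7),.all,[]⟩),
  (.cN 35 9 0,⟨false,[],(6,9),.all,[]⟩),
  (.cc 0,⟨false,[],(4,2),.all,[]⟩),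
  (.rho 33,⟨false,[],(11,2),.all,[]⟩),
  (.spec 0,⟨false,[],(11,2),.mon 0 0 0,[]⟩),
  (.comm 30 0 0,⟨false,[],(5,2),.all,[]⟩),
  (.rho 6,⟨false,[],(2,7),.all,[]⟩),
  (.cN 1 15 0,⟨false,[],(5,7),.all,[]⟩),
  (.cc 0,⟨false,[],(7,5),.all,[]⟩),
  (.cc 34,⟨false,[],(7,17),.all,[]⟩),
  (.ca 0,⟨false,[],(6,8),.all,[]⟩),
  (.spec 23,⟨false,[],(17,9),.mon 0 0 0,[]⟩),
  (.comm 2 0 0,⟨false,[],(7,9),.all,[]⟩),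
  (.ca 54,⟨false,[],(10,17),.mon 1 0 0,[]⟩),
  (.rho 64,⟨false,[],(17,8),.mon 0 0 0,[]⟩),
  (.comm 1 0 0,⟨false,[],(10,8),.mon 1 0 0,[]⟩),
  (.rho 0,⟨false,[],(9,11),.mon 0 1 0,[]⟩),
  (.rho 64,⟨false,[],(11,3),.mon 0 0 0,[]⟩),
  (.comm 1 0 0,⟨false,[],(9,3),.mon 0 1 0,[]⟩),
  (.rho 0,⟨false,[],(2,8),.mon 1 0 0,[]⟩),
  (.rho 0,⟨false,[],(9,3),.mon 0 1 0,[]⟩),
  (.comm 60 0 0,⟨false,[],(9,11),.all,[]⟩),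
  (.cc 48,⟨false,[],(13,9),.all,[]⟩),
  (.spec 1,⟨false,[],(9,11),.mon 0 0 0,[]⟩),
  (.comm 1 0 0,⟨false,[],(13,11),.all,[]⟩),
  (.rho 69,⟨false,[],(8,3),.mon 1 0 0,[]⟩),
  (.comm 65 0 0,⟨false,[],(8,11),.all,[]⟩),
  (.comm 0 7 0,⟨false,[],(2,11),.all,[]⟩),
  (.cc 31,⟨false,[],(13,2),.all,[]⟩),
  (.ca 0,⟨false,[],(18,11),.all,[]⟩),
  (.ca 7,⟨false,[],(18,16),.all,[]⟩),
  (.cc 0,⟨false,[],(19,10),.all,[]⟩),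
  (.rho 0,⟨false,[],(11,18),.all,[]⟩),
  (.cN 5 3 0,⟨false,[],(2,18),.all,[]⟩),
  (.ca 0,⟨false,[],(11,13),.all,[]⟩),
  (.rho 3,⟨false,[],(11,18),.all,[]⟩),
  (.cN 61 6 0,⟨false,[],(5,18),.all,[]⟩),
  (.ca 0,⟨false,[],(15,13),.all,[]⟩),
  (.cc 0,⟨false,[],(13,15),.all,[]⟩),
  (.cc 4,⟨false,[],(17,15),.all,[]⟩),
  (.comm 64 20 0,⟨false,[],(2,17),.all,[]⟩),
  (.spec 0,⟨false,[],(2,17),.mon 0 0 0,[]⟩),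
  (.comm 68 0 0,⟨false,[],(15,17),.all,[]⟩),
  (.cc 13,⟨false,[],(19,17),.all,[]⟩),
  (.cc 33,⟨false,[],(4,3),.all,[]⟩),
  (.spec 67,⟨false,[],(11,3),.mon 0 0 0,[]⟩),
  (.comm 24 62 7,⟨false,[],(10,11),.all,[(8,11),(3,11)]⟩),
  (.drop 0 [20,86],⟨false,[],(10,11),.all,[]⟩),
  (.comm 2 0 5,⟨false,[],(2,3),.all,[(10,3)]⟩),
  (.drop 0 [21],⟨false,[],(2,3),.all,[]⟩),
  (.ca 2,⟨false,[],(3,2),.all,[]⟩)],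
  [(6,6),(45,45),(1,1),(0,0),(71,71),(48,48),(42,42),(43,43),(40,40),(38,38),(57,57),(29,29),(26,26),(16,16),(13,13),(12,12),(11,11),(8,8),(7,7),(20,20)]⟩⟩ = true := by decide +kernel

theorem cCi10 : (Fam.op0 .C 10).check true false true false (Fam.tcG 10)
  ⟨[(10,11),(8,21),(3,14),(13,6),(17,18),(4,5)],[],[],[(19,2),(20,3),(11,14),(13,16),(13,7),(20,4),(13,11),(10,9)],[(9,8),(7,5),(20,11),(14,17),(12,3),(18,19)],(2,4),(4,6),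
  ⟨[],[],[],[((7,17),some (1,0,0)),((15,14),some (0,0,0)),((8,6),some (0,0,0))],0,(7,17),(7,17),(7,17),(7,17),(0,0,0),[(12,18),(2,3),(21,13)],
  [(.base 2,⟨false,[],(12,18),.mon 1 0 0,[(21,13),(2,3),(7,17),(15,14),(8,6)]⟩),
  (.base 0,⟨false,[],(21,13),.mon 0 0 0,[(2,3),(12,18),(7,17),(15,14),(8,6)]⟩),
  (.base 5,⟨false,[],(8,6),.mon 0 0 0,[(21,13),(2,3),(12,18),(7,17),(15,14)]⟩),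
  (.cc 0,⟨false,[],(9,4),.mon 0 0 0,[(10,2),(13,12),(3,19),(5,14),(16,17)]⟩),
  (.ca 0,⟨false,[],(20,5),.mon 0 0 0,[(11,15),(6,7),(14,16),(4,3),(19,18)]⟩),
  (.cc 0,⟨false,[],(11,7),.mon 0 0 0,[(20,16),(4,5),(17,15),(6,12),(18,19)]⟩),
  (.ca 0,⟨false,[],(10,12),.mon 0 0 0,[(9,19),(5,4),(18,2),(13,7),(17,16)]⟩),
  (.cc 0,⟨false,[],(21,3),.mon 0 0 0,[(8,18),(7,6),(19,13),(2,5),(14,15)]⟩),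
  (.ca 0,⟨false,[],(8,14),.mon 0 0 0,[(21,17),(12,13),(16,6),(15,4),(3,2)]⟩),
  (.cc 0,⟨false,[],(9,17),.mon 0 0 0,[(10,14),(3,2),(15,4),(16,6),(12,13)]⟩),
  (.ca 0,⟨false,[],(20,18),.mon 0 0 0,[(11,3),(14,15),(2,5),(19,13),(7,6)]⟩),
  (.cc 0,⟨false,[],(11,19),.mon 0 0 0,[(20,12),(17,16),(13,7),(18,2),(5,4)]⟩),
  (.ca 0,⟨false,[],(10,16),.mon 0 0 0,[(9,7),(18,19),(6,12),(17,15),(4,5)]⟩),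
  (.cc 0,⟨false,[],(21,15),.mon 0 0 0,[(8,5),(19,18),(4,3),(14,16),(6,7)]⟩),
  (.ca 0,⟨false,[],(8,2),.mon 0 0 0,[(21,4),(16,17),(5,14),(3,19),(13,12)]⟩),
  (.cc 0,⟨false,[],(9,13),.mon 0 0 0,[(10,6),(15,14),(7,17),(12,18),(2,3)]⟩),
  (.ca 0,⟨false,[],(20,6),.mon 0 0 0,[(11,13),(2,3),(12,18),(7,17),(15,14)]⟩),
  (.rho 0,⟨false,[],(7,21),.mon 0 0 0,[(11,13),(2,3),(12,18),(7,17),(15,14)]⟩),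
  (.comm 16 0 0,⟨false,[],(7,13),.mon 0 0 0,[]⟩),
  (.cc 0,⟨false,[],(5,2),.mon 0 0 0,[]⟩),
  (.rho 0,⟨false,[],(3,4),.mon 0 0 0,[]⟩),
  (.ca 0,⟨false,[],(14,5),.mon 0 0 0,[]⟩),
  (.rho 0,⟨false,[],(4,15),.mon 0 0 0,[]⟩),
  (.cc 0,⟨false,[],(6,16),.mon 0 0 0,[]⟩),
  (.ca 0,⟨false,[],(13,19),.mon 0 0 0,[]⟩),
  (.cc 0,⟨false,[],(2,18),.mon 0 0 0,[]⟩),
  (.ca 0,⟨false,[],(15,17),.mon 0 0 0,[]⟩),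
  (.comm 0 4 0,⟨false,[],(4,17),.mon 0 0 0,[]⟩),
  (.rho 9,⟨false,[],(12,6),.mon 0 0 0,[]⟩),
  (.comm 5 0 0,⟨false,[],(12,16),.mon 0 0 0,[]⟩),
  (.rho 5,⟨false,[],(18,12),.mon 0 0 0,[]⟩),
  (.comm 1 0 0,⟨false,[],(18,16),.mon 0 0 0,[]⟩),
  (.rho 0,⟨false,[],(17,19),.mon 0 0 0,[]⟩),
  (.comm 5 0 0,⟨false,[],(4,19),.mon 0 0 0,[]⟩),
  (.rho 0,⟨false,[],(18,5),.mon 0 0 0,[]⟩),
  (.comm 34 0 0,⟨false,[],(12,5),.mon 1 0 0,[]⟩),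
  (.rho 0,⟨false,[],(4,13),.mon 0 1 0,[]⟩),
  (.cc 0,⟨false,[],(6,2),.mon 0 1 0,[]⟩),
  (.rho 0,⟨false,[],(3,7),.mon 1 0 0,[]⟩),
  (.comm 14 20 0,⟨false,[],(7,19),.mon 0 0 0,[]⟩),
  (.rho 14,⟨false,[],(19,3),.mon 0 0 0,[]⟩),
  (.comm 1 0 0,⟨false,[],(7,3),.mon 0 0 0,[]⟩),
  (.rho 0,⟨false,[],(2,6),.mon 0 0 0,[]⟩),
  (.rho 0,⟨false,[],(7,3),.mon 0 0 0,[]⟩),
  (.sI 5 0,⟨true,[],(7,13),.mon 1 0 0,[]⟩),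
  (.sF 0 26,⟨false,[],(7,13),.all,[]⟩),
  (.cc 0,⟨false,[],(5,2),.all,[]⟩),
  (.base 1,⟨false,[],(2,3),.mon 0 0 0,[(21,13),(12,18),(7,17),(15,14),(8,6)]⟩),
  (.comm 1 0 2,⟨false,[],(5,3),.all,[(5,4)]⟩),
  (.rho 25,⟨false,[],(17,7),.mon 0 0 0,[]⟩),
  (.comm 22 0 0,⟨false,[],(4,7),.mon 0 0 0,[]⟩),
  (.rho 0,⟨false,[],(6,5),.mon 0 0 0,[]⟩),
  (.comm 5 0 0,⟨false,[],(6,2),.all,[]⟩),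
  (.rho 0,⟨false,[],(3,7),.all,[]⟩),
  (.spec 0,⟨false,[],(3,7),.mon 0 0 0,[]⟩),
  (.comm 6 0 0,⟨false,[],(5,7),.all,[]⟩),
  (.rho 31,⟨false,[],(18,12),.mon 0 0 0,[]⟩),
  (.comm 31 0 0,⟨false,[],(2,12),.mon 0 0 0,[]⟩),
  (.rho 0,⟨false,[],(13,3),.mon 0 0 0,[]⟩),
  (.comm 13 0 0,⟨false,[],(7,3),.all,[]⟩),
  (.spec 0,⟨false,[],(7,3),.mon 0 0 0,[]⟩),
  (.comm 5 0 0,⟨false,[],(5,3),.all,[]⟩),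
  (.cc 6,⟨false,[],(7,5),.all,[]⟩),
  (.cN 10 7 0,⟨false,[],(4,2),.all,[]⟩),
  (.comm 17 6 0,⟨false,[],(5,12),.all,[]⟩),
  (.rho 0,⟨false,[],(13,4),.all,[]⟩),
  (.comm 0 64 0,⟨false,[],(21,4),.all,[(19,4)]⟩),
  (.comm 20 41 0,⟨false,[],(5,18),.all,[]⟩),
  (.drop 1 [0],⟨false,[],(21,4),.all,[]⟩),
  (.ca 0,⟨false,[],(8,5),.all,[]⟩),
  (.cc 0,⟨false,[],(9,7),.all,[]⟩),
  (.comm 48 50 0,⟨false,[],(3,15),.mon 0 0 0,[]⟩),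
  (.rho 0,⟨false,[],(14,2),.mon 0 0 0,[]⟩),
  (.comm 47 0 0,⟨false,[],(14,18),.mon 0 0 0,[]⟩),
  (.rho 49,⟨false,[],(18,12),.mon 0 0 0,[]⟩),
  (.comm 1 0 0,⟨false,[],(14,12),.mon 0 0 0,[]⟩),
  (.rho 0,⟨false,[],(13,15),.mon 0 0 0,[]⟩),
  (.rho 53,⟨false,[],(17,7),.mon 0 0 0,[]⟩),
  (.comm 51 0 0,⟨false,[],(15,7),.mon 0 0 0,[]⟩),
  (.rho 0,⟨false,[],(6,14),.mon 0 0 0,[]⟩),
  (.rho 0,⟨false,[],(15,7),.mon 0 0 0,[]⟩),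
  (.comm 4 0 0,⟨false,[],(13,7),.mon 0 0 0,[]⟩),
  (.rho 0,⟨false,[],(6,12),.mon 0 0 0,[]⟩),
  (.rho 0,⟨false,[],(13,7),.mon 0 0 0,[]⟩),
  (.comm 24 0 0,⟨false,[],(13,3),.all,[]⟩),
  (.comm 0 83 0,⟨false,[],(21,3),.all,[(19,3)]⟩),
  (.comm 6 12 0,⟨false,[],(6,18),.mon 0 0 0,[]⟩),
  (.rho 0,⟨false,[],(19,7),.mon 0 0 0,[]⟩),
  (.comm 28 0 0,⟨false,[],(19,3),.all,[]⟩),
  (.drop 3 [0],⟨false,[],(21,3),.all,[]⟩),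
  (.ca 0,⟨false,[],(8,14),.all,[]⟩),
  (.comm 45 14 0,⟨false,[],(7,15),.all,[]⟩),
  (.rho 0,⟨false,[],(14,6),.all,[]⟩),
  (.spec 0,⟨false,[],(14,6),.mon 0 0 0,[]⟩),
  (.comm 3 0 0,⟨false,[],(8,6),.all,[]⟩),
  (.comm 68 23 0,⟨false,[],(3,17),.mon 0 0 0,[]⟩),
  (.rho 38,⟨false,[],(13,3),.mon 0 0 0,[]⟩),
  (.comm 1 0 0,⟨false,[],(13,17),.mon 0 0 0,[]⟩),
  (.comm 52 0 0,⟨false,[],(7,17),.all,[]⟩),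
  (.rho 16,⟨false,[],(13,7),.mon 0 0 0,[]⟩),
  (.comm 1 0 0,⟨false,[],(13,17),.all,[]⟩),
  (.comm 0 99 0,⟨false,[],(21,17),.all,[(19,17)]⟩),
  (.rho 15,⟨false,[],(19,7),.mon 0 0 0,[]⟩),
  (.comm 57 0 0,⟨false,[],(19,13),.all,[]⟩),
  (.comm 0 6 0,⟨false,[],(19,17),.all,[]⟩),
  (.drop 3 [0],⟨false,[],(21,17),.all,[]⟩),
  (.cc 0,⟨false,[],(10,14),.all,[]⟩),
  (.cc 38,⟨false,[],(10,6),.all,[]⟩),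
  (.cc 18,⟨false,[],(10,12),.all,[]⟩),
  (.ca 0,⟨false,[],(11,7),.all,[]⟩),
  (.rho 0,⟨false,[],(6,10),.all,[]⟩),
  (.cN 19 3 0,⟨false,[],(11,15),.all,[]⟩),
  (.rho 0,⟨false,[],(14,10),.all,[]⟩),
  (.cN 22 6 0,⟨false,[],(8,10),.all,[]⟩),
  (.rho 43,⟨false,[],(6,8),.all,[]⟩),
  (.cN 7 20 0,⟨false,[],(10,8),.all,[]⟩),
  (.ca 8,⟨false,[],(11,13),.all,[]⟩),
  (.rho 37,⟨false,[],(15,7),.mon 0 0 0,[]⟩),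
  (.comm 72 0 0,⟨false,[],(15,13),.all,[]⟩),
  (.rho 36,⟨false,[],(13,7),.mon 0 0 0,[]⟩),
  (.comm 28 0 0,⟨false,[],(13,15),.all,[]⟩),
  (.rho 97,⟨false,[],(17,7),.mon 0 0 0,[]⟩),
  (.comm 76 0 0,⟨false,[],(17,13),.all,[]⟩),
  (.comm 0 46 0,⟨false,[],(17,15),.all,[]⟩),
  (.comm 5 26 0,⟨false,[],(15,17),.all,[]⟩),
  (.comm 2 100 0,⟨false,[],(17,19),.all,[]⟩),
  (.rho 92,⟨false,[],(18,5),.mon 0 0 0,[]⟩),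
  (.comm 80 0 0,⟨false,[],(18,2),.all,[]⟩),
  (.rho 0,⟨false,[],(3,19),.all,[]⟩),
  (.spec 0,⟨false,[],(3,19),.mon 0 0 0,[]⟩),
  (.comm 40 0 0,⟨false,[],(21,19),.all,[]⟩),
  (.cc 40,⟨false,[],(9,17),.all,[]⟩),
  (.ca 0,⟨false,[],(20,18),.all,[]⟩),
  (.comm 73 82 0,⟨false,[],(4,3),.all,[]⟩),
  (.spec 0,⟨false,[],(4,3),.mon 0 0 0,[]⟩),
  (.comm 88 87 7,⟨false,[],(5,4),.all,[(5,3)]⟩),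
  (.drop 0 [74],⟨false,[],(5,4),.all,[]⟩),
  (.comm 2 0 5,⟨false,[],(2,3),.all,[(5,3)]⟩),
  (.drop 0 [76],⟨false,[],(2,3),.all,[]⟩),
  (.spec 75,⟨false,[],(4,2),.mon 0 0 0,[]⟩),
  (.comm 0 3 5,⟨false,[],(3,2),.all,[(5,2)]⟩),
  (.drop 0 [94],⟨false,[],(3,2),.all,[]⟩)],
  [(8,8),(95,95),(3,3),(0,0),(80,80),(78,78),(79,79),(86,86),(71,71),(47,47),(28,28),(26,26),(33,33),(25,25),(23,23),(21,21),(18,18),(17,17),(37,37),(16,16),(11,11),(9,9)]⟩⟩ = true := by decide +kernel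

theorem cCi11 : (Fam.op0 .C 11).check true false true false (Fam.tcG 11)
  ⟨[(22,2),(11,5),(9,14),(13,6),(20,17),(18,19)],[],[],[(17,14),(19,6),(10,16),(20,6),(14,10),(16,3),(13,19)],[(22,11),(16,5),(9,15),(6,20),(19,2),(12,13)],(2,4),(4,6),
  ⟨[],[],[],[((12,13),some (0,0,0)),((22,11),some (1,0,0)),((4,15),some (0,0,0))],0,(12,13),(12,13),(12,13),(12,13),(0,0,0),[(7,6),(2,5),(10,8)],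
  [(.base 1,⟨false,[],(2,5),.mon 1 0 0,[(10,8),(7,6),(12,13),(22,11),(4,15)]⟩),
  (.base 0,⟨false,[],(10,8),.mon 0 0 0,[(2,5),(7,6),(12,13),(22,11),(4,15)]⟩),
  (.base 5,⟨false,[],(4,15),.mon 0 0 0,[(10,8),(2,5),(7,6),(12,13),(22,11)]⟩),
  (.cc 0,⟨false,[],(17,9),.mon 0 0 0,[(23,14),(19,16),(21,20),(13,12),(11,22)]⟩),
  (.ca 0,⟨false,[],(20,14),.mon 0 0 0,[(3,9),(18,21),(16,17),(6,7),(5,2)]⟩),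
  (.cc 0,⟨false,[],(6,8),.mon 0 0 0,[(18,15),(3,7),(5,4),(20,21),(16,19)]⟩),
  (.ca 0,⟨false,[],(13,15),.mon 0 0 0,[(19,8),(23,12),(11,10),(17,16),(21,18)]⟩),
  (.cc 0,⟨false,[],(12,9),.mon 0 0 0,[(2,14),(10,13),(22,23),(4,5),(7,3)]⟩),
  (.rho 0,⟨false,[],(8,13),.mon 0 0 0,[(2,14),(10,13),(22,23),(4,5),(7,3)]⟩),
  (.comm 7 0 0,⟨false,[],(10,13),.mon 0 0 0,[(4,3)]⟩),
  (.cc 0,⟨false,[],(23,12),.mon 0 0 0,[(17,18)]⟩),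
  (.ca 0,⟨false,[],(3,7),.mon 0 0 0,[(20,19)]⟩),
  (.cc 0,⟨false,[],(18,21),.mon 0 0 0,[(6,2)]⟩),
  (.ca 0,⟨false,[],(19,16),.mon 0 0 0,[(13,22)]⟩),
  (.cc 0,⟨false,[],(2,5),.mon 0 0 0,[(12,11)]⟩),
  (.ca 0,⟨false,[],(22,11),.mon 0 0 0,[(7,5)]⟩),
  (.cc 0,⟨false,[],(11,22),.mon 0 0 0,[(21,16)]⟩),
  (.rho 0,⟨false,[],(23,10),.mon 0 0 0,[(21,16)]⟩),
  (.comm 8 0 0,⟨false,[],(23,13),.mon 0 0 0,[]⟩),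
  (.rho 0,⟨false,[],(12,22),.mon 0 0 0,[]⟩),
  (.ca 0,⟨false,[],(7,2),.mon 0 0 0,[]⟩),
  (.rho 0,⟨false,[],(3,6),.mon 0 0 0,[]⟩),
  (.rho 0,⟨false,[],(7,2),.mon 0 0 0,[]⟩),
  (.comm 22 0 0,⟨false,[],(7,5),.mon 1 0 0,[]⟩),
  (.rho 0,⟨false,[],(4,6),.mon 0 1 0,[]⟩),
  (.ca 0,⟨false,[],(10,13),.mon 0 1 0,[]⟩),
  (.cc 0,⟨false,[],(23,12),.mon 0 1 0,[]⟩),
  (.rho 0,⟨false,[],(13,22),.mon 1 0 0,[]⟩),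
  (.rho 17,⟨false,[],(13,22),.mon 0 0 0,[(17,18)]⟩),
  (.comm 19 0 0,⟨false,[],(10,22),.mon 0 0 0,[]⟩),
  (.ca 0,⟨false,[],(4,2),.mon 0 0 0,[]⟩),
  (.rho 0,⟨false,[],(3,5),.mon 0 0 0,[]⟩),
  (.cc 0,⟨false,[],(18,16),.mon 0 0 0,[]⟩),
  (.rho 0,⟨false,[],(17,19),.mon 0 0 0,[]⟩),
  (.ca 0,⟨false,[],(20,18),.mon 0 0 0,[]⟩),
  (.rho 0,⟨false,[],(19,21),.mon 0 0 0,[]⟩),
  (.cc 0,⟨false,[],(2,7),.mon 0 0 0,[]⟩),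
  (.ca 0,⟨false,[],(22,12),.mon 0 0 0,[]⟩),
  (.rho 0,⟨false,[],(13,23),.mon 0 0 0,[]⟩),
  (.cc 0,⟨false,[],(12,10),.mon 0 0 0,[]⟩),
  (.rho 0,⟨false,[],(11,13),.mon 0 0 0,[]⟩),
  (.comm 13 0 0,⟨false,[],(11,22),.mon 1 0 0,[]⟩),
  (.cc 20,⟨false,[],(18,20),.mon 0 0 0,[]⟩),
  (.ca 0,⟨false,[],(19,17),.mon 0 0 0,[]⟩),
  (.rho 0,⟨false,[],(16,18),.mon 0 0 0,[]⟩),
  (.cc 0,⟨false,[],(5,3),.mon 0 0 0,[]⟩),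
  (.rho 0,⟨false,[],(2,4),.mon 0 0 0,[]⟩),
  (.ca 0,⟨false,[],(22,10),.mon 0 0 0,[]⟩),
  (.rho 0,⟨false,[],(11,23),.mon 0 0 0,[]⟩),
  (.rho 0,⟨false,[],(22,10),.mon 0 0 0,[]⟩),
  (.comm 24 0 0,⟨false,[],(22,13),.mon 0 1 0,[]⟩),
  (.rho 0,⟨false,[],(12,23),.mon 1 0 0,[]⟩),
  (.rho 0,⟨false,[],(22,13),.mon 0 1 0,[]⟩),
  (.comm 11 0 0,⟨false,[],(11,13),.mon 1 1 0,[]⟩),
  (.rho 0,⟨false,[],(12,10),.mon 1 1 0,[]⟩),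
  (.cc 35,⟨false,[],(13,11),.mon 0 0 0,[]⟩),
  (.rho 0,⟨false,[],(10,12),.mon 0 0 0,[]⟩),
  (.sI 2 0,⟨true,[],(10,22),.mon 1 1 0,[]⟩),
  (.sF 0 28,⟨false,[],(10,22),.all,[]⟩),
  (.ca 0,⟨false,[],(4,2),.all,[]⟩),
  (.rho 38,⟨false,[],(7,2),.mon 0 0 0,[]⟩),
  (.comm 14 0 0,⟨false,[],(7,4),.mon 0 0 0,[]⟩),
  (.rho 0,⟨false,[],(5,6),.mon 0 0 0,[]⟩),
  (.rho 0,⟨false,[],(7,4),.mon 0 0 0,[]⟩),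
  (.comm 4 0 0,⟨false,[],(7,2),.all,[]⟩),
  (.comm 0 18 0,⟨false,[],(7,4),.all,[]⟩),
  (.comm 6 29 0,⟨false,[],(4,7),.all,[]⟩),
  (.comm 0 20 0,⟨false,[],(2,7),.all,[]⟩),
  (.spec 0,⟨false,[],(2,7),.mon 0 0 0,[]⟩),
  (.comm 3 0 0,⟨false,[],(2,4),.all,[]⟩),
  (.comm 45 23 0,⟨false,[],(2,6),.mon 0 1 0,[]⟩),
  (.comm 11 0 0,⟨false,[],(4,6),.all,[]⟩),
  (.cc 47,⟨false,[],(17,20),.mon 0 1 0,[]⟩),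
  (.ca 0,⟨false,[],(20,17),.mon 0 1 0,[]⟩),
  (.rho 0,⟨false,[],(16,21),.mon 1 0 0,[]⟩),
  (.cc 0,⟨false,[],(5,7),.mon 1 0 0,[]⟩),
  (.rho 0,⟨false,[],(6,4),.mon 0 1 0,[]⟩),
  (.comm 17 0 0,⟨false,[],(6,2),.all,[]⟩),
  (.comm 0 31 0,⟨false,[],(6,4),.all,[]⟩),
  (.rho 38,⟨false,[],(12,10),.mon 0 0 0,[]⟩),
  (.comm 21 0 0,⟨false,[],(12,22),.all,[]⟩),
  (.rho 32,⟨false,[],(22,10),.mon 0 0 0,[]⟩),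
  (.comm 1 0 0,⟨false,[],(12,10),.all,[]⟩),
  (.comm 0 81 0,⟨false,[],(12,8),.all,[(12,23)]⟩),
  (.rho 32,⟨false,[],(22,13),.mon 0 1 0,[]⟩),
  (.comm 26 0 0,⟨false,[],(10,13),.all,[]⟩),
  (.rho 37,⟨false,[],(22,10),.mon 0 0 0,[]⟩),
  (.comm 1 0 0,⟨false,[],(22,13),.all,[]⟩),
  (.drop 4 [0],⟨false,[],(12,8),.all,[]⟩),
  (.rho 50,⟨false,[],(22,12),.mon 0 0 0,[]⟩),
  (.comm 31 0 0,⟨false,[],(10,12),.all,[]⟩),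
  (.spec 0,⟨false,[],(10,12),.mon 0 0 0,[]⟩),
  (.comm 3 0 0,⟨false,[],(10,8),.all,[]⟩),
  (.rho 44,⟨false,[],(22,10),.mon 0 0 0,[]⟩),
  (.comm 66 0 0,⟨false,[],(13,10),.mon 1 0 0,[]⟩),
  (.rho 0,⟨false,[],(11,12),.mon 0 1 0,[]⟩),
  (.rho 0,⟨false,[],(13,10),.mon 1 0 0,[]⟩),
  (.comm 38 0 0,⟨false,[],(13,22),.all,[]⟩),
  (.rho 49,⟨false,[],(22,10),.mon 0 0 0,[]⟩),
  (.comm 1 0 0,⟨false,[],(13,10),.all,[]⟩),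
  (.spec 0,⟨false,[],(13,10),.mon 0 0 0,[]⟩),
  (.comm 8 0 0,⟨false,[],(13,8),.all,[]⟩),
  (.cc 13,⟨false,[],(13,14),.all,[]⟩),
  (.ca 14,⟨false,[],(7,15),.all,[]⟩),
  (.rho 0,⟨false,[],(14,6),.all,[]⟩),
  (.spec 0,⟨false,[],(14,6),.mon 0 0 0,[]⟩),
  (.comm 3 0 0,⟨false,[],(13,6),.all,[]⟩),
  (.ca 4,⟨false,[],(6,9),.all,[]⟩),
  (.rho 19,⟨false,[],(9,13),.all,[]⟩),
  (.spec 0,⟨false,[],(9,13),.mon 0 0 0,[]⟩),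
  (.comm 2 0 0,⟨false,[],(6,13),.all,[]⟩),
  (.cN 9 4 0,⟨false,[],(6,8),.all,[]⟩),
  (.rho 47,⟨false,[],(3,6),.all,[]⟩),
  (.spec 0,⟨false,[],(3,6),.mon 0 0 0,[]⟩),
  (.comm 6 0 0,⟨false,[],(3,9),.all,[]⟩),
  (.comm 43 68 0,⟨false,[],(2,6),.all,[]⟩),
  (.rho 0,⟨false,[],(7,3),.all,[]⟩),
  (.spec 0,⟨false,[],(7,3),.mon 0 0 0,[]⟩),
  (.comm 3 0 0,⟨false,[],(7,9),.all,[]⟩),
  (.rho 36,⟨false,[],(11,13),.all,[]⟩),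
  (.spec 0,⟨false,[],(11,13),.mon 0 0 0,[]⟩),
  (.comm 18 0 0,⟨false,[],(11,14),.all,[]⟩),
  (.rho 33,⟨false,[],(9,13),.all,[]⟩),
  (.spec 0,⟨false,[],(9,13),.mon 0 0 0,[]⟩),
  (.comm 21 0 0,⟨false,[],(9,14),.all,[]⟩),
  (.rho 21,⟨false,[],(14,6),.all,[]⟩),
  (.spec 0,⟨false,[],(14,6),.mon 0 0 0,[]⟩),
  (.comm 19 0 0,⟨false,[],(14,9),.all,[]⟩),
  (.cN 6 3 0,⟨false,[],(11,9),.all,[]⟩),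
  (.rho 48,⟨false,[],(23,13),.all,[]⟩),
  (.spec 0,⟨false,[],(23,13),.mon 0 0 0,[]⟩),
  (.comm 28 0 0,⟨false,[],(23,14),.all,[]⟩),
  (.rho 44,⟨false,[],(12,23),.all,[]⟩),
  (.spec 0,⟨false,[],(12,23),.mon 0 0 0,[]⟩),
  (.comm 2 0 0,⟨false,[],(12,14),.all,[]⟩),
  (.cN 33 10 7,⟨false,[],(13,15),.all,[]⟩),
  (.cc 28,⟨false,[],(20,15),.all,[]⟩),
  (.cc 77,⟨false,[],(17,19),.all,[]⟩),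
  (.rho 93,⟨false,[],(19,17),.mon 0 0 0,[]⟩),
  (.comm 66 0 0,⟨false,[],(19,20),.mon 0 1 0,[]⟩),
  (.comm 2 0 0,⟨false,[],(17,20),.all,[]⟩),
  (.spec 0,⟨false,[],(17,20),.mon 0 0 0,[]⟩),
  (.comm 5 0 0,⟨false,[],(17,15),.all,[]⟩),
  (.cc 39,⟨false,[],(21,9),.all,[]⟩),
  (.ca 0,⟨false,[],(16,14),.all,[]⟩),
  (.ca 7,⟨false,[],(20,18),.all,[]⟩),
  (.comm 101 103 0,⟨false,[],(16,20),.mon 0 0 0,[]⟩),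
  (.comm 1 0 0,⟨false,[],(16,18),.all,[]⟩),
  (.rho 1,⟨false,[],(21,17),.mon 0 0 0,[]⟩),
  (.comm 11 0 0,⟨false,[],(21,19),.all,[]⟩),
  (.rho 18,⟨false,[],(15,22),.all,[]⟩),
  (.spec 0,⟨false,[],(15,22),.mon 0 0 0,[]⟩),
  (.comm 15 0 0,⟨false,[],(20,22),.all,[]⟩),
  (.rho 104,⟨false,[],(22,10),.mon 0 0 0,[]⟩),
  (.comm 63 0 0,⟨false,[],(22,12),.all,[]⟩),
  (.spec 0,⟨false,[],(22,12),.mon 0 0 0,[]⟩),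
  (.comm 67 0 0,⟨false,[],(22,8),.all,[]⟩),
  (.rho 0,⟨false,[],(9,23),.all,[]⟩),
  (.spec 0,⟨false,[],(9,23),.mon 0 0 0,[]⟩),
  (.comm 15 0 0,⟨false,[],(21,23),.all,[]⟩),
  (.rho 89,⟨false,[],(7,3),.mon 1 0 0,[]⟩),
  (.comm 94 0 0,⟨false,[],(4,3),.all,[]⟩),
  (.comm 97 86 0,⟨false,[],(5,2),.all,[]⟩),
  (.base 2,⟨false,[],(7,6),.mon 0 0 0,[(10,8),(2,5),(12,13),(22,11),(4,15)]⟩),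
  (.comm 96 0 7,⟨false,[],(2,3),.all,[(2,6)]⟩),
  (.drop 0 [49],⟨false,[],(2,3),.all,[]⟩),
  (.spec 3,⟨false,[],(5,2),.mon 0 0 0,[]⟩),
  (.comm 100 3 7,⟨false,[],(4,5),.all,[(4,6)]⟩),
  (.drop 0 [96],⟨false,[],(4,5),.all,[]⟩),
  (.comm 2 0 5,⟨false,[],(3,2),.all,[(4,2)]⟩),
  (.drop 0 [110],⟨false,[],(3,2),.all,[]⟩)],
  [(9,9),(8,8),(5,5),(0,0),(101,101),(111,111),(99,99),(92,92),(59,59),(52,52),(42,42),(78,78),(80,80),(88,88),(36,36),(35,35),(28,28),(26,26),(23,23),(33,33),(21,21),(25,25),(18,18),(11,11)]⟩⟩ = true := by decide +kernel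

theorem cCi12 : (Fam.op0 .C 12).check true false true false (Fam.tcG 12)
  ⟨[(4,8),(6,7),(22,3),(16,19),(21,14),(10,13),(24,25)],[],[],[(14,11),(14,6),(24,17),(13,10),(23,24),(21,19),(19,7),(17,5),(10,20)],[(25,8),(20,21),(16,3),(4,10),(12,6),(18,15),(23,22)],(2,4),(4,6),
  ⟨[],[],[],[((4,5),some (0,0,1)),((15,14),some (0,0,1)),((17,13),some (1,0,0)),((4,13),some (0,0,0))],0,(4,5),(4,5),(4,5),(4,5),(0,0,0),[(8,9),(20,21),(18,10),(8,10)],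
  [(.base 1,⟨false,[],(18,10),.mon 1 0 0,[(8,10),(20,21),(8,9),(4,5),(15,14),(17,13),(4,13)]⟩),
  (.cc 0,⟨false,[],(15,4),.mon 1 0 0,[(25,4),(21,20),(25,24),(10,11),(18,19),(2,7),(10,7)]⟩),
  (.ca 0,⟨false,[],(20,8),.mon 1 0 0,[(24,8),(14,15),(24,25),(13,12),(17,16),(23,6),(13,6)]⟩),
  (.cc 0,⟨false,[],(21,25),.mon 1 0 0,[(9,25),(19,18),(9,8),(7,6),(2,3),(22,12),(7,12)]⟩),
  (.ca 0,⟨false,[],(14,24),.mon 1 0 0,[(5,24),(16,17),(5,4),(6,7),(23,22),(3,11),(6,11)]⟩),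
  (.cc 0,⟨false,[],(19,9),.mon 1 0 0,[(11,9),(3,2),(11,10),(12,13),(22,23),(16,5),(12,5)]⟩),
  (.rho 0,⟨false,[],(8,18),.mon 0 1 0,[(11,9),(3,2),(11,10),(12,13),(22,23),(16,5),(12,5)]⟩),
  (.comm 6 0 0,⟨false,[],(8,10),.mon 1 1 0,[(4,13)]⟩),
  (.base 4,⟨false,[],(4,5),.mon 0 0 1,[(8,10),(18,10),(20,21),(8,9),(15,14),(17,13),(4,13)]⟩),
  (.cc 0,⟨false,[],(10,11),.mon 0 0 1,[(25,4),(15,4),(21,20),(25,24),(18,19),(2,7),(10,7)]⟩),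
  (.comm 2 0 2,⟨false,[],(8,11),.mon 1 1 1,[(8,9),(8,7),(25,13),(15,13)]⟩),
  (.ca 0,⟨false,[],(4,12),.mon 1 1 1,[(4,5),(4,6),(24,10),(20,10)]⟩),
  (.cc 0,⟨false,[],(10,6),.mon 1 1 1,[(10,11),(10,12),(9,4),(21,4)]⟩),
  (.ca 0,⟨false,[],(13,7),.mon 1 1 1,[(13,12),(13,11),(5,8),(14,8)]⟩),
  (.cc 0,⟨false,[],(7,13),.mon 1 1 1,[(7,6),(7,5),(11,25),(19,25)]⟩),
  (.ca 0,⟨false,[],(6,10),.mon 1 1 1,[(6,7),(6,9),(12,24),(16,24)]⟩),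
  (.rho 0,⟨false,[],(11,7),.mon 1 1 1,[(6,7),(6,9),(12,24),(16,24)]⟩),
  (.comm 6 0 0,⟨false,[],(8,7),.mon 2 2 2,[]⟩),
  (.rho 0,⟨false,[],(6,9),.mon 2 2 2,[]⟩),
  (.cc 0,⟨false,[],(12,24),.mon 2 2 2,[]⟩),
  (.ca 0,⟨false,[],(11,25),.mon 2 2 2,[]⟩),
  (.cc 0,⟨false,[],(5,8),.mon 2 2 2,[]⟩),
  (.ca 3,⟨false,[],(7,5),.mon 2 2 2,[]⟩),
  (.rho 0,⟨false,[],(4,6),.mon 2 2 2,[]⟩),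
  (.rho 0,⟨false,[],(7,5),.mon 2 2 2,[]⟩),
  (.comm 3 0 0,⟨false,[],(7,8),.mon 4 4 4,[]⟩),
  (.comm 2 7 0,⟨false,[],(4,9),.mon 4 4 4,[]⟩),
  (.rho 0,⟨false,[],(8,5),.mon 4 4 4,[]⟩),
  (.comm 2 0 0,⟨false,[],(7,5),.mon 8 8 8,[]⟩),
  (.rho 0,⟨false,[],(4,6),.mon 8 8 8,[]⟩),
  (.rho 11,⟨false,[],(8,7),.mon 2 2 2,[]⟩),
  (.comm 9 0 0,⟨false,[],(5,7),.mon 4 4 4,[]⟩),
  (.rho 0,⟨false,[],(6,4),.mon 4 4 4,[]⟩),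
  (.sI 3 0,⟨true,[],(6,9),.mon 12 12 12,[]⟩),
  (.cc 10,⟨false,[],(10,12),.mon 2 2 2,[]⟩),
  (.comm 0 15 0,⟨false,[],(10,24),.mon 4 4 4,[]⟩),
  (.comm 28 0 0,⟨false,[],(8,24),.mon 5 5 4,[]⟩),
  (.ca 0,⟨false,[],(4,25),.mon 5 5 4,[]⟩),
  (.cc 0,⟨false,[],(10,8),.mon 5 5 4,[]⟩),
  (.rho 0,⟨false,[],(9,11),.mon 5 5 4,[]⟩),
  (.rho 19,⟨false,[],(24,10),.mon 2 2 2,[]⟩),
  (.comm 4 0 0,⟨false,[],(8,10),.mon 7 7 6,[]⟩),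
  (.rho 0,⟨false,[],(11,9),.mon 7 7 6,[]⟩),
  (.sI 3 0,⟨true,[],(6,9),.mon 12 12 10,[]⟩),
  (.sN 0,⟨true,[],(6,9),.mon (-12) (-12) (-10),[]⟩),
  (.sA 11 0,⟨true,[],(6,9),.mon 0 0 2,[]⟩),
  (.sF 0 27,⟨false,[],(6,9),.all,[]⟩),
  (.comm 39 21 0,⟨false,[],(7,10),.mon 5 5 4,[]⟩),
  (.comm 0 13 0,⟨false,[],(7,12),.mon 7 7 6,[]⟩),
  (.rho 0,⟨false,[],(13,6),.mon 7 7 6,[]⟩),
  (.comm 3 0 0,⟨false,[],(13,9),.all,[]⟩),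
  (.ca 0,⟨false,[],(10,5),.all,[]⟩),
  (.comm 0 51 0,⟨false,[],(18,5),.all,[(8,5)]⟩),
  (.ca 6,⟨false,[],(7,5),.all,[]⟩),
  (.rho 7,⟨false,[],(8,7),.all,[]⟩),
  (.spec 0,⟨false,[],(8,7),.mon 0 0 0,[]⟩),
  (.comm 2 0 0,⟨false,[],(8,5),.all,[]⟩),
  (.drop 4 [0],⟨false,[],(18,5),.all,[]⟩),
  (.ca 0,⟨false,[],(17,9),.all,[]⟩),
  (.cc 0,⟨false,[],(2,24),.all,[]⟩),
  (.cc 13,⟨false,[],(12,24),.all,[]⟩),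
  (.ca 0,⟨false,[],(11,25),.all,[]⟩),
  (.rho 0,⟨false,[],(24,10),.all,[]⟩),
  (.spec 0,⟨false,[],(24,10),.mon 0 0 0,[]⟩),
  (.comm 4 0 0,⟨false,[],(2,10),.all,[]⟩),
  (.rho 0,⟨false,[],(11,3),.all,[]⟩),
  (.comm 0 55 0,⟨false,[],(8,3),.all,[]⟩),
  (.comm 13 45 0,⟨false,[],(7,8),.all,[]⟩),
  (.rho 46,⟨false,[],(9,4),.mon 2 2 2,[]⟩),
  (.comm 22 0 0,⟨false,[],(6,4),.all,[]⟩),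
  (.rho 0,⟨false,[],(5,7),.all,[]⟩),
  (.spec 0,⟨false,[],(5,7),.mon 0 0 0,[]⟩),
  (.comm 4 0 0,⟨false,[],(5,8),.all,[]⟩),
  (.spec 0,⟨false,[],(5,8),.mon 0 0 0,[]⟩),
  (.comm 7 0 0,⟨false,[],(5,3),.all,[]⟩),
  (.comm 28 35 0,⟨false,[],(6,11),.all,[]⟩),
  (.rho 0,⟨false,[],(10,7),.all,[]⟩),
  (.comm 0 76 0,⟨false,[],(18,7),.all,[(8,7)]⟩),
  (.drop 0 [31],⟨false,[],(18,7),.all,[]⟩),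
  (.ca 0,⟨false,[],(17,6),.all,[]⟩),
  (.cc 0,⟨false,[],(2,12),.all,[]⟩),
  (.ca 0,⟨false,[],(23,11),.all,[]⟩),
  (.cc 0,⟨false,[],(22,5),.all,[]⟩),
  (.ca 0,⟨false,[],(3,9),.all,[]⟩),
  (.rho 36,⟨false,[],(11,6),.mon 5 5 4,[]⟩),
  (.comm 38 0 0,⟨false,[],(11,9),.all,[]⟩),
  (.rho 64,⟨false,[],(9,4),.mon 2 2 2,[]⟩),
  (.comm 1 0 0,⟨false,[],(11,4),.all,[]⟩),
  (.comm 0 77 0,⟨false,[],(8,4),.all,[]⟩),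
  (.ca 0,⟨false,[],(4,8),.all,[]⟩),
  (.cN 6 1 0,⟨false,[],(3,5),.all,[]⟩),
  (.cN 21 2 1,⟨false,[],(6,8),.all,[]⟩),
  (.comm 55 66 0,⟨false,[],(7,24),.mon 9 9 8,[]⟩),
  (.rho 0,⟨false,[],(25,6),.mon 9 9 8,[]⟩),
  (.comm 47 0 0,⟨false,[],(25,9),.all,[]⟩),
  (.comm 0 55 0,⟨false,[],(25,11),.all,[]⟩),
  (.rho 0,⟨false,[],(10,24),.all,[]⟩),
  (.comm 0 96 0,⟨false,[],(18,24),.all,[(8,24)]⟩),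
  (.drop 0 [3],⟨false,[],(18,24),.all,[]⟩),
  (.ca 0,⟨false,[],(17,25),.all,[]⟩),
  (.cc 0,⟨false,[],(2,8),.all,[]⟩),
  (.ca 0,⟨false,[],(23,4),.all,[]⟩),
  (.rho 19,⟨false,[],(4,23),.all,[]⟩),
  (.cN 33 1 0,⟨false,[],(6,23),.all,[]⟩),
  (.ca 0,⟨false,[],(7,2),.all,[]⟩),
  (.rho 0,⟨false,[],(3,6),.all,[]⟩),
  (.spec 0,⟨false,[],(3,6),.mon 0 0 0,[]⟩),
  (.comm 40 0 0,⟨false,[],(8,6),.all,[]⟩),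
  (.cc 54,⟨false,[],(13,11),.all,[]⟩),
  (.rho 87,⟨false,[],(9,4),.mon 2 2 2,[]⟩),
  (.comm 72 0 0,⟨false,[],(9,25),.mon 7 7 6,[]⟩),
  (.rho 0,⟨false,[],(24,8),.mon 7 7 6,[]⟩),
  (.comm 51 0 0,⟨false,[],(12,8),.all,[]⟩),
  (.rho 0,⟨false,[],(9,13),.all,[]⟩),
  (.cN 5 63 0,⟨false,[],(9,11),.all,[]⟩),
  (.cc 45,⟨false,[],(12,10),.all,[]⟩),
  (.cc 37,⟨false,[],(15,13),.all,[]⟩),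
  (.cc 18,⟨false,[],(15,9),.all,[]⟩),
  (.ca 0,⟨false,[],(20,5),.all,[]⟩),
  (.cc 0,⟨false,[],(21,11),.all,[]⟩),
  (.ca 0,⟨false,[],(14,12),.all,[]⟩),
  (.ca 4,⟨false,[],(20,10),.all,[]⟩),
  (.cc 0,⟨false,[],(21,4),.all,[]⟩),
  (.rho 0,⟨false,[],(5,20),.all,[]⟩),
  (.cN 66 5 0,⟨false,[],(18,20),.all,[]⟩),
  (.ca 0,⟨false,[],(17,15),.all,[]⟩),
  (.rho 53,⟨false,[],(9,4),.all,[]⟩),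
  (.spec 0,⟨false,[],(9,4),.mon 0 0 0,[]⟩),
  (.comm 69 0 0,⟨false,[],(17,4),.all,[]⟩),
  (.rho 46,⟨false,[],(4,23),.all,[]⟩),
  (.cN 1 28 0,⟨false,[],(17,23),.all,[]⟩),
  (.ca 0,⟨false,[],(18,2),.all,[]⟩),
  (.cc 0,⟨false,[],(15,17),.all,[]⟩),
  (.rho 50,⟨false,[],(4,23),.all,[]⟩),
  (.cN 11 32 0,⟨false,[],(21,23),.all,[]⟩),
  (.ca 0,⟨false,[],(14,2),.all,[]⟩),
  (.cc 0,⟨false,[],(19,17),.all,[]⟩),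
  (.spec 64,⟨false,[],(5,8),.mon 0 0 0,[]⟩),
  (.comm 80 0 0,⟨false,[],(18,8),.all,[]⟩),
  (.rho 80,⟨false,[],(8,16),.all,[]⟩),
  (.spec 0,⟨false,[],(8,16),.mon 0 0 0,[]⟩),
  (.comm 2 0 0,⟨false,[],(18,16),.all,[]⟩),
  (.cc 84,⟨false,[],(15,11),.all,[]⟩),
  (.ca 0,⟨false,[],(20,12),.all,[]⟩),
  (.cc 0,⟨false,[],(21,6),.all,[]⟩),
  (.ca 0,⟨false,[],(14,7),.all,[]⟩),
  (.cc 0,⟨false,[],(19,13),.all,[]⟩),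
  (.rho 3,⟨false,[],(13,21),.all,[]⟩),
  (.spec 0,⟨false,[],(13,21),.mon 0 0 0,[]⟩),
  (.comm 2 0 0,⟨false,[],(19,21),.all,[]⟩),
  (.spec 89,⟨false,[],(12,24),.mon 0 0 0,[]⟩),
  (.comm 7 0 0,⟨false,[],(20,24),.all,[]⟩),
  (.ca 92,⟨false,[],(23,25),.all,[]⟩),
  (.rho 0,⟨false,[],(24,22),.all,[]⟩),
  (.spec 0,⟨false,[],(24,22),.mon 0 0 0,[]⟩),
  (.comm 3 0 0,⟨false,[],(20,22),.all,[]⟩),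
  (.cc 108,⟨false,[],(13,4),.mon 5 5 4,[]⟩),
  (.rho 0,⟨false,[],(5,12),.mon 5 5 4,[]⟩),
  (.comm 97 0 0,⟨false,[],(5,24),.all,[]⟩),
  (.rho 76,⟨false,[],(4,23),.all,[]⟩),
  (.cN 1 58 0,⟨false,[],(22,24),.all,[]⟩),
  (.ca 66,⟨false,[],(24,5),.all,[]⟩),
  (.spec 0,⟨false,[],(24,5),.mon 0 0 0,[]⟩),
  (.comm 103 0 0,⟨false,[],(2,5),.all,[]⟩),
  (.cc 11,⟨false,[],(22,8),.all,[]⟩),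
  (.ca 0,⟨false,[],(3,4),.all,[]⟩),
  (.rho 43,⟨false,[],(5,20),.all,[]⟩),
  (.cN 3 48 0,⟨false,[],(2,20),.all,[]⟩),
  (.base 2,⟨false,[],(20,21),.mon 0 0 1,[(8,10),(18,10),(8,9),(4,5),(15,14),(17,13),(4,13)]⟩),
  (.comm 1 0 7,⟨false,[],(2,3),.all,[(2,21)]⟩),
  (.spec 57,⟨false,[],(12,8),.mon 0 0 0,[]⟩),
  (.comm 27 0 0,⟨false,[],(20,8),.all,[]⟩),
  (.spec 0,⟨false,[],(20,8),.mon 0 0 0,[]⟩),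
  (.comm 106 0 0,⟨false,[],(20,3),.all,[]⟩),
  (.drop 4 [0],⟨false,[],(2,3),.all,[]⟩),
  (.rho 53,⟨false,[],(11,21),.all,[]⟩),
  (.comm 0 165 0,⟨false,[],(8,21),.all,[]⟩),
  (.cN 54 88 87,⟨false,[],(21,8),.all,[]⟩),
  (.cN 94 1 0,⟨false,[],(3,20),.all,[]⟩),
  (.comm 0 10 7,⟨false,[],(3,2),.all,[(3,21)]⟩),
  (.spec 92,⟨false,[],(11,4),.mon 0 0 0,[]⟩),
  (.comm 38 0 0,⟨false,[],(15,4),.all,[]⟩),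
  (.rho 99,⟨false,[],(4,23),.all,[]⟩),
  (.cN 1 81 0,⟨false,[],(15,23),.all,[]⟩),
  (.ca 0,⟨false,[],(20,2),.all,[]⟩),
  (.drop 5 [0],⟨false,[],(3,2),.all,[]⟩)],
  [(22,22),(20,20),(11,11),(0,0),(111,111),(95,95),(132,132),(116,116),(94,94),(78,78),(100,100),(71,71),(77,77),(70,70),(69,69),(65,65),(60,60),(53,53),(49,49),(44,44),(61,61),(36,36),(30,30),(51,51),(25,25),(33,33)]⟩⟩ = true := by decide +kernel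

theorem cCi13 : Fam.chkP .C 13 1 true true false true false
  ⟨[],[],[],[((27,25),some (1,0,0)),((14,15),some (0,0,0)),((21,20),some (0,0,1))],0,(27,25),(27,25),(27,25),(27,25),(0,0,0),[(5,7),(16,17),(11,10)],
  [(.base 2,⟨false,[],(5,7),.mon 1 0 0,[(11,10),(16,17),(27,25),(14,15),(21,20)]⟩),
  (.base 3,⟨false,[],(27,25),.mon 1 0 0,[(11,10),(16,17),(5,7),(14,15),(21,20)]⟩),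
  (.cc 0,⟨false,[],(9,11),.mon 1 0 0,[(25,24),(18,19),(5,3),(20,21),(15,14)]⟩),
  (.ca 0,⟨false,[],(23,21),.mon 1 0 0,[(7,6),(12,13),(27,3),(10,11),(17,16)]⟩),
  (.cc 0,⟨false,[],(13,15),.mon 1 0 0,[(3,2),(22,23),(9,7),(24,25),(19,18)]⟩),
  (.ca 0,⟨false,[],(19,17),.mon 1 0 0,[(3,2),(8,9),(23,25),(6,7),(13,12)]⟩),
  (.cc 0,⟨false,[],(17,19),.mon 1 0 0,[(7,6),(26,27),(13,11),(2,3),(23,22)]⟩),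
  (.ca 0,⟨false,[],(15,13),.mon 1 0 0,[(25,24),(4,5),(19,21),(2,3),(9,8)]⟩),
  (.cc 0,⟨false,[],(21,23),.mon 1 0 0,[(11,10),(4,5),(17,15),(6,7),(27,26)]⟩),
  (.ca 0,⟨false,[],(11,9),.mon 1 0 0,[(21,20),(26,27),(15,17),(24,25),(5,4)]⟩),
  (.cc 0,⟨false,[],(25,27),.mon 1 0 0,[(15,14),(8,9),(21,19),(10,11),(5,4)]⟩),
  (.ca 0,⟨false,[],(7,5),.mon 1 0 0,[(17,16),(22,23),(11,13),(20,21),(27,26)]⟩),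
  (.cc 0,⟨false,[],(3,5),.mon 1 0 0,[(19,18),(12,13),(25,23),(14,15),(9,8)]⟩),
  (.comm 12 0 0,⟨false,[],(3,7),.mon 2 0 0,[(27,23)]⟩),
  (.comm 0 2 0,⟨false,[],(3,5),.mon 3 0 0,[]⟩),
  (.cc 14,⟨false,[],(5,3),.mon 1 0 0,[(25,24),(18,19),(9,11),(20,21),(15,14)]⟩),
  (.comm 2 0 0,⟨false,[],(5,7),.mon 3 0 0,[]⟩),
  (.comm 2 0 0,⟨false,[],(3,7),.mon 6 0 0,[]⟩),
  (.cc 3,⟨false,[],(7,5),.mon 3 0 0,[]⟩),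
  (.rho 0,⟨false,[],(4,6),.mon 0 3 0,[]⟩),
  (.rho 0,⟨false,[],(7,5),.mon 3 0 0,[]⟩),
  (.comm 3 0 0,⟨false,[],(3,5),.mon 9 0 0,[]⟩),
  (.cc 5,⟨false,[],(5,3),.mon 3 0 0,[]⟩),
  (.rho 0,⟨false,[],(2,4),.mon 0 3 0,[]⟩),
  (.rho 0,⟨false,[],(5,3),.mon 3 0 0,[]⟩),
  (.sI 3 0,⟨true,[],(5,7),.mon 12 0 0,[]⟩),
  (.comm 25 11 0,⟨false,[],(3,7),.mon 4 0 0,[]⟩),
  (.rho 7,⟨false,[],(7,5),.mon 3 0 0,[]⟩),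
  (.comm 1 0 0,⟨false,[],(3,5),.mon 7 0 0,[]⟩),
  (.rho 5,⟨false,[],(5,3),.mon 3 0 0,[]⟩),
  (.sI 1 0,⟨true,[],(5,7),.mon 10 0 0,[]⟩),
  (.sN 0,⟨true,[],(5,7),.mon (-10) 0 0,[]⟩),
  (.sA 6 0,⟨true,[],(5,7),.mon 2 0 0,[]⟩),
  (.sF 0 16,⟨false,[],(5,7),.all,[]⟩),
  (.cc 0,⟨false,[],(5,3),.all,[]⟩),
  (.ca 19,⟨false,[],(27,3),.mon 1 0 0,[(7,6),(12,13),(23,21),(10,11),(17,16)]⟩),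
  (.cc 0,⟨false,[],(9,7),.mon 1 0 0,[(3,2),(22,23),(13,15),(24,25),(19,18)]⟩),
  (.ca 0,⟨false,[],(23,25),.mon 1 0 0,[(3,2),(8,9),(19,17),(6,7),(13,12)]⟩),
  (.cc 0,⟨false,[],(13,11),.mon 1 0 0,[(7,6),(26,27),(17,19),(2,3),(23,22)]⟩),
  (.ca 0,⟨false,[],(19,21),.mon 1 0 0,[(25,24),(4,5),(15,13),(2,3),(9,8)]⟩),
  (.cc 0,⟨false,[],(17,15),.mon 1 0 0,[(11,10),(4,5),(21,23),(6,7),(27,26)]⟩),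
  (.base 1,⟨false,[],(16,17),.mon 0 0 0,[(11,10),(5,7),(27,25),(14,15),(21,20)]⟩),
  (.comm 1 0 2,⟨false,[],(16,15),.mon 1 0 0,[(14,15),(4,7),(6,7)]⟩),
  (.ca 0,⟨false,[],(14,17),.mon 1 0 0,[(16,17),(26,25),(24,25)]⟩),
  (.cc 0,⟨false,[],(20,19),.mon 1 0 0,[(18,19),(8,11),(10,11)]⟩),
  (.ca 0,⟨false,[],(10,13),.mon 1 0 0,[(12,13),(22,21),(20,21)]⟩),
  (.cc 0,⟨false,[],(24,23),.mon 1 0 0,[(22,23),(12,15),(14,15)]⟩),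
  (.ca 0,⟨false,[],(6,9),.mon 1 0 0,[(8,9),(18,17),(16,17)]⟩),
  (.cc 0,⟨false,[],(2,27),.mon 1 0 0,[(26,27),(16,19),(18,19)]⟩),
  (.ca 0,⟨false,[],(2,5),.mon 1 0 0,[(4,5),(14,13),(12,13)]⟩),
  (.rho 0,⟨false,[],(4,3),.mon 0 1 0,[(4,5),(14,13),(12,13)]⟩),
  (.comm 37 0 0,⟨false,[],(4,7),.mon 2 1 0,[]⟩),
  (.cc 0,⟨false,[],(4,3),.mon 2 1 0,[]⟩),
  (.rho 0,⟨false,[],(2,5),.mon 1 2 0,[]⟩),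
  (.comm 20 0 0,⟨false,[],(2,7),.all,[]⟩),
  (.rho 35,⟨false,[],(7,5),.mon 3 0 0,[]⟩),
  (.comm 1 0 0,⟨false,[],(2,5),.all,[]⟩),
  (.comm 23 42 0,⟨false,[],(3,7),.all,[]⟩),
  (.ca 43,⟨false,[],(3,27),.mon 3 0 0,[]⟩),
  (.cc 0,⟨false,[],(7,9),.mon 3 0 0,[]⟩),
  (.ca 43,⟨false,[],(27,25),.mon 3 0 0,[]⟩),
  (.rho 0,⟨false,[],(24,26),.mon 0 3 0,[]⟩),
  (.cc 0,⟨false,[],(10,8),.mon 0 3 0,[]⟩),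
  (.rho 0,⟨false,[],(9,11),.mon 3 0 0,[]⟩),
  (.comm 4 0 0,⟨false,[],(7,11),.mon 6 0 0,[]⟩),
  (.comm 7 0 0,⟨false,[],(3,11),.all,[]⟩),
  (.rho 0,⟨false,[],(10,2),.all,[]⟩),
  (.base 0,⟨false,[],(11,10),.mon 0 0 1,[(16,17),(5,7),(27,25),(14,15),(21,20)]⟩),
  (.comm 29 0 2,⟨false,[],(13,10),.mon 1 0 1,[(13,12),(5,6),(5,4),(26,25),(24,25),(16,19),(18,19)]⟩),
  (.comm 2 0 0,⟨false,[],(13,2),.all,[]⟩),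
  (.ca 10,⟨false,[],(25,23),.mon 3 0 0,[]⟩),
  (.rho 0,⟨false,[],(22,24),.mon 0 3 0,[]⟩),
  (.cc 0,⟨false,[],(12,10),.mon 0 3 0,[]⟩),
  (.rho 0,⟨false,[],(11,13),.mon 3 0 0,[]⟩),
  (.comm 0 9 0,⟨false,[],(7,13),.mon 9 0 0,[]⟩),
  (.comm 41 0 0,⟨false,[],(5,13),.all,[]⟩),
  (.spec 0,⟨false,[],(5,13),.mon 0 0 0,[]⟩),
  (.comm 7 0 0,⟨false,[],(5,2),.all,[]⟩),
  (.rho 58,⟨false,[],(7,5),.mon 3 0 0,[]⟩),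
  (.comm 21 0 0,⟨false,[],(3,5),.all,[]⟩),
  (.cc 0,⟨false,[],(7,5),.all,[]⟩),
  (.rho 27,⟨false,[],(4,3),.mon 2 1 0,[]⟩),
  (.comm 24 0 0,⟨false,[],(4,7),.all,[]⟩),
  (.comm 49 18 0,⟨false,[],(5,11),.all,[]⟩),
  (.rho 0,⟨false,[],(10,4),.all,[]⟩),
  (.comm 0 16 0,⟨false,[],(13,4),.all,[]⟩),
  (.rho 66,⟨false,[],(7,5),.mon 3 0 0,[]⟩),
  (.comm 11 0 0,⟨false,[],(7,13),.all,[]⟩),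
  (.spec 0,⟨false,[],(7,13),.mon 0 0 0,[]⟩),
  (.comm 3 0 0,⟨false,[],(7,4),.all,[]⟩),
  (.comm 30 38 0,⟨false,[],(4,9),.mon 5 1 0,[]⟩),
  (.comm 0 27 0,⟨false,[],(4,11),.mon 8 1 0,[]⟩),
  (.rho 0,⟨false,[],(10,5),.mon 1 8 0,[]⟩),
  (.comm 58 0 0,⟨false,[],(10,3),.all,[]⟩),
  (.comm 0 26 7,⟨false,[],(2,3),.all,[(11,3)]⟩),
  (.ca 71,⟨false,[],(2,26),.mon 0 3 0,[]⟩),
  (.cc 0,⟨false,[],(6,8),.mon 0 3 0,[]⟩),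
  (.comm 0 77 0,⟨false,[],(4,8),.mon 0 6 0,[]⟩),
  (.ca 78,⟨false,[],(26,24),.mon 0 3 0,[]⟩),
  (.rho 0,⟨false,[],(25,27),.mon 3 0 0,[]⟩),
  (.cc 0,⟨false,[],(11,9),.mon 3 0 0,[]⟩),
  (.rho 0,⟨false,[],(8,10),.mon 0 3 0,[]⟩),
  (.comm 4 0 0,⟨false,[],(4,10),.mon 0 9 0,[]⟩),
  (.rho 0,⟨false,[],(11,5),.mon 9 0 0,[]⟩),
  (.comm 69 0 0,⟨false,[],(11,3),.all,[]⟩),
  (.drop 10 [0],⟨false,[],(2,3),.all,[]⟩),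
  (.spec 36,⟨false,[],(13,2),.mon 0 0 0,[]⟩),
  (.comm 15 33 0,⟨false,[],(4,13),.mon 11 1 0,[]⟩),
  (.rho 0,⟨false,[],(12,5),.mon 1 11 0,[]⟩),
  (.comm 25 0 0,⟨false,[],(12,11),.all,[]⟩),
  (.comm 0 42 7,⟨false,[],(12,13),.all,[(12,10)]⟩),
  (.rho 8,⟨false,[],(11,5),.mon 9 0 0,[]⟩),
  (.comm 78 0 0,⟨false,[],(11,7),.all,[]⟩),
  (.comm 0 38 0,⟨false,[],(11,13),.all,[]⟩),
  (.drop 3 [0],⟨false,[],(12,13),.all,[]⟩),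
  (.comm 8 0 5,⟨false,[],(3,2),.all,[(12,2)]⟩),
  (.comm 58 41 0,⟨false,[],(3,13),.all,[]⟩),
  (.drop 1 [0],⟨false,[],(3,2),.all,[]⟩)],
  [(83,83),(61,61),(40,40),(38,38),(38,38),(61,61),(40,40),(83,83),(37,37),(35,35),(28,28),(84,84),(84,84),(35,35),(28,28),(37,37),(12,12),(0,0)]⟩ = true := by decide +kernel

theorem cCi14 : Fam.chkP .C 14 1 true true false true false
  ⟨[],[],[],[((13,11),some (0,0,0)),((8,6),some (0,0,0)),((18,19),some (0,0,0)),((29,28),some (0,0,1))],0,(13,11),(13,11),(13,11),(13,11),(0,0,0),[(21,23),(24,26),(14,15),(5,4)],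
  [(.base 5,⟨false,[],(8,6),.mon 0 0 0,[(5,4),(14,15),(24,26),(21,23),(13,11),(18,19),(29,28)]⟩),
  (.cc 0,⟨false,[],(28,2),.mon 0 0 0,[(5,4),(22,23),(12,10),(17,15),(25,27),(18,19),(9,8)]⟩),
  (.ca 0,⟨false,[],(4,2),.mon 0 0 0,[(29,28),(10,11),(20,22),(17,19),(9,7),(14,15),(25,24)]⟩),
  (.cc 0,⟨false,[],(4,6),.mon 0 0 0,[(9,8),(26,27),(16,14),(21,19),(29,3),(22,23),(13,12)]⟩),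
  (.base 0,⟨false,[],(5,4),.mon 0 0 1,[(14,15),(24,26),(21,23),(13,11),(8,6),(18,19),(29,28)]⟩),
  (.comm 1 0 2,⟨false,[],(5,6),.mon 0 0 1,[(7,6),(9,6),(7,6),(24,27),(24,25),(16,15),(16,17)]⟩),
  (.base 2,⟨false,[],(24,26),.mon 0 0 0,[(5,4),(14,15),(21,23),(13,11),(8,6),(18,19),(29,28)]⟩),
  (.base 4,⟨false,[],(13,11),.mon 0 0 0,[(5,4),(14,15),(24,26),(21,23),(8,6),(18,19),(29,28)]⟩),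
  (.cc 0,⟨false,[],(25,27),.mon 0 0 0,[(5,4),(22,23),(12,10),(17,15),(28,2),(18,19),(9,8)]⟩),
  (.ca 0,⟨false,[],(9,7),.mon 0 0 0,[(29,28),(10,11),(20,22),(17,19),(4,2),(14,15),(25,24)]⟩),
  (.cc 0,⟨false,[],(29,3),.mon 0 0 0,[(9,8),(26,27),(16,14),(21,19),(4,6),(22,23),(13,12)]⟩),
  (.ca 0,⟨false,[],(5,3),.mon 0 0 0,[(25,24),(6,7),(16,18),(13,15),(28,26),(10,11),(21,20)]⟩),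
  (.cc 0,⟨false,[],(5,7),.mon 0 0 0,[(13,12),(2,3),(20,18),(25,23),(8,10),(26,27),(17,16)]⟩),
  (.ca 0,⟨false,[],(29,27),.mon 0 0 0,[(21,20),(2,3),(12,14),(9,11),(24,22),(6,7),(17,16)]⟩),
  (.rho 0,⟨false,[],(26,28),.mon 0 0 0,[(21,20),(2,3),(12,14),(9,11),(24,22),(6,7),(17,16)]⟩),
  (.comm 8 0 0,⟨false,[],(24,28),.mon 0 0 0,[(12,15),(12,13),(21,25),(15,11),(10,6),(8,7),(8,9),(14,11),(12,11),(10,11),(10,7),(8,11)]⟩),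
  (.cc 9,⟨false,[],(12,10),.mon 0 0 0,[(5,4),(22,23),(17,15),(25,27),(28,2),(18,19),(9,8)]⟩),
  (.ca 0,⟨false,[],(20,22),.mon 0 0 0,[(29,28),(10,11),(17,19),(9,7),(4,2),(14,15),(25,24)]⟩),
  (.cc 0,⟨false,[],(16,14),.mon 0 0 0,[(9,8),(26,27),(21,19),(29,3),(4,6),(22,23),(13,12)]⟩),
  (.base 1,⟨false,[],(14,15),.mon 0 0 0,[(5,4),(24,26),(21,23),(13,11),(8,6),(18,19),(29,28)]⟩),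
  (.comm 1 0 6,⟨false,[],(16,17),.mon 0 0 0,[(16,15),(9,6),(7,6),(24,27),(24,25),(5,6)]⟩),
  (.ca 0,⟨false,[],(16,17),.mon 0 0 0,[(16,19),(25,26),(27,26),(8,7),(8,9),(29,26)]⟩),
  (.cc 0,⟨false,[],(20,21),.mon 0 0 0,[(20,19),(13,10),(11,10),(28,3),(28,29),(9,10)]⟩),
  (.ca 0,⟨false,[],(12,13),.mon 0 0 0,[(12,15),(21,22),(23,22),(4,3),(4,5),(25,22)]⟩),
  (.cc 0,⟨false,[],(24,25),.mon 0 0 0,[(24,23),(17,14),(15,14),(4,7),(4,5),(13,14)]⟩),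
  (.ca 0,⟨false,[],(8,9),.mon 0 0 0,[(8,11),(17,18),(19,18),(28,27),(28,29),(21,18)]⟩),
  (.cc 0,⟨false,[],(28,29),.mon 0 0 0,[(28,27),(21,18),(19,18),(8,11),(8,9),(17,18)]⟩),
  (.comm 11 0 2,⟨false,[],(24,29),.mon 0 0 0,[(24,25),(24,27)]⟩),
  (.comm 0 14 0,⟨false,[],(24,27),.mon 0 0 0,[]⟩),
  (.ca 0,⟨false,[],(8,7),.mon 0 0 0,[]⟩),
  (.rho 0,⟨false,[],(6,9),.mon 0 0 0,[]⟩),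
  (.cc 0,⟨false,[],(2,29),.mon 0 0 0,[]⟩),
  (.ca 0,⟨false,[],(2,5),.mon 0 0 0,[]⟩),
  (.comm 27 0 0,⟨false,[],(2,6),.mon 0 0 1,[]⟩),
  (.cc 0,⟨false,[],(6,2),.mon 0 0 1,[]⟩),
  (.rho 0,⟨false,[],(3,7),.mon 0 0 1,[]⟩),
  (.rho 0,⟨false,[],(6,2),.mon 0 0 1,[]⟩),
  (.sI 0 3,⟨true,[],(2,25),.mon 0 0 2,[]⟩),
  (.comm 10 27 0,⟨false,[],(24,3),.mon 0 0 0,[]⟩),
  (.rho 0,⟨false,[],(2,25),.mon 0 0 0,[]⟩),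
  (.sF 2 0,⟨false,[],(2,25),.all,[]⟩),
  (.ca 0,⟨false,[],(2,9),.all,[]⟩),
  (.cc 0,⟨false,[],(6,29),.all,[]⟩),
  (.ca 0,⟨false,[],(26,5),.all,[]⟩),
  (.ca 10,⟨false,[],(2,26),.mon 0 0 1,[]⟩),
  (.comm 1 0 0,⟨false,[],(2,5),.all,[]⟩),
  (.comm 0 41 2,⟨false,[],(2,4),.all,[(2,3)]⟩),
  (.rho 13,⟨false,[],(7,3),.mon 0 0 1,[]⟩),
  (.sI 12 0,⟨true,[],(7,27),.mon 0 0 2,[]⟩),
  (.ca 9,⟨false,[],(2,9),.mon 0 0 0,[]⟩),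
  (.cc 0,⟨false,[],(6,29),.mon 0 0 0,[]⟩),
  (.ca 0,⟨false,[],(26,5),.mon 0 0 0,[]⟩),
  (.rho 0,⟨false,[],(4,27),.mon 0 0 0,[]⟩),
  (.rho 0,⟨false,[],(26,5),.mon 0 0 0,[]⟩),
  (.comm 48 0 0,⟨false,[],(26,6),.mon 0 0 1,[]⟩),
  (.rho 0,⟨false,[],(7,27),.mon 0 0 1,[]⟩),
  (.sF 7 0,⟨false,[],(7,27),.all,[]⟩),
  (.rho 12,⟨false,[],(27,3),.mon 0 0 1,[]⟩),
  (.comm 1 0 0,⟨false,[],(7,3),.all,[]⟩),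
  (.ca 3,⟨false,[],(27,7),.mon 0 0 1,[]⟩),
  (.rho 0,⟨false,[],(6,26),.mon 0 0 1,[]⟩),
  (.cc 0,⟨false,[],(2,10),.mon 0 0 1,[]⟩),
  (.ca 0,⟨false,[],(2,22),.mon 0 0 1,[]⟩),
  (.cc 0,⟨false,[],(6,14),.mon 0 0 1,[]⟩),
  (.rho 0,⟨false,[],(15,7),.mon 0 0 1,[]⟩),
  (.comm 6 0 0,⟨false,[],(15,3),.all,[]⟩),
  (.comm 0 46 7,⟨false,[],(2,3),.all,[(14,3)]⟩),
  (.cc 11,⟨false,[],(3,11),.mon 0 0 1,[]⟩),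
  (.ca 0,⟨false,[],(3,23),.mon 0 0 1,[]⟩),
  (.cc 0,⟨false,[],(7,15),.mon 0 0 1,[]⟩),
  (.rho 0,⟨false,[],(14,6),.mon 0 0 1,[]⟩),
  (.sI 7 0,⟨true,[],(14,23),.mon 0 0 2,[]⟩),
  (.base 3,⟨false,[],(21,23),.mon 0 0 0,[(5,4),(14,15),(24,26),(13,11),(8,6),(18,19),(29,28)]⟩),
  (.cc 33,⟨false,[],(6,13),.mon 0 0 0,[]⟩),
  (.ca 0,⟨false,[],(26,21),.mon 0 0 0,[]⟩),
  (.rho 0,⟨false,[],(20,27),.mon 0 0 0,[]⟩),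
  (.cc 0,⟨false,[],(16,11),.mon 0 0 0,[]⟩),
  (.rho 0,⟨false,[],(10,17),.mon 0 0 0,[]⟩),
  (.ca 0,⟨false,[],(22,17),.mon 0 0 0,[]⟩),
  (.rho 0,⟨false,[],(16,23),.mon 0 0 0,[]⟩),
  (.cc 0,⟨false,[],(20,15),.mon 0 0 0,[]⟩),
  (.rho 0,⟨false,[],(14,21),.mon 0 0 0,[]⟩),
  (.comm 9 0 0,⟨false,[],(14,23),.mon 0 0 0,[]⟩),
  (.sF 11 0,⟨false,[],(14,23),.all,[]⟩),
  (.rho 21,⟨false,[],(23,3),.mon 0 0 1,[]⟩),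
  (.comm 1 0 0,⟨false,[],(14,3),.all,[]⟩),
  (.drop 19 [0],⟨false,[],(2,3),.all,[]⟩),
  (.drop 40 [0],⟨false,[],(2,4),.all,[]⟩),
  (.comm 31 52 0,⟨false,[],(3,27),.all,[]⟩),
  (.rho 0,⟨false,[],(26,2),.all,[]⟩),
  (.comm 0 83 0,⟨false,[],(24,2),.all,[]⟩),
  (.ca 0,⟨false,[],(8,2),.all,[]⟩),
  (.rho 3,⟨false,[],(26,2),.all,[]⟩),
  (.spec 0,⟨false,[],(26,2),.mon 0 0 0,[]⟩),
  (.comm 6 0 0,⟨false,[],(26,4),.all,[]⟩),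
  (.comm 0 88 0,⟨false,[],(24,4),.all,[]⟩),
  (.ca 0,⟨false,[],(8,28),.all,[]⟩),
  (.cc 0,⟨false,[],(28,8),.all,[]⟩),
  (.cN 6 1 0,⟨false,[],(28,2),.all,[]⟩),
  (.ca 0,⟨false,[],(4,2),.all,[]⟩),
  (.rho 0,⟨false,[],(3,5),.all,[]⟩),
  (.comm 0 95 0,⟨false,[],(3,6),.all,[]⟩),
  (.cc 14,⟨false,[],(6,4),.all,[]⟩),
  (.spec 0,⟨false,[],(6,4),.mon 0 0 0,[]⟩),
  (.comm 2 0 0,⟨false,[],(3,4),.all,[]⟩),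
  (.rho 48,⟨false,[],(26,6),.all,[]⟩),
  (.comm 0 99 0,⟨false,[],(24,6),.all,[]⟩),
  (.ca 0,⟨false,[],(8,26),.all,[]⟩),
  (.cN 0 11 10,⟨false,[],(28,26),.all,[]⟩),
  (.ca 0,⟨false,[],(4,6),.all,[]⟩),
  (.comm 66 49 0,⟨false,[],(6,5),.all,[]⟩),
  (.rho 23,⟨false,[],(5,3),.all,[]⟩),
  (.spec 0,⟨false,[],(5,3),.mon 0 0 0,[]⟩),
  (.comm 11 0 0,⟨false,[],(5,6),.all,[]⟩),
  (.spec 12,⟨false,[],(3,6),.mon 0 0 0,[]⟩),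
  (.cc 28,⟨false,[],(6,7),.all,[]⟩),
  (.comm 1 0 5,⟨false,[],(3,2),.all,[(3,7)]⟩),
  (.cc 60,⟨false,[],(3,11),.all,[]⟩),
  (.cc 73,⟨false,[],(6,10),.mon 0 0 1,[]⟩),
  (.rho 0,⟨false,[],(11,7),.mon 0 0 1,[]⟩),
  (.comm 2 0 0,⟨false,[],(3,7),.all,[]⟩),
  (.drop 4 [0],⟨false,[],(3,2),.all,[]⟩)],
  [(34,34),(76,76),(17,17),(22,22),(22,22),(76,76),(17,17),(34,34),(12,12),(11,11),(8,8),(19,19),(19,19),(11,11),(8,8),(12,12),(35,35),(0,0)]⟩ = true := by decide +kernel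

theorem cCi15 : Fam.chkP .C 15 1 true true false true false
  ⟨[],[],[],[((21,3),some (0,0,0)),((28,26),some (1,0,0)),((24,25),some (0,0,0)),((5,4),some (0,0,1))],0,(21,3),(21,3),(21,3),(21,3),(0,0,0),[(15,3),(6,8),(10,11),(31,30)],
  [(.base 2,⟨false,[],(6,8),.mon 1 0 0,[(31,30),(10,11),(15,3),(21,3),(28,26),(24,25),(5,4)]⟩),
  (.base 3,⟨false,[],(15,3),.mon 0 0 0,[(31,30),(10,11),(6,8),(21,3),(28,26),(24,25),(5,4)]⟩),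
  (.cc 0,⟨false,[],(25,7),.mon 0 0 0,[(9,8),(28,29),(2,30),(19,7),(10,12),(14,15),(5,4)]⟩),
  (.ca 0,⟨false,[],(11,29),.mon 0 0 0,[(27,26),(6,7),(2,4),(17,29),(24,22),(20,21),(31,30)]⟩),
  (.cc 0,⟨false,[],(29,11),.mon 0 0 0,[(13,12),(2,3),(6,4),(23,11),(14,16),(18,19),(9,8)]⟩),
  (.ca 0,⟨false,[],(7,25),.mon 0 0 0,[(23,22),(2,3),(28,30),(13,25),(20,18),(16,17),(27,26)]⟩),
  (.rho 0,⟨false,[],(24,6),.mon 0 0 0,[(23,22),(2,3),(28,30),(13,25),(20,18),(16,17),(27,26)]⟩),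
  (.comm 6 0 0,⟨false,[],(24,8),.mon 1 0 0,[(19,3)]⟩),
  (.rho 5,⟨false,[],(6,24),.mon 0 0 0,[(9,8),(28,29),(2,30),(19,7),(10,12),(14,15),(5,4)]⟩),
  (.comm 1 0 0,⟨false,[],(6,8),.mon 1 0 0,[]⟩),
  (.ca 0,⟨false,[],(28,26),.mon 1 0 0,[]⟩),
  (.rho 0,⟨false,[],(27,29),.mon 0 1 0,[]⟩),
  (.cc 0,⟨false,[],(13,11),.mon 0 1 0,[]⟩),
  (.rho 0,⟨false,[],(10,12),.mon 1 0 0,[]⟩),
  (.ca 0,⟨false,[],(24,22),.mon 1 0 0,[]⟩),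
  (.rho 0,⟨false,[],(23,25),.mon 0 1 0,[]⟩),
  (.cc 0,⟨false,[],(17,15),.mon 0 1 0,[]⟩),
  (.rho 0,⟨false,[],(14,16),.mon 1 0 0,[]⟩),
  (.ca 0,⟨false,[],(20,18),.mon 1 0 0,[]⟩),
  (.rho 0,⟨false,[],(19,21),.mon 0 1 0,[]⟩),
  (.cc 0,⟨false,[],(21,19),.mon 0 1 0,[]⟩),
  (.rho 0,⟨false,[],(18,20),.mon 1 0 0,[]⟩),
  (.ca 0,⟨false,[],(16,14),.mon 1 0 0,[]⟩),
  (.rho 0,⟨false,[],(15,17),.mon 0 1 0,[]⟩),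
  (.cc 0,⟨false,[],(25,23),.mon 0 1 0,[]⟩),
  (.rho 0,⟨false,[],(22,24),.mon 1 0 0,[]⟩),
  (.ca 0,⟨false,[],(12,10),.mon 1 0 0,[]⟩),
  (.rho 0,⟨false,[],(11,13),.mon 0 1 0,[]⟩),
  (.cc 0,⟨false,[],(29,27),.mon 0 1 0,[]⟩),
  (.rho 0,⟨false,[],(26,28),.mon 1 0 0,[]⟩),
  (.ca 0,⟨false,[],(8,6),.mon 1 0 0,[]⟩),
  (.rho 0,⟨false,[],(7,9),.mon 0 1 0,[]⟩),
  (.cc 0,⟨false,[],(3,31),.mon 0 1 0,[]⟩),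
  (.ca 0,⟨false,[],(3,5),.mon 0 1 0,[]⟩),
  (.cc 0,⟨false,[],(7,5),.mon 0 1 0,[]⟩),
  (.rho 0,⟨false,[],(4,6),.mon 1 0 0,[]⟩),
  (.cc 26,⟨false,[],(2,30),.mon 1 0 0,[]⟩),
  (.ca 0,⟨false,[],(2,4),.mon 1 0 0,[]⟩),
  (.cc 0,⟨false,[],(6,4),.mon 1 0 0,[]⟩),
  (.rho 0,⟨false,[],(5,7),.mon 0 1 0,[]⟩),
  (.rho 0,⟨false,[],(6,4),.mon 1 0 0,[]⟩),
  (.sI 5 0,⟨true,[],(6,8),.mon 2 0 0,[]⟩),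
  (.sF 0 32,⟨false,[],(6,8),.all,[]⟩),
  (.cc 0,⟨false,[],(2,30),.all,[]⟩),
  (.ca 0,⟨false,[],(2,4),.all,[]⟩),
  (.base 1,⟨false,[],(10,11),.mon 0 0 0,[(31,30),(6,8),(15,3),(21,3),(28,26),(24,25),(5,4)]⟩),
  (.comm 42 0 2,⟨false,[],(10,29),.mon 0 0 0,[(28,29),(20,3),(2,3)]⟩),
  (.ca 0,⟨false,[],(24,7),.mon 0 0 0,[(6,7),(14,3),(2,3)]⟩),
  (.cc 0,⟨false,[],(14,3),.mon 0 0 0,[(2,3),(24,7),(6,7)]⟩),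
  (.ca 0,⟨false,[],(20,3),.mon 0 0 0,[(2,3),(10,29),(28,29)]⟩),
  (.cc 0,⟨false,[],(18,7),.mon 0 0 0,[(6,7),(28,11),(10,11)]⟩),
  (.ca 0,⟨false,[],(16,29),.mon 0 0 0,[(28,29),(6,25),(24,25)]⟩),
  (.cc 0,⟨false,[],(22,11),.mon 0 0 0,[(10,11),(2,15),(14,15)]⟩),
  (.ca 0,⟨false,[],(12,25),.mon 0 0 0,[(24,25),(2,21),(20,21)]⟩),
  (.cc 0,⟨false,[],(26,15),.mon 0 0 0,[(14,15),(6,19),(18,19)]⟩),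
  (.ca 0,⟨false,[],(8,21),.mon 0 0 0,[(20,21),(28,17),(16,17)]⟩),
  (.comm 48 0 0,⟨false,[],(24,21),.mon 1 0 0,[]⟩),
  (.rho 0,⟨false,[],(20,25),.mon 0 1 0,[]⟩),
  (.cc 0,⟨false,[],(18,15),.mon 0 1 0,[]⟩),
  (.rho 0,⟨false,[],(14,19),.mon 1 0 0,[]⟩),
  (.ca 0,⟨false,[],(20,17),.mon 1 0 0,[]⟩),
  (.rho 0,⟨false,[],(16,21),.mon 0 1 0,[]⟩),
  (.cc 0,⟨false,[],(22,19),.mon 0 1 0,[]⟩),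
  (.rho 0,⟨false,[],(18,23),.mon 1 0 0,[]⟩),
  (.ca 0,⟨false,[],(16,13),.mon 1 0 0,[]⟩),
  (.rho 0,⟨false,[],(12,17),.mon 0 1 0,[]⟩),
  (.cc 0,⟨false,[],(26,23),.mon 0 1 0,[]⟩),
  (.rho 0,⟨false,[],(22,27),.mon 1 0 0,[]⟩),
  (.ca 0,⟨false,[],(12,9),.mon 1 0 0,[]⟩),
  (.rho 0,⟨false,[],(8,13),.mon 0 1 0,[]⟩),
  (.cc 0,⟨false,[],(30,27),.mon 0 1 0,[]⟩),
  (.rho 0,⟨false,[],(26,31),.mon 1 0 0,[]⟩),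
  (.ca 0,⟨false,[],(8,5),.mon 1 0 0,[]⟩),
  (.rho 0,⟨false,[],(4,9),.mon 0 1 0,[]⟩),
  (.cc 0,⟨false,[],(4,31),.mon 0 1 0,[]⟩),
  (.rho 0,⟨false,[],(30,5),.mon 1 0 0,[]⟩),
  (.comm 32 0 0,⟨false,[],(2,5),.all,[]⟩),
  (.comm 45 37 0,⟨false,[],(5,9),.mon 0 2 0,[]⟩),
  (.rho 0,⟨false,[],(8,4),.mon 2 0 0,[]⟩),
  (.comm 36 0 0,⟨false,[],(6,4),.all,[]⟩),
  (.rho 42,⟨false,[],(5,3),.mon 0 1 0,[]⟩),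
  (.comm 48 0 0,⟨false,[],(5,31),.mon 0 2 0,[]⟩),
  (.rho 0,⟨false,[],(30,4),.mon 2 0 0,[]⟩),
  (.comm 47 0 0,⟨false,[],(30,6),.mon 3 0 0,[]⟩),
  (.rho 0,⟨false,[],(7,31),.mon 0 3 0,[]⟩),
  (.rho 0,⟨false,[],(30,6),.mon 3 0 0,[]⟩),
  (.comm 6 0 0,⟨false,[],(30,4),.all,[]⟩),
  (.base 0,⟨false,[],(31,30),.mon 0 0 1,[(10,11),(6,8),(15,3),(21,3),(28,26),(24,25),(5,4)]⟩),
  (.comm 1 0 2,⟨false,[],(31,4),.all,[(5,4)]⟩),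
  (.comm 55 11 0,⟨false,[],(3,9),.mon 0 3 0,[]⟩),
  (.rho 0,⟨false,[],(8,2),.mon 3 0 0,[]⟩),
  (.comm 48 0 0,⟨false,[],(6,2),.all,[]⟩),
  (.rho 7,⟨false,[],(30,6),.mon 3 0 0,[]⟩),
  (.comm 1 0 0,⟨false,[],(30,2),.all,[]⟩),
  (.rho 0,⟨false,[],(3,31),.all,[]⟩),
  (.spec 0,⟨false,[],(3,31),.mon 0 0 0,[]⟩),
  (.comm 7 0 0,⟨false,[],(3,4),.all,[]⟩),
  (.comm 54 61 0,⟨false,[],(4,8),.all,[]⟩),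
  (.rho 8,⟨false,[],(8,2),.mon 3 0 0,[]⟩),
  (.comm 1 0 0,⟨false,[],(4,2),.all,[]⟩),
  (.rho 68,⟨false,[],(8,6),.mon 1 0 0,[]⟩),
  (.comm 3 0 0,⟨false,[],(4,6),.all,[]⟩),
  (.rho 28,⟨false,[],(8,5),.mon 1 0 0,[]⟩),
  (.comm 60 0 0,⟨false,[],(6,5),.all,[]⟩),
  (.rho 19,⟨false,[],(30,6),.mon 3 0 0,[]⟩),
  (.comm 62 0 0,⟨false,[],(30,8),.all,[]⟩),
  (.rho 74,⟨false,[],(8,6),.mon 1 0 0,[]⟩),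
  (.comm 1 0 0,⟨false,[],(30,6),.all,[]⟩),
  (.rho 0,⟨false,[],(7,31),.all,[]⟩),
  (.spec 0,⟨false,[],(7,31),.mon 0 0 0,[]⟩),
  (.comm 21 0 0,⟨false,[],(7,4),.all,[]⟩),
  (.comm 37 73 0,⟨false,[],(2,9),.mon 1 1 0,[]⟩),
  (.rho 0,⟨false,[],(8,3),.mon 1 1 0,[]⟩),
  (.comm 70 0 0,⟨false,[],(6,3),.all,[]⟩),
  (.rho 29,⟨false,[],(30,6),.mon 3 0 0,[]⟩),
  (.comm 1 0 0,⟨false,[],(30,3),.all,[]⟩),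
  (.comm 0 28 7,⟨false,[],(2,3),.all,[(31,3)]⟩),
  (.drop 0 [73],⟨false,[],(2,3),.all,[]⟩),
  (.spec 21,⟨false,[],(3,4),.mon 0 0 0,[]⟩),
  (.spec 19,⟨false,[],(4,2),.mon 0 0 0,[]⟩),
  (.comm 0 2 5,⟨false,[],(4,5),.all,[(4,3)]⟩),
  (.drop 0 [44],⟨false,[],(4,5),.all,[]⟩),
  (.comm 3 0 5,⟨false,[],(3,2),.all,[(3,5)]⟩),
  (.drop 0 [23],⟨false,[],(3,2),.all,[]⟩)],
  [(79,79),(47,47),(27,27),(24,24),(24,24),(47,47),(27,27),(79,79),(22,22),(20,20),(13,13),(44,44),(44,44),(20,20),(13,13),(22,22),(6,6),(0,0)]⟩ = true := by decide +kernel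

theorem cCi16 : Fam.chkP .C 16 1 true true false true false
  ⟨[],[],[],[((9,7),some (1,0,0)),((16,22),some (1,0,0)),((12,13),some (0,0,1)),((33,32),some (0,0,0))],0,(9,7),(9,7),(9,7),(9,7),(0,0,0),[(29,31),(20,14),(24,25),(5,4)],
  [(.base 3,⟨false,[],(29,31),.mon 1 0 0,[(5,4),(24,25),(20,14),(9,7),(16,22),(12,13),(33,32)]⟩),
  (.cc 0,⟨false,[],(13,11),.mon 1 0 0,[(5,4),(16,17),(20,26),(33,3),(24,18),(28,29),(9,8)]⟩),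
  (.ca 0,⟨false,[],(25,27),.mon 1 0 0,[(33,32),(20,21),(16,10),(5,3),(12,18),(8,9),(29,28)]⟩),
  (.base 1,⟨false,[],(24,25),.mon 0 0 1,[(5,4),(20,14),(29,31),(9,7),(16,22),(12,13),(33,32)]⟩),
  (.comm 1 0 2,⟨false,[],(24,27),.mon 1 0 1,[(26,27),(8,7),(6,7)]⟩),
  (.base 0,⟨false,[],(5,4),.mon 0 0 0,[(24,25),(20,14),(29,31),(9,7),(16,22),(12,13),(33,32)]⟩),
  (.cc 0,⟨false,[],(5,4),.mon 0 0 0,[(16,17),(20,26),(13,11),(33,3),(24,18),(28,29),(9,8)]⟩),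
  (.ca 0,⟨false,[],(33,32),.mon 0 0 0,[(20,21),(16,10),(25,27),(5,3),(12,18),(8,9),(29,28)]⟩),
  (.cc 0,⟨false,[],(9,8),.mon 0 0 0,[(20,21),(24,30),(17,15),(5,7),(28,22),(32,33),(13,12)]⟩),
  (.ca 0,⟨false,[],(29,28),.mon 0 0 0,[(16,17),(12,6),(21,23),(33,31),(8,14),(4,5),(25,24)]⟩),
  (.cc 0,⟨false,[],(13,12),.mon 0 0 0,[(24,25),(28,2),(21,19),(9,11),(32,26),(4,5),(17,16)]⟩),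
  (.ca 0,⟨false,[],(25,24),.mon 0 0 0,[(12,13),(8,2),(17,19),(29,27),(4,10),(32,33),(21,20)]⟩),
  (.comm 7 0 2,⟨false,[],(25,27),.mon 1 0 1,[(26,27)]⟩),
  (.base 2,⟨false,[],(20,14),.mon 1 0 0,[(5,4),(24,25),(29,31),(9,7),(16,22),(12,13),(33,32)]⟩),
  (.cc 0,⟨false,[],(20,26),.mon 1 0 0,[(5,4),(16,17),(13,11),(33,3),(24,18),(28,29),(9,8)]⟩),
  (.ca 0,⟨false,[],(16,10),.mon 1 0 0,[(33,32),(20,21),(25,27),(5,3),(12,18),(8,9),(29,28)]⟩),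
  (.cc 0,⟨false,[],(24,30),.mon 1 0 0,[(9,8),(20,21),(17,15),(5,7),(28,22),(32,33),(13,12)]⟩),
  (.rho 0,⟨false,[],(31,25),.mon 0 1 0,[(9,8),(20,21),(17,15),(5,7),(28,22),(32,33),(13,12)]⟩),
  (.comm 5 0 0,⟨false,[],(31,27),.mon 1 1 1,[]⟩),
  (.rho 0,⟨false,[],(26,30),.mon 1 1 1,[]⟩),
  (.ca 0,⟨false,[],(10,6),.mon 1 1 1,[]⟩),
  (.rho 0,⟨false,[],(7,11),.mon 1 1 1,[]⟩),
  (.cc 0,⟨false,[],(3,31),.mon 1 1 1,[]⟩),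
  (.ca 0,⟨false,[],(3,7),.mon 1 1 1,[]⟩),
  (.cc 0,⟨false,[],(7,3),.mon 1 1 1,[]⟩),
  (.rho 0,⟨false,[],(2,6),.mon 1 1 1,[]⟩),
  (.ca 0,⟨false,[],(2,30),.mon 1 1 1,[]⟩),
  (.cc 0,⟨false,[],(6,10),.mon 1 1 1,[]⟩),
  (.ca 0,⟨false,[],(30,26),.mon 1 1 1,[]⟩),
  (.rho 0,⟨false,[],(27,31),.mon 1 1 1,[]⟩),
  (.rho 3,⟨false,[],(31,3),.mon 1 1 1,[]⟩),
  (.comm 1 0 0,⟨false,[],(27,3),.mon 2 2 2,[]⟩),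
  (.rho 0,⟨false,[],(2,26),.mon 2 2 2,[]⟩),
  (.rho 13,⟨false,[],(31,27),.mon 1 1 1,[]⟩),
  (.comm 11 0 0,⟨false,[],(3,27),.mon 2 2 2,[]⟩),
  (.rho 0,⟨false,[],(26,2),.mon 2 2 2,[]⟩),
  (.sI 3 0,⟨true,[],(26,30),.mon 4 4 4,[]⟩),
  (.cc 17,⟨false,[],(14,10),.mon 1 1 1,[]⟩),
  (.rho 0,⟨false,[],(11,15),.mon 1 1 1,[]⟩),
  (.rho 0,⟨false,[],(14,10),.mon 1 1 1,[]⟩),
  (.comm 26 0 0,⟨false,[],(20,10),.mon 2 1 1,[]⟩),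
  (.rho 0,⟨false,[],(11,21),.mon 1 2 1,[]⟩),
  (.ca 0,⟨false,[],(27,17),.mon 1 2 1,[]⟩),
  (.rho 0,⟨false,[],(16,26),.mon 2 1 1,[]⟩),
  (.cc 0,⟨false,[],(24,14),.mon 2 1 1,[]⟩),
  (.rho 0,⟨false,[],(15,25),.mon 1 2 1,[]⟩),
  (.ca 0,⟨false,[],(23,13),.mon 1 2 1,[]⟩),
  (.rho 0,⟨false,[],(12,22),.mon 2 1 1,[]⟩),
  (.cc 0,⟨false,[],(28,18),.mon 2 1 1,[]⟩),
  (.rho 0,⟨false,[],(19,29),.mon 1 2 1,[]⟩),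
  (.ca 0,⟨false,[],(19,9),.mon 1 2 1,[]⟩),
  (.rho 0,⟨false,[],(8,18),.mon 2 1 1,[]⟩),
  (.cc 0,⟨false,[],(32,22),.mon 2 1 1,[]⟩),
  (.rho 0,⟨false,[],(23,33),.mon 1 2 1,[]⟩),
  (.ca 0,⟨false,[],(15,5),.mon 1 2 1,[]⟩),
  (.rho 0,⟨false,[],(4,14),.mon 2 1 1,[]⟩),
  (.cc 0,⟨false,[],(4,26),.mon 2 1 1,[]⟩),
  (.rho 33,⟨false,[],(6,2),.mon 1 1 1,[]⟩),
  (.comm 31 0 0,⟨false,[],(6,30),.mon 2 2 2,[]⟩),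
  (.rho 0,⟨false,[],(31,7),.mon 2 2 2,[]⟩),
  (.comm 59 0 0,⟨false,[],(29,7),.mon 3 2 2,[]⟩),
  (.rho 0,⟨false,[],(6,28),.mon 2 3 2,[]⟩),
  (.ca 0,⟨false,[],(30,8),.mon 2 3 2,[]⟩),
  (.rho 0,⟨false,[],(9,31),.mon 3 2 2,[]⟩),
  (.cc 0,⟨false,[],(33,11),.mon 3 2 2,[]⟩),
  (.rho 0,⟨false,[],(10,32),.mon 2 3 2,[]⟩),
  (.ca 0,⟨false,[],(26,4),.mon 2 3 2,[]⟩),
  (.rho 0,⟨false,[],(5,27),.mon 3 2 2,[]⟩),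
  (.rho 0,⟨false,[],(26,4),.mon 2 3 2,[]⟩),
  (.sI 12 0,⟨true,[],(26,30),.mon 4 4 3,[]⟩),
  (.sN 0,⟨true,[],(26,30),.mon (-4) (-4) (-3),[]⟩),
  (.sA 34 0,⟨true,[],(26,30),.mon 0 0 1,[]⟩),
  (.sF 0 52,⟨false,[],(26,30),.all,[]⟩),
  (.comm 0 40 0,⟨false,[],(2,30),.all,[]⟩),
  (.rho 47,⟨false,[],(31,3),.mon 1 1 1,[]⟩),
  (.comm 74 0 0,⟨false,[],(29,3),.mon 2 1 1,[]⟩),
  (.rho 0,⟨false,[],(2,28),.mon 1 2 1,[]⟩),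
  (.ca 0,⟨false,[],(2,8),.mon 1 2 1,[]⟩),
  (.cc 0,⟨false,[],(6,32),.mon 1 2 1,[]⟩),
  (.ca 0,⟨false,[],(30,4),.mon 1 2 1,[]⟩),
  (.rho 0,⟨false,[],(5,31),.mon 2 1 1,[]⟩),
  (.rho 0,⟨false,[],(30,4),.mon 1 2 1,[]⟩),
  (.comm 8 0 0,⟨false,[],(2,4),.all,[]⟩),
  (.cc 78,⟨false,[],(16,15),.mon 1 0 1,[(14,15),(32,3),(2,3)]⟩),
  (.ca 0,⟨false,[],(20,23),.mon 1 0 1,[(22,23),(4,3),(2,3)]⟩),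
  (.cc 0,⟨false,[],(20,19),.mon 1 0 1,[(18,19),(4,7),(6,7)]⟩),
  (.ca 0,⟨false,[],(16,19),.mon 1 0 1,[(18,19),(32,31),(30,31)]⟩),
  (.cc 0,⟨false,[],(24,23),.mon 1 0 1,[(22,23),(8,11),(10,11)]⟩),
  (.rho 0,⟨false,[],(22,25),.mon 0 1 1,[(22,23),(8,11),(10,11)]⟩),
  (.comm 76 0 0,⟨false,[],(22,27),.mon 1 1 2,[]⟩),
  (.ca 0,⟨false,[],(14,11),.mon 1 1 2,[]⟩),
  (.rho 0,⟨false,[],(10,15),.mon 1 1 2,[]⟩),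
  (.cc 0,⟨false,[],(30,27),.mon 1 1 2,[]⟩),
  (.rho 0,⟨false,[],(26,31),.mon 1 1 2,[]⟩),
  (.ca 0,⟨false,[],(10,7),.mon 1 1 2,[]⟩),
  (.rho 0,⟨false,[],(6,11),.mon 1 1 2,[]⟩),
  (.cc 0,⟨false,[],(2,31),.mon 1 1 2,[]⟩),
  (.rho 0,⟨false,[],(30,3),.mon 1 1 2,[]⟩),
  (.comm 25 0 0,⟨false,[],(26,3),.all,[]⟩),
  (.comm 0 42 0,⟨false,[],(4,3),.all,[]⟩),
  (.rho 77,⟨false,[],(30,2),.mon 1 1 1,[]⟩),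
  (.comm 28 0 0,⟨false,[],(26,2),.all,[]⟩),
  (.comm 0 45 0,⟨false,[],(4,2),.all,[]⟩),
  (.comm 0 97 2,⟨false,[],(5,2),.all,[(3,2)]⟩),
  (.spec 0,⟨false,[],(5,2),.mon 0 0 0,[(3,2)]⟩),
  (.spec 2,⟨false,[],(4,2),.mon 0 0 0,[]⟩),
  (.comm 6 100 7,⟨false,[],(2,3),.all,[(5,3)]⟩),
  (.drop 0 [24],⟨false,[],(2,3),.all,[]⟩),
  (.comm 2 0 5,⟨false,[],(4,5),.all,[(4,3)]⟩),
  (.drop 0 [9],⟨false,[],(4,5),.all,[]⟩),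
  (.comm 5 0 5,⟨false,[],(3,2),.all,[(4,2)]⟩),
  (.drop 0 [8],⟨false,[],(3,2),.all,[]⟩),
  (.cN 29 0 4,⟨false,[],(3,4),.all,[]⟩),
  (.ca 40,⟨false,[],(10,6),.all,[]⟩),
  (.rho 75,⟨false,[],(14,10),.mon 1 1 1,[]⟩),
  (.comm 59 0 0,⟨false,[],(4,10),.mon 3 2 2,[]⟩),
  (.comm 2 0 0,⟨false,[],(4,6),.all,[]⟩),
  (.rho 93,⟨false,[],(6,2),.mon 1 1 1,[]⟩),
  (.comm 21 0 0,⟨false,[],(6,31),.mon 2 2 3,[]⟩),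
  (.rho 0,⟨false,[],(30,7),.mon 2 2 3,[]⟩),
  (.comm 47 0 0,⟨false,[],(26,7),.all,[]⟩),
  (.comm 0 64 0,⟨false,[],(4,7),.all,[]⟩),
  (.rho 5,⟨false,[],(7,5),.all,[]⟩),
  (.spec 0,⟨false,[],(7,5),.mon 0 0 0,[]⟩),
  (.comm 20 0 0,⟨false,[],(7,2),.all,[]⟩),
  (.spec 42,⟨false,[],(2,4),.mon 0 0 0,[]⟩),
  (.comm 1 0 0,⟨false,[],(7,4),.all,[]⟩),
  (.rho 68,⟨false,[],(31,7),.mon 2 2 2,[]⟩),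
  (.comm 98 0 0,⟨false,[],(27,7),.mon 3 3 3,[]⟩),
  (.rho 0,⟨false,[],(6,26),.mon 3 3 3,[]⟩),
  (.comm 57 0 0,⟨false,[],(6,30),.all,[]⟩),
  (.rho 50,⟨false,[],(30,4),.mon 1 2 1,[]⟩),
  (.comm 1 0 0,⟨false,[],(6,4),.all,[]⟩)],
  [(50,50),(33,33),(20,20),(30,30),(30,30),(33,33),(20,20),(50,50),(16,16),(11,11),(6,6),(0,0),(0,0),(11,11),(6,6),(16,16),(25,25),(21,21)]⟩ = true := by decide +kernel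


end Pool.Agent.MP_c78e8e_al.H75

end

section

namespace Pool.Agent.MP_c78e8e_al.H75

theorem cCiw : Fam.chkP .C 17 9 false true false true false
  ⟨[],[],[],[((14,16),some (1,0,0)),((27,25),some (1,0,0)),((6,7),some (0,0,1)),((29,28),some (0,0,1))],0,(14,16),(14,16),(14,16),(14,16),(0,0,0),[(22,20),(11,13),(30,31),(9,8)],
  [(.base 5,⟨false,[],(27,25),.mon 1 0 0,[(9,8),(30,31),(11,13),(22,20),(14,16),(6,7),(29,28)]⟩),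
  (.cc 0,⟨false,[],(15,17),.mon 1 0 0,[(33,32),(10,11),(31,29),(18,20),(26,24),(34,35),(13,12)]⟩),
  (.ca 0,⟨false,[],(23,21),.mon 1 0 0,[(5,4),(26,27),(7,9),(18,16),(10,12),(2,3),(25,24)]⟩),
  (.rho 0,⟨false,[],(20,22),.mon 0 1 0,[(5,4),(26,27),(7,9),(18,16),(10,12),(2,3),(25,24)]⟩),
  (.base 3,⟨false,[],(22,20),.mon 1 0 0,[(9,8),(30,31),(11,13),(14,16),(27,25),(6,7),(29,28)]⟩),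
  (.rho 2,⟨false,[],(20,22),.mon 0 1 0,[(5,4),(26,27),(7,9),(18,16),(10,12),(2,3),(25,24)]⟩),
  (.cc 1,⟨false,[],(18,20),.mon 1 0 0,[(33,32),(10,11),(31,29),(26,24),(15,17),(34,35),(13,12)]⟩),
  (.comm 0 1 0,⟨false,[],(18,22),.mon 1 1 0,[(15,19)]⟩),
  (.comm 0 3 0,⟨false,[],(18,20),.mon 2 1 0,[(17,19)]⟩),
  (.comm 0 5 0,⟨false,[],(18,22),.mon 2 2 0,[]⟩),
  (.comm 5 0 0,⟨false,[],(18,20),.mon 3 2 0,[]⟩),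
  (.cc 0,⟨false,[],(22,20),.mon 3 2 0,[]⟩),
  (.rho 0,⟨false,[],(21,23),.mon 2 3 0,[]⟩),
  (.rho 0,⟨false,[],(22,20),.mon 3 2 0,[]⟩),
  (.cc 4,⟨false,[],(22,18),.mon 2 2 0,[]⟩),
  (.rho 0,⟨false,[],(19,23),.mon 2 2 0,[]⟩),
  (.ca 0,⟨false,[],(19,15),.mon 2 2 0,[]⟩),
  (.rho 0,⟨false,[],(14,18),.mon 2 2 0,[]⟩),
  (.comm 0 8 0,⟨false,[],(14,22),.mon 4 4 0,[]⟩),
  (.cc 1,⟨false,[],(26,22),.mon 2 2 0,[]⟩),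
  (.rho 0,⟨false,[],(23,27),.mon 2 2 0,[]⟩),
  (.ca 0,⟨false,[],(15,11),.mon 2 2 0,[]⟩),
  (.rho 0,⟨false,[],(10,14),.mon 2 2 0,[]⟩),
  (.comm 0 4 0,⟨false,[],(10,22),.mon 6 6 0,[]⟩),
  (.cc 1,⟨false,[],(30,26),.mon 2 2 0,[]⟩),
  (.rho 0,⟨false,[],(27,31),.mon 2 2 0,[]⟩),
  (.ca 0,⟨false,[],(11,7),.mon 2 2 0,[]⟩),
  (.rho 0,⟨false,[],(6,10),.mon 2 2 0,[]⟩),
  (.comm 0 4 0,⟨false,[],(6,22),.mon 8 8 0,[]⟩),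
  (.comm 24 0 0,⟨false,[],(6,20),.mon 9 8 0,[]⟩),
  (.ca 0,⟨false,[],(30,16),.mon 9 8 0,[]⟩),
  (.rho 0,⟨false,[],(17,31),.mon 8 9 0,[]⟩),
  (.cc 0,⟨false,[],(25,11),.mon 8 9 0,[]⟩),
  (.rho 0,⟨false,[],(10,24),.mon 9 8 0,[]⟩),
  (.ca 0,⟨false,[],(26,12),.mon 9 8 0,[]⟩),
  (.rho 0,⟨false,[],(13,27),.mon 8 9 0,[]⟩),
  (.cc 0,⟨false,[],(29,15),.mon 8 9 0,[]⟩),
  (.rho 0,⟨false,[],(14,28),.mon 9 8 0,[]⟩),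
  (.ca 0,⟨false,[],(22,8),.mon 9 8 0,[]⟩),
  (.rho 0,⟨false,[],(9,23),.mon 8 9 0,[]⟩),
  (.cc 0,⟨false,[],(33,19),.mon 8 9 0,[]⟩),
  (.rho 0,⟨false,[],(18,32),.mon 9 8 0,[]⟩),
  (.ca 0,⟨false,[],(18,4),.mon 9 8 0,[]⟩),
  (.rho 0,⟨false,[],(5,19),.mon 8 9 0,[]⟩),
  (.rho 0,⟨false,[],(18,4),.mon 9 8 0,[]⟩),
  (.ca 35,⟨false,[],(18,14),.mon 2 2 0,[]⟩),
  (.rho 0,⟨false,[],(15,19),.mon 2 2 0,[]⟩),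
  (.cc 0,⟨false,[],(27,23),.mon 2 2 0,[]⟩),
  (.rho 0,⟨false,[],(22,26),.mon 2 2 0,[]⟩),
  (.ca 0,⟨false,[],(14,10),.mon 2 2 0,[]⟩),
  (.rho 0,⟨false,[],(11,15),.mon 2 2 0,[]⟩),
  (.cc 0,⟨false,[],(31,27),.mon 2 2 0,[]⟩),
  (.rho 0,⟨false,[],(26,30),.mon 2 2 0,[]⟩),
  (.ca 0,⟨false,[],(10,6),.mon 2 2 0,[]⟩),
  (.rho 0,⟨false,[],(7,11),.mon 2 2 0,[]⟩),
  (.cc 0,⟨false,[],(35,31),.mon 2 2 0,[]⟩),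
  (.rho 0,⟨false,[],(30,34),.mon 2 2 0,[]⟩),
  (.ca 0,⟨false,[],(6,2),.mon 2 2 0,[]⟩),
  (.rho 0,⟨false,[],(3,7),.mon 2 2 0,[]⟩),
  (.comm 0 4 0,⟨false,[],(3,11),.mon 4 4 0,[]⟩),
  (.base 2,⟨false,[],(11,13),.mon 1 0 0,[(9,8),(30,31),(22,20),(14,16),(27,25),(6,7),(29,28)]⟩),
  (.comm 0 1 0,⟨false,[],(3,13),.mon 5 4 0,[]⟩),
  (.ca 0,⟨false,[],(35,25),.mon 5 4 0,[]⟩),
  (.rho 0,⟨false,[],(24,34),.mon 4 5 0,[]⟩),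
  (.cc 0,⟨false,[],(16,6),.mon 4 5 0,[]⟩),
  (.rho 0,⟨false,[],(7,17),.mon 5 4 0,[]⟩),
  (.ca 0,⟨false,[],(31,21),.mon 5 4 0,[]⟩),
  (.rho 0,⟨false,[],(20,30),.mon 4 5 0,[]⟩),
  (.cc 0,⟨false,[],(20,10),.mon 4 5 0,[]⟩),
  (.rho 0,⟨false,[],(11,21),.mon 5 4 0,[]⟩),
  (.ca 0,⟨false,[],(27,17),.mon 5 4 0,[]⟩),
  (.rho 0,⟨false,[],(16,26),.mon 4 5 0,[]⟩),
  (.cc 0,⟨false,[],(24,14),.mon 4 5 0,[]⟩),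
  (.rho 0,⟨false,[],(15,25),.mon 5 4 0,[]⟩),
  (.ca 0,⟨false,[],(23,13),.mon 5 4 0,[]⟩),
  (.rho 0,⟨false,[],(12,22),.mon 4 5 0,[]⟩),
  (.cc 0,⟨false,[],(28,18),.mon 4 5 0,[]⟩),
  (.rho 0,⟨false,[],(19,29),.mon 5 4 0,[]⟩),
  (.ca 0,⟨false,[],(19,9),.mon 5 4 0,[]⟩),
  (.rho 0,⟨false,[],(8,18),.mon 4 5 0,[]⟩),
  (.cc 0,⟨false,[],(32,22),.mon 4 5 0,[]⟩),
  (.rho 0,⟨false,[],(23,33),.mon 5 4 0,[]⟩),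
  (.ca 0,⟨false,[],(15,5),.mon 5 4 0,[]⟩),
  (.rho 0,⟨false,[],(4,14),.mon 4 5 0,[]⟩),
  (.comm 0 66 0,⟨false,[],(4,18),.mon 6 7 0,[]⟩),
  (.sI 0 40,⟨true,[],(18,22),.mon 15 15 0,[]⟩),
  (.sN 0,⟨true,[],(18,22),.mon (-15) (-15) 0,[]⟩),
  (.comm 36 40 0,⟨false,[],(11,19),.mon 4 4 0,[]⟩),
  (.comm 33 0 0,⟨false,[],(7,19),.mon 6 6 0,[]⟩),
  (.comm 30 0 0,⟨false,[],(3,19),.mon 8 8 0,[]⟩),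
  (.rho 0,⟨false,[],(18,2),.mon 8 8 0,[]⟩),
  (.comm 68 73 0,⟨false,[],(10,18),.mon 4 4 0,[]⟩),
  (.comm 64 0 0,⟨false,[],(6,18),.mon 6 6 0,[]⟩),
  (.cc 65,⟨false,[],(34,30),.mon 2 2 0,[]⟩),
  (.rho 0,⟨false,[],(31,35),.mon 2 2 0,[]⟩),
  (.ca 0,⟨false,[],(7,3),.mon 2 2 0,[]⟩),
  (.rho 0,⟨false,[],(2,6),.mon 2 2 0,[]⟩),
  (.comm 0 4 0,⟨false,[],(2,18),.mon 8 8 0,[]⟩),
  (.sI 0 7,⟨true,[],(18,22),.mon 16 16 0,[]⟩),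
  (.sA 0 12,⟨true,[],(18,22),.mon 1 1 0,[]⟩),
  (.sF 0 90,⟨false,[],(18,22),.all,[]⟩),
  (.comm 0 87 0,⟨false,[],(18,20),.all,[]⟩),
  (.rho 84,⟨false,[],(19,15),.mon 2 2 0,[]⟩),
  (.rho 11,⟨false,[],(19,11),.mon 4 4 0,[]⟩),
  (.comm 43 0 0,⟨false,[],(19,13),.mon 5 4 0,[]⟩),
  (.rho 0,⟨false,[],(12,18),.mon 4 5 0,[]⟩),
  (.ca 0,⟨false,[],(24,18),.mon 4 5 0,[]⟩),
  (.rho 0,⟨false,[],(19,25),.mon 5 4 0,[]⟩),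
  (.cc 0,⟨false,[],(23,17),.mon 5 4 0,[]⟩),
  (.rho 0,⟨false,[],(16,22),.mon 4 5 0,[]⟩),
  (.ca 0,⟨false,[],(20,14),.mon 4 5 0,[]⟩),
  (.rho 0,⟨false,[],(15,21),.mon 5 4 0,[]⟩),
  (.comm 0 9 0,⟨false,[],(19,21),.mon 7 6 0,[]⟩),
  (.rho 0,⟨false,[],(20,18),.mon 6 7 0,[]⟩),
  (.comm 61 65 0,⟨false,[],(22,30),.mon 4 4 0,[]⟩),
  (.comm 14 0 0,⟨false,[],(18,30),.all,[]⟩),
  (.comm 0 2 0,⟨false,[],(20,30),.all,[]⟩),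
  (.rho 0,⟨false,[],(31,21),.all,[]⟩),
  (.spec 0,⟨false,[],(31,21),.mon 0 0 0,[]⟩),
  (.base 1,⟨false,[],(30,31),.mon 0 0 1,[(9,8),(11,13),(22,20),(14,16),(27,25),(6,7),(29,28)]⟩),
  (.comm 4 0 2,⟨false,[],(18,31),.all,[(18,19)]⟩),
  (.comm 0 2 0,⟨false,[],(18,21),.all,[]⟩),
  (.comm 21 104 0,⟨false,[],(14,22),.all,[]⟩),
  (.cc 0,⟨false,[],(26,18),.all,[]⟩),
  (.spec 0,⟨false,[],(26,18),.mon 0 0 0,[]⟩),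
  (.rho 112,⟨false,[],(22,20),.mon 3 2 0,[]⟩),
  (.cc 20,⟨false,[],(28,22),.mon 4 5 0,[]⟩),
  (.rho 0,⟨false,[],(23,29),.mon 5 4 0,[]⟩),
  (.ca 0,⟨false,[],(15,9),.mon 5 4 0,[]⟩),
  (.rho 0,⟨false,[],(8,14),.mon 4 5 0,[]⟩),
  (.comm 0 112 0,⟨false,[],(8,18),.mon 6 7 0,[]⟩),
  (.comm 30 0 0,⟨false,[],(8,22),.all,[]⟩),
  (.comm 0 6 0,⟨false,[],(8,20),.all,[]⟩),
  (.rho 0,⟨false,[],(21,9),.all,[]⟩),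
  (.spec 0,⟨false,[],(21,9),.mon 0 0 0,[]⟩),
  (.base 0,⟨false,[],(9,8),.mon 0 0 1,[(30,31),(11,13),(22,20),(14,16),(27,25),(6,7),(29,28)]⟩),
  (.comm 35 87 0,⟨false,[],(18,26),.all,[]⟩),
  (.comm 0 6 0,⟨false,[],(8,26),.all,[]⟩),
  (.comm 0 2 2,⟨false,[],(9,26),.all,[(27,26)]⟩),
  (.comm 0 4 0,⟨false,[],(21,26),.all,[]⟩),
  (.comm 0 15 0,⟨false,[],(21,18),.all,[]⟩),
  (.rho 28,⟨false,[],(20,18),.mon 6 7 0,[]⟩),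
  (.comm 41 0 0,⟨false,[],(20,22),.all,[]⟩),
  (.cc 0,⟨false,[],(20,18),.all,[]⟩),
  (.spec 0,⟨false,[],(20,18),.mon 0 0 0,[]⟩),
  (.comm 129 98 0,⟨false,[],(15,23),.mon 4 4 0,[]⟩),
  (.comm 95 0 0,⟨false,[],(11,23),.mon 6 6 0,[]⟩),
  (.rho 0,⟨false,[],(22,10),.mon 6 6 0,[]⟩),
  (.comm 47 0 0,⟨false,[],(18,10),.all,[]⟩),
  (.cc 0,⟨false,[],(22,30),.all,[]⟩),
  (.rho 0,⟨false,[],(31,23),.all,[]⟩),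
  (.spec 0,⟨false,[],(31,23),.mon 0 0 0,[]⟩),
  (.comm 31 0 0,⟨false,[],(18,23),.all,[]⟩),
  (.comm 0 8 0,⟨false,[],(20,23),.all,[]⟩),
  (.rho 141,⟨false,[],(22,20),.mon 3 2 0,[]⟩),
  (.comm 134 139 0,⟨false,[],(19,27),.mon 4 4 0,[]⟩),
  (.rho 0,⟨false,[],(26,18),.mon 4 4 0,[]⟩),
  (.comm 56 0 0,⟨false,[],(26,22),.all,[]⟩),
  (.comm 0 3 0,⟨false,[],(26,20),.all,[]⟩),
  (.spec 0,⟨false,[],(26,20),.mon 0 0 0,[]⟩),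
  (.rho 28,⟨false,[],(23,9),.all,[]⟩),
  (.spec 0,⟨false,[],(23,9),.mon 0 0 0,[]⟩),
  (.comm 23 0 0,⟨false,[],(23,26),.all,[]⟩),
  (.comm 0 3 0,⟨false,[],(23,20),.all,[]⟩),
  (.cc 62,⟨false,[],(22,20),.all,[]⟩),
  (.comm 49 34 0,⟨false,[],(8,30),.all,[]⟩),
  (.rho 0,⟨false,[],(31,9),.all,[]⟩),
  (.spec 0,⟨false,[],(31,9),.mon 0 0 0,[]⟩),
  (.comm 29 0 0,⟨false,[],(31,26),.all,[]⟩),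
  (.cc 68,⟨false,[],(22,18),.all,[]⟩),
  (.spec 0,⟨false,[],(22,18),.mon 0 0 0,[]⟩),
  (.rho 131,⟨false,[],(22,8),.mon 9 8 0,[]⟩),
  (.comm 71 0 0,⟨false,[],(18,8),.all,[]⟩),
  (.comm 0 2 0,⟨false,[],(22,8),.all,[]⟩),
  (.rho 0,⟨false,[],(9,23),.all,[]⟩),
  (.spec 0,⟨false,[],(9,23),.mon 0 0 0,[]⟩),
  (.comm 13 0 0,⟨false,[],(9,26),.all,[]⟩),
  (.comm 39 41 7,⟨false,[],(27,26),.all,[(9,26)]⟩),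
  (.drop 0 [1],⟨false,[],(27,26),.all,[]⟩),
  (.comm 153 23 0,⟨false,[],(19,31),.mon 6 6 0,[]⟩),
  (.rho 0,⟨false,[],(30,18),.mon 6 6 0,[]⟩),
  (.comm 80 0 0,⟨false,[],(30,22),.all,[]⟩),
  (.cN 24 0 32,⟨false,[],(26,30),.all,[]⟩),
  (.spec 0,⟨false,[],(26,30),.mon 0 0 0,[]⟩),
  (.comm 0 5 5,⟨false,[],(31,30),.all,[(27,30)]⟩),
  (.drop 0 [16],⟨false,[],(31,30),.all,[]⟩),
  (.spec 65,⟨false,[],(18,31),.mon 0 0 0,[(18,19)]⟩),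
  (.comm 0 1 5,⟨false,[],(18,19),.all,[(18,30)]⟩),
  (.drop 0 [72],⟨false,[],(18,19),.all,[]⟩),
  (.rho 149,⟨false,[],(22,8),.mon 9 8 0,[]⟩),
  (.comm 32 0 0,⟨false,[],(26,8),.all,[]⟩),
  (.spec 0,⟨false,[],(26,8),.mon 0 0 0,[]⟩),
  (.spec 22,⟨false,[],(22,18),.mon 0 0 0,[]⟩),
  (.comm 61 0 0,⟨false,[],(8,18),.all,[]⟩),
  (.rho 0,⟨false,[],(19,9),.all,[]⟩),
  (.spec 0,⟨false,[],(19,9),.mon 0 0 0,[]⟩),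
  (.comm 57 0 0,⟨false,[],(19,26),.all,[]⟩),
  (.comm 0 5 0,⟨false,[],(19,8),.all,[]⟩),
  (.comm 4 62 7,⟨false,[],(19,18),.all,[(9,18)]⟩),
  (.drop 0 [1],⟨false,[],(19,18),.all,[]⟩)],
  [(98,98),(78,78),(59,59),(56,56),(56,56),(78,78),(59,59),(98,98),(57,57),(46,46),(36,36),(35,35),(35,35),(46,46),(36,36),(57,57),(11,11),(0,0)]⟩ = true := by decide +kernel

theorem famCi {G L K : Type} [Group G] [AddCommGroup L] [Field K] [Finite K] {S : St G L K}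
    {n : ℕ} (R : Frame S .C n) (md : ∀ x y, Md S.φ x false y false) (h : n = 5 ∨ 7 ≤ n) :
    IsLeast {n | Good S.Gs n} 3 := by
  rcases h with rfl | h
  · exact R.gen (by decide) (md _ _) cCi5
  by_cases p : 17 ≤ n
  · exact R.poly p (by simp) (md _ _) cCiw
  rw [not_le] at p
  interval_cases n
  · exact R.gen (by decide) (md _ _) cCi7
  · exact R.gen (by decide) (md _ _) cCi8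
  · exact R.gen (by decide) (md _ _) cCi9
  · exact R.gen (by decide) (md _ _) cCi10
  · exact R.gen (by decide) (md _ _) cCi11
  · exact R.gen (by decide) (md _ _) cCi12
  · exact R.poly le_rfl (fun _ => rfl) (md _ _) cCi13
  · exact R.poly le_rfl (fun _ => rfl) (md _ _) cCi14
  · exact R.poly le_rfl (fun _ => rfl) (md _ _) cCi15
  · exact R.poly le_rfl (fun _ => rfl) (md _ _) cCi16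

end Pool.Agent.MP_c78e8e_al.H75

end
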