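import Pool.Agent.MP_c78e8e_al.Sg.Clas

section

namespace Pool.Agent.MP_c78e8e_al.H75

theorem cXo9 : Fam.chkP .X 9 1 true false true false true
  ⟨[],[(6,16),(11,6)],[(16,6),(7,17),(13,16),(17,12)],[((7,8),some (0,0,0)),((12,3),some (1,0,0))],1,(0,16),(7,1),(7,16),(0,16),(0,0,0),[(17,14),(10,3),(0,6),(17,6)],
  [(.base 2,⟨false,[(16,6),(7,17),(13,16),(17,12),(6,16),(17,7),(11,6),(7,10)],(10,3),.mon 1 0 0,[(17,6),(0,6),(17,14),(7,8),(12,3),(0,16)]⟩),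
  (.base 1,⟨false,[(16,6),(7,17),(13,16),(17,12),(6,16),(17,7),(11,6),(7,10)],(0,6),.mon 0 0 0,[(17,6),(10,3),(17,14),(7,8),(12,3),(0,16)]⟩),
  (.cc 0,⟨false,[(10,2),(3,11),(15,10),(11,14),(2,10),(11,3),(17,2),(3,16)],(0,2),.mon 0 0 0,[(11,2),(16,7),(11,12),(3,18),(14,7),(0,10)]⟩),
  (.ca 0,⟨false,[(12,2),(3,13),(9,12),(13,8),(2,12),(13,3),(7,2),(3,6)],(0,2),.mon 0 0 0,[(13,2),(6,17),(13,10),(3,4),(8,17),(0,12)]⟩),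
  (.cc 0,⟨false,[(14,6),(7,15),(19,14),(15,18),(6,14),(15,7),(3,6),(7,2)],(0,6),.mon 0 0 0,[(15,6),(2,11),(15,16),(7,4),(18,11),(0,14)]⟩),
  (.ca 0,⟨false,[(8,16),(17,9),(5,8),(9,4),(16,8),(9,17),(3,16),(17,2)],(0,16),.mon 0 0 0,[(9,16),(2,13),(9,6),(17,18),(4,13),(0,8)]⟩),
  (.cc 0,⟨false,[(18,10),(11,19),(5,18),(19,4),(10,18),(19,11),(7,10),(11,6)],(0,10),.mon 0 0 0,[(19,10),(6,15),(19,2),(11,8),(4,15),(0,18)]⟩),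
  (.ca 0,⟨false,[(4,12),(13,5),(19,4),(5,18),(12,4),(5,13),(17,12),(13,16)],(0,12),.mon 0 0 0,[(5,12),(16,9),(5,2),(13,14),(18,9),(0,4)]⟩),
  (.cc 0,⟨false,[(4,14),(15,5),(9,4),(5,8),(14,4),(5,15),(11,14),(15,10)],(0,14),.mon 0 0 0,[(5,14),(10,19),(5,6),(15,12),(8,19),(0,4)]⟩),
  (.mul 8 0,⟨false,[(16,6),(7,17),(13,16),(17,12),(6,16),(17,7),(11,6),(7,10),(4,14),(15,5),(9,4),(5,8),(14,4),(5,15),(11,14),(15,10)],(10,3),.mon 1 0 0,[(17,6),(0,6),(17,14),(7,8),(12,3),(0,16),(0,14),(5,14),(10,19),(5,6),(15,12),(8,19),(0,4)]⟩),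
  (.sq 0 7,⟨false,[],(10,3),.mon 1 0 0,[(0,6),(7,8),(0,16),(0,14),(10,19),(15,12),(0,4),(7,6),(17,6),(15,6),(5,6),(7,19),(15,3),(17,16),(15,16),(5,16),(15,14),(5,14),(5,4)]⟩),
  (.ko 0 6 5,⟨false,[],(10,3),.mon 1 0 0,[(0,6),(7,8),(0,14),(10,19),(15,12),(7,6),(17,6),(15,6),(5,6),(17,16),(15,16),(5,16),(15,14),(5,14),(5,4)]⟩),
  (.base 4,⟨false,[(16,6),(7,17),(13,16),(17,12),(6,16),(17,7),(11,6),(7,10)],(7,8),.mon 0 0 0,[(17,6),(0,6),(10,3),(17,14),(12,3),(0,16)]⟩),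
  (.mul 0 4,⟨false,[(16,6),(7,17),(13,16),(17,12),(6,16),(17,7),(11,6),(7,10),(4,14),(15,5),(9,4),(5,8),(14,4),(5,15),(11,14),(15,10)],(7,8),.mon 0 0 0,[(17,6),(0,6),(10,3),(17,14),(12,3),(0,16),(0,14),(5,14),(10,19),(5,6),(15,12),(8,19),(0,4)]⟩),
  (.sq 0 7,⟨false,[],(7,8),.mon 0 0 0,[(0,6),(10,3),(0,16),(0,14),(10,19),(15,12),(0,4),(7,6),(17,6),(15,6),(5,6),(7,19),(15,3),(17,16),(15,16),(5,16),(15,14),(5,14),(5,4)]⟩),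
  (.ca 0,⟨false,[],(17,14),.mon 0 0 0,[(0,16),(12,3),(0,6),(0,8),(12,5),(9,10),(0,18),(17,16),(7,16),(9,16),(19,16),(17,5),(9,3),(7,6),(9,6),(19,6),(9,8),(19,8),(19,18)]⟩),
  (.cc 0,⟨false,[],(11,12),.mon 0 0 0,[(0,10),(14,7),(0,2),(0,18),(14,5),(19,16),(0,8),(11,10),(3,10),(19,10),(9,10),(11,5),(19,7),(3,2),(19,2),(9,2),(19,18),(9,18),(9,8)]⟩),
  (.ca 0,⟨false,[],(13,10),.mon 0 0 0,[(0,12),(8,17),(0,2),(0,4),(8,19),(5,6),(0,14),(13,12),(3,12),(5,12),(15,12),(13,19),(5,17),(3,2),(5,2),(15,2),(5,4),(15,4),(15,14)]⟩),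
  (.cc 0,⟨false,[],(15,16),.mon 0 0 0,[(0,14),(18,11),(0,6),(0,4),(18,9),(5,2),(0,12),(15,14),(7,14),(5,14),(13,14),(15,9),(5,11),(7,6),(5,6),(13,6),(5,4),(13,4),(13,12)]⟩),
  (.ca 0,⟨false,[],(9,6),.mon 0 0 0,[(0,8),(4,13),(0,16),(0,18),(4,15),(19,2),(0,10),(9,8),(17,8),(19,8),(11,8),(9,15),(19,13),(17,16),(19,16),(11,16),(19,18),(11,18),(11,10)]⟩),
  (.cc 0,⟨false,[],(19,2),.mon 0 0 0,[(0,18),(4,15),(0,10),(0,8),(4,13),(9,6),(0,16),(19,18),(11,18),(9,18),(17,18),(19,13),(9,15),(11,10),(9,10),(17,10),(9,8),(17,8),(17,16)]⟩),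
  (.ca 0,⟨false,[],(5,2),.mon 0 0 0,[(0,4),(18,9),(0,12),(0,14),(18,11),(15,16),(0,6),(5,4),(13,4),(15,4),(7,4),(5,11),(15,9),(13,12),(15,12),(7,12),(15,14),(7,14),(7,6)]⟩),
  (.rho 0,⟨false,[],(3,4),.mon 0 0 0,[(0,4),(18,9),(0,12),(0,14),(18,11),(15,16),(0,6),(5,4),(13,4),(15,4),(7,4),(5,11),(15,9),(13,12),(15,12),(7,12),(15,14),(7,14),(7,6)]⟩),
  (.comm 11 0 0,⟨false,[],(10,4),.mon 1 0 0,[(5,6),(13,6),(15,6),(7,6),(7,19),(5,14),(13,14),(15,14)]⟩),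
  (.ca 9,⟨false,[],(17,14),.mon 0 0 0,[(0,16),(12,3),(0,6),(0,8),(12,5),(9,10),(0,18),(17,16),(7,16),(9,16),(19,16),(17,5),(9,3),(7,6),(9,6),(19,6),(9,8),(19,8),(19,18)]⟩),
  (.cc 0,⟨false,[],(11,12),.mon 0 0 0,[(0,10),(14,7),(0,2),(0,18),(14,5),(19,16),(0,8),(11,10),(3,10),(19,10),(9,10),(11,5),(19,7),(3,2),(19,2),(9,2),(19,18),(9,18),(9,8)]⟩),
  (.ca 0,⟨false,[],(13,10),.mon 0 0 0,[(0,12),(8,17),(0,2),(0,4),(8,19),(5,6),(0,14),(13,12),(3,12),(5,12),(15,12),(13,19),(5,17),(3,2),(5,2),(15,2),(5,4),(15,4),(15,14)]⟩),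
  (.comm 3 0 0,⟨false,[],(13,4),.mon 1 0 0,[]⟩),
  (.rho 0,⟨false,[],(5,12),.mon 0 1 0,[]⟩),
  (.ca 0,⟨false,[],(19,10),.mon 0 1 0,[]⟩),
  (.rho 0,⟨false,[],(11,18),.mon 1 0 0,[]⟩),
  (.rho 0,⟨false,[],(19,10),.mon 0 1 0,[]⟩),
  (.comm 31 0 0,⟨false,[],(19,3),.mon 1 1 0,[]⟩),
  (.rho 0,⟨false,[],(2,18),.mon 1 1 0,[]⟩),
  (.cc 0,⟨false,[],(6,8),.mon 1 1 0,[]⟩),
  (.ca 0,⟨false,[],(16,14),.mon 1 1 0,[]⟩),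
  (.rho 0,⟨false,[],(15,17),.mon 1 1 0,[]⟩),
  (.cc 0,⟨false,[],(13,11),.mon 1 1 0,[]⟩),
  (.rho 0,⟨false,[],(10,12),.mon 1 1 0,[]⟩),
  (.ca 0,⟨false,[],(12,10),.mon 1 1 0,[]⟩),
  (.rho 0,⟨false,[],(11,13),.mon 1 1 0,[]⟩),
  (.cc 0,⟨false,[],(17,15),.mon 1 1 0,[]⟩),
  (.rho 0,⟨false,[],(14,16),.mon 1 1 0,[]⟩),
  (.ca 0,⟨false,[],(8,6),.mon 1 1 0,[]⟩),
  (.rho 0,⟨false,[],(7,9),.mon 1 1 0,[]⟩),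
  (.ca 11,⟨false,[],(2,4),.mon 1 1 0,[]⟩),
  (.cc 0,⟨false,[],(6,4),.mon 1 1 0,[]⟩),
  (.rho 0,⟨false,[],(5,7),.mon 1 1 0,[]⟩),
  (.ca 0,⟨false,[],(19,17),.mon 1 1 0,[]⟩),
  (.rho 0,⟨false,[],(16,18),.mon 1 1 0,[]⟩),
  (.cc 0,⟨false,[],(10,8),.mon 1 1 0,[]⟩),
  (.rho 0,⟨false,[],(9,11),.mon 1 1 0,[]⟩),
  (.comm 11 0 0,⟨false,[],(9,13),.mon 2 2 0,[]⟩),
  (.comm 8 0 0,⟨false,[],(7,13),.mon 3 3 0,[]⟩),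
  (.ca 2,⟨false,[],(15,13),.mon 1 1 0,[]⟩),
  (.rho 0,⟨false,[],(12,14),.mon 1 1 0,[]⟩),
  (.cc 0,⟨false,[],(14,12),.mon 1 1 0,[]⟩),
  (.rho 0,⟨false,[],(13,15),.mon 1 1 0,[]⟩),
  (.comm 0 21 0,⟨false,[],(13,17),.mon 2 2 0,[]⟩),
  (.comm 5 0 0,⟨false,[],(7,17),.mon 5 5 0,[]⟩),
  (.ca 2,⟨false,[],(11,9),.mon 1 1 0,[]⟩),
  (.rho 0,⟨false,[],(8,10),.mon 1 1 0,[]⟩),
  (.cc 0,⟨false,[],(18,16),.mon 1 1 0,[]⟩),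
  (.rho 0,⟨false,[],(17,19),.mon 1 1 0,[]⟩),
  (.comm 4 0 0,⟨false,[],(7,19),.mon 6 6 0,[]⟩),
  (.cc 20,⟨false,[],(3,19),.mon 1 1 0,[]⟩),
  (.ca 0,⟨false,[],(3,5),.mon 1 1 0,[]⟩),
  (.rho 33,⟨false,[],(19,3),.mon 1 1 0,[]⟩),
  (.comm 1 0 0,⟨false,[],(19,5),.mon 2 2 0,[]⟩),
  (.rho 0,⟨false,[],(4,18),.mon 2 2 0,[]⟩),
  (.rho 0,⟨false,[],(19,5),.mon 2 2 0,[]⟩),
  (.comm 6 0 0,⟨false,[],(7,5),.mon 8 8 0,[]⟩),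
  (.rho 0,⟨false,[],(4,6),.mon 8 8 0,[]⟩),
  (.rho 25,⟨false,[],(6,4),.mon 1 1 0,[]⟩),
  (.sI 1 0,⟨true,[],(2,4),.mon 9 9 0,[]⟩),
  (.cc 46,⟨false,[],(5,14),.mon 0 1 0,[]⟩),
  (.ca 0,⟨false,[],(19,8),.mon 0 1 0,[]⟩),
  (.rho 0,⟨false,[],(9,18),.mon 1 0 0,[]⟩),
  (.cc 0,⟨false,[],(19,8),.mon 1 0 0,[]⟩),
  (.rho 0,⟨false,[],(9,18),.mon 0 1 0,[]⟩),
  (.ca 0,⟨false,[],(15,4),.mon 0 1 0,[]⟩),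
  (.rho 0,⟨false,[],(5,14),.mon 1 0 0,[]⟩),
  (.cc 0,⟨false,[],(5,12),.mon 1 0 0,[]⟩),
  (.ca 0,⟨false,[],(19,10),.mon 1 0 0,[]⟩),
  (.rho 0,⟨false,[],(11,18),.mon 0 1 0,[]⟩),
  (.rho 0,⟨false,[],(19,10),.mon 1 0 0,[]⟩),
  (.comm 85 0 0,⟨false,[],(19,3),.mon 2 0 0,[]⟩),
  (.rho 0,⟨false,[],(2,18),.mon 0 2 0,[]⟩),
  (.ca 0,⟨false,[],(2,4),.mon 0 2 0,[]⟩),
  (.cc 0,⟨false,[],(6,4),.mon 0 2 0,[]⟩),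
  (.rho 0,⟨false,[],(5,7),.mon 2 0 0,[]⟩),
  (.ca 0,⟨false,[],(19,17),.mon 2 0 0,[]⟩),
  (.rho 0,⟨false,[],(16,18),.mon 0 2 0,[]⟩),
  (.cc 0,⟨false,[],(10,8),.mon 0 2 0,[]⟩),
  (.rho 0,⟨false,[],(9,11),.mon 2 0 0,[]⟩),
  (.ca 0,⟨false,[],(15,13),.mon 2 0 0,[]⟩),
  (.rho 0,⟨false,[],(12,14),.mon 0 2 0,[]⟩),
  (.cc 0,⟨false,[],(14,12),.mon 0 2 0,[]⟩),
  (.rho 0,⟨false,[],(13,15),.mon 2 0 0,[]⟩),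
  (.ca 0,⟨false,[],(11,9),.mon 2 0 0,[]⟩),
  (.rho 0,⟨false,[],(8,10),.mon 0 2 0,[]⟩),
  (.cc 0,⟨false,[],(18,16),.mon 0 2 0,[]⟩),
  (.rho 0,⟨false,[],(17,19),.mon 2 0 0,[]⟩),
  (.ca 0,⟨false,[],(7,5),.mon 2 0 0,[]⟩),
  (.rho 0,⟨false,[],(4,6),.mon 0 2 0,[]⟩),
  (.rho 57,⟨false,[],(6,4),.mon 1 1 0,[]⟩),
  (.sI 1 0,⟨true,[],(2,4),.mon 1 3 0,[]⟩),
  (.sN 0,⟨true,[],(2,4),.mon (-1) (-3) 0,[]⟩),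
  (.sA 33 0,⟨true,[],(2,4),.mon 8 6 0,[]⟩),
  (.comm 47 74 0,⟨false,[],(6,10),.mon 2 2 0,[]⟩),
  (.rho 58,⟨false,[],(10,8),.mon 1 1 0,[]⟩),
  (.comm 1 0 0,⟨false,[],(6,8),.mon 3 3 0,[]⟩),
  (.ca 48,⟨false,[],(7,5),.mon 1 1 0,[]⟩),
  (.rho 0,⟨false,[],(4,6),.mon 1 1 0,[]⟩),
  (.comm 2 0 0,⟨false,[],(4,8),.mon 4 4 0,[]⟩),
  (.comm 70 67 0,⟨false,[],(5,9),.mon 2 2 0,[]⟩),
  (.rho 0,⟨false,[],(8,4),.mon 2 2 0,[]⟩),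
  (.sI 2 0,⟨true,[],(2,4),.mon 6 6 0,[]⟩),
  (.sN 0,⟨true,[],(2,4),.mon (-6) (-6) 0,[]⟩),
  (.sA 10 0,⟨true,[],(2,4),.mon 2 0 0,[]⟩),
  (.sF 0 74,⟨false,[],(2,4),.all,[]⟩),
  (.comm 7 11 0,⟨false,[],(4,10),.mon 3 3 0,[]⟩),
  (.comm 1 0 0,⟨false,[],(2,10),.all,[]⟩),
  (.rho 56,⟨false,[],(4,2),.mon 1 1 0,[]⟩),
  (.comm 1 0 0,⟨false,[],(4,10),.all,[]⟩),
  (.comm 0 124 0,⟨false,[],(4,3),.all,[]⟩),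
  (.rho 53,⟨false,[],(7,5),.mon 8 8 0,[]⟩),
  (.sI 0 79,⟨true,[],(5,12),.mon 9 9 0,[]⟩),
  (.cc 40,⟨false,[],(6,8),.mon 0 2 0,[]⟩),
  (.ca 0,⟨false,[],(16,14),.mon 0 2 0,[]⟩),
  (.rho 0,⟨false,[],(15,17),.mon 2 0 0,[]⟩),
  (.cc 0,⟨false,[],(13,11),.mon 2 0 0,[]⟩),
  (.rho 0,⟨false,[],(10,12),.mon 0 2 0,[]⟩),
  (.ca 0,⟨false,[],(12,10),.mon 0 2 0,[]⟩),
  (.rho 0,⟨false,[],(11,13),.mon 2 0 0,[]⟩),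
  (.cc 0,⟨false,[],(17,15),.mon 2 0 0,[]⟩),
  (.rho 0,⟨false,[],(14,16),.mon 0 2 0,[]⟩),
  (.ca 0,⟨false,[],(8,6),.mon 0 2 0,[]⟩),
  (.rho 0,⟨false,[],(7,9),.mon 2 0 0,[]⟩),
  (.cc 0,⟨false,[],(3,19),.mon 2 0 0,[]⟩),
  (.ca 0,⟨false,[],(3,5),.mon 2 0 0,[]⟩),
  (.rho 95,⟨false,[],(5,3),.mon 1 1 0,[]⟩),
  (.sI 1 0,⟨true,[],(5,12),.mon 3 1 0,[]⟩),
  (.sN 0,⟨true,[],(5,12),.mon (-3) (-1) 0,[]⟩),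
  (.sA 16 0,⟨true,[],(5,12),.mon 6 8 0,[]⟩),
  (.rho 30,⟨false,[],(9,5),.mon 4 4 0,[]⟩),
  (.sI 0 30,⟨true,[],(5,12),.mon 6 6 0,[]⟩),
  (.sN 0,⟨true,[],(5,12),.mon (-6) (-6) 0,[]⟩),
  (.sA 3 0,⟨true,[],(5,12),.mon 0 2 0,[]⟩),
  (.sF 0 120,⟨false,[],(5,12),.all,[]⟩),
  (.comm 107 100 0,⟨false,[],(14,18),.mon 2 2 0,[]⟩),
  (.comm 0 95 0,⟨false,[],(12,18),.mon 3 3 0,[]⟩),
  (.rho 86,⟨false,[],(18,2),.mon 1 1 0,[]⟩),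
  (.comm 1 0 0,⟨false,[],(12,2),.mon 4 4 0,[]⟩),
  (.rho 0,⟨false,[],(3,13),.mon 4 4 0,[]⟩),
  (.rho 0,⟨false,[],(12,2),.mon 4 4 0,[]⟩),
  (.comm 6 0 0,⟨false,[],(5,2),.all,[]⟩),
  (.rho 91,⟨false,[],(18,2),.mon 1 1 0,[]⟩),
  (.comm 37 0 0,⟨false,[],(18,4),.all,[]⟩),
  (.rho 92,⟨false,[],(4,2),.mon 1 1 0,[]⟩),
  (.comm 1 0 0,⟨false,[],(18,2),.all,[]⟩),
  (.ca 0,⟨false,[],(4,2),.all,[]⟩),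
  (.comm 41 48 0,⟨false,[],(2,6),.all,[]⟩),
  (.rho 96,⟨false,[],(4,2),.mon 1 1 0,[]⟩),
  (.comm 1 0 0,⟨false,[],(4,6),.all,[]⟩),
  (.cc 39,⟨false,[],(4,7),.all,[]⟩),
  (.rho 112,⟨false,[],(12,6),.mon 3 3 0,[]⟩),
  (.comm 17 0 0,⟨false,[],(5,6),.all,[]⟩),
  (.cc 47,⟨false,[],(6,4),.all,[]⟩),
  (.comm 46 168 1,⟨false,[],(2,3),.all,[]⟩),
  (.comm 20 103 0,⟨false,[],(3,12),.all,[]⟩),
  (.rho 16,⟨false,[],(12,2),.mon 4 4 0,[]⟩),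
  (.comm 1 0 1,⟨false,[],(3,2),.all,[]⟩),
  (.comm 171 4 4,⟨false,[],(0,4),.all,[(7,4),(17,4),(5,8)]⟩),
  (.comm 131 118 0,⟨false,[],(12,16),.mon 2 2 0,[]⟩),
  (.comm 25 0 0,⟨false,[],(5,16),.all,[]⟩),
  (.rho 123,⟨false,[],(12,8),.mon 2 2 0,[]⟩),
  (.comm 27 0 0,⟨false,[],(5,8),.all,[]⟩),
  (.drop 4 [10,2,0],⟨false,[],(0,4),.all,[]⟩),
  (.spec 17,⟨false,[],(4,2),.mon 0 0 0,[]⟩),
  (.comm 1 0 2,⟨false,[],(0,2),.all,[(5,2)]⟩),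
  (.drop 0 [24],⟨false,[],(0,2),.all,[]⟩),
  (.cN 0 12 9,⟨false,[],(0,3),.all,[]⟩)],
  [(62,62),(57,57),(26,26),(21,21),(21,21),(57,57),(26,26),(62,62),(18,18),(17,17),(15,15),(14,14),(14,14),(17,17),(15,15),(18,18),(13,13),(10,10),(0,13),(1,10)]⟩ = true := by decide +kernel

theorem cXo10 : (Fam.op0 .X 10).check false true false true (Fam.tcG 10)
  ⟨[(13,8),(17,18),(21,6),(4,15),(2,10)],[(13,12)],[(3,18),(20,14)],[(20,15),(8,3),(17,18),(6,2),(3,9),(6,15),(9,7),(17,4)],[(13,20),(4,17),(14,6),(18,9),(3,10)],(2,4),(4,6),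
  ⟨[],[(16,11)],[(19,3),(2,18)],[((10,15),some (0,0,0)),((6,17),some (1,0,0))],1,(16,0),(1,18),(16,18),(16,0),(0,0,0),[(2,4),(21,18),(19,0),(19,17)],
  [(.base 2,⟨false,[(19,3),(2,18),(16,11),(10,17)],(21,18),.mon 1 0 0,[(19,17),(19,0),(2,4),(10,15),(6,17),(16,0)]⟩),
  (.base 4,⟨false,[(19,3),(2,18),(16,11),(10,17)],(10,15),.mon 0 0 0,[(19,17),(19,0),(21,18),(2,4),(6,17),(16,0)]⟩),
  (.base 1,⟨false,[(19,3),(2,18),(16,11),(10,17)],(19,0),.mon 0 0 0,[(19,17),(21,18),(2,4),(10,15),(6,17),(16,0)]⟩),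
  (.cc 0,⟨false,[(8,10),(11,9),(5,2),(3,4)],(8,0),.mon 0 0 0,[(8,4),(12,9),(11,17),(3,7),(14,4),(5,0)]⟩),
  (.mul 2 0,⟨false,[(19,3),(2,18),(16,11),(10,17),(8,10),(11,9),(5,2),(3,4)],(10,15),.mon 0 0 0,[(19,17),(19,0),(21,18),(2,4),(6,17),(16,0),(8,0),(8,4),(12,9),(11,17),(3,7),(14,4),(5,0)]⟩),
  (.sq 0 5,⟨false,[],(10,15),.mon 0 0 0,[(19,0),(16,0),(8,0),(3,7),(5,0),(19,18),(19,17),(19,9),(19,4),(6,4),(16,15),(16,17),(16,9),(16,4),(8,9),(8,4),(5,4)]⟩),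
  (.ko 0 3 4,⟨false,[],(10,15),.mon 0 0 0,[(19,0),(16,0),(3,7),(16,15),(19,18),(19,17),(19,9),(19,4),(16,17),(16,9),(16,4),(8,9),(8,4),(5,7),(5,4)]⟩),
  (.ko 1 3 4,⟨false,[],(10,15),.mon 0 0 0,[(8,0),(3,7),(5,0),(6,4),(16,15),(19,18),(19,17),(19,9),(19,4),(16,17),(16,9),(16,4),(8,9),(8,4),(5,4)]⟩),
  (.cc 0,⟨false,[],(3,7),.mon 0 0 0,[(19,0),(10,15),(16,0),(14,17),(5,7),(8,9),(8,4),(8,18),(8,17),(5,4),(5,18),(5,17),(19,18),(19,17),(16,17)]⟩),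
  (.ca 0,⟨false,[],(11,20),.mon 0 0 0,[(16,0),(2,4),(19,0),(5,18),(14,20),(13,12),(13,15),(13,17),(13,18),(14,15),(14,17),(14,18),(16,17),(16,18),(19,18)]⟩),
  (.rho 0,⟨false,[],(21,10),.mon 0 0 0,[(16,0),(2,4),(19,0),(5,18),(14,20),(13,12),(13,15),(13,17),(13,18),(14,15),(14,17),(14,18),(16,17),(16,18),(19,18)]⟩),
  (.comm 4 0 0,⟨false,[],(21,15),.mon 0 0 0,[(19,17),(19,18),(16,17),(5,7)]⟩),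
  (.ca 8,⟨false,[(13,2),(3,12),(14,10),(11,15)],(13,0),.mon 0 0 0,[(13,15),(9,12),(3,18),(11,20),(5,15),(14,0)]⟩),
  (.ko 1 0 0,⟨false,[],(21,15),.mon 0 0 0,[]⟩),
  (.rho 0,⟨false,[],(14,20),.mon 0 0 0,[]⟩),
  (.ca 0,⟨false,[],(5,7),.mon 0 0 0,[]⟩),
  (.cc 0,⟨false,[],(16,15),.mon 0 0 0,[]⟩),
  (.rho 0,⟨false,[],(14,17),.mon 0 0 0,[]⟩),
  (.ca 0,⟨false,[],(5,18),.mon 0 0 0,[]⟩),
  (.cc 0,⟨false,[],(16,9),.mon 0 0 0,[]⟩),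
  (.rho 0,⟨false,[],(8,17),.mon 0 0 0,[]⟩),
  (.ca 0,⟨false,[],(13,18),.mon 0 0 0,[]⟩),
  (.cc 0,⟨false,[],(20,9),.mon 0 0 0,[]⟩),
  (.rho 0,⟨false,[],(8,21),.mon 0 0 0,[]⟩),
  (.comm 23 0 0,⟨false,[],(8,18),.mon 1 0 0,[]⟩),
  (.ca 0,⟨false,[],(13,17),.mon 1 0 0,[]⟩),
  (.cc 11,⟨false,[],(6,13),.mon 0 0 0,[]⟩),
  (.ca 0,⟨false,[],(21,8),.mon 0 0 0,[]⟩),
  (.rho 0,⟨false,[],(9,20),.mon 0 0 0,[]⟩),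
  (.cc 0,⟨false,[],(18,13),.mon 0 0 0,[]⟩),
  (.rho 0,⟨false,[],(12,19),.mon 0 0 0,[]⟩),
  (.ca 0,⟨false,[],(9,16),.mon 0 0 0,[]⟩),
  (.cc 0,⟨false,[],(18,5),.mon 0 0 0,[]⟩),
  (.rho 0,⟨false,[],(4,19),.mon 0 0 0,[]⟩),
  (.ca 0,⟨false,[],(15,16),.mon 0 0 0,[]⟩),
  (.rho 0,⟨false,[],(17,14),.mon 0 0 0,[]⟩),
  (.comm 10 0 0,⟨false,[],(13,14),.mon 1 0 0,[]⟩),
  (.cc 2,⟨false,[],(7,5),.mon 0 0 0,[]⟩),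
  (.rho 0,⟨false,[],(4,6),.mon 0 0 0,[]⟩),
  (.comm 0 12 0,⟨false,[],(4,13),.mon 0 0 0,[]⟩),
  (.comm 3 0 0,⟨false,[],(4,14),.mon 1 0 0,[]⟩),
  (.rho 23,⟨false,[],(16,15),.mon 0 0 0,[]⟩),
  (.comm 10 0 0,⟨false,[],(9,15),.mon 0 0 0,[]⟩),
  (.rho 0,⟨false,[],(14,8),.mon 0 0 0,[]⟩),
  (.comm 20 0 0,⟨false,[],(14,21),.mon 0 0 0,[]⟩),
  (.comm 44 0 0,⟨false,[],(14,18),.mon 1 0 0,[]⟩),
  (.ca 22,⟨false,[],(13,6),.mon 0 0 0,[]⟩),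
  (.rho 0,⟨false,[],(7,12),.mon 0 0 0,[]⟩),
  (.comm 0 32 0,⟨false,[],(5,12),.mon 0 0 0,[]⟩),
  (.comm 0 18 0,⟨false,[],(5,19),.mon 0 0 0,[]⟩),
  (.rho 0,⟨false,[],(18,4),.mon 0 0 0,[]⟩),
  (.comm 5 0 0,⟨false,[],(14,4),.mon 1 0 0,[]⟩),
  (.rho 0,⟨false,[],(5,15),.mon 0 1 0,[]⟩),
  (.rho 0,⟨false,[],(14,4),.mon 1 0 0,[]⟩),
  (.sI 13 0,⟨true,[],(14,20),.mon 2 0 0,[]⟩),
  (.sF 0 40,⟨false,[],(14,20),.all,[]⟩),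
  (.cc 0,⟨false,[],(6,13),.all,[]⟩),
  (.rho 35,⟨false,[],(19,12),.mon 0 0 0,[]⟩),
  (.comm 24 0 0,⟨false,[],(4,12),.mon 0 0 0,[]⟩),
  (.rho 0,⟨false,[],(13,5),.mon 0 0 0,[]⟩),
  (.comm 3 0 0,⟨false,[],(6,5),.all,[]⟩),
  (.rho 0,⟨false,[],(4,7),.all,[]⟩),
  (.base 3,⟨false,[(19,3),(2,18),(16,11),(10,17)],(2,4),.mon 0 0 0,[(19,17),(19,0),(21,18),(10,15),(6,17),(16,0)]⟩),
  (.comm 1 0 0,⟨false,[],(2,7),.all,[]⟩),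
  (.cc 38,⟨false,[],(20,4),.mon 1 0 0,[]⟩),
  (.rho 0,⟨false,[],(5,21),.mon 0 1 0,[]⟩),
  (.rho 0,⟨false,[],(20,4),.mon 1 0 0,[]⟩),
  (.comm 11 0 0,⟨false,[],(14,4),.all,[]⟩),
  (.comm 20 37 0,⟨false,[],(7,19),.mon 0 0 0,[]⟩),
  (.rho 0,⟨false,[],(18,6),.mon 0 0 0,[]⟩),
  (.comm 45 0 0,⟨false,[],(8,6),.mon 1 0 0,[]⟩),
  (.rho 0,⟨false,[],(7,9),.mon 0 1 0,[]⟩),
  (.cc 24,⟨false,[],(15,21),.mon 0 0 0,[]⟩),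
  (.rho 44,⟨false,[],(21,8),.mon 0 0 0,[]⟩),
  (.comm 1 0 0,⟨false,[],(15,8),.mon 0 0 0,[]⟩),
  (.rho 0,⟨false,[],(9,14),.mon 0 0 0,[]⟩),
  (.comm 4 0 0,⟨false,[],(7,14),.mon 0 1 0,[]⟩),
  (.comm 9 0 0,⟨false,[],(7,4),.all,[]⟩),
  (.spec 0,⟨false,[],(7,4),.mon 0 0 0,[]⟩),
  (.comm 15 0 0,⟨false,[],(2,4),.all,[]⟩),
  (.rho 46,⟨false,[],(18,5),.mon 0 0 0,[]⟩),
  (.comm 56 0 0,⟨false,[],(8,5),.mon 1 0 0,[]⟩),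
  (.rho 0,⟨false,[],(4,9),.mon 0 1 0,[]⟩),
  (.comm 0 7 0,⟨false,[],(4,14),.mon 0 1 0,[]⟩),
  (.comm 28 0 0,⟨false,[],(4,20),.all,[]⟩),
  (.rho 12,⟨false,[],(20,14),.mon 0 0 0,[]⟩),
  (.comm 1 0 0,⟨false,[],(4,14),.all,[]⟩),
  (.comm 31 10 0,⟨false,[],(7,20),.all,[]⟩),
  (.rho 15,⟨false,[],(20,14),.mon 0 0 0,[]⟩),
  (.comm 1 0 0,⟨false,[],(7,14),.all,[]⟩),
  (.spec 0,⟨false,[],(7,14),.mon 0 0 0,[]⟩),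
  (.comm 27 0 0,⟨false,[],(2,14),.all,[]⟩),
  (.comm 19 49 0,⟨false,[],(9,21),.mon 0 0 0,[]⟩),
  (.comm 10 0 0,⟨false,[],(4,21),.mon 0 1 0,[]⟩),
  (.rho 0,⟨false,[],(20,5),.mon 1 0 0,[]⟩),
  (.comm 39 0 0,⟨false,[],(14,5),.all,[]⟩),
  (.comm 24 3 0,⟨false,[],(7,21),.mon 0 1 0,[]⟩),
  (.rho 0,⟨false,[],(20,6),.mon 1 0 0,[]⟩),
  (.comm 13 0 0,⟨false,[],(4,6),.all,[]⟩),
  (.rho 0,⟨false,[],(7,5),.all,[]⟩),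
  (.spec 0,⟨false,[],(7,5),.mon 0 0 0,[]⟩),
  (.comm 37 0 0,⟨false,[],(2,5),.all,[]⟩),
  (.cc 38,⟨false,[],(11,15),.all,[]⟩),
  (.ca 0,⟨false,[],(3,4),.all,[]⟩),
  (.rho 0,⟨false,[],(5,2),.all,[]⟩),
  (.cN 9 3 0,⟨false,[],(14,2),.all,[]⟩),
  (.cN 19 14 0,⟨false,[],(4,2),.all,[]⟩),
  (.ca 51,⟨false,[],(5,7),.all,[]⟩),
  (.comm 107 15 0,⟨false,[],(9,18),.mon 1 0 0,[]⟩),
  (.rho 75,⟨false,[],(18,5),.mon 0 0 0,[]⟩),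
  (.comm 1 0 0,⟨false,[],(9,5),.mon 1 0 0,[]⟩),
  (.rho 0,⟨false,[],(4,8),.mon 0 1 0,[]⟩),
  (.rho 0,⟨false,[],(9,5),.mon 1 0 0,[]⟩),
  (.comm 5 0 0,⟨false,[],(9,7),.all,[]⟩),
  (.rho 90,⟨false,[],(20,9),.mon 0 0 0,[]⟩),
  (.comm 59 0 0,⟨false,[],(14,9),.all,[]⟩),
  (.comm 0 39 0,⟨false,[],(7,9),.all,[]⟩),
  (.rho 41,⟨false,[],(15,8),.mon 0 0 0,[]⟩),
  (.comm 93 0 0,⟨false,[],(15,18),.mon 1 0 0,[]⟩),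
  (.rho 0,⟨false,[],(19,14),.mon 0 1 0,[]⟩),
  (.comm 64 0 0,⟨false,[],(19,20),.all,[]⟩),
  (.rho 27,⟨false,[],(20,5),.mon 1 0 0,[]⟩),
  (.comm 1 0 0,⟨false,[],(19,5),.all,[]⟩),
  (.rho 0,⟨false,[],(4,18),.all,[]⟩),
  (.comm 0 61 0,⟨false,[],(2,18),.all,[]⟩),
  (.cc 0,⟨false,[],(11,9),.all,[]⟩),
  (.comm 69 87 0,⟨false,[],(4,13),.all,[]⟩),
  (.comm 0 64 0,⟨false,[],(2,13),.all,[]⟩),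
  (.ca 0,⟨false,[],(10,8),.all,[]⟩),
  (.comm 13 45 0,⟨false,[],(4,9),.all,[]⟩),
  (.comm 0 67 0,⟨false,[],(2,9),.all,[]⟩),
  (.ca 0,⟨false,[],(10,12),.all,[]⟩),
  (.comm 47 69 0,⟨false,[],(2,20),.all,[]⟩),
  (.cc 0,⟨false,[],(11,13),.all,[]⟩),
  (.rho 57,⟨false,[],(15,6),.mon 1 0 0,[]⟩),
  (.comm 78 0 0,⟨false,[],(15,13),.all,[]⟩),
  (.rho 104,⟨false,[],(17,8),.mon 0 0 0,[]⟩),
  (.comm 113 0 0,⟨false,[],(17,21),.mon 0 0 0,[]⟩),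
  (.comm 112 0 0,⟨false,[],(13,21),.mon 1 0 0,[]⟩),
  (.rho 0,⟨false,[],(20,12),.mon 0 1 0,[]⟩),
  (.comm 84 0 0,⟨false,[],(14,12),.all,[]⟩),
  (.rho 3,⟨false,[],(20,16),.mon 0 0 0,[]⟩),
  (.comm 86 0 0,⟨false,[],(14,16),.all,[]⟩),
  (.rho 114,⟨false,[],(21,8),.mon 0 0 0,[]⟩),
  (.comm 123 0 0,⟨false,[],(21,17),.mon 0 0 0,[]⟩),
  (.rho 0,⟨false,[],(16,20),.mon 0 0 0,[]⟩),
  (.rho 0,⟨false,[],(21,17),.mon 0 0 0,[]⟩),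
  (.comm 74 0 0,⟨false,[],(15,17),.mon 0 0 0,[]⟩),
  (.rho 0,⟨false,[],(16,14),.mon 0 0 0,[]⟩),
  (.comm 93 0 0,⟨false,[],(16,20),.all,[]⟩),
  (.rho 77,⟨false,[],(20,14),.mon 0 0 0,[]⟩),
  (.comm 1 0 0,⟨false,[],(16,14),.all,[]⟩),
  (.rho 134,⟨false,[],(16,15),.mon 0 0 0,[]⟩),
  (.comm 80 0 0,⟨false,[],(16,21),.mon 0 0 0,[]⟩),
  (.rho 0,⟨false,[],(20,17),.mon 0 0 0,[]⟩),
  (.comm 99 0 0,⟨false,[],(14,17),.all,[]⟩),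
  (.rho 37,⟨false,[],(19,14),.mon 0 1 0,[]⟩),
  (.comm 1 0 0,⟨false,[],(19,17),.all,[]⟩),
  (.rho 123,⟨false,[],(17,14),.mon 0 0 0,[]⟩),
  (.comm 103 0 0,⟨false,[],(17,20),.all,[]⟩),
  (.cc 51,⟨false,[],(18,9),.mon 1 0 0,[]⟩),
  (.rho 0,⟨false,[],(8,19),.mon 0 1 0,[]⟩),
  (.rho 69,⟨false,[],(20,8),.mon 0 0 0,[]⟩),
  (.comm 1 0 0,⟨false,[],(20,19),.mon 0 1 0,[]⟩),
  (.rho 0,⟨false,[],(18,21),.mon 1 0 0,[]⟩),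
  (.rho 0,⟨false,[],(20,19),.mon 0 1 0,[]⟩),
  (.comm 6 0 0,⟨false,[],(17,19),.all,[]⟩),
  (.rho 91,⟨false,[],(15,8),.mon 0 0 0,[]⟩),
  (.comm 6 0 0,⟨false,[],(15,19),.mon 0 1 0,[]⟩),
  (.rho 0,⟨false,[],(18,14),.mon 1 0 0,[]⟩),
  (.comm 114 0 0,⟨false,[],(18,20),.all,[]⟩),
  (.comm 136 25 0,⟨false,[],(15,20),.mon 0 0 0,[]⟩),
  (.rho 0,⟨false,[],(21,14),.mon 0 0 0,[]⟩),
  (.comm 117 0 1,⟨false,[],(21,20),.all,[]⟩),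
  (.rho 129,⟨false,[],(20,15),.mon 0 0 0,[]⟩),
  (.comm 119 0 1,⟨false,[],(14,15),.all,[]⟩),
  (.comm 103 0 5,⟨false,[],(20,21),.all,[(14,21)]⟩),
  (.comm 61 84 0,⟨false,[],(14,21),.all,[]⟩),
  (.drop 1 [0],⟨false,[],(20,21),.all,[]⟩),
  (.cN 58 5 0,⟨false,[],(19,21),.all,[]⟩),
  (.comm 124 104 0,⟨false,[],(9,20),.all,[]⟩),
  (.rho 87,⟨false,[],(20,5),.mon 1 0 0,[]⟩),
  (.comm 1 0 0,⟨false,[],(9,5),.all,[]⟩),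
  (.rho 0,⟨false,[],(4,8),.all,[]⟩),
  (.comm 0 121 0,⟨false,[],(2,8),.all,[]⟩),
  (.spec 0,⟨false,[],(2,8),.mon 0 0 0,[]⟩),
  (.rho 165,⟨false,[],(16,9),.mon 0 0 0,[]⟩),
  (.comm 152 0 0,⟨false,[],(15,9),.mon 0 0 0,[]⟩),
  (.rho 0,⟨false,[],(8,14),.mon 0 0 0,[]⟩),
  (.comm 73 0 1,⟨false,[],(8,9),.all,[]⟩),
  (.comm 4 0 5,⟨false,[],(2,3),.all,[(2,9)]⟩),
  (.drop 0 [60],⟨false,[],(2,3),.all,[]⟩),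
  (.comm 108 16 5,⟨false,[],(4,5),.all,[(4,15)]⟩),
  (.drop 0 [97],⟨false,[],(4,5),.all,[]⟩),
  (.rho 90,⟨false,[],(5,2),.all,[]⟩),
  (.cN 1 93 0,⟨false,[],(3,2),.all,[]⟩),
  (.rho 27,⟨false,[],(18,14),.mon 1 0 0,[]⟩),
  (.comm 81 0 0,⟨false,[],(18,9),.all,[]⟩),
  (.rho 0,⟨false,[],(8,19),.all,[]⟩),
  (.comm 196 0 4,⟨false,[],(8,0),.all,[(8,18),(8,17),(21,9)]⟩),
  (.rho 81,⟨false,[],(19,14),.mon 0 1 0,[]⟩),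
  (.comm 85 0 0,⟨false,[],(19,9),.all,[]⟩),
  (.rho 54,⟨false,[],(16,14),.mon 0 0 0,[]⟩),
  (.comm 87 0 0,⟨false,[],(16,9),.all,[]⟩),
  (.comm 148 15 0,⟨false,[],(8,20),.all,[]⟩),
  (.drop 5 [3,1,0],⟨false,[],(8,0),.all,[]⟩),
  (.spec 21,⟨false,[],(2,8),.mon 0 0 0,[]⟩),
  (.comm 1 0 2,⟨false,[],(2,0),.all,[(2,9)]⟩),
  (.drop 0 [77],⟨false,[],(2,0),.all,[]⟩),
  (.comm 101 140 0,⟨false,[],(5,19),.all,[]⟩),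
  (.comm 207 0 4,⟨false,[],(5,0),.all,[(5,18),(5,17),(21,4)]⟩),
  (.rho 192,⟨false,[],(19,4),.mon 0 0 0,[]⟩),
  (.comm 173 0 0,⟨false,[],(19,6),.mon 0 0 0,[]⟩),
  (.rho 0,⟨false,[],(7,18),.mon 0 0 0,[]⟩),
  (.comm 106 0 0,⟨false,[],(5,18),.all,[]⟩),
  (.comm 214 61 0,⟨false,[],(16,18),.mon 1 0 0,[]⟩),
  (.rho 147,⟨false,[],(18,6),.mon 0 0 0,[]⟩),
  (.comm 1 0 0,⟨false,[],(16,6),.mon 1 0 0,[]⟩),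
  (.rho 0,⟨false,[],(7,17),.mon 0 1 0,[]⟩),
  (.comm 111 0 0,⟨false,[],(5,17),.all,[]⟩),
  (.rho 170,⟨false,[],(18,4),.mon 0 0 0,[]⟩),
  (.comm 102 0 0,⟨false,[],(15,4),.mon 1 0 0,[]⟩),
  (.rho 0,⟨false,[],(5,14),.mon 0 1 0,[]⟩),
  (.comm 167 0 0,⟨false,[],(5,20),.all,[]⟩),
  (.drop 13 [9,4,0],⟨false,[],(5,0),.all,[]⟩),
  (.rho 206,⟨false,[],(19,4),.mon 0 0 0,[]⟩),
  (.comm 195 0 0,⟨false,[],(12,4),.mon 0 0 0,[]⟩),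
  (.rho 0,⟨false,[],(5,13),.mon 0 0 0,[]⟩),
  (.rho 0,⟨false,[],(12,4),.mon 0 0 0,[]⟩),
  (.comm 181 0 0,⟨false,[],(7,4),.mon 0 0 0,[]⟩),
  (.rho 0,⟨false,[],(5,6),.mon 0 0 0,[]⟩),
  (.rho 0,⟨false,[],(7,4),.mon 0 0 0,[]⟩),
  (.comm 124 0 1,⟨false,[],(5,4),.all,[]⟩),
  (.cN 8 0 39,⟨false,[],(4,0),.all,[]⟩),
  (.rho 130,⟨false,[],(5,2),.all,[]⟩),
  (.cN 1 133 0,⟨false,[],(3,0),.all,[]⟩)],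
  [(134,134),(132,132),(44,44),(40,40),(27,44),(0,40),(156,156),(129,129),(137,137),(128,128),(122,122),(119,119),(110,110),(107,107),(104,104),(102,102),(100,100),(95,95),(93,93),(84,84),(78,78),(69,69),(65,65),(56,56)]⟩⟩ = true := by decide +kernel

theorem cXo11 : Fam.chkP .X 11 1 true false true false true
  ⟨[],[(7,18),(10,20)],[(21,8),(9,20),(16,6),(7,17)],[((9,2),some (1,0,0)),((16,5),some (1,0,0))],1,(0,11),(16,1),(16,11),(0,11),(0,0,0),[(19,2),(10,23),(0,17),(10,17)],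
  [(.base 3,⟨false,[(21,8),(9,20),(16,6),(7,17),(7,18),(19,6),(10,20),(21,11)],(19,2),.mon 1 0 0,[(10,17),(0,17),(10,23),(9,2),(16,5),(0,11)]⟩),
  (.base 4,⟨false,[(21,8),(9,20),(16,6),(7,17),(7,18),(19,6),(10,20),(21,11)],(9,2),.mon 1 0 0,[(10,17),(0,17),(10,23),(19,2),(16,5),(0,11)]⟩),
  (.base 1,⟨false,[(21,8),(9,20),(16,6),(7,17),(7,18),(19,6),(10,20),(21,11)],(0,17),.mon 0 0 0,[(10,17),(10,23),(19,2),(9,2),(16,5),(0,11)]⟩),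
  (.cc 0,⟨false,[(11,22),(23,10),(14,2),(3,15),(3,12),(13,2),(20,10),(11,21)],(0,15),.mon 0 0 0,[(20,15),(20,9),(13,6),(23,6),(14,5),(0,21)]⟩),
  (.ca 0,⟨false,[(17,4),(5,16),(12,2),(3,13),(3,14),(15,2),(6,16),(17,7)],(0,13),.mon 0 0 0,[(6,13),(6,19),(15,20),(5,20),(12,23),(0,7)]⟩),
  (.cc 0,⟨false,[(15,4),(5,14),(18,6),(7,19),(7,16),(17,6),(2,14),(15,3)],(0,19),.mon 0 0 0,[(2,19),(2,13),(17,10),(5,10),(18,9),(0,3)]⟩),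
  (.ca 0,⟨false,[(13,22),(23,12),(8,20),(21,9),(21,10),(11,20),(2,12),(13,3)],(0,9),.mon 0 0 0,[(2,9),(2,15),(11,16),(23,16),(8,19),(0,3)]⟩),
  (.cc 0,⟨false,[(19,8),(9,18),(22,10),(11,23),(11,20),(21,10),(6,18),(19,7)],(0,23),.mon 0 0 0,[(6,23),(6,17),(21,14),(9,14),(22,13),(0,7)]⟩),
  (.mul 6 0,⟨false,[(21,8),(9,20),(16,6),(7,17),(7,18),(19,6),(10,20),(21,11),(19,8),(9,18),(22,10),(11,23),(11,20),(21,10),(6,18),(19,7)],(9,2),.mon 1 0 0,[(10,17),(0,17),(10,23),(19,2),(16,5),(0,11),(0,23),(6,23),(6,17),(21,14),(9,14),(22,13),(0,7)]⟩),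
  (.sq 0 5,⟨false,[],(9,2),.mon 1 0 0,[(0,17),(0,11),(0,23),(9,14),(0,7),(16,17),(10,17),(22,17),(6,17),(10,11),(22,11),(6,11),(22,23),(6,23),(6,7)]⟩),
  (.base 2,⟨false,[(21,8),(9,20),(16,6),(7,17),(7,18),(19,6),(10,20),(21,11)],(10,23),.mon 1 0 0,[(10,17),(0,17),(19,2),(9,2),(16,5),(0,11)]⟩),
  (.mul 0 7,⟨false,[(21,8),(9,20),(16,6),(7,17),(7,18),(19,6),(10,20),(21,11),(11,22),(23,10),(14,2),(3,15),(3,12),(13,2),(20,10),(11,21)],(10,23),.mon 1 0 0,[(10,17),(0,17),(19,2),(9,2),(16,5),(0,11),(0,15),(20,15),(20,9),(13,6),(23,6),(14,5),(0,21)]⟩),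
  (.sq 0 5,⟨false,[],(10,23),.mon 1 0 0,[(0,17),(0,11),(0,15),(20,9),(0,21),(16,17),(10,17),(14,17),(20,17),(10,6),(20,2),(10,11),(14,11),(20,11),(14,15),(20,15),(20,21)]⟩),
  (.cc 0,⟨false,[],(20,9),.mon 1 0 0,[(0,15),(0,21),(0,17),(10,23),(0,11),(14,15),(20,15),(16,15),(10,15),(20,2),(10,6),(20,21),(16,21),(10,21),(16,17),(10,17),(10,11)]⟩),
  (.ca 0,⟨false,[],(6,19),.mon 1 0 0,[(0,13),(0,7),(0,11),(16,5),(0,17),(12,13),(6,13),(10,13),(16,13),(6,2),(16,20),(6,7),(10,7),(16,7),(10,11),(16,11),(16,17)]⟩),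
  (.cc 0,⟨false,[],(2,13),.mon 1 0 0,[(0,19),(0,3),(0,21),(14,5),(0,15),(18,19),(2,19),(20,19),(14,19),(2,6),(14,10),(2,3),(20,3),(14,3),(20,21),(14,21),(14,15)]⟩),
  (.ca 0,⟨false,[],(2,15),.mon 1 0 0,[(0,9),(0,3),(0,7),(12,23),(0,13),(8,9),(2,9),(6,9),(12,9),(2,20),(12,16),(2,3),(6,3),(12,3),(6,7),(12,7),(12,13)]⟩),
  (.cc 0,⟨false,[],(6,17),.mon 1 0 0,[(0,23),(0,7),(0,3),(18,9),(0,19),(22,23),(6,23),(2,23),(18,23),(6,10),(18,14),(6,7),(2,7),(18,7),(2,3),(18,3),(18,19)]⟩),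
  (.ca 0,⟨false,[],(20,11),.mon 1 0 0,[(0,5),(0,21),(0,3),(8,19),(0,9),(4,5),(20,5),(2,5),(8,5),(20,16),(8,12),(20,21),(2,21),(8,21),(2,3),(8,3),(8,9)]⟩),
  (.cc 0,⟨false,[],(10,21),.mon 1 0 0,[(0,5),(0,11),(0,7),(22,13),(0,23),(4,5),(10,5),(6,5),(22,5),(10,14),(22,18),(10,11),(6,11),(22,11),(6,7),(22,7),(22,23)]⟩),
  (.ca 0,⟨false,[],(16,7),.mon 1 0 0,[(0,23),(0,17),(0,21),(4,15),(0,5),(22,23),(16,23),(20,23),(4,23),(16,12),(4,8),(16,17),(20,17),(4,17),(20,21),(4,21),(4,5)]⟩),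
  (.cc 0,⟨false,[],(14,3),.mon 1 0 0,[(0,9),(0,15),(0,11),(4,17),(0,5),(8,9),(14,9),(10,9),(4,9),(14,18),(4,22),(14,15),(10,15),(4,15),(10,11),(4,11),(4,5)]⟩),
  (.ca 0,⟨false,[],(12,3),.mon 1 0 0,[(0,19),(0,13),(0,17),(22,11),(0,23),(18,19),(12,19),(16,19),(22,19),(12,8),(22,4),(12,13),(16,13),(22,13),(16,17),(22,17),(22,23)]⟩),
  (.rho 0,⟨false,[],(2,13),.mon 0 1 0,[(0,19),(0,13),(0,17),(22,11),(0,23),(18,19),(12,19),(16,19),(22,19),(12,8),(22,4),(12,13),(16,13),(22,13),(16,17),(22,17),(22,23)]⟩),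
  (.comm 14 0 0,⟨false,[],(9,13),.mon 1 1 0,[(18,17),(12,17),(16,17),(22,17),(18,11),(12,11),(16,11),(22,11),(18,23),(12,23),(22,23),(18,7),(12,7),(16,7),(22,7)]⟩),
  (.cc 12,⟨false,[],(20,9),.mon 1 0 0,[(0,15),(0,21),(0,17),(10,23),(0,11),(14,15),(20,15),(16,15),(10,15),(20,2),(10,6),(20,21),(16,21),(10,21),(16,17),(10,17),(10,11)]⟩),
  (.comm 1 0 0,⟨false,[],(20,13),.mon 2 1 0,[(18,11),(12,11),(16,11),(22,11)]⟩),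
  (.ca 17,⟨false,[],(19,2),.mon 1 0 0,[(0,11),(0,17),(0,5),(19,12),(0,21),(10,11),(16,11),(4,11),(20,11),(16,17),(4,17),(20,17),(4,5),(20,5),(20,21)]⟩),
  (.cc 0,⟨false,[],(13,6),.mon 1 0 0,[(0,21),(0,15),(0,5),(13,18),(0,11),(20,21),(14,21),(4,21),(10,21),(14,15),(4,15),(10,15),(4,5),(10,5),(10,11)]⟩),
  (.ca 0,⟨false,[],(15,20),.mon 1 0 0,[(0,7),(0,13),(0,23),(15,8),(0,17),(6,7),(12,7),(22,7),(16,7),(12,13),(22,13),(16,13),(22,23),(16,23),(16,17)]⟩),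
  (.comm 3 0 0,⟨false,[],(15,13),.mon 3 1 0,[]⟩),
  (.rho 0,⟨false,[],(12,14),.mon 1 3 0,[]⟩),
  (.ca 0,⟨false,[],(14,12),.mon 1 3 0,[]⟩),
  (.rho 0,⟨false,[],(13,15),.mon 3 1 0,[]⟩),
  (.cc 0,⟨false,[],(19,17),.mon 3 1 0,[]⟩),
  (.rho 0,⟨false,[],(16,18),.mon 1 3 0,[]⟩),
  (.ca 0,⟨false,[],(10,8),.mon 1 3 0,[]⟩),
  (.rho 0,⟨false,[],(9,11),.mon 3 1 0,[]⟩),
  (.cc 0,⟨false,[],(23,21),.mon 3 1 0,[]⟩),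
  (.rho 0,⟨false,[],(20,22),.mon 1 3 0,[]⟩),
  (.ca 0,⟨false,[],(6,4),.mon 1 3 0,[]⟩),
  (.rho 0,⟨false,[],(5,7),.mon 3 1 0,[]⟩),
  (.cc 0,⟨false,[],(5,3),.mon 3 1 0,[]⟩),
  (.rho 0,⟨false,[],(2,4),.mon 1 3 0,[]⟩),
  (.ca 0,⟨false,[],(2,22),.mon 1 3 0,[]⟩),
  (.cc 0,⟨false,[],(6,8),.mon 1 3 0,[]⟩),
  (.ca 0,⟨false,[],(20,18),.mon 1 3 0,[]⟩),
  (.rho 0,⟨false,[],(19,21),.mon 3 1 0,[]⟩),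
  (.cc 0,⟨false,[],(13,11),.mon 3 1 0,[]⟩),
  (.rho 0,⟨false,[],(10,12),.mon 1 3 0,[]⟩),
  (.ca 0,⟨false,[],(16,14),.mon 1 3 0,[]⟩),
  (.rho 0,⟨false,[],(15,17),.mon 3 1 0,[]⟩),
  (.comm 0 18 0,⟨false,[],(13,17),.mon 6 2 0,[]⟩),
  (.cc 21,⟨false,[],(18,16),.mon 1 3 0,[]⟩),
  (.rho 0,⟨false,[],(17,19),.mon 3 1 0,[]⟩),
  (.comm 2 0 0,⟨false,[],(13,19),.mon 9 3 0,[]⟩),
  (.comm 55 0 0,⟨false,[],(13,2),.mon 10 3 0,[]⟩),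
  (.rho 0,⟨false,[],(3,12),.mon 3 10 0,[]⟩),
  (.rho 14,⟨false,[],(5,3),.mon 3 1 0,[]⟩),
  (.comm 1 0 0,⟨false,[],(5,12),.mon 6 11 0,[]⟩),
  (.ca 5,⟨false,[],(11,9),.mon 3 1 0,[]⟩),
  (.rho 0,⟨false,[],(8,10),.mon 1 3 0,[]⟩),
  (.cc 0,⟨false,[],(22,20),.mon 1 3 0,[]⟩),
  (.rho 0,⟨false,[],(21,23),.mon 3 1 0,[]⟩),
  (.ca 0,⟨false,[],(7,5),.mon 3 1 0,[]⟩),
  (.rho 0,⟨false,[],(4,6),.mon 1 3 0,[]⟩),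
  (.cc 0,⟨false,[],(4,2),.mon 1 3 0,[]⟩),
  (.rho 0,⟨false,[],(3,5),.mon 3 1 0,[]⟩),
  (.comm 8 0 0,⟨false,[],(3,12),.mon 9 12 0,[]⟩),
  (.rho 29,⟨false,[],(23,21),.mon 3 1 0,[]⟩),
  (.comm 59 0 0,⟨false,[],(10,21),.mon 4 1 0,[]⟩),
  (.rho 7,⟨false,[],(22,20),.mon 1 3 0,[]⟩),
  (.comm 27 0 0,⟨false,[],(2,20),.mon 2 6 0,[]⟩),
  (.rho 0,⟨false,[],(21,3),.mon 6 2 0,[]⟩),
  (.comm 3 0 0,⟨false,[],(10,3),.mon 10 3 0,[]⟩),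
  (.rho 0,⟨false,[],(2,11),.mon 3 10 0,[]⟩),
  (.ca 8,⟨false,[],(3,23),.mon 3 1 0,[]⟩),
  (.cc 0,⟨false,[],(7,9),.mon 3 1 0,[]⟩),
  (.ca 0,⟨false,[],(21,19),.mon 3 1 0,[]⟩),
  (.rho 0,⟨false,[],(18,20),.mon 1 3 0,[]⟩),
  (.cc 0,⟨false,[],(12,10),.mon 1 3 0,[]⟩),
  (.rho 0,⟨false,[],(11,13),.mon 3 1 0,[]⟩),
  (.comm 6 0 0,⟨false,[],(2,13),.mon 6 11 0,[]⟩),
  (.rho 0,⟨false,[],(12,3),.mon 11 6 0,[]⟩),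
  (.sI 15 0,⟨true,[],(12,14),.mon 20 18 0,[]⟩),
  (.rho 5,⟨false,[],(21,19),.mon 3 1 0,[]⟩),
  (.comm 15 0 0,⟨false,[],(10,19),.mon 7 2 0,[]⟩),
  (.comm 86 0 0,⟨false,[],(10,2),.mon 8 2 0,[]⟩),
  (.rho 0,⟨false,[],(3,11),.mon 2 8 0,[]⟩),
  (.cc 0,⟨false,[],(7,21),.mon 2 8 0,[]⟩),
  (.comm 44 28 0,⟨false,[],(6,10),.mon 2 6 0,[]⟩),
  (.rho 53,⟨false,[],(10,8),.mon 1 3 0,[]⟩),
  (.comm 1 0 0,⟨false,[],(6,8),.mon 3 9 0,[]⟩),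
  (.rho 0,⟨false,[],(9,7),.mon 9 3 0,[]⟩),
  (.comm 4 0 0,⟨false,[],(9,21),.mon 11 11 0,[]⟩),
  (.ca 0,⟨false,[],(19,7),.mon 11 11 0,[]⟩),
  (.rho 0,⟨false,[],(6,18),.mon 11 11 0,[]⟩),
  (.cc 0,⟨false,[],(2,12),.mon 11 11 0,[]⟩),
  (.rho 16,⟨false,[],(12,10),.mon 1 3 0,[]⟩),
  (.comm 12 0 0,⟨false,[],(12,19),.mon 8 5 0,[]⟩),
  (.comm 99 0 0,⟨false,[],(12,2),.mon 9 5 0,[]⟩),
  (.rho 0,⟨false,[],(3,13),.mon 5 9 0,[]⟩),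
  (.rho 0,⟨false,[],(12,2),.mon 9 5 0,[]⟩),
  (.sI 5 0,⟨true,[],(12,14),.mon 20 16 0,[]⟩),
  (.sN 0,⟨true,[],(12,14),.mon (-20) (-16) 0,[]⟩),
  (.sA 20 0,⟨true,[],(12,14),.mon 0 2 0,[]⟩),
  (.sF 0 74,⟨false,[],(12,14),.all,[]⟩),
  (.ca 36,⟨false,[],(16,7),.mon 4 1 0,[]⟩),
  (.rho 0,⟨false,[],(6,17),.mon 1 4 0,[]⟩),
  (.cc 0,⟨false,[],(2,15),.mon 1 4 0,[]⟩),
  (.rho 0,⟨false,[],(14,3),.mon 4 1 0,[]⟩),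
  (.comm 4 0 0,⟨false,[],(12,3),.all,[]⟩),
  (.comm 0 52 0,⟨false,[],(5,3),.all,[]⟩),
  (.comm 22 47 0,⟨false,[],(4,10),.mon 3 9 0,[]⟩),
  (.comm 0 64 0,⟨false,[],(4,12),.mon 4 12 0,[]⟩),
  (.comm 8 0 0,⟨false,[],(4,14),.all,[]⟩),
  (.rho 6,⟨false,[],(14,3),.mon 4 1 0,[]⟩),
  (.comm 1 0 0,⟨false,[],(4,3),.all,[]⟩),
  (.comm 36 84 0,⟨false,[],(11,15),.mon 6 2 0,[]⟩),
  (.rho 0,⟨false,[],(14,10),.mon 2 6 0,[]⟩),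
  (.comm 33 0 0,⟨false,[],(14,19),.mon 9 8 0,[]⟩),
  (.comm 120 0 0,⟨false,[],(14,2),.mon 10 8 0,[]⟩),
  (.rho 0,⟨false,[],(3,15),.mon 8 10 0,[]⟩),
  (.rho 0,⟨false,[],(14,2),.mon 10 8 0,[]⟩),
  (.comm 17 0 0,⟨false,[],(12,2),.all,[]⟩),
  (.comm 0 65 0,⟨false,[],(5,2),.all,[]⟩),
  (.rho 3,⟨false,[],(14,2),.mon 10 8 0,[]⟩),
  (.comm 11 0 0,⟨false,[],(4,2),.all,[]⟩),
  (.comm 50 90 0,⟨false,[],(7,11),.mon 6 2 0,[]⟩),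
  (.comm 10 0 0,⟨false,[],(7,15),.mon 12 4 0,[]⟩),
  (.rho 0,⟨false,[],(14,6),.mon 4 12 0,[]⟩),
  (.comm 15 0 0,⟨false,[],(4,6),.all,[]⟩),
  (.comm 82 41 0,⟨false,[],(6,12),.mon 3 9 0,[]⟩),
  (.comm 26 0 0,⟨false,[],(6,14),.all,[]⟩),
  (.rho 66,⟨false,[],(4,2),.mon 1 3 0,[]⟩),
  (.comm 90 0 0,⟨false,[],(4,22),.mon 2 6 0,[]⟩),
  (.rho 0,⟨false,[],(23,5),.mon 6 2 0,[]⟩),
  (.comm 126 0 0,⟨false,[],(10,5),.mon 7 2 0,[]⟩),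
  (.rho 0,⟨false,[],(4,11),.mon 2 7 0,[]⟩),
  (.comm 0 20 0,⟨false,[],(4,15),.mon 8 9 0,[]⟩),
  (.rho 0,⟨false,[],(14,5),.mon 9 8 0,[]⟩),
  (.comm 7 0 0,⟨false,[],(6,5),.all,[]⟩),
  (.rho 12,⟨false,[],(14,6),.mon 4 12 0,[]⟩),
  (.comm 36 0 0,⟨false,[],(12,6),.all,[]⟩),
  (.comm 0 84 0,⟨false,[],(5,6),.all,[]⟩),
  (.rho 101,⟨false,[],(5,3),.mon 3 1 0,[]⟩),
  (.comm 23 0 0,⟨false,[],(5,15),.mon 11 11 0,[]⟩),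
  (.rho 0,⟨false,[],(14,4),.mon 11 11 0,[]⟩),
  (.comm 14 0 0,⟨false,[],(6,4),.all,[]⟩),
  (.rho 69,⟨false,[],(21,19),.mon 3 1 0,[]⟩),
  (.comm 149 0 0,⟨false,[],(21,2),.mon 4 1 0,[]⟩),
  (.rho 0,⟨false,[],(3,20),.mon 1 4 0,[]⟩),
  (.rho 104,⟨false,[],(20,18),.mon 1 3 0,[]⟩),
  (.comm 1 0 0,⟨false,[],(3,18),.mon 2 7 0,[]⟩),
  (.comm 86 112 0,⟨false,[],(3,7),.mon 6 2 0,[]⟩),
  (.rho 0,⟨false,[],(6,2),.mon 2 6 0,[]⟩),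
  (.comm 111 0 0,⟨false,[],(6,22),.mon 3 9 0,[]⟩),
  (.rho 0,⟨false,[],(23,7),.mon 9 3 0,[]⟩),
  (.comm 147 0 0,⟨false,[],(10,7),.mon 10 3 0,[]⟩),
  (.rho 0,⟨false,[],(6,11),.mon 3 10 0,[]⟩),
  (.cc 0,⟨false,[],(2,21),.mon 3 10 0,[]⟩),
  (.ca 0,⟨false,[],(2,7),.mon 3 10 0,[]⟩),
  (.rho 0,⟨false,[],(6,3),.mon 10 3 0,[]⟩),
  (.comm 9 0 0,⟨false,[],(6,18),.mon 12 10 0,[]⟩),
  (.cc 0,⟨false,[],(2,12),.mon 12 10 0,[]⟩),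
  (.comm 53 0 1,⟨false,[],(2,3),.all,[]⟩),
  (.cc 95,⟨false,[],(20,11),.mon 4 1 0,[]⟩),
  (.rho 0,⟨false,[],(10,21),.mon 1 4 0,[]⟩),
  (.ca 86,⟨false,[],(17,15),.mon 3 1 0,[]⟩),
  (.rho 0,⟨false,[],(14,16),.mon 1 3 0,[]⟩),
  (.comm 90 134 0,⟨false,[],(16,20),.mon 2 6 0,[]⟩),
  (.comm 1 0 0,⟨false,[],(14,20),.mon 3 9 0,[]⟩),
  (.rho 0,⟨false,[],(21,15),.mon 9 3 0,[]⟩),
  (.comm 5 0 0,⟨false,[],(10,15),.mon 10 7 0,[]⟩),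
  (.rho 92,⟨false,[],(12,10),.mon 1 3 0,[]⟩),
  (.comm 1 0 0,⟨false,[],(12,15),.mon 11 10 0,[]⟩),
  (.rho 0,⟨false,[],(14,13),.mon 10 11 0,[]⟩),
  (.comm 70 0 1,⟨false,[],(12,13),.all,[]⟩),
  (.comm 120 0 5,⟨false,[],(3,2),.all,[(3,13)]⟩),
  (.drop 0 [54],⟨false,[],(3,2),.all,[]⟩),
  (.cc 73,⟨false,[],(18,16),.all,[]⟩),
  (.comm 0 27 0,⟨false,[],(3,16),.all,[]⟩),
  (.rho 0,⟨false,[],(17,2),.all,[]⟩),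
  (.comm 180 0 4,⟨false,[],(0,2),.all,[(16,2),(10,2),(3,5)]⟩),
  (.rho 131,⟨false,[],(16,12),.mon 2 6 0,[]⟩),
  (.comm 78 0 0,⟨false,[],(16,14),.all,[]⟩),
  (.rho 63,⟨false,[],(14,2),.mon 10 8 0,[]⟩),
  (.comm 1 0 0,⟨false,[],(16,2),.all,[]⟩),
  (.comm 81 138 0,⟨false,[],(10,14),.all,[]⟩),
  (.rho 66,⟨false,[],(14,2),.mon 10 8 0,[]⟩),
  (.comm 1 0 0,⟨false,[],(10,2),.all,[]⟩),
  (.drop 7 [3,0,63],⟨false,[],(0,2),.all,[]⟩),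
  (.cN 0 26 12,⟨false,[],(0,3),.all,[]⟩)],
  [(80,80),(75,75),(67,67),(65,65),(65,65),(75,75),(67,67),(80,80),(61,61),(51,51),(48,48),(44,44),(44,44),(51,51),(48,48),(61,61),(27,27),(13,13),(0,27),(1,13)]⟩ = true := by decide +kernel

theorem cXo12 : (Fam.op0 .X 12).check false true false true (Fam.tcG 12)
  ⟨[(9,22),(5,17),(21,12),(11,6),(18,14),(2,25)],[],[(9,16),(18,20),(20,2),(21,6)],[(5,4),(6,25),(23,25),(23,17),(4,6),(6,4),(23,24),(21,12),(22,11),(14,7),(11,12)],[(9,11),(4,6),(12,23),(21,15),(18,24),(2,16)],(2,4),(4,6),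
  ⟨[],[(10,17),(25,10)],[(7,5),(4,6),(2,7),(6,3)],[((17,15),some (1,0,0)),((24,15),some (0,0,0)),((5,7),some (1,0,0))],1,(0,16),(5,1),(5,16),(0,16),(1,0,0),[(5,19),(3,19),(17,10),(0,4),(17,4)],
  [(.base 2,⟨false,[(7,5),(4,6),(2,7),(6,3),(10,17),(16,11),(25,10),(11,24)],(17,10),.mon 1 0 0,[(17,4),(0,4),(3,19),(5,19),(17,15),(24,15),(5,7),(0,16)]⟩),
  (.base 3,⟨false,[(7,5),(4,6),(2,7),(6,3),(10,17),(16,11),(25,10),(11,24)],(3,19),.mon 0 0 0,[(17,4),(0,4),(17,10),(5,19),(17,15),(24,15),(5,7),(0,16)]⟩),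
  (.cc 0,⟨false,[(5,7),(6,4),(16,5),(4,17),(8,3),(2,9),(19,8),(9,18)],(17,25),.mon 0 0 0,[(3,6),(0,6),(3,8),(7,25),(3,21),(18,21),(7,5),(0,2)]⟩),
  (.ca 0,⟨false,[(17,10),(11,16),(4,17),(16,5),(23,24),(25,22),(15,23),(22,14)],(5,2),.mon 0 0 0,[(24,11),(0,11),(24,23),(10,2),(24,12),(14,12),(10,17),(0,25)]⟩),
  (.cc 0,⟨false,[(3,8),(9,2),(6,3),(2,7),(12,18),(19,13),(21,12),(13,20)],(7,16),.mon 0 0 0,[(18,9),(0,9),(18,12),(8,16),(18,23),(20,23),(8,3),(0,19)]⟩),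
  (.ca 0,⟨false,[(24,23),(22,25),(11,24),(25,10),(21,14),(15,20),(12,21),(20,13)],(10,4),.mon 0 0 0,[(14,22),(0,22),(14,21),(23,4),(14,8),(13,8),(23,24),(0,15)]⟩),
  (.cc 0,⟨false,[(18,12),(13,19),(9,18),(19,8),(15,20),(21,14),(23,15),(14,22)],(8,6),.mon 0 0 0,[(20,13),(0,13),(20,15),(12,6),(20,10),(22,10),(12,18),(0,21)]⟩),
  (.ca 0,⟨false,[(14,21),(20,15),(22,14),(15,23),(19,13),(12,18),(8,19),(18,9)],(23,11),.mon 0 0 0,[(13,20),(0,20),(13,19),(21,11),(13,7),(9,7),(21,14),(0,12)]⟩),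
  (.rho 0,⟨false,[(14,21),(20,15),(22,14),(15,23),(19,13),(12,18),(8,19),(18,9)],(10,22),.mon 0 0 0,[(13,20),(0,20),(13,19),(21,11),(13,7),(9,7),(21,14),(0,12)]⟩),
  (.comm 8 0 0,⟨false,[],(17,22),.mon 1 0 0,[(17,20),(21,4),(13,4),(24,20),(13,16)]⟩),
  (.base 7,⟨false,[(7,5),(4,6),(2,7),(6,3),(10,17),(16,11),(25,10),(11,24)],(5,7),.mon 1 0 0,[(17,4),(0,4),(17,10),(3,19),(5,19),(17,15),(24,15),(0,16)]⟩),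
  (.base 1,⟨false,[(7,5),(4,6),(2,7),(6,3),(10,17),(16,11),(25,10),(11,24)],(0,4),.mon 1 0 0,[(17,4),(17,10),(3,19),(5,19),(17,15),(24,15),(5,7),(0,16)]⟩),
  (.cc 0,⟨false,[(5,7),(6,4),(16,5),(4,17),(8,3),(2,9),(19,8),(9,18)],(0,6),.mon 1 0 0,[(3,6),(3,8),(17,25),(7,25),(3,21),(18,21),(7,5),(0,2)]⟩),
  (.ca 0,⟨false,[(17,10),(11,16),(4,17),(16,5),(23,24),(25,22),(15,23),(22,14)],(0,11),.mon 1 0 0,[(24,11),(24,23),(5,2),(10,2),(24,12),(14,12),(10,17),(0,25)]⟩),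
  (.cc 0,⟨false,[(3,8),(9,2),(6,3),(2,7),(12,18),(19,13),(21,12),(13,20)],(0,9),.mon 1 0 0,[(18,9),(18,12),(7,16),(8,16),(18,23),(20,23),(8,3),(0,19)]⟩),
  (.mul 4 0,⟨false,[(7,5),(4,6),(2,7),(6,3),(10,17),(16,11),(25,10),(11,24),(3,8),(9,2),(6,3),(2,7),(12,18),(19,13),(21,12),(13,20)],(5,7),.mon 1 0 0,[(17,4),(0,4),(17,10),(3,19),(5,19),(17,15),(24,15),(0,16),(0,9),(18,9),(18,12),(7,16),(8,16),(18,23),(20,23),(8,3),(0,19)]⟩),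
  (.sq 0 7,⟨false,[],(5,7),.mon 1 0 0,[(0,4),(3,19),(0,16),(0,9),(7,16),(8,3),(0,19),(5,4),(17,4),(8,4),(18,4),(8,19),(17,16),(8,16),(18,16),(8,9),(18,19)]⟩),
  (.ca 0,⟨false,[],(17,10),.mon 1 0 0,[(0,16),(24,15),(0,4),(0,22),(10,4),(23,24),(0,15),(17,16),(5,16),(23,16),(14,16),(23,15),(5,4),(23,4),(14,4),(23,22),(14,15)]⟩),
  (.cc 0,⟨false,[],(3,8),.mon 1 0 0,[(0,2),(18,21),(0,6),(0,13),(8,6),(12,18),(0,21),(3,2),(7,2),(12,2),(20,2),(12,21),(7,6),(12,6),(20,6),(12,13),(20,21)]⟩),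
  (.ca 0,⟨false,[],(24,23),.mon 1 0 0,[(0,25),(14,12),(0,11),(0,20),(23,11),(21,14),(0,12),(24,25),(10,25),(21,25),(13,25),(21,12),(10,11),(21,11),(13,11),(21,20),(13,12)]⟩),
  (.rho 0,⟨false,[],(22,25),.mon 0 1 0,[(0,25),(14,12),(0,11),(0,20),(23,11),(21,14),(0,12),(24,25),(10,25),(21,25),(13,25),(21,12),(10,11),(21,11),(13,11),(21,20),(13,12)]⟩),
  (.comm 11 0 0,⟨false,[],(17,25),.mon 1 1 0,[]⟩),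
  (.ca 0,⟨false,[],(5,2),.mon 1 1 0,[]⟩),
  (.rho 0,⟨false,[],(3,4),.mon 1 1 0,[]⟩),
  (.cc 0,⟨false,[],(17,6),.mon 1 1 0,[]⟩),
  (.rho 0,⟨false,[],(7,16),.mon 1 1 0,[]⟩),
  (.ca 0,⟨false,[],(10,4),.mon 1 1 0,[]⟩),
  (.rho 0,⟨false,[],(5,11),.mon 1 1 0,[]⟩),
  (.cc 0,⟨false,[],(7,9),.mon 1 1 0,[]⟩),
  (.ca 0,⟨false,[],(10,22),.mon 1 1 0,[]⟩),
  (.comm 29 0 0,⟨false,[],(17,22),.mon 2 1 0,[]⟩),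
  (.cc 1,⟨false,[],(8,13),.mon 1 1 0,[]⟩),
  (.ca 0,⟨false,[],(23,20),.mon 1 1 0,[]⟩),
  (.rho 0,⟨false,[],(21,22),.mon 1 1 0,[]⟩),
  (.cc 0,⟨false,[],(15,13),.mon 1 1 0,[]⟩),
  (.rho 0,⟨false,[],(12,14),.mon 1 1 0,[]⟩),
  (.ca 0,⟨false,[],(21,18),.mon 1 1 0,[]⟩),
  (.rho 0,⟨false,[],(19,20),.mon 1 1 0,[]⟩),
  (.cc 0,⟨false,[],(25,14),.mon 1 1 0,[]⟩),
  (.rho 0,⟨false,[],(15,24),.mon 1 1 0,[]⟩),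
  (.ca 0,⟨false,[],(19,3),.mon 1 1 0,[]⟩),
  (.rho 0,⟨false,[],(2,18),.mon 1 1 0,[]⟩),
  (.cc 0,⟨false,[],(16,24),.mon 1 1 0,[]⟩),
  (.rho 0,⟨false,[],(25,17),.mon 1 1 0,[]⟩),
  (.comm 13 0 0,⟨false,[],(25,22),.mon 3 2 0,[]⟩),
  (.rho 0,⟨false,[],(23,24),.mon 2 3 0,[]⟩),
  (.cc 24,⟨false,[],(3,19),.mon 1 1 0,[]⟩),
  (.ca 0,⟨false,[],(24,15),.mon 1 1 0,[]⟩),
  (.rho 0,⟨false,[],(14,25),.mon 1 1 0,[]⟩),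
  (.cc 0,⟨false,[],(20,19),.mon 1 1 0,[]⟩),
  (.rho 0,⟨false,[],(18,21),.mon 1 1 0,[]⟩),
  (.ca 0,⟨false,[],(14,12),.mon 1 1 0,[]⟩),
  (.rho 0,⟨false,[],(13,15),.mon 1 1 0,[]⟩),
  (.cc 0,⟨false,[],(22,21),.mon 1 1 0,[]⟩),
  (.rho 0,⟨false,[],(20,23),.mon 1 1 0,[]⟩),
  (.ca 0,⟨false,[],(13,8),.mon 1 1 0,[]⟩),
  (.rho 0,⟨false,[],(9,12),.mon 1 1 0,[]⟩),
  (.cc 0,⟨false,[],(11,23),.mon 1 1 0,[]⟩),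
  (.ca 0,⟨false,[],(6,8),.mon 1 1 0,[]⟩),
  (.cc 0,⟨false,[],(4,10),.mon 1 1 0,[]⟩),
  (.ca 0,⟨false,[],(16,7),.mon 1 1 0,[]⟩),
  (.rho 0,⟨false,[],(6,17),.mon 1 1 0,[]⟩),
  (.cc 0,⟨false,[],(4,3),.mon 1 1 0,[]⟩),
  (.rho 0,⟨false,[],(2,5),.mon 1 1 0,[]⟩),
  (.comm 26 17 0,⟨false,[],(3,20),.mon 2 2 0,[]⟩),
  (.comm 0 10 0,⟨false,[],(3,23),.mon 3 3 0,[]⟩),
  (.rho 0,⟨false,[],(22,2),.mon 3 3 0,[]⟩),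
  (.comm 3 0 0,⟨false,[],(22,5),.mon 4 4 0,[]⟩),
  (.rho 0,⟨false,[],(4,23),.mon 4 4 0,[]⟩),
  (.comm 23 0 0,⟨false,[],(4,24),.mon 6 7 0,[]⟩),
  (.ca 0,⟨false,[],(16,3),.mon 6 7 0,[]⟩),
  (.rho 0,⟨false,[],(2,17),.mon 7 6 0,[]⟩),
  (.rho 42,⟨false,[],(23,11),.mon 1 1 0,[]⟩),
  (.comm 18 0 0,⟨false,[],(20,11),.mon 2 2 0,[]⟩),
  (.rho 0,⟨false,[],(10,21),.mon 2 2 0,[]⟩),
  (.rho 0,⟨false,[],(20,11),.mon 2 2 0,[]⟩),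
  (.comm 11 0 0,⟨false,[],(3,11),.mon 4 4 0,[]⟩),
  (.rho 0,⟨false,[],(10,2),.mon 4 4 0,[]⟩),
  (.comm 77 0 0,⟨false,[],(17,2),.mon 5 4 0,[]⟩),
  (.rho 0,⟨false,[],(3,16),.mon 4 5 0,[]⟩),
  (.rho 0,⟨false,[],(17,2),.mon 5 4 0,[]⟩),
  (.sI 9 0,⟨true,[],(17,25),.mon 12 10 0,[]⟩),
  (.rho 54,⟨false,[],(10,4),.mon 1 1 0,[]⟩),
  (.comm 82 0 0,⟨false,[],(17,4),.mon 2 1 0,[]⟩),
  (.rho 0,⟨false,[],(5,16),.mon 1 2 0,[]⟩),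
  (.cc 0,⟨false,[],(7,2),.mon 1 2 0,[]⟩),
  (.rho 0,⟨false,[],(3,6),.mon 2 1 0,[]⟩),
  (.comm 0 25 0,⟨false,[],(3,17),.mon 3 2 0,[]⟩),
  (.comm 3 24 0,⟨false,[],(2,16),.mon 2 3 0,[]⟩),
  (.rho 0,⟨false,[],(17,3),.mon 3 2 0,[]⟩),
  (.sI 2 0,⟨true,[],(17,25),.mon 6 4 0,[]⟩),
  (.sN 0,⟨true,[],(17,25),.mon (-6) (-4) 0,[]⟩),
  (.sA 10 0,⟨true,[],(17,25),.mon 6 6 0,[]⟩),
  (.sA 0 1,⟨true,[],(17,25),.mon 0 2 0,[]⟩),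
  (.sF 0 72,⟨false,[],(17,25),.all,[]⟩),
  (.comm 10 52 0,⟨false,[],(5,24),.mon 2 3 0,[]⟩),
  (.rho 0,⟨false,[],(25,4),.mon 3 2 0,[]⟩),
  (.comm 2 0 0,⟨false,[],(17,4),.all,[]⟩),
  (.rho 36,⟨false,[],(16,7),.mon 1 1 0,[]⟩),
  (.comm 14 0 0,⟨false,[],(5,7),.mon 2 3 0,[]⟩),
  (.comm 0 36 0,⟨false,[],(2,7),.mon 3 4 0,[]⟩),
  (.comm 65 52 0,⟨false,[],(12,25),.mon 2 2 0,[]⟩),
  (.comm 45 73 0,⟨false,[],(7,12),.mon 2 2 0,[]⟩),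
  (.comm 1 0 0,⟨false,[],(7,25),.mon 4 4 0,[]⟩),
  (.rho 0,⟨false,[],(24,6),.mon 4 4 0,[]⟩),
  (.comm 62 0 0,⟨false,[],(16,6),.mon 5 5 0,[]⟩),
  (.rho 0,⟨false,[],(7,17),.mon 5 5 0,[]⟩),
  (.comm 6 0 0,⟨false,[],(2,17),.mon 8 9 0,[]⟩),
  (.comm 10 0 0,⟨false,[],(2,4),.all,[]⟩),
  (.cc 14,⟨false,[],(3,19),.all,[]⟩),
  (.rho 35,⟨false,[],(20,11),.mon 2 2 0,[]⟩),
  (.comm 73 0 0,⟨false,[],(19,11),.mon 3 3 0,[]⟩),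
  (.rho 0,⟨false,[],(10,18),.mon 3 3 0,[]⟩),
  (.comm 0 53 0,⟨false,[],(4,18),.mon 4 4 0,[]⟩),
  (.rho 0,⟨false,[],(19,5),.mon 4 4 0,[]⟩),
  (.comm 5 0 0,⟨false,[],(3,5),.all,[]⟩),
  (.comm 73 90 0,⟨false,[],(7,24),.mon 2 2 0,[]⟩),
  (.rho 0,⟨false,[],(25,6),.mon 2 2 0,[]⟩),
  (.comm 23 0 0,⟨false,[],(17,6),.all,[]⟩),
  (.rho 55,⟨false,[],(4,3),.mon 1 1 0,[]⟩),
  (.comm 32 0 0,⟨false,[],(4,17),.mon 4 3 0,[]⟩),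
  (.comm 2 0 0,⟨false,[],(4,6),.all,[]⟩),
  (.ca 27,⟨false,[],(5,2),.all,[]⟩),
  (.comm 0 22 0,⟨false,[],(5,7),.all,[]⟩),
  (.comm 29 62 0,⟨false,[],(6,25),.all,[]⟩),
  (.rho 99,⟨false,[],(17,6),.mon 1 1 0,[]⟩),
  (.comm 67 0 0,⟨false,[],(17,8),.mon 2 2 0,[]⟩),
  (.rho 0,⟨false,[],(9,16),.mon 2 2 0,[]⟩),
  (.comm 85 0 0,⟨false,[],(9,24),.mon 3 3 0,[]⟩),
  (.rho 0,⟨false,[],(25,8),.mon 3 3 0,[]⟩),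
  (.comm 5 0 0,⟨false,[],(6,8),.all,[]⟩),
  (.comm 99 78 0,⟨false,[],(8,15),.mon 2 2 0,[]⟩),
  (.comm 92 0 0,⟨false,[],(8,24),.mon 3 3 0,[]⟩),
  (.rho 0,⟨false,[],(25,9),.mon 3 3 0,[]⟩),
  (.comm 39 0 0,⟨false,[],(17,9),.all,[]⟩),
  (.comm 0 28 0,⟨false,[],(7,9),.all,[]⟩),
  (.comm 102 85 0,⟨false,[],(18,22),.mon 2 2 0,[]⟩),
  (.rho 79,⟨false,[],(22,10),.mon 1 1 0,[]⟩),
  (.comm 1 0 0,⟨false,[],(18,10),.mon 3 3 0,[]⟩),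
  (.rho 0,⟨false,[],(11,19),.mon 3 3 0,[]⟩),
  (.rho 0,⟨false,[],(18,10),.mon 3 3 0,[]⟩),
  (.comm 99 0 0,⟨false,[],(2,10),.mon 4 4 0,[]⟩),
  (.rho 0,⟨false,[],(11,3),.mon 4 4 0,[]⟩),
  (.comm 55 0 0,⟨false,[],(11,17),.mon 7 6 0,[]⟩),
  (.comm 9 0 0,⟨false,[],(11,9),.all,[]⟩),
  (.rho 16,⟨false,[],(25,8),.mon 3 3 0,[]⟩),
  (.comm 51 0 0,⟨false,[],(17,8),.all,[]⟩),
  (.ca 60,⟨false,[],(24,11),.mon 2 1 0,[]⟩),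
  (.rho 0,⟨false,[],(10,25),.mon 1 2 0,[]⟩),
  (.rho 106,⟨false,[],(25,17),.mon 1 1 0,[]⟩),
  (.comm 1 0 0,⟨false,[],(10,17),.mon 2 3 0,[]⟩),
  (.comm 4 0 0,⟨false,[],(10,8),.all,[]⟩),
  (.comm 112 99 0,⟨false,[],(13,24),.mon 2 2 0,[]⟩),
  (.rho 0,⟨false,[],(25,12),.mon 2 2 0,[]⟩),
  (.comm 59 0 0,⟨false,[],(17,12),.all,[]⟩),
  (.comm 0 4 0,⟨false,[],(10,12),.all,[]⟩),
  (.rho 54,⟨false,[],(24,13),.mon 2 2 0,[]⟩),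
  (.comm 114 0 0,⟨false,[],(16,13),.mon 3 3 0,[]⟩),
  (.rho 0,⟨false,[],(12,17),.mon 3 3 0,[]⟩),
  (.comm 64 0 0,⟨false,[],(12,25),.all,[]⟩),
  (.rho 100,⟨false,[],(11,5),.mon 1 1 0,[]⟩),
  (.comm 76 0 0,⟨false,[],(11,16),.mon 2 3 0,[]⟩),
  (.comm 0 119 0,⟨false,[],(11,24),.mon 3 4 0,[]⟩),
  (.rho 0,⟨false,[],(25,10),.mon 4 3 0,[]⟩),
  (.comm 4 0 0,⟨false,[],(12,10),.all,[]⟩),
  (.rho 125,⟨false,[],(25,14),.mon 1 1 0,[]⟩),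
  (.comm 71 0 0,⟨false,[],(17,14),.all,[]⟩),
  (.comm 0 8 0,⟨false,[],(12,14),.all,[]⟩),
  (.rho 119,⟨false,[],(24,15),.mon 1 1 0,[]⟩),
  (.comm 126 0 0,⟨false,[],(16,15),.mon 2 2 0,[]⟩),
  (.rho 0,⟨false,[],(14,17),.mon 2 2 0,[]⟩),
  (.comm 16 0 0,⟨false,[],(14,12),.all,[]⟩),
  (.rho 40,⟨false,[],(14,9),.mon 2 2 0,[]⟩),
  (.comm 45 0 0,⟨false,[],(14,16),.mon 4 4 0,[]⟩),
  (.comm 131 0 0,⟨false,[],(14,24),.mon 5 5 0,[]⟩),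
  (.rho 0,⟨false,[],(25,15),.mon 5 5 0,[]⟩),
  (.comm 81 0 0,⟨false,[],(17,15),.all,[]⟩),
  (.comm 141 74 0,⟨false,[],(7,14),.mon 3 3 0,[]⟩),
  (.rho 0,⟨false,[],(15,6),.mon 3 3 0,[]⟩),
  (.comm 117 0 0,⟨false,[],(15,17),.mon 4 4 0,[]⟩),
  (.comm 85 0 0,⟨false,[],(15,25),.all,[]⟩),
  (.rho 138,⟨false,[],(25,17),.mon 1 1 0,[]⟩),
  (.comm 1 0 0,⟨false,[],(15,17),.all,[]⟩),
  (.rho 69,⟨false,[],(19,5),.mon 4 4 0,[]⟩),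
  (.comm 99 0 0,⟨false,[],(19,16),.mon 5 6 0,[]⟩),
  (.rho 0,⟨false,[],(17,18),.mon 6 5 0,[]⟩),
  (.rho 143,⟨false,[],(25,17),.mon 1 1 0,[]⟩),
  (.comm 1 0 0,⟨false,[],(25,18),.mon 7 6 0,[]⟩),
  (.rho 0,⟨false,[],(19,24),.mon 6 7 0,[]⟩),
  (.rho 0,⟨false,[],(25,18),.mon 7 6 0,[]⟩),
  (.comm 95 0 0,⟨false,[],(17,18),.all,[]⟩),
  (.rho 151,⟨false,[],(25,14),.mon 1 1 0,[]⟩),
  (.comm 18 0 0,⟨false,[],(25,16),.mon 5 5 0,[]⟩),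
  (.rho 0,⟨false,[],(17,24),.mon 5 5 0,[]⟩),
  (.rho 0,⟨false,[],(25,16),.mon 5 5 0,[]⟩),
  (.comm 100 0 1,⟨false,[],(17,16),.all,[]⟩),
  (.rho 92,⟨false,[],(24,6),.mon 4 4 0,[]⟩),
  (.comm 135 0 0,⟨false,[],(24,17),.mon 5 5 0,[]⟩),
  (.rho 0,⟨false,[],(16,25),.mon 5 5 0,[]⟩),
  (.rho 0,⟨false,[],(24,17),.mon 5 5 0,[]⟩),
  (.comm 105 0 1,⟨false,[],(24,25),.all,[]⟩),
  (.comm 158 0 5,⟨false,[],(16,17),.all,[(16,25)]⟩),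
  (.rho 95,⟨false,[],(16,6),.mon 5 5 0,[]⟩),
  (.comm 78 0 0,⟨false,[],(16,25),.all,[]⟩),
  (.drop 2 [0],⟨false,[],(16,17),.all,[]⟩),
  (.cN 14 9 0,⟨false,[],(16,18),.all,[]⟩),
  (.rho 159,⟨false,[],(18,2),.mon 1 1 0,[]⟩),
  (.comm 143 0 0,⟨false,[],(18,5),.mon 2 2 0,[]⟩),
  (.rho 0,⟨false,[],(4,19),.mon 2 2 0,[]⟩),
  (.rho 181,⟨false,[],(10,4),.mon 1 1 0,[]⟩),
  (.comm 1 0 0,⟨false,[],(10,19),.mon 3 3 0,[]⟩),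
  (.comm 210 0 0,⟨false,[],(17,19),.mon 4 3 0,[]⟩),
  (.rho 169,⟨false,[],(25,17),.mon 1 1 0,[]⟩),
  (.comm 1 0 0,⟨false,[],(25,19),.mon 5 4 0,[]⟩),
  (.rho 0,⟨false,[],(18,24),.mon 4 5 0,[]⟩),
  (.rho 0,⟨false,[],(25,19),.mon 5 4 0,[]⟩),
  (.comm 121 0 0,⟨false,[],(17,19),.all,[]⟩),
  (.comm 159 189 0,⟨false,[],(5,23),.mon 2 2 0,[]⟩),
  (.rho 184,⟨false,[],(23,20),.mon 1 1 0,[]⟩),
  (.comm 1 0 0,⟨false,[],(5,20),.mon 3 3 0,[]⟩),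
  (.comm 156 0 0,⟨false,[],(2,20),.mon 4 4 0,[]⟩),
  (.rho 0,⟨false,[],(21,3),.mon 4 4 0,[]⟩),
  (.comm 112 0 0,⟨false,[],(21,19),.all,[]⟩),
  (.comm 222 148 0,⟨false,[],(17,21),.mon 3 2 0,[]⟩),
  (.rho 181,⟨false,[],(25,17),.mon 1 1 0,[]⟩),
  (.comm 1 0 0,⟨false,[],(25,21),.mon 4 3 0,[]⟩),
  (.rho 0,⟨false,[],(20,24),.mon 3 4 0,[]⟩),
  (.rho 0,⟨false,[],(25,21),.mon 4 3 0,[]⟩),
  (.comm 133 0 0,⟨false,[],(17,21),.all,[]⟩),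
  (.rho 187,⟨false,[],(19,3),.mon 1 1 0,[]⟩),
  (.comm 142 0 0,⟨false,[],(19,17),.mon 4 3 0,[]⟩),
  (.rho 0,⟨false,[],(16,18),.mon 3 4 0,[]⟩),
  (.rho 0,⟨false,[],(19,17),.mon 4 3 0,[]⟩),
  (.comm 4 0 0,⟨false,[],(19,21),.all,[]⟩),
  (.rho 188,⟨false,[],(25,22),.mon 3 2 0,[]⟩),
  (.comm 140 0 0,⟨false,[],(17,22),.all,[]⟩),
  (.comm 12 174 0,⟨false,[],(6,21),.mon 4 3 0,[]⟩),
  (.rho 130,⟨false,[],(16,6),.mon 5 5 0,[]⟩),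
  (.comm 1 0 0,⟨false,[],(16,21),.mon 9 8 0,[]⟩),
  (.rho 0,⟨false,[],(20,17),.mon 8 9 0,[]⟩),
  (.comm 4 0 0,⟨false,[],(20,22),.all,[]⟩),
  (.comm 177 213 0,⟨false,[],(2,11),.mon 2 2 0,[]⟩),
  (.rho 177,⟨false,[],(21,2),.mon 2 2 0,[]⟩),
  (.comm 1 0 0,⟨false,[],(21,11),.mon 4 4 0,[]⟩),
  (.rho 0,⟨false,[],(10,20),.mon 4 4 0,[]⟩),
  (.comm 244 0 0,⟨false,[],(17,20),.mon 5 4 0,[]⟩),
  (.rho 203,⟨false,[],(25,17),.mon 1 1 0,[]⟩),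
  (.comm 1 0 0,⟨false,[],(25,20),.mon 6 5 0,[]⟩),
  (.rho 0,⟨false,[],(21,24),.mon 5 6 0,[]⟩),
  (.rho 0,⟨false,[],(25,20),.mon 6 5 0,[]⟩),
  (.comm 155 0 0,⟨false,[],(17,20),.all,[]⟩),
  (.rho 185,⟨false,[],(22,2),.mon 3 3 0,[]⟩),
  (.comm 10 0 0,⟨false,[],(22,11),.mon 5 5 0,[]⟩),
  (.rho 0,⟨false,[],(10,23),.mon 5 5 0,[]⟩),
  (.comm 253 0 0,⟨false,[],(17,23),.mon 6 5 0,[]⟩),
  (.comm 0 193 0,⟨false,[],(6,23),.mon 7 6 0,[]⟩),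
  (.rho 149,⟨false,[],(16,6),.mon 5 5 0,[]⟩),
  (.comm 1 0 0,⟨false,[],(16,23),.mon 12 11 0,[]⟩),
  (.rho 0,⟨false,[],(22,17),.mon 11 12 0,[]⟩),
  (.comm 8 0 0,⟨false,[],(22,20),.all,[]⟩),
  (.rho 217,⟨false,[],(25,17),.mon 1 1 0,[]⟩),
  (.comm 6 0 0,⟨false,[],(25,23),.mon 7 6 0,[]⟩),
  (.rho 0,⟨false,[],(22,24),.mon 6 7 0,[]⟩),
  (.rho 0,⟨false,[],(25,23),.mon 7 6 0,[]⟩),
  (.comm 169 0 0,⟨false,[],(17,23),.all,[]⟩),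
  (.rho 222,⟨false,[],(25,17),.mon 1 1 0,[]⟩),
  (.comm 1 0 0,⟨false,[],(25,23),.all,[]⟩),
  (.comm 236 205 0,⟨false,[],(6,22),.mon 3 2 0,[]⟩),
  (.rho 161,⟨false,[],(16,6),.mon 5 5 0,[]⟩),
  (.comm 1 0 0,⟨false,[],(16,22),.mon 8 7 0,[]⟩),
  (.rho 0,⟨false,[],(23,17),.mon 7 8 0,[]⟩),
  (.comm 176 0 0,⟨false,[],(23,25),.all,[]⟩),
  (.comm 183 229 0,⟨false,[],(2,24),.mon 3 4 0,[]⟩),
  (.rho 0,⟨false,[],(25,3),.mon 4 3 0,[]⟩),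
  (.comm 179 0 0,⟨false,[],(17,3),.all,[]⟩),
  (.comm 0 154 0,⟨false,[],(4,3),.all,[]⟩),
  (.comm 3 75 5,⟨false,[],(2,3),.all,[(2,25)]⟩),
  (.comm 182 169 0,⟨false,[],(2,25),.all,[]⟩),
  (.drop 1 [0],⟨false,[],(2,3),.all,[]⟩),
  (.comm 219 204 0,⟨false,[],(4,21),.mon 3 3 0,[]⟩),
  (.rho 215,⟨false,[],(21,2),.mon 2 2 0,[]⟩),
  (.comm 1 0 0,⟨false,[],(4,2),.mon 5 5 0,[]⟩),
  (.rho 0,⟨false,[],(3,5),.mon 5 5 0,[]⟩),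
  (.comm 160 0 1,⟨false,[],(3,2),.all,[]⟩),
  (.rho 168,⟨false,[],(4,2),.all,[]⟩),
  (.comm 273 0 4,⟨false,[],(0,2),.all,[(5,2),(17,2),(3,19),(3,7)]⟩),
  (.comm 206 243 0,⟨false,[],(3,24),.mon 5 6 0,[]⟩),
  (.rho 0,⟨false,[],(25,2),.mon 6 5 0,[]⟩),
  (.comm 193 0 0,⟨false,[],(17,2),.all,[]⟩),
  (.rho 220,⟨false,[],(22,5),.mon 4 4 0,[]⟩),
  (.comm 22 0 0,⟨false,[],(6,5),.mon 7 6 0,[]⟩),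
  (.rho 0,⟨false,[],(4,7),.mon 6 7 0,[]⟩),
  (.rho 0,⟨false,[],(6,5),.mon 7 6 0,[]⟩),
  (.comm 170 0 0,⟨false,[],(6,2),.all,[]⟩),
  (.drop 8 [171,5,184,0],⟨false,[],(0,2),.all,[]⟩),
  (.cN 0 11 16,⟨false,[],(0,3),.all,[]⟩)],
  [(20,20),(173,173),(17,17),(12,12),(0,17),(1,12),(187,187),(180,180),(174,174),(172,172),(165,165),(160,160),(151,151),(144,144),(140,140),(131,131),(128,128),(124,124),(119,119),(113,113),(90,90),(79,79),(73,73),(62,62),(55,55),(36,36),(29,29),(24,24)]⟩⟩ = true := by decide +kernel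


end Pool.Agent.MP_c78e8e_al.H75

end

section

namespace Pool.Agent.MP_c78e8e_al.H75

theorem cXo13 : Fam.chkP .X 13 1 true false true false true
  ⟨[(5,4)],[(23,2)],[(27,26),(9,2),(3,8)],[((5,18),some (1,0,0)),((6,23),some (1,0,0))],3,(0,2),(2,4),(0,4),(3,4),(0,0,0),[(27,12),(24,9),(0,26),(3,26),(2,26)],
  [(.base 3,⟨false,[(27,26),(9,2),(3,8),(5,4),(23,2),(3,22)],(24,9),.mon 1 0 0,[(2,26),(3,26),(0,26),(27,12),(5,18),(6,23),(0,4),(3,4),(2,4)]⟩),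
  (.base 0,⟨false,[(27,26),(9,2),(3,8),(5,4),(23,2),(3,22)],(2,26),.mon 0 0 0,[(3,26),(0,26),(24,9),(27,12),(5,18),(6,23),(0,4),(3,4),(2,4)]⟩),
  (.cc 0,⟨false,[(9,8),(27,6),(7,26),(5,4),(13,6),(7,12)],(6,8),.mon 0 0 0,[(7,8),(0,8),(10,27),(9,22),(5,16),(2,13),(0,4),(7,4),(6,4)]⟩),
  (.ca 0,⟨false,[(23,22),(5,24),(25,4),(27,26),(19,24),(25,18)],(24,22),.mon 0 0 0,[(25,22),(0,22),(20,5),(23,8),(27,14),(2,19),(0,26),(25,26),(24,26)]⟩),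
  (.cc 0,⟨false,[(13,12),(5,10),(11,4),(9,8),(17,10),(11,16)],(10,12),.mon 0 0 0,[(11,12),(0,12),(14,5),(13,26),(9,20),(6,17),(0,8),(11,8),(10,8)]⟩),
  (.ca 0,⟨false,[(19,18),(27,20),(21,26),(23,22),(15,20),(21,14)],(20,18),.mon 0 0 0,[(21,18),(0,18),(16,27),(19,4),(23,10),(24,15),(0,22),(21,22),(20,22)]⟩),
  (.cc 0,⟨false,[(17,16),(9,14),(15,8),(13,12),(21,14),(15,20)],(14,16),.mon 0 0 0,[(15,16),(0,16),(18,9),(17,4),(13,24),(10,21),(0,12),(15,12),(14,12)]⟩),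
  (.ca 0,⟨false,[(15,14),(23,16),(17,22),(19,18),(11,16),(17,10)],(16,14),.mon 0 0 0,[(17,14),(0,14),(12,23),(15,26),(19,6),(20,11),(0,18),(17,18),(16,18)]⟩),
  (.cc 0,⟨false,[(21,20),(13,18),(19,12),(17,16),(25,18),(19,24)],(18,20),.mon 0 0 0,[(19,20),(0,20),(22,13),(21,8),(17,2),(14,25),(0,16),(19,16),(18,16)]⟩),
  (.mul 8 0,⟨false,[(27,26),(9,2),(3,8),(5,4),(23,2),(3,22),(21,20),(13,18),(19,12),(17,16),(25,18),(19,24)],(24,9),.mon 1 0 0,[(2,26),(3,26),(0,26),(27,12),(5,18),(6,23),(0,4),(3,4),(2,4),(18,20),(19,20),(0,20),(22,13),(21,8),(17,2),(14,25),(0,16),(19,16),(18,16)]⟩),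
  (.sq 0 7,⟨false,[],(24,9),.mon 1 0 0,[(0,26),(27,12),(0,4),(0,20),(22,13),(21,8),(0,16),(27,26),(5,26),(17,26),(21,26),(24,20),(27,23),(5,20),(5,16),(5,4),(21,20),(17,20),(17,16)]⟩),
  (.base 4,⟨false,[(27,26),(9,2),(3,8),(5,4),(23,2),(3,22)],(27,12),.mon 1 0 0,[(2,26),(3,26),(0,26),(24,9),(5,18),(6,23),(0,4),(3,4),(2,4)]⟩),
  (.mul 0 3,⟨false,[(27,26),(9,2),(3,8),(5,4),(23,2),(3,22),(21,20),(13,18),(19,12),(17,16),(25,18),(19,24)],(27,12),.mon 1 0 0,[(2,26),(3,26),(0,26),(24,9),(5,18),(6,23),(0,4),(3,4),(2,4),(18,20),(19,20),(0,20),(22,13),(21,8),(17,2),(14,25),(0,16),(19,16),(18,16)]⟩),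
  (.sq 0 7,⟨false,[],(27,12),.mon 1 0 0,[(0,26),(24,9),(0,4),(0,20),(22,13),(21,8),(0,16),(27,26),(5,26),(17,26),(21,26),(24,20),(27,23),(5,20),(5,16),(5,4),(21,20),(17,20),(17,16)]⟩),
  (.ca 0,⟨false,[],(5,18),.mon 1 0 0,[(0,4),(6,23),(0,26),(0,10),(8,19),(11,22),(0,14),(5,4),(27,4),(15,4),(11,4),(6,10),(5,9),(27,10),(27,14),(27,26),(11,10),(15,10),(15,14)]⟩),
  (.cc 0,⟨false,[],(5,16),.mon 1 0 0,[(0,4),(2,13),(0,8),(0,24),(26,17),(25,12),(0,20),(5,4),(9,4),(21,4),(25,4),(2,24),(5,27),(9,24),(9,20),(9,8),(25,24),(21,24),(21,20)]⟩),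
  (.ca 0,⟨false,[],(27,14),.mon 1 0 0,[(0,26),(2,19),(0,22),(0,6),(4,15),(7,18),(0,10),(27,26),(23,26),(11,26),(7,26),(2,6),(27,5),(23,6),(23,10),(23,22),(7,6),(11,6),(11,10)]⟩),
  (.cc 0,⟨false,[],(9,20),.mon 1 0 0,[(0,8),(6,17),(0,12),(0,2),(4,21),(3,16),(0,24),(9,8),(13,8),(25,8),(3,8),(6,2),(9,5),(13,2),(13,24),(13,12),(3,2),(25,2),(25,24)]⟩),
  (.ca 0,⟨false,[],(23,10),.mon 1 0 0,[(0,22),(24,15),(0,18),(0,2),(26,11),(3,14),(0,6),(23,22),(19,22),(7,22),(3,22),(24,2),(23,27),(19,2),(19,6),(19,18),(3,2),(7,2),(7,6)]⟩),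
  (.cc 0,⟨false,[],(13,24),.mon 1 0 0,[(0,12),(10,21),(0,16),(0,6),(8,25),(7,20),(0,2),(13,12),(17,12),(3,12),(7,12),(10,6),(13,9),(17,6),(17,2),(17,16),(7,6),(3,6),(3,2)]⟩),
  (.ca 0,⟨false,[],(19,6),.mon 1 0 0,[(0,18),(20,11),(0,14),(0,24),(22,7),(25,10),(0,2),(19,18),(15,18),(3,18),(25,18),(20,24),(19,23),(15,24),(15,2),(15,14),(25,24),(3,24),(3,2)]⟩),
  (.cc 0,⟨false,[],(17,2),.mon 1 0 0,[(0,16),(14,25),(0,20),(0,10),(12,3),(11,24),(0,6),(17,16),(21,16),(7,16),(11,16),(14,10),(17,13),(21,10),(21,6),(21,20),(11,10),(7,10),(7,6)]⟩),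
  (.ca 0,⟨false,[],(15,2),.mon 1 0 0,[(0,14),(16,7),(0,10),(0,20),(18,3),(21,6),(0,24),(15,14),(11,14),(25,14),(21,14),(16,20),(15,19),(11,20),(11,24),(11,10),(21,20),(25,20),(25,24)]⟩),
  (.cc 0,⟨false,[],(21,6),.mon 1 0 0,[(0,20),(18,3),(0,24),(0,14),(16,7),(15,2),(0,10),(21,20),(25,20),(11,20),(15,20),(18,14),(21,17),(25,14),(25,10),(25,24),(15,14),(11,14),(11,10)]⟩),
  (.ca 0,⟨false,[],(11,24),.mon 1 0 0,[(0,10),(12,3),(0,6),(0,16),(14,25),(17,2),(0,20),(11,10),(7,10),(21,10),(17,10),(12,16),(11,15),(7,16),(7,20),(7,6),(17,16),(21,16),(21,20)]⟩),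
  (.comm 14 0 0,⟨false,[],(11,9),.mon 2 0 0,[(11,26),(7,26),(17,26),(21,26),(27,3),(11,4),(7,4),(17,4),(21,4),(11,20),(7,20),(17,20),(21,20),(11,16),(7,16),(17,16)]⟩),
  (.cc 12,⟨false,[],(9,22),.mon 1 0 0,[(0,8),(10,27),(0,4),(0,14),(12,23),(15,26),(0,18),(9,8),(5,8),(19,8),(15,8),(10,14),(9,13),(5,14),(5,18),(5,4),(15,14),(19,14),(19,18)]⟩),
  (.ca 0,⟨false,[],(23,8),.mon 1 0 0,[(0,22),(20,5),(0,26),(0,16),(18,9),(17,4),(0,12),(23,22),(27,22),(13,22),(17,22),(20,16),(23,19),(27,16),(27,12),(27,26),(17,16),(13,16),(13,12)]⟩),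
  (.cc 0,⟨false,[],(13,26),.mon 1 0 0,[(0,12),(14,5),(0,8),(0,18),(16,27),(19,4),(0,22),(13,12),(9,12),(23,12),(19,12),(14,18),(13,17),(9,18),(9,22),(9,8),(19,18),(23,18),(23,22)]⟩),
  (.ca 0,⟨false,[],(19,4),.mon 1 0 0,[(0,18),(16,27),(0,22),(0,12),(14,5),(13,26),(0,8),(19,18),(23,18),(9,18),(13,18),(16,12),(19,15),(23,12),(23,8),(23,22),(13,12),(9,12),(9,8)]⟩),
  (.cc 0,⟨false,[],(17,4),.mon 1 0 0,[(0,16),(18,9),(0,12),(0,22),(20,5),(23,8),(0,26),(17,16),(13,16),(27,16),(23,16),(18,22),(17,21),(13,22),(13,26),(13,12),(23,22),(27,22),(27,26)]⟩),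
  (.ca 0,⟨false,[],(15,26),.mon 1 0 0,[(0,14),(12,23),(0,18),(0,8),(10,27),(9,22),(0,4),(15,14),(19,14),(5,14),(9,14),(12,8),(15,11),(19,8),(19,4),(19,18),(9,8),(5,8),(5,4)]⟩),
  (.cc 0,⟨false,[],(21,8),.mon 1 0 0,[(0,20),(22,13),(0,16),(0,26),(24,9),(27,12),(0,4),(21,20),(17,20),(5,20),(27,20),(22,26),(21,25),(17,26),(17,4),(17,16),(27,26),(5,26),(5,4)]⟩),
  (.rho 0,⟨false,[],(9,20),.mon 0 1 0,[(0,20),(22,13),(0,16),(0,26),(24,9),(27,12),(0,4),(21,20),(17,20),(5,20),(27,20),(22,26),(21,25),(17,26),(17,4),(17,16),(27,26),(5,26),(5,4)]⟩),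
  (.comm 8 0 0,⟨false,[],(11,20),.mon 2 1 0,[]⟩),
  (.cc 0,⟨false,[],(25,14),.mon 2 1 0,[]⟩),
  (.rho 0,⟨false,[],(15,24),.mon 1 2 0,[]⟩),
  (.comm 36 0 0,⟨false,[],(15,9),.mon 2 2 0,[]⟩),
  (.rho 0,⟨false,[],(8,14),.mon 2 2 0,[]⟩),
  (.cc 0,⟨false,[],(26,20),.mon 2 2 0,[]⟩),
  (.rho 0,⟨false,[],(21,27),.mon 2 2 0,[]⟩),
  (.ca 0,⟨false,[],(11,5),.mon 2 2 0,[]⟩),
  (.rho 0,⟨false,[],(4,10),.mon 2 2 0,[]⟩),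
  (.cc 0,⟨false,[],(4,24),.mon 2 2 0,[]⟩),
  (.ca 0,⟨false,[],(26,6),.mon 2 2 0,[]⟩),
  (.rho 0,⟨false,[],(7,27),.mon 2 2 0,[]⟩),
  (.cc 0,⟨false,[],(3,9),.mon 2 2 0,[]⟩),
  (.ca 8,⟨false,[],(22,16),.mon 2 2 0,[]⟩),
  (.rho 0,⟨false,[],(17,23),.mon 2 2 0,[]⟩),
  (.cc 0,⟨false,[],(19,13),.mon 2 2 0,[]⟩),
  (.rho 0,⟨false,[],(12,18),.mon 2 2 0,[]⟩),
  (.ca 0,⟨false,[],(18,12),.mon 2 2 0,[]⟩),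
  (.rho 0,⟨false,[],(13,19),.mon 2 2 0,[]⟩),
  (.cc 0,⟨false,[],(23,17),.mon 2 2 0,[]⟩),
  (.rho 0,⟨false,[],(16,22),.mon 2 2 0,[]⟩),
  (.ca 0,⟨false,[],(14,8),.mon 2 2 0,[]⟩),
  (.rho 0,⟨false,[],(9,15),.mon 2 2 0,[]⟩),
  (.comm 10 0 0,⟨false,[],(3,15),.mon 4 4 0,[]⟩),
  (.ca 21,⟨false,[],(17,6),.mon 1 2 0,[]⟩),
  (.rho 0,⟨false,[],(7,16),.mon 2 1 0,[]⟩),
  (.cc 0,⟨false,[],(3,18),.mon 2 1 0,[]⟩),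
  (.ca 0,⟨false,[],(3,12),.mon 2 1 0,[]⟩),
  (.cc 0,⟨false,[],(7,22),.mon 2 1 0,[]⟩),
  (.ca 0,⟨false,[],(25,8),.mon 2 1 0,[]⟩),
  (.rho 0,⟨false,[],(9,24),.mon 1 2 0,[]⟩),
  (.cc 0,⟨false,[],(27,10),.mon 1 2 0,[]⟩),
  (.rho 0,⟨false,[],(11,26),.mon 2 1 0,[]⟩),
  (.ca 0,⟨false,[],(21,4),.mon 2 1 0,[]⟩),
  (.rho 0,⟨false,[],(5,20),.mon 1 2 0,[]⟩),
  (.cc 0,⟨false,[],(5,14),.mon 1 2 0,[]⟩),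
  (.ca 0,⟨false,[],(27,16),.mon 1 2 0,[]⟩),
  (.rho 0,⟨false,[],(17,26),.mon 2 1 0,[]⟩),
  (.cc 0,⟨false,[],(19,8),.mon 2 1 0,[]⟩),
  (.rho 0,⟨false,[],(9,18),.mon 1 2 0,[]⟩),
  (.comm 73 0 0,⟨false,[],(24,18),.mon 2 2 0,[]⟩),
  (.rho 0,⟨false,[],(19,25),.mon 2 2 0,[]⟩),
  (.ca 0,⟨false,[],(13,7),.mon 2 2 0,[]⟩),
  (.rho 0,⟨false,[],(6,12),.mon 2 2 0,[]⟩),
  (.cc 0,⟨false,[],(2,22),.mon 2 2 0,[]⟩),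
  (.ca 0,⟨false,[],(2,8),.mon 2 2 0,[]⟩),
  (.cc 0,⟨false,[],(6,26),.mon 2 2 0,[]⟩),
  (.cc 5,⟨false,[],(17,11),.mon 2 2 0,[]⟩),
  (.rho 0,⟨false,[],(10,16),.mon 2 2 0,[]⟩),
  (.ca 0,⟨false,[],(20,14),.mon 2 2 0,[]⟩),
  (.rho 0,⟨false,[],(15,21),.mon 2 2 0,[]⟩),
  (.comm 0 44 0,⟨false,[],(15,27),.mon 4 4 0,[]⟩),
  (.rho 0,⟨false,[],(26,14),.mon 4 4 0,[]⟩),
  (.comm 6 0 0,⟨false,[],(6,14),.mon 6 6 0,[]⟩),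
  (.rho 0,⟨false,[],(15,7),.mon 6 6 0,[]⟩),
  (.comm 31 0 0,⟨false,[],(3,7),.mon 10 10 0,[]⟩),
  (.cc 5,⟨false,[],(21,15),.mon 2 2 0,[]⟩),
  (.rho 0,⟨false,[],(14,20),.mon 2 2 0,[]⟩),
  (.ca 0,⟨false,[],(16,10),.mon 2 2 0,[]⟩),
  (.rho 0,⟨false,[],(11,17),.mon 2 2 0,[]⟩),
  (.cc 0,⟨false,[],(25,19),.mon 2 2 0,[]⟩),
  (.rho 0,⟨false,[],(18,24),.mon 2 2 0,[]⟩),
  (.ca 0,⟨false,[],(12,6),.mon 2 2 0,[]⟩),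
  (.rho 0,⟨false,[],(7,13),.mon 2 2 0,[]⟩),
  (.comm 8 0 0,⟨false,[],(3,13),.mon 12 12 0,[]⟩),
  (.cc 42,⟨false,[],(27,21),.mon 2 2 0,[]⟩),
  (.rho 0,⟨false,[],(20,26),.mon 2 2 0,[]⟩),
  (.rho 23,⟨false,[],(13,7),.mon 2 2 0,[]⟩),
  (.comm 56 0 0,⟨false,[],(13,27),.mon 4 4 0,[]⟩),
  (.rho 0,⟨false,[],(26,12),.mon 4 4 0,[]⟩),
  (.comm 3 0 0,⟨false,[],(20,12),.mon 6 6 0,[]⟩),
  (.rho 0,⟨false,[],(13,21),.mon 6 6 0,[]⟩),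
  (.comm 26 67 0,⟨false,[],(2,14),.mon 4 4 0,[]⟩),
  (.comm 0 15 0,⟨false,[],(2,20),.mon 6 6 0,[]⟩),
  (.rho 0,⟨false,[],(21,3),.mon 6 6 0,[]⟩),
  (.comm 3 0 0,⟨false,[],(13,3),.mon 12 12 0,[]⟩),
  (.rho 0,⟨false,[],(2,12),.mon 12 12 0,[]⟩),
  (.rho 0,⟨false,[],(13,3),.mon 12 12 0,[]⟩),
  (.sI 13 0,⟨true,[],(13,22),.mon 24 24 0,[]⟩),
  (.rho 72,⟨false,[],(26,20),.mon 2 2 0,[]⟩),
  (.comm 33 0 0,⟨false,[],(6,20),.mon 4 4 0,[]⟩),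
  (.rho 0,⟨false,[],(21,7),.mon 4 4 0,[]⟩),
  (.comm 18 0 0,⟨false,[],(21,13),.mon 6 6 0,[]⟩),
  (.rho 0,⟨false,[],(12,20),.mon 6 6 0,[]⟩),
  (.comm 106 0 0,⟨false,[],(27,20),.mon 7 6 0,[]⟩),
  (.rho 0,⟨false,[],(21,26),.mon 6 7 0,[]⟩),
  (.ca 0,⟨false,[],(11,4),.mon 6 7 0,[]⟩),
  (.rho 0,⟨false,[],(5,10),.mon 7 6 0,[]⟩),
  (.cc 0,⟨false,[],(5,24),.mon 7 6 0,[]⟩),
  (.comm 122 66 0,⟨false,[],(24,15),.mon 3 2 0,[]⟩),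
  (.rho 0,⟨false,[],(14,25),.mon 2 3 0,[]⟩),
  (.ca 90,⟨false,[],(21,10),.mon 2 1 0,[]⟩),
  (.rho 0,⟨false,[],(11,20),.mon 1 2 0,[]⟩),
  (.cc 0,⟨false,[],(25,14),.mon 1 2 0,[]⟩),
  (.rho 0,⟨false,[],(15,24),.mon 2 1 0,[]⟩),
  (.comm 128 0 0,⟨false,[],(15,9),.mon 3 1 0,[]⟩),
  (.rho 0,⟨false,[],(8,14),.mon 1 3 0,[]⟩),
  (.cc 0,⟨false,[],(26,20),.mon 1 3 0,[]⟩),
  (.rho 0,⟨false,[],(21,27),.mon 3 1 0,[]⟩),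
  (.ca 0,⟨false,[],(11,5),.mon 3 1 0,[]⟩),
  (.rho 0,⟨false,[],(4,10),.mon 1 3 0,[]⟩),
  (.cc 0,⟨false,[],(4,24),.mon 1 3 0,[]⟩),
  (.rho 0,⟨false,[],(25,5),.mon 3 1 0,[]⟩),
  (.comm 12 0 0,⟨false,[],(14,5),.mon 5 4 0,[]⟩),
  (.rho 0,⟨false,[],(4,15),.mon 4 5 0,[]⟩),
  (.rho 0,⟨false,[],(14,5),.mon 5 4 0,[]⟩),
  (.comm 17 0 0,⟨false,[],(14,24),.mon 12 10 0,[]⟩),
  (.ca 0,⟨false,[],(16,6),.mon 12 10 0,[]⟩),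
  (.rho 0,⟨false,[],(7,17),.mon 10 12 0,[]⟩),
  (.cc 0,⟨false,[],(3,19),.mon 10 12 0,[]⟩),
  (.ca 0,⟨false,[],(3,13),.mon 10 12 0,[]⟩),
  (.rho 34,⟨false,[],(13,3),.mon 12 12 0,[]⟩),
  (.sI 1 0,⟨true,[],(13,22),.mon 22 24 0,[]⟩),
  (.sN 0,⟨true,[],(13,22),.mon (-22) (-24) 0,[]⟩),
  (.sA 35 0,⟨true,[],(13,22),.mon 2 0 0,[]⟩),
  (.ca 75,⟨false,[],(23,12),.mon 1 2 0,[]⟩),
  (.rho 0,⟨false,[],(13,22),.mon 2 1 0,[]⟩),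
  (.sF 2 0,⟨false,[],(13,22),.all,[]⟩),
  (.ca 71,⟨false,[],(24,4),.mon 2 2 0,[]⟩),
  (.rho 0,⟨false,[],(5,25),.mon 2 2 0,[]⟩),
  (.cc 0,⟨false,[],(5,11),.mon 2 2 0,[]⟩),
  (.comm 61 106 0,⟨false,[],(11,23),.mon 4 4 0,[]⟩),
  (.comm 1 0 0,⟨false,[],(5,23),.mon 6 6 0,[]⟩),
  (.rho 0,⟨false,[],(22,4),.mon 6 6 0,[]⟩),
  (.comm 6 0 0,⟨false,[],(13,4),.all,[]⟩),
  (.comm 34 52 0,⟨false,[],(2,25),.mon 6 7 0,[]⟩),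
  (.comm 64 109 0,⟨false,[],(12,24),.mon 4 4 0,[]⟩),
  (.rho 0,⟨false,[],(25,13),.mon 4 4 0,[]⟩),
  (.comm 2 0 0,⟨false,[],(2,13),.mon 10 11 0,[]⟩),
  (.comm 4 0 0,⟨false,[],(2,4),.all,[]⟩),
  (.ca 117,⟨false,[],(3,23),.mon 2 2 0,[]⟩),
  (.rho 85,⟨false,[],(9,3),.mon 2 2 0,[]⟩),
  (.comm 1 0 0,⟨false,[],(9,23),.mon 4 4 0,[]⟩),
  (.comm 166 0 0,⟨false,[],(24,23),.mon 5 4 0,[]⟩),
  (.rho 0,⟨false,[],(22,25),.mon 4 5 0,[]⟩),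
  (.rho 125,⟨false,[],(25,5),.mon 2 2 0,[]⟩),
  (.comm 1 0 0,⟨false,[],(22,5),.mon 6 7 0,[]⟩),
  (.rho 0,⟨false,[],(4,23),.mon 7 6 0,[]⟩),
  (.rho 0,⟨false,[],(22,5),.mon 6 7 0,[]⟩),
  (.comm 21 0 0,⟨false,[],(13,5),.all,[]⟩),
  (.comm 0 11 0,⟨false,[],(2,5),.all,[]⟩),
  (.rho 10,⟨false,[],(22,2),.mon 2 2 0,[]⟩),
  (.comm 24 0 0,⟨false,[],(13,2),.all,[]⟩),
  (.rho 23,⟨false,[],(24,4),.mon 2 2 0,[]⟩),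
  (.comm 17 0 0,⟨false,[],(12,4),.mon 6 6 0,[]⟩),
  (.rho 0,⟨false,[],(5,13),.mon 6 6 0,[]⟩),
  (.comm 3 0 0,⟨false,[],(5,2),.all,[]⟩),
  (.cc 12,⟨false,[],(12,11),.mon 4 5 0,[]⟩),
  (.rho 0,⟨false,[],(10,13),.mon 5 4 0,[]⟩),
  (.comm 0 140 0,⟨false,[],(4,13),.mon 7 6 0,[]⟩),
  (.comm 7 0 0,⟨false,[],(4,2),.all,[]⟩),
  (.comm 33 87 0,⟨false,[],(7,22),.all,[]⟩),
  (.rho 14,⟨false,[],(22,5),.mon 6 7 0,[]⟩),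
  (.comm 1 0 0,⟨false,[],(7,5),.all,[]⟩),
  (.comm 137 110 0,⟨false,[],(6,18),.mon 4 4 0,[]⟩),
  (.comm 93 0 0,⟨false,[],(6,24),.mon 6 6 0,[]⟩),
  (.comm 189 0 0,⟨false,[],(6,9),.mon 7 6 0,[]⟩),
  (.comm 0 24 0,⟨false,[],(6,23),.mon 11 10 0,[]⟩),
  (.rho 0,⟨false,[],(22,7),.mon 10 11 0,[]⟩),
  (.comm 41 0 0,⟨false,[],(13,7),.all,[]⟩),
  (.comm 0 10 0,⟨false,[],(4,7),.all,[]⟩),
  (.rho 38,⟨false,[],(22,4),.mon 6 6 0,[]⟩),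
  (.comm 10 0 0,⟨false,[],(7,4),.all,[]⟩),
  (.rho 153,⟨false,[],(25,5),.mon 2 2 0,[]⟩),
  (.comm 43 0 0,⟨false,[],(25,11),.mon 4 4 0,[]⟩),
  (.rho 0,⟨false,[],(10,24),.mon 4 4 0,[]⟩),
  (.rho 44,⟨false,[],(22,10),.mon 4 4 0,[]⟩),
  (.comm 1 0 0,⟨false,[],(22,24),.mon 8 8 0,[]⟩),
  (.comm 201 0 0,⟨false,[],(22,9),.mon 9 8 0,[]⟩),
  (.rho 0,⟨false,[],(8,23),.mon 8 9 0,[]⟩),
  (.cc 0,⟨false,[],(26,13),.mon 8 9 0,[]⟩),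
  (.rho 0,⟨false,[],(12,27),.mon 9 8 0,[]⟩),
  (.rho 125,⟨false,[],(27,7),.mon 2 2 0,[]⟩),
  (.comm 1 0 0,⟨false,[],(12,7),.mon 11 10 0,[]⟩),
  (.rho 0,⟨false,[],(6,13),.mon 10 11 0,[]⟩),
  (.comm 50 0 0,⟨false,[],(6,4),.all,[]⟩),
  (.comm 6 130 0,⟨false,[],(2,23),.mon 10 11 0,[]⟩),
  (.comm 168 128 0,⟨false,[],(4,16),.mon 4 4 0,[]⟩),
  (.comm 157 0 0,⟨false,[],(4,22),.mon 6 6 0,[]⟩),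
  (.rho 0,⟨false,[],(23,5),.mon 6 6 0,[]⟩),
  (.comm 60 0 0,⟨false,[],(23,25),.mon 8 8 0,[]⟩),
  (.rho 0,⟨false,[],(24,22),.mon 8 8 0,[]⟩),
  (.comm 55 0 0,⟨false,[],(12,22),.mon 12 12 0,[]⟩),
  (.rho 0,⟨false,[],(23,13),.mon 12 12 0,[]⟩),
  (.comm 66 0 1,⟨false,[],(23,22),.all,[]⟩),
  (.comm 8 0 5,⟨false,[],(2,3),.all,[(2,22)]⟩),
  (.comm 68 57 0,⟨false,[],(2,22),.all,[]⟩),
  (.drop 1 [0],⟨false,[],(2,3),.all,[]⟩),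
  (.comm 45 123 1,⟨false,[],(3,2),.all,[]⟩),
  (.base 2,⟨false,[(27,26),(9,2),(3,8),(5,4),(23,2),(3,22)],(0,26),.mon 0 0 0,[(2,26),(3,26),(24,9),(27,12),(5,18),(6,23),(0,4),(3,4),(2,4)]⟩),
  (.rho 18,⟨false,[],(26,13),.mon 8 9 0,[]⟩),
  (.comm 66 0 0,⟨false,[],(26,4),.all,[]⟩),
  (.comm 2 0 4,⟨false,[],(0,4),.all,[(27,4),(2,4),(3,4),(5,12),(5,26),(5,4)]⟩),
  (.rho 146,⟨false,[],(27,7),.mon 2 2 0,[]⟩),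
  (.comm 130 0 0,⟨false,[],(27,13),.mon 4 4 0,[]⟩),
  (.rho 0,⟨false,[],(12,26),.mon 4 4 0,[]⟩),
  (.rho 0,⟨false,[],(27,13),.mon 4 4 0,[]⟩),
  (.comm 72 0 0,⟨false,[],(27,4),.all,[]⟩),
  (.comm 73 52 1,⟨false,[],(5,4),.all,[]⟩),
  (.drop 6 [1,69,52,74,1,0],⟨false,[],(0,4),.all,[]⟩),
  (.rho 59,⟨false,[],(4,3),.all,[]⟩),
  (.spec 0,⟨false,[],(4,3),.mon 0 0 0,[]⟩),
  (.comm 2 0 2,⟨false,[],(0,3),.all,[(5,3)]⟩),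
  (.drop 0 [73],⟨false,[],(0,3),.all,[]⟩),
  (.spec 53,⟨false,[],(4,2),.mon 0 0 0,[]⟩),
  (.comm 5 0 2,⟨false,[],(0,2),.all,[(5,2)]⟩),
  (.drop 0 [59],⟨false,[],(0,2),.all,[]⟩)],
  [(77,77),(66,66),(60,60),(56,56),(56,56),(66,66),(60,60),(77,77),(53,53),(46,46),(44,44),(31,31),(31,31),(46,46),(44,44),(53,53),(19,19),(18,18),(3,19),(0,18)]⟩ = true := by decide +kernel

theorem cXo14 : (Fam.op0 .X 14).check false true false true (Fam.tcG 14)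
  ⟨[(11,18),(22,4),(8,26),(6,14),(16,24),(29,3),(20,13)],[(10,11)],[(9,21),(15,16),(28,23)],[(14,2),(23,7),(24,7),(4,8),(15,12),(8,3),(9,19),(11,18)],[(15,11),(6,8),(18,26),(25,13),(16,23),(29,4),(20,2)],(2,4),(4,6),
  ⟨[],[(16,22),(25,11)],[(24,4),(5,25),(17,18),(19,16)],[((11,24),some (1,0,0)),((22,3),some (1,0,0))],1,(0,23),(4,1),(4,23),(0,23),(1,0,0),[(18,16),(4,29),(0,5),(22,5)],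
  [(.base 2,⟨false,[(24,4),(5,25),(17,18),(19,16),(16,22),(23,17),(25,11),(10,24)],(4,29),.mon 1 0 0,[(22,5),(0,5),(18,16),(11,24),(22,3),(0,23)]⟩),
  (.base 3,⟨false,[(24,4),(5,25),(17,18),(19,16),(16,22),(23,17),(25,11),(10,24)],(18,16),.mon 1 0 0,[(22,5),(0,5),(4,29),(11,24),(22,3),(0,23)]⟩),
  (.cc 0,⟨false,[(12,29),(28,13),(22,26),(27,23),(23,17),(16,22),(13,15),(14,12)],(26,23),.mon 1 0 0,[(17,28),(0,28),(29,4),(15,12),(17,21),(0,16)]⟩),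
  (.ca 0,⟨false,[(21,3),(2,20),(4,8),(9,5),(5,25),(24,4),(20,7),(6,21)],(8,5),.mon 1 0 0,[(25,2),(0,2),(3,22),(7,21),(25,12),(0,24)]⟩),
  (.cc 0,⟨false,[(3,21),(20,2),(29,6),(7,28),(28,13),(12,29),(2,9),(8,3)],(6,28),.mon 1 0 0,[(13,20),(0,20),(21,17),(9,3),(13,24),(0,12)]⟩),
  (.rho 0,⟨false,[(3,21),(20,2),(29,6),(7,28),(28,13),(12,29),(2,9),(8,3)],(29,7),.mon 0 1 0,[(13,20),(0,20),(21,17),(9,3),(13,24),(0,12)]⟩),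
  (.comm 5 0 0,⟨false,[],(4,7),.mon 1 1 0,[(21,5),(13,5),(18,20),(21,23),(13,23)]⟩),
  (.ca 2,⟨false,[(29,12),(13,28),(3,14),(15,2),(2,20),(21,3),(28,27),(26,29)],(14,2),.mon 1 0 0,[(20,13),(0,13),(12,25),(27,29),(20,16),(0,21)]⟩),
  (.cc 0,⟨false,[(4,24),(25,5),(21,10),(11,20),(20,2),(3,21),(5,19),(18,4)],(10,20),.mon 1 0 0,[(2,25),(0,25),(24,13),(19,4),(2,23),(0,3)]⟩),
  (.ca 0,⟨false,[(22,16),(17,23),(12,19),(18,13),(13,28),(29,12),(23,10),(11,22)],(19,13),.mon 1 0 0,[(28,17),(0,17),(16,20),(10,22),(28,5),(0,29)]⟩),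
  (.cc 0,⟨false,[(17,23),(22,16),(24,27),(26,25),(25,5),(4,24),(16,14),(15,17)],(27,25),.mon 1 0 0,[(5,22),(0,22),(23,2),(14,17),(5,28),(0,4)]⟩),
  (.ca 0,⟨false,[(25,5),(4,24),(16,9),(8,17),(17,23),(22,16),(24,6),(7,25)],(9,17),.mon 1 0 0,[(23,4),(0,4),(5,28),(6,25),(23,2),(0,22)]⟩),
  (.cc 0,⟨false,[(13,28),(29,12),(23,7),(6,22),(22,16),(17,23),(12,8),(9,13)],(7,22),.mon 1 0 0,[(16,29),(0,29),(28,5),(8,13),(16,20),(0,17)]⟩),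
  (.ca 0,⟨false,[(20,2),(3,21),(5,15),(14,4),(4,24),(25,5),(21,26),(27,20)],(15,4),.mon 1 0 0,[(24,3),(0,3),(2,23),(26,20),(24,13),(0,25)]⟩),
  (.cc 0,⟨false,[(2,20),(21,3),(28,11),(10,29),(29,12),(13,28),(3,18),(19,2)],(11,29),.mon 1 0 0,[(12,21),(0,21),(20,16),(18,2),(12,25),(0,13)]⟩),
  (.ca 0,⟨false,[(28,13),(12,29),(2,18),(19,3),(3,21),(20,2),(29,11),(10,28)],(18,3),.mon 1 0 0,[(21,12),(0,12),(13,24),(11,28),(21,17),(0,20)]⟩),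
  (.cc 0,⟨false,[(5,25),(24,4),(20,26),(27,21),(21,3),(2,20),(4,15),(14,5)],(26,21),.mon 1 0 0,[(3,24),(0,24),(25,12),(15,5),(3,22),(0,2)]⟩),
  (.ca 0,⟨false,[(23,17),(16,22),(13,8),(9,12),(12,29),(28,13),(22,7),(6,23)],(8,12),.mon 1 0 0,[(29,16),(0,16),(17,21),(7,23),(29,4),(0,28)]⟩),
  (.cc 0,⟨false,[(16,22),(23,17),(25,6),(7,24),(24,4),(5,25),(17,9),(8,16)],(6,24),.mon 1 0 0,[(4,23),(0,23),(22,3),(9,16),(4,29),(0,5)]⟩),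
  (.ca 0,⟨false,[(24,4),(5,25),(17,14),(15,16),(16,22),(23,17),(25,27),(26,24)],(14,16),.mon 1 0 0,[(22,5),(0,5),(4,29),(27,24),(22,3),(0,23)]⟩),
  (.cc 0,⟨false,[(12,29),(28,13),(22,10),(11,23),(23,17),(16,22),(13,19),(18,12)],(10,23),.mon 1 0 0,[(17,28),(0,28),(29,4),(19,12),(17,21),(0,16)]⟩),
  (.ca 0,⟨false,[(21,3),(2,20),(4,19),(18,5),(5,25),(24,4),(20,10),(11,21)],(19,5),.mon 1 0 0,[(25,2),(0,2),(3,22),(10,21),(25,12),(0,24)]⟩),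
  (.cc 0,⟨false,[(3,21),(20,2),(29,27),(26,28),(28,13),(12,29),(2,14),(15,3)],(27,28),.mon 1 0 0,[(13,20),(0,20),(21,17),(14,3),(13,24),(0,12)]⟩),
  (.rho 0,⟨false,[(3,21),(20,2),(29,27),(26,28),(28,13),(12,29),(2,14),(15,3)],(29,26),.mon 0 1 0,[(13,20),(0,20),(21,17),(14,3),(13,24),(0,12)]⟩),
  (.comm 23 0 0,⟨false,[],(4,26),.mon 1 1 0,[(21,5),(13,5),(18,20),(21,23),(13,23)]⟩),
  (.ca 0,⟨false,[],(22,8),.mon 1 1 0,[(12,23),(20,23),(11,13),(12,5),(20,5)]⟩),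
  (.cc 0,⟨false,[],(17,6),.mon 1 1 0,[(24,16),(2,16),(15,25),(24,28),(2,28)]⟩),
  (.rho 0,⟨false,[],(7,16),.mon 1 1 0,[(24,16),(2,16),(15,25),(24,28),(2,28)]⟩),
  (.comm 21 0 0,⟨false,[],(4,16),.mon 2 2 0,[]⟩),
  (.cc 0,⟨false,[],(29,23),.mon 2 2 0,[]⟩),
  (.rho 0,⟨false,[],(22,28),.mon 2 2 0,[]⟩),
  (.rho 0,⟨false,[],(29,23),.mon 2 2 0,[]⟩),
  (.comm 31 0 0,⟨false,[],(4,23),.mon 3 2 0,[]⟩),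
  (.ca 6,⟨false,[],(25,14),.mon 1 1 0,[(16,24),(28,24),(7,17),(16,2),(28,2)]⟩),
  (.cc 0,⟨false,[],(13,10),.mon 1 1 0,[(23,12),(5,12),(9,22),(23,20),(5,20)]⟩),
  (.ca 0,⟨false,[],(20,19),.mon 1 1 0,[(5,21),(23,21),(27,4),(5,13),(23,13)]⟩),
  (.cc 0,⟨false,[],(2,27),.mon 1 1 0,[(28,3),(16,3),(19,29),(28,25),(16,25)]⟩),
  (.ca 0,⟨false,[],(28,9),.mon 1 1 0,[(2,29),(24,29),(10,3),(2,17),(24,17)]⟩),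
  (.cc 0,⟨false,[],(5,7),.mon 1 1 0,[(20,4),(12,4),(14,21),(20,22),(12,22)]⟩),
  (.ca 0,⟨false,[],(23,15),.mon 1 1 0,[(13,22),(21,22),(6,12),(13,4),(21,4)]⟩),
  (.cc 0,⟨false,[],(16,11),.mon 1 1 0,[(25,17),(3,17),(8,24),(25,29),(3,29)]⟩),
  (.ca 0,⟨false,[],(24,18),.mon 1 1 0,[(17,25),(29,25),(26,16),(17,3),(29,3)]⟩),
  (.cc 0,⟨false,[],(12,26),.mon 1 1 0,[(22,13),(4,13),(18,23),(22,21),(4,21)]⟩),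
  (.ca 0,⟨false,[],(21,8),.mon 1 1 0,[(4,20),(22,20),(11,5),(4,12),(22,12)]⟩),
  (.cc 0,⟨false,[],(3,6),.mon 1 1 0,[(29,2),(17,2),(15,28),(29,24),(17,24)]⟩),
  (.rho 0,⟨false,[],(7,2),.mon 1 1 0,[(29,2),(17,2),(15,28),(29,24),(17,24)]⟩),
  (.comm 39 0 0,⟨false,[],(4,2),.mon 2 2 0,[]⟩),
  (.rho 0,⟨false,[],(3,5),.mon 2 2 0,[]⟩),
  (.cc 0,⟨false,[],(21,28),.mon 2 2 0,[]⟩),
  (.ca 0,⟨false,[],(12,2),.mon 2 2 0,[]⟩),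
  (.rho 0,⟨false,[],(3,13),.mon 2 2 0,[]⟩),
  (.cc 0,⟨false,[],(21,25),.mon 2 2 0,[]⟩),
  (.ca 0,⟨false,[],(12,17),.mon 2 2 0,[]⟩),
  (.cc 0,⟨false,[],(24,22),.mon 2 2 0,[]⟩),
  (.rho 0,⟨false,[],(23,25),.mon 2 2 0,[]⟩),
  (.comm 22 0 0,⟨false,[],(4,25),.mon 5 4 0,[]⟩),
  (.ca 0,⟨false,[],(22,17),.mon 5 4 0,[]⟩),
  (.rho 0,⟨false,[],(16,23),.mon 4 5 0,[]⟩),
  (.cc 33,⟨false,[],(29,18),.mon 1 1 0,[(3,28),(25,28),(26,2),(3,16),(25,16)]⟩),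
  (.ca 0,⟨false,[],(3,11),.mon 1 1 0,[(29,2),(17,2),(8,28),(29,24),(17,24)]⟩),
  (.cc 0,⟨false,[],(21,15),.mon 1 1 0,[(4,20),(22,20),(6,5),(4,12),(22,12)]⟩),
  (.ca 0,⟨false,[],(12,7),.mon 1 1 0,[(22,13),(4,13),(14,23),(22,21),(4,21)]⟩),
  (.cc 0,⟨false,[],(24,9),.mon 1 1 0,[(17,25),(29,25),(10,16),(17,3),(29,3)]⟩),
  (.ca 0,⟨false,[],(16,27),.mon 1 1 0,[(25,17),(3,17),(19,24),(25,29),(3,29)]⟩),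
  (.cc 0,⟨false,[],(23,19),.mon 1 1 0,[(13,22),(21,22),(27,12),(13,4),(21,4)]⟩),
  (.ca 0,⟨false,[],(5,10),.mon 1 1 0,[(20,4),(12,4),(9,21),(20,22),(12,22)]⟩),
  (.cc 0,⟨false,[],(28,14),.mon 1 1 0,[(2,29),(24,29),(7,3),(2,17),(24,17)]⟩),
  (.ca 0,⟨false,[],(2,6),.mon 1 1 0,[(28,3),(16,3),(15,29),(28,25),(16,25)]⟩),
  (.rho 0,⟨false,[],(7,3),.mon 1 1 0,[(28,3),(16,3),(15,29),(28,25),(16,25)]⟩),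
  (.comm 62 0 0,⟨false,[],(4,3),.mon 2 2 0,[]⟩),
  (.rho 0,⟨false,[],(2,5),.mon 2 2 0,[]⟩),
  (.ca 0,⟨false,[],(28,23),.mon 2 2 0,[]⟩),
  (.rho 0,⟨false,[],(22,29),.mon 2 2 0,[]⟩),
  (.cc 0,⟨false,[],(17,4),.mon 2 2 0,[]⟩),
  (.rho 0,⟨false,[],(5,16),.mon 2 2 0,[]⟩),
  (.ca 0,⟨false,[],(23,24),.mon 2 2 0,[]⟩),
  (.rho 0,⟨false,[],(25,22),.mon 2 2 0,[]⟩),
  (.comm 25 0 0,⟨false,[],(21,22),.mon 4 4 0,[]⟩),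
  (.rho 0,⟨false,[],(23,20),.mon 4 4 0,[]⟩),
  (.comm 21 0 0,⟨false,[],(16,20),.mon 8 9 0,[]⟩),
  (.cc 9,⟨false,[],(20,28),.mon 2 2 0,[]⟩),
  (.rho 0,⟨false,[],(29,21),.mon 2 2 0,[]⟩),
  (.comm 81 0 0,⟨false,[],(4,21),.mon 3 2 0,[]⟩),
  (.rho 8,⟨false,[],(17,4),.mon 2 2 0,[]⟩),
  (.comm 1 0 0,⟨false,[],(17,21),.mon 5 4 0,[]⟩),
  (.rho 0,⟨false,[],(20,16),.mon 4 5 0,[]⟩),
  (.sI 6 0,⟨true,[],(4,16),.mon 12 14 0,[]⟩),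
  (.comm 12 16 0,⟨false,[],(2,16),.mon 4 4 0,[]⟩),
  (.cc 87,⟨false,[(12,29),(28,13),(22,26),(27,23),(23,17),(16,22),(13,15),(14,12)],(29,4),.mon 1 0 0,[(17,28),(0,28),(26,23),(15,12),(17,21),(0,16)]⟩),
  (.ca 0,⟨false,[(21,3),(2,20),(4,8),(9,5),(5,25),(24,4),(20,7),(6,21)],(3,22),.mon 1 0 0,[(25,2),(0,2),(8,5),(7,21),(25,12),(0,24)]⟩),
  (.cc 0,⟨false,[(3,21),(20,2),(29,6),(7,28),(28,13),(12,29),(2,9),(8,3)],(21,17),.mon 1 0 0,[(13,20),(0,20),(6,28),(9,3),(13,24),(0,12)]⟩),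
  (.ca 0,⟨false,[(29,12),(13,28),(3,14),(15,2),(2,20),(21,3),(28,27),(26,29)],(12,25),.mon 1 0 0,[(20,13),(0,13),(14,2),(27,29),(20,16),(0,21)]⟩),
  (.cc 0,⟨false,[(4,24),(25,5),(21,10),(11,20),(20,2),(3,21),(5,19),(18,4)],(24,13),.mon 1 0 0,[(2,25),(0,25),(10,20),(19,4),(2,23),(0,3)]⟩),
  (.ca 0,⟨false,[(22,16),(17,23),(12,19),(18,13),(13,28),(29,12),(23,10),(11,22)],(16,20),.mon 1 0 0,[(28,17),(0,17),(19,13),(10,22),(28,5),(0,29)]⟩),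
  (.cc 0,⟨false,[(17,23),(22,16),(24,27),(26,25),(25,5),(4,24),(16,14),(15,17)],(23,2),.mon 1 0 0,[(5,22),(0,22),(27,25),(14,17),(5,28),(0,4)]⟩),
  (.ca 0,⟨false,[(25,5),(4,24),(16,9),(8,17),(17,23),(22,16),(24,6),(7,25)],(5,28),.mon 1 0 0,[(23,4),(0,4),(9,17),(6,25),(23,2),(0,22)]⟩),
  (.cc 0,⟨false,[(13,28),(29,12),(23,7),(6,22),(22,16),(17,23),(12,8),(9,13)],(28,5),.mon 1 0 0,[(16,29),(0,29),(7,22),(8,13),(16,20),(0,17)]⟩),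
  (.ca 0,⟨false,[(20,2),(3,21),(5,15),(14,4),(4,24),(25,5),(21,26),(27,20)],(2,23),.mon 1 0 0,[(24,3),(0,3),(15,4),(26,20),(24,13),(0,25)]⟩),
  (.cc 0,⟨false,[(2,20),(21,3),(28,11),(10,29),(29,12),(13,28),(3,18),(19,2)],(20,16),.mon 1 0 0,[(12,21),(0,21),(11,29),(18,2),(12,25),(0,13)]⟩),
  (.ca 0,⟨false,[(28,13),(12,29),(2,18),(19,3),(3,21),(20,2),(29,11),(10,28)],(13,24),.mon 1 0 0,[(21,12),(0,12),(18,3),(11,28),(21,17),(0,20)]⟩),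
  (.cc 0,⟨false,[(5,25),(24,4),(20,26),(27,21),(21,3),(2,20),(4,15),(14,5)],(25,12),.mon 1 0 0,[(3,24),(0,24),(26,21),(15,5),(3,22),(0,2)]⟩),
  (.ca 0,⟨false,[(23,17),(16,22),(13,8),(9,12),(12,29),(28,13),(22,7),(6,23)],(17,21),.mon 1 0 0,[(29,16),(0,16),(8,12),(7,23),(29,4),(0,28)]⟩),
  (.cc 0,⟨false,[(16,22),(23,17),(25,6),(7,24),(24,4),(5,25),(17,9),(8,16)],(22,3),.mon 1 0 0,[(4,23),(0,23),(6,24),(9,16),(4,29),(0,5)]⟩),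
  (.ca 0,⟨false,[(24,4),(5,25),(17,14),(15,16),(16,22),(23,17),(25,27),(26,24)],(4,29),.mon 1 0 0,[(22,5),(0,5),(14,16),(27,24),(22,3),(0,23)]⟩),
  (.cc 0,⟨false,[(12,29),(28,13),(22,10),(11,23),(23,17),(16,22),(13,19),(18,12)],(29,4),.mon 1 0 0,[(17,28),(0,28),(10,23),(19,12),(17,21),(0,16)]⟩),
  (.ca 0,⟨false,[(21,3),(2,20),(4,19),(18,5),(5,25),(24,4),(20,10),(11,21)],(3,22),.mon 1 0 0,[(25,2),(0,2),(19,5),(10,21),(25,12),(0,24)]⟩),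
  (.cc 0,⟨false,[(3,21),(20,2),(29,27),(26,28),(28,13),(12,29),(2,14),(15,3)],(21,17),.mon 1 0 0,[(13,20),(0,20),(27,28),(14,3),(13,24),(0,12)]⟩),
  (.rho 0,⟨false,[(3,21),(20,2),(29,27),(26,28),(28,13),(12,29),(2,14),(15,3)],(16,20),.mon 0 1 0,[(13,20),(0,20),(27,28),(14,3),(13,24),(0,12)]⟩),
  (.comm 106 0 0,⟨false,[],(18,20),.mon 1 1 0,[(21,5),(13,5),(4,26),(21,23),(13,23)]⟩),
  (.ca 0,⟨false,[],(11,13),.mon 1 1 0,[(12,23),(20,23),(22,8),(12,5),(20,5)]⟩),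
  (.cc 0,⟨false,[],(15,25),.mon 1 1 0,[(24,16),(2,16),(17,6),(24,28),(2,28)]⟩),
  (.ca 0,⟨false,[],(7,17),.mon 1 1 0,[(16,24),(28,24),(25,14),(16,2),(28,2)]⟩),
  (.comm 105 0 0,⟨false,[],(4,17),.mon 2 2 0,[]⟩),
  (.cc 0,⟨false,[],(29,22),.mon 2 2 0,[]⟩),
  (.rho 0,⟨false,[],(23,28),.mon 2 2 0,[]⟩),
  (.ca 0,⟨false,[],(5,2),.mon 2 2 0,[]⟩),
  (.rho 0,⟨false,[],(3,4),.mon 2 2 0,[]⟩),
  (.rho 0,⟨false,[],(5,2),.mon 2 2 0,[]⟩),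
  (.comm 30 0 0,⟨false,[],(5,16),.mon 6 6 0,[]⟩),
  (.cc 43,⟨false,[],(16,12),.mon 2 2 0,[]⟩),
  (.rho 0,⟨false,[],(13,17),.mon 2 2 0,[]⟩),
  (.rho 0,⟨false,[],(16,12),.mon 2 2 0,[]⟩),
  (.comm 3 0 0,⟨false,[],(5,12),.mon 8 8 0,[]⟩),
  (.cc 6,⟨false,[],(21,29),.mon 2 2 0,[]⟩),
  (.ca 0,⟨false,[],(12,3),.mon 2 2 0,[]⟩),
  (.rho 0,⟨false,[],(2,13),.mon 2 2 0,[]⟩),
  (.rho 0,⟨false,[],(12,3),.mon 2 2 0,[]⟩),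
  (.comm 4 0 0,⟨false,[],(5,3),.mon 10 10 0,[]⟩),
  (.rho 0,⟨false,[],(2,4),.mon 10 10 0,[]⟩),
  (.rho 81,⟨false,[],(4,2),.mon 2 2 0,[]⟩),
  (.sI 1 0,⟨true,[],(4,16),.mon 12 12 0,[]⟩),
  (.sN 0,⟨true,[],(4,16),.mon (-12) (-12) 0,[]⟩),
  (.sA 45 0,⟨true,[],(4,16),.mon 0 2 0,[]⟩),
  (.sF 0 104,⟨false,[],(4,16),.all,[]⟩),
  (.ca 105,⟨false,[],(22,24),.mon 2 2 0,[]⟩),
  (.cc 0,⟨false,[],(17,12),.mon 2 2 0,[]⟩),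
  (.rho 0,⟨false,[],(13,16),.mon 2 2 0,[]⟩),
  (.ca 0,⟨false,[],(20,24),.mon 2 2 0,[]⟩),
  (.cc 0,⟨false,[],(2,12),.mon 2 2 0,[]⟩),
  (.ca 0,⟨false,[],(28,21),.mon 2 2 0,[]⟩),
  (.rho 0,⟨false,[],(20,29),.mon 2 2 0,[]⟩),
  (.cc 0,⟨false,[],(2,4),.mon 2 2 0,[]⟩),
  (.comm 8 0 0,⟨false,[],(2,16),.all,[]⟩),
  (.rho 26,⟨false,[],(5,2),.mon 2 2 0,[]⟩),
  (.comm 5 0 0,⟨false,[],(5,12),.mon 4 4 0,[]⟩),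
  (.comm 0 92 0,⟨false,[],(5,17),.mon 6 6 0,[]⟩),
  (.rho 0,⟨false,[],(16,4),.mon 6 6 0,[]⟩),
  (.comm 4 0 0,⟨false,[],(2,4),.all,[]⟩),
  (.comm 31 35 0,⟨false,[],(3,17),.mon 4 4 0,[]⟩),
  (.rho 0,⟨false,[],(16,2),.mon 4 4 0,[]⟩),
  (.comm 16 0 0,⟨false,[],(4,2),.all,[]⟩),
  (.ca 17,⟨false,[],(22,24),.all,[]⟩),
  (.comm 69 74 0,⟨false,[],(4,22),.mon 7 6 0,[]⟩),
  (.ca 98,⟨false,[],(5,17),.mon 2 2 0,[]⟩),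
  (.rho 0,⟨false,[],(16,4),.mon 2 2 0,[]⟩),
  (.comm 2 0 0,⟨false,[],(16,22),.mon 9 8 0,[]⟩),
  (.comm 4 0 0,⟨false,[],(16,24),.all,[]⟩),
  (.comm 0 155 0,⟨false,[],(18,24),.all,[]⟩),
  (.ca 0,⟨false,[],(11,16),.all,[]⟩),
  (.cc 0,⟨false,[],(15,23),.all,[]⟩),
  (.ca 0,⟨false,[],(7,5),.all,[]⟩),
  (.rho 15,⟨false,[],(16,4),.mon 6 6 0,[]⟩),
  (.comm 79 0 0,⟨false,[],(16,21),.mon 9 8 0,[]⟩),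
  (.comm 29 0 0,⟨false,[],(4,21),.all,[]⟩),
  (.rho 18,⟨false,[],(16,4),.mon 6 6 0,[]⟩),
  (.comm 1 0 0,⟨false,[],(16,21),.all,[]⟩),
  (.comm 0 164 0,⟨false,[],(18,21),.all,[]⟩),
  (.cc 0,⟨false,[],(26,3),.all,[]⟩),
  (.ca 0,⟨false,[],(8,29),.all,[]⟩),
  (.cc 0,⟨false,[],(6,4),.all,[]⟩),
  (.comm 117 31 0,⟨false,[],(2,17),.mon 4 4 0,[]⟩),
  (.rho 0,⟨false,[],(16,3),.mon 4 4 0,[]⟩),
  (.comm 38 0 0,⟨false,[],(4,3),.all,[]⟩),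
  (.rho 27,⟨false,[],(16,4),.mon 6 6 0,[]⟩),
  (.comm 1 0 0,⟨false,[],(16,3),.all,[]⟩),
  (.comm 0 173 0,⟨false,[],(18,3),.all,[]⟩),
  (.ca 0,⟨false,[],(11,29),.all,[]⟩),
  (.cc 0,⟨false,[],(15,4),.all,[]⟩),
  (.ca 0,⟨false,[],(7,22),.all,[]⟩),
  (.cc 0,⟨false,[],(9,17),.all,[]⟩),
  (.cc 46,⟨false,[],(29,23),.all,[]⟩),
  (.rho 25,⟨false,[],(23,17),.mon 8 9 0,[]⟩),
  (.comm 1 0 0,⟨false,[],(29,17),.all,[]⟩),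
  (.rho 0,⟨false,[],(16,28),.all,[]⟩),
  (.comm 0 182 0,⟨false,[],(18,28),.all,[(16,5),(18,5)]⟩),
  (.comm 34 14 0,⟨false,[],(4,17),.all,[]⟩),
  (.rho 0,⟨false,[],(16,5),.all,[]⟩),
  (.comm 0 185 0,⟨false,[],(18,5),.all,[]⟩),
  (.drop 3 [2,0],⟨false,[],(18,28),.all,[]⟩),
  (.cc 0,⟨false,[],(26,5),.all,[]⟩),
  (.ca 0,⟨false,[],(8,23),.all,[]⟩),
  (.cc 0,⟨false,[],(6,16),.all,[]⟩),
  (.rho 0,⟨false,[],(17,7),.all,[]⟩),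
  (.spec 0,⟨false,[],(17,7),.mon 0 0 0,[]⟩),
  (.comm 14 0 0,⟨false,[],(9,7),.all,[]⟩),
  (.rho 4,⟨false,[],(22,9),.all,[]⟩),
  (.spec 0,⟨false,[],(22,9),.mon 0 0 0,[]⟩),
  (.comm 18 0 0,⟨false,[],(7,9),.all,[]⟩),
  (.cc 22,⟨false,[],(26,21),.all,[]⟩),
  (.ca 0,⟨false,[],(8,12),.all,[]⟩),
  (.rho 151,⟨false,[],(29,20),.mon 2 2 0,[]⟩),
  (.comm 200 0 0,⟨false,[],(4,20),.mon 3 2 0,[]⟩),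
  (.rho 56,⟨false,[],(16,4),.mon 6 6 0,[]⟩),
  (.comm 1 0 0,⟨false,[],(16,20),.mon 9 8 0,[]⟩),
  (.comm 70 0 0,⟨false,[],(4,20),.all,[]⟩),
  (.rho 59,⟨false,[],(16,4),.mon 6 6 0,[]⟩),
  (.comm 1 0 0,⟨false,[],(16,20),.all,[]⟩),
  (.comm 0 205 0,⟨false,[],(18,20),.all,[]⟩),
  (.ca 0,⟨false,[],(11,13),.all,[]⟩),
  (.rho 0,⟨false,[],(12,10),.all,[]⟩),
  (.spec 0,⟨false,[],(12,10),.mon 0 0 0,[]⟩),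
  (.comm 11 0 0,⟨false,[],(8,10),.all,[]⟩),
  (.comm 78 56 0,⟨false,[],(4,22),.all,[]⟩),
  (.spec 0,⟨false,[],(4,22),.mon 0 0 0,[]⟩),
  (.comm 36 0 0,⟨false,[],(15,22),.all,[]⟩),
  (.rho 94,⟨false,[],(16,12),.mon 2 2 0,[]⟩),
  (.comm 82 0 0,⟨false,[],(4,12),.all,[]⟩),
  (.rho 71,⟨false,[],(16,4),.mon 6 6 0,[]⟩),
  (.comm 1 0 0,⟨false,[],(16,12),.all,[]⟩),
  (.comm 0 217 0,⟨false,[],(18,12),.all,[]⟩),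
  (.cc 0,⟨false,[],(26,24),.all,[]⟩),
  (.ca 0,⟨false,[],(8,16),.all,[]⟩),
  (.cc 0,⟨false,[],(6,23),.all,[]⟩),
  (.rho 0,⟨false,[],(22,7),.all,[]⟩),
  (.cN 9 45 0,⟨false,[],(15,7),.all,[]⟩),
  (.ca 0,⟨false,[],(7,15),.all,[]⟩),
  (.cc 0,⟨false,[],(9,11),.all,[]⟩),
  (.ca 35,⟨false,[],(14,24),.all,[]⟩),
  (.cc 0,⟨false,[],(10,12),.all,[]⟩),
  (.rho 176,⟨false,[],(16,13),.mon 2 2 0,[]⟩),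
  (.comm 96 0 0,⟨false,[],(4,13),.all,[]⟩),
  (.spec 0,⟨false,[],(4,13),.mon 0 0 0,[]⟩),
  (.comm 54 0 0,⟨false,[],(15,13),.all,[]⟩),
  (.cc 200,⟨false,[],(29,16),.mon 3 2 0,[]⟩),
  (.rho 0,⟨false,[],(17,28),.mon 2 3 0,[]⟩),
  (.rho 157,⟨false,[],(23,20),.mon 4 4 0,[]⟩),
  (.comm 95 0 0,⟨false,[],(23,29),.mon 6 6 0,[]⟩),
  (.rho 0,⟨false,[],(28,22),.mon 6 6 0,[]⟩),
  (.comm 3 0 0,⟨false,[],(17,22),.mon 8 9 0,[]⟩),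
  (.comm 0 85 0,⟨false,[],(5,22),.mon 10 11 0,[]⟩),
  (.rho 0,⟨false,[],(23,4),.mon 11 10 0,[]⟩),
  (.comm 77 0 0,⟨false,[],(23,21),.all,[]⟩),
  (.rho 19,⟨false,[],(22,7),.all,[]⟩),
  (.cN 1 64 0,⟨false,[],(6,21),.all,[]⟩),
  (.ca 0,⟨false,[],(14,12),.all,[]⟩),
  (.cc 45,⟨false,[],(6,24),.all,[]⟩),
  (.ca 0,⟨false,[],(14,16),.all,[]⟩),
  (.spec 61,⟨false,[],(4,17),.mon 0 0 0,[]⟩),
  (.comm 70 0 0,⟨false,[],(15,17),.all,[]⟩),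
  (.cc 61,⟨false,[],(26,28),.all,[]⟩),
  (.ca 0,⟨false,[],(8,2),.all,[]⟩),
  (.cc 0,⟨false,[],(6,20),.all,[]⟩),
  (.ca 0,⟨false,[],(14,13),.all,[]⟩),
  (.cc 0,⟨false,[],(10,25),.all,[]⟩),
  (.ca 0,⟨false,[],(19,17),.all,[]⟩),
  (.comm 121 138 0,⟨false,[],(3,16),.all,[]⟩),
  (.spec 0,⟨false,[],(3,16),.mon 0 0 0,[]⟩),
  (.comm 81 0 0,⟨false,[],(18,16),.all,[]⟩),
  (.ca 29,⟨false,[],(19,21),.all,[]⟩),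
  (.rho 207,⟨false,[],(24,20),.mon 2 2 0,[]⟩),
  (.comm 108 0 0,⟨false,[],(22,20),.all,[]⟩),
  (.rho 115,⟨false,[],(16,4),.mon 6 6 0,[]⟩),
  (.comm 206 0 0,⟨false,[],(16,25),.mon 11 10 0,[]⟩),
  (.comm 129 0 0,⟨false,[],(4,25),.all,[]⟩),
  (.rho 24,⟨false,[],(23,4),.mon 11 10 0,[]⟩),
  (.comm 1 0 0,⟨false,[],(23,25),.all,[]⟩),
  (.ca 86,⟨false,[],(27,25),.all,[]⟩),
  (.rho 30,⟨false,[],(28,22),.mon 6 6 0,[]⟩),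
  (.comm 116 0 0,⟨false,[],(28,24),.all,[]⟩),
  (.rho 0,⟨false,[],(25,29),.all,[]⟩),
  (.spec 0,⟨false,[],(25,29),.mon 0 0 0,[]⟩),
  (.comm 4 0 0,⟨false,[],(27,29),.all,[]⟩),
  (.rho 126,⟨false,[],(16,4),.mon 6 6 0,[]⟩),
  (.comm 17 0 0,⟨false,[],(3,4),.all,[]⟩),
  (.rho 161,⟨false,[],(16,5),.mon 2 2 0,[]⟩),
  (.comm 141 0 1,⟨false,[],(4,5),.all,[]⟩),
  (.comm 134 0 5,⟨false,[],(2,3),.all,[(2,5)]⟩),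
  (.drop 0 [104],⟨false,[],(2,3),.all,[]⟩),
  (.comm 161 2 5,⟨false,[],(3,2),.all,[(3,5)]⟩),
  (.drop 0 [128],⟨false,[],(3,2),.all,[]⟩),
  (.base 1,⟨false,[(24,4),(5,25),(17,18),(19,16),(16,22),(23,17),(25,11),(10,24)],(0,5),.mon 1 0 0,[(22,5),(4,29),(18,16),(11,24),(22,3),(0,23)]⟩),
  (.rho 133,⟨false,[],(5,3),.all,[]⟩),
  (.comm 1 0 4,⟨false,[],(0,3),.all,[(4,3),(22,3),(2,29)]⟩),
  (.comm 227 141 0,⟨false,[],(2,25),.mon 7 6 0,[]⟩),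
  (.rho 0,⟨false,[],(24,3),.mon 6 7 0,[]⟩),
  (.comm 133 0 0,⟨false,[],(22,3),.all,[]⟩),
  (.rho 211,⟨false,[],(17,4),.mon 2 2 0,[]⟩),
  (.comm 254 0 0,⟨false,[],(17,23),.mon 5 4 0,[]⟩),
  (.comm 0 134 0,⟨false,[],(5,23),.mon 7 6 0,[]⟩),
  (.ca 147,⟨false,[],(28,22),.mon 2 2 0,[]⟩),
  (.rho 0,⟨false,[],(23,29),.mon 2 2 0,[]⟩),
  (.comm 2 0 0,⟨false,[],(5,29),.mon 9 8 0,[]⟩),
  (.rho 0,⟨false,[],(28,4),.mon 8 9 0,[]⟩),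
  (.comm 120 0 0,⟨false,[],(28,3),.all,[]⟩),
  (.drop 11 [121,8,0],⟨false,[],(0,3),.all,[]⟩),
  (.cN 0 15 17,⟨false,[],(0,2),.all,[]⟩)],
  [(123,123),(22,22),(18,18),(16,16),(1,18),(0,16),(148,148),(145,145),(135,135),(126,126),(101,101),(98,98),(84,84),(69,69),(67,67),(87,87),(63,63),(51,51),(49,49),(47,47),(41,41),(38,38),(88,88),(37,37),(54,54),(35,35),(144,144),(30,30),(29,29),(75,75),(46,46),(24,24)]⟩⟩ = true := by decide +kernel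

theorem cXo15 : Fam.chkP .X 15 1 true false true false true
  ⟨[],[(8,18),(17,20)],[(26,16),(17,27),(19,14),(15,18)],[((11,8),some (1,0,0)),((12,21),some (1,0,0))],3,(0,3),(3,8),(0,8),(2,8),(1,0,0),[(25,26),(22,15),(0,26),(2,26),(3,26)],
  [(.base 3,⟨false,[(26,16),(17,27),(19,14),(15,18),(8,18),(19,9),(17,20),(21,16)],(22,15),.mon 1 0 0,[(3,26),(2,26),(0,26),(25,26),(11,8),(12,21),(0,8),(2,8),(3,8)]⟩),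
  (.base 0,⟨false,[(26,16),(17,27),(19,14),(15,18),(8,18),(19,9),(17,20),(21,16)],(3,26),.mon 1 0 0,[(2,26),(0,26),(22,15),(25,26),(11,8),(12,21),(0,8),(2,8),(3,8)]⟩),
  (.cc 0,⟨false,[(12,22),(23,13),(21,24),(25,20),(30,20),(21,31),(23,18),(19,22)],(7,12),.mon 1 0 0,[(6,12),(0,12),(16,25),(15,12),(29,30),(26,19),(0,30),(6,30),(7,30)]⟩),
  (.ca 0,⟨false,[(22,12),(13,23),(15,10),(11,14),(4,14),(15,5),(13,16),(17,12)],(29,22),.mon 1 0 0,[(28,22),(0,22),(18,11),(21,22),(7,4),(8,17),(0,4),(28,4),(29,4)]⟩),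
  (.cc 0,⟨false,[(16,26),(27,17),(25,28),(29,24),(4,24),(25,5),(27,22),(23,26)],(11,16),.mon 1 0 0,[(10,16),(0,16),(20,29),(19,16),(3,4),(30,23),(0,4),(10,4),(11,4)]⟩),
  (.mul 4 0,⟨false,[(26,16),(17,27),(19,14),(15,18),(8,18),(19,9),(17,20),(21,16),(16,26),(27,17),(25,28),(29,24),(4,24),(25,5),(27,22),(23,26)],(22,15),.mon 1 0 0,[(3,26),(2,26),(0,26),(25,26),(11,8),(12,21),(0,8),(2,8),(3,8),(11,16),(10,16),(0,16),(20,29),(19,16),(3,4),(30,23),(0,4),(10,4),(11,4)]⟩),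
  (.sq 0 5,⟨false,[],(22,15),.mon 1 0 0,[(0,26),(0,8),(0,16),(20,29),(0,4),(27,26),(9,26),(5,26),(17,26),(17,8),(5,8),(9,8),(17,16),(5,16),(5,4)]⟩),
  (.base 5,⟨false,[(26,16),(17,27),(19,14),(15,18),(8,18),(19,9),(17,20),(21,16)],(11,8),.mon 1 0 0,[(3,26),(2,26),(0,26),(22,15),(25,26),(12,21),(0,8),(2,8),(3,8)]⟩),
  (.cc 0,⟨false,[(12,22),(23,13),(21,24),(25,20),(30,20),(21,31),(23,18),(19,22)],(29,30),.mon 1 0 0,[(7,12),(6,12),(0,12),(16,25),(15,12),(26,19),(0,30),(6,30),(7,30)]⟩),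
  (.ca 0,⟨false,[(22,12),(13,23),(15,10),(11,14),(4,14),(15,5),(13,16),(17,12)],(7,4),.mon 1 0 0,[(29,22),(28,22),(0,22),(18,11),(21,22),(8,17),(0,4),(28,4),(29,4)]⟩),
  (.cc 0,⟨false,[(16,26),(27,17),(25,28),(29,24),(4,24),(25,5),(27,22),(23,26)],(3,4),.mon 1 0 0,[(11,16),(10,16),(0,16),(20,29),(19,16),(30,23),(0,4),(10,4),(11,4)]⟩),
  (.ca 0,⟨false,[(18,8),(9,19),(11,6),(7,10),(30,10),(11,31),(9,12),(13,8)],(3,30),.mon 1 0 0,[(25,18),(24,18),(0,18),(14,7),(17,18),(4,13),(0,30),(24,30),(25,30)]⟩),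
  (.cc 0,⟨false,[(20,30),(31,21),(29,2),(3,28),(8,28),(29,9),(31,26),(27,30)],(7,8),.mon 1 0 0,[(15,20),(14,20),(0,20),(24,3),(23,20),(4,27),(0,8),(14,8),(15,8)]⟩),
  (.ca 0,⟨false,[(14,4),(5,15),(7,2),(3,6),(26,6),(7,27),(5,8),(9,4)],(29,26),.mon 1 0 0,[(21,14),(20,14),(0,14),(10,3),(13,14),(30,9),(0,26),(20,26),(21,26)]⟩),
  (.cc 0,⟨false,[(24,4),(5,25),(3,6),(7,2),(12,2),(3,13),(5,30),(31,4)],(11,12),.mon 1 0 0,[(19,24),(18,24),(0,24),(28,7),(27,24),(8,31),(0,12),(18,12),(19,12)]⟩),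
  (.ca 0,⟨false,[(10,30),(31,11),(3,28),(29,2),(22,2),(3,23),(31,4),(5,30)],(25,22),.mon 1 0 0,[(17,10),(16,10),(0,10),(6,29),(9,10),(26,5),(0,22),(16,22),(17,22)]⟩),
  (.cc 0,⟨false,[(28,8),(9,29),(7,10),(11,6),(16,6),(7,17),(9,4),(5,8)],(15,16),.mon 1 0 0,[(23,28),(22,28),(0,28),(2,11),(31,28),(12,5),(0,16),(22,16),(23,16)]⟩),
  (.ca 0,⟨false,[(6,26),(27,7),(29,24),(25,28),(18,28),(29,19),(27,30),(31,26)],(21,18),.mon 1 0 0,[(13,6),(12,6),(0,6),(2,25),(5,6),(22,31),(0,18),(12,18),(13,18)]⟩),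
  (.cc 0,⟨false,[(2,12),(13,3),(11,14),(15,10),(20,10),(11,21),(13,8),(9,12)],(19,20),.mon 1 0 0,[(27,2),(26,2),(0,2),(6,15),(5,2),(16,9),(0,20),(26,20),(27,20)]⟩),
  (.ca 0,⟨false,[(2,22),(23,3),(25,20),(21,24),(14,24),(25,15),(23,26),(27,22)],(17,14),.mon 1 0 0,[(9,2),(8,2),(0,2),(28,21),(31,2),(18,27),(0,14),(8,14),(9,14)]⟩),
  (.cc 0,⟨false,[(6,16),(17,7),(15,18),(19,14),(24,14),(15,25),(17,12),(13,16)],(23,24),.mon 1 0 0,[(31,6),(30,6),(0,6),(10,19),(9,6),(20,13),(0,24),(30,24),(31,24)]⟩),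
  (.rho 0,⟨false,[(6,16),(17,7),(15,18),(19,14),(24,14),(15,25),(17,12),(13,16)],(25,22),.mon 0 1 0,[(31,6),(30,6),(0,6),(10,19),(9,6),(20,13),(0,24),(30,24),(31,24)]⟩),
  (.comm 15 0 0,⟨false,[],(25,15),.mon 1 1 0,[(7,26),(25,26),(7,8),(25,8),(7,16),(25,16),(7,4),(25,4)]⟩),
  (.ca 18,⟨false,[(18,8),(9,19),(11,6),(7,10),(30,10),(11,31),(9,12),(13,8)],(25,18),.mon 1 0 0,[(24,18),(0,18),(14,7),(17,18),(3,30),(4,13),(0,30),(24,30),(25,30)]⟩),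
  (.cc 0,⟨false,[(20,30),(31,21),(29,2),(3,28),(8,28),(29,9),(31,26),(27,30)],(15,20),.mon 1 0 0,[(14,20),(0,20),(24,3),(23,20),(7,8),(4,27),(0,8),(14,8),(15,8)]⟩),
  (.ca 0,⟨false,[(14,4),(5,15),(7,2),(3,6),(26,6),(7,27),(5,8),(9,4)],(21,14),.mon 1 0 0,[(20,14),(0,14),(10,3),(13,14),(29,26),(30,9),(0,26),(20,26),(21,26)]⟩),
  (.cc 0,⟨false,[(24,4),(5,25),(3,6),(7,2),(12,2),(3,13),(5,30),(31,4)],(19,24),.mon 1 0 0,[(18,24),(0,24),(28,7),(27,24),(11,12),(8,31),(0,12),(18,12),(19,12)]⟩),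
  (.ca 0,⟨false,[(10,30),(31,11),(3,28),(29,2),(22,2),(3,23),(31,4),(5,30)],(17,10),.mon 1 0 0,[(16,10),(0,10),(6,29),(9,10),(25,22),(26,5),(0,22),(16,22),(17,22)]⟩),
  (.cc 0,⟨false,[(28,8),(9,29),(7,10),(11,6),(16,6),(7,17),(9,4),(5,8)],(23,28),.mon 1 0 0,[(22,28),(0,28),(2,11),(31,28),(15,16),(12,5),(0,16),(22,16),(23,16)]⟩),
  (.mul 21 0,⟨false,[(26,16),(17,27),(19,14),(15,18),(8,18),(19,9),(17,20),(21,16),(28,8),(9,29),(7,10),(11,6),(16,6),(7,17),(9,4),(5,8)],(11,8),.mon 1 0 0,[(3,26),(2,26),(0,26),(22,15),(25,26),(12,21),(0,8),(2,8),(3,8),(23,28),(22,28),(0,28),(2,11),(31,28),(15,16),(12,5),(0,16),(22,16),(23,16)]⟩),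
  (.sq 0 5,⟨false,[],(11,8),.mon 1 0 0,[(0,26),(0,8),(0,28),(15,16),(0,16),(27,26),(9,26),(10,26),(29,26),(17,26),(29,15),(22,16),(17,15),(2,8),(9,8),(29,8),(17,8),(10,8),(29,28),(17,28),(17,16)]⟩),
  (.cc 0,⟨false,[],(29,30),.mon 1 0 0,[(0,12),(0,30),(0,10),(25,22),(0,22),(13,12),(31,12),(28,12),(11,12),(23,12),(11,25),(16,22),(23,25),(6,30),(31,30),(11,30),(23,30),(28,30),(11,10),(23,10),(23,22)]⟩),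
  (.ca 0,⟨false,[],(7,4),.mon 1 0 0,[(0,22),(0,4),(0,24),(11,12),(0,12),(23,22),(5,22),(6,22),(25,22),(13,22),(25,11),(18,12),(13,11),(28,4),(5,4),(25,4),(13,4),(6,4),(25,24),(13,24),(13,12)]⟩),
  (.cc 0,⟨false,[],(3,4),.mon 1 0 0,[(0,16),(0,4),(0,14),(29,26),(0,26),(17,16),(5,16),(2,16),(15,16),(27,16),(15,29),(20,26),(27,29),(10,4),(5,4),(15,4),(27,4),(2,4),(15,14),(27,14),(27,26)]⟩),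
  (.ca 0,⟨false,[],(3,30),.mon 1 0 0,[(0,18),(0,30),(0,20),(7,8),(0,8),(19,18),(31,18),(2,18),(21,18),(9,18),(21,7),(14,8),(9,7),(24,30),(31,30),(21,30),(9,30),(2,30),(21,20),(9,20),(9,8)]⟩),
  (.cc 0,⟨false,[],(7,8),.mon 1 0 0,[(0,20),(0,8),(0,18),(3,30),(0,30),(21,20),(9,20),(6,20),(19,20),(31,20),(19,3),(24,30),(31,3),(14,8),(9,8),(19,8),(31,8),(6,8),(19,18),(31,18),(31,30)]⟩),
  (.ca 0,⟨false,[],(29,26),.mon 1 0 0,[(0,14),(0,26),(0,16),(3,4),(0,4),(15,14),(27,14),(28,14),(17,14),(5,14),(17,3),(10,4),(5,3),(20,26),(27,26),(17,26),(5,26),(28,26),(17,16),(5,16),(5,4)]⟩),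
  (.cc 0,⟨false,[],(11,12),.mon 1 0 0,[(0,24),(0,12),(0,22),(7,4),(0,4),(25,24),(13,24),(10,24),(23,24),(5,24),(23,7),(28,4),(5,7),(18,12),(13,12),(23,12),(5,12),(10,12),(23,22),(5,22),(5,4)]⟩),
  (.ca 0,⟨false,[],(25,22),.mon 1 0 0,[(0,10),(0,22),(0,12),(29,30),(0,30),(11,10),(23,10),(24,10),(13,10),(31,10),(13,29),(6,30),(31,29),(16,22),(23,22),(13,22),(31,22),(24,22),(13,12),(31,12),(31,30)]⟩),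
  (.cc 0,⟨false,[],(15,16),.mon 1 0 0,[(0,28),(0,16),(0,26),(11,8),(0,8),(29,28),(17,28),(14,28),(27,28),(9,28),(27,11),(2,8),(9,11),(22,16),(17,16),(27,16),(9,16),(14,16),(27,26),(9,26),(9,8)]⟩),
  (.comm 17 0 0,⟨false,[],(25,16),.mon 2 1 0,[]⟩),
  (.rho 0,⟨false,[],(17,24),.mon 1 2 0,[]⟩),
  (.ca 0,⟨false,[],(19,10),.mon 1 2 0,[]⟩),
  (.rho 0,⟨false,[],(11,18),.mon 2 1 0,[]⟩),
  (.cc 0,⟨false,[],(29,20),.mon 2 1 0,[]⟩),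
  (.rho 0,⟨false,[],(21,28),.mon 1 2 0,[]⟩),
  (.ca 0,⟨false,[],(15,6),.mon 1 2 0,[]⟩),
  (.rho 0,⟨false,[],(7,14),.mon 2 1 0,[]⟩),
  (.rho 0,⟨false,[],(15,6),.mon 1 2 0,[]⟩),
  (.comm 48 0 0,⟨false,[],(22,6),.mon 2 2 0,[]⟩),
  (.rho 0,⟨false,[],(7,23),.mon 2 2 0,[]⟩),
  (.ca 0,⟨false,[],(29,13),.mon 2 2 0,[]⟩),
  (.rho 0,⟨false,[],(12,28),.mon 2 2 0,[]⟩),
  (.cc 0,⟨false,[],(26,10),.mon 2 2 0,[]⟩),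
  (.rho 0,⟨false,[],(11,27),.mon 2 2 0,[]⟩),
  (.ca 0,⟨false,[],(25,9),.mon 2 2 0,[]⟩),
  (.rho 0,⟨false,[],(8,24),.mon 2 2 0,[]⟩),
  (.cc 0,⟨false,[],(30,14),.mon 2 2 0,[]⟩),
  (.rho 0,⟨false,[],(15,31),.mon 2 2 0,[]⟩),
  (.ca 0,⟨false,[],(21,5),.mon 2 2 0,[]⟩),
  (.rho 0,⟨false,[],(4,20),.mon 2 2 0,[]⟩),
  (.cc 0,⟨false,[],(4,18),.mon 2 2 0,[]⟩),
  (.cc 20,⟨false,[],(23,14),.mon 1 2 0,[]⟩),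
  (.rho 0,⟨false,[],(15,22),.mon 2 1 0,[]⟩),
  (.ca 0,⟨false,[],(21,12),.mon 2 1 0,[]⟩),
  (.rho 0,⟨false,[],(13,20),.mon 1 2 0,[]⟩),
  (.cc 0,⟨false,[],(27,18),.mon 1 2 0,[]⟩),
  (.rho 0,⟨false,[],(19,26),.mon 2 1 0,[]⟩),
  (.ca 0,⟨false,[],(17,8),.mon 2 1 0,[]⟩),
  (.rho 0,⟨false,[],(9,16),.mon 1 2 0,[]⟩),
  (.cc 0,⟨false,[],(31,22),.mon 1 2 0,[]⟩),
  (.rho 0,⟨false,[],(23,30),.mon 2 1 0,[]⟩),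
  (.rho 0,⟨false,[],(31,22),.mon 1 2 0,[]⟩),
  (.comm 72 0 0,⟨false,[],(31,15),.mon 2 2 0,[]⟩),
  (.rho 0,⟨false,[],(14,30),.mon 2 2 0,[]⟩),
  (.ca 0,⟨false,[],(20,4),.mon 2 2 0,[]⟩),
  (.rho 0,⟨false,[],(5,21),.mon 2 2 0,[]⟩),
  (.rho 0,⟨false,[],(20,4),.mon 2 2 0,[]⟩),
  (.comm 16 0 0,⟨false,[],(20,18),.mon 4 4 0,[]⟩),
  (.rho 0,⟨false,[],(19,21),.mon 4 4 0,[]⟩),
  (.cc 29,⟨false,[],(3,17),.mon 2 2 0,[]⟩),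
  (.ca 0,⟨false,[],(3,19),.mon 2 2 0,[]⟩),
  (.comm 2 0 0,⟨false,[],(3,21),.mon 6 6 0,[]⟩),
  (.cc 8,⟨false,[],(24,8),.mon 2 2 0,[]⟩),
  (.rho 0,⟨false,[],(9,25),.mon 2 2 0,[]⟩),
  (.ca 0,⟨false,[],(27,11),.mon 2 2 0,[]⟩),
  (.rho 0,⟨false,[],(10,26),.mon 2 2 0,[]⟩),
  (.cc 0,⟨false,[],(28,12),.mon 2 2 0,[]⟩),
  (.rho 0,⟨false,[],(13,29),.mon 2 2 0,[]⟩),
  (.ca 0,⟨false,[],(23,7),.mon 2 2 0,[]⟩),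
  (.rho 0,⟨false,[],(6,22),.mon 2 2 0,[]⟩),
  (.cc 0,⟨false,[],(2,16),.mon 2 2 0,[]⟩),
  (.ca 0,⟨false,[],(2,18),.mon 2 2 0,[]⟩),
  (.cc 0,⟨false,[],(6,20),.mon 2 2 0,[]⟩),
  (.rho 0,⟨false,[],(21,7),.mon 2 2 0,[]⟩),
  (.comm 12 0 0,⟨false,[],(3,7),.mon 8 8 0,[]⟩),
  (.cc 19,⟨false,[],(5,19),.mon 2 2 0,[]⟩),
  (.ca 0,⟨false,[],(31,17),.mon 2 2 0,[]⟩),
  (.rho 0,⟨false,[],(16,30),.mon 2 2 0,[]⟩),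
  (.cc 0,⟨false,[],(22,8),.mon 2 2 0,[]⟩),
  (.rho 0,⟨false,[],(9,23),.mon 2 2 0,[]⟩),
  (.ca 0,⟨false,[],(27,13),.mon 2 2 0,[]⟩),
  (.rho 0,⟨false,[],(12,26),.mon 2 2 0,[]⟩),
  (.cc 0,⟨false,[],(26,12),.mon 2 2 0,[]⟩),
  (.rho 0,⟨false,[],(13,27),.mon 2 2 0,[]⟩),
  (.ca 0,⟨false,[],(23,9),.mon 2 2 0,[]⟩),
  (.rho 0,⟨false,[],(8,22),.mon 2 2 0,[]⟩),
  (.rho 56,⟨false,[],(22,6),.mon 2 2 0,[]⟩),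
  (.comm 1 0 0,⟨false,[],(8,6),.mon 4 4 0,[]⟩),
  (.rho 0,⟨false,[],(7,9),.mon 4 4 0,[]⟩),
  (.comm 14 0 0,⟨false,[],(3,9),.mon 12 12 0,[]⟩),
  (.rho 14,⟨false,[],(18,4),.mon 2 2 0,[]⟩),
  (.comm 19 0 0,⟨false,[],(2,4),.mon 4 4 0,[]⟩),
  (.cc 31,⟨false,[],(7,21),.mon 2 2 0,[]⟩),
  (.rho 0,⟨false,[],(20,6),.mon 2 2 0,[]⟩),
  (.comm 54 0 0,⟨false,[],(4,6),.mon 4 4 0,[]⟩),
  (.rho 15,⟨false,[],(22,8),.mon 2 2 0,[]⟩),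
  (.comm 26 0 0,⟨false,[],(6,8),.mon 4 4 0,[]⟩),
  (.comm 2 0 0,⟨false,[],(4,8),.mon 8 8 0,[]⟩),
  (.comm 6 0 0,⟨false,[],(2,8),.mon 12 12 0,[]⟩),
  (.rho 0,⟨false,[],(9,3),.mon 12 12 0,[]⟩),
  (.sI 10 0,⟨true,[],(9,16),.mon 24 24 0,[]⟩),
  (.base 4,⟨false,[(26,16),(17,27),(19,14),(15,18),(8,18),(19,9),(17,20),(21,16)],(25,26),.mon 1 0 0,[(3,26),(2,26),(0,26),(22,15),(11,8),(12,21),(0,8),(2,8),(3,8)]⟩),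
  (.rho 70,⟨false,[],(29,13),.mon 2 2 0,[]⟩),
  (.comm 19 0 0,⟨false,[],(29,27),.mon 4 4 0,[]⟩),
  (.rho 0,⟨false,[],(26,28),.mon 4 4 0,[]⟩),
  (.ca 12,⟨false,[],(29,15),.mon 2 2 0,[]⟩),
  (.rho 0,⟨false,[],(14,28),.mon 2 2 0,[]⟩),
  (.cc 0,⟨false,[],(24,10),.mon 2 2 0,[]⟩),
  (.rho 0,⟨false,[],(11,25),.mon 2 2 0,[]⟩),
  (.rho 43,⟨false,[],(27,11),.mon 2 2 0,[]⟩),
  (.comm 1 0 0,⟨false,[],(27,25),.mon 4 4 0,[]⟩),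
  (.rho 0,⟨false,[],(24,26),.mon 4 4 0,[]⟩),
  (.comm 7 0 0,⟨false,[],(24,28),.mon 8 8 0,[]⟩),
  (.rho 0,⟨false,[],(29,25),.mon 8 8 0,[]⟩),
  (.comm 12 0 0,⟨false,[],(29,26),.mon 9 8 0,[]⟩),
  (.rho 0,⟨false,[],(27,28),.mon 8 9 0,[]⟩),
  (.comm 136 78 0,⟨false,[],(22,31),.mon 3 2 0,[]⟩),
  (.ca 0,⟨false,[],(12,5),.mon 3 2 0,[]⟩),
  (.rho 0,⟨false,[],(4,13),.mon 2 3 0,[]⟩),
  (.cc 0,⟨false,[],(4,27),.mon 2 3 0,[]⟩),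
  (.comm 4 0 0,⟨false,[],(4,28),.mon 10 12 0,[]⟩),
  (.ca 0,⟨false,[],(30,6),.mon 10 12 0,[]⟩),
  (.rho 0,⟨false,[],(7,31),.mon 12 10 0,[]⟩),
  (.cc 0,⟨false,[],(3,9),.mon 12 10 0,[]⟩),
  (.rho 25,⟨false,[],(9,3),.mon 12 12 0,[]⟩),
  (.sI 1 0,⟨true,[],(9,16),.mon 24 22 0,[]⟩),
  (.sN 0,⟨true,[],(9,16),.mon (-24) (-22) 0,[]⟩),
  (.sA 26 0,⟨true,[],(9,16),.mon 0 2 0,[]⟩),
  (.sF 0 79,⟨false,[],(9,16),.all,[]⟩),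
  (.rho 69,⟨false,[],(16,2),.mon 2 2 0,[]⟩),
  (.comm 58 0 0,⟨false,[],(16,18),.mon 4 4 0,[]⟩),
  (.rho 55,⟨false,[],(18,4),.mon 2 2 0,[]⟩),
  (.comm 1 0 0,⟨false,[],(16,4),.mon 6 6 0,[]⟩),
  (.rho 0,⟨false,[],(5,17),.mon 6 6 0,[]⟩),
  (.rho 0,⟨false,[],(16,4),.mon 6 6 0,[]⟩),
  (.comm 6 0 0,⟨false,[],(9,4),.all,[]⟩),
  (.cc 19,⟨false,[],(16,9),.mon 3 2 0,[]⟩),
  (.rho 0,⟨false,[],(8,17),.mon 2 3 0,[]⟩),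
  (.rho 67,⟨false,[],(17,3),.mon 2 2 0,[]⟩),
  (.comm 1 0 0,⟨false,[],(8,3),.mon 4 5 0,[]⟩),
  (.rho 0,⟨false,[],(2,9),.mon 5 4 0,[]⟩),
  (.comm 5 0 0,⟨false,[],(2,4),.all,[]⟩),
  (.rho 64,⟨false,[],(31,17),.mon 2 2 0,[]⟩),
  (.comm 105 0 0,⟨false,[],(15,17),.mon 4 4 0,[]⟩),
  (.comm 164 0 0,⟨false,[],(22,17),.mon 5 4 0,[]⟩),
  (.rho 0,⟨false,[],(16,23),.mon 4 5 0,[]⟩),
  (.rho 53,⟨false,[],(20,6),.mon 2 2 0,[]⟩),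
  (.comm 77 0 0,⟨false,[],(20,22),.mon 4 4 0,[]⟩),
  (.comm 0 108 0,⟨false,[],(4,22),.mon 6 6 0,[]⟩),
  (.rho 0,⟨false,[],(23,5),.mon 6 6 0,[]⟩),
  (.comm 4 0 0,⟨false,[],(16,5),.mon 10 11 0,[]⟩),
  (.rho 0,⟨false,[],(4,17),.mon 11 10 0,[]⟩),
  (.rho 0,⟨false,[],(16,5),.mon 10 11 0,[]⟩),
  (.comm 24 0 0,⟨false,[],(9,5),.all,[]⟩),
  (.comm 0 13 0,⟨false,[],(2,5),.all,[]⟩),
  (.rho 95,⟨false,[],(16,2),.mon 2 2 0,[]⟩),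
  (.comm 27 0 0,⟨false,[],(9,2),.all,[]⟩),
  (.rho 101,⟨false,[],(20,4),.mon 2 2 0,[]⟩),
  (.comm 85 0 0,⟨false,[],(6,4),.mon 4 4 0,[]⟩),
  (.rho 0,⟨false,[],(5,7),.mon 4 4 0,[]⟩),
  (.comm 0 71 0,⟨false,[],(5,9),.mon 8 8 0,[]⟩),
  (.comm 4 0 0,⟨false,[],(5,2),.all,[]⟩),
  (.comm 50 126 0,⟨false,[],(8,26),.mon 6 6 0,[]⟩),
  (.rho 79,⟨false,[],(26,12),.mon 2 2 0,[]⟩),
  (.comm 1 0 0,⟨false,[],(8,12),.mon 8 8 0,[]⟩),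
  (.rho 0,⟨false,[],(13,9),.mon 8 8 0,[]⟩),
  (.comm 47 0 0,⟨false,[],(4,9),.mon 10 11 0,[]⟩),
  (.comm 10 0 0,⟨false,[],(4,2),.all,[]⟩),
  (.comm 39 79 0,⟨false,[],(7,16),.all,[]⟩),
  (.rho 17,⟨false,[],(16,5),.mon 10 11 0,[]⟩),
  (.comm 1 0 0,⟨false,[],(7,5),.all,[]⟩),
  (.comm 191 101 0,⟨false,[],(6,15),.mon 3 2 0,[]⟩),
  (.comm 0 28 0,⟨false,[],(6,17),.mon 7 6 0,[]⟩),
  (.rho 0,⟨false,[],(16,7),.mon 6 7 0,[]⟩),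
  (.comm 45 0 0,⟨false,[],(9,7),.all,[]⟩),
  (.comm 0 8 0,⟨false,[],(4,7),.all,[]⟩),
  (.rho 42,⟨false,[],(16,4),.mon 6 6 0,[]⟩),
  (.comm 8 0 0,⟨false,[],(7,4),.all,[]⟩),
  (.ca 69,⟨false,[],(25,11),.mon 2 2 0,[]⟩),
  (.rho 0,⟨false,[],(10,24),.mon 2 2 0,[]⟩),
  (.cc 0,⟨false,[],(28,14),.mon 2 2 0,[]⟩),
  (.rho 0,⟨false,[],(15,29),.mon 2 2 0,[]⟩),
  (.comm 202 0 0,⟨false,[],(22,29),.mon 3 2 0,[]⟩),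
  (.rho 119,⟨false,[],(24,8),.mon 2 2 0,[]⟩),
  (.comm 4 0 0,⟨false,[],(10,8),.mon 4 4 0,[]⟩),
  (.rho 0,⟨false,[],(9,11),.mon 4 4 0,[]⟩),
  (.comm 0 152 0,⟨false,[],(9,27),.mon 6 6 0,[]⟩),
  (.rho 101,⟨false,[],(23,9),.mon 2 2 0,[]⟩),
  (.comm 1 0 0,⟨false,[],(23,27),.mon 8 8 0,[]⟩),
  (.rho 0,⟨false,[],(26,22),.mon 8 8 0,[]⟩),
  (.comm 7 0 0,⟨false,[],(26,29),.mon 11 10 0,[]⟩),
  (.ca 0,⟨false,[],(8,7),.mon 11 10 0,[]⟩),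
  (.rho 0,⟨false,[],(6,9),.mon 10 11 0,[]⟩),
  (.comm 57 0 0,⟨false,[],(6,4),.all,[]⟩),
  (.comm 65 53 0,⟨false,[],(2,16),.all,[]⟩),
  (.comm 93 86 0,⟨false,[],(11,26),.mon 3 2 0,[]⟩),
  (.rho 164,⟨false,[],(29,13),.mon 2 2 0,[]⟩),
  (.comm 15 0 0,⟨false,[],(15,13),.mon 4 4 0,[]⟩),
  (.rho 0,⟨false,[],(12,14),.mon 4 4 0,[]⟩),
  (.rho 0,⟨false,[],(15,13),.mon 4 4 0,[]⟩),
  (.comm 220 0 0,⟨false,[],(22,13),.mon 5 4 0,[]⟩),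
  (.rho 0,⟨false,[],(12,23),.mon 4 5 0,[]⟩),
  (.cc 0,⟨false,[],(26,17),.mon 4 5 0,[]⟩),
  (.rho 0,⟨false,[],(16,27),.mon 5 4 0,[]⟩),
  (.rho 0,⟨false,[],(26,17),.mon 4 5 0,[]⟩),
  (.comm 9 0 0,⟨false,[],(11,17),.mon 7 7 0,[]⟩),
  (.cc 34,⟨false,[],(2,25),.mon 3 2 0,[]⟩),
  (.ca 0,⟨false,[],(2,11),.mon 3 2 0,[]⟩),
  (.comm 2 0 0,⟨false,[],(2,17),.mon 10 9 0,[]⟩),
  (.rho 0,⟨false,[],(16,3),.mon 9 10 0,[]⟩),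
  (.comm 15 0 1,⟨false,[],(2,3),.all,[]⟩),
  (.comm 54 121 1,⟨false,[],(3,2),.all,[]⟩),
  (.base 2,⟨false,[(26,16),(17,27),(19,14),(15,18),(8,18),(19,9),(17,20),(21,16)],(0,26),.mon 1 0 0,[(3,26),(2,26),(22,15),(25,26),(11,8),(12,21),(0,8),(2,8),(3,8)]⟩),
  (.comm 30 127 0,⟨false,[],(8,29),.mon 5 4 0,[]⟩),
  (.rho 109,⟨false,[],(29,27),.mon 4 4 0,[]⟩),
  (.comm 1 0 0,⟨false,[],(8,27),.mon 9 8 0,[]⟩),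
  (.rho 0,⟨false,[],(26,9),.mon 8 9 0,[]⟩),
  (.comm 63 0 0,⟨false,[],(26,5),.all,[]⟩),
  (.comm 5 0 4,⟨false,[],(0,5),.all,[(27,5),(3,5),(2,5),(25,5),(4,26),(4,8),(4,5)]⟩),
  (.ca 90,⟨false,[],(27,18),.all,[]⟩),
  (.comm 240 72 0,⟨false,[],(20,15),.mon 5 4 0,[]⟩),
  (.rho 0,⟨false,[],(14,21),.mon 4 5 0,[]⟩),
  (.cc 0,⟨false,[],(24,19),.mon 4 5 0,[]⟩),
  (.rho 0,⟨false,[],(18,25),.mon 5 4 0,[]⟩),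
  (.comm 122 0 0,⟨false,[],(18,26),.mon 6 4 0,[]⟩),
  (.rho 105,⟨false,[],(26,5),.mon 3 2 0,[]⟩),
  (.comm 1 0 0,⟨false,[],(18,5),.mon 9 6 0,[]⟩),
  (.rho 0,⟨false,[],(4,19),.mon 6 9 0,[]⟩),
  (.rho 0,⟨false,[],(18,5),.mon 9 6 0,[]⟩),
  (.comm 9 0 0,⟨false,[],(27,5),.all,[]⟩),
  (.rho 194,⟨false,[],(25,9),.mon 2 2 0,[]⟩),
  (.comm 102 0 0,⟨false,[],(25,16),.all,[]⟩),
  (.rho 80,⟨false,[],(16,5),.mon 10 11 0,[]⟩),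
  (.comm 1 0 0,⟨false,[],(25,5),.all,[]⟩),
  (.comm 80 67 1,⟨false,[],(4,5),.all,[]⟩),
  (.drop 16 [5,67,80,1,5,81,0],⟨false,[],(0,5),.all,[]⟩),
  (.rho 94,⟨false,[],(5,3),.all,[]⟩),
  (.spec 0,⟨false,[],(5,3),.mon 0 0 0,[]⟩),
  (.comm 2 0 2,⟨false,[],(0,3),.all,[(4,3)]⟩),
  (.drop 0 [84],⟨false,[],(0,3),.all,[]⟩),
  (.spec 78,⟨false,[],(5,2),.mon 0 0 0,[]⟩),
  (.comm 5 0 2,⟨false,[],(0,2),.all,[(4,2)]⟩),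
  (.drop 0 [74],⟨false,[],(0,2),.all,[]⟩)],
  [(101,101),(88,88),(81,81),(75,75),(75,75),(88,88),(81,81),(101,101),(72,72),(67,67),(65,65),(49,49),(49,49),(67,67),(65,65),(72,72),(32,32),(31,31),(3,32),(0,31)]⟩ = true := by decide +kernel

theorem cXo16 : Fam.chkP .X 16 1 true false true false true
  ⟨[],[(33,7),(13,10)],[(5,31),(30,4),(25,26),(27,24)],[((9,4),some (1,0,0)),((24,18),some (1,0,0)),((6,17),some (0,0,0))],1,(30,0),(1,7),(30,7),(30,0),(1,0,0),[(29,32),(12,18),(30,21),(6,0),(6,31)],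
  [(.base 4,⟨false,[(5,31),(30,4),(25,26),(27,24),(33,7),(6,32),(13,10),(11,12)],(29,32),.mon 1 0 0,[(6,31),(6,0),(30,21),(12,18),(9,4),(24,18),(6,17),(30,0)]⟩),
  (.base 3,⟨false,[(5,31),(30,4),(25,26),(27,24),(33,7),(6,32),(13,10),(11,12)],(12,18),.mon 1 0 0,[(6,31),(6,0),(30,21),(29,32),(9,4),(24,18),(6,17),(30,0)]⟩),
  (.base 1,⟨false,[(5,31),(30,4),(25,26),(27,24),(33,7),(6,32),(13,10),(11,12)],(6,0),.mon 1 0 0,[(6,31),(30,21),(12,18),(29,32),(9,4),(24,18),(6,17),(30,0)]⟩),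
  (.cc 0,⟨false,[(5,11),(10,4),(17,14),(15,16),(9,3),(2,8),(29,30),(31,28)],(2,0),.mon 1 0 0,[(2,11),(10,21),(28,22),(13,8),(33,4),(16,22),(2,25),(10,0)]⟩),
  (.mul 3 0,⟨false,[(5,31),(30,4),(25,26),(27,24),(33,7),(6,32),(13,10),(11,12),(5,11),(10,4),(17,14),(15,16),(9,3),(2,8),(29,30),(31,28)],(29,32),.mon 1 0 0,[(6,31),(6,0),(30,21),(12,18),(9,4),(24,18),(6,17),(30,0),(2,0),(2,11),(10,21),(28,22),(13,8),(33,4),(16,22),(2,25),(10,0)]⟩),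
  (.sq 0 9,⟨false,[],(29,32),.mon 1 0 0,[(6,0),(30,21),(6,17),(30,0),(2,0),(10,21),(13,8),(2,25),(10,0),(6,7),(6,31),(6,3),(6,11),(9,18),(23,32),(30,31),(30,3),(30,11),(2,3),(2,11),(10,11)]⟩),
  (.ca 2,⟨false,[(33,27),(26,32),(21,22),(23,20),(29,3),(2,28),(9,6),(7,8)],(2,0),.mon 1 0 0,[(2,27),(26,17),(8,14),(25,28),(5,32),(20,14),(2,13),(26,0)]⟩),
  (.cc 0,⟨false,[(9,15),(14,8),(21,18),(19,20),(13,7),(6,12),(33,2),(3,32)],(6,0),.mon 1 0 0,[(6,15),(14,25),(32,26),(17,12),(5,8),(20,26),(6,29),(14,0)]⟩),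
  (.ko 2 0 7,⟨false,[],(29,32),.mon 1 0 0,[(6,0),(30,21),(6,17),(2,0),(10,21),(2,25),(23,32),(29,26),(6,32),(6,7),(6,31),(6,3),(6,11),(6,15),(6,12),(30,31),(30,3),(30,11),(30,15),(2,3),(2,11),(2,15),(10,11),(10,15),(23,26),(6,26)]⟩),
  (.base 7,⟨false,[(5,31),(30,4),(25,26),(27,24),(33,7),(6,32),(13,10),(11,12)],(6,17),.mon 0 0 0,[(6,31),(6,0),(30,21),(12,18),(29,32),(9,4),(24,18),(30,0)]⟩),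
  (.mul 0 6,⟨false,[(5,31),(30,4),(25,26),(27,24),(33,7),(6,32),(13,10),(11,12),(5,11),(10,4),(17,14),(15,16),(9,3),(2,8),(29,30),(31,28)],(6,17),.mon 0 0 0,[(6,31),(6,0),(30,21),(12,18),(29,32),(9,4),(24,18),(30,0),(2,0),(2,11),(10,21),(28,22),(13,8),(33,4),(16,22),(2,25),(10,0)]⟩),
  (.sq 0 9,⟨false,[],(6,17),.mon 0 0 0,[(6,0),(30,21),(29,32),(30,0),(2,0),(10,21),(13,8),(2,25),(10,0),(6,7),(6,31),(6,3),(6,11),(9,18),(23,32),(30,31),(30,3),(30,11),(2,3),(2,11),(10,11)]⟩),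
  (.cc 0,⟨false,[],(2,25),.mon 0 0 0,[(2,0),(10,21),(13,8),(10,0),(6,0),(30,21),(29,32),(6,17),(30,0),(2,3),(2,11),(2,7),(2,31),(33,22),(19,8),(10,11),(10,7),(10,31),(6,7),(6,31),(30,31)]⟩),
  (.ca 0,⟨false,[],(2,13),.mon 0 0 0,[(2,0),(26,17),(25,28),(26,0),(30,0),(6,17),(9,4),(30,21),(6,0),(2,3),(2,27),(2,31),(2,7),(5,14),(19,28),(26,27),(26,31),(26,7),(30,31),(30,7),(6,7)]⟩),
  (.cc 0,⟨false,[],(6,29),.mon 0 0 0,[(6,0),(14,25),(17,12),(14,0),(10,0),(2,25),(33,4),(10,21),(2,0),(6,7),(6,15),(6,11),(6,3),(5,26),(23,12),(14,15),(14,11),(14,3),(10,11),(10,3),(2,3)]⟩),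
  (.comm 6 0 0,⟨false,[],(6,32),.mon 1 0 0,[(6,7),(6,15),(6,11),(6,3),(6,12),(2,15),(2,11),(2,3),(6,26)]⟩),
  (.cc 4,⟨false,[],(2,25),.mon 0 0 0,[(2,0),(10,21),(13,8),(10,0),(6,0),(30,21),(29,32),(6,17),(30,0),(2,3),(2,11),(2,7),(2,31),(33,22),(19,8),(10,11),(10,7),(10,31),(6,7),(6,31),(30,31)]⟩),
  (.ca 0,⟨false,[],(2,13),.mon 0 0 0,[(2,0),(26,17),(25,28),(26,0),(30,0),(6,17),(9,4),(30,21),(6,0),(2,3),(2,27),(2,31),(2,7),(5,14),(19,28),(26,27),(26,31),(26,7),(30,31),(30,7),(6,7)]⟩),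
  (.cc 0,⟨false,[],(6,29),.mon 0 0 0,[(6,0),(14,25),(17,12),(14,0),(10,0),(2,25),(33,4),(10,21),(2,0),(6,7),(6,15),(6,11),(6,3),(5,26),(23,12),(14,15),(14,11),(14,3),(10,11),(10,3),(2,3)]⟩),
  (.ca 0,⟨false,[],(30,9),.mon 0 0 0,[(30,0),(22,13),(21,24),(22,0),(26,0),(2,13),(5,32),(26,17),(2,0),(30,31),(30,23),(30,27),(30,3),(33,10),(15,24),(22,23),(22,27),(22,3),(26,27),(26,3),(2,3)]⟩),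
  (.cc 0,⟨false,[],(10,33),.mon 0 0 0,[(10,0),(18,29),(21,16),(18,0),(14,0),(6,29),(5,8),(14,25),(6,0),(10,11),(10,19),(10,15),(10,7),(9,30),(27,16),(18,19),(18,15),(18,7),(14,15),(14,7),(6,7)]⟩),
  (.rho 0,⟨false,[],(32,11),.mon 0 0 0,[(10,0),(18,29),(21,16),(18,0),(14,0),(6,29),(5,8),(14,25),(6,0),(10,11),(10,19),(10,15),(10,7),(9,30),(27,16),(18,19),(18,15),(18,7),(14,15),(14,7),(6,7)]⟩),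
  (.comm 6 0 0,⟨false,[],(6,11),.mon 1 0 0,[]⟩),
  (.ca 0,⟨false,[],(30,27),.mon 1 0 0,[]⟩),
  (.rho 0,⟨false,[],(26,31),.mon 0 1 0,[]⟩),
  (.cc 0,⟨false,[],(14,11),.mon 0 1 0,[]⟩),
  (.rho 0,⟨false,[],(10,15),.mon 1 0 0,[]⟩),
  (.ca 0,⟨false,[],(26,23),.mon 1 0 0,[]⟩),
  (.rho 0,⟨false,[],(22,27),.mon 0 1 0,[]⟩),
  (.cc 0,⟨false,[],(18,15),.mon 0 1 0,[]⟩),
  (.rho 0,⟨false,[],(14,19),.mon 1 0 0,[]⟩),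
  (.ca 0,⟨false,[],(22,19),.mon 1 0 0,[]⟩),
  (.rho 0,⟨false,[],(18,23),.mon 0 1 0,[]⟩),
  (.comm 31 0 0,⟨false,[],(12,23),.mon 1 1 0,[(24,23)]⟩),
  (.ko 0 26 0,⟨false,[],(12,23),.mon 1 1 0,[(17,23)]⟩),
  (.ca 27,⟨false,[(29,23),(22,28),(17,18),(19,16),(25,31),(30,24),(5,2),(3,4)],(30,0),.mon 1 0 0,[(30,23),(22,13),(4,10),(21,24),(33,28),(16,10),(30,9),(22,0)]⟩),
  (.cc 0,⟨false,[(13,19),(18,12),(25,22),(23,24),(17,11),(10,16),(5,6),(7,4)],(10,0),.mon 1 0 0,[(10,19),(18,29),(4,30),(21,16),(9,12),(24,30),(10,33),(18,0)]⟩),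
  (.ca 0,⟨false,[(25,19),(18,24),(13,14),(15,12),(21,27),(26,20),(33,30),(31,32)],(26,0),.mon 1 0 0,[(26,19),(18,9),(32,6),(17,20),(29,24),(12,6),(26,5),(18,0)]⟩),
  (.ko 3 0 0,⟨false,[],(12,23),.mon 1 1 0,[]⟩),
  (.cc 0,⟨false,[],(28,19),.mon 1 1 0,[]⟩),
  (.rho 0,⟨false,[],(18,29),.mon 1 1 0,[]⟩),
  (.ca 0,⟨false,[],(18,9),.mon 1 1 0,[]⟩),
  (.rho 0,⟨false,[],(8,19),.mon 1 1 0,[]⟩),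
  (.cc 0,⟨false,[],(32,23),.mon 1 1 0,[]⟩),
  (.rho 0,⟨false,[],(22,33),.mon 1 1 0,[]⟩),
  (.rho 0,⟨false,[],(32,23),.mon 1 1 0,[]⟩),
  (.comm 45 0 0,⟨false,[],(29,23),.mon 2 1 0,[]⟩),
  (.rho 0,⟨false,[],(22,28),.mon 1 2 0,[]⟩),
  (.ca 0,⟨false,[],(14,8),.mon 1 2 0,[]⟩),
  (.rho 0,⟨false,[],(9,15),.mon 2 1 0,[]⟩),
  (.cc 0,⟨false,[],(33,27),.mon 2 1 0,[]⟩),
  (.rho 0,⟨false,[],(26,32),.mon 1 2 0,[]⟩),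
  (.ca 0,⟨false,[],(10,4),.mon 1 2 0,[]⟩),
  (.rho 0,⟨false,[],(5,11),.mon 2 1 0,[]⟩),
  (.cc 0,⟨false,[],(5,31),.mon 2 1 0,[]⟩),
  (.ca 0,⟨false,[],(33,7),.mon 2 1 0,[]⟩),
  (.rho 0,⟨false,[],(6,32),.mon 1 2 0,[]⟩),
  (.cc 0,⟨false,[],(2,8),.mon 1 2 0,[]⟩),
  (.comm 0 15 0,⟨false,[],(2,19),.mon 2 3 0,[]⟩),
  (.ca 14,⟨false,[],(14,5),.mon 1 1 0,[]⟩),
  (.rho 0,⟨false,[],(4,15),.mon 1 1 0,[]⟩),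
  (.cc 0,⟨false,[],(4,27),.mon 1 1 0,[]⟩),
  (.ca 0,⟨false,[],(32,11),.mon 1 1 0,[]⟩),
  (.rho 0,⟨false,[],(10,33),.mon 1 1 0,[]⟩),
  (.rho 0,⟨false,[],(32,11),.mon 1 1 0,[]⟩),
  (.comm 64 0 0,⟨false,[],(29,11),.mon 2 1 0,[]⟩),
  (.rho 0,⟨false,[],(10,28),.mon 1 2 0,[]⟩),
  (.ca 0,⟨false,[],(26,8),.mon 1 2 0,[]⟩),
  (.rho 0,⟨false,[],(9,27),.mon 2 1 0,[]⟩),
  (.cc 0,⟨false,[],(33,15),.mon 2 1 0,[]⟩),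
  (.rho 0,⟨false,[],(14,32),.mon 1 2 0,[]⟩),
  (.ca 0,⟨false,[],(22,4),.mon 1 2 0,[]⟩),
  (.rho 0,⟨false,[],(5,23),.mon 2 1 0,[]⟩),
  (.cc 0,⟨false,[],(5,19),.mon 2 1 0,[]⟩),
  (.ca 0,⟨false,[],(33,19),.mon 2 1 0,[]⟩),
  (.rho 0,⟨false,[],(18,32),.mon 1 2 0,[]⟩),
  (.cc 0,⟨false,[],(22,8),.mon 1 2 0,[]⟩),
  (.rho 0,⟨false,[],(9,23),.mon 2 1 0,[]⟩),
  (.ca 0,⟨false,[],(29,15),.mon 2 1 0,[]⟩),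
  (.rho 0,⟨false,[],(14,28),.mon 1 2 0,[]⟩),
  (.cc 0,⟨false,[],(26,12),.mon 1 2 0,[]⟩),
  (.rho 0,⟨false,[],(13,27),.mon 2 1 0,[]⟩),
  (.rho 0,⟨false,[],(26,12),.mon 1 2 0,[]⟩),
  (.comm 81 0 0,⟨false,[],(26,18),.mon 2 2 0,[]⟩),
  (.rho 0,⟨false,[],(19,27),.mon 2 2 0,[]⟩),
  (.cc 0,⟨false,[],(23,15),.mon 2 2 0,[]⟩),
  (.rho 0,⟨false,[],(14,22),.mon 2 2 0,[]⟩),
  (.ca 0,⟨false,[],(22,14),.mon 2 2 0,[]⟩),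
  (.rho 0,⟨false,[],(15,23),.mon 2 2 0,[]⟩),
  (.cc 0,⟨false,[],(27,19),.mon 2 2 0,[]⟩),
  (.rho 0,⟨false,[],(18,26),.mon 2 2 0,[]⟩),
  (.ca 0,⟨false,[],(18,10),.mon 2 2 0,[]⟩),
  (.rho 0,⟨false,[],(11,19),.mon 2 2 0,[]⟩),
  (.rho 0,⟨false,[],(18,10),.mon 2 2 0,[]⟩),
  (.comm 92 0 0,⟨false,[],(12,10),.mon 3 2 0,[(24,10)]⟩),
  (.ko 0 87 0,⟨false,[],(12,10),.mon 3 2 0,[(17,10)]⟩),
  (.ko 0 58 0,⟨false,[],(12,10),.mon 3 2 0,[]⟩),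
  (.rho 0,⟨false,[],(11,13),.mon 2 3 0,[]⟩),
  (.cc 0,⟨false,[],(31,29),.mon 2 3 0,[]⟩),
  (.rho 0,⟨false,[],(28,30),.mon 3 2 0,[]⟩),
  (.cc 33,⟨false,[],(30,12),.mon 1 2 0,[]⟩),
  (.rho 0,⟨false,[],(13,31),.mon 2 1 0,[]⟩),
  (.rho 0,⟨false,[],(30,12),.mon 1 2 0,[]⟩),
  (.comm 101 0 0,⟨false,[],(30,18),.mon 2 2 0,[]⟩),
  (.rho 0,⟨false,[],(19,31),.mon 2 2 0,[]⟩),
  (.rho 0,⟨false,[],(30,18),.mon 2 2 0,[]⟩),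
  (.comm 6 0 0,⟨false,[],(28,18),.mon 5 4 0,[]⟩),
  (.rho 0,⟨false,[],(19,29),.mon 4 5 0,[]⟩),
  (.comm 107 0 0,⟨false,[],(19,32),.mon 5 5 0,[]⟩),
  (.ca 9,⟨false,[],(8,6),.mon 3 2 0,[]⟩),
  (.rho 0,⟨false,[],(7,9),.mon 2 3 0,[]⟩),
  (.cc 0,⟨false,[],(3,33),.mon 2 3 0,[]⟩),
  (.rho 0,⟨false,[],(32,2),.mon 3 2 0,[]⟩),
  (.comm 4 0 0,⟨false,[],(19,2),.mon 8 7 0,[]⟩),
  (.rho 0,⟨false,[],(3,18),.mon 7 8 0,[]⟩),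
  (.rho 0,⟨false,[],(19,2),.mon 8 7 0,[]⟩),
  (.sI 57 0,⟨true,[],(19,31),.mon 10 10 0,[]⟩),
  (.base 2,⟨false,[(5,31),(30,4),(25,26),(27,24),(33,7),(6,32),(13,10),(11,12)],(30,21),.mon 0 0 0,[(6,31),(6,0),(12,18),(29,32),(9,4),(24,18),(6,17),(30,0)]⟩),
  (.cc 70,⟨false,[],(18,12),.mon 1 2 0,[]⟩),
  (.rho 0,⟨false,[],(13,19),.mon 2 1 0,[]⟩),
  (.ca 0,⟨false,[],(25,19),.mon 2 1 0,[]⟩),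
  (.rho 0,⟨false,[],(18,24),.mon 1 2 0,[]⟩),
  (.cc 0,⟨false,[],(22,16),.mon 1 2 0,[]⟩),
  (.rho 0,⟨false,[],(17,23),.mon 2 1 0,[]⟩),
  (.ca 0,⟨false,[],(21,15),.mon 2 1 0,[]⟩),
  (.rho 0,⟨false,[],(14,20),.mon 1 2 0,[]⟩),
  (.rho 0,⟨false,[],(21,15),.mon 2 1 0,[]⟩),
  (.comm 9 0 0,⟨false,[],(30,15),.mon 2 1 0,[]⟩),
  (.rho 0,⟨false,[],(14,31),.mon 1 2 0,[]⟩),
  (.ca 0,⟨false,[],(22,7),.mon 1 2 0,[]⟩),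
  (.rho 0,⟨false,[],(6,23),.mon 2 1 0,[]⟩),
  (.cc 0,⟨false,[],(2,19),.mon 2 1 0,[]⟩),
  (.rho 17,⟨false,[],(19,2),.mon 8 7 0,[]⟩),
  (.sI 1 0,⟨true,[],(19,31),.mon 10 8 0,[]⟩),
  (.sN 0,⟨true,[],(19,31),.mon (-10) (-8) 0,[]⟩),
  (.sA 18 0,⟨true,[],(19,31),.mon 0 2 0,[]⟩),
  (.sF 0 31,⟨false,[],(19,31),.all,[]⟩),
  (.ca 98,⟨false,[],(24,15),.mon 1 1 0,[]⟩),
  (.rho 0,⟨false,[],(14,25),.mon 1 1 0,[]⟩),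
  (.cc 0,⟨false,[],(26,17),.mon 1 1 0,[]⟩),
  (.rho 0,⟨false,[],(16,27),.mon 1 1 0,[]⟩),
  (.ca 0,⟨false,[],(20,11),.mon 1 1 0,[]⟩),
  (.rho 0,⟨false,[],(10,21),.mon 1 1 0,[]⟩),
  (.cc 0,⟨false,[],(30,21),.mon 1 1 0,[]⟩),
  (.rho 0,⟨false,[],(20,31),.mon 1 1 0,[]⟩),
  (.ca 0,⟨false,[],(16,7),.mon 1 1 0,[]⟩),
  (.rho 0,⟨false,[],(6,17),.mon 1 1 0,[]⟩),
  (.cc 0,⟨false,[],(2,25),.mon 1 1 0,[]⟩),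
  (.ca 0,⟨false,[],(2,13),.mon 1 1 0,[]⟩),
  (.comm 29 0 0,⟨false,[],(2,19),.mon 3 2 0,[]⟩),
  (.comm 13 0 0,⟨false,[],(2,31),.all,[]⟩),
  (.cc 2,⟨false,[],(6,29),.mon 1 1 0,[]⟩),
  (.comm 151 0 0,⟨false,[],(6,32),.mon 2 1 0,[]⟩),
  (.cc 0,⟨false,[],(2,8),.mon 2 1 0,[]⟩),
  (.ca 0,⟨false,[],(2,28),.mon 2 1 0,[]⟩),
  (.cc 0,⟨false,[],(6,12),.mon 2 1 0,[]⟩),
  (.comm 154 0 0,⟨false,[],(6,18),.mon 3 1 0,[]⟩),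
  (.cc 0,⟨false,[],(2,22),.mon 3 1 0,[]⟩),
  (.rho 85,⟨false,[],(22,4),.mon 1 2 0,[]⟩),
  (.comm 1 0 0,⟨false,[],(2,4),.mon 4 3 0,[]⟩),
  (.rho 0,⟨false,[],(5,3),.mon 3 4 0,[]⟩),
  (.comm 49 0 0,⟨false,[],(5,33),.mon 5 7 0,[]⟩),
  (.rho 0,⟨false,[],(32,4),.mon 7 5 0,[]⟩),
  (.comm 162 0 0,⟨false,[],(29,4),.mon 8 5 0,[]⟩),
  (.rho 0,⟨false,[],(5,28),.mon 5 8 0,[]⟩),
  (.comm 0 65 0,⟨false,[],(5,30),.mon 8 10 0,[]⟩),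
  (.rho 0,⟨false,[],(31,4),.mon 10 8 0,[]⟩),
  (.comm 16 0 0,⟨false,[],(2,4),.all,[]⟩),
  (.ca 56,⟨false,[],(3,5),.mon 2 3 0,[]⟩),
  (.cc 64,⟨false,[],(23,11),.mon 2 2 0,[]⟩),
  (.rho 0,⟨false,[],(10,22),.mon 2 2 0,[]⟩),
  (.ca 0,⟨false,[],(26,14),.mon 2 2 0,[]⟩),
  (.rho 0,⟨false,[],(15,27),.mon 2 2 0,[]⟩),
  (.cc 0,⟨false,[],(27,15),.mon 2 2 0,[]⟩),
  (.rho 0,⟨false,[],(14,26),.mon 2 2 0,[]⟩),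
  (.rho 90,⟨false,[],(26,18),.mon 2 2 0,[]⟩),
  (.comm 1 0 0,⟨false,[],(14,18),.mon 4 4 0,[]⟩),
  (.ca 19,⟨false,[],(2,14),.mon 3 1 0,[]⟩),
  (.comm 1 0 0,⟨false,[],(2,18),.mon 7 5 0,[]⟩),
  (.ca 4,⟨false,[],(22,10),.mon 2 2 0,[]⟩),
  (.rho 0,⟨false,[],(11,23),.mon 2 2 0,[]⟩),
  (.cc 0,⟨false,[],(31,19),.mon 2 2 0,[]⟩),
  (.rho 0,⟨false,[],(18,30),.mon 2 2 0,[]⟩),
  (.comm 4 0 0,⟨false,[],(2,30),.mon 9 7 0,[]⟩),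
  (.rho 0,⟨false,[],(31,3),.mon 7 9 0,[]⟩),
  (.comm 16 0 0,⟨false,[],(31,5),.mon 9 12 0,[]⟩),
  (.rho 0,⟨false,[],(4,30),.mon 12 9 0,[]⟩),
  (.rho 0,⟨false,[],(31,5),.mon 9 12 0,[]⟩),
  (.comm 37 0 0,⟨false,[],(2,5),.all,[]⟩),
  (.comm 52 115 0,⟨false,[],(5,31),.all,[]⟩),
  (.rho 78,⟨false,[],(32,2),.mon 3 2 0,[]⟩),
  (.comm 190 0 0,⟨false,[],(29,2),.mon 4 2 0,[]⟩),
  (.rho 0,⟨false,[],(3,28),.mon 2 4 0,[]⟩),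
  (.comm 0 93 0,⟨false,[],(3,30),.mon 5 6 0,[]⟩),
  (.rho 0,⟨false,[],(31,2),.mon 6 5 0,[]⟩),
  (.comm 5 0 0,⟨false,[],(5,2),.all,[]⟩),
  (.rho 134,⟨false,[],(26,5),.mon 1 1 0,[]⟩),
  (.comm 106 0 0,⟨false,[],(18,5),.mon 3 3 0,[]⟩),
  (.rho 0,⟨false,[],(4,19),.mon 3 3 0,[]⟩),
  (.comm 62 0 0,⟨false,[],(4,31),.all,[]⟩),
  (.rho 6,⟨false,[],(31,2),.mon 6 5 0,[]⟩),
  (.comm 1 0 0,⟨false,[],(4,2),.all,[]⟩),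
  (.cc 24,⟨false,[],(6,26),.mon 3 1 0,[]⟩),
  (.ca 0,⟨false,[],(30,10),.mon 3 1 0,[]⟩),
  (.rho 0,⟨false,[],(11,31),.mon 1 3 0,[]⟩),
  (.rho 0,⟨false,[],(30,10),.mon 3 1 0,[]⟩),
  (.comm 106 0 0,⟨false,[],(28,10),.mon 6 3 0,[]⟩),
  (.rho 0,⟨false,[],(11,29),.mon 3 6 0,[]⟩),
  (.comm 207 0 0,⟨false,[],(11,32),.mon 4 6 0,[]⟩),
  (.cc 0,⟨false,[],(31,8),.mon 4 6 0,[]⟩),
  (.rho 0,⟨false,[],(9,30),.mon 6 4 0,[]⟩),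
  (.comm 0 100 0,⟨false,[],(7,30),.mon 8 7 0,[]⟩),
  (.rho 0,⟨false,[],(31,6),.mon 7 8 0,[]⟩),
  (.comm 13 0 0,⟨false,[],(4,6),.all,[]⟩),
  (.ca 77,⟨false,[],(19,7),.all,[]⟩),
  (.comm 0 16 0,⟨false,[],(4,7),.all,[]⟩),
  (.rho 4,⟨false,[],(31,6),.mon 7 8 0,[]⟩),
  (.comm 27 0 0,⟨false,[],(5,6),.all,[]⟩),
  (.comm 3 144 0,⟨false,[],(5,7),.all,[]⟩),
  (.rho 35,⟨false,[],(31,3),.mon 7 9 0,[]⟩),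
  (.comm 69 0 1,⟨false,[],(2,3),.all,[]⟩),
  (.ca 136,⟨false,[],(19,11),.mon 2 2 0,[]⟩),
  (.rho 0,⟨false,[],(10,18),.mon 2 2 0,[]⟩),
  (.cc 0,⟨false,[],(30,22),.mon 2 2 0,[]⟩),
  (.rho 0,⟨false,[],(23,31),.mon 2 2 0,[]⟩),
  (.comm 0 192 0,⟨false,[],(18,31),.mon 2 3 0,[]⟩),
  (.rho 0,⟨false,[],(30,19),.mon 3 2 0,[]⟩),
  (.comm 90 0 1,⟨false,[],(30,31),.all,[]⟩),
  (.comm 34 0 5,⟨false,[],(3,2),.all,[(3,31)]⟩),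
  (.ca 46,⟨false,[],(18,6),.mon 2 2 0,[]⟩),
  (.rho 0,⟨false,[],(7,19),.mon 2 2 0,[]⟩),
  (.cc 0,⟨false,[],(3,23),.mon 2 2 0,[]⟩),
  (.rho 145,⟨false,[],(23,15),.mon 2 2 0,[]⟩),
  (.comm 60 0 0,⟨false,[],(23,27),.mon 4 4 0,[]⟩),
  (.rho 0,⟨false,[],(26,22),.mon 4 4 0,[]⟩),
  (.comm 144 0 0,⟨false,[],(18,22),.mon 6 6 0,[]⟩),
  (.rho 0,⟨false,[],(23,19),.mon 6 6 0,[]⟩),
  (.comm 5 0 0,⟨false,[],(3,19),.mon 8 8 0,[]⟩),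
  (.comm 101 0 0,⟨false,[],(3,31),.all,[]⟩),
  (.drop 10 [0],⟨false,[],(3,2),.all,[]⟩),
  (.rho 28,⟨false,[],(31,6),.mon 7 8 0,[]⟩),
  (.comm 90 0 0,⟨false,[],(2,6),.all,[]⟩),
  (.comm 239 0 4,⟨false,[],(2,0),.all,[(2,7),(2,31),(2,17)]⟩),
  (.comm 28 93 0,⟨false,[],(2,7),.all,[]⟩),
  (.ca 146,⟨false,[],(27,25),.mon 2 3 0,[]⟩),
  (.rho 0,⟨false,[],(24,26),.mon 3 2 0,[]⟩),
  (.cc 0,⟨false,[],(16,14),.mon 3 2 0,[]⟩),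
  (.rho 0,⟨false,[],(15,17),.mon 2 3 0,[]⟩),
  (.comm 65 71 0,⟨false,[],(14,30),.mon 6 6 0,[]⟩),
  (.rho 0,⟨false,[],(31,15),.mon 6 6 0,[]⟩),
  (.comm 2 0 0,⟨false,[],(31,17),.mon 8 9 0,[]⟩),
  (.rho 0,⟨false,[],(16,30),.mon 9 8 0,[]⟩),
  (.rho 0,⟨false,[],(31,17),.mon 8 9 0,[]⟩),
  (.comm 102 0 0,⟨false,[],(2,17),.all,[]⟩),
  (.drop 11 [10,103,0],⟨false,[],(2,0),.all,[]⟩),
  (.comm 118 24 0,⟨false,[],(7,31),.all,[]⟩),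
  (.rho 62,⟨false,[],(31,2),.mon 6 5 0,[]⟩),
  (.comm 1 0 0,⟨false,[],(7,2),.all,[]⟩),
  (.rho 0,⟨false,[],(3,6),.all,[]⟩),
  (.comm 256 0 4,⟨false,[],(3,0),.all,[(3,7),(3,31),(3,17)]⟩),
  (.comm 45 22 0,⟨false,[],(3,7),.all,[]⟩),
  (.rho 120,⟨false,[],(26,17),.mon 1 1 0,[]⟩),
  (.comm 171 0 0,⟨false,[],(18,17),.mon 3 3 0,[]⟩),
  (.rho 0,⟨false,[],(16,19),.mon 3 3 0,[]⟩),
  (.comm 127 0 0,⟨false,[],(16,31),.all,[]⟩),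
  (.rho 71,⟨false,[],(31,2),.mon 6 5 0,[]⟩),
  (.comm 1 0 0,⟨false,[],(16,2),.all,[]⟩),
  (.drop 7 [6,28,0],⟨false,[],(3,0),.all,[]⟩)],
  [(100,100),(79,79),(72,72),(66,66),(66,66),(79,79),(72,72),(100,100),(54,54),(52,52),(50,50),(49,49),(49,49),(52,52),(50,50),(54,54),(47,47),(28,28),(13,47),(0,28)]⟩ = true := by decide +kernel


end Pool.Agent.MP_c78e8e_al.H75

end

section

namespace Pool.Agent.MP_c78e8e_al.H75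

theorem cXo17 : Fam.chkP .X 17 1 true false true false true
  ⟨[],[(12,29),(7,19)],[(26,11),(10,27),(33,21),(20,32)],[((19,25),some (1,0,0)),((17,10),some (1,0,0))],3,(0,2),(2,33),(0,33),(3,33),(0,0,0),[(21,15),(23,28),(0,7),(3,7),(2,7)],
  [(.base 3,⟨false,[(26,11),(10,27),(33,21),(20,32),(12,29),(28,13),(7,19),(18,6)],(23,28),.mon 1 0 0,[(2,7),(3,7),(0,7),(21,15),(19,25),(17,10),(0,33),(3,33),(2,33)]⟩),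
  (.base 4,⟨false,[(26,11),(10,27),(33,21),(20,32),(12,29),(28,13),(7,19),(18,6)],(21,15),.mon 1 0 0,[(2,7),(3,7),(0,7),(23,28),(19,25),(17,10),(0,33),(3,33),(2,33)]⟩),
  (.cc 0,⟨false,[(16,33),(32,17),(11,23),(22,10),(30,15),(14,31),(3,25),(24,2)],(23,29),.mon 1 0 0,[(6,3),(7,3),(0,3),(21,14),(25,19),(27,32),(0,11),(7,11),(6,11)]⟩),
  (.ca 0,⟨false,[(22,7),(6,23),(29,17),(16,28),(8,25),(24,9),(3,15),(14,2)],(17,11),.mon 1 0 0,[(32,3),(33,3),(0,3),(19,24),(15,21),(13,6),(0,29),(33,29),(32,29)]⟩),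
  (.cc 0,⟨false,[(20,3),(2,21),(15,27),(26,14),(34,19),(18,35),(7,29),(28,6)],(27,33),.mon 1 0 0,[(10,7),(11,7),(0,7),(25,18),(29,23),(31,2),(0,15),(11,15),(10,15)]⟩),
  (.ca 0,⟨false,[(18,3),(2,19),(25,13),(12,24),(4,21),(20,5),(33,11),(10,32)],(13,7),.mon 1 0 0,[(28,33),(29,33),(0,33),(15,20),(11,17),(9,2),(0,25),(29,25),(28,25)]⟩),
  (.cc 0,⟨false,[(24,7),(6,25),(19,31),(30,18),(4,23),(22,5),(11,33),(32,10)],(31,3),.mon 1 0 0,[(14,11),(15,11),(0,11),(29,22),(33,27),(35,6),(0,19),(15,19),(14,19)]⟩),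
  (.ca 0,⟨false,[(14,33),(32,15),(21,9),(8,20),(34,17),(16,35),(29,7),(6,28)],(9,3),.mon 1 0 0,[(24,29),(25,29),(0,29),(11,16),(7,13),(5,32),(0,21),(25,21),(24,21)]⟩),
  (.cc 0,⟨false,[(28,11),(10,29),(23,35),(34,22),(8,27),(26,9),(15,3),(2,14)],(35,7),.mon 1 0 0,[(18,15),(19,15),(0,15),(33,26),(3,31),(5,10),(0,23),(19,23),(18,23)]⟩),
  (.ca 0,⟨false,[(10,29),(28,11),(17,5),(4,16),(30,13),(12,31),(25,3),(2,24)],(5,33),.mon 1 0 0,[(20,25),(21,25),(0,25),(7,12),(3,9),(35,28),(0,17),(21,17),(20,17)]⟩),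
  (.cc 0,⟨false,[(32,15),(14,33),(27,5),(4,26),(12,31),(30,13),(19,7),(6,18)],(5,11),.mon 1 0 0,[(22,19),(23,19),(0,19),(3,30),(7,35),(9,14),(0,27),(23,27),(22,27)]⟩),
  (.ca 0,⟨false,[(6,25),(24,7),(13,35),(34,12),(26,9),(8,27),(21,33),(32,20)],(35,29),.mon 1 0 0,[(16,21),(17,21),(0,21),(3,8),(33,5),(31,24),(0,13),(17,13),(16,13)]⟩),
  (.cc 0,⟨false,[(2,19),(18,3),(31,9),(8,30),(16,35),(34,17),(23,11),(10,22)],(9,15),.mon 1 0 0,[(26,23),(27,23),(0,23),(7,34),(11,5),(13,18),(0,31),(27,31),(26,31)]⟩),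
  (.ca 0,⟨false,[(2,21),(20,3),(9,31),(30,8),(22,5),(4,23),(17,29),(28,16)],(31,25),.mon 1 0 0,[(12,17),(13,17),(0,17),(33,4),(29,35),(27,20),(0,9),(13,9),(12,9)]⟩),
  (.cc 0,⟨false,[(6,23),(22,7),(35,13),(12,34),(20,5),(4,21),(27,15),(14,26)],(13,19),.mon 1 0 0,[(30,27),(31,27),(0,27),(11,4),(15,9),(17,22),(0,35),(31,35),(30,35)]⟩),
  (.ca 0,⟨false,[(32,17),(16,33),(5,27),(26,4),(18,35),(34,19),(13,25),(24,12)],(27,21),.mon 1 0 0,[(8,13),(9,13),(0,13),(29,34),(25,31),(23,16),(0,5),(9,5),(8,5)]⟩),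
  (.cc 0,⟨false,[(10,27),(26,11),(5,17),(16,4),(24,9),(8,25),(31,19),(18,30)],(17,23),.mon 1 0 0,[(34,31),(35,31),(0,31),(15,8),(19,13),(21,26),(0,5),(35,5),(34,5)]⟩),
  (.comm 16 0 0,⟨false,[],(17,28),.mon 2 0 0,[(30,7),(4,7),(21,8),(30,33),(4,33)]⟩),
  (.base 0,⟨false,[(26,11),(10,27),(33,21),(20,32),(12,29),(28,13),(7,19),(18,6)],(2,7),.mon 0 0 0,[(3,7),(0,7),(23,28),(21,15),(19,25),(17,10),(0,33),(3,33),(2,33)]⟩),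
  (.cc 0,⟨false,[(16,33),(32,17),(11,23),(22,10),(30,15),(14,31),(3,25),(24,2)],(6,3),.mon 0 0 0,[(7,3),(0,3),(21,14),(23,29),(25,19),(27,32),(0,11),(7,11),(6,11)]⟩),
  (.ca 0,⟨false,[(22,7),(6,23),(29,17),(16,28),(8,25),(24,9),(3,15),(14,2)],(32,3),.mon 0 0 0,[(33,3),(0,3),(19,24),(17,11),(15,21),(13,6),(0,29),(33,29),(32,29)]⟩),
  (.cc 0,⟨false,[(20,3),(2,21),(15,27),(26,14),(34,19),(18,35),(7,29),(28,6)],(10,7),.mon 0 0 0,[(11,7),(0,7),(25,18),(27,33),(29,23),(31,2),(0,15),(11,15),(10,15)]⟩),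
  (.ca 0,⟨false,[(18,3),(2,19),(25,13),(12,24),(4,21),(20,5),(33,11),(10,32)],(28,33),.mon 0 0 0,[(29,33),(0,33),(15,20),(13,7),(11,17),(9,2),(0,25),(29,25),(28,25)]⟩),
  (.cc 0,⟨false,[(24,7),(6,25),(19,31),(30,18),(4,23),(22,5),(11,33),(32,10)],(14,11),.mon 0 0 0,[(15,11),(0,11),(29,22),(31,3),(33,27),(35,6),(0,19),(15,19),(14,19)]⟩),
  (.ca 0,⟨false,[(14,33),(32,15),(21,9),(8,20),(34,17),(16,35),(29,7),(6,28)],(24,29),.mon 0 0 0,[(25,29),(0,29),(11,16),(9,3),(7,13),(5,32),(0,21),(25,21),(24,21)]⟩),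
  (.cc 0,⟨false,[(28,11),(10,29),(23,35),(34,22),(8,27),(26,9),(15,3),(2,14)],(18,15),.mon 0 0 0,[(19,15),(0,15),(33,26),(35,7),(3,31),(5,10),(0,23),(19,23),(18,23)]⟩),
  (.ca 0,⟨false,[(10,29),(28,11),(17,5),(4,16),(30,13),(12,31),(25,3),(2,24)],(20,25),.mon 0 0 0,[(21,25),(0,25),(7,12),(5,33),(3,9),(35,28),(0,17),(21,17),(20,17)]⟩),
  (.cc 0,⟨false,[(32,15),(14,33),(27,5),(4,26),(12,31),(30,13),(19,7),(6,18)],(22,19),.mon 0 0 0,[(23,19),(0,19),(3,30),(5,11),(7,35),(9,14),(0,27),(23,27),(22,27)]⟩),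
  (.ca 0,⟨false,[(6,25),(24,7),(13,35),(34,12),(26,9),(8,27),(21,33),(32,20)],(16,21),.mon 0 0 0,[(17,21),(0,21),(3,8),(35,29),(33,5),(31,24),(0,13),(17,13),(16,13)]⟩),
  (.cc 0,⟨false,[(2,19),(18,3),(31,9),(8,30),(16,35),(34,17),(23,11),(10,22)],(26,23),.mon 0 0 0,[(27,23),(0,23),(7,34),(9,15),(11,5),(13,18),(0,31),(27,31),(26,31)]⟩),
  (.ca 0,⟨false,[(2,21),(20,3),(9,31),(30,8),(22,5),(4,23),(17,29),(28,16)],(12,17),.mon 0 0 0,[(13,17),(0,17),(33,4),(31,25),(29,35),(27,20),(0,9),(13,9),(12,9)]⟩),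
  (.cc 0,⟨false,[(6,23),(22,7),(35,13),(12,34),(20,5),(4,21),(27,15),(14,26)],(30,27),.mon 0 0 0,[(31,27),(0,27),(11,4),(13,19),(15,9),(17,22),(0,35),(31,35),(30,35)]⟩),
  (.mul 13 0,⟨false,[(26,11),(10,27),(33,21),(20,32),(12,29),(28,13),(7,19),(18,6),(6,23),(22,7),(35,13),(12,34),(20,5),(4,21),(27,15),(14,26)],(2,7),.mon 0 0 0,[(3,7),(0,7),(23,28),(21,15),(19,25),(17,10),(0,33),(3,33),(2,33),(30,27),(31,27),(0,27),(11,4),(13,19),(15,9),(17,22),(0,35),(31,35),(30,35)]⟩),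
  (.sq 0 9,⟨false,[],(2,7),.mon 0 0 0,[(3,7),(0,7),(23,28),(0,33),(30,27),(31,27),(0,27),(11,4),(0,35),(6,7),(32,7),(26,7),(34,7),(21,9),(13,25),(32,33),(26,33),(34,33),(26,27),(34,27),(34,35)]⟩),
  (.ca 0,⟨false,[],(2,33),.mon 0 0 0,[(3,33),(0,33),(17,10),(0,7),(8,13),(9,13),(0,13),(29,34),(0,5),(32,33),(6,33),(12,33),(4,33),(19,31),(27,15),(6,7),(12,7),(4,7),(12,13),(4,13),(4,5)]⟩),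
  (.cc 0,⟨false,[],(6,11),.mon 0 0 0,[(7,11),(0,11),(27,32),(0,3),(34,31),(35,31),(0,31),(15,8),(0,5),(10,11),(2,11),(30,11),(4,11),(25,13),(17,29),(2,3),(30,3),(4,3),(30,31),(4,31),(4,5)]⟩),
  (.ca 0,⟨false,[],(32,29),.mon 0 0 0,[(33,29),(0,29),(13,6),(0,3),(4,9),(5,9),(0,9),(25,30),(0,35),(28,29),(2,29),(8,29),(34,29),(15,27),(23,11),(2,3),(8,3),(34,3),(8,9),(34,9),(34,35)]⟩),
  (.cc 0,⟨false,[],(10,15),.mon 0 0 0,[(11,15),(0,15),(31,2),(0,7),(4,35),(5,35),(0,35),(19,12),(0,9),(14,15),(6,15),(34,15),(8,15),(29,17),(21,33),(6,7),(34,7),(8,7),(34,35),(8,35),(8,9)]⟩),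
  (.ca 0,⟨false,[],(28,25),.mon 0 0 0,[(29,25),(0,25),(9,2),(0,33),(34,5),(35,5),(0,5),(21,26),(0,31),(24,25),(32,25),(4,25),(30,25),(11,23),(19,7),(32,33),(4,33),(30,33),(4,5),(30,5),(30,31)]⟩),
  (.comm 21 0 0,⟨false,[],(17,25),.mon 2 0 0,[]⟩),
  (.cc 0,⟨false,[],(27,19),.mon 2 0 0,[]⟩),
  (.rho 0,⟨false,[],(18,26),.mon 0 2 0,[]⟩),
  (.ca 0,⟨false,[],(20,12),.mon 0 2 0,[]⟩),
  (.rho 0,⟨false,[],(13,21),.mon 2 0 0,[]⟩),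
  (.cc 0,⟨false,[],(31,23),.mon 2 0 0,[]⟩),
  (.rho 0,⟨false,[],(22,30),.mon 0 2 0,[]⟩),
  (.ca 0,⟨false,[],(16,8),.mon 0 2 0,[]⟩),
  (.rho 0,⟨false,[],(9,17),.mon 2 0 0,[]⟩),
  (.cc 0,⟨false,[],(35,27),.mon 2 0 0,[]⟩),
  (.rho 0,⟨false,[],(26,34),.mon 0 2 0,[]⟩),
  (.ca 0,⟨false,[],(12,4),.mon 0 2 0,[]⟩),
  (.rho 0,⟨false,[],(5,13),.mon 2 0 0,[]⟩),
  (.cc 0,⟨false,[],(5,31),.mon 2 0 0,[]⟩),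
  (.ca 0,⟨false,[],(35,9),.mon 2 0 0,[]⟩),
  (.rho 0,⟨false,[],(8,34),.mon 0 2 0,[]⟩),
  (.cc 0,⟨false,[],(34,8),.mon 0 2 0,[]⟩),
  (.rho 0,⟨false,[],(9,35),.mon 2 0 0,[]⟩),
  (.ca 0,⟨false,[],(31,5),.mon 2 0 0,[]⟩),
  (.rho 0,⟨false,[],(4,30),.mon 0 2 0,[]⟩),
  (.cc 0,⟨false,[],(4,12),.mon 0 2 0,[]⟩),
  (.ca 0,⟨false,[],(34,26),.mon 0 2 0,[]⟩),
  (.rho 0,⟨false,[],(27,35),.mon 2 0 0,[]⟩),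
  (.cc 0,⟨false,[],(17,9),.mon 2 0 0,[]⟩),
  (.rho 0,⟨false,[],(8,16),.mon 0 2 0,[]⟩),
  (.ca 0,⟨false,[],(30,22),.mon 0 2 0,[]⟩),
  (.rho 0,⟨false,[],(23,31),.mon 2 0 0,[]⟩),
  (.cc 0,⟨false,[],(21,13),.mon 2 0 0,[]⟩),
  (.rho 0,⟨false,[],(12,20),.mon 0 2 0,[]⟩),
  (.ca 0,⟨false,[],(26,18),.mon 0 2 0,[]⟩),
  (.rho 0,⟨false,[],(19,27),.mon 2 0 0,[]⟩),
  (.rho 22,⟨false,[],(16,8),.mon 0 2 0,[]⟩),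
  (.comm 16 0 0,⟨false,[],(16,34),.mon 0 4 0,[]⟩),
  (.rho 0,⟨false,[],(35,17),.mon 4 0 0,[]⟩),
  (.comm 11 0 0,⟨false,[],(27,17),.mon 6 0 0,[]⟩),
  (.rho 0,⟨false,[],(16,26),.mon 0 6 0,[]⟩),
  (.rho 0,⟨false,[],(27,17),.mon 6 0 0,[]⟩),
  (.comm 6 0 0,⟨false,[],(19,17),.mon 8 0 0,[]⟩),
  (.rho 0,⟨false,[],(16,18),.mon 0 8 0,[]⟩),
  (.ca 38,⟨false,[],(23,15),.mon 2 0 0,[]⟩),
  (.rho 0,⟨false,[],(14,22),.mon 0 2 0,[]⟩),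
  (.cc 0,⟨false,[],(28,20),.mon 0 2 0,[]⟩),
  (.rho 0,⟨false,[],(21,29),.mon 2 0 0,[]⟩),
  (.ca 0,⟨false,[],(19,11),.mon 2 0 0,[]⟩),
  (.rho 0,⟨false,[],(10,18),.mon 0 2 0,[]⟩),
  (.cc 0,⟨false,[],(32,24),.mon 0 2 0,[]⟩),
  (.rho 0,⟨false,[],(25,33),.mon 2 0 0,[]⟩),
  (.ca 0,⟨false,[],(15,7),.mon 2 0 0,[]⟩),
  (.rho 0,⟨false,[],(6,14),.mon 0 2 0,[]⟩),
  (.cc 0,⟨false,[],(2,28),.mon 0 2 0,[]⟩),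
  (.ca 0,⟨false,[],(2,10),.mon 0 2 0,[]⟩),
  (.cc 0,⟨false,[],(6,32),.mon 0 2 0,[]⟩),
  (.ca 0,⟨false,[],(32,6),.mon 0 2 0,[]⟩),
  (.rho 0,⟨false,[],(7,33),.mon 2 0 0,[]⟩),
  (.cc 0,⟨false,[],(3,11),.mon 2 0 0,[]⟩),
  (.ca 0,⟨false,[],(3,29),.mon 2 0 0,[]⟩),
  (.cc 0,⟨false,[],(7,15),.mon 2 0 0,[]⟩),
  (.ca 0,⟨false,[],(33,25),.mon 2 0 0,[]⟩),
  (.rho 0,⟨false,[],(24,32),.mon 0 2 0,[]⟩),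
  (.cc 0,⟨false,[],(18,10),.mon 0 2 0,[]⟩),
  (.rho 0,⟨false,[],(11,19),.mon 2 0 0,[]⟩),
  (.comm 0 6 0,⟨false,[],(3,19),.mon 4 0 0,[]⟩),
  (.rho 0,⟨false,[],(18,2),.mon 0 4 0,[]⟩),
  (.comm 24 0 0,⟨false,[],(16,2),.mon 0 12 0,[]⟩),
  (.rho 0,⟨false,[],(3,17),.mon 12 0 0,[]⟩),
  (.comm 20 62 0,⟨false,[],(10,26),.mon 0 4 0,[]⟩),
  (.comm 55 0 0,⟨false,[],(10,34),.mon 0 6 0,[]⟩),
  (.comm 16 0 0,⟨false,[],(2,34),.mon 0 8 0,[]⟩),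
  (.rho 0,⟨false,[],(35,3),.mon 8 0 0,[]⟩),
  (.comm 51 0 0,⟨false,[],(9,3),.mon 10 0 0,[]⟩),
  (.rho 0,⟨false,[],(2,8),.mon 0 10 0,[]⟩),
  (.comm 46 0 0,⟨false,[],(2,16),.mon 0 12 0,[]⟩),
  (.rho 0,⟨false,[],(17,3),.mon 12 0 0,[]⟩),
  (.sI 8 0,⟨true,[],(17,25),.mon 24 0 0,[]⟩),
  (.comm 111 69 0,⟨false,[],(13,15),.mon 3 0 0,[]⟩),
  (.ca 0,⟨false,[],(27,25),.mon 3 0 0,[]⟩),
  (.rho 0,⟨false,[],(24,26),.mon 0 3 0,[]⟩),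
  (.ca 16,⟨false,[],(29,21),.mon 2 0 0,[]⟩),
  (.rho 0,⟨false,[],(20,28),.mon 0 2 0,[]⟩),
  (.cc 0,⟨false,[],(22,14),.mon 0 2 0,[]⟩),
  (.rho 0,⟨false,[],(15,23),.mon 2 0 0,[]⟩),
  (.ca 0,⟨false,[],(25,17),.mon 2 0 0,[]⟩),
  (.rho 0,⟨false,[],(16,24),.mon 0 2 0,[]⟩),
  (.comm 6 0 0,⟨false,[],(16,26),.mon 0 5 0,[]⟩),
  (.comm 53 22 0,⟨false,[],(3,27),.mon 6 0 0,[]⟩),
  (.rho 0,⟨false,[],(26,2),.mon 0 6 0,[]⟩),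
  (.comm 2 0 0,⟨false,[],(16,2),.mon 0 11 0,[]⟩),
  (.rho 0,⟨false,[],(3,17),.mon 11 0 0,[]⟩),
  (.rho 16,⟨false,[],(17,3),.mon 12 0 0,[]⟩),
  (.sI 1 0,⟨true,[],(17,25),.mon 23 0 0,[]⟩),
  (.sN 0,⟨true,[],(17,25),.mon (-23) 0 0,[]⟩),
  (.sA 17 0,⟨true,[],(17,25),.mon 1 0 0,[]⟩),
  (.sF 0 91,⟨false,[],(17,25),.all,[]⟩),
  (.rho 44,⟨false,[],(15,7),.mon 2 0 0,[]⟩),
  (.comm 131 0 0,⟨false,[],(21,7),.mon 3 0 0,[]⟩),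
  (.rho 0,⟨false,[],(6,20),.mon 0 3 0,[]⟩),
  (.cc 0,⟨false,[],(2,22),.mon 0 3 0,[]⟩),
  (.rho 50,⟨false,[],(32,24),.mon 0 2 0,[]⟩),
  (.comm 46 0 0,⟨false,[],(6,24),.mon 0 4 0,[]⟩),
  (.rho 0,⟨false,[],(25,7),.mon 4 0 0,[]⟩),
  (.comm 43 0 0,⟨false,[],(25,15),.mon 6 0 0,[]⟩),
  (.rho 0,⟨false,[],(14,24),.mon 0 6 0,[]⟩),
  (.rho 0,⟨false,[],(25,15),.mon 6 0 0,[]⟩),
  (.comm 22 0 0,⟨false,[],(25,23),.mon 8 0 0,[]⟩),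
  (.rho 0,⟨false,[],(22,24),.mon 0 8 0,[]⟩),
  (.comm 8 0 0,⟨false,[],(2,24),.mon 0 11 0,[]⟩),
  (.rho 0,⟨false,[],(25,3),.mon 11 0 0,[]⟩),
  (.comm 14 0 0,⟨false,[],(17,3),.all,[]⟩),
  (.cc 33,⟨false,[],(31,29),.mon 3 0 0,[]⟩),
  (.rho 0,⟨false,[],(28,30),.mon 0 3 0,[]⟩),
  (.ca 0,⟨false,[],(10,8),.mon 0 3 0,[]⟩),
  (.rho 0,⟨false,[],(9,11),.mon 3 0 0,[]⟩),
  (.rho 61,⟨false,[],(11,3),.mon 2 0 0,[]⟩),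
  (.comm 57 0 0,⟨false,[],(11,29),.mon 4 0 0,[]⟩),
  (.rho 0,⟨false,[],(28,10),.mon 0 4 0,[]⟩),
  (.comm 36 0 0,⟨false,[],(20,10),.mon 0 6 0,[]⟩),
  (.rho 0,⟨false,[],(11,21),.mon 6 0 0,[]⟩),
  (.comm 5 0 0,⟨false,[],(9,21),.mon 9 0 0,[]⟩),
  (.cc 0,⟨false,[],(35,23),.mon 9 0 0,[]⟩),
  (.rho 0,⟨false,[],(22,34),.mon 0 9 0,[]⟩),
  (.ca 0,⟨false,[],(16,4),.mon 0 9 0,[]⟩),
  (.rho 0,⟨false,[],(5,17),.mon 9 0 0,[]⟩),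
  (.comm 14 0 0,⟨false,[],(5,3),.all,[]⟩),
  (.rho 103,⟨false,[],(31,5),.mon 2 0 0,[]⟩),
  (.comm 97 0 0,⟨false,[],(23,5),.mon 4 0 0,[]⟩),
  (.rho 0,⟨false,[],(4,22),.mon 0 4 0,[]⟩),
  (.comm 21 0 0,⟨false,[],(4,24),.mon 0 12 0,[]⟩),
  (.rho 0,⟨false,[],(25,5),.mon 12 0 0,[]⟩),
  (.comm 35 0 0,⟨false,[],(17,5),.all,[]⟩),
  (.comm 0 64 0,⟨false,[],(3,5),.all,[]⟩),
  (.rho 0,⟨false,[],(4,2),.all,[]⟩),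
  (.comm 0 136 0,⟨false,[],(4,7),.all,[(11,2),(11,7)]⟩),
  (.rho 71,⟨false,[],(18,10),.mon 0 2 0,[]⟩),
  (.comm 94 0 0,⟨false,[],(16,10),.mon 0 10 0,[]⟩),
  (.rho 0,⟨false,[],(11,17),.mon 10 0 0,[]⟩),
  (.comm 42 0 0,⟨false,[],(11,25),.all,[]⟩),
  (.rho 93,⟨false,[],(28,20),.mon 0 2 0,[]⟩),
  (.comm 175 0 0,⟨false,[],(23,20),.mon 1 2 0,[]⟩),
  (.rho 0,⟨false,[],(21,22),.mon 2 1 0,[]⟩),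
  (.rho 83,⟨false,[],(28,2),.mon 0 2 0,[]⟩),
  (.comm 61 0 0,⟨false,[],(20,2),.mon 0 4 0,[]⟩),
  (.rho 0,⟨false,[],(3,21),.mon 4 0 0,[]⟩),
  (.comm 3 0 0,⟨false,[],(3,22),.mon 6 1 0,[]⟩),
  (.comm 0 38 0,⟨false,[],(3,24),.mon 6 9 0,[]⟩),
  (.rho 0,⟨false,[],(25,2),.mon 9 6 0,[]⟩),
  (.comm 9 0 0,⟨false,[],(11,2),.all,[]⟩),
  (.rho 47,⟨false,[],(25,7),.mon 4 0 0,[]⟩),
  (.comm 54 0 0,⟨false,[],(17,7),.all,[]⟩),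
  (.comm 0 13 0,⟨false,[],(11,7),.all,[]⟩),
  (.drop 17 [3,0],⟨false,[],(4,7),.all,[]⟩),
  (.cc 0,⟨false,[],(4,3),.all,[]⟩),
  (.comm 58 86 0,⟨false,[],(3,25),.all,[]⟩),
  (.comm 147 109 0,⟨false,[],(13,29),.mon 4 0 0,[]⟩),
  (.comm 140 0 0,⟨false,[],(5,29),.mon 6 0 0,[]⟩),
  (.rho 0,⟨false,[],(28,4),.mon 0 6 0,[]⟩),
  (.comm 193 0 0,⟨false,[],(23,4),.mon 1 6 0,[]⟩),
  (.rho 0,⟨false,[],(5,22),.mon 6 1 0,[]⟩),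
  (.comm 0 52 0,⟨false,[],(5,24),.mon 6 9 0,[]⟩),
  (.rho 0,⟨false,[],(25,4),.mon 9 6 0,[]⟩),
  (.comm 7 0 0,⟨false,[],(3,4),.all,[]⟩),
  (.rho 106,⟨false,[],(32,6),.mon 0 2 0,[]⟩),
  (.comm 102 0 0,⟨false,[],(24,6),.mon 0 4 0,[]⟩),
  (.rho 0,⟨false,[],(7,25),.mon 4 0 0,[]⟩),
  (.rho 0,⟨false,[],(24,6),.mon 0 4 0,[]⟩),
  (.comm 81 0 0,⟨false,[],(16,6),.mon 0 6 0,[]⟩),
  (.rho 0,⟨false,[],(7,17),.mon 6 0 0,[]⟩),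
  (.comm 73 0 0,⟨false,[],(7,25),.all,[]⟩),
  (.rho 40,⟨false,[],(25,5),.mon 12 0 0,[]⟩),
  (.comm 1 0 0,⟨false,[],(7,5),.all,[]⟩),
  (.rho 11,⟨false,[],(25,4),.mon 9 6 0,[]⟩),
  (.comm 3 0 0,⟨false,[],(7,4),.all,[]⟩),
  (.comm 23 49 0,⟨false,[],(5,7),.all,[]⟩),
  (.rho 28,⟨false,[],(25,2),.mon 9 6 0,[]⟩),
  (.comm 21 0 1,⟨false,[],(3,2),.all,[]⟩),
  (.comm 179 0 5,⟨false,[],(6,7),.all,[(3,7)]⟩),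
  (.comm 27 110 0,⟨false,[],(3,7),.all,[]⟩),
  (.drop 1 [0],⟨false,[],(6,7),.all,[]⟩),
  (.cc 0,⟨false,[],(2,3),.all,[]⟩),
  (.base 2,⟨false,[(26,11),(10,27),(33,21),(20,32),(12,29),(28,13),(7,19),(18,6)],(0,7),.mon 0 0 0,[(2,7),(3,7),(23,28),(21,15),(19,25),(17,10),(0,33),(3,33),(2,33)]⟩),
  (.comm 0 8 4,⟨false,[],(0,4),.all,[(6,4),(2,4),(3,4),(5,7),(5,33),(5,4)]⟩),
  (.comm 87 133 0,⟨false,[],(17,33),.all,[]⟩),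
  (.comm 0 59 0,⟨false,[],(5,33),.all,[]⟩),
  (.rho 24,⟨false,[],(25,4),.mon 9 6 0,[]⟩),
  (.comm 90 0 0,⟨false,[],(17,4),.all,[]⟩),
  (.comm 0 62 1,⟨false,[],(5,4),.all,[]⟩),
  (.drop 5 [13,62,25,13,3,0],⟨false,[],(0,4),.all,[]⟩),
  (.rho 56,⟨false,[],(4,2),.all,[]⟩),
  (.spec 0,⟨false,[],(4,2),.mon 0 0 0,[]⟩),
  (.comm 2 0 2,⟨false,[],(0,2),.all,[(5,2)]⟩),
  (.drop 0 [29],⟨false,[],(0,2),.all,[]⟩),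
  (.comm 0 195 2,⟨false,[],(0,7),.all,[(3,7),(6,2),(32,2),(26,2),(34,2),(6,7),(32,7),(26,7),(34,7)]⟩),
  (.comm 10 126 0,⟨false,[],(3,33),.all,[]⟩),
  (.rho 181,⟨false,[],(35,27),.mon 2 0 0,[]⟩),
  (.comm 175 0 0,⟨false,[],(9,27),.mon 4 0 0,[]⟩),
  (.rho 0,⟨false,[],(26,8),.mon 0 4 0,[]⟩),
  (.comm 170 0 0,⟨false,[],(26,16),.mon 0 6 0,[]⟩),
  (.rho 0,⟨false,[],(17,27),.mon 6 0 0,[]⟩),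
  (.rho 0,⟨false,[],(26,16),.mon 0 6 0,[]⟩),
  (.comm 115 0 0,⟨false,[],(26,24),.mon 0 8 0,[]⟩),
  (.rho 0,⟨false,[],(25,27),.mon 8 0 0,[]⟩),
  (.comm 107 0 0,⟨false,[],(17,27),.all,[]⟩),
  (.comm 0 136 0,⟨false,[],(3,27),.all,[]⟩),
  (.rho 184,⟨false,[],(34,8),.mon 0 2 0,[]⟩),
  (.comm 178 0 0,⟨false,[],(34,16),.mon 0 4 0,[]⟩),
  (.rho 0,⟨false,[],(17,35),.mon 4 0 0,[]⟩),
  (.rho 0,⟨false,[],(34,16),.mon 0 4 0,[]⟩),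
  (.comm 123 0 0,⟨false,[],(34,24),.mon 0 6 0,[]⟩),
  (.rho 0,⟨false,[],(25,35),.mon 6 0 0,[]⟩),
  (.comm 115 0 0,⟨false,[],(17,35),.all,[]⟩),
  (.comm 0 144 0,⟨false,[],(3,35),.all,[]⟩),
  (.rho 18,⟨false,[],(32,2),.all,[]⟩),
  (.comm 0 216 0,⟨false,[],(32,7),.all,[]⟩),
  (.rho 10,⟨false,[],(26,2),.all,[]⟩),
  (.comm 0 218 0,⟨false,[],(26,7),.all,[]⟩),
  (.rho 4,⟨false,[],(34,2),.all,[]⟩),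
  (.comm 0 220 0,⟨false,[],(34,7),.all,[]⟩),
  (.drop 25 [40,40,24,14,6,39,4,2,0],⟨false,[],(0,7),.all,[]⟩),
  (.cc 0,⟨false,[],(0,3),.all,[]⟩)],
  [(95,95),(67,67),(58,58),(88,88),(88,88),(67,67),(58,58),(95,95),(49,49),(68,68),(47,47),(46,46),(46,46),(68,68),(47,47),(49,49),(40,40),(44,44),(0,40),(28,44)]⟩ = true := by decide +kernel

theorem cXo18 : Fam.chkP .X 18 1 true false true false true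
  ⟨[],[(7,2),(22,17)],[(35,2),(3,34),(18,25),(24,19)],[((24,20),some (0,0,0)),((3,34),some (1,0,0)),((36,23),some (0,0,0)),((33,19),some (1,0,0))],1,(0,17),(24,1),(24,17),(0,17),(1,0,0),[(16,20),(3,6),(4,19),(9,23),(0,25),(16,25)],
  [(.base 2,⟨false,[(35,2),(3,34),(18,25),(24,19),(7,2),(3,6),(22,17),(16,23)],(9,23),.mon 1 0 0,[(16,25),(0,25),(4,19),(3,6),(16,20),(24,20),(3,34),(36,23),(33,19),(0,17)]⟩),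
  (.base 8,⟨false,[(35,2),(3,34),(18,25),(24,19),(7,2),(3,6),(22,17),(16,23)],(36,23),.mon 0 0 0,[(16,25),(0,25),(9,23),(4,19),(3,6),(16,20),(24,20),(3,34),(33,19),(0,17)]⟩),
  (.base 1,⟨false,[(35,2),(3,34),(18,25),(24,19),(7,2),(3,6),(22,17),(16,23)],(0,25),.mon 1 0 0,[(16,25),(9,23),(4,19),(3,6),(16,20),(24,20),(3,34),(36,23),(33,19),(0,17)]⟩),
  (.cc 0,⟨false,[(11,6),(7,10),(26,21),(20,27),(3,6),(7,2),(22,29),(28,23)],(0,21),.mon 1 0 0,[(28,21),(37,23),(4,27),(7,2),(28,24),(20,24),(7,10),(8,23),(13,27),(0,29)]⟩),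
  (.ca 0,⟨false,[(31,34),(35,30),(14,21),(20,15),(3,34),(35,2),(18,13),(12,19)],(0,21),.mon 1 0 0,[(12,21),(5,19),(36,15),(35,2),(12,16),(20,16),(35,30),(32,19),(29,15),(0,13)]⟩),
  (.cc 0,⟨false,[(15,10),(11,14),(30,25),(24,31),(7,10),(11,6),(26,33),(32,27)],(0,25),.mon 1 0 0,[(32,25),(5,27),(8,31),(11,6),(32,28),(24,28),(11,14),(12,27),(17,31),(0,33)]⟩),
  (.ca 0,⟨false,[(27,30),(31,26),(10,17),(16,11),(35,30),(31,34),(14,9),(8,15)],(0,17),.mon 1 0 0,[(8,17),(37,15),(32,11),(31,34),(8,12),(16,12),(31,26),(28,15),(25,11),(0,9)]⟩),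
  (.cc 0,⟨false,[(19,14),(15,18),(34,29),(28,35),(11,14),(15,10),(30,37),(36,31)],(0,29),.mon 1 0 0,[(36,29),(9,31),(12,35),(15,10),(36,32),(28,32),(15,18),(16,31),(21,35),(0,37)]⟩),
  (.mul 6 0,⟨false,[(35,2),(3,34),(18,25),(24,19),(7,2),(3,6),(22,17),(16,23),(19,14),(15,18),(34,29),(28,35),(11,14),(15,10),(30,37),(36,31)],(36,23),.mon 0 0 0,[(16,25),(0,25),(9,23),(4,19),(3,6),(16,20),(24,20),(3,34),(33,19),(0,17),(0,29),(36,29),(9,31),(12,35),(15,10),(36,32),(28,32),(15,18),(16,31),(21,35),(0,37)]⟩),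
  (.sq 0 11,⟨false,[],(36,23),.mon 0 0 0,[(0,25),(4,19),(3,34),(33,19),(0,17),(0,29),(12,35),(15,18),(16,31),(21,35),(0,37),(24,25),(16,25),(28,25),(36,25),(4,14),(3,13),(3,20),(33,14),(16,17),(28,17),(36,17),(28,29),(36,29),(36,37)]⟩),
  (.ca 2,⟨false,[(23,26),(27,22),(6,13),(12,7),(31,26),(27,30),(10,5),(4,11)],(0,13),.mon 1 0 0,[(4,13),(33,11),(28,7),(27,30),(4,8),(12,8),(27,22),(24,11),(21,7),(0,5)]⟩),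
  (.ko 1 0 3,⟨false,[],(36,23),.mon 0 0 0,[(4,19),(12,35),(16,31),(36,26),(24,25),(16,25),(28,25),(36,25),(12,25),(4,25),(4,14),(3,13),(3,20),(33,14),(16,17),(28,17),(36,17),(12,17),(4,17),(28,29),(36,29),(12,29),(4,29),(16,26),(36,37),(12,37),(4,37)]⟩),
  (.base 7,⟨false,[(35,2),(3,34),(18,25),(24,19),(7,2),(3,6),(22,17),(16,23)],(3,34),.mon 1 0 0,[(16,25),(0,25),(9,23),(4,19),(3,6),(16,20),(24,20),(36,23),(33,19),(0,17)]⟩),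
  (.mul 0 5,⟨false,[(35,2),(3,34),(18,25),(24,19),(7,2),(3,6),(22,17),(16,23),(19,14),(15,18),(34,29),(28,35),(11,14),(15,10),(30,37),(36,31)],(3,34),.mon 1 0 0,[(16,25),(0,25),(9,23),(4,19),(3,6),(16,20),(24,20),(36,23),(33,19),(0,17),(0,29),(36,29),(9,31),(12,35),(15,10),(36,32),(28,32),(15,18),(16,31),(21,35),(0,37)]⟩),
  (.sq 0 11,⟨false,[],(3,34),.mon 1 0 0,[(0,25),(4,19),(36,23),(33,19),(0,17),(0,29),(12,35),(15,18),(16,31),(21,35),(0,37),(24,25),(16,25),(28,25),(36,25),(4,14),(3,13),(3,20),(33,14),(16,17),(28,17),(36,17),(28,29),(36,29),(36,37)]⟩),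
  (.cc 0,⟨false,[],(7,10),.mon 1 0 0,[(0,21),(4,27),(8,23),(13,27),(0,29),(0,17),(32,11),(31,26),(28,15),(25,11),(0,9),(20,21),(28,21),(16,21),(8,21),(4,30),(7,33),(7,24),(13,30),(28,29),(16,29),(8,29),(16,17),(8,17),(8,9)]⟩),
  (.ca 0,⟨false,[],(35,30),.mon 1 0 0,[(0,21),(36,15),(32,19),(29,15),(0,13),(0,25),(8,31),(11,14),(12,27),(17,31),(0,33),(20,21),(12,21),(24,21),(32,21),(36,10),(35,9),(35,16),(29,10),(12,13),(24,13),(32,13),(24,25),(32,25),(32,33)]⟩),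
  (.cc 0,⟨false,[],(11,14),.mon 1 0 0,[(0,25),(8,31),(12,27),(17,31),(0,33),(0,21),(36,15),(35,30),(32,19),(29,15),(0,13),(24,25),(32,25),(20,25),(12,25),(8,34),(11,37),(11,28),(17,34),(32,33),(20,33),(12,33),(20,21),(12,21),(12,13)]⟩),
  (.ca 0,⟨false,[],(31,26),.mon 1 0 0,[(0,17),(32,11),(28,15),(25,11),(0,9),(0,21),(4,27),(7,10),(8,23),(13,27),(0,29),(16,17),(8,17),(20,17),(28,17),(32,6),(31,5),(31,12),(25,6),(8,9),(20,9),(28,9),(20,21),(28,21),(28,29)]⟩),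
  (.cc 0,⟨false,[],(15,18),.mon 1 0 0,[(0,29),(12,35),(16,31),(21,35),(0,37),(0,25),(4,19),(3,34),(36,23),(33,19),(0,17),(28,29),(36,29),(24,29),(16,29),(12,2),(15,5),(15,32),(21,2),(36,37),(24,37),(16,37),(24,25),(16,25),(16,17)]⟩),
  (.ca 0,⟨false,[],(27,22),.mon 1 0 0,[(0,13),(28,7),(24,11),(21,7),(0,5),(0,17),(36,23),(3,6),(4,19),(9,23),(0,25),(12,13),(4,13),(16,13),(24,13),(28,2),(27,37),(27,8),(21,2),(4,5),(16,5),(24,5),(16,17),(24,17),(24,25)]⟩),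
  (.rho 0,⟨false,[],(23,26),.mon 0 1 0,[(0,13),(28,7),(24,11),(21,7),(0,5),(0,17),(36,23),(3,6),(4,19),(9,23),(0,25),(12,13),(4,13),(16,13),(24,13),(28,2),(27,37),(27,8),(21,2),(4,5),(16,5),(24,5),(16,17),(24,17),(24,25)]⟩),
  (.comm 10 0 0,⟨false,[],(36,26),.mon 0 1 0,[]⟩),
  (.rho 0,⟨false,[],(27,37),.mon 1 0 0,[]⟩),
  (.ca 0,⟨false,[],(15,5),.mon 1 0 0,[]⟩),
  (.rho 0,⟨false,[],(4,14),.mon 0 1 0,[]⟩),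
  (.cc 0,⟨false,[],(4,30),.mon 0 1 0,[]⟩),
  (.ca 0,⟨false,[],(36,10),.mon 0 1 0,[]⟩),
  (.rho 0,⟨false,[],(11,37),.mon 1 0 0,[]⟩),
  (.cc 0,⟨false,[],(35,9),.mon 1 0 0,[]⟩),
  (.rho 0,⟨false,[],(8,34),.mon 0 1 0,[]⟩),
  (.rho 0,⟨false,[],(35,9),.mon 1 0 0,[]⟩),
  (.comm 31 0 0,⟨false,[],(35,23),.mon 2 0 0,[]⟩),
  (.rho 0,⟨false,[],(22,34),.mon 0 2 0,[]⟩),
  (.cc 0,⟨false,[],(22,10),.mon 0 2 0,[]⟩),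
  (.rho 0,⟨false,[],(11,23),.mon 2 0 0,[]⟩),
  (.ca 0,⟨false,[],(31,19),.mon 2 0 0,[]⟩),
  (.rho 0,⟨false,[],(18,30),.mon 0 2 0,[]⟩),
  (.cc 0,⟨false,[],(26,14),.mon 0 2 0,[]⟩),
  (.rho 0,⟨false,[],(15,27),.mon 2 0 0,[]⟩),
  (.ca 0,⟨false,[],(27,15),.mon 2 0 0,[]⟩),
  (.rho 0,⟨false,[],(14,26),.mon 0 2 0,[]⟩),
  (.cc 0,⟨false,[],(30,18),.mon 0 2 0,[]⟩),
  (.rho 0,⟨false,[],(19,31),.mon 2 0 0,[]⟩),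
  (.ca 0,⟨false,[],(23,11),.mon 2 0 0,[]⟩),
  (.rho 0,⟨false,[],(10,22),.mon 0 2 0,[]⟩),
  (.cc 0,⟨false,[],(34,22),.mon 0 2 0,[]⟩),
  (.rho 0,⟨false,[],(23,35),.mon 2 0 0,[]⟩),
  (.ca 14,⟨false,[],(18,6),.mon 0 2 0,[]⟩),
  (.rho 0,⟨false,[],(7,19),.mon 2 0 0,[]⟩),
  (.cc 0,⟨false,[],(3,27),.mon 2 0 0,[]⟩),
  (.ca 0,⟨false,[],(3,15),.mon 2 0 0,[]⟩),
  (.cc 0,⟨false,[],(7,31),.mon 2 0 0,[]⟩),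
  (.ca 0,⟨false,[],(35,11),.mon 2 0 0,[]⟩),
  (.rho 0,⟨false,[],(10,34),.mon 0 2 0,[]⟩),
  (.rho 0,⟨false,[],(35,11),.mon 2 0 0,[]⟩),
  (.comm 8 0 0,⟨false,[],(23,11),.mon 4 0 0,[]⟩),
  (.rho 0,⟨false,[],(10,22),.mon 0 4 0,[]⟩),
  (.rho 22,⟨false,[],(22,10),.mon 0 2 0,[]⟩),
  (.sI 1 0,⟨true,[],(22,34),.mon 0 6 0,[]⟩),
  (.rho 24,⟨false,[],(22,10),.mon 0 2 0,[]⟩),
  (.sI 15 0,⟨true,[],(22,34),.mon 0 4 0,[]⟩),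
  (.sN 0,⟨true,[],(22,34),.mon 0 (-4) 0,[]⟩),
  (.sA 3 0,⟨true,[],(22,34),.mon 0 2 0,[]⟩),
  (.sF 0 30,⟨false,[],(22,34),.all,[]⟩),
  (.comm 0 19 0,⟨false,[],(10,34),.all,[]⟩),
  (.rho 18,⟨false,[],(34,22),.mon 0 2 0,[]⟩),
  (.comm 1 0 0,⟨false,[],(10,22),.all,[]⟩),
  (.cc 0,⟨false,[],(34,22),.all,[]⟩),
  (.comm 29 17 0,⟨false,[],(3,27),.mon 4 0 0,[]⟩),
  (.cc 15,⟨false,[],(34,10),.mon 0 2 0,[]⟩),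
  (.rho 0,⟨false,[],(11,35),.mon 2 0 0,[]⟩),
  (.ca 0,⟨false,[],(31,7),.mon 2 0 0,[]⟩),
  (.rho 0,⟨false,[],(6,30),.mon 0 2 0,[]⟩),
  (.cc 0,⟨false,[],(2,14),.mon 0 2 0,[]⟩),
  (.ca 0,⟨false,[],(2,26),.mon 0 2 0,[]⟩),
  (.rho 0,⟨false,[],(27,3),.mon 2 0 0,[]⟩),
  (.sI 7 0,⟨true,[],(27,37),.mon 6 0 0,[]⟩),
  (.rho 2,⟨false,[],(27,3),.mon 2 0 0,[]⟩),
  (.sI 28 0,⟨true,[],(27,37),.mon 4 0 0,[]⟩),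
  (.sN 0,⟨true,[],(27,37),.mon (-4) 0 0,[]⟩),
  (.sA 3 0,⟨true,[],(27,37),.mon 2 0 0,[]⟩),
  (.sF 0 58,⟨false,[],(27,37),.all,[]⟩),
  (.cc 0,⟨false,[],(19,9),.all,[]⟩),
  (.comm 0 34 0,⟨false,[],(7,9),.all,[]⟩),
  (.comm 0 84 0,⟨false,[],(7,23),.all,[]⟩),
  (.rho 17,⟨false,[],(23,35),.all,[]⟩),
  (.spec 0,⟨false,[],(23,35),.mon 0 0 0,[]⟩),
  (.comm 2 0 0,⟨false,[],(7,35),.all,[]⟩),
  (.ca 3,⟨false,[],(35,19),.all,[]⟩),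
  (.ca 25,⟨false,[],(18,6),.all,[]⟩),
  (.comm 0 17 0,⟨false,[],(18,30),.all,[]⟩),
  (.rho 48,⟨false,[],(30,18),.mon 0 2 0,[]⟩),
  (.comm 19 0 0,⟨false,[],(6,18),.mon 0 4 0,[]⟩),
  (.comm 2 0 0,⟨false,[],(6,30),.all,[]⟩),
  (.rho 51,⟨false,[],(30,18),.mon 0 2 0,[]⟩),
  (.comm 5 0 0,⟨false,[],(30,6),.all,[]⟩),
  (.comm 0 3 0,⟨false,[],(30,18),.all,[]⟩),
  (.spec 0,⟨false,[],(30,18),.mon 0 0 0,[]⟩),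
  (.comm 4 0 0,⟨false,[],(6,18),.all,[]⟩),
  (.rho 0,⟨false,[],(19,7),.all,[]⟩),
  (.spec 0,⟨false,[],(19,7),.mon 0 0 0,[]⟩),
  (.comm 12 0 0,⟨false,[],(35,7),.all,[]⟩),
  (.cN 34 14 0,⟨false,[],(6,22),.all,[]⟩),
  (.rho 0,⟨false,[],(23,7),.all,[]⟩),
  (.comm 0 95 0,⟨false,[],(36,7),.all,[]⟩),
  (.cc 0,⟨false,[],(8,3),.all,[]⟩),
  (.rho 0,⟨false,[],(2,9),.all,[]⟩),
  (.comm 0 107 0,⟨false,[],(2,23),.all,[(7,9),(35,9),(7,23),(35,23)]⟩),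
  (.ca 26,⟨false,[],(15,5),.all,[]⟩),
  (.cc 0,⟨false,[],(31,5),.all,[]⟩),
  (.ca 0,⟨false,[],(11,37),.all,[]⟩),
  (.cc 0,⟨false,[],(35,9),.all,[]⟩),
  (.drop 4 [28,0,27,48],⟨false,[],(2,23),.all,[]⟩),
  (.cc 28,⟨false,[],(3,23),.all,[]⟩),
  (.cc 24,⟨false,[],(26,2),.all,[]⟩),
  (.comm 0 41 0,⟨false,[],(26,14),.all,[]⟩),
  (.comm 0 41 0,⟨false,[],(2,14),.all,[]⟩),
  (.ca 0,⟨false,[],(2,26),.all,[]⟩),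
  (.rho 0,⟨false,[],(27,3),.all,[]⟩),
  (.spec 0,⟨false,[],(27,3),.mon 0 0 0,[]⟩),
  (.comm 6 0 0,⟨false,[],(27,23),.all,[]⟩),
  (.rho 0,⟨false,[],(22,26),.all,[]⟩),
  (.spec 0,⟨false,[],(22,26),.mon 0 0 0,[]⟩),
  (.comm 20 0 0,⟨false,[],(6,26),.all,[]⟩),
  (.base 4,⟨false,[(35,2),(3,34),(18,25),(24,19),(7,2),(3,6),(22,17),(16,23)],(3,6),.mon 1 0 0,[(16,25),(0,25),(9,23),(4,19),(16,20),(24,20),(3,34),(36,23),(33,19),(0,17)]⟩),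
  (.comm 1 0 0,⟨false,[],(3,26),.all,[]⟩),
  (.rho 59,⟨false,[],(23,11),.all,[]⟩),
  (.spec 0,⟨false,[],(23,11),.mon 0 0 0,[]⟩),
  (.comm 14 0 0,⟨false,[],(3,11),.all,[]⟩),
  (.cc 40,⟨false,[],(11,27),.all,[]⟩),
  (.rho 12,⟨false,[],(27,3),.all,[]⟩),
  (.spec 0,⟨false,[],(27,3),.mon 0 0 0,[]⟩),
  (.comm 2 0 0,⟨false,[],(11,3),.all,[]⟩),
  (.cN 66 4 0,⟨false,[],(2,22),.all,[]⟩),
  (.rho 0,⟨false,[],(23,3),.all,[]⟩),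
  (.spec 0,⟨false,[],(23,3),.mon 0 0 0,[]⟩),
  (.comm 10 0 0,⟨false,[],(23,26),.all,[]⟩),
  (.comm 0 137 0,⟨false,[],(9,26),.all,[(36,26)]⟩),
  (.drop 0 [56],⟨false,[],(9,26),.all,[]⟩),
  (.cc 0,⟨false,[],(37,18),.all,[]⟩),
  (.ca 0,⟨false,[],(5,22),.all,[]⟩),
  (.rho 0,⟨false,[],(23,4),.all,[]⟩),
  (.spec 0,⟨false,[],(23,4),.mon 0 0 0,[]⟩),
  (.comm 30 0 0,⟨false,[],(2,4),.all,[]⟩),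
  (.ca 39,⟨false,[],(4,35),.all,[]⟩),
  (.cN 80 16 12,⟨false,[],(2,34),.all,[]⟩),
  (.rho 0,⟨false,[],(35,3),.all,[]⟩),
  (.spec 0,⟨false,[],(35,3),.mon 0 0 0,[]⟩),
  (.comm 3 0 0,⟨false,[],(4,3),.all,[]⟩),
  (.ca 35,⟨false,[],(3,19),.all,[]⟩),
  (.rho 51,⟨false,[],(19,7),.all,[]⟩),
  (.spec 0,⟨false,[],(19,7),.mon 0 0 0,[]⟩),
  (.comm 2 0 0,⟨false,[],(3,7),.all,[]⟩),
  (.rho 0,⟨false,[],(6,2),.all,[]⟩),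
  (.comm 0 29 1,⟨false,[],(3,2),.all,[]⟩),
  (.cc 0,⟨false,[],(7,6),.all,[]⟩),
  (.spec 0,⟨false,[],(7,6),.mon 0 0 0,[]⟩),
  (.comm 54 0 2,⟨false,[],(7,22),.all,[(23,22)]⟩),
  (.rho 44,⟨false,[],(22,2),.all,[]⟩),
  (.cN 4 25 0,⟨false,[],(23,22),.all,[]⟩),
  (.drop 2 [0],⟨false,[],(7,22),.all,[]⟩),
  (.rho 0,⟨false,[],(23,6),.all,[]⟩),
  (.comm 0 162 0,⟨false,[],(9,6),.all,[(36,6)]⟩),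
  (.rho 118,⟨false,[],(23,11),.mon 2 0 0,[]⟩),
  (.comm 53 0 0,⟨false,[],(23,37),.all,[]⟩),
  (.spec 0,⟨false,[],(23,37),.mon 0 0 0,[]⟩),
  (.comm 81 0 0,⟨false,[],(7,37),.all,[]⟩),
  (.drop 4 [0],⟨false,[],(9,6),.all,[]⟩),
  (.cc 0,⟨false,[],(37,2),.all,[]⟩),
  (.ca 0,⟨false,[],(5,2),.all,[]⟩),
  (.comm 61 119 0,⟨false,[],(3,5),.all,[]⟩),
  (.comm 61 119 0,⟨false,[],(7,5),.all,[]⟩),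
  (.rho 104,⟨false,[],(23,35),.all,[]⟩),
  (.comm 0 164 0,⟨false,[],(36,35),.all,[(23,2),(36,2)]⟩),
  (.cc 110,⟨false,[],(22,10),.all,[]⟩),
  (.rho 128,⟨false,[],(34,22),.mon 0 2 0,[]⟩),
  (.comm 1 0 0,⟨false,[],(34,10),.all,[]⟩),
  (.cN 0 89 75,⟨false,[],(6,10),.all,[]⟩),
  (.comm 0 53 0,⟨false,[],(3,10),.all,[]⟩),
  (.spec 112,⟨false,[],(10,22),.mon 0 0 0,[]⟩),
  (.comm 1 0 0,⟨false,[],(3,22),.all,[]⟩),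
  (.comm 99 131 0,⟨false,[],(3,37),.all,[]⟩),
  (.drop 8 [1,0],⟨false,[],(36,35),.all,[]⟩),
  (.ca 0,⟨false,[],(4,7),.all,[]⟩),
  (.rho 50,⟨false,[],(23,3),.all,[]⟩),
  (.spec 0,⟨false,[],(23,3),.mon 0 0 0,[]⟩),
  (.comm 7 0 0,⟨false,[],(23,10),.all,[]⟩),
  (.comm 0 187 0,⟨false,[],(9,10),.all,[(36,10)]⟩),
  (.drop 0 [77],⟨false,[],(9,10),.all,[]⟩),
  (.cc 0,⟨false,[],(37,34),.all,[]⟩),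
  (.ca 0,⟨false,[],(5,6),.all,[]⟩),
  (.rho 10,⟨false,[],(23,2),.all,[]⟩),
  (.comm 0 192 0,⟨false,[],(9,2),.all,[(36,2)]⟩),
  (.drop 0 [11],⟨false,[],(9,2),.all,[]⟩),
  (.spec 60,⟨false,[],(2,22),.mon 0 0 0,[]⟩),
  (.comm 1 0 0,⟨false,[],(9,22),.all,[]⟩),
  (.rho 0,⟨false,[],(23,8),.all,[]⟩),
  (.comm 0 188 0,⟨false,[],(36,8),.all,[]⟩),
  (.cc 0,⟨false,[],(8,36),.all,[]⟩),
  (.cN 94 1 0,⟨false,[],(8,7),.all,[]⟩),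
  (.rho 0,⟨false,[],(6,9),.all,[]⟩),
  (.comm 0 201 0,⟨false,[],(6,23),.all,[(3,9),(3,23)]⟩),
  (.comm 90 155 0,⟨false,[],(23,9),.all,[]⟩),
  (.spec 0,⟨false,[],(23,9),.mon 0 0 0,[]⟩),
  (.comm 90 0 0,⟨false,[],(3,9),.all,[]⟩),
  (.drop 3 [0,91],⟨false,[],(6,23),.all,[]⟩),
  (.rho 65,⟨false,[],(23,4),.all,[]⟩),
  (.spec 0,⟨false,[],(23,4),.mon 0 0 0,[]⟩),
  (.comm 2 0 0,⟨false,[],(6,4),.all,[]⟩),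
  (.rho 75,⟨false,[],(23,3),.all,[]⟩),
  (.spec 0,⟨false,[],(23,3),.mon 0 0 0,[]⟩),
  (.comm 98 0 1,⟨false,[],(2,3),.all,[]⟩),
  (.comm 118 87 0,⟨false,[],(3,30),.all,[]⟩),
  (.rho 79,⟨false,[],(23,3),.all,[]⟩),
  (.spec 0,⟨false,[],(23,3),.mon 0 0 0,[]⟩),
  (.comm 2 0 0,⟨false,[],(23,30),.all,[]⟩),
  (.comm 0 216 0,⟨false,[],(9,30),.all,[(36,30)]⟩),
  (.rho 180,⟨false,[],(31,19),.mon 2 0 0,[]⟩),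
  (.comm 135 0 0,⟨false,[],(31,9),.all,[]⟩),
  (.comm 0 219 0,⟨false,[],(31,23),.all,[]⟩),
  (.spec 55,⟨false,[],(23,37),.mon 0 0 0,[]⟩),
  (.comm 1 0 0,⟨false,[],(31,37),.all,[]⟩),
  (.drop 5 [0],⟨false,[],(9,30),.all,[]⟩),
  (.ca 0,⟨false,[],(33,10),.all,[]⟩),
  (.cc 0,⟨false,[],(13,34),.all,[]⟩),
  (.ca 0,⟨false,[],(29,6),.all,[]⟩),
  (.cc 0,⟨false,[],(17,2),.all,[]⟩),
  (.ca 0,⟨false,[],(25,2),.all,[]⟩),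
  (.comm 226 0 4,⟨false,[],(0,2),.all,[(24,2),(16,2),(3,20)]⟩),
  (.ca 146,⟨false,[],(23,33),.all,[]⟩),
  (.cc 0,⟨false,[],(23,13),.all,[]⟩),
  (.ca 0,⟨false,[],(19,29),.all,[]⟩),
  (.cc 0,⟨false,[],(27,17),.all,[]⟩),
  (.ca 0,⟨false,[],(15,25),.all,[]⟩),
  (.comm 0 183 0,⟨false,[],(3,25),.all,[]⟩),
  (.comm 2 185 0,⟨false,[],(3,17),.all,[]⟩),
  (.ca 97,⟨false,[],(33,14),.all,[]⟩),
  (.cc 0,⟨false,[],(13,30),.all,[]⟩),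
  (.ca 0,⟨false,[],(29,10),.all,[]⟩),
  (.cc 0,⟨false,[],(17,34),.all,[]⟩),
  (.ca 0,⟨false,[],(25,6),.all,[]⟩),
  (.cc 0,⟨false,[],(21,2),.all,[]⟩),
  (.drop 13 [7,6,0],⟨false,[],(0,2),.all,[]⟩),
  (.spec 109,⟨false,[],(2,22),.mon 0 0 0,[]⟩),
  (.comm 1 0 2,⟨false,[],(0,22),.all,[(3,22)]⟩),
  (.drop 0 [64],⟨false,[],(0,22),.all,[]⟩),
  (.rho 133,⟨false,[],(22,3),.all,[]⟩),
  (.spec 0,⟨false,[],(22,3),.mon 0 0 0,[]⟩),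
  (.comm 2 0 2,⟨false,[],(0,3),.all,[(23,3)]⟩),
  (.drop 0 [115],⟨false,[],(0,3),.all,[]⟩)],
  [(106,106),(101,101),(80,80),(79,79),(79,79),(101,101),(80,80),(106,106),(78,78),(66,66),(59,59),(41,41),(41,41),(66,66),(59,59),(78,78),(38,38),(95,95),(0,38),(7,95)]⟩ = true := by decide +kernel

theorem cXo19 : Fam.chkP .X 19 1 true false true false true
  ⟨[],[(27,38),(25,17)],[(17,4),(5,16),(19,27),(26,18)],[((36,24),some (0,0,0)),((38,15),some (0,0,0)),((25,12),some (1,0,0))],1,(4,0),(1,39),(4,39),(4,0),(1,0,0),[(6,18),(4,29),(19,30),(38,0),(38,5)],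
  [(.base 2,⟨false,[(17,4),(5,16),(19,27),(26,18),(27,38),(39,26),(25,17),(16,24)],(19,30),.mon 1 0 0,[(38,5),(38,0),(4,29),(6,18),(36,24),(38,15),(25,12),(4,0)]⟩),
  (.base 3,⟨false,[(17,4),(5,16),(19,27),(26,18),(27,38),(39,26),(25,17),(16,24)],(4,29),.mon 0 0 0,[(38,5),(38,0),(19,30),(6,18),(36,24),(38,15),(25,12),(4,0)]⟩),
  (.cc 0,⟨false,[(31,4),(5,30),(29,21),(20,28),(21,8),(9,20),(23,31),(30,22)],(4,19),.mon 0 0 0,[(8,5),(8,0),(29,16),(2,28),(10,22),(8,33),(23,34),(4,0)]⟩),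
  (.ca 0,⟨false,[(13,38),(39,12),(15,23),(22,14),(23,34),(35,22),(21,13),(12,20)],(38,25),.mon 0 0 0,[(34,39),(34,0),(15,26),(2,14),(32,20),(34,11),(21,8),(38,0)]⟩),
  (.cc 0,⟨false,[(35,8),(9,34),(33,25),(24,32),(25,12),(13,24),(27,35),(34,26)],(8,23),.mon 0 0 0,[(12,9),(12,0),(33,20),(6,32),(14,26),(12,37),(27,38),(8,0)]⟩),
  (.ca 0,⟨false,[(9,34),(35,8),(11,19),(18,10),(19,30),(31,18),(17,9),(8,16)],(34,21),.mon 0 0 0,[(30,35),(30,0),(11,22),(36,10),(28,16),(30,7),(17,4),(34,0)]⟩),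
  (.cc 0,⟨false,[(39,12),(13,38),(37,29),(28,36),(29,16),(17,28),(31,39),(38,30)],(12,27),.mon 0 0 0,[(16,13),(16,0),(37,24),(10,36),(18,30),(16,3),(31,4),(12,0)]⟩),
  (.ca 0,⟨false,[(5,30),(31,4),(7,15),(14,6),(15,26),(27,14),(13,5),(4,12)],(30,17),.mon 0 0 0,[(26,31),(26,0),(7,18),(32,6),(24,12),(26,3),(13,38),(30,0)]⟩),
  (.cc 0,⟨false,[(5,16),(17,4),(3,33),(32,2),(33,20),(21,32),(35,5),(4,34)],(16,31),.mon 0 0 0,[(20,17),(20,0),(3,28),(14,2),(22,34),(20,7),(35,8),(16,0)]⟩),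
  (.rho 0,⟨false,[(5,16),(17,4),(3,33),(32,2),(33,20),(21,32),(35,5),(4,34)],(30,17),.mon 0 0 0,[(20,17),(20,0),(3,28),(14,2),(22,34),(20,7),(35,8),(16,0)]⟩),
  (.comm 9 0 0,⟨false,[],(19,17),.mon 1 0 0,[(38,21),(38,17),(4,2),(4,21),(4,17)]⟩),
  (.base 1,⟨false,[(17,4),(5,16),(19,27),(26,18),(27,38),(39,26),(25,17),(16,24)],(38,0),.mon 1 0 0,[(38,5),(19,30),(4,29),(6,18),(36,24),(38,15),(25,12),(4,0)]⟩),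
  (.cc 0,⟨false,[(31,4),(5,30),(29,21),(20,28),(21,8),(9,20),(23,31),(30,22)],(8,0),.mon 1 0 0,[(8,5),(29,16),(4,19),(2,28),(10,22),(8,33),(23,34),(4,0)]⟩),
  (.ca 0,⟨false,[(13,38),(39,12),(15,23),(22,14),(23,34),(35,22),(21,13),(12,20)],(34,0),.mon 1 0 0,[(34,39),(15,26),(38,25),(2,14),(32,20),(34,11),(21,8),(38,0)]⟩),
  (.cc 0,⟨false,[(35,8),(9,34),(33,25),(24,32),(25,12),(13,24),(27,35),(34,26)],(12,0),.mon 1 0 0,[(12,9),(33,20),(8,23),(6,32),(14,26),(12,37),(27,38),(8,0)]⟩),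
  (.ca 0,⟨false,[(9,34),(35,8),(11,19),(18,10),(19,30),(31,18),(17,9),(8,16)],(30,0),.mon 1 0 0,[(30,35),(11,22),(34,21),(36,10),(28,16),(30,7),(17,4),(34,0)]⟩),
  (.cc 0,⟨false,[(39,12),(13,38),(37,29),(28,36),(29,16),(17,28),(31,39),(38,30)],(16,0),.mon 1 0 0,[(16,13),(37,24),(12,27),(10,36),(18,30),(16,3),(31,4),(12,0)]⟩),
  (.ca 0,⟨false,[(5,30),(31,4),(7,15),(14,6),(15,26),(27,14),(13,5),(4,12)],(26,0),.mon 1 0 0,[(26,31),(7,18),(30,17),(32,6),(24,12),(26,3),(13,38),(30,0)]⟩),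
  (.cc 0,⟨false,[(5,16),(17,4),(3,33),(32,2),(33,20),(21,32),(35,5),(4,34)],(20,0),.mon 1 0 0,[(20,17),(3,28),(16,31),(14,2),(22,34),(20,7),(35,8),(16,0)]⟩),
  (.ca 0,⟨false,[(39,26),(27,38),(3,11),(10,2),(11,22),(23,10),(9,39),(38,8)],(22,0),.mon 1 0 0,[(22,27),(3,14),(26,13),(28,2),(20,8),(22,37),(9,34),(26,0)]⟩),
  (.cc 0,⟨false,[(9,20),(21,8),(7,37),(36,6),(37,24),(25,36),(39,9),(8,38)],(24,0),.mon 1 0 0,[(24,21),(7,32),(20,35),(18,6),(26,38),(24,11),(39,12),(20,0)]⟩),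
  (.ca 0,⟨false,[(35,22),(23,34),(37,7),(6,36),(7,18),(19,6),(5,35),(34,4)],(18,0),.mon 1 0 0,[(18,23),(37,10),(22,9),(24,36),(16,4),(18,33),(5,30),(22,0)]⟩),
  (.cc 0,⟨false,[(13,24),(25,12),(11,3),(2,10),(3,28),(29,2),(5,13),(12,4)],(28,0),.mon 1 0 0,[(28,25),(11,36),(24,39),(22,10),(30,4),(28,15),(5,16),(24,0)]⟩),
  (.ca 0,⟨false,[(31,18),(19,30),(33,3),(2,32),(3,14),(15,2),(39,31),(30,38)],(14,0),.mon 1 0 0,[(14,19),(33,6),(18,5),(20,32),(12,38),(14,29),(39,26),(18,0)]⟩),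
  (.cc 0,⟨false,[(17,28),(29,16),(15,7),(6,14),(7,32),(33,6),(9,17),(16,8)],(32,0),.mon 1 0 0,[(32,29),(15,2),(28,5),(26,14),(34,8),(32,19),(9,20),(28,0)]⟩),
  (.ca 0,⟨false,[(27,14),(15,26),(29,37),(36,28),(37,10),(11,36),(35,27),(26,34)],(10,0),.mon 1 0 0,[(10,15),(29,2),(14,39),(16,28),(8,34),(10,25),(35,22),(14,0)]⟩),
  (.cc 0,⟨false,[(21,32),(33,20),(19,11),(10,18),(11,36),(37,10),(13,21),(20,12)],(36,0),.mon 1 0 0,[(36,33),(19,6),(32,9),(30,18),(38,12),(36,23),(13,24),(32,0)]⟩),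
  (.ko 16 0 0,⟨false,[],(19,17),.mon 1 0 0,[]⟩),
  (.rho 0,⟨false,[],(16,18),.mon 0 1 0,[]⟩),
  (.ca 0,⟨false,[],(26,24),.mon 0 1 0,[]⟩),
  (.rho 0,⟨false,[],(25,27),.mon 1 0 0,[]⟩),
  (.cc 0,⟨false,[],(23,21),.mon 1 0 0,[]⟩),
  (.rho 0,⟨false,[],(20,22),.mon 0 1 0,[]⟩),
  (.ca 0,⟨false,[],(22,20),.mon 0 1 0,[]⟩),
  (.rho 0,⟨false,[],(21,23),.mon 1 0 0,[]⟩),
  (.cc 0,⟨false,[],(27,25),.mon 1 0 0,[]⟩),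
  (.rho 0,⟨false,[],(24,26),.mon 0 1 0,[]⟩),
  (.ca 0,⟨false,[],(18,16),.mon 0 1 0,[]⟩),
  (.rho 0,⟨false,[],(17,19),.mon 1 0 0,[]⟩),
  (.cc 0,⟨false,[],(31,29),.mon 1 0 0,[]⟩),
  (.rho 0,⟨false,[],(28,30),.mon 0 1 0,[]⟩),
  (.ca 0,⟨false,[],(14,12),.mon 0 1 0,[]⟩),
  (.rho 0,⟨false,[],(13,15),.mon 1 0 0,[]⟩),
  (.cc 0,⟨false,[],(35,33),.mon 1 0 0,[]⟩),
  (.rho 0,⟨false,[],(32,34),.mon 0 1 0,[]⟩),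
  (.ca 0,⟨false,[],(10,8),.mon 0 1 0,[]⟩),
  (.rho 0,⟨false,[],(9,11),.mon 1 0 0,[]⟩),
  (.cc 0,⟨false,[],(39,37),.mon 1 0 0,[]⟩),
  (.rho 0,⟨false,[],(36,38),.mon 0 1 0,[]⟩),
  (.ca 0,⟨false,[],(6,4),.mon 0 1 0,[]⟩),
  (.rho 0,⟨false,[],(5,7),.mon 1 0 0,[]⟩),
  (.cc 0,⟨false,[],(5,3),.mon 1 0 0,[]⟩),
  (.rho 0,⟨false,[],(2,4),.mon 0 1 0,[]⟩),
  (.ca 0,⟨false,[],(2,38),.mon 0 1 0,[]⟩),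
  (.cc 0,⟨false,[],(6,8),.mon 0 1 0,[]⟩),
  (.ca 0,⟨false,[],(36,34),.mon 0 1 0,[]⟩),
  (.rho 0,⟨false,[],(35,37),.mon 1 0 0,[]⟩),
  (.cc 0,⟨false,[],(13,11),.mon 1 0 0,[]⟩),
  (.rho 0,⟨false,[],(10,12),.mon 0 1 0,[]⟩),
  (.cc 30,⟨false,[],(30,28),.mon 0 1 0,[]⟩),
  (.rho 0,⟨false,[],(29,31),.mon 1 0 0,[]⟩),
  (.ca 0,⟨false,[],(15,13),.mon 1 0 0,[]⟩),
  (.rho 0,⟨false,[],(12,14),.mon 0 1 0,[]⟩),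
  (.comm 4 0 0,⟨false,[],(10,14),.mon 0 2 0,[]⟩),
  (.cc 1,⟨false,[],(34,32),.mon 0 1 0,[]⟩),
  (.rho 0,⟨false,[],(33,35),.mon 1 0 0,[]⟩),
  (.ca 0,⟨false,[],(11,9),.mon 1 0 0,[]⟩),
  (.rho 0,⟨false,[],(8,10),.mon 0 1 0,[]⟩),
  (.comm 13 0 0,⟨false,[],(6,10),.mon 0 2 0,[]⟩),
  (.cc 1,⟨false,[],(38,36),.mon 0 1 0,[]⟩),
  (.rho 0,⟨false,[],(37,39),.mon 1 0 0,[]⟩),
  (.ca 0,⟨false,[],(7,5),.mon 1 0 0,[]⟩),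
  (.rho 0,⟨false,[],(4,6),.mon 0 1 0,[]⟩),
  (.comm 20 0 0,⟨false,[],(2,6),.mon 0 2 0,[]⟩),
  (.comm 5 0 0,⟨false,[],(2,10),.mon 0 4 0,[]⟩),
  (.comm 11 0 0,⟨false,[],(2,14),.mon 0 6 0,[]⟩),
  (.ca 17,⟨false,[],(32,30),.mon 0 1 0,[]⟩),
  (.rho 0,⟨false,[],(31,33),.mon 1 0 0,[]⟩),
  (.cc 0,⟨false,[],(17,15),.mon 1 0 0,[]⟩),
  (.rho 0,⟨false,[],(14,16),.mon 0 1 0,[]⟩),
  (.comm 4 0 0,⟨false,[],(2,16),.mon 0 7 0,[]⟩),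
  (.cc 8,⟨false,[],(4,2),.mon 0 1 0,[]⟩),
  (.rho 0,⟨false,[],(3,5),.mon 1 0 0,[]⟩),
  (.comm 32 0 0,⟨false,[],(3,7),.mon 2 0 0,[]⟩),
  (.ca 1,⟨false,[],(3,39),.mon 1 0 0,[]⟩),
  (.cc 0,⟨false,[],(7,9),.mon 1 0 0,[]⟩),
  (.comm 0 39 0,⟨false,[],(7,11),.mon 2 0 0,[]⟩),
  (.comm 3 0 0,⟨false,[],(3,11),.mon 4 0 0,[]⟩),
  (.ca 2,⟨false,[],(37,35),.mon 1 0 0,[]⟩),
  (.rho 0,⟨false,[],(34,36),.mon 0 1 0,[]⟩),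
  (.cc 0,⟨false,[],(12,10),.mon 0 1 0,[]⟩),
  (.rho 0,⟨false,[],(11,13),.mon 1 0 0,[]⟩),
  (.comm 0 49 0,⟨false,[],(11,15),.mon 2 0 0,[]⟩),
  (.comm 5 0 0,⟨false,[],(3,15),.mon 6 0 0,[]⟩),
  (.ca 2,⟨false,[],(33,31),.mon 1 0 0,[]⟩),
  (.rho 0,⟨false,[],(30,32),.mon 0 1 0,[]⟩),
  (.cc 0,⟨false,[],(16,14),.mon 0 1 0,[]⟩),
  (.rho 0,⟨false,[],(15,17),.mon 1 0 0,[]⟩),
  (.comm 4 0 0,⟨false,[],(3,17),.mon 7 0 0,[]⟩),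
  (.rho 0,⟨false,[],(16,2),.mon 0 7 0,[]⟩),
  (.sI 19 0,⟨true,[],(16,18),.mon 0 14 0,[]⟩),
  (.comm 32 28 0,⟨false,[],(4,10),.mon 0 3 0,[]⟩),
  (.comm 38 0 0,⟨false,[],(4,14),.mon 0 5 0,[]⟩),
  (.comm 0 23 0,⟨false,[],(4,16),.mon 0 6 0,[]⟩),
  (.comm 53 17 0,⟨false,[],(5,11),.mon 3 0 0,[]⟩),
  (.comm 12 0 0,⟨false,[],(5,15),.mon 5 0 0,[]⟩),
  (.comm 0 8 0,⟨false,[],(5,17),.mon 6 0 0,[]⟩),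
  (.rho 0,⟨false,[],(16,4),.mon 0 6 0,[]⟩),
  (.sI 4 0,⟨true,[],(16,18),.mon 0 12 0,[]⟩),
  (.sN 0,⟨true,[],(16,18),.mon 0 (-12) 0,[]⟩),
  (.sA 9 0,⟨true,[],(16,18),.mon 0 2 0,[]⟩),
  (.sF 0 82,⟨false,[],(16,18),.all,[]⟩),
  (.comm 14 73 0,⟨false,[],(15,19),.mon 2 0 0,[]⟩),
  (.comm 0 7 0,⟨false,[],(5,19),.mon 7 0 0,[]⟩),
  (.rho 0,⟨false,[],(18,4),.mon 0 7 0,[]⟩),
  (.comm 3 0 0,⟨false,[],(16,4),.all,[]⟩),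
  (.comm 0 35 0,⟨false,[],(2,4),.all,[]⟩),
  (.cc 5,⟨false,[],(30,28),.all,[]⟩),
  (.comm 61 52 0,⟨false,[],(33,37),.mon 2 0 0,[]⟩),
  (.rho 48,⟨false,[],(38,36),.mon 0 1 0,[]⟩),
  (.comm 66 0 0,⟨false,[],(2,36),.mon 0 2 0,[]⟩),
  (.rho 0,⟨false,[],(37,3),.mon 2 0 0,[]⟩),
  (.comm 3 0 0,⟨false,[],(33,3),.mon 4 0 0,[]⟩),
  (.rho 0,⟨false,[],(2,32),.mon 0 4 0,[]⟩),
  (.rho 46,⟨false,[],(32,30),.mon 0 1 0,[]⟩),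
  (.comm 1 0 0,⟨false,[],(2,30),.mon 0 5 0,[]⟩),
  (.comm 8 0 0,⟨false,[],(2,28),.all,[]⟩),
  (.rho 0,⟨false,[],(29,3),.all,[]⟩),
  (.comm 0 126 0,⟨false,[],(4,3),.all,[]⟩),
  (.comm 16 35 0,⟨false,[],(3,19),.mon 8 0 0,[]⟩),
  (.rho 0,⟨false,[],(18,2),.mon 0 8 0,[]⟩),
  (.comm 19 0 0,⟨false,[],(16,2),.all,[]⟩),
  (.rho 93,⟨false,[],(18,16),.mon 0 1 0,[]⟩),
  (.comm 1 0 0,⟨false,[],(18,2),.all,[]⟩),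
  (.rho 0,⟨false,[],(3,19),.all,[]⟩),
  (.comm 0 134 0,⟨false,[],(3,30),.all,[(3,7)]⟩),
  (.comm 72 67 0,⟨false,[],(6,14),.mon 0 4 0,[]⟩),
  (.comm 0 57 0,⟨false,[],(6,16),.mon 0 5 0,[]⟩),
  (.comm 6 0 0,⟨false,[],(6,2),.all,[]⟩),
  (.drop 3 [0],⟨false,[],(3,30),.all,[]⟩),
  (.comm 50 95 0,⟨false,[],(32,36),.mon 0 2 0,[]⟩),
  (.rho 56,⟨false,[],(38,2),.mon 0 1 0,[]⟩),
  (.comm 93 0 0,⟨false,[],(36,2),.mon 0 2 0,[]⟩),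
  (.rho 0,⟨false,[],(3,37),.mon 2 0 0,[]⟩),
  (.rho 0,⟨false,[],(36,2),.mon 0 2 0,[]⟩),
  (.comm 4 0 0,⟨false,[],(32,2),.mon 0 4 0,[]⟩),
  (.rho 0,⟨false,[],(3,33),.mon 4 0 0,[]⟩),
  (.rho 94,⟨false,[],(5,3),.mon 1 0 0,[]⟩),
  (.comm 1 0 0,⟨false,[],(5,33),.mon 5 0 0,[]⟩),
  (.comm 53 108 0,⟨false,[],(28,32),.mon 0 2 0,[]⟩),
  (.rho 0,⟨false,[],(33,29),.mon 2 0 0,[]⟩),
  (.comm 2 0 0,⟨false,[],(5,29),.mon 7 0 0,[]⟩),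
  (.rho 0,⟨false,[],(28,4),.mon 0 7 0,[]⟩),
  (.comm 35 0 0,⟨false,[],(30,4),.all,[]⟩),
  (.spec 0,⟨false,[],(30,4),.mon 0 0 0,[]⟩),
  (.comm 15 0 0,⟨false,[],(3,4),.all,[]⟩),
  (.comm 24 52 0,⟨false,[],(4,2),.all,[]⟩),
  (.comm 64 70 0,⟨false,[],(7,15),.mon 4 0 0,[]⟩),
  (.comm 45 0 0,⟨false,[],(7,19),.mon 6 0 0,[]⟩),
  (.rho 0,⟨false,[],(18,6),.mon 0 6 0,[]⟩),
  (.comm 48 0 0,⟨false,[],(16,6),.all,[]⟩),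
  (.comm 0 57 0,⟨false,[],(4,6),.all,[]⟩),
  (.rho 78,⟨false,[],(6,2),.mon 0 2 0,[]⟩),
  (.comm 42 0 0,⟨false,[],(6,36),.mon 0 4 0,[]⟩),
  (.rho 0,⟨false,[],(37,7),.mon 4 0 0,[]⟩),
  (.comm 46 0 0,⟨false,[],(33,7),.mon 6 0 0,[]⟩),
  (.rho 0,⟨false,[],(6,32),.mon 0 6 0,[]⟩),
  (.rho 89,⟨false,[],(32,30),.mon 0 1 0,[]⟩),
  (.comm 1 0 0,⟨false,[],(6,30),.mon 0 7 0,[]⟩),
  (.comm 51 0 0,⟨false,[],(6,28),.all,[]⟩),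
  (.rho 0,⟨false,[],(29,7),.all,[]⟩),
  (.comm 0 169 0,⟨false,[],(4,7),.all,[]⟩),
  (.cc 32,⟨false,[],(7,16),.all,[]⟩),
  (.spec 57,⟨false,[],(16,4),.mon 0 0 0,[]⟩),
  (.comm 1 0 0,⟨false,[],(7,4),.all,[]⟩),
  (.comm 59 37 0,⟨false,[],(6,4),.all,[]⟩),
  (.spec 59,⟨false,[],(2,4),.mon 0 0 0,[]⟩),
  (.comm 48 0 1,⟨false,[],(2,3),.all,[]⟩),
  (.rho 31,⟨false,[],(32,2),.mon 0 4 0,[]⟩),
  (.comm 29 0 0,⟨false,[],(28,2),.mon 0 6 0,[]⟩),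
  (.rho 0,⟨false,[],(3,29),.mon 6 0 0,[]⟩),
  (.rho 0,⟨false,[],(28,2),.mon 0 6 0,[]⟩),
  (.comm 64 0 0,⟨false,[],(30,2),.all,[]⟩),
  (.spec 0,⟨false,[],(30,2),.mon 0 0 0,[]⟩),
  (.comm 44 0 1,⟨false,[],(3,2),.all,[]⟩),
  (.comm 44 136 0,⟨false,[],(32,38),.mon 0 3 0,[]⟩),
  (.comm 36 0 0,⟨false,[],(28,38),.mon 0 5 0,[]⟩),
  (.comm 69 0 0,⟨false,[],(30,38),.all,[]⟩),
  (.spec 0,⟨false,[],(30,38),.mon 0 0 0,[]⟩),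
  (.comm 49 0 0,⟨false,[],(3,38),.all,[]⟩),
  (.comm 178 0 4,⟨false,[],(3,0),.all,[(3,39),(3,5),(3,15)]⟩),
  (.rho 106,⟨false,[],(38,2),.mon 0 1 0,[]⟩),
  (.comm 118 0 0,⟨false,[],(38,6),.mon 0 3 0,[]⟩),
  (.rho 0,⟨false,[],(7,39),.mon 3 0 0,[]⟩),
  (.rho 0,⟨false,[],(38,6),.mon 0 3 0,[]⟩),
  (.comm 126 0 0,⟨false,[],(38,10),.mon 0 5 0,[]⟩),
  (.rho 0,⟨false,[],(11,39),.mon 5 0 0,[]⟩),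
  (.rho 0,⟨false,[],(38,10),.mon 0 5 0,[]⟩),
  (.comm 134 0 0,⟨false,[],(38,14),.mon 0 7 0,[]⟩),
  (.rho 0,⟨false,[],(15,39),.mon 7 0 0,[]⟩),
  (.rho 120,⟨false,[],(17,15),.mon 1 0 0,[]⟩),
  (.comm 1 0 0,⟨false,[],(17,39),.mon 8 0 0,[]⟩),
  (.rho 0,⟨false,[],(38,16),.mon 0 8 0,[]⟩),
  (.comm 71 0 0,⟨false,[],(38,2),.all,[]⟩),
  (.comm 72 124 0,⟨false,[],(14,2),.all,[]⟩),
  (.drop 14 [1,48,0],⟨false,[],(3,0),.all,[]⟩),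
  (.rho 89,⟨false,[],(5,3),.all,[]⟩),
  (.spec 0,⟨false,[],(5,3),.mon 0 0 0,[]⟩),
  (.comm 2 0 2,⟨false,[],(5,0),.all,[(5,2)]⟩),
  (.drop 0 [53],⟨false,[],(5,0),.all,[]⟩),
  (.rho 81,⟨false,[],(2,5),.all,[]⟩),
  (.spec 0,⟨false,[],(2,5),.mon 0 0 0,[]⟩),
  (.comm 2 0 2,⟨false,[],(2,0),.all,[(2,4)]⟩),
  (.drop 0 [96],⟨false,[],(2,0),.all,[]⟩)],
  [(97,97),(85,85),(58,58),(57,57),(57,57),(85,85),(58,58),(97,97),(52,52),(42,42),(39,39),(38,38),(38,38),(42,42),(39,39),(52,52),(36,36),(29,29),(0,36),(8,29)]⟩ = true := by decide +kernel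

theorem cXo20 : Fam.chkP .X 20 1 true false true false true
  ⟨[],[(14,5),(38,3)],[(30,41),(40,31),(6,3),(2,7)],[((33,38),some (1,0,0)),((40,37),some (0,0,0)),((14,28),some (0,0,0))],1,(14,0),(1,31),(14,31),(14,0),(0,0,0),[(13,6),(4,9),(30,16),(30,0),(30,15)],
  [(.base 4,⟨false,[(30,41),(40,31),(6,3),(2,7),(14,5),(4,15),(38,3),(2,39)],(13,6),.mon 1 0 0,[(30,15),(30,0),(30,16),(4,9),(33,38),(40,37),(14,28),(14,0)]⟩),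
  (.base 1,⟨false,[(30,41),(40,31),(6,3),(2,7),(14,5),(4,15),(38,3),(2,39)],(30,0),.mon 0 0 0,[(30,15),(30,16),(4,9),(13,6),(33,38),(40,37),(14,28),(14,0)]⟩),
  (.cc 0,⟨false,[(18,9),(8,19),(2,7),(6,3),(34,5),(4,35),(10,7),(6,11)],(18,0),.mon 0 0 0,[(18,35),(18,32),(4,41),(37,2),(17,10),(8,13),(34,20),(34,0)]⟩),
  (.ca 0,⟨false,[(26,37),(36,27),(2,39),(38,3),(10,41),(40,11),(34,39),(38,35)],(26,0),.mon 0 0 0,[(26,11),(26,12),(40,5),(9,2),(29,34),(36,33),(10,24),(10,0)]⟩),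
  (.cc 0,⟨false,[(22,13),(12,23),(6,11),(10,7),(38,9),(8,39),(14,11),(10,15)],(22,0),.mon 0 0 0,[(22,39),(22,36),(8,5),(41,6),(21,14),(12,17),(38,24),(38,0)]⟩),
  (.ca 0,⟨false,[(22,33),(32,23),(38,35),(34,39),(6,37),(36,7),(30,35),(34,31)],(22,0),.mon 0 0 0,[(22,7),(22,8),(36,41),(5,38),(25,30),(32,29),(6,20),(6,0)]⟩),
  (.cc 0,⟨false,[(26,17),(16,27),(10,15),(14,11),(2,13),(12,3),(18,15),(14,19)],(26,0),.mon 0 0 0,[(26,3),(26,40),(12,9),(5,10),(25,18),(16,21),(2,28),(2,0)]⟩),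
  (.mul 6 0,⟨false,[(30,41),(40,31),(6,3),(2,7),(14,5),(4,15),(38,3),(2,39),(26,17),(16,27),(10,15),(14,11),(2,13),(12,3),(18,15),(14,19)],(13,6),.mon 1 0 0,[(30,15),(30,0),(30,16),(4,9),(33,38),(40,37),(14,28),(14,0),(26,0),(26,3),(26,40),(12,9),(5,10),(25,18),(16,21),(2,28),(2,0)]⟩),
  (.sq 0 7,⟨false,[],(13,6),.mon 1 0 0,[(30,0),(30,16),(14,0),(26,0),(26,40),(5,10),(2,0),(30,31),(30,15),(30,27),(30,3),(30,21),(11,9),(8,6),(26,37),(14,15),(14,27),(14,3),(26,27),(26,3),(2,3)]⟩),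
  (.base 2,⟨false,[(30,41),(40,31),(6,3),(2,7),(14,5),(4,15),(38,3),(2,39)],(30,16),.mon 0 0 0,[(30,15),(30,0),(4,9),(13,6),(33,38),(40,37),(14,28),(14,0)]⟩),
  (.base 3,⟨false,[(30,41),(40,31),(6,3),(2,7),(14,5),(4,15),(38,3),(2,39)],(4,9),.mon 0 0 0,[(30,15),(30,0),(30,16),(13,6),(33,38),(40,37),(14,28),(14,0)]⟩),
  (.cc 0,⟨false,[(18,9),(8,19),(2,7),(6,3),(34,5),(4,35),(10,7),(6,11)],(4,41),.mon 0 0 0,[(18,35),(18,0),(18,32),(37,2),(17,10),(8,13),(34,20),(34,0)]⟩),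
  (.ca 0,⟨false,[(26,37),(36,27),(2,39),(38,3),(10,41),(40,11),(34,39),(38,35)],(40,5),.mon 0 0 0,[(26,11),(26,0),(26,12),(9,2),(29,34),(36,33),(10,24),(10,0)]⟩),
  (.cc 0,⟨false,[(22,13),(12,23),(6,11),(10,7),(38,9),(8,39),(14,11),(10,15)],(8,5),.mon 0 0 0,[(22,39),(22,0),(22,36),(41,6),(21,14),(12,17),(38,24),(38,0)]⟩),
  (.ca 0,⟨false,[(22,33),(32,23),(38,35),(34,39),(6,37),(36,7),(30,35),(34,31)],(36,41),.mon 0 0 0,[(22,7),(22,0),(22,8),(5,38),(25,30),(32,29),(6,20),(6,0)]⟩),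
  (.cc 0,⟨false,[(26,17),(16,27),(10,15),(14,11),(2,13),(12,3),(18,15),(14,19)],(12,9),.mon 0 0 0,[(26,3),(26,0),(26,40),(5,10),(25,18),(16,21),(2,28),(2,0)]⟩),
  (.ca 0,⟨false,[(18,29),(28,19),(34,31),(30,35),(2,33),(32,3),(26,31),(30,27)],(32,37),.mon 0 0 0,[(18,3),(18,0),(18,4),(41,34),(21,26),(28,25),(2,16),(2,0)]⟩),
  (.cc 0,⟨false,[(30,21),(20,31),(14,19),(18,15),(6,17),(16,7),(22,19),(18,23)],(16,13),.mon 0 0 0,[(30,7),(30,0),(30,4),(9,14),(29,22),(20,25),(6,32),(6,0)]⟩),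
  (.ca 0,⟨false,[(14,25),(24,15),(30,27),(26,31),(38,29),(28,39),(22,27),(26,23)],(28,33),.mon 0 0 0,[(14,39),(14,0),(14,40),(37,30),(17,22),(24,21),(38,12),(38,0)]⟩),
  (.cc 0,⟨false,[(34,25),(24,35),(18,23),(22,19),(10,21),(20,11),(26,23),(22,27)],(20,17),.mon 0 0 0,[(34,11),(34,0),(34,8),(13,18),(33,26),(24,29),(10,36),(10,0)]⟩),
  (.rho 0,⟨false,[(34,25),(24,35),(18,23),(22,19),(10,21),(20,11),(26,23),(22,27)],(16,21),.mon 0 0 0,[(34,11),(34,0),(34,8),(13,18),(33,26),(24,29),(10,36),(10,0)]⟩),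
  (.comm 11 0 0,⟨false,[],(30,21),.mon 0 0 0,[(30,35),(30,11),(4,35),(40,11),(14,25),(14,35),(14,11)]⟩),
  (.ca 0,⟨false,[],(14,25),.mon 0 0 0,[(14,11),(14,35),(40,11),(4,35),(30,21),(30,11),(30,35)]⟩),
  (.cc 0,⟨false,[],(34,25),.mon 0 0 0,[(34,39),(34,15),(8,39),(4,15),(18,29),(18,39),(18,15)]⟩),
  (.ca 0,⟨false,[],(10,21),.mon 0 0 0,[(10,7),(10,31),(36,7),(40,31),(26,17),(26,7),(26,31)]⟩),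
  (.cc 0,⟨false,[],(38,29),.mon 0 0 0,[(38,3),(38,19),(12,3),(8,19),(22,33),(22,3),(22,19)]⟩),
  (.ca 0,⟨false,[],(6,17),.mon 0 0 0,[(6,3),(6,27),(32,3),(36,27),(22,13),(22,3),(22,27)]⟩),
  (.cc 0,⟨false,[],(2,33),.mon 0 0 0,[(2,7),(2,23),(16,7),(12,23),(26,37),(26,7),(26,23)]⟩),
  (.ca 0,⟨false,[],(2,13),.mon 0 0 0,[(2,39),(2,23),(28,39),(32,23),(18,9),(18,39),(18,23)]⟩),
  (.comm 20 0 0,⟨false,[],(2,6),.mon 1 0 0,[]⟩),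
  (.ca 0,⟨false,[],(2,38),.mon 1 0 0,[]⟩),
  (.cc 0,⟨false,[],(6,10),.mon 1 0 0,[]⟩),
  (.cc 2,⟨false,[],(6,2),.mon 1 0 0,[]⟩),
  (.rho 0,⟨false,[],(3,7),.mon 0 1 0,[]⟩),
  (.ca 0,⟨false,[],(3,39),.mon 0 1 0,[]⟩),
  (.cc 0,⟨false,[],(7,11),.mon 0 1 0,[]⟩),
  (.rho 0,⟨false,[],(10,6),.mon 1 0 0,[]⟩),
  (.sI 5 0,⟨true,[],(2,6),.mon 2 0 0,[]⟩),
  (.sF 0 8,⟨false,[],(2,6),.all,[]⟩),
  (.ca 7,⟨false,[],(38,34),.mon 1 0 0,[]⟩),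
  (.rho 0,⟨false,[],(35,39),.mon 0 1 0,[]⟩),
  (.cc 0,⟨false,[],(15,11),.mon 0 1 0,[]⟩),
  (.rho 0,⟨false,[],(10,14),.mon 1 0 0,[]⟩),
  (.ca 0,⟨false,[],(34,30),.mon 1 0 0,[]⟩),
  (.rho 0,⟨false,[],(31,35),.mon 0 1 0,[]⟩),
  (.rho 14,⟨false,[],(39,3),.mon 0 1 0,[]⟩),
  (.comm 12 0 0,⟨false,[],(39,7),.mon 0 2 0,[]⟩),
  (.rho 0,⟨false,[],(6,38),.mon 2 0 0,[]⟩),
  (.rho 0,⟨false,[],(39,7),.mon 0 2 0,[]⟩),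
  (.comm 8 0 0,⟨false,[],(35,7),.mon 0 3 0,[]⟩),
  (.rho 0,⟨false,[],(6,34),.mon 3 0 0,[]⟩),
  (.rho 0,⟨false,[],(35,7),.mon 0 3 0,[]⟩),
  (.comm 7 0 0,⟨false,[],(31,7),.mon 0 4 0,[]⟩),
  (.rho 0,⟨false,[],(6,30),.mon 4 0 0,[]⟩),
  (.comm 15 0 0,⟨false,[],(2,30),.all,[]⟩),
  (.comm 0 33 0,⟨false,[],(2,21),.all,[(2,35),(2,11)]⟩),
  (.ca 49,⟨false,[(18,29),(28,19),(34,31),(30,35),(2,33),(32,3),(26,31),(30,27)],(18,0),.mon 0 0 0,[(18,3),(18,4),(32,37),(41,34),(21,26),(28,25),(2,16),(2,0)]⟩),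
  (.cc 0,⟨false,[(30,21),(20,31),(14,19),(18,15),(6,17),(16,7),(22,19),(18,23)],(30,0),.mon 0 0 0,[(30,7),(30,4),(16,13),(9,14),(29,22),(20,25),(6,32),(6,0)]⟩),
  (.ko 2 0 0,⟨false,[],(2,21),.all,[]⟩),
  (.cc 0,⟨false,[],(6,29),.all,[]⟩),
  (.ca 0,⟨false,[],(38,17),.all,[]⟩),
  (.ca 22,⟨false,[],(2,38),.all,[]⟩),
  (.spec 0,⟨false,[],(2,38),.mon 0 0 0,[]⟩),
  (.comm 2 0 0,⟨false,[],(2,17),.all,[]⟩),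
  (.rho 0,⟨false,[],(16,3),.all,[]⟩),
  (.comm 0 55 0,⟨false,[],(30,3),.all,[]⟩),
  (.cc 27,⟨false,[],(6,2),.all,[]⟩),
  (.cN 5 28 0,⟨false,[],(6,38),.all,[]⟩),
  (.comm 0 67 0,⟨false,[],(13,38),.all,[]⟩),
  (.cc 0,⟨false,[],(37,10),.all,[]⟩),
  (.ca 0,⟨false,[],(9,34),.all,[]⟩),
  (.cc 0,⟨false,[],(41,14),.all,[]⟩),
  (.ca 0,⟨false,[],(5,30),.all,[]⟩),
  (.spec 0,⟨false,[],(5,30),.mon 0 0 0,[]⟩),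
  (.comm 8 0 0,⟨false,[],(5,3),.all,[]⟩),
  (.cc 14,⟨false,[],(10,33),.all,[]⟩),
  (.ca 0,⟨false,[],(34,13),.all,[]⟩),
  (.cc 0,⟨false,[],(14,37),.all,[]⟩),
  (.ca 0,⟨false,[],(30,9),.all,[]⟩),
  (.cc 0,⟨false,[],(18,41),.all,[]⟩),
  (.ca 0,⟨false,[],(26,5),.all,[]⟩),
  (.cc 36,⟨false,[],(19,15),.mon 0 1 0,[]⟩),
  (.rho 0,⟨false,[],(14,18),.mon 1 0 0,[]⟩),
  (.ca 0,⟨false,[],(30,26),.mon 1 0 0,[]⟩),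
  (.rho 0,⟨false,[],(27,31),.mon 0 1 0,[]⟩),
  (.rho 31,⟨false,[],(31,7),.mon 0 4 0,[]⟩),
  (.comm 1 0 0,⟨false,[],(27,7),.mon 0 5 0,[]⟩),
  (.rho 0,⟨false,[],(6,26),.mon 5 0 0,[]⟩),
  (.comm 49 0 0,⟨false,[],(2,26),.all,[]⟩),
  (.spec 0,⟨false,[],(2,26),.mon 0 0 0,[]⟩),
  (.comm 9 0 0,⟨false,[],(2,5),.all,[]⟩),
  (.cc 29,⟨false,[],(6,10),.all,[]⟩),
  (.comm 0 91 0,⟨false,[],(13,10),.all,[]⟩),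
  (.cc 0,⟨false,[],(37,38),.all,[]⟩),
  (.ca 0,⟨false,[],(9,6),.all,[]⟩),
  (.cc 0,⟨false,[],(41,2),.all,[]⟩),
  (.ca 0,⟨false,[],(5,2),.all,[]⟩),
  (.comm 30 96 0,⟨false,[],(13,2),.all,[]⟩),
  (.cc 0,⟨false,[],(37,6),.all,[]⟩),
  (.ca 0,⟨false,[],(9,38),.all,[]⟩),
  (.ca 33,⟨false,[],(38,2),.all,[]⟩),
  (.spec 0,⟨false,[],(38,2),.mon 0 0 0,[]⟩),
  (.comm 2 0 0,⟨false,[],(9,2),.all,[]⟩),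
  (.comm 0 92 0,⟨false,[],(4,2),.all,[]⟩),
  (.comm 9 93 0,⟨false,[],(4,6),.all,[]⟩),
  (.spec 38,⟨false,[],(6,2),.mon 0 0 0,[]⟩),
  (.comm 17 0 0,⟨false,[],(6,26),.all,[]⟩),
  (.spec 0,⟨false,[],(6,26),.mon 0 0 0,[]⟩),
  (.comm 27 0 0,⟨false,[],(6,5),.all,[]⟩),
  (.cc 9,⟨false,[],(41,10),.all,[]⟩),
  (.ca 0,⟨false,[],(5,34),.all,[]⟩),
  (.ca 75,⟨false,[],(39,35),.mon 0 1 0,[]⟩),
  (.rho 0,⟨false,[],(34,38),.mon 1 0 0,[]⟩),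
  (.rho 78,⟨false,[],(38,2),.mon 1 0 0,[]⟩),
  (.comm 1 0 0,⟨false,[],(34,2),.mon 2 0 0,[]⟩),
  (.rho 0,⟨false,[],(3,35),.mon 0 2 0,[]⟩),
  (.rho 0,⟨false,[],(34,2),.mon 2 0 0,[]⟩),
  (.comm 78 0 0,⟨false,[],(34,6),.all,[]⟩),
  (.spec 0,⟨false,[],(34,6),.mon 0 0 0,[]⟩),
  (.comm 8 0 0,⟨false,[],(5,6),.all,[]⟩),
  (.rho 4,⟨false,[],(34,2),.mon 2 0 0,[]⟩),
  (.comm 59 0 0,⟨false,[],(34,38),.all,[]⟩),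
  (.spec 0,⟨false,[],(34,38),.mon 0 0 0,[]⟩),
  (.comm 12 0 0,⟨false,[],(5,38),.all,[]⟩),
  (.spec 0,⟨false,[],(5,38),.mon 0 0 0,[]⟩),
  (.comm 64 0 0,⟨false,[],(5,17),.all,[]⟩),
  (.rho 0,⟨false,[],(16,4),.all,[]⟩),
  (.comm 0 117 0,⟨false,[],(30,4),.all,[(16,9),(30,9)]⟩),
  (.rho 4,⟨false,[],(39,4),.all,[]⟩),
  (.comm 0 118 0,⟨false,[],(39,9),.all,[]⟩),
  (.rho 0,⟨false,[],(8,38),.all,[]⟩),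
  (.spec 0,⟨false,[],(8,38),.mon 0 0 0,[]⟩),
  (.comm 71 0 0,⟨false,[],(8,17),.all,[]⟩),
  (.drop 5 [0,54],⟨false,[],(30,4),.all,[]⟩),
  (.spec 67,⟨false,[],(6,2),.mon 0 0 0,[]⟩),
  (.comm 80 0 0,⟨false,[],(6,30),.all,[]⟩),
  (.spec 0,⟨false,[],(6,30),.mon 0 0 0,[]⟩),
  (.comm 3 0 0,⟨false,[],(6,4),.all,[]⟩),
  (.spec 83,⟨false,[],(2,30),.mon 0 0 0,[]⟩),
  (.comm 73 0 1,⟨false,[],(2,3),.all,[]⟩),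
  (.rho 43,⟨false,[],(3,4),.all,[]⟩),
  (.comm 0 130 0,⟨false,[],(3,9),.all,[]⟩),
  (.spec 39,⟨false,[],(9,2),.mon 0 0 0,[]⟩),
  (.comm 1 0 1,⟨false,[],(3,2),.all,[]⟩),
  (.comm 105 93 0,⟨false,[],(2,34),.all,[]⟩),
  (.spec 78,⟨false,[],(6,2),.mon 0 0 0,[]⟩),
  (.comm 1 0 0,⟨false,[],(6,34),.all,[]⟩),
  (.comm 0 146 0,⟨false,[],(13,34),.all,[]⟩),
  (.cc 0,⟨false,[],(37,14),.all,[]⟩),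
  (.ca 0,⟨false,[],(9,30),.all,[]⟩),
  (.spec 0,⟨false,[],(9,30),.mon 0 0 0,[]⟩),
  (.comm 9 0 0,⟨false,[],(3,30),.all,[]⟩),
  (.comm 150 0 4,⟨false,[],(3,0),.all,[(3,31),(3,15),(3,16)]⟩),
  (.cc 40,⟨false,[],(14,10),.mon 1 0 0,[]⟩),
  (.rho 0,⟨false,[],(11,15),.mon 0 1 0,[]⟩),
  (.ca 0,⟨false,[],(35,31),.mon 0 1 0,[]⟩),
  (.rho 0,⟨false,[],(30,34),.mon 1 0 0,[]⟩),
  (.rho 41,⟨false,[],(34,2),.mon 2 0 0,[]⟩),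
  (.comm 1 0 0,⟨false,[],(30,2),.mon 3 0 0,[]⟩),
  (.rho 0,⟨false,[],(3,31),.mon 0 3 0,[]⟩),
  (.rho 0,⟨false,[],(30,2),.mon 3 0 0,[]⟩),
  (.comm 122 0 0,⟨false,[],(30,6),.all,[]⟩),
  (.spec 95,⟨false,[],(6,2),.mon 0 0 0,[]⟩),
  (.comm 1 0 0,⟨false,[],(30,2),.all,[]⟩),
  (.cc 46,⟨false,[],(14,2),.all,[]⟩),
  (.ca 96,⟨false,[],(33,6),.all,[]⟩),
  (.cc 0,⟨false,[],(17,2),.all,[]⟩),
  (.drop 14 [3,2,0],⟨false,[],(3,0),.all,[]⟩),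
  (.rho 113,⟨false,[],(31,3),.all,[]⟩),
  (.spec 0,⟨false,[],(31,3),.mon 0 0 0,[]⟩),
  (.comm 2 0 2,⟨false,[],(31,0),.all,[(31,2)]⟩),
  (.drop 0 [19],⟨false,[],(31,0),.all,[]⟩),
  (.rho 106,⟨false,[],(2,31),.all,[]⟩),
  (.spec 0,⟨false,[],(2,31),.mon 0 0 0,[]⟩),
  (.comm 2 0 2,⟨false,[],(2,0),.all,[(2,30)]⟩),
  (.drop 0 [120],⟨false,[],(2,0),.all,[]⟩)],
  [(101,101),(85,85),(79,79),(72,72),(72,72),(85,85),(79,79),(101,101),(71,71),(67,67),(56,56),(38,38),(38,38),(67,67),(56,56),(71,71),(36,36),(32,32),(0,36),(8,32)]⟩ = true := by decide +kernel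


end Pool.Agent.MP_c78e8e_al.H75

end

section

namespace Pool.Agent.MP_c78e8e_al.H75

theorem cXow : Fam.chkP .X 21 11 false false true false true
  ⟨[(15,14)],[(16,24)],[(31,30),(28,20),(21,29)],[((17,18),some (0,0,0)),((22,31),some (1,0,0)),((20,18),some (0,0,0))],1,(0,25),(20,1),(20,25),(0,25),(0,0,0),[(29,26),(22,15),(24,26),(0,21),(24,21)],
  [(.base 4,⟨false,[(31,30),(28,20),(21,29),(15,14),(16,24),(25,17)],(29,26),.mon 0 0 0,[(24,21),(0,21),(24,26),(22,15),(17,18),(22,31),(20,18),(0,25)]⟩),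
  (.base 6,⟨false,[(31,30),(28,20),(21,29),(15,14),(16,24),(25,17)],(22,31),.mon 1 0 0,[(24,21),(0,21),(24,26),(22,15),(29,26),(17,18),(20,18),(0,25)]⟩),
  (.cc 0,⟨false,[(19,18),(20,28),(29,21),(35,34),(32,24),(25,33)],(26,19),.mon 1 0 0,[(24,29),(0,29),(24,22),(26,35),(21,22),(33,30),(28,30),(0,25)]⟩),
  (.base 1,⟨false,[(31,30),(28,20),(21,29),(15,14),(16,24),(25,17)],(0,21),.mon 0 0 0,[(24,21),(24,26),(22,15),(29,26),(17,18),(22,31),(20,18),(0,25)]⟩),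
  (.cc 0,⟨false,[(19,18),(20,28),(29,21),(35,34),(32,24),(25,33)],(0,29),.mon 0 0 0,[(24,29),(24,22),(26,35),(21,22),(33,30),(26,19),(28,30),(0,25)]⟩),
  (.ca 0,⟨false,[(27,26),(24,16),(17,25),(11,10),(12,20),(21,13)],(0,17),.mon 0 0 0,[(20,17),(20,22),(18,11),(25,22),(13,14),(18,27),(16,14),(0,21)]⟩),
  (.cc 0,⟨false,[(23,22),(24,32),(33,25),(39,38),(36,28),(29,37)],(0,33),.mon 0 0 0,[(28,33),(28,26),(30,39),(25,26),(37,34),(30,23),(32,34),(0,29)]⟩),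
  (.ca 0,⟨false,[(23,22),(20,12),(13,21),(7,6),(8,16),(17,9)],(0,13),.mon 0 0 0,[(16,13),(16,18),(14,7),(21,18),(9,10),(14,23),(12,10),(0,17)]⟩),
  (.cc 0,⟨false,[(27,26),(28,36),(37,29),(43,42),(40,32),(33,41)],(0,37),.mon 0 0 0,[(32,37),(32,30),(34,43),(29,30),(41,38),(34,27),(36,38),(0,33)]⟩),
  (.ca 0,⟨false,[(19,18),(16,8),(9,17),(3,2),(4,12),(13,5)],(0,9),.mon 0 0 0,[(12,9),(12,14),(10,3),(17,14),(5,6),(10,19),(8,6),(0,13)]⟩),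
  (.mul 7 0,⟨false,[(19,18),(20,28),(29,21),(35,34),(32,24),(25,33),(19,18),(16,8),(9,17),(3,2),(4,12),(13,5)],(26,19),.mon 1 0 0,[(24,29),(0,29),(24,22),(26,35),(21,22),(33,30),(28,30),(0,25),(0,9),(12,9),(12,14),(10,3),(17,14),(5,6),(10,19),(8,6),(0,13)]⟩),
  (.sq 0 5,⟨false,[],(26,19),.mon 1 0 0,[(0,29),(0,25),(0,9),(10,19),(0,13),(28,29),(24,29),(8,29),(12,29),(24,25),(8,25),(12,25),(8,9),(12,9),(12,13)]⟩),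
  (.ko 0 2 3,⟨false,[],(26,19),.mon 1 0 0,[(0,9),(10,19),(0,13),(28,29),(24,29),(8,29),(12,29),(24,25),(8,25),(12,25),(8,9),(12,9),(12,13)]⟩),
  (.base 2,⟨false,[(31,30),(28,20),(21,29),(15,14),(16,24),(25,17)],(24,26),.mon 0 0 0,[(24,21),(0,21),(22,15),(29,26),(17,18),(22,31),(20,18),(0,25)]⟩),
  (.mul 0 5,⟨false,[(31,30),(28,20),(21,29),(15,14),(16,24),(25,17),(27,26),(28,36),(37,29),(43,42),(40,32),(33,41)],(24,26),.mon 0 0 0,[(24,21),(0,21),(22,15),(29,26),(17,18),(22,31),(20,18),(0,25),(0,37),(32,37),(32,30),(34,43),(29,30),(41,38),(34,27),(36,38),(0,33)]⟩),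
  (.sq 0 5,⟨false,[],(24,26),.mon 0 0 0,[(0,21),(0,25),(0,37),(32,30),(0,33),(20,21),(24,21),(36,21),(32,21),(24,35),(29,35),(22,33),(22,28),(24,25),(36,25),(32,25),(36,37),(32,37),(32,33)]⟩),
  (.ca 0,⟨false,[],(20,18),.mon 0 0 0,[(0,25),(0,21),(0,9),(12,14),(0,13),(24,25),(20,25),(8,25),(12,25),(20,11),(17,11),(22,13),(22,16),(20,21),(8,21),(12,21),(8,9),(12,9),(12,13)]⟩),
  (.rho 0,⟨false,[],(19,21),.mon 0 0 0,[(0,25),(0,21),(0,9),(12,14),(0,13),(24,25),(20,25),(8,25),(12,25),(20,11),(17,11),(22,13),(22,16),(20,21),(8,21),(12,21),(8,9),(12,9),(12,13)]⟩),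
  (.comm 5 0 0,⟨false,[],(26,21),.mon 1 0 0,[(24,9),(20,9),(8,9),(12,9),(10,21),(24,13),(20,13),(12,13)]⟩),
  (.ko 0 10 0,⟨false,[],(26,21),.mon 1 0 0,[]⟩),
  (.rho 0,⟨false,[],(20,27),.mon 0 1 0,[]⟩),
  (.ca 0,⟨false,[],(24,19),.mon 0 1 0,[]⟩),
  (.rho 0,⟨false,[],(18,25),.mon 1 0 0,[]⟩),
  (.cc 0,⟨false,[],(30,25),.mon 1 0 0,[]⟩),
  (.rho 0,⟨false,[],(24,31),.mon 0 1 0,[]⟩),
  (.ca 0,⟨false,[],(20,15),.mon 0 1 0,[]⟩),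
  (.rho 0,⟨false,[],(14,21),.mon 1 0 0,[]⟩),
  (.cc 0,⟨false,[],(34,29),.mon 1 0 0,[]⟩),
  (.rho 0,⟨false,[],(28,35),.mon 0 1 0,[]⟩),
  (.rho 0,⟨false,[],(34,29),.mon 1 0 0,[]⟩),
  (.comm 29 0 0,⟨false,[],(34,26),.mon 1 0 0,[]⟩),
  (.rho 0,⟨false,[],(27,35),.mon 0 1 0,[]⟩),
  (.ca 0,⟨false,[],(19,11),.mon 0 1 0,[]⟩),
  (.rho 0,⟨false,[],(10,18),.mon 1 0 0,[]⟩),
  (.cc 0,⟨false,[],(38,30),.mon 1 0 0,[]⟩),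
  (.rho 0,⟨false,[],(31,39),.mon 0 1 0,[]⟩),
  (.ca 0,⟨false,[],(15,7),.mon 0 1 0,[]⟩),
  (.rho 0,⟨false,[],(6,14),.mon 1 0 0,[]⟩),
  (.cc 0,⟨false,[],(42,34),.mon 1 0 0,[]⟩),
  (.rho 0,⟨false,[],(35,43),.mon 0 1 0,[]⟩),
  (.ca 0,⟨false,[],(11,3),.mon 0 1 0,[]⟩),
  (.rho 0,⟨false,[],(2,10),.mon 1 0 0,[]⟩),
  (.cc 21,⟨false,[],(28,23),.mon 0 1 0,[]⟩),
  (.rho 0,⟨false,[],(22,29),.mon 1 0 0,[]⟩),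
  (.comm 43 0 0,⟨false,[],(22,26),.mon 1 0 0,[]⟩),
  (.cc 0,⟨false,[],(26,22),.mon 1 0 0,[]⟩),
  (.rho 0,⟨false,[],(23,27),.mon 0 1 0,[]⟩),
  (.ca 0,⟨false,[],(23,19),.mon 0 1 0,[]⟩),
  (.rho 0,⟨false,[],(18,22),.mon 1 0 0,[]⟩),
  (.comm 0 15 0,⟨false,[],(10,22),.mon 2 0 0,[]⟩),
  (.comm 8 0 0,⟨false,[],(2,22),.mon 3 0 0,[]⟩),
  (.ca 6,⟨false,[],(22,18),.mon 1 0 0,[]⟩),
  (.rho 0,⟨false,[],(19,23),.mon 0 1 0,[]⟩),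
  (.cc 0,⟨false,[],(31,27),.mon 0 1 0,[]⟩),
  (.rho 0,⟨false,[],(26,30),.mon 1 0 0,[]⟩),
  (.ca 0,⟨false,[],(18,14),.mon 1 0 0,[]⟩),
  (.rho 0,⟨false,[],(15,19),.mon 0 1 0,[]⟩),
  (.cc 0,⟨false,[],(35,31),.mon 0 1 0,[]⟩),
  (.rho 0,⟨false,[],(30,34),.mon 1 0 0,[]⟩),
  (.ca 0,⟨false,[],(14,10),.mon 1 0 0,[]⟩),
  (.rho 0,⟨false,[],(11,15),.mon 0 1 0,[]⟩),
  (.cc 0,⟨false,[],(39,35),.mon 0 1 0,[]⟩),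
  (.rho 0,⟨false,[],(34,38),.mon 1 0 0,[]⟩),
  (.ca 0,⟨false,[],(10,6),.mon 1 0 0,[]⟩),
  (.rho 0,⟨false,[],(7,11),.mon 0 1 0,[]⟩),
  (.cc 0,⟨false,[],(43,39),.mon 0 1 0,[]⟩),
  (.rho 0,⟨false,[],(38,42),.mon 1 0 0,[]⟩),
  (.ca 0,⟨false,[],(6,2),.mon 1 0 0,[]⟩),
  (.rho 0,⟨false,[],(3,7),.mon 0 1 0,[]⟩),
  (.comm 12 16 0,⟨false,[],(15,23),.mon 0 2 0,[]⟩),
  (.comm 9 0 0,⟨false,[],(11,23),.mon 0 3 0,[]⟩),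
  (.comm 6 0 0,⟨false,[],(7,23),.mon 0 4 0,[]⟩),
  (.comm 3 0 0,⟨false,[],(3,23),.mon 0 5 0,[]⟩),
  (.rho 0,⟨false,[],(22,2),.mon 5 0 0,[]⟩),
  (.sI 23 0,⟨true,[],(22,26),.mon 8 0 0,[]⟩),
  (.cc 43,⟨false,[],(23,15),.mon 0 1 0,[]⟩),
  (.rho 0,⟨false,[],(14,22),.mon 1 0 0,[]⟩),
  (.comm 39 0 0,⟨false,[],(6,22),.mon 2 0 0,[]⟩),
  (.rho 6,⟨false,[],(22,6),.mon 4 0 0,[]⟩),
  (.sI 1 0,⟨true,[],(22,26),.mon 6 0 0,[]⟩),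
  (.sN 0,⟨true,[],(22,26),.mon (-6) 0 0,[]⟩),
  (.sA 6 0,⟨true,[],(22,26),.mon 2 0 0,[]⟩),
  (.sF 0 37,⟨false,[],(22,26),.all,[]⟩),
  (.comm 36 30 0,⟨false,[],(19,27),.mon 0 2 0,[]⟩),
  (.comm 27 0 0,⟨false,[],(15,27),.mon 0 3 0,[]⟩),
  (.rho 0,⟨false,[],(26,14),.mon 3 0 0,[]⟩),
  (.comm 3 0 0,⟨false,[],(22,14),.all,[]⟩),
  (.comm 0 36 0,⟨false,[],(2,14),.all,[]⟩),
  (.rho 0,⟨false,[],(15,3),.all,[]⟩),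
  (.base 3,⟨false,[(31,30),(28,20),(21,29),(15,14),(16,24),(25,17)],(22,15),.mon 1 0 0,[(24,21),(0,21),(24,26),(29,26),(17,18),(22,31),(20,18),(0,25)]⟩),
  (.comm 1 0 0,⟨false,[],(22,3),.all,[]⟩),
  (.comm 30 6 0,⟨false,[],(11,27),.mon 0 4 0,[]⟩),
  (.comm 27 0 0,⟨false,[],(7,27),.mon 0 5 0,[]⟩),
  (.comm 24 0 0,⟨false,[],(3,27),.mon 0 6 0,[]⟩),
  (.rho 0,⟨false,[],(26,2),.mon 6 0 0,[]⟩),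
  (.comm 12 0 0,⟨false,[],(22,2),.all,[]⟩),
  (.cc 13,⟨false,[],(26,22),.all,[]⟩),
  (.spec 0,⟨false,[],(26,22),.mon 0 0 0,[]⟩),
  (.comm 2 0 0,⟨false,[],(26,2),.all,[]⟩),
  (.rho 0,⟨false,[],(3,27),.all,[]⟩),
  (.spec 0,⟨false,[],(3,27),.mon 0 0 0,[]⟩),
  (.comm 10 0 0,⟨false,[],(22,27),.all,[]⟩),
  (.rho 0,⟨false,[],(26,23),.all,[]⟩),
  (.comm 0 102 0,⟨false,[],(29,23),.all,[(24,23)]⟩),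
  (.comm 55 59 0,⟨false,[],(18,26),.mon 2 0 0,[]⟩),
  (.comm 0 71 0,⟨false,[],(10,26),.mon 3 0 0,[]⟩),
  (.comm 64 0 0,⟨false,[],(2,26),.mon 4 0 0,[]⟩),
  (.rho 0,⟨false,[],(27,3),.mon 0 4 0,[]⟩),
  (.sI 0 14,⟨true,[],(20,27),.mon 0 10 0,[]⟩),
  (.ca 32,⟨false,[],(30,22),.mon 1 0 0,[]⟩),
  (.rho 0,⟨false,[],(23,31),.mon 0 1 0,[]⟩),
  (.cc 0,⟨false,[],(27,19),.mon 0 1 0,[]⟩),
  (.rho 0,⟨false,[],(18,26),.mon 1 0 0,[]⟩),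
  (.comm 0 79 0,⟨false,[],(10,26),.mon 2 0 0,[]⟩),
  (.comm 72 0 0,⟨false,[],(2,26),.mon 3 0 0,[]⟩),
  (.rho 0,⟨false,[],(27,3),.mon 0 3 0,[]⟩),
  (.sI 0 22,⟨true,[],(20,27),.mon 0 9 0,[]⟩),
  (.sN 0,⟨true,[],(20,27),.mon 0 (-9) 0,[]⟩),
  (.sA 9 0,⟨true,[],(20,27),.mon 0 1 0,[]⟩),
  (.sF 0 98,⟨false,[],(20,27),.all,[]⟩),
  (.ca 0,⟨false,[],(24,19),.all,[]⟩),
  (.comm 0 68 0,⟨false,[],(24,23),.all,[]⟩),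
  (.drop 18 [0],⟨false,[],(29,23),.all,[]⟩),
  (.rho 3,⟨false,[],(26,21),.all,[]⟩),
  (.comm 0 123 0,⟨false,[],(29,21),.all,[(24,21)]⟩),
  (.base 7,⟨false,[(31,30),(28,20),(21,29),(15,14),(16,24),(25,17)],(20,18),.mon 0 0 0,[(24,21),(0,21),(24,26),(22,15),(29,26),(17,18),(22,31),(0,25)]⟩),
  (.mul 0 116,⟨false,[(31,30),(28,20),(21,29),(15,14),(16,24),(25,17),(19,18),(16,8),(9,17),(3,2),(4,12),(13,5)],(20,18),.mon 0 0 0,[(24,21),(0,21),(24,26),(22,15),(29,26),(17,18),(22,31),(0,25),(0,9),(12,9),(12,14),(10,3),(17,14),(5,6),(10,19),(8,6),(0,13)]⟩),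
  (.sq 0 5,⟨false,[],(20,18),.mon 0 0 0,[(0,21),(0,25),(0,9),(12,14),(0,13),(20,21),(24,21),(8,21),(12,21),(22,13),(22,16),(17,11),(20,11),(24,25),(8,25),(12,25),(8,9),(12,9),(12,13)]⟩),
  (.ca 0,⟨false,[],(24,26),.mon 0 0 0,[(0,25),(0,21),(0,37),(32,30),(0,33),(24,25),(20,25),(36,25),(32,25),(22,33),(22,28),(29,35),(24,35),(20,21),(36,21),(32,21),(36,37),(32,37),(32,33)]⟩),
  (.comm 110 0 0,⟨false,[],(24,21),.mon 1 0 0,[]⟩),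
  (.rho 0,⟨false,[],(20,25),.mon 0 1 0,[]⟩),
  (.cc 0,⟨false,[],(28,25),.mon 0 1 0,[]⟩),
  (.rho 0,⟨false,[],(24,29),.mon 1 0 0,[]⟩),
  (.comm 132 0 0,⟨false,[],(24,26),.mon 1 0 0,[]⟩),
  (.rho 0,⟨false,[],(27,25),.mon 0 1 0,[]⟩),
  (.comm 15 0 0,⟨false,[],(20,25),.all,[]⟩),
  (.drop 11 [0],⟨false,[],(29,21),.all,[]⟩),
  (.cc 0,⟨false,[],(21,29),.all,[]⟩),
  (.cN 15 1 0,⟨false,[],(21,23),.all,[]⟩),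
  (.ca 0,⟨false,[],(25,23),.all,[]⟩),
  (.comm 41 139 0,⟨false,[],(29,2),.all,[(24,2)]⟩),
  (.rho 47,⟨false,[],(26,2),.mon 6 0 0,[]⟩),
  (.sI 0 35,⟨true,[],(24,26),.mon 10 0 0,[]⟩),
  (.rho 50,⟨false,[],(26,6),.mon 5 0 0,[]⟩),
  (.comm 67 99 0,⟨false,[],(14,26),.mon 2 0 0,[]⟩),
  (.comm 107 0 0,⟨false,[],(6,26),.mon 3 0 0,[]⟩),
  (.sI 2 0,⟨true,[],(24,26),.mon 8 0 0,[]⟩),
  (.sN 0,⟨true,[],(24,26),.mon (-8) 0 0,[]⟩),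
  (.sA 5 0,⟨true,[],(24,26),.mon 2 0 0,[]⟩),
  (.sF 0 15,⟨false,[],(24,26),.all,[]⟩),
  (.rho 56,⟨false,[],(26,2),.mon 6 0 0,[]⟩),
  (.comm 1 0 0,⟨false,[],(24,2),.all,[]⟩),
  (.drop 11 [0],⟨false,[],(29,2),.all,[]⟩),
  (.comm 70 102 0,⟨false,[],(2,26),.all,[]⟩),
  (.spec 0,⟨false,[],(2,26),.mon 0 0 0,[]⟩),
  (.comm 2 0 0,⟨false,[],(29,26),.all,[]⟩),
  (.cc 0,⟨false,[],(21,22),.all,[]⟩),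
  (.ca 0,⟨false,[],(25,22),.all,[]⟩),
  (.cc 8,⟨false,[],(24,22),.all,[]⟩),
  (.comm 38 75 0,⟨false,[],(24,27),.all,[]⟩),
  (.ca 77,⟨false,[],(22,18),.all,[]⟩),
  (.cN 0 78 64,⟨false,[],(26,18),.all,[]⟩),
  (.comm 0 161 0,⟨false,[],(29,18),.all,[(24,18)]⟩),
  (.rho 79,⟨false,[],(26,18),.mon 2 0 0,[]⟩),
  (.comm 14 0 0,⟨false,[],(24,18),.all,[]⟩),
  (.drop 2 [0],⟨false,[],(29,18),.all,[]⟩),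
  (.cN 0 29 28,⟨false,[],(21,18),.all,[]⟩),
  (.ca 0,⟨false,[],(25,26),.all,[]⟩),
  (.cc 45,⟨false,[],(21,27),.all,[]⟩),
  (.rho 9,⟨false,[],(26,25),.all,[]⟩),
  (.comm 0 169 0,⟨false,[],(29,25),.all,[(24,25)]⟩),
  (.cc 37,⟨false,[],(24,22),.mon 1 0 0,[]⟩),
  (.rho 0,⟨false,[],(23,25),.mon 0 1 0,[]⟩),
  (.comm 120 0 0,⟨false,[],(19,25),.mon 0 2 0,[]⟩),
  (.comm 53 0 1,⟨false,[],(24,25),.all,[]⟩),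
  (.drop 4 [0],⟨false,[],(29,25),.all,[]⟩),
  (.cc 0,⟨false,[],(21,25),.all,[]⟩),
  (.ca 0,⟨false,[],(25,21),.all,[]⟩),
  (.cN 9 1 0,⟨false,[],(25,27),.all,[]⟩),
  (.rho 92,⟨false,[],(15,23),.all,[]⟩),
  (.comm 0 90 1,⟨false,[],(22,23),.all,[]⟩),
  (.ca 31,⟨false,[],(20,18),.all,[]⟩),
  (.cc 0,⟨false,[],(28,30),.all,[]⟩),
  (.rho 72,⟨false,[],(30,22),.mon 1 0 0,[]⟩),
  (.comm 1 0 0,⟨false,[],(28,22),.all,[]⟩),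
  (.rho 0,⟨false,[],(23,29),.all,[]⟩),
  (.comm 0 185 0,⟨false,[],(23,26),.all,[(14,29),(30,29),(14,26),(30,26)]⟩),
  (.cc 67,⟨false,[],(28,23),.all,[]⟩),
  (.rho 111,⟨false,[],(23,15),.mon 0 1 0,[]⟩),
  (.comm 1 0 0,⟨false,[],(28,15),.all,[]⟩),
  (.comm 2 79 0,⟨false,[],(28,31),.all,[]⟩),
  (.comm 108 114 0,⟨false,[],(14,26),.all,[]⟩),
  (.rho 81,⟨false,[],(30,22),.mon 1 0 0,[]⟩),
  (.comm 110 0 0,⟨false,[],(30,26),.all,[]⟩),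
  (.drop 7 [4,3,2,0],⟨false,[],(23,26),.all,[]⟩),
  (.spec 98,⟨false,[],(26,22),.mon 0 0 0,[]⟩),
  (.comm 1 0 1,⟨false,[],(23,22),.all,[]⟩),
  (.comm 193 58 4,⟨false,[],(0,23),.all,[(20,23),(24,23),(22,18)]⟩),
  (.rho 153,⟨false,[],(27,23),.mon 0 1 0,[]⟩),
  (.comm 79 0 0,⟨false,[],(20,23),.all,[]⟩),
  (.drop 2 [0,78,39],⟨false,[],(0,23),.all,[]⟩),
  (.spec 104,⟨false,[],(26,22),.mon 0 0 0,[]⟩),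
  (.comm 111 0 0,⟨false,[],(26,3),.all,[]⟩),
  (.comm 0 202 0,⟨false,[],(29,3),.all,[(24,3)]⟩),
  (.comm 162 170 0,⟨false,[],(2,18),.mon 2 0 0,[]⟩),
  (.rho 0,⟨false,[],(19,3),.mon 0 2 0,[]⟩),
  (.comm 85 0 0,⟨false,[],(24,3),.all,[]⟩),
  (.drop 3 [0],⟨false,[],(29,3),.all,[]⟩),
  (.cN 0 71 70,⟨false,[],(21,3),.all,[]⟩),
  (.comm 205 0 4,⟨false,[],(0,3),.all,[(20,3),(24,3),(2,18)]⟩),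
  (.rho 103,⟨false,[],(27,3),.mon 0 4 0,[]⟩),
  (.comm 91 0 0,⟨false,[],(20,3),.all,[]⟩),
  (.comm 51 161 0,⟨false,[],(2,18),.all,[]⟩),
  (.drop 3 [1,6,0],⟨false,[],(0,3),.all,[]⟩),
  (.rho 29,⟨false,[],(23,29),.all,[]⟩),
  (.spec 0,⟨false,[],(23,29),.mon 0 0 0,[]⟩),
  (.comm 63 0 0,⟨false,[],(23,2),.all,[]⟩),
  (.rho 0,⟨false,[],(3,22),.all,[]⟩),
  (.spec 0,⟨false,[],(3,22),.mon 0 0 0,[]⟩),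
  (.comm 5 0 2,⟨false,[],(0,22),.all,[(2,22)]⟩),
  (.spec 123,⟨false,[],(26,22),.mon 0 0 0,[]⟩),
  (.comm 67 0 0,⟨false,[],(2,22),.all,[]⟩),
  (.drop 2 [0],⟨false,[],(0,22),.all,[]⟩)],
  [(83,83),(101,101),(65,65),(64,64),(64,64),(101,101),(65,65),(83,83),(73,73),(63,63),(55,55),(44,44),(44,44),(63,63),(55,55),(73,73),(42,42),(26,26),(22,42),(0,26)]⟩ = true := by decide +kernel

theorem famXo {G L K : Type} [Group G] [AddCommGroup L] [Field K] [Finite K] {S : St G L K}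
    {n : ℕ} (R : Frame S .X n) (md : ∀ x y, Md S.φ false x false y) (h : 9 ≤ n) :
    IsLeast {n | Good S.Gs n} 3 := by
  by_cases p : 21 ≤ n
  · exact R.poly p (by simp) (md _ _) cXow
  rw [not_le] at p
  interval_cases n
  · exact R.poly le_rfl (fun _ => rfl) (md _ _) cXo9
  · exact R.gen (by decide) (md _ _) cXo10
  · exact R.poly le_rfl (fun _ => rfl) (md _ _) cXo11
  · exact R.gen (by decide) (md _ _) cXo12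
  · exact R.poly le_rfl (fun _ => rfl) (md _ _) cXo13
  · exact R.gen (by decide) (md _ _) cXo14
  · exact R.poly le_rfl (fun _ => rfl) (md _ _) cXo15
  · exact R.poly le_rfl (fun _ => rfl) (md _ _) cXo16
  · exact R.poly le_rfl (fun _ => rfl) (md _ _) cXo17
  · exact R.poly le_rfl (fun _ => rfl) (md _ _) cXo18
  · exact R.poly le_rfl (fun _ => rfl) (md _ _) cXo19
  · exact R.poly le_rfl (fun _ => rfl) (md _ _) cXo20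

end Pool.Agent.MP_c78e8e_al.H75

end
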