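import Pool.Agent.MP_c78e8e_al.Sg.Clas

section

namespace Pool.Agent.MP_c78e8e_al.H75

theorem cXe9 : (Fam.op0 .X 9).check true true false false (Fam.tcG 9)
  ⟨[(17,19),(8,3),(6,5),(11,14)],[],[],[(7,8),(15,13),(14,17),(8,15)],[(12,19),(16,3),(9,5),(11,6)],(2,4),(4,6),
  ⟨[],[],[],[((5,16),some (1,0,0)),((10,9),some (1,0,0))],3,(13,0),(19,13),(19,0),(19,12),(0,0,0),[(6,18),(15,2),(17,0),(17,12),(17,13)],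
  [(.base 0,⟨false,[],(17,13),.mon 0 0 0,[(17,12),(17,0),(15,2),(6,18),(5,16),(10,9),(19,0),(19,12),(19,13)]⟩),
  (.base 3,⟨false,[],(15,2),.mon 1 0 0,[(17,13),(17,12),(17,0),(6,18),(5,16),(10,9),(19,0),(19,12),(19,13)]⟩),
  (.cc 0,⟨false,[],(15,17),.mon 1 0 0,[(2,18),(2,19),(2,0),(11,13),(9,3),(7,5),(12,0),(12,19),(12,18)]⟩),
  (.ca 0,⟨false,[],(10,19),.mon 1 0 0,[(9,16),(9,17),(9,0),(14,13),(2,8),(4,6),(12,0),(12,17),(12,16)]⟩),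
  (.cc 0,⟨false,[],(7,12),.mon 1 0 0,[(5,3),(5,2),(5,0),(14,18),(17,4),(8,11),(19,0),(19,2),(19,3)]⟩),
  (.rho 0,⟨false,[],(13,6),.mon 0 1 0,[(5,3),(5,2),(5,0),(14,18),(17,4),(8,11),(19,0),(19,2),(19,3)]⟩),
  (.comm 5 0 0,⟨false,[],(17,6),.mon 0 1 0,[(17,4),(17,18),(15,4),(19,2),(15,18),(13,18),(19,4),(19,18),(19,6)]⟩),
  (.ca 2,⟨false,[],(4,12),.mon 1 0 0,[(6,8),(6,9),(6,0),(11,16),(19,7),(3,14),(17,0),(17,9),(17,8)]⟩),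
  (.rho 0,⟨false,[],(13,5),.mon 0 1 0,[(6,8),(6,9),(6,0),(11,16),(19,7),(3,14),(17,0),(17,9),(17,8)]⟩),
  (.comm 8 0 0,⟨false,[],(17,5),.mon 0 1 0,[(17,7),(17,16),(13,16),(10,7),(17,9),(10,16),(19,7),(19,16),(19,5)]⟩),
  (.cc 0,⟨false,[],(2,9),.mon 0 1 0,[(2,10),(2,3),(18,3),(7,10),(2,5),(7,3),(12,10),(12,3),(12,9)]⟩),
  (.ca 0,⟨false,[],(9,2),.mon 0 1 0,[(9,15),(9,8),(16,8),(4,15),(9,6),(4,8),(12,15),(12,8),(12,2)]⟩),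
  (.cc 0,⟨false,[],(5,17),.mon 0 1 0,[(5,15),(5,4),(3,4),(8,15),(5,11),(8,4),(19,15),(19,4),(19,17)]⟩),
  (.comm 6 0 0,⟨false,[],(5,6),.mon 0 2 0,[(19,6),(5,4),(19,4),(19,18),(8,4),(8,18)]⟩),
  (.base 4,⟨false,[],(6,18),.mon 1 0 0,[(17,13),(17,12),(17,0),(15,2),(5,16),(10,9),(19,0),(19,12),(19,13)]⟩),
  (.comm 1 0 0,⟨false,[],(5,18),.mon 1 2 0,[(19,18)]⟩),
  (.cc 1,⟨false,[],(11,13),.mon 1 0 0,[(2,18),(2,19),(2,0),(15,17),(9,3),(7,5),(12,0),(12,19),(12,18)]⟩),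
  (.ca 0,⟨false,[],(14,13),.mon 1 0 0,[(9,16),(9,17),(9,0),(10,19),(2,8),(4,6),(12,0),(12,17),(12,16)]⟩),
  (.cc 0,⟨false,[],(14,18),.mon 1 0 0,[(5,3),(5,2),(5,0),(7,12),(17,4),(8,11),(19,0),(19,2),(19,3)]⟩),
  (.rho 0,⟨false,[],(19,15),.mon 0 1 0,[(5,3),(5,2),(5,0),(7,12),(17,4),(8,11),(19,0),(19,2),(19,3)]⟩),
  (.comm 18 0 0,⟨false,[],(19,2),.mon 1 1 0,[(15,4),(15,18),(17,6),(17,4),(17,18),(13,18),(19,4),(19,18),(19,6)]⟩),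
  (.ca 0,⟨false,[],(17,9),.mon 1 1 0,[(10,7),(10,16),(19,5),(19,7),(19,16),(13,16),(17,7),(17,16),(17,5)]⟩),
  (.cc 0,⟨false,[],(2,5),.mon 1 1 0,[(7,10),(7,3),(12,9),(12,10),(12,3),(18,3),(2,10),(2,3),(2,9)]⟩),
  (.ca 0,⟨false,[],(9,6),.mon 1 1 0,[(4,15),(4,8),(12,2),(12,15),(12,8),(16,8),(9,15),(9,8),(9,2)]⟩),
  (.cc 0,⟨false,[],(5,11),.mon 1 1 0,[(8,15),(8,4),(19,17),(19,15),(19,4),(3,4),(5,15),(5,4),(5,17)]⟩),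
  (.ca 0,⟨false,[],(6,14),.mon 1 1 0,[(3,10),(3,7),(17,19),(17,10),(17,7),(8,7),(6,10),(6,7),(6,19)]⟩),
  (.cc 0,⟨false,[],(11,14),.mon 1 1 0,[(16,7),(16,10),(2,12),(2,7),(2,10),(4,10),(11,7),(11,10),(11,12)]⟩),
  (.ca 0,⟨false,[],(14,11),.mon 1 1 0,[(18,4),(18,15),(9,12),(9,4),(9,15),(7,15),(14,4),(14,15),(14,12)]⟩),
  (.cc 0,⟨false,[],(14,6),.mon 1 1 0,[(13,8),(13,15),(5,19),(5,8),(5,15),(10,15),(14,8),(14,15),(14,19)]⟩),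
  (.ca 0,⟨false,[],(11,5),.mon 1 1 0,[(13,3),(13,10),(6,17),(6,3),(6,10),(15,10),(11,3),(11,10),(11,17)]⟩),
  (.comm 14 0 0,⟨false,[],(11,18),.mon 2 3 0,[]⟩),
  (.cc 0,⟨false,[],(6,13),.mon 2 3 0,[]⟩),
  (.ca 0,⟨false,[],(5,13),.mon 2 3 0,[]⟩),
  (.cc 0,⟨false,[],(9,18),.mon 2 3 0,[]⟩),
  (.ca 0,⟨false,[],(2,16),.mon 2 3 0,[]⟩),
  (.rho 27,⟨false,[],(13,5),.mon 0 1 0,[(6,8),(6,9),(6,0),(11,16),(19,7),(3,14),(17,0),(17,9),(17,8)]⟩),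
  (.comm 20 0 0,⟨false,[],(13,18),.mon 1 3 0,[]⟩),
  (.cc 0,⟨false,[],(18,13),.mon 1 3 0,[]⟩),
  (.rho 0,⟨false,[],(12,19),.mon 3 1 0,[]⟩),
  (.ca 0,⟨false,[],(12,17),.mon 3 1 0,[]⟩),
  (.rho 0,⟨false,[],(16,13),.mon 1 3 0,[]⟩),
  (.comm 6 0 0,⟨false,[],(2,13),.mon 3 6 0,[]⟩),
  (.ca 5,⟨false,[],(13,16),.mon 1 3 0,[]⟩),
  (.cc 0,⟨false,[],(18,3),.mon 1 3 0,[]⟩),
  (.rho 0,⟨false,[],(2,19),.mon 3 1 0,[]⟩),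
  (.ca 0,⟨false,[],(9,17),.mon 3 1 0,[]⟩),
  (.cc 0,⟨false,[],(5,2),.mon 3 1 0,[]⟩),
  (.rho 0,⟨false,[],(3,4),.mon 1 3 0,[]⟩),
  (.ca 0,⟨false,[],(8,7),.mon 1 3 0,[]⟩),
  (.rho 0,⟨false,[],(6,9),.mon 3 1 0,[]⟩),
  (.cc 0,⟨false,[],(11,5),.mon 3 1 0,[]⟩),
  (.rho 0,⟨false,[],(4,10),.mon 1 3 0,[]⟩),
  (.ca 0,⟨false,[],(7,15),.mon 1 3 0,[]⟩),
  (.rho 3,⟨false,[],(8,7),.mon 1 3 0,[]⟩),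
  (.comm 1 0 0,⟨false,[],(8,15),.mon 2 6 0,[]⟩),
  (.comm 53 0 0,⟨false,[],(8,2),.mon 3 6 0,[]⟩),
  (.rho 0,⟨false,[],(3,9),.mon 6 3 0,[]⟩),
  (.rho 14,⟨false,[],(17,12),.mon 3 1 0,[]⟩),
  (.comm 12 0 0,⟨false,[],(9,12),.mon 6 2 0,[]⟩),
  (.comm 2 0 0,⟨false,[],(3,12),.mon 12 5 0,[]⟩),
  (.rho 0,⟨false,[],(13,2),.mon 5 12 0,[]⟩),
  (.sI 19 0,⟨true,[],(13,18),.mon 8 18 0,[]⟩),
  (.rho 19,⟨false,[],(17,12),.mon 3 1 0,[]⟩),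
  (.comm 24 0 0,⟨false,[],(17,19),.mon 6 2 0,[]⟩),
  (.comm 0 24 0,⟨false,[],(12,19),.mon 9 3 0,[]⟩),
  (.cc 25,⟨false,[],(19,2),.mon 3 1 0,[]⟩),
  (.rho 0,⟨false,[],(3,18),.mon 1 3 0,[]⟩),
  (.rho 0,⟨false,[],(19,2),.mon 3 1 0,[]⟩),
  (.comm 3 0 0,⟨false,[],(12,2),.mon 12 4 0,[]⟩),
  (.rho 0,⟨false,[],(3,13),.mon 4 12 0,[]⟩),
  (.rho 33,⟨false,[],(19,12),.mon 3 1 0,[]⟩),
  (.comm 26 0 0,⟨false,[],(2,12),.mon 6 2 0,[]⟩),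
  (.rho 0,⟨false,[],(13,3),.mon 2 6 0,[]⟩),
  (.sI 3 0,⟨true,[],(13,18),.mon 6 18 0,[]⟩),
  (.sN 0,⟨true,[],(13,18),.mon (-6) (-18) 0,[]⟩),
  (.sA 13 0,⟨true,[],(13,18),.mon 2 0 0,[]⟩),
  (.sF 0 39,⟨false,[],(13,18),.all,[]⟩),
  (.rho 32,⟨false,[],(18,3),.mon 1 3 0,[]⟩),
  (.comm 1 0 0,⟨false,[],(13,3),.all,[]⟩),
  (.comm 0 46 0,⟨false,[],(5,3),.all,[]⟩),
  (.rho 41,⟨false,[],(18,13),.mon 1 3 0,[]⟩),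
  (.comm 14 0 0,⟨false,[],(3,13),.mon 2 6 0,[]⟩),
  (.comm 5 0 0,⟨false,[],(3,18),.all,[]⟩),
  (.cc 30,⟨false,[],(10,15),.mon 1 3 0,[]⟩),
  (.comm 82 0 0,⟨false,[],(10,2),.mon 2 3 0,[]⟩),
  (.rho 0,⟨false,[],(3,11),.mon 3 2 0,[]⟩),
  (.cc 0,⟨false,[],(16,6),.mon 3 2 0,[]⟩),
  (.rho 0,⟨false,[],(7,17),.mon 2 3 0,[]⟩),
  (.ca 0,⟨false,[],(4,19),.mon 2 3 0,[]⟩),
  (.rho 0,⟨false,[],(18,5),.mon 3 2 0,[]⟩),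
  (.comm 7 0 0,⟨false,[],(3,5),.all,[]⟩),
  (.ca 24,⟨false,[],(8,16),.mon 1 3 0,[]⟩),
  (.cc 0,⟨false,[],(4,3),.mon 1 3 0,[]⟩),
  (.rho 0,⟨false,[],(2,5),.mon 3 1 0,[]⟩),
  (.rho 12,⟨false,[],(12,2),.mon 6 2 0,[]⟩),
  (.comm 1 0 0,⟨false,[],(12,5),.mon 9 3 0,[]⟩),
  (.rho 0,⟨false,[],(4,13),.mon 3 9 0,[]⟩),
  (.comm 20 0 0,⟨false,[],(4,18),.all,[]⟩),
  (.comm 10 34 0,⟨false,[],(7,19),.mon 8 5 0,[]⟩),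
  (.rho 0,⟨false,[],(18,6),.mon 5 8 0,[]⟩),
  (.comm 2 0 0,⟨false,[],(4,6),.all,[]⟩),
  (.comm 24 69 0,⟨false,[],(6,18),.all,[]⟩),
  (.rho 57,⟨false,[],(18,3),.mon 1 3 0,[]⟩),
  (.comm 55 0 0,⟨false,[],(18,4),.mon 2 6 0,[]⟩),
  (.rho 0,⟨false,[],(5,19),.mon 6 2 0,[]⟩),
  (.rho 0,⟨false,[],(18,4),.mon 2 6 0,[]⟩),
  (.comm 4 0 0,⟨false,[],(6,4),.all,[]⟩),
  (.comm 61 43 0,⟨false,[],(9,19),.mon 9 3 0,[]⟩),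
  (.rho 0,⟨false,[],(18,8),.mon 3 9 0,[]⟩),
  (.comm 7 0 0,⟨false,[],(6,8),.all,[]⟩),
  (.rho 70,⟨false,[],(16,13),.mon 1 3 0,[]⟩),
  (.comm 19 0 0,⟨false,[],(8,13),.mon 2 6 0,[]⟩),
  (.comm 35 0 0,⟨false,[],(8,18),.all,[]⟩),
  (.rho 14,⟨false,[],(18,6),.mon 5 8 0,[]⟩),
  (.comm 1 0 0,⟨false,[],(8,6),.all,[]⟩),
  (.rho 84,⟨false,[],(19,10),.mon 3 2 0,[]⟩),
  (.comm 77 0 0,⟨false,[],(12,10),.mon 6 3 0,[]⟩),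
  (.rho 0,⟨false,[],(11,13),.mon 3 6 0,[]⟩),
  (.comm 41 0 0,⟨false,[],(11,18),.all,[]⟩),
  (.rho 74,⟨false,[],(18,3),.mon 1 3 0,[]⟩),
  (.comm 63 0 0,⟨false,[],(18,9),.mon 7 6 0,[]⟩),
  (.rho 0,⟨false,[],(8,19),.mon 6 7 0,[]⟩),
  (.rho 0,⟨false,[],(18,9),.mon 7 6 0,[]⟩),
  (.comm 4 0 0,⟨false,[],(11,9),.all,[]⟩),
  (.rho 16,⟨false,[],(18,8),.mon 3 9 0,[]⟩),
  (.comm 48 0 0,⟨false,[],(13,8),.all,[]⟩),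
  (.ca 32,⟨false,[],(9,6),.mon 3 1 0,[]⟩),
  (.rho 0,⟨false,[],(7,8),.mon 1 3 0,[]⟩),
  (.cc 0,⟨false,[],(10,4),.mon 1 3 0,[]⟩),
  (.rho 0,⟨false,[],(5,11),.mon 3 1 0,[]⟩),
  (.rho 33,⟨false,[],(12,5),.mon 9 3 0,[]⟩),
  (.comm 1 0 0,⟨false,[],(12,11),.mon 12 4 0,[]⟩),
  (.rho 0,⟨false,[],(10,13),.mon 4 12 0,[]⟩),
  (.comm 7 0 0,⟨false,[],(10,8),.all,[]⟩),
  (.rho 89,⟨false,[],(18,3),.mon 1 3 0,[]⟩),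
  (.comm 49 0 0,⟨false,[],(18,11),.mon 4 5 0,[]⟩),
  (.rho 0,⟨false,[],(10,19),.mon 5 4 0,[]⟩),
  (.rho 0,⟨false,[],(18,11),.mon 4 5 0,[]⟩),
  (.comm 61 0 0,⟨false,[],(13,11),.all,[]⟩),
  (.cc 37,⟨false,[],(11,13),.all,[]⟩),
  (.ca 10,⟨false,[],(6,14),.mon 3 1 0,[]⟩),
  (.comm 13 29 0,⟨false,[],(7,13),.mon 3 9 0,[]⟩),
  (.rho 0,⟨false,[],(12,6),.mon 9 3 0,[]⟩),
  (.comm 2 0 0,⟨false,[],(12,14),.mon 12 4 0,[]⟩),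
  (.rho 0,⟨false,[],(15,13),.mon 4 12 0,[]⟩),
  (.comm 68 0 0,⟨false,[],(15,18),.all,[]⟩),
  (.cc 0,⟨false,[],(15,13),.all,[]⟩),
  (.rho 42,⟨false,[],(18,4),.mon 2 6 0,[]⟩),
  (.comm 96 0 0,⟨false,[],(18,10),.mon 3 9 0,[]⟩),
  (.rho 0,⟨false,[],(11,19),.mon 9 3 0,[]⟩),
  (.rho 0,⟨false,[],(18,10),.mon 3 9 0,[]⟩),
  (.comm 67 0 0,⟨false,[],(18,15),.mon 4 12 0,[]⟩),
  (.rho 0,⟨false,[],(14,19),.mon 12 4 0,[]⟩),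
  (.rho 0,⟨false,[],(18,15),.mon 4 12 0,[]⟩),
  (.comm 77 0 0,⟨false,[],(13,15),.all,[]⟩),
  (.ca 78,⟨false,[],(13,16),.all,[]⟩),
  (.ca 125,⟨false,[],(14,16),.mon 2 3 0,[]⟩),
  (.rho 0,⟨false,[],(17,15),.mon 3 2 0,[]⟩),
  (.comm 118 0 0,⟨false,[],(12,15),.mon 6 3 0,[]⟩),
  (.rho 0,⟨false,[],(14,13),.mon 3 6 0,[]⟩),
  (.comm 4 0 0,⟨false,[],(14,16),.all,[]⟩),
  (.rho 121,⟨false,[],(16,13),.mon 1 3 0,[]⟩),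
  (.comm 85 0 0,⟨false,[],(16,18),.all,[]⟩),
  (.ca 77,⟨false,[],(8,14),.mon 3 2 0,[]⟩),
  (.rho 56,⟨false,[],(18,8),.mon 3 9 0,[]⟩),
  (.comm 1 0 0,⟨false,[],(18,14),.mon 6 11 0,[]⟩),
  (.rho 0,⟨false,[],(15,19),.mon 11 6 0,[]⟩),
  (.rho 0,⟨false,[],(18,14),.mon 6 11 0,[]⟩),
  (.comm 5 0 0,⟨false,[],(16,14),.all,[]⟩),
  (.cc 92,⟨false,[],(18,13),.all,[]⟩),
  (.cN 14 93 0,⟨false,[],(18,16),.all,[]⟩),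
  (.comm 92 74 0,⟨false,[],(4,3),.all,[]⟩),
  (.comm 95 139 0,⟨false,[],(5,18),.all,[]⟩),
  (.comm 87 23 0,⟨false,[],(3,19),.mon 12 5 0,[]⟩),
  (.rho 0,⟨false,[],(18,2),.mon 5 12 0,[]⟩),
  (.comm 2 0 0,⟨false,[],(5,2),.all,[]⟩),
  (.comm 97 134 1,⟨false,[],(2,3),.all,[]⟩),
  (.rho 3,⟨false,[],(18,2),.mon 5 12 0,[]⟩),
  (.comm 95 0 1,⟨false,[],(3,2),.all,[]⟩),
  (.base 2,⟨false,[],(17,0),.mon 0 0 0,[(17,13),(17,12),(15,2),(6,18),(5,16),(10,9),(19,0),(19,12),(19,13)]⟩),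
  (.rho 6,⟨false,[],(18,2),.mon 5 12 0,[]⟩),
  (.comm 18 0 0,⟨false,[],(16,2),.all,[]⟩),
  (.rho 0,⟨false,[],(3,17),.all,[]⟩),
  (.comm 3 0 4,⟨false,[],(3,0),.all,[(3,16),(3,13),(3,12),(5,2),(17,2),(19,2),(3,2)]⟩),
  (.comm 28 102 0,⟨false,[],(3,16),.all,[]⟩),
  (.cc 22,⟨false,[],(3,13),.all,[]⟩),
  (.rho 12,⟨false,[],(18,2),.mon 5 12 0,[]⟩),
  (.comm 110 0 0,⟨false,[],(13,2),.all,[]⟩),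
  (.drop 4 [3,2,0,12,3,105,9],⟨false,[],(3,0),.all,[]⟩),
  (.cN 0 12 10,⟨false,[],(2,0),.all,[]⟩)],
  [(18,18),(14,14),(13,13),(11,11),(0,13),(1,11),(110,110),(99,99),(89,89),(83,83),(80,80),(75,75),(66,66),(56,56),(51,51),(50,50),(43,43),(35,35),(29,29),(21,21),(27,27),(19,19)]⟩⟩ = true := by decide +kernel

theorem cXe10 : (Fam.op0 .X 10).check true true false false (Fam.tcG 10)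
  ⟨[(2,13),(6,8),(14,19),(21,10),(17,16)],[],[],[(8,3),(21,4),(16,18),(10,5),(10,12),(15,12),(5,9),(19,15),(20,12)],[(9,4),(6,11),(16,20),(14,12),(19,18)],(2,4),(4,6),
  ⟨[],[],[],[((12,19),some (1,0,0)),((3,8),some (0,0,0))],3,(5,0),(18,5),(18,0),(18,4),(0,0,0),[(3,14),(12,6),(15,0),(15,4),(15,5)],
  [(.base 4,⟨false,[],(3,14),.mon 1 0 0,[(15,5),(15,4),(15,0),(12,6),(12,19),(3,8),(18,0),(18,4),(18,5)]⟩),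
  (.base 3,⟨false,[],(12,6),.mon 0 0 0,[(15,5),(15,4),(15,0),(3,14),(12,19),(3,8),(18,0),(18,4),(18,5)]⟩),
  (.base 6,⟨false,[],(3,8),.mon 0 0 0,[(15,5),(15,4),(15,0),(12,6),(3,14),(12,19),(18,0),(18,4),(18,5)]⟩),
  (.cc 0,⟨false,[],(3,5),.mon 0 0 0,[(13,8),(13,9),(13,0),(14,11),(3,12),(14,18),(19,0),(19,9),(19,8)]⟩),
  (.ca 0,⟨false,[],(12,5),.mon 0 0 0,[(2,6),(2,7),(2,0),(19,20),(12,3),(19,15),(14,0),(14,7),(14,6)]⟩),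
  (.cc 0,⟨false,[],(14,8),.mon 0 0 0,[(2,11),(2,10),(2,0),(18,16),(14,3),(18,13),(12,0),(12,10),(12,11)]⟩),
  (.ca 0,⟨false,[],(19,6),.mon 0 0 0,[(13,20),(13,21),(13,0),(15,17),(19,12),(15,2),(3,0),(3,21),(3,20)]⟩),
  (.cc 0,⟨false,[],(18,11),.mon 0 0 0,[(15,16),(15,17),(15,0),(13,21),(18,14),(13,2),(3,0),(3,17),(3,16)]⟩),
  (.ca 0,⟨false,[],(15,20),.mon 0 0 0,[(18,17),(18,16),(18,0),(2,10),(15,19),(2,13),(12,0),(12,16),(12,17)]⟩),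
  (.cc 0,⟨false,[],(13,16),.mon 0 0 0,[(19,21),(19,20),(19,0),(2,7),(13,18),(2,15),(14,0),(14,20),(14,21)]⟩),
  (.ca 0,⟨false,[],(2,17),.mon 0 0 0,[(14,10),(14,11),(14,0),(13,9),(2,15),(13,18),(19,0),(19,11),(19,10)]⟩),
  (.cc 0,⟨false,[],(2,21),.mon 0 0 0,[(12,7),(12,6),(12,0),(15,4),(2,13),(15,19),(18,0),(18,6),(18,7)]⟩),
  (.ca 0,⟨false,[],(13,10),.mon 0 0 0,[(3,9),(3,8),(3,0),(18,4),(13,2),(18,14),(15,0),(15,8),(15,9)]⟩),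
  (.cc 0,⟨false,[],(15,7),.mon 0 0 0,[(3,4),(3,5),(3,0),(19,9),(15,2),(19,12),(13,0),(13,5),(13,4)]⟩),
  (.ca 0,⟨false,[],(18,9),.mon 0 0 0,[(12,4),(12,5),(12,0),(14,7),(18,13),(14,3),(2,0),(2,5),(2,4)]⟩),
  (.cc 0,⟨false,[],(19,4),.mon 0 0 0,[(14,9),(14,8),(14,0),(12,10),(19,15),(12,3),(2,0),(2,8),(2,9)]⟩),
  (.ca 0,⟨false,[],(14,4),.mon 0 0 0,[(19,7),(19,6),(19,0),(3,21),(14,18),(3,12),(13,0),(13,6),(13,7)]⟩),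
  (.cc 0,⟨false,[],(12,9),.mon 0 0 0,[(18,10),(18,11),(18,0),(3,17),(12,19),(3,14),(15,0),(15,11),(15,10)]⟩),
  (.ca 0,⟨false,[],(3,7),.mon 0 0 0,[(15,21),(15,20),(15,0),(12,16),(3,14),(12,19),(18,0),(18,20),(18,21)]⟩),
  (.rho 0,⟨false,[],(6,2),.mon 0 0 0,[(15,21),(15,20),(15,0),(12,16),(3,14),(12,19),(18,0),(18,20),(18,21)]⟩),
  (.comm 18 0 0,⟨false,[],(12,2),.mon 0 0 0,[(15,14),(15,19),(18,19)]⟩),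
  (.cc 0,⟨false,[],(14,2),.mon 0 0 0,[(13,12),(13,18),(19,18)]⟩),
  (.ca 0,⟨false,[],(19,13),.mon 0 0 0,[(2,3),(2,15),(14,15)]⟩),
  (.cc 0,⟨false,[],(18,15),.mon 0 0 0,[(2,3),(2,13),(12,13)]⟩),
  (.ca 0,⟨false,[],(15,18),.mon 0 0 0,[(13,12),(13,2),(3,2)]⟩),
  (.cc 0,⟨false,[],(13,19),.mon 0 0 0,[(15,14),(15,2),(3,2)]⟩),
  (.ca 0,⟨false,[],(2,14),.mon 0 0 0,[(18,19),(18,13),(12,13)]⟩),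
  (.comm 6 0 0,⟨false,[],(12,14),.mon 0 0 0,[]⟩),
  (.cc 0,⟨false,[],(14,12),.mon 0 0 0,[]⟩),
  (.rho 0,⟨false,[],(13,15),.mon 0 0 0,[]⟩),
  (.ca 0,⟨false,[],(2,18),.mon 0 0 0,[]⟩),
  (.cc 0,⟨false,[],(2,19),.mon 0 0 0,[]⟩),
  (.rho 0,⟨false,[],(18,3),.mon 0 0 0,[]⟩),
  (.comm 32 0 0,⟨false,[],(18,14),.mon 1 0 0,[(18,8)]⟩),
  (.rho 8,⟨false,[],(18,12),.mon 0 0 0,[(15,14),(15,2),(3,2)]⟩),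
  (.comm 14 0 0,⟨false,[],(18,2),.mon 0 0 0,[]⟩),
  (.rho 0,⟨false,[],(3,19),.mon 0 0 0,[]⟩),
  (.cc 0,⟨false,[],(3,18),.mon 0 0 0,[]⟩),
  (.ca 0,⟨false,[],(12,15),.mon 0 0 0,[]⟩),
  (.rho 0,⟨false,[],(14,13),.mon 0 0 0,[]⟩),
  (.comm 6 0 0,⟨false,[],(18,13),.mon 1 0 0,[]⟩),
  (.rho 0,⟨false,[],(12,19),.mon 0 1 0,[]⟩),
  (.rho 11,⟨false,[],(19,3),.mon 0 0 0,[]⟩),
  (.comm 1 0 0,⟨false,[],(12,3),.mon 0 1 0,[]⟩),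
  (.rho 0,⟨false,[],(2,13),.mon 1 0 0,[]⟩),
  (.rho 0,⟨false,[],(12,3),.mon 0 1 0,[]⟩),
  (.ca 14,⟨false,[],(13,14),.mon 0 0 0,[]⟩),
  (.rho 0,⟨false,[],(15,12),.mon 0 0 0,[]⟩),
  (.comm 27 0 0,⟨false,[],(15,2),.mon 0 0 0,[]⟩),
  (.rho 0,⟨false,[],(3,14),.mon 0 0 0,[]⟩),
  (.cc 0,⟨false,[],(3,12),.mon 0 0 0,[]⟩),
  (.sI 5 0,⟨true,[],(3,19),.mon 0 1 0,[]⟩),
  (.sF 0 15,⟨false,[],(3,19),.all,[]⟩),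
  (.comm 32 21 0,⟨false,[],(12,19),.mon 0 0 0,[]⟩),
  (.cc 0,⟨false,[],(14,18),.mon 0 0 0,[]⟩),
  (.comm 0 8 0,⟨false,[],(13,18),.mon 0 0 0,[]⟩),
  (.rho 0,⟨false,[],(19,12),.mon 0 0 0,[]⟩),
  (.comm 4 0 0,⟨false,[],(3,12),.all,[]⟩),
  (.comm 0 56 0,⟨false,[],(3,6),.all,[(3,19)]⟩),
  (.drop 0 [6],⟨false,[],(3,6),.all,[]⟩),
  (.cc 0,⟨false,[],(3,11),.all,[]⟩),
  (.ca 0,⟨false,[],(12,20),.all,[]⟩),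
  (.cc 0,⟨false,[],(14,16),.all,[]⟩),
  (.ca 0,⟨false,[],(19,17),.all,[]⟩),
  (.cc 0,⟨false,[],(18,21),.all,[]⟩),
  (.ca 0,⟨false,[],(15,10),.all,[]⟩),
  (.cc 0,⟨false,[],(13,7),.all,[]⟩),
  (.ca 0,⟨false,[],(2,9),.all,[]⟩),
  (.cc 0,⟨false,[],(2,4),.all,[]⟩),
  (.ca 9,⟨false,[],(12,8),.all,[]⟩),
  (.cc 0,⟨false,[],(14,5),.all,[]⟩),
  (.rho 40,⟨false,[],(19,3),.mon 0 0 0,[]⟩),
  (.comm 22 0 0,⟨false,[],(19,14),.mon 0 0 0,[]⟩),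
  (.rho 0,⟨false,[],(15,18),.mon 0 0 0,[]⟩),
  (.rho 0,⟨false,[],(19,14),.mon 0 0 0,[]⟩),
  (.comm 22 0 0,⟨false,[],(3,14),.all,[]⟩),
  (.spec 0,⟨false,[],(3,14),.mon 0 0 0,[]⟩),
  (.comm 6 0 0,⟨false,[],(3,5),.all,[]⟩),
  (.rho 46,⟨false,[],(18,3),.mon 0 0 0,[]⟩),
  (.comm 24 0 0,⟨false,[],(14,3),.mon 0 0 0,[]⟩),
  (.rho 0,⟨false,[],(2,15),.mon 0 0 0,[]⟩),
  (.rho 34,⟨false,[],(15,12),.mon 0 0 0,[]⟩),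
  (.comm 1 0 0,⟨false,[],(2,12),.mon 0 0 0,[]⟩),
  (.rho 0,⟨false,[],(13,3),.mon 0 0 0,[]⟩),
  (.comm 8 0 0,⟨false,[],(13,14),.all,[]⟩),
  (.rho 0,⟨false,[],(15,12),.all,[]⟩),
  (.comm 0 84 0,⟨false,[],(15,6),.all,[(15,19)]⟩),
  (.rho 56,⟨false,[],(19,3),.mon 0 0 0,[]⟩),
  (.comm 34 0 0,⟨false,[],(12,3),.mon 0 0 0,[]⟩),
  (.rho 0,⟨false,[],(2,13),.mon 0 0 0,[]⟩),
  (.comm 0 43 0,⟨false,[],(2,14),.mon 0 0 0,[]⟩),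
  (.rho 0,⟨false,[],(15,3),.mon 0 0 0,[]⟩),
  (.comm 39 0 0,⟨false,[],(15,19),.all,[]⟩),
  (.drop 6 [0],⟨false,[],(15,6),.all,[]⟩),
  (.rho 0,⟨false,[],(7,14),.all,[]⟩),
  (.spec 0,⟨false,[],(7,14),.mon 0 0 0,[]⟩),
  (.comm 25 0 0,⟨false,[],(7,5),.all,[]⟩),
  (.rho 14,⟨false,[],(13,3),.mon 0 0 0,[]⟩),
  (.comm 45 0 0,⟨false,[],(13,19),.all,[]⟩),
  (.rho 0,⟨false,[],(18,12),.all,[]⟩),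
  (.comm 0 98 0,⟨false,[],(18,6),.all,[(18,19)]⟩),
  (.rho 69,⟨false,[],(18,3),.mon 0 0 0,[]⟩),
  (.comm 49 0 1,⟨false,[],(18,19),.all,[]⟩),
  (.drop 2 [0],⟨false,[],(18,6),.all,[]⟩),
  (.cc 0,⟨false,[],(19,11),.all,[]⟩),
  (.ca 0,⟨false,[],(14,20),.all,[]⟩),
  (.cc 0,⟨false,[],(12,16),.all,[]⟩),
  (.cc 13,⟨false,[],(13,11),.all,[]⟩),
  (.ca 0,⟨false,[],(2,20),.all,[]⟩),
  (.cc 0,⟨false,[],(2,16),.all,[]⟩),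
  (.ca 0,⟨false,[],(13,17),.all,[]⟩),
  (.rho 0,⟨false,[],(16,12),.all,[]⟩),
  (.cN 50 5 0,⟨false,[],(16,20),.all,[]⟩),
  (.cc 0,⟨false,[],(20,16),.all,[]⟩),
  (.ca 0,⟨false,[],(11,17),.all,[]⟩),
  (.cc 0,⟨false,[],(6,21),.all,[]⟩),
  (.ca 0,⟨false,[],(8,10),.all,[]⟩),
  (.cc 0,⟨false,[],(5,7),.all,[]⟩),
  (.rho 7,⟨false,[],(16,12),.all,[]⟩),
  (.cN 49 12 0,⟨false,[],(16,8),.all,[]⟩),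
  (.cc 0,⟨false,[],(20,5),.all,[]⟩),
  (.ca 0,⟨false,[],(11,5),.all,[]⟩),
  (.cc 0,⟨false,[],(6,8),.all,[]⟩),
  (.ca 0,⟨false,[],(8,6),.all,[]⟩),
  (.rho 54,⟨false,[],(9,13),.all,[]⟩),
  (.spec 0,⟨false,[],(9,13),.mon 0 0 0,[]⟩),
  (.comm 18 0 0,⟨false,[],(9,11),.all,[]⟩),
  (.ca 20,⟨false,[],(3,17),.all,[]⟩),
  (.cc 0,⟨false,[],(3,21),.all,[]⟩),
  (.ca 0,⟨false,[],(12,10),.all,[]⟩),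
  (.ca 77,⟨false,[],(12,14),.all,[]⟩),
  (.cc 0,⟨false,[],(14,12),.all,[]⟩),
  (.rho 21,⟨false,[],(16,12),.all,[]⟩),
  (.cN 2 26 0,⟨false,[],(16,14),.all,[]⟩),
  (.rho 41,⟨false,[],(18,14),.all,[]⟩),
  (.spec 0,⟨false,[],(18,14),.mon 0 0 0,[]⟩),
  (.comm 73 0 0,⟨false,[],(18,16),.all,[]⟩),
  (.rho 38,⟨false,[],(18,12),.all,[]⟩),
  (.spec 0,⟨false,[],(18,12),.mon 0 0 0,[]⟩),
  (.comm 77 0 0,⟨false,[],(18,20),.all,[]⟩),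
  (.rho 50,⟨false,[],(12,3),.mon 0 0 0,[]⟩),
  (.comm 88 0 0,⟨false,[],(12,19),.all,[]⟩),
  (.rho 31,⟨false,[],(16,12),.all,[]⟩),
  (.cN 1 36 0,⟨false,[],(16,19),.all,[]⟩),
  (.cc 0,⟨false,[],(20,18),.all,[]⟩),
  (.comm 14 62 0,⟨false,[],(2,14),.all,[]⟩),
  (.spec 0,⟨false,[],(2,14),.mon 0 0 0,[]⟩),
  (.comm 76 0 0,⟨false,[],(2,5),.all,[]⟩),
  (.ca 3,⟨false,[],(11,15),.all,[]⟩),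
  (.cc 0,⟨false,[],(6,13),.all,[]⟩),
  (.ca 0,⟨false,[],(8,2),.all,[]⟩),
  (.cc 0,⟨false,[],(5,2),.all,[]⟩),
  (.spec 6,⟨false,[],(2,14),.mon 0 0 0,[]⟩),
  (.rho 98,⟨false,[],(19,15),.mon 0 0 0,[]⟩),
  (.comm 101 0 0,⟨false,[],(3,15),.all,[]⟩),
  (.rho 74,⟨false,[],(14,3),.mon 0 0 0,[]⟩),
  (.comm 1 0 1,⟨false,[],(14,15),.all,[]⟩),
  (.comm 4 0 5,⟨false,[],(2,3),.all,[(2,15)]⟩),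
  (.rho 77,⟨false,[],(14,3),.mon 0 0 0,[]⟩),
  (.comm 106 0 0,⟨false,[],(14,19),.all,[]⟩),
  (.rho 129,⟨false,[],(19,3),.mon 0 0 0,[]⟩),
  (.comm 1 0 0,⟨false,[],(14,3),.all,[]⟩),
  (.drop 4 [0],⟨false,[],(2,3),.all,[]⟩),
  (.cc 110,⟨false,[],(3,18),.all,[]⟩),
  (.rho 111,⟨false,[],(18,2),.all,[]⟩),
  (.spec 0,⟨false,[],(18,2),.mon 0 0 0,[]⟩),
  (.comm 2 0 1,⟨false,[],(3,2),.all,[]⟩),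
  (.base 2,⟨false,[],(15,0),.mon 0 0 0,[(15,5),(15,4),(12,6),(3,14),(12,19),(3,8),(18,0),(18,4),(18,5)]⟩),
  (.comm 0 13 4,⟨false,[],(3,0),.all,[(3,14),(3,5),(3,4),(3,2),(15,2),(18,2)]⟩),
  (.drop 0 [93,91,17,2,93,116],⟨false,[],(3,0),.all,[]⟩),
  (.cN 0 7 3,⟨false,[],(2,0),.all,[]⟩)],
  [(23,23),(19,19),(8,8),(4,4),(0,8),(1,4),(102,102),(93,93),(74,74),(53,53),(48,48),(47,47),(54,54),(44,44),(63,63),(41,41),(40,40),(39,39),(108,108),(37,37),(107,107),(34,34),(31,31),(26,26)]⟩⟩ = true := by decide +kernel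

theorem cXe11 : (Fam.op0 .X 11).check true true false false (Fam.tcG 11)
  ⟨[(4,12),(8,16),(7,14),(11,23),(20,19)],[],[],[(12,21),(17,5),(4,8),(23,17),(22,14),(2,20)],[(8,21),(16,22),(7,4),(11,15),(2,19)],(2,4),(4,6),
  ⟨[],[],[],[((19,14),some (0,0,0)),((16,13),some (1,0,0))],3,(2,0),(15,2),(15,0),(15,3),(0,0,0),[(20,7),(8,5),(6,0),(6,3),(6,2)],
  [(.base 4,⟨false,[],(20,7),.mon 0 0 0,[(6,2),(6,3),(6,0),(8,5),(19,14),(16,13),(15,0),(15,3),(15,2)]⟩),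
  (.base 3,⟨false,[],(8,5),.mon 1 0 0,[(6,2),(6,3),(6,0),(20,7),(19,14),(16,13),(15,0),(15,3),(15,2)]⟩),
  (.base 5,⟨false,[],(19,14),.mon 0 0 0,[(6,2),(6,3),(6,0),(8,5),(20,7),(16,13),(15,0),(15,3),(15,2)]⟩),
  (.cc 0,⟨false,[],(2,10),.mon 0 0 0,[(5,19),(5,18),(5,0),(21,6),(9,4),(22,13),(11,0),(11,18),(11,19)]⟩),
  (.ca 0,⟨false,[],(2,22),.mon 0 0 0,[(13,20),(13,21),(13,0),(18,15),(17,12),(10,5),(23,0),(23,21),(23,20)]⟩),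
  (.cc 0,⟨false,[],(19,16),.mon 0 0 0,[(13,9),(13,8),(13,0),(3,11),(23,12),(14,6),(17,0),(17,8),(17,9)]⟩),
  (.ca 0,⟨false,[],(20,8),.mon 0 0 0,[(5,17),(5,16),(5,0),(3,23),(11,4),(7,15),(9,0),(9,16),(9,17)]⟩),
  (.cc 0,⟨false,[],(9,21),.mon 0 0 0,[(6,23),(6,22),(6,0),(18,17),(15,7),(4,11),(20,0),(20,22),(20,23)]⟩),
  (.rho 0,⟨false,[],(20,8),.mon 0 0 0,[(6,23),(6,22),(6,0),(18,17),(15,7),(4,11),(20,0),(20,22),(20,23)]⟩),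
  (.comm 7 0 0,⟨false,[],(20,5),.mon 1 0 0,[(6,7),(6,21),(16,14),(15,7),(15,21)]⟩),
  (.cc 8,⟨false,[],(21,6),.mon 1 0 0,[(5,19),(5,18),(5,0),(9,4),(2,10),(22,13),(11,0),(11,18),(11,19)]⟩),
  (.ca 0,⟨false,[],(18,15),.mon 1 0 0,[(13,20),(13,21),(13,0),(17,12),(2,22),(10,5),(23,0),(23,21),(23,20)]⟩),
  (.cc 0,⟨false,[],(3,11),.mon 1 0 0,[(13,9),(13,8),(13,0),(23,12),(19,16),(14,6),(17,0),(17,8),(17,9)]⟩),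
  (.ca 0,⟨false,[],(3,23),.mon 1 0 0,[(5,17),(5,16),(5,0),(11,4),(20,8),(7,15),(9,0),(9,16),(9,17)]⟩),
  (.cc 0,⟨false,[],(18,17),.mon 1 0 0,[(6,23),(6,22),(6,0),(15,7),(9,21),(4,11),(20,0),(20,22),(20,23)]⟩),
  (.ca 0,⟨false,[],(21,9),.mon 1 0 0,[(15,11),(15,10),(15,0),(6,14),(17,18),(12,23),(19,0),(19,10),(19,11)]⟩),
  (.rho 0,⟨false,[],(8,20),.mon 0 1 0,[(15,11),(15,10),(15,0),(6,14),(17,18),(12,23),(19,0),(19,10),(19,11)]⟩),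
  (.comm 7 0 0,⟨false,[],(8,5),.mon 1 1 0,[(6,9),(19,14),(15,9)]⟩),
  (.cc 17,⟨false,[],(9,4),.mon 0 0 0,[(5,19),(5,18),(5,0),(21,6),(2,10),(22,13),(11,0),(11,18),(11,19)]⟩),
  (.ca 0,⟨false,[],(17,12),.mon 0 0 0,[(13,20),(13,21),(13,0),(18,15),(2,22),(10,5),(23,0),(23,21),(23,20)]⟩),
  (.cc 0,⟨false,[],(23,12),.mon 0 0 0,[(13,9),(13,8),(13,0),(3,11),(19,16),(14,6),(17,0),(17,8),(17,9)]⟩),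
  (.ca 0,⟨false,[],(11,4),.mon 0 0 0,[(5,17),(5,16),(5,0),(3,23),(20,8),(7,15),(9,0),(9,16),(9,17)]⟩),
  (.cc 0,⟨false,[],(15,7),.mon 0 0 0,[(6,23),(6,22),(6,0),(18,17),(9,21),(4,11),(20,0),(20,22),(20,23)]⟩),
  (.ca 0,⟨false,[],(6,14),.mon 0 0 0,[(15,11),(15,10),(15,0),(21,9),(17,18),(12,23),(19,0),(19,10),(19,11)]⟩),
  (.cc 0,⟨false,[],(5,10),.mon 0 0 0,[(11,15),(11,14),(11,0),(8,20),(23,3),(12,17),(2,0),(2,14),(2,15)]⟩),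
  (.ca 0,⟨false,[],(13,22),.mon 0 0 0,[(23,6),(23,7),(23,0),(16,19),(11,3),(4,9),(2,0),(2,7),(2,6)]⟩),
  (.cc 0,⟨false,[],(13,16),.mon 0 0 0,[(17,5),(17,4),(17,0),(22,2),(15,18),(7,20),(19,0),(19,4),(19,5)]⟩),
  (.ca 0,⟨false,[],(5,8),.mon 0 0 0,[(9,13),(9,12),(9,0),(10,2),(6,21),(14,19),(20,0),(20,12),(20,13)]⟩),
  (.comm 18 0 0,⟨false,[],(20,8),.mon 1 0 0,[(16,19),(18,7),(18,21)]⟩),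
  (.ca 0,⟨false,[],(19,16),.mon 1 0 0,[(8,20),(21,14),(21,18)]⟩),
  (.cc 0,⟨false,[],(2,22),.mon 1 0 0,[(21,9),(8,10),(8,3)]⟩),
  (.ca 0,⟨false,[],(2,10),.mon 1 0 0,[(18,17),(16,22),(16,3)]⟩),
  (.cc 0,⟨false,[],(19,14),.mon 1 0 0,[(3,23),(22,16),(22,18)]⟩),
  (.ca 0,⟨false,[],(20,7),.mon 1 0 0,[(3,11),(10,8),(10,21)]⟩),
  (.cc 0,⟨false,[],(9,4),.mon 1 0 0,[(18,15),(14,21),(14,8)]⟩),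
  (.ca 0,⟨false,[],(17,12),.mon 1 0 0,[(21,6),(7,18),(7,16)]⟩),
  (.cc 0,⟨false,[],(23,12),.mon 1 0 0,[(8,5),(4,3),(4,22)]⟩),
  (.ca 0,⟨false,[],(11,4),.mon 1 0 0,[(16,13),(12,3),(12,10)]⟩),
  (.rho 0,⟨false,[],(5,10),.mon 0 1 0,[(16,13),(12,3),(12,10)]⟩),
  (.comm 21 0 0,⟨false,[],(8,10),.mon 1 2 0,[]⟩),
  (.cc 0,⟨false,[],(21,14),.mon 1 2 0,[]⟩),
  (.rho 0,⟨false,[],(15,20),.mon 2 1 0,[]⟩),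
  (.comm 41 0 0,⟨false,[],(15,7),.mon 2 1 0,[]⟩),
  (.rho 0,⟨false,[],(6,14),.mon 1 2 0,[]⟩),
  (.ca 4,⟨false,[],(16,22),.mon 1 2 0,[]⟩),
  (.cc 0,⟨false,[],(22,16),.mon 1 2 0,[]⟩),
  (.rho 0,⟨false,[],(17,23),.mon 2 1 0,[]⟩),
  (.ca 0,⟨false,[],(9,11),.mon 2 1 0,[]⟩),
  (.cc 0,⟨false,[],(20,15),.mon 2 1 0,[]⟩),
  (.rho 0,⟨false,[],(14,21),.mon 1 2 0,[]⟩),
  (.ca 0,⟨false,[],(7,18),.mon 1 2 0,[]⟩),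
  (.cc 0,⟨false,[],(4,3),.mon 1 2 0,[]⟩),
  (.rho 0,⟨false,[],(2,5),.mon 2 1 0,[]⟩),
  (.ca 0,⟨false,[],(2,13),.mon 2 1 0,[]⟩),
  (.cc 0,⟨false,[],(19,13),.mon 2 1 0,[]⟩),
  (.rho 0,⟨false,[],(12,18),.mon 1 2 0,[]⟩),
  (.ca 0,⟨false,[],(4,21),.mon 1 2 0,[]⟩),
  (.cc 0,⟨false,[],(7,8),.mon 1 2 0,[]⟩),
  (.ca 0,⟨false,[],(14,16),.mon 1 2 0,[]⟩),
  (.comm 15 0 0,⟨false,[],(6,16),.mon 2 4 0,[]⟩),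
  (.rho 12,⟨false,[],(10,8),.mon 1 2 0,[]⟩),
  (.comm 59 0 0,⟨false,[],(10,5),.mon 2 2 0,[]⟩),
  (.rho 0,⟨false,[],(4,11),.mon 2 2 0,[]⟩),
  (.cc 0,⟨false,[],(7,15),.mon 2 2 0,[]⟩),
  (.rho 22,⟨false,[],(21,14),.mon 1 2 0,[]⟩),
  (.comm 8 0 0,⟨false,[],(4,14),.mon 2 4 0,[]⟩),
  (.ca 24,⟨false,[],(6,19),.mon 2 1 0,[]⟩),
  (.cc 0,⟨false,[],(5,2),.mon 2 1 0,[]⟩),
  (.rho 0,⟨false,[],(3,4),.mon 1 2 0,[]⟩),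
  (.comm 3 0 0,⟨false,[],(3,14),.mon 3 6 0,[]⟩),
  (.rho 0,⟨false,[],(15,2),.mon 6 3 0,[]⟩),
  (.comm 7 0 0,⟨false,[],(7,2),.mon 8 5 0,[]⟩),
  (.rho 0,⟨false,[],(3,6),.mon 5 8 0,[]⟩),
  (.comm 13 0 0,⟨false,[],(3,16),.mon 7 12 0,[]⟩),
  (.ca 5,⟨false,[],(3,12),.mon 1 2 0,[]⟩),
  (.cc 0,⟨false,[],(18,12),.mon 1 2 0,[]⟩),
  (.rho 0,⟨false,[],(13,19),.mon 2 1 0,[]⟩),
  (.ca 0,⟨false,[],(5,20),.mon 2 1 0,[]⟩),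
  (.rho 28,⟨false,[],(20,15),.mon 2 1 0,[]⟩),
  (.comm 1 0 0,⟨false,[],(5,15),.mon 4 2 0,[]⟩),
  (.comm 0 27 0,⟨false,[],(2,15),.mon 6 3 0,[]⟩),
  (.cc 3,⟨false,[],(6,9),.mon 2 1 0,[]⟩),
  (.ca 0,⟨false,[],(15,17),.mon 2 1 0,[]⟩),
  (.comm 2 0 0,⟨false,[],(2,17),.mon 8 4 0,[]⟩),
  (.rho 0,⟨false,[],(16,3),.mon 4 8 0,[]⟩),
  (.sI 11 0,⟨true,[],(16,22),.mon 11 20 0,[]⟩),
  (.rho 17,⟨false,[],(5,2),.mon 2 1 0,[]⟩),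
  (.comm 33 0 0,⟨false,[],(5,13),.mon 4 2 0,[]⟩),
  (.rho 13,⟨false,[],(13,2),.mon 2 1 0,[]⟩),
  (.comm 1 0 0,⟨false,[],(5,2),.mon 6 3 0,[]⟩),
  (.rho 0,⟨false,[],(3,4),.mon 3 6 0,[]⟩),
  (.comm 25 0 0,⟨false,[],(3,14),.mon 5 10 0,[]⟩),
  (.comm 0 33 0,⟨false,[],(3,16),.mon 6 12 0,[]⟩),
  (.rho 9,⟨false,[],(16,3),.mon 4 8 0,[]⟩),
  (.sI 1 0,⟨true,[],(16,22),.mon 10 20 0,[]⟩),
  (.sN 0,⟨true,[],(16,22),.mon (-10) (-20) 0,[]⟩),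
  (.sA 10 0,⟨true,[],(16,22),.mon 1 0 0,[]⟩),
  (.sF 0 52,⟨false,[],(16,22),.all,[]⟩),
  (.comm 15 51 0,⟨false,[],(15,23),.mon 4 2 0,[]⟩),
  (.comm 0 19 0,⟨false,[],(5,23),.mon 8 4 0,[]⟩),
  (.rho 0,⟨false,[],(22,4),.mon 4 8 0,[]⟩),
  (.comm 3 0 0,⟨false,[],(16,4),.all,[]⟩),
  (.rho 51,⟨false,[],(19,6),.mon 2 1 0,[]⟩),
  (.comm 26 0 0,⟨false,[],(13,6),.mon 4 2 0,[]⟩),
  (.rho 0,⟨false,[],(7,12),.mon 2 4 0,[]⟩),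
  (.rho 0,⟨false,[],(13,6),.mon 4 2 0,[]⟩),
  (.comm 52 0 0,⟨false,[],(2,6),.mon 6 3 0,[]⟩),
  (.comm 63 0 0,⟨false,[],(2,14),.mon 7 5 0,[]⟩),
  (.comm 0 49 0,⟨false,[],(2,16),.mon 8 7 0,[]⟩),
  (.comm 7 0 0,⟨false,[],(2,4),.all,[]⟩),
  (.comm 51 44 0,⟨false,[],(4,16),.mon 3 6 0,[]⟩),
  (.comm 13 0 0,⟨false,[],(4,22),.all,[]⟩),
  (.cc 29,⟨false,[],(11,23),.mon 2 1 0,[]⟩),
  (.comm 0 65 0,⟨false,[],(9,23),.mon 4 2 0,[]⟩),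
  (.rho 0,⟨false,[],(22,8),.mon 2 4 0,[]⟩),
  (.comm 113 0 0,⟨false,[],(22,5),.mon 3 4 0,[]⟩),
  (.rho 0,⟨false,[],(4,23),.mon 4 3 0,[]⟩),
  (.comm 0 48 0,⟨false,[],(3,23),.mon 5 5 0,[]⟩),
  (.rho 0,⟨false,[],(22,2),.mon 5 5 0,[]⟩),
  (.comm 7 0 0,⟨false,[],(4,2),.all,[]⟩),
  (.rho 15,⟨false,[],(13,6),.mon 4 2 0,[]⟩),
  (.comm 33 0 0,⟨false,[],(5,6),.mon 8 4 0,[]⟩),
  (.rho 0,⟨false,[],(7,4),.mon 4 8 0,[]⟩),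
  (.comm 6 0 0,⟨false,[],(7,23),.mon 8 11 0,[]⟩),
  (.rho 0,⟨false,[],(22,6),.mon 11 8 0,[]⟩),
  (.comm 13 0 0,⟨false,[],(4,6),.all,[]⟩),
  (.comm 44 78 0,⟨false,[],(6,11),.mon 4 2 0,[]⟩),
  (.comm 14 0 0,⟨false,[],(6,23),.mon 6 3 0,[]⟩),
  (.rho 0,⟨false,[],(22,7),.mon 3 6 0,[]⟩),
  (.comm 31 0 0,⟨false,[],(16,7),.all,[]⟩),
  (.comm 71 85 0,⟨false,[],(14,22),.mon 2 4 0,[]⟩),
  (.rho 89,⟨false,[],(21,14),.mon 1 2 0,[]⟩),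
  (.comm 1 0 0,⟨false,[],(21,22),.mon 3 6 0,[]⟩),
  (.rho 0,⟨false,[],(23,20),.mon 6 3 0,[]⟩),
  (.comm 133 0 0,⟨false,[],(23,7),.mon 6 3 0,[]⟩),
  (.rho 0,⟨false,[],(6,22),.mon 3 6 0,[]⟩),
  (.cc 0,⟨false,[],(5,16),.mon 3 6 0,[]⟩),
  (.comm 7 0 0,⟨false,[],(5,7),.all,[]⟩),
  (.rho 24,⟨false,[],(22,8),.mon 2 4 0,[]⟩),
  (.comm 41 0 0,⟨false,[],(16,8),.all,[]⟩),
  (.comm 0 80 0,⟨false,[],(6,8),.all,[]⟩),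
  (.ca 43,⟨false,[],(8,10),.all,[]⟩),
  (.rho 20,⟨false,[],(7,4),.mon 4 8 0,[]⟩),
  (.comm 80 0 0,⟨false,[],(7,11),.mon 6 10 0,[]⟩),
  (.rho 0,⟨false,[],(10,6),.mon 10 6 0,[]⟩),
  (.comm 3 0 0,⟨false,[],(8,6),.all,[]⟩),
  (.cc 48,⟨false,[],(22,16),.all,[]⟩),
  (.ca 0,⟨false,[],(10,8),.all,[]⟩),
  (.rho 73,⟨false,[],(13,2),.mon 2 1 0,[]⟩),
  (.comm 96 0 0,⟨false,[],(13,5),.mon 4 2 0,[]⟩),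
  (.rho 0,⟨false,[],(4,12),.mon 2 4 0,[]⟩),
  (.rho 0,⟨false,[],(13,5),.mon 4 2 0,[]⟩),
  (.comm 72 0 0,⟨false,[],(13,15),.mon 8 4 0,[]⟩),
  (.comm 54 0 0,⟨false,[],(13,23),.mon 12 6 0,[]⟩),
  (.rho 0,⟨false,[],(22,12),.mon 6 12 0,[]⟩),
  (.comm 57 0 0,⟨false,[],(16,12),.all,[]⟩),
  (.ca 43,⟨false,[],(23,11),.mon 2 1 0,[]⟩),
  (.rho 0,⟨false,[],(10,22),.mon 1 2 0,[]⟩),
  (.rho 111,⟨false,[],(22,16),.mon 1 2 0,[]⟩),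
  (.comm 1 0 0,⟨false,[],(10,16),.mon 2 4 0,[]⟩),
  (.comm 4 0 0,⟨false,[],(10,12),.all,[]⟩),
  (.rho 94,⟨false,[],(18,7),.mon 1 2 0,[]⟩),
  (.comm 106 0 0,⟨false,[],(12,7),.mon 2 4 0,[]⟩),
  (.rho 0,⟨false,[],(6,13),.mon 4 2 0,[]⟩),
  (.rho 0,⟨false,[],(12,7),.mon 2 4 0,[]⟩),
  (.comm 107 0 0,⟨false,[],(12,8),.mon 3 6 0,[]⟩),
  (.rho 0,⟨false,[],(9,13),.mon 6 3 0,[]⟩),
  (.rho 0,⟨false,[],(12,8),.mon 3 6 0,[]⟩),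
  (.comm 26 0 0,⟨false,[],(12,10),.all,[]⟩),
  (.rho 70,⟨false,[],(22,14),.mon 2 4 0,[]⟩),
  (.comm 72 0 0,⟨false,[],(16,14),.all,[]⟩),
  (.rho 83,⟨false,[],(12,4),.mon 2 4 0,[]⟩),
  (.comm 106 0 0,⟨false,[],(12,14),.mon 4 8 0,[]⟩),
  (.comm 0 114 0,⟨false,[],(12,16),.mon 5 10 0,[]⟩),
  (.comm 3 0 0,⟨false,[],(12,14),.all,[]⟩),
  (.comm 19 116 0,⟨false,[],(14,12),.all,[]⟩),
  (.comm 78 117 0,⟨false,[],(14,22),.all,[]⟩),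
  (.spec 30,⟨false,[],(22,16),.mon 0 0 0,[]⟩),
  (.comm 1 0 0,⟨false,[],(14,16),.all,[]⟩),
  (.rho 128,⟨false,[],(19,6),.mon 2 1 0,[]⟩),
  (.comm 53 0 0,⟨false,[],(19,11),.mon 6 3 0,[]⟩),
  (.rho 0,⟨false,[],(10,18),.mon 3 6 0,[]⟩),
  (.rho 69,⟨false,[],(22,10),.mon 1 2 0,[]⟩),
  (.comm 1 0 0,⟨false,[],(22,18),.mon 4 8 0,[]⟩),
  (.rho 0,⟨false,[],(19,23),.mon 8 4 0,[]⟩),
  (.rho 0,⟨false,[],(22,18),.mon 4 8 0,[]⟩),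
  (.comm 88 0 0,⟨false,[],(16,18),.all,[]⟩),
  (.comm 117 128 0,⟨false,[],(3,16),.mon 4 8 0,[]⟩),
  (.comm 90 0 0,⟨false,[],(3,22),.all,[]⟩),
  (.cc 0,⟨false,[],(18,16),.all,[]⟩),
  (.rho 148,⟨false,[],(21,14),.mon 1 2 0,[]⟩),
  (.comm 132 0 0,⟨false,[],(21,16),.mon 2 4 0,[]⟩),
  (.rho 0,⟨false,[],(17,20),.mon 4 2 0,[]⟩),
  (.rho 0,⟨false,[],(21,16),.mon 2 4 0,[]⟩),
  (.comm 96 0 0,⟨false,[],(21,22),.all,[]⟩),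
  (.comm 107 118 0,⟨false,[],(5,19),.mon 6 3 0,[]⟩),
  (.rho 0,⟨false,[],(18,4),.mon 3 6 0,[]⟩),
  (.comm 80 0 0,⟨false,[],(18,23),.mon 7 9 0,[]⟩),
  (.rho 0,⟨false,[],(22,19),.mon 9 7 0,[]⟩),
  (.comm 4 0 0,⟨false,[],(21,19),.all,[]⟩),
  (.rho 150,⟨false,[],(20,15),.mon 2 1 0,[]⟩),
  (.comm 102 0 0,⟨false,[],(20,23),.mon 6 3 0,[]⟩),
  (.rho 0,⟨false,[],(22,21),.mon 3 6 0,[]⟩),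
  (.comm 105 0 0,⟨false,[],(16,21),.all,[]⟩),
  (.rho 126,⟨false,[],(21,4),.mon 1 2 0,[]⟩),
  (.comm 54 0 0,⟨false,[],(21,12),.mon 3 6 0,[]⟩),
  (.rho 0,⟨false,[],(13,20),.mon 6 3 0,[]⟩),
  (.rho 151,⟨false,[],(19,13),.mon 2 1 0,[]⟩),
  (.comm 1 0 0,⟨false,[],(19,20),.mon 8 4 0,[]⟩),
  (.comm 208 0 0,⟨false,[],(19,7),.mon 8 4 0,[]⟩),
  (.rho 0,⟨false,[],(6,18),.mon 4 8 0,[]⟩),
  (.comm 153 171 0,⟨false,[],(7,10),.mon 2 4 0,[]⟩),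
  (.comm 52 0 0,⟨false,[],(7,16),.mon 4 8 0,[]⟩),
  (.rho 0,⟨false,[],(17,6),.mon 8 4 0,[]⟩),
  (.comm 3 0 0,⟨false,[],(17,18),.mon 12 12 0,[]⟩),
  (.rho 0,⟨false,[],(19,16),.mon 12 12 0,[]⟩),
  (.comm 12 0 0,⟨false,[],(19,21),.all,[]⟩),
  (.comm 173 167 0,⟨false,[],(6,21),.mon 2 4 0,[]⟩),
  (.rho 5,⟨false,[],(17,6),.mon 8 4 0,[]⟩),
  (.comm 1 0 0,⟨false,[],(17,21),.mon 10 8 0,[]⟩),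
  (.rho 0,⟨false,[],(20,16),.mon 8 10 0,[]⟩),
  (.comm 123 0 0,⟨false,[],(20,22),.all,[]⟩),
  (.comm 220 122 0,⟨false,[],(8,23),.mon 9 4 0,[]⟩),
  (.rho 0,⟨false,[],(22,9),.mon 4 9 0,[]⟩),
  (.comm 126 0 0,⟨false,[],(16,9),.all,[]⟩),
  (.cc 0,⟨false,[],(22,20),.all,[]⟩),
  (.comm 127 145 0,⟨false,[],(2,23),.mon 10 5 0,[]⟩),
  (.rho 0,⟨false,[],(22,3),.mon 5 10 0,[]⟩),
  (.comm 130 0 0,⟨false,[],(16,3),.all,[]⟩),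
  (.comm 0 118 0,⟨false,[],(4,3),.all,[]⟩),
  (.comm 128 42 0,⟨false,[],(3,4),.all,[]⟩),
  (.comm 2 122 1,⟨false,[],(2,3),.all,[]⟩),
  (.rho 114,⟨false,[],(22,2),.mon 5 5 0,[]⟩),
  (.comm 44 0 1,⟨false,[],(3,2),.all,[]⟩),
  (.base 2,⟨false,[],(6,0),.mon 0 0 0,[(6,2),(6,3),(8,5),(20,7),(19,14),(16,13),(15,0),(15,3),(15,2)]⟩),
  (.comm 0 109 4,⟨false,[],(4,0),.all,[(4,7),(4,2),(4,3),(20,5),(6,5),(15,5),(4,5)]⟩),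
  (.comm 106 125 0,⟨false,[],(4,7),.all,[]⟩),
  (.comm 33 126 0,⟨false,[],(4,21),.all,[]⟩),
  (.comm 67 127 0,⟨false,[],(4,14),.all,[]⟩),
  (.rho 122,⟨false,[],(22,5),.mon 3 4 0,[]⟩),
  (.comm 128 0 1,⟨false,[],(4,5),.all,[]⟩),
  (.drop 5 [4,121,11,3,4,2,0],⟨false,[],(4,0),.all,[]⟩),
  (.spec 132,⟨false,[],(2,4),.mon 0 0 0,[]⟩),
  (.comm 1 0 2,⟨false,[],(2,0),.all,[(2,5)]⟩),
  (.drop 0 [14],⟨false,[],(2,0),.all,[]⟩),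
  (.spec 14,⟨false,[],(3,4),.mon 0 0 0,[]⟩),
  (.comm 4 0 2,⟨false,[],(3,0),.all,[(3,5)]⟩),
  (.drop 0 [127],⟨false,[],(3,0),.all,[]⟩)],
  [(18,18),(17,17),(16,16),(14,14),(3,16),(0,14),(138,138),(128,128),(122,122),(110,110),(107,107),(102,102),(106,106),(100,100),(87,87),(79,79),(73,73),(72,72),(69,69),(77,77),(61,61),(58,58),(48,48),(31,31),(26,26),(22,22)]⟩⟩ = true := by decide +kernel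

theorem cXe12 : (Fam.op0 .X 12).check true true false false (Fam.tcG 12)
  ⟨[(17,20),(24,14),(9,11),(3,19),(5,6),(23,22)],[],[],[(19,24),(24,17),(17,3),(4,24),(2,4),(2,22),(21,10),(23,15),(13,10),(7,3),(14,4)],[(3,11),(4,18),(9,12),(7,24),(16,22),(15,14)],(2,4),(4,6),
  ⟨[],[],[],[((17,11),some (0,0,0)),((15,14),some (0,0,0))],3,(0,13),(13,24),(0,24),(12,24),(1,0,0),[(20,9),(25,24),(0,14),(12,14),(13,14)],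
  [(.base 0,⟨false,[],(13,14),.mon 1 0 0,[(12,14),(0,14),(25,24),(20,9),(17,11),(15,14),(0,24),(12,24),(13,24)]⟩),
  (.base 4,⟨false,[],(20,9),.mon 0 0 0,[(13,14),(12,14),(0,14),(25,24),(17,11),(15,14),(0,24),(12,24),(13,24)]⟩),
  (.base 5,⟨false,[],(17,11),.mon 0 0 0,[(13,14),(12,14),(0,14),(25,24),(20,9),(15,14),(0,24),(12,24),(13,24)]⟩),
  (.cc 0,⟨false,[],(23,3),.mon 0 0 0,[(8,15),(9,15),(0,15),(6,7),(20,12),(14,15),(0,7),(9,7),(8,7)]⟩),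
  (.ca 0,⟨false,[],(22,19),.mon 0 0 0,[(10,25),(11,25),(0,25),(5,4),(17,12),(24,25),(0,4),(11,4),(10,4)]⟩),
  (.cc 0,⟨false,[],(16,5),.mon 0 0 0,[(2,6),(3,6),(0,6),(19,18),(23,9),(7,6),(0,18),(3,18),(2,18)]⟩),
  (.ca 0,⟨false,[],(21,6),.mon 0 0 0,[(18,5),(19,5),(0,5),(3,2),(22,11),(4,5),(0,2),(19,2),(18,2)]⟩),
  (.cc 0,⟨false,[],(21,25),.mon 0 0 0,[(4,19),(5,19),(0,19),(11,10),(16,3),(18,19),(0,10),(5,10),(4,10)]⟩),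
  (.ca 0,⟨false,[],(16,15),.mon 0 0 0,[(7,3),(6,3),(0,3),(9,8),(21,19),(2,3),(0,8),(6,8),(7,8)]⟩),
  (.cc 0,⟨false,[],(22,14),.mon 0 0 0,[(24,11),(25,11),(0,11),(12,13),(21,5),(10,11),(0,13),(25,13),(24,13)]⟩),
  (.ca 0,⟨false,[],(23,24),.mon 0 0 0,[(14,9),(15,9),(0,9),(12,13),(16,6),(8,9),(0,13),(15,13),(14,13)]⟩),
  (.cc 0,⟨false,[],(17,7),.mon 0 0 0,[(15,12),(14,12),(0,12),(9,8),(22,25),(13,12),(0,8),(14,8),(15,8)]⟩),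
  (.ca 0,⟨false,[],(20,4),.mon 0 0 0,[(25,12),(24,12),(0,12),(11,10),(23,15),(13,12),(0,10),(24,10),(25,10)]⟩),
  (.cc 0,⟨false,[],(20,18),.mon 0 0 0,[(6,9),(7,9),(0,9),(3,2),(17,14),(8,9),(0,2),(7,2),(6,2)]⟩),
  (.ca 0,⟨false,[],(17,2),.mon 0 0 0,[(5,11),(4,11),(0,11),(19,18),(20,24),(10,11),(0,18),(4,18),(5,18)]⟩),
  (.cc 0,⟨false,[],(23,10),.mon 0 0 0,[(19,3),(18,3),(0,3),(5,4),(20,7),(2,3),(0,4),(18,4),(19,4)]⟩),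
  (.ca 0,⟨false,[],(22,8),.mon 0 0 0,[(3,19),(2,19),(0,19),(6,7),(17,4),(18,19),(0,7),(2,7),(3,7)]⟩),
  (.rho 0,⟨false,[],(9,23),.mon 0 0 0,[(3,19),(2,19),(0,19),(6,7),(17,4),(18,19),(0,7),(2,7),(3,7)]⟩),
  (.comm 16 0 0,⟨false,[],(20,23),.mon 0 0 0,[(18,14),(6,14),(18,24),(6,24)]⟩),
  (.ca 0,⟨false,[],(17,22),.mon 0 0 0,[(2,24),(5,24),(2,14),(5,14)]⟩),
  (.cc 0,⟨false,[],(23,16),.mon 0 0 0,[(10,7),(19,7),(10,15),(19,15)]⟩),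
  (.ca 0,⟨false,[],(22,21),.mon 0 0 0,[(8,4),(3,4),(8,25),(3,25)]⟩),
  (.cc 0,⟨false,[],(16,21),.mon 0 0 0,[(13,18),(11,18),(13,6),(11,6)]⟩),
  (.ca 0,⟨false,[],(21,16),.mon 0 0 0,[(13,2),(9,2),(13,5),(9,5)]⟩),
  (.rho 0,⟨false,[],(17,20),.mon 0 0 0,[(13,2),(9,2),(13,5),(9,5)]⟩),
  (.comm 6 0 0,⟨false,[],(17,23),.mon 0 0 0,[]⟩),
  (.cc 0,⟨false,[],(23,17),.mon 0 0 0,[]⟩),
  (.rho 0,⟨false,[],(16,22),.mon 0 0 0,[]⟩),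
  (.ca 0,⟨false,[],(21,23),.mon 0 0 0,[]⟩),
  (.rho 0,⟨false,[],(22,20),.mon 0 0 0,[]⟩),
  (.comm 28 0 0,⟨false,[],(22,9),.mon 0 0 0,[]⟩),
  (.rho 0,⟨false,[],(8,23),.mon 0 0 0,[]⟩),
  (.ca 0,⟨false,[],(10,22),.mon 0 0 0,[]⟩),
  (.cc 0,⟨false,[],(2,16),.mon 0 0 0,[]⟩),
  (.ca 0,⟨false,[],(18,21),.mon 0 0 0,[]⟩),
  (.cc 0,⟨false,[],(4,21),.mon 0 0 0,[]⟩),
  (.ca 0,⟨false,[],(7,16),.mon 0 0 0,[]⟩),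
  (.cc 0,⟨false,[],(24,22),.mon 0 0 0,[]⟩),
  (.rho 0,⟨false,[],(23,25),.mon 0 0 0,[]⟩),
  (.ca 0,⟨false,[],(22,15),.mon 0 0 0,[]⟩),
  (.rho 0,⟨false,[],(14,23),.mon 0 0 0,[]⟩),
  (.cc 0,⟨false,[],(15,17),.mon 0 0 0,[]⟩),
  (.ca 0,⟨false,[],(25,20),.mon 0 0 0,[]⟩),
  (.rho 0,⟨false,[],(21,24),.mon 0 0 0,[]⟩),
  (.cc 0,⟨false,[],(21,7),.mon 0 0 0,[]⟩),
  (.rho 0,⟨false,[],(6,20),.mon 0 0 0,[]⟩),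
  (.ca 0,⟨false,[],(5,17),.mon 0 0 0,[]⟩),
  (.cc 0,⟨false,[],(19,23),.mon 0 0 0,[]⟩),
  (.ca 0,⟨false,[],(3,22),.mon 0 0 0,[]⟩),
  (.cc 0,⟨false,[],(11,16),.mon 0 0 0,[]⟩),
  (.ca 0,⟨false,[],(9,21),.mon 0 0 0,[]⟩),
  (.cc 0,⟨false,[],(12,21),.mon 0 0 0,[]⟩),
  (.rho 0,⟨false,[],(20,13),.mon 0 0 0,[]⟩),
  (.comm 52 0 0,⟨false,[],(20,14),.mon 1 0 0,[(20,24)]⟩),
  (.rho 26,⟨false,[],(23,17),.mon 0 0 0,[]⟩),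
  (.comm 14 0 0,⟨false,[],(14,17),.mon 0 0 0,[]⟩),
  (.comm 2 0 0,⟨false,[],(20,17),.mon 1 0 0,[]⟩),
  (.rho 0,⟨false,[],(16,21),.mon 0 1 0,[]⟩),
  (.cc 29,⟨false,[],(21,17),.mon 0 0 0,[]⟩),
  (.rho 0,⟨false,[],(16,20),.mon 0 0 0,[]⟩),
  (.comm 26 0 0,⟨false,[],(2,20),.mon 0 0 0,[]⟩),
  (.rho 0,⟨false,[],(21,3),.mon 0 0 0,[]⟩),
  (.comm 4 0 0,⟨false,[],(16,3),.mon 0 1 0,[]⟩),
  (.rho 0,⟨false,[],(2,17),.mon 1 0 0,[]⟩),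
  (.rho 38,⟨false,[],(22,16),.mon 0 0 0,[]⟩),
  (.comm 16 0 0,⟨false,[],(3,16),.mon 0 0 0,[]⟩),
  (.rho 0,⟨false,[],(17,2),.mon 0 0 0,[]⟩),
  (.sI 3 0,⟨true,[],(17,21),.mon 1 0 0,[]⟩),
  (.rho 48,⟨false,[],(23,16),.mon 0 0 0,[(2,24),(5,24),(2,14),(5,14)]⟩),
  (.comm 50 0 0,⟨false,[],(20,16),.mon 0 0 0,[]⟩),
  (.rho 0,⟨false,[],(17,21),.mon 0 0 0,[]⟩),
  (.sF 3 0,⟨false,[],(17,21),.all,[]⟩),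
  (.rho 11,⟨false,[],(21,3),.mon 0 0 0,[]⟩),
  (.comm 1 0 0,⟨false,[],(17,3),.all,[]⟩),
  (.comm 0 27 0,⟨false,[],(5,3),.all,[]⟩),
  (.rho 15,⟨false,[],(21,17),.mon 0 0 0,[]⟩),
  (.comm 40 0 0,⟨false,[],(4,17),.mon 0 0 0,[]⟩),
  (.comm 5 0 0,⟨false,[],(4,21),.all,[]⟩),
  (.rho 49,⟨false,[],(22,20),.mon 0 0 0,[]⟩),
  (.comm 30 0 0,⟨false,[],(3,20),.mon 0 0 0,[]⟩),
  (.rho 0,⟨false,[],(21,2),.mon 0 0 0,[]⟩),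
  (.comm 3 0 0,⟨false,[],(4,2),.all,[]⟩),
  (.comm 45 22 0,⟨false,[],(7,20),.mon 0 0 0,[]⟩),
  (.rho 0,⟨false,[],(21,6),.mon 0 0 0,[]⟩),
  (.comm 6 0 0,⟨false,[],(4,6),.all,[]⟩),
  (.rho 39,⟨false,[],(21,7),.mon 0 0 0,[]⟩),
  (.comm 14 0 0,⟨false,[],(17,7),.all,[]⟩),
  (.comm 0 40 0,⟨false,[],(5,7),.all,[]⟩),
  (.rho 28,⟨false,[],(21,17),.mon 0 0 0,[]⟩),
  (.comm 38 0 0,⟨false,[],(9,17),.mon 0 0 0,[]⟩),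
  (.comm 3 0 0,⟨false,[],(9,7),.all,[]⟩),
  (.rho 63,⟨false,[],(23,17),.mon 0 0 0,[]⟩),
  (.comm 60 0 0,⟨false,[],(8,17),.mon 0 0 0,[]⟩),
  (.comm 21 0 0,⟨false,[],(8,21),.all,[]⟩),
  (.rho 11,⟨false,[],(21,6),.mon 0 0 0,[]⟩),
  (.comm 1 0 0,⟨false,[],(8,6),.all,[]⟩),
  (.comm 46 36 0,⟨false,[],(11,20),.mon 0 0 0,[]⟩),
  (.rho 0,⟨false,[],(21,10),.mon 0 0 0,[]⟩),
  (.comm 4 0 0,⟨false,[],(8,10),.all,[]⟩),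
  (.rho 70,⟨false,[],(22,20),.mon 0 0 0,[]⟩),
  (.comm 67 0 0,⟨false,[],(10,20),.mon 0 0 0,[]⟩),
  (.rho 0,⟨false,[],(21,11),.mon 0 0 0,[]⟩),
  (.comm 30 0 0,⟨false,[],(17,11),.all,[]⟩),
  (.comm 0 13 0,⟨false,[],(9,11),.all,[]⟩),
  (.cc 72,⟨false,[],(13,17),.mon 0 0 0,[]⟩),
  (.comm 33 0 0,⟨false,[],(13,21),.all,[]⟩),
  (.rho 5,⟨false,[],(21,11),.mon 0 0 0,[]⟩),
  (.comm 1 0 0,⟨false,[],(13,11),.all,[]⟩),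
  (.rho 11,⟨false,[],(21,10),.mon 0 0 0,[]⟩),
  (.comm 37 0 0,⟨false,[],(17,10),.all,[]⟩),
  (.rho 50,⟨false,[],(21,17),.mon 0 0 0,[]⟩),
  (.comm 59 0 0,⟨false,[],(12,17),.mon 0 0 0,[]⟩),
  (.comm 2 0 0,⟨false,[],(12,10),.all,[]⟩),
  (.comm 41 71 0,⟨false,[],(15,21),.all,[]⟩),
  (.ca 62,⟨false,[],(12,16),.mon 0 0 0,[]⟩),
  (.comm 0 55 0,⟨false,[],(12,20),.mon 0 0 0,[]⟩),
  (.rho 0,⟨false,[],(21,13),.mon 0 0 0,[]⟩),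
  (.comm 3 0 0,⟨false,[],(15,13),.all,[]⟩),
  (.comm 77 79 0,⟨false,[],(14,25),.mon 0 0 0,[]⟩),
  (.rho 0,⟨false,[],(24,15),.mon 0 0 0,[]⟩),
  (.comm 76 0 0,⟨false,[],(21,15),.mon 0 0 0,[]⟩),
  (.rho 0,⟨false,[],(14,20),.mon 0 0 0,[]⟩),
  (.rho 0,⟨false,[],(21,15),.mon 0 0 0,[]⟩),
  (.comm 17 0 0,⟨false,[],(13,15),.all,[]⟩),
  (.rho 2,⟨false,[],(21,15),.mon 0 0 0,[]⟩),
  (.comm 53 0 0,⟨false,[],(17,15),.all,[]⟩),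
  (.rho 66,⟨false,[],(21,17),.mon 0 0 0,[]⟩),
  (.comm 13 0 0,⟨false,[],(15,17),.all,[]⟩),
  (.rho 100,⟨false,[],(23,17),.mon 0 0 0,[]⟩),
  (.comm 81 0 0,⟨false,[],(19,17),.mon 0 0 0,[]⟩),
  (.rho 0,⟨false,[],(16,18),.mon 0 0 0,[]⟩),
  (.rho 0,⟨false,[],(19,17),.mon 0 0 0,[]⟩),
  (.comm 60 0 0,⟨false,[],(19,21),.all,[]⟩),
  (.rho 73,⟨false,[],(21,17),.mon 0 0 0,[]⟩),
  (.comm 1 0 0,⟨false,[],(19,17),.all,[]⟩),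
  (.ca 30,⟨false,[],(13,20),.mon 0 0 0,[]⟩),
  (.cc 0,⟨false,[],(8,20),.mon 0 0 0,[]⟩),
  (.ca 0,⟨false,[],(10,17),.mon 0 0 0,[]⟩),
  (.cc 0,⟨false,[],(2,23),.mon 0 0 0,[]⟩),
  (.ca 0,⟨false,[],(18,22),.mon 0 0 0,[]⟩),
  (.rho 111,⟨false,[],(22,20),.mon 0 0 0,[]⟩),
  (.comm 1 0 0,⟨false,[],(18,20),.mon 0 0 0,[]⟩),
  (.rho 0,⟨false,[],(21,19),.mon 0 0 0,[]⟩),
  (.comm 71 0 0,⟨false,[],(17,19),.all,[]⟩),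
  (.rho 84,⟨false,[],(21,17),.mon 0 0 0,[]⟩),
  (.comm 1 0 0,⟨false,[],(21,19),.all,[]⟩),
  (.cc 74,⟨false,[],(23,21),.all,[]⟩),
  (.comm 75 118 0,⟨false,[],(17,23),.all,[]⟩),
  (.rho 88,⟨false,[],(21,17),.mon 0 0 0,[]⟩),
  (.comm 1 0 0,⟨false,[],(21,23),.all,[]⟩),
  (.cc 79,⟨false,[],(23,21),.mon 0 0 0,[]⟩),
  (.rho 0,⟨false,[],(20,22),.mon 0 0 0,[]⟩),
  (.rho 0,⟨false,[],(23,21),.mon 0 0 0,[]⟩),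
  (.comm 112 0 0,⟨false,[],(14,21),.mon 0 0 0,[]⟩),
  (.rho 112,⟨false,[],(16,14),.mon 0 0 0,[]⟩),
  (.comm 1 0 0,⟨false,[],(16,21),.mon 0 0 0,[]⟩),
  (.comm 0 112 0,⟨false,[],(16,24),.mon 0 0 0,[]⟩),
  (.rho 0,⟨false,[],(25,17),.mon 0 0 0,[]⟩),
  (.comm 10 0 0,⟨false,[],(25,23),.all,[]⟩),
  (.comm 120 130 0,⟨false,[],(21,25),.mon 0 0 0,[]⟩),
  (.comm 13 0 0,⟨false,[],(23,25),.all,[]⟩),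
  (.comm 87 84 0,⟨false,[],(4,3),.all,[]⟩),
  (.comm 90 115 0,⟨false,[],(5,21),.all,[]⟩),
  (.rho 83,⟨false,[],(21,2),.mon 0 0 0,[]⟩),
  (.comm 1 0 0,⟨false,[],(5,2),.all,[]⟩),
  (.rho 137,⟨false,[],(23,17),.mon 0 0 0,[]⟩),
  (.comm 27 0 0,⟨false,[],(2,17),.mon 0 0 0,[]⟩),
  (.comm 93 0 1,⟨false,[],(2,3),.all,[]⟩),
  (.rho 12,⟨false,[],(20,17),.mon 0 0 0,[]⟩),
  (.comm 97 0 1,⟨false,[],(20,21),.all,[]⟩),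
  (.comm 90 0 5,⟨false,[],(3,2),.all,[(3,21)]⟩),
  (.rho 130,⟨false,[],(22,15),.mon 0 0 0,[]⟩),
  (.comm 130 0 0,⟨false,[],(22,17),.mon 0 0 0,[]⟩),
  (.rho 0,⟨false,[],(16,23),.mon 0 0 0,[]⟩),
  (.rho 0,⟨false,[],(22,17),.mon 0 0 0,[]⟩),
  (.comm 126 0 0,⟨false,[],(3,17),.mon 0 0 0,[]⟩),
  (.comm 104 0 0,⟨false,[],(3,21),.all,[]⟩),
  (.drop 6 [0],⟨false,[],(3,2),.all,[]⟩),
  (.base 2,⟨false,[],(0,14),.mon 1 0 0,[(13,14),(12,14),(25,24),(20,9),(17,11),(15,14),(0,24),(12,24),(13,24)]⟩),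
  (.comm 105 123 0,⟨false,[],(14,3),.all,[]⟩),
  (.comm 1 0 4,⟨false,[],(0,3),.all,[(15,3),(13,3),(12,3),(15,3),(2,3),(2,24)]⟩),
  (.comm 107 139 0,⟨false,[],(15,3),.all,[]⟩),
  (.rho 121,⟨false,[],(21,3),.mon 0 0 0,[]⟩),
  (.comm 77 0 0,⟨false,[],(13,3),.all,[]⟩),
  (.comm 110 72 0,⟨false,[],(12,3),.all,[]⟩),
  (.rho 28,⟨false,[],(25,17),.mon 0 0 0,[]⟩),
  (.comm 112 0 0,⟨false,[],(25,3),.all,[]⟩),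
  (.drop 6 [5,3,2,5,19,0],⟨false,[],(0,3),.all,[]⟩),
  (.comm 116 132 0,⟨false,[],(14,21),.all,[]⟩),
  (.rho 109,⟨false,[],(21,2),.mon 0 0 0,[]⟩),
  (.comm 1 0 0,⟨false,[],(14,2),.all,[]⟩),
  (.comm 12 0 4,⟨false,[],(0,2),.all,[(15,2),(13,2),(12,2),(15,2),(3,2),(3,24)]⟩),
  (.rho 112,⟨false,[],(21,2),.mon 0 0 0,[]⟩),
  (.comm 79 0 0,⟨false,[],(15,2),.all,[]⟩),
  (.rho 114,⟨false,[],(21,2),.mon 0 0 0,[]⟩),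
  (.comm 89 0 0,⟨false,[],(13,2),.all,[]⟩),
  (.rho 116,⟨false,[],(21,2),.mon 0 0 0,[]⟩),
  (.comm 125 0 0,⟨false,[],(17,2),.all,[]⟩),
  (.comm 0 86 0,⟨false,[],(12,2),.all,[]⟩),
  (.comm 127 155 0,⟨false,[],(17,24),.all,[]⟩),
  (.comm 0 24 0,⟨false,[],(3,24),.all,[]⟩),
  (.drop 9 [7,5,2,7,23,0],⟨false,[],(0,2),.all,[]⟩)],
  [(40,40),(37,37),(34,34),(24,24),(14,34),(0,24),(127,127),(120,120),(117,117),(114,114),(111,111),(106,106),(103,103),(98,98),(94,94),(89,89),(84,84),(78,78),(76,76),(74,74),(67,67),(58,58),(56,56),(69,69),(55,55),(52,52),(43,43),(41,41)]⟩⟩ = true := by decide +kernel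

theorem cXe13 : Fam.chkP .X 13 1 true true true false false
  ⟨[],[],[],[((10,7),some (1,0,0)),((13,8),some (1,0,0)),((6,4),some (0,0,0))],3,(0,3),(3,4),(0,4),(2,4),(1,0,0),[(20,25),(19,22),(24,26),(0,26),(2,26),(3,26)],
  [(.base 5,⟨false,[],(20,25),.mon 1 0 0,[(3,26),(2,26),(0,26),(24,26),(19,22),(10,7),(13,8),(6,4),(0,4),(2,4),(3,4)]⟩),
  (.base 4,⟨false,[],(19,22),.mon 1 0 0,[(3,26),(2,26),(0,26),(24,26),(20,25),(10,7),(13,8),(6,4),(0,4),(2,4),(3,4)]⟩),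
  (.base 0,⟨false,[],(3,26),.mon 1 0 0,[(2,26),(0,26),(24,26),(19,22),(20,25),(10,7),(13,8),(6,4),(0,4),(2,4),(3,4)]⟩),
  (.base 6,⟨false,[],(10,7),.mon 1 0 0,[(3,26),(2,26),(0,26),(24,26),(19,22),(20,25),(13,8),(6,4),(0,4),(2,4),(3,4)]⟩),
  (.cc 0,⟨false,[],(24,3),.mon 1 0 0,[(7,8),(6,8),(0,8),(10,8),(17,12),(14,11),(23,26),(2,4),(0,4),(6,4),(7,4)]⟩),
  (.comm 2 0 0,⟨false,[],(24,26),.mon 2 0 0,[(5,26),(9,26),(10,8),(10,4),(9,4),(5,4),(24,4)]⟩),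
  (.cc 4,⟨false,[],(17,12),.mon 1 0 0,[(7,8),(6,8),(0,8),(10,8),(14,11),(24,3),(23,26),(2,4),(0,4),(6,4),(7,4)]⟩),
  (.ca 0,⟨false,[],(15,18),.mon 1 0 0,[(25,22),(24,22),(0,22),(20,22),(16,21),(6,3),(9,4),(2,26),(0,26),(24,26),(25,26)]⟩),
  (.cc 0,⟨false,[],(21,16),.mon 1 0 0,[(11,12),(10,12),(0,12),(14,12),(18,15),(2,7),(27,4),(6,8),(0,8),(10,8),(11,8)]⟩),
  (.ca 0,⟨false,[],(11,14),.mon 1 0 0,[(21,18),(20,18),(0,18),(16,18),(12,17),(2,25),(5,26),(24,22),(0,22),(20,22),(21,22)]⟩),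
  (.cc 0,⟨false,[],(25,20),.mon 1 0 0,[(15,16),(14,16),(0,16),(18,16),(22,19),(6,11),(5,8),(10,12),(0,12),(14,12),(15,12)]⟩),
  (.rho 0,⟨false,[],(21,24),.mon 0 1 0,[(15,16),(14,16),(0,16),(18,16),(22,19),(6,11),(5,8),(10,12),(0,12),(14,12),(15,12)]⟩),
  (.comm 6 0 0,⟨false,[],(21,26),.mon 2 1 0,[(21,4)]⟩),
  (.cc 12,⟨false,[],(14,11),.mon 1 0 0,[(7,8),(6,8),(0,8),(10,8),(17,12),(24,3),(23,26),(2,4),(0,4),(6,4),(7,4)]⟩),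
  (.ca 0,⟨false,[],(16,21),.mon 1 0 0,[(25,22),(24,22),(0,22),(20,22),(15,18),(6,3),(9,4),(2,26),(0,26),(24,26),(25,26)]⟩),
  (.cc 0,⟨false,[],(18,15),.mon 1 0 0,[(11,12),(10,12),(0,12),(14,12),(21,16),(2,7),(27,4),(6,8),(0,8),(10,8),(11,8)]⟩),
  (.ca 0,⟨false,[],(12,17),.mon 1 0 0,[(21,18),(20,18),(0,18),(16,18),(11,14),(2,25),(5,26),(24,22),(0,22),(20,22),(21,22)]⟩),
  (.cc 0,⟨false,[],(22,19),.mon 1 0 0,[(15,16),(14,16),(0,16),(18,16),(25,20),(6,11),(5,8),(10,12),(0,12),(14,12),(15,12)]⟩),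
  (.ca 0,⟨false,[],(8,13),.mon 1 0 0,[(17,14),(16,14),(0,14),(12,14),(7,10),(24,21),(27,22),(20,18),(0,18),(16,18),(17,18)]⟩),
  (.cc 0,⟨false,[],(26,23),.mon 1 0 0,[(19,20),(18,20),(0,20),(22,20),(3,24),(10,15),(9,12),(14,16),(0,16),(18,16),(19,16)]⟩),
  (.comm 7 0 0,⟨false,[],(21,23),.mon 3 1 0,[]⟩),
  (.ca 0,⟨false,[],(11,9),.mon 3 1 0,[]⟩),
  (.rho 0,⟨false,[],(8,10),.mon 1 3 0,[]⟩),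
  (.cc 0,⟨false,[],(26,24),.mon 1 3 0,[]⟩),
  (.rho 0,⟨false,[],(25,27),.mon 3 1 0,[]⟩),
  (.ca 0,⟨false,[],(7,5),.mon 3 1 0,[]⟩),
  (.rho 0,⟨false,[],(4,6),.mon 1 3 0,[]⟩),
  (.cc 0,⟨false,[],(4,2),.mon 1 3 0,[]⟩),
  (.rho 0,⟨false,[],(3,5),.mon 3 1 0,[]⟩),
  (.ca 0,⟨false,[],(3,27),.mon 3 1 0,[]⟩),
  (.cc 0,⟨false,[],(7,9),.mon 3 1 0,[]⟩),
  (.ca 0,⟨false,[],(25,23),.mon 3 1 0,[]⟩),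
  (.rho 0,⟨false,[],(22,24),.mon 1 3 0,[]⟩),
  (.cc 0,⟨false,[],(12,10),.mon 1 3 0,[]⟩),
  (.rho 0,⟨false,[],(11,13),.mon 3 1 0,[]⟩),
  (.ca 0,⟨false,[],(21,19),.mon 3 1 0,[]⟩),
  (.rho 0,⟨false,[],(18,20),.mon 1 3 0,[]⟩),
  (.cc 0,⟨false,[],(16,14),.mon 1 3 0,[]⟩),
  (.rho 0,⟨false,[],(15,17),.mon 3 1 0,[]⟩),
  (.cc 18,⟨false,[],(15,13),.mon 3 1 0,[]⟩),
  (.rho 0,⟨false,[],(12,14),.mon 1 3 0,[]⟩),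
  (.ca 0,⟨false,[],(18,16),.mon 1 3 0,[]⟩),
  (.rho 0,⟨false,[],(17,19),.mon 3 1 0,[]⟩),
  (.comm 4 0 0,⟨false,[],(15,19),.mon 6 2 0,[]⟩),
  (.comm 42 0 0,⟨false,[],(15,22),.mon 7 2 0,[]⟩),
  (.cc 0,⟨false,[],(21,12),.mon 7 2 0,[]⟩),
  (.rho 0,⟨false,[],(13,20),.mon 2 7 0,[]⟩),
  (.comm 46 0 0,⟨false,[],(13,25),.mon 3 7 0,[]⟩),
  (.cc 5,⟨false,[],(19,17),.mon 3 1 0,[]⟩),
  (.rho 0,⟨false,[],(16,18),.mon 1 3 0,[]⟩),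
  (.ca 0,⟨false,[],(14,12),.mon 1 3 0,[]⟩),
  (.rho 0,⟨false,[],(13,15),.mon 3 1 0,[]⟩),
  (.cc 0,⟨false,[],(23,21),.mon 3 1 0,[]⟩),
  (.rho 0,⟨false,[],(20,22),.mon 1 3 0,[]⟩),
  (.ca 0,⟨false,[],(10,8),.mon 1 3 0,[]⟩),
  (.rho 0,⟨false,[],(9,11),.mon 3 1 0,[]⟩),
  (.cc 0,⟨false,[],(27,25),.mon 3 1 0,[]⟩),
  (.rho 0,⟨false,[],(24,26),.mon 1 3 0,[]⟩),
  (.ca 0,⟨false,[],(6,4),.mon 1 3 0,[]⟩),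
  (.rho 0,⟨false,[],(5,7),.mon 3 1 0,[]⟩),
  (.cc 0,⟨false,[],(5,3),.mon 3 1 0,[]⟩),
  (.rho 0,⟨false,[],(2,4),.mon 1 3 0,[]⟩),
  (.ca 0,⟨false,[],(2,26),.mon 1 3 0,[]⟩),
  (.rho 38,⟨false,[],(26,24),.mon 1 3 0,[]⟩),
  (.comm 1 0 0,⟨false,[],(2,24),.mon 2 6 0,[]⟩),
  (.rho 0,⟨false,[],(25,3),.mon 6 2 0,[]⟩),
  (.comm 18 0 0,⟨false,[],(13,3),.mon 9 9 0,[]⟩),
  (.rho 0,⟨false,[],(2,12),.mon 9 9 0,[]⟩),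
  (.comm 31 18 0,⟨false,[],(16,20),.mon 2 6 0,[]⟩),
  (.comm 68 0 0,⟨false,[],(16,25),.mon 3 6 0,[]⟩),
  (.cc 0,⟨false,[],(18,11),.mon 3 6 0,[]⟩),
  (.rho 0,⟨false,[],(10,19),.mon 6 3 0,[]⟩),
  (.ca 0,⟨false,[],(20,13),.mon 6 3 0,[]⟩),
  (.rho 0,⟨false,[],(12,21),.mon 3 6 0,[]⟩),
  (.comm 72 31 0,⟨false,[],(17,22),.mon 4 1 0,[]⟩),
  (.ca 0,⟨false,[],(15,8),.mon 4 1 0,[]⟩),
  (.rho 0,⟨false,[],(9,14),.mon 1 4 0,[]⟩),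
  (.cc 0,⟨false,[],(27,20),.mon 1 4 0,[]⟩),
  (.rho 0,⟨false,[],(21,26),.mon 4 1 0,[]⟩),
  (.rho 49,⟨false,[],(26,2),.mon 1 3 0,[]⟩),
  (.comm 1 0 0,⟨false,[],(21,2),.mon 5 4 0,[]⟩),
  (.rho 0,⟨false,[],(3,20),.mon 4 5 0,[]⟩),
  (.rho 0,⟨false,[],(21,2),.mon 5 4 0,[]⟩),
  (.comm 9 0 0,⟨false,[],(12,2),.mon 8 10 0,[]⟩),
  (.rho 0,⟨false,[],(3,13),.mon 10 8 0,[]⟩),
  (.rho 0,⟨false,[],(12,2),.mon 8 10 0,[]⟩),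
  (.sI 18 0,⟨true,[],(12,14),.mon 17 19 0,[]⟩),
  (.ca 42,⟨false,[],(17,8),.mon 7 2 0,[]⟩),
  (.rho 0,⟨false,[],(9,16),.mon 2 7 0,[]⟩),
  (.comm 0 58 0,⟨false,[],(7,16),.mon 5 8 0,[]⟩),
  (.cc 0,⟨false,[],(3,18),.mon 5 8 0,[]⟩),
  (.ca 0,⟨false,[],(3,12),.mon 5 8 0,[]⟩),
  (.ca 22,⟨false,[],(14,7),.mon 3 6 0,[]⟩),
  (.rho 0,⟨false,[],(6,15),.mon 6 3 0,[]⟩),
  (.rho 53,⟨false,[],(15,13),.mon 3 1 0,[]⟩),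
  (.comm 1 0 0,⟨false,[],(6,13),.mon 9 4 0,[]⟩),
  (.comm 34 69 0,⟨false,[],(2,6),.mon 2 6 0,[]⟩),
  (.comm 1 0 0,⟨false,[],(2,13),.mon 11 10 0,[]⟩),
  (.rho 0,⟨false,[],(12,3),.mon 10 11 0,[]⟩),
  (.sI 7 0,⟨true,[],(12,14),.mon 15 19 0,[]⟩),
  (.sN 0,⟨true,[],(12,14),.mon (-15) (-19) 0,[]⟩),
  (.sA 14 0,⟨true,[],(12,14),.mon 2 0 0,[]⟩),
  (.sF 0 61,⟨false,[],(12,14),.all,[]⟩),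
  (.comm 45 70 0,⟨false,[],(22,26),.mon 2 6 0,[]⟩),
  (.comm 102 0 0,⟨false,[],(19,26),.mon 3 6 0,[]⟩),
  (.ca 0,⟨false,[],(13,4),.mon 3 6 0,[]⟩),
  (.rho 0,⟨false,[],(5,12),.mon 6 3 0,[]⟩),
  (.comm 4 0 0,⟨false,[],(5,14),.all,[]⟩),
  (.ca 69,⟨false,[],(17,15),.mon 3 1 0,[]⟩),
  (.rho 0,⟨false,[],(14,16),.mon 1 3 0,[]⟩),
  (.comm 0 41 0,⟨false,[],(14,20),.mon 3 9 0,[]⟩),
  (.comm 110 0 0,⟨false,[],(14,25),.mon 4 9 0,[]⟩),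
  (.rho 47,⟨false,[],(25,3),.mon 6 2 0,[]⟩),
  (.comm 1 0 0,⟨false,[],(14,3),.mon 10 11 0,[]⟩),
  (.rho 0,⟨false,[],(2,15),.mon 11 10 0,[]⟩),
  (.rho 0,⟨false,[],(14,3),.mon 10 11 0,[]⟩),
  (.comm 8 0 0,⟨false,[],(5,3),.all,[]⟩),
  (.cc 54,⟨false,[],(6,8),.mon 1 3 0,[]⟩),
  (.comm 0 95 0,⟨false,[],(6,10),.mon 2 6 0,[]⟩),
  (.comm 0 92 0,⟨false,[],(4,10),.mon 3 9 0,[]⟩),
  (.cc 10,⟨false,[],(20,18),.mon 1 3 0,[]⟩),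
  (.rho 0,⟨false,[],(19,21),.mon 3 1 0,[]⟩),
  (.ca 0,⟨false,[],(13,11),.mon 3 1 0,[]⟩),
  (.rho 0,⟨false,[],(10,12),.mon 1 3 0,[]⟩),
  (.comm 4 0 0,⟨false,[],(4,12),.mon 4 12 0,[]⟩),
  (.comm 22 0 0,⟨false,[],(4,14),.all,[]⟩),
  (.rho 11,⟨false,[],(14,3),.mon 10 11 0,[]⟩),
  (.comm 1 0 0,⟨false,[],(4,3),.all,[]⟩),
  (.ca 49,⟨false,[],(11,4),.mon 4 1 0,[]⟩),
  (.rho 0,⟨false,[],(5,10),.mon 1 4 0,[]⟩),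
  (.cc 0,⟨false,[],(5,24),.mon 1 4 0,[]⟩),
  (.comm 0 102 0,⟨false,[],(3,24),.mon 4 5 0,[]⟩),
  (.rho 0,⟨false,[],(25,2),.mon 5 4 0,[]⟩),
  (.comm 63 0 0,⟨false,[],(16,2),.mon 8 10 0,[]⟩),
  (.rho 0,⟨false,[],(3,17),.mon 10 8 0,[]⟩),
  (.ca 0,⟨false,[],(3,15),.mon 10 8 0,[]⟩),
  (.rho 0,⟨false,[],(14,2),.mon 8 10 0,[]⟩),
  (.comm 29 0 0,⟨false,[],(5,2),.all,[]⟩),
  (.rho 2,⟨false,[],(14,2),.mon 8 10 0,[]⟩),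
  (.comm 13 0 0,⟨false,[],(4,2),.all,[]⟩),
  (.comm 105 88 0,⟨false,[],(11,15),.mon 6 2 0,[]⟩),
  (.comm 85 110 0,⟨false,[],(7,11),.mon 6 2 0,[]⟩),
  (.comm 1 0 0,⟨false,[],(7,15),.mon 12 4 0,[]⟩),
  (.rho 0,⟨false,[],(14,6),.mon 4 12 0,[]⟩),
  (.comm 41 0 0,⟨false,[],(12,6),.all,[]⟩),
  (.comm 0 20 0,⟨false,[],(4,6),.all,[]⟩),
  (.comm 22 27 0,⟨false,[],(6,12),.mon 3 9 0,[]⟩),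
  (.comm 44 0 0,⟨false,[],(6,14),.all,[]⟩),
  (.comm 54 121 0,⟨false,[],(4,15),.mon 7 6 0,[]⟩),
  (.rho 0,⟨false,[],(14,5),.mon 6 7 0,[]⟩),
  (.comm 2 0 0,⟨false,[],(6,5),.all,[]⟩),
  (.comm 6 44 0,⟨false,[],(5,6),.all,[]⟩),
  (.rho 21,⟨false,[],(25,4),.mon 4 1 0,[]⟩),
  (.comm 41 0 0,⟨false,[],(14,4),.mon 8 10 0,[]⟩),
  (.rho 0,⟨false,[],(5,15),.mon 10 8 0,[]⟩),
  (.rho 0,⟨false,[],(14,4),.mon 8 10 0,[]⟩),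
  (.comm 8 0 0,⟨false,[],(6,4),.all,[]⟩),
  (.comm 35 136 0,⟨false,[],(19,23),.mon 6 2 0,[]⟩),
  (.comm 0 115 0,⟨false,[],(17,23),.mon 9 3 0,[]⟩),
  (.rho 0,⟨false,[],(22,16),.mon 3 9 0,[]⟩),
  (.comm 158 0 0,⟨false,[],(19,16),.mon 4 9 0,[]⟩),
  (.rho 0,⟨false,[],(17,18),.mon 9 4 0,[]⟩),
  (.ca 0,⟨false,[],(15,12),.mon 9 4 0,[]⟩),
  (.rho 0,⟨false,[],(13,14),.mon 4 9 0,[]⟩),
  (.rho 0,⟨false,[],(15,12),.mon 9 4 0,[]⟩),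
  (.comm 62 0 1,⟨false,[],(15,14),.all,[]⟩),
  (.comm 51 0 5,⟨false,[],(2,3),.all,[(2,14)]⟩),
  (.comm 64 99 0,⟨false,[],(2,14),.all,[]⟩),
  (.drop 1 [0],⟨false,[],(2,3),.all,[]⟩),
  (.comm 33 3 5,⟨false,[],(3,2),.all,[(3,14)]⟩),
  (.comm 63 141 0,⟨false,[],(3,12),.mon 9 4 0,[]⟩),
  (.comm 68 0 0,⟨false,[],(3,14),.all,[]⟩),
  (.drop 2 [0],⟨false,[],(3,2),.all,[]⟩),
  (.base 2,⟨false,[],(0,26),.mon 1 0 0,[(3,26),(2,26),(24,26),(19,22),(20,25),(10,7),(13,8),(6,4),(0,4),(2,4),(3,4)]⟩),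
  (.comm 62 149 0,⟨false,[],(14,27),.mon 7 10 0,[]⟩),
  (.comm 67 0 0,⟨false,[],(5,27),.all,[]⟩),
  (.rho 0,⟨false,[],(26,4),.all,[]⟩),
  (.comm 3 0 4,⟨false,[],(0,4),.all,[(27,4),(3,4),(2,4),(24,4),(5,26),(5,4)]⟩),
  (.rho 47,⟨false,[],(25,4),.mon 4 1 0,[]⟩),
  (.comm 109 0 0,⟨false,[],(16,4),.mon 7 7 0,[]⟩),
  (.rho 0,⟨false,[],(5,17),.mon 7 7 0,[]⟩),
  (.ca 0,⟨false,[],(27,15),.mon 7 7 0,[]⟩),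
  (.rho 0,⟨false,[],(14,26),.mon 7 7 0,[]⟩),
  (.comm 75 0 0,⟨false,[],(5,26),.all,[]⟩),
  (.comm 76 72 0,⟨false,[],(5,25),.all,[]⟩),
  (.rho 30,⟨false,[],(14,4),.mon 8 10 0,[]⟩),
  (.comm 78 0 1,⟨false,[],(5,4),.all,[]⟩),
  (.drop 9 [3,49,70,2,3,0],⟨false,[],(0,4),.all,[]⟩),
  (.spec 60,⟨false,[],(4,3),.mon 0 0 0,[]⟩),
  (.comm 1 0 2,⟨false,[],(0,3),.all,[(5,3)]⟩),
  (.drop 0 [73],⟨false,[],(0,3),.all,[]⟩),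
  (.spec 51,⟨false,[],(4,2),.mon 0 0 0,[]⟩),
  (.comm 4 0 2,⟨false,[],(0,2),.all,[(5,2)]⟩),
  (.drop 0 [55],⟨false,[],(0,2),.all,[]⟩)],
  [(77,77),(66,66),(56,56),(54,54),(54,54),(66,66),(56,56),(77,77),(48,48),(43,43),(42,42),(37,37),(37,37),(43,43),(42,42),(48,48),(25,25),(21,21),(3,25),(0,21)]⟩ = true := by decide +kernel

theorem cXe14 : Fam.chkP .X 14 1 true true true false false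
  ⟨[],[],[],[((5,19),some (1,0,0)),((27,25),some (0,0,0)),((24,25),some (0,0,1))],3,(0,3),(3,10),(0,10),(2,10),(0,0,0),[(29,15),(7,9),(8,9),(0,22),(2,22),(3,22)],
  [(.base 4,⟨false,[],(7,9),.mon 0 0 0,[(3,22),(2,22),(0,22),(8,9),(29,15),(5,19),(27,25),(24,25),(0,10),(2,10),(3,10)]⟩),
  (.base 6,⟨false,[],(5,19),.mon 1 0 0,[(3,22),(2,22),(0,22),(8,9),(7,9),(29,15),(27,25),(24,25),(0,10),(2,10),(3,10)]⟩),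
  (.cc 0,⟨false,[],(5,19),.mon 1 0 0,[(7,14),(6,14),(0,14),(28,29),(3,29),(9,23),(11,13),(12,13),(0,26),(6,26),(7,26)]⟩),
  (.ca 0,⟨false,[],(29,15),.mon 1 0 0,[(27,18),(26,18),(0,18),(4,5),(3,5),(25,11),(23,21),(20,21),(0,6),(26,6),(27,6)]⟩),
  (.cc 0,⟨false,[],(9,23),.mon 1 0 0,[(11,18),(10,18),(0,18),(4,5),(7,5),(13,27),(15,17),(16,17),(0,2),(10,2),(11,2)]⟩),
  (.ca 0,⟨false,[],(25,11),.mon 1 0 0,[(23,14),(22,14),(0,14),(28,29),(27,29),(21,7),(19,17),(16,17),(0,2),(22,2),(23,2)]⟩),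
  (.cc 0,⟨false,[],(13,27),.mon 1 0 0,[(15,22),(14,22),(0,22),(8,9),(11,9),(17,3),(19,21),(20,21),(0,6),(14,6),(15,6)]⟩),
  (.ca 0,⟨false,[],(21,7),.mon 1 0 0,[(19,10),(18,10),(0,10),(24,25),(23,25),(17,3),(15,13),(12,13),(0,26),(18,26),(19,26)]⟩),
  (.comm 7 0 0,⟨false,[],(21,9),.mon 1 0 0,[(17,22),(11,22),(27,22),(29,13),(5,10),(5,26),(11,10),(27,10),(17,10)]⟩),
  (.base 8,⟨false,[],(24,25),.mon 0 0 1,[(3,22),(2,22),(0,22),(8,9),(7,9),(29,15),(5,19),(27,25),(0,10),(2,10),(3,10)]⟩),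
  (.cc 0,⟨false,[],(12,13),.mon 0 0 1,[(7,14),(6,14),(0,14),(28,29),(3,29),(9,23),(5,19),(11,13),(0,26),(6,26),(7,26)]⟩),
  (.ca 0,⟨false,[],(20,21),.mon 0 0 1,[(27,18),(26,18),(0,18),(4,5),(3,5),(25,11),(29,15),(23,21),(0,6),(26,6),(27,6)]⟩),
  (.cc 0,⟨false,[],(16,17),.mon 0 0 1,[(11,18),(10,18),(0,18),(4,5),(7,5),(13,27),(9,23),(15,17),(0,2),(10,2),(11,2)]⟩),
  (.ca 0,⟨false,[],(16,17),.mon 0 0 1,[(23,14),(22,14),(0,14),(28,29),(27,29),(21,7),(25,11),(19,17),(0,2),(22,2),(23,2)]⟩),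
  (.cc 0,⟨false,[],(20,21),.mon 0 0 1,[(15,22),(14,22),(0,22),(8,9),(11,9),(17,3),(13,27),(19,21),(0,6),(14,6),(15,6)]⟩),
  (.comm 6 0 2,⟨false,[],(20,9),.mon 1 0 1,[(8,9),(19,9),(13,22),(29,27),(5,12),(13,10),(29,22),(5,28),(29,10)]⟩),
  (.ca 7,⟨false,[],(13,25),.mon 1 0 0,[(17,10),(23,10),(7,10),(5,21),(29,22),(29,6),(23,22),(7,22),(17,22)]⟩),
  (.cc 0,⟨false,[],(25,13),.mon 1 0 0,[(21,26),(15,26),(3,26),(5,17),(9,14),(9,2),(15,14),(3,14),(21,14)]⟩),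
  (.ca 0,⟨false,[],(9,21),.mon 1 0 0,[(13,6),(19,6),(3,6),(29,17),(25,18),(25,2),(19,18),(3,18),(13,18)]⟩),
  (.cc 0,⟨false,[],(29,17),.mon 1 0 0,[(25,2),(19,2),(7,2),(9,21),(13,18),(13,6),(19,18),(7,18),(25,18)]⟩),
  (.ca 0,⟨false,[],(5,17),.mon 1 0 0,[(9,2),(15,2),(27,2),(25,13),(21,14),(21,26),(15,14),(27,14),(9,14)]⟩),
  (.cc 0,⟨false,[],(5,21),.mon 1 0 0,[(29,6),(23,6),(11,6),(13,25),(17,22),(17,10),(23,22),(11,22),(29,22)]⟩),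
  (.comm 13 0 0,⟨false,[],(5,9),.mon 2 0 0,[(29,25)]⟩),
  (.base 0,⟨false,[],(3,22),.mon 0 0 0,[(2,22),(0,22),(8,9),(7,9),(29,15),(5,19),(27,25),(24,25),(0,10),(2,10),(3,10)]⟩),
  (.base 5,⟨false,[],(29,15),.mon 1 0 0,[(3,22),(2,22),(0,22),(8,9),(7,9),(5,19),(27,25),(24,25),(0,10),(2,10),(3,10)]⟩),
  (.cc 0,⟨false,[],(9,23),.mon 1 0 0,[(7,14),(6,14),(0,14),(28,29),(3,29),(5,19),(11,13),(12,13),(0,26),(6,26),(7,26)]⟩),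
  (.ca 0,⟨false,[],(25,11),.mon 1 0 0,[(27,18),(26,18),(0,18),(4,5),(3,5),(29,15),(23,21),(20,21),(0,6),(26,6),(27,6)]⟩),
  (.cc 0,⟨false,[],(13,27),.mon 1 0 0,[(11,18),(10,18),(0,18),(4,5),(7,5),(9,23),(15,17),(16,17),(0,2),(10,2),(11,2)]⟩),
  (.ca 0,⟨false,[],(21,7),.mon 1 0 0,[(23,14),(22,14),(0,14),(28,29),(27,29),(25,11),(19,17),(16,17),(0,2),(22,2),(23,2)]⟩),
  (.cc 0,⟨false,[],(17,3),.mon 1 0 0,[(15,22),(14,22),(0,22),(8,9),(11,9),(13,27),(19,21),(20,21),(0,6),(14,6),(15,6)]⟩),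
  (.ca 0,⟨false,[],(17,3),.mon 1 0 0,[(19,10),(18,10),(0,10),(24,25),(23,25),(21,7),(15,13),(12,13),(0,26),(18,26),(19,26)]⟩),
  (.comm 7 0 0,⟨false,[],(17,22),.mon 1 0 0,[(11,22),(27,22),(21,9),(29,13),(5,10),(5,26),(11,10),(27,10),(17,10)]⟩),
  (.comm 0 11 0,⟨false,[],(5,22),.mon 2 0 0,[(21,2),(21,14),(5,10)]⟩),
  (.rho 7,⟨false,[],(22,8),.mon 0 1 0,[(7,14),(6,14),(0,14),(28,29),(3,29),(5,19),(11,13),(12,13),(0,26),(6,26),(7,26)]⟩),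
  (.comm 1 0 0,⟨false,[],(5,8),.mon 2 1 0,[]⟩),
  (.ca 0,⟨false,[],(29,24),.mon 2 1 0,[]⟩),
  (.rho 0,⟨false,[],(25,28),.mon 1 2 0,[]⟩),
  (.cc 0,⟨false,[],(13,8),.mon 1 2 0,[]⟩),
  (.rho 0,⟨false,[],(9,12),.mon 2 1 0,[]⟩),
  (.comm 16 0 0,⟨false,[],(5,12),.mon 4 1 0,[]⟩),
  (.ca 0,⟨false,[],(29,20),.mon 4 1 0,[]⟩),
  (.rho 0,⟨false,[],(21,28),.mon 1 4 0,[]⟩),
  (.cc 0,⟨false,[],(17,8),.mon 1 4 0,[]⟩),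
  (.rho 0,⟨false,[],(9,16),.mon 4 1 0,[]⟩),
  (.ca 0,⟨false,[],(25,16),.mon 4 1 0,[]⟩),
  (.rho 0,⟨false,[],(17,24),.mon 1 4 0,[]⟩),
  (.cc 0,⟨false,[],(21,12),.mon 1 4 0,[]⟩),
  (.rho 0,⟨false,[],(13,20),.mon 4 1 0,[]⟩),
  (.comm 32 0 0,⟨false,[],(13,9),.mon 5 1 1,[]⟩),
  (.rho 0,⟨false,[],(8,12),.mon 1 5 1,[]⟩),
  (.cc 0,⟨false,[],(28,24),.mon 1 5 1,[]⟩),
  (.rho 0,⟨false,[],(25,29),.mon 5 1 1,[]⟩),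
  (.ca 0,⟨false,[],(9,5),.mon 5 1 1,[]⟩),
  (.rho 0,⟨false,[],(4,8),.mon 1 5 1,[]⟩),
  (.rho 19,⟨false,[],(9,4),.mon 1 2 0,[]⟩),
  (.comm 46 0 0,⟨false,[],(21,4),.mon 2 2 0,[]⟩),
  (.rho 0,⟨false,[],(5,20),.mon 2 2 0,[]⟩),
  (.comm 41 0 0,⟨false,[],(5,9),.mon 3 2 1,[]⟩),
  (.rho 0,⟨false,[],(8,4),.mon 2 3 1,[]⟩),
  (.sI 5 0,⟨true,[],(8,24),.mon 3 8 2,[]⟩),
  (.rho 18,⟨false,[],(29,20),.mon 4 1 0,[]⟩),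
  (.comm 45 0 0,⟨false,[],(29,9),.mon 5 1 1,[]⟩),
  (.rho 0,⟨false,[],(8,28),.mon 1 5 1,[]⟩),
  (.ca 0,⟨false,[],(24,4),.mon 1 5 1,[]⟩),
  (.rho 0,⟨false,[],(5,25),.mon 5 1 1,[]⟩),
  (.cc 0,⟨false,[],(5,13),.mon 5 1 1,[]⟩),
  (.ca 0,⟨false,[],(29,21),.mon 5 1 1,[]⟩),
  (.rho 0,⟨false,[],(20,28),.mon 1 5 1,[]⟩),
  (.cc 0,⟨false,[],(16,8),.mon 1 5 1,[]⟩),
  (.rho 0,⟨false,[],(9,17),.mon 5 1 1,[]⟩),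
  (.rho 0,⟨false,[],(16,8),.mon 1 5 1,[]⟩),
  (.ca 32,⟨false,[],(25,20),.mon 2 1 0,[]⟩),
  (.rho 0,⟨false,[],(21,24),.mon 1 2 0,[]⟩),
  (.cc 0,⟨false,[],(17,12),.mon 1 2 0,[]⟩),
  (.rho 0,⟨false,[],(13,16),.mon 2 1 0,[]⟩),
  (.ca 0,⟨false,[],(21,16),.mon 2 1 0,[]⟩),
  (.rho 0,⟨false,[],(17,20),.mon 1 2 0,[]⟩),
  (.comm 61 0 0,⟨false,[],(17,9),.mon 2 2 1,[]⟩),
  (.rho 0,⟨false,[],(8,16),.mon 2 2 1,[]⟩),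
  (.sI 8 0,⟨true,[],(8,24),.mon 3 7 2,[]⟩),
  (.sN 0,⟨true,[],(8,24),.mon (-3) (-7) (-2),[]⟩),
  (.sA 21 0,⟨true,[],(8,24),.mon 0 1 0,[]⟩),
  (.rho 9,⟨false,[],(25,20),.mon 2 1 0,[]⟩),
  (.comm 67 0 0,⟨false,[],(25,9),.mon 3 1 1,[]⟩),
  (.rho 0,⟨false,[],(8,24),.mon 1 3 1,[]⟩),
  (.sF 3 0,⟨false,[],(8,24),.all,[]⟩),
  (.cc 0,⟨false,[],(28,12),.all,[]⟩),
  (.rho 0,⟨false,[],(13,29),.all,[]⟩),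
  (.comm 0 63 0,⟨false,[],(13,15),.all,[]⟩),
  (.cc 0,⟨false,[],(25,23),.all,[]⟩),
  (.ca 0,⟨false,[],(9,11),.all,[]⟩),
  (.cc 0,⟨false,[],(29,27),.all,[]⟩),
  (.ca 0,⟨false,[],(5,7),.all,[]⟩),
  (.cc 0,⟨false,[],(5,3),.all,[]⟩),
  (.rho 28,⟨false,[],(12,4),.mon 1 5 1,[]⟩),
  (.comm 8 0 0,⟨false,[],(28,4),.all,[]⟩),
  (.rho 0,⟨false,[],(5,29),.all,[]⟩),
  (.comm 0 72 0,⟨false,[],(5,15),.all,[]⟩),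
  (.cc 0,⟨false,[],(5,23),.all,[]⟩),
  (.ca 0,⟨false,[],(29,11),.all,[]⟩),
  (.cc 0,⟨false,[],(9,27),.all,[]⟩),
  (.ca 0,⟨false,[],(25,7),.all,[]⟩),
  (.cc 0,⟨false,[],(13,3),.all,[]⟩),
  (.ca 0,⟨false,[],(21,3),.all,[]⟩),
  (.rho 0,⟨false,[],(2,20),.all,[]⟩),
  (.comm 0 89 0,⟨false,[],(2,9),.all,[]⟩),
  (.cc 43,⟨false,[],(28,8),.mon 1 5 1,[]⟩),
  (.rho 0,⟨false,[],(9,29),.mon 5 1 1,[]⟩),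
  (.rho 0,⟨false,[],(28,8),.mon 1 5 1,[]⟩),
  (.comm 23 0 0,⟨false,[],(28,24),.all,[]⟩),
  (.ca 0,⟨false,[],(4,8),.all,[]⟩),
  (.rho 0,⟨false,[],(9,5),.all,[]⟩),
  (.spec 0,⟨false,[],(9,5),.mon 0 0 0,[]⟩),
  (.comm 7 0 0,⟨false,[],(2,5),.all,[]⟩),
  (.ca 56,⟨false,[],(29,25),.mon 3 2 1,[]⟩),
  (.rho 0,⟨false,[],(24,28),.mon 2 3 1,[]⟩),
  (.cc 0,⟨false,[],(12,8),.mon 2 3 1,[]⟩),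
  (.rho 0,⟨false,[],(9,13),.mon 3 2 1,[]⟩),
  (.rho 0,⟨false,[],(12,8),.mon 2 3 1,[]⟩),
  (.sI 69 0,⟨true,[],(5,8),.mon 3 8 2,[]⟩),
  (.rho 50,⟨false,[],(16,8),.mon 1 5 1,[]⟩),
  (.sI 42 0,⟨true,[],(5,8),.mon 3 7 2,[]⟩),
  (.sN 0,⟨true,[],(5,8),.mon (-3) (-7) (-2),[]⟩),
  (.sA 3 0,⟨true,[],(5,8),.mon 0 1 0,[]⟩),
  (.sF 0 89,⟨false,[],(5,8),.all,[]⟩),
  (.rho 0,⟨false,[],(9,4),.all,[]⟩),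
  (.comm 0 125 0,⟨false,[],(7,4),.all,[(8,4),(5,4)]⟩),
  (.rho 62,⟨false,[],(24,4),.mon 1 5 1,[]⟩),
  (.comm 42 0 0,⟨false,[],(8,4),.all,[]⟩),
  (.rho 71,⟨false,[],(8,4),.mon 2 3 1,[]⟩),
  (.comm 5 0 1,⟨false,[],(5,4),.all,[]⟩),
  (.drop 4 [2,0],⟨false,[],(7,4),.all,[]⟩),
  (.cc 0,⟨false,[],(3,4),.all,[]⟩),
  (.cc 48,⟨false,[],(28,12),.mon 1 3 1,[]⟩),
  (.rho 0,⟨false,[],(13,29),.mon 3 1 1,[]⟩),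
  (.ca 0,⟨false,[],(21,5),.mon 3 1 1,[]⟩),
  (.rho 0,⟨false,[],(4,20),.mon 1 3 1,[]⟩),
  (.cc 0,⟨false,[],(4,16),.mon 1 3 1,[]⟩),
  (.rho 0,⟨false,[],(17,5),.mon 3 1 1,[]⟩),
  (.comm 14 0 0,⟨false,[],(17,8),.all,[]⟩),
  (.rho 0,⟨false,[],(9,16),.all,[]⟩),
  (.comm 0 140 0,⟨false,[],(7,16),.all,[(8,16),(17,16)]⟩),
  (.ca 63,⟨false,[],(24,16),.mon 2 2 1,[]⟩),
  (.rho 0,⟨false,[],(17,25),.mon 2 2 1,[]⟩),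
  (.rho 0,⟨false,[],(24,16),.mon 2 2 1,[]⟩),
  (.comm 59 0 0,⟨false,[],(8,16),.all,[]⟩),
  (.comm 21 67 0,⟨false,[],(5,16),.all,[]⟩),
  (.rho 9,⟨false,[],(17,5),.mon 3 1 1,[]⟩),
  (.comm 1 0 1,⟨false,[],(17,16),.all,[]⟩),
  (.drop 7 [3,0],⟨false,[],(7,16),.all,[]⟩),
  (.cc 0,⟨false,[],(3,20),.all,[]⟩),
  (.comm 0 135 0,⟨false,[],(3,9),.all,[]⟩),
  (.rho 41,⟨false,[],(9,5),.all,[]⟩),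
  (.spec 0,⟨false,[],(9,5),.mon 0 0 0,[]⟩),
  (.comm 2 0 0,⟨false,[],(3,5),.all,[]⟩),
  (.ca 68,⟨false,[],(4,20),.all,[]⟩),
  (.comm 0 140 0,⟨false,[],(4,9),.all,[(13,20),(29,20),(13,9),(29,9)]⟩),
  (.comm 32 107 0,⟨false,[],(5,12),.all,[]⟩),
  (.rho 21,⟨false,[],(21,5),.mon 3 1 1,[]⟩),
  (.comm 1 0 0,⟨false,[],(21,12),.all,[]⟩),
  (.ca 35,⟨false,[],(29,24),.all,[]⟩),
  (.ca 111,⟨false,[],(24,20),.mon 1 5 1,[]⟩),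
  (.rho 0,⟨false,[],(21,25),.mon 5 1 1,[]⟩),
  (.rho 0,⟨false,[],(24,20),.mon 1 5 1,[]⟩),
  (.comm 3 0 0,⟨false,[],(29,20),.all,[]⟩),
  (.ca 80,⟨false,[],(24,8),.mon 1 3 1,[]⟩),
  (.rho 0,⟨false,[],(9,25),.mon 3 1 1,[]⟩),
  (.rho 117,⟨false,[],(13,9),.mon 5 1 1,[]⟩),
  (.comm 1 0 0,⟨false,[],(13,25),.mon 8 2 2,[]⟩),
  (.rho 0,⟨false,[],(24,12),.mon 2 8 2,[]⟩),
  (.comm 84 0 0,⟨false,[],(8,12),.all,[]⟩),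
  (.comm 85 55 0,⟨false,[],(8,28),.all,[]⟩),
  (.drop 15 [12,7,1,0],⟨false,[],(4,9),.all,[]⟩),
  (.spec 62,⟨false,[],(4,8),.mon 0 0 0,[]⟩),
  (.comm 42 0 0,⟨false,[],(7,8),.all,[]⟩),
  (.rho 0,⟨false,[],(9,6),.all,[]⟩),
  (.spec 0,⟨false,[],(9,6),.mon 0 0 0,[]⟩),
  (.comm 4 0 0,⟨false,[],(4,6),.all,[]⟩),
  (.cc 15,⟨false,[],(17,13),.mon 5 1 1,[]⟩),
  (.rho 0,⟨false,[],(12,16),.mon 1 5 1,[]⟩),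
  (.comm 93 0 0,⟨false,[],(28,16),.all,[]⟩),
  (.rho 0,⟨false,[],(17,29),.all,[]⟩),
  (.comm 0 157 0,⟨false,[],(17,15),.all,[]⟩),
  (.cc 0,⟨false,[],(21,23),.all,[]⟩),
  (.ca 0,⟨false,[],(13,11),.all,[]⟩),
  (.cc 0,⟨false,[],(25,27),.all,[]⟩),
  (.ca 0,⟨false,[],(9,7),.all,[]⟩),
  (.spec 0,⟨false,[],(9,7),.mon 0 0 0,[]⟩),
  (.comm 15 0 0,⟨false,[],(4,7),.all,[]⟩),
  (.spec 83,⟨false,[],(2,9),.mon 0 0 0,[]⟩),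
  (.rho 136,⟨false,[],(9,5),.mon 5 1 1,[]⟩),
  (.comm 66 0 1,⟨false,[],(9,8),.all,[]⟩),
  (.comm 2 0 5,⟨false,[],(2,3),.all,[(2,8)]⟩),
  (.rho 75,⟨false,[],(12,8),.mon 2 3 1,[]⟩),
  (.comm 108 0 0,⟨false,[],(12,24),.all,[]⟩),
  (.ca 109,⟨false,[],(24,8),.all,[]⟩),
  (.spec 0,⟨false,[],(24,8),.mon 0 0 0,[]⟩),
  (.comm 2 0 0,⟨false,[],(12,8),.all,[]⟩),
  (.rho 0,⟨false,[],(9,13),.all,[]⟩),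
  (.spec 0,⟨false,[],(9,13),.mon 0 0 0,[]⟩),
  (.comm 97 0 0,⟨false,[],(9,3),.all,[]⟩),
  (.drop 8 [0],⟨false,[],(2,3),.all,[]⟩),
  (.spec 50,⟨false,[],(3,9),.mon 0 0 0,[]⟩),
  (.comm 0 11 5,⟨false,[],(3,2),.all,[(3,8)]⟩),
  (.cc 146,⟨false,[],(5,29),.mon 3 2 1,[]⟩),
  (.ca 0,⟨false,[],(29,5),.mon 3 2 1,[]⟩),
  (.rho 0,⟨false,[],(4,28),.mon 2 3 1,[]⟩),
  (.rho 0,⟨false,[],(29,5),.mon 3 2 1,[]⟩),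
  (.comm 83 0 0,⟨false,[],(29,8),.all,[]⟩),
  (.rho 0,⟨false,[],(9,28),.all,[]⟩),
  (.comm 0 209 0,⟨false,[],(7,28),.all,[(8,28),(29,28)]⟩),
  (.comm 50 95 1,⟨false,[],(29,28),.all,[]⟩),
  (.drop 1 [40,0],⟨false,[],(7,28),.all,[]⟩),
  (.cc 0,⟨false,[],(3,8),.all,[]⟩),
  (.drop 10 [0],⟨false,[],(3,2),.all,[]⟩),
  (.base 2,⟨false,[],(0,22),.mon 0 0 0,[(3,22),(2,22),(8,9),(7,9),(29,15),(5,19),(27,25),(24,25),(0,10),(2,10),(3,10)]⟩),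
  (.rho 117,⟨false,[],(22,4),.all,[]⟩),
  (.comm 1 0 4,⟨false,[],(0,4),.all,[(23,4),(3,4),(2,4),(5,22),(5,10),(5,4)]⟩),
  (.ca 86,⟨false,[],(27,28),.all,[]⟩),
  (.cc 0,⟨false,[],(11,8),.all,[]⟩),
  (.ca 0,⟨false,[],(23,24),.all,[]⟩),
  (.ca 49,⟨false,[],(24,4),.all,[]⟩),
  (.spec 0,⟨false,[],(24,4),.mon 0 0 0,[]⟩),
  (.comm 2 0 0,⟨false,[],(23,4),.all,[]⟩),
  (.ca 11,⟨false,[],(27,4),.all,[]⟩),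
  (.cc 0,⟨false,[],(11,4),.all,[]⟩),
  (.drop 8 [2,93,132,2,0,95],⟨false,[],(0,4),.all,[]⟩),
  (.spec 116,⟨false,[],(4,8),.mon 0 0 0,[]⟩),
  (.comm 1 0 2,⟨false,[],(0,8),.all,[(5,8)]⟩),
  (.drop 0 [104],⟨false,[],(0,8),.all,[]⟩),
  (.rho 124,⟨false,[],(8,3),.all,[]⟩),
  (.spec 0,⟨false,[],(8,3),.mon 0 0 0,[]⟩),
  (.comm 2 0 2,⟨false,[],(0,3),.all,[(9,3)]⟩),
  (.drop 0 [32],⟨false,[],(0,3),.all,[]⟩),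
  (.rho 82,⟨false,[],(8,2),.all,[]⟩),
  (.spec 0,⟨false,[],(8,2),.mon 0 0 0,[]⟩),
  (.comm 6 0 2,⟨false,[],(0,2),.all,[(9,2)]⟩),
  (.drop 0 [23],⟨false,[],(0,2),.all,[]⟩)],
  [(144,144),(124,124),(105,105),(83,83),(83,83),(124,124),(105,105),(144,144),(60,60),(49,49),(106,106),(145,145),(145,145),(49,49),(106,106),(60,60),(36,36),(23,23),(4,36),(0,23)]⟩ = true := by decide +kernel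


end Pool.Agent.MP_c78e8e_al.H75

end

section

namespace Pool.Agent.MP_c78e8e_al.H75

theorem cXe15 : Fam.chkP .X 15 1 true true true false false
  ⟨[],[],[],[((29,20),some (1,0,0)),((16,27),some (1,0,0))],3,(2,0),(11,2),(11,0),(11,3),(1,0,0),[(7,14),(18,9),(25,0),(25,3),(25,2)],
  [(.base 3,⟨false,[],(18,9),.mon 1 0 0,[(25,2),(25,3),(25,0),(7,14),(29,20),(16,27),(11,0),(11,3),(11,2)]⟩),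
  (.base 5,⟨false,[],(29,20),.mon 1 0 0,[(25,2),(25,3),(25,0),(18,9),(7,14),(16,27),(11,0),(11,3),(11,2)]⟩),
  (.cc 0,⟨false,[],(11,18),.mon 1 0 0,[(15,6),(15,7),(15,0),(20,31),(3,24),(22,13),(29,0),(29,7),(29,6)]⟩),
  (.comm 2 0 0,⟨false,[],(11,9),.mon 2 0 0,[(25,24),(25,14),(25,28),(15,14),(29,14),(29,31),(11,14),(11,28),(11,24)]⟩),
  (.ca 1,⟨false,[],(25,16),.mon 1 0 0,[(21,28),(21,29),(21,0),(14,5),(3,10),(12,23),(7,0),(7,29),(7,28)]⟩),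
  (.cc 0,⟨false,[],(15,22),.mon 1 0 0,[(19,10),(19,11),(19,0),(24,5),(7,28),(26,17),(3,0),(3,11),(3,10)]⟩),
  (.ca 0,⟨false,[],(21,12),.mon 1 0 0,[(17,24),(17,25),(17,0),(10,31),(29,6),(8,19),(3,0),(3,25),(3,24)]⟩),
  (.cc 0,⟨false,[],(19,26),.mon 1 0 0,[(23,14),(23,15),(23,0),(28,9),(11,2),(30,21),(7,0),(7,15),(7,14)]⟩),
  (.ca 0,⟨false,[],(17,8),.mon 1 0 0,[(13,20),(13,21),(13,0),(6,27),(25,2),(4,15),(29,0),(29,21),(29,20)]⟩),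
  (.cc 0,⟨false,[],(23,30),.mon 1 0 0,[(27,18),(27,19),(27,0),(2,13),(15,6),(4,25),(11,0),(11,19),(11,18)]⟩),
  (.ca 0,⟨false,[],(13,4),.mon 1 0 0,[(9,16),(9,17),(9,0),(2,23),(21,28),(30,11),(25,0),(25,17),(25,16)]⟩),
  (.cc 0,⟨false,[],(27,4),.mon 1 0 0,[(31,22),(31,23),(31,0),(6,17),(19,10),(8,29),(15,0),(15,23),(15,22)]⟩),
  (.ca 0,⟨false,[],(9,30),.mon 1 0 0,[(5,12),(5,13),(5,0),(28,19),(17,24),(26,7),(21,0),(21,13),(21,12)]⟩),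
  (.comm 12 0 0,⟨false,[],(18,30),.mon 2 0 0,[(25,4),(25,20),(26,14),(18,20),(25,27),(11,4),(11,20)]⟩),
  (.ca 0,⟨false,[],(16,4),.mon 2 0 0,[(11,30),(11,14),(8,20),(16,14),(11,9),(25,30),(25,14)]⟩),
  (.cc 0,⟨false,[],(22,4),.mon 2 0 0,[(29,8),(29,24),(30,18),(22,24),(29,31),(15,8),(15,24)]⟩),
  (.ca 0,⟨false,[],(12,30),.mon 2 0 0,[(7,26),(7,10),(4,16),(12,10),(7,5),(21,26),(21,10)]⟩),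
  (.cc 0,⟨false,[],(26,8),.mon 2 0 0,[(3,12),(3,28),(4,22),(26,28),(3,5),(19,12),(19,28)]⟩),
  (.rho 0,⟨false,[],(9,27),.mon 0 2 0,[(3,12),(3,28),(4,22),(26,28),(3,5),(19,12),(19,28)]⟩),
  (.comm 15 0 0,⟨false,[],(11,27),.mon 2 2 0,[]⟩),
  (.ca 0,⟨false,[],(25,9),.mon 2 2 0,[]⟩),
  (.rho 0,⟨false,[],(8,24),.mon 2 2 0,[]⟩),
  (.cc 0,⟨false,[],(30,14),.mon 2 2 0,[]⟩),
  (.rho 0,⟨false,[],(15,31),.mon 2 2 0,[]⟩),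
  (.ca 0,⟨false,[],(21,5),.mon 2 2 0,[]⟩),
  (.rho 0,⟨false,[],(4,20),.mon 2 2 0,[]⟩),
  (.cc 0,⟨false,[],(4,18),.mon 2 2 0,[]⟩),
  (.comm 26 0 0,⟨false,[],(4,9),.mon 3 2 0,[]⟩),
  (.ca 0,⟨false,[],(30,27),.mon 3 2 0,[]⟩),
  (.rho 0,⟨false,[],(26,31),.mon 2 3 0,[]⟩),
  (.ca 3,⟨false,[],(30,16),.mon 2 2 0,[]⟩),
  (.rho 0,⟨false,[],(17,31),.mon 2 2 0,[]⟩),
  (.cc 0,⟨false,[],(23,9),.mon 2 2 0,[]⟩),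
  (.rho 0,⟨false,[],(8,22),.mon 2 2 0,[]⟩),
  (.ca 0,⟨false,[],(26,12),.mon 2 2 0,[]⟩),
  (.rho 0,⟨false,[],(13,27),.mon 2 2 0,[]⟩),
  (.cc 0,⟨false,[],(27,13),.mon 2 2 0,[]⟩),
  (.rho 0,⟨false,[],(12,26),.mon 2 2 0,[]⟩),
  (.cc 24,⟨false,[],(20,8),.mon 2 0 0,[(15,4),(15,18),(12,24),(20,18),(15,13),(29,4),(29,18)]⟩),
  (.rho 0,⟨false,[],(9,21),.mon 0 2 0,[(15,4),(15,18),(12,24),(20,18),(15,13),(29,4),(29,18)]⟩),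
  (.comm 36 0 0,⟨false,[],(11,21),.mon 2 2 0,[]⟩),
  (.ca 0,⟨false,[],(25,15),.mon 2 2 0,[]⟩),
  (.rho 0,⟨false,[],(14,24),.mon 2 2 0,[]⟩),
  (.cc 0,⟨false,[],(24,14),.mon 2 2 0,[]⟩),
  (.rho 0,⟨false,[],(15,25),.mon 2 2 0,[]⟩),
  (.ca 0,⟨false,[],(21,11),.mon 2 2 0,[]⟩),
  (.rho 0,⟨false,[],(10,20),.mon 2 2 0,[]⟩),
  (.cc 0,⟨false,[],(28,18),.mon 2 2 0,[]⟩),
  (.rho 0,⟨false,[],(19,29),.mon 2 2 0,[]⟩),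
  (.ca 0,⟨false,[],(17,7),.mon 2 2 0,[]⟩),
  (.rho 0,⟨false,[],(6,16),.mon 2 2 0,[]⟩),
  (.cc 0,⟨false,[],(2,22),.mon 2 2 0,[]⟩),
  (.ca 0,⟨false,[],(2,12),.mon 2 2 0,[]⟩),
  (.comm 15 0 0,⟨false,[],(2,26),.mon 4 4 0,[]⟩),
  (.comm 24 0 0,⟨false,[],(2,31),.mon 6 7 0,[]⟩),
  (.cc 2,⟨false,[],(6,26),.mon 2 2 0,[]⟩),
  (.ca 0,⟨false,[],(28,8),.mon 2 2 0,[]⟩),
  (.rho 0,⟨false,[],(9,29),.mon 2 2 0,[]⟩),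
  (.cc 0,⟨false,[],(31,11),.mon 2 2 0,[]⟩),
  (.rho 0,⟨false,[],(10,30),.mon 2 2 0,[]⟩),
  (.rho 0,⟨false,[],(31,11),.mon 2 2 0,[]⟩),
  (.comm 6 0 0,⟨false,[],(2,11),.mon 8 9 0,[]⟩),
  (.base 4,⟨false,[],(7,14),.mon 1 0 0,[(25,2),(25,3),(25,0),(18,9),(29,20),(16,27),(11,0),(11,3),(11,2)]⟩),
  (.cc 43,⟨false,[],(29,13),.mon 2 2 0,[]⟩),
  (.rho 0,⟨false,[],(12,28),.mon 2 2 0,[]⟩),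
  (.ca 0,⟨false,[],(22,6),.mon 2 2 0,[]⟩),
  (.rho 0,⟨false,[],(7,23),.mon 2 2 0,[]⟩),
  (.cc 0,⟨false,[],(3,17),.mon 2 2 0,[]⟩),
  (.ca 0,⟨false,[],(3,19),.mon 2 2 0,[]⟩),
  (.cc 0,⟨false,[],(7,21),.mon 2 2 0,[]⟩),
  (.ca 0,⟨false,[],(29,15),.mon 2 2 0,[]⟩),
  (.rho 0,⟨false,[],(14,28),.mon 2 2 0,[]⟩),
  (.comm 9 0 0,⟨false,[],(7,28),.mon 3 2 0,[]⟩),
  (.cc 0,⟨false,[],(3,10),.mon 3 2 0,[]⟩),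
  (.rho 0,⟨false,[],(11,2),.mon 2 3 0,[]⟩),
  (.sI 13 0,⟨true,[],(11,21),.mon 10 12 0,[]⟩),
  (.ca 38,⟨false,[],(22,8),.mon 2 2 0,[]⟩),
  (.rho 0,⟨false,[],(9,23),.mon 2 2 0,[]⟩),
  (.rho 26,⟨false,[],(23,3),.mon 2 2 0,[]⟩),
  (.comm 1 0 0,⟨false,[],(9,3),.mon 4 4 0,[]⟩),
  (.rho 0,⟨false,[],(2,8),.mon 4 4 0,[]⟩),
  (.rho 0,⟨false,[],(9,3),.mon 4 4 0,[]⟩),
  (.comm 54 0 0,⟨false,[],(4,3),.mon 7 6 0,[]⟩),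
  (.rho 0,⟨false,[],(2,5),.mon 6 7 0,[]⟩),
  (.ca 24,⟨false,[],(24,4),.mon 2 2 0,[]⟩),
  (.rho 0,⟨false,[],(5,25),.mon 2 2 0,[]⟩),
  (.cc 14,⟨false,[],(24,10),.mon 2 2 0,[]⟩),
  (.rho 0,⟨false,[],(11,25),.mon 2 2 0,[]⟩),
  (.ca 0,⟨false,[],(25,11),.mon 2 2 0,[]⟩),
  (.rho 0,⟨false,[],(10,24),.mon 2 2 0,[]⟩),
  (.rho 0,⟨false,[],(25,11),.mon 2 2 0,[]⟩),
  (.comm 5 0 0,⟨false,[],(5,11),.mon 4 4 0,[]⟩),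
  (.comm 8 0 0,⟨false,[],(2,11),.mon 10 11 0,[]⟩),
  (.rho 19,⟨false,[],(11,2),.mon 2 3 0,[]⟩),
  (.sI 1 0,⟨true,[],(11,21),.mon 12 14 0,[]⟩),
  (.sN 0,⟨true,[],(11,21),.mon (-12) (-14) 0,[]⟩),
  (.sA 20 0,⟨true,[],(11,21),.mon (-2) (-2) 0,[]⟩),
  (.rho 50,⟨false,[],(21,11),.mon 2 2 0,[]⟩),
  (.comm 28 0 0,⟨false,[],(7,11),.mon 4 4 0,[]⟩),
  (.rho 31,⟨false,[],(16,2),.mon 2 2 0,[]⟩),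
  (.comm 49 0 0,⟨false,[],(6,2),.mon 4 4 0,[]⟩),
  (.rho 0,⟨false,[],(3,7),.mon 4 4 0,[]⟩),
  (.comm 3 0 0,⟨false,[],(3,11),.mon 8 8 0,[]⟩),
  (.rho 83,⟨false,[],(26,10),.mon 2 2 0,[]⟩),
  (.comm 48 0 0,⟨false,[],(6,10),.mon 4 4 0,[]⟩),
  (.rho 38,⟨false,[],(22,6),.mon 2 2 0,[]⟩),
  (.comm 54 0 0,⟨false,[],(2,6),.mon 4 4 0,[]⟩),
  (.comm 2 0 0,⟨false,[],(2,10),.mon 8 8 0,[]⟩),
  (.rho 0,⟨false,[],(11,3),.mon 8 8 0,[]⟩),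
  (.sI 6 0,⟨true,[],(11,21),.mon 16 16 0,[]⟩),
  (.sA 13 0,⟨true,[],(11,21),.mon 14 14 0,[]⟩),
  (.sA 0 15,⟨true,[],(11,21),.mon 2 0 0,[]⟩),
  (.sF 0 71,⟨false,[],(11,21),.all,[]⟩),
  (.rho 93,⟨false,[],(26,10),.mon 2 2 0,[]⟩),
  (.comm 67 0 0,⟨false,[],(26,20),.mon 4 4 0,[]⟩),
  (.rho 0,⟨false,[],(21,27),.mon 4 4 0,[]⟩),
  (.rho 0,⟨false,[],(26,20),.mon 4 4 0,[]⟩),
  (.comm 61 0 0,⟨false,[],(6,20),.mon 6 6 0,[]⟩),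
  (.comm 0 11 0,⟨false,[],(2,20),.mon 10 10 0,[]⟩),
  (.rho 0,⟨false,[],(21,3),.mon 10 10 0,[]⟩),
  (.comm 7 0 0,⟨false,[],(11,3),.all,[]⟩),
  (.comm 0 29 0,⟨false,[],(5,3),.all,[]⟩),
  (.rho 96,⟨false,[],(21,5),.mon 2 2 0,[]⟩),
  (.comm 10 0 0,⟨false,[],(11,5),.all,[]⟩),
  (.comm 0 31 0,⟨false,[],(2,5),.all,[]⟩),
  (.comm 12 22 0,⟨false,[],(3,21),.all,[]⟩),
  (.rho 8,⟨false,[],(21,7),.mon 6 6 0,[]⟩),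
  (.comm 64 0 0,⟨false,[],(21,14),.mon 7 6 0,[]⟩),
  (.rho 0,⟨false,[],(15,20),.mon 6 7 0,[]⟩),
  (.cc 43,⟨false,[],(5,15),.mon 2 2 0,[]⟩),
  (.comm 1 0 0,⟨false,[],(5,20),.mon 8 9 0,[]⟩),
  (.rho 0,⟨false,[],(21,4),.mon 9 8 0,[]⟩),
  (.comm 6 0 0,⟨false,[],(3,4),.all,[]⟩),
  (.comm 9 30 0,⟨false,[],(3,5),.all,[]⟩),
  (.comm 10 35 0,⟨false,[],(7,5),.all,[]⟩),
  (.comm 105 79 0,⟨false,[],(6,31),.mon 4 5 0,[]⟩),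
  (.rho 76,⟨false,[],(31,11),.mon 2 2 0,[]⟩),
  (.comm 1 0 0,⟨false,[],(6,11),.mon 6 7 0,[]⟩),
  (.comm 14 0 0,⟨false,[],(6,5),.all,[]⟩),
  (.comm 26 40 0,⟨false,[],(7,21),.all,[]⟩),
  (.rho 9,⟨false,[],(21,4),.mon 9 8 0,[]⟩),
  (.comm 1 0 0,⟨false,[],(7,4),.all,[]⟩),
  (.rho 24,⟨false,[],(21,7),.mon 6 6 0,[]⟩),
  (.comm 30 0 0,⟨false,[],(11,7),.all,[]⟩),
  (.comm 0 52 0,⟨false,[],(5,7),.all,[]⟩),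
  (.comm 24 52 1,⟨false,[],(2,3),.all,[]⟩),
  (.rho 103,⟨false,[],(25,15),.mon 2 2 0,[]⟩),
  (.comm 59 0 0,⟨false,[],(11,15),.mon 4 4 0,[]⟩),
  (.rho 101,⟨false,[],(21,11),.mon 2 2 0,[]⟩),
  (.comm 1 0 0,⟨false,[],(21,15),.mon 6 6 0,[]⟩),
  (.rho 0,⟨false,[],(14,20),.mon 6 6 0,[]⟩),
  (.comm 88 0 0,⟨false,[],(7,20),.mon 7 6 0,[]⟩),
  (.comm 0 50 0,⟨false,[],(3,20),.mon 11 10 0,[]⟩),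
  (.rho 0,⟨false,[],(21,2),.mon 10 11 0,[]⟩),
  (.comm 28 0 1,⟨false,[],(3,2),.all,[]⟩),
  (.base 2,⟨false,[],(25,0),.mon 1 0 0,[(25,2),(25,3),(18,9),(7,14),(29,20),(16,27),(11,0),(11,3),(11,2)]⟩),
  (.cc 128,⟨false,[],(4,31),.mon 3 2 0,[]⟩),
  (.rho 97,⟨false,[],(31,11),.mon 2 2 0,[]⟩),
  (.comm 1 0 0,⟨false,[],(4,11),.mon 5 4 0,[]⟩),
  (.rho 73,⟨false,[],(24,4),.mon 2 2 0,[]⟩),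
  (.comm 1 0 0,⟨false,[],(24,11),.mon 7 6 0,[]⟩),
  (.rho 0,⟨false,[],(10,25),.mon 6 7 0,[]⟩),
  (.rho 0,⟨false,[],(24,11),.mon 7 6 0,[]⟩),
  (.comm 39 0 0,⟨false,[],(24,5),.all,[]⟩),
  (.rho 0,⟨false,[],(4,25),.all,[]⟩),
  (.comm 9 0 4,⟨false,[],(4,0),.all,[(4,24),(4,2),(4,3),(25,5),(11,5),(4,5)]⟩),
  (.ca 53,⟨false,[],(25,15),.all,[]⟩),
  (.cc 126,⟨false,[],(29,19),.mon 2 2 0,[]⟩),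
  (.rho 0,⟨false,[],(18,28),.mon 2 2 0,[]⟩),
  (.ca 0,⟨false,[],(16,6),.mon 2 2 0,[]⟩),
  (.rho 0,⟨false,[],(7,17),.mon 2 2 0,[]⟩),
  (.cc 0,⟨false,[],(3,23),.mon 2 2 0,[]⟩),
  (.ca 0,⟨false,[],(3,13),.mon 2 2 0,[]⟩),
  (.cc 0,⟨false,[],(7,27),.mon 2 2 0,[]⟩),
  (.ca 0,⟨false,[],(29,9),.mon 2 2 0,[]⟩),
  (.rho 0,⟨false,[],(8,28),.mon 2 2 0,[]⟩),
  (.cc 0,⟨false,[],(30,10),.mon 2 2 0,[]⟩),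
  (.rho 0,⟨false,[],(11,31),.mon 2 2 0,[]⟩),
  (.ca 0,⟨false,[],(25,5),.mon 2 2 0,[]⟩),
  (.rho 0,⟨false,[],(4,24),.mon 2 2 0,[]⟩),
  (.cc 0,⟨false,[],(4,14),.mon 2 2 0,[]⟩),
  (.rho 0,⟨false,[],(15,5),.mon 2 2 0,[]⟩),
  (.comm 15 0 0,⟨false,[],(25,5),.all,[]⟩),
  (.rho 138,⟨false,[],(24,14),.mon 2 2 0,[]⟩),
  (.comm 112 0 0,⟨false,[],(24,28),.mon 4 4 0,[]⟩),
  (.comm 95 0 0,⟨false,[],(10,28),.mon 6 6 0,[]⟩),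
  (.rho 128,⟨false,[],(28,8),.mon 2 2 0,[]⟩),
  (.comm 1 0 0,⟨false,[],(10,8),.mon 8 8 0,[]⟩),
  (.rho 0,⟨false,[],(9,11),.mon 8 8 0,[]⟩),
  (.comm 161 0 0,⟨false,[],(4,11),.mon 11 10 0,[]⟩),
  (.comm 66 0 1,⟨false,[],(4,5),.all,[]⟩),
  (.drop 25 [8,57,66,8,67,0],⟨false,[],(4,0),.all,[]⟩),
  (.rho 70,⟨false,[],(2,4),.all,[]⟩),
  (.spec 0,⟨false,[],(2,4),.mon 0 0 0,[]⟩),
  (.comm 2 0 2,⟨false,[],(2,0),.all,[(2,5)]⟩),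
  (.drop 0 [70],⟨false,[],(2,0),.all,[]⟩),
  (.spec 63,⟨false,[],(3,4),.mon 0 0 0,[]⟩),
  (.comm 5 0 2,⟨false,[],(3,0),.all,[(3,5)]⟩),
  (.drop 0 [64],⟨false,[],(3,0),.all,[]⟩)],
  [(77,77),(74,74),(66,66),(65,65),(65,65),(74,74),(66,66),(77,77),(64,64),(60,60),(57,57),(54,54),(54,54),(60,60),(57,57),(64,64),(53,53),(44,44),(3,53),(0,44)]⟩ = true := by decide +kernel

theorem cXe16 : Fam.chkP .X 16 1 true true true false false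
  ⟨[],[],[],[((7,12),some (0,0,0)),((22,27),some (0,0,0)),((20,9),some (1,0,0))],3,(3,0),(8,3),(8,0),(8,2),(0,0,0),[(31,24),(14,11),(16,29),(28,0),(28,2),(28,3)],
  [(.base 3,⟨false,[],(16,29),.mon 1 0 0,[(28,3),(28,2),(28,0),(14,11),(31,24),(7,12),(22,27),(20,9),(8,0),(8,2),(8,3)]⟩),
  (.base 5,⟨false,[],(31,24),.mon 0 0 0,[(28,3),(28,2),(28,0),(16,29),(14,11),(7,12),(22,27),(20,9),(8,0),(8,2),(8,3)]⟩),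
  (.cc 0,⟨false,[],(11,16),.mon 0 0 0,[(12,7),(12,6),(12,0),(24,13),(26,31),(3,28),(18,15),(20,33),(32,0),(32,6),(32,7)]⟩),
  (.ca 0,⟨false,[],(27,20),.mon 0 0 0,[(24,31),(24,30),(24,0),(12,25),(10,7),(3,8),(18,23),(16,5),(4,0),(4,30),(4,31)]⟩),
  (.cc 0,⟨false,[],(15,20),.mon 0 0 0,[(16,11),(16,10),(16,0),(28,17),(30,3),(7,32),(22,19),(24,5),(4,0),(4,10),(4,11)]⟩),
  (.ca 0,⟨false,[],(23,16),.mon 0 0 0,[(20,27),(20,26),(20,0),(8,21),(6,3),(31,4),(14,19),(12,33),(32,0),(32,26),(32,27)]⟩),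
  (.comm 5 0 0,⟨false,[],(23,29),.mon 1 0 0,[(28,7),(28,21),(28,33),(2,12),(7,33),(17,27),(22,21),(22,33),(8,21),(8,33),(8,7),(28,12),(8,12),(2,33),(26,29),(20,16),(32,16)]⟩),
  (.base 7,⟨false,[],(22,27),.mon 0 0 0,[(28,3),(28,2),(28,0),(16,29),(14,11),(31,24),(7,12),(20,9),(8,0),(8,2),(8,3)]⟩),
  (.cc 0,⟨false,[],(18,15),.mon 0 0 0,[(12,7),(12,6),(12,0),(24,13),(26,31),(11,16),(3,28),(20,33),(32,0),(32,6),(32,7)]⟩),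
  (.ca 0,⟨false,[],(18,23),.mon 0 0 0,[(24,31),(24,30),(24,0),(12,25),(10,7),(27,20),(3,8),(16,5),(4,0),(4,30),(4,31)]⟩),
  (.cc 0,⟨false,[],(22,19),.mon 0 0 0,[(16,11),(16,10),(16,0),(28,17),(30,3),(15,20),(7,32),(24,5),(4,0),(4,10),(4,11)]⟩),
  (.ca 0,⟨false,[],(14,19),.mon 0 0 0,[(20,27),(20,26),(20,0),(8,21),(6,3),(23,16),(31,4),(12,33),(32,0),(32,26),(32,27)]⟩),
  (.cc 0,⟨false,[],(26,23),.mon 0 0 0,[(20,15),(20,14),(20,0),(32,21),(2,7),(19,24),(11,4),(28,9),(8,0),(8,14),(8,15)]⟩),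
  (.comm 6 0 0,⟨false,[],(26,29),.mon 1 0 0,[(2,33)]⟩),
  (.cc 8,⟨false,[],(19,24),.mon 0 0 0,[(20,15),(20,14),(20,0),(32,21),(2,7),(11,4),(26,23),(28,9),(8,0),(8,14),(8,15)]⟩),
  (.ca 0,⟨false,[],(19,12),.mon 0 0 0,[(16,23),(16,22),(16,0),(4,17),(2,31),(27,32),(10,15),(8,29),(28,0),(28,22),(28,23)]⟩),
  (.cc 0,⟨false,[],(23,28),.mon 0 0 0,[(24,19),(24,18),(24,0),(4,25),(6,11),(15,8),(30,27),(32,13),(12,0),(12,18),(12,19)]⟩),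
  (.rho 0,⟨false,[],(29,22),.mon 0 0 0,[(24,19),(24,18),(24,0),(4,25),(6,11),(15,8),(30,27),(32,13),(12,0),(12,18),(12,19)]⟩),
  (.comm 4 0 0,⟨false,[],(26,22),.mon 1 0 0,[]⟩),
  (.rho 0,⟨false,[],(23,27),.mon 0 1 0,[]⟩),
  (.cc 0,⟨false,[],(19,15),.mon 0 1 0,[]⟩),
  (.rho 0,⟨false,[],(14,18),.mon 1 0 0,[]⟩),
  (.ca 0,⟨false,[],(22,18),.mon 1 0 0,[]⟩),
  (.rho 0,⟨false,[],(19,23),.mon 0 1 0,[]⟩),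
  (.cc 0,⟨false,[],(23,19),.mon 0 1 0,[]⟩),
  (.rho 0,⟨false,[],(18,22),.mon 1 0 0,[]⟩),
  (.ca 0,⟨false,[],(18,14),.mon 1 0 0,[]⟩),
  (.rho 0,⟨false,[],(15,19),.mon 0 1 0,[]⟩),
  (.cc 0,⟨false,[],(27,23),.mon 0 1 0,[]⟩),
  (.rho 0,⟨false,[],(22,26),.mon 1 0 0,[]⟩),
  (.ca 0,⟨false,[],(14,10),.mon 1 0 0,[]⟩),
  (.rho 0,⟨false,[],(11,15),.mon 0 1 0,[]⟩),
  (.cc 0,⟨false,[],(31,27),.mon 0 1 0,[]⟩),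
  (.rho 0,⟨false,[],(26,30),.mon 1 0 0,[]⟩),
  (.comm 0 4 0,⟨false,[],(22,30),.mon 2 0 0,[]⟩),
  (.ca 15,⟨false,[],(15,11),.mon 0 1 0,[]⟩),
  (.rho 0,⟨false,[],(10,14),.mon 1 0 0,[]⟩),
  (.cc 0,⟨false,[],(30,26),.mon 1 0 0,[]⟩),
  (.rho 0,⟨false,[],(27,31),.mon 0 1 0,[]⟩),
  (.ca 0,⟨false,[],(11,7),.mon 0 1 0,[]⟩),
  (.rho 0,⟨false,[],(6,10),.mon 1 0 0,[]⟩),
  (.cc 0,⟨false,[],(2,30),.mon 1 0 0,[]⟩),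
  (.ca 0,⟨false,[],(2,6),.mon 1 0 0,[]⟩),
  (.cc 0,⟨false,[],(6,2),.mon 1 0 0,[]⟩),
  (.rho 0,⟨false,[],(3,7),.mon 0 1 0,[]⟩),
  (.ca 0,⟨false,[],(3,31),.mon 0 1 0,[]⟩),
  (.rho 0,⟨false,[],(30,2),.mon 1 0 0,[]⟩),
  (.comm 12 0 0,⟨false,[],(22,2),.mon 3 0 0,[]⟩),
  (.rho 0,⟨false,[],(3,23),.mon 0 3 0,[]⟩),
  (.comm 10 29 0,⟨false,[],(23,31),.mon 0 2 0,[]⟩),
  (.rho 0,⟨false,[],(30,22),.mon 2 0 0,[]⟩),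
  (.comm 9 0 0,⟨false,[],(2,22),.mon 3 0 0,[]⟩),
  (.rho 0,⟨false,[],(23,3),.mon 0 3 0,[]⟩),
  (.sI 4 0,⟨true,[],(23,27),.mon 0 6 0,[]⟩),
  (.comm 26 30 0,⟨false,[],(15,23),.mon 0 2 0,[]⟩),
  (.comm 29 33 0,⟨false,[],(14,22),.mon 2 0 0,[]⟩),
  (.rho 0,⟨false,[],(23,15),.mon 0 2 0,[]⟩),
  (.sI 2 0,⟨true,[],(23,27),.mon 0 4 0,[]⟩),
  (.sN 0,⟨true,[],(23,27),.mon 0 (-4) 0,[]⟩),
  (.sA 5 0,⟨true,[],(23,27),.mon 0 2 0,[]⟩),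
  (.sF 0 40,⟨false,[],(23,27),.all,[]⟩),
  (.comm 29 6 0,⟨false,[],(11,23),.mon 0 3 0,[]⟩),
  (.comm 1 0 0,⟨false,[],(11,27),.all,[]⟩),
  (.rho 33,⟨false,[],(27,23),.mon 0 1 0,[]⟩),
  (.comm 1 0 0,⟨false,[],(11,23),.all,[]⟩),
  (.base 4,⟨false,[],(14,11),.mon 0 0 0,[(28,3),(28,2),(28,0),(16,29),(31,24),(7,12),(22,27),(20,9),(8,0),(8,2),(8,3)]⟩),
  (.comm 1 0 0,⟨false,[],(14,23),.all,[]⟩),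
  (.ca 6,⟨false,[],(15,11),.all,[]⟩),
  (.comm 25 27 0,⟨false,[],(2,10),.mon 2 0 0,[]⟩),
  (.rho 0,⟨false,[],(11,3),.mon 0 2 0,[]⟩),
  (.comm 2 0 0,⟨false,[],(15,3),.all,[]⟩),
  (.rho 0,⟨false,[],(2,14),.all,[]⟩),
  (.spec 0,⟨false,[],(2,14),.mon 0 0 0,[]⟩),
  (.comm 6 0 0,⟨false,[],(2,23),.all,[]⟩),
  (.comm 13 35 0,⟨false,[],(23,31),.all,[]⟩),
  (.comm 0 13 0,⟨false,[],(11,31),.all,[]⟩),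
  (.rho 8,⟨false,[],(10,14),.all,[]⟩),
  (.comm 0 11 1,⟨false,[],(10,11),.all,[]⟩),
  (.spec 0,⟨false,[],(10,11),.mon 0 0 0,[]⟩),
  (.comm 3 0 2,⟨false,[],(10,31),.all,[(30,31)]⟩),
  (.cc 2,⟨false,[],(30,31),.all,[]⟩),
  (.drop 1 [0],⟨false,[],(10,31),.all,[]⟩),
  (.comm 0 80 0,⟨false,[],(10,24),.all,[]⟩),
  (.ca 0,⟨false,[],(26,12),.all,[]⟩),
  (.cc 0,⟨false,[],(14,28),.all,[]⟩),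
  (.ca 0,⟨false,[],(22,8),.all,[]⟩),
  (.ca 79,⟨false,[],(15,9),.mon 1 0 0,[(8,31),(8,17),(8,5),(2,24),(31,5),(21,11),(14,17),(14,5),(28,17),(28,5),(28,31),(8,24),(28,24),(2,5),(10,9),(16,20),(4,20)]⟩),
  (.cc 0,⟨false,[],(27,33),.mon 1 0 0,[(32,11),(32,25),(32,5),(6,16),(11,5),(21,31),(26,25),(26,5),(12,25),(12,5),(12,11),(32,16),(12,16),(6,5),(30,33),(24,20),(4,20)]⟩),
  (.rho 0,⟨false,[],(32,26),.mon 0 1 0,[(32,11),(32,25),(32,5),(6,16),(11,5),(21,31),(26,25),(26,5),(12,25),(12,5),(12,11),(32,16),(12,16),(6,5),(30,33),(24,20),(4,20)]⟩),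
  (.comm 75 0 0,⟨false,[],(32,29),.mon 1 1 0,[]⟩),
  (.rho 0,⟨false,[],(28,33),.mon 1 1 0,[]⟩),
  (.ca 0,⟨false,[],(8,5),.mon 1 1 0,[]⟩),
  (.rho 0,⟨false,[],(4,9),.mon 1 1 0,[]⟩),
  (.rho 0,⟨false,[],(8,5),.mon 1 1 0,[]⟩),
  (.comm 8 0 0,⟨false,[],(22,5),.all,[]⟩),
  (.cc 49,⟨false,[],(7,11),.mon 0 1 0,[]⟩),
  (.comm 0 34 0,⟨false,[],(7,23),.mon 0 4 0,[]⟩),
  (.comm 22 0 0,⟨false,[],(7,31),.all,[]⟩),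
  (.comm 0 96 0,⟨false,[],(7,24),.all,[]⟩),
  (.ca 0,⟨false,[],(31,12),.all,[]⟩),
  (.cc 0,⟨false,[],(11,28),.all,[]⟩),
  (.ca 0,⟨false,[],(27,8),.all,[]⟩),
  (.cc 0,⟨false,[],(15,32),.all,[]⟩),
  (.ca 0,⟨false,[],(23,4),.all,[]⟩),
  (.rho 0,⟨false,[],(5,22),.all,[]⟩),
  (.cN 31 10 0,⟨false,[],(2,4),.all,[]⟩),
  (.comm 43 40 0,⟨false,[],(14,27),.all,[]⟩),
  (.rho 36,⟨false,[],(2,14),.all,[]⟩),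
  (.spec 0,⟨false,[],(2,14),.mon 0 0 0,[]⟩),
  (.comm 2 0 0,⟨false,[],(2,27),.all,[]⟩),
  (.cc 19,⟨false,[],(12,9),.mon 1 1 0,[]⟩),
  (.rho 0,⟨false,[],(8,13),.mon 1 1 0,[]⟩),
  (.rho 0,⟨false,[],(12,9),.mon 1 1 0,[]⟩),
  (.comm 29 0 0,⟨false,[],(26,9),.all,[]⟩),
  (.rho 12,⟨false,[],(9,26),.all,[]⟩),
  (.cN 5 1 0,⟨false,[],(2,8),.all,[]⟩),
  (.rho 23,⟨false,[],(8,5),.mon 1 1 0,[]⟩),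
  (.comm 1 0 0,⟨false,[],(2,5),.all,[]⟩),
  (.comm 57 69 0,⟨false,[],(3,27),.all,[]⟩),
  (.rho 89,⟨false,[],(27,23),.mon 0 1 0,[]⟩),
  (.comm 1 0 0,⟨false,[],(3,23),.all,[]⟩),
  (.rho 17,⟨false,[],(5,22),.all,[]⟩),
  (.cN 1 27 0,⟨false,[],(3,4),.all,[]⟩),
  (.rho 21,⟨false,[],(9,26),.all,[]⟩),
  (.cN 5 10 0,⟨false,[],(3,8),.all,[]⟩),
  (.rho 32,⟨false,[],(8,5),.mon 1 1 0,[]⟩),
  (.comm 1 0 0,⟨false,[],(3,5),.all,[]⟩),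
  (.comm 66 30 0,⟨false,[],(7,27),.all,[]⟩),
  (.rho 26,⟨false,[],(9,26),.all,[]⟩),
  (.cN 1 15 0,⟨false,[],(7,8),.all,[]⟩),
  (.rho 37,⟨false,[],(8,5),.mon 1 1 0,[]⟩),
  (.comm 1 0 0,⟨false,[],(7,5),.all,[]⟩),
  (.rho 91,⟨false,[],(11,7),.mon 0 1 0,[]⟩),
  (.comm 65 0 0,⟨false,[],(15,7),.all,[]⟩),
  (.rho 0,⟨false,[],(6,14),.all,[]⟩),
  (.spec 0,⟨false,[],(6,14),.mon 0 0 0,[]⟩),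
  (.comm 29 0 0,⟨false,[],(6,27),.all,[]⟩),
  (.rho 35,⟨false,[],(9,26),.all,[]⟩),
  (.cN 1 24 0,⟨false,[],(6,8),.all,[]⟩),
  (.rho 46,⟨false,[],(8,5),.mon 1 1 0,[]⟩),
  (.comm 1 0 0,⟨false,[],(6,5),.all,[]⟩),
  (.rho 111,⟨false,[],(27,23),.mon 0 1 0,[]⟩),
  (.comm 14 0 0,⟨false,[],(7,23),.all,[]⟩),
  (.rho 39,⟨false,[],(5,22),.all,[]⟩),
  (.cN 1 49 0,⟨false,[],(7,4),.all,[]⟩),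
  (.rho 11,⟨false,[],(6,14),.all,[]⟩),
  (.spec 0,⟨false,[],(6,14),.mon 0 0 0,[]⟩),
  (.comm 80 0 0,⟨false,[],(6,23),.all,[]⟩),
  (.rho 44,⟨false,[],(5,22),.all,[]⟩),
  (.cN 1 54 0,⟨false,[],(6,4),.all,[]⟩),
  (.comm 120 94 0,⟨false,[],(14,26),.mon 3 0 0,[]⟩),
  (.comm 117 0 0,⟨false,[],(14,30),.mon 4 0 0,[]⟩),
  (.rho 106,⟨false,[],(30,2),.mon 1 0 0,[]⟩),
  (.comm 1 0 0,⟨false,[],(14,2),.mon 5 0 0,[]⟩),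
  (.rho 0,⟨false,[],(3,15),.mon 0 5 0,[]⟩),
  (.comm 87 0 0,⟨false,[],(3,11),.all,[]⟩),
  (.rho 117,⟨false,[],(30,26),.mon 1 0 0,[]⟩),
  (.comm 115 0 0,⟨false,[],(2,26),.mon 2 0 0,[]⟩),
  (.rho 0,⟨false,[],(27,3),.mon 0 2 0,[]⟩),
  (.comm 98 0 0,⟨false,[],(23,3),.all,[]⟩),
  (.comm 0 98 0,⟨false,[],(11,3),.all,[]⟩),
  (.cN 83 5 0,⟨false,[],(2,3),.all,[]⟩),
  (.cc 63,⟨false,[],(3,16),.all,[]⟩),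
  (.ca 0,⟨false,[],(3,20),.all,[]⟩),
  (.comm 89 115 0,⟨false,[],(3,31),.all,[]⟩),
  (.rho 0,⟨false,[],(30,2),.all,[]⟩),
  (.ca 54,⟨false,[],(28,25),.mon 1 1 0,[]⟩),
  (.rho 0,⟨false,[],(24,29),.mon 1 1 0,[]⟩),
  (.cc 0,⟨false,[],(16,13),.mon 1 1 0,[]⟩),
  (.rho 0,⟨false,[],(12,17),.mon 1 1 0,[]⟩),
  (.ca 0,⟨false,[],(24,21),.mon 1 1 0,[]⟩),
  (.rho 0,⟨false,[],(20,25),.mon 1 1 0,[]⟩),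
  (.rho 0,⟨false,[],(24,21),.mon 1 1 0,[]⟩),
  (.comm 171 0 0,⟨false,[],(31,21),.mon 1 1 0,[]⟩),
  (.rho 0,⟨false,[],(20,30),.mon 1 1 0,[]⟩),
  (.comm 9 0 0,⟨false,[],(20,2),.all,[]⟩),
  (.spec 0,⟨false,[],(20,2),.mon 0 0 0,[]⟩),
  (.comm 13 0 1,⟨false,[],(3,2),.all,[]⟩),
  (.base 2,⟨false,[],(28,0),.mon 0 0 0,[(28,3),(28,2),(16,29),(14,11),(31,24),(7,12),(22,27),(20,9),(8,0),(8,2),(8,3)]⟩),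
  (.comm 118 124 0,⟨false,[],(15,27),.all,[]⟩),
  (.rho 0,⟨false,[],(26,14),.all,[]⟩),
  (.comm 0 115 0,⟨false,[],(26,11),.all,[]⟩),
  (.comm 99 14 0,⟨false,[],(10,29),.all,[]⟩),
  (.rho 82,⟨false,[],(29,10),.all,[]⟩),
  (.cN 2 1 0,⟨false,[],(26,28),.all,[]⟩),
  (.rho 83,⟨false,[],(9,26),.all,[]⟩),
  (.cN 1 72 0,⟨false,[],(9,28),.all,[]⟩),
  (.comm 0 94 0,⟨false,[],(4,28),.all,[]⟩),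
  (.comm 9 0 4,⟨false,[],(4,0),.all,[(4,29),(4,3),(4,2),(16,5),(28,5),(8,5),(4,5)]⟩),
  (.comm 139 165 0,⟨false,[],(19,31),.mon 0 3 0,[]⟩),
  (.comm 162 0 0,⟨false,[],(15,31),.mon 0 4 0,[]⟩),
  (.comm 159 0 0,⟨false,[],(11,31),.mon 0 5 0,[]⟩),
  (.comm 124 0 0,⟨false,[],(15,31),.all,[]⟩),
  (.rho 0,⟨false,[],(30,14),.all,[]⟩),
  (.spec 0,⟨false,[],(30,14),.mon 0 0 0,[]⟩),
  (.comm 88 0 0,⟨false,[],(30,27),.all,[]⟩),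
  (.rho 0,⟨false,[],(26,31),.all,[]⟩),
  (.comm 0 195 0,⟨false,[],(26,24),.all,[]⟩),
  (.comm 0 30 0,⟨false,[],(26,29),.all,[]⟩),
  (.rho 97,⟨false,[],(9,26),.all,[]⟩),
  (.cN 1 86 0,⟨false,[],(9,29),.all,[]⟩),
  (.comm 0 108 0,⟨false,[],(4,29),.all,[]⟩),
  (.comm 118 32 0,⟨false,[],(26,17),.all,[]⟩),
  (.rho 101,⟨false,[],(9,26),.all,[]⟩),
  (.cN 1 90 0,⟨false,[],(9,17),.all,[]⟩),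
  (.comm 0 112 0,⟨false,[],(4,17),.all,[]⟩),
  (.rho 113,⟨false,[],(8,5),.mon 1 1 0,[]⟩),
  (.comm 105 0 0,⟨false,[],(27,5),.all,[]⟩),
  (.rho 94,⟨false,[],(8,27),.all,[]⟩),
  (.spec 0,⟨false,[],(8,27),.mon 0 0 0,[]⟩),
  (.comm 2 0 0,⟨false,[],(8,5),.all,[]⟩),
  (.spec 3,⟨false,[],(27,5),.mon 0 0 0,[]⟩),
  (.ca 134,⟨false,[],(26,27),.all,[]⟩),
  (.comm 1 0 5,⟨false,[],(4,5),.all,[(26,5)]⟩),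
  (.comm 184 188 0,⟨false,[],(18,26),.mon 2 0 0,[]⟩),
  (.rho 0,⟨false,[],(27,19),.mon 0 2 0,[]⟩),
  (.comm 155 0 0,⟨false,[],(23,19),.all,[]⟩),
  (.comm 0 155 0,⟨false,[],(11,19),.all,[]⟩),
  (.comm 0 152 0,⟨false,[],(14,19),.all,[]⟩),
  (.cc 0,⟨false,[],(26,23),.all,[]⟩),
  (.cc 159,⟨false,[],(19,15),.all,[]⟩),
  (.comm 189 193 0,⟨false,[],(11,19),.mon 0 2 0,[]⟩),
  (.comm 1 0 0,⟨false,[],(11,15),.all,[]⟩),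
  (.comm 0 157 1,⟨false,[],(14,15),.all,[]⟩),
  (.spec 0,⟨false,[],(14,15),.mon 0 0 0,[]⟩),
  (.comm 32 0 2,⟨false,[],(14,31),.all,[(30,31)]⟩),
  (.drop 0 [145],⟨false,[],(14,31),.all,[]⟩),
  (.comm 0 225 0,⟨false,[],(14,24),.all,[]⟩),
  (.ca 0,⟨false,[],(22,12),.all,[]⟩),
  (.rho 117,⟨false,[],(12,9),.mon 1 1 0,[]⟩),
  (.comm 1 0 0,⟨false,[],(22,9),.all,[]⟩),
  (.rho 129,⟨false,[],(9,26),.all,[]⟩),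
  (.cN 171 118 0,⟨false,[],(23,8),.all,[]⟩),
  (.rho 0,⟨false,[],(9,22),.all,[]⟩),
  (.cN 14 3 0,⟨false,[],(26,8),.all,[]⟩),
  (.rho 142,⟨false,[],(8,5),.mon 1 1 0,[]⟩),
  (.comm 1 0 0,⟨false,[],(26,5),.all,[]⟩),
  (.drop 23 [0],⟨false,[],(4,5),.all,[]⟩),
  (.drop 49 [36,120,111,32,36,27,0],⟨false,[],(4,0),.all,[]⟩),
  (.spec 133,⟨false,[],(2,4),.mon 0 0 0,[]⟩),
  (.comm 1 0 2,⟨false,[],(2,0),.all,[(2,5)]⟩),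
  (.drop 0 [123],⟨false,[],(2,0),.all,[]⟩),
  (.spec 119,⟨false,[],(3,4),.mon 0 0 0,[]⟩),
  (.comm 4 0 2,⟨false,[],(3,0),.all,[(3,5)]⟩),
  (.drop 0 [117],⟨false,[],(3,0),.all,[]⟩)],
  [(139,139),(127,127),(122,122),(118,118),(118,118),(127,127),(122,122),(139,139),(113,113),(104,104),(100,100),(95,95),(95,95),(104,104),(100,100),(113,113),(83,83),(67,67),(3,83),(0,67)]⟩ = true := by decide +kernel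

theorem cXe17 : Fam.chkP .X 17 1 true true true false false
  ⟨[],[],[],[((5,7),some (1,0,0)),((20,22),some (1,0,0)),((5,26),some (0,0,0))],3,(3,0),(30,3),(30,0),(30,2),(1,0,0),[(35,33),(18,16),(35,12),(8,0),(8,2),(8,3)],
  [(.base 4,⟨false,[],(18,16),.mon 1 0 0,[(8,3),(8,2),(8,0),(35,12),(35,33),(5,7),(20,22),(5,26),(30,0),(30,2),(30,3)]⟩),
  (.base 0,⟨false,[],(8,3),.mon 1 0 0,[(8,2),(8,0),(35,12),(18,16),(35,33),(5,7),(20,22),(5,26),(30,0),(30,2),(30,3)]⟩),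
  (.base 8,⟨false,[],(5,26),.mon 0 0 0,[(8,3),(8,2),(8,0),(35,12),(18,16),(35,33),(5,7),(20,22),(30,0),(30,2),(30,3)]⟩),
  (.cc 0,⟨false,[],(5,16),.mon 0 0 0,[(34,7),(34,6),(34,0),(9,30),(24,26),(9,11),(5,3),(22,20),(12,0),(12,6),(12,7)]⟩),
  (.ca 0,⟨false,[],(35,22),.mon 0 0 0,[(4,33),(4,32),(4,0),(31,8),(14,12),(31,29),(35,3),(16,18),(26,0),(26,32),(26,33)]⟩),
  (.cc 0,⟨false,[],(9,20),.mon 0 0 0,[(4,11),(4,10),(4,0),(13,34),(28,30),(13,15),(9,7),(26,24),(16,0),(16,10),(16,11)]⟩),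
  (.ca 0,⟨false,[],(31,18),.mon 0 0 0,[(34,29),(34,28),(34,0),(27,4),(10,8),(27,25),(31,33),(12,14),(22,0),(22,28),(22,29)]⟩),
  (.cc 0,⟨false,[],(13,24),.mon 0 0 0,[(8,15),(8,14),(8,0),(17,4),(32,34),(17,19),(13,11),(30,28),(20,0),(20,14),(20,15)]⟩),
  (.ca 0,⟨false,[],(27,14),.mon 0 0 0,[(30,25),(30,24),(30,0),(23,34),(6,4),(23,21),(27,29),(8,10),(18,0),(18,24),(18,25)]⟩),
  (.cc 0,⟨false,[],(17,28),.mon 0 0 0,[(12,19),(12,18),(12,0),(21,8),(2,4),(21,23),(17,15),(34,32),(24,0),(24,18),(24,19)]⟩),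
  (.ca 0,⟨false,[],(23,10),.mon 0 0 0,[(26,21),(26,20),(26,0),(19,30),(2,34),(19,17),(23,25),(4,6),(14,0),(14,20),(14,21)]⟩),
  (.cc 0,⟨false,[],(21,32),.mon 0 0 0,[(16,23),(16,22),(16,0),(25,12),(6,8),(25,27),(21,19),(4,2),(28,0),(28,22),(28,23)]⟩),
  (.ca 0,⟨false,[],(19,6),.mon 0 0 0,[(22,17),(22,16),(22,0),(15,26),(32,30),(15,13),(19,21),(34,2),(10,0),(10,16),(10,17)]⟩),
  (.cc 0,⟨false,[],(25,2),.mon 0 0 0,[(20,27),(20,26),(20,0),(29,16),(10,12),(29,31),(25,23),(8,6),(32,0),(32,26),(32,27)]⟩),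
  (.ca 0,⟨false,[],(15,2),.mon 0 0 0,[(18,13),(18,12),(18,0),(11,22),(28,26),(11,9),(15,17),(30,32),(6,0),(6,12),(6,13)]⟩),
  (.rho 0,⟨false,[],(3,14),.mon 0 0 0,[(18,13),(18,12),(18,0),(11,22),(28,26),(11,9),(15,17),(30,32),(6,0),(6,12),(6,13)]⟩),
  (.comm 14 0 0,⟨false,[],(8,14),.mon 1 0 0,[(8,19),(8,7),(35,19),(35,7),(18,14),(35,31),(30,19),(30,7),(30,14)]⟩),
  (.cc 16,⟨false,[],(24,26),.mon 1 0 0,[(34,7),(34,6),(34,0),(9,30),(9,11),(5,3),(22,20),(5,16),(12,0),(12,6),(12,7)]⟩),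
  (.ca 0,⟨false,[],(14,12),.mon 1 0 0,[(4,33),(4,32),(4,0),(31,8),(31,29),(35,3),(16,18),(35,22),(26,0),(26,32),(26,33)]⟩),
  (.cc 0,⟨false,[],(28,30),.mon 1 0 0,[(4,11),(4,10),(4,0),(13,34),(13,15),(9,7),(26,24),(9,20),(16,0),(16,10),(16,11)]⟩),
  (.ca 0,⟨false,[],(10,8),.mon 1 0 0,[(34,29),(34,28),(34,0),(27,4),(27,25),(31,33),(12,14),(31,18),(22,0),(22,28),(22,29)]⟩),
  (.cc 0,⟨false,[],(32,34),.mon 1 0 0,[(8,15),(8,14),(8,0),(17,4),(17,19),(13,11),(30,28),(13,24),(20,0),(20,14),(20,15)]⟩),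
  (.ca 0,⟨false,[],(6,4),.mon 1 0 0,[(30,25),(30,24),(30,0),(23,34),(23,21),(27,29),(8,10),(27,14),(18,0),(18,24),(18,25)]⟩),
  (.cc 0,⟨false,[],(2,4),.mon 1 0 0,[(12,19),(12,18),(12,0),(21,8),(21,23),(17,15),(34,32),(17,28),(24,0),(24,18),(24,19)]⟩),
  (.ca 0,⟨false,[],(2,34),.mon 1 0 0,[(26,21),(26,20),(26,0),(19,30),(19,17),(23,25),(4,6),(23,10),(14,0),(14,20),(14,21)]⟩),
  (.cc 0,⟨false,[],(6,8),.mon 1 0 0,[(16,23),(16,22),(16,0),(25,12),(25,27),(21,19),(4,2),(21,32),(28,0),(28,22),(28,23)]⟩),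
  (.comm 9 0 0,⟨false,[],(6,14),.mon 2 0 0,[(6,19),(6,7)]⟩),
  (.base 5,⟨false,[],(35,33),.mon 1 0 0,[(8,3),(8,2),(8,0),(35,12),(18,16),(5,7),(20,22),(5,26),(30,0),(30,2),(30,3)]⟩),
  (.cc 0,⟨false,[],(9,11),.mon 1 0 0,[(34,7),(34,6),(34,0),(9,30),(24,26),(5,3),(22,20),(5,16),(12,0),(12,6),(12,7)]⟩),
  (.ca 0,⟨false,[],(31,29),.mon 1 0 0,[(4,33),(4,32),(4,0),(31,8),(14,12),(35,3),(16,18),(35,22),(26,0),(26,32),(26,33)]⟩),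
  (.cc 0,⟨false,[],(13,15),.mon 1 0 0,[(4,11),(4,10),(4,0),(13,34),(28,30),(9,7),(26,24),(9,20),(16,0),(16,10),(16,11)]⟩),
  (.rho 0,⟨false,[],(14,12),.mon 0 1 0,[(4,11),(4,10),(4,0),(13,34),(28,30),(9,7),(26,24),(9,20),(16,0),(16,10),(16,11)]⟩),
  (.comm 5 0 0,⟨false,[],(6,12),.mon 2 1 0,[]⟩),
  (.ca 0,⟨false,[],(32,26),.mon 2 1 0,[]⟩),
  (.rho 0,⟨false,[],(27,33),.mon 1 2 0,[]⟩),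
  (.cc 0,⟨false,[],(17,11),.mon 1 2 0,[]⟩),
  (.rho 0,⟨false,[],(10,16),.mon 2 1 0,[]⟩),
  (.ca 0,⟨false,[],(28,22),.mon 2 1 0,[]⟩),
  (.rho 0,⟨false,[],(23,29),.mon 1 2 0,[]⟩),
  (.cc 0,⟨false,[],(21,15),.mon 1 2 0,[]⟩),
  (.rho 0,⟨false,[],(14,20),.mon 2 1 0,[]⟩),
  (.ca 0,⟨false,[],(24,18),.mon 2 1 0,[]⟩),
  (.rho 0,⟨false,[],(19,25),.mon 1 2 0,[]⟩),
  (.cc 0,⟨false,[],(25,19),.mon 1 2 0,[]⟩),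
  (.rho 0,⟨false,[],(18,24),.mon 2 1 0,[]⟩),
  (.ca 0,⟨false,[],(20,14),.mon 2 1 0,[]⟩),
  (.rho 0,⟨false,[],(15,21),.mon 1 2 0,[]⟩),
  (.cc 0,⟨false,[],(29,23),.mon 1 2 0,[]⟩),
  (.rho 0,⟨false,[],(22,28),.mon 2 1 0,[]⟩),
  (.ca 0,⟨false,[],(16,10),.mon 2 1 0,[]⟩),
  (.rho 0,⟨false,[],(11,17),.mon 1 2 0,[]⟩),
  (.rho 0,⟨false,[],(16,10),.mon 2 1 0,[]⟩),
  (.comm 51 0 0,⟨false,[],(18,10),.mon 3 1 0,[]⟩),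
  (.rho 0,⟨false,[],(11,19),.mon 1 3 0,[]⟩),
  (.cc 0,⟨false,[],(33,25),.mon 1 3 0,[]⟩),
  (.rho 0,⟨false,[],(24,32),.mon 3 1 0,[]⟩),
  (.ca 0,⟨false,[],(14,6),.mon 3 1 0,[]⟩),
  (.rho 0,⟨false,[],(7,15),.mon 1 3 0,[]⟩),
  (.cc 25,⟨false,[],(2,30),.mon 2 1 0,[]⟩),
  (.ca 0,⟨false,[],(2,8),.mon 2 1 0,[]⟩),
  (.cc 0,⟨false,[],(6,34),.mon 2 1 0,[]⟩),
  (.ca 0,⟨false,[],(32,4),.mon 2 1 0,[]⟩),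
  (.rho 0,⟨false,[],(5,33),.mon 1 2 0,[]⟩),
  (.cc 0,⟨false,[],(5,11),.mon 1 2 0,[]⟩),
  (.ca 0,⟨false,[],(35,29),.mon 1 2 0,[]⟩),
  (.rho 0,⟨false,[],(28,34),.mon 2 1 0,[]⟩),
  (.cc 0,⟨false,[],(14,8),.mon 2 1 0,[]⟩),
  (.rho 0,⟨false,[],(9,15),.mon 1 2 0,[]⟩),
  (.ca 0,⟨false,[],(31,25),.mon 1 2 0,[]⟩),
  (.rho 0,⟨false,[],(24,30),.mon 2 1 0,[]⟩),
  (.cc 0,⟨false,[],(18,12),.mon 2 1 0,[]⟩),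
  (.rho 0,⟨false,[],(13,19),.mon 1 2 0,[]⟩),
  (.ca 0,⟨false,[],(27,21),.mon 1 2 0,[]⟩),
  (.rho 0,⟨false,[],(20,26),.mon 2 1 0,[]⟩),
  (.cc 0,⟨false,[],(22,16),.mon 2 1 0,[]⟩),
  (.rho 0,⟨false,[],(17,23),.mon 1 2 0,[]⟩),
  (.ca 0,⟨false,[],(23,17),.mon 1 2 0,[]⟩),
  (.rho 0,⟨false,[],(16,22),.mon 2 1 0,[]⟩),
  (.cc 0,⟨false,[],(26,20),.mon 2 1 0,[]⟩),
  (.rho 0,⟨false,[],(21,27),.mon 1 2 0,[]⟩),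
  (.ca 0,⟨false,[],(19,13),.mon 1 2 0,[]⟩),
  (.rho 0,⟨false,[],(12,18),.mon 2 1 0,[]⟩),
  (.cc 0,⟨false,[],(30,24),.mon 2 1 0,[]⟩),
  (.rho 0,⟨false,[],(25,31),.mon 1 2 0,[]⟩),
  (.ca 0,⟨false,[],(15,9),.mon 1 2 0,[]⟩),
  (.rho 0,⟨false,[],(8,14),.mon 2 1 0,[]⟩),
  (.cc 35,⟨false,[],(33,27),.mon 1 2 0,[]⟩),
  (.rho 0,⟨false,[],(26,32),.mon 2 1 0,[]⟩),
  (.ca 0,⟨false,[],(12,6),.mon 2 1 0,[]⟩),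
  (.rho 0,⟨false,[],(7,13),.mon 1 2 0,[]⟩),
  (.cc 0,⟨false,[],(3,31),.mon 1 2 0,[]⟩),
  (.rho 31,⟨false,[],(9,3),.mon 1 2 0,[]⟩),
  (.comm 1 0 0,⟨false,[],(9,31),.mon 2 4 0,[]⟩),
  (.rho 34,⟨false,[],(31,3),.mon 1 2 0,[]⟩),
  (.comm 1 0 0,⟨false,[],(9,3),.mon 3 6 0,[]⟩),
  (.rho 0,⟨false,[],(2,8),.mon 6 3 0,[]⟩),
  (.comm 10 0 0,⟨false,[],(2,14),.mon 8 4 0,[]⟩),
  (.rho 0,⟨false,[],(15,3),.mon 4 8 0,[]⟩),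
  (.comm 40 0 0,⟨false,[],(7,3),.mon 5 11 0,[]⟩),
  (.rho 0,⟨false,[],(2,6),.mon 11 5 0,[]⟩),
  (.comm 18 67 0,⟨false,[],(6,18),.mon 4 2 0,[]⟩),
  (.comm 31 56 0,⟨false,[],(18,30),.mon 4 2 0,[]⟩),
  (.rho 0,⟨false,[],(31,19),.mon 2 4 0,[]⟩),
  (.comm 12 0 0,⟨false,[],(3,19),.mon 3 6 0,[]⟩),
  (.rho 0,⟨false,[],(18,2),.mon 6 3 0,[]⟩),
  (.comm 4 0 0,⟨false,[],(6,2),.mon 10 5 0,[]⟩),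
  (.rho 0,⟨false,[],(3,7),.mon 5 10 0,[]⟩),
  (.rho 0,⟨false,[],(6,2),.mon 10 5 0,[]⟩),
  (.sI 8 0,⟨true,[],(6,12),.mon 21 10 0,[]⟩),
  (.rho 50,⟨false,[],(31,3),.mon 1 2 0,[]⟩),
  (.comm 26 0 0,⟨false,[],(25,3),.mon 2 4 0,[]⟩),
  (.rho 0,⟨false,[],(2,24),.mon 4 2 0,[]⟩),
  (.comm 40 69 0,⟨false,[],(13,25),.mon 2 4 0,[]⟩),
  (.comm 23 0 0,⟨false,[],(7,25),.mon 3 6 0,[]⟩),
  (.rho 0,⟨false,[],(24,6),.mon 6 3 0,[]⟩),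
  (.comm 3 0 0,⟨false,[],(2,6),.mon 10 5 0,[]⟩),
  (.rho 9,⟨false,[],(6,2),.mon 10 5 0,[]⟩),
  (.sI 1 0,⟨true,[],(6,12),.mon 20 10 0,[]⟩),
  (.sN 0,⟨true,[],(6,12),.mon (-20) (-10) 0,[]⟩),
  (.sA 10 0,⟨true,[],(6,12),.mon 1 0 0,[]⟩),
  (.sF 0 87,⟨false,[],(6,12),.all,[]⟩),
  (.cc 0,⟨false,[],(2,30),.all,[]⟩),
  (.comm 71 58 0,⟨false,[],(5,17),.mon 2 4 0,[]⟩),
  (.rho 0,⟨false,[],(16,4),.mon 4 2 0,[]⟩),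
  (.comm 123 0 0,⟨false,[],(18,4),.mon 5 2 0,[]⟩),
  (.rho 0,⟨false,[],(5,19),.mon 2 5 0,[]⟩),
  (.comm 42 83 0,⟨false,[],(19,31),.mon 2 4 0,[]⟩),
  (.comm 1 0 0,⟨false,[],(5,31),.mon 4 9 0,[]⟩),
  (.rho 0,⟨false,[],(30,4),.mon 9 4 0,[]⟩),
  (.comm 7 0 0,⟨false,[],(2,4),.all,[]⟩),
  (.rho 26,⟨false,[],(18,2),.mon 6 3 0,[]⟩),
  (.comm 49 0 0,⟨false,[],(12,2),.mon 8 4 0,[]⟩),
  (.rho 0,⟨false,[],(3,13),.mon 4 8 0,[]⟩),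
  (.rho 0,⟨false,[],(12,2),.mon 8 4 0,[]⟩),
  (.comm 13 0 0,⟨false,[],(6,2),.all,[]⟩),
  (.rho 0,⟨false,[],(3,7),.all,[]⟩),
  (.comm 0 134 0,⟨false,[],(8,7),.all,[(30,7)]⟩),
  (.ca 15,⟨false,[],(2,8),.all,[]⟩),
  (.spec 0,⟨false,[],(2,8),.mon 0 0 0,[]⟩),
  (.comm 2 0 0,⟨false,[],(2,7),.all,[]⟩),
  (.ca 49,⟨false,[],(3,9),.mon 1 2 0,[]⟩),
  (.cc 0,⟨false,[],(7,35),.mon 1 2 0,[]⟩),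
  (.ca 0,⟨false,[],(33,5),.mon 1 2 0,[]⟩),
  (.rho 0,⟨false,[],(4,32),.mon 2 1 0,[]⟩),
  (.cc 0,⟨false,[],(4,10),.mon 2 1 0,[]⟩),
  (.comm 67 108 0,⟨false,[],(10,22),.mon 4 2 0,[]⟩),
  (.comm 97 80 0,⟨false,[],(22,34),.mon 4 2 0,[]⟩),
  (.comm 1 0 0,⟨false,[],(10,34),.mon 8 4 0,[]⟩),
  (.rho 6,⟨false,[],(34,6),.mon 2 1 0,[]⟩),
  (.comm 1 0 0,⟨false,[],(10,6),.mon 10 5 0,[]⟩),
  (.rho 0,⟨false,[],(7,11),.mon 5 10 0,[]⟩),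
  (.rho 0,⟨false,[],(10,6),.mon 10 5 0,[]⟩),
  (.comm 7 0 0,⟨false,[],(4,6),.mon 12 6 0,[]⟩),
  (.comm 32 0 0,⟨false,[],(4,12),.all,[]⟩),
  (.rho 64,⟨false,[],(12,6),.mon 2 1 0,[]⟩),
  (.comm 1 0 0,⟨false,[],(4,6),.all,[]⟩),
  (.rho 0,⟨false,[],(7,5),.all,[]⟩),
  (.spec 0,⟨false,[],(7,5),.mon 0 0 0,[]⟩),
  (.comm 18 0 0,⟨false,[],(2,5),.all,[]⟩),
  (.base 3,⟨false,[],(35,12),.mon 0 0 0,[(8,3),(8,2),(8,0),(18,16),(35,33),(5,7),(20,22),(5,26),(30,0),(30,2),(30,3)]⟩),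
  (.comm 78 115 0,⟨false,[],(12,24),.mon 4 2 0,[]⟩),
  (.comm 1 0 0,⟨false,[],(35,24),.mon 4 2 0,[]⟩),
  (.rho 0,⟨false,[],(25,34),.mon 2 4 0,[]⟩),
  (.ca 0,⟨false,[],(15,4),.mon 2 4 0,[]⟩),
  (.rho 0,⟨false,[],(5,14),.mon 4 2 0,[]⟩),
  (.cc 0,⟨false,[],(5,28),.mon 4 2 0,[]⟩),
  (.rho 100,⟨false,[],(35,29),.mon 1 2 0,[]⟩),
  (.comm 25 0 0,⟨false,[],(7,29),.mon 2 4 0,[]⟩),
  (.rho 0,⟨false,[],(28,6),.mon 4 2 0,[]⟩),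
  (.comm 3 0 0,⟨false,[],(5,6),.mon 8 4 0,[]⟩),
  (.comm 35 0 0,⟨false,[],(5,2),.all,[]⟩),
  (.comm 36 18 0,⟨false,[],(4,2),.all,[]⟩),
  (.rho 70,⟨false,[],(31,19),.mon 2 4 0,[]⟩),
  (.comm 80 0 0,⟨false,[],(9,19),.mon 4 8 0,[]⟩),
  (.rho 0,⟨false,[],(18,8),.mon 8 4 0,[]⟩),
  (.comm 93 0 0,⟨false,[],(12,8),.mon 10 5 0,[]⟩),
  (.rho 0,⟨false,[],(9,13),.mon 5 10 0,[]⟩),
  (.rho 0,⟨false,[],(12,8),.mon 10 5 0,[]⟩),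
  (.comm 57 0 0,⟨false,[],(6,8),.all,[]⟩),
  (.comm 0 26 0,⟨false,[],(4,8),.all,[]⟩),
  (.spec 0,⟨false,[],(4,8),.mon 0 0 0,[]⟩),
  (.comm 44 0 0,⟨false,[],(4,7),.all,[]⟩),
  (.comm 61 12 0,⟨false,[],(5,12),.all,[]⟩),
  (.rho 93,⟨false,[],(12,6),.mon 2 1 0,[]⟩),
  (.comm 1 0 0,⟨false,[],(5,6),.all,[]⟩),
  (.rho 103,⟨false,[],(19,13),.mon 1 2 0,[]⟩),
  (.comm 60 0 0,⟨false,[],(5,13),.mon 3 7 0,[]⟩),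
  (.rho 0,⟨false,[],(12,4),.mon 7 3 0,[]⟩),
  (.comm 67 0 0,⟨false,[],(6,4),.all,[]⟩),
  (.comm 105 75 0,⟨false,[],(7,31),.mon 4 8 0,[]⟩),
  (.rho 0,⟨false,[],(30,6),.mon 8 4 0,[]⟩),
  (.comm 69 0 0,⟨false,[],(2,6),.all,[]⟩),
  (.rho 0,⟨false,[],(7,3),.all,[]⟩),
  (.spec 0,⟨false,[],(7,3),.mon 0 0 0,[]⟩),
  (.comm 54 0 1,⟨false,[],(2,3),.all,[]⟩),
  (.rho 125,⟨false,[],(31,25),.mon 1 2 0,[]⟩),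
  (.comm 105 0 0,⟨false,[],(3,25),.mon 2 4 0,[]⟩),
  (.comm 34 0 0,⟨false,[],(3,34),.mon 4 8 0,[]⟩),
  (.rho 56,⟨false,[],(34,6),.mon 2 1 0,[]⟩),
  (.comm 1 0 0,⟨false,[],(3,6),.mon 6 9 0,[]⟩),
  (.comm 65 0 1,⟨false,[],(3,2),.all,[]⟩),
  (.base 2,⟨false,[],(8,0),.mon 1 0 0,[(8,3),(8,2),(35,12),(18,16),(35,33),(5,7),(20,22),(5,26),(30,0),(30,2),(30,3)]⟩),
  (.comm 23 32 0,⟨false,[],(5,8),.all,[]⟩),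
  (.comm 1 0 4,⟨false,[],(5,0),.all,[(5,9),(5,3),(5,2),(8,4),(30,4),(5,4)]⟩),
  (.rho 145,⟨false,[],(31,3),.mon 1 2 0,[]⟩),
  (.comm 64 0 0,⟨false,[],(31,9),.mon 2 4 0,[]⟩),
  (.rho 0,⟨false,[],(8,30),.mon 4 2 0,[]⟩),
  (.rho 0,⟨false,[],(31,9),.mon 2 4 0,[]⟩),
  (.comm 18 0 0,⟨false,[],(7,9),.mon 6 12 0,[]⟩),
  (.rho 0,⟨false,[],(8,6),.mon 12 6 0,[]⟩),
  (.comm 89 0 0,⟨false,[],(8,12),.all,[]⟩),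
  (.rho 24,⟨false,[],(12,4),.mon 7 3 0,[]⟩),
  (.comm 1 0 0,⟨false,[],(8,4),.all,[]⟩),
  (.rho 23,⟨false,[],(30,6),.mon 8 4 0,[]⟩),
  (.comm 93 0 0,⟨false,[],(30,12),.all,[]⟩),
  (.rho 28,⟨false,[],(12,4),.mon 7 3 0,[]⟩),
  (.comm 1 0 0,⟨false,[],(30,4),.all,[]⟩),
  (.comm 54 104 0,⟨false,[],(13,34),.mon 4 8 0,[]⟩),
  (.rho 76,⟨false,[],(34,6),.mon 2 1 0,[]⟩),
  (.comm 1 0 0,⟨false,[],(13,6),.mon 6 9 0,[]⟩),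
  (.rho 0,⟨false,[],(7,12),.mon 9 6 0,[]⟩),
  (.rho 0,⟨false,[],(13,6),.mon 6 9 0,[]⟩),
  (.comm 101 0 1,⟨false,[],(13,12),.all,[]⟩),
  (.comm 36 0 5,⟨false,[],(5,4),.all,[(5,12)]⟩),
  (.drop 0 [41],⟨false,[],(5,4),.all,[]⟩),
  (.drop 21 [12,95,54,12,8,0],⟨false,[],(5,0),.all,[]⟩),
  (.rho 70,⟨false,[],(7,5),.all,[]⟩),
  (.spec 0,⟨false,[],(7,5),.mon 0 0 0,[]⟩),
  (.comm 2 0 2,⟨false,[],(7,0),.all,[(7,4)]⟩),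
  (.drop 0 [44],⟨false,[],(7,0),.all,[]⟩),
  (.spec 90,⟨false,[],(2,7),.mon 0 0 0,[]⟩),
  (.comm 1 0 2,⟨false,[],(2,0),.all,[(2,6)]⟩),
  (.drop 0 [40],⟨false,[],(2,0),.all,[]⟩),
  (.rho 61,⟨false,[],(3,5),.all,[]⟩),
  (.spec 0,⟨false,[],(3,5),.mon 0 0 0,[]⟩),
  (.comm 9 0 2,⟨false,[],(3,0),.all,[(3,4)]⟩),
  (.drop 0 [65],⟨false,[],(3,0),.all,[]⟩)],
  [(107,107),(78,78),(66,66),(65,65),(65,65),(78,78),(66,66),(107,107),(81,81),(55,55),(52,52),(48,48),(48,48),(55,55),(52,52),(81,81),(42,42),(36,36),(4,42),(0,36)]⟩ = true := by decide +kernel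

theorem cXe18 : Fam.chkP .X 18 1 true true true false false
  ⟨[],[],[],[((18,4),some (0,0,0)),((32,6),some (1,0,0)),((13,12),some (0,0,0))],3,(0,2),(2,17),(0,17),(3,17),(0,0,0),[(22,36),(8,34),(29,28),(0,25),(3,25),(2,25)],
  [(.base 5,⟨false,[],(22,36),.mon 0 0 0,[(2,25),(3,25),(0,25),(29,28),(8,34),(18,4),(32,6),(13,12),(0,17),(3,17),(2,17)]⟩),
  (.base 4,⟨false,[],(8,34),.mon 1 0 0,[(2,25),(3,25),(0,25),(29,28),(22,36),(18,4),(32,6),(13,12),(0,17),(3,17),(2,17)]⟩),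
  (.base 6,⟨false,[],(18,4),.mon 0 0 0,[(2,25),(3,25),(0,25),(29,28),(8,34),(22,36),(32,6),(13,12),(0,17),(3,17),(2,17)]⟩),
  (.cc 0,⟨false,[],(26,4),.mon 0 0 0,[(6,21),(7,21),(0,21),(17,16),(36,10),(22,8),(12,2),(33,32),(0,29),(7,29),(6,29)]⟩),
  (.ca 0,⟨false,[],(14,36),.mon 0 0 0,[(34,21),(35,21),(0,21),(25,24),(4,30),(18,32),(28,2),(9,8),(0,13),(35,13),(34,13)]⟩),
  (.cc 0,⟨false,[],(30,8),.mon 0 0 0,[(10,25),(11,25),(0,25),(21,20),(4,14),(26,12),(16,6),(37,36),(0,33),(11,33),(10,33)]⟩),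
  (.comm 4 0 0,⟨false,[],(30,34),.mon 1 0 0,[(24,25),(32,25),(18,14),(24,17),(32,17)]⟩),
  (.ca 0,⟨false,[],(10,6),.mon 1 0 0,[(16,17),(8,17),(22,26),(16,25),(8,25)]⟩),
  (.cc 0,⟨false,[],(34,2),.mon 1 0 0,[(28,29),(36,29),(22,18),(28,21),(36,21)]⟩),
  (.comm 2 0 0,⟨false,[],(30,2),.mon 2 0 0,[(22,14)]⟩),
  (.ca 3,⟨false,[],(10,6),.mon 1 0 0,[(16,17),(8,17),(22,26),(16,25),(8,25)]⟩),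
  (.cc 0,⟨false,[],(34,2),.mon 1 0 0,[(28,29),(36,29),(22,18),(28,21),(36,21)]⟩),
  (.ca 0,⟨false,[],(6,2),.mon 1 0 0,[(12,13),(4,13),(18,22),(12,21),(4,21)]⟩),
  (.cc 0,⟨false,[],(2,6),.mon 1 0 0,[(32,33),(4,33),(26,22),(32,25),(4,25)]⟩),
  (.ca 0,⟨false,[],(2,34),.mon 1 0 0,[(8,9),(36,9),(14,18),(8,17),(36,17)]⟩),
  (.cc 0,⟨false,[],(6,10),.mon 1 0 0,[(36,37),(8,37),(30,26),(36,29),(8,29)]⟩),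
  (.ca 0,⟨false,[],(34,30),.mon 1 0 0,[(4,5),(32,5),(10,14),(4,13),(32,13)]⟩),
  (.comm 7 0 0,⟨false,[],(34,2),.mon 3 0 0,[]⟩),
  (.rho 0,⟨false,[],(3,35),.mon 0 3 0,[]⟩),
  (.ca 0,⟨false,[],(3,7),.mon 0 3 0,[]⟩),
  (.cc 0,⟨false,[],(7,3),.mon 0 3 0,[]⟩),
  (.rho 0,⟨false,[],(2,6),.mon 3 0 0,[]⟩),
  (.ca 0,⟨false,[],(2,34),.mon 3 0 0,[]⟩),
  (.cc 0,⟨false,[],(6,10),.mon 3 0 0,[]⟩),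
  (.ca 0,⟨false,[],(34,30),.mon 3 0 0,[]⟩),
  (.rho 0,⟨false,[],(31,35),.mon 0 3 0,[]⟩),
  (.cc 0,⟨false,[],(15,11),.mon 0 3 0,[]⟩),
  (.rho 0,⟨false,[],(10,14),.mon 3 0 0,[]⟩),
  (.ca 0,⟨false,[],(30,26),.mon 3 0 0,[]⟩),
  (.rho 0,⟨false,[],(27,31),.mon 0 3 0,[]⟩),
  (.cc 0,⟨false,[],(19,15),.mon 0 3 0,[]⟩),
  (.rho 0,⟨false,[],(14,18),.mon 3 0 0,[]⟩),
  (.ca 0,⟨false,[],(26,22),.mon 3 0 0,[]⟩),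
  (.rho 0,⟨false,[],(23,27),.mon 0 3 0,[]⟩),
  (.rho 0,⟨false,[],(26,22),.mon 3 0 0,[]⟩),
  (.comm 34 0 0,⟨false,[],(26,36),.mon 3 0 0,[]⟩),
  (.ca 0,⟨false,[],(14,4),.mon 3 0 0,[]⟩),
  (.rho 0,⟨false,[],(5,15),.mon 0 3 0,[]⟩),
  (.comm 14 16 0,⟨false,[],(2,10),.mon 6 0 0,[]⟩),
  (.comm 11 0 0,⟨false,[],(2,14),.mon 9 0 0,[]⟩),
  (.rho 0,⟨false,[],(15,3),.mon 0 9 0,[]⟩),
  (.comm 3 0 0,⟨false,[],(5,3),.mon 0 12 0,[]⟩),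
  (.rho 0,⟨false,[],(2,4),.mon 12 0 0,[]⟩),
  (.rho 0,⟨false,[],(5,3),.mon 0 12 0,[]⟩),
  (.rho 25,⟨false,[],(34,2),.mon 3 0 0,[]⟩),
  (.comm 23 0 0,⟨false,[],(34,6),.mon 6 0 0,[]⟩),
  (.rho 0,⟨false,[],(7,35),.mon 0 6 0,[]⟩),
  (.rho 0,⟨false,[],(34,6),.mon 6 0 0,[]⟩),
  (.comm 46 0 0,⟨false,[],(8,6),.mon 7 0 0,[]⟩),
  (.rho 0,⟨false,[],(7,9),.mon 0 7 0,[]⟩),
  (.cc 0,⟨false,[],(3,37),.mon 0 7 0,[]⟩),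
  (.ca 0,⟨false,[],(3,5),.mon 0 7 0,[]⟩),
  (.sI 8 0,⟨true,[],(3,35),.mon 0 19 0,[]⟩),
  (.comm 19 23 0,⟨false,[],(23,31),.mon 0 6 0,[]⟩),
  (.rho 0,⟨false,[],(30,22),.mon 6 0 0,[]⟩),
  (.comm 54 0 0,⟨false,[],(30,36),.mon 6 0 0,[]⟩),
  (.ca 0,⟨false,[],(10,4),.mon 6 0 0,[]⟩),
  (.rho 0,⟨false,[],(5,11),.mon 0 6 0,[]⟩),
  (.cc 0,⟨false,[],(5,35),.mon 0 6 0,[]⟩),
  (.ca 0,⟨false,[],(37,7),.mon 0 6 0,[]⟩),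
  (.rho 0,⟨false,[],(6,36),.mon 6 0 0,[]⟩),
  (.cc 0,⟨false,[],(2,8),.mon 6 0 0,[]⟩),
  (.ca 0,⟨false,[],(2,32),.mon 6 0 0,[]⟩),
  (.rho 37,⟨false,[],(34,30),.mon 3 0 0,[]⟩),
  (.comm 62 0 0,⟨false,[],(8,30),.mon 4 0 0,[]⟩),
  (.cc 0,⟨false,[],(36,14),.mon 4 0 0,[]⟩),
  (.rho 0,⟨false,[],(15,37),.mon 0 4 0,[]⟩),
  (.ca 0,⟨false,[],(27,5),.mon 0 4 0,[]⟩),
  (.rho 0,⟨false,[],(4,26),.mon 4 0 0,[]⟩),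
  (.cc 0,⟨false,[],(4,18),.mon 4 0 0,[]⟩),
  (.ca 0,⟨false,[],(36,22),.mon 4 0 0,[]⟩),
  (.rho 0,⟨false,[],(23,37),.mon 0 4 0,[]⟩),
  (.cc 0,⟨false,[],(23,9),.mon 0 4 0,[]⟩),
  (.rho 0,⟨false,[],(8,22),.mon 4 0 0,[]⟩),
  (.comm 73 0 0,⟨false,[],(8,36),.mon 4 0 0,[]⟩),
  (.ca 0,⟨false,[],(32,4),.mon 4 0 0,[]⟩),
  (.rho 0,⟨false,[],(5,33),.mon 0 4 0,[]⟩),
  (.rho 0,⟨false,[],(32,4),.mon 4 0 0,[]⟩),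
  (.comm 15 0 0,⟨false,[],(2,4),.mon 10 0 0,[]⟩),
  (.rho 0,⟨false,[],(5,3),.mon 0 10 0,[]⟩),
  (.sI 0 28,⟨true,[],(3,35),.mon 0 17 0,[]⟩),
  (.sN 0,⟨true,[],(3,35),.mon 0 (-17) 0,[]⟩),
  (.sA 29 0,⟨true,[],(3,35),.mon 0 2 0,[]⟩),
  (.sF 0 64,⟨false,[],(3,35),.all,[]⟩),
  (.rho 41,⟨false,[],(5,3),.mon 0 12 0,[]⟩),
  (.comm 1 0 0,⟨false,[],(5,35),.all,[]⟩),
  (.rho 63,⟨false,[],(35,3),.mon 0 3 0,[]⟩),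
  (.comm 1 0 0,⟨false,[],(5,3),.all,[]⟩),
  (.cc 69,⟨false,[],(7,11),.mon 0 3 0,[]⟩),
  (.ca 0,⟨false,[],(35,31),.mon 0 3 0,[]⟩),
  (.rho 0,⟨false,[],(30,34),.mon 3 0 0,[]⟩),
  (.comm 26 0 0,⟨false,[],(8,34),.mon 7 0 0,[]⟩),
  (.rho 0,⟨false,[],(35,9),.mon 0 7 0,[]⟩),
  (.comm 9 0 0,⟨false,[],(3,9),.all,[]⟩),
  (.rho 0,⟨false,[],(8,2),.all,[]⟩),
  (.base 0,⟨false,[],(2,25),.mon 0 0 0,[(3,25),(0,25),(29,28),(8,34),(22,36),(18,4),(32,6),(13,12),(0,17),(3,17),(2,17)]⟩),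
  (.comm 1 0 0,⟨false,[],(8,25),.all,[(8,17)]⟩),
  (.cc 6,⟨false,[],(14,10),.mon 3 0 0,[]⟩),
  (.rho 0,⟨false,[],(11,15),.mon 0 3 0,[]⟩),
  (.ca 0,⟨false,[],(31,27),.mon 0 3 0,[]⟩),
  (.rho 0,⟨false,[],(26,30),.mon 3 0 0,[]⟩),
  (.cc 0,⟨false,[],(18,14),.mon 3 0 0,[]⟩),
  (.rho 0,⟨false,[],(15,19),.mon 0 3 0,[]⟩),
  (.ca 0,⟨false,[],(27,23),.mon 0 3 0,[]⟩),
  (.rho 0,⟨false,[],(22,26),.mon 3 0 0,[]⟩),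
  (.cc 0,⟨false,[],(22,18),.mon 3 0 0,[]⟩),
  (.rho 0,⟨false,[],(19,23),.mon 0 3 0,[]⟩),
  (.ca 0,⟨false,[],(23,19),.mon 0 3 0,[]⟩),
  (.rho 0,⟨false,[],(18,22),.mon 3 0 0,[]⟩),
  (.comm 0 77 0,⟨false,[],(14,22),.mon 6 0 0,[]⟩),
  (.comm 109 0 0,⟨false,[],(14,36),.mon 6 0 0,[]⟩),
  (.cc 0,⟨false,[],(30,8),.mon 6 0 0,[]⟩),
  (.rho 0,⟨false,[],(9,31),.mon 0 6 0,[]⟩),
  (.ca 0,⟨false,[],(33,11),.mon 0 6 0,[]⟩),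
  (.rho 0,⟨false,[],(10,32),.mon 6 0 0,[]⟩),
  (.cc 0,⟨false,[],(34,12),.mon 6 0 0,[]⟩),
  (.rho 0,⟨false,[],(13,35),.mon 0 6 0,[]⟩),
  (.ca 0,⟨false,[],(29,7),.mon 0 6 0,[]⟩),
  (.rho 0,⟨false,[],(6,28),.mon 6 0 0,[]⟩),
  (.cc 0,⟨false,[],(2,16),.mon 6 0 0,[]⟩),
  (.ca 0,⟨false,[],(2,24),.mon 6 0 0,[]⟩),
  (.rho 0,⟨false,[],(25,3),.mon 0 6 0,[]⟩),
  (.comm 38 0 0,⟨false,[],(25,35),.all,[]⟩),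
  (.rho 100,⟨false,[],(35,3),.mon 0 3 0,[]⟩),
  (.comm 1 0 0,⟨false,[],(25,3),.all,[]⟩),
  (.spec 0,⟨false,[],(25,3),.mon 0 0 0,[]⟩),
  (.comm 29 0 0,⟨false,[],(8,3),.all,[]⟩),
  (.rho 104,⟨false,[],(35,3),.mon 0 3 0,[]⟩),
  (.comm 76 0 0,⟨false,[],(35,5),.mon 0 10 0,[]⟩),
  (.rho 0,⟨false,[],(4,34),.mon 10 0 0,[]⟩),
  (.rho 0,⟨false,[],(35,5),.mon 0 10 0,[]⟩),
  (.comm 47 0 0,⟨false,[],(3,5),.all,[]⟩),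
  (.comm 131 23 0,⟨false,[],(18,36),.mon 3 0 0,[]⟩),
  (.cc 0,⟨false,[],(26,8),.mon 3 0 0,[]⟩),
  (.rho 0,⟨false,[],(9,27),.mon 0 3 0,[]⟩),
  (.rho 112,⟨false,[],(35,3),.mon 0 3 0,[]⟩),
  (.comm 110 0 0,⟨false,[],(31,3),.mon 0 6 0,[]⟩),
  (.rho 0,⟨false,[],(2,30),.mon 6 0 0,[]⟩),
  (.rho 0,⟨false,[],(31,3),.mon 0 6 0,[]⟩),
  (.comm 109 0 0,⟨false,[],(27,3),.mon 0 9 0,[]⟩),
  (.rho 0,⟨false,[],(2,26),.mon 9 0 0,[]⟩),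
  (.rho 0,⟨false,[],(27,3),.mon 0 9 0,[]⟩),
  (.comm 7 0 0,⟨false,[],(9,3),.mon 0 12 0,[]⟩),
  (.rho 0,⟨false,[],(2,8),.mon 12 0 0,[]⟩),
  (.rho 0,⟨false,[],(9,3),.mon 0 12 0,[]⟩),
  (.comm 13 0 0,⟨false,[],(9,5),.all,[]⟩),
  (.rho 0,⟨false,[],(4,8),.all,[]⟩),
  (.spec 0,⟨false,[],(4,8),.mon 0 0 0,[]⟩),
  (.comm 21 0 0,⟨false,[],(4,3),.all,[]⟩),
  (.ca 99,⟨false,[],(35,33),.mon 0 7 0,[]⟩),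
  (.rho 0,⟨false,[],(32,34),.mon 7 0 0,[]⟩),
  (.cc 0,⟨false,[],(12,10),.mon 7 0 0,[]⟩),
  (.rho 0,⟨false,[],(11,13),.mon 0 7 0,[]⟩),
  (.ca 0,⟨false,[],(31,29),.mon 0 7 0,[]⟩),
  (.rho 0,⟨false,[],(28,30),.mon 7 0 0,[]⟩),
  (.comm 0 64 0,⟨false,[],(28,34),.mon 10 0 0,[]⟩),
  (.rho 0,⟨false,[],(35,29),.mon 0 10 0,[]⟩),
  (.comm 73 0 0,⟨false,[],(3,29),.all,[]⟩),
  (.rho 115,⟨false,[],(5,3),.mon 0 12 0,[]⟩),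
  (.comm 1 0 0,⟨false,[],(5,29),.all,[]⟩),
  (.base 3,⟨false,[],(29,28),.mon 0 0 0,[(2,25),(3,25),(0,25),(8,34),(22,36),(18,4),(32,6),(13,12),(0,17),(3,17),(2,17)]⟩),
  (.comm 1 0 2,⟨false,[],(5,28),.all,[(5,4)]⟩),
  (.rho 4,⟨false,[],(28,2),.all,[]⟩),
  (.spec 0,⟨false,[],(28,2),.mon 0 0 0,[]⟩),
  (.comm 2 0 0,⟨false,[],(5,2),.all,[]⟩),
  (.cc 81,⟨false,[],(7,11),.all,[]⟩),
  (.cc 114,⟨false,[],(7,5),.mon 0 7 0,[]⟩),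
  (.rho 0,⟨false,[],(4,6),.mon 7 0 0,[]⟩),
  (.comm 0 144 0,⟨false,[],(4,10),.mon 10 0 0,[]⟩),
  (.rho 0,⟨false,[],(11,5),.mon 0 10 0,[]⟩),
  (.comm 4 0 0,⟨false,[],(7,5),.all,[]⟩),
  (.rho 50,⟨false,[],(25,3),.mon 0 6 0,[]⟩),
  (.comm 40 0 0,⟨false,[],(25,5),.all,[]⟩),
  (.spec 0,⟨false,[],(25,5),.mon 0 0 0,[]⟩),
  (.comm 77 0 0,⟨false,[],(8,5),.all,[]⟩),
  (.ca 91,⟨false,[],(3,7),.all,[]⟩),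
  (.rho 32,⟨false,[],(9,3),.mon 0 12 0,[]⟩),
  (.comm 1 0 0,⟨false,[],(9,7),.all,[]⟩),
  (.rho 0,⟨false,[],(6,8),.all,[]⟩),
  (.spec 0,⟨false,[],(6,8),.mon 0 0 0,[]⟩),
  (.comm 5 0 0,⟨false,[],(6,5),.all,[]⟩),
  (.comm 151 155 0,⟨false,[],(27,35),.mon 0 6 0,[]⟩),
  (.rho 0,⟨false,[],(34,26),.mon 6 0 0,[]⟩),
  (.comm 181 0 0,⟨false,[],(8,26),.mon 7 0 0,[]⟩),
  (.ca 0,⟨false,[],(32,14),.mon 7 0 0,[]⟩),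
  (.rho 0,⟨false,[],(15,33),.mon 0 7 0,[]⟩),
  (.cc 0,⟨false,[],(31,13),.mon 0 7 0,[]⟩),
  (.rho 0,⟨false,[],(12,30),.mon 7 0 0,[]⟩),
  (.ca 0,⟨false,[],(28,10),.mon 7 0 0,[]⟩),
  (.rho 0,⟨false,[],(11,29),.mon 0 7 0,[]⟩),
  (.comm 24 0 0,⟨false,[],(7,29),.all,[]⟩),
  (.rho 0,⟨false,[],(28,6),.all,[]⟩),
  (.spec 0,⟨false,[],(28,6),.mon 0 0 0,[]⟩),
  (.comm 31 0 0,⟨false,[],(5,6),.all,[]⟩),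
  (.rho 151,⟨false,[],(5,3),.mon 0 12 0,[]⟩),
  (.comm 19 0 0,⟨false,[],(5,7),.all,[]⟩),
  (.rho 52,⟨false,[],(9,3),.mon 0 12 0,[]⟩),
  (.comm 113 0 0,⟨false,[],(9,35),.all,[]⟩),
  (.rho 175,⟨false,[],(35,3),.mon 0 3 0,[]⟩),
  (.comm 1 0 0,⟨false,[],(9,3),.all,[]⟩),
  (.rho 0,⟨false,[],(2,8),.all,[]⟩),
  (.spec 0,⟨false,[],(2,8),.mon 0 0 0,[]⟩),
  (.comm 75 0 1,⟨false,[],(2,3),.all,[]⟩),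
  (.spec 71,⟨false,[],(3,5),.mon 0 0 0,[]⟩),
  (.comm 39 0 1,⟨false,[],(3,2),.all,[]⟩),
  (.base 2,⟨false,[],(0,25),.mon 0 0 0,[(2,25),(3,25),(29,28),(8,34),(22,36),(18,4),(32,6),(13,12),(0,17),(3,17),(2,17)]⟩),
  (.rho 85,⟨false,[],(25,3),.mon 0 6 0,[]⟩),
  (.comm 113 0 0,⟨false,[],(25,9),.all,[]⟩),
  (.comm 2 0 4,⟨false,[],(0,9),.all,[(24,9),(2,9),(3,9),(8,25),(8,17),(8,9)]⟩),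
  (.ca 144,⟨false,[],(32,10),.mon 4 0 0,[]⟩),
  (.rho 0,⟨false,[],(11,33),.mon 0 4 0,[]⟩),
  (.cc 0,⟨false,[],(35,13),.mon 0 4 0,[]⟩),
  (.rho 0,⟨false,[],(12,34),.mon 4 0 0,[]⟩),
  (.ca 0,⟨false,[],(28,6),.mon 4 0 0,[]⟩),
  (.rho 0,⟨false,[],(7,29),.mon 0 4 0,[]⟩),
  (.cc 0,⟨false,[],(3,17),.mon 0 4 0,[]⟩),
  (.ca 0,⟨false,[],(3,25),.mon 0 4 0,[]⟩),
  (.rho 194,⟨false,[],(35,3),.mon 0 3 0,[]⟩),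
  (.comm 1 0 0,⟨false,[],(35,25),.mon 0 7 0,[]⟩),
  (.rho 0,⟨false,[],(24,34),.mon 7 0 0,[]⟩),
  (.rho 0,⟨false,[],(35,25),.mon 0 7 0,[]⟩),
  (.comm 137 0 0,⟨false,[],(3,25),.all,[]⟩),
  (.spec 0,⟨false,[],(3,25),.mon 0 0 0,[]⟩),
  (.comm 96 0 0,⟨false,[],(8,25),.all,[]⟩),
  (.cc 34,⟨false,[],(35,17),.mon 0 7 0,[]⟩),
  (.rho 0,⟨false,[],(16,34),.mon 7 0 0,[]⟩),
  (.rho 0,⟨false,[],(35,17),.mon 0 7 0,[]⟩),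
  (.comm 143 0 0,⟨false,[],(3,17),.all,[]⟩),
  (.rho 107,⟨false,[],(25,3),.mon 0 6 0,[]⟩),
  (.comm 1 0 0,⟨false,[],(25,17),.all,[]⟩),
  (.spec 0,⟨false,[],(25,17),.mon 0 0 0,[]⟩),
  (.comm 134 0 0,⟨false,[],(8,17),.all,[]⟩),
  (.spec 24,⟨false,[],(25,9),.mon 0 0 0,[]⟩),
  (.comm 136 0 1,⟨false,[],(8,9),.all,[]⟩),
  (.drop 25 [10,107,140,10,2,0],⟨false,[],(0,9),.all,[]⟩),
  (.spec 35,⟨false,[],(9,3),.mon 0 0 0,[]⟩),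
  (.comm 1 0 2,⟨false,[],(0,3),.all,[(8,3)]⟩),
  (.drop 0 [110],⟨false,[],(0,3),.all,[]⟩),
  (.spec 92,⟨false,[],(9,5),.mon 0 0 0,[]⟩),
  (.comm 4 0 2,⟨false,[],(0,5),.all,[(8,5)]⟩),
  (.drop 0 [65],⟨false,[],(0,5),.all,[]⟩),
  (.spec 76,⟨false,[],(5,2),.mon 0 0 0,[]⟩),
  (.comm 1 0 2,⟨false,[],(0,2),.all,[(4,2)]⟩),
  (.drop 0 [111],⟨false,[],(0,2),.all,[]⟩)],
  [(156,156),(95,95),(79,79),(112,112),(112,112),(95,95),(79,79),(156,156),(73,73),(63,63),(50,50),(48,48),(48,48),(63,63),(50,50),(73,73),(41,41),(39,39),(6,41),(0,39)]⟩ = true := by decide +kernel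

theorem cXew : Fam.chkP .X 19 10 false true true false false
  ⟨[],[],[],[((15,13),some (0,0,0)),((18,16),some (0,0,0)),((30,31),some (0,0,0))],3,(0,21),(21,16),(0,16),(20,16),(1,0,0),[(27,29),(22,24),(10,11),(0,24),(20,24),(21,24)],
  [(.base 5,⟨false,[],(27,29),.mon 0 0 0,[(21,24),(20,24),(0,24),(10,11),(22,24),(15,13),(18,16),(30,31),(0,16),(20,16),(21,16)]⟩),
  (.cc 0,⟨false,[],(19,17),.mon 0 0 0,[(25,20),(24,20),(0,20),(34,35),(22,20),(31,33),(26,28),(14,15),(0,28),(24,28),(25,28)]⟩),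
  (.ca 0,⟨false,[],(23,25),.mon 0 0 0,[(17,20),(16,20),(0,20),(6,7),(18,20),(11,9),(14,12),(26,27),(0,12),(16,12),(17,12)]⟩),
  (.cc 0,⟨false,[],(23,21),.mon 0 0 0,[(29,24),(28,24),(0,24),(38,39),(26,24),(35,37),(30,32),(18,19),(0,32),(28,32),(29,32)]⟩),
  (.base 8,⟨false,[],(30,31),.mon 0 0 0,[(21,24),(20,24),(0,24),(10,11),(22,24),(27,29),(15,13),(18,16),(0,16),(20,16),(21,16)]⟩),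
  (.cc 0,⟨false,[],(14,15),.mon 0 0 0,[(25,20),(24,20),(0,20),(34,35),(22,20),(19,17),(31,33),(26,28),(0,28),(24,28),(25,28)]⟩),
  (.ca 0,⟨false,[],(26,27),.mon 0 0 0,[(17,20),(16,20),(0,20),(6,7),(18,20),(23,25),(11,9),(14,12),(0,12),(16,12),(17,12)]⟩),
  (.cc 0,⟨false,[],(18,19),.mon 0 0 0,[(29,24),(28,24),(0,24),(38,39),(26,24),(23,21),(35,37),(30,32),(0,32),(28,32),(29,32)]⟩),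
  (.ca 0,⟨false,[],(22,23),.mon 0 0 0,[(13,16),(12,16),(0,16),(2,3),(14,16),(19,21),(7,5),(10,8),(0,8),(12,8),(13,8)]⟩),
  (.comm 5 0 2,⟨false,[],(22,21),.mon 0 0 0,[(20,21),(17,24),(9,24),(18,21),(20,21),(17,32),(9,32)]⟩),
  (.base 0,⟨false,[],(21,24),.mon 1 0 0,[(20,24),(0,24),(10,11),(22,24),(27,29),(15,13),(18,16),(30,31),(0,16),(20,16),(21,16)]⟩),
  (.cc 0,⟨false,[],(25,20),.mon 1 0 0,[(24,20),(0,20),(34,35),(22,20),(19,17),(31,33),(26,28),(14,15),(0,28),(24,28),(25,28)]⟩),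
  (.ca 8,⟨false,[],(19,21),.mon 0 0 0,[(13,16),(12,16),(0,16),(2,3),(14,16),(7,5),(10,8),(22,23),(0,8),(12,8),(13,8)]⟩),
  (.rho 0,⟨false,[],(20,18),.mon 0 0 0,[(13,16),(12,16),(0,16),(2,3),(14,16),(7,5),(10,8),(22,23),(0,8),(12,8),(13,8)]⟩),
  (.comm 2 0 0,⟨false,[],(25,18),.mon 1 0 0,[(24,18),(0,18),(21,18),(17,20),(9,20),(22,18),(19,12),(19,13),(17,18),(19,15),(17,28),(9,28),(19,28),(19,8),(19,18)]⟩),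
  (.base 4,⟨false,[],(22,24),.mon 0 0 0,[(21,24),(20,24),(0,24),(10,11),(27,29),(15,13),(18,16),(30,31),(0,16),(20,16),(21,16)]⟩),
  (.rho 12,⟨false,[],(20,22),.mon 0 0 0,[(29,24),(28,24),(0,24),(38,39),(26,24),(35,37),(30,32),(18,19),(0,32),(28,32),(29,32)]⟩),
  (.comm 1 0 0,⟨false,[],(20,24),.mon 0 0 0,[(23,24),(25,24),(33,24),(27,24),(25,29),(27,32),(25,16),(33,16),(23,16)]⟩),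
  (.ca 0,⟨false,[],(20,16),.mon 0 0 0,[(19,16),(17,16),(9,16),(15,16),(17,13),(15,8),(17,24),(9,24),(19,24)]⟩),
  (.cc 0,⟨false,[],(24,28),.mon 0 0 0,[(27,28),(29,28),(37,28),(31,28),(29,33),(31,36),(29,20),(37,20),(27,20)]⟩),
  (.rho 0,⟨false,[],(29,25),.mon 0 0 0,[(27,28),(29,28),(37,28),(31,28),(29,33),(31,36),(29,20),(37,20),(27,20)]⟩),
  (.comm 6 0 0,⟨false,[],(29,18),.mon 1 0 0,[]⟩),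
  (.rho 0,⟨false,[],(19,28),.mon 0 1 0,[]⟩),
  (.ca 0,⟨false,[],(23,12),.mon 0 1 0,[]⟩),
  (.rho 0,⟨false,[],(13,22),.mon 1 0 0,[]⟩),
  (.comm 15 0 0,⟨false,[],(13,21),.mon 1 0 0,[]⟩),
  (.cc 0,⟨false,[],(33,25),.mon 1 0 0,[]⟩),
  (.rho 0,⟨false,[],(24,32),.mon 0 1 0,[]⟩),
  (.ca 0,⟨false,[],(16,8),.mon 0 1 0,[]⟩),
  (.rho 0,⟨false,[],(9,17),.mon 1 0 0,[]⟩),
  (.cc 0,⟨false,[],(37,29),.mon 1 0 0,[]⟩),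
  (.rho 0,⟨false,[],(28,36),.mon 0 1 0,[]⟩),
  (.ca 0,⟨false,[],(12,4),.mon 0 1 0,[]⟩),
  (.rho 0,⟨false,[],(5,13),.mon 1 0 0,[]⟩),
  (.ca 8,⟨false,[],(29,21),.mon 1 0 0,[]⟩),
  (.rho 0,⟨false,[],(20,28),.mon 0 1 0,[]⟩),
  (.cc 0,⟨false,[],(24,16),.mon 0 1 0,[]⟩),
  (.rho 0,⟨false,[],(17,25),.mon 1 0 0,[]⟩),
  (.ca 0,⟨false,[],(25,17),.mon 1 0 0,[]⟩),
  (.rho 0,⟨false,[],(16,24),.mon 0 1 0,[]⟩),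
  (.cc 0,⟨false,[],(28,20),.mon 0 1 0,[]⟩),
  (.rho 0,⟨false,[],(21,29),.mon 1 0 0,[]⟩),
  (.ca 0,⟨false,[],(21,13),.mon 1 0 0,[]⟩),
  (.rho 0,⟨false,[],(12,20),.mon 0 1 0,[]⟩),
  (.cc 0,⟨false,[],(32,24),.mon 0 1 0,[]⟩),
  (.rho 0,⟨false,[],(25,33),.mon 1 0 0,[]⟩),
  (.ca 0,⟨false,[],(17,9),.mon 1 0 0,[]⟩),
  (.rho 0,⟨false,[],(8,16),.mon 0 1 0,[]⟩),
  (.cc 0,⟨false,[],(36,28),.mon 0 1 0,[]⟩),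
  (.rho 0,⟨false,[],(29,37),.mon 1 0 0,[]⟩),
  (.ca 0,⟨false,[],(13,5),.mon 1 0 0,[]⟩),
  (.rho 0,⟨false,[],(4,12),.mon 0 1 0,[]⟩),
  (.rho 0,⟨false,[],(13,5),.mon 1 0 0,[]⟩),
  (.sI 19 0,⟨true,[],(13,21),.mon 2 0 0,[]⟩),
  (.sF 0 28,⟨false,[],(13,21),.all,[]⟩),
  (.cc 32,⟨false,[],(27,16),.mon 0 1 0,[]⟩),
  (.rho 0,⟨false,[],(17,26),.mon 1 0 0,[]⟩),
  (.ca 0,⟨false,[],(25,14),.mon 1 0 0,[]⟩),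
  (.rho 0,⟨false,[],(15,24),.mon 0 1 0,[]⟩),
  (.cc 0,⟨false,[],(31,20),.mon 0 1 0,[]⟩),
  (.rho 0,⟨false,[],(21,30),.mon 1 0 0,[]⟩),
  (.ca 0,⟨false,[],(21,10),.mon 1 0 0,[]⟩),
  (.rho 0,⟨false,[],(11,20),.mon 0 1 0,[]⟩),
  (.cc 0,⟨false,[],(35,24),.mon 0 1 0,[]⟩),
  (.rho 0,⟨false,[],(25,34),.mon 1 0 0,[]⟩),
  (.ca 0,⟨false,[],(17,6),.mon 1 0 0,[]⟩),
  (.rho 0,⟨false,[],(7,16),.mon 0 1 0,[]⟩),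
  (.cc 0,⟨false,[],(39,28),.mon 0 1 0,[]⟩),
  (.rho 0,⟨false,[],(29,38),.mon 1 0 0,[]⟩),
  (.comm 68 0 0,⟨false,[],(27,38),.mon 1 0 0,[]⟩),
  (.cc 0,⟨false,[],(19,6),.mon 1 0 0,[]⟩),
  (.rho 0,⟨false,[],(7,18),.mon 0 1 0,[]⟩),
  (.ca 0,⟨false,[],(35,22),.mon 0 1 0,[]⟩),
  (.rho 0,⟨false,[],(23,34),.mon 1 0 0,[]⟩),
  (.cc 0,⟨false,[],(23,10),.mon 1 0 0,[]⟩),
  (.rho 0,⟨false,[],(11,22),.mon 0 1 0,[]⟩),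
  (.comm 66 0 0,⟨false,[],(11,21),.mon 0 1 0,[]⟩),
  (.ca 0,⟨false,[],(31,21),.mon 0 1 0,[]⟩),
  (.rho 0,⟨false,[],(20,30),.mon 1 0 0,[]⟩),
  (.cc 0,⟨false,[],(24,14),.mon 1 0 0,[]⟩),
  (.rho 0,⟨false,[],(15,25),.mon 0 1 0,[]⟩),
  (.ca 0,⟨false,[],(27,17),.mon 0 1 0,[]⟩),
  (.rho 0,⟨false,[],(16,26),.mon 1 0 0,[]⟩),
  (.cc 0,⟨false,[],(28,18),.mon 1 0 0,[]⟩),
  (.rho 0,⟨false,[],(19,29),.mon 0 1 0,[]⟩),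
  (.ca 0,⟨false,[],(23,13),.mon 0 1 0,[]⟩),
  (.rho 0,⟨false,[],(12,22),.mon 1 0 0,[]⟩),
  (.rho 0,⟨false,[],(23,13),.mon 0 1 0,[]⟩),
  (.comm 33 0 0,⟨false,[],(23,21),.all,[]⟩),
  (.comm 47 63 0,⟨false,[],(13,29),.mon 2 0 0,[]⟩),
  (.rho 0,⟨false,[],(28,12),.mon 0 2 0,[]⟩),
  (.cc 66,⟨false,[],(33,22),.mon 1 0 0,[]⟩),
  (.rho 0,⟨false,[],(23,32),.mon 0 1 0,[]⟩),
  (.rho 0,⟨false,[],(33,22),.mon 1 0 0,[]⟩),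
  (.comm 84 0 0,⟨false,[],(33,21),.mon 1 0 0,[]⟩),
  (.rho 0,⟨false,[],(20,32),.mon 0 1 0,[]⟩),
  (.cc 0,⟨false,[],(24,12),.mon 0 1 0,[]⟩),
  (.rho 0,⟨false,[],(13,25),.mon 1 0 0,[]⟩),
  (.ca 0,⟨false,[],(29,17),.mon 1 0 0,[]⟩),
  (.rho 0,⟨false,[],(16,28),.mon 0 1 0,[]⟩),
  (.cc 0,⟨false,[],(28,16),.mon 0 1 0,[]⟩),
  (.rho 0,⟨false,[],(17,29),.mon 1 0 0,[]⟩),
  (.ca 0,⟨false,[],(25,13),.mon 1 0 0,[]⟩),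
  (.rho 0,⟨false,[],(12,24),.mon 0 1 0,[]⟩),
  (.rho 66,⟨false,[],(24,16),.mon 0 1 0,[]⟩),
  (.comm 5 0 0,⟨false,[],(24,28),.mon 0 2 0,[]⟩),
  (.comm 2 0 0,⟨false,[],(12,28),.mon 0 3 0,[]⟩),
  (.sI 16 0,⟨true,[],(19,28),.mon 0 5 0,[]⟩),
  (.ca 12,⟨false,[],(20,8),.mon 0 1 0,[]⟩),
  (.rho 0,⟨false,[],(9,21),.mon 1 0 0,[]⟩),
  (.cc 0,⟨false,[],(37,25),.mon 1 0 0,[]⟩),
  (.rho 0,⟨false,[],(24,36),.mon 0 1 0,[]⟩),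
  (.ca 0,⟨false,[],(16,4),.mon 0 1 0,[]⟩),
  (.rho 0,⟨false,[],(5,17),.mon 1 0 0,[]⟩),
  (.comm 12 0 0,⟨false,[],(5,29),.mon 2 0 0,[]⟩),
  (.rho 0,⟨false,[],(28,4),.mon 0 2 0,[]⟩),
  (.cc 12,⟨false,[],(32,20),.mon 0 1 0,[]⟩),
  (.rho 0,⟨false,[],(21,33),.mon 1 0 0,[]⟩),
  (.ca 0,⟨false,[],(21,9),.mon 1 0 0,[]⟩),
  (.rho 0,⟨false,[],(8,20),.mon 0 1 0,[]⟩),
  (.cc 0,⟨false,[],(36,24),.mon 0 1 0,[]⟩),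
  (.rho 0,⟨false,[],(25,37),.mon 1 0 0,[]⟩),
  (.ca 0,⟨false,[],(17,5),.mon 1 0 0,[]⟩),
  (.rho 0,⟨false,[],(4,16),.mon 0 1 0,[]⟩),
  (.comm 0 24 0,⟨false,[],(4,28),.mon 0 2 0,[]⟩),
  (.sI 9 0,⟨true,[],(19,28),.mon 0 4 0,[]⟩),
  (.sN 0,⟨true,[],(19,28),.mon 0 (-4) 0,[]⟩),
  (.sA 19 0,⟨true,[],(19,28),.mon 0 1 0,[]⟩),
  (.sF 0 105,⟨false,[],(19,28),.all,[]⟩),
  (.cc 0,⟨false,[],(27,16),.all,[]⟩),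
  (.rho 56,⟨false,[],(35,22),.mon 0 1 0,[]⟩),
  (.comm 121 0 0,⟨false,[],(35,21),.mon 0 1 0,[]⟩),
  (.rho 0,⟨false,[],(20,34),.mon 1 0 0,[]⟩),
  (.cc 0,⟨false,[],(24,10),.mon 1 0 0,[]⟩),
  (.rho 0,⟨false,[],(11,25),.mon 0 1 0,[]⟩),
  (.rho 0,⟨false,[],(24,10),.mon 1 0 0,[]⟩),
  (.comm 96 0 0,⟨false,[],(16,10),.mon 1 1 0,[]⟩),
  (.rho 0,⟨false,[],(11,17),.mon 1 1 0,[]⟩),
  (.rho 0,⟨false,[],(16,10),.mon 1 1 0,[]⟩),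
  (.comm 9 0 0,⟨false,[],(27,10),.all,[]⟩),
  (.base 3,⟨false,[],(10,11),.mon 0 0 0,[(21,24),(20,24),(0,24),(22,24),(27,29),(15,13),(18,16),(30,31),(0,16),(20,16),(21,16)]⟩),
  (.comm 1 0 2,⟨false,[],(27,11),.all,[(27,26)]⟩),
  (.comm 12 59 1,⟨false,[],(27,26),.all,[]⟩),
  (.drop 1 [0],⟨false,[],(27,11),.all,[]⟩),
  (.cc 0,⟨false,[],(19,35),.all,[]⟩),
  (.ca 0,⟨false,[],(23,7),.all,[]⟩),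
  (.cc 0,⟨false,[],(23,39),.all,[]⟩),
  (.ca 17,⟨false,[],(15,24),.all,[]⟩),
  (.cc 0,⟨false,[],(31,20),.all,[]⟩),
  (.ca 0,⟨false,[],(11,20),.all,[]⟩),
  (.ca 17,⟨false,[],(20,6),.mon 1 0 0,[]⟩),
  (.rho 0,⟨false,[],(7,21),.mon 0 1 0,[]⟩),
  (.rho 0,⟨false,[],(20,6),.mon 1 0 0,[]⟩),
  (.comm 3 0 0,⟨false,[],(11,6),.all,[]⟩),
  (.comm 0 13 2,⟨false,[],(10,6),.all,[(7,6)]⟩),
  (.cc 5,⟨false,[],(35,24),.all,[]⟩),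
  (.ca 0,⟨false,[],(7,16),.all,[]⟩),
  (.cc 80,⟨false,[],(35,25),.mon 0 1 0,[]⟩),
  (.rho 0,⟨false,[],(24,34),.mon 1 0 0,[]⟩),
  (.ca 0,⟨false,[],(16,6),.mon 1 0 0,[]⟩),
  (.rho 0,⟨false,[],(7,17),.mon 0 1 0,[]⟩),
  (.rho 0,⟨false,[],(16,6),.mon 1 0 0,[]⟩),
  (.comm 5 0 1,⟨false,[],(7,6),.all,[]⟩),
  (.drop 8 [0],⟨false,[],(10,6),.all,[]⟩),
  (.cc 0,⟨false,[],(34,38),.all,[]⟩),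
  (.ca 0,⟨false,[],(6,2),.all,[]⟩),
  (.rho 130,⟨false,[],(29,21),.mon 1 0 0,[]⟩),
  (.comm 65 0 0,⟨false,[],(17,21),.mon 2 0 0,[]⟩),
  (.cc 16,⟨false,[],(39,25),.mon 0 1 0,[]⟩),
  (.rho 0,⟨false,[],(24,38),.mon 1 0 0,[]⟩),
  (.ca 0,⟨false,[],(16,2),.mon 1 0 0,[]⟩),
  (.rho 0,⟨false,[],(3,17),.mon 0 1 0,[]⟩),
  (.comm 4 0 0,⟨false,[],(3,21),.mon 2 1 0,[]⟩),
  (.rho 0,⟨false,[],(20,2),.mon 1 2 0,[]⟩),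
  (.comm 24 0 0,⟨false,[],(11,2),.all,[]⟩),
  (.comm 0 34 2,⟨false,[],(10,2),.all,[(3,2)]⟩),
  (.cc 19,⟨false,[],(39,28),.all,[]⟩),
  (.ca 0,⟨false,[],(3,12),.all,[]⟩),
  (.cc 17,⟨false,[],(39,29),.mon 0 1 0,[]⟩),
  (.rho 0,⟨false,[],(28,38),.mon 1 0 0,[]⟩),
  (.ca 0,⟨false,[],(12,2),.mon 1 0 0,[]⟩),
  (.rho 0,⟨false,[],(3,13),.mon 0 1 0,[]⟩),
  (.rho 0,⟨false,[],(12,2),.mon 1 0 0,[]⟩),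
  (.comm 5 0 1,⟨false,[],(3,2),.all,[]⟩),
  (.drop 8 [0],⟨false,[],(10,2),.all,[]⟩),
  (.comm 35 52 0,⟨false,[],(11,34),.all,[]⟩),
  (.comm 0 45 2,⟨false,[],(10,34),.all,[(35,34)]⟩),
  (.comm 31 28 1,⟨false,[],(35,34),.all,[]⟩),
  (.drop 1 [0],⟨false,[],(10,34),.all,[]⟩),
  (.cc 0,⟨false,[],(34,10),.all,[]⟩),
  (.cN 5 1 0,⟨false,[],(34,2),.all,[]⟩),
  (.ca 0,⟨false,[],(6,38),.all,[]⟩),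
  (.cc 0,⟨false,[],(38,6),.all,[]⟩),
  (.cN 27 1 0,⟨false,[],(38,2),.all,[]⟩),
  (.ca 0,⟨false,[],(2,38),.all,[]⟩),
  (.cN 48 1 0,⟨false,[],(23,3),.all,[]⟩),
  (.rho 0,⟨false,[],(2,22),.all,[]⟩),
  (.comm 0 187 0,⟨false,[],(2,21),.all,[]⟩),
  (.ca 13,⟨false,[],(30,38),.all,[]⟩),
  (.ca 55,⟨false,[],(15,31),.all,[]⟩),
  (.cc 0,⟨false,[],(31,15),.all,[]⟩),
  (.cN 2 1 0,⟨false,[],(14,38),.all,[]⟩),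
  (.ca 0,⟨false,[],(26,2),.all,[]⟩),
  (.comm 161 126 0,⟨false,[],(11,29),.mon 1 1 0,[]⟩),
  (.rho 0,⟨false,[],(28,10),.mon 1 1 0,[]⟩),
  (.comm 76 0 0,⟨false,[],(19,10),.all,[]⟩),
  (.comm 0 65 2,⟨false,[],(19,11),.all,[(19,18),(17,10),(17,11),(17,16),(19,16)]⟩),
  (.rho 122,⟨false,[],(28,18),.mon 1 0 0,[]⟩),
  (.comm 79 0 1,⟨false,[],(19,18),.all,[]⟩),
  (.rho 41,⟨false,[],(20,16),.mon 0 2 0,[]⟩),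
  (.comm 60 0 0,⟨false,[],(11,16),.all,[]⟩),
  (.comm 0 70 2,⟨false,[],(10,16),.all,[(17,16)]⟩),
  (.comm 182 174 0,⟨false,[],(9,25),.mon 2 0 0,[]⟩),
  (.rho 187,⟨false,[],(20,12),.mon 0 1 0,[]⟩),
  (.comm 110 0 0,⟨false,[],(20,24),.mon 0 2 0,[]⟩),
  (.comm 95 0 0,⟨false,[],(8,24),.mon 0 3 0,[]⟩),
  (.rho 0,⟨false,[],(25,9),.mon 3 0 0,[]⟩),
  (.sI 4 0,⟨true,[],(25,32),.mon 5 0 0,[]⟩),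
  (.comm 104 180 0,⟨false,[],(5,25),.mon 2 0 0,[]⟩),
  (.comm 95 179 0,⟨false,[],(4,24),.mon 0 2 0,[]⟩),
  (.rho 0,⟨false,[],(25,5),.mon 2 0 0,[]⟩),
  (.sI 2 0,⟨true,[],(25,32),.mon 4 0 0,[]⟩),
  (.sN 0,⟨true,[],(25,32),.mon (-4) 0 0,[]⟩),
  (.sA 5 0,⟨true,[],(25,32),.mon 1 0 0,[]⟩),
  (.rho 131,⟨false,[],(33,22),.mon 1 0 0,[]⟩),
  (.comm 209 0 0,⟨false,[],(33,24),.mon 1 0 0,[]⟩),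
  (.rho 0,⟨false,[],(25,32),.mon 0 1 0,[]⟩),
  (.sF 3 0,⟨false,[],(25,32),.all,[]⟩),
  (.ca 0,⟨false,[],(17,8),.all,[]⟩),
  (.comm 0 181 1,⟨false,[],(17,16),.all,[]⟩),
  (.drop 18 [0],⟨false,[],(10,16),.all,[]⟩),
  (.rho 129,⟨false,[],(28,16),.mon 0 1 0,[]⟩),
  (.comm 103 0 0,⟨false,[],(19,16),.all,[]⟩),
  (.drop 26 [24,22,2,3,0],⟨false,[],(19,11),.all,[]⟩),
  (.ca 0,⟨false,[],(23,31),.all,[]⟩),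
  (.cc 0,⟨false,[],(23,15),.all,[]⟩),
  (.ca 0,⟨false,[],(19,27),.all,[]⟩),
  (.cc 0,⟨false,[],(27,19),.all,[]⟩),
  (.cN 35 1 0,⟨false,[],(18,2),.all,[]⟩),
  (.rho 104,⟨false,[],(24,10),.mon 1 0 0,[]⟩),
  (.comm 92 0 0,⟨false,[],(15,10),.all,[]⟩),
  (.comm 0 100 2,⟨false,[],(15,11),.all,[(15,14)]⟩),
  (.rho 161,⟨false,[],(24,14),.mon 1 0 0,[]⟩),
  (.comm 95 0 1,⟨false,[],(15,14),.all,[]⟩),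
  (.drop 2 [0],⟨false,[],(15,11),.all,[]⟩),
  (.ca 0,⟨false,[],(27,31),.all,[]⟩),
  (.cc 0,⟨false,[],(19,15),.all,[]⟩),
  (.ca 0,⟨false,[],(23,27),.all,[]⟩),
  (.cc 0,⟨false,[],(23,19),.all,[]⟩),
  (.ca 0,⟨false,[],(19,23),.all,[]⟩),
  (.cN 11 1 0,⟨false,[],(22,2),.all,[]⟩),
  (.spec 0,⟨false,[],(22,2),.mon 0 0 0,[]⟩),
  (.comm 54 0 0,⟨false,[],(22,21),.all,[]⟩),
  (.ca 124,⟨false,[],(23,12),.all,[]⟩),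
  (.comm 0 210 0,⟨false,[],(23,20),.all,[]⟩),
  (.ca 24,⟨false,[],(30,24),.all,[]⟩),
  (.cc 0,⟨false,[],(14,20),.all,[]⟩),
  (.ca 0,⟨false,[],(26,20),.all,[]⟩),
  (.cN 0 21 20,⟨false,[],(18,20),.all,[]⟩),
  (.ca 0,⟨false,[],(22,20),.all,[]⟩),
  (.rho 150,⟨false,[],(20,8),.mon 0 1 0,[]⟩),
  (.comm 111 0 0,⟨false,[],(11,8),.all,[]⟩),
  (.comm 0 121 2,⟨false,[],(10,8),.all,[(9,8)]⟩),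
  (.comm 34 233 1,⟨false,[],(9,8),.all,[]⟩),
  (.drop 1 [0],⟨false,[],(10,8),.all,[]⟩),
  (.ca 0,⟨false,[],(30,32),.all,[]⟩),
  (.cc 0,⟨false,[],(14,12),.all,[]⟩),
  (.ca 0,⟨false,[],(26,28),.all,[]⟩),
  (.cc 0,⟨false,[],(18,16),.all,[]⟩),
  (.ca 0,⟨false,[],(22,24),.all,[]⟩),
  (.cc 215,⟨false,[],(33,25),.all,[]⟩),
  (.cc 184,⟨false,[],(32,22),.mon 1 0 0,[]⟩),
  (.rho 0,⟨false,[],(23,33),.mon 0 1 0,[]⟩),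
  (.comm 2 0 0,⟨false,[],(23,25),.all,[]⟩),
  (.rho 0,⟨false,[],(24,22),.all,[]⟩),
  (.comm 0 265 0,⟨false,[],(24,21),.all,[(17,22),(9,22),(17,21),(9,21)]⟩),
  (.rho 238,⟨false,[],(24,16),.mon 0 1 0,[]⟩),
  (.comm 173 0 0,⟨false,[],(12,16),.mon 0 2 0,[]⟩),
  (.comm 24 0 0,⟨false,[],(23,16),.all,[]⟩),
  (.rho 66,⟨false,[],(24,8),.mon 0 2 0,[]⟩),
  (.comm 176 0 0,⟨false,[],(12,8),.mon 0 3 0,[]⟩),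
  (.rho 0,⟨false,[],(9,13),.mon 3 0 0,[]⟩),
  (.rho 0,⟨false,[],(12,8),.mon 0 3 0,[]⟩),
  (.comm 29 0 0,⟨false,[],(23,8),.all,[]⟩),
  (.rho 6,⟨false,[],(17,13),.mon 2 0 0,[]⟩),
  (.comm 230 0 0,⟨false,[],(17,21),.all,[]⟩),
  (.comm 231 4 0,⟨false,[],(9,21),.all,[]⟩),
  (.drop 11 [8,3,1,0],⟨false,[],(24,21),.all,[]⟩),
  (.rho 28,⟨false,[],(21,23),.all,[]⟩),
  (.spec 0,⟨false,[],(21,23),.mon 0 0 0,[]⟩),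
  (.comm 2 0 0,⟨false,[],(24,23),.all,[]⟩),
  (.comm 37 187 0,⟨false,[],(23,24),.all,[]⟩),
  (.rho 203,⟨false,[],(20,22),.all,[]⟩),
  (.comm 0 283 1,⟨false,[],(20,21),.all,[]⟩),
  (.cc 66,⟨false,[],(21,12),.all,[]⟩),
  (.comm 0 251 1,⟨false,[],(21,20),.all,[]⟩),
  (.base 2,⟨false,[],(0,24),.mon 1 0 0,[(21,24),(20,24),(10,11),(22,24),(27,29),(15,13),(18,16),(30,31),(0,16),(20,16),(21,16)]⟩),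
  (.comm 124 179 0,⟨false,[],(3,33),.mon 3 1 0,[]⟩),
  (.comm 27 0 0,⟨false,[],(3,25),.all,[]⟩),
  (.rho 0,⟨false,[],(24,2),.all,[]⟩),
  (.comm 3 0 4,⟨false,[],(0,2),.all,[(25,2),(21,2),(20,2),(22,2),(3,24),(3,16),(3,2)]⟩),
  (.comm 123 197 0,⟨false,[],(3,24),.all,[]⟩),
  (.comm 124 258 0,⟨false,[],(3,20),.all,[]⟩),
  (.comm 248 121 0,⟨false,[],(3,21),.all,[]⟩),
  (.comm 126 26 0,⟨false,[],(3,16),.all,[]⟩),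
  (.drop 4 [3,2,1,54,3,0,121],⟨false,[],(0,2),.all,[]⟩),
  (.rho 110,⟨false,[],(2,22),.all,[]⟩),
  (.spec 0,⟨false,[],(2,22),.mon 0 0 0,[]⟩),
  (.comm 2 0 2,⟨false,[],(0,22),.all,[(3,22)]⟩),
  (.rho 127,⟨false,[],(12,2),.mon 1 0 0,[]⟩),
  (.comm 56 0 0,⟨false,[],(23,2),.all,[]⟩),
  (.drop 2 [0],⟨false,[],(0,22),.all,[]⟩),
  (.comm 0 302 2,⟨false,[],(0,21),.all,[(23,21)]⟩),
  (.drop 0 [224],⟨false,[],(0,21),.all,[]⟩),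
  (.comm 164 278 0,⟨false,[],(11,28),.all,[]⟩),
  (.comm 0 174 2,⟨false,[],(10,28),.all,[(29,28),(11,26),(10,26),(27,26),(27,28)]⟩),
  (.rho 280,⟨false,[],(29,21),.mon 1 0 0,[]⟩),
  (.comm 199 0 0,⟨false,[],(29,33),.mon 2 0 0,[]⟩),
  (.rho 290,⟨false,[],(33,25),.mon 1 0 0,[]⟩),
  (.comm 91 0 1,⟨false,[],(33,32),.all,[]⟩),
  (.comm 2 0 5,⟨false,[],(29,28),.all,[(29,32)]⟩),
  (.rho 215,⟨false,[],(29,25),.mon 2 0 0,[]⟩),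
  (.comm 94 0 0,⟨false,[],(29,32),.all,[]⟩),
  (.drop 2 [0],⟨false,[],(29,28),.all,[]⟩),
  (.comm 194 224 0,⟨false,[],(27,28),.all,[]⟩),
  (.drop 9 [1,185,181,182,0],⟨false,[],(10,28),.all,[]⟩),
  (.cc 0,⟨false,[],(34,16),.all,[]⟩),
  (.ca 0,⟨false,[],(6,24),.all,[]⟩),
  (.cc 0,⟨false,[],(38,20),.all,[]⟩),
  (.ca 0,⟨false,[],(2,20),.all,[]⟩),
  (.spec 0,⟨false,[],(2,20),.mon 0 0 0,[]⟩),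
  (.comm 25 0 2,⟨false,[],(0,20),.all,[(3,20)]⟩),
  (.drop 0 [29],⟨false,[],(0,20),.all,[]⟩)],
  [(244,244),(80,80),(78,78),(73,73),(73,73),(80,80),(78,78),(244,244),(63,63),(42,42),(41,41),(59,59),(59,59),(42,42),(41,41),(63,63),(39,39),(37,37),(19,39),(0,37)]⟩ = true := by decide +kernel

theorem famXe {G L K : Type} [Group G] [AddCommGroup L] [Field K] [Finite K] {S : St G L K}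
    {n : ℕ} (R : Frame S .X n) (md : ∀ x y, Md S.φ x y false false) (h : 9 ≤ n) :
    IsLeast {n | Good S.Gs n} 3 := by
  by_cases p : 19 ≤ n
  · exact R.poly p (by simp) (md _ _) cXew
  rw [not_le] at p
  interval_cases n
  · exact R.gen (by decide) (md _ _) cXe9
  · exact R.gen (by decide) (md _ _) cXe10
  · exact R.gen (by decide) (md _ _) cXe11
  · exact R.gen (by decide) (md _ _) cXe12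
  · exact R.poly le_rfl (fun _ => rfl) (md _ _) cXe13
  · exact R.poly le_rfl (fun _ => rfl) (md _ _) cXe14
  · exact R.poly le_rfl (fun _ => rfl) (md _ _) cXe15
  · exact R.poly le_rfl (fun _ => rfl) (md _ _) cXe16
  · exact R.poly le_rfl (fun _ => rfl) (md _ _) cXe17
  · exact R.poly le_rfl (fun _ => rfl) (md _ _) cXe18

end Pool.Agent.MP_c78e8e_al.H75

end
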