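import Pool.Agent.MP_c78e8e_al.Sg.St

attribute [-instance] SemilinearMapClass.toAddHomClass MonTypeEquivalenceMon.monMonoid
  DistribMulActionSemiHomClass.toAddMonoidHomClass littleWedderburn CommGroup.toDivisionCommMonoid
  instCharZeroOfIsSemireal AlgHom.instNonUnitalAlgHomClassOfAlgHomClass MulZeroClass.toMul
  NonUnitalRing.toNonUnitalNonAssocRing IdemSemiring.toSemiring NormedRing.toRing
  FloorSemiring.instCharZero RingConeClass.toSubsemiringClass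
  instNonUnitalAlgHomClassOfNonUnitalAlgEquivClass NormedCommRing.toCommRing
  NonUnitalSemiring.toNonUnitalNonAssocSemiring SeminormedRing.toRing NormedField.toField
  NonUnitalNormedCommRing.toNonUnitalCommRing EuclideanDomain.toCommRing
  NonAssocCommSemiring.toNonAssocSemiring SeminormedCommRing.toCommRing
  NonUnitalNonAssocCommSemiring.toNonUnitalNonAssocSemiring LieAdmissibleRing.toNonUnitalNonAssocRing
  NonUnitalSeminormedCommRing.toNonUnitalCommRing MonoidWithZero.toMulZeroOneClass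
  NormMulClass.toNoZeroDivisors instIsRightCancelAddOfAddRightReflectLE RKHS.instFunLike
  RCLike.charZero_rclike BooleanRing.toRing NonAssocRing.toNonUnitalNonAssocRing
  MonoidWithZero.toSemigroupWithZero GroupWithZero.toDivisionMonoid GroupWithZero.toDivInvMonoid
  NumberField.to_charZero CommRing.toRing NonUnitalRing.toNonUnitalSemiring
  AddCommGroupWithOne.toAddGroupWithOne IdemCommSemiring.toCommSemiring
  NonAssocCommRing.toNonUnitalNonAssocCommRing GroupConeClass.toSubmonoidClass BooleanRing.toCommRing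
  AddCommMonoidWithOne.toAddCommMonoid DivisionRing.toDivisionSemiring IsStrictOrderedRing.toCharZero
  AlgHomClass.toRingHomClass MonoidWithZero.toMonoid BialgHomClass.toMonoidHomClass
  Group.IsPerfect.subsingleton_of_isMulCommutative ValuationClass.toMonoidWithZeroHomClass
  UniformSpace.toTopologicalSpace RightPreLieRing.toNonUnitalNonAssocRing
  Semiring.toNonUnitalSemiring NonUnitalAlgSemiHomClass.toMulHomClass
  LeftPreLieRing.toNonUnitalNonAssocRing NormedDivisionRing.toDivisionRing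
  LinearOrderedCommGroupWithZero.toCommGroupWithZero SemilatticeInf.toPartialOrder
  NonUnitalAlgHomClass.toNonUnitalRingHomClass LinearOrderedAddCommMonoidWithTop.toAddCommMonoid
  RingEquivClass.toNonUnitalRingHomClass CompletePartialOrder.toPartialOrder
  CommSemiring.toNonUnitalCommSemiring FunLike.toDecidableEq

section

namespace Pool.Agent.MP_c78e8e_al.H75

open Subgroup
open scoped commutatorElement

section Fld
variable {K : Type} [Field K]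

/-- Nonzero elements of the prime ring. -/
def IsU (c : K) : Prop := (∃ n : ℤ, c = n) ∧ c ≠ 0

theorem Pm.isU {e : K} (h : Pm e) : IsU e :=
  ⟨by rcases h with rfl | rfl; exacts [⟨1, by simp⟩, ⟨-1, by simp⟩], h.ne⟩

theorem isU_one : IsU (1 : K) := pm_one.isU

theorem IsU.mul {c d : K} (h : IsU c) (h' : IsU d) : IsU (c * d) := by
  obtain ⟨⟨m, rfl⟩, h⟩ := h
  obtain ⟨⟨n, rfl⟩, h'⟩ := h'
  exact ⟨⟨m * n, by simp⟩, mul_ne_zero h h'⟩

theorem IsU.map {c : K} (h : IsU c) (φ : K →+* K) : φ c = c := by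
  obtain ⟨⟨m, rfl⟩, -⟩ := h
  simp

theorem inv_eq_pow [Finite K] {c : K} (h : c ≠ 0) : ∃ n : ℕ, c ^ n * c = 1 := by
  haveI := Fintype.ofFinite K
  refine ⟨Fintype.card K - 2, ?_⟩
  have := Fintype.one_lt_card (α := K)
  rw [← pow_succ, show Fintype.card K - 2 + 1 = Fintype.card K - 1 by omega]
  exact FiniteField.pow_card_sub_one_eq_one c h

theorem IsU.inv [Finite K] {c : K} (h : IsU c) : ∃ n : ℤ, (n : K) * c = 1 := by
  obtain ⟨k, e⟩ := inv_eq_pow h.2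
  obtain ⟨⟨m, rfl⟩, -⟩ := h
  exact ⟨m ^ k, by simpa only [Int.cast_pow] using e⟩

open Polynomial in
theorem sum_sq (E : Type) [Field E] [Finite E] (a : E) : ∃ b c : E, a = b ^ 2 + c ^ 2 := by
  haveI := Fintype.ofFinite E
  by_cases h : ringChar E = 2
  · obtain ⟨b, e⟩ := FiniteField.isSquare_of_char_two h a
    exact ⟨b, 0, by rw [e]; ring⟩
  · obtain ⟨b, c, e⟩ := FiniteField.exists_root_sum_quadratic (f := X ^ 2) (g := X ^ 2 - C a)
      (by simp only [degree_pow, degree_X, nsmul_eq_mul, Nat.cast_ofNat, mul_one]) (degree_X_pow_sub_C (by decide) _) (FiniteField.odd_card_of_char_ne_two h)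
    refine ⟨b, c, ?_⟩
    simp only [eval_pow, eval_X, eval_sub, eval_C] at e
    linear_combination -e

theorem sum_sq_fix [Finite K] (φ : K →+* K) {a : K} (h : φ a = a) :
    ∃ b c : K, φ b = b ∧ φ c = c ∧ a = b ^ 2 + c ^ 2 := by
  obtain ⟨b, c, e⟩ := sum_sq (φ.eqLocusField (RingHom.id K)) ⟨a, h⟩
  exact ⟨b, c, b.2, c.2, by simpa using congrArg Subtype.val e⟩

end Fld

/-- Parameter patterns. -/
inductive Pt
  | mon (i j k : ℤ)
  | fs (e : ℤ)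
  | all
  deriving DecidableEq

/-- Multiplying a pattern by a monomial. -/
def Pt.mul (p : Pt) (a b c : ℤ) : Pt :=
  match p with
  | .mon i j k => .mon (i + a) (j + b) (k + c)
  | .fs e => .fs (e + a - b)
  | .all => .all

/-- The twisted pattern. -/
def Pt.tw : Pt → Pt
  | .mon i j k => .mon j i k
  | .fs e => .fs (-e)
  | .all => .all

/-- A subgroup together with generators of the multiplicative groups. -/
structure Env (G L K : Type) [Group G] [AddCommGroup L] [Field K] extends St G L K where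
  H : Subgroup G
  t : K
  f : K
  t0 : t ≠ 0
  f0 : f ≠ 0
  ff : φ f = f
  ht : ∀ s, s ≠ 0 → ∃ n : ℕ, s = t ^ n
  hf : ∀ s, s ≠ 0 → φ s = s → ∃ n : ℕ, s = f ^ n

namespace St
variable {G L K : Type} [Group G] [AddCommGroup L] [Field K] {S : St G L K}

variable (S) in
/-- The group generated by a list of relative root groups. -/
def Grp (T : List L) : Subgroup G := closure {g | ∃ δ ∈ T, g ∈ S.U δ}

variable (S) in
/-- Membership of an orbit in a list. -/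
def InT (v : L) (T : List L) : Prop := ∃ δ ∈ T, δ = v ∨ S.ρ δ = v

variable (S) in
/-- Commutators fall into `Grp T`. -/
def Out (w z : L) (T : List L) : Prop := ∀ g ∈ S.U w, ∀ k ∈ S.U z, ⁅g, k⁆ ∈ S.Grp T

variable (S) in
/-- Parity function of a list. -/
def sg (κ : List L) (β : L) : K := (-1) ^ (κ.map fun k => S.B k β).sum

variable (S) in
/-- Torus elements with prescribed signs. -/
def Tor (h : G) (κ : List L) : Prop :=
  ∃ f, h = S.hh f ∧ S.θ h = h ∧ ∀ β, S.R β → (-1 : K) ^ f β = S.sg κ β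

variable (S) in
/-- Evenness on an orbit. -/
def Ev (κ : List L) (δ : L) : Prop := S.sg κ δ = 1 ∧ S.sg κ (S.ρ δ) = 1

theorem InT.mem {v : L} {T : List L} (h : S.InT v T) {g : G} (hg : g ∈ S.U v) : g ∈ S.Grp T := by
  obtain ⟨δ, hδ, rfl | rfl⟩ := h
  · exact subset_closure ⟨δ, hδ, hg⟩
  · exact subset_closure ⟨δ, hδ, U_ρ' hg⟩

theorem inT_mem {v : L} {T : List L} (h : v ∈ T) : S.InT v T := ⟨v, h, Or.inl rfl⟩

theorem grp_le {T : List L} {N : Subgroup G} (h : ∀ δ ∈ T, ∀ g ∈ S.U δ, g ∈ N) : S.Grp T ≤ N := by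
  rw [Grp, closure_le]
  rintro g ⟨δ, hδ, hg⟩
  exact h δ hδ g hg

theorem grp_mono {T T' : List L} (h : ∀ δ ∈ T, S.InT δ T') : S.Grp T ≤ S.Grp T' :=
  grp_le fun δ hδ _ hg => (h δ hδ).mem hg

theorem grp_nil {g : G} (h : g ∈ S.Grp []) : g = 1 :=
  mem_bot.1 (grp_le (by simp only [List.not_mem_nil, mem_bot, IsEmpty.forall_iff, implies_true]) h)

theorem Mon.grp {m : G} {w : L ≃+ L} (h : S.Mon m w) {T : List L} {g : G} (hg : g ∈ S.Grp T) :
    m * g * m⁻¹ ∈ S.Grp (T.map w) := by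
  refine conj_closure ?_ hg
  rintro a ⟨δ, hδ, ha⟩
  exact (inT_mem (List.mem_map_of_mem hδ)).mem (h.U ha)

theorem grp_hh {f : L →+ ℤ} (hf : S.θ (S.hh f) = S.hh f) {T : List L} {g : G} (hg : g ∈ S.Grp T) :
    S.hh f * g * (S.hh f)⁻¹ ∈ S.Grp T := by simpa only [AddEquiv.coe_refl, List.map_id_fun, id_eq] using (mon_hh hf).grp hg

theorem out_c {w z : L} {T : List L} (b1 : 0 ≤ S.B w z) (b2 : 0 ≤ S.B w (S.ρ z)) : S.Out w z T :=
  fun g hg k hk => by rw [(U_comm hg hk b1 b2).commutator_eq]; exact one_mem _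

theorem Out.swap {w z : L} {T : List L} (h : S.Out w z T) : S.Out z w T :=
  fun g hg k hk => comm_swap (h k hk g hg)

theorem Out.rho {w z : L} {T : List L} (h : S.Out w (S.ρ z) T) : S.Out w z T :=
  fun g hg k hk => h g hg k (U_ρ hk)

theorem out0 {β γ : L} {T : List L} (b : S.B β γ = -1)
    (l : (S.ρ β = β ∧ S.ρ γ = γ) ∨
      (S.B β (S.ρ β) = 0 ∧ S.B γ (S.ρ γ) = 0 ∧ S.B β (S.ρ γ) = 0)) (h : S.InT (β + γ) T) :
    S.Out β γ T := by
  intro g hg k hk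
  obtain ⟨e, -, r⟩ := rel0 hg.1 hk.1 b l
  obtain ⟨s, hs⟩ := U_Yp hg (by tauto)
  obtain ⟨t, ht⟩ := U_Yp hk (by tauto)
  exact h.mem (r s t g k hs ht).mem

theorem outC {β γ : L} {T : List L} (b : S.B β γ = -1) (lβ : -1 ≤ S.B β (S.ρ β))
    (lγ : -1 ≤ S.B γ (S.ρ γ)) (b2 : 1 ≤ S.B β (S.ρ γ)) (h : S.InT (β + γ) T) : S.Out β γ T :=
  fun g hg k hk => h.mem ((relC hg.1 hk.1 b lβ lγ b2).1 g hg k hk)

theorem relD {β γ : L} (hβ : S.R β) (hγ : S.R γ) (b : S.B β γ = -1)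
    (l : (S.B β (S.ρ β) = 0 ∧ S.ρ γ = γ) ∨
      (S.B β (S.ρ β) = -1 ∧ S.B γ (S.ρ γ) = 0 ∧ S.B β (S.ρ γ) = 0)) :
    ∃ e : K, Pm e ∧ ∀ s t g k, S.Yp β s g → S.Yp γ t k → ∃ g1 g2,
      ⁅g, k⁆ = g1 * g2 ∧ S.Yp (β + γ) (e * s * t) g1 ∧ g2 ∈ S.U (β + γ + S.ρ β) := by
  rcases l with ⟨l, l'⟩ | ⟨l, l', b2⟩
  · obtain ⟨-, e, e', he, -, r⟩ := rel2 hβ hγ b l l'
    refine ⟨e, he, fun s t g k hg hk => ?_⟩
    obtain ⟨g1, g2, p, -, q, q'⟩ := r s t g k hg hk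
    exact ⟨g1, g2, p, q, q'.mem⟩
  · exact rel3 hβ hγ b l l' b2

theorem outD {β γ : L} {T : List L} (b : S.B β γ = -1)
    (l : (S.B β (S.ρ β) = 0 ∧ S.ρ γ = γ) ∨
      (S.B β (S.ρ β) = -1 ∧ S.B γ (S.ρ γ) = 0 ∧ S.B β (S.ρ γ) = 0)) (h : S.InT (β + γ) T)
    (h' : S.InT (β + γ + S.ρ β) T) : S.Out β γ T := by
  intro g hg k hk
  obtain ⟨e, -, r⟩ := relD hg.1 hk.1 b l
  obtain ⟨s, hs⟩ := U_Yp hg (by tauto)
  obtain ⟨t, ht⟩ := U_Yp hk (by tauto)
  obtain ⟨g1, g2, p, q, q'⟩ := r s t g k hs ht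
  rw [p]
  exact mul_mem (h.mem q.mem) (h'.mem q')

theorem nz_of_out {w : L} {T : List L} (h : ∀ z ∈ T, S.Out w z T) {g : G} (hg : g ∈ S.U w) :
    g ∈ normalizer (S.Grp T : Set G) := by
  have : ∀ g ∈ S.U w, ∀ n ∈ S.Grp T, g * n * g⁻¹ ∈ S.Grp T := by
    intro g hg n hn
    refine conj_closure ?_ hn
    rintro a ⟨δ, hδ, ha⟩
    rw [conj_of_comm rfl]
    exact mul_mem (h δ hδ g hg a ha) ((inT_mem hδ).mem ha)
  refine mem_normalizer_iff.2 fun n => ⟨this g hg n, fun hn => ?_⟩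
  simpa [mul_assoc] using this _ (U_inv hg) _ hn

theorem sg_nil (β : L) : S.sg [] β = 1 := by simp [sg]

theorem sg_pm (κ : List L) (β : L) : Pm (S.sg κ β) := pm_zpow _

theorem sg_append (κ κ' : List L) (β : L) : S.sg (κ ++ κ') β = S.sg κ β * S.sg κ' β := by
  simp [sg, sg_add]

theorem tor_nil : S.Tor 1 [] := ⟨0, S.hh_zero.symm, map_one _, by simp [sg]⟩

theorem Tor.nil {h : G} (H : S.Tor h []) : h = 1 := by
  obtain ⟨f, rfl, -, e⟩ := H
  exact S.hh_one f fun β hβ => by rw [e β hβ, sg_nil]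

theorem Tor.mul {h h' : G} {κ κ' : List L} (H : S.Tor h κ) (H' : S.Tor h' κ') :
    S.Tor (h * h') (κ ++ κ') := by
  obtain ⟨f, rfl, t, e⟩ := H
  obtain ⟨f', rfl, t', e'⟩ := H'
  exact ⟨f + f', (S.hh_add f f').symm, by rw [map_mul, t, t'], fun β hβ => by
    rw [AddMonoidHom.add_apply, sg_add, sg_append, e β hβ, e' β hβ]⟩

theorem Tor.conj {h m : G} {κ : List L} {w : L ≃+ L} (H : S.Tor h κ) (hm : S.Mon m w) :
    S.Tor (m * h * m⁻¹) (κ.map w) := by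
  obtain ⟨f, rfl, t, e⟩ := H
  obtain ⟨g, eg⟩ := hm.tor f
  refine ⟨g, eg, by rw [hm.θconj, t], fun β hβ => ?_⟩
  obtain ⟨γ, rfl⟩ := w.surjective β
  have hγ := (hm.root γ).1 hβ
  obtain ⟨c, hc, r⟩ := hm.cj γ hγ
  have h1 : S.sg (κ.map w) (w γ) = S.sg κ γ := by
    simp only [sg, List.map_map]
    congr 3
    ext k
    simp [hm.iso]
  rw [h1, ← e γ hγ]
  have h2 := S.hh_x g _ hβ (c * 1)
  rw [← eg, ← r] at h2
  have h3 : m * S.hh f * m⁻¹ * (m * S.x γ 1 * m⁻¹) * (m * S.hh f * m⁻¹)⁻¹ =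
    m * (S.hh f * S.x γ 1 * (S.hh f)⁻¹) * m⁻¹ := by group
  rw [h3, S.hh_x f γ hγ, r] at h2
  have := S.x_injective hβ h2
  apply mul_left_cancel₀ hc.ne
  linear_combination -this

theorem Tor.ev {h : G} {κ : List L} (H : S.Tor h κ) {δ : L} (e : S.Ev κ δ) {g : G}
    (hg : g ∈ S.U δ) : Commute h g := by
  obtain ⟨f, rfl, -, p⟩ := H
  exact U_hh_even hg (by rw [p _ hg.1, e.1]) (by rw [p _ (S.Rρ _ hg.1), e.2])

theorem Tor.ev' {h : G} {κ : List L} (H : S.Tor h κ) {T : List L} (e : ∀ δ ∈ T, S.Ev κ δ) {g : G}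
    (hg : g ∈ S.Grp T) : Commute h g :=
  commute_closure (by rintro a ⟨δ, hδ, ha⟩; exact H.ev (e δ hδ) ha) hg

theorem Tor.comm {h h' : G} {κ κ' : List L} (H : S.Tor h κ) (H' : S.Tor h' κ') : Commute h h' := by
  obtain ⟨f, rfl, -⟩ := H
  obtain ⟨f', rfl, -⟩ := H'
  exact S.hh_comm f f'

theorem Tor.inv {h : G} {κ : List L} (H : S.Tor h κ) : h⁻¹ = h := by
  obtain ⟨f, rfl, -⟩ := H
  exact S.hh_inv f

theorem Tor.yp {h : G} {κ : List L} (H : S.Tor h κ) {β : L} {s : K} {g : G} (hg : S.Yp β s g) :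
    S.Yp β (S.sg κ β * s) (h * g * h⁻¹) := by
  obtain ⟨f, rfl, t, p⟩ := H
  rw [← p β hg.1]
  exact hg.hh t

theorem Tor.grp {h : G} {κ : List L} (H : S.Tor h κ) {T : List L} {g : G} (hg : g ∈ S.Grp T) :
    h * g * h⁻¹ ∈ S.Grp T := by
  obtain ⟨f, rfl, t, -⟩ := H
  exact grp_hh t hg

theorem Tor.ok {h : G} {κ : List L} (H : S.Tor h κ) {β : L} {s : K} {g : G} (hg : S.Yp β s g)
    (l : S.ρ β = β ∨ S.B β (S.ρ β) = 0) :
    (S.sg κ β = 1 → h * g * h⁻¹ = g) ∧ (S.sg κ β = -1 → h * g * h⁻¹ = g⁻¹) := by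
  have := H.yp hg
  refine ⟨fun e => ?_, fun e => ?_⟩
  · rw [e, one_mul] at this; exact this.uniq hg l
  · rw [e, neg_one_mul] at this; exact this.uniq hg.inv l

variable (S) in
/-- Side conditions of the commutator rule. -/
structure CC (κ : List L) (β : L) (T κ' : List L) (γ : L) (T' T3 : List L) : Prop where
  p1 : (∀ δ ∈ β :: T, S.Ev κ' δ) ∨ (κ = [] ∧ T = [] ∧ (S.ρ β = β ∨ S.B β (S.ρ β) = 0))
  p2 : (∀ δ ∈ γ :: T', S.Ev κ δ) ∨ (κ' = [] ∧ T' = [] ∧ (S.ρ γ = γ ∨ S.B γ (S.ρ γ) = 0))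
  o1 : ∀ w ∈ T, ∀ z ∈ γ :: T', S.Out w z T3
  o2 : ∀ z ∈ T', S.Out β z T3
  o3 : ∀ w ∈ (β :: T) ++ (γ :: T'), ∀ z ∈ T3, S.Out w z T3

theorem CC.core {κ : List L} {β : L} {T κ' : List L} {γ : L} {T' T3 : List L}
    (c : S.CC κ β T κ' γ T' T3) {g k r r' : G} (hg : g ∈ S.U β) (hk : k ∈ S.U γ)
    (hr : r ∈ S.Grp T) (hr' : r' ∈ S.Grp T') : ∃ n ∈ S.Grp T3, ⁅g * r, k * r'⁆ = ⁅g, k⁆ * n := by
  have nz : ∀ w ∈ (β :: T) ++ (γ :: T'), ∀ a ∈ S.U w, a ∈ normalizer (S.Grp T3 : Set G) :=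
    fun w hw a ha => nz_of_out (c.o3 w hw) ha
  have ng := nz β (by simp) g hg
  have nk := nz γ (by simp) k hk
  have hA : ∀ a ∈ {g | ∃ δ ∈ T, g ∈ S.U δ}, a ∈ normalizer (S.Grp T3 : Set G) := by
    rintro a ⟨δ, hδ, ha⟩; exact nz δ (by simp [hδ]) a ha
  have hB : ∀ a ∈ {g | ∃ δ ∈ T', g ∈ S.U δ}, a ∈ normalizer (S.Grp T3 : Set G) := by
    rintro a ⟨δ, hδ, ha⟩; exact nz δ (by simp [hδ]) a ha
  have h1 : ⁅r, k⁆ ∈ S.Grp T3 := (comm_closure (fun a ha => ⟨hA a ha, by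
    obtain ⟨δ, hδ, ha⟩ := ha; exact c.o1 δ hδ γ (by simp) a ha k hk⟩) hr).2
  have h2 : ⁅r, r'⁆ ∈ S.Grp T3 := comm_closure2 hA hB (by
    rintro a ⟨δ, hδ, ha⟩ b ⟨ν, hν, hb⟩; exact c.o1 δ hδ ν (by simp [hν]) a ha b hb) hr hr'
  have h3 : ⁅r', g⁆ ∈ S.Grp T3 := (comm_closure (fun a ha => ⟨hB a ha, by
    obtain ⟨δ, hδ, ha⟩ := ha; exact (c.o2 δ hδ).swap a ha g hg⟩) hr').2
  have ngk : ⁅g, k⁆ ∈ normalizer (S.Grp T3 : Set G) :=
    mul_mem (mul_mem (mul_mem ng nk) (inv_mem ng)) (inv_mem nk)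
  refine ⟨⁅g, k⁆⁻¹ * (g * (⁅r, k⁆ * (k * ⁅r, r'⁆ * k⁻¹)) * g⁻¹) * ⁅g, k⁆ * (k * ⁅g, r'⁆ * k⁻¹),
    mul_mem (nz_conj' ngk (nz_conj ng (mul_mem h1 (nz_conj nk h2)))) (nz_conj nk (comm_swap h3)), ?_⟩
  simp only [commutatorElement_def]; group

end St

namespace Env
open St
variable {G L K : Type} [Group G] [AddCommGroup L] [Field K] (E : Env G L K)

/-- Monomials in the generators. -/
def mv (i j k : ℤ) : K := E.t ^ i * E.φ E.t ^ j * E.f ^ k

/-- The parameters described by a pattern. -/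
def Sp (β : L) : Pt → K → Prop
  | .mon i j k, s => s = E.mv i j k
  | .fs e, s => ∃ r, E.φ r = r ∧ s = r * E.t ^ e
  | .all, s => E.ρ β = β → E.φ s = s

/-- An element of `H` with one tracked factor. -/
def Eb (κ : List L) (β : L) (s : K) (T : List L) : Prop :=
  ∃ c h g r, IsU c ∧ E.Tor h κ ∧ E.Yp β (c * s) g ∧ r ∈ E.Grp T ∧ h * g * r ∈ E.H

/-- Elements of `H` for all parameters of a pattern. -/
def El (κ : List L) (β : L) (p : Pt) (T : List L) : Prop :=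
  E.R β ∧ ∀ s, E.Sp β p s → E.Eb κ β s T

/-- The parameters occurring in `H`. -/
def A (β : L) (s : K) : Prop := ∃ g ∈ E.H, E.Yp β s g

/-- The parameter set is stable under a scalar. -/
def Stab (β : L) (p : K) : Prop := ∀ s, E.A β s → E.A β (p * s)

/-- The root group lies in `H`. -/
def Full (β : L) : Prop := ∀ g ∈ E.U β, g ∈ E.H

variable {E}

theorem φt0 : E.φ E.t ≠ 0 := (map_ne_zero E.φ).2 E.t0

theorem mv_ne (i j k : ℤ) : E.mv i j k ≠ 0 :=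
  mul_ne_zero (mul_ne_zero (zpow_ne_zero _ E.t0) (zpow_ne_zero _ φt0)) (zpow_ne_zero _ E.f0)

theorem mv_add (i j k a b c : ℤ) : E.mv (i + a) (j + b) (k + c) = E.mv i j k * E.mv a b c := by
  simp only [mv, zpow_add₀ E.t0, zpow_add₀ (φt0 (E := E)), zpow_add₀ E.f0]; ring

theorem mv_zero : E.mv 0 0 0 = 1 := by simp [mv]

theorem φ_mv (i j k : ℤ) : E.φ (E.mv i j k) = E.mv j i k := by
  simp only [mv, map_mul, map_zpow₀, E.φφ, E.ff]; ring

theorem mv_fs (i j k : ℤ) : E.mv i j k = E.mv j j k * E.t ^ (i - j) := by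
  rw [show i = j + (i - j) by ring]
  simp only [mv, zpow_add₀ E.t0, add_sub_cancel_left]; ring

theorem A.add {β : L} {s t : K} (h : E.A β s) (h' : E.A β t) : E.A β (s + t) := by
  obtain ⟨g, hg, y⟩ := h
  obtain ⟨k, hk, y'⟩ := h'
  exact ⟨_, mul_mem hg hk, y.mul y'⟩

theorem A.zsmul {β : L} {s : K} (h : E.A β s) (n : ℤ) : E.A β (n * s) := by
  obtain ⟨g, hg, y⟩ := h
  exact ⟨_, zpow_mem hg n, y.zpow n⟩

theorem A.isU [Finite K] {β : L} {s c : K} (hc : IsU c) (h : E.A β (c * s)) : E.A β s := by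
  obtain ⟨n, e⟩ := hc.inv
  simpa [← mul_assoc, e] using h.zsmul n

theorem Eb.a [Finite K] {β : L} {s : K} (h : E.Eb [] β s []) : E.A β s := by
  obtain ⟨c, h, g, r, hc, t, y, hr, m⟩ := h
  rw [t.nil, grp_nil hr, one_mul, mul_one] at m
  exact A.isU hc ⟨g, m, y⟩

theorem A.eb {β : L} {s : K} (h : E.A β s) : E.Eb [] β s [] := by
  obtain ⟨g, hg, y⟩ := h
  exact ⟨1, 1, g, 1, isU_one, tor_nil, by simpa using y, one_mem _, by simpa using hg⟩

theorem El.full [Finite K] {β : L} (h : E.El [] β .all [])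
    (l : E.ρ β = β ∨ E.B β (E.ρ β) = 0 ∨ (E.B β (E.ρ β) = -1 ∧ E.Full (β + E.ρ β))) : E.Full β := by
  intro g hg
  obtain ⟨s, y⟩ := U_Yp hg (by tauto)
  obtain ⟨k, hk, y'⟩ := (h.2 s fun l => (y.long l).2).a
  rcases l with l | l | ⟨l, F⟩
  · rwa [y.uniq y' (Or.inl l)]
  · rwa [y.uniq y' (Or.inr l)]
  · simpa using mul_mem hk (F _ (y'.uniq_bc y l))

theorem El.conj {κ : List L} {β : L} {p : Pt} {T : List L} (h : E.El κ β p T) {m : G}
    {w : L ≃+ L} (hm : E.Mon m w) (mm : m ∈ E.H) : E.El (κ.map w) (w β) p (T.map w) := by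
  refine ⟨(hm.root β).2 h.1, fun s hs => ?_⟩
  have : E.Sp β p s := by
    cases p with
    | all => exact fun l => hs (by rw [← hm.com, l])
    | _ => exact hs
  obtain ⟨c, h', g, r, hc, t, y, hr, mem⟩ := h.2 s this
  obtain ⟨e, he, q⟩ := hm.cj β h.1
  refine ⟨e * c, _, _, _, he.isU.mul hc, t.conj hm, by rw [mul_assoc]; exact hm.Yp q y, hm.grp hr, ?_⟩
  have := mul_mem (mul_mem mm mem) (inv_mem mm)
  convert this using 1; group

theorem El.rho {κ : List L} {β : L} {p : Pt} {T : List L} (h : E.El κ β p T)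
    (l : E.B β (E.ρ β) = 0) : E.El κ (E.ρ β) p.tw T := by
  refine ⟨E.Rρ β h.1, fun s hs => ?_⟩
  have : E.Sp β p (E.φ s) := by
    cases p with
    | all => exact fun e => by rw [e, E.R2 β h.1] at l; omega
    | mon i j k => simp only [Sp, Pt.tw] at hs ⊢; rw [hs, φ_mv]
    | fs e =>
      obtain ⟨r, hr, rfl⟩ := hs
      refine ⟨r * E.mv (-e) (-e) 0, by rw [map_mul, hr, φ_mv], ?_⟩
      simp only [mv, map_mul, hr, zpow_neg, map_inv₀, map_zpow₀, zpow_zero]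
      have := zpow_ne_zero e E.t0
      field_simp
  obtain ⟨c, h', g, r, hc, t, y, hr, mem⟩ := h.2 _ this
  refine ⟨E.η β * c, h', g, r, (E.η_short β h.1 l).1.isU.mul hc, t, ?_, hr, mem⟩
  have := y.rho l
  rwa [map_mul, hc.map, E.φφ, ← mul_assoc] at this

theorem El.mono {κ : List L} {β : L} {p p' : Pt} {T : List L} (h : E.El κ β p T)
    (hp : ∀ s, E.Sp β p' s → E.Sp β p s) : E.El κ β p' T := ⟨h.1, fun s hs => h.2 s (hp s hs)⟩

theorem El.spec1 {κ : List L} {β : L} {T : List L} (h : E.El κ β .all T) :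
    E.El κ β (.mon 0 0 0) T := h.mono fun s hs _ => by rw [hs, mv_zero, map_one]

theorem El.spec2 {κ : List L} {β : L} {e : ℤ} {T : List L} (h : E.El κ β (.fs e) T) :
    E.El κ β (.mon e 0 0) T := h.mono fun s hs => ⟨1, map_one _, by rw [hs]; simp [mv]⟩

theorem El.fsid {κ : List L} {β : L} {e : ℤ} {T : List L} (h : E.El κ β (.fs e) T)
    (hi : ∀ s, E.φ s = s) : E.El κ β .all T :=
  h.mono fun s _ => ⟨s / E.t ^ e, hi _, by rw [div_mul_cancel₀ _ (zpow_ne_zero e E.t0)]⟩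

theorem El.char2 {κ : List L} {β : L} {p : Pt} {T : List L} (h : E.El κ β p T)
    (h2 : (-1 : K) = 1) : E.El [] β p T := by
  refine ⟨h.1, fun s hs => ?_⟩
  obtain ⟨c, h', g, r, hc, ⟨f, e, t, -⟩, y, hr, mem⟩ := h.2 s hs
  exact ⟨c, h', g, r, hc, ⟨f, e, t, fun β _ => by rw [h2, sg_nil, one_zpow]⟩, y, hr, mem⟩

theorem El.drop {κ : List L} {β : L} {p : Pt} {T : List L} (h : E.El κ β p T)
    (hT : ∀ δ ∈ T, E.Full δ) : E.El κ β p [] := by
  refine ⟨h.1, fun s hs => ?_⟩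
  obtain ⟨c, h', g, r, hc, t, y, hr, mem⟩ := h.2 s hs
  refine ⟨c, h', g, 1, hc, t, y, one_mem _, ?_⟩
  simpa using mul_mem mem (inv_mem (grp_le hT hr))

theorem El.mul {κ κ' : List L} {β γ : L} {p : Pt} {i j k : ℤ} {T T' : List L} (h : E.El κ β p T)
    (h' : E.El κ' γ (.mon i j k) T') : E.El (κ ++ κ') β p (T ++ γ :: T') := by
  refine ⟨h.1, fun s hs => ?_⟩
  obtain ⟨c, a, g, r, hc, t, y, hr, mem⟩ := h.2 s hs
  obtain ⟨c', a', g', r', -, t', y', hr', mem'⟩ := h'.2 _ rfl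
  refine ⟨E.sg κ' β * c, a * a', _, a' * r * a'⁻¹ * g' * r', (sg_pm _ _).isU.mul hc, t.mul t',
    by rw [mul_assoc]; exact t'.yp y, mul_mem (mul_mem ?_ ?_) ?_, ?_⟩
  · exact grp_mono (fun δ hδ => inT_mem (by simp [hδ])) (t'.grp hr)
  · exact (inT_mem (by simp)).mem y'.mem
  · exact grp_mono (fun δ hδ => inT_mem (by simp [hδ])) hr'
  · have := mul_mem mem mem'
    have e : a' * a' = 1 := by nth_rw 1 [← t'.inv]; simp
    convert this using 1
    calc _ = a * (a' * a') * g * r * a'⁻¹ * g' * r' := by group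
      _ = _ := by rw [e, t'.inv]; group

theorem El.sq {κ : List L} {β : L} {p : Pt} {T T3 T' : List L} (h : E.El κ β p T)
    (h2 : (2 : K) ≠ 0) (ev : E.Ev κ β) (o1 : ∀ w ∈ β :: T, ∀ z ∈ T, E.Out w z T3)
    (o3 : ∀ w ∈ T, ∀ z ∈ T3, E.Out w z T3) (i3 : ∀ z ∈ T3, E.InT z T')
    (i1 : ∀ δ ∈ T, ((E.ρ δ = δ ∨ E.B δ (E.ρ δ) = 0) ∧ E.sg κ δ = -1) ∨ E.InT δ T') :
    E.El [] β p T' := by
  refine ⟨h.1, fun s hs => ?_⟩
  obtain ⟨c, a, g, r, hc, t, y, hr, mem⟩ := h.2 s hs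
  have hA : ∀ a ∈ {g | ∃ δ ∈ T, g ∈ E.U δ}, a ∈ normalizer (E.Grp T3 : Set G) := by
    rintro a ⟨δ, hδ, ha⟩; exact nz_of_out (o3 δ hδ) ha
  have cm : ∀ u ∈ E.Grp T, ∀ v ∈ E.Grp T, ⁅u, v⁆ ∈ E.Grp T' := fun u hu v hv =>
    grp_mono i3 (comm_closure2 hA hA (by
      rintro a ⟨δ, hδ, ha⟩ b ⟨ν, hν, hb⟩; exact o1 δ (by simp [hδ]) ν hν a ha b hb) hu hv)
  have key : ∀ r ∈ E.Grp T, a * r * a⁻¹ * r ∈ E.Grp T' := by
    intro r hr
    induction hr using closure_induction with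
    | mem u hu =>
      obtain ⟨δ, hδ, hu⟩ := hu
      rcases i1 δ hδ with ⟨l, o⟩ | i
      · obtain ⟨s, y⟩ := U_Yp hu (by tauto)
        rw [(t.ok y l).2 o]; simp
      · obtain ⟨f, rfl, tf, -⟩ := t
        exact i.mem (U_mul ((mon_hh tf).U hu) hu)
    | one => simp
    | mul u v hu hv iu iv =>
      have := mul_mem (mul_mem iu (cm _ (inv_mem hu) _ (t.grp hv))) iv
      convert this using 1
      simp only [commutatorElement_def]; group
    | inv u hu iu =>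
      have := inv_mem (mul_mem (cm _ hu _ (t.grp hu)) iu)
      convert this using 1
      simp only [commutatorElement_def]; group
  have cg : ⁅a * r * a⁻¹, g⁻¹⁆ ∈ E.Grp T' := grp_mono i3 (comm_closure (fun u hu => ⟨hA u hu, by
    obtain ⟨δ, hδ, hu⟩ := hu
    exact (o1 β (by simp) δ hδ).swap u hu _ (U_inv y.mem)⟩) (t.grp hr)).2
  refine ⟨c * 2, 1, g * g, ⁅a * r * a⁻¹, g⁻¹⁆⁻¹ * (a * r * a⁻¹ * r), hc.mul ⟨⟨2, by simp⟩, h2⟩,
    tor_nil, by simpa only [mul_two, add_mul] using y.mul y, mul_mem (inv_mem cg) (key r hr), ?_⟩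
  have := mul_mem mem mem
  rw [(t.ev ev y.mem).eq] at this
  nth_rw 2 [← (t.ev ev y.mem).eq, ← t.inv] at this
  convert this using 1
  simp only [commutatorElement_def]; group

theorem El.ko {κ : List L} {β γ : L} {p : Pt} {i j k : ℤ} {T T2 T3 T' : List L} (h : E.El [] β p T)
    (h' : E.El κ γ (.mon i j k) T2) (h2 : (2 : K) ≠ 0) (od : E.sg κ β = -1)
    (o1 : ∀ w ∈ β :: T, ∀ z ∈ T ++ γ :: T2, E.Out w z T3)
    (o3 : ∀ w ∈ (β :: T) ++ γ :: T2, ∀ z ∈ T3, E.Out w z T3) (i3 : ∀ z ∈ T3, E.InT z T')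
    (i1 : ∀ δ ∈ T, E.Ev κ δ ∨ E.InT δ T') : E.El [] β p T' := by
  refine ⟨h.1, fun s hs => ?_⟩
  obtain ⟨c, a0, g, r, hc, t0, y, hr, mem⟩ := h.2 s hs
  obtain ⟨c', a, k, r', -, t, y', hr', mem'⟩ := h'.2 _ rfl
  rw [t0.nil, one_mul] at mem
  have nz : ∀ l : List L, (∀ w ∈ l, w ∈ (β :: T) ++ γ :: T2) → ∀ a ∈ {g | ∃ δ ∈ l, g ∈ E.U δ},
      a ∈ normalizer (E.Grp T3 : Set G) := by
    rintro l hl a ⟨δ, hδ, ha⟩; exact nz_of_out (o3 δ (hl δ hδ)) ha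
  have n1 := nz (β :: T) fun w hw => List.mem_append_left _ hw
  have n2 := nz T fun w hw => by simp [hw]
  have n3 := nz (γ :: T2) fun w hw => List.mem_append_right _ hw
  have up : E.Grp T ≤ E.Grp (β :: T) := grp_mono fun δ hδ => inT_mem (by simp [hδ])
  have cm : ∀ u ∈ E.Grp (β :: T), ∀ v ∈ E.Grp T, ⁅u, v⁆ ∈ E.Grp T3 := fun u hu v hv =>
    comm_closure2 n1 n2 (by
      rintro a ⟨δ, hδ, ha⟩ b ⟨ν, hν, hb⟩; exact o1 δ hδ ν (by simp [hν]) a ha b hb) hu hv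
  have key : ∀ r ∈ E.Grp T, r * (a * r⁻¹ * a⁻¹) ∈ E.Grp T' := by
    intro r hr
    induction hr using closure_induction with
    | mem u hu =>
      obtain ⟨δ, hδ, hu⟩ := hu
      rcases i1 δ hδ with o | i
      · rw [(t.ev o hu).inv_right.eq]; simp
      · obtain ⟨f, rfl, tf, -⟩ := t
        exact i.mem (U_mul hu ((mon_hh tf).U (U_inv hu)))
    | one => simp
    | mul u v hu hv iu iv =>
      have := mul_mem (mul_mem (grp_mono i3 (cm _ (up hu) _ (mul_mem hv (t.grp (inv_mem hv))))) iv) iu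
      convert this using 1
      simp only [commutatorElement_def]; group
    | inv u hu iu =>
      have := mul_mem (grp_mono i3 (cm _ (up (inv_mem hu)) _ (t.grp hu))) (inv_mem iu)
      convert this using 1
      simp only [commutatorElement_def]; group
  have y2 := t.yp y.inv
  rw [od, neg_mul_neg, one_mul] at y2
  have hg : g ∈ E.Grp (β :: T) := (inT_mem (by simp)).mem y.mem
  have hq : k * r' ∈ E.Grp (γ :: T2) := mul_mem ((inT_mem (by simp)).mem y'.mem)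
    (grp_mono (fun δ hδ => inT_mem (by simp [hδ])) hr')
  have c1 : ⁅(g * r)⁻¹, k * r'⁆ ∈ E.Grp T3 := comm_closure2 n1 n3 (by
    rintro a ⟨δ, hδ, ha⟩ b ⟨ν, hν, hb⟩
    exact o1 δ hδ ν (List.mem_append_right _ hν) a ha b hb) (inv_mem (mul_mem hg (up hr))) hq
  have nr : r ∈ normalizer (E.Grp T3 : Set G) := (closure_le _).2 n2 hr
  have ng : a * g⁻¹ * a⁻¹ ∈ normalizer (E.Grp T3 : Set G) := n1 _ ⟨β, by simp, y2.mem⟩
  have c2 := cm _ (inv_mem ((inT_mem (T := β :: T) (by simp)).mem y2.mem)) _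
    (mul_mem hr (t.grp (inv_mem hr)))
  refine ⟨c * 2, 1, _, _, hc.mul ⟨⟨2, by simp⟩, h2⟩, tor_nil,
    by simpa only [mul_two, add_mul] using y.mul y2, mul_mem (grp_mono i3
      (mul_mem (nz_conj' ng (nz_conj nr (t.grp (inv_mem c1)))) c2)) (key r hr), ?_⟩
  have := mul_mem (mul_mem (mul_mem mem mem') (inv_mem mem)) (inv_mem mem')
  convert this using 1
  simp only [commutatorElement_def]; group

theorem comm_eb {κ : List L} {β : L} {T κ' : List L} {γ : L} {T' T3 ex : List L} {s t u : K} {d : L}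
    (cc : E.CC κ β T κ' γ T' T3) (P : E.Eb κ β s T) (Q : E.Eb κ' γ t T')
    (rel : ∀ c c' g k, IsU c → IsU c' → E.Yp β (c * s) g → E.Yp γ (c' * t) k → ∃ c'' g1 g2,
      IsU c'' ∧ ⁅g, k⁆ = g1 * g2 ∧ E.Yp d (c'' * u) g1 ∧ g2 ∈ E.Grp ex) :
    E.Eb [] d u (ex ++ T3) := by
  obtain ⟨c, a, g, r, hc, ta, y, hr, mem⟩ := P
  obtain ⟨c', a', k, r', hc', ta', y', hr', mem'⟩ := Q
  obtain ⟨c'', g1, g2, hc'', e, y1, y2⟩ := rel c c' g k hc hc' y y'
  obtain ⟨n, hn, en⟩ := cc.core y.mem y'.mem hr hr'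
  have hH : ∀ p q, p ∈ E.H → q ∈ E.H → ⁅p, q⁆ ∈ E.H := fun p q hp hq =>
    mul_mem (mul_mem (mul_mem hp hq) (inv_mem hp)) (inv_mem hq)
  have inH : ∀ {κ β s a g}, E.Tor a κ → E.Yp β s g → (E.ρ β = β ∨ E.B β (E.ρ β) = 0) → g ∈ E.H →
      a * g * a⁻¹ ∈ E.H := by
    intro κ β s a g ta y l hg
    rcases sg_pm (S := E.toSt) κ β with o | o
    · rwa [(ta.ok y l).1 o]
    · rw [(ta.ok y l).2 o]; exact inv_mem hg
  obtain ⟨m, μ, tm, hm⟩ : ∃ m μ, E.Tor m μ ∧ m * ⁅g * r, k * r'⁆ * m⁻¹ ∈ E.H := by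
    rcases cc.p1 with p1 | ⟨rfl, rfl, l⟩
    · rcases cc.p2 with p2 | ⟨rfl, rfl, l⟩
      · have c1 : Commute a' (g * r) := (ta'.ev (p1 β (by simp)) y.mem).mul_right
          (ta'.ev' (fun δ hδ => p1 δ (by simp [hδ])) hr)
        have c2 : Commute a (k * r') := (ta.ev (p2 γ (by simp)) y'.mem).mul_right
          (ta.ev' (fun δ hδ => p2 δ (by simp [hδ])) hr')
        refine ⟨a * a', _, ta.mul ta', ?_⟩
        have := hH _ _ mem mem'
        rw [mul_assoc a, mul_assoc a'] at this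
        generalize g * r = P at *
        generalize k * r' = Q at *
        convert this using 1
        simp only [commutatorElement_def, mul_inv_rev]
        rw [(ta.comm ta').inv_inv.symm.eq]
        calc _ = a * (a' * P) * Q * P⁻¹ * (Q⁻¹ * a⁻¹) * a'⁻¹ := by group
          _ = _ := by rw [c1.eq, ← c2.inv_inv.eq]; group
      · rw [ta'.nil, grp_nil hr', one_mul, mul_one] at mem'
        refine ⟨a, _, ta, ?_⟩
        have := mul_mem (mul_mem (mul_mem mem mem') (inv_mem mem)) (inv_mem (inH ta y' l mem'))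
        convert this using 1
        simp only [commutatorElement_def, grp_nil hr']; group
    · rw [ta.nil, grp_nil hr, one_mul, mul_one] at mem
      refine ⟨a', _, ta', ?_⟩
      have := mul_mem (mul_mem (mul_mem (inH ta' y l mem) mem') (inv_mem mem)) (inv_mem mem')
      convert this using 1
      simp only [commutatorElement_def, grp_nil hr]; group
  refine ⟨E.sg μ d * c'', 1, _, m * (g2 * n) * m⁻¹, (sg_pm _ _).isU.mul hc'', tor_nil,
    by rw [mul_assoc]; exact tm.yp y1, tm.grp (mul_mem ?_ ?_), ?_⟩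
  · exact grp_mono (fun δ hδ => inT_mem (by simp [hδ])) y2
  · exact grp_mono (fun δ hδ => inT_mem (by simp [hδ])) hn
  · rw [en, e] at hm
    convert hm using 1; group

theorem sp_mul {β d : L} {p : Pt} {i j k : ℤ} {u : K}
    (l : E.ρ β = β → E.ρ d = d ∧ E.φ (E.mv i j k) = E.mv i j k) (h : E.Sp d (p.mul i j k) u) :
    ∃ s, E.Sp β p s ∧ u = s * E.mv i j k := by
  cases p with
  | mon a b c => exact ⟨_, rfl, by rw [← mv_add]; exact h⟩
  | fs e =>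
    obtain ⟨r, hr, rfl⟩ := h
    refine ⟨r / E.mv j j k * E.t ^ e, ⟨_, by rw [map_div₀, hr, φ_mv], rfl⟩, ?_⟩
    rw [mv_fs i j k, add_sub_assoc, zpow_add₀ E.t0]
    have := mv_ne (E := E) j j k
    field_simp
  | all =>
    refine ⟨u / E.mv i j k, fun e => ?_, by rw [div_mul_cancel₀ _ (mv_ne i j k)]⟩
    rw [map_div₀, (l e).2, h (l e).1]

theorem El.fix {κ : List L} {γ : L} {T : List L} {i j k : ℤ} (h : E.El κ γ (.mon i j k) T)
    (l : E.ρ γ = γ) : E.φ (E.mv i j k) = E.mv i j k := by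
  obtain ⟨c, -, g, -, hc, -, y, -⟩ := h.2 _ rfl
  have := (y.long l).2
  rw [map_mul, hc.map] at this
  exact mul_left_cancel₀ hc.2 this

section comm
variable {κ : List L} {β : L} {T κ' : List L} {γ : L} {T' T3 : List L} {p : Pt} {i j k : ℤ}

theorem comm0 (cc : E.CC κ β T κ' γ T' T3) (P : E.El κ β p T) (Q : E.El κ' γ (.mon i j k) T')
    (b : E.B β γ = -1) (l : (E.ρ β = β ∧ E.ρ γ = γ) ∨
      (E.B β (E.ρ β) = 0 ∧ E.B γ (E.ρ γ) = 0 ∧ E.B β (E.ρ γ) = 0)) :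
    E.El [] (β + γ) (p.mul i j k) T3 := by
  refine ⟨E.Radd _ _ P.1 Q.1 b, fun u hu => ?_⟩
  obtain ⟨s, hs, rfl⟩ := sp_mul (β := β) (fun e => by
    rcases l with l | l
    · exact ⟨by rw [map_add, l.1, l.2], Q.fix l.2⟩
    · have := l.1; rw [e, E.R2 β P.1] at this; omega) hu
  obtain ⟨e, he, r⟩ := rel0 P.1 Q.1 b l
  exact comm_eb (ex := []) cc (P.2 s hs) (Q.2 _ rfl) fun c c' g k hc hc' y y' =>
    ⟨e * c * c', _, 1, (he.isU.mul hc).mul hc', (mul_one _).symm,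
      by convert r _ _ g k y y' using 1; ring, one_mem _⟩

theorem comm1 (cc : E.CC κ β T κ' γ T' T3) (P : E.El κ β .all T) (Q : E.El κ' γ (.mon i j k) T')
    (b : E.B β γ = -1) (lβ : E.B β (E.ρ β) = 0) (lγ : E.B γ (E.ρ γ) = 0) (b2 : E.B β (E.ρ γ) = 1)
    (tr : ∃ k, k + E.φ k = 1) : E.El [] (β + γ) .all T3 := by
  refine ⟨E.Radd _ _ P.1 Q.1 b, fun u hu => ?_⟩
  obtain ⟨l, e, he, r⟩ := rel1 P.1 Q.1 b lβ lγ b2
  obtain ⟨q, hq⟩ := tr
  refine comm_eb (ex := []) cc (P.2 (u * q / E.mv i j k) fun e => by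
    rw [e, E.R2 β P.1] at lβ; omega) (Q.2 _ rfl) fun c c' g k' hc hc' y y' =>
    ⟨e * c * c', _, 1, (he.isU.mul hc).mul hc', (mul_one _).symm, ?_, one_mem _⟩
  convert r _ _ g k' y y' using 1
  have : e * (c * (u * q / E.mv i j k)) * (c' * E.mv i j k) = e * c * c' * u * q := by
    have := mv_ne (E := E) i j k
    field_simp
  rw [this]
  simp only [map_mul, he.map, hc.map, hc'.map, hu l]
  linear_combination (-(e * c * c' * u)) * hq

theorem commD {s t : K} (cc : E.CC κ β T κ' γ T' T3) (hβ : E.R β) (hγ : E.R γ) (P : E.Eb κ β s T)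
    (Q : E.Eb κ' γ t T') (b : E.B β γ = -1) (l : (E.B β (E.ρ β) = 0 ∧ E.ρ γ = γ) ∨
      (E.B β (E.ρ β) = -1 ∧ E.B γ (E.ρ γ) = 0 ∧ E.B β (E.ρ γ) = 0)) :
    E.Eb [] (β + γ) (s * t) ((β + γ + E.ρ β) :: T3) := by
  obtain ⟨e, he, r⟩ := relD hβ hγ b l
  refine comm_eb (ex := [_]) cc P Q fun c c' g k hc hc' y y' => ?_
  obtain ⟨g1, g2, q, y1, y2⟩ := r _ _ g k y y'
  exact ⟨e * c * c', g1, g2, (he.isU.mul hc).mul hc', q, by convert y1 using 1; ring,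
    (inT_mem (by simp)).mem y2⟩

theorem comm2 (cc : E.CC κ β T κ' γ T' T3) (P : E.El κ β p T) (Q : E.El κ' γ (.mon i j k) T')
    (b : E.B β γ = -1) (l : (E.B β (E.ρ β) = 0 ∧ E.ρ γ = γ) ∨
      (E.B β (E.ρ β) = -1 ∧ E.B γ (E.ρ γ) = 0 ∧ E.B β (E.ρ γ) = 0)) :
    E.El [] (β + γ) (p.mul i j k) ((β + γ + E.ρ β) :: T3) := by
  refine ⟨E.Radd _ _ P.1 Q.1 b, fun u hu => ?_⟩
  obtain ⟨s, hs, rfl⟩ := sp_mul (β := β) (fun e => by
    have := E.R2 β P.1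
    rw [e] at l; omega) hu
  exact commD cc P.1 Q.1 (P.2 s hs) (Q.2 _ rfl) b l

theorem comm3 (cc : E.CC κ β T κ' γ T' T3) (P : E.El κ β (.mon i j k) T) (Q : E.El κ' γ .all T')
    (b : E.B β γ = -1) (l : E.B β (E.ρ β) = 0) (l' : E.ρ γ = γ) :
    E.El [] (β + γ) (.fs (i - j)) ((β + γ + E.ρ β) :: T3) := by
  refine ⟨E.Radd _ _ P.1 Q.1 b, ?_⟩
  rintro u ⟨r, hr, rfl⟩
  have := commD cc P.1 Q.1 (P.2 _ rfl) (Q.2 (r / E.mv j j k) fun _ => by rw [map_div₀, hr, φ_mv]) b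
    (Or.inl ⟨l, l'⟩)
  convert this using 1
  rw [mv_fs i j k]
  have := mv_ne (E := E) j j k
  field_simp

theorem comm4 (cc : E.CC κ β T κ' γ T' T3) (P : E.El κ β (.mon i j k) T) (Q : E.El κ' γ .all T')
    (b : E.B β γ = -1) (l : E.B β (E.ρ β) = -1) (l' : E.B γ (E.ρ γ) = 0) (b2 : E.B β (E.ρ γ) = 0) :
    E.El [] (β + γ) .all ((β + γ + E.ρ β) :: T3) := by
  refine ⟨E.Radd _ _ P.1 Q.1 b, fun u _ => ?_⟩
  have := commD cc P.1 Q.1 (P.2 _ rfl) (Q.2 (u / E.mv i j k) fun e => by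
    rw [e, E.R2 γ Q.1] at l'; omega) b (Or.inr ⟨l, l', b2⟩)
  rwa [mul_div_cancel₀ _ (mv_ne i j k)] at this

theorem commW {s t : K} (cc : E.CC κ β T κ' γ T' T3) (hβ : E.R β) (hγ : E.R γ) (P : E.Eb κ β s T)
    (Q : E.Eb κ' γ t T') (b : E.B β γ = -1) (l : E.B β (E.ρ β) = 0) (l' : E.ρ γ = γ) :
    E.R (β + γ + E.ρ β) ∧ E.ρ (β + γ + E.ρ β) = β + γ + E.ρ β ∧
    E.Eb [] (β + γ + E.ρ β) (s * E.φ s * t) ((β + γ) :: T3) := by
  obtain ⟨lw, e, e', -, he, r⟩ := rel2 hβ hγ b l l'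
  have : E.Eb [] (β + γ + E.ρ β) (s * E.φ s * t) ((β + γ) :: T3) := by
    refine comm_eb (ex := [_]) cc P Q fun c c' g k hc hc' y y' => ?_
    obtain ⟨g1, g2, q, cm, y1, y2⟩ := r _ _ g k y y'
    exact ⟨e' * c * c * c', g2, g1, ((he.isU.mul hc).mul hc).mul hc', by rw [q, cm.eq],
      by convert y2 using 1; rw [map_mul, hc.map]; ring, (inT_mem (by simp)).mem y1.mem⟩
  obtain ⟨_, _, _, _, _, _, y, _⟩ := id this
  exact ⟨y.1, lw, this⟩

theorem comm5 (cc : E.CC κ β T κ' γ T' T3) (P : E.El κ β (.mon i j k) T) (Q : E.El κ' γ .all T')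
    (b : E.B β γ = -1) (l : E.B β (E.ρ β) = 0) (l' : E.ρ γ = γ) :
    E.El [] (β + γ + E.ρ β) .all ((β + γ) :: T3) := by
  have h0 := commW cc P.1 Q.1 (P.2 _ rfl) (Q.2 0 fun _ => map_zero _) b l l'
  refine ⟨h0.1, fun u hu => ?_⟩
  have := (commW cc P.1 Q.1 (P.2 _ rfl) (Q.2 (u / (E.mv i j k * E.φ (E.mv i j k))) fun _ => by
    rw [map_div₀, hu h0.2.1, map_mul, E.φφ, mul_comm]) b l l').2.2
  rwa [mul_div_cancel₀ _ (mul_ne_zero (mv_ne i j k) ((map_ne_zero E.φ).2 (mv_ne i j k)))] at this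

theorem comm6 {a b c : ℤ} (cc : E.CC κ β T κ' γ T' T3) (P : E.El κ β (.mon i j k) T)
    (Q : E.El κ' γ (.mon a b c) T') (bb : E.B β γ = -1) (l : E.B β (E.ρ β) = 0) (l' : E.ρ γ = γ) :
    E.El [] (β + γ + E.ρ β) (.mon (i + j + a) (j + i + b) (k + k + c)) ((β + γ) :: T3) := by
  have h0 := commW cc P.1 Q.1 (P.2 _ rfl) (Q.2 _ rfl) bb l l'
  refine ⟨h0.1, fun u hu => ?_⟩
  rw [show u = _ from hu, mv_add, mv_add, ← φ_mv i j k]
  exact h0.2.2

theorem comm7 [Finite K] (cc : E.CC κ β T κ' γ T' T3) (P : E.El κ β .all T)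
    (Q : E.El κ' γ (.mon i j k) T') (b : E.B β γ = -1) (l : E.B β (E.ρ β) = 0) (l' : E.ρ γ = γ)
    (h2 : (-1 : K) = 1) (hi : ∀ s, E.φ s = s) : E.El [] (β + γ + E.ρ β) .all ((β + γ) :: T3) := by
  have h0 := commW cc P.1 Q.1 (P.2 0 fun _ => hi _) (Q.2 _ rfl) b l l'
  refine ⟨h0.1, fun u _ => ?_⟩
  obtain ⟨x, y, e⟩ := sum_sq K (u / E.mv i j k)
  have := (commW cc P.1 Q.1 (P.2 (x + y) fun _ => hi _) (Q.2 _ rfl) b l l').2.2
  convert this using 1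
  rw [hi, ← div_mul_cancel₀ u (mv_ne (E := E) i j k), e]
  linear_combination (x * y * E.mv i j k) * h2

end comm

theorem A.add0 {β γ : L} {s t : K} (h : E.A β s) (h' : E.A γ t) (b : E.B β γ = -1)
    (l : (E.ρ β = β ∧ E.ρ γ = γ) ∨
      (E.B β (E.ρ β) = 0 ∧ E.B γ (E.ρ γ) = 0 ∧ E.B β (E.ρ γ) = 0)) : E.A (β + γ) (s * t) := by
  obtain ⟨g, hg, y⟩ := h
  obtain ⟨k, hk, y'⟩ := h'
  obtain ⟨e, he, r⟩ := rel0 y.1 y'.1 b l
  have : E.A (β + γ) (e * s * t) :=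
    ⟨_, mul_mem (mul_mem (mul_mem hg hk) (inv_mem hg)) (inv_mem hk), r s t g k y y'⟩
  obtain ⟨⟨n, rfl⟩, -⟩ := he.isU
  have := this.zsmul n
  rwa [← mul_assoc, ← mul_assoc, he.sq, one_mul] at this

theorem stabI [Finite K] {β γ : L} {i j k a b c : ℤ} (P : E.El [] γ (.mon i j k) [])
    (Q : E.El [] (-γ) (.mon a b c) []) (bb : E.B β γ = -1) (l : (E.ρ β = β ∧ E.ρ γ = γ) ∨
      (E.B β (E.ρ β) = 0 ∧ E.B γ (E.ρ γ) = 0 ∧ E.B β (E.ρ γ) = 0)) :
    E.Stab β (E.mv (i + a) (j + b) (k + c)) := by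
  intro s hs
  have g2 := E.R2 γ P.1
  have := (hs.add0 (P.2 _ rfl).a bb l).add0 (Q.2 _ rfl).a
    (by simp only [map_add, map_neg, AddMonoidHom.add_apply]; omega) (by
      rcases l with l | l
      · exact Or.inl ⟨by rw [map_add, l.1, l.2], by rw [map_neg, l.2]⟩
      · have : E.B γ (E.ρ β) = 0 := by rw [← E.Bρ', E.symm, l.2.2]
        right
        simp only [map_add, map_neg, AddMonoidHom.add_apply, AddMonoidHom.neg_apply]; omega)
  rw [add_neg_cancel_right] at this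
  convert this using 1
  rw [mv_add]; ring

theorem Stab.mul {β : L} {p q : K} (h : E.Stab β p) (h' : E.Stab β q) : E.Stab β (p * q) :=
  fun s hs => by rw [mul_assoc]; exact h _ (h' s hs)

theorem Stab.pow {β : L} {p : K} (h : E.Stab β p) (n : ℕ) : E.Stab β (p ^ n) := by
  induction n with
  | zero => exact fun s hs => by simpa using hs
  | succ n ih => rw [pow_succ]; exact ih.mul h

theorem stabA {β : L} {i j k a b c : ℤ} (h : E.Stab β (E.mv i j k)) (h' : E.Stab β (E.mv a b c)) :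
    E.Stab β (E.mv (i + a) (j + b) (k + c)) := by rw [mv_add]; exact h.mul h'

theorem stabN [Finite K] {β : L} {i j k : ℤ} (h : E.Stab β (E.mv i j k)) :
    E.Stab β (E.mv (-i) (-j) (-k)) := by
  obtain ⟨n, e⟩ := inv_eq_pow (mv_ne (E := E) i j k)
  have : E.mv (-i) (-j) (-k) = E.mv i j k ^ n := by
    apply mul_right_cancel₀ (mv_ne (E := E) i j k)
    rw [e, ← mv_add]; simp [mv]
  rw [this]; exact h.pow n

theorem Stab.all [Finite K] {β : L} {p : K} {i j k : ℤ} (h : E.Stab β p)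
    (P : E.El [] β (.mon i j k) [])
    (hp : ∀ b, b ≠ 0 → (E.ρ β = β → E.φ b = b) → ∃ n : ℕ, b ^ 2 = p ^ n) : E.El [] β .all [] := by
  refine ⟨P.1, fun u hu => A.eb ?_⟩
  have h0 := (P.2 _ rfl).a
  have sq : ∀ b, (E.ρ β = β → E.φ b = b) → E.A β (b ^ 2 * E.mv i j k) := by
    intro b hb
    by_cases e : b = 0
    · simpa [e] using h0.zsmul 0
    · obtain ⟨n, e⟩ := hp b e hb
      rw [e]; exact h.pow n _ h0
  obtain ⟨x, y, hx, hy, e⟩ : ∃ x y, (E.ρ β = β → E.φ x = x) ∧ (E.ρ β = β → E.φ y = y) ∧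
      u / E.mv i j k = x ^ 2 + y ^ 2 := by
    by_cases l : E.ρ β = β
    · obtain ⟨x, y, hx, hy, e⟩ := sum_sq_fix E.φ (a := u / E.mv i j k)
        (by rw [map_div₀, hu l, P.fix l])
      exact ⟨x, y, fun _ => hx, fun _ => hy, e⟩
    · obtain ⟨x, y, e⟩ := sum_sq K (u / E.mv i j k)
      exact ⟨x, y, fun h => absurd h l, fun h => absurd h l, e⟩
  rw [← div_mul_cancel₀ u (mv_ne (E := E) i j k), e, add_mul]
  exact (sq x hx).add (sq y hy)

theorem good_t {b : K} (hb : b ≠ 0) {i j k : ℤ} (h : (i = 1 ∧ j = 0 ∨ i = 2 ∧ j = 0 ∨ i = 0 ∧ j = 1 ∨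
    i = 0 ∧ j = 2) ∧ k = 0) : ∃ n : ℕ, b ^ 2 = E.mv i j k ^ n := by
  obtain ⟨n, e⟩ := E.ht b hb
  obtain ⟨m, e'⟩ := E.ht (E.φ b) ((map_ne_zero E.φ).2 hb)
  have e2 : b = E.φ E.t ^ m := by rw [← map_pow, ← e', E.φφ]
  obtain ⟨⟨rfl, rfl⟩ | ⟨rfl, rfl⟩ | ⟨rfl, rfl⟩ | ⟨rfl, rfl⟩, rfl⟩ := h
  · exact ⟨n * 2, by simp [mv, e, pow_mul]⟩
  · exact ⟨n, by simp only [mv, e, zpow_zero, mul_one, zpow_two]; ring⟩
  · exact ⟨m * 2, by simp [mv, e2, pow_mul]⟩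
  · exact ⟨m, by simp only [mv, e2, zpow_zero, mul_one, zpow_two]; ring⟩

theorem good_f {b : K} (hb : b ≠ 0) (hf : E.φ b = b) {i j k : ℤ}
    (h : i = 0 ∧ j = 0 ∧ k = 1 ∨ i = 0 ∧ j = 0 ∧ k = 2 ∨ i = 1 ∧ j = 1 ∧ k = 0) :
    ∃ n : ℕ, b ^ 2 = E.mv i j k ^ n := by
  obtain ⟨n, e⟩ := E.hf b hb hf
  obtain ⟨m, e'⟩ := E.ht b hb
  obtain ⟨rfl, rfl, rfl⟩ | ⟨rfl, rfl, rfl⟩ | ⟨rfl, rfl, rfl⟩ := h
  · exact ⟨n * 2, by simp [mv, e, pow_mul]⟩
  · exact ⟨n, by simp only [mv, e, zpow_zero, one_mul, zpow_two]; ring⟩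
  · refine ⟨m, ?_⟩
    simp only [mv, zpow_one, zpow_zero, mul_one, mul_pow]
    rw [← map_pow, ← e', hf, pow_two]

theorem good_id {b : K} (hb : b ≠ 0) (hi : ∀ s, E.φ s = s) (hf : E.f = E.t) {i j k : ℤ}
    (h : i + j + k = 1 ∨ i + j + k = 2) : ∃ n : ℕ, b ^ 2 = E.mv i j k ^ n := by
  have : E.mv i j k = E.mv (i + j + k) 0 0 := by
    simp [mv, hi, hf, zpow_add₀ E.t0]
  rw [this]
  exact good_t hb ⟨by omega, rfl⟩

theorem fs2 [Finite K] {β : L} {e d : ℤ} (P : E.El [] β (.fs e) []) (Q : E.El [] β (.fs (e + d)) [])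
    (hd : d = 1 ∨ d = 2) : E.El [] β .all [] := by
  by_cases h : E.φ (E.mv d 0 0) = E.mv d 0 0
  · refine P.fsid fun s => ?_
    have sq : ∀ b : K, E.φ (b ^ 2) = b ^ 2 := by
      intro b
      by_cases hb : b = 0
      · simp [hb]
      · obtain ⟨n, q⟩ := good_t (E := E) hb (i := d) (j := 0) (k := 0) ⟨by omega, rfl⟩
        rw [q, map_pow, h]
    obtain ⟨x, y, rfl⟩ := sum_sq K s
    rw [map_add, sq, sq]
  · refine ⟨P.1, fun u _ => A.eb ?_⟩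
    have hτ : E.mv d 0 0 = E.t ^ d := by simp [mv]
    rw [hτ] at h
    set τ := E.t ^ d
    set x := u / E.t ^ e with hx
    have n0 : τ - E.φ τ ≠ 0 := sub_ne_zero.2 (Ne.symm h)
    have n1 : E.φ τ - τ ≠ 0 := sub_ne_zero.2 h
    have b1 : E.φ ((x - E.φ x) / (τ - E.φ τ)) = (x - E.φ x) / (τ - E.φ τ) := by
      rw [map_div₀, map_sub, map_sub, E.φφ, E.φφ]; field_simp; ring
    set b := (x - E.φ x) / (τ - E.φ τ) with hb
    have b2 : E.φ (x - b * τ) = x - b * τ := by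
      rw [map_sub, map_mul, b1, hb]; field_simp; ring
    have := (P.2 _ ⟨_, b2, rfl⟩).a.add (Q.2 _ ⟨_, b1, rfl⟩).a
    convert this using 1
    rw [zpow_add₀ E.t0, hx]
    have := zpow_ne_zero e E.t0
    field_simp
    ring

/-- A factor of a product. -/
def Item (E : Env G L K) (i : L × Option (ℤ × ℤ × ℤ)) (g : G) : Prop :=
  match i.2 with
  | some e => ∃ c, IsU c ∧ E.Yp i.1 (c * E.mv e.1 e.2.1 e.2.2) g
  | none => g ∈ E.U i.1

/-- Products of factors. -/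
def Prd (E : Env G L K) : List (L × Option (ℤ × ℤ × ℤ)) → G → Prop
  | [], g => g = 1
  | i :: l, g => ∃ a b, E.Item i a ∧ E.Prd l b ∧ g = a * b

/-- The starting element of `H`. -/
def Base (E : Env G L K) (κ : List L) (l : List (L × Option (ℤ × ℤ × ℤ))) : Prop :=
  ∃ h g, E.Tor h κ ∧ E.Prd l g ∧ h * g ∈ E.H

theorem Item.mem {i : L × Option (ℤ × ℤ × ℤ)} {g : G} (h : E.Item i g) : g ∈ E.U i.1 := by
  obtain ⟨δ, _ | e⟩ := i
  · exact h
  · obtain ⟨c, -, y⟩ := h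
    exact y.mem

theorem Prd.append {l l' : List (L × Option (ℤ × ℤ × ℤ))} {g : G} :
    E.Prd (l ++ l') g ↔ ∃ a b, E.Prd l a ∧ E.Prd l' b ∧ g = a * b := by
  induction l generalizing g with
  | nil => simp only [List.nil_append, Prd, exists_and_left, exists_eq_left, one_mul, exists_eq_right']
  | cons i l ih =>
    simp only [List.cons_append, Prd, ih]
    constructor
    · rintro ⟨a, _, ha, ⟨b, c, hb, hc, rfl⟩, rfl⟩
      exact ⟨_, c, ⟨a, b, ha, hb, rfl⟩, hc, (mul_assoc _ _ _).symm⟩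
    · rintro ⟨_, c, ⟨a, b, ha, hb, rfl⟩, hc, rfl⟩
      exact ⟨a, _, ha, ⟨b, c, hb, hc, rfl⟩, mul_assoc _ _ _⟩

theorem Prd.mem {l : List (L × Option (ℤ × ℤ × ℤ))} {g : G} (h : E.Prd l g) {N : Subgroup G}
    (hN : ∀ i ∈ l, ∀ a ∈ E.U i.1, a ∈ N) : g ∈ N := by
  induction l generalizing g with
  | nil => rw [show g = 1 from h]; exact one_mem _
  | cons i l ih =>
    obtain ⟨a, b, ha, hb, rfl⟩ := h
    exact mul_mem (hN i (by simp) a ha.mem) (ih hb fun j hj => hN j (by simp [hj]))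

theorem Base.el {κ : List L} {l1 l2 : List (L × Option (ℤ × ℤ × ℤ))} {β : L} {i j k : ℤ}
    {T : List L} (h : E.Base κ (l1 ++ (β, some (i, j, k)) :: l2))
    (h1 : ∀ δ ∈ l1, E.Out δ.1 β T ∧ E.InT δ.1 T) (h2 : ∀ δ ∈ l2, E.InT δ.1 T) :
    E.El κ β (.mon i j k) T := by
  obtain ⟨h, g, t, p, mem⟩ := h
  obtain ⟨a, _, pa, ⟨y, b, ⟨c, hc, hy⟩, pb, rfl⟩, rfl⟩ := Prd.append.1 p
  refine ⟨hy.1, ?_⟩
  rintro _ rfl
  refine ⟨c, h, y, y⁻¹ * a * y * b, hc, t, hy, mul_mem ?_ (pb.mem fun δ hδ _ => (h2 δ hδ).mem), ?_⟩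
  · have := pa.mem (N := (E.Grp T).comap (MulAut.conj y⁻¹).toMonoidHom) fun δ hδ u hu => by
      have := mul_mem ((h1 δ hδ).1.swap _ (U_inv hy.mem) u hu) ((h1 δ hδ).2.mem hu)
      simpa only [map_inv, MulEquiv.toMonoidHom_eq_coe, mem_comap, MonoidHom.coe_coe, MulAut.inv_apply, MulAut.conj_symm_apply, mul_assoc, commutatorElement_def, inv_inv, inv_mul_cancel, mul_one] using this
    simpa only [map_inv, MulEquiv.toMonoidHom_eq_coe, mem_comap, MonoidHom.coe_coe, MulAut.inv_apply, MulAut.conj_symm_apply] using this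
  · convert mem using 1; group

end Env

end Pool.Agent.MP_c78e8e_al.H75

end

section

namespace Pool.Agent.MP_c78e8e_al.H75

open Subgroup
open scoped commutatorElement

theorem ugrp {G : Type} [Group G] {a h y p : G} {k : ℤ} (aa : a * a = 1) (hh : h * h = 1)
    (ah : Commute a h) (hy : h * y * h⁻¹ = y⁻¹) (hp : h * p * h⁻¹ = p⁻¹)
    (c1 : Commute y (a * y * a⁻¹)) (c2 : Commute y p) (c3 : Commute y (a * p * a⁻¹))
    (c4 : Commute ⁅p, a * p * a⁻¹⁆ p) (c5 : Commute ⁅p, a * p * a⁻¹⁆ (a * p * a⁻¹))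
    (hk : ⁅p, a * p * a⁻¹⁆ ^ (4 * k) = ⁅p, a * p * a⁻¹⁆) :
    ((a * (y * p * ⁅p, a * p * a⁻¹⁆ ^ k) * a⁻¹)⁻¹ * h * (y * p * ⁅p, a * p * a⁻¹⁆ ^ k)) *
    ((a * (y * p * ⁅p, a * p * a⁻¹⁆ ^ k) * a⁻¹)⁻¹ * h * (y * p * ⁅p, a * p * a⁻¹⁆ ^ k)) = 1 := by
  have ai : a⁻¹ = a := inv_eq_of_mul_eq_one_right aa
  have hi : h⁻¹ = h := inv_eq_of_mul_eq_one_right hh
  have cc : ∀ x, a * (a * x * a⁻¹) * a⁻¹ = x := fun x => by
    rw [ai, ← mul_assoc, ← mul_assoc, aa, one_mul, mul_assoc, aa, mul_one]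
  have cj : ∀ {u v}, Commute u v → Commute (a * u * a⁻¹) (a * v * a⁻¹) := fun {u v} c =>
    c.map (MulAut.conj a)
  have hj : ∀ {u}, h * u * h⁻¹ = u⁻¹ → h * (a * u * a⁻¹) * h⁻¹ = (a * u * a⁻¹)⁻¹ := by
    intro u e
    calc _ = (h * a) * u * (h * a)⁻¹ := by group
      _ = a * (h * u * h⁻¹) * a⁻¹ := by rw [← ah.eq]; group
      _ = _ := by rw [e]; group
  have hy' := hj hy
  have hp' := hj hp
  have c6 := cj c2
  have c7 := cj c3
  rw [cc] at c7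
  have aZ : a * ⁅p, a * p * a⁻¹⁆ ^ k * a⁻¹ = (⁅p, a * p * a⁻¹⁆ ^ k)⁻¹ := by
    rw [← conj_zpow, conjugate_commutatorElement, cc, ← commutatorElement_inv, inv_zpow]
  have e0 : a * (y * p * ⁅p, a * p * a⁻¹⁆ ^ k) * a⁻¹ =
    (a * y * a⁻¹) * (a * p * a⁻¹) * (a * ⁅p, a * p * a⁻¹⁆ ^ k * a⁻¹) := by group
  rw [e0, aZ]
  generalize a * y * a⁻¹ = y' at *
  generalize a * p * a⁻¹ = p' at *
  have cZ : ∀ u, Commute u p → Commute u p' → Commute ⁅p, p'⁆ u := fun u q q' =>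
    (((q.mul_right q').mul_right q.inv_right).mul_right q'.inv_right).symm
  have e1 : ⁅p⁻¹, p'⁻¹⁆ = ⁅p, p'⁆ := by
    have : ⁅p⁻¹, p'⁻¹⁆ = (p' * p)⁻¹ * ⁅p, p'⁆ * (p' * p) := by
      simp only [commutatorElement_def]; group
    rw [this, mul_assoc, (c5.mul_right c4).eq]; group
  have cH : Commute ⁅p, p'⁆ h := by
    have := conjugate_commutatorElement (g₁ := p) (g₂ := p') (g₃ := h)
    rw [hp, hp', e1, mul_inv_eq_iff_eq_mul] at this
    exact this.symm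
  have z1 := (cZ y c2 c3).zpow_left k
  have z2 := (cZ y' c7 c6).zpow_left k
  have z3 := c4.zpow_left k
  have z4 := c5.zpow_left k
  have z5 := cH.zpow_left k
  have z6 : ⁅p, p'⁆ ^ k * ⁅p, p'⁆ ^ k * (⁅p, p'⁆ ^ k * ⁅p, p'⁆ ^ k) = ⁅p⁻¹, p'⁻¹⁆ := by
    rw [e1]; nth_rw 5 [← hk]; group
  generalize ⁅p, p'⁆ ^ k = z at *
  have e2 : (y' * p' * z⁻¹)⁻¹ * h * (y * p * z) = z * z * (h * (p' * p * (y' * y))) := by
    have := (((z4.inv_right.mul_right z2.inv_right).mul_right z5).mul_right z1).mul_right z3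
    calc _ = z * (p'⁻¹ * y'⁻¹ * h * y * p * z) := by group
      _ = z * z * (p'⁻¹ * y'⁻¹ * h * y * p) := by rw [← this.eq]; group
      _ = z * z * (h * (p' * (y' * y * p))) := by rw [← hp', ← hy']; group
      _ = _ := by rw [(c7.mul_left c2).eq]; group
  have c8 : Commute (z * z) (h * (p' * p * (y' * y))) := by
    have := z5.mul_right ((z4.mul_right z3).mul_right (z2.mul_right z1))
    exact this.mul_left this
  rw [e2, c8.symm.mul_mul_mul_comm, z6]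
  have e3 : h * (p' * p * (y' * y)) * (h * (p' * p * (y' * y))) =
      (h * p' * h⁻¹) * (h * p * h⁻¹) * ((h * y' * h⁻¹) * (h * y * h⁻¹)) * (p' * p * (y' * y)) := by
    nth_rw 2 [← hi]; group
  have c9 : Commute (y'⁻¹ * y⁻¹) (p' * p) :=
    (c6.mul_right c7).inv_left.mul_left (c3.mul_right c2).inv_left
  rw [e3, hp, hp', hy, hy', mul_assoc (p'⁻¹ * p⁻¹), ← mul_assoc _ (p' * p), c9.eq, ← c1.eq,
    commutatorElement_def]
  group

namespace St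
variable {G L K : Type} [Group G] [AddCommGroup L] [Field K] {S : St G L K}

variable (S) in
/-- The group generated by all relative root groups. -/
def Gs : Subgroup G := closure {g | ∃ β, g ∈ S.U β}

theorem U_Gs {β : L} {g : G} (h : g ∈ S.U β) : g ∈ S.Gs := subset_closure ⟨β, h⟩

theorem N_Gs {α : L} (h : S.Ok α) : S.N α ∈ S.Gs := N_mem h (fun _ => U_Gs) fun _ => U_Gs

theorem grp_Gs {T : List L} : S.Grp T ≤ S.Gs := grp_le fun _ _ _ => U_Gs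

variable (S) in
/-- Commuting orbits. -/
def Cm (w z : L) : Prop := 0 ≤ S.B w z ∧ 0 ≤ S.B w (S.ρ z)

theorem grp_comm {T T' : List L} (h : ∀ w ∈ T, ∀ z ∈ T', S.Cm w z) {g k : G} (hg : g ∈ S.Grp T)
    (hk : k ∈ S.Grp T') : Commute g k := by
  refine commute_closure ?_ hk
  rintro b ⟨z, hz, hb⟩
  refine (commute_closure ?_ hg).symm
  rintro a ⟨w, hw, ha⟩
  exact (U_comm ha hb (h w hw z hz).1 (h w hw z hz).2).symm

variable (S) in
/-- A pair spanning a relative subsystem of type `A₂`. -/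
def A2 (β γ : L) : Prop := S.R β ∧ S.R γ ∧ S.B β γ = -1 ∧ ((S.ρ β = β ∧ S.ρ γ = γ) ∨
  (S.B β (S.ρ β) = 0 ∧ S.B γ (S.ρ γ) = 0 ∧ S.B β (S.ρ γ) = 0))

theorem A2.symm {β γ : L} (h : S.A2 β γ) : S.A2 γ β :=
  ⟨h.2.1, h.1, by rw [S.symm, h.2.2.1], h.2.2.2.imp And.symm fun l =>
    ⟨l.2.1, l.1, by rw [← S.Bρ', S.symm, l.2.2]⟩⟩

theorem A2.neg {β γ : L} (h : S.A2 β γ) : S.A2 (β + γ) (-γ) := by
  obtain ⟨hβ, hγ, b, l⟩ := h
  have g2 := S.R2 γ hγ
  refine ⟨S.Radd _ _ hβ hγ b, S.Rneg _ hγ, by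
    simp only [map_add, map_neg, AddMonoidHom.add_apply]; omega, ?_⟩
  rcases l with l | l
  · exact Or.inl ⟨by rw [map_add, l.1, l.2], by rw [map_neg, l.2]⟩
  · have : S.B γ (S.ρ β) = 0 := by rw [← S.Bρ', S.symm, l.2.2]
    right
    simp only [map_add, map_neg, AddMonoidHom.add_apply, AddMonoidHom.neg_apply]; omega

theorem A2.ok {β γ : L} (h : S.A2 β γ) : S.Ok β := ⟨h.1, h.2.2.2.imp And.left And.left⟩

theorem not_solvable {β γ : L} (h : S.A2 β γ) : ¬ Group.IsSolvable S.Gs := by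
  intro hs
  set M : Subgroup G := closure {g | ∃ β γ, S.A2 β γ ∧ g ∈ S.U β} with hM
  have le : M ≤ S.Gs := closure_mono (by rintro g ⟨β, -, -, hg⟩; exact ⟨β, hg⟩)
  have per : M ≤ ⁅M, M⁆ := by
    rw [hM, closure_le]
    rintro g ⟨β, γ, h, hg⟩
    have h' := h.neg
    obtain ⟨e, he, r⟩ := rel0 h'.1 h'.2.1 h'.2.2.1 h'.2.2.2
    obtain ⟨s, y⟩ := U_Yp hg (by have := h.ok.2; tauto)
    obtain ⟨k, y1⟩ : ∃ k, S.Yp (β + γ) (e * s) k := by
      rcases h.2.2.2 with l | l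
      · exact ⟨_, yp_long h'.1 (by rw [map_add, l.1, l.2]) (by rw [map_mul, he.map, (y.long l.1).2])⟩
      · rcases h'.ok.2 with l' | l'
        · have := h'.2.2.2
          have := l.1
          have := l.2.1
          have := l.2.2
          have : S.B γ (S.ρ β) = 0 := by rw [← S.Bρ', S.symm, l.2.2]
          have q := S.R2 _ h'.1
          nth_rw 2 [← l'] at q
          simp only [map_add, AddMonoidHom.add_apply] at q
          omega
        · exact ⟨_, yp_short h'.1 l' _⟩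
    have := r _ _ _ _ y1 h'.symm.ok.yp
    rw [add_neg_cancel_right, ← mul_assoc, he.sq, one_mul, mul_one] at this
    rw [y.uniq this h.ok.2]
    exact commutator_mem_commutator (subset_closure ⟨_, _, h', y1.mem⟩)
      (subset_closure ⟨_, _, h'.symm, h'.symm.ok.yp.mem⟩)
  have ne : M.subgroupOf S.Gs ≠ ⊥ := by
    intro e
    have hy := h.ok.yp
    have : (⟨_, U_Gs hy.mem⟩ : S.Gs) ∈ M.subgroupOf S.Gs := subset_closure ⟨β, γ, h, hy.mem⟩
    rw [e, mem_bot, Subtype.ext_iff] at this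
    rw [show S.Y β 1 = 1 from this] at hy
    exact one_ne_zero hy.zero
  refine (Group.IsSolvable.commutator_lt_of_ne_bot ne).not_ge ?_
  rw [← map_le_map_iff_of_injective S.Gs.subtype_injective, map_commutator,
    subgroupOf_map_subtype, inf_eq_left.2 le]
  exact per

theorem main {β γ : L} (h : S.A2 β γ) {a σ g : G} (ha : a ∈ S.Gs) (hσ : σ ∈ S.Gs) (hg : g ∈ S.Gs)
    (aa : a * a = 1) (uu : (a * (g⁻¹ * a * g)) * (a * (g⁻¹ * a * g)) = 1)
    (full : ∀ H : Subgroup G, a ∈ H → a * (g⁻¹ * a * g) ∈ H → σ * a * σ⁻¹ ∈ H →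
      ∀ β, ∀ u ∈ S.U β, u ∈ H) : IsLeast {n | Good S.Gs n} 3 := by
  refine isLeast_three (not_solvable h) ⟨a, ha⟩ (⟨g, hg⟩⁻¹ * ⟨a, ha⟩ * ⟨g, hg⟩)
    (⟨σ, hσ⟩ * ⟨a, ha⟩ * ⟨σ, hσ⟩⁻¹) (Subtype.ext aa) (isConj_iff.2 ⟨⟨g, hg⟩⁻¹, by simp only [inv_inv]⟩)
    (isConj_iff.2 ⟨_, rfl⟩) (Subtype.ext ?_) ?_
  · have ai : a⁻¹ = a := inv_eq_of_mul_eq_one_right aa
    have := inv_eq_of_mul_eq_one_right uu
    simp only [mul_inv_rev, inv_inv, ai] at this
    simp only [coe_mul, coe_inv]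
    rw [← this]; group
  · apply map_injective S.Gs.subtype_injective
    rw [MonoidHom.map_closure, ← MonoidHom.range_eq_map, range_subtype]
    simp only [Set.image_insert_eq, Set.image_singleton, coe_subtype, coe_mul, coe_inv]
    refine le_antisymm ?_ ?_
    · rw [closure_le]
      rintro x (rfl | rfl | rfl)
      · exact ha
      · exact mul_mem (mul_mem (inv_mem hg) ha) hg
      · exact mul_mem (mul_mem hσ ha) (inv_mem hσ)
    · rw [Gs, closure_le]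
      rintro x ⟨β, hx⟩
      have h1 : a ∈ closure ({a, g⁻¹ * a * g, σ * a * σ⁻¹} : Set G) := subset_closure (by simp only [Set.mem_insert_iff, Set.mem_singleton_iff, true_or])
      exact full _ h1 (mul_mem h1 (subset_closure (by simp only [Set.mem_insert_iff, Set.mem_singleton_iff, true_or, or_true]))) (subset_closure (by simp only [Set.mem_insert_iff, Set.mem_singleton_iff, or_true])) β x hx

theorem Tor.N {h : G} {κ : List L} (t : S.Tor h κ) {α : L} (o : S.Ok α) :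
    (S.sg κ α = 1 → h * S.N α * h⁻¹ = S.N α) ∧ (S.sg κ α = -1 → h * S.N α * h⁻¹ = (S.N α)⁻¹) := by
  have e : S.sg κ (-α) = S.sg κ α := by
    obtain ⟨f, -, -, p⟩ := t
    rw [← p _ o.1, ← p _ o.neg.1, map_neg, zpow_neg]
    exact inv_eq_of_mul_eq_one_right (pm_zpow _).sq
  have h1 := t.ok o.yp o.2
  have h2 := t.ok o.neg.yp o.neg.2
  rw [e] at h2
  have : h * S.N α * h⁻¹ = (h * S.Y α 1 * h⁻¹) * (h * S.Y (-α) 1 * h⁻¹) * (h * S.Y α 1 * h⁻¹) := by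
    rw [St.N]; group
  rw [this]
  exact ⟨fun o => by rw [h1.1 o, h2.1 o, St.N], fun o => by rw [h1.2 o, h2.2 o, St.N]; group⟩

theorem Tor.N' {h : G} {κ : List L} (t : S.Tor h κ) {α : L} (o : S.Ok α)
    (e : S.sg κ α = -1 ∨ S.N α * S.N α = 1) : h * S.N α * h⁻¹ = (S.N α)⁻¹ := by
  rcases e with e | e
  · exact (t.N o).2 e
  · rcases sg_pm (S := S) κ α with p | p
    · rw [(t.N o).1 p, inv_eq_of_mul_eq_one_right e]
    · exact (t.N o).2 p

theorem tor_long {α : L} (h : S.R α) (l : S.ρ α = α) : S.Tor (S.N α * S.N α) [α] := by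
  have o : S.Ok α := ⟨h, Or.inl l⟩
  exact ⟨_, o.N_sq, by rw [map_mul, o.mon.fix], fun β _ => by simp [sg, os_long l]⟩

theorem tor_short {α : L} (h : S.R α) (l : S.B α (S.ρ α) = 0) :
    S.Tor (S.N α * S.N α) [α, S.ρ α] := by
  have o : S.Ok α := ⟨h, Or.inr l⟩
  exact ⟨_, o.N_sq, by rw [map_mul, o.mon.fix], fun β _ => by simp [sg, os_short h l]⟩

theorem tor_mu (μ ν : List L) (hμ : ∀ α ∈ μ, S.R α ∧ S.ρ α = α)
    (hν : ∀ α ∈ ν, S.R α ∧ S.B α (S.ρ α) = 0) :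
    ∃ h ∈ S.Gs, S.Tor h (μ ++ ν.flatMap fun α => [α, S.ρ α]) := by
  induction μ with
  | nil =>
    induction ν with
    | nil => exact ⟨1, one_mem _, tor_nil⟩
    | cons α ν ih =>
      obtain ⟨h, m, t⟩ := ih fun β hβ => hν β (by simp [hβ])
      have o := hν α (by simp)
      have := N_Gs (S := S) ⟨o.1, Or.inr o.2⟩
      exact ⟨_, mul_mem (mul_mem this this) m, (tor_short o.1 o.2).mul t⟩
  | cons α μ ih =>
    obtain ⟨h, m, t⟩ := ih fun β hβ => hμ β (by simp [hβ])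
    have o := hμ α (by simp)
    have := N_Gs (S := S) ⟨o.1, Or.inl o.2⟩
    exact ⟨_, mul_mem (mul_mem this this) m, (tor_long o.1 o.2).mul t⟩

theorem N_orth {α δ : L} (o : S.Ok α) (b1 : S.B δ α = 0) (b2 : S.B δ (S.ρ α) = 0) {g : G}
    (hg : g ∈ S.U δ) : Commute g (S.N α) :=
  N_comm o (fun _ hk => U_comm hg hk b1.ge b2.ge) fun _ hk =>
    U_comm hg hk (by simp only [map_neg, b1, neg_zero, Std.le_refl]) (by simp only [map_neg, b2, neg_zero, Std.le_refl])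

theorem N_N {α δ : L} (o : S.Ok α) (o' : S.Ok δ) (b1 : S.B δ α = 0) (b2 : S.B δ (S.ρ α) = 0) :
    Commute (S.N α) (S.N δ) :=
  N_comm o' (fun _ hk => (N_orth o b1 b2 hk).symm) fun _ hk =>
    (N_orth o (by simp only [map_neg, AddMonoidHom.neg_apply, b1, neg_zero]) (by simp only [map_neg, AddMonoidHom.neg_apply, b2, neg_zero]) hk).symm

variable (S) in
/-- Products of relative reflections. -/
noncomputable def W (Ω : List L) : L ≃+ L := Ω.foldr (fun α w => w.trans (S.rs α)) (AddEquiv.refl L)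

theorem W_cons (α : L) (Ω : List L) (v : L) : S.W (α :: Ω) v = S.rs α (S.W Ω v) := rfl

theorem word (Ω : List L) (h : ∀ α ∈ Ω, S.Ok α) :
    (Ω.map S.N).prod ∈ S.Gs ∧ S.Mon (Ω.map S.N).prod (S.W Ω) := by
  induction Ω with
  | nil => exact ⟨one_mem _, mon_one⟩
  | cons α Ω ih =>
    obtain ⟨m, t⟩ := ih fun β hβ => h β (by simp [hβ])
    exact ⟨mul_mem (N_Gs (h α (by simp))) m, (h α (by simp)).mon.mul t⟩

theorem lift_core (Ω : List L) (h : ∀ α ∈ Ω, S.Ok α) {h0 : G} {κ : List L}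
    (m : h0 ∈ S.Gs) (t : S.Tor h0 κ) (inv : h0 * (Ω.map S.N).prod * h0⁻¹ * (Ω.map S.N).prod = 1) :
    ∃ a ∈ S.Gs, a * a = 1 ∧ S.Mon a (S.W Ω) ∧ ∀ δ, S.Ev κ δ →
      (∀ α ∈ Ω, S.B δ α = 0 ∧ S.B δ (S.ρ α) = 0) → ∀ g ∈ S.U δ, Commute a g := by
  obtain ⟨m', t'⟩ := word Ω h
  refine ⟨h0 * (Ω.map S.N).prod, mul_mem m m', ?_, ?_, fun δ e b g hg => ?_⟩
  · nth_rw 2 [← t.inv]
    rw [← mul_assoc, inv]
  · obtain ⟨f, rfl, tf, -⟩ := t
    exact (mon_hh tf).mul t'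
  · refine (t.ev e hg).mul_left (Commute.list_prod_left _ _ ?_)
    intro x hx
    obtain ⟨α, hα, rfl⟩ := List.mem_map.1 hx
    exact (N_orth (h α hα) (b α hα).1 (b α hα).2 hg).symm

theorem lift_step {α : L} {Ω : List L} (h : ∀ β ∈ α :: Ω, S.Ok β)
    (pw : ∀ δ ∈ Ω, S.B δ α = 0 ∧ S.B δ (S.ρ α) = 0) {h0 : G} {κ : List L} (t : S.Tor h0 κ) :
    h0 * ((α :: Ω).map S.N).prod * h0⁻¹ * ((α :: Ω).map S.N).prod =
      h0 * S.N α * h0⁻¹ * S.N α * (h0 * (Ω.map S.N).prod * h0⁻¹ * (Ω.map S.N).prod) := by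
  have o := h α (by simp)
  have c : Commute (S.N α) (Ω.map S.N).prod := Commute.list_prod_right _ _ (by
    intro x hx
    obtain ⟨δ, hδ, rfl⟩ := List.mem_map.1 hx
    exact N_N o (h δ (by simp [hδ])) (pw δ hδ).1 (pw δ hδ).2)
  have c' : Commute (h0 * S.N α * h0⁻¹) (h0 * (Ω.map S.N).prod * h0⁻¹) := c.map (MulAut.conj h0)
  have c2 : Commute (S.N α) (h0 * (Ω.map S.N).prod * h0⁻¹) := by
    rcases sg_pm (S := S) κ α with p | p
    · rwa [(t.N o).1 p] at c'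
    · rw [(t.N o).2 p] at c'; simpa only [Commute.inv_left_iff] using c'
  rw [List.map_cons, List.prod_cons]
  calc _ = h0 * S.N α * h0⁻¹ * (h0 * (Ω.map S.N).prod * h0⁻¹ * S.N α) * (Ω.map S.N).prod := by group
    _ = _ := by rw [← c2.eq]; group

theorem lift_list (Ω : List L) (h : ∀ α ∈ Ω, S.Ok α)
    (pw : Ω.Pairwise fun α δ => S.B δ α = 0 ∧ S.B δ (S.ρ α) = 0) {h0 : G} {κ : List L}
    (m : h0 ∈ S.Gs) (t : S.Tor h0 κ) (o : ∀ α ∈ Ω, S.sg κ α = -1 ∨ S.N α * S.N α = 1) :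
    ∃ a ∈ S.Gs, a * a = 1 ∧ S.Mon a (S.W Ω) ∧ ∀ δ, S.Ev κ δ →
      (∀ α ∈ Ω, S.B δ α = 0 ∧ S.B δ (S.ρ α) = 0) → ∀ g ∈ S.U δ, Commute a g := by
  refine lift_core Ω h m t ?_
  induction Ω with
  | nil => simp
  | cons α Ω ih =>
    rw [List.pairwise_cons] at pw
    rw [lift_step h pw.1 t, t.N' (h α (by simp)) (o α (by simp)),
      ih (fun β hβ => h β (by simp [hβ])) pw.2 fun β hβ => o β (by simp [hβ])]
    simp

theorem Mon.ok {m : G} {w : L ≃+ L} (h : S.Mon m w) {α : L} (o : S.Ok α) : S.Ok (w α) :=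
  ⟨(h.root α).2 o.1, o.2.imp (fun l => by rw [← h.com, l]) fun l => by rw [← h.com, h.iso, l]⟩

theorem Mon.W {m : G} {w : L ≃+ L} (h : S.Mon m w) (Ω : List L) (o : ∀ α ∈ Ω, S.Ok α) (v : L) :
    w (S.W Ω v) = S.W (Ω.map w) (w v) := by
  induction Ω with
  | nil => rfl
  | cons α Ω ih =>
    rw [List.map_cons, W_cons, W_cons, ← ih fun β hβ => o β (by simp [hβ])]
    have := o α (by simp)
    rcases this.2 with l | l
    · rw [rs_long this.1 l, rs_long (h.ok this).1 (by rw [← h.com, l]), map_sub, map_zsmul, h.iso]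
    · rw [rs_short this.1 l, rs_short (h.ok this).1 (by rw [← h.com, h.iso, l]), map_sub, map_sub,
        map_zsmul, map_zsmul, ← h.com, h.iso, h.iso]

end St

namespace Env
open St
variable {G L K : Type} [Group G] [AddCommGroup L] [Field K] {E : Env G L K}

theorem Prd.conj {l : List (L × Option (ℤ × ℤ × ℤ))} {g m : G} {w : L ≃+ L} (h : E.Prd l g)
    (hm : E.Mon m w) : E.Prd (l.map fun i => (w i.1, i.2)) (m * g * m⁻¹) := by
  induction l generalizing g with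
  | nil => rw [show g = 1 from h]; simp [Prd]
  | cons i l ih =>
    obtain ⟨a, b, ha, hb, rfl⟩ := h
    refine ⟨m * a * m⁻¹, _, ?_, ih hb, by group⟩
    obtain ⟨δ, _ | e⟩ := i
    · exact hm.U ha
    · obtain ⟨c, hc, y⟩ := ha
      obtain ⟨e, he, q⟩ := hm.cj δ y.1
      exact ⟨e * c, he.isU.mul hc, by rw [mul_assoc]; exact hm.Yp q y⟩

theorem Prd.inv {l : List (L × Option (ℤ × ℤ × ℤ))} {g : G} (h : E.Prd l g) :
    E.Prd l.reverse g⁻¹ := by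
  induction l generalizing g with
  | nil => rw [show g = 1 from h]; simp [Prd]
  | cons i l ih =>
    obtain ⟨a, b, ha, hb, rfl⟩ := h
    rw [List.reverse_cons, Prd.append]
    refine ⟨_, a⁻¹, ih hb, ⟨a⁻¹, 1, ?_, rfl, by simp⟩, by simp⟩
    obtain ⟨δ, _ | e⟩ := i
    · exact U_inv ha
    · obtain ⟨c, hc, y⟩ := ha
      exact ⟨-1 * c, pm_one.neg.isU.mul hc, by simpa using y.inv⟩

theorem Prd.congr {l : List (L × Option (ℤ × ℤ × ℤ))} {g : G} (h : E.Prd l g) (H : Subgroup G) :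
    ({ E with H := H } : Env G L K).Prd l g := by
  induction l generalizing g with
  | nil => exact h
  | cons i l ih =>
    obtain ⟨a, b, ha, hb, rfl⟩ := h
    exact ⟨a, b, ha, ih hb, rfl⟩

theorem Prd.grp {l : List (L × Option (ℤ × ℤ × ℤ))} {g : G} (h : E.Prd l g) :
    g ∈ E.Grp (l.map Prod.fst) :=
  h.mem fun _ hi _ ha => (inT_mem (List.mem_map_of_mem hi)).mem ha

theorem prd_ex {h : G} {κ : List L} (t : E.Tor h κ) (l : List (L × Option (ℤ × ℤ × ℤ)))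
    (o : ∀ i ∈ l, E.Ok i.1 ∧ E.sg κ i.1 = -1 ∧
      ∃ a b c, i.2 = some (a, b, c) ∧ (E.ρ i.1 = i.1 → a = b))
    (c : ∀ i ∈ l, ∀ j ∈ l, E.Cm i.1 j.1) : ∃ y, E.Prd l y ∧ h * y * h⁻¹ = y⁻¹ := by
  induction l with
  | nil => exact ⟨1, rfl, by simp⟩
  | cons i l ih =>
    obtain ⟨y, p, e⟩ := ih (fun j hj => o j (by simp [hj]))
      fun j hj k hk => c j (by simp [hj]) k (by simp [hk])
    obtain ⟨γ, _⟩ := i
    obtain ⟨ok, s, a, b, d, rfl, q⟩ := o _ List.mem_cons_self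
    obtain ⟨g, hg⟩ : ∃ g, E.Yp γ (E.mv a b d) g := by
      rcases ok.2 with l | l
      · exact ⟨_, yp_long ok.1 l (by rw [φ_mv, q l])⟩
      · exact ⟨_, yp_short ok.1 l _⟩
    have cm : Commute g y := grp_comm (T := [γ]) (by
      simp only [List.mem_singleton, List.mem_map]
      rintro _ rfl _ ⟨j, hj, rfl⟩
      exact c _ List.mem_cons_self j (by simp [hj])) ((inT_mem (by simp)).mem hg.mem) p.grp
    refine ⟨g * y, ⟨g, y, ⟨1, isU_one, by simpa using hg⟩, p, rfl⟩, ?_⟩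
    rw [cm.eq, mul_inv_rev, ← (t.ok hg ok.2).2 s, ← e, ← cm.eq]; group

variable (E) in
/-- The special factor of the conjugating element. -/
def Spec (a h : G) (sp om : List (L × Option (ℤ × ℤ × ℤ))) (av : List L) : Prop :=
  ∃ p, E.Prd sp p ∧ p ∈ E.Grp av ∧ h * p * h⁻¹ = p⁻¹ ∧ Commute ⁅p, a * p * a⁻¹⁆ p ∧
    Commute ⁅p, a * p * a⁻¹⁆ (a * p * a⁻¹) ∧
    ∃ k : ℤ, ⁅p, a * p * a⁻¹⁆ ^ (4 * k) = ⁅p, a * p * a⁻¹⁆ ∧ E.Prd om (⁅p, a * p * a⁻¹⁆ ^ k)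

theorem ulem {a h0 : G} {w : L ≃+ L} {κ av : List L} {Γ sp om : List (L × Option (ℤ × ℤ × ℤ))}
    (ha : a ∈ E.Gs) (aa : a * a = 1) (ma : E.Mon a w) (m0 : h0 ∈ E.Gs) (t0 : E.Tor h0 κ)
    (o : ∀ i ∈ Γ, E.Ok i.1 ∧ E.sg (κ.map w ++ κ) i.1 = -1 ∧
      ∃ a b c, i.2 = some (a, b, c) ∧ (E.ρ i.1 = i.1 → a = b))
    (c : ∀ i ∈ Γ, ∀ j ∈ Γ.map Prod.fst ++ av, E.Cm i.1 j ∧ E.Cm i.1 (w j))
    (s : ∀ h, E.Tor h (κ.map w ++ κ) → E.Spec a h sp om av) :
    ∃ g ∈ E.Gs, (a * (g⁻¹ * a * g)) * (a * (g⁻¹ * a * g)) = 1 ∧ ∀ H : Subgroup G,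
      a * (g⁻¹ * a * g) ∈ H → ({ E with H := H } : Env G L K).Base (κ.map w ++ κ)
        (((Γ ++ sp ++ om).map fun i => (w i.1, i.2)).reverse ++ (Γ ++ sp ++ om)) := by
  have ai : a⁻¹ = a := inv_eq_of_mul_eq_one_right aa
  have t := (t0.conj ma).mul t0
  obtain ⟨p, pp, pg, ph, c4, c5, k, hk, po⟩ := s _ t
  obtain ⟨y, py, hy⟩ := prd_ex t Γ o fun i hi j hj =>
    (c i hi j.1 (List.mem_append_left _ (List.mem_map_of_mem hj))).1
  have hh : a * h0 * a⁻¹ * h0 * (a * h0 * a⁻¹ * h0) = 1 := by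
    nth_rw 1 [← t.inv]; exact inv_mul_cancel _
  have ah : Commute a (a * h0 * a⁻¹ * h0) := by
    have := ((t0.conj ma).comm t0).eq
    rw [Commute, SemiconjBy]
    nth_rw 2 [this]
    rw [ai, ← mul_assoc, ← mul_assoc, ← mul_assoc, aa, one_mul, mul_assoc _ _ a, mul_assoc _ a a, aa]
    group
  have cm : ∀ {T : List L} {u}, (∀ j ∈ T, j ∈ Γ.map Prod.fst ++ av) → u ∈ E.Grp T →
      Commute y u ∧ Commute y (a * u * a⁻¹) := by
    intro T u hT hu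
    refine ⟨grp_comm ?_ py.grp hu, grp_comm ?_ py.grp (ma.grp hu)⟩
    · intro i hi j hj
      obtain ⟨i, hi', rfl⟩ := List.mem_map.1 hi
      exact (c i hi' j (hT j hj)).1
    · intro i hi j hj
      obtain ⟨i, hi', rfl⟩ := List.mem_map.1 hi
      obtain ⟨j, hj', rfl⟩ := List.mem_map.1 hj
      exact (c i hi' j (hT j hj')).2
  have c1 := (cm (fun j hj => List.mem_append_left _ hj) py.grp).2
  have c2 := cm (fun j hj => List.mem_append_right _ hj) pg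
  have U := ugrp aa hh ah hy ph c1 c2.1 c2.2 c4 c5 hk
  have pG := grp_Gs pg
  have pG' : a * p * a⁻¹ ∈ E.Gs := mul_mem (mul_mem ha pG) (inv_mem ha)
  have P : E.Prd (Γ ++ sp ++ om) (y * p * ⁅p, a * p * a⁻¹⁆ ^ k) :=
    Prd.append.2 ⟨_, _, Prd.append.2 ⟨_, _, py, pp, rfl⟩, po, rfl⟩
  have yG : y * p * ⁅p, a * p * a⁻¹⁆ ^ k ∈ E.Gs := grp_Gs P.grp
  generalize y * p * ⁅p, a * p * a⁻¹⁆ ^ k = Y at *
  have e : a * ((h0 * Y)⁻¹ * a * (h0 * Y)) = (a * Y * a⁻¹)⁻¹ * (a * h0 * a⁻¹ * h0) * Y := by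
    nth_rw 3 [← t0.inv]
    nth_rw 2 [← ai]
    group
  refine ⟨h0 * Y, mul_mem m0 yG, by rw [e, U], fun H hH => ?_⟩
  generalize a * h0 * a⁻¹ * h0 = h at *
  refine ⟨h, h * (a * Y * a⁻¹)⁻¹ * h⁻¹ * Y, t, Prd.congr (Prd.append.2 ⟨_, _, ?_, P, rfl⟩) H, ?_⟩
  · obtain ⟨f, rfl, tf, -⟩ := t
    have := (P.conj ma).inv.conj (mon_hh tf)
    simpa only [AddEquiv.refl_apply, Prod.mk.eta, List.map_id'] using this
  · rw [e] at hH
    convert hH using 1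
    rw [← mul_assoc, ← mul_assoc, ← mul_assoc, hh, one_mul, t.inv]

theorem spec0 (a h : G) : E.Spec a h [] [] [] :=
  ⟨1, rfl, one_mem _, by simp, by simp, by simp, 0, by simp, zpow_zero _⟩

theorem spec2 [Finite K] {a h : G} {w : L ≃+ L} {κ : List L} {γ γ' : L} {i j k : ℤ}
    (ma : E.Mon a w) (t : E.Tor h κ) (h2 : (2 : K) ≠ 0) (hγ : E.R γ)
    (l : E.B γ (E.ρ γ) = 0 ∨ E.B γ (E.ρ γ) = -1)
    (o : E.sg κ γ = -1) (e : γ' = w γ ∨ γ' = E.ρ (w γ)) (b : E.B γ γ' = -1)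
    (b2 : E.B γ (E.ρ γ') = 1) : E.Spec a h [(γ, some (i, j, k))] [(γ + γ', none)] [γ] := by
  obtain ⟨p, y, hp⟩ : ∃ p, E.Yp γ (E.mv i j k) p ∧ h * p * h⁻¹ = p⁻¹ := by
    rcases l with l | l
    · exact ⟨_, yp_short hγ l _, (t.ok (yp_short hγ l _) (Or.inr l)).2 o⟩
    obtain ⟨g, y⟩ := yp_bc_ex hγ l ⟨2⁻¹, by
      rw [map_inv₀, map_ofNat]; field_simp; norm_num⟩ (E.mv i j k)
    have y1 := t.yp y
    rw [o, neg_one_mul] at y1
    have z := y.inv.uniq_bc y1 l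
    rw [inv_inv] at z
    have lδ : E.ρ (γ + E.ρ γ) = γ + E.ρ γ := by rw [map_add, E.ρρ, add_comm]
    have r2 := E.R2 γ hγ
    have c := U_comm y.mem z (by rw [map_add]; omega) (by rw [lδ, map_add]; omega)
    obtain ⟨s, ys⟩ := U_Yp z (Or.inl lδ)
    obtain ⟨n, hn⟩ := IsU.inv (c := (2 : K)) ⟨⟨2, by norm_num⟩, h2⟩
    have hh : h * h = 1 := by nth_rw 1 [← t.inv]; exact inv_mul_cancel _
    have e1 : h * g * h⁻¹ = g⁻¹ * (g * (h * g * h⁻¹)) := by group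
    have e2 : h * (g * (h * g * h⁻¹)) * h⁻¹ = g * (h * g * h⁻¹) := by
      calc _ = (h * g * h⁻¹) * ((h * h) * g * (h * h)⁻¹) := by group
        _ = g⁻¹ * (g * (h * g * h⁻¹) * g) := by rw [hh]; group
        _ = _ := by rw [← c.eq]; group
    generalize g * (h * g * h⁻¹) = z' at *
    have e3 : z' ^ (1 - n - n) = 1 := Yp.uniq (by
      convert ys.zpow (1 - n - n) using 1
      push_cast; linear_combination s * hn) ys.one (Or.inl lδ)
    obtain ⟨r, er⟩ := y.bc l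
    refine ⟨g * z' ^ (-n), yp_bc hγ l (r := r + (-n : ℤ) * s)
      (by rw [map_mul, y.2.1, (ys.zpow _).2.1]) ?_, ?_⟩
    · rw [((ys.zpow (-n)).long lδ).1, E.x_add _ z.1, ← mul_assoc, ← er]
    · calc _ = (h * g * h⁻¹) * (h * z' * h⁻¹) ^ (-n) := by rw [conj_zpow]; group
        _ = g⁻¹ * z' ^ (1 - n - n) * z' ^ n := by rw [e1, e2]; group
        _ = _ := by rw [e3, (c.zpow_right (-n)).eq]; group
  have u : a * p * a⁻¹ ∈ E.U γ' := by
    rcases e with rfl | rfl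
    · exact ma.U y.mem
    · exact U_ρ (ma.U y.mem)
  have l' : E.B γ' (E.ρ γ') = E.B γ (E.ρ γ) := by
    rcases e with rfl | rfl
    · rw [← ma.com, ma.iso]
    · rw [E.Bρ, ← ma.com, ma.iso]
  obtain ⟨r1, r2, r3⟩ := relC hγ u.1 b (by omega) (by omega) b2.ge
  have z := r1 _ y.mem _ u
  have lw : E.ρ (γ + γ') = γ + γ' ∨ E.B (γ + γ') (E.ρ (γ + γ')) = 0 := by
    have : E.B γ' (E.ρ γ) = 1 := by rwa [← E.Bρ', E.symm]
    refine l.imp (fun l => (rel1 hγ u.1 b l (l'.trans l) b2).1) fun l => ?_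
    simp only [map_add, AddMonoidHom.add_apply]; omega
  obtain ⟨s, ys⟩ := U_Yp z (by tauto)
  obtain ⟨n, hn⟩ := IsU.inv (c := (2 * 2 : K)) ⟨⟨4, by norm_num⟩, mul_ne_zero h2 h2⟩
  refine ⟨p, ⟨p, 1, ⟨1, isU_one, by simpa using y⟩, rfl, by simp⟩, (inT_mem (by simp)).mem y.mem,
    hp, (r2 _ y.mem _ z).symm, (r3 _ u _ z).symm, n, ?_, _, 1, U_zpow z n, rfl, by simp only [mul_one]⟩
  refine Yp.uniq ?_ ys lw
  convert ys.zpow (4 * n) using 1
  push_cast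
  linear_combination (-s) * hn

theorem specW {a h : G} {w : L ≃+ L} {κ : List L} {γ δ : L} {i j k : ℤ}
    (ma : E.Mon a w) (t : E.Tor h κ) (h2 : (-1 : K) = 1) (hγ : E.R γ) (l : E.B γ (E.ρ γ) = 0)
    (hδ : E.R δ) (lδ : E.ρ δ = δ) (b : E.B γ (w γ) = -1) (b2 : E.B γ (E.ρ (w γ)) = 1)
    (b3 : E.B δ (w δ) = -1) (e : δ + w δ = γ + w γ) (c1 : E.Cm γ δ) (c2 : E.Cm γ (w δ))
    (c3 : E.Cm (w γ) δ) (c4 : E.Cm (w γ) (w δ)) :
    E.Spec a h [(γ, some (i, j, k)), (δ, none)] [] [γ, δ] := by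
  have pm : ∀ {e : K}, Pm e → e = 1 := fun h => h.elim id fun h => h.trans h2
  set s := E.mv i j k
  have y := yp_short hγ l s
  have y' := yp_long (s := s + E.φ s) hδ lδ (by rw [map_add, E.φφ, add_comm])
  generalize E.x γ s * E.θ (E.x γ s) = p at y
  generalize E.x δ (s + E.φ s) = q at y'
  obtain ⟨e1, he1, q1⟩ := ma.cj γ hγ
  obtain ⟨e2, he2, q2⟩ := ma.cj δ hδ
  have z := ma.Yp q1 y
  have z' := ma.Yp q2 y'
  rw [pm he1, one_mul] at z
  rw [pm he2, one_mul] at z'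
  obtain ⟨lw, e3, he3, r3⟩ := rel1 hγ z.1 b l (by rw [← ma.com, ma.iso, l]) b2
  obtain ⟨e4, he4, r4⟩ := rel0 hδ z'.1 b3 (Or.inl ⟨lδ, by rw [← ma.com, lδ]⟩)
  have cpq := U_comm y.mem y'.mem c1.1 c1.2
  have Z : ⁅p * q, a * (p * q) * a⁻¹⁆ = 1 := by
    have : a * (p * q) * a⁻¹ = (a * p * a⁻¹) * (a * q * a⁻¹) := by group
    rw [this, comm_prod cpq (U_comm y.mem z'.mem c2.1 c2.2) (U_comm z.mem y'.mem c3.1 c3.2)
      (U_comm z.mem z'.mem c4.1 c4.2)]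
    have h1 := r3 _ _ _ _ y z
    have h3 := r4 _ _ _ _ y' z'
    rw [e] at h3
    have h4 := h1.mul h3
    refine Yp.uniq ?_ h4.one (Or.inl lw)
    convert h4 using 1
    rw [pm he3, pm he4, one_mul, map_mul]
    linear_combination (s * s + E.φ s * E.φ s + s * E.φ s) * h2
  have o : ∀ β, E.sg κ β = -1 := fun β => (pm (sg_pm κ β)).trans h2.symm
  refine ⟨p * q, ⟨p, q, ⟨1, isU_one, by simpa using y⟩, ⟨q, 1, y'.mem, rfl, by simp⟩, rfl⟩,
    mul_mem ((inT_mem (by simp)).mem y.mem) ((inT_mem (by simp)).mem y'.mem), ?_, by simp [Z],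
    by simp [Z], 0, by simp [Z], zpow_zero _⟩
  rw [cpq.eq, mul_inv_rev, ← (t.ok y (Or.inr l)).2 (o _), ← (t.ok y' (Or.inl lδ)).2 (o _), ← cpq.eq]
  group

theorem specV {a h : G} {w : L ≃+ L} {κ : List L} {δ ζ : L} {i j k : ℤ}
    (ma : E.Mon a w) (t : E.Tor h κ) (tr : ∃ k, k + E.φ k = 1) (hδ : E.R δ)
    (l : E.B δ (E.ρ δ) = -1) (hζ : E.R ζ) (lζ : E.B ζ (E.ρ ζ) = 0) (b : E.B δ ζ = -1)
    (b2 : E.B δ (E.ρ ζ) = 0) (c : E.Cm ζ (w ζ)) (ev : E.Ev κ δ) (o : E.sg κ ζ = -1)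
    (ca : ∀ m ∈ E.U δ, Commute a m) :
    E.Spec a h [(δ + ζ, some (i, j, k)), (δ + ζ + E.ρ δ, none), (ζ, some (i, j, k))] [] [δ, ζ] := by
  obtain ⟨m, hm⟩ := yp_bc_ex hδ l tr 1
  have y := yp_short hζ lζ (E.mv i j k)
  generalize E.x ζ (E.mv i j k) * E.θ (E.x ζ (E.mv i j k)) = p at y
  obtain ⟨e, he, r⟩ := rel3 hδ hζ b l lζ b2
  obtain ⟨g1, g2, q, y1, y2⟩ := r _ _ _ _ hm y
  have Z : ⁅m * p * m⁻¹, a * (m * p * m⁻¹) * a⁻¹⁆ = 1 := by
    have : a * (m * p * m⁻¹) * a⁻¹ = m * (a * p * a⁻¹) * m⁻¹ := by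
      calc _ = (a * m) * p * (a * m)⁻¹ := by group
        _ = _ := by rw [(ca m hm.mem).eq]; group
    rw [this, ← conjugate_commutatorElement,
      (U_comm y.mem (ma.U y.mem) c.1 c.2).commutator_eq]; simp
  have hM : m ∈ E.Grp [δ, ζ] := (inT_mem (by simp)).mem hm.mem
  refine ⟨m * p * m⁻¹, ⟨g1, _, ⟨e, he.isU, by simpa using y1⟩, ⟨g2, _, y2, ⟨p, 1,
    ⟨1, isU_one, by simpa using y⟩, rfl, rfl⟩, rfl⟩, by rw [conj_of_comm q]; group⟩,
    mul_mem (mul_mem hM ((inT_mem (by simp)).mem y.mem)) (inv_mem hM), ?_, by simp only [Z, Commute.one_left, Commute.mul_right, Commute.inv_right_iff],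
    by simp only [Z, Commute.one_left, Commute.mul_right, Commute.inv_right_iff], 0, by simp only [Z, mul_zero, zpow_ofNat, pow_zero], zpow_zero _⟩
  calc _ = (h * m) * p * (h * m)⁻¹ := by group
    _ = m * (h * p * h⁻¹) * m⁻¹ := by rw [(t.ev ev hm.mem).eq]; group
    _ = _ := by rw [(t.ok y (Or.inr lζ)).2 o]; group

end Env

end Pool.Agent.MP_c78e8e_al.H75

end
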