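import Pool.Agent.MP_c78e8e_al.Gen

attribute [-instance] SemilinearMapClass.toAddHomClass MonTypeEquivalenceMon.monMonoid
  Ring.toSemiring littleWedderburn DistribMulActionSemiHomClass.toAddMonoidHomClass
  NonUnitalRing.toNonUnitalNonAssocRing MulZeroClass.toMul
  AlgHom.instNonUnitalAlgHomClassOfAlgHomClass IdemSemiring.toSemiring instCharZeroOfIsSemireal
  CommGroup.toDivisionCommMonoid NonUnitalSemiring.toNonUnitalNonAssocSemiring
  NormedCommRing.toCommRing NonUnitalNormedCommRing.toNonUnitalCommRing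
  instNonUnitalAlgHomClassOfNonUnitalAlgEquivClass FloorSemiring.instCharZero NormedField.toField
  NonUnitalNonAssocCommSemiring.toNonUnitalNonAssocSemiring LieAdmissibleRing.toNonUnitalNonAssocRing
  NonAssocCommSemiring.toNonAssocSemiring EuclideanDomain.toCommRing SeminormedCommRing.toCommRing
  NonUnitalSeminormedCommRing.toNonUnitalCommRing NonAssocRing.toNonUnitalNonAssocRing
  AddCommMonoidWithOne.toAddCommMonoid NormedRing.toRing AddCommGroupWithOne.toAddGroupWithOne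
  MonoidWithZero.toSemigroupWithZero NonUnitalRing.toNonUnitalSemiring
  UniformSpace.toTopologicalSpace NonAssocCommRing.toNonUnitalNonAssocCommRing
  CompletePartialOrder.toPartialOrder BooleanRing.toCommRing MonoidWithZero.toMulZeroOneClass
  IdemCommSemiring.toCommSemiring RCLike.charZero_rclike RKHS.instFunLike
  DivisionRing.toDivisionSemiring NonAssocRing.toNonAssocSemiring GroupWithZero.toDivInvMonoid
  SubsemiringClass.toSubmonoidClass AlgHomClass.toRingHomClass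
  LinearOrderedAddCommMonoidWithTop.toAddCommMonoid SeminormedRing.toRing
  RightPreLieRing.toNonUnitalNonAssocRing LeftPreLieRing.toNonUnitalNonAssocRing
  GroupWithZero.toDivisionMonoid SemilatticeInf.toPartialOrder
  NonUnitalNonAssocSemiring.toAddCommMonoid NormedDivisionRing.toDivisionRing BooleanRing.toRing
  NumberField.to_charZero MonoidWithZero.toMonoid CommRing.toRing NormedAlgebra.toAlgebra
  Semiring.toNonUnitalSemiring CommSemiring.toNonUnitalCommSemiring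
  NonUnitalAlgSemiHomClass.toMulHomClass LinearOrderedAddCommGroupWithTop.toAddCommMonoid
  AddQuantale.instAddRightMono Nat.instAtLeastTwoHAddOfNat IsStrictOrderedRing.toCharZero
  NonUnitalAlgHomClass.toNonUnitalRingHomClass BialgHomClass.toMonoidHomClass
  RingEquivClass.toNonUnitalRingHomClass instIsRightCancelAddOfAddRightReflectLE
  LieRing.toAddCommGroup MulCharClass.toMonoidHomClass

section

namespace Pool.Agent.MP_c78e8e_al.H75

open Subgroup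
open scoped commutatorElement

/-- Sign. -/
def Pm {K : Type} [Field K] (e : K) : Prop := e = 1 ∨ e = -1

theorem Pm.mul {K : Type} [Field K] {e f : K} (h : Pm e) (h' : Pm f) : Pm (e * f) := by
  rcases h with rfl | rfl <;> rcases h' with rfl | rfl <;> simp [Pm]

theorem Pm.neg {K : Type} [Field K] {e : K} (h : Pm e) : Pm (-e) := by
  rcases h with rfl | rfl <;> simp [Pm]

theorem Pm.sq {K : Type} [Field K] {e : K} (h : Pm e) : e * e = 1 := by
  rcases h with rfl | rfl <;> simp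

theorem Pm.ne {K : Type} [Field K] {e : K} (h : Pm e) : e ≠ 0 := by
  rcases h with rfl | rfl <;> simp

theorem Pm.map {K : Type} [Field K] {e : K} (h : Pm e) (φ : K →+* K) : φ e = e := by
  rcases h with rfl | rfl <;> simp only [map_one, map_neg]

theorem pm_one {K : Type} [Field K] : Pm (1 : K) := Or.inl rfl

theorem pm_zpow {K : Type} [Field K] (n : ℤ) : Pm ((-1 : K) ^ n) := by
  rcases Int.even_or_odd n with h | h
  · exact Or.inl h.neg_one_zpow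
  · exact Or.inr h.neg_one_zpow

theorem sg_add {K : Type} [Field K] (m n : ℤ) : (-1 : K) ^ (m + n) = (-1) ^ m * (-1) ^ n :=
  zpow_add₀ (by simp) m n

/-- Root elements of a simply laced type with an automorphism of order at most two. -/
structure St (G L K : Type) [Group G] [AddCommGroup L] [Field K] where
  B : L →+ L →+ ℤ
  symm : ∀ u v, B u v = B v u
  defn : ∀ v, B v v ≤ 0 → v = 0
  R : L → Prop
  R2 : ∀ β, R β → B β β = 2
  Rneg : ∀ β, R β → R (-β)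
  Radd : ∀ β γ, R β → R γ → B β γ = -1 → R (β + γ)
  nbr : ∀ β, R β → ∃ γ, R γ ∧ B β γ = -1
  x : L → K → G
  x_add : ∀ β, R β → ∀ s t, x β (s + t) = x β s * x β t
  x_comm : ∀ β γ, R β → R γ → 0 ≤ B β γ → ∀ s t, Commute (x β s) (x γ t)
  x_rel : ∀ β γ, R β → R γ → B β γ = -1 → ∃ e : K, Pm e ∧
    (∀ s t, ⁅x β s, x γ t⁆ = x (β + γ) (e * s * t)) ∧
    ∀ s t, ⁅x (-β) s, x (β + γ) t⁆ = x γ (-e * s * t)
  x_inj : ∀ β γ, R β → R γ → β ≠ γ → ∀ s t, x β s = x γ t → s = 0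
  hh : (L →+ ℤ) → G
  hh_add : ∀ f g, hh (f + g) = hh f * hh g
  hh_one : ∀ f : L →+ ℤ, (∀ β, R β → (-1 : K) ^ f β = 1) → hh f = 1
  hh_x : ∀ (f : L →+ ℤ) β, R β → ∀ s, hh f * x β s * (hh f)⁻¹ = x β ((-1) ^ f β * s)
  nsq : ∀ β, R β → (x β 1 * x (-β) 1 * x β 1) * (x β 1 * x (-β) 1 * x β 1) = hh (B β)
  ρ : L →+ L
  ρρ : ∀ v, ρ (ρ v) = v
  Bρ : ∀ u v, B (ρ u) (ρ v) = B u v
  Rρ : ∀ β, R β → R (ρ β)
  φ : K →+* K
  φφ : ∀ s, φ (φ s) = s
  θ : G →* G
  η : L → K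
  θx : ∀ β, R β → ∀ s, θ (x β s) = x (ρ β) (η β * φ s)
  ηη : ∀ β, R β → η (ρ β) * φ (η β) = 1
  η_fix : ∀ β, R β → ρ β = β → η β = 1
  η_short : ∀ β, R β → B β (ρ β) = 0 → Pm (η β) ∧ η (-β) = η β
  tt : Kˣ → (L →+ ℤ) → G
  tt_hh : ∀ f, tt (-1) f = hh f
  tt_add : ∀ j f g, tt j (f + g) = tt j f * tt j g
  tt_comm : ∀ j f k g, Commute (tt j f) (tt k g)
  tt_x : ∀ j (f : L →+ ℤ) β, R β → ∀ s, tt j f * x β s * (tt j f)⁻¹ = x β ((j : K) ^ f β * s)
  tt_n : ∀ j (f : L →+ ℤ) β, R β → (x β 1 * x (-β) 1 * x β 1) * tt j f =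
    tt j (f - f β • B β) * (x β 1 * x (-β) 1 * x β 1)
  tt_one : ∀ g ∈ closure {g | ∃ j f, g = tt j f}, (∀ β, R β → ∀ s, g * x β s * g⁻¹ = x β s) → g = 1
  θt : ∀ j f, θ (tt j f) = tt (Units.map φ j) (f.comp ρ)

namespace St

variable {G L K : Type} [Group G] [AddCommGroup L] [Field K] (S : St G L K)

theorem eq_of_two {β γ : L} (hβ : S.R β) (hγ : S.R γ) (h : 2 ≤ S.B β γ) : β = γ := by
  have := S.defn (β - γ) (by
    simp only [map_sub, AddMonoidHom.sub_apply, S.R2 β hβ, S.R2 γ hγ, S.symm γ β]; omega)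
  exact sub_eq_zero.1 this

theorem B_le {β γ : L} (hβ : S.R β) (hγ : S.R γ) : S.B β γ ≤ 2 := by
  by_contra h
  have := S.eq_of_two hβ hγ (by omega)
  subst this
  have := S.R2 β hβ
  omega

theorem B_ge {β γ : L} (hβ : S.R β) (hγ : S.R γ) : -2 ≤ S.B β γ := by
  have := S.B_le hβ (S.Rneg γ hγ)
  simp only [map_neg] at this
  omega

theorem Bρ' (u v : L) : S.B (S.ρ u) v = S.B u (S.ρ v) := by
  rw [← S.Bρ u (S.ρ v), S.ρρ]

theorem x_zero {β : L} (hβ : S.R β) : S.x β 0 = 1 := by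
  have := S.x_add β hβ 0 0
  simpa using this

theorem x_neg {β : L} (hβ : S.R β) (s : K) : S.x β (-s) = (S.x β s)⁻¹ := by
  rw [eq_inv_iff_mul_eq_one, ← S.x_add β hβ, neg_add_cancel, S.x_zero hβ]

theorem ne_neg {β : L} (hβ : S.R β) : β ≠ -β := by
  intro h
  have h1 := S.R2 β hβ
  have : S.B β β = S.B β (-β) := by rw [← h]
  simp only [map_neg] at this
  omega

theorem x_eq_one {β : L} (hβ : S.R β) {s : K} (h : S.x β s = 1) : s = 0 :=
  S.x_inj β (-β) hβ (S.Rneg β hβ) (S.ne_neg hβ) s 0 (by rw [h, S.x_zero (S.Rneg β hβ)])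

theorem x_injective {β : L} (hβ : S.R β) {s t : K} (h : S.x β s = S.x β t) : s = t := by
  have : S.x β (s - t) = 1 := by
    rw [sub_eq_add_neg, S.x_add β hβ, S.x_neg hβ, h, mul_inv_cancel]
  exact sub_eq_zero.1 (S.x_eq_one hβ this)

theorem θθ {β : L} (hβ : S.R β) (s : K) : S.θ (S.θ (S.x β s)) = S.x β s := by
  rw [S.θx β hβ, S.θx _ (S.Rρ β hβ), S.ρρ, map_mul, S.φφ, ← mul_assoc, S.ηη β hβ, one_mul]

theorem η_ne {β : L} (hβ : S.R β) : S.η β ≠ 0 := by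
  intro h
  have := S.ηη β hβ
  rw [h] at this
  simp at this

theorem hh_zero : S.hh 0 = 1 := S.hh_one 0 (by simp)

theorem hh_comm (f g : L →+ ℤ) : Commute (S.hh f) (S.hh g) := by
  rw [Commute, SemiconjBy, ← S.hh_add, ← S.hh_add, add_comm]

theorem hh_sq (f : L →+ ℤ) : S.hh f * S.hh f = 1 := by
  rw [← S.hh_add]
  refine S.hh_one _ fun β _ => ?_
  rw [AddMonoidHom.add_apply, sg_add]
  exact (pm_zpow _).sq

theorem hh_inv (f : L →+ ℤ) : (S.hh f)⁻¹ = S.hh f := inv_eq_of_mul_eq_one_right (S.hh_sq f)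

/-- Conjugation by `m` moves one root group to another, up to sign. -/
def Cj (m : G) (β γ : L) : Prop := ∃ e : K, Pm e ∧ ∀ s, m * S.x β s * m⁻¹ = S.x γ (e * s)

theorem Cj.add {m : G} {β γ β' γ' : L} (h : S.Cj m β β') (h' : S.Cj m γ γ') (hβ : S.R β)
    (hγ : S.R γ) (hβ' : S.R β') (hγ' : S.R γ') (b : S.B β γ = -1) (b' : S.B β' γ' = -1) :
    S.Cj m (β + γ) (β' + γ') := by
  obtain ⟨e, he, h⟩ := h
  obtain ⟨f, hf, h'⟩ := h'
  obtain ⟨c, hc, r, -⟩ := S.x_rel β γ hβ hγ b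
  obtain ⟨d, hd, r', -⟩ := S.x_rel β' γ' hβ' hγ' b'
  refine ⟨d * e * f * c, ((hd.mul he).mul hf).mul hc, fun s => ?_⟩
  have : S.x (β + γ) s = ⁅S.x β (c * s), S.x γ 1⁆ := by
    rw [r, ← mul_assoc, hc.sq]; simp
  rw [this, conjugate_commutatorElement, h, h', r']
  congr 1; ring

/-- The Weyl element of an absolute root. -/
def n (β : L) : G := S.x β 1 * S.x (-β) 1 * S.x β 1

theorem conj_of_comm {a b c : G} (h : ⁅a, b⁆ = c) : a * b * a⁻¹ = c * b := by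
  rw [← h, commutatorElement_def]; group

theorem n_string {β γ : L} (hβ : S.R β) (hγ : S.R γ) (b : S.B β γ = -1) :
    S.Cj (S.n β) γ (β + γ) ∧ S.Cj (S.n β) (β + γ) γ := by
  obtain ⟨e, he, r, r'⟩ := S.x_rel β γ hβ hγ b
  have hδ := S.Radd β γ hβ hγ b
  have b2 := S.R2 β hβ
  have g2 := S.R2 γ hγ
  have c1 : ∀ s t, Commute (S.x β s) (S.x (β + γ) t) :=
    S.x_comm _ _ hβ hδ (by simp only [map_add]; omega)
  have c2 : ∀ s t, Commute (S.x (-β) s) (S.x γ t) :=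
    S.x_comm _ _ (S.Rneg β hβ) hγ (by simp only [map_neg, AddMonoidHom.neg_apply]; omega)
  have c3 : ∀ s t, Commute (S.x γ s) (S.x (β + γ) t) :=
    S.x_comm _ _ hγ hδ (by simp only [map_add, S.symm γ β]; omega)
  have A : ∀ u v, S.x β 1 * (S.x γ u * S.x (β + γ) v) * (S.x β 1)⁻¹ =
      S.x γ u * S.x (β + γ) (v + e * u) := by
    intro u v
    have : S.x β 1 * (S.x γ u * S.x (β + γ) v) * (S.x β 1)⁻¹ =
      (S.x β 1 * S.x γ u * (S.x β 1)⁻¹) * (S.x β 1 * S.x (β + γ) v * (S.x β 1)⁻¹) := by group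
    rw [this, conj_of_comm (r 1 u), (c1 1 v).mul_inv_cancel, ← (c3 _ _).eq, mul_assoc,
      ← S.x_add _ hδ]
    congr 2; ring
  have D : ∀ u v, S.x (-β) 1 * (S.x γ u * S.x (β + γ) v) * (S.x (-β) 1)⁻¹ =
      S.x γ (u - e * v) * S.x (β + γ) v := by
    intro u v
    have : S.x (-β) 1 * (S.x γ u * S.x (β + γ) v) * (S.x (-β) 1)⁻¹ =
      (S.x (-β) 1 * S.x γ u * (S.x (-β) 1)⁻¹) * (S.x (-β) 1 * S.x (β + γ) v * (S.x (-β) 1)⁻¹) := by
      group
    rw [this, conj_of_comm (r' 1 v), (c2 1 u).mul_inv_cancel, ← mul_assoc, ← S.x_add _ hγ]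
    congr 2; ring
  have E : ∀ u v, S.n β * (S.x γ u * S.x (β + γ) v) * (S.n β)⁻¹ =
      S.x γ (-e * v) * S.x (β + γ) (e * u) := by
    intro u v
    have : S.n β * (S.x γ u * S.x (β + γ) v) * (S.n β)⁻¹ = S.x β 1 * (S.x (-β) 1 * (S.x β 1 *
      (S.x γ u * S.x (β + γ) v) * (S.x β 1)⁻¹) * (S.x (-β) 1)⁻¹) * (S.x β 1)⁻¹ := by
      simp only [n]; group
    rw [this, A, D, A]
    have := he.sq
    congr 2
    · linear_combination (-u) * this
    · linear_combination (-v - e * u) * this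
  refine ⟨⟨e, he, fun s => ?_⟩, ⟨-e, he.neg, fun s => ?_⟩⟩
  · simpa only [S.x_zero hδ, mul_one, mul_zero, S.x_zero hγ, one_mul] using E s 0
  · simpa only [neg_mul, S.x_zero hγ, one_mul, mul_zero, S.x_zero hδ, mul_one] using E 0 s

/-- The reflection in an absolute root. -/
def rf (β : L) (v : L) : L := v - S.B v β • β

theorem n_cj0 {β γ : L} (hβ : S.R β) (hγ : S.R γ) (h1 : -1 ≤ S.B γ β) (h2 : S.B γ β ≤ 1) :
    S.R (S.rf β γ) ∧ S.Cj (S.n β) γ (S.rf β γ) := by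
  have : S.B γ β = -1 ∨ S.B γ β = 0 ∨ S.B γ β = 1 := by omega
  rcases this with b | b | b
  · have e : S.rf β γ = β + γ := by simp [rf, b, add_comm]
    rw [e]
    rw [S.symm] at b
    exact ⟨S.Radd _ _ hβ hγ b, (S.n_string hβ hγ b).1⟩
  · have e : S.rf β γ = γ := by simp [rf, b]
    rw [e]
    rw [S.symm] at b
    refine ⟨hγ, 1, pm_one, fun s => ?_⟩
    have c1 := S.x_comm _ _ hβ hγ b.ge 1 s
    have c2 := S.x_comm _ _ (S.Rneg β hβ) hγ (by simp only [map_neg, AddMonoidHom.neg_apply, b, neg_zero, Std.le_refl]) 1 s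
    rw [one_mul]
    exact ((c1.mul_left c2).mul_left c1).mul_inv_cancel
  · have e : S.rf β γ = -β + γ := by simp [rf, b]; abel
    rw [e]
    rw [S.symm] at b
    have h := S.Radd _ _ (S.Rneg β hβ) hγ (by simp only [map_neg, AddMonoidHom.neg_apply, b, Int.reduceNeg])
    have := (S.n_string hβ h (by simp only [map_add, map_neg, S.R2 β hβ, Int.reduceNeg, b, Int.reduceAdd])).2
    rw [add_neg_cancel_left] at this
    exact ⟨h, this⟩

theorem n_cj {β γ : L} (hβ : S.R β) (hγ : S.R γ) :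
    S.R (S.rf β γ) ∧ S.Cj (S.n β) γ (S.rf β γ) := by
  have l := S.B_le hγ hβ
  have g := S.B_ge hγ hβ
  by_cases h : -1 ≤ S.B γ β ∧ S.B γ β ≤ 1
  · exact S.n_cj0 hβ hγ h.1 h.2
  obtain ⟨δ, hδ, b⟩ := S.nbr γ hγ
  have hs := S.Radd _ _ hγ hδ b
  have g2 := S.R2 γ hγ
  have d2 := S.R2 δ hδ
  have b' : S.B δ γ = -1 := by rw [S.symm, b]
  have key : S.B γ β * S.B γ β = 4 ∧ S.B δ β * S.B γ β = -2 ∧ S.B δ β * S.B δ β = 1 := by
    by_cases h2 : S.B γ β = 2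
    · obtain rfl := S.eq_of_two hγ hβ h2.ge
      simp [g2, b']
    · have := S.eq_of_two hγ (S.Rneg β hβ) (by simp only [map_neg]; omega)
      obtain rfl : β = -γ := by rw [this, neg_neg]
      simp only [map_neg, g2, Int.reduceNeg, mul_neg, neg_mul, Int.reduceMul, neg_neg, b', one_mul, mul_one, and_self]
  obtain ⟨k1, k2, k3⟩ := key
  have p1 : -1 ≤ S.B δ β ∧ S.B δ β ≤ 1 := by constructor <;> nlinarith only [l, k1, k2, g]
  have p2 : -1 ≤ S.B γ β + S.B δ β ∧ S.B γ β + S.B δ β ≤ 1 := by constructor <;> nlinarith only [g, k2, p1, l]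
  obtain ⟨r1, c1⟩ := S.n_cj0 hβ hs (by simpa only [Int.reduceNeg, map_add, AddMonoidHom.add_apply] using p2.1) (by simpa only [map_add, AddMonoidHom.add_apply] using p2.2)
  obtain ⟨r2, c2⟩ := S.n_cj0 hβ (S.Rneg δ hδ) (by simp only [Int.reduceNeg, map_neg, AddMonoidHom.neg_apply, neg_le_neg_iff]; omega) (by simp only [map_neg, AddMonoidHom.neg_apply]; omega)
  have bb : S.B (S.rf β (γ + δ)) (S.rf β (-δ)) = -1 := by
    simp only [rf, map_sub, map_add, map_neg, map_zsmul, AddMonoidHom.sub_apply,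
      AddMonoidHom.add_apply, AddMonoidHom.neg_apply, AddMonoidHom.smul_apply, smul_eq_mul,
      S.R2 β hβ, b, d2, S.symm β δ]
    linarith only []
  have := Cj.add S c1 c2 hs (S.Rneg δ hδ) r1 r2 (by simp only [map_add, AddMonoidHom.add_apply, map_neg, b, Int.reduceNeg, neg_neg, d2, Int.reduceAdd]) bb
  have e : S.rf β (γ + δ) + S.rf β (-δ) = S.rf β γ := by
    simp only [rf, map_add, map_neg, AddMonoidHom.add_apply, AddMonoidHom.neg_apply, add_smul,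
      neg_smul]
    abel
  rw [e, add_neg_cancel_right] at this
  exact ⟨e ▸ S.Radd _ _ r1 r2 bb, this⟩

/-- Monomial elements, absolute version. -/
structure Mon0 (m : G) (w : L ≃+ L) : Prop where
  iso : ∀ u v, S.B (w u) (w v) = S.B u v
  root : ∀ β, S.R (w β) ↔ S.R β
  tor : ∀ f, ∃ g, m * S.hh f * m⁻¹ = S.hh g
  tor' : ∀ f, ∃ g, m⁻¹ * S.hh f * m = S.hh g
  cj : ∀ β, S.R β → S.Cj m β (w β)

variable {S}

theorem Mon0.mul {m m' : G} {w w' : L ≃+ L} (h : S.Mon0 m w) (h' : S.Mon0 m' w') :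
    S.Mon0 (m * m') (w'.trans w) where
  iso u v := by simp [h.iso, h'.iso]
  root β := by simp [h.root, h'.root]
  tor f := by
    obtain ⟨g, e⟩ := h'.tor f
    obtain ⟨g', e'⟩ := h.tor g
    exact ⟨g', by rw [← e', ← e]; group⟩
  tor' f := by
    obtain ⟨g, e⟩ := h.tor' f
    obtain ⟨g', e'⟩ := h'.tor' g
    exact ⟨g', by rw [← e', ← e]; group⟩
  cj β hβ := by
    obtain ⟨e, he, c⟩ := h'.cj β hβ
    obtain ⟨f, hf, c'⟩ := h.cj _ ((h'.root β).2 hβ)
    refine ⟨f * e, hf.mul he, fun s => ?_⟩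
    rw [mul_assoc f, AddEquiv.trans_apply, ← c', ← c]; group

theorem Mon0.inv {m : G} {w : L ≃+ L} (h : S.Mon0 m w) : S.Mon0 m⁻¹ w.symm where
  iso u v := by rw [← h.iso]; simp
  root β := by rw [← h.root]; simp
  tor f := by simpa only [inv_inv] using h.tor' f
  tor' f := by simpa only [inv_inv] using h.tor f
  cj β hβ := by
    obtain ⟨e, he, c⟩ := h.cj (w.symm β) ((h.root _).1 (by simpa using hβ))
    refine ⟨e, he, fun s => ?_⟩
    have := c (e * s)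
    rw [← mul_assoc e, he.sq, one_mul, AddEquiv.apply_symm_apply] at this
    rw [← this]; group

variable (S)

theorem mon0_hh (f : L →+ ℤ) : S.Mon0 (S.hh f) (AddEquiv.refl L) where
  iso _ _ := rfl
  root _ := Iff.rfl
  tor g := ⟨g, (S.hh_comm f g).mul_inv_cancel⟩
  tor' g := ⟨g, by rw [mul_assoc, ← (S.hh_comm f g).eq]; simp⟩
  cj β hβ := ⟨_, pm_zpow _, S.hh_x f β hβ⟩

theorem rf_rf {β : L} (hβ : S.R β) (v : L) : S.rf β (S.rf β v) = v := by
  simp only [rf, map_sub, map_zsmul, AddMonoidHom.sub_apply, AddMonoidHom.smul_apply,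
    S.R2 β hβ, smul_eq_mul]
  module

open Classical in
/-- The reflection as an automorphism. -/
noncomputable def rfe (β : L) : L ≃+ L :=
  if h : S.R β then
    { toFun := S.rf β, invFun := S.rf β, left_inv := S.rf_rf h, right_inv := S.rf_rf h,
      map_add' := fun u v => by simp only [rf, map_add, AddMonoidHom.add_apply]; module }
  else AddEquiv.refl L

theorem rfe_apply {β : L} (hβ : S.R β) (v : L) : S.rfe β v = v - S.B v β • β := by
  simp [rfe, hβ, rf]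

theorem n_inv {β : L} (hβ : S.R β) :
    S.x β (-1) * S.x (-β) (-1) * S.x β (-1) = (S.n β)⁻¹ := by
  rw [S.x_neg hβ, S.x_neg (S.Rneg β hβ), n]; group

theorem hh_n {β : L} (hβ : S.R β) (f : L →+ ℤ) :
    ((-1 : K) ^ f β = 1 → S.hh f * S.n β * (S.hh f)⁻¹ = S.n β) ∧
    ((-1 : K) ^ f β = -1 → S.hh f * S.n β * (S.hh f)⁻¹ = (S.n β)⁻¹) := by
  have : S.hh f * S.n β * (S.hh f)⁻¹ = (S.hh f * S.x β 1 * (S.hh f)⁻¹) *
    (S.hh f * S.x (-β) 1 * (S.hh f)⁻¹) * (S.hh f * S.x β 1 * (S.hh f)⁻¹) := by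
    simp only [n]; group
  rw [this, S.hh_x f β hβ, S.hh_x f _ (S.Rneg β hβ), map_neg, zpow_neg]
  refine ⟨fun h => ?_, fun h => ?_⟩
  · rw [h]; simp [n]
  · rw [h, ← S.n_inv hβ]; simp

theorem mon0_n {β : L} (hβ : S.R β) : S.Mon0 (S.n β) (S.rfe β) := by
  have nn : S.n β * S.n β = S.hh (S.B β) := S.nsq β hβ
  have key : ∀ f, (∃ g, S.n β * S.hh f * (S.n β)⁻¹ = S.hh g) ∧
      ∃ g, (S.n β)⁻¹ * S.hh f * S.n β = S.hh g := by
    intro f
    rcases pm_zpow (K := K) (f β) with h | h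
    · have := (S.hh_n hβ f).1 h
      rw [mul_inv_eq_iff_eq_mul] at this
      exact ⟨⟨f, by rw [← this]; group⟩, f, by rw [mul_assoc, this]; group⟩
    · have := (S.hh_n hβ f).2 h
      rw [mul_inv_eq_iff_eq_mul] at this
      refine ⟨⟨S.B β + f, ?_⟩, S.B β + f, ?_⟩
      · rw [S.hh_add, ← nn, mul_assoc, mul_assoc]
        congr 1
        rw [mul_inv_eq_iff_eq_mul, mul_assoc, this]; group
      · rw [S.hh_add, ← S.hh_inv (S.B β), ← nn, mul_assoc, this]; group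
  refine ⟨fun u v => ?_, fun γ => ⟨fun h => ?_, fun h => ?_⟩, fun f => (key f).1,
    fun f => (key f).2, fun γ hγ => ?_⟩
  · simp only [S.rfe_apply hβ, map_sub, map_zsmul, AddMonoidHom.sub_apply,
      AddMonoidHom.smul_apply, S.R2 β hβ, smul_eq_mul, S.symm β v]
    ring
  · have := (S.n_cj hβ h).1
    rwa [S.rfe_apply hβ, ← rf, S.rf_rf hβ] at this
  · rw [S.rfe_apply hβ]; exact (S.n_cj hβ h).1
  · rw [S.rfe_apply hβ]; exact (S.n_cj hβ hγ).2

end St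

end Pool.Agent.MP_c78e8e_al.H75

end

section

namespace Pool.Agent.MP_c78e8e_al.H75

open Subgroup
open scoped commutatorElement

section Grp
variable {G : Type} [Group G]

theorem conj_closure {m : G} {A : Set G} {N : Subgroup G} (h : ∀ a ∈ A, m * a * m⁻¹ ∈ N) {g : G}
    (hg : g ∈ closure A) : m * g * m⁻¹ ∈ N := by
  have : closure A ≤ N.comap (MulAut.conj m).toMonoidHom := by
    rw [closure_le]; intro a ha; simpa only [MulEquiv.toMonoidHom_eq_coe, coe_comap, MonoidHom.coe_coe, Set.mem_preimage, MulAut.conj_apply, SetLike.mem_coe] using h a ha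
  simpa only [MulEquiv.toMonoidHom_eq_coe, mem_comap, MonoidHom.coe_coe, MulAut.conj_apply] using this hg

theorem commute_closure {m : G} {A : Set G} (h : ∀ a ∈ A, Commute m a) {g : G}
    (hg : g ∈ closure A) : Commute m g := by
  induction hg using closure_induction with
  | mem a ha => exact h a ha
  | one => exact Commute.one_right _
  | mul a b _ _ ha hb => exact ha.mul_right hb
  | inv a _ ha => exact ha.inv_right

theorem nz_conj {N : Subgroup G} {a n : G} (ha : a ∈ normalizer (N : Set G)) (hn : n ∈ N) :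
    a * n * a⁻¹ ∈ N := (mem_normalizer_iff.1 ha n).1 hn

theorem nz_conj' {N : Subgroup G} {a n : G} (ha : a ∈ normalizer (N : Set G)) (hn : n ∈ N) :
    a⁻¹ * n * a ∈ N := by simpa using nz_conj (inv_mem ha) hn

theorem comm_closure {A : Set G} {N : Subgroup G} {y : G}
    (h : ∀ a ∈ A, a ∈ normalizer (N : Set G) ∧ ⁅a, y⁆ ∈ N) {r : G} (hr : r ∈ closure A) :
    r ∈ normalizer (N : Set G) ∧ ⁅r, y⁆ ∈ N := by
  induction hr using closure_induction with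
  | mem a ha => exact h a ha
  | one => exact ⟨one_mem _, by simp⟩
  | mul a b _ _ ha hb =>
    refine ⟨mul_mem ha.1 hb.1, ?_⟩
    have : ⁅a * b, y⁆ = a * ⁅b, y⁆ * a⁻¹ * ⁅a, y⁆ := by
      simp only [commutatorElement_def]; group
    rw [this]
    exact mul_mem (nz_conj ha.1 hb.2) ha.2
  | inv a _ ha =>
    refine ⟨inv_mem ha.1, ?_⟩
    have : ⁅a⁻¹, y⁆ = a⁻¹ * ⁅a, y⁆⁻¹ * a := by
      simp only [commutatorElement_def]; group
    rw [this]
    exact nz_conj' ha.1 (inv_mem ha.2)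

theorem comm_swap {N : Subgroup G} {a b : G} (h : ⁅a, b⁆ ∈ N) : ⁅b, a⁆ ∈ N := by
  rw [← commutatorElement_inv]; exact inv_mem h

theorem comm_closure2 {A B : Set G} {N : Subgroup G}
    (hA : ∀ a ∈ A, a ∈ normalizer (N : Set G)) (hB : ∀ a ∈ B, a ∈ normalizer (N : Set G))
    (h : ∀ a ∈ A, ∀ b ∈ B, ⁅a, b⁆ ∈ N) {r r' : G} (hr : r ∈ closure A) (hr' : r' ∈ closure B) :
    ⁅r, r'⁆ ∈ N :=
  comm_swap (comm_closure (fun b hb => ⟨hB b hb, comm_swap
    (comm_closure (fun a ha => ⟨hA a ha, h a ha b hb⟩) hr).2⟩) hr').2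

theorem comm_prod {a a' b b' : G} (h1 : Commute a a') (h2 : Commute a b') (h3 : Commute b a')
    (h4 : Commute b b') : ⁅a * a', b * b'⁆ = ⁅a, b⁆ * ⁅a', b'⁆ := by
  have k : ∀ u, Commute a u → Commute b u → Commute ⁅a, b⁆ u := fun u p q =>
    ((p.mul_left q).mul_left p.inv_left).mul_left q.inv_left
  have e1 : ⁅a * a', b * b'⁆ = a * (a' * b * a'⁻¹) * (a' * b' * a'⁻¹ * a⁻¹ * b'⁻¹) * b⁻¹ := by
    simp only [commutatorElement_def]; group
  have c : Commute ⁅a', b'⁆ b⁻¹ :=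
    (((h3.mul_right h4).mul_right h3.inv_right).mul_right h4.inv_right).symm.inv_right
  have c' : Commute ⁅a', b'⁆ a⁻¹ :=
    (((h1.mul_right h2).mul_right h1.inv_right).mul_right h2.inv_right).symm.inv_right
  rw [e1, h3.symm.mul_inv_cancel, mul_assoc _ a⁻¹, h2.inv_inv.eq, ← mul_assoc _ b'⁻¹,
    ← commutatorElement_def, c'.eq, mul_assoc, mul_assoc a⁻¹, c.eq, commutatorElement_def a]
  group

end Grp

namespace St

variable {G L K : Type} [Group G] [AddCommGroup L] [Field K] (S : St G L K)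

open Classical in
/-- Relative root elements. -/
noncomputable def Y (β : L) (s : K) : G :=
  if S.ρ β = β then S.x β s else S.x β s * S.θ (S.x β s)

/-- Relative root groups. -/
def U (β : L) : Set G :=
  {g | S.R β ∧ S.θ g = g ∧ g ∈ closure (Set.range (S.x β) ∪ Set.range (S.x (S.ρ β)))}

/-- `g` is an element of the relative root group of `β` with parameter `s`. -/
def Yp (β : L) (s : K) (g : G) : Prop :=
  S.R β ∧ S.θ g = g ∧ (((S.ρ β = β ∨ S.B β (S.ρ β) = 0) ∧ g = S.Y β s) ∨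
    (S.B β (S.ρ β) = -1 ∧ ∃ r, g = S.Y β s * S.x (β + S.ρ β) r))

/-- Roots whose orbit consists of orthogonal roots. -/
def Ok (β : L) : Prop := S.R β ∧ (S.ρ β = β ∨ S.B β (S.ρ β) = 0)

variable {S}

theorem Y_long {β : L} (h : S.ρ β = β) (s : K) : S.Y β s = S.x β s := by simp [Y, h]

theorem Y_nl {β : L} (hβ : S.R β) (h : S.B β (S.ρ β) ≤ 0) (s : K) :
    S.Y β s = S.x β s * S.θ (S.x β s) := by
  have : S.ρ β ≠ β := fun e => by rw [e, S.R2 β hβ] at h; omega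
  simp [Y, this]

theorem Yp.long {β : L} {s : K} {g : G} (h : S.Yp β s g) (l : S.ρ β = β) :
    g = S.x β s ∧ S.φ s = s := by
  obtain ⟨hβ, t, h | h⟩ := h
  · have e := h.2
    rw [Y_long l] at e
    refine ⟨e, ?_⟩
    rw [e, S.θx β hβ, l, S.η_fix β hβ l, one_mul] at t
    exact S.x_injective hβ t
  · have := h.1
    rw [l, S.R2 β hβ] at this
    omega

theorem Yp.short {β : L} {s : K} {g : G} (h : S.Yp β s g) (l : S.B β (S.ρ β) = 0) :
    g = S.x β s * S.θ (S.x β s) := by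
  obtain ⟨hβ, -, h | h⟩ := h
  · rw [h.2, Y_nl hβ l.le]
  · omega

theorem Yp.bc {β : L} {s : K} {g : G} (h : S.Yp β s g) (l : S.B β (S.ρ β) = -1) :
    ∃ r, g = S.x β s * S.θ (S.x β s) * S.x (β + S.ρ β) r := by
  obtain ⟨hβ, -, h | h⟩ := h
  · rcases h.1 with e | e
    · rw [e, S.R2 β hβ] at l; omega
    · omega
  · rw [Y_nl hβ (by omega)] at h
    exact h.2

theorem yp_long {β : L} {s : K} (hβ : S.R β) (l : S.ρ β = β) (h : S.φ s = s) :
    S.Yp β s (S.x β s) :=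
  ⟨hβ, by rw [S.θx β hβ, l, S.η_fix β hβ l, one_mul, h], Or.inl ⟨Or.inl l, (Y_long l s).symm⟩⟩

theorem c_θ {β γ : L} (hβ : S.R β) (hγ : S.R γ) (l : 0 ≤ S.B β (S.ρ γ)) (s t : K) :
    Commute (S.x β s) (S.θ (S.x γ t)) := by
  rw [S.θx γ hγ]; exact S.x_comm _ _ hβ (S.Rρ γ hγ) l _ _

theorem yp_short {β : L} (hβ : S.R β) (l : S.B β (S.ρ β) = 0) (s : K) :
    S.Yp β s (S.x β s * S.θ (S.x β s)) :=
  ⟨hβ, by rw [map_mul, S.θθ hβ, (c_θ hβ hβ l.ge s s).eq],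
    Or.inl ⟨Or.inr l, (Y_nl hβ l.le s).symm⟩⟩

theorem yp_bc {β : L} (hβ : S.R β) (l : S.B β (S.ρ β) = -1) {s r : K} {g : G} (t : S.θ g = g)
    (e : g = S.x β s * S.θ (S.x β s) * S.x (β + S.ρ β) r) : S.Yp β s g :=
  ⟨hβ, t, Or.inr ⟨l, r, by rw [Y_nl hβ (by omega), e]⟩⟩

theorem x_mem (β : L) (s : K) :
    S.x β s ∈ closure (Set.range (S.x β) ∪ Set.range (S.x (S.ρ β))) :=
  subset_closure (Or.inl ⟨s, rfl⟩)

theorem x_mem' (β : L) (s : K) :
    S.x (S.ρ β) s ∈ closure (Set.range (S.x β) ∪ Set.range (S.x (S.ρ β))) :=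
  subset_closure (Or.inr ⟨s, rfl⟩)

theorem sum_mem {β γ : L} (hβ : S.R β) (hγ : S.R γ) (l : S.B β γ = -1) {N : Subgroup G}
    (h1 : ∀ s, S.x β s ∈ N) (h2 : ∀ s, S.x γ s ∈ N) (r : K) : S.x (β + γ) r ∈ N := by
  obtain ⟨e, he, c, -⟩ := S.x_rel _ _ hβ hγ l
  have := c (e * r) 1
  rw [← mul_assoc, he.sq, one_mul, mul_one, commutatorElement_def] at this
  rw [← this]
  exact mul_mem (mul_mem (mul_mem (h1 _) (h2 _)) (inv_mem (h1 _))) (inv_mem (h2 _))

theorem Yp.mem {β : L} {s : K} {g : G} (h : S.Yp β s g) : g ∈ S.U β := by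
  refine ⟨h.1, h.2.1, ?_⟩
  have y : S.Y β s ∈ closure (Set.range (S.x β) ∪ Set.range (S.x (S.ρ β))) := by
    unfold Y
    split_ifs
    · exact x_mem β s
    · rw [S.θx β h.1]; exact mul_mem (x_mem β s) (x_mem' β _)
  obtain ⟨hβ, -, h | ⟨l, r, h⟩⟩ := h
  · rwa [h.2]
  · rw [h]
    exact mul_mem y (sum_mem hβ (S.Rρ β hβ) l (x_mem β) (x_mem' β) r)

theorem U_mul {β : L} {g k : G} (h : g ∈ S.U β) (h' : k ∈ S.U β) : g * k ∈ S.U β :=
  ⟨h.1, by rw [map_mul, h.2.1, h'.2.1], mul_mem h.2.2 h'.2.2⟩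

theorem U_inv {β : L} {g : G} (h : g ∈ S.U β) : g⁻¹ ∈ S.U β :=
  ⟨h.1, by rw [map_inv, h.2.1], inv_mem h.2.2⟩

theorem U_zpow {β : L} {g : G} (h : g ∈ S.U β) (k : ℤ) : g ^ k ∈ S.U β :=
  ⟨h.1, by rw [map_zpow, h.2.1], zpow_mem h.2.2 k⟩

theorem U_ρ {β : L} {g : G} (h : g ∈ S.U β) : g ∈ S.U (S.ρ β) :=
  ⟨S.Rρ β h.1, h.2.1, by rw [S.ρρ, Set.union_comm]; exact h.2.2⟩

theorem U_ρ' {β : L} {g : G} (h : g ∈ S.U (S.ρ β)) : g ∈ S.U β := by
  simpa [S.ρρ] using U_ρ h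

theorem U_comm {β γ : L} {g k : G} (h : g ∈ S.U β) (h' : k ∈ S.U γ) (b1 : 0 ≤ S.B β γ)
    (b2 : 0 ≤ S.B β (S.ρ γ)) : Commute g k := by
  have hβ := h.1
  have hγ := h'.1
  refine commute_closure ?_ h'.2.2
  rintro a (⟨t, rfl⟩ | ⟨t, rfl⟩) <;> refine (commute_closure ?_ h.2.2).symm <;>
    rintro a (⟨s, rfl⟩ | ⟨s, rfl⟩)
  · exact (S.x_comm _ _ hβ hγ b1 _ _).symm
  · exact (S.x_comm _ _ (S.Rρ β hβ) hγ (by rwa [S.Bρ']) _ _).symm
  · exact (S.x_comm _ _ hβ (S.Rρ γ hγ) b2 _ _).symm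
  · exact (S.x_comm _ _ (S.Rρ β hβ) (S.Rρ γ hγ) (by rwa [S.Bρ]) _ _).symm

/-- Multiplication in the Heisenberg group of two roots at an obtuse angle. -/
theorem heis {β γ : L} (hβ : S.R β) (hγ : S.R γ) (l : S.B β γ = -1) : ∃ e : K, Pm e ∧
    ∀ a b c a' b' c', S.x β a * S.x γ b * S.x (β + γ) c * (S.x β a' * S.x γ b' * S.x (β + γ) c') =
      S.x β (a + a') * S.x γ (b + b') * S.x (β + γ) (c + c' - e * a' * b) := by
  obtain ⟨e, he, r, -⟩ := S.x_rel _ _ hβ hγ l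
  have hδ := S.Radd β γ hβ hγ l
  have b2 := S.R2 β hβ
  have g2 := S.R2 γ hγ
  have c1 : ∀ s t, Commute (S.x β s) (S.x (β + γ) t) :=
    S.x_comm _ _ hβ hδ (by simp only [map_add]; omega)
  have c3 : ∀ s t, Commute (S.x γ s) (S.x (β + γ) t) :=
    S.x_comm _ _ hγ hδ (by simp only [map_add, S.symm γ β]; omega)
  refine ⟨e, he, fun a b c a' b' c' => ?_⟩
  have h1 : S.x γ b * S.x β a' = S.x β a' * S.x γ b * S.x (β + γ) (-(e * a' * b)) := by
    rw [((c1 _ _).mul_left (c3 _ _)).eq, S.x_neg hδ, ← r, commutatorElement_def]; group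
  have h2 : c + c' - e * a' * b = -(e * a' * b) + c + c' := by ring
  rw [h2, S.x_add _ hβ, S.x_add _ hγ, S.x_add _ hδ, S.x_add _ hδ]
  calc _ = S.x β a * S.x γ b * (S.x (β + γ) c * (S.x β a' * S.x γ b')) * S.x (β + γ) c' := by group
    _ = S.x β a * (S.x γ b * S.x β a') * S.x γ b' * S.x (β + γ) c * S.x (β + γ) c' := by
      rw [← ((c1 _ _).mul_left (c3 _ _)).eq]; group
    _ = S.x β a * S.x β a' * S.x γ b * (S.x (β + γ) (-(e * a' * b)) * S.x γ b') *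
        S.x (β + γ) c * S.x (β + γ) c' := by rw [h1]; group
    _ = _ := by rw [← (c3 _ _).eq]; group

theorem heis_inj {β γ : L} (hβ : S.R β) (hγ : S.R γ) (l : S.B β γ = -1) {a b c a' b' c' : K}
    (h : S.x β a * S.x γ b * S.x (β + γ) c = S.x β a' * S.x γ b' * S.x (β + γ) c') :
    a = a' ∧ b = b' := by
  obtain ⟨e, he, r⟩ := heis hβ hγ l
  have hδ := S.Radd β γ hβ hγ l
  have key : ∀ p q, e * p * b - e * a * q = e * p * b' - e * a' * q := by
    intro p q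
    have h1 := r a b c p q 0
    have h2 := r p q 0 a b c
    have h3 := r a' b' c' p q 0
    have h4 := r p q 0 a' b' c'
    rw [h, h3] at h1
    rw [h, h4] at h2
    have e1 : ∀ (u v w w' : K), S.x β u * S.x γ v * S.x (β + γ) w =
      S.x β u * S.x γ v * S.x (β + γ) w' * S.x (β + γ) (w - w') := by
      intro u v w w'; rw [mul_assoc _ _ (S.x (β + γ) (w - w')), ← S.x_add _ hδ]; simp
    rw [e1 _ _ _ (0 + c' - e * a' * q), e1 (a + p) _ _ (0 + c - e * a * q), add_comm a' p,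
      add_comm b' q, h2, add_comm a p, add_comm b q] at h1
    have := S.x_injective hδ (mul_left_cancel h1)
    linear_combination this
  have k1 := key 1 0
  have k2 := key 0 1
  have := he.ne
  constructor
  · apply mul_left_cancel₀ this; linear_combination -k2
  · apply mul_left_cancel₀ this; linear_combination k1

theorem bc_norm {β : L} (hβ : S.R β) (l : S.B β (S.ρ β) = -1) {a b c : K} {g : G} (t : S.θ g = g)
    (e : g = S.x β a * S.x (S.ρ β) b * S.x (β + S.ρ β) c) : S.Yp β a g := by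
  have hρ := S.Rρ β hβ
  have hδ := S.Radd _ _ hβ hρ l
  obtain ⟨f, -, r⟩ := heis hβ hρ l
  have h := t
  rw [e, map_mul, map_mul, S.θx _ hβ, S.θx _ hρ, S.θx _ hδ, map_add, S.ρρ, add_comm (S.ρ β)] at h
  have := r 0 (S.η β * S.φ a) 0 (S.η (S.ρ β) * S.φ b) 0 (S.η (β + S.ρ β) * S.φ c)
  simp only [S.x_zero hβ, S.x_zero hρ, S.x_zero hδ, one_mul, mul_one, ← mul_assoc] at this
  rw [this] at h
  refine yp_bc hβ l t (r := c) ?_
  rw [e, S.θx _ hβ, ← (heis_inj hβ hρ l h).2, add_zero]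

theorem U_Yp {β : L} {g : G} (h : g ∈ S.U β)
    (l : S.ρ β = β ∨ S.B β (S.ρ β) = 0 ∨ S.B β (S.ρ β) = -1) : ∃ s, S.Yp β s g := by
  obtain ⟨hβ, t, hg⟩ := h
  have hρ := S.Rρ β hβ
  rcases l with l | l | l
  · have : ∃ s, g = S.x β s := by
      clear t
      induction hg using closure_induction with
      | mem a ha =>
        rw [l, Set.union_self] at ha
        exact ha.imp fun _ h => h.symm
      | one => exact ⟨0, (S.x_zero hβ).symm⟩
      | mul a b _ _ ha hb =>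
        obtain ⟨s, rfl⟩ := ha
        obtain ⟨t, rfl⟩ := hb
        exact ⟨s + t, (S.x_add β hβ s t).symm⟩
      | inv a _ ha =>
        obtain ⟨s, rfl⟩ := ha
        exact ⟨-s, (S.x_neg hβ s).symm⟩
    obtain ⟨s, e⟩ := this
    exact ⟨s, hβ, t, Or.inl ⟨Or.inl l, by rw [Y_long l, e]⟩⟩
  · have c := S.x_comm _ _ hβ hρ l.ge
    have : ∃ s s', g = S.x β s * S.x (S.ρ β) s' := by
      clear t
      induction hg using closure_induction with
      | mem a ha =>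
        rcases ha with ⟨s, rfl⟩ | ⟨s, rfl⟩
        · exact ⟨s, 0, by simp [S.x_zero hρ]⟩
        · exact ⟨0, s, by simp [S.x_zero hβ]⟩
      | one => exact ⟨0, 0, by simp [S.x_zero hβ, S.x_zero hρ]⟩
      | mul a b _ _ ha hb =>
        obtain ⟨s, s', rfl⟩ := ha
        obtain ⟨t, t', rfl⟩ := hb
        exact ⟨s + t, s' + t', by
          rw [S.x_add β hβ, S.x_add _ hρ, (c t s').symm.mul_mul_mul_comm]⟩
      | inv a _ ha =>
        obtain ⟨s, s', rfl⟩ := ha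
        exact ⟨-s, -s', by rw [(c _ _).eq (a := S.x β (-s)), S.x_neg hβ, S.x_neg hρ, mul_inv_rev]⟩
    obtain ⟨s, s', e⟩ := this
    refine ⟨s, ?_⟩
    have h := t
    rw [e, map_mul, S.θx _ hβ, S.θx _ hρ, S.ρρ, ← (c _ _).eq] at h
    have h2 : S.x (S.ρ β) (S.η β * S.φ s - s') = S.x β (-(S.η (S.ρ β) * S.φ s') + s) := by
      rw [sub_eq_add_neg, S.x_add _ hρ, S.x_add _ hβ, S.x_neg hβ, S.x_neg hρ,
        mul_inv_eq_iff_eq_mul, mul_assoc, ← h]
      group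
    have ne : S.ρ β ≠ β := fun e => by rw [e, S.R2 β hβ] at l; omega
    have := sub_eq_zero.1 (S.x_inj _ _ hρ hβ ne _ _ h2)
    rw [e, ← this, ← S.θx _ hβ]
    exact yp_short hβ l s
  · have hδ := S.Radd _ _ hβ hρ l
    obtain ⟨f, -, r⟩ := heis hβ hρ l
    have : ∃ a b c, g = S.x β a * S.x (S.ρ β) b * S.x (β + S.ρ β) c := by
      clear t
      induction hg using closure_induction with
      | mem a ha =>
        rcases ha with ⟨s, rfl⟩ | ⟨s, rfl⟩
        · exact ⟨s, 0, 0, by simp [S.x_zero hρ, S.x_zero hδ]⟩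
        · exact ⟨0, s, 0, by simp [S.x_zero hβ, S.x_zero hδ]⟩
      | one => exact ⟨0, 0, 0, by simp [S.x_zero hβ, S.x_zero hρ, S.x_zero hδ]⟩
      | mul a b _ _ ha hb =>
        obtain ⟨s, s', s'', rfl⟩ := ha
        obtain ⟨t, t', t'', rfl⟩ := hb
        exact ⟨_, _, _, r _ _ _ _ _ _⟩
      | inv a _ ha =>
        obtain ⟨a, b, c, rfl⟩ := ha
        refine ⟨-a, -b, -c - f * a * b, inv_eq_of_mul_eq_one_right ?_⟩
        rw [r, show c + (-c - f * a * b) - f * -a * b = 0 by ring]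
        simp [S.x_zero hβ, S.x_zero hρ, S.x_zero hδ]
    obtain ⟨a, b, c, e⟩ := this
    exact ⟨a, bc_norm hβ l t e⟩

theorem Yp.mul {β : L} {s t : K} {g k : G} (h : S.Yp β s g) (h' : S.Yp β t k) :
    S.Yp β (s + t) (g * k) := by
  have hβ := h.1
  have th : S.θ (g * k) = g * k := by rw [map_mul, h.2.1, h'.2.1]
  rcases h.2.2 with ⟨l | l, -⟩ | ⟨l, -⟩
  · refine ⟨hβ, th, Or.inl ⟨Or.inl l, ?_⟩⟩
    rw [(h.long l).1, (h'.long l).1, Y_long l, S.x_add β hβ]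
  · refine ⟨hβ, th, Or.inl ⟨Or.inr l, ?_⟩⟩
    rw [h.short l, h'.short l, Y_nl hβ l.le, S.x_add β hβ, map_mul,
      (c_θ hβ hβ l.ge t s).symm.mul_mul_mul_comm]
  · obtain ⟨r, e⟩ := h.bc l
    obtain ⟨r', e'⟩ := h'.bc l
    obtain ⟨f, -, q⟩ := heis hβ (S.Rρ β hβ) l
    refine bc_norm hβ l th (by rw [e, e', S.θx _ hβ, S.θx _ hβ, q])

theorem Yp.typ {β : L} {s : K} {g : G} (h : S.Yp β s g) :
    S.ρ β = β ∨ S.B β (S.ρ β) = 0 ∨ S.B β (S.ρ β) = -1 := by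
  rcases h.2.2 with ⟨l | l, -⟩ | ⟨l, -⟩ <;> simp [l]

theorem Yp.zero {β : L} {s : K} (h : S.Yp β s 1) : s = 0 := by
  have hβ := h.1
  have hρ := S.Rρ β hβ
  rcases h.typ with l | l | l
  · exact S.x_eq_one hβ (h.long l).1.symm
  · have e := h.short l
    have ne : β ≠ S.ρ β := fun e => by rw [← e, S.R2 β hβ] at l; omega
    rw [S.θx β hβ, eq_comm, mul_eq_one_iff_eq_inv, ← S.x_neg hρ] at e
    exact S.x_inj _ _ hβ hρ ne _ _ e
  · obtain ⟨r, e⟩ := h.bc l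
    rw [S.θx β hβ] at e
    refine (heis_inj hβ hρ l (a' := 0) (b' := 0) (c' := 0) (e.symm.trans ?_)).1
    simp [S.x_zero hβ, S.x_zero hρ, S.x_zero (S.Radd _ _ hβ hρ l)]

theorem Yp.inv {β : L} {s : K} {g : G} (h : S.Yp β s g) : S.Yp β (-s) g⁻¹ := by
  obtain ⟨t, h'⟩ := U_Yp (U_inv h.mem) h.typ
  have := h.mul h'
  rw [mul_inv_cancel] at this
  rwa [neg_eq_of_add_eq_zero_right this.zero]

theorem Yp.one {β : L} {s : K} {g : G} (h : S.Yp β s g) : S.Yp β 0 1 := by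
  simpa using h.mul h.inv

theorem Yp.zpow {β : L} {s : K} {g : G} (h : S.Yp β s g) (n : ℤ) : S.Yp β (n * s) (g ^ n) := by
  induction n using Int.induction_on with
  | zero => simpa using h.one
  | succ n ih => simpa only [Int.cast_add, Int.cast_natCast, Int.cast_one, add_mul, one_mul, zpow_add_one, zpow_natCast] using ih.mul h
  | pred n ih => simpa only [sub_eq_add_neg, Int.reduceNeg, Int.cast_add, Int.cast_neg, Int.cast_natCast, Int.cast_one, add_mul, neg_mul, one_mul, zpow_add, zpow_neg, zpow_natCast, zpow_ofNat, pow_one] using ih.mul h.inv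

theorem Yp.uniq {β : L} {s : K} {g k : G} (h : S.Yp β s g) (h' : S.Yp β s k)
    (l : S.ρ β = β ∨ S.B β (S.ρ β) = 0) : g = k := by
  rcases l with l | l
  · rw [(h.long l).1, (h'.long l).1]
  · rw [h.short l, h'.short l]

theorem Yp.uniq_bc {β : L} {s : K} {g k : G} (h : S.Yp β s g) (h' : S.Yp β s k)
    (l : S.B β (S.ρ β) = -1) : g⁻¹ * k ∈ S.U (β + S.ρ β) := by
  have hδ := S.Radd _ _ h.1 (S.Rρ β h.1) l
  refine ⟨hδ, by rw [map_mul, map_inv, h.2.1, h'.2.1], ?_⟩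
  obtain ⟨r, e⟩ := h.bc l
  obtain ⟨r', e'⟩ := h'.bc l
  have : g⁻¹ * k = (S.x (β + S.ρ β) r)⁻¹ * S.x (β + S.ρ β) r' := by rw [e, e']; group
  rw [this]
  exact mul_mem (inv_mem (x_mem _ _)) (x_mem _ _)

theorem Yp.rho {β : L} {s : K} {g : G} (h : S.Yp β s g) (l : S.B β (S.ρ β) = 0) :
    S.Yp (S.ρ β) (S.η β * S.φ s) g := by
  have hβ := h.1
  have := yp_short (S.Rρ β hβ) (by rw [S.Bρ, l]) (S.η β * S.φ s)
  rwa [← S.θx β hβ, S.θθ hβ, ← (c_θ hβ hβ l.ge s s).eq, ← h.short l] at this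

theorem yp_bc_ex {β : L} (hβ : S.R β) (l : S.B β (S.ρ β) = -1) (tr : ∃ k, k + S.φ k = 1) (s : K) :
    ∃ g, S.Yp β s g := by
  obtain ⟨k, hk⟩ := tr
  have hρ := S.Rρ β hβ
  have hδ := S.Radd _ _ hβ hρ l
  have lδ : S.ρ (β + S.ρ β) = β + S.ρ β := by rw [map_add, S.ρρ, add_comm]
  obtain ⟨f, hf, r⟩ := heis hβ hρ l
  set c := f * s * (S.η β * S.φ s) with hc
  have h1 : S.θ (S.x β s) * S.x β s = S.x β s * S.θ (S.x β s) * S.x (β + S.ρ β) (-c) := by
    have := r 0 (S.η β * S.φ s) 0 s 0 0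
    simpa only [S.θx β hβ, S.x_zero hβ, one_mul, S.x_zero hδ, mul_one, S.x_zero hρ, zero_add, add_zero, zero_sub] using this
  have h2 : S.φ c = -c := by
    have := congrArg S.θ h1
    rw [map_mul, map_mul, map_mul, S.θθ hβ, h1, S.θx _ hδ, lδ, S.η_fix _ hδ lδ, mul_assoc,
      ← S.x_add _ hδ, eq_comm, mul_eq_left] at this
    have := S.x_eq_one hδ this
    rw [map_neg] at this
    linear_combination -this
  refine ⟨_, yp_bc hβ l (r := -c * k) ?_ rfl⟩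
  rw [map_mul, map_mul, S.θθ hβ, h1, S.θx _ hδ, lδ, S.η_fix _ hδ lδ, mul_assoc, ← S.x_add _ hδ]
  congr 2
  rw [map_mul, map_neg, h2]
  linear_combination c * hk

/-- Monomial elements. -/
structure Mon (S : St G L K) (m : G) (w : L ≃+ L) : Prop extends S.Mon0 m w where
  fix : S.θ m = m
  com : ∀ v, w (S.ρ v) = S.ρ (w v)

theorem Mon.mul {m m' : G} {w w' : L ≃+ L} (h : S.Mon m w) (h' : S.Mon m' w') :
    S.Mon (m * m') (w'.trans w) :=
  ⟨h.toMon0.mul h'.toMon0, by rw [map_mul, h.fix, h'.fix], fun v => by simp [h.com, h'.com]⟩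

theorem Mon.inv {m : G} {w : L ≃+ L} (h : S.Mon m w) : S.Mon m⁻¹ w.symm :=
  ⟨h.toMon0.inv, by rw [map_inv, h.fix], fun v => by
    rw [AddEquiv.symm_apply_eq, h.com]; simp⟩

theorem mon_hh {f : L →+ ℤ} (h : S.θ (S.hh f) = S.hh f) : S.Mon (S.hh f) (AddEquiv.refl L) :=
  ⟨S.mon0_hh f, h, fun _ => rfl⟩

theorem mon_one : S.Mon 1 (AddEquiv.refl L) := by
  simpa [S.hh_zero] using mon_hh (S := S) (f := 0) (by simp [S.hh_zero])

theorem Mon.θconj {m : G} {w : L ≃+ L} (h : S.Mon m w) (g : G) :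
    S.θ (m * g * m⁻¹) = m * S.θ g * m⁻¹ := by rw [map_mul, map_mul, map_inv, h.fix]

theorem Mon.U {m : G} {w : L ≃+ L} (h : S.Mon m w) {β : L} {g : G} (hg : g ∈ S.U β) :
    m * g * m⁻¹ ∈ S.U (w β) := by
  refine ⟨(h.root β).2 hg.1, by rw [h.θconj, hg.2.1], conj_closure ?_ hg.2.2⟩
  rintro a (⟨s, rfl⟩ | ⟨s, rfl⟩)
  · obtain ⟨e, -, c⟩ := h.cj β hg.1
    rw [c]; exact x_mem _ _
  · obtain ⟨e, -, c⟩ := h.cj _ (S.Rρ β hg.1)
    rw [c, h.com]; exact x_mem' _ _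

theorem Mon.Yp {m : G} {w : L ≃+ L} (h : S.Mon m w) {β : L} {e s : K} {g : G}
    (he : ∀ s, m * S.x β s * m⁻¹ = S.x (w β) (e * s)) (hg : S.Yp β s g) :
    S.Yp (w β) (e * s) (m * g * m⁻¹) := by
  have hβ := hg.1
  have hw := (h.root β).2 hβ
  have th : S.θ (m * g * m⁻¹) = m * g * m⁻¹ := by rw [h.θconj, hg.2.1]
  rcases hg.typ with l | l | l
  · have l' : S.ρ (w β) = w β := by rw [← h.com, l]
    exact ⟨hw, th, Or.inl ⟨Or.inl l', by rw [Y_long l', ← he, ← (hg.long l).1]⟩⟩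
  · have l' : S.B (w β) (S.ρ (w β)) = 0 := by rw [← h.com, h.iso, l]
    refine ⟨hw, th, Or.inl ⟨Or.inr l', ?_⟩⟩
    rw [Y_nl hw l'.le, ← he, h.θconj, hg.short l]; group
  · have l' : S.B (w β) (S.ρ (w β)) = -1 := by rw [← h.com, h.iso, l]
    obtain ⟨r, q⟩ := hg.bc l
    obtain ⟨f, -, c⟩ := h.cj _ (S.Radd _ _ hβ (S.Rρ β hβ) l)
    refine yp_bc hw l' th (r := f * r) ?_
    rw [← h.com, ← map_add, ← c, ← he, h.θconj, q]; group

variable (S) in
/-- The Weyl element of a relative root. -/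
noncomputable def N (α : L) : G := S.Y α 1 * S.Y (-α) 1 * S.Y α 1

open Classical in
variable (S) in
/-- The relative reflection. -/
noncomputable def rs (α : L) : L ≃+ L :=
  if S.ρ α = α then S.rfe α else (S.rfe (S.ρ α)).trans (S.rfe α)

open Classical in
variable (S) in
/-- The sum over the orbit. -/
noncomputable def os (α : L) : L := if S.ρ α = α then α else α + S.ρ α

theorem Ok.neg {α : L} (h : S.Ok α) : S.Ok (-α) :=
  ⟨S.Rneg α h.1, h.2.imp (fun l => by rw [map_neg, l]) fun l => by simpa only [map_neg, AddMonoidHom.neg_apply, neg_neg] using l⟩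

theorem Ok.yp {α : L} (h : S.Ok α) : S.Yp α 1 (S.Y α 1) := by
  rcases h.2 with l | l
  · rw [Y_long l]; exact yp_long h.1 l (map_one _)
  · rw [Y_nl h.1 l.le]; exact yp_short h.1 l 1

theorem N_long {α : L} (l : S.ρ α = α) : S.N α = S.n α := by
  rw [N, Y_long l, Y_long (by rw [map_neg, l]), n]

theorem n_comm {α : L} {g : G} (h1 : Commute g (S.x α 1)) (h2 : Commute g (S.x (-α) 1)) :
    Commute g (S.n α) := (h1.mul_right h2).mul_right h1

theorem n_comm_n {α β : L} (hα : S.R α) (hβ : S.R β) (b : S.B α β = 0) :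
    Commute (S.n α) (S.n β) := by
  have h1 := S.Rneg α hα
  have h2 := S.Rneg β hβ
  refine n_comm (n_comm ?_ ?_).symm (n_comm ?_ ?_).symm <;>
    exact S.x_comm _ _ (by assumption) (by assumption) (by simp only [S.symm β α, b, Std.le_refl, map_neg, neg_zero, AddMonoidHom.neg_apply]) _ _

theorem N_short {α : L} (h : S.R α) (l : S.B α (S.ρ α) = 0) :
    S.N α = S.n α * S.n (S.ρ α) ∨ S.N α = S.n α * (S.n (S.ρ α))⁻¹ := by
  have h' := S.Rneg α h
  have e : S.N α = S.n α * S.θ (S.n α) := by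
    have c1 := c_θ h h l.ge 1 1
    have c2 := c_θ h' h (by simp only [map_neg, AddMonoidHom.neg_apply, l, neg_zero, Std.le_refl]) 1 1
    have c3 := c_θ h h' (by simp only [map_neg, l, neg_zero, Std.le_refl]) 1 1
    rw [N, Y_nl h l.le, Y_nl h' (by simp only [map_neg, AddMonoidHom.neg_apply, l, neg_zero, Std.le_refl]), c2.symm.mul_mul_mul_comm,
      (c1.mul_right c3).symm.mul_mul_mul_comm, n, map_mul, map_mul]
  obtain ⟨p, q⟩ := S.η_short α h l
  rw [e, n, map_mul, map_mul, S.θx _ h, S.θx _ h', q, map_one, mul_one, map_neg]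
  rcases p with p | p
  · left; rw [p]; rfl
  · right; rw [p, S.n_inv (S.Rρ α h)]

theorem rs_long {α : L} (h : S.R α) (l : S.ρ α = α) (v : L) : S.rs α v = v - S.B v α • α := by
  simp [rs, l, S.rfe_apply h]

theorem rs_short {α : L} (h : S.R α) (l : S.B α (S.ρ α) = 0) (v : L) :
    S.rs α v = v - S.B v α • α - S.B v (S.ρ α) • S.ρ α := by
  have : S.ρ α ≠ α := fun e => by rw [e, S.R2 α h] at l; omega
  simp only [rs, this, if_false, AddEquiv.trans_apply, S.rfe_apply h, S.rfe_apply (S.Rρ α h),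
    map_sub, map_zsmul, AddMonoidHom.sub_apply, AddMonoidHom.smul_apply, S.symm (S.ρ α) α, l]
  module

theorem os_long {α : L} (l : S.ρ α = α) : S.os α = α := by simp [os, l]

theorem os_short {α : L} (h : S.R α) (l : S.B α (S.ρ α) = 0) : S.os α = α + S.ρ α := by
  have : S.ρ α ≠ α := fun e => by rw [e, S.R2 α h] at l; omega
  simp [os, this]

theorem ρ_os (α : L) : S.ρ (S.os α) = S.os α := by
  unfold os
  split_ifs with h
  · exact h
  · rw [map_add, S.ρρ, add_comm]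

theorem Ok.mon {α : L} (h : S.Ok α) : S.Mon (S.N α) (S.rs α) := by
  have fix : S.θ (S.N α) = S.N α := by
    rw [N, map_mul, map_mul, h.yp.2.1, h.neg.yp.2.1]
  rcases h.2 with l | l
  · refine ⟨?_, fix, fun v => ?_⟩
    · rw [N_long l, rs, if_pos l]; exact S.mon0_n h.1
    · rw [rs_long h.1 l, rs_long h.1 l, map_sub, map_zsmul, S.Bρ', l]
  · have hρ := S.Rρ α h.1
    refine ⟨?_, fix, fun v => ?_⟩
    · have : S.ρ α ≠ α := fun e => by rw [e, S.R2 α h.1] at l; omega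
      rw [rs, if_neg this]
      rcases N_short h.1 l with e | e <;> rw [e]
      · exact (S.mon0_n h.1).mul (S.mon0_n hρ)
      · have : (S.rfe (S.ρ α)).symm = S.rfe (S.ρ α) := by
          ext v; rw [AddEquiv.symm_apply_eq, S.rfe_apply hρ, S.rfe_apply hρ]
          exact (S.rf_rf hρ v).symm
        simpa [this] using (S.mon0_n h.1).mul (S.mon0_n hρ).inv
    · rw [rs_short h.1 l, rs_short h.1 l, map_sub, map_sub, map_zsmul, map_zsmul, S.Bρ', S.Bρ,
        S.ρρ]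
      abel

theorem Ok.N_sq {α : L} (h : S.Ok α) : S.N α * S.N α = S.hh (S.B (S.os α)) := by
  have nn : ∀ β, S.R β → S.n β * S.n β = S.hh (S.B β) := S.nsq
  rcases h.2 with l | l
  · rw [N_long l, os_long l, nn α h.1]
  · have hρ := S.Rρ α h.1
    have c := n_comm_n h.1 hρ l
    rw [os_short h.1 l, map_add, S.hh_add]
    rcases N_short h.1 l with e | e <;> rw [e]
    · rw [c.symm.mul_mul_mul_comm, nn _ h.1, nn _ hρ]
    · rw [c.symm.inv_left.mul_mul_mul_comm, nn _ h.1, ← mul_inv_rev, nn _ hρ, S.hh_inv]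

theorem N_mem {α : L} (h : S.Ok α) {H : Subgroup G} (h1 : ∀ g ∈ S.U α, g ∈ H)
    (h2 : ∀ g ∈ S.U (-α), g ∈ H) : S.N α ∈ H :=
  mul_mem (mul_mem (h1 _ h.yp.mem) (h2 _ h.neg.yp.mem)) (h1 _ h.yp.mem)

theorem N_comm {α : L} (h : S.Ok α) {g : G} (h1 : ∀ k ∈ S.U α, Commute g k)
    (h2 : ∀ k ∈ S.U (-α), Commute g k) : Commute g (S.N α) :=
  ((h1 _ h.yp.mem).mul_right (h2 _ h.neg.yp.mem)).mul_right (h1 _ h.yp.mem)

theorem Yp.hh {β : L} {s : K} {g : G} (hg : S.Yp β s g) {f : L →+ ℤ} (hf : S.θ (S.hh f) = S.hh f) :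
    S.Yp β ((-1) ^ f β * s) (S.hh f * g * (S.hh f)⁻¹) :=
  (mon_hh hf).Yp (S.hh_x f β hg.1) hg

theorem Yp.hh_odd {β : L} {s : K} {g : G} (hg : S.Yp β s g) (l : S.ρ β = β ∨ S.B β (S.ρ β) = 0)
    {f : L →+ ℤ} (hf : S.θ (S.hh f) = S.hh f) (o : (-1 : K) ^ f β = -1) :
    S.hh f * g * (S.hh f)⁻¹ = g⁻¹ := by
  have := hg.hh hf
  rw [o, neg_one_mul] at this
  exact this.uniq hg.inv l

theorem U_hh_even {β : L} {g : G} (hg : g ∈ S.U β) {f : L →+ ℤ} (o : (-1 : K) ^ f β = 1)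
    (o' : (-1 : K) ^ f (S.ρ β) = 1) : Commute (S.hh f) g := by
  refine commute_closure ?_ hg.2.2
  rintro a (⟨s, rfl⟩ | ⟨s, rfl⟩)
  · have := S.hh_x f β hg.1 s
    rwa [o, one_mul, mul_inv_eq_iff_eq_mul] at this
  · have := S.hh_x f _ (S.Rρ β hg.1) s
    rwa [o', one_mul, mul_inv_eq_iff_eq_mul] at this

theorem hh_N_odd {α : L} (h : S.Ok α) {f : L →+ ℤ} (hf : S.θ (S.hh f) = S.hh f)
    (o : (-1 : K) ^ f α = -1) : S.hh f * S.N α * (S.hh f)⁻¹ = (S.N α)⁻¹ := by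
  have h1 := h.yp.hh_odd h.2 hf o
  have h2 := h.neg.yp.hh_odd h.neg.2 hf (by rw [map_neg, zpow_neg, o]; simp)
  rw [N, mul_inv_rev, mul_inv_rev, ← h2]
  conv_rhs => rw [← h1]
  group

theorem θcomm {g k : G} (h : S.θ g = g) (h' : S.θ k = k) : S.θ ⁅g, k⁆ = ⁅g, k⁆ := by
  rw [map_commutatorElement, h, h']

theorem relS {β γ : L} (hβ : S.R β) (hγ : S.R γ) (b : S.B β γ = -1) (lβ : S.B β (S.ρ β) = 0)
    (lγ : S.B γ (S.ρ γ) = 0) (b2 : 0 ≤ S.B β (S.ρ γ)) : ∃ e : K, Pm e ∧ ∀ s t g k, S.Yp β s g →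
      S.Yp γ t k → ⁅g, k⁆ = S.x (β + γ) (e * s * t) * S.θ (S.x (β + γ) (e * s * t)) := by
  obtain ⟨e, he, r, -⟩ := S.x_rel β γ hβ hγ b
  refine ⟨e, he, fun s t g k hg hk => ?_⟩
  rw [hg.short lβ, hk.short lγ, comm_prod (c_θ hβ hβ lβ.ge _ _) (c_θ hβ hγ b2 _ _)
    (c_θ hγ hβ (by rwa [← S.Bρ', S.symm]) _ _) (c_θ hγ hγ lγ.ge _ _), ← map_commutatorElement, r]

theorem rel0 {β γ : L} (hβ : S.R β) (hγ : S.R γ) (b : S.B β γ = -1)
    (l : (S.ρ β = β ∧ S.ρ γ = γ) ∨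
      (S.B β (S.ρ β) = 0 ∧ S.B γ (S.ρ γ) = 0 ∧ S.B β (S.ρ γ) = 0)) :
    ∃ e : K, Pm e ∧ ∀ s t g k, S.Yp β s g → S.Yp γ t k → S.Yp (β + γ) (e * s * t) ⁅g, k⁆ := by
  have hδ := S.Radd β γ hβ hγ b
  rcases l with ⟨l, l'⟩ | ⟨l, l', b2⟩
  · obtain ⟨e, he, r, -⟩ := S.x_rel β γ hβ hγ b
    refine ⟨e, he, fun s t g k hg hk => ?_⟩
    rw [(hg.long l).1, (hk.long l').1, r]
    exact yp_long hδ (by rw [map_add, l, l'])
      (by rw [map_mul, map_mul, he.map, (hg.long l).2, (hk.long l').2])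
  · obtain ⟨e, he, r⟩ := relS hβ hγ b l l' b2.ge
    refine ⟨e, he, fun s t g k hg hk => ?_⟩
    rw [r s t g k hg hk]
    have : S.B γ (S.ρ β) = 0 := by rwa [← S.Bρ', S.symm]
    exact yp_short hδ (by simp only [map_add, AddMonoidHom.add_apply]; omega) _

theorem rel1 {β γ : L} (hβ : S.R β) (hγ : S.R γ) (b : S.B β γ = -1) (lβ : S.B β (S.ρ β) = 0)
    (lγ : S.B γ (S.ρ γ) = 0) (b2 : S.B β (S.ρ γ) = 1) : S.ρ (β + γ) = β + γ ∧
      ∃ e : K, Pm e ∧ ∀ s t g k, S.Yp β s g → S.Yp γ t k →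
      S.Yp (β + γ) (e * s * t + S.φ (e * s * t)) ⁅g, k⁆ := by
  have hδ := S.Radd β γ hβ hγ b
  have : S.B γ (S.ρ β) = 1 := by rwa [← S.Bρ', S.symm]
  have l : S.ρ (β + γ) = β + γ := (S.eq_of_two hδ (S.Rρ _ hδ)
    (by simp only [map_add, AddMonoidHom.add_apply]; omega)).symm
  obtain ⟨e, he, r⟩ := relS hβ hγ b lβ lγ (by omega)
  refine ⟨l, e, he, fun s t g k hg hk => ?_⟩
  rw [r s t g k hg hk, S.θx _ hδ, l, S.η_fix _ hδ l, one_mul, ← S.x_add _ hδ]
  exact yp_long hδ l (by rw [map_add, S.φφ, add_comm])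

theorem rel2 {β γ : L} (hβ : S.R β) (hγ : S.R γ) (b : S.B β γ = -1) (lβ : S.B β (S.ρ β) = 0)
    (lγ : S.ρ γ = γ) : S.ρ (β + γ + S.ρ β) = β + γ + S.ρ β ∧
      ∃ e e' : K, Pm e ∧ Pm e' ∧ ∀ s t g k, S.Yp β s g → S.Yp γ t k → ∃ g1 g2,
      ⁅g, k⁆ = g1 * g2 ∧ Commute g1 g2 ∧ S.Yp (β + γ) (e * s * t) g1 ∧
      S.Yp (β + γ + S.ρ β) (e' * (s * S.φ s) * t) g2 := by
  have hδ := S.Radd β γ hβ hγ b
  have hρ := S.Rρ β hβ
  have hρδ := S.Rρ _ hδ
  have b1 : S.B γ β = -1 := by rwa [S.symm]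
  have b2 : S.B γ (S.ρ β) = -1 := by rwa [← S.Bρ', lγ]
  have b3 := S.R2 β hβ
  have b4 := S.R2 γ hγ
  have lδ : S.B (β + γ) (S.ρ (β + γ)) = 0 := by
    simp only [map_add, AddMonoidHom.add_apply, lγ]; omega
  have bb : S.B β (S.ρ (β + γ)) = -1 := by simp only [map_add, lγ]; omega
  have hw := S.Radd _ _ hβ hρδ bb
  have ew : β + S.ρ (β + γ) = β + γ + S.ρ β := by rw [map_add, lγ]; abel
  have lw : S.ρ (β + γ + S.ρ β) = β + γ + S.ρ β := by simp only [map_add, lγ, S.ρρ]; abel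
  obtain ⟨e, he, r, -⟩ := S.x_rel β γ hβ hγ b
  obtain ⟨f, hf, r', -⟩ := S.x_rel β _ hβ hρδ bb
  rw [ew] at hw r'
  refine ⟨lw, e, f * S.η (β + γ) * e, he, (hf.mul (S.η_short _ hδ lδ).1).mul he,
    fun s t g k hg hk => ?_⟩
  obtain ⟨ek, ht⟩ := hk.long lγ
  have y1 := yp_short hδ lδ (e * s * t)
  have y2 := yp_long (s := f * S.η (β + γ) * e * (s * S.φ s) * t) hw lw (by
    simp only [map_mul, hf.map, he.map, (S.η_short _ hδ lδ).1.map, S.φφ, ht]; ring)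
  have c : Commute _ _ := U_comm y1.mem y2.mem
    (by simp only [map_add, AddMonoidHom.add_apply]; omega)
    (by rw [lw]; simp only [map_add, AddMonoidHom.add_apply]; omega)
  refine ⟨_, _, ?_, c, y1, y2⟩
  have e1 : ⁅g, k⁆ = S.x β s * ⁅S.θ (S.x β s), k⁆ * (S.x β s)⁻¹ * ⁅S.x β s, k⁆ := by
    rw [hg.short lβ]; simp only [commutatorElement_def]; group
  have e2 : ⁅S.θ (S.x β s), k⁆ = S.θ (S.x (β + γ) (e * s * t)) := by
    rw [← r, map_commutatorElement, ← ek, hk.2.1]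
  rw [e1, e2, ek, r, c.eq, (c_θ hδ hδ lδ.ge _ _).eq, S.θx _ hδ, conj_of_comm (r' _ _), mul_assoc]
  congr 2
  simp only [map_mul, he.map, ht]; ring

theorem relC {β γ : L} (hβ : S.R β) (hγ : S.R γ) (b : S.B β γ = -1) (lβ : -1 ≤ S.B β (S.ρ β))
    (lγ : -1 ≤ S.B γ (S.ρ γ)) (b2 : 1 ≤ S.B β (S.ρ γ)) :
    (∀ g ∈ S.U β, ∀ k ∈ S.U γ, ⁅g, k⁆ ∈ S.U (β + γ)) ∧
    (∀ g ∈ S.U β, ∀ z ∈ S.U (β + γ), Commute g z) ∧
    (∀ g ∈ S.U γ, ∀ z ∈ S.U (β + γ), Commute g z) := by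
  have hδ := S.Radd β γ hβ hγ b
  have b1 : S.B γ β = -1 := by rwa [S.symm]
  have b3 := S.R2 β hβ
  have b4 := S.R2 γ hγ
  have b5 : 1 ≤ S.B γ (S.ρ β) := by rwa [← S.Bρ', S.symm]
  have p1 : 0 ≤ S.B β (β + γ) := by simp only [map_add]; omega
  have p2 : 0 ≤ S.B β (S.ρ (β + γ)) := by simp only [map_add]; omega
  have p3 : 0 ≤ S.B γ (β + γ) := by simp only [map_add]; omega
  have p4 : 0 ≤ S.B γ (S.ρ (β + γ)) := by simp only [map_add]; omega
  refine ⟨fun g hg k hk => ⟨hδ, θcomm hg.2.1 hk.2.1, ?_⟩, fun g hg z hz => U_comm hg hz p1 p2,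
    fun g hg z hz => U_comm hg hz p3 p4⟩
  have nz : ∀ ν, S.R ν → 0 ≤ S.B ν (β + γ) → 0 ≤ S.B ν (S.ρ (β + γ)) → ∀ s, S.x ν s ∈
      normalizer ((closure (Set.range (S.x (β + γ)) ∪ Set.range (S.x (S.ρ (β + γ)))) :
        Subgroup G) : Set G) := by
    intro ν hν q1 q2 s
    refine centralizer_le_normalizer _ fun y hy => (commute_closure ?_ hy).symm
    rintro a (⟨s, rfl⟩ | ⟨s, rfl⟩)
    · exact S.x_comm _ _ hν hδ q1 _ _
    · exact S.x_comm _ _ hν (S.Rρ _ hδ) q2 _ _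
  refine comm_closure2 ?_ ?_ ?_ hg.2.2 hk.2.2
  · rintro a (⟨s, rfl⟩ | ⟨s, rfl⟩)
    · exact nz _ hβ p1 p2 s
    · exact nz _ (S.Rρ _ hβ) (by rwa [S.Bρ']) (by rwa [S.Bρ]) s
  · rintro a (⟨s, rfl⟩ | ⟨s, rfl⟩)
    · exact nz _ hγ p3 p4 s
    · exact nz _ (S.Rρ _ hγ) (by rwa [S.Bρ']) (by rwa [S.Bρ]) s
  · rintro a (⟨s, rfl⟩ | ⟨s, rfl⟩) a (⟨t, rfl⟩ | ⟨t, rfl⟩)
    · obtain ⟨e, -, r, -⟩ := S.x_rel β γ hβ hγ b
      rw [r]; exact x_mem _ _
    · rw [(S.x_comm _ _ hβ (S.Rρ _ hγ) (by omega) _ _).commutator_eq]; exact one_mem _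
    · rw [(S.x_comm _ _ (S.Rρ _ hβ) hγ (by rw [S.Bρ']; omega) _ _).commutator_eq]; exact one_mem _
    · obtain ⟨e, -, r, -⟩ := S.x_rel _ _ (S.Rρ _ hβ) (S.Rρ _ hγ) (by rwa [S.Bρ])
      rw [r, ← map_add]; exact x_mem' _ _

theorem comm_mul_comm {y a u : G} (h : Commute y u) : ⁅y, a * u⁆ = ⁅y, a⁆ := by
  simp only [commutatorElement_def, mul_inv_rev]
  rw [← mul_assoc y a u, mul_assoc _ u, h.symm.inv_right.eq]
  group

theorem rel3 {β γ : L} (hβ : S.R β) (hγ : S.R γ) (b : S.B β γ = -1) (lβ : S.B β (S.ρ β) = -1)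
    (lγ : S.B γ (S.ρ γ) = 0) (b2 : S.B β (S.ρ γ) = 0) :
    ∃ e : K, Pm e ∧ ∀ s t g k, S.Yp β s g → S.Yp γ t k → ∃ g1 g2,
      ⁅g, k⁆ = g1 * g2 ∧ S.Yp (β + γ) (e * s * t) g1 ∧ g2 ∈ S.U (β + γ + S.ρ β) := by
  obtain ⟨β', hb'⟩ : ∃ β', S.ρ β = β' := ⟨_, rfl⟩
  obtain ⟨γ', hg'⟩ : ∃ γ', S.ρ γ = γ' := ⟨_, rfl⟩
  have hb'' : S.ρ β' = β := by rw [← hb', S.ρρ]
  have hg'' : S.ρ γ' = γ := by rw [← hg', S.ρρ]
  have hβ' : S.R β' := hb' ▸ S.Rρ β hβ
  have hγ' : S.R γ' := hg' ▸ S.Rρ γ hγ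
  have g1 := S.R2 β hβ
  have g2 := S.R2 γ hγ
  have g3 := S.R2 β' hβ'
  have g4 := S.R2 γ' hγ'
  have g5 : S.B β' γ' = -1 := by rw [← hb', ← hg', S.Bρ, b]
  have g6 : S.B β' γ = 0 := by rw [← hb', S.Bρ', b2]
  rw [hb'] at lβ
  rw [hg'] at lγ b2
  have s1 := S.symm β γ
  have s2 := S.symm β β'
  have s3 := S.symm β γ'
  have s4 := S.symm β' γ
  have s5 := S.symm β' γ'
  have s6 := S.symm γ γ'
  have hω := S.Radd _ _ hβ hβ' lβ
  have hd := S.Radd _ _ hγ hβ (by omega)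
  have hd' := S.Radd _ _ hγ' hβ' (by omega)
  have hw := S.Radd _ _ hγ hω (by simp only [map_add]; omega)
  have hw' := S.Radd _ _ hγ' hω (by simp only [map_add]; omega)
  have hΩ := S.Radd _ _ hγ hw' (by simp only [map_add]; omega)
  have C : ∀ {μ ν}, S.R μ → S.R ν → 0 ≤ S.B μ ν → ∀ {s t}, Commute (S.x μ s) (S.x ν t) :=
    fun h1 h2 h3 _ _ => S.x_comm _ _ h1 h2 h3 _ _
  obtain ⟨e1, he1, r1, -⟩ := S.x_rel _ _ hγ hβ (by omega)
  obtain ⟨e2, he2, r2, -⟩ := S.x_rel _ _ hγ' hβ' (by omega)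
  obtain ⟨e3, he3, r3, -⟩ := S.x_rel _ _ hγ hω (by simp only [map_add]; omega)
  obtain ⟨e4, he4, r4, -⟩ := S.x_rel _ _ hγ' hω (by simp only [map_add]; omega)
  obtain ⟨e5, he5, r5, -⟩ := S.x_rel _ _ hγ hw' (by simp only [map_add]; omega)
  obtain ⟨e6, he6, r6, -⟩ := S.x_rel _ _ hβ hd' (by simp only [map_add]; omega)
  obtain ⟨e7, he7, r7, -⟩ := S.x_rel _ _ hγ' hw (by simp only [map_add]; omega)
  rw [show β + (γ' + β') = γ' + (β + β') by abel] at r6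
  rw [show γ' + (γ + (β + β')) = γ + (γ' + (β + β')) by abel] at r7
  refine ⟨-e1, he1.neg, fun s t g k hg hk => ?_⟩
  obtain ⟨r, eg⟩ := hg.bc (by rwa [hb'])
  have ek := hk.short (by rwa [hg'])
  rw [S.θx _ hβ, hb'] at eg
  rw [S.θx _ hγ, hg'] at ek
  generalize S.η β * S.φ s = s' at eg
  generalize S.η γ * S.φ t = t' at ek
  have cj3 : ∀ m a b c : G, m * (a * b * c) * m⁻¹ = (m * a * m⁻¹) * (m * b * m⁻¹) * (m * c * m⁻¹) :=
    fun m a b c => by group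
  have cj2 : ∀ m a b : G, m * (a * b) * m⁻¹ = (m * a * m⁻¹) * (m * b * m⁻¹) :=
    fun m a b => by group
  have E1 : k * g * k⁻¹ = S.x γ t * (S.x γ' t' * g * (S.x γ' t')⁻¹) * (S.x γ t)⁻¹ := by
    rw [ek]; group
  rw [eg, cj3 (S.x γ' t'), (C hγ' hβ (by omega)).mul_inv_cancel, conj_of_comm (r2 _ _),
    conj_of_comm (r4 _ _), cj3 (S.x γ t), cj2 (S.x γ t), cj2 (S.x γ t), conj_of_comm (r1 _ _),
    (C hγ hd' (by simp only [map_add]; omega)).mul_inv_cancel,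
    (C hγ hβ' (by omega)).mul_inv_cancel, conj_of_comm (r5 _ _), conj_of_comm (r3 _ _), ← eg] at E1
  obtain ⟨p1, p2, A, A', E⟩ : ∃ p1 p2 A A', ⁅k, g⁆ = S.x (γ + β) (e1 * t * s) * S.x (γ' + β') p1 *
      S.x (γ + (γ' + (β + β'))) p2 * (S.x (γ + (β + β')) A * S.x (γ' + (β + β')) A') := by
    refine ⟨e2 * t' * s', e5 * t * (e4 * t' * r), e3 * t * r,
      e6 * s * (e2 * t' * s') + e4 * t' * r, ?_⟩
    set X := S.x (γ + (γ' + (β + β'))) (e5 * t * (e4 * t' * r)) * S.x (γ' + (β + β')) (e4 * t' * r) *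
      S.x (γ + (β + β')) (e3 * t * r) with hX
    have c1 : Commute (S.x β' s') X :=
      ((C hβ' hΩ (by simp only [map_add]; omega)).mul_right
        (C hβ' hw' (by simp only [map_add]; omega))).mul_right
        (C hβ' hw (by simp only [map_add]; omega))
    have c2 : Commute (S.x β s) X :=
      ((C hβ hΩ (by simp only [map_add]; omega)).mul_right
        (C hβ hw' (by simp only [map_add]; omega))).mul_right
        (C hβ hw (by simp only [map_add]; omega))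
    have : ⁅k, g⁆ = S.x (γ + β) (e1 * t * s) * (S.x β s * (S.x (γ' + β') (e2 * t' * s') *
        (S.x β' s' * X * (S.x β' s')⁻¹)) * (S.x β s)⁻¹) := by
      rw [commutatorElement_def, E1, hX]
      conv_lhs => rw [eg]
      group
    rw [this, c1.mul_inv_cancel, cj2, c2.mul_inv_cancel, conj_of_comm (r6 _ _), hX,
      (C hw' hd' (by simp only [map_add, AddMonoidHom.add_apply]; omega)).eq, S.x_add _ hw',
      (C hw hw' (by simp only [map_add, AddMonoidHom.add_apply]; omega)).mul_right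
        (C hw hw' (by simp only [map_add, AddMonoidHom.add_apply]; omega)) |>.eq]
    simp only [mul_assoc]
    congr 2
    rw [← mul_assoc, (C hw' hΩ (by simp only [map_add, AddMonoidHom.add_apply]; omega)).eq,
      mul_assoc]
  set G1 := S.x (γ + β) (e1 * t * s) * S.x (γ' + β') p1 * S.x (γ + (γ' + (β + β'))) p2 with hG1
  set G2 := S.x (γ + (β + β')) A * S.x (γ' + (β + β')) A' with hG2
  have ρd : S.ρ (γ + β) = γ' + β' := by rw [map_add, hb', hg']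
  have ρd' : S.ρ (γ' + β') = γ + β := by rw [map_add, hb'', hg'']
  have ρw : S.ρ (γ + (β + β')) = γ' + (β + β') := by
    rw [map_add, map_add, hb', hg', hb'', add_comm β']
  have ρw' : S.ρ (γ' + (β + β')) = γ + (β + β') := by
    rw [map_add, map_add, hb', hg'', hb'', add_comm β']
  have ρΩ : S.ρ (γ + (γ' + (β + β'))) = γ + (γ' + (β + β')) := by
    rw [map_add, ρw', hg']; abel
  have T := θcomm hk.2.1 hg.2.1
  rw [E, map_mul] at T
  have cw : ∀ {s t}, Commute (S.x (γ + (β + β')) s) (S.x (γ' + (β + β')) t) :=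
    C hw hw' (by simp only [map_add, AddMonoidHom.add_apply]; omega)
  obtain ⟨a1, a2, ha⟩ : ∃ a1 a2, G2 * (S.θ G2)⁻¹ =
      S.x (γ + (β + β')) a1 * S.x (γ' + (β + β')) a2 := by
    rw [hG2, map_mul, S.θx _ hw, S.θx _ hw', ρw, ρw', mul_inv_rev, ← S.x_neg hw, ← S.x_neg hw',
      cw.symm.mul_mul_mul_comm, ← S.x_add _ hw, ← S.x_add _ hw']
    exact ⟨_, _, rfl⟩
  have hu : G1⁻¹ * S.θ G1 = G2 * (S.θ G2)⁻¹ := by
    rw [eq_mul_inv_iff_mul_eq, mul_assoc, T]; group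
  have cc : ∀ ν, S.R ν → 0 ≤ S.B ν (γ + β) → 0 ≤ S.B ν (γ' + β') →
      0 ≤ S.B ν (γ + (γ' + (β + β'))) → Commute (S.x ν 1) (G1⁻¹ * S.θ G1) := by
    intro ν hν q1 q2 q3
    refine Commute.mul_right (Commute.inv_right ?_) ?_
    · exact ((C hν hd q1).mul_right (C hν hd' q2)).mul_right (C hν hΩ q3)
    · rw [hG1, map_mul, map_mul, S.θx _ hd, S.θx _ hd', S.θx _ hΩ, ρd, ρd', ρΩ]
      exact ((C hν hd' q2).mul_right (C hν hd q1)).mul_right (C hν hΩ q3)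
  have z1 : a1 = 0 := by
    have := (cc γ' hγ' (by simp only [map_add]; omega) (by simp only [map_add]; omega)
      (by simp only [map_add]; omega)).commutator_eq
    rw [hu, ha, comm_mul_comm (C hγ' hw' (by simp only [map_add]; omega)), r7] at this
    simpa [he7.ne] using S.x_eq_one hΩ this
  have z2 : a2 = 0 := by
    have := (cc γ hγ (by simp only [map_add]; omega) (by simp only [map_add]; omega)
      (by simp only [map_add]; omega)).commutator_eq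
    rw [hu, ha, cw.eq, comm_mul_comm (C hγ hw (by simp only [map_add]; omega)), r5] at this
    simpa [he5.ne] using S.x_eq_one hΩ this
  rw [z1, z2, S.x_zero hw, S.x_zero hw', mul_one] at ha
  rw [ha, inv_mul_eq_one] at hu
  rw [mul_inv_eq_one] at ha
  have y1 : S.Yp (γ + β) (e1 * t * s) G1 :=
    bc_norm hd (by rw [ρd]; simp only [map_add, AddMonoidHom.add_apply]; omega) hu.symm
      (b := p1) (c := p2) (by rw [hG1, ρd]; congr 2; abel)
  have y2 : G2 ∈ S.U (γ + (β + β')) :=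
    ⟨hw, ha.symm, mul_mem (x_mem _ _) (by rw [← ρw]; exact x_mem' _ _)⟩
  have c := U_comm y1.mem y2 (by simp only [map_add, AddMonoidHom.add_apply]; omega)
    (by rw [ρw]; simp only [map_add, AddMonoidHom.add_apply]; omega)
  refine ⟨G1⁻¹, G2⁻¹, by rw [← commutatorElement_inv, E, c.eq, mul_inv_rev], ?_, ?_⟩
  · have := y1.inv
    rwa [add_comm γ, show -(e1 * t * s) = -e1 * s * t by ring] at this
  · have := U_inv y2
    rwa [show γ + (β + β') = β + γ + S.ρ β by rw [hb']; abel] at this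

end St

end Pool.Agent.MP_c78e8e_al.H75

end
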