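import Pool.Agent.MP_c78e8e_al.Sg.Eng
import Pool.Agent.MP_c78e8e_al.Sg.Defs

attribute [-instance] SemilinearMapClass.toAddHomClass
  DistribMulActionSemiHomClass.toAddMonoidHomClass instCharZeroOfIsSemireal
  IsStrictOrderedRing.toCharZero FloorSemiring.instCharZero RKHS.instFunLike
  Std.instLawfulBEqOfLawfulOrderBEqOfIsPartialOrder MonTypeEquivalenceMon.monMonoid littleWedderburn
  Ring.toSemiring IdemSemiring.toSemiring Nontrivial.to_nonempty RCLike.charZero_rclike
  NonUnitalRing.toNonUnitalNonAssocRing NonUnitalAlgSemiHomClass.toMulHomClass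
  NumberField.to_charZero CommRing.toRing RingSeminormClass.toAddGroupSeminormClass
  SemilatticeInf.toPartialOrder invertibleTwo Group.IsPerfect.subsingleton_of_isMulCommutative
  TestFunctionClass.toDFunLike ContDiffMapSupportedInClass.toDFunLike
  LieAdmissibleRing.toNonUnitalNonAssocRing NonUnitalAlgHomClass.toNonUnitalRingHomClass
  NormedField.toField Fintype.decidableForallFintype NonUnitalSemiring.toNonUnitalNonAssocSemiring
  Std.LawfulBEqOrd.lawfulBEq NeZero.of_gt' NonAssocCommSemiring.toNonAssocSemiring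
  AddGroupNormClass.toAddGroupSeminormClass NonUnitalNormedCommRing.toNonUnitalCommRing
  AddCommGroupWithOne.toAddGroupWithOne NormedCommRing.toCommRing NormedRing.toRing
  MulZeroClass.toMul SeminormClass.toAddGroupSeminormClass AddCommMonoidWithOne.toAddCommMonoid
  NonUnitalNonAssocCommSemiring.toNonUnitalNonAssocSemiring Order.Coframe.toCompleteLattice
  Unique.instSubsingleton BooleanRing.toRing Unique.instInhabited
  instIsRightCancelAddOfAddRightReflectLE CommGroup.toDivisionCommMonoid Std.PreorderPackage.toBEq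
  NonUnitalSeminormedCommRing.toNonUnitalCommRing MulOne.toOne
  Std.instLawfulBEqOrdOfLawfulOrderOrdOfLawfulOrderBEq NonAssocRing.toNonUnitalNonAssocRing
  NormedAddTorsor.toAddTorsor EuclideanDomain.toCommRing SeminormedCommRing.toCommRing
  IdemCommSemiring.toCommSemiring CompletelyDistribLattice.toCompleteLattice Invertible.toNeZero
  LinearOrderedAddCommMonoidWithTop.toAddCommMonoid MulRingSeminormClass.toAddGroupSeminormClass
  Torsor.nonempty SeminormedRing.toRing NonAssocCommRing.toNonUnitalNonAssocCommRing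
  OmegaCompletePartialOrder.toPartialOrder LieRing.toAddCommGroup
  RightPreLieRing.toNonUnitalNonAssocRing LeftPreLieRing.toNonUnitalNonAssocRing
  AlgEquivClass.toRingEquivClass Zero.instNonempty ValuationClass.toMonoidWithZeroHomClass
  AddQuantale.instAddRightMono NormedDivisionRing.toDivisionRing
  ChainCompletePartialOrder.toPartialOrder instCoeOutOfCoeFun
  ContinuousMonoidHom.instCoeOutOfMonoidHomClassOfContinuousMapClass DivisionRing.toDivisionSemiring
  Order.Frame.toCompleteLattice instCoeTCOfCoe BooleanRing.toCommRing GroupWithZero.toMonoidWithZero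

section

namespace Pool.Agent.MP_c78e8e_al.H75

open Subgroup

/-- Computable root data. -/
structure Ops (Cd : Type) where
  B : Cd → Cd → ℤ
  rho : Cd → Cd
  wa : Cd → Option Cd
  wc : Cd → Option Cd
  m2 : Bool
  mtr : Bool
  mid : Bool
  odd : Bool

/-- Facts. -/
structure Fc (Cd : Type) where
  st : Bool
  kap : List Cd
  b : Cd
  p : Pt
  T : List Cd

/-- Rules. -/
inductive Rl
  | base (i : ℕ)
  | ca (n : ℕ)
  | cc (n : ℕ)
  | cN (n z z' : ℕ)
  | rho (n : ℕ)
  | spec (n : ℕ)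
  | comm (n m k : ℕ)
  | drop (n : ℕ) (l : List ℕ)
  | mul (n m : ℕ)
  | sq (n k : ℕ)
  | sI (n m : ℕ)
  | sA (n m : ℕ)
  | sN (n : ℕ)
  | sF (n m : ℕ)
  | fs2 (n m : ℕ)
  | fsid (n : ℕ)
  | ko (n m k : ℕ)

/-- Certificates. -/
structure Cert (Cd : Type) where
  mL : List Cd
  mS : List Cd
  ka : List Cd
  G : List (Cd × Option (ℤ × ℤ × ℤ))
  dk : ℕ
  r1 : Cd
  r2 : Cd
  r3 : Cd
  r4 : Cd
  ex : ℤ × ℤ × ℤ
  ia : List Cd
  steps : List (Rl × Fc Cd)
  tg : List (ℕ × ℕ)

namespace Ops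
variable {Cd : Type} [DecidableEq Cd] (O : Ops Cd)

def isR (c : Cd) : Bool := O.B c c == 2
def ty (c : Cd) : ℤ := O.B c (O.rho c)
def okt (c : Cd) : Bool := O.ty c == 2 || O.ty c == 0
def eqv (c d : Cd) : Bool := O.B c d == 2 && O.isR c && O.isR d
def sm2 (d w z : Cd) : Bool := O.B d w + O.B d z == 2 && O.isR d
def sm3 (d w z u : Cd) : Bool := O.B d w + O.B d z + O.B d u == 2 && O.isR d
def inT (c : Cd) (T : List Cd) : Bool := T.any fun d => O.eqv d c || O.eqv d (O.rho c)
def inS (w z : Cd) (T : List Cd) : Bool :=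
  T.any fun d => O.sm2 d w z || O.sm2 d (O.rho w) (O.rho z)
def inS3 (w z u : Cd) (T : List Cd) : Bool :=
  T.any fun d => O.sm3 d w z u || O.sm3 d (O.rho w) (O.rho z) (O.rho u)
def k0 (w z : Cd) : Bool :=
  (O.ty w == 2 && O.ty z == 2) || (O.ty w == 0 && O.ty z == 0 && O.B w (O.rho z) == 0)
def kD (w z : Cd) : Bool :=
  (O.ty w == 0 && O.ty z == 2) || (O.ty w == -1 && O.ty z == 0 && O.B w (O.rho z) == 0)
def cm (w z : Cd) : Bool := decide (0 ≤ O.B w z) && decide (0 ≤ O.B w (O.rho z))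
def out1 (w z : Cd) (T : List Cd) : Bool :=
  O.B w z == -1 && O.inS w z T && (O.k0 w z ||
    (decide (1 ≤ O.B w (O.rho z)) && decide (-1 ≤ O.ty w) && decide (-1 ≤ O.ty z)) ||
    (O.kD w z && O.inS3 w z (O.rho w) T) || (O.kD z w && O.inS3 w z (O.rho z) T))
def out2 (w z : Cd) : Bool :=
  O.m2 && O.mid && O.ty w == 0 && O.ty z == 0 && O.B w z == -1 && O.B w (O.rho z) == 1
def out (w z : Cd) (T : List Cd) : Bool :=
  O.cm w z || O.out1 w z T || O.out1 w (O.rho z) T || O.out2 w z || O.out2 w (O.rho z)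
def par (k : List Cd) (c : Cd) : ℤ := (k.map fun d => O.B d c).sum
def ev (k : List Cd) (c : Cd) : Bool := O.par k c % 2 == 0 && O.par k (O.rho c) % 2 == 0
def od (k : List Cd) (c : Cd) : Bool := O.m2 || O.par k c % 2 == 1
def mapO (w : Cd → Option Cd) (l l' : List Cd) : Bool := l.map w == l'.map some
def cc (P Q : Fc Cd) (T : List Cd) : Bool :=
  ((P.b :: P.T).all (O.ev Q.kap) || (P.kap.isEmpty && P.T.isEmpty && O.okt P.b)) &&
  ((Q.b :: Q.T).all (O.ev P.kap) || (Q.kap.isEmpty && Q.T.isEmpty && O.okt Q.b)) &&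
  (P.T.all fun w => (Q.b :: Q.T).all fun z => O.out w z T) &&
  (Q.T.all fun z => O.out P.b z T) &&
  ((P.b :: P.T) ++ (Q.b :: Q.T)).all fun w => T.all fun z => O.out w z T
def pure (P : Fc Cd) : Bool := !P.st && P.kap.isEmpty && P.T.isEmpty
def isF (P : Fc Cd) : Bool := pure P && P.p == .all
def good (c : Cd) (i j k : ℤ) : Bool :=
  (O.mid && (i + j + k == 1 || i + j + k == 2)) ||
  (((i == 1 && j == 0 || i == 2 && j == 0 || i == 0 && j == 1 || i == 0 && j == 2) && k == 0) ||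
  (O.ty c == 2 && (i == 0 && j == 0 && k == 1 || i == 0 && j == 0 && k == 2 ||
    i == 1 && j == 1 && k == 0)))
def full (get : ℕ → Fc Cd) (c : Cd) (i j : ℕ) : Bool :=
  isF (get i) && (O.eqv (get i).b c || O.eqv (O.rho (get i).b) c) && (O.okt (get i).b ||
    (O.ty (get i).b == -1 && isF (get j) && O.okt (get j).b &&
      O.sm2 (get j).b (get i).b (O.rho (get i).b)))
def fulls (get : ℕ → Fc Cd) : List Cd → List (ℕ × ℕ) → Bool
  | [], _ => true
  | _ :: _, [] => false
  | c :: T, i :: l => O.full get c i.1 i.2 && fulls get T l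

def commk (P Q f : Fc Cd) (k : ℕ) : Bool :=
  match k, P.p, Q.p, f.T with
  | 0, p, .mon i j k, T => O.k0 P.b Q.b && O.sm2 f.b P.b Q.b && f.p == p.mul i j k && O.cc P Q T
  | 1, .all, .mon _ _ _, T => O.ty P.b == 0 && O.ty Q.b == 0 && O.B P.b (O.rho Q.b) == 1 &&
      O.mtr && O.sm2 f.b P.b Q.b && f.p == .all && O.cc P Q T
  | 2, p, .mon i j k, w :: T => O.kD P.b Q.b && O.sm2 f.b P.b Q.b && f.p == p.mul i j k &&
      O.sm3 w P.b Q.b (O.rho P.b) && O.cc P Q T
  | 3, .mon i j _, .all, w :: T => O.ty P.b == 0 && O.ty Q.b == 2 && O.sm2 f.b P.b Q.b &&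
      f.p == .fs (i - j) && O.sm3 w P.b Q.b (O.rho P.b) && O.cc P Q T
  | 4, .mon _ _ _, .all, w :: T => O.ty P.b == -1 && O.ty Q.b == 0 && O.B P.b (O.rho Q.b) == 0 &&
      O.sm2 f.b P.b Q.b && f.p == .all && O.sm3 w P.b Q.b (O.rho P.b) && O.cc P Q T
  | 5, .mon _ _ _, .all, w :: T => O.ty P.b == 0 && O.ty Q.b == 2 && O.sm2 w P.b Q.b &&
      f.p == .all && O.sm3 f.b P.b Q.b (O.rho P.b) && O.cc P Q T
  | 6, .mon i j k, .mon a b c, w :: T => O.ty P.b == 0 && O.ty Q.b == 2 && O.sm2 w P.b Q.b &&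
      f.p == .mon (i + j + a) (j + i + b) (k + k + c) && O.sm3 f.b P.b Q.b (O.rho P.b) && O.cc P Q T
  | 7, .all, .mon _ _ _, w :: T => O.ty P.b == 0 && O.ty Q.b == 2 && O.sm2 w P.b Q.b &&
      f.p == .all && O.sm3 f.b P.b Q.b (O.rho P.b) && O.m2 && O.mid && O.cc P Q T
  | _, _, _, _ => false

def same (P f : Fc Cd) : Bool := !P.st && !f.st && f.kap == P.kap && f.b == P.b && f.T == P.T

def cj (w : Cd → Option Cd) (P f : Fc Cd) : Bool :=
  !P.st && !f.st && mapO w P.kap f.kap && w P.b == some f.b && f.p == P.p && mapO w P.T f.T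

def ok (k0 : List Cd) (it : List (Cd × Option (ℤ × ℤ × ℤ))) (get : ℕ → Fc Cd) (f : Fc Cd) :
    Rl → Bool
  | .base i => match it.drop i with
    | (β, some (a, b, c)) :: l => !f.st && f.kap == k0 && f.b == β && f.p == .mon a b c &&
      ((it.take i).all fun d => O.out d.1 β f.T && O.inT d.1 f.T) && l.all fun d => O.inT d.1 f.T
    | _ => false
  | .ca n => cj O.wa (get n) f
  | .cc n => cj O.wc (get n) f
  | .cN n z z' => pure (get n) && pure f && f.p == (get n).p && isF (get z) && isF (get z') &&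
      O.B (get z).b (get z').b == -2 && O.isR f.b &&
      ((O.ty (get z).b == 2 && O.B f.b (get n).b - O.B (get n).b (get z).b * O.B f.b (get z).b == 2)
      || (O.ty (get z).b == 0 && O.B f.b (get n).b - O.B (get n).b (get z).b * O.B f.b (get z).b -
        O.B (get n).b (O.rho (get z).b) * O.B f.b (O.rho (get z).b) == 2))
  | .rho n => !(get n).st && !f.st && O.ty (get n).b == 0 && f.kap == (get n).kap &&
      f.b == O.rho (get n).b && f.p == (get n).p.tw && f.T == (get n).T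
  | .spec n => same (get n) f && match (get n).p with
    | .all => f.p == .mon 0 0 0
    | .fs e => f.p == .mon e 0 0
    | _ => false
  | .comm n m k => !(get n).st && !(get m).st && !f.st && f.kap.isEmpty &&
      O.B (get n).b (get m).b == -1 && O.commk (get n) (get m) f k
  | .drop n l => !(get n).st && !f.st && f.kap == (get n).kap && f.b == (get n).b &&
      f.p == (get n).p && f.T.isEmpty && O.fulls get (get n).T (l.map fun i => (i, 0))
  | .mul n m => !(get n).st && !(get m).st && !f.st && f.kap == (get n).kap ++ (get m).kap &&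
      f.b == (get n).b && f.p == (get n).p && f.T == (get n).T ++ (get m).b :: (get m).T &&
      match (get m).p with
      | .mon _ _ _ => true
      | _ => false
  | .sq n k => !(get n).st && !f.st && f.kap.isEmpty && f.b == (get n).b && f.p == (get n).p &&
      O.odd && O.ev (get n).kap (get n).b &&
      (((get n).b :: (get n).T).all fun w => (get n).T.all fun z => O.out w z (f.T.drop k)) &&
      ((get n).T.all fun w => (f.T.drop k).all fun z => O.out w z (f.T.drop k)) &&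
      (get n).T.all fun d => (O.isR d && O.okt d && O.od (get n).kap d) || O.inT d f.T
  | .sI n m => pure (get n) && pure (get m) && f.st && O.isR f.b && O.B f.b (get n).b == -1 &&
      O.k0 f.b (get n).b && O.B (get n).b (get m).b == -2 &&
      match (get n).p, (get m).p with
      | .mon i j k, .mon a b c => f.p == .mon (i + a) (j + b) (k + c)
      | _, _ => false
  | .sA n m => (get n).st && (get m).st && f.st && f.b == (get n).b && f.b == (get m).b &&
      match (get n).p, (get m).p with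
      | .mon i j k, .mon a b c => f.p == .mon (i + a) (j + b) (k + c)
      | _, _ => false
  | .sN n => (get n).st && f.st && f.b == (get n).b &&
      match (get n).p with
      | .mon i j k => f.p == .mon (-i) (-j) (-k)
      | _ => false
  | .sF n m => (get n).st && pure (get m) && pure f && f.p == .all && f.b == (get m).b &&
      O.eqv (get n).b f.b &&
      match (get n).p, (get m).p with
      | .mon i j k, .mon _ _ _ => O.good f.b i j k
      | _, _ => false
  | .fs2 n m => pure (get n) && pure (get m) && pure f && f.p == .all && f.b == (get n).b &&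
      O.eqv (get m).b f.b &&
      match (get n).p, (get m).p with
      | .fs a, .fs b => b == a + 1 || b == a + 2
      | _, _ => false
  | .fsid n => same (get n) f && O.mid && f.p == .all && match (get n).p with
    | .fs _ => true
    | _ => false
  | .ko n m k => !(get n).st && !(get m).st && !f.st && (get n).kap.isEmpty && f.kap.isEmpty &&
      f.b == (get n).b && f.p == (get n).p && O.odd && O.od (get m).kap (get n).b &&
      (((get n).b :: (get n).T).all fun w => ((get n).T ++ (get m).b :: (get m).T).all fun z =>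
        O.out w z (f.T.drop k)) &&
      ((((get n).b :: (get n).T) ++ (get m).b :: (get m).T).all fun w => (f.T.drop k).all fun z =>
        O.out w z (f.T.drop k)) &&
      ((get n).T.all fun d => O.ev (get m).kap d || O.inT d f.T) &&
      match (get m).p with
      | .mon _ _ _ => true
      | _ => false

def run (k0 : List Cd) (it : List (Cd × Option (ℤ × ℤ × ℤ))) (d : Fc Cd) (tc : List Cd)
    (tg : List (ℕ × ℕ)) : List (Rl × Fc Cd) → List (Fc Cd) → Bool
  | [], fs => O.fulls (fun n => fs.getD n d) tc tg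
  | s :: l, fs => O.ok k0 it (fun n => fs.getD n d) s.2 s.1 && run k0 it d tc tg l (s.2 :: fs)

def cmw (w z : Cd) : Bool := O.cm w z && match O.wa z with
  | some z' => O.cm w z'
  | none => false

end Ops

namespace Cert
variable {Cd : Type} [DecidableEq Cd] (c : Cert Cd) (O : Ops Cd)

def k1 : List Cd := c.mL ++ c.mS.flatMap fun z => [z, O.rho z]
def k0 : List Cd := c.ka ++ c.k1 O
def sp : List (Cd × Option (ℤ × ℤ × ℤ)) :=
  match c.dk with
  | 0 => []
  | 1 => [(c.r1, some c.ex)]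
  | 2 => [(c.r1, some c.ex), (c.r2, none)]
  | _ => [(c.r3, some c.ex), (c.r4, none), (c.r2, some c.ex)]
def om : List (Cd × Option (ℤ × ℤ × ℤ)) := if c.dk = 1 then [(c.r3, none)] else []
def av : List Cd :=
  match c.dk with
  | 0 => []
  | 1 => [c.r1]
  | _ => [c.r1, c.r2]
def it0 : List (Cd × Option (ℤ × ℤ × ℤ)) := c.G ++ c.sp ++ c.om
def it : List (Cd × Option (ℤ × ℤ × ℤ)) :=
  (List.zipWith (fun d i => (d, i.2)) c.ia c.it0).reverse ++ c.it0
def spOk : Bool :=
  match c.dk with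
  | 0 => true
  | 1 => O.odd && O.isR c.r1 && (O.ty c.r1 == 0 || O.ty c.r1 == -1) && O.od (c.k0 O) c.r1 &&
    (O.wa c.r1 == some c.r2 || O.wa c.r1 == some (O.rho c.r2)) && O.B c.r1 c.r2 == -1 &&
    O.B c.r1 (O.rho c.r2) == 1 && O.sm2 c.r3 c.r1 c.r2
  | 2 => O.m2 && O.isR c.r1 && O.ty c.r1 == 0 && O.isR c.r2 && O.ty c.r2 == 2 &&
    O.wa c.r1 == some c.r3 && O.wa c.r2 == some c.r4 && O.B c.r1 c.r3 == -1 &&
    O.B c.r1 (O.rho c.r3) == 1 && O.B c.r2 c.r4 == -1 &&
    O.B c.r2 c.r1 + O.B c.r2 c.r3 + O.B c.r4 c.r1 + O.B c.r4 c.r3 == 2 &&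
    O.cm c.r1 c.r2 && O.cm c.r1 c.r4 && O.cm c.r3 c.r2 && O.cm c.r3 c.r4
  | _ => O.mtr && O.isR c.r1 && O.ty c.r1 == -1 && O.isR c.r2 && O.ty c.r2 == 0 &&
    O.B c.r1 c.r2 == -1 && O.B c.r1 (O.rho c.r2) == 0 && O.cmw c.r2 c.r2 &&
    O.ev (c.k0 O) c.r1 && O.od (c.k0 O) c.r2 && O.sm2 c.r3 c.r1 c.r2 &&
    O.sm3 c.r4 c.r1 c.r2 (O.rho c.r1)
def check (tc : List Cd) : Bool :=
  (c.mL.all fun z => O.isR z && O.ty z == 2) && (c.mS.all fun z => O.isR z && O.ty z == 0) &&
  Ops.mapO O.wa (c.k1 O) c.ka && Ops.mapO O.wa (c.it0.map Prod.fst) c.ia &&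
  (c.G.all fun i => O.isR i.1 && O.okt i.1 && O.od (c.k0 O) i.1 && (match i.2 with
    | some (a, b, _) => O.ty i.1 == 0 || a == b
    | none => false) && (c.G.map Prod.fst ++ c.av).all fun j => O.cmw i.1 j) &&
  c.spOk O && O.run (c.k0 O) c.it ⟨true, [], c.r1, .all, []⟩ tc c.tg c.steps []

end Cert

variable {G L K : Type} [Group G] [AddCommGroup L] [Field K] {Cd : Type} [DecidableEq Cd]

/-- The computable data describe the structure. -/
structure Sound (S : St G L K) (t f : K) (O : Ops Cd) (e : Cd → L) (wa wc : L ≃+ L) : Prop where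
  B : ∀ c d, O.B c d = S.B (e c) (e d)
  rho : ∀ c, e (O.rho c) = S.ρ (e c)
  wa : ∀ c d, O.wa c = some d → e d = wa (e c)
  wc : ∀ c d, O.wc c = some d → e d = wc (e c)
  root : ∀ c, S.B (e c) (e c) = 2 → S.R (e c)
  m2 : O.m2 → (-1 : K) = 1
  mtr : O.mtr → ∃ k, k + S.φ k = 1
  mid : O.mid → (∀ s, S.φ s = s) ∧ f = t
  odd : O.odd → (2 : K) ≠ 0

namespace Sound
open St Env Ops
variable {S : St G L K} {t f : K} {O : Ops Cd} {e : Cd → L} {wa wc : L ≃+ L}
  (h : Sound S t f O e wa wc)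
include h

theorem isR {c : Cd} (p : O.isR c) : S.R (e c) := h.root c (by simpa [Ops.isR, h.B] using p)

theorem ty (c : Cd) : O.ty c = S.B (e c) (S.ρ (e c)) := by rw [Ops.ty, h.B, h.rho]

omit h in
theorem lg {β : L} (r : S.R β) (p : S.B β (S.ρ β) = 2) : S.ρ β = β :=
  (S.eq_of_two r (S.Rρ β r) p.ge).symm

theorem okt {c : Cd} (r : S.R (e c)) (p : O.okt c) :
    S.ρ (e c) = e c ∨ S.B (e c) (S.ρ (e c)) = 0 := by
  simp only [Ops.okt, h.ty, Bool.or_eq_true, beq_iff_eq] at p
  exact p.imp (lg r) id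

theorem eqv {c d : Cd} (p : O.eqv c d) : e c = e d := by
  simp only [Ops.eqv, h.B, Bool.and_eq_true, beq_iff_eq] at p
  exact S.eq_of_two (h.isR p.1.2) (h.isR p.2) p.1.1.ge

theorem sm2 {d w z : Cd} (r : S.R (e w + e z)) (p : O.sm2 d w z) : e d = e w + e z := by
  simp only [Ops.sm2, h.B, Bool.and_eq_true, beq_iff_eq] at p
  exact S.eq_of_two (h.isR p.2) r (by rw [map_add, p.1])

theorem sm3 {d w z u : Cd} (r : S.R (e w + e z + e u)) (p : O.sm3 d w z u) :
    e d = e w + e z + e u := by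
  simp only [Ops.sm3, h.B, Bool.and_eq_true, beq_iff_eq] at p
  exact S.eq_of_two (h.isR p.2) r (by rw [map_add, map_add, p.1])

theorem inT {c : Cd} {T : List Cd} (p : O.inT c T) : S.InT (e c) (T.map e) := by
  simp only [Ops.inT, List.any_eq_true, Bool.or_eq_true] at p
  obtain ⟨d, hd, p⟩ := p
  exact ⟨e d, List.mem_map_of_mem hd, p.imp h.eqv fun p => by rw [h.eqv p, h.rho, S.ρρ]⟩

theorem inS {w z : Cd} {T : List Cd} (r : S.R (e w + e z)) (p : O.inS w z T) :
    S.InT (e w + e z) (T.map e) := by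
  simp only [Ops.inS, List.any_eq_true, Bool.or_eq_true] at p
  obtain ⟨d, hd, p⟩ := p
  exact ⟨e d, List.mem_map_of_mem hd, p.imp (h.sm2 r) fun p => by
    rw [h.sm2 (by simpa [h.rho] using S.Rρ _ r) p, h.rho, h.rho, ← map_add, S.ρρ]⟩

theorem inS3 {w z u : Cd} {T : List Cd} (r : S.R (e w + e z + e u)) (p : O.inS3 w z u T) :
    S.InT (e w + e z + e u) (T.map e) := by
  simp only [Ops.inS3, List.any_eq_true, Bool.or_eq_true] at p
  obtain ⟨d, hd, p⟩ := p
  exact ⟨e d, List.mem_map_of_mem hd, p.imp (h.sm3 r) fun p => by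
    rw [h.sm3 (by simpa [h.rho] using S.Rρ _ r) p, h.rho, h.rho, h.rho, ← map_add, ← map_add, S.ρρ]⟩

theorem k0 {w z : Cd} (r : S.R (e w)) (r' : S.R (e z)) (p : O.k0 w z) :
    (S.ρ (e w) = e w ∧ S.ρ (e z) = e z) ∨ (S.B (e w) (S.ρ (e w)) = 0 ∧ S.B (e z) (S.ρ (e z)) = 0 ∧
      S.B (e w) (S.ρ (e z)) = 0) := by
  simp only [Ops.k0, h.ty, h.B, h.rho, Bool.or_eq_true, Bool.and_eq_true, beq_iff_eq] at p
  exact p.imp (fun p => ⟨lg r p.1, lg r' p.2⟩) fun p => ⟨p.1.1, p.1.2, p.2⟩

theorem kD {w z : Cd} (r' : S.R (e z)) (p : O.kD w z) :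
    (S.B (e w) (S.ρ (e w)) = 0 ∧ S.ρ (e z) = e z) ∨ (S.B (e w) (S.ρ (e w)) = -1 ∧
      S.B (e z) (S.ρ (e z)) = 0 ∧ S.B (e w) (S.ρ (e z)) = 0) := by
  simp only [Ops.kD, h.ty, h.B, h.rho, Bool.or_eq_true, Bool.and_eq_true, beq_iff_eq] at p
  exact p.imp (fun p => ⟨p.1, lg r' p.2⟩) fun p => ⟨p.1.1, p.1.2, p.2⟩

omit h in
theorem rootD {β γ : L} (r : S.R β) (r' : S.R γ) (b : S.B β γ = -1)
    (l : (S.B β (S.ρ β) = 0 ∧ S.ρ γ = γ) ∨
      (S.B β (S.ρ β) = -1 ∧ S.B γ (S.ρ γ) = 0 ∧ S.B β (S.ρ γ) = 0)) : S.R (β + γ + S.ρ β) := by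
  refine S.Radd _ _ (S.Radd _ _ r r' b) (S.Rρ _ r) ?_
  rw [map_add, AddMonoidHom.add_apply, ← S.Bρ' γ, S.symm (S.ρ γ)]
  rcases l with l | l
  · rw [l.1, l.2, b]; rfl
  · rw [l.1, l.2.2]; rfl

theorem cm {w z : Cd} (p : O.cm w z) : S.Cm (e w) (e z) := by
  simpa only [Cm, Ops.cm, h.B, h.rho, Bool.and_eq_true, decide_eq_true_eq] using p

theorem out1 {w z : Cd} {T : List Cd} (p : O.out1 w z T) : S.Out (e w) (e z) (T.map e) := by
  intro g hg k hk
  have r := hg.1
  have r' := hk.1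
  simp only [Ops.out1, h.ty, h.B, h.rho, Bool.or_eq_true, Bool.and_eq_true, beq_iff_eq,
    decide_eq_true_eq] at p
  obtain ⟨⟨b, i⟩, p⟩ := p
  have i := h.inS (S.Radd _ _ r r' b) i
  rcases p with ((p | p) | p) | p
  · exact out0 b (h.k0 r r' p) i g hg k hk
  · exact outC b p.1.2 p.2 p.1.1 i g hg k hk
  · have l := h.kD r' p.1
    refine outD b l i ?_ g hg k hk
    rw [← h.rho]; exact h.inS3 (by rw [h.rho]; exact rootD r r' b l) p.2
  · have l := h.kD r p.1
    rw [S.symm] at b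
    refine (outD b l (by rwa [add_comm]) ?_).swap g hg k hk
    rw [← h.rho, add_comm (e z)]
    exact h.inS3 (by rw [h.rho, add_comm (e w)]; exact rootD r' r b l) p.2

theorem out2 {w z : Cd} {T : List L} (p : O.out2 w z) : S.Out (e w) (e z) T := by
  intro g hg k hk
  simp only [Ops.out2, h.ty, h.B, h.rho, Bool.and_eq_true, beq_iff_eq] at p
  obtain ⟨⟨⟨⟨⟨p1, p2⟩, p3⟩, p4⟩, p5⟩, p6⟩ := p
  obtain ⟨l, c, -, r⟩ := rel1 hg.1 hk.1 p5 p3 p4 p6
  obtain ⟨s, hs⟩ := U_Yp hg (by tauto)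
  obtain ⟨t, ht⟩ := U_Yp hk (by tauto)
  have y := r s t g k hs ht
  rw [(h.mid p2).1, show c * s * t + c * s * t = 0 by linear_combination -(c * s * t) * h.m2 p1] at y
  rw [y.uniq y.one (Or.inl l)]; exact one_mem _

theorem out {w z : Cd} {T : List Cd} (p : O.out w z T) : S.Out (e w) (e z) (T.map e) := by
  simp only [Ops.out, Bool.or_eq_true] at p
  rcases p with (((p | p) | p) | p) | p
  · exact out_c (h.cm p).1 (h.cm p).2
  · exact h.out1 p
  · exact Out.rho (by rw [← h.rho]; exact h.out1 p)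
  · exact h.out2 p
  · exact Out.rho (by rw [← h.rho]; exact h.out2 p)

theorem sg (k : List Cd) (c : Cd) : S.sg (k.map e) (e c) = (-1) ^ O.par k c := by
  simp [St.sg, Ops.par, h.B, Function.comp_def]

theorem ev {k : List Cd} {c : Cd} (p : O.ev k c) : S.Ev (k.map e) (e c) := by
  simp only [Ops.ev, Bool.and_eq_true, beq_iff_eq] at p
  rw [Ev, ← h.rho, h.sg, h.sg]
  exact ⟨(Int.even_iff.2 p.1).neg_one_zpow, (Int.even_iff.2 p.2).neg_one_zpow⟩

theorem od {k : List Cd} {c : Cd} (p : O.od k c) : S.sg (k.map e) (e c) = -1 := by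
  simp only [Ops.od, Bool.or_eq_true, beq_iff_eq] at p
  rw [h.sg]
  rcases p with p | p
  · rw [h.m2 p, one_zpow]
  · exact (Int.odd_iff.2 p).neg_one_zpow

omit h in
theorem mapO {w : Cd → Option Cd} {W : L → L} (hw : ∀ c d, w c = some d → e d = W (e c))
    {l l' : List Cd} (p : mapO w l l') : l'.map e = (l.map e).map W := by
  simp only [Ops.mapO, beq_iff_eq] at p
  induction l generalizing l' with
  | nil => simp_all
  | cons c l ih =>
    cases l' with
    | nil => simp at p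
    | cons d l' =>
      simp only [List.map_cons, List.cons.injEq] at p ⊢
      exact ⟨hw c d p.1, ih p.2⟩

theorem cc {P Q : Fc Cd} {T : List Cd} (r : S.R (e P.b)) (r' : S.R (e Q.b)) (p : O.cc P Q T) :
    S.CC (P.kap.map e) (e P.b) (P.T.map e) (Q.kap.map e) (e Q.b) (Q.T.map e) (T.map e) := by
  simp only [Ops.cc, Bool.or_eq_true, Bool.and_eq_true, List.all_eq_true, List.isEmpty_iff] at p
  obtain ⟨⟨⟨⟨p1, p2⟩, p3⟩, p4⟩, p5⟩ := p
  refine ⟨p1.imp (fun p => ?_) fun p => ⟨by simp [p.1.1], by simp [p.1.2], h.okt r p.2⟩,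
    p2.imp (fun p => ?_) fun p => ⟨by simp [p.1.1], by simp [p.1.2], h.okt r' p.2⟩, ?_, ?_, ?_⟩
  · rw [← List.map_cons, List.forall_mem_map]; exact fun c hc => h.ev (p c hc)
  · rw [← List.map_cons, List.forall_mem_map]; exact fun c hc => h.ev (p c hc)
  · rw [← List.map_cons]
    simp only [List.forall_mem_map]; exact fun c hc d hd => h.out (p3 c hc d hd)
  · simp only [List.forall_mem_map]; exact fun c hc => h.out (p4 c hc)
  · rw [← List.map_cons, ← List.map_cons, ← List.map_append]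
    simp only [List.forall_mem_map]; exact fun c hc d hd => h.out (p5 c hc d hd)

theorem cmw {w z : Cd} (p : O.cmw w z) : S.Cm (e w) (e z) ∧ S.Cm (e w) (wa (e z)) := by
  simp only [Ops.cmw, Bool.and_eq_true] at p
  refine ⟨h.cm p.1, ?_⟩
  have := p.2
  split at this
  · rename_i z' q
    rw [← h.wa _ _ q]; exact h.cm this
  · simp at this

end Sound

/-- The meaning of a fact. -/
def Fc.sem (E : Env G L K) (e : Cd → L) (f : Fc Cd) : Prop :=
  (f.st = false → E.El (f.kap.map e) (e f.b) f.p (f.T.map e)) ∧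
  (f.st = true → ∀ i j k, f.p = .mon i j k → E.Stab (e f.b) (E.mv i j k))

namespace Sound
open St Env Ops
variable [Finite K] {E : Env G L K} {O : Ops Cd} {e : Cd → L} {wa wc : L ≃+ L}
  (h : Sound E.toSt E.t E.f O e wa wc)

omit [Finite K] [DecidableEq Cd] in
theorem pure {P : Fc Cd} (s : P.sem E e) (p : pure P) : E.El [] (e P.b) P.p [] := by
  simp only [Ops.pure, Bool.and_eq_true, List.isEmpty_iff, Bool.not_eq_true'] at p
  simpa [p.1.2, p.2] using s.1 p.1.1

omit [Finite K] [DecidableEq Cd] in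
theorem mk_pure {P : Fc Cd} (p : Ops.pure P) (s : E.El [] (e P.b) P.p []) : P.sem E e := by
  simp only [Ops.pure, Bool.and_eq_true, List.isEmpty_iff, Bool.not_eq_true'] at p
  exact ⟨fun _ => by simpa [p.1.2, p.2] using s, by simp [p.1.1]⟩

omit [Finite K] [DecidableEq Cd] in
theorem isF {P : Fc Cd} (s : P.sem E e) (p : isF P) : E.El [] (e P.b) .all [] := by
  simp only [Ops.isF, Bool.and_eq_true, beq_iff_eq] at p
  simpa [p.2] using pure s p.1

include h

theorem full {get : ℕ → Fc Cd} (s : ∀ n, (get n).sem E e) {c : Cd} {i j : ℕ}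
    (p : O.full get c i j) : E.Full (e c) := by
  simp only [Ops.full, Bool.and_eq_true, Bool.or_eq_true, beq_iff_eq, h.ty] at p
  obtain ⟨⟨p1, p2⟩, p3⟩ := p
  have F := isF (s i) p1
  have : E.Full (e (get i).b) := F.full (by
    rcases p3 with p | ⟨⟨⟨l, q⟩, q'⟩, q''⟩
    · have := h.okt F.1 p; tauto
    · refine Or.inr (Or.inr ⟨l, ?_⟩)
      have F' := isF (s j) q
      rw [← h.rho, ← h.sm2 (by rw [h.rho]; exact E.Radd _ _ F.1 (E.Rρ _ F.1) l) q'']
      exact F'.full (by have := h.okt F'.1 q'; tauto))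
  rcases p2 with p | p
  · rwa [← h.eqv p]
  · rw [← h.eqv p, h.rho]; exact fun g hg => this g (U_ρ' hg)

theorem fulls {get : ℕ → Fc Cd} (s : ∀ n, (get n).sem E e) {T : List Cd} {l : List (ℕ × ℕ)}
    (p : O.fulls get T l) : ∀ c ∈ T, E.Full (e c) := by
  induction T generalizing l with
  | nil => simp
  | cons c T ih =>
    cases l with
    | nil => simp [Ops.fulls] at p
    | cons i l =>
      simp only [Ops.fulls, Bool.and_eq_true] at p
      simp only [List.forall_mem_cons]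
      exact ⟨h.full s p.1, ih p.2⟩

theorem commk {P Q f : Fc Cd} {k : ℕ} (hP : E.El (P.kap.map e) (e P.b) P.p (P.T.map e))
    (hQ : E.El (Q.kap.map e) (e Q.b) Q.p (Q.T.map e)) (b : E.B (e P.b) (e Q.b) = -1)
    (p : O.commk P Q f k) : E.El [] (e f.b) f.p (f.T.map e) := by
  have r := hP.1
  have r' := hQ.1
  have rd := E.Radd _ _ r r' b
  unfold Ops.commk at p
  split at p <;> simp only [Bool.and_eq_true, beq_iff_eq, h.ty, h.B, h.rho, Bool.false_eq_true] at p
  · rename_i q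
    obtain ⟨⟨⟨p1, p2⟩, p3⟩, p4⟩ := p
    rw [h.sm2 rd p2, p3]
    exact comm0 (h.cc r r' p4) hP (q ▸ hQ) b (h.k0 r r' p1)
  · rename_i q q'
    obtain ⟨⟨⟨⟨⟨⟨p1, p1'⟩, p1''⟩, m⟩, p2⟩, p3⟩, p4⟩ := p
    rw [h.sm2 rd p2, p3]
    exact comm1 (h.cc r r' p4) (q ▸ hP) (q' ▸ hQ) b p1 p1' p1'' (h.mtr m)
  · rename_i q q'
    obtain ⟨⟨⟨⟨p1, p2⟩, p3⟩, p5⟩, p4⟩ := p
    have l := h.kD r' p1
    rw [h.sm2 rd p2, p3, q', List.map_cons, h.sm3 (by rw [h.rho]; exact rootD r r' b l) p5, h.rho]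
    exact comm2 (h.cc r r' p4) hP (q ▸ hQ) b l
  · rename_i q0 q q'
    obtain ⟨⟨⟨⟨⟨p1, p1'⟩, p2⟩, p3⟩, p5⟩, p4⟩ := p
    have l := lg r' p1'
    rw [h.sm2 rd p2, p3, q', List.map_cons,
      h.sm3 (by rw [h.rho]; exact rootD r r' b (Or.inl ⟨p1, l⟩)) p5, h.rho]
    exact comm3 (h.cc r r' p4) (q0 ▸ hP) (q ▸ hQ) b p1 l
  · rename_i q0 q q'
    obtain ⟨⟨⟨⟨⟨⟨p1, p1'⟩, p1''⟩, p2⟩, p3⟩, p5⟩, p4⟩ := p
    rw [h.sm2 rd p2, p3, q', List.map_cons,
      h.sm3 (by rw [h.rho]; exact rootD r r' b (Or.inr ⟨p1, p1', p1''⟩)) p5, h.rho]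
    exact comm4 (h.cc r r' p4) (q0 ▸ hP) (q ▸ hQ) b p1 p1' p1''
  · rename_i q0 q q'
    obtain ⟨⟨⟨⟨⟨p1, p1'⟩, p2⟩, p3⟩, p5⟩, p4⟩ := p
    have l := lg r' p1'
    rw [p3, q', List.map_cons, h.sm2 rd p2,
      h.sm3 (by rw [h.rho]; exact rootD r r' b (Or.inl ⟨p1, l⟩)) p5, h.rho]
    exact comm5 (h.cc r r' p4) (q0 ▸ hP) (q ▸ hQ) b p1 l
  · rename_i q0 q q'
    obtain ⟨⟨⟨⟨⟨p1, p1'⟩, p2⟩, p3⟩, p5⟩, p4⟩ := p
    have l := lg r' p1'
    rw [p3, q', List.map_cons, h.sm2 rd p2,
      h.sm3 (by rw [h.rho]; exact rootD r r' b (Or.inl ⟨p1, l⟩)) p5, h.rho]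
    exact comm6 (h.cc r r' p4) (q0 ▸ hP) (q ▸ hQ) b p1 l
  · rename_i q0 q q'
    obtain ⟨⟨⟨⟨⟨⟨⟨p1, p1'⟩, p2⟩, p3⟩, p5⟩, m⟩, m'⟩, p4⟩ := p
    have l := lg r' p1'
    rw [p3, q', List.map_cons, h.sm2 rd p2,
      h.sm3 (by rw [h.rho]; exact rootD r r' b (Or.inl ⟨p1, l⟩)) p5, h.rho]
    exact comm7 (h.cc r r' p4) (q0 ▸ hP) (q ▸ hQ) b p1 l (h.m2 m) (h.mid m').1

omit h [Finite K] in
theorem cj {w : Cd → Option Cd} {W : L ≃+ L} (hw : ∀ c d, w c = some d → e d = W (e c)) {m : G}
    (hm : E.Mon m W) (mm : m ∈ E.H) {P f : Fc Cd} (s : P.sem E e) (p : cj w P f) : f.sem E e := by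
  simp only [Ops.cj, Bool.and_eq_true, beq_iff_eq, Bool.not_eq_true'] at p
  obtain ⟨⟨⟨⟨⟨p1, p2⟩, p3⟩, p4⟩, p5⟩, p6⟩ := p
  refine ⟨fun _ => ?_, by simp [p2]⟩
  rw [mapO hw p3, mapO hw p6, hw _ _ p4, p5]
  exact (s.1 p1).conj hm mm

theorem ok {a c : G} (ma : E.Mon a wa) (mc : E.Mon c wc) (ha : a ∈ E.H) (hc : c ∈ E.H)
    {k0 : List Cd} {it : List (Cd × Option (ℤ × ℤ × ℤ))}
    (hb : E.Base (k0.map e) (it.map fun i => (e i.1, i.2))) {get : ℕ → Fc Cd}
    (s : ∀ n, (get n).sem E e) {f : Fc Cd} {r : Rl} (p : O.ok k0 it get f r) : f.sem E e := by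
  cases r with
  | base i =>
    simp only [Ops.ok] at p
    split at p
    · rename_i β a b c l q
      simp only [Bool.and_eq_true, beq_iff_eq, Bool.not_eq_true', List.all_eq_true] at p
      obtain ⟨⟨⟨⟨⟨p1, p2⟩, p3⟩, p4⟩, p5⟩, p6⟩ := p
      refine ⟨fun _ => ?_, by simp [p1]⟩
      rw [← List.take_append_drop i it, q, List.map_append, List.map_cons] at hb
      rw [p2, p3, p4]
      refine hb.el ?_ ?_ <;> simp only [List.forall_mem_map]
      · exact fun d hd => ⟨h.out (p5 d hd).1, h.inT (p5 d hd).2⟩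
      · exact fun d hd => h.inT (p6 d hd)
    · simp at p
  | ca n => exact cj h.wa ma ha (s n) p
  | cc n => exact cj h.wc mc hc (s n) p
  | cN n z z' =>
    simp only [Ops.ok, Bool.and_eq_true, Bool.or_eq_true, beq_iff_eq, h.B, h.ty, h.rho] at p
    obtain ⟨⟨⟨⟨⟨⟨⟨p1, p2⟩, p3⟩, p4⟩, p5⟩, p6⟩, p7⟩, p8⟩ := p
    have P := pure (s n) p1
    have Z := isF (s z) p4
    have Z' := isF (s z') p5
    have o : E.Ok (e (get z).b) := ⟨Z.1, p8.imp (fun p => lg Z.1 p.1) And.left⟩
    have e1 : e (get z').b = -e (get z).b :=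
      (E.eq_of_two (E.Rneg _ Z.1) Z'.1 (by simp only [map_neg, AddMonoidHom.neg_apply, p6, Int.reduceNeg, neg_neg, Std.le_refl])).symm
    rw [e1] at Z'
    have m := N_mem o (Z.full (by have := o.2; tauto)) (Z'.full (by have := o.neg.2; tauto))
    have := P.conj o.mon m
    refine mk_pure p2 ?_
    rw [p3, E.eq_of_two (h.isR p7) this.1 ?_]
    · exact this
    · rcases p8 with p | p
      · rw [rs_long Z.1 (lg Z.1 p.1), map_sub, map_zsmul, smul_eq_mul, p.2]
      · rw [rs_short Z.1 p.1, map_sub, map_sub, map_zsmul, map_zsmul, smul_eq_mul, smul_eq_mul, p.2]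
  | rho n =>
    simp only [Ops.ok, Bool.and_eq_true, beq_iff_eq, h.ty, Bool.not_eq_true'] at p
    obtain ⟨⟨⟨⟨⟨⟨p1, p2⟩, p3⟩, p4⟩, p5⟩, p6⟩, p7⟩ := p
    exact ⟨fun _ => by rw [p4, p5, p6, p7, h.rho]; exact ((s n).1 p1).rho p3, by simp [p2]⟩
  | spec n =>
    simp only [Ops.ok, Ops.same, Bool.and_eq_true, beq_iff_eq, Bool.not_eq_true'] at p
    obtain ⟨⟨⟨⟨⟨p1, p2⟩, p3⟩, p4⟩, p5⟩, p6⟩ := p
    refine ⟨fun _ => ?_, by simp [p2]⟩
    have := (s n).1 p1
    rw [p3, p4, p5]
    split at p6 <;> simp only [beq_iff_eq, Bool.false_eq_true] at p6 <;> rename_i q <;>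
      rw [q] at this <;> rw [p6]
    · exact this.spec1
    · exact this.spec2
  | comm n m k =>
    simp only [Ops.ok, Bool.and_eq_true, beq_iff_eq, h.B, Bool.not_eq_true', List.isEmpty_iff] at p
    obtain ⟨⟨⟨⟨⟨p1, p2⟩, p3⟩, p4⟩, p5⟩, p6⟩ := p
    exact ⟨fun _ => by rw [p4]; exact h.commk ((s n).1 p1) ((s m).1 p2) p5 p6, by simp [p3]⟩
  | drop n l =>
    simp only [Ops.ok, Bool.and_eq_true, beq_iff_eq, Bool.not_eq_true', List.isEmpty_iff] at p
    obtain ⟨⟨⟨⟨⟨⟨p1, p2⟩, p3⟩, p4⟩, p5⟩, p6⟩, p7⟩ := p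
    refine ⟨fun _ => ?_, by simp [p2]⟩
    rw [p3, p4, p5, p6]
    exact ((s n).1 p1).drop (by simpa only [List.forall_mem_map] using h.fulls s p7)
  | mul n m =>
    simp only [Ops.ok, Bool.and_eq_true, beq_iff_eq, Bool.not_eq_true'] at p
    obtain ⟨⟨⟨⟨⟨⟨⟨p1, p2⟩, p3⟩, p4⟩, p5⟩, p6⟩, p7⟩, p8⟩ := p
    refine ⟨fun _ => ?_, by simp [p3]⟩
    rw [p4, p5, p6, p7, List.map_append, List.map_append, List.map_cons]
    split at p8
    · rename_i q
      exact ((s n).1 p1).mul (q ▸ (s m).1 p2)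
    · simp at p8
  | sq n k =>
    simp only [Ops.ok, Bool.and_eq_true, Bool.or_eq_true, beq_iff_eq, Bool.not_eq_true',
      List.isEmpty_iff, List.all_eq_true] at p
    obtain ⟨⟨⟨⟨⟨⟨⟨⟨⟨p1, p2⟩, p3⟩, p4⟩, p5⟩, p6⟩, p7⟩, p8⟩, p9⟩, p10⟩ := p
    refine ⟨fun _ => ?_, by simp [p2]⟩
    rw [p3, p4, p5]
    refine ((s n).1 p1).sq (T3 := (f.T.drop k).map e) (h.odd p6) (h.ev p7) ?_ ?_ ?_ ?_
    · rw [← List.map_cons]
      simp only [List.forall_mem_map]; exact fun c hc d hd => h.out (p8 c hc d hd)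
    · simp only [List.forall_mem_map]; exact fun c hc d hd => h.out (p9 c hc d hd)
    · simp only [List.forall_mem_map]
      exact fun c hc => inT_mem (List.mem_map_of_mem (List.mem_of_mem_drop hc))
    · simp only [List.forall_mem_map]
      exact fun c hc => (p10 c hc).imp (fun p => ⟨h.okt (h.isR p.1.1) p.1.2, h.od p.2⟩) h.inT
  | sI n m =>
    simp only [Ops.ok, Bool.and_eq_true, beq_iff_eq, h.B] at p
    obtain ⟨⟨⟨⟨⟨⟨⟨p1, p2⟩, p3⟩, p4⟩, p5⟩, p6⟩, p7⟩, p8⟩ := p
    refine ⟨by simp [p3], fun _ i j k q => ?_⟩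
    have P := pure (s n) p1
    have Q := pure (s m) p2
    have e1 : e (get m).b = -e (get n).b := (E.eq_of_two (E.Rneg _ P.1) Q.1 (by simp only [map_neg, AddMonoidHom.neg_apply, p7, Int.reduceNeg, neg_neg, Std.le_refl])).symm
    split at p8 <;> simp only [beq_iff_eq, Bool.false_eq_true] at p8
    rename_i q1 q2
    rw [q] at p8
    cases p8
    rw [q1] at P
    rw [q2, e1] at Q
    exact stabI P Q p5 (h.k0 (h.isR p4) P.1 p6)
  | sA n m =>
    simp only [Ops.ok, Bool.and_eq_true, beq_iff_eq] at p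
    obtain ⟨⟨⟨⟨⟨p1, p2⟩, p3⟩, p4⟩, p5⟩, p8⟩ := p
    refine ⟨by simp [p3], fun _ i j k q => ?_⟩
    split at p8 <;> simp only [beq_iff_eq, Bool.false_eq_true] at p8
    rename_i q1 q2
    rw [q] at p8
    cases p8
    exact stabA (p4 ▸ (s n).2 p1 _ _ _ q1) (p5 ▸ (s m).2 p2 _ _ _ q2)
  | sN n =>
    simp only [Ops.ok, Bool.and_eq_true, beq_iff_eq] at p
    obtain ⟨⟨⟨p1, p3⟩, p4⟩, p8⟩ := p
    refine ⟨by simp [p3], fun _ i j k q => ?_⟩
    split at p8 <;> simp only [beq_iff_eq, Bool.false_eq_true] at p8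
    rename_i q1
    rw [q] at p8
    cases p8
    exact stabN (p4 ▸ (s n).2 p1 _ _ _ q1)
  | sF n m =>
    simp only [Ops.ok, Bool.and_eq_true, beq_iff_eq] at p
    obtain ⟨⟨⟨⟨⟨⟨p1, p2⟩, p3⟩, p4⟩, p5⟩, p6⟩, p8⟩ := p
    refine mk_pure p3 ?_
    split at p8
    swap
    · simp at p8
    rename_i q1 q2
    have P := pure (s m) p2
    rw [q2, ← p5] at P
    rw [p4]
    refine Stab.all (h.eqv p6 ▸ (s n).2 p1 _ _ _ q1) P fun b hb hf => ?_
    simp only [Ops.good, Bool.and_eq_true, Bool.or_eq_true, beq_iff_eq, h.ty] at p8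
    rcases p8 with p | p | p
    · exact good_id hb (h.mid p.1).1 (h.mid p.1).2 p.2
    · exact good_t hb ⟨by tauto, p.2⟩
    · exact good_f hb (hf (lg P.1 p.1)) (by tauto)
  | fs2 n m =>
    simp only [Ops.ok, Bool.and_eq_true, beq_iff_eq] at p
    obtain ⟨⟨⟨⟨⟨⟨p1, p2⟩, p3⟩, p4⟩, p5⟩, p6⟩, p8⟩ := p
    refine mk_pure p3 ?_
    split at p8 <;> simp only [Bool.false_eq_true, Bool.or_eq_true, beq_iff_eq] at p8
    rename_i q1 q2
    have P := pure (s n) p1
    have Q := pure (s m) p2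
    rw [q1, ← p5] at P
    rw [q2, h.eqv p6] at Q
    rw [p4]
    rcases p8 with rfl | rfl
    · exact Env.fs2 P Q (Or.inl rfl)
    · exact Env.fs2 P Q (Or.inr rfl)
  | fsid n =>
    simp only [Ops.ok, Ops.same, Bool.and_eq_true, beq_iff_eq, Bool.not_eq_true'] at p
    obtain ⟨⟨⟨⟨⟨⟨⟨p1, p2⟩, p3⟩, p4⟩, p5⟩, m⟩, p7⟩, p6⟩ := p
    refine ⟨fun _ => ?_, by simp [p2]⟩
    have := (s n).1 p1
    rw [p3, p4, p5, p7]
    split at p6 <;> simp only [Bool.false_eq_true] at p6
    rename_i q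
    exact (q ▸ this).fsid (h.mid m).1
  | ko n m k =>
    simp only [Ops.ok, Bool.and_eq_true, Bool.or_eq_true, beq_iff_eq, Bool.not_eq_true',
      List.isEmpty_iff, List.all_eq_true] at p
    obtain ⟨⟨⟨⟨⟨⟨⟨⟨⟨⟨⟨⟨p1, p1'⟩, p2⟩, p0⟩, p3⟩, p4⟩, p5⟩, p6⟩, p7⟩, p8⟩, p9⟩, p10⟩, p11⟩ := p
    refine ⟨fun _ => ?_, by simp [p2]⟩
    rw [p3, p4, p5]
    have P := (s n).1 p1
    rw [p0] at P
    split at p11
    swap
    · simp at p11
    rename_i q
    refine P.ko (T3 := (f.T.drop k).map e) (q ▸ (s m).1 p1') (h.odd p6) (h.od p7) ?_ ?_ ?_ ?_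
    · rw [← List.map_cons, ← List.map_cons, ← List.map_append]
      simp only [List.forall_mem_map]; exact fun c hc d hd => h.out (p8 c hc d hd)
    · rw [← List.map_cons, ← List.map_cons, ← List.map_append]
      simp only [List.forall_mem_map]; exact fun c hc d hd => h.out (p9 c hc d hd)
    · simp only [List.forall_mem_map]
      exact fun c hc => inT_mem (List.mem_map_of_mem (List.mem_of_mem_drop hc))
    · simp only [List.forall_mem_map]
      exact fun c hc => (p10 c hc).imp h.ev h.inT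

theorem run {a c : G} (ma : E.Mon a wa) (mc : E.Mon c wc) (ha : a ∈ E.H) (hc : c ∈ E.H)
    {k0 : List Cd} {it : List (Cd × Option (ℤ × ℤ × ℤ))}
    (hb : E.Base (k0.map e) (it.map fun i => (e i.1, i.2))) {d : Fc Cd} (hd : d.sem E e)
    {tc : List Cd} {tg : List (ℕ × ℕ)} {l : List (Rl × Fc Cd)} {fs : List (Fc Cd)}
    (s : ∀ f ∈ fs, f.sem E e) (p : O.run k0 it d tc tg l fs) : ∀ c ∈ tc, E.Full (e c) := by
  have g : ∀ fs : List (Fc Cd), (∀ f ∈ fs, f.sem E e) → ∀ n, (fs.getD n d).sem E e := by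
    intro fs s n
    rw [List.getD_eq_getElem?_getD]
    cases q : fs[n]? with
    | none => exact hd
    | some f => exact s f (List.mem_of_getElem? q)
  induction l generalizing fs with
  | nil => exact h.fulls (g fs s) p
  | cons x l ih =>
    simp only [Ops.run, Bool.and_eq_true] at p
    exact ih (List.forall_mem_cons.2 ⟨h.ok ma mc ha hc hb (g fs s) p.1, s⟩) p.2

theorem spec {a : G} (ma : E.Mon a wa) {c : Cert Cd} (hv : 3 ≤ c.dk → ∀ m ∈ E.U (e c.r1), Commute a m)
    (p : c.spOk O) {g : G} (t : E.Tor g ((c.k0 O).map e)) :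
    E.Spec a g (c.sp.map fun i => (e i.1, i.2)) (c.om.map fun i => (e i.1, i.2)) (c.av.map e) := by
  unfold Cert.spOk at p
  unfold Cert.sp Cert.om Cert.av
  split at p <;> simp only [Bool.and_eq_true, Bool.or_eq_true, beq_iff_eq, h.ty, h.B, h.rho] at p
  · rename_i q
    simpa [q] using spec0 a g
  · rename_i q
    obtain ⟨⟨⟨⟨⟨⟨⟨p1, p2⟩, p3⟩, p4⟩, p5⟩, p6⟩, p7⟩, p8⟩ := p
    have e1 : e c.r2 = wa (e c.r1) ∨ e c.r2 = E.ρ (wa (e c.r1)) :=
      p5.imp (h.wa _ _) fun p => by rw [← h.wa _ _ p, h.rho, E.ρρ]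
    have r : E.R (e c.r2) := by
      have := (ma.root _).2 (h.isR p2)
      rcases e1 with q | q <;> rw [q]
      exacts [this, E.Rρ _ this]
    simpa [q, h.sm2 (E.Radd _ _ (h.isR p2) r p6) p8] using
      spec2 ma t (h.odd p1) (h.isR p2) p3 (h.od p4) e1 p6 p7
  · rename_i q
    obtain ⟨⟨⟨⟨⟨⟨⟨⟨⟨⟨⟨⟨⟨⟨p1, p2⟩, p3⟩, p4⟩, p5⟩, p6⟩, p7⟩, p8⟩, p9⟩, p10⟩, p11⟩, c1⟩, c2⟩, c3⟩, c4⟩ := p
    have c2 := h.cm c2
    have c3 := h.cm c3
    have c4 := h.cm c4
    rw [h.wa _ _ p6] at p8 p9 p11 c3 c4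
    rw [h.wa _ _ p7] at p10 p11 c2 c4
    have r1 := h.isR p2
    have r2 := h.isR p4
    simpa [q] using specW ma t (h.m2 p1) r1 p3 r2 (lg r2 p5) p8 p9 p10
      (E.eq_of_two (E.Radd _ _ r2 ((ma.root _).2 r2) p10) (E.Radd _ _ r1 ((ma.root _).2 r1) p8)
        (by simp only [map_add, AddMonoidHom.add_apply]; omega)) (h.cm c1) c2 c3 c4
  · rename_i q0 q1 q2
    obtain ⟨⟨⟨⟨⟨⟨⟨⟨⟨⟨⟨p1, p2⟩, p3⟩, p4⟩, p5⟩, p6⟩, p7⟩, p8⟩, p9⟩, p10⟩, p11⟩, p12⟩ := p
    have r1 := h.isR p2
    have r2 := h.isR p4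
    obtain ⟨k, q⟩ : ∃ k, c.dk = k + 3 := ⟨c.dk - 3, by simp only [imp_false] at q0 q1 q2; omega⟩
    simpa [q, h.sm2 (E.Radd _ _ r1 r2 p6) p11, h.rho,
      h.sm3 (by rw [h.rho]; exact rootD r1 r2 p6 (Or.inr ⟨p3, p5, p7⟩)) p12] using
      specV ma t (h.mtr p1) r1 p3 r2 p5 p6 p7 (h.cmw p8).2 (h.ev p9) (h.od p10) (hv (by omega))

theorem check {a c : G} (ha : a ∈ E.Gs) (aa : a * a = 1) (ma : E.Mon a wa) (mc : E.Mon c wc)
    {ct : Cert Cd} (hv : 3 ≤ ct.dk → ∀ m ∈ E.U (e ct.r1), Commute a m) {tc : List Cd}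
    (p : ct.check O tc) : ∃ g ∈ E.Gs, (a * (g⁻¹ * a * g)) * (a * (g⁻¹ * a * g)) = 1 ∧
      ∀ H : Subgroup G, a ∈ H → a * (g⁻¹ * a * g) ∈ H → c ∈ H → ∀ d ∈ tc, ∀ u ∈ E.U (e d), u ∈ H := by
  simp only [Cert.check, Bool.and_eq_true, beq_iff_eq, List.all_eq_true, h.ty] at p
  obtain ⟨⟨⟨⟨⟨⟨p1, p2⟩, p3⟩, p4⟩, p5⟩, p6⟩, p7⟩ := p
  obtain ⟨h0, m0, t0⟩ := tor_mu (S := E.toSt) (ct.mL.map e) (ct.mS.map e)
    (by simp only [List.forall_mem_map]
        exact fun z hz => ⟨h.isR (p1 z hz).1, lg (h.isR (p1 z hz).1) (p1 z hz).2⟩)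
    (by simp only [List.forall_mem_map]; exact fun z hz => ⟨h.isR (p2 z hz).1, (p2 z hz).2⟩)
  have e1 : ct.mL.map e ++ (ct.mS.map e).flatMap (fun α => [α, E.ρ α]) = (ct.k1 O).map e := by
    simp [Cert.k1, List.map_flatMap, List.flatMap_map, h.rho]
  rw [e1] at t0
  have e2 : ((ct.k1 O).map e).map wa ++ (ct.k1 O).map e = (ct.k0 O).map e := by
    rw [Cert.k0, List.map_append, mapO h.wa p3]
  obtain ⟨g, hg, uu, hb⟩ := ulem (Γ := ct.G.map fun i => (e i.1, i.2)) (av := ct.av.map e)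
    ha aa ma m0 t0 (by
      simp only [List.forall_mem_map, e2]
      intro i hi
      obtain ⟨⟨⟨⟨q1, q2⟩, q3⟩, q4⟩, -⟩ := p5 i hi
      refine ⟨⟨h.isR q1, h.okt (h.isR q1) q2⟩, h.od q3, ?_⟩
      split at q4 <;> simp only [Bool.or_eq_true, beq_iff_eq, Bool.false_eq_true] at q4
      rename_i q
      refine ⟨_, _, _, q, fun l => q4.resolve_left ?_⟩
      rw [l, E.R2 _ (h.isR q1)]; decide) (by
      rw [List.map_map, show Prod.fst ∘ (fun i : Cd × Option (ℤ × ℤ × ℤ) => (e i.1, i.2)) =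
        e ∘ Prod.fst from rfl, ← List.map_map, ← List.map_append]
      simp only [List.forall_mem_map]
      exact fun i hi j hj => h.cmw ((p5 i hi).2 j hj)) fun g t => h.spec ma hv p6 (e2 ▸ t)
  refine ⟨g, hg, uu, fun H h1 h2 h3 => ?_⟩
  have hb := hb H h2
  rw [e2, ← List.map_append, ← List.map_append] at hb
  refine Sound.run (E := { E with H := H }) h ma mc h1 h3 ?_ ⟨by simp, by simp⟩ (by simp) p7
  convert hb using 1
  rw [Cert.it, List.map_append, List.map_reverse]
  congr 2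
  have := mapO h.wa p4
  change _ = (ct.it0.map _).map _
  generalize ct.it0 = l at this
  generalize ct.ia = l' at this
  induction l generalizing l' with
  | nil => simp
  | cons x l ih =>
    cases l' with
    | nil => simp at this
    | cons y l' =>
      simp only [List.map_cons, List.cons.injEq, List.zipWith_cons_cons] at this ⊢
      exact ⟨by rw [this.1], ih _ this.2⟩

end Sound

end Pool.Agent.MP_c78e8e_al.H75

end

section

namespace Pool.Agent.MP_c78e8e_al.H75

open Matrix Subgroup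
open scoped commutatorElement

variable {r : ℕ} {C : Matrix (Fin r) (Fin r) ℤ} {K : Type} [Field K]

/-- Simply laced Cartan matrices of finite type without isolated nodes. -/
structure Good0 (C : Matrix (Fin r) (Fin r) ℤ) : Prop where
  symm : ∀ i j, C i j = C j i
  diag : ∀ i, C i i = 2
  off : ∀ i j, i ≠ j → C i j ≤ 0
  pos : ∀ v, form C v v ≤ 0 → v = 0
  nbr : ∀ i, ∃ j, C i j = -1

theorem form_eq (u v : Fin r → ℤ) : form C u v = ∑ i, ∑ j, C i j * u i * v j := by
  simp only [form, dotProduct, mulVec, Finset.mul_sum]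
  exact Finset.sum_congr rfl fun i _ => Finset.sum_congr rfl fun j _ => by ring

variable (C) in
/-- The form as an additive map. -/
def fm : (Fin r → ℤ) →+ (Fin r → ℤ) →+ ℤ :=
  AddMonoidHom.mk' (fun u => AddMonoidHom.mk' (form C u) fun v w => by
    simp only [form, mulVec_add, dotProduct_add]) fun u v => by ext w; simp only [AddMonoidHom.coe_comp, AddMonoidHom.mk'_apply, AddMonoidHom.coe_single, Function.comp_apply, form, mulVec_single, MulOpposite.op_one, one_smul, add_dotProduct, AddMonoidHom.add_apply]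

theorem fm_apply (u v : Fin r → ℤ) : form C u v = fm C u v := rfl

variable (C) in
/-- The cocycle as an additive map. -/
def cm : (Fin r → ℤ) →+ (Fin r → ℤ) →+ ℤ :=
  AddMonoidHom.mk' (fun u => AddMonoidHom.mk' (coc C u) fun v w => by
    simp only [coc, ← Finset.sum_add_distrib, Pi.add_apply]
    exact Finset.sum_congr rfl fun i _ => Finset.sum_congr rfl fun j _ => by split_ifs <;> ring)
    fun u v => by
      ext w
      simp only [AddMonoidHom.mk'_apply, AddMonoidHom.add_apply, AddMonoidHom.comp_apply, coc,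
        ← Finset.sum_add_distrib, Pi.add_apply]
      exact Finset.sum_congr rfl fun i _ => Finset.sum_congr rfl fun j _ => by split_ifs <;> ring

variable (C K) in
/-- The structure constants. -/
def ep (u v : Fin r → ℤ) : K := (-1) ^ cm C u v

theorem ep_pm (u v : Fin r → ℤ) : Pm (ep C K u v) := pm_zpow _

theorem ep_addr (u v w : Fin r → ℤ) : ep C K u (v + w) = ep C K u v * ep C K u w := by
  simp [ep, sg_add]

theorem ep_addl (u v w : Fin r → ℤ) : ep C K (u + v) w = ep C K u w * ep C K v w := by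
  simp [ep, sg_add]

theorem sg_neg (n : ℤ) : (-1 : K) ^ (-n) = (-1) ^ n := by
  rw [_root_.zpow_neg]; exact inv_eq_of_mul_eq_one_right (pm_zpow _).sq

theorem ep_negr (u v : Fin r → ℤ) : ep C K u (-v) = ep C K u v := by simp only [ep, map_neg, sg_neg]

theorem ep_negl (u v : Fin r → ℤ) : ep C K (-u) v = ep C K u v := by
  simp only [ep, map_neg, AddMonoidHom.neg_apply, sg_neg]

theorem ep_subr (u v w : Fin r → ℤ) : ep C K u (v - w) = ep C K u v * ep C K u w := by
  rw [sub_eq_add_neg, ep_addr, ep_negr]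

variable (C) in
/-- The value of a root on the Cartan subalgebra. -/
def hb (β : Fin r → ℤ) (h : Fin r → K) : K := ∑ j, (fm C β (Pi.single j 1) : K) * h j

variable (C) in
/-- The root operators. -/
def xo (β : Fin r → ℤ) (t : K) (v : Lie C K) : Lie C K := v + t • ad C β v + t ^ 2 • ad2 C β v

theorem co_non {u : Fin r → ℤ} (h : fm C u u ≠ 2) (v : Lie C K) : co C v u = 0 := dif_neg h

theorem co_root {u : Fin r → ℤ} (h : fm C u u = 2) (v : Lie C K) : co C v u = v.2 ⟨u, h⟩ := dif_pos h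

theorem lie_ext {v w : Lie C K} (h1 : v.1 = w.1) (h2 : ∀ u, fm C u u = 2 → co C v u = co C w u) :
    v = w := Prod.ext h1 (funext fun u => by
  have := h2 u.1 u.2
  rwa [co_root u.2, co_root u.2] at this)

theorem xo_fst (β : Fin r → ℤ) (t : K) (v : Lie C K) (i : Fin r) :
    (xo C β t v).1 i = v.1 i - t * co C v (-β) * β i := by
  simp only [xo, ad, Prod.smul_mk, ad2, smul_zero, Prod.fst_add, Pi.add_apply, Pi.smul_apply, smul_eq_mul, mul_neg, Pi.zero_apply, add_zero]; ring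

theorem co_xo {u : Fin r → ℤ} (h : fm C u u = 2) (β : Fin r → ℤ) (t : K) (v : Lie C K) :
    co C (xo C β t v) u = co C v u + t * (if u = β then -hb C β v.1 else
      ep C K β (u - β) * co C v (u - β)) + t ^ 2 * if u = β then co C v (-β) else 0 := by
  rw [co_root h, co_root h]; rfl

theorem hb_xo (γ β : Fin r → ℤ) (t : K) (v : Lie C K) :
    hb C γ (xo C β t v).1 = hb C γ v.1 - t * co C v (-β) * fm C γ β := by
  have : fm C γ β = ∑ j, fm C γ (Pi.single j 1) * β j := by
    conv_lhs => rw [← Finset.univ_sum_single β, map_sum]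
    refine Finset.sum_congr rfl fun j _ => ?_
    rw [mul_comm, ← smul_eq_mul, ← map_zsmul, ← Pi.single_smul]; simp
  simp only [hb, xo_fst, this, mul_sub, Finset.sum_sub_distrib, Int.cast_sum, Finset.mul_sum,
    Int.cast_mul]
  congr 1
  exact Finset.sum_congr rfl fun j _ => by ring

theorem hb_add (γ β : Fin r → ℤ) (h : Fin r → K) : hb C (γ + β) h = hb C γ h + hb C β h := by
  simp only [hb, map_add, AddMonoidHom.add_apply, Int.cast_add, add_mul, Finset.sum_add_distrib]

theorem hb_neg (β : Fin r → ℤ) (h : Fin r → K) : hb C (-β) h = -hb C β h := by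
  simp only [hb, map_neg, AddMonoidHom.neg_apply, Int.cast_neg, neg_mul, Finset.sum_neg_distrib]

namespace Good0
variable (hC : Good0 C)
include hC

theorem fsymm (u v : Fin r → ℤ) : fm C u v = fm C v u := by
  rw [← fm_apply, ← fm_apply, form_eq, form_eq, Finset.sum_comm]
  exact Finset.sum_congr rfl fun i _ => Finset.sum_congr rfl fun j _ => by rw [hC.symm]; ring

theorem cm_add (u v : Fin r → ℤ) : cm C u v + cm C v u = fm C u v := by
  change coc C u v + coc C v u = form C u v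
  rw [form_eq, coc, coc, Finset.sum_comm (f := fun i j => if i < j then C i j * v i * u j else _)]
  simp only [← Finset.sum_add_distrib]
  refine Finset.sum_congr rfl fun i _ => Finset.sum_congr rfl fun j _ => ?_
  rcases lt_trichotomy i j with h | rfl | h
  · simp [h, h.not_gt, h.ne']
  · simp [hC.diag]; ring
  · simp [h, h.not_gt, h.ne', hC.symm i j]; ring

theorem ep_self {β : Fin r → ℤ} (h : fm C β β = 2) : ep C K β β = -1 := by
  have := hC.cm_add β β
  rw [ep, show cm C β β = 1 by omega, zpow_one]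

theorem ep_swap (u v : Fin r → ℤ) : ep C K v u = (-1) ^ fm C u v * ep C K u v := by
  rw [← hC.cm_add, sg_add, mul_right_comm, ← ep, (ep_pm u v).sq, one_mul, ep]

theorem eq2 {β γ : Fin r → ℤ} (hβ : fm C β β = 2) (hγ : fm C γ γ = 2) (h : 2 ≤ fm C β γ) : β = γ :=
  sub_eq_zero.1 (hC.pos _ (by
    simp only [fm_apply, map_sub, AddMonoidHom.sub_apply, hC.fsymm γ β]; omega))

theorem co_fix {a β : Fin r → ℤ} (hβ : fm C β β = 2) (h : fm C a β ≤ 0) (t : K) (v : Lie C K) :
    co C (xo C β t v) a = co C v a := by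
  by_cases ha : fm C a a = 2
  · have : a ≠ β := by rintro rfl; omega
    rw [co_xo ha, if_neg this, if_neg this, co_non (u := a - β)]
    · simp
    · simp only [map_sub, AddMonoidHom.sub_apply, hC.fsymm β a]; omega
  · rw [co_non ha, co_non ha]

omit hC in
theorem co_one {a β : Fin r → ℤ} (hβ : fm C β β = 2) (ha : fm C a a = 2) (h : fm C a β = 1) (t : K)
    (v : Lie C K) : co C (xo C β t v) a = co C v a + t * ep C K β (a - β) * co C v (a - β) := by
  have : a ≠ β := by rintro rfl; omega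
  rw [co_xo ha, if_neg this, if_neg this]; ring

omit hC in
theorem co_self {β : Fin r → ℤ} (hβ : fm C β β = 2) (t : K) (v : Lie C K) :
    co C (xo C β t v) β = co C v β - t * hb C β v.1 + t ^ 2 * co C v (-β) := by
  rw [co_xo hβ, if_pos rfl, if_pos rfl]; ring

theorem tri {u β : Fin r → ℤ} (hu : fm C u u = 2) (hβ : fm C β β = 2) :
    u = β ∨ fm C u β = 1 ∨ fm C u β ≤ 0 := by
  by_cases h : 2 ≤ fm C u β
  · exact Or.inl (hC.eq2 hu hβ h)
  · omega

theorem xo_add {β : Fin r → ℤ} (hβ : fm C β β = 2) (s t : K) (v : Lie C K) :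
    xo C β s (xo C β t v) = xo C β (s + t) v := by
  have m := hC.co_fix (a := -β) hβ (by simp only [map_neg, AddMonoidHom.neg_apply, hβ, Int.reduceNeg, Left.neg_nonpos_iff, Nat.ofNat_nonneg]) t v
  refine lie_ext (funext fun i => by simp only [xo_fst, m]; ring) fun u hu => ?_
  rcases hC.tri hu hβ with rfl | h | h
  · simp only [co_self hβ, hb_xo, m, hβ]; push_cast; ring
  · rw [co_one hβ hu h, co_one hβ hu h, co_one hβ hu h,
      hC.co_fix hβ (by simp only [map_sub, AddMonoidHom.sub_apply]; omega)]; ring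
  · simp only [hC.co_fix hβ h]

theorem xo_comm {β γ : Fin r → ℤ} (hβ : fm C β β = 2) (hγ : fm C γ γ = 2) (b : 0 ≤ fm C β γ)
    (s t : K) (v : Lie C K) : xo C β s (xo C γ t v) = xo C γ t (xo C β s v) := by
  by_cases e : β = γ
  · subst e; rw [hC.xo_add hβ, hC.xo_add hβ, add_comm]
  have self : ∀ {β γ : Fin r → ℤ}, fm C β β = 2 → fm C γ γ = 2 → 0 ≤ fm C β γ → β ≠ γ →
      ∀ s t, co C (xo C β s (xo C γ t v)) β = co C (xo C γ t (xo C β s v)) β := by
    intro β γ hβ hγ b e s t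
    have sy := hC.fsymm β γ
    rcases (hC.tri hβ hγ).resolve_left e with h | h
    · rw [co_self hβ, co_one hγ hβ h, co_one hγ hβ h, co_self hβ, hb_xo,
        hC.co_fix hγ (a := -β) (by simp only [map_neg, AddMonoidHom.neg_apply, Left.neg_nonpos_iff, b]), h, co_one hβ (a := β - γ)
        (by simp only [map_sub, AddMonoidHom.sub_apply]; omega)
        (by simp only [map_sub, AddMonoidHom.sub_apply]; omega), sub_sub_cancel_left, ep_subr,
        ep_negr, hC.ep_self hγ, hC.ep_swap β γ, h]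
      have := (ep_pm (C := C) (K := K) β γ).sq
      push_cast
      linear_combination (-(s * t * co C v (-γ))) * this
    · rw [co_self hβ, hC.co_fix hγ h, hC.co_fix hγ h, co_self hβ, hb_xo,
        hC.co_fix hγ (a := -β) (by simp only [map_neg, AddMonoidHom.neg_apply, Left.neg_nonpos_iff, b]), show fm C β γ = 0 by omega]; simp
  have sy := hC.fsymm β γ
  have mix : ∀ {β γ u : Fin r → ℤ}, fm C β β = 2 → fm C γ γ = 2 → 0 ≤ fm C β γ → fm C u u = 2 →
      fm C u β = 1 → fm C u γ ≤ 0 →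
      ∀ s t, co C (xo C β s (xo C γ t v)) u = co C (xo C γ t (xo C β s v)) u := by
    intro β γ u hβ hγ b hu p q s t
    rw [co_one hβ hu p, hC.co_fix hγ q, hC.co_fix hγ q, co_one hβ hu p,
      hC.co_fix hγ (by simp only [map_sub, AddMonoidHom.sub_apply]; omega)]
  refine lie_ext (funext fun i => ?_) fun u hu => ?_
  · simp only [xo_fst]
    rw [hC.co_fix hγ (by simp only [map_neg, AddMonoidHom.neg_apply, Left.neg_nonpos_iff, b]), hC.co_fix hβ (by simp only [map_neg, AddMonoidHom.neg_apply, ← sy, Left.neg_nonpos_iff, b])]; ring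
  rcases hC.tri hu hβ with rfl | p | p
  · exact self hβ hγ b e s t
  · rcases hC.tri hu hγ with rfl | q | q
    · exact (self hγ hβ (by omega) (Ne.symm e) t s).symm
    · have s1 := hC.fsymm u β
      have s2 := hC.fsymm u γ
      rw [co_one hβ hu p, co_one hγ hu q, co_one hγ hu q, co_one hβ hu p]
      rcases (hC.tri hβ hγ).resolve_left e with h | h
      · rw [hC.co_fix hγ (by simp only [map_sub, AddMonoidHom.sub_apply]; omega),
          hC.co_fix hβ (by simp only [map_sub, AddMonoidHom.sub_apply]; omega)]; ring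
      · rw [co_one hγ (by simp only [map_sub, AddMonoidHom.sub_apply]; omega)
          (by simp only [map_sub, AddMonoidHom.sub_apply]; omega),
          co_one hβ (by simp only [map_sub, AddMonoidHom.sub_apply]; omega)
          (by simp only [map_sub, AddMonoidHom.sub_apply]; omega), sub_right_comm u γ β]
        simp only [ep_subr, hC.ep_swap β γ, show fm C β γ = 0 by omega]
        rcases ep_pm (C := C) (K := K) β γ with h | h <;> rw [h] <;> ring
    · exact mix hβ hγ b hu p q s t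
  · rcases hC.tri hu hγ with rfl | q | q
    · exact (self hγ hβ (by omega) (Ne.symm e) t s).symm
    · exact (mix hγ hβ (by omega) hu q p t s).symm
    · simp only [hC.co_fix hβ p, hC.co_fix hγ q]

theorem xo_rel {β γ : Fin r → ℤ} (hβ : fm C β β = 2) (hγ : fm C γ γ = 2) (b : fm C β γ = -1)
    (s t : K) (v : Lie C K) :
    xo C β s (xo C γ t v) = xo C (β + γ) (ep C K β γ * s * t) (xo C γ t (xo C β s v)) := by
  have sy := hC.fsymm β γ
  have hδ : fm C (β + γ) (β + γ) = 2 := by simp only [map_add, AddMonoidHom.add_apply]; omega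
  have e1 : ep C K γ β = -ep C K β γ := by rw [hC.ep_swap β γ, b]; simp
  have e2 := hC.ep_self (K := K) hβ
  have e3 := hC.ep_self (K := K) hγ
  have m1 : ∀ (t : K) v, co C (xo C γ t v) (-β) = co C v (-β) + t * ep C K β γ * co C v (-(β + γ)) := by
    intro t v
    rw [co_one hγ (by simpa only [map_neg, AddMonoidHom.neg_apply, neg_neg] using hβ) (by simp [b]), ep_subr, ep_negr, e1, e3, neg_add']; ring
  have m2 : ∀ (t : K) v, co C (xo C β t v) (-γ) = co C v (-γ) - t * ep C K β γ * co C v (-(β + γ)) := by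
    intro t v
    rw [co_one hβ (by simpa using hγ) (by simp [← sy, b]), ep_subr, ep_negr, e2, add_comm β,
      neg_add']; ring
  have m3 : ∀ (t : K) v, co C (xo C γ t v) (-(β + γ)) = co C v (-(β + γ)) := fun t v =>
    hC.co_fix hγ (by simp only [map_add, map_neg, AddMonoidHom.add_apply, AddMonoidHom.neg_apply]
                     omega) t v
  have m4 : ∀ (t : K) v, co C (xo C β t v) (-(β + γ)) = co C v (-(β + γ)) := fun t v =>
    hC.co_fix hβ (by simp only [map_add, map_neg, AddMonoidHom.add_apply, AddMonoidHom.neg_apply]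
                     omega) t v
  have m5 : ∀ (t : K) v, co C (xo C β t v) (-β) = co C v (-β) := hC.co_fix hβ (by simp only [map_neg, AddMonoidHom.neg_apply, hβ, Int.reduceNeg, Left.neg_nonpos_iff, Nat.ofNat_nonneg])
  have m6 : ∀ (t : K) v, co C (xo C γ t v) (-γ) = co C v (-γ) := hC.co_fix hγ (by simp only [map_neg, AddMonoidHom.neg_apply, hγ, Int.reduceNeg, Left.neg_nonpos_iff, Nat.ofNat_nonneg])
  have m7 : ∀ (t : K) v, co C (xo C β t v) γ = co C v γ := hC.co_fix hβ (by omega)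
  have m8 : ∀ (t : K) v, co C (xo C γ t v) β = co C v β := hC.co_fix hγ (by omega)
  have pm := ep_pm (C := C) (K := K) β γ
  refine lie_ext (funext fun i => ?_) fun u hu => ?_
  · simp only [xo_fst, m1, m2, m3, m4, Pi.add_apply]; push_cast; ring
  have s1 := hC.fsymm u β
  have s2 := hC.fsymm u γ
  by_cases u3 : u = β + γ
  · subst u3
    have n1 : ∀ (t : K) v, co C (xo C β t v) (β + γ) = co C v (β + γ) + t * ep C K β γ * co C v γ := by
      intro t v
      rw [co_one hβ hδ (by simp only [map_add, AddMonoidHom.add_apply]; omega), add_sub_cancel_left]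
    have n2 : ∀ (t : K) v, co C (xo C γ t v) (β + γ) = co C v (β + γ) - t * ep C K β γ * co C v β := by
      intro t v
      rw [co_one hγ hδ (by simp only [map_add, AddMonoidHom.add_apply]; omega),
        add_sub_cancel_right, e1]; ring
    rw [co_self hδ]
    simp only [n1, n2, co_self hγ, co_self hβ, hb_add, hb_xo, m2, m3, m4, map_add,
      AddMonoidHom.add_apply, hβ, hγ, b, ← sy]
    push_cast
    rcases pm with h | h <;> rw [h] <;> ring
  have p3 : fm C u β + fm C u γ ≤ 1 := by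
    have := (hC.tri hu hδ).resolve_left u3
    simp only [map_add] at this; omega
  rcases hC.tri hu hβ with rfl | p | p
  · rw [co_one hδ hu (by simp only [map_add]; omega), sub_add_cancel_left]
    simp only [co_self hu, m8, m1, m2, m6, hb_xo, b, ep_negr, ep_addl, e3]
    push_cast
    rcases pm with h | h <;> rw [h] <;> ring
  · rcases hC.tri hu hγ with rfl | q | q
    · omega
    · omega
    · by_cases q0 : fm C u γ = 0
      · rw [co_one hβ hu p, hC.co_fix hγ q, co_one hδ hu (by simp only [map_add]; omega),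
          hC.co_fix hγ q, co_one hβ hu p,
          co_one hγ (by simp only [map_sub, AddMonoidHom.sub_apply]; omega)
            (by simp only [map_sub, AddMonoidHom.sub_apply]; omega),
          hC.co_fix hγ (by simp only [map_sub, map_add, AddMonoidHom.sub_apply,
            AddMonoidHom.add_apply]; omega),
          hC.co_fix hβ (by simp only [map_sub, map_add, AddMonoidHom.sub_apply,
            AddMonoidHom.add_apply]; omega), sub_sub]
        simp only [ep_subr, ep_addr, ep_addl, e1, e2, e3]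
        rcases pm with h | h <;> rw [h] <;> ring
      · rw [co_one hβ hu p, hC.co_fix hγ q, hC.co_fix hδ (by simp only [map_add]; omega),
          hC.co_fix hγ q, co_one hβ hu p,
          hC.co_fix hγ (by simp only [map_sub, AddMonoidHom.sub_apply]; omega)]
  · rcases hC.tri hu hγ with rfl | q | q
    · rw [co_one hδ hu (by simp only [map_add]; omega), sub_add_cancel_right]
      simp only [co_self hu, m7, m1, m2, m4, m5, hb_xo, b, ← sy, ep_negr, ep_addl, e1, e2]
      push_cast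
      rcases pm with h | h <;> rw [h] <;> ring
    · by_cases p0 : fm C u β = 0
      · rw [hC.co_fix hβ p, co_one hγ hu q, co_one hδ hu (by simp only [map_add]; omega),
          co_one hγ hu q, hC.co_fix hβ p,
          co_one hβ (by simp only [map_sub, AddMonoidHom.sub_apply]; omega)
            (by simp only [map_sub, AddMonoidHom.sub_apply]; omega),
          hC.co_fix hγ (by simp only [map_sub, map_add, AddMonoidHom.sub_apply,
            AddMonoidHom.add_apply]; omega),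
          hC.co_fix hβ (by simp only [map_sub, map_add, AddMonoidHom.sub_apply,
            AddMonoidHom.add_apply]; omega), sub_sub, add_comm γ β]
        simp only [ep_subr, ep_addr, ep_addl, e1, e2, e3]
        rcases pm with h | h <;> rw [h] <;> ring
      · rw [hC.co_fix hβ p, co_one hγ hu q, hC.co_fix hδ (by simp only [map_add]; omega),
          co_one hγ hu q, hC.co_fix hβ p,
          hC.co_fix hβ (by simp only [map_sub, AddMonoidHom.sub_apply]; omega)]
    · rw [hC.co_fix hβ p, hC.co_fix hγ q, hC.co_fix hδ (by simp only [map_add]; omega),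
        hC.co_fix hγ q, hC.co_fix hβ p]

variable (C) in
omit hC in
/-- The Weyl operator. -/
def no (β : Fin r → ℤ) (v : Lie C K) : Lie C K := xo C β 1 (xo C (-β) 1 (xo C β 1 v))

theorem no_spec {β : Fin r → ℤ} (hβ : fm C β β = 2) (v : Lie C K) :
    (∀ i, (no C β v).1 i = v.1 i - hb C β v.1 * β i) ∧ hb C β (no C β v).1 = -hb C β v.1 ∧
    co C (no C β v) β = co C v (-β) ∧
    co C (no C β v) (-β) = co C v β ∧ (∀ a, fm C a β = 0 → co C (no C β v) a = co C v a) ∧
    ∀ a, fm C a a = 2 → fm C a β = 1 → co C (no C β v) a = ep C K β (a - β) * co C v (a - β) ∧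
      co C (no C β v) (a - β) = -ep C K β (a - β) * co C v a := by
  have hn : fm C (-β) (-β) = 2 := by simpa only [map_neg, AddMonoidHom.neg_apply, neg_neg] using hβ
  have m1 : ∀ (t : K) v, co C (xo C β t v) (-β) = co C v (-β) := hC.co_fix hβ (by simp only [map_neg, AddMonoidHom.neg_apply, hβ, Int.reduceNeg, Left.neg_nonpos_iff, Nat.ofNat_nonneg])
  have m2 : ∀ (t : K) v, co C (xo C (-β) t v) β = co C v β := hC.co_fix hn (by simp only [map_neg, hβ, Int.reduceNeg, Left.neg_nonpos_iff, Nat.ofNat_nonneg])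
  have m3 := co_self (K := K) hn
  simp only [neg_neg, hb_neg] at m3
  refine ⟨fun i => ?_, ?_, ?_, ?_, fun a h => ?_, fun a ha h => ?_⟩
  · simp only [no, xo_fst, m1, m3, neg_neg, co_self hβ, hb_xo, hβ, Pi.neg_apply]; push_cast; ring
  · simp only [no, m1, m3, neg_neg, co_self hβ, hb_xo, hβ, map_neg]; push_cast; ring
  · simp only [no, m1, m2, m3, neg_neg, co_self hβ, hb_xo, hβ, map_neg]; push_cast; ring
  · simp only [no, m1, m3, co_self hβ, hb_xo, hβ]; push_cast; ring
  · rw [no, hC.co_fix hβ h.le, hC.co_fix hn (by simp only [map_neg, h, neg_zero, Std.le_refl]), hC.co_fix hβ h.le]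
  · have sy := hC.fsymm a β
    have n1 : ∀ (t : K) v, co C (xo C β t v) (a - β) = co C v (a - β) :=
      hC.co_fix hβ (by simp only [map_sub, AddMonoidHom.sub_apply]; omega)
    have n2 : ∀ (t : K) v, co C (xo C (-β) t v) a = co C v a := hC.co_fix hn (by simp only [map_neg, h, Int.reduceNeg, Left.neg_nonpos_iff, zero_le_one])
    have n3 := co_one (K := K) hn (a := a - β)
      (by simp only [map_sub, AddMonoidHom.sub_apply]; omega)
      (by simp only [map_sub, map_neg, AddMonoidHom.sub_apply]; omega)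
    rw [sub_neg_eq_add, sub_add_cancel, ep_negl] at n3
    simp only [no, co_one hβ ha h, n1, n2, n3, ep_subr, hC.ep_self hβ]
    rcases ep_pm (C := C) (K := K) β a with h | h <;> rw [h] <;> constructor <;> ring

theorem no_no {β : Fin r → ℤ} (hβ : fm C β β = 2) (v : Lie C K) :
    no C β (no C β v) = (v.1, fun u => (-1) ^ fm C β u.1 * v.2 u) := by
  obtain ⟨a1, a2, a3, a4, a5, a6⟩ := hC.no_spec hβ v
  obtain ⟨b1, -, b3, b4, b5, b6⟩ := hC.no_spec hβ (no C β v)
  refine lie_ext (funext fun i => by rw [b1, a1, a2]; ring) fun u hu => ?_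
  have : co C (v.1, fun u : Root C => (-1 : K) ^ fm C β u.1 * v.2 u) u =
      (-1) ^ fm C β u * co C v u := by rw [co_root hu, co_root hu]
  rw [this, hC.fsymm β u]
  have hn : fm C (-β) (-β) = 2 := by simpa only [map_neg, AddMonoidHom.neg_apply, neg_neg] using hβ
  rcases hC.tri hu hβ with rfl | p | p
  · rw [b3, a4, hu]; simp only [zpow_ofNat, even_two, Even.neg_pow, one_pow, one_mul]
  · rw [(b6 u hu p).1, (a6 u hu p).2, p]
    linear_combination (-co C v u) * (ep_pm (C := C) (K := K) β (u - β)).sq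
  · rcases hC.tri hu hn with rfl | q | q
    · rw [b4, a3]; simp [hβ]
    · have sy := hC.fsymm u β
      simp only [map_neg] at q
      have h1 : fm C (u + β) (u + β) = 2 := by simp only [map_add, AddMonoidHom.add_apply]; omega
      have h2 : fm C (u + β) β = 1 := by simp only [map_add, AddMonoidHom.add_apply]; omega
      have := (b6 _ h1 h2).2
      rw [(a6 _ h1 h2).1, add_sub_cancel_right] at this
      rw [this, show fm C u β = -1 by omega]
      linear_combination (-co C v u) * (ep_pm (C := C) (K := K) β u).sq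
    · simp only [map_neg] at q
      have : fm C u β = 0 := by omega
      rw [b5 u this, a5 u this, this]; simp

omit hC in
theorem xo_zero (β : Fin r → ℤ) (v : Lie C K) : xo C β 0 v = v := by simp [xo]

open Classical in
/-- The root elements. -/
noncomputable def xx (β : Fin r → ℤ) (t : K) : Equiv.Perm (Lie C K) :=
  if h : fm C β β = 2 then ⟨xo C β t, xo C β (-t), fun v => by rw [hC.xo_add h]; simp [xo_zero],
    fun v => by rw [hC.xo_add h]; simp [xo_zero]⟩ else 1

theorem xx_apply {β : Fin r → ℤ} (h : fm C β β = 2) (t : K) (v : Lie C K) :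
    hC.xx β t v = xo C β t v := by simp [xx, h]

theorem xx_rel {β γ : Fin r → ℤ} (hβ : fm C β β = 2) (hγ : fm C γ γ = 2) (b : fm C β γ = -1)
    (s t : K) : ⁅hC.xx β s, hC.xx γ t⁆ = hC.xx (β + γ) (ep C K β γ * s * t) := by
  have sy := hC.fsymm β γ
  have hδ : fm C (β + γ) (β + γ) = 2 := by simp only [map_add, AddMonoidHom.add_apply]; omega
  rw [commutatorElement_def, mul_inv_eq_iff_eq_mul, mul_inv_eq_iff_eq_mul]
  ext1 v
  simp only [Equiv.Perm.mul_apply, hC.xx_apply hβ, hC.xx_apply hγ, hC.xx_apply hδ,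
    hC.xo_rel hβ hγ b]

theorem roots_ind (Q : (Fin r → ℤ) → Prop) (h1 : ∀ i, Q (Pi.single i 1))
    (h2 : ∀ γ i, fm C γ γ = 2 → Q γ → fm C γ (Pi.single i 1) = -1 → Q (γ + Pi.single i 1))
    (β : Fin r → ℤ) (hβ : fm C β β = 2) : Q β ∨ Q (-β) := by
  have s2 : ∀ i, fm C (Pi.single i 1) (Pi.single i 1) = 2 := fun i => by
    simp only [← fm_apply, form, mulVec_single, MulOpposite.op_one, one_smul, single_dotProduct, col_apply, hC.diag, one_mul]
  have key : ∀ (n : ℕ) (β : Fin r → ℤ), fm C β β = 2 → (∀ i, 0 ≤ β i) → ∑ i, β i ≤ n → Q β := by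
    intro n
    induction n with
    | zero =>
      intro β hβ p h
      have : β = 0 := funext fun i => le_antisymm
        ((Finset.single_le_sum (fun i _ => p i) (Finset.mem_univ i)).trans h) (p i)
      simp [this] at hβ
    | succ n ih =>
      intro β hβ p h
      obtain ⟨i, hi, hi'⟩ : ∃ i, 0 < β i ∧ 0 < fm C β (Pi.single i 1) := by
        by_contra hn
        push Not at hn
        have : fm C β β = ∑ j, β j * fm C β (Pi.single j 1) := by
          conv_lhs => rw [← congrArg (fm C β) (Finset.univ_sum_single β), map_sum]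
          refine Finset.sum_congr rfl fun j _ => ?_
          rw [← smul_eq_mul, ← map_zsmul, ← Pi.single_smul]; simp
        have h3 : ∑ j, β j * fm C β (Pi.single j 1) ≤ 0 := Finset.sum_nonpos fun j _ => by
          rcases (p j).eq_or_lt with e | e
          · simp [← e]
          · exact mul_nonpos_of_nonneg_of_nonpos (p j) (hn j e)
        omega
      rcases hC.tri hβ (s2 i) with rfl | q | q
      · exact h1 i
      · have sy := hC.fsymm β (Pi.single i 1)
        have := s2 i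
        have h4 : fm C (β - Pi.single i 1) (β - Pi.single i 1) = 2 := by
          simp only [map_sub, AddMonoidHom.sub_apply]; omega
        have := h2 _ i h4 (ih _ h4 (fun j => ?_) ?_)
          (by simp only [map_sub, AddMonoidHom.sub_apply]; omega)
        · simpa using this
        · by_cases e : j = i
          · subst e; simp; omega
          · simp [e, p j]
        · simp only [Pi.sub_apply, Finset.sum_sub_distrib, Finset.sum_pi_single', Finset.mem_univ,
            if_true]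
          push_cast at h; omega
      · omega
  set a : Fin r → ℤ := fun i => max (β i) 0
  set b : Fin r → ℤ := fun i => max (-β i) 0
  have e : β = a - b := funext fun i => by simp only [a, b, Pi.sub_apply]; omega
  have h3 : fm C a b ≤ 0 := by
    rw [← fm_apply, form_eq]
    refine Finset.sum_nonpos fun i _ => Finset.sum_nonpos fun j _ => ?_
    by_cases h : i = j
    · subst h
      have : a i = 0 ∨ b i = 0 := by simp only [a, b]; omega
      rcases this with h | h <;> simp [h]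
    · rw [mul_assoc]
      exact mul_nonpos_of_nonpos_of_nonneg (hC.off i j h)
        (mul_nonneg (le_max_right _ _) (le_max_right _ _))
  have h4 : a = 0 ∨ b = 0 := by
    by_contra hn
    push Not at hn
    have p1 : 0 < fm C a a := not_le.1 fun h => hn.1 (hC.pos a h)
    have p2 : 0 < fm C b b := not_le.1 fun h => hn.2 (hC.pos b h)
    have p3 := hC.cm_add a a
    have p4 := hC.cm_add b b
    have p5 := hC.fsymm a b
    rw [e] at hβ
    simp only [map_sub, AddMonoidHom.sub_apply] at hβ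
    omega
  rcases h4 with h | h
  · refine Or.inr (key (∑ i, (-β) i).toNat _ (by simpa only [map_neg, AddMonoidHom.neg_apply, neg_neg] using hβ) (fun i => ?_) (by omega))
    have := congrFun h i
    simp only [a, Pi.zero_apply, Pi.neg_apply] at this ⊢; omega
  · refine Or.inl (key (∑ i, β i).toNat _ hβ (fun i => ?_) (by omega))
    have := congrFun h i
    simp only [b, Pi.zero_apply] at this ⊢; omega

theorem root_nbr (β : Fin r → ℤ) (hβ : fm C β β = 2) : ∃ γ, fm C γ γ = 2 ∧ fm C β γ = -1 := by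
  have s2 : ∀ i, fm C (Pi.single i 1) (Pi.single i 1) = 2 := fun i => by
    simp only [← fm_apply, form, mulVec_single, MulOpposite.op_one, one_smul, single_dotProduct, col_apply, hC.diag, one_mul]
  rcases hC.roots_ind (fun β => ∃ γ, fm C γ γ = 2 ∧ fm C β γ = -1) (fun i => by
    obtain ⟨j, h⟩ := hC.nbr i
    exact ⟨_, s2 j, by simp only [← fm_apply, form, mulVec_single, MulOpposite.op_one, one_smul, single_dotProduct, col_apply, h, Int.reduceNeg, mul_neg, mul_one]⟩) (fun γ i _ _ h =>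
      ⟨-Pi.single i 1, by simpa only [map_neg, AddMonoidHom.neg_apply, neg_neg] using s2 i, by simp only [map_add, AddMonoidHom.add_apply, map_neg, h, Int.reduceNeg, neg_neg, s2, Int.reduceAdd]⟩) β hβ with h | ⟨γ, h, h'⟩
  · exact h
  · exact ⟨-γ, by simpa using h, by simpa only [map_neg, Int.reduceNeg, neg_inj, AddMonoidHom.neg_apply] using h'⟩

end Good0

variable (C) in
/-- Diagonal automorphisms. -/
def tor (j : Kˣ) (f : (Fin r → ℤ) →+ ℤ) : Equiv.Perm (Lie C K) where
  toFun v := (v.1, fun u => (j : K) ^ f u.1 * v.2 u)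
  invFun v := (v.1, fun u => ((j : K) ^ f u.1)⁻¹ * v.2 u)
  left_inv v := by ext <;> simp [zpow_ne_zero]
  right_inv v := by ext <;> simp [zpow_ne_zero]

theorem co_tor (j : Kˣ) (f : (Fin r → ℤ) →+ ℤ) (v : Lie C K) (u : Fin r → ℤ) :
    co C (tor C j f v) u = (j : K) ^ f u * co C v u := by
  by_cases h : fm C u u = 2
  · rw [co_root h, co_root h]; rfl
  · rw [co_non h, co_non h, mul_zero]

theorem tor_xx (hC : Good0 C) (j : Kˣ) (f : (Fin r → ℤ) →+ ℤ) {β : Fin r → ℤ} (h : fm C β β = 2)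
    (s : K) : tor C j f * hC.xx β s * (tor C j f)⁻¹ = hC.xx β ((j : K) ^ f β * s) := by
  rw [mul_inv_eq_iff_eq_mul]
  ext1 v
  have n := zpow_ne_zero (f β) j.ne_zero
  have e1 : ∀ v : Lie C K, (tor C j f v).1 = v.1 := fun _ => rfl
  simp only [Equiv.Perm.mul_apply, hC.xx_apply h]
  refine lie_ext (funext fun i => ?_) fun u hu => ?_
  · simp only [e1, xo_fst, co_tor, map_neg, _root_.zpow_neg]; field_simp
  · simp only [co_tor, co_xo hu, e1, map_neg, _root_.zpow_neg, map_sub, zpow_sub₀ j.ne_zero]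
    split_ifs with e
    · subst e; field_simp
    · field_simp; ring

theorem tor_comm (j k : Kˣ) (f g : (Fin r → ℤ) →+ ℤ) : Commute (tor C j f) (tor C k g) := by
  ext1 v
  refine lie_ext rfl fun u _ => ?_
  simp only [Equiv.Perm.mul_apply, co_tor]; ring

theorem no_tor (hC : Good0 C) (j : Kˣ) (f : (Fin r → ℤ) →+ ℤ) {β : Fin r → ℤ} (hβ : fm C β β = 2)
    (v : Lie C K) : Good0.no C β (tor C j f v) = tor C j (f - f β • fm C β) (Good0.no C β v) := by
  obtain ⟨a1, -, a3, a4, a5, a6⟩ := hC.no_spec hβ v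
  obtain ⟨b1, -, b3, b4, b5, b6⟩ := hC.no_spec hβ (tor C j f v)
  refine lie_ext (funext fun i => (b1 i).trans (a1 i).symm) fun u hu => ?_
  rw [co_tor, AddMonoidHom.sub_apply, AddMonoidHom.smul_apply, hC.fsymm β u, smul_eq_mul]
  have hn : fm C (-β) (-β) = 2 := by simpa only [map_neg, AddMonoidHom.neg_apply, neg_neg] using hβ
  rcases hC.tri hu hβ with rfl | p | p
  · rw [b3, a3, co_tor, hu, map_neg]; congr 2; ring
  · rw [(b6 u hu p).1, (a6 u hu p).1, co_tor, p, map_sub]; ring_nf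
  · rcases hC.tri hu hn with rfl | q | q
    · rw [b4, a4, co_tor]; congr 2; simp only [map_neg, AddMonoidHom.neg_apply, hβ, Int.reduceNeg, mul_neg, sub_neg_eq_add]; ring
    · have sy := hC.fsymm u β
      simp only [map_neg] at q
      have h1 : fm C (u + β) (u + β) = 2 := by simp only [map_add, AddMonoidHom.add_apply]; omega
      have h2 : fm C (u + β) β = 1 := by simp only [map_add, AddMonoidHom.add_apply]; omega
      have e1 := (b6 _ h1 h2).2
      have e2 := (a6 _ h1 h2).2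
      rw [add_sub_cancel_right] at e1 e2
      rw [e1, e2, co_tor, map_add, show fm C u β = -1 by omega]; ring_nf
    · simp only [map_neg] at q
      have : fm C u β = 0 := by omega
      rw [b5 u this, a5 u this, this, co_tor]; simp

section twist
variable {ρ : Equiv.Perm (Fin r)} (hρ : ∀ i, ρ (ρ i) = i) (hρC : ∀ i j, C (ρ i) (ρ j) = C i j)
  {φ : K →+* K} (hφ : ∀ s, φ (φ s) = s)

include hρ in
theorem comp_ρρ (u : Fin r → ℤ) : (u ∘ ρ) ∘ ρ = u := funext fun i => by simp [hρ]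

include hρC in
theorem fm_ρ (u v : Fin r → ℤ) : fm C (u ∘ ρ) (v ∘ ρ) = fm C u v := by
  rw [← fm_apply, ← fm_apply, form_eq, form_eq, ← Equiv.sum_comp ρ fun i => ∑ j, C i j * u i * v j]
  refine Finset.sum_congr rfl fun i _ => ?_
  rw [← Equiv.sum_comp ρ fun j => C (ρ i) j * u (ρ i) * v j]
  simp only [Function.comp_apply, hρC]

variable (C ρ) in
/-- The bilinear form behind `tw`. -/
def twb (a b : Fin r → ℤ) : ℤ := ∑ i, ∑ j, if i < j ∧ ρ j < ρ i then C i j * a i * b j else 0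

theorem tw_add (a b : Fin r → ℤ) :
    tw C ρ (a + b) = tw C ρ a + tw C ρ b + twb C ρ a b + twb C ρ b a := by
  simp only [tw, twb, ← Finset.sum_add_distrib, Pi.add_apply]
  exact Finset.sum_congr rfl fun i _ => Finset.sum_congr rfl fun j _ => by split_ifs <;> ring

theorem tw_neg (a : Fin r → ℤ) : tw C ρ (-a) = tw C ρ a := by simp only [tw, Pi.neg_apply, mul_neg, neg_mul, neg_neg]

include hρ hρC in
theorem sum_ρ (F : Fin r → Fin r → ℤ) : ∑ i, ∑ j, F i j = ∑ i, ∑ j, F (ρ i) (ρ j) := by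
  rw [← Equiv.sum_comp ρ fun i => ∑ j, F i j]
  exact Finset.sum_congr rfl fun i _ => (Equiv.sum_comp ρ fun j => F (ρ i) j).symm

include hρ hρC in
theorem cm_ρ (hC : Good0 C) (a b : Fin r → ℤ) :
    cm C (a ∘ ρ) (b ∘ ρ) + twb C ρ a b = cm C a b + twb C ρ b a := by
  change coc C _ _ + _ = coc C _ _ + _
  rw [coc, sum_ρ hρ hρC, twb, twb, coc, Finset.sum_comm (f := fun i j => if i < j ∧ ρ j < ρ i
    then C i j * b i * a j else 0)]
  simp only [← Finset.sum_add_distrib, Function.comp_apply, hρ, hρC, EmbeddingLike.apply_eq_iff_eq]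
  refine Finset.sum_congr rfl fun i _ => Finset.sum_congr rfl fun j _ => ?_
  rcases lt_trichotomy i j with h | rfl | h
  · rcases lt_trichotomy (ρ i) (ρ j) with h' | h' | h'
    · simp [h, h', h.not_gt, h'.not_gt]
    · exact absurd (ρ.injective h') h.ne
    · simp [h, h', h.not_gt, h'.not_gt, h.ne]
  · simp
  · rcases lt_trichotomy (ρ i) (ρ j) with h' | h' | h'
    · simp [h, h', h.not_gt, h.ne', hC.symm i j]; ring
    · exact absurd (ρ.injective h') h.ne'
    · simp [h', h.not_gt, h'.not_gt, h.ne']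

include hρ hρC in
theorem tw_ρ (hC : Good0 C) (a : Fin r → ℤ) : tw C ρ (a ∘ ρ) = tw C ρ a := by
  rw [tw, sum_ρ hρ hρC, tw, Finset.sum_comm]
  simp only [Function.comp_apply, hρ, hρC]
  refine Finset.sum_congr rfl fun i _ => Finset.sum_congr rfl fun j _ => ?_
  simp only [and_comm, hC.symm i j]
  split_ifs <;> ring

include hρC in
theorem co_sigma (v : Lie C K) (u : Fin r → ℤ) :
    co C (sigma C ρ φ v) u = (-1) ^ tw C ρ (u ∘ ρ) * φ (co C v (u ∘ ρ)) := by
  by_cases h : fm C u u = 2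
  · rw [co_root h]; rfl
  · rw [co_non h, co_non (by rwa [fm_ρ hρC]), map_zero, mul_zero]

include hρ in
theorem sigma_fst (v : Lie C K) (i : Fin r) : (sigma C ρ φ v).1 i = φ (v.1 (ρ i)) := by
  have : ρ⁻¹ i = ρ i := by rw [Equiv.Perm.inv_eq_iff_eq, hρ]
  exact congrArg (fun k => φ (v.1 k)) this

include hρ hρC hφ in
theorem sigma_sigma (hC : Good0 C) (v : Lie C K) : sigma C ρ φ (sigma C ρ φ v) = v := by
  refine lie_ext (funext fun i => by simp [sigma_fst hρ, hρ, hφ]) fun u _ => ?_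
  rw [co_sigma hρC, co_sigma hρC, comp_ρρ hρ, tw_ρ hρ hρC hC, map_mul, hφ, (pm_zpow _).map,
    ← mul_assoc, (pm_zpow _).sq, one_mul]

include hρ hρC in
theorem sigma_xo (hC : Good0 C) (β : Fin r → ℤ) (s : K) (v : Lie C K) :
    sigma C ρ φ (xo C β s v) = xo C (β ∘ ρ) ((-1) ^ tw C ρ β * φ s) (sigma C ρ φ v) := by
  have pm := pm_zpow (K := K) (tw C ρ β)
  have e1 : (-(β ∘ ρ)) ∘ ρ = -β := funext fun i => by simp [hρ]
  refine lie_ext (funext fun i => ?_) fun u hu => ?_
  · simp only [sigma_fst hρ, xo_fst, co_sigma hρC, e1, tw_neg, map_sub, map_mul, map_intCast,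
      Function.comp_apply]
    rcases pm with h | h <;> rw [h] <;> ring
  · have hu' : fm C (u ∘ ρ) (u ∘ ρ) = 2 := by rwa [fm_ρ hρC]
    rw [co_sigma hρC, co_xo hu', co_xo hu]
    by_cases e : u = β ∘ ρ
    · subst e
      have : hb C (β ∘ ρ) (sigma C ρ φ v).1 = φ (hb C β v.1) := by
        simp only [hb, map_sum, map_mul, map_intCast, sigma_fst hρ]
        rw [← Equiv.sum_comp ρ]
        refine Finset.sum_congr rfl fun j _ => ?_
        rw [hρ, ← fm_ρ hρC β]
        congr 3
        ext i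
        simp only [Function.comp_apply, Pi.single_apply]
        congr 1
        exact propext ⟨fun h => by rw [h, hρ], fun h => by rw [← h, hρ]⟩
      simp only [comp_ρρ hρ, if_true, co_sigma hρC, e1, tw_neg, this, map_add, map_mul, map_neg,
        map_pow]
      rcases pm with h | h <;> rw [h] <;> ring
    · have e' : u ∘ ρ ≠ β := fun h => e (by rw [← h, comp_ρρ hρ])
      have e2 : (u - β ∘ ρ) ∘ ρ = u ∘ ρ - β := funext fun i => by simp [hρ]
      have e3 : u - β ∘ ρ = (u ∘ ρ - β) ∘ ρ := funext fun i => by simp [hρ]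
      have e4 : (-1 : K) ^ tw C ρ (u ∘ ρ) * ep C K β (u ∘ ρ - β) = (-1) ^ tw C ρ β *
          ep C K (β ∘ ρ) (u - β ∘ ρ) * (-1) ^ tw C ρ (u ∘ ρ - β) := by
        have h1 := tw_add (C := C) (ρ := ρ) β (u ∘ ρ - β)
        have h2 := cm_ρ hρ hρC hC β (u ∘ ρ - β)
        rw [add_sub_cancel] at h1
        rw [e3, ep, ep, ← sg_add, ← sg_add, ← sg_add, show tw C ρ (u ∘ ρ) + cm C β (u ∘ ρ - β) =
          tw C ρ β + cm C (β ∘ ρ) ((u ∘ ρ - β) ∘ ρ) + tw C ρ (u ∘ ρ - β) +
          (twb C ρ β (u ∘ ρ - β) + twb C ρ β (u ∘ ρ - β)) by omega, sg_add _ (_ + _), sg_add,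
          sg_add (twb _ _ _ _), (pm_zpow _).sq, mul_one]
      simp only [if_neg e, if_neg e', co_sigma hρC, e2, map_add, map_mul, map_zero, mul_zero,
        (ep_pm _ _).map]
      linear_combination (φ s * φ (co C v (u ∘ ρ - β))) * e4

/-- The twisting automorphism as a permutation. -/
def sg (hC : Good0 C) : Equiv.Perm (Lie C K) :=
  ⟨sigma C ρ φ, sigma C ρ φ, sigma_sigma hρ hρC hφ hC, sigma_sigma hρ hρC hφ hC⟩

/-- The structure attached to a Cartan matrix with a symmetry. -/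
noncomputable def model (hC : Good0 C) (j : Kˣ) (m : ℤ) (χ : (Fin r → ℤ) →+ ℤ)
    (hj : φ j = (-1) ^ m * j)
    (hχ : ∀ β, fm C β β = 2 → fm C β (β ∘ ρ) = 0 → χ (β ∘ ρ) = χ β)
    (hf : ∀ β, fm C β β = 2 → β ∘ ρ = β → (-1 : K) ^ (tw C ρ β + m * χ β) = 1) :
    St (Equiv.Perm (Lie C K)) (Fin r → ℤ) K where
  B := fm C
  symm := hC.fsymm
  defn := hC.pos
  R β := fm C β β = 2
  R2 _ h := h
  Rneg β h := by simpa only [map_neg, AddMonoidHom.neg_apply, neg_neg] using h
  Radd β γ h h' b := by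
    simp only [map_add, AddMonoidHom.add_apply, hC.fsymm γ β]; omega
  nbr := hC.root_nbr
  x β s := hC.xx β ((j : K) ^ χ β * s)
  x_add β h s t := by
    ext1 v; simp only [Equiv.Perm.mul_apply, hC.xx_apply h, hC.xo_add h, mul_add]
  x_comm β γ h h' b s t := by
    ext1 v; simp only [Equiv.Perm.mul_apply, hC.xx_apply h, hC.xx_apply h', hC.xo_comm h h' b]
  x_rel β γ h h' b := by
    have sy := hC.fsymm β γ
    refine ⟨ep C K β γ, ep_pm _ _, fun s t => ?_, fun s t => ?_⟩
    · rw [hC.xx_rel h h' b, map_add, zpow_add₀ j.ne_zero]; congr 1; ring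
    · rw [hC.xx_rel (by simpa only [map_neg, AddMonoidHom.neg_apply, neg_neg] using h) (by simp only [map_add, AddMonoidHom.add_apply]; omega)
        (by simp only [map_add, map_neg, AddMonoidHom.neg_apply]; omega), neg_add_cancel_left,
        ep_negl, ep_addr, hC.ep_self h, map_add, map_neg, zpow_add₀ j.ne_zero, _root_.zpow_neg]
      congr 1
      have := zpow_ne_zero (χ β) j.ne_zero
      field_simp
  x_inj β γ h h' ne s t e := by
    have hn : fm C (-β) (-β) = 2 := by simpa only [map_neg, AddMonoidHom.neg_apply, neg_neg] using h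
    set v : Lie C K := (0, fun u => if u.1 = -β then 1 else 0)
    have cv : ∀ u, u ≠ -β → co C v u = 0 := fun u hu => by
      by_cases p : fm C u u = 2
      · rw [co_root p]; exact if_neg hu
      · exact co_non p v
    have c1 : co C v (-β) = 1 := by rw [co_root hn]; exact if_pos rfl
    have := congrArg (fun g => co C (g v) β) e
    simp only [hC.xx_apply h, hC.xx_apply h', Good0.co_self h, co_xo h γ, if_neg ne, c1] at this
    rw [cv (β - γ) (fun q => by
      have : γ = β + β := by rw [← sub_eq_iff_eq_add', ← neg_sub, q, neg_neg]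
      rw [this] at h'
      simp only [map_add, AddMonoidHom.add_apply] at h'; omega)] at this
    simpa only [v, hb, Pi.zero_apply, mul_zero, Finset.sum_const_zero, sub_zero, mul_one, add_zero, add_eq_left, ne_eq, OfNat.ofNat_ne_zero, not_false_eq_true, pow_eq_zero_iff, mul_eq_zero, Units.ne_zero, zpow_ne_zero, false_or] using this
  hh f := tor C (-1) f
  hh_add f g := by
    ext1 v
    refine lie_ext rfl fun u _ => ?_
    simp only [Equiv.Perm.mul_apply, co_tor, AddMonoidHom.add_apply,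
      zpow_add₀ (-1 : Kˣ).ne_zero, mul_assoc]
  hh_one f h := by
    ext1 v
    refine lie_ext rfl fun u hu => ?_
    simp [co_tor, h u hu]
  hh_x f β h s := by
    rw [tor_xx hC _ _ h]; congr 1; simp only [Units.val_neg, Units.val_one]; ring
  nsq β h := by
    have hn : fm C (-β) (-β) = 2 := by simpa only [map_neg, AddMonoidHom.neg_apply, neg_neg] using h
    have e : hC.xx β (1 : K) * hC.xx (-β) 1 * hC.xx β 1 * (hC.xx β 1 * hC.xx (-β) 1 * hC.xx β 1) =
        tor C (-1) (fm C β) := by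
      ext1 v
      simpa only [Equiv.Perm.coe_mul, Function.comp_apply, hC.xx_apply h, hC.xx_apply hn, tor, Units.val_neg, Units.val_one, Equiv.coe_fn_mk, Good0.no] using hC.no_no h v
    have c : tor C j χ * tor C (-1) (fm C β) * (tor C j χ)⁻¹ = tor C (-1) (fm C β) := by
      rw [mul_inv_eq_iff_eq_mul]
      ext1 v
      refine lie_ext rfl fun u _ => ?_
      simp only [Equiv.Perm.mul_apply, co_tor]; ring
    rw [← tor_xx hC j χ h, ← tor_xx hC j χ hn, ← c, ← e]; group
  ρ := AddMonoidHom.mk' (fun u => u ∘ ρ) fun _ _ => rfl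
  ρρ := comp_ρρ hρ
  Bρ := fm_ρ hρC
  Rρ β h := (fm_ρ hρC β β).trans h
  φ := φ
  φφ := hφ
  θ := (MulAut.conj (sg hρ hρC hφ hC)).toMonoidHom
  η β := (-1) ^ tw C ρ β * φ j ^ χ β / (j : K) ^ χ (β ∘ ρ)
  θx β h s := by
    have h' := (fm_ρ hρC β β).trans h
    change sg hρ hρC hφ hC * _ * _⁻¹ = hC.xx (β ∘ ρ) (_ ^ χ (β ∘ ρ) * _)
    rw [mul_inv_eq_iff_eq_mul]
    ext1 v
    simp only [Equiv.Perm.mul_apply, hC.xx_apply h, hC.xx_apply h']
    change sigma C ρ φ _ = xo C _ _ (sigma C ρ φ _)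
    rw [sigma_xo hρ hρC hC, map_mul, map_zpow₀]
    congr 1
    have := zpow_ne_zero (χ (β ∘ ρ)) j.ne_zero
    field_simp
  ηη β h := by
    simp only [AddMonoidHom.mk'_apply, comp_ρρ hρ, tw_ρ hρ hρC hC, map_div₀, map_mul, map_zpow₀, hφ,
      map_neg, map_one]
    have := zpow_ne_zero (χ β) j.ne_zero
    have := zpow_ne_zero (χ (β ∘ ρ)) ((map_ne_zero φ).2 j.ne_zero)
    field_simp
    rw [pow_two, (pm_zpow _).sq]
  η_fix β h l := by
    have l' : β ∘ ρ = β := l
    rw [l', hj, mul_zpow, ← _root_.zpow_mul, ← mul_assoc, ← sg_add, hf β h l', one_mul,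
      div_self (zpow_ne_zero _ j.ne_zero)]
  η_short β h l := by
    have l1 := hχ β h l
    have l2 : χ ((-β) ∘ ρ) = -χ β := by rw [← l1, ← map_neg]; rfl
    have n := zpow_ne_zero (χ β) j.ne_zero
    rw [l1, l2, hj, map_neg, tw_neg, mul_zpow, mul_zpow, ← _root_.zpow_mul, ← _root_.zpow_mul, mul_neg, sg_neg,
      ← mul_assoc, ← mul_assoc, mul_div_cancel_right₀ _ n,
      mul_div_cancel_right₀ _ (zpow_ne_zero _ j.ne_zero)]
    exact ⟨(pm_zpow _).mul (pm_zpow _), rfl⟩
  tt := tor C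
  tt_hh _ := rfl
  tt_add k f g := by
    ext1 v
    refine lie_ext rfl fun u _ => ?_
    simp only [Equiv.Perm.mul_apply, co_tor, AddMonoidHom.add_apply, zpow_add₀ k.ne_zero, mul_assoc]
  tt_comm k f k' g := tor_comm k k' f g
  tt_x k f β h s := by rw [tor_xx hC _ _ h]; congr 1; ring
  tt_n k f β h := by
    have hn : fm C (-β) (-β) = 2 := by simpa only [map_neg, AddMonoidHom.neg_apply, neg_neg] using h
    have e : hC.xx β (1 : K) * hC.xx (-β) 1 * hC.xx β 1 * tor C k f =
        tor C k (f - f β • fm C β) * (hC.xx β 1 * hC.xx (-β) 1 * hC.xx β 1) := by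
      ext1 v
      simpa only [Equiv.Perm.coe_mul, Function.comp_apply, hC.xx_apply h, hC.xx_apply hn, Good0.no] using no_tor hC k f h v
    rw [← tor_xx hC j χ h, ← tor_xx hC j χ hn]
    calc _ = tor C j χ * (hC.xx β 1 * hC.xx (-β) 1 * hC.xx β 1) * ((tor C j χ)⁻¹ * tor C k f) := by
          group
      _ = _ := by
        rw [(tor_comm j k χ f).inv_left.eq, ← mul_assoc, mul_assoc (tor C j χ), e, ← mul_assoc,
          (tor_comm j k χ _).eq]; group
  tt_one g hg h := by
    obtain ⟨c, hc⟩ : ∃ c : (Fin r → ℤ) → Kˣ, ∀ v, (g v).1 = v.1 ∧ ∀ u, co C (g v) u = c u * co C v u := by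
      clear h
      induction hg using closure_induction with
      | mem a ha =>
        obtain ⟨k, f, rfl⟩ := ha
        exact ⟨fun u => k ^ f u, fun v => ⟨rfl, fun u => by simp [co_tor]⟩⟩
      | one => exact ⟨1, by simp⟩
      | mul a b _ _ ha hb =>
        obtain ⟨c, hc⟩ := ha
        obtain ⟨d, hd⟩ := hb
        exact ⟨c * d, fun v => by simp [hc, hd, mul_assoc]⟩
      | inv a _ ha =>
        obtain ⟨c, hc⟩ := ha
        refine ⟨c⁻¹, fun v => ?_⟩
        have := hc (a⁻¹ v)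
        simp only [Equiv.Perm.coe_inv, Equiv.apply_symm_apply] at this ⊢
        exact ⟨this.1.symm, fun u => by simp [this.2 u]⟩
    ext1 v
    refine lie_ext (hc v).1 fun u hu => ?_
    have hn : fm C (-u) (-u) = 2 := by simpa only [map_neg, AddMonoidHom.neg_apply, neg_neg] using hu
    obtain ⟨γ, -, b⟩ := hC.root_nbr _ hn
    have := congrArg (fun g => hb C γ (g (0, fun _ => 1)).1)
      (mul_inv_eq_iff_eq_mul.1 (h (-u) hn ((j : K) ^ χ (-u))⁻¹))
    have c1 : co C ((0, fun _ => 1) : Lie C K) u = 1 := co_root hu _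
    simp only [Equiv.Perm.mul_apply, hC.xx_apply hn, hb_xo, hc, neg_neg, c1, hC.fsymm γ, b,
      mul_inv_cancel₀ (zpow_ne_zero _ j.ne_zero)] at this
    rw [(hc v).2, show (c u : K) = 1 by push_cast at this; linear_combination -this]; simp
  θt k f := by
    change sg hρ hρC hφ hC * _ * _⁻¹ = _
    rw [mul_inv_eq_iff_eq_mul]
    ext1 v
    change sigma C ρ φ _ = tor C _ _ (sigma C ρ φ _)
    refine lie_ext rfl fun u _ => ?_
    simp only [co_sigma hρC, co_tor, map_mul, map_zpow₀]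
    change _ = φ k ^ f (u ∘ ρ) * _
    ring

theorem model_Gs (hC : Good0 C) (j : Kˣ) (m : ℤ) (χ : (Fin r → ℤ) →+ ℤ) (hj hχ hf) :
    (model hρ hρC hφ hC j m χ hj hχ hf).Gs = chev C ρ φ := by
  have rg : ∀ β, fm C β β = 2 →
      rootGroup C K β = Set.range ((model hρ hρC hφ hC j m χ hj hχ hf).x β) := by
    intro β h
    ext g
    constructor
    · rintro ⟨t, e⟩
      refine ⟨t / (j : K) ^ χ β, Equiv.ext fun v => ?_⟩
      change hC.xx β _ v = _
      rw [hC.xx_apply h, e, mul_div_cancel₀ _ (zpow_ne_zero _ j.ne_zero)]; rfl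
    · rintro ⟨s, rfl⟩
      exact ⟨_, hC.xx_apply h _⟩
  have un : ∀ β, fm C β β = 2 → ⋃ k : ℕ, rootGroup C K (β ∘ ⇑(ρ ^ k)) =
      rootGroup C K β ∪ rootGroup C K (β ∘ ρ) := by
    intro β _
    have : ∀ k : ℕ, β ∘ ⇑(ρ ^ k) = β ∨ β ∘ ⇑(ρ ^ k) = β ∘ ρ := by
      intro k
      induction k with
      | zero => simp
      | succ k ih =>
        rw [pow_succ, Equiv.Perm.coe_mul, ← Function.comp_assoc]
        rcases ih with e | e <;> rw [e]
        · exact Or.inr rfl
        · exact Or.inl (comp_ρρ hρ β)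
    refine le_antisymm (Set.iUnion_subset fun k => ?_) (Set.union_subset ?_ ?_)
    · rcases this k with e | e <;> simp [e]
    · exact Set.subset_iUnion_of_subset 0 (by simp)
    · exact Set.subset_iUnion_of_subset 1 (by simp)
  have th : ∀ g, (model hρ hρC hφ hC j m χ hj hχ hf).θ g = g ↔
      ∀ v, g (sigma C ρ φ v) = sigma C ρ φ (g v) := by
    intro g
    change sg hρ hρC hφ hC * _ * _⁻¹ = _ ↔ _
    rw [mul_inv_eq_iff_eq_mul, eq_comm, Equiv.ext_iff]; rfl
  rw [St.Gs, chev]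
  congr 1
  ext g
  constructor
  · rintro ⟨β, h, t, hg⟩
    refine ⟨(th g).1 t, ⟨β, h⟩, ?_⟩
    rwa [un β h, rg β h, rg _ ((fm_ρ hρC β β).trans h)]
  · rintro ⟨t, ⟨β, h⟩, hg⟩
    rw [un β h, rg β h, rg _ ((fm_ρ hρC β β).trans h)] at hg
    exact ⟨β, h, (th g).2 t, hg⟩

end twist

end Pool.Agent.MP_c78e8e_al.H75

end

section

namespace Pool.Agent.MP_c78e8e_al.H75

open Subgroup

theorem gen_ex (F : Type) [Field F] [Finite F] :
    ∃ t : F, t ≠ 0 ∧ ∀ s, s ≠ 0 → ∃ n : ℕ, s = t ^ n := by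
  obtain ⟨g, hg⟩ := IsCyclic.exists_monoid_generator (α := Fˣ)
  refine ⟨g, g.ne_zero, fun s hs => ?_⟩
  obtain ⟨n, e⟩ := hg (Units.mk0 s hs)
  exact ⟨n, by simpa using (congrArg Units.val e).symm⟩

variable {G L K : Type} [Group G] [AddCommGroup L] [Field K]

theorem env_ex [Finite K] (S : St G L K) :
    ∃ E : Env G L K, E.toSt = S ∧ ((∀ s, S.φ s = s) → E.f = E.t) := by
  obtain ⟨t, t0, ht⟩ := gen_ex K
  by_cases h : ∀ s, S.φ s = s
  · exact ⟨⟨S, ⊤, t, t, t0, t0, h t, ht, fun s hs _ => ht s hs⟩, rfl, fun _ => rfl⟩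
  · obtain ⟨f, f0, hf⟩ := gen_ex (S.φ.eqLocusField (RingHom.id K))
    refine ⟨⟨S, ⊤, t, f, t0, by simpa using f0, f.2, ht, fun s hs e => ?_⟩, rfl, fun e => absurd e h⟩
    obtain ⟨n, q⟩ := hf ⟨s, e⟩ (by simpa only [ne_eq, Subtype.ext_iff, ZeroMemClass.coe_zero] using hs)
    exact ⟨n, by simpa using congrArg Subtype.val q⟩

/-- Assumptions on the field. -/
structure Md (φ : K →+* K) (m2 mtr mid odd : Bool) : Prop where
  m2 : m2 → (-1 : K) = 1
  mtr : mtr → ∃ k, k + φ k = 1
  mid : mid → ∀ s, φ s = s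
  odd : odd → (2 : K) ≠ 0

namespace St
variable {S : St G L K}

variable (S) in
/-- A relative root group lies in `H`. -/
def Fu (H : Subgroup G) (β : L) : Prop := ∀ u ∈ S.U β, u ∈ H

theorem Fu.back {H : Subgroup G} {m : G} {w : L ≃+ L} {β : L} (hm : S.Mon m w) (mm : m ∈ H)
    (h : S.Fu H (w β)) : S.Fu H β := fun u hu => by
  simpa only [mul_assoc, inv_mul_cancel_left, inv_mul_cancel, mul_one] using mul_mem (mul_mem (inv_mem mm) (h _ (hm.U hu))) mm

theorem Fu.conj {H : Subgroup G} {m : G} {w : L ≃+ L} {β : L} (hm : S.Mon m w) (mm : m ∈ H)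
    (h : S.Fu H β) : S.Fu H (w β) := Fu.back hm.inv (inv_mem mm) (by simpa using h)

theorem Fu.rho {H : Subgroup G} {β : L} (h : S.Fu H β) : S.Fu H (S.ρ β) :=
  fun u hu => h u (U_ρ' hu)

theorem Fu.bc {H : Subgroup G} {β : L} (h : S.Fu H β) (r : S.R β) (l : S.B β (S.ρ β) = -1) :
    S.Fu H (β + S.ρ β) := fun u hu => h u ⟨r, hu.2.1, by
  refine (closure_le _).2 ?_ hu.2.2
  rw [map_add, S.ρρ, add_comm (S.ρ β)]
  rintro _ (⟨s, rfl⟩ | ⟨s, rfl⟩) <;> exact sum_mem r (S.Rρ β r) l (x_mem β) (x_mem' β) s⟩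

theorem top [Finite K] {Cd : Type} [DecidableEq Cd] {O : Ops Cd} {e : Cd → L} {wa wc : L ≃+ L}
    (h : Sound S 0 0 O e wa wc) {a σ : G} (ha : a ∈ S.Gs) (hσ : σ ∈ S.Gs) (aa : a * a = 1)
    (ma : S.Mon a wa) (mc : S.Mon (σ * a * σ⁻¹) wc) {ct : Cert Cd}
    (hv : 3 ≤ ct.dk → ∀ m ∈ S.U (e ct.r1), Commute a m) {tc : List Cd}
    (p : ct.check O (tc.filter O.isR)) {b c : Cd}
    (q : O.isR b && O.isR c && O.B b c == -1 && O.k0 b c)
    (fin : ∀ H : Subgroup G, a ∈ H → σ * a * σ⁻¹ ∈ H → (∀ d ∈ tc, S.Fu H (e d)) →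
      ∀ β, S.Fu H β) : IsLeast {n | Good S.Gs n} 3 := by
  obtain ⟨E, rfl, hE⟩ := env_ex S
  have h' : Sound E.toSt E.t E.f O e wa wc :=
    { h with mid := fun m => ⟨(h.mid m).1, hE (h.mid m).1⟩ }
  obtain ⟨g, hg, uu, fu⟩ := h'.check ha aa ma mc hv p
  simp only [Bool.and_eq_true, beq_iff_eq, h.B] at q
  have r1 := h.isR q.1.1.1
  have r2 := h.isR q.1.1.2
  refine St.main ⟨r1, r2, q.1.2, h.k0 r1 r2 q.2⟩ ha hσ hg aa uu fun H h1 h2 h3 =>
    fin H h1 h3 fun d hd u hu => fu H h1 h2 h3 d (List.mem_filter.2 ⟨hd, ?_⟩) u hu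
  simp [Ops.isR, h.B, E.R2 _ hu.1]

section map
variable {L' : Type} [AddCommGroup L'] (S) (τ : L →+ L') (B' : L' →+ L' →+ ℤ) (ρ' : L' →+ L')
  (h1 : ∀ u v, B' u v = B' v u) (h2 : ∀ v, B' v v ≤ 0 → v = 0)
  (h3 : ∀ u v, B' (τ u) (τ v) = S.B u v) (h4 : ∀ v, ρ' (ρ' v) = v)
  (h5 : ∀ u v, B' (ρ' u) (ρ' v) = B' u v) (h6 : ∀ v, ρ' (τ v) = τ (S.ρ v))

include h3 in
theorem inv_map (v : L) : Function.invFun τ (τ v) = v :=
  Function.leftInverse_invFun ((injective_iff_map_eq_zero τ).2 fun u h =>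
    S.defn u (by rw [← h3, h]; simp)) v

/-- Transport along an isometric embedding. -/
noncomputable def map : St G L' K where
  B := B'
  symm := h1
  defn := h2
  R β := ∃ γ, S.R γ ∧ τ γ = β
  R2 := by rintro _ ⟨β, h, rfl⟩; rw [h3, S.R2 β h]
  Rneg := by rintro _ ⟨β, h, rfl⟩; exact ⟨_, S.Rneg β h, map_neg _ _⟩
  Radd := by
    rintro _ _ ⟨β, h, rfl⟩ ⟨γ, h', rfl⟩ b
    exact ⟨_, S.Radd β γ h h' (by rwa [h3] at b), map_add _ _ _⟩
  nbr := by
    rintro _ ⟨β, h, rfl⟩
    obtain ⟨γ, h', b⟩ := S.nbr β h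
    exact ⟨_, ⟨γ, h', rfl⟩, by rw [h3, b]⟩
  x β := S.x (Function.invFun τ β)
  x_add := by rintro _ ⟨β, h, rfl⟩; rw [S.inv_map τ B' h3]; exact S.x_add β h
  x_comm := by
    rintro _ _ ⟨β, h, rfl⟩ ⟨γ, h', rfl⟩ b
    simp only [S.inv_map τ B' h3]; exact S.x_comm β γ h h' (by rwa [h3] at b)
  x_rel := by
    rintro _ _ ⟨β, h, rfl⟩ ⟨γ, h', rfl⟩ b
    simp only [← map_add, ← map_neg, S.inv_map τ B' h3]; exact S.x_rel β γ h h' (by rwa [h3] at b)
  x_inj := by
    rintro _ _ ⟨β, h, rfl⟩ ⟨γ, h', rfl⟩ b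
    simp only [S.inv_map τ B' h3]; exact S.x_inj β γ h h' fun e => b (by rw [e])
  hh f := S.hh (f.comp τ)
  hh_add f g := by rw [← S.hh_add]; rfl
  hh_one f h := S.hh_one _ fun β r => h _ ⟨β, r, rfl⟩
  hh_x := by rintro f _ ⟨β, h, rfl⟩; rw [S.inv_map τ B' h3]; exact S.hh_x _ β h
  nsq := by
    rintro _ ⟨β, h, rfl⟩
    simp only [← map_neg, S.inv_map τ B' h3, S.nsq β h]
    congr 1; ext v; simp [h3]
  ρ := ρ'
  ρρ := h4
  Bρ := h5
  Rρ := by rintro _ ⟨β, h, rfl⟩; exact ⟨_, S.Rρ β h, (h6 β).symm⟩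
  φ := S.φ
  φφ := S.φφ
  θ := S.θ
  η β := S.η (Function.invFun τ β)
  θx := by rintro _ ⟨β, h, rfl⟩; simp only [h6, S.inv_map τ B' h3]; exact S.θx β h
  ηη := by rintro _ ⟨β, h, rfl⟩; simp only [h6, S.inv_map τ B' h3]; exact S.ηη β h
  η_fix := by
    rintro _ ⟨β, h, rfl⟩ l
    have := congrArg (Function.invFun τ) l
    simp only [h6, S.inv_map τ B' h3] at this ⊢
    exact S.η_fix β h this
  η_short := by
    rintro _ ⟨β, h, rfl⟩ l
    simp only [← map_neg, S.inv_map τ B' h3]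
    exact S.η_short β h (by rwa [h6, h3] at l)
  tt j f := S.tt j (f.comp τ)
  tt_hh _ := S.tt_hh _
  tt_add j f g := by rw [← S.tt_add]; rfl
  tt_comm _ _ _ _ := S.tt_comm _ _ _ _
  tt_x := by rintro j f _ ⟨β, h, rfl⟩; rw [S.inv_map τ B' h3]; exact S.tt_x j _ β h
  tt_n := by
    rintro j f _ ⟨β, h, rfl⟩
    simp only [← map_neg, S.inv_map τ B' h3, S.tt_n j _ β h]
    congr 2; ext v; simp only [AddMonoidHom.coe_comp, Function.comp_apply, AddMonoidHom.sub_apply, AddMonoidHom.smul_apply, Int.zsmul_eq_mul, AddMonoidHom.sub_comp, h3]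
  tt_one g hg h := S.tt_one g (closure_mono (by rintro _ ⟨j, f, rfl⟩; exact ⟨j, _, rfl⟩) hg)
    fun β r => by simpa only [S.inv_map τ B' h3] using h _ ⟨β, r, rfl⟩
  θt j f := by rw [S.θt]; congr 1; ext v; simp [h6]

theorem map_U (β : L) : (S.map τ B' ρ' h1 h2 h3 h4 h5 h6).U (τ β) = S.U β := by
  ext g
  simp only [U, map, h6, S.inv_map τ B' h3, Set.mem_setOf_eq]
  refine and_congr_left' ⟨?_, fun h => ⟨β, h, rfl⟩⟩
  rintro ⟨γ, h, e⟩
  have := congrArg (Function.invFun τ) e
  simp only [S.inv_map τ B' h3] at this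
  rwa [← this]

theorem map_Gs : (S.map τ B' ρ' h1 h2 h3 h4 h5 h6).Gs = S.Gs := by
  rw [Gs, Gs]
  congr 1
  ext g
  refine ⟨?_, fun ⟨β, h⟩ => ⟨τ β, by rwa [map_U]⟩⟩
  rintro ⟨_, h⟩
  obtain ⟨β, -, rfl⟩ := h.1
  exact ⟨β, by rwa [map_U] at h⟩

theorem map_fin {H : Subgroup G} (h : ∀ β, S.Fu H β) (β : L') :
    (S.map τ B' ρ' h1 h2 h3 h4 h5 h6).Fu H β := by
  intro u hu
  obtain ⟨γ, -, rfl⟩ := hu.1
  exact h γ u (by rwa [map_U] at hu)

end map

end St

variable {r : ℕ} {C : Matrix (Fin r) (Fin r) ℤ} {ρ : Equiv.Perm (Fin r)}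

theorem fm_single (i j : Fin r) : fm C (Pi.single i 1) (Pi.single j 1) = C i j := by
  simp only [← fm_apply, form, Matrix.mulVec_single, MulOpposite.op_one, one_smul, single_dotProduct, Matrix.col_apply, one_mul]

theorem single_ρ (hρ : ∀ i, ρ (ρ i) = i) (i : Fin r) :
    (Pi.single i 1 : Fin r → ℤ) ∘ ρ = Pi.single (ρ i) 1 := by
  ext j
  simp only [Function.comp_apply, Pi.single_apply]
  congr 1
  exact propext ⟨fun h => by rw [← h, hρ], fun h => by rw [h, hρ]⟩

theorem Good0.sign (hC : Good0 C) {β : Fin r → ℤ} (h : fm C β β = 2) :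
    (∀ i, 0 ≤ β i) ∨ ∀ i, 0 ≤ (-β) i :=
  hC.roots_ind (fun β => ∀ i, 0 ≤ β i) (fun i j => by simp only [Pi.single_apply]; split_ifs <;> simp)
    (fun γ i _ p _ j => by
      have := p j
      simp only [Pi.add_apply, Pi.single_apply]; split_ifs <;> omega) β h

open St in
theorem fin_model (hC : Good0 C) (hρ : ∀ i, ρ (ρ i) = i) (S : St G (Fin r → ℤ) K)
    (hB : S.B = fm C) (hR : ∀ β, fm C β β = 2 → S.R β) (hρ' : ∀ u, S.ρ u = u ∘ ρ) {H : Subgroup G}
    (h : ∀ i, S.Fu H (Pi.single i 1) ∧ S.Fu H (-Pi.single i 1)) (β : Fin r → ℤ) : S.Fu H β := by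
  have rs : ∀ i, S.R (Pi.single i 1) := fun i => hR _ (by rw [fm_single, hC.diag])
  have ρs : ∀ i, S.ρ (Pi.single i 1) = Pi.single (ρ i) 1 := fun i => by rw [hρ', single_ρ hρ]
  have key : ∀ (n : ℕ) β, S.R β → (∀ i, 0 ≤ β i) → ∑ i, β i < n → S.Fu H β ∧ S.Fu H (-β) := by
    intro n
    induction n with
    | zero => exact fun β _ p q => absurd (Finset.sum_nonneg fun i _ => p i) (not_le.2 q)
    | succ n ih =>
      intro β hβ p q
      have b2 := S.R2 β hβ
      obtain ⟨i, hi, hi'⟩ : ∃ i, 0 < β i ∧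
          0 < S.B β (Pi.single i 1) + S.B β (Pi.single (ρ i) 1) := by
        by_contra hn
        push Not at hn
        have e : S.B β β + S.B β (S.ρ β) =
            ∑ j, β j * (S.B β (Pi.single j 1) + S.B β (Pi.single (ρ j) 1)) := by
          have : β = ∑ j, β j • Pi.single j 1 := by ext k; simp only [zsmul_eq_mul, Finset.sum_apply, Pi.mul_apply, Pi.intCast_apply, Int.cast_eq, Pi.single_apply, mul_ite, mul_one, mul_zero, Finset.sum_ite_eq, Finset.mem_univ, ↓ reduceIte]
          have e1 := congrArg (S.B β) this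
          have e2 := congrArg (fun v => S.B β (S.ρ v)) this
          simp only [map_sum, map_zsmul, ρs, smul_eq_mul] at e1 e2
          rw [e1, e2, ← Finset.sum_add_distrib]
          exact Finset.sum_congr rfl fun j _ => by ring
        have h3 : S.B β β + S.B β (S.ρ β) ≤ 0 := e ▸ Finset.sum_nonpos fun j _ => by
          rcases (p j).eq_or_lt with e | e
          · simp [← e]
          · exact mul_nonpos_of_nonneg_of_nonpos (p j) (hn j e)
        have e4 := S.eq_of_two hβ (S.Rneg _ (S.Rρ β hβ)) (by rw [map_neg]; omega)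
        have : β = 0 := funext fun j => le_antisymm (by
          rw [e4, hρ']; simpa only [Pi.neg_apply, Function.comp_apply, Pi.zero_apply, Left.neg_nonpos_iff] using p (ρ j)) (p j)
        simp [this] at b2
      have step : ∀ z, S.Ok z → S.Fu H z → S.Fu H (-z) → ∑ j, S.rs z β j < ∑ j, β j →
          (∀ j, j ≠ i → j ≠ ρ i → S.rs z β j = β j) → (∃ j, j ≠ i ∧ j ≠ ρ i ∧ β j ≠ 0) →
          S.Fu H β ∧ S.Fu H (-β) := by
        rintro z o f1 f2 lt eq ⟨j, j1, j2, j3⟩
        have r' := (o.mon.root β).2 hβ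
        have := ih _ r' ((hC.sign (by rw [← hB]; exact S.R2 _ r')).resolve_right fun h => by
          have h1 := h j
          have h2 := p j
          rw [Pi.neg_apply, eq j j1 j2] at h1; omega) (by push_cast at q; omega)
        exact ⟨Fu.back o.mon (N_mem o f1 f2) this.1,
          Fu.back o.mon (N_mem o f1 f2) (by rw [map_neg]; exact this.2)⟩
      have c0 : S.B (Pi.single i 1) (S.ρ (Pi.single i 1)) = C i (ρ i) := by rw [ρs, hB, fm_single]
      have c1 : ρ i = i ∨ (ρ i ≠ i ∧ (C i (ρ i) = 0 ∨ C i (ρ i) = -1)) := by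
        refine (em _).imp id fun ne => ⟨ne, ?_⟩
        have := hC.off i (ρ i) (Ne.symm ne)
        by_contra hn
        have := congrFun (S.eq_of_two (rs i) (S.Rneg _ (S.Rρ _ (rs i))) (by rw [map_neg]; omega)) i
        simp [ρs, Ne.symm ne] at this
      have bc : C i (ρ i) = -1 → S.Fu H (Pi.single i 1 + Pi.single (ρ i) 1) ∧
          S.Fu H (-(Pi.single i 1 + Pi.single (ρ i) 1)) := fun l => by
        have := (h i).2.bc (S.Rneg _ (rs i)) (by simp only [map_neg, AddMonoidHom.neg_apply, c0, l, Int.reduceNeg, neg_neg])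
        rw [map_neg, ← neg_add, ρs] at this
        exact ⟨ρs i ▸ (h i).1.bc (rs i) (by rw [c0, l]), this⟩
      by_cases out : ∃ j, j ≠ i ∧ j ≠ ρ i ∧ β j ≠ 0
      · rcases c1 with l | ⟨ne, l | l⟩
        · have l' : S.ρ (Pi.single i 1) = Pi.single i 1 := by rw [ρs, l]
          rw [l] at hi'
          refine step _ ⟨rs i, Or.inl l'⟩ (h i).1 (h i).2 ?_ ?_ out <;> rw [rs_long (rs i) l']
          · simp only [zsmul_eq_mul, Pi.sub_apply, Pi.mul_apply, Pi.intCast_apply, Int.cast_eq, Pi.single_apply, mul_ite, mul_one, mul_zero, Finset.sum_sub_distrib, Finset.sum_ite_eq', Finset.mem_univ, ↓ reduceIte, sub_lt_self_iff]; omega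
          · intro j j1 _; simp [j1]
        · refine step _ ⟨rs i, Or.inr (c0.trans l)⟩ (h i).1 (h i).2 ?_ ?_ out <;>
            rw [rs_short (rs i) (c0.trans l), ρs]
          · simp only [zsmul_eq_mul, Pi.sub_apply, Pi.mul_apply, Pi.intCast_apply, Int.cast_eq, Pi.single_apply, mul_ite, mul_one, mul_zero, Finset.sum_sub_distrib, Finset.sum_ite_eq', Finset.mem_univ, ↓ reduceIte]; omega
          · intro j j1 j2; simp [j1, j2]
        · have r' := S.Radd _ _ (rs i) (S.Rρ _ (rs i)) (c0.trans l)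
          rw [ρs] at r'
          have l' : S.ρ (Pi.single i 1 + Pi.single (ρ i) 1) = Pi.single i 1 + Pi.single (ρ i) 1 := by
            rw [map_add, ρs, ρs, hρ, add_comm]
          refine step _ ⟨r', Or.inl l'⟩ (bc l).1 (bc l).2 ?_ ?_ out <;> rw [rs_long r' l', map_add]
          · simp only [smul_add, zsmul_eq_mul, Int.cast_add, Pi.sub_apply, Pi.add_apply, Pi.mul_apply, Pi.intCast_apply, Int.cast_eq, Pi.single_apply, mul_ite, mul_one, mul_zero, Finset.sum_sub_distrib, Finset.sum_add_distrib, Finset.sum_ite_eq', Finset.mem_univ, ↓ reduceIte, sub_lt_self_iff, pos_add_self_iff]; omega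
          · intro j j1 j2; simp [j1, j2]
      · push Not at out
        rcases c1 with l | ⟨ne, l⟩
        · have e : β = β i • Pi.single i 1 := funext fun j => by
            by_cases j1 : j = i
            · simp [j1]
            · simp [j1, out j j1 (by rwa [l])]
          rw [e] at b2
          simp only [map_zsmul, AddMonoidHom.smul_apply, S.R2 _ (rs i), smul_eq_mul] at b2
          rw [e, show β i = 1 by nlinarith only [hi, b2], one_smul]; exact h i
        · have e : β = β i • Pi.single i 1 + β (ρ i) • Pi.single (ρ i) 1 := funext fun j => by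
            by_cases j1 : j = i
            · simp [j1, Ne.symm ne]
            · by_cases j2 : j = ρ i
              · simp [j2, ne]
              · simp [j1, j2, out j j1 j2]
          rw [e, hB] at b2
          simp only [map_zsmul, map_add, AddMonoidHom.add_apply, AddMonoidHom.smul_apply, fm_single,
            hC.diag, hC.symm (ρ i) i, smul_eq_mul] at b2
          have p2 := p (ρ i)
          rw [e]
          generalize β i = x at *
          generalize β (ρ i) = y at *
          have x1 : x = 1 := by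
            rcases l with l | l <;> rw [l] at b2 <;> nlinarith only [sq_nonneg (x - 2 * y), hi, p2, b2]
          have y1 : y ≤ 1 := by
            rcases l with l | l <;> rw [l] at b2 <;> nlinarith only [b2, x1]
          subst x1
          obtain rfl | rfl : y = 0 ∨ y = 1 := by omega
          · simpa using h i
          · simpa using bc (by omega)
  intro u hu
  rcases hC.sign (by rw [← hB]; exact S.R2 β hu.1) with p | p
  · exact (key ((∑ i, β i).toNat + 1) β hu.1 p (by push_cast; omega)).1 u hu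
  · simpa using (key ((∑ i, (-β) i).toNat + 1) _ (S.Rneg β hu.1) p (by push_cast; omega)).2 u
      (by simpa using hu)

theorem tw_fix (hC : Good0 C) (hρ : ∀ i, ρ (ρ i) = i) (hρC : ∀ i j, C (ρ i) (ρ j) = C i j)
    {u : Fin r → ℤ} (h : u ∘ ρ = u) :
    Even (tw C ρ u - ∑ i, if i < ρ i then C i (ρ i) * u i * u i else 0) := by
  have hu : ∀ i, u (ρ i) = u i := congrFun h
  set F : Fin r → Fin r → ℤ := fun i j =>
    if i < j ∧ ρ j < ρ i ∧ i < ρ j then C i j * u i * u j else 0
  have e : ∑ i, ∑ j, F i j = ∑ i, ∑ j, F (ρ j) (ρ i) := by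
    rw [sum_ρ hρ hρC, Finset.sum_comm]
  refine ⟨∑ i, ∑ j, F i j, ?_⟩
  nth_rw 2 [e]
  rw [sub_eq_iff_eq_add, tw]
  simp only [← Finset.sum_add_distrib]
  refine Finset.sum_congr rfl fun i _ => ?_
  have : (if i < ρ i then C i (ρ i) * u i * u i else 0) =
      ∑ j, if j = ρ i then (if i < ρ i then C i (ρ i) * u i * u i else 0) else 0 := by simp only [Finset.sum_ite_eq', Finset.mem_univ, ↓ reduceIte]
  rw [this, ← Finset.sum_add_distrib]
  refine Finset.sum_congr rfl fun j _ => ?_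
  simp only [F, hρ, hρC, hu, hC.symm j i]
  rcases lt_trichotomy i (ρ j) with q | q | q
  · have : j ≠ ρ i := fun e => by simp [e, hρ] at q
    simp [q, q.not_gt, this]
  · subst q; simp [hρ, hu]
  · have : j ≠ ρ i := fun e => by simp [e, hρ] at q
    simp [q, q.not_gt, this, and_comm]; split_ifs <;> ring

end Pool.Agent.MP_c78e8e_al.H75

end

section

namespace Pool.Agent.MP_c78e8e_al.H75

open Subgroup

/-- Computable root data with reflections. -/
structure Op0 (Cd : Type) where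
  B : Cd → Cd → ℤ
  rho : Cd → Cd
  rf : Cd → Cd → Cd

/-- Certificates for a fixed rank. -/
structure GCert (Cd : Type) where
  om : List Cd
  lL : List Cd
  lS : List Cd
  word : List Cd
  om' : List Cd
  b : Cd
  c : Cd
  ct : Cert Cd

namespace Op0
variable {Cd : Type} [DecidableEq Cd] (O : Op0 Cd)

def rs (z c : Cd) : Cd := bif O.B z (O.rho z) == 2 then O.rf z c else O.rf z (O.rf (O.rho z) c)
def W (l : List Cd) (c : Cd) : Cd := l.foldr O.rs c
def ops (l l' : List Cd) (m2 mtr mid odd : Bool) : Ops Cd :=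
  ⟨O.B, O.rho, fun c => some (O.W l c), fun c => some (O.W l' c), m2, mtr, mid, odd⟩
def orth (a d : Cd) : Bool := O.B d a == 0 && O.B d (O.rho a) == 0
def pw : List Cd → Bool
  | [] => true
  | a :: l => l.all (O.orth a) && pw l
def evl (od : Cd → Bool) : List Cd → List Cd
  | [] => []
  | a :: l => (bif od a then [] else bif O.B a (O.rho a) == 2 then [a] else [a, O.rho a]) ++ evl od l
def liftOk (P : Ops Cd) (tc om lL lS : List Cd) : Bool :=
  O.pw om && (lL.all fun z => P.isR z && P.ty z == 2) && (lS.all fun z => P.isR z && P.ty z == 0) &&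
  tc.all fun d => !P.isR d || P.ev (O.evl (P.od (lL ++ lS.flatMap fun z => [z, O.rho z])) om) d
def check (m2 mtr mid odd : Bool) (tc : List Cd) (g : GCert Cd) : Bool :=
  let P := O.ops g.om g.om' m2 mtr mid odd
  ((g.om ++ g.om' ++ g.word).all fun z => P.isR z && P.okt z) && O.liftOk P tc g.om g.lL g.lS &&
  g.om' == g.om.map (O.W g.word) &&
  (decide (g.ct.dk < 3) || P.ev (g.lL ++ g.lS.flatMap fun z => [z, O.rho z]) g.ct.r1 &&
    g.om.all fun a => O.orth a g.ct.r1) &&
  (P.isR g.b && P.isR g.c && P.B g.b g.c == -1 && P.k0 g.b g.c) &&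
  g.ct.check P (tc.filter P.isR)

end Op0

variable {G L K : Type} [Group G] [AddCommGroup L] [Field K] {Cd : Type} [DecidableEq Cd]

/-- The computable data describe the structure. -/
structure Snd0 (S : St G L K) (O : Op0 Cd) (e : Cd → L) : Prop where
  B : ∀ c d, O.B c d = S.B (e c) (e d)
  rho : ∀ c, e (O.rho c) = S.ρ (e c)
  rf : ∀ z c, S.B (e z) (e z) = 2 → e (O.rf z c) = e c - S.B (e c) (e z) • e z
  root : ∀ c, S.B (e c) (e c) = 2 → S.R (e c)

namespace Snd0
open St
variable {S : St G L K} {O : Op0 Cd} {e : Cd → L} (h : Snd0 S O e)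
include h

omit [DecidableEq Cd] in
theorem rs {z : Cd} (o : S.Ok (e z)) (c : Cd) : e (O.rs z c) = S.rs (e z) (e c) := by
  have r := S.R2 _ o.1
  have r' := S.R2 _ (S.Rρ _ o.1)
  rw [Op0.rs, h.B, h.rho]
  rcases o.2 with l | l
  · simp [l, r, h.rf _ _ r, rs_long o.1 l]
  · rw [← h.rho] at r'
    simp only [l, show ((0 : ℤ) == 2) = false from rfl, cond_false, h.rf _ _ r, h.rf _ _ r', h.rho,
      rs_short o.1 l, map_sub, map_zsmul, AddMonoidHom.sub_apply, AddMonoidHom.smul_apply,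
      S.symm (S.ρ (e z)) (e z)]
    module

omit [DecidableEq Cd] in
theorem W {l : List Cd} (o : ∀ z ∈ l, S.Ok (e z)) (c : Cd) : e (O.W l c) = S.W (l.map e) (e c) := by
  induction l with
  | nil => rfl
  | cons z l ih =>
    rw [List.map_cons, W_cons, ← ih fun y hy => o y (by simp [hy]), ← h.rs (o z (by simp))]; rfl

omit [DecidableEq Cd] in
theorem orth {a d : Cd} (q : O.orth a d) : S.B (e d) (e a) = 0 ∧ S.B (e d) (S.ρ (e a)) = 0 := by
  simpa [Op0.orth, h.B, h.rho] using q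

theorem lift {m2 mtr mid odd : Bool} {l l' tc om lL lS : List Cd} {wa wc : L ≃+ L}
    (s1 : Sound S 0 0 (O.ops l l' m2 mtr mid odd) e wa wc) (o1 : ∀ z ∈ om, S.Ok (e z))
    (p : O.liftOk (O.ops l l' m2 mtr mid odd) tc om lL lS)
    (span : ∀ f : L →+ ℤ, (∀ d ∈ tc, S.R (e d) → Even (f (e d)) ∧ Even (f (S.ρ (e d)))) →
      ∀ β, S.R β → Even (f β)) : ∃ a ∈ S.Gs, a * a = 1 ∧ S.Mon a (S.W (om.map e)) ∧
      ∀ δ, S.Ev ((lL ++ lS.flatMap fun z => [z, O.rho z]).map e) δ →
      (∀ α ∈ om.map e, S.B δ α = 0 ∧ S.B δ (S.ρ α) = 0) → ∀ g ∈ S.U δ, Commute a g := by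
  simp only [Op0.liftOk, List.all_eq_true, Bool.and_eq_true, Bool.or_eq_true, beq_iff_eq] at p
  obtain ⟨⟨⟨p2, p3⟩, p4⟩, p5⟩ := p
  obtain ⟨h0, m0, t0⟩ := tor_mu (S := S) (lL.map e) (lS.map e)
    (by simp only [List.forall_mem_map]
        exact fun z hz => ⟨s1.isR (p3 z hz).1, Sound.lg (s1.isR (p3 z hz).1) (s1.ty z ▸ (p3 z hz).2)⟩)
    (by simp only [List.forall_mem_map]; exact fun z hz => ⟨s1.isR (p4 z hz).1, s1.ty z ▸ (p4 z hz).2⟩)
  have e1 : lL.map e ++ (lS.map e).flatMap (fun α => [α, S.ρ α]) =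
      (lL ++ lS.flatMap fun z => [z, O.rho z]).map e := by
    simp [List.map_flatMap, List.flatMap_map, h.rho]
  rw [e1] at t0
  generalize lL ++ lS.flatMap (fun z => [z, O.rho z]) = k at *
  set od := (O.ops l l' m2 mtr mid odd).od k with hod
  have inv : ∀ l : List Cd, (∀ z ∈ l, S.Ok (e z)) → O.pw l → S.Tor (h0 * ((l.map e).map S.N).prod *
      h0⁻¹ * ((l.map e).map S.N).prod) ((O.evl od l).map e) := by
    intro l o pw
    induction l with
    | nil => simpa [Op0.evl] using tor_nil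
    | cons x l ih =>
      simp only [Op0.pw, Bool.and_eq_true, List.all_eq_true] at pw
      have ox := o x (by simp)
      rw [List.map_cons, lift_step (by simpa only [List.mem_cons, List.mem_map, forall_eq_or_imp, forall_exists_index, and_imp, forall_apply_eq_imp_iff₂] using o)
        (by simp only [List.forall_mem_map]; exact fun y hy => h.orth (pw.1 y hy)) t0, Op0.evl,
        List.map_append]
      refine Tor.mul ?_ (ih (fun y hy => o y (by simp [hy])) pw.2)
      cases q : od x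
      · have : S.sg (k.map e) (e x) = 1 := by
          simp only [hod, Ops.od, Bool.or_eq_false_iff, beq_eq_false_iff_ne] at q
          rw [s1.sg, (Int.even_iff.2 (by omega)).neg_one_zpow]
        rw [(t0.N ox).1 this, h.B, h.rho]
        rcases ox.2 with l | l
        · simpa [l, S.R2 _ ox.1] using tor_long ox.1 l
        · simpa [l, h.rho] using tor_short ox.1 l
      · simpa [(t0.N ox).2 (s1.od q)] using tor_nil
  refine lift_core (om.map e) (by simpa only [List.mem_map, forall_exists_index, and_imp, forall_apply_eq_imp_iff₂] using o1) m0 t0 ?_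
  obtain ⟨f, e1, -, e2⟩ := inv om o1 p2
  rw [e1]
  have e3 : ∀ (l : List Cd) c, (l.map fun d => S.B (e d)).sum c = (l.map fun d => S.B (e d) c).sum :=
    fun l c => by induction l <;> simp [*]
  refine S.hh_one f fun β hβ => ?_
  rw [e2 β hβ, St.sg, List.map_map]
  refine Even.neg_one_zpow (e3 _ β ▸ span _ (fun d hd r => ?_) β hβ)
  have := (p5 d hd).resolve_left (by simp [Ops.isR, Op0.ops, h.B, S.R2 _ r])
  simp only [Ops.ev, Ops.par, Op0.ops, h.B, h.rho, Bool.and_eq_true, beq_iff_eq] at this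
  rw [e3, e3, Int.even_iff, Int.even_iff]
  exact this

omit [DecidableEq Cd] in
theorem snd {m2 mtr mid odd : Bool} (md : Md S.φ m2 mtr mid odd) {l l' : List Cd}
    (o : ∀ z ∈ l, S.Ok (e z)) (o' : ∀ z ∈ l', S.Ok (e z)) :
    Sound S 0 0 (O.ops l l' m2 mtr mid odd) e (S.W (l.map e)) (S.W (l'.map e)) :=
  ⟨h.B, h.rho, fun c d q => by cases q; exact h.W o c, fun c d q => by cases q; exact h.W o' c,
    h.root, md.m2, md.mtr, fun m => ⟨md.mid m, rfl⟩, md.odd⟩

theorem oks {m2 mtr mid odd : Bool} (md : Md S.φ m2 mtr mid odd) {l l' q : List Cd}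
    (p : q.all fun z => (O.ops l l' m2 mtr mid odd).isR z && (O.ops l l' m2 mtr mid odd).okt z) :
    ∀ z ∈ q, S.Ok (e z) := by
  have s0 := h.snd md (l := []) (l' := []) (by simp) (by simp)
  simp only [List.all_eq_true, Bool.and_eq_true] at p
  exact fun z hz => ⟨s0.isR (p z hz).1, s0.okt (s0.isR (p z hz).1) (p z hz).2⟩

omit [DecidableEq Cd] in
theorem mon_c {a : G} {om wd : List Cd} (o1 : ∀ z ∈ om, S.Ok (e z)) (o3 : ∀ z ∈ wd, S.Ok (e z))
    (ma : S.Mon a (S.W (om.map e))) :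
    ∃ σ ∈ S.Gs, S.Mon (σ * a * σ⁻¹) (S.W ((om.map (O.W wd)).map e)) := by
  obtain ⟨hσ, mσ⟩ := word (wd.map e) (by simpa only [List.mem_map, forall_exists_index, and_imp, forall_apply_eq_imp_iff₂] using o3)
  refine ⟨_, hσ, ?_⟩
  convert (mσ.mul ma).mul mσ.inv using 1
  ext v
  simp only [AddEquiv.trans_apply]
  rw [mσ.W _ (by simpa only [List.mem_map, forall_exists_index, and_imp, forall_apply_eq_imp_iff₂] using o1), AddEquiv.apply_symm_apply, List.map_map, List.map_map]
  congr 3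
  ext z
  exact h.W o3 z

theorem main [Finite K] {m2 mtr mid odd : Bool} (md : Md S.φ m2 mtr mid odd) {tc : List Cd}
    {g : GCert Cd} (p : O.check m2 mtr mid odd tc g)
    (fin : ∀ H : Subgroup G, (∀ d ∈ tc, S.Fu H (e d)) → ∀ β, S.Fu H β)
    (span : ∀ f : L →+ ℤ, (∀ d ∈ tc, S.R (e d) → Even (f (e d)) ∧ Even (f (S.ρ (e d)))) →
      ∀ β, S.R β → Even (f β)) :
    IsLeast {n | Good S.Gs n} 3 := by
  simp only [Op0.check, Bool.and_eq_true] at p
  obtain ⟨⟨⟨⟨⟨p1, p2⟩, p6⟩, p7⟩, p8⟩, p9⟩ := p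
  have ok := h.oks md p1
  have o1 : ∀ z ∈ g.om, S.Ok (e z) := fun z hz => ok z (by simp [hz])
  have o2 : ∀ z ∈ g.om', S.Ok (e z) := fun z hz => ok z (by simp [hz])
  have s1 := h.snd md o1 o2
  obtain ⟨a, ha, aa, ma, ca⟩ := h.lift s1 o1 p2 span
  obtain ⟨σ, hσ, mc⟩ := h.mon_c (wd := g.word) o1 (fun z hz => ok z (by simp [hz])) ma
  simp only [List.all_eq_true, Bool.and_eq_true, Bool.or_eq_true, beq_iff_eq] at p6 p7
  refine top s1 ha hσ aa ma (p6 ▸ mc) (fun q => ?_) p9 (by simpa using p8) fun H _ _ => fin H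
  have := p7.resolve_left (by simpa using q)
  exact fun m hm => ca _ (s1.ev this.1) (by
    simp only [List.forall_mem_map]; exact fun z hz => h.orth (this.2 z hz)) m hm

end Snd0

end Pool.Agent.MP_c78e8e_al.H75

end
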